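import Mathlib

/-! A verified checker for coset enumeration certificates.

Letters are natural numbers: letter `2 * j` is the generator `base j`, letter `2 * j + 1` is its
inverse, and `base 0 = 1` is the empty letter. An edge `(s, g, d)` of the certificate says that
the coset `H * val s * gen g` equals `H * val d`. -/

set_option autoImplicit false

namespace Pool.Agent.Lib.MP_429c3d_al

/-- inverse letter -/
def invL (g : ℕ) : ℕ := bif Nat.beq (g % 2) 0 then g + 1 else g - 1

/-- push a letter on a (reversed) word with free cancellation -/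
def push (g : ℕ) (w : List ℕ) : List ℕ :=
  bif Nat.ble g 1 then w else
    match w with
    | [] => [g]
    | x :: xs => bif Nat.beq x (invL g) then xs else g :: x :: xs

/-- field number `k` (16 bits wide) of the table -/
def fld (T k : ℕ) : ℕ := (T >>> (16 * k)) % 65536

/-- walk along a path of earlier edges, collecting the labels -/
def walk (T i : ℕ) : List ℕ → ℕ → List ℕ → Option (ℕ × List ℕ)
  | [], c, w => some (c, w)
  | e :: es, c, w =>
    bif Nat.ble i (e / 2) then none else
      bif Nat.beq (e % 2) 0 then
        bif Nat.beq (fld T (3 * (e / 2))) c then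
          walk T i es (fld T (3 * (e / 2) + 2)) (push (fld T (3 * (e / 2) + 1)) w) else none
      else
        bif Nat.beq (fld T (3 * (e / 2) + 2)) c then
          walk T i es (fld T (3 * (e / 2))) (push (invL (fld T (3 * (e / 2) + 1))) w) else none

def leq : List ℕ → List ℕ → Bool
  | [], [] => true
  | x :: xs, y :: ys => Nat.beq x y && leq xs ys
  | _, _ => false

def memL (g : ℕ) : List ℕ → Bool
  | [] => false
  | x :: xs => Nat.beq x g || memL g xs

/-- check one step -/
def step (T : ℕ) (rels : List (List ℕ)) (subs : List ℕ) (i : ℕ) : List ℕ → Bool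
  | [] => Nat.beq (fld T (3 * i + 2)) i && Nat.ble (fld T (3 * i) + 1) i
  | [_] => Nat.beq (fld T (3 * i)) 0 && Nat.beq (fld T (3 * i + 2)) 0 &&
      memL (fld T (3 * i + 1)) subs
  | r :: k :: p =>
    match walk T i p (fld T (3 * i)) [] with
    | none => false
    | some (c, w) => Nat.beq c (fld T (3 * i + 2)) &&
        leq (push (invL (fld T (3 * i + 1))) w) ((rels.getD r []).drop k ++ (rels.getD r []).take k)

def steps (T : ℕ) (rels : List (List ℕ)) (subs : List ℕ) : ℕ → List (List ℕ) → Bool
  | _, [] => true
  | i, s :: ss => step T rels subs i s && steps T rels subs (i + 1) ss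

section Sound

variable {Γ : Type*} [Group Γ] (base : ℕ → Γ)

def gen (g : ℕ) : Γ := if g % 2 = 0 then base (g / 2) else (base (g / 2))⁻¹

/-- value of a reversed word -/
def ev : List ℕ → Γ
  | [] => 1
  | x :: xs => ev xs * gen base x

theorem gen_invL (g : ℕ) : gen base (invL g) = (gen base g)⁻¹ := by
  unfold invL gen
  rcases Nat.mod_two_eq_zero_or_one g with h | h
  · have h1 : (g + 1) % 2 = 1 := by omega
    have h2 : (g + 1) / 2 = g / 2 := by omega
    simp [h, h1, h2]
  · have h1 : (g - 1) % 2 = 0 := by omega
    have h2 : (g - 1) / 2 = g / 2 := by omega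
    have h3 : Nat.beq 1 0 = false := rfl
    simp [h, h1, h2, h3]

theorem ev_append (u v : List ℕ) : ev base (u ++ v) = ev base v * ev base u := by
  induction u with
  | nil => simp [ev]
  | cons x xs ih => simp [ev, ih, mul_assoc]

theorem ev_inv (u : List ℕ) : ev base (u.map invL).reverse = (ev base u)⁻¹ := by
  induction u with
  | nil => simp [ev]
  | cons x xs ih => simp [ev, ev_append, ih, gen_invL]

theorem ev_push (h0 : base 0 = 1) (g : ℕ) (w : List ℕ) :
    ev base (push g w) = ev base w * gen base g := by
  unfold push
  cases hg : Nat.ble g 1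
  · cases w with
    | nil => simp [ev]
    | cons x xs =>
      cases hx : Nat.beq x (invL g)
      · simp [ev, hx]
      · have := Nat.eq_of_beq_eq_true hx
        simp [ev, this, gen_invL]
  · have h1 : g / 2 = 0 := by
      have := Nat.le_of_ble_eq_true hg
      omega
    simp [gen, h1, h0]

theorem leq_eq : ∀ {u v : List ℕ}, leq u v = true → u = v
  | [], [], _ => rfl
  | x :: xs, y :: ys, h => by
    simp only [leq, Bool.and_eq_true] at h
    rw [Nat.eq_of_beq_eq_true h.1, leq_eq h.2]
  | [], _ :: _, h => by simp [leq] at h
  | _ :: _, [], h => by simp [leq] at h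

theorem memL_mem {g : ℕ} : ∀ {l : List ℕ}, memL g l = true → g ∈ l
  | [], h => by simp [memL] at h
  | x :: xs, h => by
    simp only [memL, Bool.or_eq_true] at h
    rcases h with h | h
    · simp [Nat.eq_of_beq_eq_true h]
    · exact List.mem_cons_of_mem _ (memL_mem h)

/-- the coset representative of point `j` -/
def val (T : ℕ) (j : ℕ) : Γ :=
  if fld T (3 * j) < j then val T (fld T (3 * j)) * gen base (fld T (3 * j + 1)) else 1
termination_by j

/-- the meaning of edge `i` -/
def Holds (H : Subgroup Γ) (T i : ℕ) : Prop :=
  val base T (fld T (3 * i)) * gen base (fld T (3 * i + 1)) * (val base T (fld T (3 * i + 2)))⁻¹ ∈ H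

theorem walk_sound (h0 : base 0 = 1) (H : Subgroup Γ) (T i : ℕ)
    (hi : ∀ j < i, Holds base H T j) (z : Γ) :
    ∀ (p : List ℕ) (c : ℕ) (w : List ℕ) (c' : ℕ) (w' : List ℕ),
      walk T i p c w = some (c', w') → z * ev base w * (val base T c)⁻¹ ∈ H →
      z * ev base w' * (val base T c')⁻¹ ∈ H
  | [], c, w, c', w', h, hz => by
    simp only [walk, Option.some.injEq, Prod.mk.injEq] at h
    rw [← h.1, ← h.2]
    exact hz
  | e :: es, c, w, c', w', h, hz => by
    unfold walk at h
    cases h1 : Nat.ble i (e / 2)
    · have hlt : e / 2 < i := by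
        by_contra hc
        rw [Nat.ble_eq_true_of_le (not_lt.1 hc)] at h1
        exact absurd h1 (by simp)
      have he := hi _ hlt
      unfold Holds at he
      simp only [h1, cond_false] at h
      cases h2 : Nat.beq (e % 2) 0
      · simp only [h2, cond_false] at h
        cases h3 : Nat.beq (fld T (3 * (e / 2) + 2)) c
        · simp [h3] at h
        · simp only [h3, cond_true] at h
          refine walk_sound h0 H T i hi z es _ _ _ _ h ?_
          rw [Nat.eq_of_beq_eq_true h3] at he
          have := H.mul_mem hz (H.inv_mem he)
          rw [ev_push base h0, gen_invL]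
          simpa [mul_assoc] using this
      · simp only [h2, cond_true] at h
        cases h3 : Nat.beq (fld T (3 * (e / 2))) c
        · simp [h3] at h
        · simp only [h3, cond_true] at h
          refine walk_sound h0 H T i hi z es _ _ _ _ h ?_
          rw [Nat.eq_of_beq_eq_true h3] at he
          have := H.mul_mem hz he
          rw [ev_push base h0]
          simpa [mul_assoc] using this
    · simp [h1] at h

theorem val_zero (T : ℕ) : val base T 0 = 1 := by
  rw [val]
  simp

theorem step_sound (h0 : base 0 = 1) (H : Subgroup Γ) (T : ℕ) (rels : List (List ℕ))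
    (subs : List ℕ) (hr : ∀ w ∈ rels, ev base w = 1) (hs : ∀ g ∈ subs, gen base g ∈ H) (i : ℕ)
    (hi : ∀ j < i, Holds base H T j) :
    ∀ s : List ℕ, step T rels subs i s = true → Holds base H T i
  | [], h => by
    simp only [step, Bool.and_eq_true] at h
    have h1 := Nat.eq_of_beq_eq_true h.1
    have h2 : fld T (3 * i) < i := Nat.le_of_ble_eq_true h.2
    unfold Holds
    rw [h1, val.eq_1 base T i, if_pos h2]
    simp
  | [_], h => by
    simp only [step, Bool.and_eq_true] at h
    unfold Holds
    rw [Nat.eq_of_beq_eq_true h.1.1, Nat.eq_of_beq_eq_true h.1.2, val_zero]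
    simpa using hs _ (memL_mem h.2)
  | r :: k :: p, h => by
    unfold step at h
    cases hw : walk T i p (fld T (3 * i)) [] with
    | none => simp [hw] at h
    | some q =>
      obtain ⟨c, w⟩ := q
      simp only [hw, Bool.and_eq_true] at h
      have h1 := walk_sound base h0 H T i hi (val base T (fld T (3 * i))) p _ _ _ _ hw
        (by simp [ev])
      have h2 := congrArg (ev base) (leq_eq h.2)
      have h3 : ev base (rels.getD r []) = 1 := by
        rcases lt_or_ge r rels.length with hl | hl
        · rw [List.getD_eq_getElem _ _ hl]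
          exact hr _ (List.getElem_mem hl)
        · rw [List.getD_eq_default _ _ hl]
          rfl
      rw [← List.take_append_drop k (rels.getD r []), ev_append, mul_eq_one_comm] at h3
      rw [ev_push base h0, gen_invL, ev_append, h3, mul_inv_eq_one] at h2
      unfold Holds
      rw [← Nat.eq_of_beq_eq_true h.1, ← h2]
      exact h1

theorem steps_sound (h0 : base 0 = 1) (H : Subgroup Γ) (T : ℕ) (rels : List (List ℕ))
    (subs : List ℕ) (hr : ∀ w ∈ rels, ev base w = 1) (hs : ∀ g ∈ subs, gen base g ∈ H) :
    ∀ (ss : List (List ℕ)) (i : ℕ), (∀ j < i, Holds base H T j) →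
      steps T rels subs i ss = true → ∀ j < i + ss.length, Holds base H T j
  | [], _, hi, _ => by simpa using hi
  | s :: ss, i, hi, h => by
    simp only [steps, Bool.and_eq_true] at h
    have h1 := step_sound base h0 H T rels subs hr hs i hi s h.1
    have h2 := steps_sound h0 H T rels subs hr hs ss (i + 1) (fun j hj => by
      rcases Nat.lt_succ_iff_lt_or_eq.1 hj with h' | h'
      · exact hi j h'
      · rw [h']
        exact h1) h.2
    intro j hj
    exact h2 j (by simp only [List.length_cons] at hj; omega)

/-- Soundness of a certificate: a closed path at the base point spells an element of `H`. -/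
theorem cert_sound (h0 : base 0 = 1) (H : Subgroup Γ) (T : ℕ) (rels : List (List ℕ))
    (subs : List ℕ) (hr : ∀ w ∈ rels, ev base w = 1) (hs : ∀ g ∈ subs, gen base g ∈ H)
    (ss : List (List ℕ)) (p w : List ℕ)
    (h : steps T (rels ++ rels.map fun u => (u.map invL).reverse) subs 0 ss = true)
    (hw : walk T ss.length p 0 [] = some (0, w)) : ev base w ∈ H := by
  have h1 := steps_sound base h0 H T _ subs (fun u hu => by
    rcases List.mem_append.1 hu with hu | hu
    · exact hr u hu
    · obtain ⟨v, hv, rfl⟩ := List.mem_map.1 hu
      rw [ev_inv, hr v hv, inv_one]) hs ss 0 (fun j hj => absurd hj (Nat.not_lt_zero _)) h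
  have h2 := walk_sound base h0 H T ss.length (by simpa using h1) 1 p 0 [] 0 w hw
    (by simp [ev, val_zero])
  simpa [val_zero] using h2

end Sound

end Pool.Agent.Lib.MP_429c3d_al
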