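import Mathlib

/-! Conjugacy classes are transversals of centralizers in groups with the law
`[x,y] = [x, n y]`; a counting argument in the style of Frobenius groups. -/

set_option autoImplicit false

namespace Pool.Agent.Lib.MP_429c3d_al.Fit

universe u

variable {G : Type u} [Group G] {m : ℕ}

/-- The commutator `[x, y]`. -/
def cm (y x : G) : G := x⁻¹ * y⁻¹ * x * y

/-- The law `[x, y] = [x, (m + 2) y]`. -/
def Gup (G : Type u) [Group G] (m : ℕ) : Prop := ∀ x y : G, cm y x = (cm y)^[m + 2] x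

theorem cm_eq_iff {y x x' : G} : cm y x = cm y x' ↔ Commute (x' * x⁻¹) y := by
  unfold cm
  constructor
  · intro h
    have h1 : x⁻¹ * y⁻¹ * x = x'⁻¹ * y⁻¹ * x' := mul_right_cancel h
    have h2 : x' * x⁻¹ * y⁻¹ = y⁻¹ * (x' * x⁻¹) := by
      calc x' * x⁻¹ * y⁻¹ = x' * (x⁻¹ * y⁻¹ * x) * x⁻¹ := by group
        _ = y⁻¹ * (x' * x⁻¹) := by rw [h1]; group
    exact Commute.inv_right_iff.mp h2
  · intro h
    have h2 : x' * x⁻¹ * y⁻¹ = y⁻¹ * (x' * x⁻¹) := h.inv_right.eq
    calc x⁻¹ * y⁻¹ * x * y = x'⁻¹ * (x' * x⁻¹ * y⁻¹) * x * y := by group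
      _ = x'⁻¹ * y⁻¹ * x' * y := by rw [h2]; group

theorem cm_one (y : G) : cm y 1 = 1 := by simp [cm]

theorem cm_eq_one {y x : G} : cm y x = 1 ↔ Commute x y := by
  rw [← cm_one y, eq_comm, cm_eq_iff, inv_one, mul_one]

theorem map_cm {H : Type u} [Group H] (f : G →* H) (y x : G) : f (cm y x) = cm (f y) (f x) := by
  simp [cm]

theorem map_iter {H : Type u} [Group H] (f : G →* H) (y : G) (k : ℕ) (x : G) :
    f ((cm y)^[k] x) = (cm (f y))^[k] (f x) := by
  induction k with
  | zero => rfl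
  | succ k ih => rw [Function.iterate_succ_apply', Function.iterate_succ_apply', map_cm, ih]

theorem Gup.sub (h : Gup G m) (H : Subgroup G) : Gup H m := fun x y =>
  H.subtype_injective (by rw [map_cm, map_iter]; exact h _ _)

theorem Gup.quot (h : Gup G m) (N : Subgroup G) [N.Normal] : Gup (G ⧸ N) m := by
  intro x y
  obtain ⟨x, rfl⟩ := QuotientGroup.mk'_surjective N x
  obtain ⟨y, rfl⟩ := QuotientGroup.mk'_surjective N y
  rw [← map_cm, ← map_iter, ← h]

theorem Gup.eps (h : Gup G m) (x y : G) : Commute (x * ((cm y)^[m + 1] x)⁻¹) y := by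
  rw [← cm_eq_iff, h x y, Function.iterate_succ_apply' (cm y) (m + 1)]

theorem Gup.inj (h : Gup G m) {y a a' : G} (hc : Commute (cm y a' * (cm y a)⁻¹) y) :
    cm y a = cm y a' := by
  rw [← cm_eq_iff] at hc
  rw [h a, h a', Function.iterate_succ_apply, Function.iterate_succ_apply,
    Function.iterate_succ_apply, Function.iterate_succ_apply, hc]

theorem Gup.central (h : Gup G m) {x y : G} (hc : Commute (cm y x) y) : Commute x y := by
  rw [← cm_eq_one, ← cm_one y]
  exact (h.inj (by rwa [cm_one, inv_one, mul_one])).symm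

/-- A coset of the centralizer of a conjugate of `z` contains at most one conjugate of `z`. -/
theorem Gup.conj_eq (h : Gup G m) {b b' w : G} (hb : IsConj w b) (hb' : IsConj w b')
    (hc : Commute (b' * b⁻¹) w) : b = b' := by
  obtain ⟨c, rfl⟩ := isConj_iff.mp hb
  obtain ⟨c', rfl⟩ := isConj_iff.mp hb'
  have h1 : cm w⁻¹ c⁻¹ = cm w⁻¹ c'⁻¹ := by
    refine h.inj ?_
    have : cm w⁻¹ c'⁻¹ * (cm w⁻¹ c⁻¹)⁻¹ = c' * w * c'⁻¹ * (c * w * c⁻¹)⁻¹ := by
      unfold cm; group
    rw [this]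
    exact hc.inv_right
  unfold cm at h1
  simpa using h1

/-- Every coset of the centralizer of `z` contains a conjugate of `z`. -/
theorem Gup.exists_conj (h : Gup G m) (z g : G) : ∃ a, Commute a z ∧ IsConj z (a * g) := by
  have h1 := h.eps g z⁻¹
  rw [Function.iterate_succ_apply'] at h1
  generalize (cm z⁻¹)^[m] g = x at h1
  refine ⟨z * (g * (cm z⁻¹ x)⁻¹)⁻¹, (Commute.refl z).mul_left
    (Commute.inv_right_iff.mp h1).inv_left, isConj_iff.mpr ⟨z * x⁻¹, ?_⟩⟩
  unfold cm
  group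

/-- `x` is conjugate to a nontrivial element of `A`. -/
def Typ (A : Subgroup G) (x : G) : Prop := ∃ z ∈ A, z ≠ 1 ∧ IsConj z x

theorem Typ.conj {A : Subgroup G} {x x' : G} (h : Typ A x) (hc : IsConj x x') : Typ A x' := by
  obtain ⟨z, h1, h2, h3⟩ := h
  exact ⟨z, h1, h2, h3.trans hc⟩

section Isolated

variable {A : Subgroup G}

theorem Gup.one_left (h : Gup G m) [Finite A]
    (hc : ∀ z ∈ A, z ≠ 1 → ∀ x, Commute x z ↔ x ∈ A) {g a a' : G} (ha : a ∈ A) (ha' : a' ∈ A)
    (h1 : ¬ Typ A (a * g)) (h2 : ¬ Typ A (a' * g)) : a = a' := by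
  classical
  by_contra hne
  have hex : ∀ z : {z : A // z ≠ 1}, ∃ b : {b : A // b ≠ ⟨a, ha⟩ ∧ b ≠ ⟨a', ha'⟩},
      IsConj (z.1 : G) ((b.1 : G) * g) := by
    intro z
    have hz : (z.1 : G) ≠ 1 := fun e => z.2 (Subtype.ext e)
    obtain ⟨b, hb, hj⟩ := h.exists_conj (z.1 : G) g
    refine ⟨⟨⟨b, (hc _ z.1.2 hz b).mp hb⟩, fun e => h1 ?_, fun e => h2 ?_⟩, hj⟩
    · rw [← show b = a from congrArg Subtype.val e]; exact ⟨_, z.1.2, hz, hj⟩
    · rw [← show b = a' from congrArg Subtype.val e]; exact ⟨_, z.1.2, hz, hj⟩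
  choose β hβ using hex
  have hinj : Function.Injective β := by
    intro z z' e
    have hz : (z.1 : G) ≠ 1 := fun e => z.2 (Subtype.ext e)
    have h3 : IsConj (z.1 : G) (z'.1 : G) := (hβ z).trans (by rw [e]; exact (hβ z').symm)
    refine Subtype.ext (Subtype.ext (h.conj_eq (IsConj.refl _) h3 ?_))
    exact (hc _ z.1.2 hz _).mpr (A.mul_mem z'.1.2 (A.inv_mem z.1.2))
  have := Fintype.ofFinite A
  have h3 := Fintype.card_le_of_injective β hinj
  rw [Fintype.card_subtype, Fintype.card_subtype] at h3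
  have e1 : (Finset.univ.filter fun z : A => z ≠ 1) = Finset.univ.erase 1 := by
    ext z; simp
  have e2 : (Finset.univ.filter fun b : A => b ≠ ⟨a, ha⟩ ∧ b ≠ ⟨a', ha'⟩) =
      (Finset.univ.erase ⟨a', ha'⟩).erase ⟨a, ha⟩ := by
    ext z; simp
  have hm : (⟨a, ha⟩ : A) ∈ Finset.univ.erase (⟨a', ha'⟩ : A) := by
    simpa using hne
  rw [e1, e2, Finset.card_erase_of_mem hm, Finset.card_erase_of_mem (Finset.mem_univ _),
    Finset.card_erase_of_mem (Finset.mem_univ _)] at h3
  have h4 := Finset.card_pos.mpr ⟨_, hm⟩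
  rw [Finset.card_erase_of_mem (Finset.mem_univ _)] at h4
  omega

theorem Gup.closed (h : Gup G m) [Finite A]
    (hc : ∀ z ∈ A, z ≠ 1 → ∀ x, Commute x z ↔ x ∈ A) {k k' : G} (h1 : ¬ Typ A k)
    (h2 : ¬ Typ A k') : ¬ Typ A (k' * k⁻¹) := by
  rintro ⟨z, hz, hz1, hj⟩
  obtain ⟨c, hj⟩ := isConj_iff.mp hj
  refine hz1 (h.one_left hc (g := c⁻¹ * k * c) hz A.one_mem (fun t => h2 (t.conj ?_))
    fun t => h1 (t.conj ?_))
  · refine isConj_iff.mpr ⟨c, ?_⟩
    calc c * (z * (c⁻¹ * k * c)) * c⁻¹ = c * z * c⁻¹ * k := by group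
      _ = k' := by rw [hj]; group
  · exact isConj_iff.mpr ⟨c, by group⟩

theorem typ_of_commute (hc : ∀ z ∈ A, z ≠ 1 → ∀ x, Commute x z ↔ x ∈ A) {t w : G}
    (ht : Typ A t) (hw : w ≠ 1) (hcm : Commute w t) : Typ A w := by
  obtain ⟨z, hz, hz1, hj⟩ := ht
  obtain ⟨c, rfl⟩ := isConj_iff.mp hj
  refine ⟨c⁻¹ * w * c, (hc z hz hz1 _).mp ?_, fun e => hw ?_, isConj_iff.mpr ⟨c, by group⟩⟩
  · change c⁻¹ * w * c * z = z * (c⁻¹ * w * c)
    calc c⁻¹ * w * c * z = c⁻¹ * (w * (c * z * c⁻¹)) * c := by group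
      _ = z * (c⁻¹ * w * c) := by rw [hcm.eq]; group
  · calc w = c * (c⁻¹ * w * c) * c⁻¹ := by group
      _ = 1 := by rw [e]; group

/-- A finite subgroup that is the centralizer of each of its nontrivial elements is everything. -/
theorem Gup.isolated (h : Gup G m) [Finite A]
    (hc : ∀ z ∈ A, z ≠ 1 → ∀ x, Commute x z ↔ x ∈ A) {y : G} (hy : y ∈ A) (hy1 : y ≠ 1) (g : G) :
    g ∈ A := by
  by_contra hg
  have k1 : ¬ Typ A 1 := by
    rintro ⟨z, -, hz1, hj⟩
    exact hz1 (isConj_one_left.mp hj)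
  have kinv : ∀ k, ¬ Typ A k → ¬ Typ A k⁻¹ := fun k hk => by
    simpa using h.closed hc hk k1
  have hu1 : cm y g ≠ 1 := fun e => hg ((hc y hy hy1 g).mp (cm_eq_one.mp e))
  have hu : ¬ Typ A (cm y g) := by
    rintro ⟨z, hz, -, hj⟩
    obtain ⟨c, hj⟩ := isConj_iff.mp hj
    have h1 : Commute z y := (hc y hy hy1 z).mpr hz
    have h2 : y⁻¹ = g⁻¹ * y⁻¹ * g := by
      refine h.conj_eq (w := c * y⁻¹ * c⁻¹) (isConj_iff.mpr ⟨c⁻¹, by group⟩)
        (isConj_iff.mpr ⟨g⁻¹ * c⁻¹, by group⟩) ?_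
      have h3 : g⁻¹ * y⁻¹ * g * y⁻¹⁻¹ = c * z * c⁻¹ := by rw [hj, inv_inv]; rfl
      rw [h3]
      change c * z * c⁻¹ * (c * y⁻¹ * c⁻¹) = c * y⁻¹ * c⁻¹ * (c * z * c⁻¹)
      calc c * z * c⁻¹ * (c * y⁻¹ * c⁻¹) = c * (z * y⁻¹) * c⁻¹ := by group
        _ = _ := by rw [h1.inv_right.eq]; group
    exact hu1 (by unfold cm; rw [← h2]; group)
  generalize cm y g = w at hu1 hu
  have h1 := h.eps y w
  rw [Function.iterate_succ_apply'] at h1
  generalize (cm w)^[m] y = x at h1
  have h2 : ¬ Typ A (cm w x) := by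
    have h3 : ¬ Typ A (x⁻¹ * w⁻¹ * x) := fun t =>
      kinv w hu (t.conj (isConj_iff.mpr ⟨x, by group⟩))
    have h4 := h.closed hc (kinv w hu) h3
    rwa [inv_inv] at h4
  have h5 : Typ A (y * (cm w x)⁻¹) := by
    by_contra h6
    have h7 := h.closed hc (kinv _ h2) h6
    rw [inv_inv, inv_mul_cancel_right] at h7
    exact h7 ⟨y, hy, hy1, IsConj.refl _⟩
  exact hu (typ_of_commute hc h5 hu1 h1.symm)

end Isolated

theorem cm_mem_left (M : Subgroup G) [hM : M.Normal] {w : G} (hw : w ∈ M) (x : G) :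
    cm w x ∈ M := by
  have := hM.conj_mem _ (M.inv_mem hw) x⁻¹
  rw [inv_inv] at this
  exact M.mul_mem this hw

theorem cm_mem_right (M : Subgroup G) [hM : M.Normal] (y : G) {x : G} (hx : x ∈ M) :
    cm y x ∈ M := by
  have := M.mul_mem (M.inv_mem hx) (hM.conj_mem _ hx y⁻¹)
  have e : cm y x = x⁻¹ * (y⁻¹ * x * y⁻¹⁻¹) := by unfold cm; group
  rwa [e]

theorem iter_mem (M : Subgroup G) [M.Normal] (y : G) (k : ℕ) {x : G} (hx : x ∈ M) :
    (cm y)^[k] x ∈ M := by
  induction k with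
  | zero => exact hx
  | succ k ih => rw [Function.iterate_succ_apply']; exact cm_mem_right M y ih

/-- No element acts without fixed points on a nontrivial normal subgroup. -/
theorem Gup.fpf (h : Gup G m) (M : Subgroup G) [hM : M.Normal] {y : G}
    (hy : ∀ x ∈ M, Commute x y → x = 1) {w : G} (hw : w ∈ M) : w = 1 := by
  have h1 := h.eps y w
  have h2 : (cm w)^[m + 1] y ∈ M := by
    rw [Function.iterate_succ_apply']; exact cm_mem_left M hw _
  generalize (cm w)^[m + 1] y = e at h1 h2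
  have h3 := hy _ (M.mul_mem h2 (M.inv_mem (iter_mem M y (m + 1) h2))) (h.eps e y)
  rw [mul_inv_eq_one, Function.iterate_succ_apply'] at h3
  generalize (cm y)^[m] e = x at h3
  have h4 : y * e⁻¹ = x⁻¹ * y * x := by rw [h3]; unfold cm; group
  rw [h4] at h1
  have h5 := hy _ (hM.conj_mem _ hw x) (by
    change x * w * x⁻¹ * y = y * (x * w * x⁻¹)
    calc x * w * x⁻¹ * y = x * (w * (x⁻¹ * y * x)) * x⁻¹ := by group
      _ = _ := by rw [← h1.eq]; group)
  calc w = x⁻¹ * (x * w * x⁻¹) * x := by group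
    _ = 1 := by rw [h5]; group

theorem fix_aux (m N : ℕ) : ∀ (G : Type u) [Group G], Gup G m → ∀ (M : Subgroup G) [M.Normal]
    (y : G), {x | x ∈ M ∧ Commute x y}.Finite → {x | x ∈ M ∧ Commute x y}.ncard ≤ N →
    ∀ x ∈ M, Commute x y ∧ ∀ x' ∈ M, Commute x x' := by
  classical
  induction N with
  | zero =>
    intro G _ _ M _ y hf hN
    have := (Set.ncard_pos hf).mpr ⟨1, M.one_mem, Commute.one_left y⟩
    omega
  | succ N ih =>
    intro G _ h M _ y hf hN
    have key : ∀ z ∈ M, Commute z y → z ≠ 1 → ∀ x ∈ M, Commute x z →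
        Commute x y ∧ ∀ x' ∈ M, Commute x' z → Commute x x' := by
      intro z hz hzy hz1
      let L : Subgroup G := Subgroup.centralizer {z}
      have hL : ∀ x, x ∈ L ↔ Commute x z := fun x => by
        simp only [L, Subgroup.mem_centralizer_iff, Set.mem_singleton_iff, forall_eq]
        exact ⟨fun e => e.symm, fun e => e.symm⟩
      let z' : L := ⟨z, (hL z).mpr (Commute.refl z)⟩
      let y' : L := ⟨y, (hL y).mpr hzy.symm⟩
      have hcen : ∀ a ∈ Subgroup.zpowers z', ∀ b : L, Commute a b := by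
        rintro a ⟨k, rfl⟩ b
        exact Commute.zpow_left (Subtype.ext ((hL b).mp b.2).symm.eq) k
      have : (Subgroup.zpowers z').Normal := ⟨fun a ha b => by
        rw [← (hcen a ha b).eq, mul_inv_cancel_right]; exact ha⟩
      let π := QuotientGroup.mk' (Subgroup.zpowers z')
      have hlift : ∀ a b : L, Commute (π a) (π b) → Commute (a : G) (b : G) := by
        intro a b hab
        rw [← cm_eq_one, ← map_cm] at hab
        have h1 : Commute a b := (h.sub L).central (hcen _ ((QuotientGroup.eq_one_iff _).mp hab) b)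
        exact congrArg Subtype.val h1.eq
      have : ((M.subgroupOf L).map π).Normal :=
        Subgroup.Normal.map inferInstance π (QuotientGroup.mk'_surjective _)
      let f : G → L ⧸ Subgroup.zpowers z' := fun g => if hg : g ∈ L then π ⟨g, hg⟩ else 1
      have hsub : {x | x ∈ (M.subgroupOf L).map π ∧ Commute x (π y')} ⊆
          f '' ({x | x ∈ M ∧ Commute x y} \ {z}) := by
        rintro _ ⟨⟨a, ha, rfl⟩, hc⟩
        by_cases haz : (a : G) = z
        · refine ⟨1, ⟨⟨M.one_mem, Commute.one_left y⟩, fun e => hz1 (Eq.symm e)⟩, ?_⟩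
          have e1 : a = z' := Subtype.ext haz
          have e2 : π z' = 1 := (QuotientGroup.eq_one_iff _).mpr (Subgroup.mem_zpowers z')
          simp only [f, dif_pos L.one_mem]
          rw [e1, e2]
          exact map_one π
        · exact ⟨a, ⟨⟨ha, hlift a y' hc⟩, haz⟩, by simp only [f, dif_pos a.2]⟩
      have hfin : ({x | x ∈ M ∧ Commute x y} \ {z}).Finite := hf.subset Set.sdiff_subset
      have hcard : {x | x ∈ (M.subgroupOf L).map π ∧ Commute x (π y')}.ncard ≤ N := by
        have h1 := Set.ncard_le_ncard hsub (hfin.image f)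
        have h2 := Set.ncard_image_le (f := f) hfin
        have h3 := Set.ncard_sdiff_singleton_lt_of_mem
          (show z ∈ {x | x ∈ M ∧ Commute x y} from ⟨hz, hzy⟩) hf
        omega
      have hq := ih _ ((h.sub L).quot _) ((M.subgroupOf L).map π) (π y')
        ((hfin.image f).subset hsub) hcard
      intro x hx hxz
      have hx' := hq (π ⟨x, (hL x).mpr hxz⟩) ⟨_, hx, rfl⟩
      exact ⟨hlift _ _ hx'.1, fun x' h1 h2 =>
        hlift _ _ (hx'.2 (π ⟨x', (hL x').mpr h2⟩) ⟨_, h1, rfl⟩)⟩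
    by_cases h0 : ∀ x ∈ M, Commute x y → x = 1
    · intro x hx
      rw [h.fpf M h0 hx]
      exact ⟨Commute.one_left y, fun x' _ => Commute.one_left x'⟩
    push Not at h0
    obtain ⟨z, hz, hzy, hz1⟩ := h0
    let z' : M := ⟨z, hz⟩
    let A : Subgroup M := Subgroup.centralizer {z'}
    have hA : ∀ x : M, x ∈ A ↔ Commute (x : G) z := fun x => by
      simp only [A, Subgroup.mem_centralizer_iff, Set.mem_singleton_iff, forall_eq]
      exact ⟨fun e => (congrArg Subtype.val e).symm, fun e => Subtype.ext e.symm.eq⟩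
    have : Finite A := by
      have := hf.to_subtype
      refine Finite.of_injective (fun a : A => (⟨a.1.1, a.1.2,
        (key z hz hzy hz1 _ a.1.2 ((hA _).mp a.2)).1⟩ : {x | x ∈ M ∧ Commute x y})) ?_
      intro a b e
      have e1 : a.1.1 = b.1.1 := Subtype.mk.inj e
      exact Subtype.ext (Subtype.ext e1)
    have hall := (h.sub M).isolated (A := A) (fun w hw hw1 x => by
      have hwz := (hA w).mp hw
      have hw1' : (w : G) ≠ 1 := fun e => hw1 (Subtype.ext e)
      have hwy := (key z hz hzy hz1 _ w.2 hwz).1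
      rw [hA]
      constructor
      · intro e
        exact (key w w.2 hwy hw1' x x.2 (congrArg Subtype.val e.eq)).2 z hz hwz.symm
      · intro e
        exact Subtype.ext ((key z hz hzy hz1 x x.2 e).2 w w.2 hwz).eq)
      (y := z') ((hA z').mpr (Commute.refl z)) (fun e => hz1 (congrArg Subtype.val e))
    intro x hx
    have h1 := key z hz hzy hz1 x hx ((hA ⟨x, hx⟩).mp (hall _))
    exact ⟨h1.1, fun x' hx' => h1.2 x' hx' ((hA ⟨x', hx'⟩).mp (hall _))⟩

/-- If `y` has finitely many fixed points on the normal subgroup `M`, it centralizes `M`. -/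
theorem Gup.fix (h : Gup G m) (M : Subgroup G) [M.Normal] {y : G}
    (hf : {x | x ∈ M ∧ Commute x y}.Finite) {x : G} (hx : x ∈ M) : Commute x y :=
  (fix_aux m _ G h M y hf le_rfl x hx).1

theorem Gup.fix_set (h : Gup G m) (M : Subgroup G) [M.Normal] (S : Finset G)
    (hS : ∀ s ∈ S, ∀ t ∈ S, Commute s t) (hf : {x | x ∈ M ∧ ∀ s ∈ S, Commute x s}.Finite) :
    (M : Set G).Finite := by
  classical
  induction S using Finset.induction_on with
  | empty => exact hf.subset fun x hx => ⟨hx, by simp⟩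
  | insert y S _ ih =>
    refine ih (fun s hs t ht => hS s (Finset.mem_insert_of_mem hs) t (Finset.mem_insert_of_mem ht))
      (hf.subset ?_)
    let L : Subgroup G := Subgroup.centralizer (S : Set G)
    have hL : ∀ x, x ∈ L ↔ ∀ s ∈ S, Commute x s := fun x =>
      ⟨fun e s hs => (e s hs).symm, fun e s hs => (e s hs).symm.eq⟩
    let y' : L := ⟨y, (hL y).mpr fun s hs =>
      hS y (Finset.mem_insert_self _ _) s (Finset.mem_insert_of_mem hs)⟩
    have hins : ∀ x : L, (x : G) ∈ M → Commute x y' →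
        (x : G) ∈ {x | x ∈ M ∧ ∀ s ∈ insert y S, Commute x s} := by
      intro x hx hc
      refine ⟨hx, fun s hs => ?_⟩
      rcases Finset.mem_insert.mp hs with rfl | hs
      · exact congrArg Subtype.val hc.eq
      · exact (hL x).mp x.2 s hs
    have hf' : {x : L | x ∈ M.subgroupOf L ∧ Commute x y'}.Finite :=
      (hf.preimage Subtype.val_injective.injOn).subset fun x hx => hins x hx.1 hx.2
    rintro x ⟨hx, hxs⟩
    exact hins ⟨x, (hL x).mpr hxs⟩ hx ((h.sub L).fix (M.subgroupOf L) hf' hx)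

/-- If the centralizer in the normal subgroup `M` of finitely many commuting elements is finite
modulo the centre, then `M` is central. -/
theorem Gup.le_center (h : Gup G m) (M : Subgroup G) [M.Normal] (S : Finset G)
    (hS : ∀ s ∈ S, ∀ t ∈ S, Commute s t)
    (hf : (Subgroup.center G).relIndex (Subgroup.centralizer (S : Set G) ⊓ M) ≠ 0) :
    M ≤ Subgroup.center G := by
  classical
  let π := QuotientGroup.mk' (Subgroup.center G)
  have hlift : ∀ a b : G, Commute (π a) (π b) → Commute a b := by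
    intro a b hab
    rw [← cm_eq_one, ← map_cm] at hab
    exact h.central (Subgroup.mem_center_iff.mp ((QuotientGroup.eq_one_iff _).mp hab) b).symm
  have : (M.map π).Normal := Subgroup.Normal.map inferInstance π (QuotientGroup.mk'_surjective _)
  have hq := h.quot (Subgroup.center G)
  have h1 : ((Subgroup.centralizer (S : Set G) ⊓ M).map π : Set (G ⧸ Subgroup.center G)).Finite := by
    rw [← QuotientGroup.ker_mk' (Subgroup.center G), Subgroup.relIndex_ker] at hf
    exact Set.finite_coe_iff.mp (Nat.finite_of_card_ne_zero hf)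
  have h2 := hq.fix_set (M.map π) (S.image π) (by
    intro s hs t ht
    obtain ⟨s', hs', rfl⟩ := Finset.mem_image.mp hs
    obtain ⟨t', ht', rfl⟩ := Finset.mem_image.mp ht
    exact (hS s' hs' t' ht').map π) (h1.subset (by
    rintro _ ⟨⟨x, hx, rfl⟩, hc⟩
    exact ⟨x, ⟨fun s hs => (hlift x s (hc _ (Finset.mem_image_of_mem π hs))).symm.eq, hx⟩, rfl⟩))
  intro x hx
  refine Subgroup.mem_center_iff.mpr fun y => (hlift x y ?_).symm.eq
  exact hq.fix (M.map π) (h2.subset fun a ha => ha.1) ⟨x, hx, rfl⟩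

theorem Gup.comm_of_le (h : Gup G m) (hf : commutator G ≤ Subgroup.center G) (a b : G) :
    a * b = b * a := by
  have h1 : cm b a ∈ commutator G := by
    have := Subgroup.commutator_mem_commutator (Subgroup.mem_top a⁻¹) (Subgroup.mem_top b⁻¹)
    rw [commutatorElement_def, inv_inv, inv_inv] at this
    exact this
  exact (h.central (Subgroup.mem_center_iff.mp (hf h1) b).symm).eq

end Pool.Agent.Lib.MP_429c3d_al.Fit
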