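import Pool.Agent.Lib.MP_429c3d_al.Pairs
import Pool.Agent.Lib.MP_429c3d_al.Cert4

/-! The law with `n = 4` forces the braid relation on conjugate pairs, hence commutativity. -/

set_option autoImplicit false

namespace Pool.Agent.Lib.MP_429c3d_al

theorem enum4 {Γ : Type*} [Group Γ] (H : Subgroup Γ) (s a r t u v b : Γ) (hs : s * s = 1)
    (hb : b = s * a * s) (hr : r ^ 3 = a ^ 3) (ht : t ^ 3 = a⁻¹ ^ 3) (hu : u ^ 3 = a ^ 6)
    (hv : v ^ 3 = a⁻¹ ^ 6) (cr : r * a = a * r) (ct : t * a = a * t) (cu : u * a = a * u)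
    (cv : v * a = a * v) (h1 : t * b = s * r) (h2 : v * b ^ 2 = s * u) (ha : a ∈ H) (hr' : r ∈ H)
    (ht' : t ∈ H) (hu' : u ∈ H) (hv' : v ∈ H) : b * a * s⁻¹ ∈ H := by
  have hsi : s⁻¹ = s := inv_eq_of_mul_eq_one_right hs
  have hsa : a * s = s * b := by rw [hb, ← mul_assoc, ← mul_assoc, hs, one_mul]
  have hsb : b * s = s * a := by rw [hb, mul_assoc, hs, mul_one]
  have key : ∀ x y w : Γ, x * a = a * x → y * a = a * y → y * w = s * x →
      x⁻¹ * b * x = w⁻¹ * a * w ∧ y⁻¹ * b * y = w * a * w⁻¹ := by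
    intro x y w hx hy e
    have e1 : x = s * y * w := by rw [mul_assoc, e, ← mul_assoc, hs, one_mul]
    have e2 : y = s * x * w⁻¹ := by rw [← e, mul_inv_cancel_right]
    constructor
    · calc x⁻¹ * b * x = w⁻¹ * y⁻¹ * s⁻¹ * (b * s) * y * w := by rw [e1]; group
        _ = w⁻¹ * y⁻¹ * (y * a) * w := by rw [hsb, hy]; group
        _ = _ := by group
    · calc y⁻¹ * b * y = w * x⁻¹ * s⁻¹ * (b * s) * x * w⁻¹ := by rw [e2]; group
        _ = w * x⁻¹ * (x * a) * w⁻¹ := by rw [hsb, hx]; group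
        _ = _ := by group
  obtain ⟨k1, k2⟩ := key r t b cr ct h1
  obtain ⟨k3, k4⟩ := key u v (b ^ 2) cu cv h2
  have e1 : r * r * r * a⁻¹ * a⁻¹ * a⁻¹ = 1 := by
    rw [← pow_three', hr]
    group
  have e2 : t * t * t * a * a * a = 1 := by
    rw [← pow_three', ht]
    group
  have e3 : ∀ x : Γ, x * a = a * x → x * a * x⁻¹ * a⁻¹ = 1 := fun x hx => by
    rw [hx]
    group
  have e5 : t * b * r⁻¹ * s = 1 := by
    rw [h1, mul_inv_cancel_right, hs]
  have e6 : s * a * s * b⁻¹ = 1 := by rw [← hb, mul_inv_cancel]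
  have e7 : u * u * u * a⁻¹ * a⁻¹ * a⁻¹ * a⁻¹ * a⁻¹ * a⁻¹ = 1 := by
    rw [← pow_three', hu]
    group
  have e8 : v * v * v * a * a * a * a * a * a = 1 := by
    rw [← pow_three', hv]
    group
  have e11 : v * b * b * u⁻¹ * s = 1 := by
    rw [mul_assoc v, ← pow_two, h2, mul_inv_cancel_right, hs]
  have e12 : r⁻¹ * b * r * b⁻¹ * a⁻¹ * b = 1 := by
    rw [k1]
    group
  have e13 : u⁻¹ * b * u * b⁻¹ * b⁻¹ * a⁻¹ * b * b = 1 := by
    rw [k3]
    group
  have e14 : t⁻¹ * b * t * b * a⁻¹ * b⁻¹ = 1 := by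
    rw [k2]
    group
  have e15 : v⁻¹ * b * v * b * b * a⁻¹ * b⁻¹ * b⁻¹ = 1 := by
    rw [k4]
    group
  have := cert_sound (fun j => [1, s, a, r, t, u, v, b].getD j 1) rfl H c4T c4R c4H ?_ ?_ c4S _ _
    c4_steps c4_walk
  · simpa [ev, gen] using this
  · simp only [c4R, List.forall_mem_cons, List.not_mem_nil, IsEmpty.forall_iff, implies_true,
      and_true, ev, one_mul]
    exact ⟨hs, e1, e2, e3 r cr, e3 t ct, e5, e6, e7, e8, e3 u cu, e3 v cv, e11, e12, e13, e14, e15⟩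
  · simp only [c4H, List.forall_mem_cons, List.not_mem_nil, IsEmpty.forall_iff, implies_true,
      and_true]
    exact ⟨ha, hr', ht', hu', hv'⟩

theorem Law.braid {G : Type*} [Group G] (h : Law G 3) (y c : G) (hc : IsConj y c) :
    y * c * y = c * y * c := by
  have h1 : PowInj G 1 := powInj_one
  have h2 : PowInj G 2 := h.powInj_two
  have := enum4 (fixFst G) sw ca (h.rr h1) (h.rr h1.neg) (h.rr h2) (h.rr h2.neg) cb rfl rfl
    (by simpa using h.rr_pow h1) (by simpa using h.rr_pow h1.neg)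
    (by exact_mod_cast h.rr_pow h2)
    (by rw [inv_pow, ← zpow_natCast, ← zpow_natCast, ← zpow_neg]; exact h.rr_pow h2.neg)
    (h.rr_ca h1) (h.rr_ca h1.neg) (h.rr_ca h2) (h.rr_ca h2.neg) (by simpa using h.rr_cb h1)
    (by exact_mod_cast h.rr_cb h2) (fun _ => rfl) (fun _ => rfl) (fun _ => rfl) (fun _ => rfl)
    (fun _ => rfl) ⟨(c, y), hc.symm⟩
  change y * c * y⁻¹ * y * (y * c * y⁻¹)⁻¹ = c at this
  calc y * c * y = y * c * y⁻¹ * y * (y * c * y⁻¹)⁻¹ * y * c := by group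
    _ = c * y * c := by rw [this]

theorem Law.comm_four {G : Type*} [Group G] (h : Law G 3) (x y : G) : x * y = y * x :=
  comm_of_braid h.braid x y

end Pool.Agent.Lib.MP_429c3d_al
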