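import Pool.Agent.Lib.MP_429c3d_al.HypBase

set_option autoImplicit false
set_option linter.unusedSectionVars false

/-! Atlases of hyperbolic quotient charts, local geodesics and ladders. -/

namespace Pool.Agent.Lib.MP_429c3d_al.Hyp

variable {V F I : Type} [Group F] [MulAction F V]

/-- A hyperbolic geodesic space with an isometric action, and hyperbolic quotients (charts)
that agree on short elements where they are both good. -/
structure Atlas (d : V → V → ℕ) (N : I → Subgroup F) (good : V → I → Prop) (k σ : ℕ) :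
    Prop where
  met : IsMet d
  sep : ∀ x y, d x y = 0 → x = y
  geo : IsGeo d
  hyp : Hyp4 d k
  inv : ∀ (f : F) x y, d (f • x) (f • y) = d x y
  conj : ∀ (f : F) a, ∃ b, (∀ x, good (f • x) a ↔ good x b) ∧ ∀ g, g ∈ N b ↔ f * g * f⁻¹ ∈ N a
  hypN : ∀ a, Hyp4 (qd d (N a)) k
  cover : ∀ x, ∃ a, ∀ z, d x z ≤ σ → good z a
  compat : ∀ x a b f, good x a → good x b → d x (f • x) ≤ σ → f ∈ N a → f ∈ N b

/-- Elements that are trivial in all charts that are good at `x`. -/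
def Nul (N : I → Subgroup F) (good : V → I → Prop) (x : V) (f : F) : Prop :=
  ∀ a, good x a → f ∈ N a

/-- The chart `a` is good on a ball. -/
def Ball (d : V → V → ℕ) (good : V → I → Prop) (a : I) (x : V) (r : ℕ) : Prop :=
  ∀ z, d x z ≤ r → good z a

/-- Paths that are locally geodesic in the charts. -/
structure LG (d : V → V → ℕ) (N : I → Subgroup F) (good : V → I → Prop) (U : ℕ) (γ : ℕ → V)
    (n : ℕ) : Prop where
  step : ∀ i, i < n → d (γ i) (γ (i + 1)) ≤ 1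
  loc : ∀ a i j, i ≤ j → j ≤ n → j ≤ i + 200 * U → good (γ i) a →
    qd d (N a) (γ i) (γ j) + i = j

/-- The rungs of a ladder. -/
structure Rungs (d : V → V → ℕ) (N : I → Subgroup F) (good : V → I → Prop) (U R : ℕ)
    (γ : ℕ → V) (n : ℕ) (γ' : ℕ → V) (n' : ℕ) (j : ℕ → ℕ) (φ : ℕ → F) : Prop where
  j0 : j 0 ≤ 20 * U
  nul0 : Nul N good (γ 0) (φ 0)
  le : ∀ i, i ≤ n → j i ≤ n'
  rung : ∀ i, i ≤ n → d (γ i) (φ i • γ' (j i)) ≤ R
  up : ∀ i, i < n → j (i + 1) ≤ j i + 20 * U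
  down : ∀ i, i < n → j i ≤ j (i + 1) + 20 * U
  nul : ∀ i, i < n → Nul N good (γ i) (φ (i + 1) * (φ i)⁻¹)

/-- Ladders between two paths. -/
def Lad (d : V → V → ℕ) (N : I → Subgroup F) (good : V → I → Prop) (U R : ℕ)
    (γ : ℕ → V) (n : ℕ) (γ' : ℕ → V) (n' : ℕ) (f : F) : Prop :=
  ∃ (j : ℕ → ℕ) (φ : ℕ → F), j n = n' ∧ φ n = f ∧ Rungs d N good U R γ n γ' n' j φ

variable {d : V → V → ℕ} {N : I → Subgroup F} {good : V → I → Prop} {k σ U : ℕ}

theorem Ball.mono (m : IsMet d) {a : I} {x y : V} {r r' : ℕ} (h : Ball d good a x r)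
    (hr : d x y + r' ≤ r) : Ball d good a y r' := by
  intro z hz
  have := m.tri x y z
  exact h z (by omega)

namespace Atlas

variable (A : Atlas d N good k σ)
include A

theorem qmet (a : I) : IsMet (qd d (N a)) := qd_met A.met A.inv _

/-- The translate of a chart. -/
theorem shift (f : F) (a : I) : ∃ b, (∀ x, good (f • x) a ↔ good x b) ∧
    (∀ g, g ∈ N b ↔ f * g * f⁻¹ ∈ N a) ∧
    (∀ x y, qd d (N a) (f • x) (f • y) = qd d (N b) x y) ∧
    ∀ x r, Ball d good a (f • x) r → Ball d good b x r := by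
  obtain ⟨b, h1, h2⟩ := A.conj f a
  refine ⟨b, h1, h2, fun x y => le_antisymm ?_ ?_, fun x r h z hz => (h1 z).1 (h _ ?_)⟩
  · obtain ⟨g, hg, e⟩ := exists_qd d (N b) x y
    have := qd_le (d := d) ((h2 g).1 hg) (f • x) (f • y)
    rwa [smul_smul, inv_mul_cancel_right, mul_smul, A.inv, e] at this
  · obtain ⟨g, hg, e⟩ := exists_qd d (N a) (f • x) (f • y)
    have := qd_le (d := d) ((h2 (f⁻¹ * g * f)).2 (by simpa [mul_assoc] using hg)) x y
    rwa [← A.inv f, smul_smul, ← mul_assoc, ← mul_assoc, mul_inv_cancel, one_mul, mul_smul,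
      e] at this
  · rwa [A.inv]

theorem qd_smul_le (a : I) (f : F) (x y : V) : qd d (N a) (f • x) (f • y) ≤ d x y := by
  have := qd_le' (d := d) (N a) (f • x) (f • y)
  rwa [A.inv] at this

theorem ball_self {a : I} {x : V} {r : ℕ} (h : Ball d good a x r) : good x a :=
  h x (by rw [A.met.self]; omega)

theorem nul_of_mem {x : V} {a : I} {f : F} (ha : good x a) (hf : f ∈ N a)
    (hd : d x (f • x) ≤ σ) : Nul N good x f := fun b hb => A.compat x a b f ha hb hd hf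

theorem move_le (x y₀ y₁ : V) (φ₀ φ₁ : F) :
    d x ((φ₁ * φ₀⁻¹) • x) ≤ d x (φ₀ • y₀) + d x (φ₁ • y₁) + d y₀ y₁ := by
  have e1 := A.met.tri x (φ₁ • y₁) ((φ₁ * φ₀⁻¹) • x)
  have e2 := A.met.tri (φ₁ • y₁) (φ₁ • y₀) ((φ₁ * φ₀⁻¹) • x)
  have e3 : d (φ₁ • y₀) ((φ₁ * φ₀⁻¹) • x) = d x (φ₀ • y₀) := by
    rw [mul_smul, A.inv, ← A.inv φ₀, smul_inv_smul, A.met.symm]
  have e4 := A.met.symm y₀ y₁
  rw [A.inv] at e2
  omega

theorem qd_indep {x y : V} {a b : I} (ha : good x a) (hb : good x b) (hd : 2 * d x y ≤ σ) :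
    qd d (N a) x y = qd d (N b) x y := by
  have hs : ∀ a b, good x a → good x b → qd d (N a) x y ≤ qd d (N b) x y := by
    intro a b ha hb
    obtain ⟨f, hf, e⟩ := exists_qd d (N b) x y
    have h1 := qd_le' (d := d) (N b) x y
    have h2 := A.move_le x y y 1 f
    rw [inv_one, mul_one, one_smul, A.met.self] at h2
    have := qd_le (d := d) (A.compat x b a f hb ha (by omega) hf) x y
    omega
  exact le_antisymm (hs a b ha hb) (hs b a hb ha)

/-- Changing the translate of the second point by an element of the chart group. -/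
theorem qd_le_of {a : I} {φ ψ : F} (h : φ * ψ⁻¹ ∈ N a) (x y : V) :
    qd d (N a) x (ψ • y) ≤ d x (φ • y) := by
  have := qd_le (d := d) h x (ψ • y)
  rwa [smul_smul, inv_mul_cancel_right] at this

end Atlas

theorem LG.lip (m : IsMet d) {γ : ℕ → V} {n : ℕ} (h : LG d N good U γ n) {i j : ℕ} (hij : i ≤ j)
    (hj : j ≤ n) : d (γ i) (γ j) + i ≤ j :=
  lip_le m (a := 0) (b := n) (fun i _ hi => h.step i hi) (Nat.zero_le _) hij hj

theorem LG.lip' (m : IsMet d) {γ : ℕ → V} {n : ℕ} (h : LG d N good U γ n) {i j s : ℕ}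
    (hi : i ≤ n) (hj : j ≤ n) (h1 : i ≤ j + s) (h2 : j ≤ i + s) : d (γ i) (γ j) ≤ s := by
  rcases le_total i j with hij | hij
  · have := h.lip m hij hj
    omega
  · have := h.lip m hij hi
    have := m.symm (γ i) (γ j)
    omega

theorem LG.mono {γ : ℕ → V} {n n' : ℕ} (h : LG d N good U γ n) (hn : n' ≤ n) :
    LG d N good U γ n' :=
  ⟨fun i hi => h.step i (by omega), fun a i j h1 h2 h3 h4 => h.loc a i j h1 (by omega) h3 h4⟩

theorem LG.locGeo {γ : ℕ → V} {n : ℕ} (h : LG d N good U γ n) {a : I} {p q : ℕ} (hq : q ≤ n)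
    (hg : ∀ t, p ≤ t → t ≤ q → good (γ t) a) : LocGeo (qd d (N a)) (200 * U) γ p q :=
  fun i j h1 h2 h3 h4 => h.loc a i j h2 (by omega) h4 (hg i h1 (by omega))

namespace Atlas

variable (A : Atlas d N good k σ)
include A

theorem lg_const (x : V) : LG d N good U (fun _ => x) 0 :=
  ⟨fun i hi => by omega, fun a i j h1 h2 _ _ => by
    rw [(A.qmet a).self]
    omega⟩

theorem lg_smul {γ : ℕ → V} {n : ℕ} (h : LG d N good U γ n) (f : F) :
    LG d N good U (fun i => f • γ i) n :=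
  ⟨fun i hi => by simpa [A.inv] using h.step i hi, fun a i j h1 h2 h3 h4 => by
    obtain ⟨b, b1, -, b3, -⟩ := A.shift f a
    simpa [b3] using h.loc b i j h1 h2 h3 ((b1 _).1 h4)⟩

/-- Nearby points of a local geodesic have nearby indices. -/
theorem idx_le (hk : 20 * k + 20 ≤ U) {γ : ℕ → V} {n : ℕ} (h : LG d N good U γ n) {a : I}
    {p q : ℕ} (hpq : p ≤ q) (hq : q ≤ n) (hg : ∀ t, p ≤ t → t ≤ q → good (γ t) a)
    (hd : qd d (N a) (γ p) (γ q) ≤ 100 * U) : qd d (N a) (γ p) (γ q) + p = q := by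
  by_cases hc : q ≤ p + 200 * U
  · exact h.loc a p q hpq hq hc (hg p le_rfl hpq)
  · have e1 := loc_prod (A.qmet a) (A.hypN a) (by omega) (h.locGeo hq hg) (i := p)
      (j := p + 200 * U) (l := q) le_rfl (by omega) (by omega) le_rfl
    have e2 := h.loc a p (p + 200 * U) (by omega) (by omega) le_rfl (hg p le_rfl hpq)
    have e3 := (A.qmet a).symm (γ p) (γ (p + 200 * U))
    omega

theorem idx_le' (hk : 20 * k + 20 ≤ U) {γ : ℕ → V} {n : ℕ} (h : LG d N good U γ n) {a : I}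
    {p q s : ℕ} (hp : p ≤ n) (hq : q ≤ n) (h1 : p ≤ q + s) (h2 : q ≤ p + s)
    (hb : Ball d good a (γ p) s) (hd : qd d (N a) (γ p) (γ q) ≤ 100 * U) :
    p ≤ q + qd d (N a) (γ p) (γ q) ∧ q ≤ p + qd d (N a) (γ p) (γ q) := by
  rcases le_total p q with hpq | hpq
  · have := A.idx_le hk h hpq hq (fun t t1 t2 => hb _ (h.lip' A.met hp (by omega) (by omega)
      (by omega))) hd
    omega
  · have e := (A.qmet a).symm (γ p) (γ q)
    have := A.idx_le hk h hpq hp (fun t t1 t2 => hb _ (h.lip' A.met hp (by omega) (by omega)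
      (by omega))) (by omega)
    omega

/-- Two rungs in one chart. -/
theorem two_rungs (hk : 20 * k + 20 ≤ U) {γ' : ℕ → V} {n' : ℕ} (h' : LG d N good U γ' n') {a : I}
    {x y : V} {p q s r₀ r₁ : ℕ} {φ ψ : F} (hp : p ≤ n') (hq : q ≤ n') (h1 : p ≤ q + s)
    (h2 : q ≤ p + s) (hb : Ball d good a x (r₀ + s)) (hx : d x (φ • γ' p) ≤ r₀)
    (hy : d y (ψ • γ' q) ≤ r₁) (hm : ψ * φ⁻¹ ∈ N a) (hd : r₀ + r₁ + d x y ≤ 100 * U) :
    p ≤ q + (r₀ + r₁ + d x y) ∧ q ≤ p + (r₀ + r₁ + d x y) := by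
  have b1 : Ball d good a (φ • γ' p) s := hb.mono A.met (by omega)
  have e1 := A.qd_le_of hm y (γ' q)
  have e2 := qd_le' (d := d) (N a) x (φ • γ' p)
  have e3 := qd_le' (d := d) (N a) x y
  have e4 := (A.qmet a).tri (φ • γ' p) x (φ • γ' q)
  have e5 := (A.qmet a).tri x y (φ • γ' q)
  have e6 := (A.qmet a).symm (φ • γ' p) x
  have := A.idx_le' hk (A.lg_smul h' φ) hp hq h1 h2 b1 (by omega)
  omega

/-- Ladders from coarse data. -/
theorem rungs_mk (hk : 20 * k + 20 ≤ U) (hσ : 3000 * U ≤ σ) {γ γ' : ℕ → V} {n n' R : ℕ}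
    (h : LG d N good U γ n) (h' : LG d N good U γ' n') (h0 : γ 0 = γ' 0) (hR : R ≤ 8 * U)
    {j : ℕ → ℕ} {φ : ℕ → F} (j0 : j 0 ≤ 800 * U)
    (m0 : ∀ a, Ball d good a (γ 0) σ → φ 0 ∈ N a) (le : ∀ i, i ≤ n → j i ≤ n')
    (rung : ∀ i, i ≤ n → d (γ i) (φ i • γ' (j i)) ≤ R)
    (up : ∀ i, i < n → j (i + 1) ≤ j i + 800 * U) (down : ∀ i, i < n → j i ≤ j (i + 1) + 800 * U)
    (ms : ∀ i, i < n → ∀ a, Ball d good a (γ i) σ → φ (i + 1) * (φ i)⁻¹ ∈ N a) :
    Rungs d N good U R γ n γ' n' j φ := by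
  have key : ∀ i, i < n → j (i + 1) ≤ j i + 20 * U ∧ j i ≤ j (i + 1) + 20 * U ∧
      Nul N good (γ i) (φ (i + 1) * (φ i)⁻¹) := by
    intro i hi
    obtain ⟨a, ha⟩ := A.cover (γ i)
    have hm := ms i hi a ha
    have s1 := h.step i hi
    have r0 := rung i (by omega)
    have r1 := rung (i + 1) hi
    have e1 := A.two_rungs hk h' (le i (by omega)) (le (i + 1) hi) (down i hi) (up i hi)
      (r₀ := R) (r₁ := R) (Ball.mono A.met (y := γ i) ha (by rw [A.met.self]; omega)) r0 r1 hm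
      (by omega)
    refine ⟨by omega, by omega, A.nul_of_mem (A.ball_self ha) hm ?_⟩
    have e2 := A.move_le (γ i) (γ' (j i)) (γ' (j (i + 1))) (φ i) (φ (i + 1))
    have e3 := A.met.tri (γ i) (γ (i + 1)) (φ (i + 1) • γ' (j (i + 1)))
    have e4 := h'.lip' A.met (le i (by omega)) (le (i + 1) hi) (down i hi) (up i hi)
    omega
  obtain ⟨a, ha⟩ := A.cover (γ 0)
  have hm := m0 a ha
  have r0 := rung 0 (Nat.zero_le _)
  have e0 : d (γ 0) ((1 : F) • γ' 0) ≤ 0 := by rw [one_smul, h0, A.met.self]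
  have e1 := A.two_rungs hk h' (Nat.zero_le _) (le 0 (Nat.zero_le _)) (s := 800 * U) (by omega)
    (by omega) (r₀ := 0) (r₁ := R) (Ball.mono A.met (y := γ 0) ha (by rw [A.met.self]; omega))
    e0 r0 (by simpa using hm) (by rw [A.met.self]; omega)
  rw [A.met.self] at e1
  refine ⟨by omega, A.nul_of_mem (A.ball_self ha) hm ?_, le, rung, fun i hi => (key i hi).1,
    fun i hi => (key i hi).2.1, fun i hi => (key i hi).2.2⟩
  have e2 := A.move_le (γ 0) (γ' 0) (γ' (j 0)) 1 (φ 0)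
  have e4 := h'.lip' A.met (Nat.zero_le _) (le 0 (Nat.zero_le _)) (s := 800 * U) (by omega)
    (by omega)
  rw [inv_one, mul_one] at e2
  omega

/-- A window of a ladder inside one chart. -/
theorem window (hk : 20 * k + 20 ≤ U) {γ γ' : ℕ → V} {n n' R : ℕ}
    (h : LG d N good U γ n) (h' : LG d N good U γ' n') (hR : R ≤ 8 * U) {j : ℕ → ℕ} {φ : ℕ → F}
    (hr : Rungs d N good U R γ n γ' n' j φ) {a : I} {p : ℕ} (hb : Ball d good a (γ p) (200 * U)) :
    ∀ q, p ≤ q → q ≤ n → q ≤ p + 60 * U →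
      φ q * (φ p)⁻¹ ∈ N a ∧ j q + p ≤ j p + q + 2 * R ∧ j p + p ≤ j q + q + 2 * R := by
  intro q hpq
  induction q, hpq using Nat.le_induction with
  | base =>
    intro _ _
    refine ⟨by simp, by omega, by omega⟩
  | succ q hpq ih =>
    intro h1 h2
    obtain ⟨i1, i2, i3⟩ := ih (by omega) (by omega)
    have l1 := h.lip A.met hpq (by omega)
    have l2 := h.lip A.met (i := p) (j := q + 1) (by omega) h1
    have hm : φ (q + 1) * (φ p)⁻¹ ∈ N a := by
      have := (N a).mul_mem (hr.nul q h1 a (hb _ (by omega))) i1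
      rwa [mul_assoc, inv_mul_cancel_left] at this
    have u1 := hr.up q h1
    have u2 := hr.down q h1
    have e1 := A.two_rungs hk h' (hr.le p (by omega)) (hr.le (q + 1) h1) (s := 100 * U)
      (by omega) (by omega) (r₀ := R) (r₁ := R)
      (Ball.mono A.met (y := γ p) hb (by rw [A.met.self]; omega)) (hr.rung p (by omega))
      (hr.rung (q + 1) h1) hm (by omega)
    exact ⟨hm, by omega, by omega⟩

theorem window' (hk : 20 * k + 20 ≤ U) {γ γ' : ℕ → V} {n n' R : ℕ}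
    (h : LG d N good U γ n) (h' : LG d N good U γ' n') (hR : R ≤ 8 * U) {j : ℕ → ℕ} {φ : ℕ → F}
    (hr : Rungs d N good U R γ n γ' n' j φ) {a : I} {p q s : ℕ}
    (hb : Ball d good a (γ p) (260 * U)) (hp : p ≤ n) (hq : q ≤ n) (h1 : p ≤ q + s)
    (h2 : q ≤ p + s) (hs : s ≤ 60 * U) :
    φ q * (φ p)⁻¹ ∈ N a ∧ j q ≤ j p + s + 2 * R ∧ j p ≤ j q + s + 2 * R := by
  rcases le_total p q with hpq | hpq
  · have := A.window hk h h' hR hr (p := p)
      (Ball.mono A.met (y := γ p) hb (by rw [A.met.self]; omega)) q hpq hq (by omega)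
    exact ⟨this.1, by omega, by omega⟩
  · have l1 := h.lip' A.met hp hq h1 h2
    have := A.window hk h h' hR hr (p := q) (Ball.mono A.met hb (by omega)) p hpq hp (by omega)
    refine ⟨?_, by omega, by omega⟩
    have e := (N a).inv_mem this.1
    rwa [mul_inv_rev, inv_inv] at e

/-- The indices of the rungs spread out. -/
theorem window_low (hk : 20 * k + 20 ≤ U) (hσ : 3000 * U ≤ σ) {γ γ' : ℕ → V} {n n' R : ℕ}
    (h : LG d N good U γ n) (h' : LG d N good U γ' n') (hR : R ≤ 8 * U) {j : ℕ → ℕ} {φ : ℕ → F}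
    (hr : Rungs d N good U R γ n γ' n' j φ) {p q : ℕ} (hpq : p ≤ q) (hq : q ≤ n)
    (hs : q ≤ p + 60 * U) : q + j p ≤ p + j q + 2 * R ∨ q + j q ≤ p + j p + 2 * R := by
  obtain ⟨a, ha⟩ := A.cover (γ p)
  have w := A.window hk h h' hR hr (p := p)
    (Ball.mono A.met (y := γ p) ha (by rw [A.met.self]; omega)) q hpq hq hs
  have e0 := h.loc a p q hpq hq (by omega) (A.ball_self ha)
  have e1 := A.qd_le_of w.1 (γ q) (γ' (j q))
  have e2 := qd_le' (d := d) (N a) (γ p) (φ p • γ' (j p))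
  have e3 := A.qd_smul_le a (φ p) (γ' (j p)) (γ' (j q))
  have e4 := (A.qmet a).tri (γ p) (φ p • γ' (j p)) (γ q)
  have e5 := (A.qmet a).tri (φ p • γ' (j p)) (φ p • γ' (j q)) (γ q)
  have e6 := (A.qmet a).symm (φ p • γ' (j q)) (γ q)
  have r0 := hr.rung p (by omega)
  have r1 := hr.rung q hq
  rcases le_total (j p) (j q) with hj | hj
  · have := h'.lip A.met hj (hr.le q hq)
    omega
  · have := h'.lip A.met hj (hr.le p (by omega))
    have := A.met.symm (γ' (j p)) (γ' (j q))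
    omega

end Atlas

end Pool.Agent.Lib.MP_429c3d_al.Hyp
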