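import Mathlib

set_option autoImplicit false

/-! Natural number valued pseudo-metrics, the four point condition, geodesics, quotient distances. -/

namespace Pool.Agent.Lib.MP_429c3d_al.Hyp

variable {V : Type}

/-- Pseudo-metrics with values in the natural numbers. -/
structure IsMet (d : V → V → ℕ) : Prop where
  self : ∀ x, d x x = 0
  symm : ∀ x y, d x y = d y x
  tri : ∀ x y z, d x z ≤ d x y + d y z

/-- The four point condition. -/
def Hyp4 (d : V → V → ℕ) (k : ℕ) : Prop :=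
  ∀ x y z w, d x y + d z w ≤ d x z + d y w + k ∨ d x y + d z w ≤ d x w + d y z + k

/-- `g` is a geodesic on the interval from `a` to `b`. -/
def GeoOn (d : V → V → ℕ) (g : ℕ → V) (a b : ℕ) : Prop :=
  ∀ i j, a ≤ i → i ≤ j → j ≤ b → d (g i) (g j) + i = j

/-- `g` is an `L`-local geodesic on the interval from `a` to `b`. -/
def LocGeo (d : V → V → ℕ) (L : ℕ) (g : ℕ → V) (a b : ℕ) : Prop :=
  ∀ i j, a ≤ i → i ≤ j → j ≤ b → j ≤ i + L → d (g i) (g j) + i = j

/-- Any two points are joined by a geodesic with unit steps. -/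
def IsGeo (d : V → V → ℕ) : Prop :=
  ∀ x y, ∃ g : ℕ → V, g 0 = x ∧ d (g (d x y)) y = 0 ∧ GeoOn d g 0 (d x y)

variable {d : V → V → ℕ} {k : ℕ}

theorem Hyp4.mono (h : Hyp4 d k) {k' : ℕ} (hk : k ≤ k') : Hyp4 d k' := by
  intro x y z w
  have := h x y z w
  omega

theorem GeoOn.mono {g : ℕ → V} {a b a' b' : ℕ} (h : GeoOn d g a b) (ha : a ≤ a') (hb : b' ≤ b) :
    GeoOn d g a' b' := fun i j h1 h2 h3 => h i j (ha.trans h1) h2 (h3.trans hb)

theorem lip_le (m : IsMet d) {g : ℕ → V} {a b : ℕ}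
    (h : ∀ i, a ≤ i → i < b → d (g i) (g (i + 1)) ≤ 1) {i j : ℕ} (hi : a ≤ i) (hij : i ≤ j)
    (hj : j ≤ b) : d (g i) (g j) + i ≤ j := by
  induction j, hij using Nat.le_induction with
  | base => rw [m.self]; omega
  | succ j hij ih =>
    have h1 := ih (by omega)
    have h2 := h j (by omega) (by omega)
    have h3 := m.tri (g i) (g j) (g (j + 1))
    omega

theorem geoOn_of_le (m : IsMet d) {g : ℕ → V} {a b : ℕ}
    (h : ∀ i j, a ≤ i → i ≤ j → j ≤ b → d (g i) (g j) + i ≤ j) (he : b ≤ d (g a) (g b) + a) :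
    GeoOn d g a b := by
  intro i j h1 h2 h3
  have e1 := h a i le_rfl h1 (by omega)
  have e2 := h i j h1 h2 h3
  have e3 := h j b (by omega) h3 le_rfl
  have e4 := m.tri (g a) (g i) (g b)
  have e5 := m.tri (g i) (g j) (g b)
  omega

/-- A point with small Gromov product is close to the geodesic. -/
theorem near_geo (m : IsMet d) (h : Hyp4 d k) {g : ℕ → V} {a b : ℕ} (hg : GeoOn d g a b)
    (hab : a ≤ b) (w : V) {c : ℕ} (hc : d w (g a) + d w (g b) + a ≤ b + c) :
    ∃ j, a ≤ j ∧ j ≤ b ∧ 2 * d w (g j) ≤ c + 2 * k + 1 := by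
  have e0 := hg a b le_rfl hab le_rfl
  have t1 := m.tri w (g a) (g b)
  have t2 := m.tri w (g b) (g a)
  have s1 := m.symm (g b) (g a)
  obtain ⟨j, hj1, hj2⟩ : ∃ j, 2 * j + d w (g b) ≤ a + b + d w (g a) ∧
      a + b + d w (g a) ≤ 2 * j + d w (g b) + 1 :=
    ⟨(a + b + d w (g a) - d w (g b)) / 2, by omega, by omega⟩
  have hja : a ≤ j := by omega
  have hjb : j ≤ b := by omega
  refine ⟨j, hja, hjb, ?_⟩
  have e1 := hg a j le_rfl hja hjb
  have e2 := hg j b hja hjb le_rfl
  have s2 := m.symm (g j) (g a)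
  have := h w (g j) (g a) (g b)
  omega

theorem loc_prod_right (m : IsMet d) (h : Hyp4 d k) {L : ℕ} (hL : 4 * k + 2 ≤ L) {g : ℕ → V}
    {a b : ℕ} (hg : LocGeo d L g a b) (l : ℕ) (hl : l ≤ b) :
    ∀ (t i j : ℕ), a ≤ i → i ≤ j → j ≤ l → l ≤ j + t → j ≤ i + (2 * k + 1) →
      d (g j) (g i) + d (g j) (g l) ≤ d (g i) (g l) + k := by
  intro t
  induction t using Nat.strong_induction_on with
  | _ t ih =>
  intro i j h1 h2 h3 h4 h5
  have e1 := hg i j h1 h2 (by omega) (by omega)
  have s1 := m.symm (g j) (g i)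
  by_cases hc : l ≤ j + (2 * k + 1)
  · have e2 := hg j l (by omega) h3 hl (by omega)
    have e3 := hg i l h1 (by omega) hl (by omega)
    omega
  · have e2 := hg j (j + (2 * k + 1)) (by omega) (by omega) (by omega) (by omega)
    have e3 := hg i (j + (2 * k + 1)) h1 (by omega) (by omega) (by omega)
    have e4 := ih (t - (2 * k + 1)) (by omega) j (j + (2 * k + 1)) (by omega) (by omega)
      (by omega) (by omega) le_rfl
    have e5 := h (g i) (g (j + (2 * k + 1))) (g l) (g j)
    have s2 := m.symm (g (j + (2 * k + 1))) (g j)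
    have s3 := m.symm (g l) (g j)
    omega

theorem loc_prod_left (m : IsMet d) (h : Hyp4 d k) {L : ℕ} (hL : 4 * k + 2 ≤ L) {g : ℕ → V}
    {a b : ℕ} (hg : LocGeo d L g a b) (i : ℕ) (hi : a ≤ i) :
    ∀ (t j l : ℕ), i ≤ j → j ≤ l → l ≤ b → j ≤ i + t → l ≤ j + (2 * k + 1) →
      d (g j) (g i) + d (g j) (g l) ≤ d (g i) (g l) + k := by
  intro t
  induction t using Nat.strong_induction_on with
  | _ t ih =>
  intro j l h1 h2 h3 h4 h5
  have e1 := hg j l (by omega) h2 h3 (by omega)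
  have s1 := m.symm (g j) (g i)
  by_cases hc : j ≤ i + (2 * k + 1)
  · have e2 := hg i j hi h1 (by omega) (by omega)
    have e3 := hg i l hi (by omega) h3 (by omega)
    omega
  · obtain ⟨u, rfl⟩ : ∃ u, j = u + (2 * k + 1) := ⟨j - (2 * k + 1), by omega⟩
    have e2 := hg u (u + (2 * k + 1)) (by omega) (by omega) (by omega) (by omega)
    have e3 := hg u l (by omega) (by omega) h3 (by omega)
    have e4 := ih (t - (2 * k + 1)) (by omega) u (u + (2 * k + 1)) (by omega) (by omega)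
      (by omega) (by omega) le_rfl
    have e5 := h (g u) (g l) (g i) (g (u + (2 * k + 1)))
    have s2 := m.symm (g l) (g (u + (2 * k + 1)))
    have s3 := m.symm (g l) (g i)
    omega

/-- Local geodesics have small Gromov products. -/
theorem loc_prod (m : IsMet d) (h : Hyp4 d k) {L : ℕ} (hL : 4 * k + 2 ≤ L) {g : ℕ → V}
    {a b : ℕ} (hg : LocGeo d L g a b) {i j l : ℕ} (h1 : a ≤ i) (h2 : i ≤ j) (h3 : j ≤ l)
    (h4 : l ≤ b) : d (g j) (g i) + d (g j) (g l) ≤ d (g i) (g l) + 2 * k := by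
  by_cases hc : j ≤ i + (2 * k + 1)
  · have := loc_prod_right m h hL hg l h4 l i j h1 h2 h3 (by omega) hc
    omega
  · obtain ⟨u, rfl⟩ : ∃ u, j = u + (2 * k + 1) := ⟨j - (2 * k + 1), by omega⟩
    have e1 := loc_prod_right m h hL hg l h4 l u (u + (2 * k + 1)) (by omega) (by omega) h3
      (by omega) le_rfl
    have e2 := loc_prod_left m h hL hg i h1 u u (u + (2 * k + 1)) (by omega) (by omega)
      (by omega) (by omega) le_rfl
    have e3 := hg u (u + (2 * k + 1)) (by omega) (by omega) (by omega) (by omega)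
    have e5 := h (g u) (g l) (g i) (g (u + (2 * k + 1)))
    have s1 := m.symm (g l) (g (u + (2 * k + 1)))
    have s2 := m.symm (g l) (g i)
    have s3 := m.symm (g i) (g (u + (2 * k + 1)))
    have s4 := m.symm (g u) (g (u + (2 * k + 1)))
    omega

/-- Two points at the same distance from the base point on geodesics to nearby points. -/
theorem sync_le (m : IsMet d) (h : Hyp4 d k) {o u u' z z' : V} {b : ℕ} (hu : d o u = b)
    (hu' : d o u' = b) (hz : d o u + d u z = d o z) (hz' : d o u' + d u' z' = d o z')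
    (hzz : d z z' ≤ d u z + d u' z') : d u u' ≤ 2 * k := by
  have e1 := h u u' z o
  have e2 := h z u' z' o
  have s1 := m.symm z o
  have s2 := m.symm u' o
  have s3 := m.symm u o
  have s4 := m.symm z' o
  have s5 := m.symm z u'
  omega

theorem exists_checkpoints (n T : ℕ) (hT : 0 < T) :
    ∃ (m : ℕ) (e : ℕ → ℕ), 1 ≤ m ∧ e 0 = 0 ∧ e m = n ∧ (∀ i, i + 1 < m → e (i + 1) = e i + T) ∧
      (∀ i, e i ≤ e (i + 1) ∧ e (i + 1) ≤ e i + T) ∧ ∀ i, e i ≤ n := by
  refine ⟨n / T + 1, fun i => min (i * T) n, Nat.le_add_left _ _, by simp, ?_, ?_, ?_, ?_⟩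
  · have := Nat.lt_div_mul_add (a := n) hT
    simp only
    rw [Nat.add_mul]
    omega
  · intro i hi
    have h1 : (i + 1) * T ≤ n / T * T := Nat.mul_le_mul_right _ (by omega)
    have h2 := Nat.div_mul_le_self n T
    simp only
    rw [Nat.add_mul] at h1 ⊢
    omega
  · intro i
    simp only
    rw [Nat.add_mul]
    omega
  · intro i
    exact min_le_right _ _

theorem exists_interval {e : ℕ → ℕ} {m s : ℕ} (h0 : e 0 ≤ s) (hm : s < e m) :
    ∃ i, i < m ∧ e i ≤ s ∧ s < e (i + 1) := by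
  induction m with
  | zero => omega
  | succ m ih =>
    by_cases hc : s < e m
    · obtain ⟨i, h1, h2⟩ := ih hc
      exact ⟨i, by omega, h2⟩
    · exact ⟨m, by omega, by omega, hm⟩

section Quot

variable {F : Type} [Group F] [MulAction F V]

/-- The quotient distance. -/
noncomputable def qd (d : V → V → ℕ) (H : Subgroup F) (x y : V) : ℕ :=
  sInf {n | ∃ f ∈ H, d x (f • y) = n}

variable {H : Subgroup F}

theorem qd_le {f : F} (hf : f ∈ H) (x y : V) : qd d H x y ≤ d x (f • y) :=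
  Nat.sInf_le ⟨f, hf, rfl⟩

theorem qd_le' (H : Subgroup F) (x y : V) : qd d H x y ≤ d x y := by
  simpa using qd_le (d := d) H.one_mem x y

theorem exists_qd (d : V → V → ℕ) (H : Subgroup F) (x y : V) :
    ∃ f ∈ H, d x (f • y) = qd d H x y :=
  Nat.sInf_mem (s := {n | ∃ f ∈ H, d x (f • y) = n}) ⟨_, 1, H.one_mem, rfl⟩

theorem qd_smul_right {f : F} (hf : f ∈ H) (x y : V) : qd d H x (f • y) = qd d H x y := by
  apply le_antisymm
  · obtain ⟨g, hg, e⟩ := exists_qd d H x y
    have := qd_le (d := d) (H.mul_mem hg (H.inv_mem hf)) x (f • y)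
    rwa [smul_smul, inv_mul_cancel_right, e] at this
  · obtain ⟨g, hg, e⟩ := exists_qd d H x (f • y)
    have := qd_le (d := d) (H.mul_mem hg hf) x y
    rwa [← smul_smul, e] at this

theorem qd_met (m : IsMet d) (inv : ∀ (f : F) x y, d (f • x) (f • y) = d x y)
    (H : Subgroup F) : IsMet (qd d H) := by
  have hs : ∀ x y, qd d H x y ≤ qd d H y x := by
    intro x y
    obtain ⟨g, hg, e⟩ := exists_qd d H y x
    have := qd_le (d := d) (H.inv_mem hg) x y
    rwa [← inv g, smul_inv_smul, m.symm, e] at this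
  refine ⟨fun x => ?_, fun x y => le_antisymm (hs x y) (hs y x), fun x y z => ?_⟩
  · have := qd_le' (d := d) H x x
    rw [m.self] at this
    omega
  · obtain ⟨g, hg, e⟩ := exists_qd d H x y
    obtain ⟨g', hg', e'⟩ := exists_qd d H y z
    have h1 := qd_le (d := d) (H.mul_mem hg hg') x z
    have h2 := m.tri x (g • y) ((g * g') • z)
    rw [mul_smul, inv] at h2
    rw [mul_smul] at h1
    omega

theorem qd_smul_left (m : IsMet d) (inv : ∀ (f : F) x y, d (f • x) (f • y) = d x y) {f : F}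
    (hf : f ∈ H) (x y : V) : qd d H (f • x) y = qd d H x y := by
  rw [(qd_met m inv H).symm, qd_smul_right hf, (qd_met m inv H).symm]

theorem qd_inv (inv : ∀ (f : F) x y, d (f • x) (f • y) = d x y) (hH : H.Normal) (f : F)
    (x y : V) : qd d H (f • x) (f • y) = qd d H x y := by
  have hs : ∀ (f : F) x y, qd d H (f • x) (f • y) ≤ qd d H x y := by
    intro f x y
    obtain ⟨g, hg, e⟩ := exists_qd d H x y
    have := qd_le (d := d) (hH.conj_mem g hg f) (f • x) (f • y)
    rwa [smul_smul, inv_mul_cancel_right, mul_smul, inv, e] at this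
  apply le_antisymm (hs f x y)
  have := hs f⁻¹ (f • x) (f • y)
  rwa [inv_smul_smul, inv_smul_smul] at this

/-- A geodesic that realises the quotient distance is a geodesic of the quotient. -/
theorem exists_qgeo (m : IsMet d) (inv : ∀ (f : F) x y, d (f • x) (f • y) = d x y)
    (geo : IsGeo d) (H : Subgroup F) (x y : V) :
    ∃ f ∈ H, ∃ g : ℕ → V, g 0 = x ∧ d (g (qd d H x y)) (f • y) = 0 ∧ d x (f • y) = qd d H x y ∧
      GeoOn d g 0 (qd d H x y) ∧ GeoOn (qd d H) g 0 (qd d H x y) := by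
  obtain ⟨f, hf, e⟩ := exists_qd d H x y
  obtain ⟨g, h0, h1, h2⟩ := geo x (f • y)
  rw [e] at h1 h2
  refine ⟨f, hf, g, h0, h1, e, h2, geoOn_of_le (qd_met m inv H) ?_ ?_⟩
  · intro i j a1 a2 a3
    have := h2 i j a1 a2 a3
    have := qd_le' (d := d) H (g i) (g j)
    omega
  · have a1 := (qd_met m inv H).tri x (g (qd d H x y)) y
    have a2 := qd_le (d := d) hf (g (qd d H x y)) y
    rw [h0]
    omega

theorem qd_geo (m : IsMet d) (inv : ∀ (f : F) x y, d (f • x) (f • y) = d x y)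
    (geo : IsGeo d) (H : Subgroup F) : IsGeo (qd d H) := by
  intro x y
  obtain ⟨f, hf, g, h0, h1, -, -, h3⟩ := exists_qgeo m inv geo H x y
  refine ⟨g, h0, ?_, h3⟩
  have := qd_le (d := d) hf (g (qd d H x y)) y
  omega

end Quot

end Pool.Agent.Lib.MP_429c3d_al.Hyp
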