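import Pool.Agent.Lib.MP_429c3d_al.HypGraph

set_option autoImplicit false
set_option linter.unusedSectionVars false

/-! Blowing up the vertices of a hyperbolic graph: projections. -/

namespace Pool.Agent.Lib.MP_429c3d_al.Hyp

/-- Paths of length `n` with steps at most one that avoid `v`. -/
def Avoid {B : Type} (dB : B → B → ℕ) (v : B) (n : ℕ) (x y : B) : Prop :=
  ∃ c : ℕ → B, c 0 = x ∧ c n = y ∧ (∀ i, i ≤ n → c i ≠ v) ∧ ∀ i, i < n → dB (c i) (c (i + 1)) ≤ 1

section Avoid

variable {B : Type} {dB : B → B → ℕ} {v : B} {k : ℕ}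

theorem Avoid.trans {n m : ℕ} {x y z : B} (h : Avoid dB v n x y) (h' : Avoid dB v m y z) :
    Avoid dB v (n + m) x z := by
  obtain ⟨c, c0, cn, ca, cs⟩ := h
  obtain ⟨c', c0', cn', ca', cs'⟩ := h'
  refine ⟨fun i => if i ≤ n then c i else c' (i - n), by simp [c0], ?_, fun i hi => ?_,
    fun i hi => ?_⟩
  · simp only
    split_ifs with e
    · rw [show m = 0 by omega] at cn' ⊢
      rw [Nat.add_zero, cn, ← c0', cn']
    · rw [Nat.add_sub_cancel_left, cn']
  · simp only
    split_ifs with e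
    · exact ca i e
    · exact ca' _ (by omega)
  · simp only
    by_cases e : i + 1 ≤ n
    · rw [if_pos e, if_pos (by omega)]
      exact cs i (by omega)
    · rw [if_neg e]
      have e1 := cs' (i - n) (by omega)
      rw [show i + 1 - n = i - n + 1 by omega]
      split_ifs with e'
      · obtain rfl : i = n := by omega
        rw [cn, ← c0']
        rwa [Nat.sub_self] at e1 ⊢
      · exact e1

theorem Avoid.symm (m : IsMet dB) {n : ℕ} {x y : B} (h : Avoid dB v n x y) : Avoid dB v n y x := by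
  obtain ⟨c, c0, cn, ca, cs⟩ := h
  refine ⟨fun i => c (n - i), by simp [cn], by simp [c0], fun i _ => ca _ (by omega),
    fun i hi => ?_⟩
  have := cs (n - (i + 1)) (by omega)
  rwa [show n - (i + 1) + 1 = n - i by omega, m.symm] at this

theorem Avoid.mono (m : IsMet dB) {n n' : ℕ} {x y : B} (h : Avoid dB v n x y) (hn : n ≤ n') :
    Avoid dB v n' x y := by
  have hy : y ≠ v := by
    obtain ⟨c, -, cn, ca, -⟩ := h
    exact cn ▸ ca n le_rfl
  have := h.trans (m := n' - n) (z := y)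
    ⟨fun _ => y, rfl, rfl, fun _ _ => hy, fun _ _ => by rw [m.self]; omega⟩
  rwa [show n + (n' - n) = n' by omega] at this

theorem avoid_seg {g : ℕ → B} {n i j : ℕ} (hg : GeoOn dB g 0 n) (ha : ∀ i, i ≤ n → g i ≠ v)
    (hij : i ≤ j) (hj : j ≤ n) : Avoid dB v (j - i) (g i) (g j) :=
  ⟨fun t => g (i + t), rfl, by simp only; rw [show i + (j - i) = j by omega],
    fun t ht => ha _ (by omega), fun t ht => by
      have := hg (i + t) (i + t + 1) (Nat.zero_le _) (by omega) (by omega)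
      show dB (g (i + t)) (g (i + t + 1)) ≤ 1
      omega⟩

theorem avoid_of_lt (G : IsGr dB) {x y : B} (h : dB x y < dB x v + dB v y) :
    Avoid dB v (dB x y) x y := by
  obtain ⟨g, g0, g1, g2⟩ := G.exists_geo x y
  have := avoid_seg (v := v) g2 (fun i hi e => by
    have e1 := g2 0 i le_rfl (Nat.zero_le _) hi
    have e2 := g2 i _ (Nat.zero_le _) hi le_rfl
    rw [g0, e] at e1
    rw [g1, e] at e2
    omega) (Nat.zero_le _) le_rfl
  rwa [g0, g1] at this

/-- From the last point before `v` up to a fixed distance from `v`. -/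
theorem avoid_up (G : IsGr dB) {y q : B} (hq : dB y q + 1 = dB y v) (hv : dB q v ≤ 1) (r : ℕ)
    (hr : 1 ≤ r) : ∃ u, dB y u + dB u v = dB y v ∧ dB u v ≤ r ∧ (u = y ∨ dB u v = r) ∧
      Avoid dB v r q u := by
  obtain ⟨u, u1, u2⟩ := G.geo.mid G.met y q (s := dB y v - r) (by omega)
  have := G.met.tri y u v
  have := G.met.tri u q v
  have := G.met.tri y q v
  have := G.met.symm u q
  have := G.met.symm u v
  refine ⟨u, by omega, by omega, ?_, (avoid_of_lt G (by omega)).mono G.met (by omega)⟩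
  by_cases e : dB y v ≤ r
  · exact Or.inl (G.sep _ _ (by omega)).symm
  · exact Or.inr (by omega)

/-- A geodesic that avoids `v` gives a short detour between the last points before `v`. -/
theorem avoid_geo (G : IsGr dB) (h : Hyp4 dB k) {g : ℕ → B} {n : ℕ} (hg : GeoOn dB g 0 n)
    (ha : ∀ i, i ≤ n → g i ≠ v) {q q' : B} (hq : dB (g 0) q + 1 = dB (g 0) v) (hv : dB q v ≤ 1)
    (hq' : dB (g n) q' + 1 = dB (g n) v) (hv' : dB q' v ≤ 1) :
    Avoid dB v (20 * k + 20) q q' := by
  have m := G.met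
  obtain ⟨u, u1, u2, u3, u4⟩ := avoid_up G hq hv (2 * k + 2) (by omega)
  obtain ⟨u', u1', u2', u3', u4'⟩ := avoid_up G hq' hv' (2 * k + 2) (by omega)
  have key : Avoid dB v (16 * k + 16) u u' := by
    have t0 := m.tri u v u'
    have s0 := m.symm u' v
    by_cases hc : dB u u' < dB u v + dB v u'
    · exact (avoid_of_lt G hc).mono m (by omega)
    have e0 := hg 0 n le_rfl (Nat.zero_le _) le_rfl
    have s1 := m.symm (g 0) u
    have s2 := m.symm (g n) u'
    have s3 := m.symm (g n) v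
    have s4 := m.symm (g 0) v
    have s5 := m.symm (g 0) (g n)
    have s6 := m.symm u v
    have s7 := m.symm u u'
    have s8 := m.symm u (g n)
    have s9 := m.symm u' (g 0)
    have side : ∀ w, (w = g 0 ∨ w = g n) ∨
        (dB w v = 2 * k + 2 ∧ dB w (g 0) + dB w (g n) ≤ n + k) →
        ∃ j, j ≤ n ∧ dB w (g j) ≤ 2 * k + 1 ∧ Avoid dB v (2 * k + 1) w (g j) := by
      rintro w ((e | e) | ⟨e1, e2⟩)
      · exact ⟨0, Nat.zero_le _, by rw [e, m.self]; omega, by
          simpa [e] using (avoid_seg hg ha le_rfl (Nat.zero_le n)).mono m (Nat.zero_le _)⟩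
      · exact ⟨n, le_rfl, by rw [e, m.self]; omega, by
          simpa [e] using (avoid_seg hg ha (le_refl n) le_rfl).mono m (n' := 2 * k + 1)
            (by omega)⟩
      · obtain ⟨j, -, j2, j3⟩ := near_geo m h hg (Nat.zero_le _) w (c := k) (by omega)
        exact ⟨j, j2, by omega, (avoid_of_lt G (by omega)).mono m (by omega)⟩
    have h1 := h u u' (g 0) v
    have h2 := h (g 0) u' (g n) v
    have h3 := h u (g n) (g 0) v
    have h4 := h u' (g 0) (g n) v
    have h5 := h u u' (g n) v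
    obtain ⟨j, j1, j2, j3⟩ := side u (by
      rcases u3 with e | e
      · exact Or.inl (Or.inl e)
      · refine Or.inr ⟨e, ?_⟩
        rcases u3' with e' | e'
        · have a1 : dB u u' = dB u (g n) := by rw [e']
          have a2 : dB u' v = dB (g n) v := by rw [e']
          omega
        · omega)
    obtain ⟨j', j1', j2', j3'⟩ := side u' (by
      rcases u3' with e | e
      · exact Or.inl (Or.inr e)
      · refine Or.inr ⟨e, ?_⟩
        rcases u3 with e' | e'
        · have a1 : dB u u' = dB (g 0) u' := by rw [e']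
          have a2 : dB u v = dB (g 0) v := by rw [e']
          omega
        · omega)
    have t1 := m.tri (g j) u (g j')
    have t2 := m.tri u u' (g j')
    have s10 := m.symm u (g j)
    have mid : Avoid dB v (8 * k + 6) (g j) (g j') := by
      rcases le_total j j' with e | e
      · have := hg j j' (Nat.zero_le _) e j1'
        exact (avoid_seg hg ha e j1').mono m (by omega)
      · have := hg j' j (Nat.zero_le _) e j1
        have := m.symm (g j) (g j')
        exact ((avoid_seg hg ha e j1).symm m).mono m (by omega)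
    exact ((j3.trans mid).trans (j3'.symm m)).mono m (by omega)
  exact ((u4.trans key).trans (u4'.symm m)).mono m (by omega)

end Avoid

/-- `W` is obtained from `B` by replacing every vertex by its fibre (most fibres are points). -/
structure Blow {W B : Type} (dW : W → W → ℕ) (dB : B → B → ℕ) (dF : W → W → ℕ) (bar : W → B)
    (k kF D : ℕ) : Prop where
  grW : IsGr dW
  grB : IsGr dB
  hyp : Hyp4 dB k
  grF : ∀ v, IsGr (fun p q : {p // bar p = v} => dF p q)
  hypF : ∀ v, Hyp4 (fun p q : {p // bar p = v} => dF p q) kF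
  surj : ∀ v, ∃ p, bar p = v
  leF : ∀ p q, bar p = bar q → dW p q ≤ dF p q
  edgeF : ∀ p q, bar p = bar q → dW p q ≤ 1 → dF p q ≤ 1
  edgeB : ∀ p q, dW p q ≤ 1 → dB (bar p) (bar q) ≤ 1
  lift : ∀ u v, dB u v = 1 → ∃ p q, bar p = u ∧ bar q = v ∧ dW p q ≤ 1
  detour : ∀ p p' q q', bar p = bar p' → dW p q ≤ 1 → dW p' q' ≤ 1 →
    Avoid dB (bar p) (20 * k + 20) (bar q) (bar q') → dF p p' ≤ D

/-- `p` is a projection of `y` to the fibre of `v`. -/
def Prj {W B : Type} (dW : W → W → ℕ) (dB : B → B → ℕ) (bar : W → B) (v : B) (y p : W) : Prop :=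
  bar p = v ∧ (y = p ∨ ∃ q, dW p q ≤ 1 ∧ dB (bar y) (bar q) + 1 = dB (bar y) v)

/-- The projections of `y` and `y'` to the fibre of `v` are at least `Θ` apart. -/
def Far {W B : Type} (dW : W → W → ℕ) (dB : B → B → ℕ) (dF : W → W → ℕ) (bar : W → B) (Θ : ℕ)
    (v : B) (y y' : W) : Prop :=
  ∃ p p', Prj dW dB bar v y p ∧ Prj dW dB bar v y' p' ∧ Θ ≤ dF p p'

variable {W B : Type} {dW : W → W → ℕ} {dB : B → B → ℕ} {dF : W → W → ℕ} {bar : W → B}
  {k kF D : ℕ}

theorem Far.mono {Θ Θ' : ℕ} {v : B} {y y' : W} (h : Far dW dB dF bar Θ v y y') (hΘ : Θ' ≤ Θ) :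
    Far dW dB dF bar Θ' v y y' := by
  obtain ⟨p, p', a, b, c⟩ := h
  exact ⟨p, p', a, b, hΘ.trans c⟩

theorem prj_self (y : W) : Prj dW dB bar (bar y) y y := ⟨rfl, Or.inl rfl⟩

namespace Blow

variable (S : Blow dW dB dF bar k kF D)
include S

theorem Fself (p : W) : dF p p = 0 := (S.grF (bar p)).met.self ⟨p, rfl⟩

theorem Fsymm {v : B} {p q : W} (hp : bar p = v) (hq : bar q = v) : dF p q = dF q p :=
  (S.grF v).met.symm ⟨p, hp⟩ ⟨q, hq⟩

theorem Ftri {v : B} {p q r : W} (hp : bar p = v) (hq : bar q = v) (hr : bar r = v) :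
    dF p r ≤ dF p q + dF q r := (S.grF v).met.tri ⟨p, hp⟩ ⟨q, hq⟩ ⟨r, hr⟩

theorem far_symm {Θ : ℕ} {v : B} {y y' : W} (h : Far dW dB dF bar Θ v y y') :
    Far dW dB dF bar Θ v y' y := by
  obtain ⟨p, p', a, b, c⟩ := h
  exact ⟨p', p, b, a, by rwa [S.Fsymm b.1 a.1]⟩

theorem bar_le (p q : W) : dB (bar p) (bar q) ≤ dW p q := by
  refine S.grW.induct p (P := fun n q => dB (bar p) (bar q) ≤ n) (S.grB.met.self _).le ?_ q
  intro n u v _ _ h ih
  have := S.edgeB u v h.le
  have := S.grB.met.tri (bar p) (bar u) (bar v)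
  omega

theorem prj_eq {v : B} {y p : W} (h : Prj dW dB bar v y p) (hy : bar y = v) : y = p := by
  rcases h.2 with e | ⟨q, -, e⟩
  · exact e
  · rw [hy, S.grB.met.self] at e
    omega

theorem prj_ne {v : B} {y p : W} (h : Prj dW dB bar v y p) (hy : bar y ≠ v) :
    ∃ q, dW p q ≤ 1 ∧ dB (bar y) (bar q) + 1 = dB (bar y) v ∧ dB (bar q) v ≤ 1 := by
  rcases h.2 with e | ⟨q, e1, e2⟩
  · exact absurd (e ▸ h.1) hy
  · have := S.edgeB p q e1
    rw [h.1, S.grB.met.symm] at this
    exact ⟨q, e1, e2, this⟩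

theorem exists_prj (v : B) (y : W) : ∃ p, Prj dW dB bar v y p := by
  by_cases hy : bar y = v
  · exact ⟨y, hy, Or.inl rfl⟩
  have h0 : dB (bar y) v ≠ 0 := fun e => hy (S.grB.sep _ _ e)
  obtain ⟨u, u1, u2⟩ := S.grB.geo.mid S.grB.met (bar y) v (s := dB (bar y) v - 1) (by omega)
  obtain ⟨q, p, a, b, c⟩ := S.lift u v (by omega)
  exact ⟨p, b, Or.inr ⟨q, by rwa [S.grW.met.symm], by rw [a]; omega⟩⟩

/-- A projection of a point between `y` and `v` is a projection of `y`. -/
theorem prj_between {v : B} {y z p : W} (h : Prj dW dB bar v z p) (hz : bar z ≠ v)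
    (hb : dB (bar y) (bar z) + dB (bar z) v = dB (bar y) v) : Prj dW dB bar v y p := by
  obtain ⟨q, q1, q2, q3⟩ := S.prj_ne h hz
  have := S.grB.met.tri (bar y) (bar z) (bar q)
  have := S.grB.met.tri (bar y) (bar q) v
  exact ⟨h.1, Or.inr ⟨q, q1, by omega⟩⟩

theorem prj_geo {v : B} {y y' p p' : W} (h : Prj dW dB bar v y p) (h' : Prj dW dB bar v y' p')
    {g : ℕ → B} {n : ℕ} (hg : GeoOn dB g 0 n) (h0 : g 0 = bar y) (hn : g n = bar y')
    (ha : ∀ i, i ≤ n → g i ≠ v) : dF p p' ≤ D := by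
  obtain ⟨q, q1, q2, q3⟩ := S.prj_ne h (h0 ▸ ha 0 (Nat.zero_le _))
  obtain ⟨q', q1', q2', q3'⟩ := S.prj_ne h' (hn ▸ ha n le_rfl)
  refine S.detour p p' q q' (h.1.trans h'.1.symm) q1 q1' ?_
  rw [h.1]
  exact avoid_geo S.grB S.hyp hg ha (by rwa [h0]) q3 (by rwa [hn]) q3'

/-- Bounded geodesic image. -/
theorem bgi {v : B} {y y' : W} (h : Far dW dB dF bar (D + 1) v y y') {g : ℕ → B} {n : ℕ}
    (hg : GeoOn dB g 0 n) (h0 : g 0 = bar y) (hn : g n = bar y') : ∃ i, i ≤ n ∧ g i = v := by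
  by_contra hc
  obtain ⟨p, p', a, b, c⟩ := h
  have := S.prj_geo a b hg h0 hn fun i hi e => hc ⟨i, hi, e⟩
  omega

theorem prj_close {v : B} {y y' p p' : W} (h : Prj dW dB bar v y p) (h' : Prj dW dB bar v y' p')
    (hb : dB (bar y) v + dB v (bar y') ≠ dB (bar y) (bar y')) : dF p p' ≤ D := by
  obtain ⟨g, g0, g1, g2⟩ := S.grB.exists_geo (bar y) (bar y')
  refine S.prj_geo h h' g2 g0 g1 fun i hi e => hb ?_
  have e1 := g2 0 i le_rfl (Nat.zero_le _) hi
  have e2 := g2 i _ (Nat.zero_le _) hi le_rfl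
  rw [g0, e] at e1
  rw [g1, e] at e2
  omega

theorem between_of_far {v : B} {y y' : W} (h : Far dW dB dF bar (D + 1) v y y') :
    dB (bar y) v + dB v (bar y') = dB (bar y) (bar y') := by
  by_contra hc
  obtain ⟨p, p', a, b, c⟩ := h
  have := S.prj_close a b hc
  omega

theorem prj_uniq {v : B} {y p p' : W} (h : Prj dW dB bar v y p) (h' : Prj dW dB bar v y p') :
    dF p p' ≤ D := by
  by_cases hy : bar y = v
  · rw [← S.prj_eq h hy, ← S.prj_eq h' hy, S.Fself]
    omega
  · refine S.prj_close h h' fun e => hy (S.grB.sep _ _ ?_)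
    rw [S.grB.met.self] at e
    omega

theorem prj_link {p q : W} (h : dW p q ≤ 1) (hne : bar p ≠ bar q) :
    Prj dW dB bar (bar p) q p := by
  have e1 := S.edgeB p q h
  have e2 : dB (bar p) (bar q) ≠ 0 := fun e => hne (S.grB.sep _ _ e)
  refine ⟨rfl, Or.inr ⟨q, h, ?_⟩⟩
  rw [S.grB.met.self, S.grB.met.symm]
  omega

theorem prj_step {v : B} {y y' p p' : W} (h : Prj dW dB bar v y p) (h' : Prj dW dB bar v y' p')
    (hd : dW y y' ≤ 1) : dF p p' ≤ D + 1 := by
  have side : ∀ {y y' p p' : W}, Prj dW dB bar v y p → Prj dW dB bar v y' p' → dW y y' ≤ 1 →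
      bar y = v → dF p p' ≤ D + 1 := by
    intro y y' p p' h h' hd hy
    obtain rfl := S.prj_eq h hy
    by_cases hy' : bar y' = v
    · obtain rfl := S.prj_eq h' hy'
      have := S.edgeF _ _ (hy.trans hy'.symm) hd
      omega
    · have := S.prj_uniq (hy ▸ S.prj_link hd (by rw [hy]; exact Ne.symm hy')) h'
      omega
  by_cases hy : bar y = v
  · exact side h h' hd hy
  by_cases hy' : bar y' = v
  · rw [S.Fsymm h.1 h'.1]
    exact side h' h (by rwa [S.grW.met.symm]) hy'
  have e1 := S.edgeB y y' hd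
  have e2 : dB (bar y) v ≠ 0 := fun e => hy (S.grB.sep _ _ e)
  have e3 : dB v (bar y') ≠ 0 := fun e => hy' (S.grB.sep _ _ e).symm
  have := S.prj_close h h' (by omega)
  omega

/-- Projections are Lipschitz. -/
theorem prj_lip {v : B} {y y' p p' : W} (h : Prj dW dB bar v y p) (h' : Prj dW dB bar v y' p') :
    dF p p' ≤ (D + 1) * (dW y y' + 1) := by
  refine S.grW.induct y (P := fun n y' => ∀ p', Prj dW dB bar v y' p' →
    dF p p' ≤ (D + 1) * (n + 1)) (fun p' h' => ?_) ?_ y' p' h'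
  · have := S.prj_uniq h h'
    omega
  · intro n u w _ _ hd ih p' h'
    obtain ⟨r, hr⟩ := S.exists_prj v u
    have := ih r hr
    have := S.prj_step hr h' hd.le
    have := S.Ftri h.1 hr.1 h'.1
    rw [Nat.mul_add (D + 1) (n + 1)]
    omega

/-- Moving an end point. -/
theorem far_move {Θ s : ℕ} {v : B} {y y' z : W}
    (h : Far dW dB dF bar (Θ + (D + 1) * (s + 1)) v y y') (hz : dW y z ≤ s) :
    Far dW dB dF bar Θ v z y' := by
  obtain ⟨p, p', a, b, c⟩ := h
  obtain ⟨r, hr⟩ := S.exists_prj v z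
  have e1 := S.prj_lip a hr
  have e2 : (D + 1) * (dW y z + 1) ≤ (D + 1) * (s + 1) := Nat.mul_le_mul_left _ (by omega)
  have := S.Ftri a.1 hr.1 b.1
  exact ⟨r, p', hr, b, by omega⟩

/-- The entry points along a geodesic. -/
theorem walk (y y' : W) {P : W → Prop} (h0 : P y)
    (hs : ∀ v p p' q, dB (bar y) v + dB v (bar y') = dB (bar y) (bar y') →
      Prj dW dB bar v y p → Prj dW dB bar v y' p' → dW p' q ≤ 1 →
      dB (bar y) (bar q) = dB (bar y) v + 1 →
      dB (bar y) (bar q) + dB (bar q) (bar y') = dB (bar y) (bar y') →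
      Prj dW dB bar (bar q) y q → P p → P q) :
    ∃ p, Prj dW dB bar (bar y') y p ∧ P p := by
  obtain ⟨g, g0, g1, g2⟩ := S.grB.exists_geo (bar y) (bar y')
  have hp : ∀ i, i ≤ dB (bar y) (bar y') → dB (bar y) (g i) = i ∧
      dB (g i) (bar y') + i = dB (bar y) (bar y') := by
    intro i hi
    have e1 := g2 0 i le_rfl (Nat.zero_le _) hi
    have e2 := g2 i _ (Nat.zero_le _) hi le_rfl
    rw [g0] at e1
    rw [g1] at e2
    exact ⟨e1, e2⟩
  have key : ∀ i, i ≤ dB (bar y) (bar y') → ∃ p, Prj dW dB bar (g i) y p ∧ P p := by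
    intro i
    induction i with
    | zero => exact fun _ => ⟨y, g0 ▸ prj_self y, h0⟩
    | succ i ih =>
      intro hi
      obtain ⟨p, p1, p2⟩ := ih (by omega)
      have e1 := hp i (by omega)
      have e2 := hp (i + 1) hi
      have e3 := g2 i (i + 1) (Nat.zero_le _) (by omega) hi
      obtain ⟨p', q, a, b, c⟩ := S.lift (g i) (g (i + 1)) (by omega)
      have s1 := S.grB.met.symm (g i) (bar y')
      have s2 := S.grB.met.symm (g (i + 1)) (bar y')
      have hq : Prj dW dB bar (g (i + 1)) y q :=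
        ⟨b, Or.inr ⟨p', by rwa [S.grW.met.symm], by rw [a]; omega⟩⟩
      exact ⟨q, hq, hs (g i) p p' q (by omega) p1 ⟨a, Or.inr ⟨q, c, by rw [b]; omega⟩⟩ c
        (by rw [b]; omega) (by rw [b]; omega) (b ▸ hq) p2⟩
  have := key _ le_rfl
  rwa [g1] at this

/-- Walking towards the first far vertex. -/
theorem first_far (Θ : ℕ) (y y' : W) :
    dW y y' ≤ (dB (bar y) (bar y') + 1) * (Θ + 1) ∨
    ∃ v p p', Prj dW dB bar v y p ∧ Prj dW dB bar v y' p' ∧ Θ + 1 ≤ dF p p' ∧
      dB (bar y) v + dB v (bar y') = dB (bar y) (bar y') ∧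
      dW y p ≤ dB (bar y) v * (Θ + 1) := by
  by_contra hc
  rw [not_or] at hc
  obtain ⟨p, p1, p2⟩ := S.walk y y' (P := fun p => dW y p ≤ dB (bar y) (bar p) * (Θ + 1))
    (by rw [S.grW.met.self]; omega) (by
      intro v p p' q hb a b c e _ _ ih
      have e1 : dF p p' ≤ Θ := by
        by_contra hcon
        exact hc.2 ⟨v, p, p', a, b, by omega, hb, a.1 ▸ ih⟩
      have := S.leF p p' (a.1.trans b.1.symm)
      have := S.grW.met.tri y p q
      have := S.grW.met.tri p p' q
      rw [a.1] at ih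
      rw [e, Nat.add_mul]
      omega)
  rw [p1.1] at p2
  have e1 : dF p y' ≤ Θ := by
    by_contra hcon
    exact hc.2 ⟨_, p, y', p1, prj_self y', by omega, by rw [S.grB.met.self]; rfl, p2⟩
  have := S.leF p y' p1.1
  have := S.grW.met.tri y p y'
  apply hc.1
  rw [Nat.add_mul]
  omega

/-- Upper bound for the distance. -/
theorem upper {Θ : ℕ} {y y' : W} (h : ∀ v, ¬ Far dW dB dF bar (Θ + 1) v y y') :
    dW y y' ≤ (dB (bar y) (bar y') + 1) * (Θ + 1) := by
  rcases S.first_far Θ y y' with e | ⟨v, p, p', a, b, c, -⟩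
  · exact e
  · exact absurd ⟨p, p', a, b, c⟩ (h v)

end Blow

end Pool.Agent.Lib.MP_429c3d_al.Hyp
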