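import Pool.Agent.Lib.MP_429c3d_al.HypBlow

set_option autoImplicit false
set_option linter.unusedSectionVars false

/-! Blowing up the vertices of a hyperbolic graph: hyperbolicity and fixed vertices. -/

namespace Pool.Agent.Lib.MP_429c3d_al.Hyp

variable {W B : Type} {dW : W → W → ℕ} {dB : B → B → ℕ} {dF : W → W → ℕ} {bar : W → B}
  {k kF D : ℕ}

/-- The guessed geodesics of the blown up space. -/
def BSet (dW : W → W → ℕ) (dB : B → B → ℕ) (dF : W → W → ℕ) (bar : W → B) (p q : W) : Set W :=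
  {w | dB (bar p) (bar w) + dB (bar w) (bar q) = dB (bar p) (bar q) ∧
    ∃ a a', Prj dW dB bar (bar w) p a ∧ Prj dW dB bar (bar w) q a' ∧ dF a w + dF w a' = dF a a'}

/-- The thinness constant of the guessed geodesics. -/
def blowH (k kF D : ℕ) : ℕ := (2 * k + 4) * (4 * D + 1) + 2 * kF + 3 * D + 2

/-- The hyperbolicity constant of the blown up space. -/
def blowK (k kF D : ℕ) : ℕ := 2000 * ((k + 2) * (D + 1) + kF + 2) ^ 2

/-- A group that preserves everything. -/
structure BAct (G : Type) [Group G] [MulAction G W] [MulAction G B] (dW : W → W → ℕ)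
    (dB : B → B → ℕ) (dF : W → W → ℕ) (bar : W → B) : Prop where
  iW : ∀ (g : G) p q, dW (g • p) (g • q) = dW p q
  iB : ∀ (g : G) u v, dB (g • u) (g • v) = dB u v
  iF : ∀ (g : G) p q, bar p = bar q → dF (g • p) (g • q) = dF p q
  comm : ∀ (g : G) p, bar (g • p) = g • bar p

section Act

variable {G : Type} [Group G] [MulAction G W] [MulAction G B]

theorem BAct.prj (hG : BAct G dW dB dF bar) (g : G) {v : B} {y p : W}
    (h : Prj dW dB bar v y p) : Prj dW dB bar (g • v) (g • y) (g • p) := by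
  refine ⟨by rw [hG.comm, h.1], h.2.imp (fun e => by rw [e]) ?_⟩
  rintro ⟨q, q1, q2⟩
  exact ⟨g • q, by rwa [hG.iW], by rwa [hG.comm, hG.comm, hG.iB, hG.iB]⟩

theorem BAct.far (hG : BAct G dW dB dF bar) (g : G) {Θ : ℕ} {v : B} {y y' : W}
    (h : Far dW dB dF bar Θ v y y') : Far dW dB dF bar Θ (g • v) (g • y) (g • y') := by
  obtain ⟨p, p', a, b, c⟩ := h
  exact ⟨_, _, hG.prj g a, hG.prj g b, by rwa [hG.iF _ _ _ (a.1.trans b.1.symm)]⟩

end Act

namespace Blow

variable (S : Blow dW dB dF bar k kF D)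
include S

theorem bset_symm (p q : W) : BSet dW dB dF bar p q = BSet dW dB dF bar q p := by
  have key : ∀ p q, BSet dW dB dF bar p q ⊆ BSet dW dB dF bar q p := by
    rintro p q w ⟨h1, a, a', h2, h3, h4⟩
    refine ⟨?_, a', a, h3, h2, ?_⟩
    · rw [S.grB.met.symm (bar q) (bar w), S.grB.met.symm (bar w) (bar p),
        S.grB.met.symm (bar q) (bar p)]
      omega
    · rw [S.Fsymm h3.1 rfl, S.Fsymm rfl h2.1, S.Fsymm h3.1 h2.1]
      omega
  exact Set.Subset.antisymm (key p q) (key q p)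

theorem mem_of_between {v : B} {p q a a' w : W} (ha : Prj dW dB bar v p a)
    (ha' : Prj dW dB bar v q a') (hb : dB (bar p) v + dB v (bar q) = dB (bar p) (bar q))
    (hw : bar w = v) (h : dF a w + dF w a' = dF a a') : w ∈ BSet dW dB dF bar p q := by
  subst hw
  exact ⟨hb, a, a', ha, ha', h⟩

theorem left_mem {v : B} {p q a : W} (ha : Prj dW dB bar v p a)
    (hb : dB (bar p) v + dB v (bar q) = dB (bar p) (bar q)) : a ∈ BSet dW dB dF bar p q := by
  obtain ⟨a', ha'⟩ := S.exists_prj v q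
  exact S.mem_of_between ha ha' hb ha.1 (by rw [S.Fself]; omega)

theorem left_mem_far {v : B} {p q a a' : W} (ha : Prj dW dB bar v p a)
    (ha' : Prj dW dB bar v q a') (h : D + 1 ≤ dF a a') : a ∈ BSet dW dB dF bar p q :=
  S.left_mem ha (S.between_of_far ⟨a, a', ha, ha', h⟩)

theorem right_mem_far {v : B} {p q a a' : W} (ha : Prj dW dB bar v p a)
    (ha' : Prj dW dB bar v q a') (h : D + 1 ≤ dF a a') : a' ∈ BSet dW dB dF bar p q := by
  rw [S.bset_symm]
  exact S.left_mem_far ha' ha (by rwa [S.Fsymm ha'.1 ha.1])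

/-- The projection of a point between `p` and `q` is near the projection of `p` or of `q`. -/
theorem prj_side {v : B} {p q w a a' b : W} (ha : Prj dW dB bar v p a)
    (ha' : Prj dW dB bar v q a') (hb : Prj dW dB bar v w b)
    (hw : dB (bar p) (bar w) + dB (bar w) (bar q) = dB (bar p) (bar q))
    (hp : Prj dW dB bar (bar w) p w) : dF a b ≤ D ∨ dF a' b ≤ D := by
  by_cases e : bar w = v
  · obtain rfl := S.prj_eq hb e
    exact Or.inl (S.prj_uniq ha (e ▸ hp))
  have e0 : dB (bar w) v ≠ 0 := fun h => e (S.grB.sep _ _ h)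
  have := S.grB.met.tri (bar p) v (bar q)
  have := S.grB.met.symm (bar w) v
  have := S.grB.met.symm (bar q) v
  have := S.grB.met.symm (bar q) (bar w)
  by_cases h1 : dB (bar p) v + dB v (bar w) = dB (bar p) (bar w)
  · exact Or.inr (S.prj_close ha' hb (by omega))
  · exact Or.inl (S.prj_close ha hb h1)

theorem thin_entry {p q z a u : W} (ha : Prj dW dB bar (bar a) p a)
    (hb : dB (bar p) (bar a) + dB (bar a) (bar q) = dB (bar p) (bar q))
    (hu : (Prj dW dB bar (bar u) p u ∧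
        dB (bar p) (bar u) + dB (bar u) (bar z) = dB (bar p) (bar z)) ∨
      (Prj dW dB bar (bar u) q u ∧ dB (bar q) (bar u) + dB (bar u) (bar z) = dB (bar q) (bar z)))
    (hd : dB (bar a) (bar u) ≤ 2 * k + 1) :
    ∃ w, (w ∈ BSet dW dB dF bar p z ∨ w ∈ BSet dW dB dF bar z q) ∧
      dW a w ≤ (2 * k + 2) * (4 * D + 1) + 2 * D := by
  rcases S.first_far (4 * D) a u with e | ⟨v, b, c, h1, h2, h3, h4, h5⟩
  · have e' : (dB (bar a) (bar u) + 1) * (4 * D + 1) ≤ (2 * k + 2) * (4 * D + 1) :=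
      Nat.mul_le_mul_right _ (by omega)
    refine ⟨u, ?_, by omega⟩
    rcases hu with h | h
    · exact Or.inl (S.left_mem h.1 h.2)
    · exact Or.inr (S.bset_symm q z ▸ S.left_mem h.1 h.2)
  have e' : dB (bar a) v * (4 * D + 1) ≤ (2 * k + 2) * (4 * D + 1) :=
    Nat.mul_le_mul_right _ (by omega)
  obtain ⟨x, hx⟩ := S.exists_prj v p
  obtain ⟨y, hy⟩ := S.exists_prj v q
  obtain ⟨t, ht⟩ := S.exists_prj v z
  have f1 := S.prj_side hx hy h1 hb ha
  have f2 : dF x c ≤ D ∨ dF y c ≤ D ∨ dF t c ≤ D := by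
    rcases hu with h | h
    · exact (S.prj_side hx ht h2 h.2 h.1).imp_right Or.inr
    · exact Or.inr (S.prj_side hy ht h2 h.2 h.1)
  have s1 := S.Fsymm hx.1 h1.1
  have s2 := S.Fsymm hy.1 h1.1
  have s3 := S.Fsymm hx.1 ht.1
  have s4 := S.Fsymm hy.1 ht.1
  have s5 := S.Fsymm hx.1 hy.1
  have l1 := S.leF b x (h1.1.trans hx.1.symm)
  have l2 := S.leF b y (h1.1.trans hy.1.symm)
  have l3 := S.leF b t (h1.1.trans ht.1.symm)
  have w1 := S.grW.met.tri a b x
  have w2 := S.grW.met.tri a b y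
  have w3 := S.grW.met.tri a b t
  have t1 := S.Ftri h1.1 hx.1 h2.1
  have t2 := S.Ftri h1.1 hy.1 h2.1
  have t3 := S.Ftri h1.1 ht.1 h2.1
  have t4 := S.Ftri h1.1 hx.1 ht.1
  have t5 := S.Ftri h1.1 hy.1 ht.1
  have t6 := S.Ftri hx.1 hy.1 h2.1
  have t7 := S.Ftri hy.1 hx.1 h2.1
  have t8 := S.Ftri ht.1 hx.1 h2.1
  have t9 := S.Ftri ht.1 hy.1 h2.1
  have t10 := S.Ftri hx.1 ht.1 h2.1
  have t11 := S.Ftri hy.1 ht.1 h2.1
  by_cases c1 : D + 1 ≤ dF x t <;> by_cases c2 : D + 1 ≤ dF t y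
  · rcases f1 with f1 | f1
    · exact ⟨x, Or.inl (S.left_mem_far hx ht c1), by omega⟩
    · exact ⟨y, Or.inr (S.right_mem_far ht hy c2), by omega⟩
  · rcases f1 with f1 | f1
    · exact ⟨x, Or.inl (S.left_mem_far hx ht c1), by omega⟩
    · exact ⟨t, Or.inl (S.right_mem_far hx ht c1), by omega⟩
  · rcases f1 with f1 | f1
    · exact ⟨t, Or.inr (S.left_mem_far ht hy c2), by omega⟩
    · exact ⟨y, Or.inr (S.right_mem_far ht hy c2), by omega⟩
  · omega

theorem thin_prj {p q z a : W} (ha : Prj dW dB bar (bar a) p a)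
    (hb : dB (bar p) (bar a) + dB (bar a) (bar q) = dB (bar p) (bar q)) :
    ∃ w, (w ∈ BSet dW dB dF bar p z ∨ w ∈ BSet dW dB dF bar z q) ∧
      dW a w ≤ (2 * k + 2) * (4 * D + 1) + 2 * D := by
  have m := S.grB.met
  have s1 := m.symm (bar a) (bar p)
  have s2 := m.symm (bar a) (bar z)
  have s3 := m.symm (bar a) (bar q)
  have s4 := m.symm (bar q) (bar z)
  rcases S.hyp (bar p) (bar q) (bar z) (bar a) with e | e
  · obtain ⟨v, v1, v2⟩ := near_mid m S.hyp S.grB.geo (bar p) (bar z) (bar a) (c := k) (by omega)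
    obtain ⟨u, hu⟩ := S.exists_prj v p
    obtain rfl := hu.1
    exact S.thin_entry ha hb (Or.inl ⟨hu, v1⟩) (by omega)
  · obtain ⟨v, v1, v2⟩ := near_mid m S.hyp S.grB.geo (bar q) (bar z) (bar a) (c := k) (by omega)
    obtain ⟨u, hu⟩ := S.exists_prj v q
    obtain rfl := hu.1
    exact S.thin_entry ha hb (Or.inr ⟨hu, v1⟩) (by omega)

theorem thin (p q z : W) : ∀ w ∈ BSet dW dB dF bar p q,
    ∃ u, (u ∈ BSet dW dB dF bar p z ∨ u ∈ BSet dW dB dF bar z q) ∧ dW w u ≤ blowH k kF D := by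
  rintro w ⟨h1, a, a', h2, h3, h4⟩
  obtain ⟨c, hc⟩ := S.exists_prj (bar w) z
  have hH : (2 * k + 2) * (4 * D + 1) + 2 * kF + 3 * D + 2 ≤ blowH k kF D := by
    have : (2 * k + 2) * (4 * D + 1) ≤ (2 * k + 4) * (4 * D + 1) :=
      Nat.mul_le_mul_right _ (by omega)
    unfold blowH
    omega
  have s1 := S.Fsymm h2.1 (rfl : bar w = bar w)
  have s2 := S.Fsymm hc.1 (rfl : bar w = bar w)
  have s3 := S.Fsymm h3.1 (rfl : bar w = bar w)
  have s4 := S.Fsymm h3.1 hc.1
  have key : ∀ {p q a : W}, Prj dW dB bar (bar w) p a →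
      dB (bar p) (bar w) + dB (bar w) (bar q) = dB (bar p) (bar q) →
      dF w a + dF w c ≤ dF a c + kF →
      ∃ u, (u ∈ BSet dW dB dF bar p z ∨ u ∈ BSet dW dB dF bar z q) ∧ dW w u ≤ blowH k kF D := by
    intro p q a h2 h1 e
    obtain ⟨⟨u, hu⟩, u1, u2⟩ := near_mid (S.grF (bar w)).met (S.hypF _) (S.grF _).geo ⟨a, h2.1⟩
      ⟨c, hc.1⟩ ⟨w, rfl⟩ (c := kF) e
    simp only at u1 u2
    have l1 := S.leF w u hu.symm
    by_cases hf : D + 1 ≤ dF a c
    · exact ⟨u, Or.inl (S.mem_of_between h2 hc (S.between_of_far ⟨a, c, h2, hc, hf⟩) hu u1),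
        by omega⟩
    · obtain ⟨x, x1, x2⟩ := S.thin_prj (z := z) (h2.1 ▸ h2) (h2.1 ▸ h1)
      have l2 := S.leF u a (hu.trans h2.1.symm)
      have := S.Fsymm hu h2.1
      have := S.grW.met.tri w u x
      have := S.grW.met.tri u a x
      exact ⟨x, x1, by omega⟩
  rcases S.hypF (bar w) ⟨a, h2.1⟩ ⟨a', h3.1⟩ ⟨c, hc.1⟩ ⟨w, rfl⟩ with e | e <;> simp only at e
  · exact key h2 h1 (by omega)
  · obtain ⟨u, hu, u1⟩ := key (p := q) (q := p) h3 (by
      rw [S.grB.met.symm (bar q) (bar w), S.grB.met.symm (bar w) (bar p),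
        S.grB.met.symm (bar q) (bar p)]
      omega) (by omega)
    rw [S.bset_symm q z, S.bset_symm z p] at hu
    exact ⟨u, hu.symm, u1⟩

theorem small (p q : W) (hd : dW p q ≤ 1) :
    ∀ w ∈ BSet dW dB dF bar p q, dW w p ≤ blowH k kF D := by
  rintro w ⟨h1, a, a', h2, h3, h4⟩
  have e1 := S.edgeB p q hd
  have e2 := S.prj_step h2 h3 hd
  have l1 := S.leF w a h2.1.symm
  have l2 := S.leF w a' h3.1.symm
  have s1 := S.Fsymm h2.1 (rfl : bar w = bar w)
  have hH : D + 2 ≤ blowH k kF D := by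
    unfold blowH
    omega
  by_cases e : dB (bar p) (bar w) = 0
  · obtain rfl := S.prj_eq h2 (S.grB.sep _ _ e)
    omega
  · obtain rfl := S.prj_eq h3 (S.grB.sep (bar w) (bar q) (by omega)).symm
    have := S.grW.met.tri w q p
    have := S.grW.met.symm q p
    omega

theorem conn_fibre {v : B} {p q a a' : W} (ha : Prj dW dB bar v p a) (ha' : Prj dW dB bar v q a')
    (hb : dB (bar p) v + dB v (bar q) = dB (bar p) (bar q)) :
    Relation.ReflTransGen (fun u w => w ∈ BSet dW dB dF bar p q ∧ dW u w ≤ 1) a a' := by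
  obtain ⟨g, g0, g1, g2⟩ := (S.grF v).exists_geo ⟨a, ha.1⟩ ⟨a', ha'.1⟩
  simp only at g1 g2
  have := rtg_of_chain (d := dW) (S := BSet dW dB dF bar p q) (r := 1) (c := fun i => (g i).1)
    (n := dF a a') (fun i hi => by
      have e1 := g2 0 i le_rfl (Nat.zero_le _) hi
      have e2 := g2 i _ (Nat.zero_le _) hi le_rfl
      rw [g0] at e1
      rw [g1] at e2
      simp only at e1 e2
      exact S.mem_of_between ha ha' hb (g i).2 (by omega)) (fun i hi => by
      have e1 := g2 i (i + 1) (Nat.zero_le _) (by omega) hi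
      have := S.leF _ _ ((g i).2.trans (g (i + 1)).2.symm)
      simp only at e1 ⊢
      omega)
  simpa [g0, g1] using this

theorem guess : Guess dW (BSet dW dB dF bar) 1 1 (blowH k kF D) := by
  refine ⟨S.thin, S.small, fun p q => chain_of_rtg
    (S.left_mem (prj_self p) (by rw [S.grB.met.self]; omega)) ?_⟩
  obtain ⟨a, a1, a2⟩ := S.walk p q (P := fun a => Relation.ReflTransGen
    (fun u w => w ∈ BSet dW dB dF bar p q ∧ dW u w ≤ 1) p a) .refl (by
      intro v a a' b h1 h2 h3 h4 _ h6 h7 ih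
      exact (ih.trans (S.conn_fibre h2 h3 h1)).tail ⟨S.left_mem h7 h6, h4⟩)
  exact a2.trans (S.conn_fibre a1 (prj_self q) (by rw [S.grB.met.self]; omega))

/-- The blown up space is hyperbolic. -/
theorem hypW : Hyp4 dW (blowK k kF D) := by
  obtain ⟨h, hh⟩ : ∃ h, h = blowH k kF D := ⟨_, rfl⟩
  obtain ⟨x, hx⟩ : ∃ x, x = (k + 2) * (D + 1) + kF + 2 := ⟨_, rfl⟩
  have e1 : h ≤ 10 * x := by
    rw [hh, hx, blowH]
    nlinarith
  have e2 : 4 ≤ x := by
    rw [hx]
    nlinarith
  have num : ∀ n, n * n ≤ 2 ^ n + 1 := by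
    intro n
    induction n with
    | zero => simp
    | succ n ih =>
      rcases Nat.lt_or_ge n 4 with hn | hn
      · interval_cases n <;> norm_num
      · rw [pow_succ]
        nlinarith
  have G := S.guess
  rw [← hh] at G
  refine (G.hyp4 (p := 4 * x + 4) S.grW.met S.grW.sep S.grW.geo ?_).mono ?_
  · have := num (4 * x)
    have := Nat.mul_le_mul_left (4 * x + 4 + 4) e1
    rw [pow_add]
    nlinarith
  · rw [blowK, ← hx]
    have := Nat.mul_le_mul_left (4 * x + 4 + 3) e1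
    nlinarith

variable {G : Type} [Group G] [MulAction G W] [MulAction G B]

/-- An element that fixes a far vertex and is short at a point fixes the vertices between. -/
theorem TAP (hG : BAct G dW dB dF bar) {g : G} {s : ℕ} {v : B}
    {y y' : W} (h1 : dW y (g • y) ≤ s) (h2 : g • bar y' = bar y')
    (hF : Far dW dB dF bar ((D + 1) * (s + 2)) v y y') : g • v = v := by
  by_cases hv : bar y' = v
  · rwa [hv] at h2
  have hv' : bar y' ≠ g • v := fun e => hv (by rwa [← h2, smul_left_cancel_iff] at e)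
  have e0 : (D + 1) * (s + 2) = D + 1 + (D + 1) * (s + 1) := by ring
  obtain ⟨p, p', a, b, c⟩ := hG.far g hF
  have b' : Prj dW dB bar (g • v) y' p' := S.prj_between b (by rwa [hG.comm, h2])
    (by rw [hG.comm, h2, S.grB.met.self]; omega)
  have f1 := S.far_move (Θ := D + 1) (s := s) (z := y) ⟨p, p', a, b', by omega⟩
    (by rwa [S.grW.met.symm])
  obtain ⟨γ, g0, g1, g2⟩ := S.grB.exists_geo (bar y) (bar y')
  obtain ⟨i, i1, i2⟩ := S.bgi f1 g2 g0 g1
  obtain ⟨j, j1, j2⟩ := S.bgi (hF.mono (by omega)) g2 g0 g1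
  have e1 := g2 i _ (Nat.zero_le _) i1 le_rfl
  have e2 := g2 j _ (Nat.zero_le _) j1 le_rfl
  have e3 := hG.iB g v (bar y')
  rw [g1, i2] at e1
  rw [g1, j2] at e2
  rw [h2] at e3
  rw [← i2, ← j2, show i = j by omega]

/-- An element that is short on both sides of a vertex with far projections fixes it. -/
theorem TP (hG : BAct G dW dB dF bar) {g : G} {s : ℕ} {v : B}
    {y y' : W} (h1 : dW y (g • y) ≤ s) (h2 : dW y' (g • y') ≤ s)
    (hF : Far dW dB dF bar ((D + 1) * (7 * s + 12)) v y y') : g • v = v := by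
  obtain ⟨c, hc⟩ : ∃ c, c = (D + 1) * (s + 1) := ⟨_, rfl⟩
  have e0 : (D + 1) * (7 * s + 12) = 7 * c + 5 * D + 5 := by rw [hc]; ring
  rw [e0] at hF
  have m := S.grB.met
  have next : ∀ {Θ : ℕ} {u : B}, Far dW dB dF bar (Θ + 2 * c) u y y' →
      Far dW dB dF bar Θ (g • u) y y' := by
    intro Θ u h
    have f1 := S.far_move (Θ := Θ + c) (s := s) (z := y) ((hG.far g h).mono (by omega))
      (by rwa [S.grW.met.symm])
    exact S.far_symm (S.far_move (s := s) (z := y') ((S.far_symm f1).mono (by omega))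
      (by rwa [S.grW.met.symm]))
  obtain ⟨γ, g0, g1, g2⟩ := S.grB.exists_geo (bar y) (bar y')
  obtain ⟨n, hn⟩ : ∃ n, n = dB (bar y) (bar y') := ⟨_, rfl⟩
  obtain ⟨n', hn'⟩ : ∃ n, n = dB (g • bar y) (bar y') := ⟨_, rfl⟩
  rw [← hn] at g1 g2
  have pos : ∀ {u : B}, Far dW dB dF bar (D + 1) u y y' → dB (bar y) u ≤ n ∧
      γ (dB (bar y) u) = u := by
    intro u h
    obtain ⟨i, i1, i2⟩ := S.bgi h g2 g0 g1
    have e1 := g2 0 i le_rfl (Nat.zero_le _) i1
    rw [g0, i2, Nat.add_zero] at e1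
    rw [e1]
    exact ⟨i1, i2⟩
  have shift : ∀ {u : B}, Far dW dB dF bar (D + 1 + c) (g • u) y y' →
      dB (bar y) (g • u) + n' = dB (bar y) u + n := by
    intro u h
    have a1 := S.between_of_far (h.mono (by omega))
    have a2 := S.between_of_far (S.far_move (s := s) (h.mono (by omega)) h1)
    rw [hG.comm, hG.iB] at a2
    omega
  by_contra hne
  have f1 := next (Θ := 5 * c + 5 * D + 5) (hF.mono (by omega))
  have f2 := next (Θ := 3 * c + 5 * D + 5) (f1.mono (by omega))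
  have hnn : n ≠ n' := by
    intro e
    have a1 := shift (f1.mono (by omega))
    have a2 := pos (f1.mono (Θ' := D + 1) (by omega))
    have a3 := pos (hF.mono (Θ' := D + 1) (by omega))
    exact hne (by rw [← a2.2, show dB (bar y) (g • v) = dB (bar y) v by omega, a3.2])
  obtain ⟨z, hz⟩ := S.surj v
  obtain ⟨a, ha⟩ := S.exists_prj (g • v) z
  obtain ⟨b, hb⟩ := S.exists_prj (g • v) (g • g • z)
  have mono : ∀ {u : B} {w a b : W}, bar w = u → Far dW dB dF bar (D + 1) u y y' →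
      Far dW dB dF bar (D + 1 + c) (g • u) y y' → Far dW dB dF bar (D + 1 + c) (g • g • u) y y' →
      Prj dW dB bar (g • u) w a → Prj dW dB bar (g • u) (g • g • w) b →
      (Prj dW dB bar (g • u) y a ∧ Prj dW dB bar (g • u) y' b) ∨
        (Prj dW dB bar (g • u) y b ∧ Prj dW dB bar (g • u) y' a) := by
    intro u w a b hw k0 k1 k2 ha hb
    have a1 := shift k1
    have a2 := shift k2
    obtain ⟨p0, q0⟩ := pos k0
    obtain ⟨p1, q1⟩ := pos (k1.mono (by omega))
    obtain ⟨p2, q2⟩ := pos (k2.mono (by omega))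
    have b0 := S.between_of_far k0
    have b1 := S.between_of_far (k1.mono (Θ' := D + 1) (by omega))
    have b2 := S.between_of_far (k2.mono (Θ' := D + 1) (by omega))
    have hw' : bar (g • g • w) = g • g • u := by rw [hG.comm, hG.comm, hw]
    have n1 : bar w ≠ g • u := fun e => by
      rw [hw] at e
      rw [← e] at a1
      omega
    have n2 : bar (g • g • w) ≠ g • u := fun e => by
      rw [hw'] at e
      rw [e] at a2
      omega
    have s0 := m.symm (bar y') u
    have s1 := m.symm (bar y') (g • u)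
    have s2 := m.symm (bar y') (g • g • u)
    have s3 := m.symm u (g • u)
    have s4 := m.symm (g • u) (g • g • u)
    rcases Nat.lt_or_gt_of_ne hnn with e | e
    · have c1 := g2 _ _ (Nat.zero_le _) (show dB (bar y) (g • u) ≤ dB (bar y) u by omega) p0
      have c2 := g2 _ _ (Nat.zero_le _)
        (show dB (bar y) (g • g • u) ≤ dB (bar y) (g • u) by omega) p1
      rw [q0, q1] at c1
      rw [q1, q2] at c2
      exact Or.inr ⟨S.prj_between hb n2 (by rw [hw']; omega),
        S.prj_between ha n1 (by rw [hw]; omega)⟩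
    · have c1 := g2 _ _ (Nat.zero_le _) (show dB (bar y) u ≤ dB (bar y) (g • u) by omega) p1
      have c2 := g2 _ _ (Nat.zero_le _)
        (show dB (bar y) (g • u) ≤ dB (bar y) (g • g • u) by omega) p2
      rw [q0, q1] at c1
      rw [q1, q2] at c2
      exact Or.inl ⟨S.prj_between ha n1 (by rw [hw]; omega),
        S.prj_between hb n2 (by rw [hw']; omega)⟩
  have big : 5 * c + 3 * D + 5 ≤ dF a b := by
    obtain ⟨p, p', x1, x2, x3⟩ := f1
    have f1' : Far dW dB dF bar (5 * c + 5 * D + 5) (g • v) y y' := ⟨p, p', x1, x2, x3⟩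
    have s1 := S.Fsymm ha.1 hb.1
    have s2 := S.Fsymm ha.1 x2.1
    have s3 := S.Fsymm hb.1 x2.1
    have t1 := S.Ftri x1.1 ha.1 x2.1
    have t2 := S.Ftri x1.1 hb.1 x2.1
    have t3 := S.Ftri ha.1 hb.1 x2.1
    have t4 := S.Ftri hb.1 ha.1 x2.1
    rcases mono hz (hF.mono (by omega)) (f1'.mono (by omega)) (f2.mono (by omega)) ha hb with
      ⟨y1, y2⟩ | ⟨y1, y2⟩
    · have := S.prj_uniq x1 y1
      have := S.prj_uniq x2 y2
      omega
    · have := S.prj_uniq x1 y1
      have := S.prj_uniq x2 y2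
      omega
  have all : ∀ j : ℕ, Far dW dB dF bar (5 * c + 3 * D + 5) (g ^ j • v) y y' := by
    intro j
    induction j with
    | zero => simpa using hF.mono (by omega)
    | succ j ih =>
      have k1 := next (Θ := 3 * c + 3 * D + 5) (ih.mono (by omega))
      have k2 := next (Θ := c + 3 * D + 5) (k1.mono (by omega))
      have cm : ∀ {X : Type} [MulAction G X] (x : X), g ^ j • g • x = g • g ^ j • x := by
        intro X _ x
        rw [smul_smul, smul_smul, ← pow_succ, ← pow_succ']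
      have ha' := hG.prj (g ^ j) ha
      have hb' := hG.prj (g ^ j) hb
      rw [cm] at ha'
      rw [cm, cm, cm] at hb'
      have iso := hG.iF (g ^ j) a b (ha.1.trans hb.1.symm)
      rw [pow_succ', mul_smul]
      rcases mono (by rw [hG.comm, hz]) (ih.mono (by omega)) (k1.mono (by omega))
        (k2.mono (by omega)) ha' hb' with ⟨y1, y2⟩ | ⟨y1, y2⟩
      · exact ⟨_, _, y1, y2, by omega⟩
      · exact ⟨_, _, y1, y2, by rw [S.Fsymm y1.1 y2.1]; omega⟩
  have lin : ∀ j : ℕ, dB (bar y) (g ^ j • v) + j * n' = dB (bar y) v + j * n := by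
    intro j
    induction j with
    | zero => simp
    | succ j ih =>
      have a1 := all (j + 1)
      rw [pow_succ', mul_smul] at a1 ⊢
      have := shift (a1.mono (by omega))
      rw [Nat.add_mul, Nat.add_mul]
      omega
  have a1 := lin (n + 1)
  have a2 := (pos ((all (n + 1)).mono (by omega))).1
  have a3 := (pos (hF.mono (Θ' := D + 1) (by omega))).1
  rcases Nat.lt_or_gt_of_ne hnn with e | e
  · have := Nat.mul_le_mul_left (n + 1) (show n + 1 ≤ n' from e)
    rw [Nat.mul_add (n + 1) n] at this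
    omega
  · have := Nat.mul_le_mul_left (n + 1) (show n' + 1 ≤ n from e)
    rw [Nat.mul_add (n + 1) n'] at this
    omega

end Blow

end Pool.Agent.Lib.MP_429c3d_al.Hyp
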