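import Pool.Agent.Lib.MP_429c3d_al.HypBase

set_option autoImplicit false

/-! Slim triangles and the guessing geodesics criterion of Bowditch, in scale free form. -/

namespace Pool.Agent.Lib.MP_429c3d_al.Hyp

variable {V : Type} {d : V → V → ℕ}

/-- Slim triangles give the four point condition. -/
theorem hyp4_of_slim (m : IsMet d) (sep : ∀ x y, d x y = 0 → x = y) (geo : IsGeo d) {δ : ℕ}
    (slim : ∀ (g g₁ g₂ : ℕ → V) (n n₁ n₂ : ℕ), GeoOn d g 0 n → GeoOn d g₁ 0 n₁ →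
      GeoOn d g₂ 0 n₂ → g₁ 0 = g 0 → g₂ 0 = g₁ n₁ → g₂ n₂ = g n → ∀ i, i ≤ n →
      (∃ j, j ≤ n₁ ∧ d (g i) (g₁ j) ≤ δ) ∨ ∃ j, j ≤ n₂ ∧ d (g i) (g₂ j) ≤ δ) :
    Hyp4 d (6 * δ + 2) := by
  classical
  intro x y z w
  obtain ⟨g, g0, g1, g2⟩ := geo x y
  have g1' := sep _ _ g1
  have tri : ∀ v : V, ∀ i, i ≤ d x y → ∃ u, d (g i) u ≤ δ ∧
      (d x u + d u v = d x v ∨ d v u + d u y = d v y) := by
    intro v i hi
    obtain ⟨a, a0, a1, a2⟩ := geo x v
    obtain ⟨b, b0, b1, b2⟩ := geo v y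
    have a1' := sep _ _ a1
    have b1' := sep _ _ b1
    rcases slim g a b _ _ _ g2 a2 b2 (a0.trans g0.symm) (b0.trans a1'.symm) (b1'.trans g1'.symm)
      i hi with ⟨j, j1, j2⟩ | ⟨j, j1, j2⟩
    · have e1 := a2 0 j le_rfl (Nat.zero_le _) j1
      have e2 := a2 j _ (Nat.zero_le _) j1 le_rfl
      rw [a0] at e1
      rw [a1'] at e2
      exact ⟨a j, j2, Or.inl (by omega)⟩
    · have e1 := b2 0 j le_rfl (Nat.zero_le _) j1
      have e2 := b2 j _ (Nat.zero_le _) j1 le_rfl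
      rw [b0] at e1
      rw [b1'] at e2
      exact ⟨b j, j2, Or.inr (by omega)⟩
  have hx : ∀ i, i ≤ d x y → d x (g i) = i := by
    intro i hi
    have := g2 0 i le_rfl (Nat.zero_le _) hi
    rwa [g0] at this
  have hy : ∀ i, i ≤ d x y → d (g i) y + i = d x y := by
    intro i hi
    have := g2 i _ (Nat.zero_le _) hi le_rfl
    rwa [g1'] at this
  have alt : ∀ i, i ≤ d x y → d w (g i) + i ≤ d x w + 2 * δ ∨
      d w (g i) + d x y ≤ d w y + i + 2 * δ := by
    intro i hi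
    obtain ⟨u, u1, u2⟩ := tri w i hi
    have := hx i hi
    have := hy i hi
    have := m.tri w u (g i)
    have := m.symm u (g i)
    have := m.symm u w
    have := m.tri x u (g i)
    have := m.tri (g i) u y
    omega
  obtain ⟨i, hi, hP⟩ : ∃ i, i ≤ d x y ∧ 2 * d w (g i) + d x y ≤ d x w + d w y + (4 * δ + 2) := by
    have h1 := Nat.findGreatest_le (P := fun i => d w (g i) + i ≤ d x w + 2 * δ) (d x y)
    have h2 := Nat.findGreatest_spec (P := fun i => d w (g i) + i ≤ d x w + 2 * δ)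
      (Nat.zero_le (d x y)) (by rw [g0, m.symm]; omega)
    obtain ⟨i, hi⟩ : ∃ i, i = Nat.findGreatest (fun i => d w (g i) + i ≤ d x w + 2 * δ) (d x y) :=
      ⟨_, rfl⟩
    rw [← hi] at h1 h2
    refine ⟨i, h1, ?_⟩
    by_cases hc : i = d x y
    · rw [hc, g1'] at h2
      rw [hc, g1']
      omega
    · have h3 := Nat.findGreatest_is_greatest (P := fun i => d w (g i) + i ≤ d x w + 2 * δ)
        (k := i + 1) (n := d x y) (by omega) (by omega)
      have h4 := alt (i + 1) (by omega)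
      have h5 := g2 i (i + 1) (Nat.zero_le _) (by omega) (by omega)
      have h6 := m.tri w (g (i + 1)) (g i)
      have h7 := m.symm (g (i + 1)) (g i)
      omega
  obtain ⟨u, u1, u2⟩ := tri z i hi
  have := m.tri w (g i) u
  have := m.tri x u w
  have := m.tri z u w
  have := m.tri y u w
  have := m.symm u w
  have := m.symm u z
  have := m.symm u y
  have := m.symm w y
  have := m.symm z y
  omega

/-- The hypotheses of the guessing geodesics criterion. -/
structure Guess (d : V → V → ℕ) (L : V → V → Set V) (r r' h : ℕ) : Prop where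
  thin : ∀ x y z, ∀ w ∈ L x y, ∃ u, (u ∈ L x z ∨ u ∈ L z y) ∧ d w u ≤ h
  small : ∀ x y, d x y ≤ r → ∀ w ∈ L x y, d w x ≤ h
  conn : ∀ x y, ∃ (c : ℕ → V) (n : ℕ), c 0 = x ∧ c n = y ∧ (∀ i, i ≤ n → c i ∈ L x y) ∧
    ∀ i, i < n → d (c i) (c (i + 1)) ≤ r'

variable {L : V → V → Set V} {r r' h p : ℕ}

theorem Guess.dyadic (G : Guess d L r r' h) (m : IsMet d) {g : ℕ → V} :
    ∀ (j a b : ℕ), GeoOn d g a b → a ≤ b → b ≤ a + 2 ^ j * r → ∀ w ∈ L (g a) (g b),
      ∃ i, a ≤ i ∧ i ≤ b ∧ d w (g i) ≤ (j + 1) * h := by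
  intro j
  induction j with
  | zero =>
    intro a b hg hab hb w hw
    have := hg a b le_rfl hab le_rfl
    exact ⟨a, le_rfl, hab, by simpa using G.small _ _ (by omega) w hw⟩
  | succ j ih =>
    intro a b hg hab hb w hw
    obtain ⟨c, hc⟩ : ∃ c, c = min b (a + 2 ^ j * r) := ⟨_, rfl⟩
    have e : 2 ^ (j + 1) * r = 2 ^ j * r + 2 ^ j * r := by ring
    have e' : (j + 1 + 1) * h = (j + 1) * h + h := by ring
    obtain ⟨u, hu | hu, hd⟩ := G.thin _ _ (g c) w hw
    · obtain ⟨i, i1, i2, i3⟩ := ih a c (hg.mono le_rfl (by omega)) (by omega) (by omega) u hu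
      have := m.tri w u (g i)
      exact ⟨i, i1, by omega, by omega⟩
    · obtain ⟨i, i1, i2, i3⟩ := ih c b (hg.mono (by omega) le_rfl) (by omega) (by omega) u hu
      have := m.tri w u (g i)
      exact ⟨i, by omega, i2, by omega⟩

theorem Guess.improve (G : Guess d L r r' h) (m : IsMet d) {g : ℕ → V} {n F j : ℕ}
    (hg : GeoOn d g 0 n) (hF : 2 * F + 4 * h + 2 ≤ 2 ^ j * r)
    (Q : ∀ a b, a ≤ b → b ≤ n → ∀ w ∈ L (g a) (g b), ∃ i, a ≤ i ∧ i ≤ b ∧ d w (g i) ≤ F) :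
    ∀ a b, a ≤ b → b ≤ n → ∀ w ∈ L (g a) (g b), ∃ i, a ≤ i ∧ i ≤ b ∧ d w (g i) ≤ (j + 3) * h := by
  intro a b hab hb w hw
  have e : (j + 3) * h = (j + 1) * h + 2 * h := by ring
  have e' : (j + 1) * h = j * h + h := by ring
  have e0 := hg a b (Nat.zero_le _) hab hb
  have t0 := m.tri (g a) w (g b)
  have s0 := m.symm (g a) w
  obtain ⟨x, hx⟩ : ∃ x, x = min (a + (d w (g a) - (F + 2 * h + 1))) b := ⟨_, rfl⟩
  obtain ⟨y, hy⟩ : ∃ y, y = max x (b - (d w (g b) - (F + 2 * h + 1))) := ⟨_, rfl⟩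
  obtain ⟨u, hu | hu, hd⟩ := G.thin _ _ (g x) w hw
  · by_cases hc : x = a
    · rw [hc] at hu
      have := G.small _ _ (by rw [m.self]; omega) u hu
      have := m.tri w u (g a)
      exact ⟨a, le_rfl, hab, by omega⟩
    · obtain ⟨i, i1, i2, i3⟩ := Q a x (by omega) (by omega) u hu
      have := hg a i (Nat.zero_le _) i1 (by omega)
      have := m.tri w u (g i)
      have := m.tri w (g i) (g a)
      have := m.symm (g i) (g a)
      omega
  · obtain ⟨v, hv | hv, hd'⟩ := G.thin _ _ (g y) u hu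
    · obtain ⟨i, i1, i2, i3⟩ := G.dyadic m j x y (hg.mono (Nat.zero_le _) (by omega)) (by omega)
        (by omega) v hv
      have := m.tri w u (g i)
      have := m.tri u v (g i)
      exact ⟨i, by omega, by omega, by omega⟩
    · have t1 := m.tri w u v
      by_cases hc : y = b
      · rw [hc] at hv
        have := G.small _ _ (by rw [m.self]; omega) v hv
        have := m.tri w v (g b)
        exact ⟨b, hab, le_rfl, by omega⟩
      · obtain ⟨i, i1, i2, i3⟩ := Q y b (by omega) hb v hv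
        have := hg i b (Nat.zero_le _) i2 hb
        have := m.tri w v (g i)
        have := m.tri w (g i) (g b)
        omega

/-- The guessed sets are close to every geodesic. -/
theorem Guess.near (G : Guess d L r r' h) (m : IsMet d)
    (hp : 2 * ((p + 4) * h) + 4 * h + 2 ≤ 2 ^ p * r) {g : ℕ → V} {n : ℕ} (hg : GeoOn d g 0 n) :
    ∀ w ∈ L (g 0) (g n), ∃ i, i ≤ n ∧ d w (g i) ≤ (p + 3) * h := by
  have num : ∀ t, 2 * ((p + t + 4) * h) + 4 * h + 2 ≤ 2 ^ (p + t) * r := by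
    intro t
    induction t with
    | zero => simpa using hp
    | succ t ih =>
      have e : 2 ^ (p + (t + 1)) * r = 2 ^ (p + t) * r + 2 ^ (p + t) * r := by ring
      have e' : (p + (t + 1) + 4) * h = (p + t + 4) * h + h := by ring
      omega
  have hr : 1 ≤ r := by
    rcases Nat.eq_zero_or_pos r with e | e
    · rw [e] at hp
      omega
    · exact e
  have desc : ∀ t, (∀ a b, a ≤ b → b ≤ n → ∀ w ∈ L (g a) (g b),
      ∃ i, a ≤ i ∧ i ≤ b ∧ d w (g i) ≤ (p + t + 3) * h) →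
      ∀ a b, a ≤ b → b ≤ n → ∀ w ∈ L (g a) (g b),
        ∃ i, a ≤ i ∧ i ≤ b ∧ d w (g i) ≤ (p + 3) * h := by
    intro t
    induction t with
    | zero => exact fun Q => Q
    | succ t ih => exact fun Q => ih (G.improve m hg (num t) Q)
  intro w hw
  obtain ⟨i, -, i2, i3⟩ := desc n (fun a b hab hb w hw => by
    have e1 : n < 2 ^ n := Nat.lt_two_pow_self
    have e2 : 2 ^ n ≤ 2 ^ n * r := Nat.le_mul_of_pos_right _ hr
    obtain ⟨i, i1, i2, i3⟩ := G.dyadic m n a b (hg.mono (Nat.zero_le _) hb) hab (by omega) w hw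
    exact ⟨i, i1, i2, i3.trans (Nat.mul_le_mul_right _ (by omega))⟩) 0 n (Nat.zero_le _) le_rfl w hw
  exact ⟨i, i2, i3⟩

/-- Every geodesic is close to the guessed set. -/
theorem Guess.near' (G : Guess d L r r' h) (m : IsMet d)
    (hp : 2 * ((p + 4) * h) + 4 * h + 2 ≤ 2 ^ p * r) {g : ℕ → V} {n : ℕ} (hg : GeoOn d g 0 n)
    (i : ℕ) (hi : i ≤ n) : ∃ w ∈ L (g 0) (g n), d (g i) w ≤ 3 * ((p + 3) * h) + r' := by
  obtain ⟨c, l, c0, cl, cm, cs⟩ := G.conn (g 0) (g n)
  obtain ⟨F, hF⟩ : ∃ F, F = (p + 3) * h := ⟨_, rfl⟩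
  have near := G.near m hp hg
  rw [← hF] at near ⊢
  have key : ∀ t, t ≤ l → (∃ w ∈ L (g 0) (g n), d (g i) w ≤ 3 * F + r') ∨
      ∃ s, s ≤ i ∧ d (c t) (g s) ≤ F := by
    intro t
    induction t with
    | zero =>
      intro _
      exact Or.inr ⟨0, Nat.zero_le _, by rw [c0, m.self]; omega⟩
    | succ t ih =>
      intro ht
      rcases ih (by omega) with h1 | ⟨s, s1, s2⟩
      · exact Or.inl h1
      · obtain ⟨s', s1', s2'⟩ := near _ (cm (t + 1) ht)
        by_cases hc : s' ≤ i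
        · exact Or.inr ⟨s', hc, s2'⟩
        · refine Or.inl ⟨c t, cm t (by omega), ?_⟩
          have := cs t ht
          have := hg s s' (Nat.zero_le _) (by omega) s1'
          have := hg s i (Nat.zero_le _) s1 hi
          have := m.tri (g s) (c t) (g s')
          have := m.tri (c t) (c (t + 1)) (g s')
          have := m.tri (g i) (g s) (c t)
          have := m.symm (g s) (c t)
          have := m.symm (g s) (g i)
          omega
  rcases key l le_rfl with h1 | ⟨s, s1, s2⟩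
  · exact h1
  · refine ⟨c l, cm l le_rfl, ?_⟩
    rw [cl] at s2 ⊢
    have := hg s n (Nat.zero_le _) (by omega) le_rfl
    have := hg i n (Nat.zero_le _) hi le_rfl
    have := m.symm (g s) (g n)
    omega

/-- The guessing geodesics criterion. -/
theorem Guess.hyp4 (G : Guess d L r r' h) (m : IsMet d) (sep : ∀ x y, d x y = 0 → x = y)
    (geo : IsGeo d) (hp : 2 * ((p + 4) * h) + 4 * h + 2 ≤ 2 ^ p * r) :
    Hyp4 d (6 * (4 * ((p + 3) * h) + h + r') + 2) := by
  refine hyp4_of_slim m sep geo fun g g₁ g₂ n n₁ n₂ h0 h1 h2 e1 e2 e3 i hi => ?_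
  obtain ⟨w, hw, w1⟩ := G.near' m hp h0 i hi
  obtain ⟨u, hu | hu, u1⟩ := G.thin _ _ (g₁ n₁) w hw
  · rw [← e1] at hu
    obtain ⟨j, j1, j2⟩ := G.near m hp h1 u hu
    have := m.tri (g i) w (g₁ j)
    have := m.tri w u (g₁ j)
    exact Or.inl ⟨j, j1, by omega⟩
  · rw [← e2, ← e3] at hu
    obtain ⟨j, j1, j2⟩ := G.near m hp h2 u hu
    have := m.tri (g i) w (g₂ j)
    have := m.tri w u (g₂ j)
    exact Or.inr ⟨j, j1, by omega⟩

end Pool.Agent.Lib.MP_429c3d_al.Hyp
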