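import Pool.Agent.Lib.MP_429c3d_al.HypDev

set_option autoImplicit false
set_option linter.unusedSectionVars false

/-! The developing Cartan-Hadamard theorem. -/

namespace Pool.Agent.Lib.MP_429c3d_al.Hyp

variable {V F I : Type} [Group F] [MulAction F V]
variable {d : V → V → ℕ} {N : I → Subgroup F} {good : V → I → Prop} {k σ U ρ : ℕ}

namespace Atlas

variable (A : Atlas d N good k σ)
include A

/-- On paths that are geodesic for `d` and for the quotient, the chart distance is exact. -/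
theorem qd_exact (hk : 20 * k + 20 ≤ U) (hσ : 3000 * U ≤ σ) (hρ : 4 * k + 4 ≤ ρ) {g : ℕ → V}
    {n : ℕ} (h1 : GeoOn d g 0 n) (h2 : GeoOn (qd d (NN d N good ρ)) g 0 n) {a : I} {i j : ℕ}
    (hij : i ≤ j) (hj : j ≤ n) (hl : j ≤ i + 500 * U) (ha : good (g i) a) :
    qd d (N a) (g i) (g j) + i = j := by
  have a1 := h1 i j (Nat.zero_le _) hij hj
  have a2 := h2 i j (Nat.zero_le _) hij hj
  have a3 := qd_le' (d := d) (N a) (g i) (g j)
  have a4 := A.qd_NN_le hk hσ hρ ha (y := g j) (by omega)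
  omega

theorem lg_of_geo (hk : 20 * k + 20 ≤ U) (hσ : 3000 * U ≤ σ) (hρ : 4 * k + 4 ≤ ρ) {g : ℕ → V}
    {n : ℕ} (h1 : GeoOn d g 0 n) (h2 : GeoOn (qd d (NN d N good ρ)) g 0 n) : LG d N good U g n :=
  ⟨fun i hi => by
    have := h1 i (i + 1) (Nat.zero_le _) (by omega) hi
    omega, fun a i j a1 a2 a3 a4 => A.qd_exact hk hσ hρ h1 h2 a1 a2 (by omega) a4⟩

theorem junction (hk : 20 * k + 20 ≤ U) (hσ : 3000 * U ≤ σ) (hρ : 4 * k + 4 ≤ ρ) {α β : ℕ → V}
    {n n' t u v : ℕ} (h0 : α 0 = β 0) (α1 : GeoOn d α 0 n)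
    (α2 : GeoOn (qd d (NN d N good ρ)) α 0 n) (β1 : GeoOn d β 0 n')
    (β2 : GeoOn (qd d (NN d N good ρ)) β 0 n') {ψ : F} (hψ : ψ ∈ NN d N good ρ)
    (ht : d (α t) (ψ • β t) ≤ 6 * k)
    (hmax : ∀ s, t < s → s ≤ n → s ≤ n' → 6 * k < qd d (NN d N good ρ) (α s) (β s))
    (hu : t ≤ u) (hu' : u ≤ n) (hu'' : u ≤ t + 250 * U) (hv : t ≤ v) (hv' : v ≤ n')
    (hv'' : v ≤ t + 250 * U) {a : I} (ha : Ball d good a (α t) (1000 * U)) :
    qd d (N a) (α t) (α u) + qd d (N a) (α t) (ψ • β v) ≤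
      qd d (N a) (α u) (ψ • β v) + (26 * k + 2) := by
  by_contra hcon
  have M := A.qmet a
  have D := qd_met A.met A.inv (NN d N good ρ)
  have hα : ∀ i j, t ≤ i → i ≤ j → j ≤ u → qd d (N a) (α i) (α j) + i = j := by
    intro i j a1 a2 a3
    have := α1 t i (Nat.zero_le _) a1 (by omega)
    exact A.qd_exact hk hσ hρ α1 α2 a2 (by omega) (by omega) (ha _ (by omega))
  have hβd : ∀ i, t ≤ i → i ≤ v → d (α t) (ψ • β i) + t ≤ 6 * k + i := by
    intro i a1 a2
    have := β1 t i (Nat.zero_le _) a1 (by omega)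
    have e := A.met.tri (α t) (ψ • β t) (ψ • β i)
    rw [A.inv] at e
    omega
  have hβ : ∀ i j, t ≤ i → i ≤ j → j ≤ v → qd d (N a) (ψ • β i) (ψ • β j) + i = j := by
    intro i j a1 a2 a3
    have := hβd i a1 (by omega)
    obtain ⟨b, b1, -, b3, -⟩ := A.shift ψ a
    rw [b3]
    exact A.qd_exact hk hσ hρ β1 β2 a2 (by omega) (by omega) ((b1 _).1 (ha _ (by omega)))
  have e1 := hα t u le_rfl hu le_rfl
  have e2 := hβd v hv le_rfl
  have e3 := qd_le' (d := d) (N a) (α t) (ψ • β v)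
  have e4 := M.tri (α t) (α u) (ψ • β v)
  have e5 := M.tri (α t) (ψ • β v) (α u)
  have e6 := M.symm (α u) (ψ • β v)
  obtain ⟨s, hs⟩ : ∃ s, s = t + (7 * k + 1) := ⟨_, rfl⟩
  have e7 := hβd s (by omega) (by omega)
  have e8 := qd_le' (d := d) (N a) (α t) (ψ • β s)
  have e9 := hβ t s le_rfl (by omega) (by omega)
  have e10 := hβ s v (by omega) (by omega) le_rfl
  have e11 := hβ t v le_rfl hv le_rfl
  have e12 := qd_le' (d := d) (N a) (α t) (ψ • β t)
  have e13 := A.hypN a (ψ • β t) (ψ • β v) (α t) (ψ • β s)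
  have e14 := M.symm (ψ • β t) (α t)
  have e15 := M.symm (ψ • β v) (ψ • β s)
  have e16 := M.symm (ψ • β v) (α t)
  obtain ⟨s', hs'⟩ : ∃ s', s' = t + qd d (N a) (α t) (ψ • β s) := ⟨_, rfl⟩
  have e17 := hα t s' le_rfl (by omega) (by omega)
  have e18 := hα s' u (by omega) (by omega) le_rfl
  have e19 := A.hypN a (α s') (ψ • β s) (α u) (α t)
  have e20 := A.hypN a (α u) (ψ • β s) (ψ • β v) (α t)
  have e21 := M.symm (α u) (α t)
  have e22 := M.symm (ψ • β s) (α t)
  have e23 := M.symm (α s') (α t)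
  have e24 := M.symm (ψ • β s) (α u)
  have e25 : qd d (N a) (α s') (ψ • β s) ≤ 3 * k := by omega
  have e26 := α1 t s' (Nat.zero_le _) (by omega) (by omega)
  have e27 := A.met.tri (α s') (α t) (ψ • β s)
  have e28 := A.met.symm (α s') (α t)
  have e29 := A.qd_NN_le hk hσ hρ (ha (α s') (by omega)) (y := ψ • β s) (by omega)
  rw [qd_smul_right hψ] at e29
  have f1 := α2 0 s' le_rfl (Nat.zero_le _) (by omega)
  have f2 := β2 0 s le_rfl (Nat.zero_le _) (by omega)
  rw [← h0] at f2
  have f3 := D.tri (α 0) (α s') (β s)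
  have f4 := D.tri (α 0) (β s) (α s')
  have f5 := D.symm (β s) (α s')
  have f6 := D.tri (α s) (α s') (β s)
  have f7 := hmax s (by omega) (by omega) (by omega)
  rcases le_total s s' with h | h
  · have := α2 s s' (Nat.zero_le _) h (by omega)
    omega
  · have := α2 s' s (Nat.zero_le _) h (by omega)
    have := D.symm (α s) (α s')
    omega

theorem tripod (hk : 20 * k + 20 ≤ U) (hσ : 3000 * U ≤ σ) (hρ : 4 * k + 4 ≤ ρ)
    (hρ' : ρ ≤ 1000 * U) {α β : ℕ → V} {n n' : ℕ} (h0 : α 0 = β 0) (α1 : GeoOn d α 0 n)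
    (α2 : GeoOn (qd d (NN d N good ρ)) α 0 n) (β1 : GeoOn d β 0 n')
    (β2 : GeoOn (qd d (NN d N good ρ)) β 0 n') :
    ∃ t, t ≤ n ∧ t ≤ n' ∧ (∀ s, s ≤ t → qd d (NN d N good ρ) (α s) (β s) ≤ 16 * k) ∧
      n + n' ≤ qd d (NN d N good ρ) (α n) (β n') + 2 * t + (40 * k + 4) := by
  classical
  have D := qd_met A.met A.inv (NN d N good ρ)
  have hN := A.NN_normal ρ
  obtain ⟨t, t1, t2, t3, hmax⟩ : ∃ t, t ≤ n ∧ t ≤ n' ∧ qd d (NN d N good ρ) (α t) (β t) ≤ 6 * k ∧
      ∀ s, t < s → s ≤ n → s ≤ n' → 6 * k < qd d (NN d N good ρ) (α s) (β s) := by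
    have h1 := Nat.findGreatest_le (P := fun s => qd d (NN d N good ρ) (α s) (β s) ≤ 6 * k)
      (min n n')
    refine ⟨_, h1.trans (min_le_left _ _), h1.trans (min_le_right _ _), Nat.findGreatest_spec
      (P := fun s => qd d (NN d N good ρ) (α s) (β s) ≤ 6 * k) (Nat.zero_le _)
      (by rw [h0, D.self]; omega), fun s a1 a2 a3 => ?_⟩
    exact not_le.mp (Nat.findGreatest_is_greatest
      (P := fun s => qd d (NN d N good ρ) (α s) (β s) ≤ 6 * k) a1 (le_min a2 a3))
  refine ⟨t, t1, t2, fun s hs => ?_, ?_⟩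
  · obtain ⟨j, j1, j2⟩ := A.fellow hk hσ hρ hρ' ((A.lg_of_geo hk hσ hρ α1 α2).mono t1)
      ((A.lg_of_geo hk hσ hρ β1 β2).mono t2) h0 (by omega) s hs
    have f1 := α2 0 s le_rfl (Nat.zero_le _) (by omega)
    have f2 := β2 0 j le_rfl (Nat.zero_le _) (by omega)
    rw [← h0] at f2
    have f3 := D.tri (α 0) (α s) (β j)
    have f4 := D.tri (α 0) (β j) (α s)
    have f5 := D.symm (β j) (α s)
    have f6 := D.tri (α s) (β j) (β s)
    rcases le_total s j with h | h
    · have := β2 s j (Nat.zero_le _) h (by omega)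
      have := D.symm (β s) (β j)
      omega
    · have := β2 j s (Nat.zero_le _) h (by omega)
      omega
  obtain ⟨ψ, hψ, eψ⟩ := exists_qd d (NN d N good ρ) (α t) (β t)
  obtain ⟨m, e, hm, e0, em, es, el, en⟩ := exists_checkpoints (n - t) (203 * U) (by omega)
  obtain ⟨m', e', hm', e0', em', es', el', en'⟩ :=
    exists_checkpoints (n' - t) (203 * U) (by omega)
  let p : ℕ → V := fun i => if i ≤ m then α (t + e (m - i)) else ψ • β (t + e' (i - m))
  have hpα : ∀ i w, i + w = m → p i = α (t + e w) := by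
    intro i w h
    simp only [p]
    rw [if_pos (by omega), show m - i = w by omega]
  have hpβ : ∀ i w, i = m + (w + 1) → p i = ψ • β (t + e' (w + 1)) := by
    intro i w h
    simp only [p]
    rw [if_neg (by omega), show i - m = w + 1 by omega]
  have hpm : p m = α t := by rw [hpα m 0 rfl, e0, Nat.add_zero]
  have hαq : ∀ (a : I) (i j : ℕ), i ≤ j → j ≤ n → j ≤ i + 500 * U → good (α i) a →
      qd d (N a) (α i) (α j) + i = j := fun a i j a1 a2 a3 a4 =>
    A.qd_exact hk hσ hρ α1 α2 a1 a2 a3 a4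
  have hβq : ∀ (a : I) (i j : ℕ), i ≤ j → j ≤ n' → j ≤ i + 500 * U → good (ψ • β i) a →
      qd d (N a) (ψ • β i) (ψ • β j) + i = j := fun a i j a1 a2 a3 a4 => by
    obtain ⟨b, b1, -, b3, -⟩ := A.shift ψ a
    rw [b3]
    exact A.qd_exact hk hσ hρ β1 β2 a1 a2 a3 ((b1 _).1 a4)
  have hαd : ∀ i j, i ≤ j → j ≤ n → d (α j) (α i) + i = j := fun i j a1 a2 => by
    rw [A.met.symm]
    exact α1 i j (Nat.zero_le _) a1 a2
  have hβd : ∀ i j, i ≤ j → j ≤ n' → d (ψ • β i) (ψ • β j) + i = j := fun i j a1 a2 => by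
    rw [A.inv]
    exact β1 i j (Nat.zero_le _) a1 a2
  have hch : Chain d N good U (15 * k + 2) (26 * k + 2) p (m + m') := by
    refine ⟨fun i hi => ?_, fun i hi a ha => ?_, fun i hi a ha => ?_⟩
    · rcases lt_trichotomy i m with h | h | h
      · obtain ⟨w, hw⟩ : ∃ w, i + (w + 1) = m := ⟨m - i - 1, by omega⟩
        rw [hpα i (w + 1) hw, hpα (i + 1) w (by omega)]
        have := el w
        have := en (w + 1)
        have := hαd (t + e w) (t + e (w + 1)) (by omega) (by omega)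
        omega
      · rw [h, hpm, hpβ (m + 1) 0 rfl]
        have := el' 0
        have := en' (0 + 1)
        have := hβd t (t + e' (0 + 1)) (by omega) (by omega)
        have := A.met.tri (α t) (ψ • β t) (ψ • β (t + e' (0 + 1)))
        omega
      · obtain ⟨w, hw⟩ : ∃ w, i = m + (w + 1) := ⟨i - m - 1, by omega⟩
        rw [hpβ i w hw, hpβ (i + 1) (w + 1) (by omega)]
        have := el' (w + 1)
        have := en' (w + 1 + 1)
        have := hβd (t + e' (w + 1)) (t + e' (w + 1 + 1)) (by omega) (by omega)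
        omega
    · have M := A.qmet a
      rcases lt_trichotomy (i + 1) m with h | h | h
      · obtain ⟨w, hw⟩ : ∃ w, i + 1 + (w + 1) = m := ⟨m - i - 2, by omega⟩
        rw [hpα (i + 1) (w + 1) hw] at ha
        rw [hpα (i + 1) (w + 1) hw, hpα (i + 2) w (by omega), M.symm]
        have := es w (by omega)
        have := en (w + 1)
        have := hαd (t + e w) (t + e (w + 1)) (by omega) (by omega)
        have := hαq a (t + e w) (t + e (w + 1)) (by omega) (by omega) (by omega) (ha _ (by omega))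
        omega
      · rw [h, hpm] at ha
        rw [h, hpm, hpβ (i + 2) 0 (by omega)]
        have := es' 0 (by omega)
        have := en' (0 + 1)
        have := hβq a t (t + e' (0 + 1)) (by omega) (by omega) (by omega) (ha _ (by omega))
        have := M.tri (ψ • β t) (α t) (ψ • β (t + e' (0 + 1)))
        have := M.symm (ψ • β t) (α t)
        have := qd_le' (d := d) (N a) (α t) (ψ • β t)
        omega
      · obtain ⟨w, hw⟩ : ∃ w, i + 1 = m + (w + 1) := ⟨i - m, by omega⟩
        rw [hpβ (i + 1) w hw] at ha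
        rw [hpβ (i + 1) w hw, hpβ (i + 2) (w + 1) (by omega)]
        have := es' (w + 1) (by omega)
        have := en' (w + 1 + 1)
        have := hβq a (t + e' (w + 1)) (t + e' (w + 1 + 1)) (by omega) (by omega) (by omega)
          (A.ball_self ha)
        omega
    · have M := A.qmet a
      rcases lt_trichotomy (i + 1) m with h | h | h
      · obtain ⟨w, hw⟩ : ∃ w, i + 1 + (w + 1) = m := ⟨m - i - 2, by omega⟩
        rw [hpα (i + 1) (w + 1) hw] at ha
        rw [hpα (i + 1) (w + 1) hw, hpα (i + 2) w (by omega), hpα i (w + 1 + 1) (by omega),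
          M.symm (α (t + e (w + 1))) (α (t + e w)), M.symm (α (t + e (w + 1 + 1)))]
        have := el w
        have := el (w + 1)
        have := en (w + 1 + 1)
        have := hαd (t + e w) (t + e (w + 1)) (by omega) (by omega)
        have := hαq a (t + e w) (t + e (w + 1)) (by omega) (by omega) (by omega) (ha _ (by omega))
        have := hαq a (t + e w) (t + e (w + 1 + 1)) (by omega) (by omega) (by omega)
          (ha _ (by omega))
        have := hαq a (t + e (w + 1)) (t + e (w + 1 + 1)) (by omega) (by omega) (by omega)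
          (A.ball_self ha)
        omega
      · rw [h, hpm] at ha
        rw [h, hpm, hpβ (i + 2) 0 (by omega), hpα i 1 h]
        have := el 0
        have := en (0 + 1)
        have := el' 0
        have := en' (0 + 1)
        simp only [zero_add] at *
        exact A.junction hk hσ hρ h0 α1 α2 β1 β2 hψ (by omega) hmax (by omega) (by omega)
          (by omega) (by omega) (by omega) (by omega) ha
      · obtain ⟨w, hw⟩ : ∃ w, i + 1 = m + (w + 1) := ⟨i - m, by omega⟩
        rw [hpβ (i + 1) w hw] at ha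
        have hnear : d (p i) (ψ • β (t + e' w)) ≤ 6 * k := by
          rcases w with _ | w
          · rw [show i = m by omega, hpm, e0', Nat.add_zero]
            omega
          · rw [hpβ i w (by omega), A.met.self]
            omega
        rw [hpβ (i + 1) w hw, hpβ (i + 2) (w + 1) (by omega)]
        have := el' w
        have := el' (w + 1)
        have := en' (w + 1 + 1)
        have := hβd (t + e' w) (t + e' (w + 1)) (by omega) (by omega)
        have := A.met.symm (ψ • β (t + e' w)) (ψ • β (t + e' (w + 1)))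
        have := hβq a (t + e' w) (t + e' (w + 1)) (by omega) (by omega) (by omega)
          (ha _ (by omega))
        have := hβq a (t + e' w) (t + e' (w + 1 + 1)) (by omega) (by omega) (by omega)
          (ha _ (by omega))
        have := hβq a (t + e' (w + 1)) (t + e' (w + 1 + 1)) (by omega) (by omega) (by omega)
          (A.ball_self ha)
        have := qd_le' (d := d) (N a) (p i) (ψ • β (t + e' w))
        have := M.tri (ψ • β (t + e' (w + 1))) (ψ • β (t + e' w)) (p i)
        have := M.tri (ψ • β (t + e' w)) (p i) (ψ • β (t + e' (w + 1 + 1)))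
        have := M.symm (ψ • β (t + e' w)) (p i)
        have := M.symm (ψ • β (t + e' w)) (ψ • β (t + e' (w + 1)))
        omega
  obtain ⟨ω, τ, H, b1, b2, τ0, H0, b3, b4, b5, b6⟩ :=
    A.tighten hk hσ (by omega) (by omega) hch (by omega)
  have hH : ∀ i, i ≤ m + m' → H i ∈ NN d N good ρ := by
    intro i
    induction i with
    | zero =>
      intro _
      rw [H0]
      exact Subgroup.one_mem _
    | succ i ih =>
      intro hi
      obtain ⟨-, -, c1, c2, -⟩ := b6 i hi
      have := Subgroup.mul_mem _ (A.mem_small hk hσ hρ c1 (by omega)) (ih (by omega))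
      rwa [inv_mul_cancel_right] at this
  have hp0 : p 0 = α n := by rw [hpα 0 m (by omega), em, show t + (n - t) = n by omega]
  have hpe : p (m + m') = ψ • β n' := by
    obtain ⟨w, rfl⟩ : ∃ w, m' = w + 1 := ⟨m' - 1, by omega⟩
    rw [hpβ _ w rfl, em', show t + (n' - t) = n' by omega]
  obtain ⟨f, hf, g, g0, g1, -, g3, g4⟩ :=
    exists_qgeo A.met A.inv A.geo (NN d N good ρ) (α n) (β n')
  have g1' := A.sep _ _ g1
  obtain ⟨l, hl⟩ : ∃ l, l = qd d (NN d N good ρ) (α n) (β n') := ⟨_, rfl⟩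
  rw [← hl] at g1' g3 g4 ⊢
  have hend : qd d (NN d N good ρ) (ω (τ (m + m'))) (g l) = 0 := by
    rw [g1', qd_smul_right hf, ← qd_smul_left A.met A.inv (hH _ le_rfl), b3, hpe,
      qd_smul_left A.met A.inv hψ, D.self]
  obtain ⟨j, j1, j2⟩ := A.fellow hk hσ hρ hρ' b1 (A.lg_of_geo hk hσ hρ g3 g4)
    (by rw [b2, hp0, g0]) (by omega) (τ m) (b5 m (by omega))
  have c1 := b4 m (by omega)
  have c2 := qd_le (d := d) (hH m (by omega)) (p m) (ω (τ m))
  rw [hpm] at c1 c2
  have c3 := g4 0 j le_rfl (Nat.zero_le _) j1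
  have c4 := g4 j l (Nat.zero_le _) j1 le_rfl
  rw [g0] at c3
  rw [g1', qd_smul_right hf] at c4
  have c5 := α2 t n (Nat.zero_le _) t1 le_rfl
  have c6 := β2 t n' (Nat.zero_le _) t2 le_rfl
  have c7 := D.tri (α t) (ω (τ m)) (g j)
  have c8 := D.tri (α t) (g j) (α n)
  have c9 := D.symm (g j) (α n)
  have c10 := D.tri (β t) (α t) (β n')
  have c11 := D.symm (β t) (α t)
  have c12 := D.tri (α t) (g j) (β n')
  omega

/-- The quotient by the short null elements is hyperbolic. -/
theorem hyp_NN (hk : 20 * k + 20 ≤ U) (hσ : 3000 * U ≤ σ) (hρ : 4 * k + 4 ≤ ρ)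
    (hρ' : ρ ≤ 1000 * U) : Hyp4 (qd d (NN d N good ρ)) (72 * k + 4) := by
  intro x y z w
  have D := qd_met A.met A.inv (NN d N good ρ)
  obtain ⟨f, hf, α, α0, α1, -, α2, α3⟩ := exists_qgeo A.met A.inv A.geo (NN d N good ρ) w x
  obtain ⟨f', hf', β, β0, β1, -, β2, β3⟩ := exists_qgeo A.met A.inv A.geo (NN d N good ρ) w y
  obtain ⟨f'', hf'', γ, γ0, γ1, -, γ2, γ3⟩ := exists_qgeo A.met A.inv A.geo (NN d N good ρ) w z
  have α1' := A.sep _ _ α1
  have β1' := A.sep _ _ β1
  have γ1' := A.sep _ _ γ1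
  obtain ⟨t, t1, t2, t3, t4⟩ := A.tripod hk hσ hρ hρ' (α0.trans γ0.symm) α2 α3 γ2 γ3
  obtain ⟨u, u1, u2, u3, u4⟩ := A.tripod hk hσ hρ hρ' (β0.trans γ0.symm) β2 β3 γ2 γ3
  rw [α1', γ1', qd_smul_right hf'', qd_smul_left A.met A.inv hf] at t4
  rw [β1', γ1', qd_smul_right hf'', qd_smul_left A.met A.inv hf'] at u4
  have a1 := t3 (min t u) (min_le_left _ _)
  have a2 := u3 (min t u) (min_le_right _ _)
  have a3 := α3 (min t u) _ (Nat.zero_le _) (by omega) le_rfl
  have a4 := β3 (min t u) _ (Nat.zero_le _) (by omega) le_rfl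
  rw [α1', qd_smul_right hf] at a3
  rw [β1', qd_smul_right hf'] at a4
  have a5 := D.tri x (α (min t u)) y
  have a6 := D.tri (α (min t u)) (γ (min t u)) y
  have a7 := D.tri (γ (min t u)) (β (min t u)) y
  have a8 := D.symm x (α (min t u))
  have a9 := D.symm (γ (min t u)) (β (min t u))
  have a10 := D.symm w x
  have a11 := D.symm w y
  have a12 := D.symm w z
  omega

/-- The developing Cartan-Hadamard theorem. -/
theorem cartan_hadamard (hk : 20 * k + 20 ≤ U) (hσ : 3000 * U ≤ σ) (hρ : 4 * k + 4 ≤ ρ)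
    (hρ' : ρ ≤ 1000 * U) :
    (NN d N good ρ).Normal ∧ IsMet (qd d (NN d N good ρ)) ∧ IsGeo (qd d (NN d N good ρ)) ∧
      Hyp4 (qd d (NN d N good ρ)) (72 * k + 4) ∧
      (∀ (x : V) (f : F), f ∈ NN d N good ρ → d x (f • x) ≤ U → ∀ a, good x a → f ∈ N a) ∧
      ∀ (x : V) (f : F) (a : I), good x a → f ∈ N a → d x (f • x) ≤ 1000 * U →
        f ∈ NN d N good ρ :=
  ⟨A.NN_normal ρ, qd_met A.met A.inv _, qd_geo A.met A.inv A.geo _, A.hyp_NN hk hσ hρ hρ',
    fun _ _ hf hd => A.nul_of_NN hk hσ hρ' hf hd,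
    fun _ _ _ ha hf hd => A.mem_small hk hσ hρ (A.nul_of_mem ha hf (by omega)) hd⟩

end Atlas

end Pool.Agent.Lib.MP_429c3d_al.Hyp
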