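import Pool.Agent.Lib.MP_429c3d_al.HypGraph

set_option autoImplicit false
set_option linter.unusedSectionVars false

/-! Broken geodesics, axes, ping-pong chains, transfer of hyperbolicity. -/

namespace Pool.Agent.Lib.MP_429c3d_al.Hyp

variable {X : Type} {d : X → X → ℕ} {k : ℕ}

/-- Broken geodesics: long steps and small products at the corners. -/
structure Broken (d : X → X → ℕ) (z : ℕ → X) (n κ l : ℕ) : Prop where
  long : ∀ i, i < n → l ≤ d (z i) (z (i + 1))
  corner : ∀ i, i + 2 ≤ n →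
    d (z (i + 1)) (z i) + d (z (i + 1)) (z (i + 2)) ≤ d (z i) (z (i + 2)) + κ

namespace Broken

variable {z : ℕ → X} {n κ l : ℕ} (B : Broken d z n κ l) (m : IsMet d) (h : Hyp4 d k)
  (hl : κ + 2 * k + 1 ≤ l)
include B m h hl

theorem right (t : ℕ) : ∀ i, i + 1 + t ≤ n →
    d (z (i + 1)) (z i) + d (z (i + 1)) (z (i + 1 + t)) ≤ d (z i) (z (i + 1 + t)) + (κ + k) := by
  induction t with
  | zero =>
    intro i _
    rw [Nat.add_zero, m.self, m.symm]
    omega
  | succ t ih =>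
    intro i hi
    have e1 := ih (i + 1) (by omega)
    have e2 := B.corner i (by omega)
    have e3 := B.long (i + 1) (by omega)
    rw [show i + 1 + 1 + t = i + 1 + (t + 1) by omega] at e1
    have e4 := h (z i) (z (i + 2)) (z (i + 1 + (t + 1))) (z (i + 1))
    have := m.symm (z (i + 1)) (z i)
    have := m.symm (z (i + 1)) (z (i + 2))
    have := m.symm (z (i + 1)) (z (i + 1 + (t + 1)))
    simp only [show i + 1 + 1 = i + 2 from rfl] at e1 e3
    omega

theorem left (i t : ℕ) : i + t + 1 ≤ n →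
    d (z (i + t)) (z i) + d (z (i + t)) (z (i + t + 1)) ≤ d (z i) (z (i + t + 1)) + (κ + k) := by
  induction t with
  | zero =>
    intro _
    rw [Nat.add_zero, m.self]
    omega
  | succ t ih =>
    intro hi
    have e1 := ih (by omega)
    have e2 := B.corner (i + t) (by omega)
    have e3 := B.long (i + t) (by omega)
    have e4 := h (z (i + t)) (z (i + t + 2)) (z i) (z (i + t + 1))
    have := m.symm (z (i + t + 1)) (z (i + t))
    have := m.symm (z (i + t + 1)) (z (i + t + 2))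
    have := m.symm (z (i + t + 1)) (z i)
    have := m.symm (z (i + t + 2)) (z i)
    simp only [show i + (t + 1) = i + t + 1 from rfl, show i + t + 1 + 1 = i + t + 2 from rfl]
    omega

theorem prod {i j r : ℕ} (hij : i ≤ j) (hjr : j ≤ r) (hr : r ≤ n) :
    d (z j) (z i) + d (z j) (z r) ≤ d (z i) (z r) + (κ + 2 * k) := by
  rcases hij.eq_or_lt with rfl | hij
  · rw [m.self]
    omega
  obtain ⟨s, rfl⟩ : ∃ s, j = i + s + 1 := ⟨j - i - 1, by omega⟩
  obtain ⟨t, rfl⟩ : ∃ t, r = i + s + 1 + t := ⟨r - (i + s + 1), by omega⟩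
  have e1 := B.right m h hl t (i + s) hr
  have e2 := B.left m h hl i s (by omega)
  have e3 := B.long (i + s) (by omega)
  have e4 := h (z (i + s)) (z (i + s + 1 + t)) (z i) (z (i + s + 1))
  have := m.symm (z (i + s + 1)) (z (i + s))
  have := m.symm (z (i + s + 1)) (z i)
  have := m.symm (z (i + s + 1)) (z (i + s + 1 + t))
  have := m.symm (z i) (z (i + s + 1 + t))
  omega

theorem dist (i t : ℕ) (ht : i + t ≤ n) : t * l ≤ d (z i) (z (i + t)) + t * (κ + k) := by
  induction t with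
  | zero => simp
  | succ t ih =>
    have e1 := ih (by omega)
    have e2 := B.left m h hl i t ht
    have e3 := B.long (i + t) (by omega)
    have := m.symm (z (i + t)) (z i)
    rw [Nat.add_mul, Nat.add_mul, show i + (t + 1) = i + t + 1 from rfl]
    omega

end Broken

variable {G : Type} [Group G] [MulAction G X]

theorem corner_min (Γ : IsGr d) (h : Hyp4 d k) (inv : ∀ (g : G) x y, d (g • x) (g • y) = d x y)
    {g : G} {y : X} (hy : ∀ x, d y (g • y) ≤ d x (g • x)) (hμ : 2 * k + 2 ≤ d y (g • y)) :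
    d y (g⁻¹ • y) + d y (g • y) ≤ d (g⁻¹ • y) (g • y) + 2 * k := by
  have m := Γ.met
  obtain ⟨w, w1, w2⟩ := Γ.geo.mid m y (g • y) (s := d y (g • y) / 2) (by omega)
  have e0 := hy (g⁻¹ • w)
  have e1 := inv g⁻¹ w (g • y)
  have e2 := inv g⁻¹ y w
  have e3 := inv g⁻¹ y (g • y)
  rw [inv_smul_smul] at e1 e3
  rw [smul_inv_smul] at e0
  have e4 := h (g⁻¹ • w) w (g⁻¹ • y) y
  have e5 := h (g⁻¹ • y) w (g • y) y
  have := m.symm y (g⁻¹ • y)
  have := m.symm y w
  have := m.symm (g⁻¹ • w) (g⁻¹ • y)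
  have := m.symm w (g⁻¹ • y)
  have := m.symm y (g • y)
  omega

theorem broken_axis (Γ : IsGr d) (h : Hyp4 d k) (inv : ∀ (g : G) x y, d (g • x) (g • y) = d x y)
    {g : G} {y : X} (hy : ∀ x, d y (g • y) ≤ d x (g • x)) (hμ : 2 * k + 2 ≤ d y (g • y)) (n : ℕ) :
    Broken d (fun i => g ^ i • y) n (2 * k) (d y (g • y)) := by
  refine ⟨fun i _ => by simp only [pow_succ, mul_smul, inv, le_refl], fun i _ => ?_⟩
  have := corner_min Γ h inv hy hμ
  rw [← inv (g ^ (i + 1)) y (g⁻¹ • y), ← inv (g ^ (i + 1)) y (g • y),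
    ← inv (g ^ (i + 1)) (g⁻¹ • y), smul_smul, smul_smul, ← pow_succ,
    show g ^ (i + 1) * g⁻¹ = g ^ i by rw [pow_succ, mul_inv_cancel_right]] at this
  exact this

/-- Geodesics from `x` to `g ^ j x` follow an axis of `g`. -/
theorem exists_axis (Γ : IsGr d) (h : Hyp4 d k) (inv : ∀ (g : G) x y, d (g • x) (g • y) = d x y)
    {g : G} (hμ : ∀ x, 4 * k + 2 ≤ d x (g • x)) (x : X) :
    ∃ y, (∀ x, d y (g • y) ≤ d x (g • x)) ∧ ∀ j s, 1 ≤ s → s + 1 ≤ j →
      d (g ^ s • y) x + d (g ^ s • y) (g ^ j • x) ≤ d x (g ^ j • x) + 4 * k := by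
  have m := Γ.met
  classical
  obtain ⟨y₀, h₀⟩ : ∃ y, ∀ x, d y (g • y) ≤ d x (g • x) := by
    have ex : ∃ n, ∃ y, d y (g • y) = n := ⟨_, x, rfl⟩
    obtain ⟨y, hy⟩ := Nat.find_spec ex
    exact ⟨y, fun x => hy ▸ Nat.find_min' ex ⟨x, rfl⟩⟩
  obtain ⟨y, hy, hx⟩ : ∃ y, (∀ x, d y (g • y) ≤ d x (g • x)) ∧ ∀ y',
      (∀ x, d y' (g • y') ≤ d x (g • x)) → d x y ≤ d x y' := by
    have ex : ∃ n, ∃ y, (∀ x, d y (g • y) ≤ d x (g • x)) ∧ d x y = n := ⟨_, y₀, h₀, rfl⟩
    obtain ⟨y, h1, h2⟩ := Nat.find_spec ex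
    exact ⟨y, h1, fun y' h' => h2 ▸ Nat.find_min' ex ⟨y', h', rfl⟩⟩
  have step : ∀ {g : G} {y : X}, (∀ x, d y (g • y) ≤ d x (g • x)) → 4 * k + 2 ≤ d y (g • y) →
      d x y ≤ d x (g • y) → ∀ s, d x (g ^ s • y) ≤ d x (g ^ (s + 1) • y) := by
    intro g y hy hμ h0 s
    induction s with
    | zero => simpa using h0
    | succ s ih =>
      have B := broken_axis Γ h inv hy (by omega) (s + 2)
      have e1 := B.corner s le_rfl
      have e2 := B.long s (by omega)
      have e3 := B.long (s + 1) (by omega)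
      have e4 := h (g ^ s • y) (g ^ (s + 2) • y) x (g ^ (s + 1) • y)
      have := m.symm (g ^ (s + 1) • y) (g ^ s • y)
      have := m.symm (g ^ (s + 1) • y) (g ^ (s + 2) • y)
      have := m.symm x (g ^ s • y)
      have := m.symm x (g ^ (s + 2) • y)
      simp only [show s + 1 + 1 = s + 2 from rfl] at *
      omega
  have di : ∀ x, d x (g⁻¹ • x) = d x (g • x) := fun x => by
    rw [← inv g, smul_inv_smul, m.symm]
  have cm : ∀ (a : G), a * g = g * a → d (a • y) (g • a • y) = d y (g • y) := fun a ha => by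
    rw [smul_smul, ← ha, mul_smul, inv]
  have s1 := step hy (hμ y) (hx _ fun x => by rw [cm g rfl]; exact hy x)
  have s2 := step (g := g⁻¹) (y := y) (fun x => by rw [di, di]; exact hy x) (by rw [di]; exact hμ y)
    (hx _ fun x => by rw [cm g⁻¹ (by group)]; exact hy x)
  refine ⟨y, hy, fun j s h1 h2 => ?_⟩
  obtain ⟨s, rfl⟩ : ∃ t, s = t + 1 := ⟨s - 1, by omega⟩
  obtain ⟨t, rfl⟩ : ∃ t, j = s + 2 + t := ⟨j - (s + 2), by omega⟩
  have B := broken_axis Γ h inv hy (by have := hμ y; omega) (s + 2)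
  have e1 := B.corner s le_rfl
  have e2 := B.long s (by omega)
  have e3 := B.long (s + 1) (by omega)
  have e4 := s1 s
  have e5 := s2 t
  rw [← inv (g ^ (s + 2 + t)), ← inv (g ^ (s + 2 + t)) x (g⁻¹ ^ (t + 1) • y), smul_smul, smul_smul,
    show g ^ (s + 2 + t) * g⁻¹ ^ t = g ^ (s + 2) by group,
    show g ^ (s + 2 + t) * g⁻¹ ^ (t + 1) = g ^ (s + 1) by group] at e5
  have e6 := h (g ^ s • y) (g ^ (s + 2) • y) x (g ^ (s + 1) • y)
  have e7 := h x (g ^ (s + 2) • y) (g ^ (s + 2 + t) • x) (g ^ (s + 1) • y)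
  have := hμ y
  have := m.symm (g ^ (s + 1) • y) (g ^ s • y)
  have := m.symm (g ^ (s + 1) • y) (g ^ (s + 2) • y)
  have := m.symm x (g ^ s • y)
  have := m.symm x (g ^ (s + 1) • y)
  have := m.symm x (g ^ (s + 2) • y)
  have := m.symm (g ^ (s + 2 + t) • x) (g ^ (s + 1) • y)
  have := m.symm (g ^ (s + 2 + t) • x) (g ^ (s + 2) • y)
  simp only [show s + 1 + 1 = s + 2 from rfl] at *
  omega

/-- Alternating products of non-trivial elements of two subgroups. -/
def IsAlt (H : Bool → Subgroup G) (n : ℕ) (w : ℕ → G) (β : ℕ → Bool) : Prop :=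
  ∀ i, i < n → (w i)⁻¹ * w (i + 1) ∈ H (β i) ∧ w (i + 1) ≠ w i ∧ β (i + 1) = !β i

theorem IsAlt.snoc {H : Bool → Subgroup G} {n : ℕ} {w : ℕ → G} {β : ℕ → Bool}
    (h : IsAlt H n w β) {a : G} (ha : a ∈ H (β n)) (h1 : a ≠ 1) :
    IsAlt H (n + 1) (Function.update w (n + 1) (w n * a)) (Function.update β (n + 1) (!β n)) := by
  intro i hi
  rw [Function.update_of_ne (by omega : i ≠ n + 1), Function.update_of_ne (by omega : i ≠ n + 1)]
  by_cases e : i = n
  · subst e
    simpa using ⟨ha, h1⟩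
  · rw [Function.update_of_ne (by omega), Function.update_of_ne (by omega)]
    exact h i (by omega)

theorem exists_alt (H : Bool → Subgroup G) {f : G} (hf : f ∈ H false ⊔ H true) :
    ∃ n w β, w 0 = 1 ∧ w n = f ∧ IsAlt H n w β := by
  rw [Subgroup.sup_eq_closure] at hf
  have key : ∀ f b a, a ∈ H b → (∃ n w β, w 0 = 1 ∧ w n = f ∧ IsAlt H n w β) →
      ∃ n w β, w 0 = 1 ∧ w n = f * a ∧ IsAlt H n w β := by
    rintro f b a ha ⟨n, w, β, h0, hn, h⟩
    by_cases h1 : a = 1
    · exact ⟨n, w, β, h0, by rw [h1, mul_one, hn], h⟩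
    rcases n with _ | n
    · exact ⟨1, _, _, by simpa using h0, by simp [hn],
        IsAlt.snoc (w := w) (β := fun _ => b) (fun i hi => by omega) ha h1⟩
    obtain ⟨a1, a2, a3⟩ := h n (by omega)
    have h' : IsAlt H n w β := fun i hi => h i (by omega)
    by_cases e : β n = b
    · by_cases h2 : (w n)⁻¹ * w (n + 1) * a = 1
      · exact ⟨n, w, β, h0, by rw [← hn, ← mul_inv_cancel_left (w n) (w (n + 1)), mul_assoc, h2,
          mul_one], h'⟩
      · exact ⟨n + 1, _, _, by simpa using h0, by simp [hn, mul_assoc],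
          h'.snoc ((H _).mul_mem a1 (e ▸ ha)) h2⟩
    · exact ⟨n + 2, _, _, by simpa using h0, by simp [hn],
        h.snoc (a := a) (by rwa [a3, show (!β n) = b by revert e; cases β n <;> cases b <;> simp])
          h1⟩
  induction hf using Subgroup.closure_induction_right with
  | one => exact ⟨0, fun _ => 1, fun _ => true, rfl, rfl, fun i hi => by omega⟩
  | mul_right x _ y hy ih => exact hy.elim (key x _ y · ih) (key x _ y · ih)
  | mul_inv_cancel x _ y hy ih =>
    exact hy.elim (fun h => key x _ _ ((H _).inv_mem h) ih) fun h => key x _ _ ((H _).inv_mem h) ih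

/-- A segment from `ξ false` to `ξ true` with centre `z` and two subgroups that turn it around
its ends. -/
structure Pong (d : X → X → ℕ) (H : Bool → Subgroup G) (ξ : Bool → X) (z : X) (J l : ℕ) :
    Prop where
  mid : d (ξ false) z + d z (ξ true) = d (ξ false) (ξ true)
  long : ∀ b, l ≤ d z (ξ b)
  turn : ∀ b, ∀ a ∈ H b, a ≠ 1 →
    2 * d (ξ false) (ξ true) + d (ξ b) (a • ξ b) ≤ d (ξ !b) (a • ξ !b) + J

namespace Pong

variable {H : Bool → Subgroup G} {ξ : Bool → X} {z : X} {J l : ℕ} (P : Pong d H ξ z J l)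
  (m : IsMet d) (inv : ∀ (g : G) x y, d (g • x) (g • y) = d x y)
include P m inv

theorem mid' (b : Bool) : d z (ξ b) + d z (ξ !b) = d (ξ false) (ξ true) := by
  have := P.mid
  have := m.symm z (ξ false)
  cases b <;> simp only [Bool.not_true, Bool.not_false] <;> omega

theorem centre {b : Bool} {a : G} (ha : a ∈ H b) (h1 : a ≠ 1) :
    2 * d z (ξ b) + d (ξ b) (a • ξ b) ≤ d z (a • z) + J := by
  have e1 := P.turn b a ha h1
  have e2 := P.mid' m inv b
  have t1 := m.tri (ξ !b) z (a • ξ !b)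
  have t2 := m.tri z (a • z) (a • ξ !b)
  have := m.symm z (ξ !b)
  rw [inv] at t2
  omega

theorem broken (h : Hyp4 d k) (hl : J + 2 * k + 1 ≤ 2 * l) {n : ℕ} {w : ℕ → G} {β : ℕ → Bool}
    (A : IsAlt H n w β) : Broken d (fun i => w i • z) n (2 * k) (2 * l - J) := by
  have e : ∀ i j, d (w i • z) (w j • z) = d z (((w i)⁻¹ * w j) • z) := fun i j => by
    rw [← inv (w i) z, smul_smul, mul_inv_cancel_left]
  have ne : ∀ i, i < n → (w i)⁻¹ * w (i + 1) ≠ 1 := fun i hi e =>
    (A i hi).2.1 (inv_mul_eq_one.1 e).symm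
  refine ⟨fun i hi => ?_, fun i hi => ?_⟩
  · have := P.centre m inv (A i hi).1 (ne i hi)
    have := P.long (β i)
    simp only [e]
    omega
  · obtain ⟨a, ha⟩ : ∃ a, a = (w (i + 1))⁻¹ * w i := ⟨_, rfl⟩
    obtain ⟨a', ha'⟩ : ∃ a, a = (w (i + 1))⁻¹ * w (i + 2) := ⟨_, rfl⟩
    have a1 : a ∈ H (β i) := by simpa [ha] using (H _).inv_mem (A i (by omega)).1
    have a2 : a' ∈ H (!β i) := by
      rw [ha', ← (A i (by omega)).2.2]
      exact (A (i + 1) (by omega)).1
    have c1 := P.centre m inv a1 (fun e => (A i (by omega)).2.1 (inv_mul_eq_one.1 (ha ▸ e)))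
    have c2 := P.centre m inv a2 (ha' ▸ ne (i + 1) (by omega))
    have e1 : d (w i • z) (w (i + 2) • z) = d (a • z) (a' • z) := by
      rw [ha, ha', mul_smul, mul_smul, inv]
    simp only [e (i + 1), e1, ← ha, ← ha']
    have t1 := m.tri (ξ (β i)) (a • ξ (β i)) (a • z)
    have t2 := m.tri (ξ !β i) (a' • ξ !β i) (a' • z)
    rw [inv] at t1 t2
    have e2 := P.mid' m inv (β i)
    have e3 : d (ξ (β i)) (ξ !β i) = d (ξ false) (ξ true) := by
      cases β i
      · rfl
      · exact m.symm _ _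
    have e4 := h (ξ (β i)) (ξ !β i) (a • z) z
    have e5 := h (a • z) (ξ !β i) (a' • z) z
    have := P.long (β i)
    have := P.long (!β i)
    have := m.symm z (ξ (β i))
    have := m.symm z (ξ !β i)
    have := m.symm z (a • z)
    have := m.symm z (a' • z)
    have := m.symm (ξ !β i) (a • z)
    omega

/-- The points of a half segment away from the end are close to the step of the chain. -/
theorem half (h : Hyp4 d k) {b : Bool} {a : G} (ha : a ∈ H b) (h1 : a ≠ 1) {q : X}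
    (hq : d z q + d q (ξ b) = d z (ξ b)) (hJ : J ≤ 2 * d q (ξ b)) :
    d q z + d q (a • z) ≤ d z (a • z) + k := by
  have c1 := P.centre m inv ha h1
  have t1 := m.tri (ξ b) (a • ξ b) (a • z)
  rw [inv] at t1
  have e1 := h q (a • z) (ξ b) z
  have := m.symm z (ξ b)
  have := m.symm z q
  have := m.symm z (a • z)
  have := m.symm (ξ b) (a • z)
  omega

end Pong

/-- Hyperbolicity passes to a Lipschitz retract. -/
theorem hyp4_retract {V W : Type} {dV : V → V → ℕ} {dW : W → W → ℕ} (ΓV : IsGr dV) (ΓW : IsGr dW)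
    {K : ℕ} (h : Hyp4 dW K) (κ : W → V) (s : V → W) (h1 : ∀ x, κ (s x) = x)
    (h2 : ∀ p q, dV (κ p) (κ q) ≤ dW p q) (h3 : ∀ x y, dV x y ≤ 1 → dW (s x) (s y) ≤ 3) :
    Hyp4 dV (200 * (K + 3) ^ 2) := by
  have m := ΓW.met
  have G : Guess dV (fun x y => {v | ∃ w, dW (s x) w + dW w (s y) = dW (s x) (s y) ∧ v = κ w}) 1 1
      (2 * K + 3) := by
    refine ⟨?_, ?_, fun x y => ?_⟩
    · rintro x y z _ ⟨w, h4, rfl⟩
      have := m.symm w (s x)
      have := m.symm w (s z)
      have := m.symm (s y) (s z)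
      have := m.symm (s y) w
      rcases h (s x) (s y) (s z) w with e | e
      · obtain ⟨v, v1, v2⟩ := near_mid m h ΓW.geo (s x) (s z) w (c := K) (by omega)
        have := h2 w v
        exact ⟨κ v, Or.inl ⟨v, v1, rfl⟩, by omega⟩
      · obtain ⟨v, v1, v2⟩ := near_mid m h ΓW.geo (s z) (s y) w (c := K) (by omega)
        have := h2 w v
        exact ⟨κ v, Or.inr ⟨v, v1, rfl⟩, by omega⟩
    · rintro x y hd _ ⟨w, h4, rfl⟩
      have := h3 x y hd
      have e := h2 w (s x)
      have := m.symm w (s x)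
      rw [h1] at e
      omega
    · obtain ⟨g, g0, g1, g2⟩ := ΓW.exists_geo (s x) (s y)
      refine ⟨fun i => κ (g i), dW (s x) (s y), by simp only [g0, h1], by simp only [g1, h1],
        fun i hi => ⟨g i, ?_, rfl⟩, fun i hi => ?_⟩
      · have e1 := g2 0 i le_rfl (Nat.zero_le _) hi
        have e2 := g2 i _ (Nat.zero_le _) hi le_rfl
        rw [g0] at e1
        rw [g1] at e2
        omega
      · have := g2 i (i + 1) (Nat.zero_le _) (by omega) hi
        have := h2 (g i) (g (i + 1))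
        simp only
        omega
  refine (G.hyp4 (p := 2 * (K + 2) + 8) ΓV.met ΓV.sep ΓV.geo ?_).mono (by nlinarith)
  have e1 : K + 2 + 1 ≤ 2 ^ (K + 2) := Nat.lt_two_pow_self
  have e2 := Nat.mul_le_mul e1 e1
  rw [← pow_add, ← two_mul] at e2
  rw [pow_add]
  nlinarith

end Pool.Agent.Lib.MP_429c3d_al.Hyp
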