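import Pool.Agent.Lib.MP_429c3d_al.HypGraph

set_option autoImplicit false
set_option linter.unusedSectionVars false

/-! Rescaling a hyperbolic space and coning off quasi-convex sets. -/

namespace Pool.Agent.Lib.MP_429c3d_al.Hyp

/-- `B` is obtained from `X` by rescaling and adding vertices with quasi-convex shadows. -/
structure Cone {X B : Type} (d : X → X → ℕ) (dB : B → B → ℕ) (ι : X → B) (Sh : B → X → Prop)
    (k u c : ℕ) : Prop where
  gr : IsGr d
  hyp : Hyp4 d k
  grB : IsGr dB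
  sh_ι : ∀ x, Sh (ι x) x
  ne : ∀ b, ∃ x, Sh b x
  lip : ∀ x y, d x y ≤ u → dB (ι x) (ι y) ≤ 1
  big : 4 * k + 4 ≤ u
  small : ∀ b b' p p' q, dB b b' ≤ 1 → Sh b p → Sh b' p' → d p q + d q p' = d p p' →
    dB (ι q) b ≤ c

/-- The guessed geodesics of the coned space. -/
def CSet {X B : Type} (d : X → X → ℕ) (ι : X → B) (Sh : B → X → Prop) (b b' : B) : Set B :=
  {w | w = b ∨ w = b' ∨ ∃ p p' q, Sh b p ∧ Sh b' p' ∧ d p q + d q p' = d p p' ∧ w = ι q}

/-- Images of geodesics are `coneN c` close to geodesics. -/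
def coneN (c : ℕ) : ℕ := (2 * c + 13) * (c + 1)

/-- The hyperbolicity constant of the coned space. -/
def coneK (c : ℕ) : ℕ := 24 * coneN c + 12 * c + 14

/-- A group that preserves a cone system. -/
structure CAct (G : Type) {X B : Type} [Group G] [MulAction G X] [MulAction G B] (d : X → X → ℕ)
    (dB : B → B → ℕ) (ι : X → B) (Sh : B → X → Prop) : Prop where
  inv : ∀ (g : G) x y, d (g • x) (g • y) = d x y
  invB : ∀ (g : G) x y, dB (g • x) (g • y) = dB x y
  ι_smul : ∀ (g : G) x, ι (g • x) = g • ι x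
  sh_smul : ∀ (g : G) b x, Sh b x → Sh (g • b) (g • x)

theorem guess_num (h : ℕ) : 2 * ((2 * h + 8 + 4) * h) + 4 * h + 2 ≤ 2 ^ (2 * h + 8) * 1 := by
  have e1 : h + 1 ≤ 2 ^ h := Nat.lt_two_pow_self
  have e2 := Nat.mul_le_mul e1 e1
  rw [← pow_add, ← two_mul] at e2
  rw [pow_add]
  nlinarith

/-- A chain of points: some step has a small product when the ends have a small product. -/
theorem chain_prod {X : Type} {d : X → X → ℕ} {k : ℕ} (m : IsMet d) (h : Hyp4 d k) (p : ℕ → X)
    (q : X) (n : ℕ) : ∀ c, d q (p 0) + d q (p (n + 1)) ≤ d (p 0) (p (n + 1)) + c →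
      ∃ e, e ≤ n ∧ d q (p e) + d q (p (e + 1)) ≤ d (p e) (p (e + 1)) + (c + n * k) := by
  induction n with
  | zero => exact fun c hc => ⟨0, le_rfl, by simpa using hc⟩
  | succ n ih =>
    intro c hc
    have e1 := h (p 0) (p (n + 1 + 1)) (p (n + 1)) q
    have s1 := m.symm q (p 0)
    have s2 := m.symm q (p (n + 1))
    have s3 := m.symm q (p (n + 1 + 1))
    have s4 := m.symm (p (n + 1)) (p (n + 1 + 1))
    rw [Nat.add_mul]
    rcases e1 with e | e
    · obtain ⟨i, i1, i2⟩ := ih (c + k) (by omega)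
      exact ⟨i, by omega, by omega⟩
    · exact ⟨n + 1, le_rfl, by omega⟩

variable {X B : Type} {d : X → X → ℕ} {dB : B → B → ℕ} {ι : X → B} {Sh : B → X → Prop}
  {k u c : ℕ}

namespace Cone

variable (C : Cone d dB ι Sh k u c)
include C

theorem sh_le {b : B} {p : X} (h : Sh b p) : dB (ι p) b ≤ c :=
  C.small b b p p p (by rw [C.grB.met.self]; omega) h h (by rw [C.gr.met.self])

theorem ι_le (x y : X) : dB (ι x) (ι y) ≤ d x y := by
  refine C.gr.induct x (P := fun n y => dB (ι x) (ι y) ≤ n) (C.grB.met.self _).le ?_ y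
  intro n v w _ _ h ih
  have := C.big
  have := C.lip v w (by omega)
  have := C.grB.met.tri (ι x) (ι v) (ι w)
  omega

theorem ι_le_mul (n : ℕ) (x y : X) (h : d x y ≤ n * u) : dB (ι x) (ι y) ≤ n := by
  induction n generalizing x with
  | zero => rw [C.gr.sep x y (by omega), C.grB.met.self]
  | succ n ih =>
    obtain ⟨w, w1, w2⟩ := C.gr.geo.mid C.gr.met x y (s := min u (d x y)) (min_le_right _ _)
    rw [Nat.add_mul] at h
    have := ih w (by omega)
    have := C.lip x w (by omega)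
    have := C.grB.met.tri (ι x) (ι w) (ι y)
    omega

theorem guess : Guess dB (CSet d ι Sh) 1 (c + 1) (c + 1) := by
  have m := C.gr.met
  have mB := C.grB.met
  have hu := C.big
  refine ⟨fun b b' z w hw => ?_, fun b b' hd w hw => ?_, fun b b' => ?_⟩
  · rcases hw with rfl | rfl | ⟨p, p', q, h1, h2, h3, rfl⟩
    · exact ⟨w, Or.inl (Or.inl rfl), by rw [mB.self]; omega⟩
    · exact ⟨w, Or.inr (Or.inr (Or.inl rfl)), by rw [mB.self]; omega⟩
    · obtain ⟨r, hr⟩ := C.ne z
      have s1 := m.symm q p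
      have s2 := m.symm q r
      have s3 := m.symm p' r
      have s4 := m.symm p' q
      rcases C.hyp p p' r q with e | e
      · obtain ⟨v, v1, v2⟩ := near_mid m C.hyp C.gr.geo p r q (c := k) (by omega)
        have := C.lip q v (by omega)
        exact ⟨ι v, Or.inl (Or.inr (Or.inr ⟨p, r, v, h1, hr, v1, rfl⟩)), by omega⟩
      · obtain ⟨v, v1, v2⟩ := near_mid m C.hyp C.gr.geo r p' q (c := k) (by omega)
        have := C.lip q v (by omega)
        exact ⟨ι v, Or.inr (Or.inr (Or.inr ⟨r, p', v, hr, h2, v1, rfl⟩)), by omega⟩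
  · rcases hw with rfl | rfl | ⟨p, p', q, h1, h2, h3, rfl⟩
    · rw [mB.self]
      omega
    · rw [mB.symm]
      omega
    · have := C.small b b' p p' q hd h1 h2 h3
      omega
  · obtain ⟨p, hp⟩ := C.ne b
    obtain ⟨p', hp'⟩ := C.ne b'
    obtain ⟨g, g0, g1, g2⟩ := C.gr.exists_geo p p'
    have mem : ∀ i, i ≤ d p p' → ι (g i) ∈ CSet d ι Sh b b' := fun i hi => by
      have e1 := g2 0 i le_rfl (Nat.zero_le _) hi
      have e2 := g2 i _ (Nat.zero_le _) hi le_rfl
      rw [g0] at e1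
      rw [g1] at e2
      exact Or.inr (Or.inr ⟨p, p', g i, hp, hp', by omega, rfl⟩)
    have r1 := rtg_of_chain (d := dB) (S := CSet d ι Sh b b') (r := c + 1) (c := fun i => ι (g i))
      (n := d p p') mem fun i hi => by
        have := g2 i (i + 1) (Nat.zero_le _) (by omega) hi
        have := C.lip (g i) (g (i + 1)) (by omega)
        omega
    simp only [g0, g1] at r1
    have e1 := C.sh_le hp
    have e2 := C.sh_le hp'
    rw [mB.symm] at e1
    have m0 := mem 0 (Nat.zero_le _)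
    rw [g0] at m0
    exact chain_of_rtg (Or.inl rfl) ((Relation.ReflTransGen.head ⟨m0, by omega⟩ r1).tail
      ⟨Or.inr (Or.inl rfl), by omega⟩)

theorem hypB : Hyp4 dB (coneK c) := by
  refine (C.guess.hyp4 C.grB.met C.grB.sep C.grB.geo (guess_num (c + 1))).mono (le_of_eq ?_)
  simp only [coneK, coneN]
  ring

/-- Images of geodesics between shadows are close to geodesics. -/
theorem near {b b' : B} {p p' q : X} (h1 : Sh b p) (h2 : Sh b' p')
    (h3 : d p q + d q p' = d p p') :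
    ∃ w, dB b w + dB w b' = dB b b' ∧ dB (ι q) w ≤ coneN c := by
  obtain ⟨g, g0, g1, g2⟩ := C.grB.exists_geo b b'
  obtain ⟨i, i1, i2⟩ := C.guess.near C.grB.met (guess_num (c + 1)) g2 (ι q)
    (by rw [g0, g1]; exact Or.inr (Or.inr ⟨p, p', q, h1, h2, h3, rfl⟩))
  have e1 := g2 0 i le_rfl (Nat.zero_le _) i1
  have e2 := g2 i _ (Nat.zero_le _) i1 le_rfl
  rw [g0] at e1
  rw [g1] at e2
  exact ⟨g i, by omega, i2.trans (le_of_eq (by simp only [coneN]; ring))⟩

theorem near_le {b b' : B} {p p' q : X} (h1 : Sh b p) (h2 : Sh b' p')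
    (h3 : d q p + d q p' ≤ d p p' + 3 * k) : dB (ι q) b ≤ dB b b' + coneN c + 1 := by
  have hu := C.big
  obtain ⟨v, v1, v2⟩ := near_mid C.gr.met C.hyp C.gr.geo p p' q h3
  obtain ⟨w, w1, w2⟩ := C.near h1 h2 v1
  have := C.lip q v (by omega)
  have := C.grB.met.tri (ι q) (ι v) b
  have := C.grB.met.tri (ι v) w b
  have := C.grB.met.symm w b
  omega

/-- A point in the middle of a geodesic is close to the geodesics with nearby ends. -/
theorem mid {b b' e e' : B} {p p' r r' q : X} (h1 : Sh b p) (h2 : Sh b' p') (h3 : Sh e r)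
    (h4 : Sh e' r') {t : ℕ} (ht : t ≤ k) (hq : d p q + d q p' ≤ d p p' + t)
    (hb : dB b e + coneN c + 1 < dB (ι q) b) (hb' : dB b' e' + coneN c + 1 < dB (ι q) b') :
    d r q + d q r' ≤ d r r' + (2 * k + t) := by
  have m := C.gr.met
  have s1 := m.symm q p
  have s2 := m.symm q r
  have s3 := m.symm q p'
  have s4 := m.symm q r'
  have s5 := m.symm p' r
  rcases C.hyp p p' r q with e1 | e1
  · have := C.near_le h1 h3 (q := q) (by omega)
    omega
  rcases C.hyp r p' r' q with e2 | e2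
  · omega
  · have := C.near_le h2 h4 (q := q) (by omega)
    omega

/-- Among more marked points than edges, two are seen by one edge. -/
theorem cover {b b' : B} {p p' : X} (h1 : Sh b p) (h2 : Sh b' p') {n t : ℕ} (hn : dB b b' ≤ n)
    (z : ℕ → X) (hz : ∀ i, i ≤ n + 1 → d (z i) p + d (z i) p' ≤ d p p' + t) :
    ∃ e e' r r' i j, dB e e' ≤ 1 ∧ Sh e r ∧ Sh e' r' ∧ i < j ∧ j ≤ n + 1 ∧
      d (z i) r + d (z i) r' ≤ d r r' + (t + n * k) ∧
      d (z j) r + d (z j) r' ≤ d r r' + (t + n * k) := by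
  obtain ⟨g, g0, g1, g2⟩ := C.grB.exists_geo b b'
  choose s hs using C.ne
  obtain ⟨l, hl⟩ : ∃ l, l = dB b b' := ⟨_, rfl⟩
  rw [← hl] at g1 g2 hn
  let P : ℕ → X := fun i => if i = 0 then p else if i ≤ l then s (g i) else p'
  have hP : ∀ i, Sh (g (min i l)) (P i) := by
    intro i
    simp only [P]
    split_ifs with e1 e2
    · rwa [e1, Nat.zero_min, g0]
    · rw [min_eq_left e2]
      exact hs _
    · rwa [min_eq_right (by omega), g1]
  have key : ∀ i, ∃ e, i ≤ n + 1 → e ≤ n ∧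
      d (z i) (P e) + d (z i) (P (e + 1)) ≤ d (P e) (P (e + 1)) + (t + n * k) := by
    intro i
    by_cases hi : i ≤ n + 1
    · obtain ⟨e, e1, e2⟩ := chain_prod C.gr.met C.hyp P (z i) n t (by
        simp only [P, if_pos, if_neg (show ¬ n + 1 = 0 by omega), if_neg (show ¬ n + 1 ≤ l by omega)]
        exact hz i hi)
      exact ⟨e, fun _ => ⟨e1, e2⟩⟩
    · exact ⟨0, fun h => absurd h hi⟩
  choose f hf using key
  obtain ⟨i, hi, j, hj, hij, e⟩ := Finset.exists_ne_map_eq_of_card_lt_of_maps_to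
    (s := Finset.range (n + 2)) (t := Finset.range (n + 1)) (f := f) (by simp) fun i hi => by
      have := (hf i (by simpa [Nat.lt_succ_iff] using hi)).1
      simpa [Nat.lt_succ_iff] using this
  rw [Finset.mem_range] at hi hj
  have adj : dB (g (min (f i) l)) (g (min (f i + 1) l)) ≤ 1 := by
    have := g2 (min (f i) l) (min (f i + 1) l) (Nat.zero_le _) (by omega) (by omega)
    omega
  have a1 := (hf i (by omega)).2
  have a2 := (hf j (by omega)).2
  rw [← e] at a2
  rcases Nat.lt_or_gt_of_ne hij with c | c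
  · exact ⟨_, _, _, _, i, j, adj, hP _, hP _, c, by omega, a1, a2⟩
  · exact ⟨_, _, _, _, j, i, adj, hP _, hP _, c, by omega, a2, a1⟩

/-- A point of a geodesic at a prescribed distance from the first vertex. -/
theorem exists_at {b b' : B} {p p' : X} (h1 : Sh b p) (h2 : Sh b' p') {s : ℕ} (hs : c ≤ s)
    (hs' : s + c ≤ dB b b') : ∃ q, d p q + d q p' = d p p' ∧ dB (ι q) b = s := by
  obtain ⟨g, g0, g1, g2⟩ := C.gr.exists_geo p p'
  have mB := C.grB.met
  have e1 := C.sh_le h1
  have e2 := C.sh_le h2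
  have key : ∀ i, i ≤ d p p' → s ≤ dB (ι (g i)) b → ∃ j, j ≤ i ∧ dB (ι (g j)) b = s := by
    intro i
    induction i with
    | zero => exact fun _ h => ⟨0, le_rfl, by rw [g0] at h ⊢; omega⟩
    | succ i ih =>
      intro hi h
      by_cases hc : s ≤ dB (ι (g i)) b
      · obtain ⟨j, j1, j2⟩ := ih (by omega) hc
        exact ⟨j, by omega, j2⟩
      · have := g2 i (i + 1) (Nat.zero_le _) (by omega) hi
        have := C.ι_le (g i) (g (i + 1))
        have := mB.tri (ι (g (i + 1))) (ι (g i)) b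
        have := mB.symm (ι (g (i + 1))) (ι (g i))
        exact ⟨i + 1, le_rfl, by omega⟩
  obtain ⟨j, j1, j2⟩ := key _ le_rfl (by
    have := mB.tri b (ι p') b'
    have := mB.symm b (ι p')
    rw [g1]
    omega)
  have a1 := g2 0 j le_rfl (Nat.zero_le _) j1
  have a2 := g2 j _ (Nat.zero_le _) j1 le_rfl
  rw [g0] at a1
  rw [g1] at a2
  exact ⟨g j, by omega, j2⟩

variable {G : Type} [Group G] [MulAction G X] [MulAction G B] (A : CAct G d dB ι Sh)
include A

omit C in
theorem _root_.Pool.Agent.Lib.MP_429c3d_al.Hyp.CAct.dis_inv (m : IsMet dB) (g : G) (x : B) :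
    dB x (g⁻¹ • x) = dB x (g • x) := by
  rw [← A.invB g, smul_inv_smul, m.symm]

omit C in
theorem _root_.Pool.Agent.Lib.MP_429c3d_al.Hyp.CAct.dis_mul (m : IsMet dB) (g h : G) (x : B) :
    dB x ((g * h) • x) ≤ dB x (g • x) + dB x (h • x) := by
  have := m.tri x (g • x) ((g * h) • x)
  rwa [mul_smul, A.invB, ← mul_smul] at this

/-- Two elements that are short at two far points almost commute in the middle. -/
theorem comm_short {x x' : B} {p p' q : X} (h1 : Sh x p) (h2 : Sh x' p')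
    (hq : d p q + d q p' = d p p') {L : ℕ} {a b : G} (ha : dB x (a • x) ≤ L)
    (ha' : dB x' (a • x') ≤ L) (hb : dB x (b • x) ≤ L) (hb' : dB x' (b • x') ≤ L)
    (hx : 2 * L + coneN c + 1 < dB (ι q) x) (hx' : 2 * L + coneN c + 1 < dB (ι q) x') :
    d q ((a⁻¹ * b⁻¹ * a * b) • q) ≤ 11 * k := by
  have m := C.gr.met
  have mB := C.grB.met
  have Q : ∀ g h : G, dB x (g • x) ≤ 2 * L → dB x' (h • x') ≤ 2 * L →
      d (g • p) q + d q (h • p') ≤ d (g • p) (h • p') + 2 * k ∧
      d (g • p) (h • p') ≤ d (g • p) q + d q (h • p') := fun g h hg hh =>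
    ⟨C.mid h1 h2 (A.sh_smul g _ _ h1) (A.sh_smul h _ _ h2) (t := 0) (Nat.zero_le _) hq.le
      (by omega) (by omega), m.tri _ _ _⟩
  have z : dB x ((1 : G) • x) ≤ 2 * L := by rw [one_smul, mB.self]; omega
  have z' : dB x' ((1 : G) • x') ≤ 2 * L := by rw [one_smul, mB.self]; omega
  have i1 := A.dis_inv mB a x
  have i2 := A.dis_inv mB b x
  have i3 := A.dis_inv mB (a * b) x
  have i4 := A.dis_inv mB (b * a) x
  have i5 := A.dis_inv mB (a * b) x'
  have i6 := A.dis_inv mB (b * a) x'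
  have j1 := A.dis_mul mB a b x
  have j2 := A.dis_mul mB b a x
  have j3 := A.dis_mul mB a b x'
  have j4 := A.dis_mul mB b a x'
  have q1 := Q (a * b)⁻¹ (a * b)⁻¹ (by omega) (by omega)
  have q2 := Q (b * a)⁻¹ (b * a)⁻¹ (by omega) (by omega)
  have q3 := Q (a * b)⁻¹ 1 (by omega) z'
  have q4 := Q (b * a)⁻¹ 1 (by omega) z'
  have q5 := Q a⁻¹ b (by omega) (by omega)
  have q6 := Q b⁻¹ a (by omega) (by omega)
  have q7 := Q a⁻¹ 1 (by omega) z'
  have q8 := Q 1 a z (by omega)
  have q9 := Q b⁻¹ 1 (by omega) z'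
  have q10 := Q 1 b z (by omega)
  have f : ∀ (g : G) y y', d (g⁻¹ • y) y' = d y (g • y') := fun g y y' => by
    rw [← A.inv g, smul_inv_smul]
  have f' : ∀ (g : G) y y', d y (g⁻¹ • y') = d (g • y) y' := fun g y y' => by
    rw [← A.inv g, smul_inv_smul]
  rw [A.inv, f, f'] at q1 q2
  rw [one_smul, f, f] at q3 q4
  rw [f a p (b • p'), ← mul_smul] at q5
  rw [f b p (a • p'), ← mul_smul] at q6
  rw [one_smul, f a p p'] at q7
  rw [one_smul, f b p p'] at q9
  rw [one_smul] at q8 q10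
  have e : d q ((a⁻¹ * b⁻¹ * a * b) • q) = d ((b * a) • q) ((a * b) • q) := by
    rw [← A.inv (b * a), smul_smul (b * a)]
    congr 2
    group
  have := C.hyp ((b * a) • q) ((a * b) • q) p p'
  have := m.symm ((b * a) • q) p
  have := m.symm ((a * b) • q) p
  omega

/-- An element that fixes a vertex and is short at another vertex is short in the middle. -/
theorem fix_short {x α : B} {p y q : X} (h1 : Sh x p) (h2 : Sh α y)
    (hy : ∀ y', Sh α y' → d p y ≤ d p y') (hq : d p q + d q y = d p y) {L : ℕ} {a : G}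
    (ha : dB x (a • x) ≤ L) (hα : a • α = α) (hx : L + coneN c + 1 < dB (ι q) x)
    (hx' : coneN c + 1 < dB (ι q) α) : d q (a • q) ≤ 5 * k := by
  have m := C.gr.met
  have mB := C.grB.met
  have hα' : a⁻¹ • α = α := by rw [inv_smul_eq_iff, hα]
  have s1 : Sh α (a⁻¹ • y) := hα' ▸ A.sh_smul a⁻¹ _ _ h2
  have s2 : Sh α (a • y) := hα ▸ A.sh_smul a _ _ h2
  have q1 := C.mid h1 h2 (A.sh_smul a⁻¹ _ _ h1) s1 (t := 0) (Nat.zero_le _) hq.le
    (by rw [A.dis_inv mB]; omega) (by rw [mB.self]; omega)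
  have e1 := hy _ s1
  have e2 := hy _ s2
  have t1 := m.tri p q (a⁻¹ • y)
  have t2 := m.tri p (a • q) (a • y)
  have f1 : d (a⁻¹ • p) q = d p (a • q) := by rw [← A.inv a, smul_inv_smul]
  have f2 : d q (a⁻¹ • y) = d (a • q) y := by rw [← A.inv a, smul_inv_smul]
  rw [A.inv] at q1 t2
  have := C.hyp q (a • q) p y
  have := m.symm q p
  have := m.symm (a • q) p
  omega

end Cone

end Pool.Agent.Lib.MP_429c3d_al.Hyp
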