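import Pool.Agent.Lib.MP_429c3d_al.HypExt

set_option autoImplicit false
set_option linter.unusedSectionVars false

/-! Developing local geodesics from a base point. -/

namespace Pool.Agent.Lib.MP_429c3d_al.Hyp

variable {V F I : Type} [Group F] [MulAction F V]

/-- Local geodesics obtained by extension along a geodesic from the base point. -/
inductive Dev (d : V → V → ℕ) (N : I → Subgroup F) (good : V → I → Prop) (U k : ℕ) (x : V) :
    V → (ℕ → V) → ℕ → F → Prop
  | base : Dev d N good U k x x (fun _ => x) 0 1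
  | step {u z : V} {γ β : ℕ → V} {n n' : ℕ} {h h' : F} : Dev d N good U k x u γ n h →
      d u z ≤ 1 → d x z = d x u + 1 → LG d N good U β n' → β 0 = x → β n' = h' • z →
      LadE d N good U k γ n β n' (h * h'⁻¹) → Dev d N good U k x z β n' h'

/-- All developments of `z` and `z'` are related by a ladder. -/
def RelF (d : V → V → ℕ) (N : I → Subgroup F) (good : V → I → Prop) (U k : ℕ) (x : V) (f : F)
    (z z' : V) : Prop :=
  ∀ γ n h γ' n' h', Dev d N good U k x z γ n h → Dev d N good U k x z' γ' n' h' →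
    LadE d N good U k γ n γ' n' (h * f * h'⁻¹)

variable {d : V → V → ℕ} {N : I → Subgroup F} {good : V → I → Prop} {k σ U ρ : ℕ}

namespace Atlas

variable (A : Atlas d N good k σ)
include A

theorem dev_spec {x z : V} {γ : ℕ → V} {n : ℕ} {h : F} (D : Dev d N good U k x z γ n h) :
    LG d N good U γ n ∧ γ 0 = x ∧ γ n = h • z := by
  cases D with
  | base => exact ⟨A.lg_const x, rfl, (one_smul _ _).symm⟩
  | step _ _ _ h1 h2 h3 _ => exact ⟨h1, h2, h3⟩

theorem dev_zero {x z : V} {γ : ℕ → V} {n : ℕ} {h : F} (D : Dev d N good U k x z γ n h)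
    (hz : d x z = 0) : γ = (fun _ => x) ∧ n = 0 ∧ h = 1 := by
  cases D with
  | base => exact ⟨rfl, rfl, rfl⟩
  | step _ _ h1 _ _ _ _ => omega

theorem dev_exists (hk : 20 * k + 20 ≤ U) (hσ : 3000 * U ≤ σ) (x z : V) :
    ∃ (γ : ℕ → V) (n : ℕ) (h : F), Dev d N good U k x z γ n h := by
  obtain ⟨g, g0, g1, g2⟩ := A.geo x z
  have key : ∀ s, s ≤ d x z → ∃ (γ : ℕ → V) (n : ℕ) (h : F), Dev d N good U k x (g s) γ n h := by
    intro s
    induction s with
    | zero =>
      intro _
      rw [g0]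
      exact ⟨_, _, _, Dev.base⟩
    | succ s ih =>
      intro hs
      obtain ⟨γ, n, h, D⟩ := ih (by omega)
      obtain ⟨s1, s2, s3⟩ := A.dev_spec D
      have a1 := g2 s (s + 1) (Nat.zero_le _) (by omega) hs
      have a2 := g2 0 s le_rfl (Nat.zero_le _) (by omega)
      have a3 := g2 0 (s + 1) le_rfl (Nat.zero_le _) hs
      rw [g0] at a2 a3
      obtain ⟨β, n', f, b1, b2, b3, b4⟩ := A.extend hk hσ s1 (z := h • g (s + 1))
        (by rw [s3, A.inv]; omega)
      refine ⟨β, n', f⁻¹ * h, Dev.step D (by omega) (by omega) b1 (b2.trans s2) ?_ ?_⟩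
      · rw [mul_smul, ← b3, inv_smul_smul]
      · simpa using b4
  have := key _ le_rfl
  rwa [A.sep _ _ g1] at this

theorem last_eq {x z z' : V} {γ γ' : ℕ → V} {n n' : ℕ} {h h' : F}
    (D : Dev d N good U k x z γ n h) (D' : Dev d N good U k x z' γ' n' h') (f : F) :
    d (γ n) ((h * f * h'⁻¹) • γ' n') = d z (f • z') := by
  rw [(A.dev_spec D).2.2, (A.dev_spec D').2.2, mul_smul, inv_smul_smul, mul_smul, A.inv]

theorem relF_comp (hk : 20 * k + 20 ≤ U) (hσ : 3000 * U ≤ σ) {x z z' z'' : V} {f g : F}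
    (r1 : RelF d N good U k x f z z') (r2 : RelF d N good U k x g z' z'')
    (h1 : d z (f • z') ≤ 3 * U) (h2 : d z' (g • z'') ≤ 3 * U) :
    RelF d N good U k x (f * g) z z'' := by
  intro γ n h γ'' n'' h'' D D''
  obtain ⟨γ', n', h', D'⟩ := A.dev_exists hk hσ x z'
  have s := A.dev_spec D
  have s' := A.dev_spec D'
  have s'' := A.dev_spec D''
  have := A.compE hk hσ s.1 s'.1 s''.1 (s.2.1.trans s'.2.1.symm) (s'.2.1.trans s''.2.1.symm)
    (by rw [A.last_eq D D']; exact h1) (by rw [A.last_eq D' D'']; exact h2)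
    (r1 _ _ _ _ _ _ D D') (r2 _ _ _ _ _ _ D' D'')
  simpa [mul_assoc] using this

theorem relF_symm (hk : 20 * k + 20 ≤ U) (hσ : 3000 * U ≤ σ) {x z z' : V} {f : F}
    (r1 : RelF d N good U k x f z z') (h1 : d z (f • z') ≤ U) : RelF d N good U k x f⁻¹ z' z := by
  intro γ' n' h' γ n h D' D
  have s := A.dev_spec D
  have s' := A.dev_spec D'
  have := A.symmE hk hσ s.1 s'.1 (s.2.1.trans s'.2.1.symm) (by rw [A.last_eq D D']; exact h1)
    (r1 _ _ _ _ _ _ D D')
  simpa [mul_assoc] using this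

theorem dev_back (hk : 20 * k + 20 ≤ U) (hσ : 3000 * U ≤ σ) {x z : V} {γ : ℕ → V} {n : ℕ} {h : F}
    (D : Dev d N good U k x z γ n h) : ∀ s, s ≤ d x z → s ≤ U →
      ∃ (u : V) (γ' : ℕ → V) (n' : ℕ) (h' : F), Dev d N good U k x u γ' n' h' ∧
        d x u + s = d x z ∧ d u z ≤ s ∧ LadE d N good U k γ' n' γ n (h' * 1 * h⁻¹) := by
  have zero : ∀ {z : V} {γ : ℕ → V} {n : ℕ} {h : F}, Dev d N good U k x z γ n h →
      ∃ (u : V) (γ' : ℕ → V) (n' : ℕ) (h' : F), Dev d N good U k x u γ' n' h' ∧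
        d x u + 0 = d x z ∧ d u z ≤ 0 ∧ LadE d N good U k γ' n' γ n (h' * 1 * h⁻¹) := by
    intro z γ n h D
    refine ⟨z, γ, n, h, D, rfl, (A.met.self z).le, ?_⟩
    rw [mul_one, mul_inv_cancel]
    exact A.lad_self hk hσ (A.dev_spec D).1 le_rfl (by omega) (fun a _ => (N a).one_mem)
      (by rw [one_smul, A.met.self]; omega)
  induction D with
  | base =>
    intro s hs _
    rw [A.met.self] at hs
    obtain rfl : s = 0 := by omega
    exact zero Dev.base
  | @step u z γ β n n' h h' D h1 h2 h3 h4 h5 h6 ih =>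
    intro s hs hU
    have D' := Dev.step D h1 h2 h3 h4 h5 h6
    rcases s with _ | s
    · exact zero D'
    · obtain ⟨w, γ', m, g, E, e1, e2, e3⟩ := ih s (by omega) (by omega)
      have t1 := A.met.tri w u z
      refine ⟨w, γ', m, g, E, by omega, by omega, ?_⟩
      have s1 := A.dev_spec E
      have s2 := A.dev_spec D
      have a1 := A.last_eq E D 1
      have a2 := A.last_eq D D' 1
      rw [one_smul] at a1 a2
      have := A.compE hk hσ s1.1 s2.1 h3 (s1.2.1.trans s2.2.1.symm) (s2.2.1.trans h4.symm)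
        (by rw [a1]; omega) (g := h * 1 * h'⁻¹) (by rw [a2]; omega) e3 (by rwa [mul_one])
      simpa [mul_assoc] using this

theorem relF_close (hk : 20 * k + 20 ≤ U) (hσ : 3000 * U ≤ σ) (x : V) : ∀ (b : ℕ) (z z' : V),
    d x z ≤ b → d z z' ≤ 2 * k + 1 → RelF d N good U k x 1 z z' := by
  intro b
  induction b using Nat.strong_induction_on with
  | _ b ih =>
  intro z z' hb hzz γ n h γ' n' h' D D'
  have t1 := A.met.tri x z z'
  have t2 := A.met.tri x z' z
  have t3 := A.met.symm z z'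
  obtain ⟨lv, hlv⟩ : ∃ lv, lv = min (d x z) (d x z') - (k + 1) := ⟨_, rfl⟩
  obtain ⟨u, g, m, f, E, e1, e2, e3⟩ := A.dev_back hk hσ D (d x z - lv) (by omega) (by omega)
  obtain ⟨u', g', m', f', E', e1', e2', e3'⟩ :=
    A.dev_back hk hσ D' (d x z' - lv) (by omega) (by omega)
  have s := A.dev_spec D
  have s' := A.dev_spec D'
  have r := A.dev_spec E
  have r' := A.dev_spec E'
  have mid : d u u' ≤ 2 * k + 1 ∧ LadE d N good U k g m g' m' (f * 1 * f'⁻¹) := by
    by_cases hc : lv = 0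
    · obtain ⟨rfl, rfl, rfl⟩ := A.dev_zero E (by omega)
      obtain ⟨rfl, rfl, rfl⟩ := A.dev_zero E' (by omega)
      have a1 := A.met.tri u x u'
      have a2 := A.met.symm u x
      refine ⟨by omega, ?_⟩
      simp only [mul_one, inv_one]
      exact A.lad_self hk hσ r.1 le_rfl (by omega) (fun a _ => (N a).one_mem)
        (by rw [one_smul, A.met.self]; omega)
    · have a1 := A.met.tri x u z
      have a2 := A.met.tri x u' z'
      have := sync_le A.met A.hyp (o := x) (u := u) (u' := u') (z := z) (z' := z') (b := lv)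
        (by omega) (by omega) (by omega) (by omega) (by omega)
      exact ⟨by omega, ih lv (by omega) u u' (by omega) (by omega) _ _ _ _ _ _ E E'⟩
  have a1 := A.last_eq E D 1
  have a2 := A.last_eq D E 1
  have a3 := A.last_eq E E' 1
  have a4 := A.last_eq D E' 1
  have a5 := A.last_eq E' D' 1
  rw [one_smul] at a1 a2 a3 a4 a5
  have a6 := A.met.symm z u
  have a7 := A.met.tri z u u'
  have l1 := A.symmE hk hσ r.1 s.1 (r.2.1.trans s.2.1.symm) (by rw [a1]; omega) e3
  have e : (f * 1 * h⁻¹)⁻¹ = h * 1 * f⁻¹ := by group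
  rw [e] at l1
  have l2 := A.compE hk hσ s.1 r.1 r'.1 (s.2.1.trans r.2.1.symm) (r.2.1.trans r'.2.1.symm)
    (by rw [a2]; omega) (by rw [a3]; omega) l1 mid.2
  have e' : h * 1 * f⁻¹ * (f * 1 * f'⁻¹) = h * 1 * f'⁻¹ := by group
  rw [e'] at l2
  have l3 := A.compE hk hσ s.1 r'.1 s'.1 (s.2.1.trans r'.2.1.symm) (r'.2.1.trans s'.2.1.symm)
    (by rw [a4]; omega) (by rw [a5]; omega) l2 e3'
  simpa [mul_assoc] using l3

theorem relF_near (hk : 20 * k + 20 ≤ U) (hσ : 3000 * U ≤ σ) (x : V) {z z' : V}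
    (hzz : d z z' ≤ U) : RelF d N good U k x 1 z z' := by
  obtain ⟨g, g0, g1, g2⟩ := A.geo z z'
  have key : ∀ s, s ≤ d z z' → RelF d N good U k x 1 z (g s) := by
    intro s
    induction s with
    | zero =>
      intro _
      exact A.relF_close hk hσ x _ _ _ le_rfl (by rw [g0, A.met.self]; omega)
    | succ s ih =>
      intro hs
      have a1 := g2 s (s + 1) (Nat.zero_le _) (by omega) hs
      have a2 := g2 0 s le_rfl (Nat.zero_le _) (by omega)
      rw [g0] at a2
      have := A.relF_comp hk hσ (ih (by omega))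
        (A.relF_close hk hσ x _ (g s) (g (s + 1)) le_rfl (by omega))
        (by rw [one_smul]; omega) (by rw [one_smul]; omega)
      rwa [mul_one] at this
  have := key _ le_rfl
  rwa [A.sep _ _ g1] at this

theorem relF_gen (hk : 20 * k + 20 ≤ U) (hσ : 3000 * U ≤ σ) (x : V) {y : V} {f : F}
    (hd : d y (f • y) ≤ U) (hf : Nul N good y f) (z : V) : RelF d N good U k x f (f • z) z := by
  have r0 : RelF d N good U k x f y y := by
    intro γ n h γ' n' h' D D'
    have s := A.dev_spec D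
    have s' := A.dev_spec D'
    have a1 := A.last_eq D D f
    have a2 := A.last_eq D D' 1
    rw [one_smul, A.met.self] at a2
    have l1 := A.lad_self hk hσ s.1 le_rfl (by omega) (f := h * f * h⁻¹)
      (by rw [s.2.2]; exact A.nul_conj hf h) (by rw [a1]; omega)
    have := A.compE hk hσ s.1 s.1 s'.1 rfl (s.2.1.trans s'.2.1.symm) (by rw [a1]; omega)
      (by rw [a2]; omega) l1 (A.relF_near hk hσ x (by rw [A.met.self]; omega) _ _ _ _ _ _ D D')
    simpa [mul_assoc] using this
  obtain ⟨g, g0, g1, g2⟩ := A.geo y z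
  have key : ∀ s, s ≤ d y z → RelF d N good U k x f (f • g s) (g s) := by
    intro s
    induction s with
    | zero =>
      intro _
      have a1 := A.met.symm y (f • y)
      have := A.relF_comp hk hσ (A.relF_near hk hσ x (z := f • y) (z' := y) (by omega)) r0
        (by rw [one_smul]; omega) (by omega)
      rwa [one_mul, ← g0] at this
    | succ s ih =>
      intro hs
      have a1 := g2 s (s + 1) (Nat.zero_le _) (by omega) hs
      have a2 := A.met.symm (g s) (g (s + 1))
      have l1 := A.relF_comp hk hσ (A.relF_near hk hσ x (z := f • g (s + 1)) (z' := f • g s)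
        (by rw [A.inv]; omega)) (ih (by omega)) (by rw [one_smul, A.inv]; omega)
        (by rw [A.met.self]; omega)
      rw [one_mul] at l1
      have := A.relF_comp hk hσ l1 (A.relF_near hk hσ x (z := g s) (z' := g (s + 1)) (by omega))
        (by rw [A.inv]; omega) (by rw [one_smul]; omega)
      rwa [mul_one] at this
  have := key _ le_rfl
  rwa [A.sep _ _ g1] at this

theorem relF_mem (hk : 20 * k + 20 ≤ U) (hσ : 3000 * U ≤ σ) (hρ : ρ ≤ 1000 * U) (x : V) {f : F}
    (hf : f ∈ NN d N good ρ) : ∀ z, RelF d N good U k x f (f • z) z := by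
  have hf' := A.NN_le hk hσ (ρ := U) (by omega) hρ hf
  clear hf
  induction hf' using Subgroup.closure_induction with
  | mem f hf =>
    obtain ⟨y, h1, h2⟩ := hf
    exact A.relF_gen hk hσ x h1 h2
  | one =>
    intro z
    exact A.relF_near hk hσ x (by rw [one_smul, A.met.self]; omega)
  | mul f g _ _ h1 h2 =>
    intro z
    rw [mul_smul]
    exact A.relF_comp hk hσ (h1 (g • z)) (h2 z) (by rw [A.met.self]; omega)
      (by rw [A.met.self]; omega)
  | inv f _ h1 =>
    intro z
    have := A.relF_symm hk hσ (h1 (f⁻¹ • z)) (by rw [A.met.self]; omega)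
    rwa [smul_inv_smul] at this

/-- Short elements of the generated subgroup are null. -/
theorem nul_of_NN (hk : 20 * k + 20 ≤ U) (hσ : 3000 * U ≤ σ) (hρ : ρ ≤ 1000 * U) {x : V} {f : F}
    (hf : f ∈ NN d N good ρ) (hd : d x (f • x) ≤ U) : Nul N good x f := by
  obtain ⟨γ, n, h, D⟩ := A.dev_exists hk hσ x (f • x)
  have s := A.dev_spec D
  have B : Dev d N good U k x x (fun _ => x) 0 1 := Dev.base
  have l1 := A.relF_mem hk hσ hρ x hf x _ _ _ _ _ _ D B
  have l2 := A.relF_near hk hσ x (z := f • x) (z' := x) (by rw [A.met.symm]; exact hd)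
    _ _ _ _ _ _ D B
  have a1 := A.last_eq D B f
  rw [A.met.self] at a1
  unfold LadE at l1
  rw [a1] at l1
  obtain ⟨j, φ, h1, h2, R⟩ := l1
  obtain ⟨a, ha⟩ := A.cover x
  have ha' : Ball d good a (γ 0) (200 * U) := by
    rw [s.2.1]
    exact Ball.mono A.met (y := x) ha (by rw [A.met.self]; omega)
  have hn : n ≤ 60 * U := by
    by_contra hcon
    have := A.window_low hk hσ s.1 (A.lg_const x) (by omega) R (p := 0) (q := 60 * U) (by omega)
      (by omega) (by omega)
    have := R.le 0 (by omega)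
    have := R.le (60 * U) (by omega)
    omega
  have w := A.window hk s.1 (A.lg_const x) (by omega) R ha' n (Nat.zero_le _) le_rfl (by omega)
  have m1 := (N a).mul_mem w.1 (R.nul0 a (A.ball_self ha'))
  rw [inv_mul_cancel_right, h2, inv_one, mul_one] at m1
  have e1 := s.1.loc a 0 n (Nat.zero_le _) le_rfl (by omega) (A.ball_self ha')
  rw [s.2.1, s.2.2, smul_smul, qd_smul_right m1, (A.qmet a).self] at e1
  obtain rfl : n = 0 := by omega
  obtain ⟨j', φ', -, h2', R'⟩ := l2
  have m2 := R'.nul0 a (A.ball_self ha')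
  rw [h2'] at m2
  have m3 := (N a).mul_mem ((N a).inv_mem m2) m1
  refine A.nul_of_mem (A.ball_self (r := σ) ha) ?_ (by omega)
  simpa using m3

theorem lad_dev (hk : 20 * k + 20 ≤ U) (hσ : 3000 * U ≤ σ) {γ : ℕ → V} : ∀ (n : ℕ),
    LG d N good U γ n → ∀ (β : ℕ → V) (m : ℕ) (h : F), Dev d N good U k (γ 0) (γ n) β m h →
      LadE d N good U k γ n β m h⁻¹ := by
  intro n
  induction n with
  | zero =>
    intro hγ β m h D
    obtain ⟨rfl, rfl, rfl⟩ := A.dev_zero D (A.met.self _)
    refine A.contract hk hσ hγ (A.lg_const _) rfl (R := 0) (by omega)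
      ⟨fun _ => 0, fun _ => 1, rfl, inv_one.symm, ?_⟩
    exact ⟨by omega, fun a _ => (N a).one_mem, fun _ _ => le_rfl, fun i hi => by
      obtain rfl : i = 0 := by omega
      rw [one_smul, A.met.self], fun i hi => by omega, fun i hi => by omega, fun i hi => by omega⟩
  | succ n ih =>
    intro hγ β m h D
    obtain ⟨β', m', h', D'⟩ := A.dev_exists hk hσ (γ 0) (γ n)
    have hγ' := hγ.mono (Nat.le_succ n)
    have s := A.dev_spec D
    have s' := A.dev_spec D'
    have a1 := hγ.step n (by omega)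
    have a2 := A.met.symm (γ n) (γ (n + 1))
    have a3 := A.last_eq D' D 1
    rw [one_smul] at a3
    have a4 : h'⁻¹ • β' m' = γ n := by rw [s'.2.2, inv_smul_smul]
    have l1 := A.lad_self hk hσ hγ (Nat.le_succ n) le_rfl (f := 1) (fun a _ => (N a).one_mem)
      (by rw [one_smul]; omega)
    have l2 := A.compE hk hσ hγ hγ' s'.1 rfl s'.2.1.symm (by rw [one_smul]; omega)
      (by rw [a4, A.met.self]; omega) l1 (ih hγ' _ _ _ D')
    rw [one_mul] at l2
    have l3 := A.compE hk hσ hγ s'.1 s.1 s'.2.1.symm (s'.2.1.trans s.2.1.symm)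
      (by rw [a4]; omega) (by rw [a3]; omega) l2
      (A.relF_near hk hσ (γ 0) (by omega) _ _ _ _ _ _ D' D)
    simpa [mul_assoc] using l3

/-- Local geodesics with nearby ends in the quotient fellow travel. -/
theorem fellow (hk : 20 * k + 20 ≤ U) (hσ : 3000 * U ≤ σ) (hρ : 4 * k + 4 ≤ ρ)
    (hρ' : ρ ≤ 1000 * U) {γ γ' : ℕ → V} {n n' : ℕ} (h : LG d N good U γ n)
    (h' : LG d N good U γ' n') (h0 : γ 0 = γ' 0)
    (he : qd d (NN d N good ρ) (γ n) (γ' n') ≤ U) (i : ℕ) (hi : i ≤ n) :
    ∃ j, j ≤ n' ∧ qd d (NN d N good ρ) (γ i) (γ' j) ≤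
      qd d (NN d N good ρ) (γ n) (γ' n') + 2 * k := by
  obtain ⟨f, hf, e⟩ := exists_qd d (NN d N good ρ) (γ n) (γ' n')
  obtain ⟨β, m, g, D⟩ := A.dev_exists hk hσ (γ 0) (γ n)
  obtain ⟨β', m', g', D'⟩ := A.dev_exists hk hσ (γ 0) (γ' n')
  have s := A.dev_spec D
  have s' := A.dev_spec D'
  have r := A.relF_comp hk hσ (A.relF_near hk hσ (γ 0) (z := γ n) (z' := f • γ' n') (by omega))
    (A.relF_mem hk hσ hρ' (γ 0) hf (γ' n')) (by rw [one_smul]; omega)
    (by rw [A.met.self]; omega) _ _ _ _ _ _ D D'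
  rw [one_mul] at r
  have a1 : g⁻¹ • β m = γ n := by rw [s.2.2, inv_smul_smul]
  have a2 : g'⁻¹ • β' m' = γ' n' := by rw [s'.2.2, inv_smul_smul]
  have a3 := A.last_eq D D' f
  have l1 := A.lad_dev hk hσ n h β m g D
  have l2 := A.lad_dev hk hσ n' h' β' m' g' (h0 ▸ D')
  have l3 := A.symmE hk hσ h' s'.1 (h0.symm.trans s'.2.1.symm) (by rw [a2, A.met.self]; omega) l2
  have l4 := A.compE hk hσ h s.1 s'.1 s.2.1.symm (s.2.1.trans s'.2.1.symm)
    (by rw [a1, A.met.self]; omega) (by rw [a3]; omega) l1 r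
  have e1 : g⁻¹ * (g * f * g'⁻¹) = f * g'⁻¹ := by group
  rw [e1] at l4
  have l5 := A.compE hk hσ h s'.1 h' s'.2.1.symm (s'.2.1.trans h0)
    (by rw [mul_smul, a2]; omega) (by rw [inv_inv, s'.2.2, A.met.self]; omega) l4 l3
  rw [inv_inv, inv_mul_cancel_right] at l5
  unfold LadE at l5
  rw [e] at l5
  obtain ⟨j, φ, -, -, R⟩ := l5
  have key : ∀ i, i ≤ n → φ i ∈ NN d N good ρ := by
    intro i
    induction i with
    | zero =>
      intro hi
      refine A.mem_small hk hσ hρ R.nul0 ?_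
      have b1 := A.move_le (γ 0) (γ' 0) (γ' (j 0)) 1 (φ 0)
      have b2 := h'.lip A.met (Nat.zero_le _) (R.le 0 hi)
      have b3 := R.rung 0 hi
      have b4 := R.j0
      rw [inv_one, mul_one, one_smul, ← h0, A.met.self] at b1
      rw [← h0] at b2
      omega
    | succ i ih =>
      intro hi
      have b1 := A.move_le (γ i) (γ' (j i)) (γ' (j (i + 1))) (φ i) (φ (i + 1))
      have b2 := h'.lip' A.met (R.le i (by omega)) (R.le (i + 1) hi) (R.down i hi) (R.up i hi)
      have b3 := R.rung i (by omega)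
      have b4 := R.rung (i + 1) hi
      have b5 := h.step i hi
      have b6 := A.met.tri (γ i) (γ (i + 1)) (φ (i + 1) • γ' (j (i + 1)))
      have := Subgroup.mul_mem _ (A.mem_small hk hσ hρ (R.nul i hi) (by omega)) (ih (by omega))
      rwa [inv_mul_cancel_right] at this
  exact ⟨j i, R.le i hi, (qd_le (key i hi) _ _).trans (R.rung i hi)⟩

end Atlas

end Pool.Agent.Lib.MP_429c3d_al.Hyp
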