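import Pool.Agent.Lib.MP_429c3d_al.HypTight

set_option autoImplicit false
set_option linter.unusedSectionVars false

/-! Short null elements; extension of local geodesics. -/

namespace Pool.Agent.Lib.MP_429c3d_al.Hyp

variable {V F I : Type} [Group F] [MulAction F V]

/-- The subgroup generated by the null elements that move their base point by at most `ρ`. -/
def NN (d : V → V → ℕ) (N : I → Subgroup F) (good : V → I → Prop) (ρ : ℕ) : Subgroup F :=
  Subgroup.closure {f | ∃ x, d x (f • x) ≤ ρ ∧ Nul N good x f}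

variable {d : V → V → ℕ} {N : I → Subgroup F} {good : V → I → Prop} {k σ U ρ : ℕ}

theorem mem_NN {x : V} {f : F} (hd : d x (f • x) ≤ ρ) (hf : Nul N good x f) :
    f ∈ NN d N good ρ := Subgroup.subset_closure ⟨x, hd, hf⟩

namespace Atlas

variable (A : Atlas d N good k σ)
include A

theorem nul_conj {x : V} {f : F} (hf : Nul N good x f) (g : F) :
    Nul N good (g • x) (g * f * g⁻¹) := fun a ha => by
  obtain ⟨b, b1, b2⟩ := A.conj g a
  exact (b2 f).1 (hf b ((b1 x).1 ha))

theorem NN_normal (ρ : ℕ) : (NN d N good ρ).Normal := by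
  refine ⟨fun f hf g => ?_⟩
  induction hf using Subgroup.closure_induction with
  | mem f hf =>
    obtain ⟨x, h1, h2⟩ := hf
    refine mem_NN (x := g • x) ?_ (A.nul_conj h2 g)
    rwa [smul_smul, inv_mul_cancel_right, mul_smul, A.inv]
  | one => simp
  | mul f f' _ _ h1 h2 =>
    have := (NN d N good ρ).mul_mem h1 h2
    simpa [mul_assoc] using this
  | inv f _ h1 =>
    have := (NN d N good ρ).inv_mem h1
    simpa [mul_assoc] using this

theorem fill_step (hk : 20 * k + 20 ≤ U) (hσ : 3000 * U ≤ σ) (hρ : 4 * k + 4 ≤ ρ) {x u u' : V}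
    {a : I} (ha : Ball d good a x σ) (hu : d x u ≤ 1000 * U) (hu' : d x u' ≤ 1000 * U)
    (huu : d u u' ≤ 1) {ν ν' : F} (hν : ν ∈ N a) (hν' : ν' ∈ N a)
    (e : d x (ν • u) = qd d (N a) x u) (e' : d x (ν' • u') = qd d (N a) x u') :
    ν * ν'⁻¹ ∈ NN d N good ρ := by
  have M := A.qmet a
  have geo : ∀ (u : V) (ν : F), ν ∈ N a → d x (ν • u) = qd d (N a) x u → ∃ g : ℕ → V, g 0 = x ∧
      g (qd d (N a) x u) = ν • u ∧ GeoOn d g 0 (qd d (N a) x u) ∧
      GeoOn (qd d (N a)) g 0 (qd d (N a) x u) := by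
    intro u ν hν e
    obtain ⟨g, g0, g1, g2⟩ := A.geo x (ν • u)
    rw [e] at g1 g2
    refine ⟨g, g0, A.sep _ _ g1, g2, geoOn_of_le M (fun i j a1 a2 a3 => ?_) ?_⟩
    · have := g2 i j a1 a2 a3
      have := qd_le' (d := d) (N a) (g i) (g j)
      omega
    · rw [g0, A.sep _ _ g1, qd_smul_right hν]
      omega
  obtain ⟨g, g0, g1, g2, g3⟩ := geo u ν hν e
  obtain ⟨g', g0', g1', g2', g3'⟩ := geo u' ν' hν' e'
  have l1 := qd_le' (d := d) (N a) x u
  have l2 := qd_le' (d := d) (N a) x u'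
  have l3 := qd_le' (d := d) (N a) u u'
  have l4 := M.tri x u u'
  have l5 := M.tri x u' u
  have l6 := M.symm u u'
  obtain ⟨l, hl⟩ : ∃ l, l = qd d (N a) x u := ⟨_, rfl⟩
  obtain ⟨l', hl'⟩ : ∃ l', l' = qd d (N a) x u' := ⟨_, rfl⟩
  rw [← hl] at g1 g2 g3 l1 l4 l5
  rw [← hl'] at g1' g2' g3' l2 l4 l5
  have hend : qd d (N a) (g l) (g' l') ≤ 1 := by
    rw [g1, g1', qd_smul_right hν', qd_smul_left A.met A.inv hν]
    omega
  have hclose : ∀ t, t ≤ l → t ≤ l' → qd d (N a) (g t) (g' t) ≤ 2 * k + 1 := by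
    intro t h1 h2
    by_cases hc : t = l ∧ t = l'
    · have : qd d (N a) (g t) (g' t) = qd d (N a) (g l) (g' l') := by rw [← hc.1, ← hc.2]
      omega
    · have a1 := g3 0 t le_rfl (Nat.zero_le _) h1
      have a2 := g3' 0 t le_rfl (Nat.zero_le _) h2
      have a3 := g3 t l (Nat.zero_le _) h1 le_rfl
      have a4 := g3' t l' (Nat.zero_le _) h2 le_rfl
      have a5 := g3 0 l le_rfl (Nat.zero_le _) le_rfl
      have a6 := g3' 0 l' le_rfl (Nat.zero_le _) le_rfl
      rw [g0] at a1 a5
      rw [g0'] at a2 a6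
      have := sync_le M (A.hypN a) (o := x) (u := g t) (u' := g' t) (z := g l) (z' := g' l')
        (b := t) (by omega) (by omega) (by omega) (by omega) (by omega)
      omega
  have hgood : ∀ t, t ≤ l → good (g t) a := by
    intro t ht
    have := g2 0 t le_rfl (Nat.zero_le _) ht
    rw [g0] at this
    exact ha _ (by omega)
  have key : ∀ t, t ≤ l → t ≤ l' → ∃ μ, μ ∈ N a ∧ μ ∈ NN d N good ρ ∧
      d (g t) (μ • g' t) ≤ 2 * k + 1 := by
    intro t
    induction t with
    | zero =>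
      intro _ _
      exact ⟨1, (N a).one_mem, Subgroup.one_mem _, by rw [g0, g0', one_smul, A.met.self]; omega⟩
    | succ t ih =>
      intro h1 h2
      obtain ⟨μ, m1, m2, m3⟩ := ih (by omega) (by omega)
      obtain ⟨μ', m1', m3'⟩ := exists_qd d (N a) (g (t + 1)) (g' (t + 1))
      have c1 := hclose (t + 1) h1 h2
      have a1 := g2 t (t + 1) (Nat.zero_le _) (by omega) h1
      have a2 := g2' t (t + 1) (Nat.zero_le _) (by omega) h2
      have a3 := A.move_le (g t) (g' t) (g' (t + 1)) μ μ'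
      have a4 := A.met.tri (g t) (g (t + 1)) (μ' • g' (t + 1))
      have m4 : μ' * μ⁻¹ ∈ NN d N good ρ := mem_NN (x := g t) (by omega)
        (A.nul_of_mem (hgood t (by omega)) ((N a).mul_mem m1' ((N a).inv_mem m1)) (by omega))
      refine ⟨μ', m1', ?_, by omega⟩
      have := Subgroup.mul_mem _ m4 m2
      rwa [inv_mul_cancel_right] at this
  obtain ⟨μ, m1, m2, m3⟩ := key (min l l') (min_le_left _ _) (min_le_right _ _)
  have a1 := g2 (min l l') l (Nat.zero_le _) (min_le_left _ _) le_rfl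
  have a2 := g2' (min l l') l' (Nat.zero_le _) (min_le_right _ _) le_rfl
  have a3 := A.move_le (g (min l l')) (g' (min l l')) (g' l') μ (ν * ν'⁻¹)
  have a4 := A.met.tri (g (min l l')) (g l) ((ν * ν'⁻¹) • g' l')
  have a5 : d (g l) ((ν * ν'⁻¹) • g' l') = d u u' := by
    rw [g1, g1', mul_smul, inv_smul_smul, A.inv]
  have m4 : ν * ν'⁻¹ * μ⁻¹ ∈ NN d N good ρ := mem_NN (x := g (min l l')) (by omega)
    (A.nul_of_mem (hgood _ (min_le_left _ _))
      ((N a).mul_mem ((N a).mul_mem hν ((N a).inv_mem hν')) ((N a).inv_mem m1)) (by omega))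
  have := Subgroup.mul_mem _ m4 m2
  rwa [inv_mul_cancel_right] at this

/-- Null elements of moderate length are products of very short null elements. -/
theorem mem_small (hk : 20 * k + 20 ≤ U) (hσ : 3000 * U ≤ σ) (hρ : 4 * k + 4 ≤ ρ) {x : V} {f : F}
    (hf : Nul N good x f) (hd : d x (f • x) ≤ 1000 * U) : f ∈ NN d N good ρ := by
  obtain ⟨a, ha⟩ := A.cover x
  have ha' : Ball d good a x σ := ha
  obtain ⟨y, y0, y1, y2⟩ := A.geo x (f • x)
  have hy : ∀ s, s ≤ d x (f • x) → d x (y s) ≤ 1000 * U := by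
    intro s hs
    have := y2 0 s le_rfl (Nat.zero_le _) hs
    rw [y0] at this
    omega
  have key : ∀ s, s ≤ d x (f • x) → ∀ ν, ν ∈ N a → d x (ν • y s) = qd d (N a) x (y s) →
      ν ∈ NN d N good ρ := by
    intro s
    induction s with
    | zero =>
      intro hs ν hν e
      have := A.fill_step hk hσ hρ ha' (hy 0 hs) (u' := x) (by rw [A.met.self]; omega)
        (by rw [y0, A.met.self]; omega) hν (N a).one_mem e
        (by rw [one_smul, A.met.self, (A.qmet a).self])
      simpa using this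
    | succ s ih =>
      intro hs ν hν e
      obtain ⟨ν', hν', e'⟩ := exists_qd d (N a) x (y s)
      have a1 := y2 s (s + 1) (Nat.zero_le _) (by omega) hs
      have a2 := A.met.symm (y s) (y (s + 1))
      have := Subgroup.mul_mem _ (A.fill_step hk hσ hρ ha' (hy _ hs) (hy s (by omega)) (by omega)
        hν hν' e e') (ih (by omega) ν' hν' e')
      rwa [inv_mul_cancel_right] at this
  have hm := hf a (A.ball_self ha')
  have := key _ le_rfl f⁻¹ ((N a).inv_mem hm) (by
    rw [A.sep _ _ y1, inv_smul_smul, A.met.self, qd_smul_right hm, (A.qmet a).self])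
  simpa using this

theorem NN_le (hk : 20 * k + 20 ≤ U) (hσ : 3000 * U ≤ σ) (hρ : 4 * k + 4 ≤ ρ) {ρ' : ℕ}
    (hρ' : ρ' ≤ 1000 * U) : NN d N good ρ' ≤ NN d N good ρ := by
  refine (Subgroup.closure_le _).2 ?_
  rintro f ⟨x, h1, h2⟩
  exact A.mem_small hk hσ hρ h2 (by omega)

/-- For nearby points the quotient distance is bounded by the chart distance. -/
theorem qd_NN_le (hk : 20 * k + 20 ≤ U) (hσ : 3000 * U ≤ σ) (hρ : 4 * k + 4 ≤ ρ) {x y : V} {a : I}
    (ha : good x a) (hd : d x y ≤ 500 * U) : qd d (NN d N good ρ) x y ≤ qd d (N a) x y := by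
  obtain ⟨f, hf, e⟩ := exists_qd d (N a) x y
  have h1 := qd_le' (d := d) (N a) x y
  have h2 := A.move_le x y y 1 f
  rw [inv_one, mul_one, one_smul, A.met.self] at h2
  rw [← e]
  exact qd_le (A.mem_small hk hσ hρ (A.nul_of_mem ha hf (by omega)) (by omega)) x y

theorem extend (hk : 20 * k + 20 ≤ U) (hσ : 3000 * U ≤ σ) {γ : ℕ → V} {n : ℕ} {z : V}
    (h : LG d N good U γ n) (hz : d (γ n) z ≤ 1) :
    ∃ (β : ℕ → V) (n' : ℕ) (g : F), LG d N good U β n' ∧ β 0 = γ 0 ∧ g • β n' = z ∧
      LadE d N good U k γ n β n' g := by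
  obtain ⟨m, e, hm, e0, em, es, el, en⟩ := exists_checkpoints n (203 * U) (by omega)
  have emono : Monotone e := monotone_nat_of_le_succ fun i => (el i).1
  let p : ℕ → V := fun i => if i < m then γ (e i) else z
  have hp : ∀ i, i < m → p i = γ (e i) := fun i hi => if_pos hi
  have hpm : p m = z := if_neg (lt_irrefl m)
  have hpd : ∀ i, i ≤ m → d (γ (e i)) (p i) ≤ 1 := by
    intro i hi
    by_cases hc : i < m
    · rw [hp i hc, A.met.self]
      omega
    · have : i = m := by omega
      rw [this, hpm, em]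
      exact hz
  have hloc : ∀ (a : I) (s u v : ℕ), Ball d good a (γ s) (300 * U) → s ≤ n → v ≤ n →
      s ≤ u + 300 * U → v ≤ s + 300 * U → LocGeo (qd d (N a)) (200 * U) γ u v := by
    intro a s u v hb h1 h2 h3 h4
    exact h.locGeo h2 fun t t1 t2 => hb _ (h.lip' A.met h1 (by omega) (by omega) (by omega))
  have hch : Chain d N good U U (2 * k + 2) p m := by
    refine ⟨fun i hi => ?_, fun i hi a ha => ?_, fun i hi a ha => ?_⟩
    · have a1 := h.lip A.met (el i).1 (en (i + 1))
      have a2 := hpd (i + 1) hi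
      have a3 := A.met.tri (γ (e i)) (γ (e (i + 1))) (p (i + 1))
      have := el i
      rw [hp i hi]
      omega
    · rw [hp (i + 1) (by omega)] at ha
      rw [hp (i + 1) (by omega), hp (i + 2) hi]
      have a1 : e (i + 2) = e (i + 1) + 203 * U := es (i + 1) hi
      have a2 := en (i + 2)
      have lg := hloc a (e (i + 1)) (e (i + 1)) (e (i + 2))
        (ha.mono A.met (by rw [A.met.self]; omega)) (en _) a2 (by omega) (by omega)
      have a3 := loc_prod (A.qmet a) (A.hypN a) (by omega) lg (i := e (i + 1))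
        (j := e (i + 1) + 200 * U) (l := e (i + 2)) le_rfl (by omega) (by omega) le_rfl
      have a4 := lg (e (i + 1)) (e (i + 1) + 200 * U) le_rfl (by omega) (by omega) le_rfl
      have a5 := lg (e (i + 1) + 200 * U) (e (i + 2)) (by omega) (by omega) le_rfl (by omega)
      have a6 := (A.qmet a).symm (γ (e (i + 1))) (γ (e (i + 1) + 200 * U))
      omega
    · rw [hp (i + 1) hi] at ha
      rw [hp (i + 1) hi, hp i (by omega)]
      have a1 := el i
      have a2 : e (i + 1) ≤ e (i + 2) ∧ e (i + 2) ≤ e (i + 1) + 203 * U := el (i + 1)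
      have lg := hloc a (e (i + 1)) (e i) (e (i + 2))
        (ha.mono A.met (by rw [A.met.self]; omega)) (en _) (en _) (by omega) (by omega)
      have a3 := loc_prod (A.qmet a) (A.hypN a) (by omega) lg (i := e i)
        (j := e (i + 1)) (l := e (i + 2)) le_rfl a1.1 a2.1 le_rfl
      have a4 := hpd (i + 2) hi
      have a5 := qd_le' (d := d) (N a) (γ (e (i + 2))) (p (i + 2))
      have a6 := (A.qmet a).tri (γ (e (i + 1))) (γ (e (i + 2))) (p (i + 2))
      have a7 := (A.qmet a).tri (γ (e i)) (p (i + 2)) (γ (e (i + 2)))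
      have a8 := (A.qmet a).symm (p (i + 2)) (γ (e (i + 2)))
      omega
  obtain ⟨β, t, H, b1, b2, t0, H0, b3, b4, b5, b6⟩ := A.tighten hk hσ le_rfl (by omega) hch hm
  have hβ0 : β 0 = γ 0 := by rw [b2, hp 0 hm, e0]
  refine ⟨β, t m, H m, b1, hβ0, b3.trans hpm, ?_⟩
  have key : ∀ s, ∃ (i j : ℕ) (φ : F), s ≤ n → i ≤ m ∧ e i ≤ s ∧ (s < n → s < e (i + 1)) ∧
      t i ≤ j ∧ j ≤ t i + 252 * U ∧ j ≤ t m ∧ d (γ s) (φ • β j) ≤ 3 * U ∧
      Nul N good (γ s) (φ * (H i)⁻¹) ∧ (s = n → j = t m ∧ φ = H m ∧ i = m) := by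
    intro s
    by_cases hs : s < n
    · obtain ⟨i, i1, i2, i3⟩ := exists_interval (e := e) (s := s) (m := m) (by omega) (by omega)
      obtain ⟨a, ha⟩ := A.cover (γ s)
      have ha' : Ball d good a (γ s) σ := ha
      have M := A.qmet a
      have a1 := el i
      have a2 := h.lip A.met i2 hs.le
      have a3 := A.met.symm (γ (e i)) (γ s)
      obtain ⟨c1, c2, c3, c4, c5⟩ := b6 i i1
      have bp : Ball d good a (p i) (1000 * U) := ha'.mono A.met (by rw [hp i i1]; omega)
      have lg := hloc a s (e i) (e (i + 1)) (ha'.mono A.met (by rw [A.met.self]; omega)) hs.le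
        (en _) (by omega) (by omega)
      have a4 := loc_prod M (A.hypN a) (by omega) lg (i := e i) (j := s) (l := e (i + 1)) le_rfl
        i2 i3.le le_rfl
      have a5 := b4 i i1.le
      have a6 := b4 (i + 1) i1
      have a7 := A.qd_le_of (c3 a (A.ball_self bp)) (p (i + 1)) (β (t (i + 1)))
      have a8 := hpd (i + 1) i1
      rw [hp i i1] at a5
      have a9 := qd_le' (d := d) (N a) (γ (e i)) (H i • β (t i))
      have a10 := qd_le' (d := d) (N a) (γ (e (i + 1))) (p (i + 1))
      have a11 := M.tri (γ (e (i + 1))) (p (i + 1)) (H i • β (t (i + 1)))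
      have a12 := M.tri (γ s) (γ (e i)) (H i • β (t i))
      have a13 := M.tri (γ s) (γ (e (i + 1))) (H i • β (t (i + 1)))
      have a14 := M.tri (γ (e i)) (H i • β (t i)) (γ (e (i + 1)))
      have a15 := M.tri (H i • β (t i)) (H i • β (t (i + 1))) (γ (e (i + 1)))
      have a16 := M.symm (H i • β (t (i + 1))) (γ (e (i + 1)))
      have a17 := c5 a bp (t i) (t (i + 1)) le_rfl c1 le_rfl
      simp only at a17
      obtain ⟨j, j1, j2, j3⟩ := near_geo M (A.hypN a) (c5 a bp) c1 (γ s) (c := 4 * U + 2 * k + 2)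
        (by omega)
      obtain ⟨ν, hν, e1⟩ := exists_qd d (N a) (γ s) (H i • β j)
      rw [smul_smul] at e1
      have a18 := b5 (i + 1) i1
      refine ⟨i, j, ν * H i, fun _ => ⟨i1.le, i2, fun _ => i3, j1, by omega, by omega, by omega,
        A.nul_of_mem (A.ball_self ha') (by simpa using hν) ?_, by omega⟩⟩
      have a19 := A.move_le (γ s) (β (t i)) (β j) (H i) (ν * H i)
      have a20 := b1.lip A.met j1 (by omega)
      have a21 := A.met.tri (γ s) (γ (e i)) (H i • β (t i))
      omega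
    · refine ⟨m, t m, H m, fun hs' => ?_⟩
      have : s = n := by omega
      subst this
      refine ⟨le_rfl, em.le, fun h => absurd h hs, le_rfl, by omega, le_rfl, ?_, ?_,
        fun _ => ⟨rfl, rfl, rfl⟩⟩
      · rw [b3, hpm]
        omega
      · intro a _
        simp
  choose i j φ hkey using key
  have hii : ∀ s, s < n → i s ≤ i (s + 1) ∧ i (s + 1) ≤ i s + 2 ∧ i s < m := by
    intro s hs
    obtain ⟨c1, c2, c3, -⟩ := hkey s hs.le
    obtain ⟨d1, d2, d3, -, -, -, -, -, d4⟩ := hkey (s + 1) hs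
    have c4 := c3 hs
    have hlt : i s < m := by
      by_contra hcon
      have : i s = m := by omega
      rw [this, em] at c2
      omega
    refine ⟨?_, ?_, hlt⟩
    · by_cases hc : s + 1 = n
      · have := (d4 hc).2.2
        omega
      · by_contra hcon
        have := emono (show i (s + 1) + 1 ≤ i s by omega)
        have := d3 (by omega)
        omega
    · by_contra hcon
      have := emono (show i s + 1 + 1 ≤ i (s + 1) by omega)
      have := es (i s + 1) (by omega)
      omega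
  have htwo : ∀ u v, u ≤ v → v ≤ u + 2 → v ≤ m → t u ≤ t v ∧ t v ≤ t u + 504 * U ∧
      ∀ a, Ball d good a (p u) (1000 * U) → H v * (H u)⁻¹ ∈ N a := by
    intro u v h1 h2 h3
    obtain rfl | rfl | rfl : v = u ∨ v = u + 1 ∨ v = u + 1 + 1 := by omega
    · exact ⟨le_rfl, by omega, fun a _ => by simp⟩
    · obtain ⟨c1, c2, c3, -⟩ := b6 u h3
      exact ⟨c1, by omega, fun a ha => c3 a (A.ball_self ha)⟩
    · obtain ⟨c1, c2, c3, -⟩ := b6 u (by omega)
      obtain ⟨d1, d2, d3, -⟩ := b6 (u + 1) h3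
      refine ⟨by omega, by omega, fun a ha => ?_⟩
      have := hch.len u (by omega)
      have := (N a).mul_mem (d3 a (ha _ (by omega))) (c3 a (A.ball_self ha))
      rwa [mul_assoc, inv_mul_cancel_left] at this
  have hps : ∀ s, s < n → d (γ s) (p (i s)) ≤ 203 * U := by
    intro s hs
    obtain ⟨c1, c2, c3, -⟩ := hkey s hs.le
    have := c3 hs
    have := el (i s)
    rw [hp _ (hii s hs).2.2]
    exact h.lip' A.met hs.le (en _) (by omega) (by omega)
  have hi0 : i 0 ≤ 2 := by
    obtain ⟨c1, c2, -⟩ := hkey 0 (Nat.zero_le _)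
    by_contra hcon
    have := emono (show 1 ≤ i 0 by omega)
    have := es 0 (by omega)
    simp only [zero_add] at this
    omega
  refine A.contract hk hσ h b1 hβ0.symm (R := 3 * U) (by omega)
    ⟨j, φ, ((hkey n le_rfl).2.2.2.2.2.2.2.2 rfl).1, ((hkey n le_rfl).2.2.2.2.2.2.2.2 rfl).2.1, ?_⟩
  refine A.rungs_mk hk hσ h b1 hβ0.symm (by omega) ?_ ?_ (fun s hs => (hkey s hs).2.2.2.2.2.1)
    (fun s hs => (hkey s hs).2.2.2.2.2.2.1) ?_ ?_ ?_
  · obtain ⟨c1, -, -, -, c2, -⟩ := hkey 0 (Nat.zero_le _)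
    have := htwo 0 (i 0) (Nat.zero_le _) (by omega) c1
    omega
  · intro a ha
    obtain ⟨c1, -, -, -, -, -, -, c2, -⟩ := hkey 0 (Nat.zero_le _)
    have m1 := (htwo 0 (i 0) (Nat.zero_le _) (by omega) c1).2.2 a
      (ha.mono A.met (by rw [hp 0 hm, e0, A.met.self]; omega))
    have := (N a).mul_mem (c2 a (A.ball_self ha)) m1
    simpa [H0] using this
  · intro s hs
    obtain ⟨-, -, -, c1, -⟩ := hkey s hs.le
    obtain ⟨d1, -, -, -, d2, -⟩ := hkey (s + 1) hs
    have := hii s hs
    have := htwo (i s) (i (s + 1)) (by omega) (by omega) d1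
    omega
  · intro s hs
    obtain ⟨-, -, -, -, c1, -⟩ := hkey s hs.le
    obtain ⟨d1, -, -, d2, -⟩ := hkey (s + 1) hs
    have := hii s hs
    have := htwo (i s) (i (s + 1)) (by omega) (by omega) d1
    omega
  · intro s hs a ha
    obtain ⟨-, -, -, -, -, -, -, c1, -⟩ := hkey s hs.le
    obtain ⟨d1, -, -, -, -, -, -, d2, -⟩ := hkey (s + 1) hs
    have a1 := hii s hs
    have a2 := hps s hs
    have a3 := h.step s hs
    have m1 := (htwo (i s) (i (s + 1)) (by omega) (by omega) d1).2.2 a (ha.mono A.met (by omega))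
    have := (N a).mul_mem ((N a).mul_mem (d2 a (ha _ (by omega))) m1)
      ((N a).inv_mem (c1 a (A.ball_self ha)))
    simpa [mul_assoc] using this

end Atlas

end Pool.Agent.Lib.MP_429c3d_al.Hyp
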