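import Pool.Agent.Lib.MP_429c3d_al.HypGraph

set_option autoImplicit false
set_option linter.unusedSectionVars false

/-! Labelled walks, reversible machines and the word metric of a free group. -/

namespace Pool.Agent.Lib.MP_429c3d_al.Hyp

open FreeGroup

/-- Walks along labelled darts. -/
def LW {W E : Type} (dart : W → E → W → Prop) : W → List E → W → Prop
  | w, [], w' => w = w'
  | w, e :: L, w' => ∃ u, dart w e u ∧ LW dart u L w'

section Walk

variable {W W' E E' : Type} {dart : W → E → W → Prop}

theorem lw_nil {w w' : W} : LW dart w [] w' ↔ w = w' := Iff.rfl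

theorem lw_cons {w w' : W} {e : E} {L : List E} :
    LW dart w (e :: L) w' ↔ ∃ u, dart w e u ∧ LW dart u L w' := Iff.rfl

theorem lw_single {w w' : W} {e : E} : LW dart w [e] w' ↔ dart w e w' :=
  ⟨fun ⟨_, h, e⟩ => e ▸ h, fun h => ⟨w', h, rfl⟩⟩

theorem lw_append {w w' : W} {L L' : List E} :
    LW dart w (L ++ L') w' ↔ ∃ u, LW dart w L u ∧ LW dart u L' w' := by
  induction L generalizing w with
  | nil => exact ⟨fun h => ⟨w, rfl, h⟩, fun ⟨u, h, h'⟩ => by rwa [← show w = u from h] at h'⟩
  | cons e L ih =>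
    rw [List.cons_append, lw_cons]
    constructor
    · rintro ⟨u, h1, h2⟩
      obtain ⟨v, h3, h4⟩ := ih.1 h2
      exact ⟨v, ⟨u, h1, h3⟩, h4⟩
    · rintro ⟨v, ⟨u, h1, h3⟩, h4⟩
      exact ⟨u, h1, ih.2 ⟨v, h3, h4⟩⟩

theorem LW.append {w u w' : W} {L L' : List E} (h : LW dart w L u) (h' : LW dart u L' w') :
    LW dart w (L ++ L') w' := lw_append.2 ⟨u, h, h'⟩

theorem LW.map {dart' : W' → E' → W' → Prop} (φ : W → W') (f : E → E')
    (H : ∀ w e w', dart w e w' → dart' (φ w) (f e) (φ w')) {w w' : W} {L : List E}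
    (h : LW dart w L w') : LW dart' (φ w) (L.map f) (φ w') := by
  induction L generalizing w with
  | nil => exact congrArg φ h
  | cons e L ih =>
    obtain ⟨u, h1, h2⟩ := h
    exact ⟨φ u, H _ _ _ h1, ih h2⟩

theorem LW.map' {dart' : W' → E → W' → Prop} (φ : W → W')
    (H : ∀ w e w', dart w e w' → dart' (φ w) e (φ w')) {w w' : W} {L : List E}
    (h : LW dart w L w') : LW dart' (φ w) L (φ w') := by
  simpa using h.map φ id H

theorem LW.rev (rev : E → E) (H : ∀ w e w', dart w e w' → dart w' (rev e) w) {w w' : W}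
    {L : List E} (h : LW dart w L w') : LW dart w' (L.map rev).reverse w := by
  induction L generalizing w with
  | nil => exact h.symm
  | cons e L ih =>
    obtain ⟨u, h1, h2⟩ := h
    rw [List.map_cons, List.reverse_cons]
    exact (ih h2).append (lw_single.2 (H _ _ _ h1))

theorem LW.le {d : W → W → ℕ} (m : IsMet d) (H : ∀ w e w', dart w e w' → d w w' ≤ 1) {w w' : W}
    {L : List E} (h : LW dart w L w') : d w w' ≤ L.length := by
  induction L generalizing w with
  | nil => rw [show w = w' from h, m.self]; omega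
  | cons e L ih =>
    obtain ⟨u, h1, h2⟩ := h
    have := H _ _ _ h1
    have := ih h2
    have := m.tri w u w'
    simp only [List.length_cons]
    omega

theorem LW.det (H : ∀ w e u u', dart w e u → dart w e u' → u = u') {w u u' : W} {L : List E}
    (h : LW dart w L u) (h' : LW dart w L u') : u = u' := by
  induction L generalizing w with
  | nil => exact h.symm.trans h'
  | cons e L ih =>
    obtain ⟨v, h1, h2⟩ := h
    obtain ⟨v', h1', h2'⟩ := h'
    exact ih h2 (H _ _ _ _ h1 h1' ▸ h2')

end Walk

theorem isGeo_of_step {V : Type} {d : V → V → ℕ} (m : IsMet d)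
    (h : ∀ x y n, d x y = n + 1 → ∃ z, d x z ≤ 1 ∧ d z y ≤ n) : IsGeo d := by
  have key : ∀ n x y, d x y = n → ∃ g : ℕ → V, g 0 = x ∧ d (g n) y = 0 ∧
      ∀ i, i < n → d (g i) (g (i + 1)) ≤ 1 := by
    intro n
    induction n with
    | zero => exact fun x y e => ⟨fun _ => x, rfl, e, fun i hi => by omega⟩
    | succ n ih =>
      intro x y e
      obtain ⟨z, z1, z2⟩ := h x y n e
      have := m.tri x z y
      obtain ⟨g, g0, g1, g2⟩ := ih z y (by omega)
      refine ⟨fun i => Nat.casesOn i x g, rfl, g1, fun i hi => ?_⟩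
      rcases i with _ | i
      · show d x (g 0) ≤ 1
        rwa [g0]
      · exact g2 i (by omega)
  intro x y
  obtain ⟨g, g0, g1, g2⟩ := key _ x y rfl
  refine ⟨g, g0, g1, geoOn_of_le m (fun i j a b c => lip_le m (a := 0) (b := d x y)
    (fun i _ hi => g2 i hi) a b c) ?_⟩
  have := m.tri x (g (d x y)) y
  rw [g0]
  omega

variable {E : Type} [DecidableEq E]

theorem norm_eq_length (g : FreeGroup E) : g.norm = g.toWord.length := rfl

theorem norm_mk_red {L : List (E × Bool)} (h : IsReduced L) : (mk L).norm = L.length := by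
  rw [norm_eq_length, toWord_mk, h.reduce_eq]

theorem red_invRev {L : List (E × Bool)} (h : IsReduced L) : IsReduced (invRev L) := by
  rw [isReduced_iff_reduce_eq, reduce_invRev, h.reduce_eq]

theorem red_right {L L' : List (E × Bool)} (h : IsReduced (L ++ L')) : IsReduced L' :=
  List.IsChain.right_of_append h

theorem exists_lcp (L L' : List (E × Bool)) (h : IsReduced L) (h' : IsReduced L') :
    ∃ p u v, L = p ++ u ∧ L' = p ++ v ∧ IsReduced (invRev u ++ v) := by
  induction L generalizing L' with
  | nil => exact ⟨[], [], L', rfl, rfl, by simpa using h'⟩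
  | cons a L ih =>
    rcases L' with _ | ⟨b, L'⟩
    · exact ⟨[], a :: L, [], rfl, rfl, by simpa only [List.append_nil] using red_invRev h⟩
    by_cases e : a = b
    · obtain ⟨p, u, v, h1, h2, h3⟩ := ih L' (red_right (L := [a]) h) (red_right (L := [b]) h')
      exact ⟨a :: p, u, v, by rw [h1]; rfl, by rw [h2, e]; rfl, h3⟩
    · refine ⟨[], a :: L, b :: L', rfl, rfl, ?_⟩
      have e1 : invRev (a :: L) = invRev L ++ [(a.1, !a.2)] := by simp [invRev]
      have h1 := red_invRev h
      rw [e1] at h1 ⊢
      refine IsReduced.append_overlap h1 ?_ (by simp)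
      rw [List.singleton_append, isReduced_cons_cons]
      refine ⟨fun e2 => ?_, h'⟩
      by_contra e3
      exact e (Prod.ext e2 (by revert e3; cases a.2 <;> cases b.2 <;> simp))

theorem norm_common {x y : FreeGroup E} {p u v : List (E × Bool)} (hx : x.toWord = p ++ u)
    (hy : y.toWord = p ++ v) : x⁻¹ * y = mk (invRev u ++ v) := by
  rw [← mk_toWord (x := x), ← mk_toWord (x := y), hx, hy, ← mul_mk, ← mul_mk, ← mul_mk, ← inv_mk]
  group

/-- The four point condition at the identity. -/
theorem norm_hyp (x y z : FreeGroup E) : (x⁻¹ * y).norm + z.norm ≤ (x⁻¹ * z).norm + y.norm ∨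
    (x⁻¹ * y).norm + z.norm ≤ x.norm + (y⁻¹ * z).norm := by
  obtain ⟨p, u, v, a1, a2, a3⟩ := exists_lcp x.toWord z.toWord isReduced_toWord isReduced_toWord
  obtain ⟨q, u', v', b1, b2, b3⟩ := exists_lcp y.toWord z.toWord isReduced_toWord isReduced_toWord
  have e1 := norm_mk_red a3
  have e2 := norm_mk_red b3
  rw [← norm_common a1 a2] at e1
  rw [← norm_common b1 b2] at e2
  have l1 := congrArg List.length a1
  have l2 := congrArg List.length a2
  have l3 := congrArg List.length b1
  have l4 := congrArg List.length b2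
  rw [← norm_eq_length] at l1 l2 l3 l4
  simp only [List.length_append, invRev_length] at *
  rcases List.append_eq_append_iff.1 (a2.symm.trans b2) with ⟨r, r1, -⟩ | ⟨r, r1, -⟩
  · have := norm_mk_le (L₁ := invRev u ++ (r ++ u'))
    rw [← norm_common a1 (by rw [b1, r1, List.append_assoc])] at this
    have l5 := congrArg List.length r1
    simp only [List.length_append, invRev_length] at *
    omega
  · have := norm_mk_le (L₁ := invRev (r ++ u) ++ u')
    rw [← norm_common (by rw [a1, r1, List.append_assoc]) b1] at this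
    have l5 := congrArg List.length r1
    simp only [List.length_append, invRev_length] at *
    omega

theorem norm_symm (x y : FreeGroup E) : (x⁻¹ * y).norm = (y⁻¹ * x).norm := by
  rw [← norm_inv_eq, mul_inv_rev, inv_inv]

theorem norm_tri (x y z : FreeGroup E) : (x⁻¹ * z).norm ≤ (x⁻¹ * y).norm + (y⁻¹ * z).norm := by
  have := norm_mul_le (x⁻¹ * y) (y⁻¹ * z)
  rwa [mul_assoc, mul_inv_cancel_left] at this

theorem norm_hyp4 : Hyp4 (fun x y : FreeGroup E => (x⁻¹ * y).norm) 0 := by
  intro x y z w
  have := norm_hyp (w⁻¹ * x) (w⁻¹ * y) (w⁻¹ * z)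
  simp only [mul_inv_rev, inv_inv, mul_assoc, mul_inv_cancel_left] at this
  have := norm_symm w x
  have := norm_symm w y
  have := norm_symm w z
  simp only
  omega

/-- Deterministic reversible machines. -/
structure IsMach {S : Type} (st : S → E × Bool → S → Prop) : Prop where
  det : ∀ s l t t', st s l t → st s l t' → t = t'
  back : ∀ s l t, st s l t → st t (l.1, !l.2) s

/-- The reduced word of `g` leads from `s` to `t`. -/
def Path {S : Type} (st : S → E × Bool → S → Prop) (s : S) (g : FreeGroup E) (t : S) : Prop :=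
  LW st s g.toWord t

/-- The reduced word of `u` is empty or cannot be started at `s`. -/
def Exit {S : Type} (st : S → E × Bool → S → Prop) (s : S) (u : FreeGroup E) : Prop :=
  ∀ l L t, u.toWord = l :: L → ¬ st s l t

variable {S : Type} {st : S → E × Bool → S → Prop}

theorem path_one (s : S) : Path st s 1 s := rfl

theorem exit_one (s : S) : Exit st s 1 := fun _ _ _ h => by simp at h

namespace IsMach

variable (M : IsMach st)
include M

theorem of_red {L L' : List (E × Bool)} (h : Red L L') {s t : S} (hw : LW st s L t) :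
    LW st s L' t := by
  induction h with
  | refl => exact hw
  | tail _ h ih =>
    cases h with
    | @not L₁ L₂ x b =>
      obtain ⟨u, h1, v, h2, v', h3, h4⟩ := lw_append.1 ih
      exact h1.append (M.det _ _ _ _ h3 (M.back _ _ _ h2) ▸ h4)

theorem path_mk {L : List (E × Bool)} {s t : S} (h : LW st s L t) :
    Path st s (FreeGroup.mk L) t :=
  M.of_red reduce.red h

theorem mul {g g' : FreeGroup E} {s t u : S} (h : Path st s g t) (h' : Path st t g' u) :
    Path st s (g * g') u := by
  have := M.path_mk (LW.append h h')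
  rwa [← mul_mk, mk_toWord, mk_toWord] at this

theorem inv {g : FreeGroup E} {s t : S} (h : Path st s g t) : Path st t g⁻¹ s := by
  have := LW.rev (fun l : E × Bool => (l.1, !l.2)) M.back h
  rwa [Path, toWord_inv]

theorem pdet {g : FreeGroup E} {s t t' : S} (h : Path st s g t) (h' : Path st s g t') : t = t' :=
  LW.det M.det h h'

theorem exists_exit (s : S) (g : FreeGroup E) :
    ∃ c u b, g = c * u ∧ Path st s c b ∧ Exit st b u := by
  have key : ∀ (L : List (E × Bool)) (s : S), ∃ L₁ L₂ b, L = L₁ ++ L₂ ∧ LW st s L₁ b ∧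
      ∀ l L' t, L₂ = l :: L' → ¬ st b l t := by
    intro L
    induction L with
    | nil => exact fun s => ⟨[], [], s, rfl, rfl, fun _ _ _ h => by simp at h⟩
    | cons l L ih =>
      intro s
      by_cases h : ∃ t, st s l t
      · obtain ⟨t, ht⟩ := h
        obtain ⟨L₁, L₂, b, h1, h2, h3⟩ := ih t
        exact ⟨l :: L₁, L₂, b, by rw [h1]; rfl, ⟨t, ht, h2⟩, h3⟩
      · refine ⟨[], l :: L, s, rfl, rfl, fun l' L' t e ht => h ⟨t, ?_⟩⟩
        rwa [(List.cons.inj e).1]
  obtain ⟨L₁, L₂, b, h1, h2, h3⟩ := key g.toWord s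
  refine ⟨FreeGroup.mk L₁, FreeGroup.mk L₂, b, by rw [mul_mk, ← h1, mk_toWord], M.path_mk h2,
    fun l L t e => ?_⟩
  rw [toWord_mk, (red_right (L := L₁) (h1 ▸ isReduced_toWord)).reduce_eq] at e
  exact h3 l L t e

theorem red_exit {g u : FreeGroup E} {s t : S} (h : Path st s g t) (hu : Exit st t u) :
    IsReduced (g.toWord ++ u.toWord) := by
  refine List.IsChain.append isReduced_toWord isReduced_toWord fun a ha b hb e => ?_
  obtain ⟨L, hL⟩ : ∃ L, g.toWord = L ++ [a] := ⟨_, (List.dropLast_append_getLast? a ha).symm⟩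
  obtain ⟨L', hL'⟩ : ∃ L', u.toWord = b :: L' := ⟨_, (List.cons_head?_tail hb).symm⟩
  rw [Path, hL] at h
  obtain ⟨v, -, h2⟩ := lw_append.1 h
  by_contra e'
  refine hu b L' v hL' ?_
  have := M.back _ _ _ (lw_single.1 h2)
  rwa [show (a.1, !a.2) = b from Prod.ext e (by revert e'; cases a.2 <;> cases b.2 <;> simp)]
    at this

theorem norm_exit {g u u' : FreeGroup E} {s t : S} (h : Path st s g t) (hu : Exit st s u)
    (hu' : Exit st t u') (hg : g ≠ 1) : (u⁻¹ * g * u').norm = u.norm + g.norm + u'.norm := by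
  have h1 := red_invRev (M.red_exit (M.inv h) hu)
  rw [invRev_append, toWord_inv, invRev_invRev] at h1
  have h2 := norm_mk_red (h1.append_overlap (M.red_exit h hu') (mt toWord_eq_nil_iff.1 hg))
  rw [← mul_mk, ← mul_mk, ← inv_mk, mk_toWord, mk_toWord, mk_toWord] at h2
  simpa only [List.length_append, invRev_length, ← norm_eq_length] using h2

end IsMach

end Pool.Agent.Lib.MP_429c3d_al.Hyp
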