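import Pool.Agent.Lib.MP_429c3d_al.HypBow

set_option autoImplicit false

/-! Graph metrics, midpoints, chains and combinatorial horoballs. -/

namespace Pool.Agent.Lib.MP_429c3d_al.Hyp

/-- Walks of length `n` (steps may be pauses). -/
def GW {V : Type} (adj : V → V → Prop) (n : ℕ) (x y : V) : Prop :=
  ∃ c : ℕ → V, c 0 = x ∧ c n = y ∧ ∀ i, i < n → c i = c (i + 1) ∨ adj (c i) (c (i + 1))

/-- The graph distance. -/
noncomputable def gd {V : Type} (adj : V → V → Prop) (x y : V) : ℕ := sInf {n | GW adj n x y}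

/-- Geodesic graph metrics. -/
structure IsGr {V : Type} (d : V → V → ℕ) : Prop where
  met : IsMet d
  sep : ∀ x y, d x y = 0 → x = y
  geo : IsGeo d

section Graph

variable {V : Type} {adj : V → V → Prop}

theorem GW.refl (x : V) : GW adj 0 x x := ⟨fun _ => x, rfl, rfl, fun i hi => by omega⟩

theorem GW.trans {n m : ℕ} {x y z : V} (h : GW adj n x y) (h' : GW adj m y z) :
    GW adj (n + m) x z := by
  obtain ⟨c, c0, cn, cs⟩ := h
  obtain ⟨c', c0', cn', cs'⟩ := h'
  refine ⟨fun i => if i ≤ n then c i else c' (i - n), by simp [c0], ?_, fun i hi => ?_⟩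
  · simp only
    split_ifs with e
    · rw [show m = 0 by omega] at cn' ⊢
      rw [Nat.add_zero, cn, ← c0', cn']
    · rw [Nat.add_sub_cancel_left, cn']
  · simp only
    by_cases e : i + 1 ≤ n
    · rw [if_pos e, if_pos (by omega)]
      exact cs i (by omega)
    · rw [if_neg e]
      have e1 := cs' (i - n) (by omega)
      rw [show i + 1 - n = i - n + 1 by omega]
      split_ifs with e'
      · obtain rfl : i = n := by omega
        rw [cn, ← c0']
        rwa [Nat.sub_self] at e1 ⊢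
      · exact e1

theorem GW.symm (hs : ∀ x y, adj x y → adj y x) {n : ℕ} {x y : V} (h : GW adj n x y) :
    GW adj n y x := by
  obtain ⟨c, c0, cn, cs⟩ := h
  refine ⟨fun i => c (n - i), by simp [cn], by simp [c0], fun i hi => ?_⟩
  have := cs (n - (i + 1)) (by omega)
  rw [show n - (i + 1) + 1 = n - i by omega] at this
  exact this.imp Eq.symm (hs _ _)

theorem GW.step {x y : V} (h : x = y ∨ adj x y) : GW adj 1 x y :=
  ⟨fun i => if i = 0 then x else y, by simp, by simp, fun i hi => by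
    rw [show i = 0 by omega]
    simpa using h⟩

theorem GW.sub {c : ℕ → V} {n : ℕ} (cs : ∀ i, i < n → c i = c (i + 1) ∨ adj (c i) (c (i + 1)))
    {i j : ℕ} (hij : i ≤ j) (hj : j ≤ n) : GW adj (j - i) (c i) (c j) :=
  ⟨fun t => c (i + t), rfl, by simp only; rw [show i + (j - i) = j by omega],
    fun t ht => cs (i + t) (by omega)⟩

theorem gd_le {n : ℕ} {x y : V} (h : GW adj n x y) : gd adj x y ≤ n := Nat.sInf_le h

theorem gw_gd {x y : V} (h : Relation.ReflTransGen adj x y) : GW adj (gd adj x y) x y := by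
  refine Nat.sInf_mem (s := {n | GW adj n x y}) ?_
  induction h with
  | refl => exact ⟨0, GW.refl x⟩
  | tail _ h ih =>
    obtain ⟨n, hn⟩ := ih
    exact ⟨n + 1, GW.trans hn (GW.step (Or.inr h))⟩

theorem gd_isGr (symm : ∀ x y, adj x y → adj y x)
    (conn : ∀ x y, Relation.ReflTransGen adj x y) :
    IsGr (gd adj) ∧ ∀ x y, gd adj x y ≤ 1 ↔ x = y ∨ adj x y := by
  have m : IsMet (gd adj) := by
    refine ⟨fun x => Nat.le_zero.1 (gd_le (GW.refl x)), fun x y => le_antisymm
      (gd_le ((gw_gd (conn y x)).symm symm)) (gd_le ((gw_gd (conn x y)).symm symm)),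
      fun x y z => gd_le ((gw_gd (conn x y)).trans (gw_gd (conn y z)))⟩
  have sep : ∀ x y, gd adj x y = 0 → x = y := by
    intro x y h
    obtain ⟨c, c0, cn, -⟩ := gw_gd (conn x y)
    rw [h] at cn
    rw [← c0, cn]
  refine ⟨⟨m, sep, fun x y => ?_⟩, fun x y => ⟨fun h => ?_, fun h => gd_le (GW.step h)⟩⟩
  · obtain ⟨c, c0, cn, cs⟩ := gw_gd (conn x y)
    refine ⟨c, c0, by rw [cn, m.self], geoOn_of_le m (fun i j _ h2 h3 => ?_) (by rw [c0, cn]; omega)⟩
    have := gd_le (GW.sub cs h2 h3)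
    omega
  · rcases Nat.le_one_iff_eq_zero_or_eq_one.1 h with e | e
    · exact Or.inl (sep x y e)
    · obtain ⟨c, c0, cn, cs⟩ := gw_gd (conn x y)
      rw [e] at cn cs
      have := cs 0 (by omega)
      rwa [c0, cn] at this

variable {d : V → V → ℕ}

theorem IsGr.exists_geo (G : IsGr d) (x y : V) :
    ∃ g : ℕ → V, g 0 = x ∧ g (d x y) = y ∧ GeoOn d g 0 (d x y) := by
  obtain ⟨g, g0, g1, g2⟩ := G.geo x y
  exact ⟨g, g0, G.sep _ _ g1, g2⟩

/-- Induction along geodesics. -/
theorem IsGr.induct (G : IsGr d) (x : V) {P : ℕ → V → Prop} (h0 : P 0 x)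
    (hs : ∀ n u v, d x u = n → d x v = n + 1 → d u v = 1 → P n u → P (n + 1) v) (y : V) :
    P (d x y) y := by
  obtain ⟨g, g0, g1, g2⟩ := G.exists_geo x y
  have key : ∀ i, i ≤ d x y → P i (g i) := by
    intro i
    induction i with
    | zero => exact fun _ => g0 ▸ h0
    | succ i ih =>
      intro hi
      have e1 := g2 0 i le_rfl (Nat.zero_le _) (by omega)
      have e2 := g2 0 (i + 1) le_rfl (Nat.zero_le _) hi
      have e3 := g2 i (i + 1) (Nat.zero_le _) (by omega) hi
      rw [g0] at e1 e2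
      exact hs i _ _ (by omega) (by omega) (by omega) (ih (by omega))
  have := key _ le_rfl
  rwa [g1] at this

theorem IsGeo.mid (geo : IsGeo d) (m : IsMet d) (x y : V) {s : ℕ}
    (hs : s ≤ d x y) : ∃ w, d x w = s ∧ d w y + s = d x y := by
  obtain ⟨g, g0, g1, g2⟩ := geo x y
  have e1 := g2 0 s le_rfl (Nat.zero_le _) hs
  have e2 := g2 s _ (Nat.zero_le _) hs le_rfl
  have e3 := m.tri (g s) (g (d x y)) y
  have e4 := m.tri x (g s) y
  rw [g0] at e1
  exact ⟨g s, by omega, by omega⟩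

/-- A point with small Gromov product is close to a point between `x` and `y`. -/
theorem near_mid {k : ℕ} (m : IsMet d) (h : Hyp4 d k) (geo : IsGeo d)
    (x y w : V) {c : ℕ} (hc : d w x + d w y ≤ d x y + c) :
    ∃ u, d x u + d u y = d x y ∧ 2 * d w u ≤ c + 2 * k + 1 := by
  have t1 := m.tri w x y
  have t2 := m.tri w y x
  have s1 := m.symm y x
  obtain ⟨j, hj1, hj2⟩ : ∃ j, 2 * j + d w y ≤ d x y + d w x ∧
      d x y + d w x ≤ 2 * j + d w y + 1 := ⟨(d x y + d w x - d w y) / 2, by omega, by omega⟩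
  obtain ⟨u, u1, u2⟩ := geo.mid m x y (s := j) (by omega)
  have := h w u x y
  have := m.symm u x
  exact ⟨u, by omega, by omega⟩

theorem chain_of_rtg {S : Set V} {r : ℕ} {x y : V} (hx : x ∈ S)
    (h : Relation.ReflTransGen (fun u v => v ∈ S ∧ d u v ≤ r) x y) :
    ∃ (c : ℕ → V) (n : ℕ), c 0 = x ∧ c n = y ∧ (∀ i, i ≤ n → c i ∈ S) ∧
      ∀ i, i < n → d (c i) (c (i + 1)) ≤ r := by
  induction h with
  | refl => exact ⟨fun _ => x, 0, rfl, rfl, fun _ _ => hx, fun i hi => by omega⟩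
  | @tail u v _ h ih =>
    obtain ⟨c, n, c0, cn, c1, c2⟩ := ih
    refine ⟨fun i => if i ≤ n then c i else v, n + 1, by simp [c0], by simp, fun i _ => ?_,
      fun i hi => ?_⟩
    · simp only
      split_ifs with e
      · exact c1 i e
      · exact h.1
    · simp only
      rw [if_pos (by omega)]
      split_ifs with e
      · exact c2 i (by omega)
      · rw [show i = n by omega, cn]
        exact h.2

theorem rtg_of_chain {S : Set V} {r : ℕ} {c : ℕ → V} {n : ℕ}
    (h1 : ∀ i, i ≤ n → c i ∈ S) (h2 : ∀ i, i < n → d (c i) (c (i + 1)) ≤ r) :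
    Relation.ReflTransGen (fun u v => v ∈ S ∧ d u v ≤ r) (c 0) (c n) := by
  induction n with
  | zero => exact .refl
  | succ n ih =>
    exact (ih (fun i hi => h1 i (by omega)) (fun i hi => h2 i (by omega))).tail
      ⟨h1 _ le_rfl, h2 n (by omega)⟩

end Graph

/-- `W` is a combinatorial horoball over the pseudo-metric set `L`. -/
structure Horo {W L : Type} (d : W → W → ℕ) (dn : L → L → ℕ) (pt : W → L) (dep : W → ℕ) :
    Prop where
  gr : IsGr d
  base : IsMet dn
  ext : ∀ p q, pt p = pt q → dep p = dep q → p = q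
  up : ∀ p, ∃ q, pt q = pt p ∧ dep q = dep p + 1 ∧ d p q ≤ 1
  hor : ∀ p q, dep p = dep q → 1 ≤ dep p → dn (pt p) (pt q) ≤ 2 ^ dep p → d p q ≤ 1
  edge : ∀ p q, d p q ≤ 1 → (pt p = pt q ∧ dep p ≤ dep q + 1 ∧ dep q ≤ dep p + 1) ∨
    (dep p = dep q ∧ dn (pt p) (pt q) ≤ 2 ^ dep p)

namespace Horo

variable {W L : Type} {d : W → W → ℕ} {dn : L → L → ℕ} {pt : W → L} {dep : W → ℕ}
variable (H : Horo d dn pt dep)
include H

theorem climb (p : W) (t : ℕ) : ∃ q, pt q = pt p ∧ dep q = dep p + t ∧ d p q ≤ t := by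
  induction t with
  | zero => exact ⟨p, rfl, rfl, (H.gr.met.self p).le⟩
  | succ t ih =>
    obtain ⟨q, q1, q2, q3⟩ := ih
    obtain ⟨u, u1, u2, u3⟩ := H.up q
    have := H.gr.met.tri p q u
    exact ⟨u, u1.trans q1, by omega, by omega⟩

theorem upper (p q : W) {n : ℕ} (h1 : 1 ≤ n) (hp : dep p ≤ n)
    (hq : dep q ≤ n) (h : dn (pt p) (pt q) ≤ 2 ^ n) : d p q + dep p + dep q ≤ 2 * n + 1 := by
  obtain ⟨u, u1, u2, u3⟩ := H.climb p (n - dep p)
  obtain ⟨v, v1, v2, v3⟩ := H.climb q (n - dep q)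
  have e : dep u = n := by omega
  have := H.hor u v (by omega) (by omega) (by rwa [u1, v1, e])
  have := H.gr.met.tri p u q
  have := H.gr.met.tri u v q
  have := H.gr.met.symm v q
  omega

theorem profile (p q : W) : ∃ M s, dep p ≤ M ∧ dep q ≤ M ∧ dn (pt p) (pt q) ≤ s * 2 ^ M ∧
    s + 2 * M ≤ d p q + dep p + dep q := by
  refine H.gr.induct p (P := fun n q => ∃ M s, dep p ≤ M ∧ dep q ≤ M ∧
    dn (pt p) (pt q) ≤ s * 2 ^ M ∧ s + 2 * M ≤ n + dep p + dep q)
    ⟨dep p, 0, le_rfl, le_rfl, by rw [H.base.self]; omega, by omega⟩ ?_ q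
  rintro n u v - - h ⟨M, s, a1, a2, a3, a4⟩
  rcases H.edge u v h.le with ⟨e1, e2, e3⟩ | ⟨e1, e2⟩
  · by_cases hc : dep v ≤ M
    · exact ⟨M, s, a1, hc, e1 ▸ a3, by omega⟩
    · refine ⟨M + 1, s, by omega, by omega, ?_, by omega⟩
      rw [← e1]
      exact a3.trans (Nat.mul_le_mul_left _ (Nat.pow_le_pow_right (by omega) (by omega)))
  · refine ⟨M, s + 1, a1, by omega, ?_, by omega⟩
    have := H.base.tri (pt p) (pt u) (pt v)
    have : 2 ^ dep u ≤ 2 ^ M := Nat.pow_le_pow_right (by omega) a2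
    rw [Nat.add_mul]
    omega

theorem dep_le (p q : W) : dep p ≤ dep q + d p q := by
  obtain ⟨M, s, a1, a2, -, a4⟩ := H.profile p q
  omega

theorem lower (p q : W) {n : ℕ} (h : 2 ^ n < dn (pt p) (pt q)) :
    2 * n + 1 ≤ d p q + dep p + dep q := by
  obtain ⟨M, s, a1, a2, a3, a4⟩ := H.profile p q
  by_contra hc
  have key : ∀ t s, s ≤ 2 * t → s ≤ 2 ^ t := by
    intro t s hs
    rcases t with _ | t
    · omega
    · have := Nat.lt_two_pow_self (n := t)
      rw [pow_succ]
      omega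
  have e1 := key (n - M) s (by omega)
  have e2 : s * 2 ^ M ≤ 2 ^ (n - M) * 2 ^ M := Nat.mul_le_mul_right _ e1
  rw [← pow_add, show n - M + M = n by omega] at e2
  omega

/-- The level at which two points meet. -/
theorem level : ∃ h : W → W → ℕ, (∀ p q, h p q = h q p) ∧
    (∀ p q r, h p r ≤ h p q + 1 ∨ h p r ≤ h q r + 1) ∧
    ∀ p q, d p q + dep p + dep q ≤ 2 * h p q + 1 ∧ 2 * h p q ≤ d p q + dep p + dep q + 2 := by
  have ex : ∀ p q, ∃ n, 1 ≤ n ∧ dep p ≤ n ∧ dep q ≤ n ∧ dn (pt p) (pt q) ≤ 2 ^ n := by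
    intro p q
    refine ⟨dep p + dep q + dn (pt p) (pt q) + 1, by omega, by omega, by omega, ?_⟩
    have := Nat.lt_two_pow_self (n := dep p + dep q + dn (pt p) (pt q) + 1)
    omega
  classical
  have le : ∀ p q n, 1 ≤ n → dep p ≤ n → dep q ≤ n → dn (pt p) (pt q) ≤ 2 ^ n →
      Nat.find (ex p q) ≤ n := fun p q n a b c e => Nat.find_min' _ ⟨a, b, c, e⟩
  refine ⟨fun p q => Nat.find (ex p q), fun p q => ?_, fun p q r => ?_, fun p q => ?_⟩
  · obtain ⟨a, b, c, e⟩ := Nat.find_spec (ex p q)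
    obtain ⟨a', b', c', e'⟩ := Nat.find_spec (ex q p)
    exact le_antisymm (le p q _ a' c' b' (by rwa [H.base.symm]))
      (le q p _ a c b (by rwa [H.base.symm]))
  · obtain ⟨a, b, c, e⟩ := Nat.find_spec (ex p q)
    obtain ⟨a', b', c', e'⟩ := Nat.find_spec (ex q r)
    have t := H.base.tri (pt p) (pt q) (pt r)
    simp only
    rcases le_total (Nat.find (ex p q)) (Nat.find (ex q r)) with hc | hc
    · have := Nat.pow_le_pow_right (n := 2) (by omega) hc
      exact Or.inr (le p r _ (by omega) (by omega) (by omega) (by rw [pow_succ]; omega))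
    · have := Nat.pow_le_pow_right (n := 2) (by omega) hc
      exact Or.inl (le p r _ (by omega) (by omega) (by omega) (by rw [pow_succ]; omega))
  · obtain ⟨a, b, c, e⟩ := Nat.find_spec (ex p q)
    refine ⟨H.upper p q a b c e, ?_⟩
    have d1 := H.dep_le p q
    have d2 := H.dep_le q p
    rw [H.gr.met.symm] at d2
    obtain ⟨n, hn⟩ : ∃ n, Nat.find (ex p q) = n + 1 := ⟨Nat.find (ex p q) - 1, by omega⟩
    simp only
    by_cases hc : dn (pt p) (pt q) ≤ 2 ^ n
    · by_contra hcon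
      have := le p q n (by omega) (by omega) (by omega) hc
      omega
    · have := H.lower p q (n := n) (by omega)
      omega

theorem hyp : Hyp4 d 12 := by
  obtain ⟨h, hs, ht, hd⟩ := H.level
  intro x y z w
  have key : h x y + h z w ≤ h x z + h y w + 3 ∨ h x y + h z w ≤ h x w + h y z + 3 := by
    have := ht x z y
    have := ht x w y
    have := ht z x w
    have := ht z y w
    have := hs z y
    have := hs w y
    have := hs z x
    omega
  have := hd x y
  have := hd z w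
  have := hd x z
  have := hd y w
  have := hd x w
  have := hd y z
  omega

end Horo

end Pool.Agent.Lib.MP_429c3d_al.Hyp
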