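import Pool.Agent.Lib.MP_429c3d_al.HypFree

set_option autoImplicit false
set_option linter.unusedSectionVars false

/-! Labelled graphs over a quiver, developed spaces and developing maps. -/

namespace Pool.Agent.Lib.MP_429c3d_al.Hyp

/-- A labelled graph over the quiver `Q` with darts `E`. -/
structure LGraph {Q E W : Type} (src tgt : E → Q) (rev : E → E) (d : W → W → ℕ) (π : W → Q)
    (dart : W → E → W → Prop) : Prop where
  gr : IsGr d
  ends : ∀ w e w', dart w e w' → π w = src e ∧ π w' = tgt e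
  flip : ∀ w e w', dart w e w' → dart w' (rev e) w
  le : ∀ w e w', dart w e w' → d w w' ≤ 1
  ex : ∀ w w', d w w' = 1 → ∃ e, dart w e w'

/-- Charts: labelled hyperbolic graphs that are coverings at their good points. -/
structure LAtlas {Q E I : Type} (src tgt : E → Q) (rev : E → E) {W : I → Type}
    (d : ∀ a, W a → W a → ℕ) (π : ∀ a, W a → Q) (dart : ∀ a, W a → E → W a → Prop)
    (good : ∀ a, W a → Prop) (k σ : ℕ) : Prop where
  rr : ∀ e, rev (rev e) = e
  sr : ∀ e, src (rev e) = tgt e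
  conn : ∀ q q', Relation.ReflTransGen (fun u v => ∃ e, src e = u ∧ tgt e = v) q q'
  lg : ∀ a, LGraph src tgt rev (d a) (π a) (dart a)
  hyp : ∀ a, Hyp4 (d a) k
  out : ∀ a w e, good a w → src e = π a w → ∃! w', dart a w e w'
  cover : ∀ q, ∃ a w, π a w = q ∧ ∀ z, d a w z ≤ 2 * σ → good a z
  compat : ∀ a b w w' (L : List E), π a w = π b w' → (∀ z, d b w' z ≤ σ → good b z) →
    L.length ≤ σ → LW (dart a) w L w → LW (dart b) w' L w'

/-- The developed space. -/
structure Devel {Q E X Γ : Type} [Group Γ] [MulAction Γ X] (src tgt : E → Q) (rev : E → E)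
    (dX : X → X → ℕ) (πX : X → Q) (dartX : X → E → X → Prop) (K : ℕ) : Prop where
  lg : LGraph src tgt rev dX πX dartX
  hyp : Hyp4 dX K
  out : ∀ x e, src e = πX x → ∃! x', dartX x e x'
  surj : ∀ q, ∃ x, πX x = q
  inv : ∀ (γ : Γ) x y, dX (γ • x) (γ • y) = dX x y
  free : ∀ (γ : Γ) (x : X), γ • x = x → γ = 1
  fib : ∀ x y, πX x = πX y ↔ ∃ γ : Γ, γ • x = y
  equi : ∀ (γ : Γ) x e y, dartX x e y → dartX (γ • x) e (γ • y)

/-- A developing map. -/
structure DMap {Q E W X : Type} (d : W → W → ℕ) (π : W → Q) (dart : W → E → W → Prop)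
    (good : W → Prop) (dX : X → X → ℕ) (πX : X → Q) (dartX : X → E → X → Prop) (Φ : W → X)
    (σ r : ℕ) : Prop where
  ov : ∀ w, πX (Φ w) = π w
  map : ∀ w e w', dart w e w' → dartX (Φ w) e (Φ w')
  iso : ∀ w w', (∀ z, d w z ≤ σ → good z) → d w w' ≤ r → dX (Φ w) (Φ w') = d w w'
  onto : ∀ w x, (∀ z, d w z ≤ dX (Φ w) x → good z) → ∃ w', Φ w' = x ∧ d w w' ≤ dX (Φ w) x

variable {Q E W X : Type} {src tgt : E → Q} {rev : E → E} {d : W → W → ℕ} {π : W → Q}
  {dart : W → E → W → Prop} {dX : X → X → ℕ} {πX : X → Q} {dartX : X → E → X → Prop}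

namespace LGraph

variable (L : LGraph src tgt rev d π dart)
include L

/-- Geodesic words; all points of the walk lie between the end points. -/
theorem word_in {P : W → Prop} (s t : W) (hP : ∀ v, d s v + d v t = d s t → P v) :
    ∃ l : List E, l.length = d s t ∧ LW (fun u e v => P u ∧ P v ∧ dart u e v) s l t := by
  have m := L.gr.met
  refine L.gr.induct s (P := fun n v => d s v + d v t = d s t → ∃ l : List E, l.length = n ∧
    LW (fun u e v => P u ∧ P v ∧ dart u e v) s l v) (fun _ => ⟨[], rfl, rfl⟩) ?_ t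
    (by rw [m.self]; rfl)
  intro n u v h1 h2 h3 ih hv
  have := m.tri u v t
  have := m.tri s u t
  obtain ⟨l, l1, l2⟩ := ih (by omega)
  obtain ⟨e, he⟩ := L.ex u v h3
  exact ⟨l ++ [e], by simp [l1], l2.append (lw_single.2 ⟨hP u (by omega), hP v hv, he⟩)⟩

theorem word (s t : W) : ∃ l : List E, l.length = d s t ∧ LW dart s l t := by
  obtain ⟨l, l1, l2⟩ := L.word_in (P := fun _ => True) s t fun _ _ => trivial
  exact ⟨l, l1, l2.map' id fun _ _ _ h => h.2.2⟩

theorem lw_le {w w' : W} {l : List E} (h : LW dart w l w') : d w w' ≤ l.length :=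
  h.le L.gr.met L.le

theorem lw_rev {w w' : W} {l : List E} (h : LW dart w l w') :
    LW dart w' (l.map rev).reverse w := h.rev rev L.flip

/-- Lifting a walk of another labelled graph through good points. -/
theorem lift (L' : LGraph src tgt rev dX πX dartX) {good : W → Prop}
    (out : ∀ w e, good w → src e = π w → ∃! w', dart w e w') {l : List E} {x x' : X} {w : W}
    (h : LW dartX x l x') (hw : πX x = π w) (hg : ∀ z, d w z ≤ l.length → good z) :
    ∃ w', LW dart w l w' ∧ πX x' = π w' := by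
  induction l generalizing x w with
  | nil => exact ⟨w, rfl, by rwa [← show x = x' from h]⟩
  | cons e l ih =>
    obtain ⟨y, h1, h2⟩ := h
    obtain ⟨u, hu, -⟩ := out w e (hg w (by rw [L.gr.met.self]; omega))
      ((L'.ends _ _ _ h1).1.symm.trans hw)
    obtain ⟨w', a1, a2⟩ := ih h2 (w := u) ((L'.ends _ _ _ h1).2.trans (L.ends _ _ _ hu).2.symm)
      fun z hz => hg z (by
        have := L.le _ _ _ hu
        have := L.gr.met.tri w u z
        simp only [List.length_cons]
        omega)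
    exact ⟨w', ⟨u, hu, a1⟩, a2⟩

theorem det {good : W → Prop} (out : ∀ w e, good w → src e = π w → ∃! w', dart w e w')
    {l : List E} {w u u' : W} (h : LW dart w l u) (h' : LW dart w l u')
    (hg : ∀ z, d w z ≤ l.length → good z) : u = u' := by
  induction l generalizing w with
  | nil => exact h.symm.trans h'
  | cons e l ih =>
    obtain ⟨v, h1, h2⟩ := h
    obtain ⟨v', h1', h2'⟩ := h'
    obtain rfl := (out w e (hg w (by rw [L.gr.met.self]; omega))
      (L.ends _ _ _ h1).1.symm).unique h1 h1'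
    refine ih h2 h2' fun z hz => hg z ?_
    have := L.le _ _ _ h1
    have := L.gr.met.tri w v z
    simp only [List.length_cons]
    omega

end LGraph

theorem rev_rev (rr : ∀ e, rev (rev e) = e) (l : List E) :
    ((l.map rev).reverse.map rev).reverse = l := by
  simp [List.map_reverse, Function.comp_def, rr]

namespace Devel

variable {Γ : Type} [Group Γ] [MulAction Γ X] {K : ℕ}
  (D : Devel (Γ := Γ) src tgt rev dX πX dartX K)
include D

theorem det {l : List E} {x y y' : X} (h : LW dartX x l y) (h' : LW dartX x l y') : y = y' :=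
  D.lg.det (good := fun _ => True) (fun x e _ h => D.out x e h) h h' fun _ _ => trivial

theorem lift (L : LGraph src tgt rev d π dart) {l : List E} {w w' : W} {x : X}
    (h : LW dart w l w') (hx : π w = πX x) : ∃ x', LW dartX x l x' ∧ π w' = πX x' :=
  D.lg.lift L (good := fun _ => True) (fun x e _ h => D.out x e h) h hx fun _ _ => trivial

/-- The homomorphism to the deck group. -/
theorem exists_theta {G : Type} [Group G] [MulAction G W] (L : LGraph src tgt rev d π dart)
    {Φ : W → X} (h1 : ∀ w, πX (Φ w) = π w) (h2 : ∀ w e w', dart w e w' → dartX (Φ w) e (Φ w'))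
    (g1 : ∀ (g : G) w, π (g • w) = π w)
    (g2 : ∀ (g : G) w e w', dart w e w' → dart (g • w) e (g • w')) (w₀ : W) :
    ∃ θ : G →* Γ, ∀ g w, Φ (g • w) = θ g • Φ w := by
  have ex : ∀ g : G, ∃ γ : Γ, ∀ w, Φ (g • w) = γ • Φ w := by
    intro g
    obtain ⟨γ, hγ⟩ := (D.fib (Φ w₀) (Φ (g • w₀))).1 (by rw [h1, h1, g1])
    refine ⟨γ, fun w => ?_⟩
    obtain ⟨l, -, hl⟩ := L.word w₀ w
    have a1 := (hl.map' (g • ·) (g2 g)).map' Φ h2
    have a2 := (hl.map' Φ h2).map' (γ • ·) (D.equi γ)
    exact D.det a1 (hγ ▸ a2)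
  choose θ hθ using ex
  refine ⟨MonoidHom.mk' θ fun g g' => ?_, hθ⟩
  have e := hθ (g * g') w₀
  rw [mul_smul, hθ, hθ, ← mul_smul] at e
  have := D.free ((θ g * θ g')⁻¹ * θ (g * g')) (Φ w₀) (by rw [mul_smul, ← e, inv_smul_smul])
  exact (inv_mul_eq_one.1 this).symm

/-- Developing maps exist when short closed walks lift to closed walks. -/
theorem exists_map (rr : ∀ e, rev (rev e) = e) (L : LGraph src tgt rev d π dart) {k : ℕ}
    (hyp : Hyp4 d k) (null : ∀ w x (l : List E), π w = πX x → l.length ≤ 12 * k + 12 →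
      LW dart w l w → LW dartX x l x) (w₀ : W) (x₀ : X) (h₀ : πX x₀ = π w₀) :
    ∃ Φ : W → X, Φ w₀ = x₀ ∧ (∀ w, πX (Φ w) = π w) ∧
      ∀ w e w', dart w e w' → dartX (Φ w) e (Φ w') := by
  have m := L.gr.met
  let R : W → X → Prop := fun w x => π w = πX x ∧
    ∃ l : List E, l.length = d w₀ w ∧ LW dart w₀ l w ∧ LW dartX x₀ l x
  have split : ∀ w x b, R w x → b ≤ d w₀ w → ∃ u y, ∃ l : List E, R u y ∧ d w₀ u = b ∧
      d u w + b = d w₀ w ∧ l.length + b = d w₀ w ∧ LW dart u l w ∧ LW dartX y l x := by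
    rintro w x b ⟨-, l, l1, l2, l3⟩ hb
    rw [← List.take_append_drop b l] at l2 l3
    obtain ⟨u, u1, u2⟩ := lw_append.1 l2
    obtain ⟨y, y1, y2⟩ := lw_append.1 l3
    obtain ⟨y', y3, y4⟩ := D.lift L u1 h₀.symm
    obtain rfl := D.det y1 y3
    have e1 := L.lw_le u1
    have e2 := L.lw_le u2
    have e3 := m.tri w₀ u w
    simp only [List.length_take, List.length_drop] at e1 e2
    exact ⟨u, y, l.drop b, ⟨y4, l.take b, by simp only [List.length_take]; omega, u1, y1⟩,
      by omega, by omega, by simp only [List.length_drop]; omega, u2, y2⟩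
  have zero : ∀ w x, R w x → d w₀ w = 0 → w = w₀ ∧ x = x₀ := by
    rintro w x ⟨-, l, l1, l2, l3⟩ h
    obtain rfl := List.length_eq_zero_iff.1 (l1.trans h)
    exact ⟨l2.symm, l3.symm⟩
  have key : ∀ n w w' x x' (M : List E), d w₀ w ≤ n → R w x → R w' x' → M.length ≤ 2 * k + 2 →
      LW dart w M w' → LW dartX x M x' := by
    intro n
    induction n using Nat.strong_induction_on with
    | _ n ih =>
    intro w w' x x' M hn r1 r2 hM hw
    have e0 := L.lw_le hw
    have t1 := m.tri w₀ w w'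
    have t2 := m.tri w₀ w' w
    have s1 := m.symm w w'
    obtain ⟨b, hb⟩ : ∃ b, b = min (d w₀ w) (d w₀ w') - (2 * k + 2) := ⟨_, rfl⟩
    obtain ⟨u, y, A, a1, a2, a3, a4, a5, a6⟩ := split w x b r1 (by omega)
    obtain ⟨u', y', B, b1, b2, b3, b4, b5, b6⟩ := split w' x' b r2 (by omega)
    obtain ⟨M₀, c1, c2, c3⟩ : ∃ M₀ : List E, M₀.length ≤ 2 * k + 2 ∧ LW dart u M₀ u' ∧
        LW dartX y M₀ y' := by
      by_cases e : b = 0
      · obtain ⟨rfl, rfl⟩ := zero u y a1 (by omega)
        obtain ⟨rfl, rfl⟩ := zero u' y' b1 (by omega)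
        exact ⟨[], by simp, rfl, rfl⟩
      · have := sync_le m hyp a2 b2 (z := w) (z' := w') (by omega) (by omega) (by omega)
        obtain ⟨M₀, c1, c2⟩ := L.word u u'
        exact ⟨M₀, by omega, c2, ih (d w₀ u) (by omega) u u' y y' M₀ le_rfl a1 b1 (by omega) c2⟩
    have cl := null u y (A ++ (M ++ ((B.map rev).reverse ++ (M₀.map rev).reverse))) a1.1 (by
      simp only [List.length_append, List.length_reverse, List.length_map]
      omega) (a5.append (hw.append ((L.lw_rev b5).append (L.lw_rev c2))))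
    obtain ⟨x₁, f1, f2⟩ := lw_append.1 cl
    obtain ⟨z, f3, f4⟩ := lw_append.1 f2
    obtain ⟨z', f5, f6⟩ := lw_append.1 f4
    have f7 := D.lg.lw_rev f5
    have f8 := D.lg.lw_rev f6
    rw [rev_rev rr] at f7 f8
    obtain rfl := D.det f1 a6
    obtain rfl := D.det f8 c3
    rwa [D.det f7 b6] at f3
  have ex : ∀ w, ∃ x, R w x := fun w => by
    obtain ⟨l, l1, l2⟩ := L.word w₀ w
    obtain ⟨x, x1, x2⟩ := D.lift L l2 h₀.symm
    exact ⟨x, x2, l, l1, l2, x1⟩
  choose Φ hΦ using ex
  exact ⟨Φ, (zero _ _ (hΦ w₀) (m.self _)).2, fun w => (hΦ w).1.symm, fun w e w' h =>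
    lw_single.1 (key _ w w' _ _ [e] le_rfl (hΦ w) (hΦ w') (by simp) (lw_single.2 h))⟩

theorem dmap (rr : ∀ e, rev (rev e) = e) (L : LGraph src tgt rev d π dart) {good : W → Prop}
    (out : ∀ w e, good w → src e = π w → ∃! w', dart w e w') {σ r : ℕ} (hr : r ≤ σ)
    (short : ∀ w x (l : List E), π w = πX x → (∀ z, d w z ≤ σ → good z) → l.length ≤ 2 * r →
      LW dartX x l x → LW dart w l w) {Φ : W → X} (h1 : ∀ w, πX (Φ w) = π w)
    (h2 : ∀ w e w', dart w e w' → dartX (Φ w) e (Φ w')) :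
    DMap d π dart good dX πX dartX Φ σ r := by
  refine ⟨h1, h2, fun w w' hg hd => ?_, fun w x hg => ?_⟩
  · obtain ⟨l, l1, l2⟩ := L.word w w'
    obtain ⟨l', l1', l2'⟩ := D.lg.word (Φ w) (Φ w')
    have e1 := D.lg.lw_le (l2.map' Φ h2)
    obtain ⟨t, t1, t2⟩ := lw_append.1 (short w _ (l' ++ (l.map rev).reverse) (h1 w).symm hg (by
      simp only [List.length_append, List.length_reverse, List.length_map]
      omega)
      (l2'.append (D.lg.lw_rev (l2.map' Φ h2))))
    have t3 := L.lw_rev t2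
    rw [rev_rev rr] at t3
    obtain rfl := L.det out t3 l2 fun z hz => hg z (by omega)
    have := L.lw_le t1
    omega
  · obtain ⟨l, l1, l2⟩ := D.lg.word (Φ w) x
    obtain ⟨w', a1, -⟩ := L.lift D.lg out l2 (h1 w) (by rwa [l1])
    exact ⟨w', D.det (a1.map' Φ h2) l2, l1 ▸ L.lw_le a1⟩

end Devel

end Pool.Agent.Lib.MP_429c3d_al.Hyp
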