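import Pool.Agent.Lib.MP_429c3d_al.HypFree

set_option autoImplicit false
set_option linter.unusedSectionVars false

/-! The tree of reduced paths of a machine and the coverings given by smaller machines. -/

namespace Pool.Agent.Lib.MP_429c3d_al.Hyp

open FreeGroup

variable {E Q S : Type} [DecidableEq E] {sq : Q → E × Bool → Q → Prop}
  {st : S → E × Bool → S → Prop}

/-- Reduced paths from the base state. -/
def PV (sq : Q → E × Bool → Q → Prop) (q₀ : Q) : Type := {g : FreeGroup E // ∃ q, Path sq q₀ g q}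

/-- Reduced loops at the base state. -/
def PF (MQ : IsMach sq) (q₀ : Q) : Subgroup (FreeGroup E) where
  carrier := {f | Path sq q₀ f q₀}
  mul_mem' := fun h h' => MQ.mul h h'
  one_mem' := path_one (st := sq) q₀
  inv_mem' := fun h => MQ.inv h

instance (MQ : IsMach sq) (q₀ : Q) : MulAction (PF MQ q₀) (PV sq q₀) where
  smul f x := ⟨f.1 * x.1, x.2.imp fun _ h => MQ.mul f.2 h⟩
  one_smul x := Subtype.ext (one_mul x.1)
  mul_smul f g x := Subtype.ext (mul_assoc f.1 g.1 x.1)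

variable {MQ : IsMach sq} {q₀ : Q}

theorem smul_val (f : PF MQ q₀) (x : PV sq q₀) : (f • x).1 = f.1 * x.1 := rfl

/-- The tree distance. -/
def pd (x y : PV sq q₀) : ℕ := (x.1⁻¹ * y.1).norm

/-- The end state of a path. -/
noncomputable def en (x : PV sq q₀) : Q := x.2.choose

theorem en_spec (x : PV sq q₀) : Path sq q₀ x.1 (en x) := x.2.choose_spec

theorem pd_met : IsMet (pd (sq := sq) (q₀ := q₀)) :=
  ⟨fun x => by simp [pd], fun x y => norm_symm x.1 y.1, fun x y z => norm_tri x.1 y.1 z.1⟩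

theorem pd_sep (x y : PV sq q₀) (h : pd x y = 0) : x = y :=
  Subtype.ext (inv_mul_eq_one.1 (norm_eq_zero.1 h))

theorem pd_hyp : Hyp4 (pd (sq := sq) (q₀ := q₀)) 0 := fun x y z w => norm_hyp4 x.1 y.1 z.1 w.1

theorem pd_inv (f : PF MQ q₀) (x y : PV sq q₀) : pd (f • x) (f • y) = pd x y := by
  simp [pd, smul_val, mul_assoc]

theorem path_between (MQ : IsMach sq) (x y : PV sq q₀) : Path sq (en x) (x.1⁻¹ * y.1) (en y) :=
  MQ.mul (MQ.inv (en_spec x)) (en_spec y)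

theorem en_smul (f : PF MQ q₀) (x : PV sq q₀) : en (f • x) = en x :=
  MQ.pdet (en_spec (f • x)) (MQ.mul f.2 (en_spec x))

/-- Extending a path. -/
theorem exists_ext (MQ : IsMach sq) (x : PV sq q₀) {g : FreeGroup E} {q : Q}
    (h : Path sq (en x) g q) : ∃ y : PV sq q₀, y.1 = x.1 * g ∧ en y = q :=
  ⟨⟨x.1 * g, q, MQ.mul (en_spec x) h⟩, rfl, MQ.pdet (en_spec _) (MQ.mul (en_spec x) h)⟩

theorem exists_loop (MQ : IsMach sq) {x y : PV sq q₀} (h : en x = en y) :
    ∃ f : PF MQ q₀, f • x = y :=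
  ⟨⟨y.1 * x.1⁻¹, MQ.mul (en_spec y) (h ▸ MQ.inv (en_spec x))⟩,
    Subtype.ext (by simp [smul_val])⟩

theorem pd_geo (MQ : IsMach sq) : IsGeo (pd (sq := sq) (q₀ := q₀)) := by
  refine isGeo_of_step pd_met fun x y n h => ?_
  have hp := path_between MQ x y
  rw [pd, norm_eq_length] at h
  obtain ⟨l, L, hL⟩ := List.exists_cons_of_length_eq_add_one h
  rw [Path, hL] at hp
  obtain ⟨q, h1, -⟩ := hp
  obtain ⟨z, z1, -⟩ := exists_ext MQ x (MQ.path_mk (lw_single.2 h1))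
  refine ⟨z, ?_, ?_⟩
  · rw [pd, z1, inv_mul_cancel_left]
    exact norm_mk_le
  · have e : z.1⁻¹ * y.1 = FreeGroup.mk L := by
      rw [z1, mul_inv_rev, mul_assoc, ← mk_toWord (x := x.1⁻¹ * y.1), hL, inv_mul_eq_iff_eq_mul,
        mul_mk]
      rfl
    rw [hL] at h
    have := norm_mk_le (L₁ := L)
    simp only [List.length_cons] at h
    rw [pd, e]
    omega

/-- The loops that close up in a smaller machine. -/
def CN (MQ : IsMach sq) (M : IsMach st) (s₀ : S) (x : PV sq q₀) : Subgroup (PF MQ q₀) where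
  carrier := {f | Path st s₀ (x.1⁻¹ * f.1 * x.1) s₀}
  mul_mem' := fun {f g} h h' => by
    have := M.mul h h'
    simpa [mul_assoc] using this
  one_mem' := by simpa using path_one s₀
  inv_mem' := fun {f} h => by
    have := M.inv h
    simpa [mul_assoc] using this

theorem mem_CN {M : IsMach st} {s₀ : S} {x : PV sq q₀} {f : PF MQ q₀} :
    f ∈ CN MQ M s₀ x ↔ Path st s₀ (x.1⁻¹ * f.1 * x.1) s₀ := Iff.rfl

theorem four_cases {m : ℕ → ℕ → ℕ} {t D : ℕ → ℕ → ℕ} {h : ℕ → ℕ} {κ : ℕ}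
    (c : ∀ i j, (m i j = 0 ∧ D i j = t i j) ∨ (1 ≤ m i j ∧ D i j = h i + m i j + h j))
    (ms : ∀ i j, m i j = m j i) (mt : ∀ i j l, m i l ≤ m i j + m j l)
    (mh : m 0 1 + m 2 3 ≤ m 0 2 + m 1 3 + κ ∨ m 0 1 + m 2 3 ≤ m 0 3 + m 1 2 + κ)
    (ts : ∀ i j, t i j = t j i) (tt : ∀ i j, t i j ≤ h i + h j)
    (t3 : ∀ i j l, t i j + h l ≤ t i l + h j ∨ t i j + h l ≤ h i + t j l)
    (t4 : t 0 1 + t 2 3 ≤ t 0 2 + t 1 3 ∨ t 0 1 + t 2 3 ≤ t 0 3 + t 1 2) :
    D 0 1 + D 2 3 ≤ D 0 2 + D 1 3 + κ ∨ D 0 1 + D 2 3 ≤ D 0 3 + D 1 2 + κ := by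
  have a1 := mt 0 1 2
  have a2 := mt 0 1 3
  have a3 := mt 0 2 3
  have a4 := mt 1 2 3
  have a5 := mt 1 0 2
  have a6 := mt 1 0 3
  have a7 := mt 2 0 3
  have a8 := mt 2 1 3
  have a9 := mt 0 2 1
  have a10 := mt 0 3 1
  have a11 := mt 0 3 2
  have a12 := mt 1 3 2
  rw [ms 1 0] at a5 a6
  rw [ms 2 0] at a7
  rw [ms 2 1] at a8 a9
  rw [ms 3 1] at a10
  rw [ms 3 2] at a11 a12
  have b1 := tt 0 1
  have b2 := tt 2 3
  rcases c 0 1 with c1 | c1 <;> rcases c 2 3 with c2 | c2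
  · rcases c 0 2 with c3 | c3
    · have := c 1 3
      have := c 0 3
      have := c 1 2
      omega
    · have := c 1 3
      omega
  · have := t3 0 1 2
    have := t3 0 1 3
    have := c 0 2
    have := c 1 3
    have := c 0 3
    have := c 1 2
    omega
  · have e1 := t3 2 3 0
    have e2 := t3 2 3 1
    rw [ts 2 0, ts 3 0] at e1
    rw [ts 2 1, ts 3 1] at e2
    have := c 0 2
    have := c 1 3
    have := c 0 3
    have := c 1 2
    omega
  · have := c 0 2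
    have := c 1 3
    have := c 0 3
    have := c 1 2
    omega

theorem hyp_CN (M : IsMach st) {π : S → Q} (mor : ∀ s l t, st s l t → sq (π s) l (π t)) {s₀ : S}
    {x : PV sq q₀} (hx : π s₀ = en x) {dS : S → S → ℕ} {k c : ℕ} (m : IsMet dS) (hS : Hyp4 dS k)
    (le : ∀ s l t, st s l t → dS s t ≤ 1)
    (up : ∀ s t g g', Path st s₀ g s → Path st s₀ g' t →
      ∃ L, LW st s L t ∧ L.length ≤ dS s t + c) :
    Hyp4 (qd (pd (sq := sq) (q₀ := q₀)) (CN MQ M s₀ x)) (k + 2 * c) := by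
  choose a u b h1 h2 h3 using fun y : PV sq q₀ => M.exists_exit s₀ (x.1⁻¹ * y.1)
  have hy : ∀ y, y.1 = x.1 * a y * u y := fun y => by rw [mul_assoc, ← h1, mul_inv_cancel_left]
  let μ : PV sq q₀ → PV sq q₀ → ℕ := fun y z => sInf {n | ∃ g, Path st (b y) g (b z) ∧ g.norm = n}
  have μle : ∀ y z g, Path st (b y) g (b z) → μ y z ≤ g.norm := fun y z g h =>
    Nat.sInf_le ⟨g, h, rfl⟩
  have μex : ∀ y z, ∃ g, Path st (b y) g (b z) ∧ g.norm = μ y z := fun y z =>
    Nat.sInf_mem (s := {n | ∃ g, Path st (b y) g (b z) ∧ g.norm = n})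
      ⟨_, _, M.mul (M.inv (h2 y)) (h2 z), rfl⟩
  have μs : ∀ y z, μ y z = μ z y := by
    have key : ∀ y z, μ y z ≤ μ z y := fun y z => by
      obtain ⟨g, g1, g2⟩ := μex z y
      have := μle y z _ (M.inv g1)
      rwa [norm_inv_eq, g2] at this
    exact fun y z => le_antisymm (key y z) (key z y)
  have μt : ∀ y z w, μ y w ≤ μ y z + μ z w := fun y z w => by
    obtain ⟨g, g1, g2⟩ := μex y z
    obtain ⟨g', g1', g2'⟩ := μex z w
    have := μle y w _ (M.mul g1 g1')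
    have := norm_mul_le g g'
    omega
  have μd : ∀ y z, dS (b y) (b z) ≤ μ y z ∧ μ y z ≤ dS (b y) (b z) + c := fun y z => by
    obtain ⟨g, g1, g2⟩ := μex y z
    obtain ⟨L, l1, l2⟩ := up _ _ _ _ (h2 y) (h2 z)
    have := LW.le m le g1
    have := μle y z _ (M.path_mk l1)
    have := norm_mk_le (L₁ := L)
    rw [norm_eq_length] at g2
    omega
  have dle : ∀ y z g, Path st (b y) g (b z) →
      qd pd (CN MQ M s₀ x) y z ≤ ((u y)⁻¹ * g * u z).norm := by
    intro y z g hg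
    have p1 := M.mul (M.mul (h2 y) hg) (M.inv (h2 z))
    have p2 : Path sq (π s₀) (a y * g * (a z)⁻¹) (π s₀) := LW.map' π mor p1
    rw [hx] at p2
    have := qd_le (d := pd) (H := CN MQ M s₀ x) (f := ⟨x.1 * (a y * g * (a z)⁻¹) * x.1⁻¹,
      MQ.mul (MQ.mul (en_spec x) p2) (MQ.inv (en_spec x))⟩)
      (mem_CN.2 (by simpa [mul_assoc] using p1)) y z
    refine this.trans (le_of_eq ?_)
    rw [pd, smul_val, hy y, hy z]
    congr 1
    group
  have dex : ∀ y z, ∃ g, Path st (b y) g (b z) ∧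
      qd pd (CN MQ M s₀ x) y z = ((u y)⁻¹ * g * u z).norm := by
    intro y z
    obtain ⟨f, hf, e⟩ := exists_qd pd (CN MQ M s₀ x) y z
    refine ⟨_, M.mul (M.mul (M.inv (h2 y)) (mem_CN.1 hf)) (h2 z), ?_⟩
    rw [← e, pd, smul_val]
    conv_lhs => rw [hy y, hy z]
    congr 1
    group
  have tt : ∀ y z, ((u y)⁻¹ * u z).norm ≤ (u y).norm + (u z).norm := fun y z => by
    have := norm_mul_le (u y)⁻¹ (u z)
    rwa [norm_inv_eq] at this
  have form : ∀ y z, (μ y z = 0 ∧ qd pd (CN MQ M s₀ x) y z = ((u y)⁻¹ * u z).norm) ∨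
      (1 ≤ μ y z ∧ qd pd (CN MQ M s₀ x) y z = (u y).norm + μ y z + (u z).norm) := by
    intro y z
    obtain ⟨g, g1, g2⟩ := μex y z
    obtain ⟨g', g1', g2'⟩ := dex y z
    have e1 := dle y z g g1
    have e2 := μle y z g' g1'
    have e3 := tt y z
    by_cases e : g = 1
    · rw [e, FreeGroup.norm_one] at g2
      rw [e, mul_one] at e1
      refine Or.inl ⟨g2.symm, le_antisymm e1 ?_⟩
      by_cases e' : g' = 1
      · rw [g2', e', mul_one]
      · rw [g2', M.norm_exit g1' (h3 y) (h3 z) e']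
        omega
    · have e4 : g.norm ≠ 0 := mt norm_eq_zero.1 e
      rw [M.norm_exit g1 (h3 y) (h3 z) e] at e1
      have e' : g' ≠ 1 := fun e' => by
        rw [e', FreeGroup.norm_one] at e2
        omega
      rw [M.norm_exit g1' (h3 y) (h3 z) e'] at g2'
      exact Or.inr ⟨by omega, by omega⟩
  intro y₀ y₁ y₂ y₃
  let p : ℕ → PV sq q₀ := fun i => [y₀, y₁, y₂].getD i y₃
  refine four_cases (m := fun i j => μ (p i) (p j)) (t := fun i j => ((u (p i))⁻¹ * u (p j)).norm)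
    (D := fun i j => qd pd (CN MQ M s₀ x) (p i) (p j)) (h := fun i => (u (p i)).norm)
    (fun i j => form _ _) (fun i j => μs _ _) (fun i j l => μt _ _ _) ?_
    (fun i j => norm_symm _ _) (fun i j => tt _ _) (fun i j l => norm_hyp _ _ _)
    (norm_hyp4 _ _ _ _)
  have := hS (b (p 0)) (b (p 1)) (b (p 2)) (b (p 3))
  have := μd (p 0) (p 1)
  have := μd (p 2) (p 3)
  have := μd (p 0) (p 2)
  have := μd (p 1) (p 3)
  have := μd (p 0) (p 3)
  have := μd (p 1) (p 2)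
  omega

end Pool.Agent.Lib.MP_429c3d_al.Hyp
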