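import Pool.Agent.Lib.MP_429c3d_al.HypLab
import Pool.Agent.Lib.MP_429c3d_al.HypTree
import Pool.Agent.Lib.MP_429c3d_al.HypCH

set_option autoImplicit false
set_option linter.unusedSectionVars false

/-! The atlas of coverings attached to labelled charts. -/

namespace Pool.Agent.Lib.MP_429c3d_al.Hyp

open FreeGroup

variable {Q E : Type} [DecidableEq E] {src tgt : E → Q} {rev : E → E}

/-- The dart of a letter. -/
def lab (rev : E → E) (l : E × Bool) : E := cond l.2 l.1 (rev l.1)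

/-- The machine of the quiver. -/
def stQ (src tgt : E → Q) (rev : E → E) (q : Q) (l : E × Bool) (q' : Q) : Prop :=
  src (lab rev l) = q ∧ tgt (lab rev l) = q'

/-- The machine of a ball. -/
def stB {W : Type} (d : W → W → ℕ) (dart : W → E → W → Prop) (rev : E → E) (w : W) (R : ℕ)
    (s : W) (l : E × Bool) (t : W) : Prop := d w s ≤ R ∧ d w t ≤ R ∧ dart s (lab rev l) t

theorem lab_back (rr : ∀ e, rev (rev e) = e) (l : E × Bool) :
    lab rev (l.1, !l.2) = rev (lab rev l) := by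
  rcases l with ⟨e, _ | _⟩ <;> simp [lab, rr]

theorem map_lab (l : List E) : (l.map (·, true)).map (lab rev) = l := by
  simp [Function.comp_def, lab]

theorem machQ (rr : ∀ e, rev (rev e) = e) (sr : ∀ e, src (rev e) = tgt e) :
    IsMach (stQ src tgt rev) := by
  refine ⟨fun s l t t' h h' => h.2.symm.trans h'.2, fun s l t h => ?_⟩
  rw [stQ, lab_back rr, sr, ← sr (rev _), rr]
  exact ⟨h.2, h.1⟩

namespace LGraph

variable {W : Type} {d : W → W → ℕ} {π : W → Q} {dart : W → E → W → Prop}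
  (L : LGraph src tgt rev d π dart) {good : W → Prop} {w : W} {R : ℕ}
include L

theorem machB (rr : ∀ e, rev (rev e) = e)
    (out : ∀ w e, good w → src e = π w → ∃! w', dart w e w') (hg : ∀ z, d w z ≤ R → good z) :
    IsMach (stB d dart rev w R) :=
  ⟨fun s _ _ _ h h' => (out s _ (hg s h.1) (L.ends _ _ _ h.2.2).1.symm).unique h.2.2 h'.2.2,
    fun _ l _ h => ⟨h.2.1, h.1, lab_back rr l ▸ L.flip _ _ _ h.2.2⟩⟩

theorem morB (s : W) (l : E × Bool) (t : W) (h : stB d dart rev w R s l t) :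
    stQ src tgt rev (π s) l (π t) :=
  ⟨(L.ends _ _ _ h.2.2).1.symm, (L.ends _ _ _ h.2.2).2.symm⟩

theorem lw_of_stB {s t : W} {l : List (E × Bool)} (h : LW (stB d dart rev w R) s l t) :
    LW dart s (l.map (lab rev)) t := h.map id (lab rev) fun _ _ _ h => h.2.2

theorem stB_of_lw {s t : W} {l : List (E × Bool)} (h : LW dart s (l.map (lab rev)) t)
    (hs : d w s + l.length ≤ R) : LW (stB d dart rev w R) s l t := by
  induction l generalizing s with
  | nil => exact h
  | cons e l ih =>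
    obtain ⟨u, h1, h2⟩ := h
    have := L.le _ _ _ h1
    have := L.gr.met.tri w s u
    simp only [List.length_cons] at hs
    exact ⟨u, ⟨by omega, by omega, h1⟩, ih h2 (by omega)⟩

theorem mem_of_stB {s t : W} {l : List (E × Bool)} (h : LW (stB d dart rev w R) s l t)
    (hs : d w s ≤ R) : d w t ≤ R := by
  induction l generalizing s with
  | nil => rwa [← show s = t from h]
  | cons e l ih =>
    obtain ⟨u, h1, h2⟩ := h
    exact ih h2 h1.2.1

theorem liftB (out : ∀ w e, good w → src e = π w → ∃! w', dart w e w')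
    (hg : ∀ z, d w z ≤ R → good z) {l : List (E × Bool)} {s : W} {q : Q}
    (h : LW (stQ src tgt rev) (π s) l q) (hs : d w s + l.length ≤ R) :
    ∃ t, LW (stB d dart rev w R) s l t := by
  induction l generalizing s with
  | nil => exact ⟨s, rfl⟩
  | cons e l ih =>
    obtain ⟨q', h1, h2⟩ := h
    simp only [List.length_cons] at hs
    obtain ⟨u, hu, -⟩ := out s _ (hg s (by omega)) h1.1
    have := L.le _ _ _ hu
    have := L.gr.met.tri w s u
    obtain ⟨t, ht⟩ := ih (s := u) (by rwa [(L.ends _ _ _ hu).2, h1.2]) (by omega)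
    exact ⟨t, u, ⟨by omega, by omega, hu⟩, ht⟩

theorem upB {k : ℕ} (hyp : Hyp4 d k) {s t : W} (hs : d w s ≤ R) (ht : d w t ≤ R) :
    ∃ l, LW (stB d dart rev w R) s l t ∧ l.length ≤ d s t + 4 * k := by
  have m := L.gr.met
  have seg : ∀ s t, (∀ v, d s v + d v t = d s t → d w v ≤ R) →
      ∃ l, LW (stB d dart rev w R) s l t ∧ l.length = d s t := by
    intro s t h
    obtain ⟨l, l1, l2⟩ := L.word_in (P := fun v => d w v ≤ R) s t h
    exact ⟨_, l2.map id (·, true) fun _ _ _ h => h, by simpa using l1⟩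
  have inward : ∀ s, d w s ≤ R → ∃ a, d s a ≤ k ∧ (d w a = 0 ∨ d w a + k ≤ R) ∧
      ∀ v, (d s v + d v a = d s a ∨ d a v + d v s = d a s) → d w v ≤ R := by
    intro s hs
    obtain ⟨a, a1, a2⟩ := L.gr.geo.mid m w s (s := d w s - k) (by omega)
    have := m.symm a s
    refine ⟨a, by omega, by omega, fun v hv => ?_⟩
    have := m.tri w a v
    have := m.symm a v
    omega
  obtain ⟨a, a1, a2, a3⟩ := inward s hs
  obtain ⟨b, b1, b2, b3⟩ := inward t ht
  obtain ⟨l₁, c1, c2⟩ := seg s a fun v hv => a3 v (Or.inl hv)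
  obtain ⟨l₃, f1, f2⟩ := seg b t fun v hv => b3 v (Or.inr hv)
  obtain ⟨l₂, e1, e2⟩ := seg a b fun v hv => by
    have := hyp w v a b
    have := m.tri w a v
    have := m.tri w b v
    have := m.symm v a
    have := m.symm v b
    have := m.tri a w b
    have := m.symm a w
    have := m.tri a w v
    have := m.tri v w b
    have := m.symm v w
    omega
  refine ⟨_, c1.append (e1.append f1), ?_⟩
  have := m.tri a s b
  have := m.tri s t b
  have := m.symm a s
  have := m.symm b t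
  simp only [List.length_append]
  omega

end LGraph

variable {I : Type} {W : I → Type} {d : ∀ a, W a → W a → ℕ} {π : ∀ a, W a → Q}
  {dart : ∀ a, W a → E → W a → Prop} {good : ∀ a, W a → Prop} {k σ : ℕ}

/-- A deep point of a chart together with a path that ends over it. -/
structure CI (A : LAtlas src tgt rev d π dart good k σ) (q₀ : Q) : Type where
  a : I
  w : W a
  x : PV (stQ src tgt rev) q₀
  hx : π a w = en x
  hg : ∀ z, d a w z ≤ 2 * σ → good a z

namespace LAtlas

variable (A : LAtlas src tgt rev d π dart good k σ) {q₀ : Q}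

include A in
theorem mq : IsMach (stQ src tgt rev) := machQ A.rr A.sr

theorem mb (c : CI A q₀) : IsMach (stB (d c.a) (dart c.a) rev c.w (2 * σ)) :=
  (A.lg c.a).machB A.rr (A.out c.a) c.hg

/-- The subgroup of a chart. -/
def cN (c : CI A q₀) : Subgroup (PF A.mq q₀) := CN A.mq (A.mb c) c.w c.x

/-- The good paths of a chart. -/
def cG (y : PV (stQ src tgt rev) q₀) (c : CI A q₀) : Prop :=
  ∃ s, Path (stB (d c.a) (dart c.a) rev c.w (2 * σ)) c.w (c.x.1⁻¹ * y.1) s ∧ d c.a c.w s ≤ σ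

theorem exists_ci (x : PV (stQ src tgt rev) q₀) : ∃ c : CI A q₀, c.x = x := by
  obtain ⟨a, w, h1, h2⟩ := A.cover (en x)
  exact ⟨⟨a, w, x, h1, h2⟩, rfl⟩

theorem cG_self (c : CI A q₀) : A.cG c.x c :=
  ⟨c.w, by simpa using path_one c.w, by rw [(A.lg c.a).gr.met.self]; omega⟩

theorem over_of_path (c : CI A q₀) {y : PV (stQ src tgt rev) q₀} {s : W c.a}
    (h : Path (stB (d c.a) (dart c.a) rev c.w (2 * σ)) c.w (c.x.1⁻¹ * y.1) s) :
    π c.a s = en y := by
  have h1 : Path (stQ src tgt rev) (π c.a c.w) (c.x.1⁻¹ * y.1) (π c.a s) :=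
    LW.map' (π c.a) (A.lg c.a).morB h
  rw [c.hx] at h1
  exact A.mq.pdet h1 (path_between A.mq c.x y)

theorem atlas (q₀ : Q) : Atlas (pd (sq := stQ src tgt rev) (q₀ := q₀)) A.cN A.cG (9 * k) σ := by
  refine ⟨pd_met, pd_sep, pd_geo A.mq, pd_hyp.mono (Nat.zero_le _), pd_inv, fun f c => ?_,
    fun c => ?_, fun x => ?_, ?_⟩
  · refine ⟨⟨c.a, c.w, f⁻¹ • c.x, by rw [en_smul, c.hx], c.hg⟩, fun y => ?_, fun g => ?_⟩
    · simp [cG, smul_val, mul_assoc]
    · simp [cN, mem_CN, smul_val, mul_assoc]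
  · have m := (A.lg c.a).gr.met
    have := hyp_CN (MQ := A.mq) (A.mb c) (A.lg c.a).morB c.hx m (A.hyp c.a)
      (fun s l t h => (A.lg c.a).le _ _ _ h.2.2) (c := 4 * k) fun s t g g' h h' =>
        (A.lg c.a).upB (A.hyp c.a) ((A.lg c.a).mem_of_stB h (by rw [m.self]; omega))
          ((A.lg c.a).mem_of_stB h' (by rw [m.self]; omega))
    exact this.mono (by omega)
  · obtain ⟨c, rfl⟩ := A.exists_ci x
    refine ⟨c, fun z hz => ?_⟩
    have h1 := path_between A.mq c.x z
    rw [← c.hx] at h1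
    rw [pd, norm_eq_length] at hz
    obtain ⟨t, ht⟩ := (A.lg c.a).liftB (A.out c.a) c.hg h1
      (by rw [(A.lg c.a).gr.met.self]; omega)
    have := (A.lg c.a).lw_le ((A.lg c.a).lw_of_stB ht)
    rw [List.length_map] at this
    exact ⟨t, ht, by omega⟩
  · rintro y c c' f ⟨s, s1, s2⟩ ⟨t, t1, t2⟩ hd hf
    have M := A.mb c
    have M' := A.mb c'
    have h1 := M.mul (M.mul (M.inv s1) (mem_CN.1 hf)) s1
    rw [show (c.x.1⁻¹ * y.1)⁻¹ * (c.x.1⁻¹ * f.1 * c.x.1) * (c.x.1⁻¹ * y.1) = y.1⁻¹ * (f.1 * y.1) by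
      group] at h1
    rw [pd, smul_val, norm_eq_length] at hd
    have h2 := A.compat c.a c'.a s t _ ((A.over_of_path c s1).trans (A.over_of_path c' t1).symm)
      (fun z hz => c'.hg z (by have := (A.lg c'.a).gr.met.tri c'.w t z; omega))
      (by rwa [List.length_map]) ((A.lg c.a).lw_of_stB h1)
    have h3 : Path (stB (d c'.a) (dart c'.a) rev c'.w (2 * σ)) t (y.1⁻¹ * (f.1 * y.1)) t :=
      (A.lg c'.a).stB_of_lw h2 (by omega)
    have h4 := M'.mul (M'.mul t1 h3) (M'.inv t1)
    refine mem_CN.2 ?_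
    rwa [show c'.x.1⁻¹ * y.1 * (y.1⁻¹ * (f.1 * y.1)) * (c'.x.1⁻¹ * y.1)⁻¹ =
      c'.x.1⁻¹ * f.1 * c'.x.1 by group] at h4

end LAtlas

end Pool.Agent.Lib.MP_429c3d_al.Hyp
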