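import Pool.Agent.Lib.MP_429c3d_al.HypLabA

set_option autoImplicit false
set_option linter.unusedSectionVars false

/-! The developing theorem for labelled charts. -/

namespace Pool.Agent.Lib.MP_429c3d_al.Hyp

open FreeGroup

/-- The quotient of a space by a normal subgroup. -/
theorem exists_quot {V F : Type} [Group F] [MulAction F V] {d : V → V → ℕ} (m : IsMet d)
    (inv : ∀ (f : F) x y, d (f • x) (f • y) = d x y)
    (H : Subgroup F) (hH : H.Normal) :
    ∃ (X : Type) (_ : MulAction F X) (p : V → X) (dX : X → X → ℕ), Function.Surjective p ∧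
      (∀ x y, p x = p y ↔ ∃ f ∈ H, x = f • y) ∧ (∀ x y, dX (p x) (p y) = qd d H x y) ∧
      ∀ (f : F) x, f • p x = p (f • x) := by
  let s : Setoid V := ⟨fun x y => ∃ f ∈ H, x = f • y,
    ⟨fun x => ⟨1, H.one_mem, (one_smul _ _).symm⟩,
      fun ⟨f, hf, e⟩ => ⟨f⁻¹, H.inv_mem hf, by rw [e, inv_smul_smul]⟩,
      fun ⟨f, hf, e⟩ ⟨g, hg, e'⟩ => ⟨f * g, H.mul_mem hf hg, by rw [e, e', mul_smul]⟩⟩⟩
  let act : F → Quotient s → Quotient s := fun f => Quotient.map (f • ·) (by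
    rintro x y ⟨g, hg, e⟩
    exact ⟨f * g * f⁻¹, hH.conj_mem g hg f, by simp only [e, mul_smul, inv_smul_smul]⟩)
  refine ⟨Quotient s,
    { smul := act
      one_smul := fun x => Quotient.inductionOn x fun x => congrArg (Quotient.mk s) (one_smul F x)
      mul_smul := fun f g x => Quotient.inductionOn x fun x =>
        congrArg (Quotient.mk s) (mul_smul f g x) },
    Quotient.mk s, Quotient.lift₂ (qd d H) ?_, Quotient.mk_surjective,
    fun x y => Quotient.eq, fun _ _ => rfl, fun _ _ => rfl⟩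
  rintro x y x' y' ⟨f, hf, rfl⟩ ⟨g, hg, rfl⟩
  rw [qd_smul_left m inv hf, qd_smul_right hg]

variable {Q E I : Type} {src tgt : E → Q} {rev : E → E} {W : I → Type}
  {d : ∀ a, W a → W a → ℕ} {π : ∀ a, W a → Q} {dart : ∀ a, W a → E → W a → Prop}
  {good : ∀ a, W a → Prop} {k σ r : ℕ}

theorem LAtlas.develop_core (A : LAtlas src tgt rev d π dart good k σ) (q₀ : Q)
    (hk : 100 * k + 100 ≤ r) (hσ : 6000 * r ≤ σ) :
    ∃ (X Γ : Type) (_ : Group Γ) (_ : MulAction Γ X) (dX : X → X → ℕ) (πX : X → Q)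
      (dartX : X → E → X → Prop), Devel (Γ := Γ) src tgt rev dX πX dartX (1000 * k + 4) ∧
      (∀ a w x (l : List E), π a w = πX x → l.length ≤ 2000 * r → LW (dart a) w l w →
        LW dartX x l x) ∧
      ∀ a w x (l : List E), π a w = πX x → (∀ z, d a w z ≤ σ → good a z) → l.length ≤ 2 * r →
        LW dartX x l x → LW (dart a) w l w := by
  classical
  obtain ⟨hN, hm, hgeo, hhyp, hup, hdown⟩ := (A.atlas q₀).cartan_hadamard (U := 2 * r)
    (ρ := 2000 * r) (by omega) (by omega) (by omega) (by omega)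
  obtain ⟨H, hH⟩ : ∃ H, H = NN (pd (sq := stQ src tgt rev) (q₀ := q₀)) A.cN A.cG (2000 * r) :=
    ⟨_, rfl⟩
  rw [← hH] at hN hm hgeo hhyp hup hdown
  obtain ⟨X, act, p, dX, ps, pe, pd', pa⟩ := exists_quot pd_met pd_inv H hN
  choose sec hsec using ps
  have hen : ∀ x, en (sec (p x)) = en x := fun x => by
    obtain ⟨f, -, e⟩ := (pe _ _).1 (hsec (p x))
    rw [e, en_smul]
  let πX : X → Q := fun a => en (sec a)
  have hπ : ∀ x, πX (p x) = en x := hen
  let dartX : X → E → X → Prop := fun a e b => ∃ x y, p x = a ∧ p y = b ∧ src e = en x ∧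
    y.1 = x.1 * of e
  have stepQ : ∀ (x : PV (stQ src tgt rev) q₀) e, src e = en x →
      ∃ y : PV (stQ src tgt rev) q₀, y.1 = x.1 * of e ∧ en y = tgt e := fun x e h =>
    exists_ext A.mq x (g := of e) (lw_single.2 ⟨h, rfl⟩)
  have move : ∀ x e b, dartX (p x) e b → src e = en x ∧ ∃ y, p y = b ∧ y.1 = x.1 * of e ∧
      en y = tgt e := by
    rintro x e b ⟨x', y', h1, h2, h3, h4⟩
    obtain ⟨f, hf, rfl⟩ := (pe _ _).1 h1
    rw [en_smul] at h3
    obtain ⟨y, y1, y2⟩ := stepQ x e h3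
    refine ⟨h3, y, ?_, y1, y2⟩
    rw [← h2]
    exact ((pe _ _).2 ⟨f, hf, Subtype.ext (by rw [h4, smul_val, smul_val, y1, mul_assoc])⟩).symm
  have out : ∀ a e, src e = πX a → ∃! b, dartX a e b := by
    intro a e h
    obtain ⟨y, y1, -⟩ := stepQ (sec a) e h
    refine ⟨p y, ⟨_, y, hsec a, rfl, h, y1⟩, fun b hb => ?_⟩
    obtain ⟨-, y', a1, a2, -⟩ := move (sec a) e b (by rwa [hsec])
    rw [← a1, show y' = y from Subtype.ext (a2.trans y1.symm)]
  have up : ∀ (l : List E) x b, LW dartX (p x) l b → ∃ y, p y = b ∧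
      y.1 = x.1 * FreeGroup.mk (l.map (·, true)) ∧
      LW (stQ src tgt rev) (en x) (l.map (·, true)) (en y) := by
    intro l
    induction l with
    | nil => exact fun x b h => ⟨x, h, (mul_one _).symm, rfl⟩
    | cons e l ih =>
      rintro x b ⟨u, h1, h2⟩
      obtain ⟨a0, y, rfl, a2, a3⟩ := move x e u h1
      obtain ⟨z, z1, z2, z3⟩ := ih y b h2
      exact ⟨z, z1, by rw [z2, a2, mul_assoc]; rfl, _, ⟨a0, a3.symm⟩, z3⟩
  have down : ∀ (l : List E) (x : PV (stQ src tgt rev) q₀) q,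
      LW (stQ src tgt rev) (en x) (l.map (·, true)) q →
      ∃ y, y.1 = x.1 * FreeGroup.mk (l.map (·, true)) ∧ LW dartX (p x) l (p y) := by
    intro l
    induction l with
    | nil => exact fun x q _ => ⟨x, (mul_one _).symm, rfl⟩
    | cons e l ih =>
      rintro x q ⟨u, ⟨h1, rfl⟩, h2⟩
      obtain ⟨y, y1, y2⟩ := stepQ x e h1
      obtain ⟨z, z1, z2⟩ := ih y q (by rwa [y2])
      exact ⟨z, by rw [z1, y1, mul_assoc]; rfl, p y, ⟨x, y, rfl, rfl, h1, y1⟩, z2⟩
  have null : ∀ a w x (l : List E), π a w = πX x → l.length ≤ 2000 * r → LW (dart a) w l w →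
      LW dartX x l x := by
    intro a w x l h1 h2 h3
    obtain ⟨c, hc⟩ := A.exists_ci (sec x)
    have m := (A.lg c.a).gr.met
    have h4 := A.compat a c.a w c.w l (by rw [h1, c.hx, hc]) (fun z hz => c.hg z (by omega))
      (by omega) h3
    have h5 := (A.lg c.a).stB_of_lw (w := c.w) (R := 2 * σ) (l := l.map (·, true))
      (by rwa [map_lab]) (by rw [m.self, List.length_map]; omega)
    have h6 := h5.map' (π c.a) (A.lg c.a).morB
    rw [c.hx] at h6
    obtain ⟨y, y1, y2⟩ := down l c.x _ h6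
    obtain ⟨y', y1', y2'⟩ := exists_ext A.mq c.x (A.mq.path_mk h6)
    obtain rfl : y = y' := Subtype.ext (y1.trans y1'.symm)
    obtain ⟨f, hf⟩ := exists_loop A.mq y2'.symm
    have e : c.x.1⁻¹ * f.1 * c.x.1 = FreeGroup.mk (l.map (·, true)) := by
      rw [mul_assoc, ← smul_val, hf, y1, inv_mul_cancel_left]
    have h7 := hdown c.x f c (A.cG_self c) (mem_CN.2 (e ▸ (A.mb c).path_mk h5)) (by
      have := norm_mk_le (L₁ := l.map (·, true))
      rw [List.length_map] at this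
      rw [pd, smul_val, ← mul_assoc, e]
      omega)
    rwa [(pe y c.x).2 ⟨f, h7, hf.symm⟩, hc, hsec] at y2
  have short : ∀ a w x (l : List E), π a w = πX x → (∀ z, d a w z ≤ σ → good a z) →
      l.length ≤ 2 * r → LW dartX x l x → LW (dart a) w l w := by
    intro a w x l h1 h2 h3 h4
    obtain ⟨c, hc⟩ := A.exists_ci (sec x)
    have m := (A.lg c.a).gr.met
    rw [← hsec x, ← hc] at h4
    obtain ⟨y, y1, y2, y3⟩ := up l c.x _ h4
    obtain ⟨f, hf, e0⟩ := (pe _ _).1 y1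
    have e : c.x.1⁻¹ * f.1 * c.x.1 = FreeGroup.mk (l.map (·, true)) := by
      rw [mul_assoc, ← smul_val, ← e0, y2, inv_mul_cancel_left]
    have h5 := mem_CN.1 (hup c.x f hf (by
      have := norm_mk_le (L₁ := l.map (·, true))
      rw [List.length_map] at this
      rw [pd, smul_val, ← mul_assoc, e]
      omega) c (A.cG_self c))
    rw [← c.hx] at y3
    obtain ⟨t, ht⟩ := (A.lg c.a).liftB (A.out c.a) c.hg y3
      (by rw [m.self, List.length_map]; omega)
    rw [e] at h5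
    obtain rfl := (A.mb c).pdet h5 ((A.mb c).path_mk ht)
    have h6 := (A.lg c.a).lw_of_stB ht
    rw [map_lab] at h6
    exact A.compat c.a a c.w w l (by rw [h1, c.hx, hc]) h2 (by omega) h6
  have ends : ∀ a e b, dartX a e b → πX a = src e ∧ πX b = tgt e := by
    intro a e b h
    obtain ⟨a0, y, rfl, -, a3⟩ := move (sec a) e b (by rwa [hsec])
    exact ⟨a0.symm, (hπ y).trans a3⟩
  have flip : ∀ a e b, dartX a e b → dartX b (rev e) a := by
    intro a e b h
    obtain ⟨c, w, h1, h2⟩ := A.cover (πX a)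
    obtain ⟨t, ht, -⟩ := A.out c w e (h2 w (by rw [(A.lg c).gr.met.self]; omega))
      ((ends _ _ _ h).1.symm.trans h1.symm)
    obtain ⟨u, u1, u2⟩ := null c w a [e, rev e] h1 (show 2 ≤ 2000 * r by omega)
      ⟨t, ht, lw_single.2 ((A.lg c).flip _ _ _ ht)⟩
    rw [(out a e (ends _ _ _ h).1.symm).unique h u1]
    exact lw_single.1 u2
  have dq : ∀ a b, dX a b = qd pd H (sec a) (sec b) := fun a b => by rw [← pd', hsec, hsec]
  have met : IsMet dX := ⟨fun a => by rw [dq, hm.self], fun a b => by rw [dq, dq, hm.symm],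
    fun a b c => by rw [dq, dq, dq]; exact hm.tri _ _ _⟩
  refine ⟨X, (MulAction.toPermHom (PF A.mq q₀) X).range, inferInstance, inferInstance, dX, πX,
    dartX, ⟨⟨⟨met, fun a b h => ?_, fun a b => ?_⟩, ends, flip, ?_, fun a b h => ?_⟩,
      fun a b c e => ?_, out, fun q => ?_, ?_, ?_, fun a b => ⟨fun h => ?_, ?_⟩, ?_⟩, null, short⟩
  · obtain ⟨f, hf, e⟩ := exists_qd pd H (sec a) (sec b)
    rw [← dq, h] at e
    rw [← hsec a, ← hsec b]
    exact (pe _ _).2 ⟨f, hf, pd_sep _ _ e⟩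
  · obtain ⟨g, g0, g1, g2⟩ := hgeo (sec a) (sec b)
    rw [← dq] at g1 g2
    refine ⟨fun i => p (g i), by simp only [g0, hsec], ?_, fun i j a1 a2 a3 => ?_⟩
    · simp only
      rw [← g1, ← pd', hsec]
    · simp only [pd']
      exact g2 i j a1 a2 a3
  · rintro _ e _ ⟨x, y, rfl, rfl, -, h⟩
    rw [pd']
    refine (qd_le' H x y).trans ?_
    rw [pd, h, inv_mul_cancel_left, norm_of]
  · obtain ⟨f, hf, e⟩ := exists_qd pd H (sec a) (sec b)
    rw [← dq, h, pd, norm_eq_length] at e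
    obtain ⟨⟨l, s⟩, hl⟩ := List.length_eq_one_iff.1 e
    have h1 := path_between A.mq (sec a) (f • sec b)
    rw [Path, hl] at h1
    have h2 := lw_single.1 h1
    have h3 : (sec a).1⁻¹ * (f • sec b).1 = FreeGroup.mk [(l, s)] := by rw [← hl, mk_toWord]
    have h4 : p (f • sec b) = b := ((pe _ _).2 ⟨f, hf, rfl⟩).trans (hsec b)
    cases s
    · refine ⟨rev l, flip _ _ _ ⟨f • sec b, sec a, h4, hsec a, ?_, ?_⟩⟩
      · rw [← h2.2, ← A.sr]
        exact congrArg src (A.rr l).symm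
      · rw [← mul_inv_eq_iff_eq_mul, eq_comm, ← inv_mul_eq_iff_eq_mul, h3]
        rfl
    · exact ⟨l, sec a, f • sec b, hsec a, h4, h2.1, inv_mul_eq_iff_eq_mul.1 h3⟩
  · rw [dq, dq, dq, dq, dq, dq]
    exact (hhyp.mono (by omega)) _ _ _ _
  · have key : ∀ q, Relation.ReflTransGen (fun u v => ∃ e, src e = u ∧ tgt e = v) q₀ q →
        ∃ x : PV (stQ src tgt rev) q₀, en x = q := by
      intro q h
      induction h with
      | refl => exact ⟨⟨1, q₀, path_one q₀⟩, A.mq.pdet (en_spec _) (path_one q₀)⟩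
      | tail _ h ih =>
        obtain ⟨x, rfl⟩ := ih
        obtain ⟨e, e1, rfl⟩ := h
        obtain ⟨y, -, y2⟩ := stepQ x e e1
        exact ⟨y, y2⟩
    obtain ⟨x, hx⟩ := key q (A.conn q₀ q)
    exact ⟨p x, (hπ x).trans hx⟩
  · rintro ⟨_, f, rfl⟩ a b
    show dX (f • a) (f • b) = dX a b
    rw [← hsec a, ← hsec b, pa, pa, pd', pd', qd_inv pd_inv hN]
  · rintro ⟨_, f, rfl⟩ a h
    have h1 : f • p (sec a) = p (sec a) := by rwa [hsec]
    rw [pa] at h1
    obtain ⟨g, hg, e⟩ := (pe _ _).1 h1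
    obtain rfl : f = g := Subtype.ext (mul_right_cancel (congrArg Subtype.val e))
    refine Subtype.ext (Equiv.ext fun b => ?_)
    show f • b = b
    rw [← hsec b, pa]
    exact (pe _ _).2 ⟨f, hg, rfl⟩
  · obtain ⟨f, hf⟩ := exists_loop A.mq h
    refine ⟨⟨_, f, rfl⟩, ?_⟩
    show f • a = b
    rw [← hsec a, pa, hf, hsec]
  · rintro ⟨⟨_, f, rfl⟩, h⟩
    have h1 : f • p (sec a) = b := by rwa [hsec]
    rw [← h1, pa, hπ, en_smul]
  · rintro ⟨_, f, rfl⟩ _ e _ ⟨x, y, rfl, rfl, h1, h2⟩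
    exact ⟨f • x, f • y, (pa f x).symm, (pa f y).symm, by rwa [en_smul],
      by rw [smul_val, smul_val, h2, mul_assoc]⟩

/-- The developing theorem for labelled charts. -/
theorem LAtlas.develop (A : LAtlas src tgt rev d π dart good k σ) (q₀ : Q)
    (hk : 100 * k + 100 ≤ r) (hσ : 6000 * r ≤ σ) :
    ∃ (X Γ : Type) (_ : Group Γ) (_ : MulAction Γ X) (dX : X → X → ℕ) (πX : X → Q)
      (dartX : X → E → X → Prop), Devel (Γ := Γ) src tgt rev dX πX dartX (1000 * k + 4) ∧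
      ∀ a (w₀ : W a) (x₀ : X), πX x₀ = π a w₀ → ∃ Φ : W a → X, Φ w₀ = x₀ ∧
        DMap (d a) (π a) (dart a) (good a) dX πX dartX Φ σ r := by
  obtain ⟨X, Γ, i1, i2, dX, πX, dartX, D, null, short⟩ := A.develop_core q₀ hk hσ
  refine ⟨X, Γ, i1, i2, dX, πX, dartX, D, fun a w₀ x₀ h => ?_⟩
  obtain ⟨Φ, h0, h1, h2⟩ := D.exists_map A.rr (A.lg a) (A.hyp a)
    (fun w x l a1 a2 a3 => null a w x l a1 (by omega) a3) w₀ x₀ h
  exact ⟨Φ, h0, D.dmap A.rr (A.lg a) (A.out a) (by omega) (short a) h1 h2⟩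

end Pool.Agent.Lib.MP_429c3d_al.Hyp
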