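import Pool.Agent.Lib.MP_429c3d_al.HypAtlas

set_option autoImplicit false
set_option linter.unusedSectionVars false

/-! Contraction, composition and symmetry of ladders. -/

namespace Pool.Agent.Lib.MP_429c3d_al.Hyp

variable {V F I : Type} [Group F] [MulAction F V]

theorem near_geo' {d : V → V → ℕ} {k : ℕ} (m : IsMet d) (h : Hyp4 d k) {g : ℕ → V} {p q : ℕ}
    (hg : GeoOn d g (min p q) (max p q)) (w : V) {c : ℕ}
    (hc : d w (g p) + d w (g q) ≤ d (g p) (g q) + c) :
    ∃ j, min p q ≤ j ∧ j ≤ max p q ∧ 2 * d w (g j) ≤ c + 2 * k + 1 := by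
  rcases le_total p q with hpq | hpq
  · rw [min_eq_left hpq, max_eq_right hpq] at hg ⊢
    have := hg p q le_rfl hpq le_rfl
    exact near_geo m h hg hpq w (by omega)
  · rw [min_eq_right hpq, max_eq_left hpq] at hg ⊢
    have := hg q p le_rfl hpq le_rfl
    have := m.symm (g p) (g q)
    exact near_geo m h hg hpq w (by omega)

/-- Ladders whose width is controlled by the last rung. -/
def LadE (d : V → V → ℕ) (N : I → Subgroup F) (good : V → I → Prop) (U k : ℕ)
    (γ : ℕ → V) (n : ℕ) (γ' : ℕ → V) (n' : ℕ) (f : F) : Prop :=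
  Lad d N good U (d (γ n) (f • γ' n') + 2 * k) γ n γ' n' f

variable {d : V → V → ℕ} {N : I → Subgroup F} {good : V → I → Prop} {k σ U : ℕ}

theorem Lad.mono {γ γ' : ℕ → V} {n n' R R' : ℕ} {f : F} (h : Lad d N good U R γ n γ' n' f)
    (hR : R ≤ R') : Lad d N good U R' γ n γ' n' f := by
  obtain ⟨j, φ, h1, h2, hr⟩ := h
  exact ⟨j, φ, h1, h2, hr.j0, hr.nul0, hr.le, fun i hi => (hr.rung i hi).trans hR, hr.up,
    hr.down, hr.nul⟩

theorem Lad.last {γ γ' : ℕ → V} {n n' R : ℕ} {f : F} (h : Lad d N good U R γ n γ' n' f) :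
    d (γ n) (f • γ' n') ≤ R := by
  obtain ⟨j, φ, h1, h2, hr⟩ := h
  have := hr.rung n le_rfl
  rwa [h1, h2] at this

namespace Atlas

variable (A : Atlas d N good k σ)
include A

theorem contract_idx (hk : 20 * k + 20 ≤ U) (hσ : 3000 * U ≤ σ) {γ γ' : ℕ → V} {n n' R : ℕ}
    (h : LG d N good U γ n) (h' : LG d N good U γ' n') (h0 : γ 0 = γ' 0) (hR : R ≤ 8 * U)
    {j : ℕ → ℕ} {φ : ℕ → F} (hr : Rungs d N good U R γ n γ' n' j φ) (i : ℕ) (hi : i ≤ n) :
    ∃ (p : ℕ) (ψ : F), p ≤ n' ∧ p ≤ j i + 100 * U ∧ j i ≤ p + 100 * U ∧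
      d (γ i) (ψ • γ' p) ≤ d (γ n) (φ n • γ' (j n)) + 2 * k ∧
      Nul N good (γ i) (ψ * (φ i)⁻¹) := by
  obtain ⟨a, ha⟩ := A.cover (γ i)
  have ha' : Ball d good a (γ i) σ := ha
  obtain ⟨i0, hi0⟩ : ∃ i0, i0 = i - 10 * U := ⟨_, rfl⟩
  obtain ⟨i1, hi1⟩ : ∃ i1, i1 = min n (i + 10 * U) := ⟨_, rfl⟩
  have l0 := h.lip A.met (i := i0) (j := i) (by omega) hi
  have l0' := A.met.symm (γ i0) (γ i)
  have b0 : Ball d good a (γ i0) (1000 * U) := ha'.mono A.met (by omega)
  have b1 : Ball d good a (γ i0) (200 * U) :=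
    b0.mono A.met (y := γ i0) (by rw [A.met.self]; omega)
  have w1 := A.window hk h h' hR hr b1 i1 (by omega) (by omega) (by omega)
  have w2 := A.window hk h h' hR hr b1 i (by omega) (by omega) (by omega)
  have r0 := hr.rung i0 (by omega)
  have r1 := hr.rung i1 (by omega)
  have ri := hr.rung i hi
  have rn := hr.rung n le_rfl
  have hj0 := hr.j0
  have g1 := h.loc a i0 i (by omega) hi (by omega) (A.ball_self b0)
  have g2 := h.loc a i i1 (by omega) (by omega) (by omega) (A.ball_self ha')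
  have g3 := h.loc a i0 i1 (by omega) (by omega) (by omega) (A.ball_self b0)
  have s1 := (A.qmet a).symm (γ i) (γ i0)
  obtain ⟨p0, q1, q2, q3, q4⟩ : ∃ p0, p0 ≤ n' ∧ p0 ≤ j i0 + 20 * U ∧ j i0 ≤ p0 + 20 * U ∧
      qd d (N a) (γ i) (φ i0 • γ' p0) + qd d (N a) (γ i) (γ i1) ≤
        qd d (N a) (φ i0 • γ' p0) (γ i1) + k := by
    by_cases hc : i ≤ 10 * U
    · have e0 : i0 = 0 := by omega
      subst e0
      refine ⟨0, Nat.zero_le _, Nat.zero_le _, by omega, ?_⟩
      have hm := hr.nul0 a (A.ball_self b0)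
      rw [← h0, qd_smul_right hm, qd_smul_left A.met A.inv hm]
      omega
    · refine ⟨j i0, hr.le i0 (by omega), by omega, by omega, ?_⟩
      have e1 := A.hypN a (γ i0) (γ i1) (φ i0 • γ' (j i0)) (γ i)
      have e2 := qd_le' (d := d) (N a) (γ i0) (φ i0 • γ' (j i0))
      have s2 := (A.qmet a).symm (γ i) (φ i0 • γ' (j i0))
      have s3 := (A.qmet a).symm (γ i) (γ i1)
      have s4 := (A.qmet a).symm (γ i1) (φ i0 • γ' (j i0))
      omega
  have e3 := A.qd_le_of w1.1 (γ i1) (γ' (j i1))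
  have q5 : qd d (N a) (γ i) (φ i0 • γ' p0) + qd d (N a) (γ i) (φ i0 • γ' (j i1)) ≤
      qd d (N a) (φ i0 • γ' p0) (φ i0 • γ' (j i1)) +
        (2 * k + 2 * d (γ n) (φ n • γ' (j n))) := by
    by_cases hc : i1 = n
    · subst hc
      have t1 := (A.qmet a).tri (γ i) (γ i1) (φ i0 • γ' (j i1))
      have t2 := (A.qmet a).tri (φ i0 • γ' p0) (φ i0 • γ' (j i1)) (γ i1)
      have s2 := (A.qmet a).symm (γ i1) (φ i0 • γ' (j i1))
      omega
    · have e1 := A.hypN a (γ i1) (φ i0 • γ' p0) (φ i0 • γ' (j i1)) (γ i)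
      have s2 := (A.qmet a).symm (γ i) (φ i0 • γ' (j i1))
      have s3 := (A.qmet a).symm (γ i) (γ i1)
      have s4 := (A.qmet a).symm (γ i1) (φ i0 • γ' p0)
      have s5 := (A.qmet a).symm (γ i) (φ i0 • γ' p0)
      omega
  have hj1 := hr.le i1 (by omega)
  have hji0 := hr.le i0 (by omega)
  have geo : GeoOn (qd d (N a)) (fun t => φ i0 • γ' t) (min p0 (j i1)) (max p0 (j i1)) := by
    intro s t t1 t2 t3
    have l1 := h'.lip' A.met hji0 (j := s) (s := 100 * U) (by omega) (by omega) (by omega)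
    have t4 := A.met.tri (γ i0) (φ i0 • γ' (j i0)) (φ i0 • γ' s)
    rw [A.inv] at t4
    exact (A.lg_smul h' (φ i0)).loc a s t t2 (by omega) (by omega) (b0 _ (by omega))
  obtain ⟨p, p1, p2, p3⟩ := near_geo' (A.qmet a) (A.hypN a) geo (γ i) q5
  obtain ⟨ν, hν, e⟩ := exists_qd d (N a) (γ i) (φ i0 • γ' p)
  rw [smul_smul] at e
  refine ⟨p, ν * φ i0, by omega, by omega, by omega, by omega,
    A.nul_of_mem (A.ball_self ha') ?_ ?_⟩
  · have := (N a).mul_mem hν ((N a).inv_mem w2.1)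
    rwa [mul_inv_rev, inv_inv, ← mul_assoc] at this
  · have e2 := A.move_le (γ i) (γ' (j i)) (γ' p) (φ i) (ν * φ i0)
    have l1 := h'.lip' A.met (hr.le i hi) (j := p) (s := 100 * U) (by omega) (by omega) (by omega)
    omega

theorem contract (hk : 20 * k + 20 ≤ U) (hσ : 3000 * U ≤ σ) {γ γ' : ℕ → V} {n n' R : ℕ} {f : F}
    (h : LG d N good U γ n) (h' : LG d N good U γ' n') (h0 : γ 0 = γ' 0) (hR : R ≤ 7 * U)
    (hl : Lad d N good U R γ n γ' n' f) : LadE d N good U k γ n γ' n' f := by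
  have hlast := hl.last
  obtain ⟨j, φ, h1, h2, hr⟩ := hl
  have key : ∀ i, ∃ (p : ℕ) (ψ : F), i ≤ n → (p ≤ n' ∧ p ≤ j i + 100 * U ∧ j i ≤ p + 100 * U ∧
      d (γ i) (ψ • γ' p) ≤ d (γ n) (f • γ' n') + 2 * k ∧ Nul N good (γ i) (ψ * (φ i)⁻¹)) ∧
      (i = n → p = n' ∧ ψ = f) := by
    intro i
    by_cases hi : i < n
    · obtain ⟨p, ψ, hp⟩ := A.contract_idx hk hσ h h' h0 (by omega) hr i hi.le
      rw [h1, h2] at hp
      exact ⟨p, ψ, fun _ => ⟨hp, fun e => by omega⟩⟩
    · refine ⟨n', f, fun hi' => ?_⟩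
      have e : i = n := by omega
      subst e
      refine ⟨⟨le_rfl, by omega, by omega, by omega, ?_⟩, fun _ => ⟨rfl, rfl⟩⟩
      intro a _
      simp [h2]
  choose p ψ hp using key
  refine ⟨p, ψ, ((hp n le_rfl).2 rfl).1, ((hp n le_rfl).2 rfl).2, ?_⟩
  refine A.rungs_mk hk hσ h h' h0 (by omega) ?_ ?_ (fun i hi => (hp i hi).1.1)
    (fun i hi => (hp i hi).1.2.2.2.1) ?_ ?_ ?_
  · have := (hp 0 (Nat.zero_le _)).1
    have := hr.j0
    omega
  · intro a ha
    have := (N a).mul_mem ((hp 0 (Nat.zero_le _)).1.2.2.2.2 a (A.ball_self ha))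
      (hr.nul0 a (A.ball_self ha))
    rwa [inv_mul_cancel_right] at this
  · intro i hi
    have := (hp i hi.le).1
    have := (hp (i + 1) hi).1
    have := hr.up i hi
    omega
  · intro i hi
    have := (hp i hi.le).1
    have := (hp (i + 1) hi).1
    have := hr.down i hi
    omega
  · intro i hi a ha
    have s1 := h.step i hi
    have m1 := (hp i hi.le).1.2.2.2.2 a (A.ball_self ha)
    have m2 := (hp (i + 1) hi).1.2.2.2.2 a (ha _ (by omega))
    have m3 := hr.nul i hi a (A.ball_self ha)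
    have := (N a).mul_mem ((N a).mul_mem m2 m3) ((N a).inv_mem m1)
    simpa [mul_assoc] using this

theorem comp (hk : 20 * k + 20 ≤ U) (hσ : 3000 * U ≤ σ) {γ γ' γ'' : ℕ → V} {n n' n'' r r' : ℕ}
    {f g : F} (h : LG d N good U γ n) (h' : LG d N good U γ' n') (h'' : LG d N good U γ'' n'')
    (h0 : γ 0 = γ' 0) (h0' : γ' 0 = γ'' 0) (hr : r ≤ 4 * U) (hr' : r' ≤ 4 * U)
    (l1 : Lad d N good U r γ n γ' n' f) (l2 : Lad d N good U r' γ' n' γ'' n'' g) :
    Lad d N good U (r + r') γ n γ'' n'' (f * g) := by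
  obtain ⟨j, φ, h1, h2, R1⟩ := l1
  obtain ⟨j', φ', h1', h2', R2⟩ := l2
  refine ⟨fun i => j' (j i), fun i => φ i * φ' (j i), by simp only [h1, h1'],
    by simp only [h1, h2, h2'], ?_⟩
  have w0 : ∀ a, Ball d good a (γ 0) σ → φ' (j 0) * (φ' 0)⁻¹ ∈ N a ∧
      j' (j 0) ≤ j' 0 + 20 * U + 2 * r' ∧ j' 0 ≤ j' (j 0) + 20 * U + 2 * r' := by
    intro a ha
    have := R1.j0
    exact A.window' hk h' h'' (by omega) R2 (p := 0) (q := j 0) (s := 20 * U)
      (ha.mono A.met (by rw [h0, A.met.self]; omega)) (Nat.zero_le _) (R1.le 0 (Nat.zero_le _))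
      (by omega) (by omega) (by omega)
  have ws : ∀ i, i < n → ∀ a, Ball d good a (γ i) σ →
      φ i * (φ' (j (i + 1)) * (φ' (j i))⁻¹) * (φ i)⁻¹ ∈ N a ∧
      j' (j (i + 1)) ≤ j' (j i) + 20 * U + 2 * r' ∧ j' (j i) ≤ j' (j (i + 1)) + 20 * U + 2 * r' := by
    intro i hi a ha
    have := R1.rung i hi.le
    obtain ⟨b, -, b2, -, b4⟩ := A.shift (φ i) a
    have w := A.window' hk h' h'' (by omega) R2 (p := j i) (q := j (i + 1)) (s := 20 * U)
      (b4 _ _ (ha.mono A.met (by omega))) (R1.le i hi.le) (R1.le (i + 1) hi)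
      (R1.down i hi) (R1.up i hi) (by omega)
    exact ⟨(b2 _).1 w.1, w.2⟩
  refine A.rungs_mk hk hσ h h'' (h0.trans h0') (by omega) ?_ ?_
    (fun i hi => R2.le _ (R1.le i hi)) ?_ ?_ ?_ ?_
  · obtain ⟨a, ha⟩ := A.cover (γ 0)
    have := w0 a ha
    have := R2.j0
    omega
  · intro a ha
    have m1 := R1.nul0 a (A.ball_self ha)
    have m2 := R2.nul0 a (by rw [← h0]; exact A.ball_self ha)
    have := (N a).mul_mem m1 ((N a).mul_mem (w0 a ha).1 m2)
    rwa [inv_mul_cancel_right] at this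
  · intro i hi
    have e1 := R1.rung i hi
    have e2 := R2.rung (j i) (R1.le i hi)
    have e3 := A.met.tri (γ i) (φ i • γ' (j i)) ((φ i * φ' (j i)) • γ'' (j' (j i)))
    rw [mul_smul, A.inv] at e3
    rw [mul_smul]
    omega
  · intro i hi
    obtain ⟨a, ha⟩ := A.cover (γ i)
    have := ws i hi a ha
    omega
  · intro i hi
    obtain ⟨a, ha⟩ := A.cover (γ i)
    have := ws i hi a ha
    omega
  · intro i hi a ha
    have := (N a).mul_mem (R1.nul i hi a (A.ball_self ha)) (ws i hi a ha).1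
    simpa [mul_assoc] using this

theorem orient (hk : 20 * k + 20 ≤ U) (hσ : 3000 * U ≤ σ) {γ γ' : ℕ → V} {n n' r : ℕ}
    (h : LG d N good U γ n) (h' : LG d N good U γ' n') (hr : r ≤ 2 * U) {j : ℕ → ℕ} {φ : ℕ → F}
    (R1 : Rungs d N good U r γ n γ' n' j φ) :
    ∀ i, i + 30 * U ≤ n → j i + 30 * U ≤ j (i + 30 * U) + 2 * r := by
  intro i
  induction i with
  | zero =>
    intro hi
    have := A.window_low hk hσ h h' (by omega) R1 (p := 0) (q := 0 + 30 * U) (by omega) hi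
      (by omega)
    have := R1.j0
    omega
  | succ i ih =>
    intro hi
    have e1 := ih (by omega)
    have e2 := A.window_low hk hσ h h' (by omega) R1 (p := i + 1) (q := i + 1 + 30 * U) (by omega)
      hi (by omega)
    have e3 := R1.up i (by omega)
    have e4 := R1.down (i + 30 * U) (by omega)
    have e5 : i + 30 * U + 1 = i + 1 + 30 * U := by omega
    rw [e5] at e4
    omega

theorem symm (hk : 20 * k + 20 ≤ U) (hσ : 3000 * U ≤ σ) {γ γ' : ℕ → V} {n n' r : ℕ} {f : F}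
    (h : LG d N good U γ n) (h' : LG d N good U γ' n') (h0 : γ 0 = γ' 0) (hr : r ≤ 2 * U)
    (l1 : Lad d N good U r γ n γ' n' f) : Lad d N good U (7 * U) γ' n' γ n f⁻¹ := by
  obtain ⟨j, φ, h1, h2, R1⟩ := l1
  have hor := A.orient hk hσ h h' hr R1
  have hstep : ∀ i, i < n → j (i + 1) ≤ j i + 1 + 2 * r := by
    intro i hi
    obtain ⟨a, ha⟩ := A.cover (γ i)
    have := A.window hk h h' (by omega) R1 (p := i)
      (Ball.mono A.met (y := γ i) ha (by rw [A.met.self]; omega)) (i + 1) (by omega) hi (by omega)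
    omega
  have hj0 : j 0 ≤ r := by
    obtain ⟨a, ha⟩ := A.cover (γ 0)
    have e0 : d (γ 0) ((1 : F) • γ' 0) ≤ 0 := by rw [one_smul, h0, A.met.self]
    have := R1.j0
    have e1 := A.two_rungs hk h' (Nat.zero_le _) (R1.le 0 (Nat.zero_le _)) (s := 20 * U)
      (by omega) (by omega) (r₀ := 0) (r₁ := r)
      (Ball.mono A.met (y := γ 0) ha (by rw [A.met.self]; omega)) e0 (R1.rung 0 (Nat.zero_le _))
      (by simpa using R1.nul0 a (A.ball_self (r := σ) ha)) (by rw [A.met.self]; omega)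
    rw [A.met.self] at e1
    omega
  have key : ∀ p, ∃ i, p ≤ n' → i ≤ n ∧ p ≤ j i ∧ j i ≤ p + 2 * r ∧ (p = n' → i = n) ∧
      (p < n' → ∀ t, t < i → j t < p) := by
    intro p
    by_cases hp : p < n'
    · have hex : ∃ i, p ≤ j i := ⟨n, by omega⟩
      refine ⟨Nat.find hex, fun _ => ?_⟩
      have f1 : Nat.find hex ≤ n := Nat.find_min' hex (by omega)
      have f2 : ∀ t, t < Nat.find hex → j t < p := fun t ht => by
        have := Nat.find_min hex ht
        omega
      refine ⟨f1, Nat.find_spec hex, ?_, by omega, fun _ => f2⟩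
      rcases Nat.eq_zero_or_pos (Nat.find hex) with e | e
      · rw [e]
        omega
      · obtain ⟨t, ht⟩ : ∃ t, Nat.find hex = t + 1 := ⟨Nat.find hex - 1, by omega⟩
        have := f2 t (by omega)
        have := hstep t (by omega)
        rw [ht]
        omega
    · exact ⟨n, fun _ => ⟨le_rfl, by omega, by omega, fun _ => rfl, fun _ => by omega⟩⟩
  choose i hi using key
  have hi0 : i 0 ≤ 30 * U := by
    obtain ⟨a1, a2, a3, a4, a5⟩ := hi 0 (Nat.zero_le _)
    by_cases hc : 0 < n'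
    · by_contra hcon
      have := a5 hc 0 (by omega)
      omega
    · by_contra hcon
      have := hor 0 (by omega)
      have := R1.le (0 + 30 * U) (by omega)
      omega
  have hup : ∀ p, p < n' → i (p + 1) ≤ i p + 30 * U ∧ i p ≤ i (p + 1) := by
    intro p hp
    obtain ⟨a1, a2, a3, a4, a5⟩ := hi p hp.le
    obtain ⟨b1, b2, b3, b4, b5⟩ := hi (p + 1) hp
    constructor
    · by_contra hcon
      have e1 := hor (i p) (by omega)
      have e2 := R1.le (i p + 30 * U) (by omega)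
      by_cases hc : p + 1 < n'
      · have := b5 hc (i p + 30 * U) (by omega)
        omega
      · omega
    · by_contra hcon
      have := a5 hp (i (p + 1)) (by omega)
      omega
  have hrung : ∀ p, p ≤ n' → d (γ' p) ((φ (i p))⁻¹ • γ (i p)) ≤ 7 * U := by
    intro p hp
    obtain ⟨a1, a2, a3, a4, a5⟩ := hi p hp
    have e1 := h'.lip A.met a2 (R1.le _ a1)
    have e2 := R1.rung _ a1
    have e3 := A.met.tri (γ' p) (γ' (j (i p))) ((φ (i p))⁻¹ • γ (i p))
    rw [← A.inv (φ (i p)) (γ' (j (i p))), smul_inv_smul,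
      A.met.symm (φ (i p) • γ' (j (i p)))] at e3
    omega
  refine ⟨i, fun p => (φ (i p))⁻¹, (hi n' le_rfl).2.2.2.1 rfl,
    by simp only [(hi n' le_rfl).2.2.2.1 rfl, h2], ?_⟩
  refine A.rungs_mk hk hσ h' h h0.symm (by omega) (by omega) ?_ (fun p hp => (hi p hp).1) hrung
    (fun p hp => by have := hup p hp; omega) (fun p hp => by have := hup p hp; omega) ?_
  · intro a ha
    rw [← h0] at ha
    have w := A.window hk h h' (by omega) R1 (p := 0)
      (Ball.mono A.met (y := γ 0) ha (by rw [A.met.self]; omega)) (i 0) (Nat.zero_le _)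
      (hi 0 (Nat.zero_le _)).1 (by omega)
    have := (N a).mul_mem w.1 (R1.nul0 a (A.ball_self ha))
    rw [inv_mul_cancel_right] at this
    exact (N a).inv_mem this
  · intro p hp a ha
    have e1 := hrung p hp.le
    have e2 := hup p hp
    obtain ⟨b, -, b2, -, b4⟩ := A.shift (φ (i p))⁻¹ a
    have w := A.window hk h h' (by omega) R1 (p := i p)
      (b4 _ _ (ha.mono A.met (by omega))) (i (p + 1)) e2.2
      (hi (p + 1) hp).1 (by omega)
    have := (N a).inv_mem ((b2 _).1 w.1)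
    simpa [mul_assoc] using this

theorem compE (hk : 20 * k + 20 ≤ U) (hσ : 3000 * U ≤ σ) {γ γ' γ'' : ℕ → V} {n n' n'' : ℕ}
    {f g : F} (h : LG d N good U γ n) (h' : LG d N good U γ' n') (h'' : LG d N good U γ'' n'')
    (h0 : γ 0 = γ' 0) (h0' : γ' 0 = γ'' 0) (hr : d (γ n) (f • γ' n') ≤ 3 * U)
    (hr' : d (γ' n') (g • γ'' n'') ≤ 3 * U) (l1 : LadE d N good U k γ n γ' n' f)
    (l2 : LadE d N good U k γ' n' γ'' n'' g) : LadE d N good U k γ n γ'' n'' (f * g) :=
  A.contract hk hσ h h'' (h0.trans h0') (by omega)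
    (A.comp hk hσ h h' h'' h0 h0' (by omega) (by omega) l1 l2)

theorem symmE (hk : 20 * k + 20 ≤ U) (hσ : 3000 * U ≤ σ) {γ γ' : ℕ → V} {n n' : ℕ} {f : F}
    (h : LG d N good U γ n) (h' : LG d N good U γ' n') (h0 : γ 0 = γ' 0)
    (hr : d (γ n) (f • γ' n') ≤ U) (l1 : LadE d N good U k γ n γ' n' f) :
    LadE d N good U k γ' n' γ n f⁻¹ :=
  A.contract hk hσ h' h h0.symm le_rfl (A.symm hk hσ h h' h0 (by omega) l1)

/-- A path and an initial segment; the last translate may be any short null element. -/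
theorem lad_self (hk : 20 * k + 20 ≤ U) (hσ : 3000 * U ≤ σ) {γ : ℕ → V} {n n' : ℕ} {f : F}
    (h : LG d N good U γ n) (h1 : n' ≤ n) (h2 : n ≤ n' + 1) (hf : Nul N good (γ n) f)
    (hd : d (γ n) (f • γ n') ≤ U) : LadE d N good U k γ n γ n' f := by
  refine A.contract hk hσ h (h.mono h1) rfl (R := U) (by omega)
    ⟨fun i => min i n', fun i => if i = n then f else 1, by simp [h1], by simp, ?_⟩
  refine A.rungs_mk hk hσ h (h.mono h1) rfl (by omega) (by simp) ?_ (fun i _ => min_le_right _ _)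
    ?_ (fun i _ => by omega) (fun i _ => by omega) ?_
  · intro a ha
    split_ifs with e
    · subst e
      exact hf a (A.ball_self ha)
    · exact (N a).one_mem
  · intro i hi
    split_ifs with e
    · subst e
      rwa [min_eq_right h1]
    · rw [min_eq_left (by omega), one_smul, A.met.self]
      omega
  · intro i hi a ha
    rw [if_neg hi.ne]
    split_ifs with e
    · subst e
      have := h.step i hi
      simpa using hf a (ha _ (by omega))
    · simp

end Atlas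

end Pool.Agent.Lib.MP_429c3d_al.Hyp
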