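import Pool.Agent.Lib.MP_429c3d_al.HypBlowH
import Pool.Agent.Lib.MP_429c3d_al.HypChain

set_option autoImplicit false
set_option linter.unusedSectionVars false

/-! Nearest point projections to quasi-convex sets with bounded overlaps. -/

namespace Pool.Agent.Lib.MP_429c3d_al.Hyp

/-- A family of quasi-convex sets with bounded overlaps. -/
structure QFam {V I : Type} (d : V → V → ℕ) (Z : I → V → Prop) (k α D : ℕ) : Prop where
  gr : IsGr d
  hyp : Hyp4 d k
  ne : ∀ i, ∃ a, Z i a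
  qc : ∀ i a b w, Z i a → Z i b → d a w + d w b = d a b → ∃ u, Z i u ∧ d w u ≤ α
  ov : ∀ i j a b a' b' ρ, i ≠ j → Z i a → Z i b → Z j a' → Z j b' → d a a' ≤ ρ → d b b' ≤ ρ →
    d a b ≤ D + 2 * ρ

/-- `a` is a nearest point of `Z i`. -/
def Nr {V I : Type} (d : V → V → ℕ) (Z : I → V → Prop) (i : I) (x a : V) : Prop :=
  Z i a ∧ ∀ b, Z i b → d x a ≤ d x b

/-- The bound for projections. -/
def prjC (k α D : ℕ) : ℕ := D + 12 * α + 30 * k + 10

variable {V I : Type} {d : V → V → ℕ} {Z : I → V → Prop} {k α D : ℕ}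

namespace QFam

variable (Q : QFam d Z k α D)
include Q

theorem exists_nr (i : I) (x : V) : ∃ a, Nr d Z i x a := by
  classical
  have ex : ∃ n, ∃ a, Z i a ∧ d x a = n := (Q.ne i).elim fun a h => ⟨_, a, h, rfl⟩
  obtain ⟨a, h1, h2⟩ := Nat.find_spec ex
  exact ⟨a, h1, fun b hb => h2 ▸ Nat.find_min' ex ⟨b, hb, rfl⟩⟩

theorem nr_self {i : I} {a : V} (ha : Z i a) : Nr d Z i a a :=
  ⟨ha, fun _ _ => by rw [Q.gr.met.self]; omega⟩

theorem nr_prod {i : I} {p a b : V} (ha : Nr d Z i p a) (hb : Z i b) :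
    d p a + d a b ≤ d p b + (2 * α + 2 * k + 1) := by
  have m := Q.gr.met
  have t1 := m.tri a p b
  have s1 := m.symm a p
  obtain ⟨u, u1, u2⟩ := near_mid m Q.hyp Q.gr.geo a b p (c := d p a + d p b - d a b) (by omega)
  obtain ⟨v, hv, v1⟩ := Q.qc i a b u ha.1 hb u1
  have := ha.2 v hv
  have := m.tri p u v
  omega

theorem nr_two {i : I} {p q a b : V} (ha : Nr d Z i p a) (hb : Nr d Z i q b) :
    d a b ≤ 2 * α + 3 * k + 1 ∨ d p a + d a b + d q b ≤ d p q + (4 * α + 5 * k + 2) := by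
  have m := Q.gr.met
  have e1 := Q.nr_prod ha hb.1
  have e2 := Q.nr_prod hb ha.1
  have e3 := Q.hyp p b q a
  have := m.symm a b
  have := m.symm b q
  have := m.symm a q
  omega

theorem near_Z {i : I} {p q w a b : V} (ha : Z i a) (hb : Z i b) (hw : d p w + d w q = d p q)
    (h1 : d p a + (k + 1) ≤ d p w) (h2 : d q b + (k + 1) ≤ d q w) :
    ∃ u, Z i u ∧ d w u ≤ α + 2 * k := by
  have m := Q.gr.met
  have e1 := Q.hyp p q a w
  have e2 := Q.hyp q a b w
  have t1 := m.tri p a w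
  have t2 := m.tri q b w
  have := m.symm w q
  have := m.symm w a
  have := m.symm w b
  have := m.symm q a
  obtain ⟨u, u1, u2⟩ := near_mid m Q.hyp Q.gr.geo a b w (c := 2 * k) (by omega)
  obtain ⟨v, hv, v1⟩ := Q.qc i a b u ha hb u1
  have := m.tri w u v
  exact ⟨v, hv, by omega⟩

theorem nr_edge {i : I} {p q a b : V} (ha : Nr d Z i p a) (hb : Nr d Z i q b) (h : d p q ≤ 1) :
    d a b ≤ prjC k α D := by
  have := Q.nr_two ha hb
  unfold prjC
  omega

/-- Two points of one set have close projections to the other sets. -/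
theorem nr_other {i j : I} (hij : j ≠ i) {p q a b : V} (hp : Z j p) (hq : Z j q)
    (ha : Nr d Z i p a) (hb : Nr d Z i q b) : d a b ≤ prjC k α D := by
  by_contra hc
  unfold prjC at hc
  have m := Q.gr.met
  have e1 := Q.nr_two ha hb
  obtain ⟨w, w1, w2⟩ := Q.gr.geo.mid m p q (s := d p a + (k + 1)) (by omega)
  obtain ⟨w', w1', w2'⟩ := Q.gr.geo.mid m w q (s := d w q - (d q b + (k + 1))) (by omega)
  have s1 := m.symm w q
  have s2 := m.symm w' q
  have t0 := m.tri p w w'
  have t1 := m.tri p w' q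
  obtain ⟨x, hx, x1⟩ := Q.qc j p q w hp hq (by omega)
  obtain ⟨x', hx', x1'⟩ := Q.qc j p q w' hp hq (by omega)
  obtain ⟨y, hy, y1⟩ := Q.near_Z (p := p) (q := q) (w := w) ha.1 hb.1 (by omega) (by omega)
    (by omega)
  obtain ⟨y', hy', y1'⟩ := Q.near_Z (p := p) (q := q) (w := w') ha.1 hb.1 (by omega) (by omega)
    (by omega)
  have := m.tri x w y
  have := m.tri x' w' y'
  have := m.symm x w
  have := m.symm x' w'
  have := Q.ov j i x x' y y' (2 * α + 2 * k) hij hx hx' hy hy' (by omega) (by omega)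
  have := m.tri w x w'
  have := m.tri x x' w'
  omega

end QFam

theorem IsGr.comap {V W : Type} {d : V → V → ℕ} (Γ : IsGr d) (f : W → V)
    (hf : Function.Bijective f) : IsGr (fun x y => d (f x) (f y)) := by
  refine ⟨⟨fun x => Γ.met.self _, fun x y => Γ.met.symm _ _, fun x y z => Γ.met.tri _ _ _⟩,
    fun x y h => hf.1 (Γ.sep _ _ h), fun x y => ?_⟩
  obtain ⟨g, g0, g1, g2⟩ := Γ.geo (f x) (f y)
  choose s hs using hf.2
  exact ⟨fun i => s (g i), hf.1 (by rw [hs, g0]), by simpa only [hs] using g1,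
    fun i j a b c => by simpa only [hs] using g2 i j a b c⟩

theorem isGr_unique {V : Type} (h : ∀ x y : V, x = y) : IsGr (fun _ _ : V => 0) :=
  ⟨⟨fun _ => rfl, fun _ _ => rfl, fun _ _ _ => le_rfl⟩, fun x y _ => h x y,
    fun x _ => ⟨fun _ => x, rfl, rfl, fun i j _ b c => by simp only at c ⊢; omega⟩⟩

/-- Lipschitz bounds from edges. -/
theorem IsGr.lip {V W : Type} {d : V → V → ℕ} (Γ : IsGr d) {dW : W → W → ℕ} (m : IsMet dW)
    (f : V → W) {c : ℕ} (h : ∀ x y, d x y ≤ 1 → dW (f x) (f y) ≤ c) (x y : V) :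
    dW (f x) (f y) ≤ c * d x y := by
  refine Γ.induct x (P := fun n y => dW (f x) (f y) ≤ c * n) (by rw [m.self]; omega) ?_ y
  intro n u v _ _ h1 ih
  have := h u v h1.le
  have := m.tri (f x) (f u) (f v)
  rw [Nat.mul_add]
  omega

/-- Maps that preserve edges in both directions are isometries. -/
theorem IsGr.iso {V G : Type} [Group G] [MulAction G V] {d : V → V → ℕ} (Γ : IsGr d)
    (h : ∀ (g : G) x y, d x y ≤ 1 → d (g • x) (g • y) ≤ 1) (g : G) (x y : V) :
    d (g • x) (g • y) = d x y := by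
  have key : ∀ (g : G) x y, d (g • x) (g • y) ≤ d x y := fun g x y => by
    simpa using Γ.lip Γ.met (g • ·) (h g) x y
  have := key g⁻¹ (g • x) (g • y)
  rw [inv_smul_smul, inv_smul_smul] at this
  exact le_antisymm (key g x y) this

end Pool.Agent.Lib.MP_429c3d_al.Hyp
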