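import Pool.Agent.Lib.MP_429c3d_al.HypLad

set_option autoImplicit false
set_option linter.unusedSectionVars false

/-! Tightening of chains to local geodesics. -/

namespace Pool.Agent.Lib.MP_429c3d_al.Hyp

variable {V F I : Type} [Group F] [MulAction F V]
variable {d : V → V → ℕ} {N : I → Subgroup F} {good : V → I → Prop} {k σ U : ℕ}

/-- Chains with long inner segments and small defects. -/
structure Chain (d : V → V → ℕ) (N : I → Subgroup F) (good : V → I → Prop) (U r c : ℕ)
    (p : ℕ → V) (m : ℕ) : Prop where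
  len : ∀ i, i < m → d (p i) (p (i + 1)) ≤ 250 * U
  long : ∀ i, i + 2 < m → ∀ a, Ball d good a (p (i + 1)) (1000 * U) →
    200 * U + 2 * r ≤ qd d (N a) (p (i + 1)) (p (i + 2))
  defect : ∀ i, i + 1 < m → ∀ a, Ball d good a (p (i + 1)) (1000 * U) →
    qd d (N a) (p (i + 1)) (p i) + qd d (N a) (p (i + 1)) (p (i + 2)) ≤
      qd d (N a) (p i) (p (i + 2)) + c

theorem exists_concat (H : ℕ → ℕ → V) (l : ℕ → ℕ) (hH : ∀ i, H i (l i) = H (i + 1) 0) (m : ℕ) :
    ∃ (β : ℕ → V) (t : ℕ → ℕ), t 0 = 0 ∧ (∀ i, t (i + 1) = t i + l i) ∧ β 0 = H 0 0 ∧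
      ∀ i, i < m → ∀ s, s ≤ l i → β (t i + s) = H i s := by
  let t : ℕ → ℕ := fun i => ∑ j ∈ Finset.range i, l j
  have ht : ∀ i, t (i + 1) = t i + l i := fun i => Finset.sum_range_succ _ _
  have hmono : Monotone t := monotone_nat_of_le_succ fun i => by rw [ht]; omega
  suffices h : ∃ β : ℕ → V, β (t m) = H m 0 ∧ β 0 = H 0 0 ∧
      ∀ i, i < m → ∀ s, s ≤ l i → β (t i + s) = H i s by
    obtain ⟨β, -, h1, h2⟩ := h
    exact ⟨β, t, by simp [t], ht, h1, h2⟩
  induction m with
  | zero => exact ⟨fun _ => H 0 0, rfl, rfl, fun i hi => by omega⟩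
  | succ m ih =>
    obtain ⟨β, b0, b1, b2⟩ := ih
    have key : ∀ s, (if t m + s ≤ t m then β (t m + s) else H m (t m + s - t m)) = H m s := by
      intro s
      split_ifs with e
      · have : s = 0 := by omega
        subst this
        exact b0
      · rw [Nat.add_sub_cancel_left]
    refine ⟨fun s => if s ≤ t m then β s else H m (s - t m), ?_, ?_, ?_⟩
    · simp only [ht]
      rw [key, hH]
    · simp only [Nat.zero_le, if_true, b1]
    · intro i hi s hs
      by_cases hc : i = m
      · subst hc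
        exact key s
      · have e1 := hmono (show i + 1 ≤ m by omega)
        rw [ht] at e1
        simp only
        rw [if_pos (by omega)]
        exact b2 i (by omega) s hs

namespace Atlas

variable (A : Atlas d N good k σ)
include A

theorem exists_min_chain (hk : 20 * k + 20 ≤ U) (hσ : 3000 * U ≤ σ) {r c m : ℕ} {p : ℕ → V}
    (hr : r ≤ U) (hc : c + 4 * k + 1 ≤ 2 * r) (hp : Chain d N good U r c p m) (hm : 1 ≤ m)
    (a : ℕ → I) (ha : ∀ i, Ball d good (a i) (p i) σ) :
    ∃ q : ℕ → V, q 0 = p 0 ∧ q m = p m ∧ (∀ i, d (p i) (q i) ≤ r) ∧ ∀ i, i + 1 < m →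
      qd d (N (a (i + 1))) (q i) (q (i + 1)) + qd d (N (a (i + 1))) (q (i + 1)) (q (i + 2)) ≤
        qd d (N (a (i + 1))) (q i) (q (i + 2)) := by
  classical
  have hex : ∃ s, ∃ q : ℕ → V, q 0 = p 0 ∧ q m = p m ∧ (∀ i, d (p i) (q i) ≤ r) ∧
      ∑ i ∈ Finset.range m, qd d (N (a i)) (q i) (q (i + 1)) = s :=
    ⟨_, p, rfl, rfl, fun i => by rw [A.met.self]; omega, rfl⟩
  obtain ⟨q, q0, qm, qr, qs⟩ := Nat.find_spec hex
  refine ⟨q, q0, qm, qr, fun i hi => ?_⟩
  by_contra hcon
  have hb := ha (i + 1)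
  have M := A.qmet (a (i + 1))
  have hb' : Ball d good (a (i + 1)) (p (i + 1)) (1000 * U) :=
    hb.mono A.met (by rw [A.met.self]; omega)
  have l0 := hp.len i (by omega)
  have l1 := hp.len (i + 1) hi
  have s0 := A.met.symm (p i) (p (i + 1))
  have d0 := hp.defect i hi _ hb'
  have c0 := qd_le' (d := d) (N (a (i + 1))) (p i) (q i)
  have c2 := qd_le' (d := d) (N (a (i + 1))) (p (i + 2)) (q (i + 2))
  have r0 := qr i
  have r1 := qr (i + 1)
  have r2 := qr (i + 2)
  have e1 : qd d (N (a (i + 1))) (p (i + 1)) (q i) +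
      qd d (N (a (i + 1))) (p (i + 1)) (p (i + 2)) ≤
      qd d (N (a (i + 1))) (q i) (p (i + 2)) + c + k := by
    rcases i with _ | i
    · rw [q0]
      omega
    · have lg := hp.long i (by omega) (a (i + 1 + 1)) (hb.mono A.met (by omega))
      have := A.hypN (a (i + 1 + 1)) (p (i + 1)) (p (i + 1 + 2)) (q (i + 1)) (p (i + 1 + 1))
      have := M.symm (p (i + 1)) (p (i + 1 + 1))
      have := M.symm (p (i + 1 + 2)) (p (i + 1 + 1))
      have := M.symm (p (i + 1 + 2)) (q (i + 1))
      have := M.symm (p (i + 1 + 1)) (q (i + 1))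
      have e : i + 2 = i + 1 + 1 := rfl
      rw [e] at lg
      omega
  have e2 : qd d (N (a (i + 1))) (p (i + 1)) (q i) +
      qd d (N (a (i + 1))) (p (i + 1)) (q (i + 2)) ≤
      qd d (N (a (i + 1))) (q i) (q (i + 2)) + (c + 2 * k) := by
    by_cases he : i + 2 = m
    · rw [he, qm, ← he]
      omega
    · have lg := hp.long i (by omega) _ hb'
      have := A.hypN (a (i + 1)) (p (i + 2)) (q i) (q (i + 2)) (p (i + 1))
      have := M.symm (p (i + 2)) (p (i + 1))
      have := M.symm (p (i + 2)) (q i)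
      have := M.symm (p (i + 1)) (q i)
      have := M.symm (p (i + 1)) (q (i + 2))
      omega
  obtain ⟨f, hf, g, g0, g1, -, -, g3⟩ :=
    exists_qgeo A.met A.inv A.geo (N (a (i + 1))) (q i) (q (i + 2))
  have g1' := A.sep _ _ g1
  have e3 : ∀ x, qd d (N (a (i + 1))) x (g (qd d (N (a (i + 1))) (q i) (q (i + 2)))) =
      qd d (N (a (i + 1))) x (q (i + 2)) := fun x => by rw [g1', qd_smul_right hf]
  obtain ⟨s, -, s2, s3⟩ := near_geo M (A.hypN _) g3 (Nat.zero_le _) (p (i + 1)) (c := c + 2 * k)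
    (by rw [g0, e3]; omega)
  obtain ⟨ν, hν, e4⟩ := exists_qd d (N (a (i + 1))) (p (i + 1)) (g s)
  have e5 := g3 0 s le_rfl (Nat.zero_le _) s2
  have e6 := g3 s _ (Nat.zero_le _) s2 le_rfl
  rw [g0] at e5
  rw [e3] at e6
  have e7 : qd d (N (a (i + 1))) (q i) (ν • g s) = qd d (N (a (i + 1))) (q i) (g s) :=
    qd_smul_right hν _ _
  have e8 : qd d (N (a (i + 1))) (ν • g s) (q (i + 2)) =
      qd d (N (a (i + 1))) (g s) (q (i + 2)) := qd_smul_left A.met A.inv hν _ _
  have t1 := A.met.tri (p (i + 1)) (p i) (q i)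
  have gi : good (q i) (a i) := ha i _ (by omega)
  have gi' : good (q i) (a (i + 1)) := hb _ (by omega)
  have ind : ∀ y, d (p (i + 1)) y ≤ r → qd d (N (a i)) (q i) y = qd d (N (a (i + 1))) (q i) y := by
    intro y hy
    have := A.met.tri (q i) (p (i + 1)) y
    have := A.met.symm (q i) (p (i + 1))
    exact A.qd_indep gi gi' (by omega)
  let q' : ℕ → V := Function.update q (i + 1) (ν • g s)
  have u0 : q' i = q i := Function.update_of_ne (by omega) _ _
  have u1 : q' (i + 1) = ν • g s := Function.update_self _ _ _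
  have u2 : q' (i + 1 + 1) = q (i + 2) := Function.update_of_ne (by omega) _ _
  have hsub : ({i, i + 1} : Finset ℕ) ⊆ Finset.range m := by
    intro x hx
    simp only [Finset.mem_insert, Finset.mem_singleton] at hx
    simp only [Finset.mem_range]
    omega
  have hlt : ∑ j ∈ Finset.range m, qd d (N (a j)) (q' j) (q' (j + 1)) < Nat.find hex := by
    rw [← qs, ← Finset.sum_sdiff hsub, ← Finset.sum_sdiff hsub,
      Finset.sum_pair (by omega), Finset.sum_pair (by omega)]
    have e9 : ∑ j ∈ Finset.range m \ {i, i + 1}, qd d (N (a j)) (q' j) (q' (j + 1)) =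
        ∑ j ∈ Finset.range m \ {i, i + 1}, qd d (N (a j)) (q j) (q (j + 1)) := by
      refine Finset.sum_congr rfl fun j hj => ?_
      simp only [Finset.mem_sdiff, Finset.mem_insert, Finset.mem_singleton] at hj
      rw [show q' j = q j from Function.update_of_ne (by omega) _ _,
        show q' (j + 1) = q (j + 1) from Function.update_of_ne (by omega) _ _]
    rw [e9, u0, u1, u2, ind _ (by omega), ind _ r1]
    have e : i + 1 + 1 = i + 2 := rfl
    rw [e]
    omega
  refine Nat.find_min hex hlt ⟨q', ?_, ?_, ?_, rfl⟩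
  · exact (Function.update_of_ne (by omega) _ _).trans q0
  · exact (Function.update_of_ne (by omega) _ _).trans qm
  · intro j
    by_cases hj : j = i + 1
    · subst hj
      rw [u1]
      omega
    · rw [show q' j = q j from Function.update_of_ne hj _ _]
      exact qr j

theorem tighten (hk : 20 * k + 20 ≤ U) (hσ : 3000 * U ≤ σ) {r c m : ℕ} {p : ℕ → V}
    (hr : r ≤ U) (hc : c + 4 * k + 1 ≤ 2 * r) (hp : Chain d N good U r c p m) (hm : 1 ≤ m) :
    ∃ (β : ℕ → V) (t : ℕ → ℕ) (h : ℕ → F), LG d N good U β (t m) ∧ β 0 = p 0 ∧ t 0 = 0 ∧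
      h 0 = 1 ∧ h m • β (t m) = p m ∧ (∀ i, i ≤ m → d (p i) (h i • β (t i)) ≤ r) ∧
      (∀ i, i ≤ m → t i ≤ t m) ∧
      ∀ i, i < m → t i ≤ t (i + 1) ∧ t (i + 1) ≤ t i + 252 * U ∧
        Nul N good (p i) (h (i + 1) * (h i)⁻¹) ∧
        d (p i) ((h (i + 1) * (h i)⁻¹) • p i) ≤ 600 * U ∧
        ∀ a, Ball d good a (p i) (1000 * U) →
          GeoOn (qd d (N a)) (fun s => h i • β s) (t i) (t (i + 1)) := by
  choose a ha using fun i => A.cover (p i)
  have ha' : ∀ i, Ball d good (a i) (p i) σ := ha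
  obtain ⟨q, q0, qm, qr, qz⟩ := A.exists_min_chain hk hσ hr hc hp hm a ha'
  choose f hf g g0 g1 g2 g3 g4 using fun i =>
    exists_qgeo A.met A.inv A.geo (N (a i)) (q i) (q (i + 1))
  obtain ⟨l, hl⟩ : ∃ l : ℕ → ℕ, ∀ i, l i = qd d (N (a i)) (q i) (q (i + 1)) := ⟨_, fun _ => rfl⟩
  simp only [← hl] at g1 g2 g3 g4
  have g1' : ∀ i, g i (l i) = f i • q (i + 1) := fun i => A.sep _ _ (g1 i)
  let H : ℕ → F := fun i => Nat.rec 1 (fun i x => x * f i) i
  have H0 : H 0 = 1 := rfl
  have HS : ∀ i, H (i + 1) = H i * f i := fun _ => rfl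
  obtain ⟨β, t, t0, ts, β0, hβ⟩ := exists_concat (fun i s => H i • g i s) l
    (fun i => by simp only [g1', g0, HS, mul_smul]) m
  have hmono : Monotone t := monotone_nat_of_le_succ fun i => by rw [ts]; omega
  have hqq : ∀ i, i < m → d (q i) (q (i + 1)) ≤ 252 * U := by
    intro i hi
    have := hp.len i hi
    have := qr i
    have := qr (i + 1)
    have := A.met.tri (q i) (p i) (q (i + 1))
    have := A.met.tri (p i) (p (i + 1)) (q (i + 1))
    have := A.met.symm (q i) (p i)
    omega
  have hll : ∀ i, i < m → l i ≤ 252 * U := fun i hi =>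
    (hl i ▸ qd_le' (d := d) (N (a i)) (q i) (q (i + 1))).trans (hqq i hi)
  have hβt : ∀ i, i ≤ m → β (t i) = H i • q i := by
    intro i hi
    rcases i with _ | i
    · rw [t0, β0]
      simp only [g0]
    · rw [ts, hβ i hi _ le_rfl]
      simp only [g1', HS, mul_smul]
  have hstep : ∀ s, s < t m → d (β s) (β (s + 1)) ≤ 1 := by
    intro s hs
    obtain ⟨i, i1, i2, i3⟩ := exists_interval (e := t) (by omega) hs
    obtain ⟨u, rfl⟩ : ∃ u, s = t i + u := ⟨s - t i, by omega⟩
    rw [ts] at i3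
    rw [hβ i i1 u (by omega), add_assoc, hβ i i1 (u + 1) (by omega)]
    have := g3 i u (u + 1) (Nat.zero_le _) (by omega) (by omega)
    simp only [A.inv]
    omega
  have hlip : ∀ s s', s ≤ s' → s' ≤ t m → d (β s) (β s') + s ≤ s' := fun s s' h1 h2 =>
    lip_le A.met (a := 0) (b := t m) (fun i _ hi => hstep i hi) (Nat.zero_le _) h1 h2
  have hmove : ∀ i, i < m → d (q i) (f i • q i) ≤ 504 * U := by
    intro i hi
    have e := A.move_le (q i) (q (i + 1)) (q (i + 1)) 1 (f i)
    rw [inv_one, mul_one, one_smul, A.met.self, g2] at e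
    have := hqq i hi
    have := hll i hi
    omega
  have hfN : ∀ i, i < m → ∀ b, good (q i) b → f i ∈ N b := by
    intro i hi b hb
    have := qr i
    have := hmove i hi
    exact A.compat (q i) (a i) b _ (ha i _ (by omega)) hb (by omega) (hf i)
  have hgeo : ∀ (b : I) (φ : F) (u v : ℕ), v ≤ t m → v ≤ qd d (N b) (φ • β u) (φ • β v) + u →
      GeoOn (qd d (N b)) (fun s => φ • β s) u v := by
    intro b φ u v hv he
    refine geoOn_of_le (A.qmet b) (fun s s' _ h2 h3 => ?_) he
    have := hlip s s' h2 (by omega)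
    have := A.qd_smul_le b φ (β s) (β s')
    omega
  have hone : ∀ i, i < m → ∀ b, good (q i) b →
      GeoOn (qd d (N b)) (fun s => (H i)⁻¹ • β s) (t i) (t (i + 1)) := by
    intro i hi b hb
    refine hgeo b _ _ _ (hmono hi) ?_
    have := qr i
    have := hqq i hi
    rw [hβt i hi.le, hβt (i + 1) hi, HS, mul_smul, inv_smul_smul, inv_smul_smul,
      qd_smul_right (hfN i hi b hb),
      ← A.qd_indep (ha i (q i) (by omega)) hb (by omega), ts, ← hl]
    omega
  have htwo : ∀ i, i + 1 < m →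
      GeoOn (qd d (N (a (i + 1)))) (fun s => (H i)⁻¹ • β s) (t i) (t (i + 2)) := by
    intro i hi
    refine hgeo _ _ _ _ (hmono hi) ?_
    have r0 := qr i
    have l0 := hp.len i (by omega)
    have := A.met.tri (p (i + 1)) (p i) (q i)
    have := A.met.symm (p (i + 1)) (p i)
    have := hqq i (by omega)
    have gi : good (q i) (a (i + 1)) := ha (i + 1) _ (by omega)
    have e1 := qz i hi
    rw [← A.qd_indep (ha i (q i) (by omega)) gi (by omega), ← hl, ← hl] at e1
    have e2 : H (i + 2) = H i * f i * f (i + 1) := rfl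
    have e3 : t (i + 2) = t i + l i + l (i + 1) := by rw [← ts, ← ts]
    rw [hβt i (by omega), hβt (i + 2) hi, e2, mul_smul, mul_smul, inv_smul_smul, inv_smul_smul,
      qd_smul_right (hfN i (by omega) _ gi), qd_smul_right (hf (i + 1)), e3]
    omega
  refine ⟨β, t, fun i => (H i)⁻¹, ⟨hstep, ?_⟩, ?_, t0, by simp only [H0, inv_one], ?_, ?_,
    fun i hi => hmono hi, ?_⟩
  · intro b s s' h1 h2 h3 h4
    by_cases hs : s = t m
    · have : s' = s := by omega
      rw [this, (A.qmet b).self]
      omega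
    obtain ⟨i, i1, i2, i3⟩ := exists_interval (e := t) (s := s) (m := m) (by omega) (by omega)
    have e1 := hlip s s' h1 h2
    have e2 := hlip (t i) s i2 (by omega)
    have e3 := ts i
    have e4 := hll i i1
    have r0 := qr i
    have e5 : d (p i) ((H i)⁻¹ • β s) ≤ 253 * U := by
      have := A.met.tri (H i • p i) (β (t i)) (β s)
      rw [hβt i i1.le, A.inv, ← hβt i i1.le] at this
      rw [← A.inv (H i), smul_inv_smul]
      omega
    obtain ⟨b', b1, -, b3, -⟩ := A.shift (H i) b
    have h4' : good ((H i)⁻¹ • β s) b' := (b1 _).1 (by rwa [smul_inv_smul])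
    have e9 := b3 ((H i)⁻¹ • β s) ((H i)⁻¹ • β s')
    have e10 := A.inv (H i)⁻¹ (β s) (β s')
    rw [smul_inv_smul, smul_inv_smul] at e9
    rw [e9]
    by_cases hi : i + 1 < m
    · have l0 := hp.len i i1
      have e6 : good ((H i)⁻¹ • β s) (a (i + 1)) := by
        refine ha' (i + 1) _ ?_
        have := A.met.tri (p (i + 1)) (p i) ((H i)⁻¹ • β s)
        rw [A.met.symm (p (i + 1)) (p i)] at this
        omega
      rw [A.qd_indep h4' e6 (by omega)]
      refine htwo i hi s s' i2 h1 ?_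
      by_cases hi2 : i + 2 = m
      · rw [hi2]
        exact h2
      · have lg := hp.long i (by omega) (a (i + 1))
          ((ha' (i + 1)).mono A.met (by rw [A.met.self]; omega))
        have M := A.qmet (a (i + 1))
        have c1 := qd_le' (d := d) (N (a (i + 1))) (p (i + 1)) (q (i + 1))
        have c2 := qd_le' (d := d) (N (a (i + 1))) (p (i + 2)) (q (i + 2))
        have := M.tri (p (i + 1)) (q (i + 1)) (p (i + 2))
        have := M.tri (q (i + 1)) (q (i + 2)) (p (i + 2))
        have := M.symm (q (i + 2)) (p (i + 2))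
        have := qr (i + 1)
        have := qr (i + 2)
        have e7 := hl (i + 1)
        have e8 := ts (i + 1)
        have e : i + 1 + 1 = i + 2 := rfl
        rw [e] at e7 e8
        omega
    · have e6 : good ((H i)⁻¹ • β s) (a i) := ha' i _ (by omega)
      rw [A.qd_indep h4' e6 (by omega)]
      refine hone i i1 _ (ha i _ (by omega)) s s' i2 h1 ?_
      rw [show i + 1 = m by omega]
      exact h2
  · rw [β0]
    simp only [H0, one_smul, g0, q0]
  · simp only [hβt m le_rfl, inv_smul_smul, qm]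
  · intro i hi
    simp only [hβt i hi, inv_smul_smul]
    exact qr i
  · intro i hi
    have e1 := ts i
    have e2 := hll i hi
    have e3 : (H (i + 1))⁻¹ * (H i)⁻¹⁻¹ = (f i)⁻¹ := by
      rw [HS]
      group
    have r0 := qr i
    have e4 : d (p i) ((f i)⁻¹ • p i) ≤ 600 * U := by
      have := hmove i hi
      have t1 := A.met.tri (f i • p i) (f i • q i) (p i)
      have t2 := A.met.tri (f i • q i) (q i) (p i)
      rw [A.inv] at t1
      rw [A.met.symm (f i • q i) (q i), A.met.symm (q i) (p i)] at t2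
      rw [← A.inv (f i) (p i) ((f i)⁻¹ • p i), smul_inv_smul]
      omega
    refine ⟨by omega, by omega, ?_, by simp only [e3, e4], ?_⟩
    · simp only [e3]
      exact A.nul_of_mem (A.ball_self (ha' i)) ((N _).inv_mem (hf i)) (by omega)
    · intro b hb s s' h1 h2 h3
      exact hone i hi b (hb _ (by omega)) s s' h1 h2 h3

end Atlas

end Pool.Agent.Lib.MP_429c3d_al.Hyp
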