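import Pool.Agent.Lib.MP_429c3d_al.NgStp

set_option autoImplicit false
set_option linter.unusedSectionVars false

/-! Backward arms. -/

namespace Pool.Agent.Lib.MP_429c3d_al.Ng

open Hyp

variable {AA N0 T K : Type} [CommGroup AA]

/-- All neighbours of `w` lie on the line of `ε`. -/
def St.Nb {N : Type} (S : St AA N K) (w : S.Z) (ε : S.G) (o : S.Z) : Prop :=
  ∀ x, S.d w x = 1 → ∃ i : ℤ, x = ε ^ i • o

/-- A backward arm with the heights from `-r` to `-r₀`. -/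
structure PArm (S : St AA (Nm N0 T) K) (o : S.Z) (Y C : S.G) (p : S.Z) (η : AA) (τ : T)
    (r₀ r : ℕ) (ε : S.G) (P : ℕ → S.Z) : Prop where
  le : r₀ ≤ r
  fp : S.Fl o p
  fixY : Y • o = o
  labY : S.lab o Y = η
  fl : ∀ j, r₀ ≤ j → j ≤ r → S.Fl o (P j)
  ap : ∀ j, r₀ ≤ j → j ≤ r → S.ap (P j)
  cls : ∀ j, r₀ ≤ j → j ≤ r → S.cls (P j) = S.cls o
  nmE : ∀ j, r₀ ≤ j → j ≤ r → S.nm o (P j) = .inr (τ, true, -(j : ℤ))
  nmF : ∀ j, r₀ ≤ j → j ≤ r → S.nm (P j) o = .inr (τ, false, -(j : ℤ))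
  df : ∀ j, r₀ ≤ j → j ≤ r → S.df o p (P j) = η ^ (-(j : ℤ))
  fix : ∀ j k, r₀ ≤ j → j + k = r → cs Y ε k • P j = P j
  lab : ∀ j k, r₀ ≤ j → j + k = r → S.lab (P j) (cs Y ε k) = η
  lf : ∀ j k, r₀ ≤ j → j + k = r → LF o (cs Y ε k) (j - 1)
  succ : ∀ j k, r₀ ≤ j → j + k + 1 = r → P j = cs Y ε k • o
  dfF : ∀ j k, r₀ ≤ j → j + k + 1 = r → S.df o (P j) ((cs Y ε k)⁻¹ • o) = 1
  top : cs Y ε r = C

variable {S S' : St AA (Nm N0 T) K} {o : S.Z} {Y C : S.G} {p : S.Z} {η : AA} {τ : T}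
  {r₀ r : ℕ} {ε : S.G} {P : ℕ → S.Z} {fin : Nm N0 T → Prop}

theorem PArm.flF (A : PArm S o Y C p η τ r₀ r ε P) (H : S.OK) {j k : ℕ} (hj : r₀ ≤ j)
    (h : j + k + 1 = r) : S.Fl o ((cs Y ε k)⁻¹ • o) := by
  have := H.fl_smul (cs Y ε k)⁻¹ (H.fl_symm (A.fl j hj (by omega)) (A.ap j hj (by omega)))
  rwa [A.succ j k hj h, inv_smul_smul] at this

theorem PArm.map (A : PArm S o Y C p η τ r₀ r ε P) (H : S.OK) (E : Emb fin S S') :
    PArm S' (E.ι o) (E.φ Y) (E.φ C) (E.ι p) η τ r₀ r (E.φ ε) fun j => E.ι (P j) where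
  le := A.le
  fp := E.fl A.fp
  fixY := E.fix A.fixY
  labY := (E.lab_ι _ _ A.fp.1 A.fixY).trans A.labY
  fl j h h' := E.fl (A.fl j h h')
  ap j h h' := (E.ap_ι _).2 (A.ap j h h')
  cls j h h' := by rw [E.cls_ι, E.cls_ι, A.cls j h h']
  nmE j h h' := (E.nm_ι _ _ (A.fl j h h')).trans (A.nmE j h h')
  nmF j h h' := (E.nm_ι _ _ (H.fl_symm (A.fl j h h') (A.ap j h h'))).trans (A.nmF j h h')
  df j h h' := (E.df_ι _ _ _ A.fp (A.fl j h h')).trans (A.df j h h')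
  fix j k h h' := by rw [← map_cs]; exact E.fix (A.fix j k h h')
  lab j k h h' := by
    rw [← map_cs, E.lab_ι _ _ (A.ap j h (by omega)) (A.fix j k h h'), A.lab j k h h']
  lf j k h h' := by rw [← map_cs]; exact E.lf _ _ _ (A.lf j k h h')
  succ j k h h' := by rw [← map_cs, ← E.ι_smul, A.succ j k h h']
  dfF j k h h' := by
    rw [← map_cs, ← map_inv, ← E.ι_smul, E.df_ι _ _ _ (A.fl j h (by omega)) (A.flF H h h'),
      A.dfF j k h h']
  top := by rw [← map_cs, A.top]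

theorem St.Nb.map {w : S.Z} (h : S.Nb w ε o) (E : Emb fin S S') (hw : S.Fl w o)
    (hf : fin (S.nm w o)) : S'.Nb (E.ι w) (E.φ ε) (E.ι o) := by
  intro x hx
  obtain ⟨x₀, rfl⟩ := E.keep w o hw hf x hx
  obtain ⟨i, rfl⟩ := h x₀ (by rwa [E.d_ι] at hx)
  exact ⟨i, by rw [E.ι_smul, map_zpow]⟩

theorem St.Nb.stab {w : S.Z} (h : S.Nb w ε o) (H : S.OK) (hw : S.Fl w o) (hε : ε • w = w)
    (c : S.G) : c • w = w ↔ ∃ k : ℤ, c = ε ^ k := by
  constructor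
  · intro hc
    obtain ⟨i, hi⟩ := h _ (H.fl_fix hw hc).2
    refine ⟨i, (inv_mul_eq_one.1 (H.two ((ε ^ i)⁻¹ * c) o w ?_ ?_ (H.fl_ne hw))).symm⟩
    · rw [mul_smul, hi, inv_smul_smul]
    · rw [mul_smul, hc, inv_smul_eq_iff, St.zpow_fix hε]
  · rintro ⟨k, rfl⟩
    exact St.zpow_fix hε k

theorem St.Nb.nm {w x : S.Z} (h : S.Nb w ε o) (H : S.OK) (hw : S.Fl w o) (hε : ε • w = w)
    (hx : S.Fl w x) : S.nm w x = S.nm w o := by
  obtain ⟨i, rfl⟩ := h x hx.2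
  rw [← H.nm_smul (ε ^ i) w o hw, St.zpow_fix hε]

theorem Stp.nb (X : Stp S S') (H' : S'.OK) : S'.Nb X.w X.e (X.ι X.t) := fun _ h => X.nb_w H' h

/-- The first piece of an arm. -/
theorem Stp.arm_start (X : Stp S S') (H' : S'.OK) {Y : S.G} (hY : Y • X.t = X.t)
    (hl : S.lab X.t Y = X.η) {p : S'.Z} (hp : S'.Fl (X.ι X.t) p) {r : ℕ} (hr : r ≤ 2)
    (h1 : X.x₁ = .inr (τ, true, -(r : ℤ))) (h2 : X.x₂ = .inr (τ, false, -(r : ℤ)))
    (hd : S'.df (X.ι X.t) p X.w = X.η ^ (-(r : ℤ))) :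
    PArm S' (X.ι X.t) (X.φ Y) (cs (X.φ Y) X.e r) p X.η τ r r X.e fun _ => X.w where
  le := le_rfl
  fp := hp
  fixY := X.φ_smul_eq.2 hY
  labY := (X.lab_ι _ _ X.ap_t hY).trans hl
  fl _ _ _ := X.fl_tw H'
  ap _ _ _ := X.ap_w
  cls _ _ _ := by rw [X.cls_w, X.cls_ι]
  nmE j h h' := by rw [X.nm_tw, h1, le_antisymm h h']
  nmF j h h' := by rw [X.nm_wt, h2, le_antisymm h h']
  df j h h' := by rw [hd, le_antisymm h h']
  fix j k h h' := by
    obtain rfl : k = 0 := by omega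
    exact X.e_w
  lab j k h h' := by
    obtain rfl : k = 0 := by omega
    exact X.lab_w
  lf j k h h' := by
    obtain rfl : k = 0 := by omega
    exact X.lf_one.mono (by omega)
  succ j k h h' := by omega
  dfF j k h h' := by omega
  top := rfl

/-- A step of type `e` prolongs an arm. -/
theorem Stp.arm_step (X : Stp S S') (H : S.OK) (H' : S'.OK) (E : Emb fin S S')
    (hφ : E.φ = X.φ) (hι : E.ι = X.ι) (A : PArm S o Y C p η τ r₀ r ε P) (h0 : 1 ≤ r)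
    (nb : S.Nb (P r) ε o) (ne : ∀ g : S.G, g • o ≠ P r) (ht : X.t = o) (hh : X.h = P r)
    (hη : X.η = η) (hξ : X.ξ = η) (hζ : X.ζ = 1)
    (h1 : X.x₁ = .inr (τ, true, -((r + 1 : ℕ) : ℤ)))
    (h2 : X.x₂ = .inr (τ, false, -((r + 1 : ℕ) : ℤ))) :
    X.e * E.φ Y * X.e⁻¹ = E.φ ε ∧ PArm S' (E.ι o) (E.φ Y) (E.φ C) (E.ι p) η τ r₀ (r + 1) X.e
      fun j => if j ≤ r then E.ι (P j) else X.w := by
  have A' := A.map H E
  rw [hφ, hι] at A' ⊢
  subst ht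
  have f0 : ε • P r = P r := A.fix r 0 A.le rfl
  have l0 : S.lab (P r) ε = η := A.lab r 0 A.le rfl
  have ec : X.e * X.φ Y * X.e⁻¹ = X.φ ε :=
    X.conj Y ε A.fixY (by rwa [hh]) (by rw [hh, l0, A.labY])
  have cc : ∀ k, cs (X.φ Y) X.e (k + 1) = cs (X.φ Y) (X.φ ε) k := fun k => by rw [cs_succ', ec]
  have two : ∀ {Q : ℕ → S'.Z → Prop}, (∀ j, r₀ ≤ j → j ≤ r → Q j (X.ι (P j))) → Q (r + 1) X.w →
      ∀ j, r₀ ≤ j → j ≤ r + 1 → Q j (if j ≤ r then X.ι (P j) else X.w) := by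
    intro Q a b j h h'
    split_ifs with hj
    · exact a j h hj
    · obtain rfl : j = r + 1 := by omega
      exact b
  have three : ∀ {Q : ℕ → S'.G → S'.Z → Prop},
      (∀ j k, r₀ ≤ j → j + k = r → Q j (cs (X.φ Y) (X.φ ε) k) (X.ι (P j))) →
      Q (r + 1) X.e X.w → ∀ j k, r₀ ≤ j → j + k = r + 1 →
        Q j (cs (X.φ Y) X.e k) (if j ≤ r then X.ι (P j) else X.w) := by
    intro Q a b j k h h'
    cases k with
    | zero =>
      obtain rfl : j = r + 1 := h'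
      rw [if_neg (by omega)]
      exact b
    | succ k =>
      rw [if_pos (by omega), cc]
      exact a j k h (by omega)
  have four : ∀ {Q : S'.G → S'.Z → Prop},
      (∀ j k, r₀ ≤ j → j + k + 1 = r → Q (cs (X.φ Y) (X.φ ε) k) (X.ι (P j))) →
      Q X.e (X.ι X.h) → ∀ j k, r₀ ≤ j → j + k + 1 = r + 1 →
        Q (cs (X.φ Y) X.e k) (if j ≤ r then X.ι (P j) else X.w) := by
    intro Q a b j k h h'
    rw [if_pos (by omega)]
    cases k with
    | zero =>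
      obtain rfl : j = r := by omega
      rw [← hh]
      exact b
    | succ k =>
      rw [cc]
      exact a j k h (by omega)
  refine ⟨ec, A.le.trans (Nat.le_succ r), A'.fp, A'.fixY, A'.labY,
    two (Q := fun _ x => S'.Fl (X.ι X.t) x) A'.fl (X.fl_tw H'),
    two (Q := fun _ x => S'.ap x) A'.ap X.ap_w,
    two (Q := fun _ x => S'.cls x = S'.cls (X.ι X.t)) A'.cls (by rw [X.cls_w, X.cls_ι]),
    two (Q := fun j x => S'.nm (X.ι X.t) x = .inr (τ, true, -(j : ℤ))) A'.nmE (X.nm_tw.trans h1),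
    two (Q := fun j x => S'.nm x (X.ι X.t) = .inr (τ, false, -(j : ℤ))) A'.nmF (X.nm_wt.trans h2),
    two (Q := fun j x => S'.df (X.ι X.t) (X.ι p) x = η ^ (-(j : ℤ))) A'.df ?_,
    three (Q := fun _ g x => g • x = x) A'.fix X.e_w,
    three (Q := fun _ g x => S'.lab x g = η) A'.lab (X.lab_w.trans hη),
    three (Q := fun j g _ => LF (X.ι X.t) g (j - 1)) A'.lf ?_,
    four (Q := fun g x => x = g • X.ι X.t) A'.succ X.e_t.symm,
    four (Q := fun g x => S'.df (X.ι X.t) x (g⁻¹ • X.ι X.t) = 1) A'.dfF (X.df_e.trans hζ),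
    by rw [cc, A'.top]⟩
  · have f1 := X.fl_ι X.fl
    have := A'.df r A.le le_rfl
    rw [← hh] at this
    rw [← H'.df_mul _ _ _ _ A'.fp f1 (X.fl_tw H'), this, H'.df_symm (X.fl_tw H') f1, X.df_w, hξ,
      ← zpow_sub_one]
    congr 1
    push_cast
    ring
  · have := X.lf_step (A.lf r 0 A.le rfl) (by rwa [hh]) (fun c hc => by
      rw [hh] at hc
      exact (nb.stab H (H.fl_symm (A.fl r A.le le_rfl) (A.ap r A.le le_rfl)) f0 c).1 hc)
      (X.estab (by rwa [hh]))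
    exact this.mono (by omega)

end Pool.Agent.Lib.MP_429c3d_al.Ng
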