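import Pool.Agent.Lib.MP_429c3d_al.NgBase

set_option autoImplicit false

/-! Group theoretic lemmas about the law. -/

namespace Pool.Agent.Lib.MP_429c3d_al.Ng

variable {G H : Type} [Group G] [Group H] {m : ℕ}

theorem isConj_cs {y c : G} (h : IsConj y c) (j : ℕ) : IsConj y (cs y c j) := by
  cases j with
  | zero => exact h
  | succ j => exact isConj_iff.2 ⟨_, rfl⟩

theorem Law.map {y c : G} (h : Law m y c) (f : G →* H) : Law m (f y) (f c) := by
  unfold Law at h ⊢
  rw [← map_cs, h]
  simp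

theorem law_of_map {y c : G} (f : G →* H) (hf : Function.Injective f) (h : Law m (f y) (f c)) :
    Law m y c := by
  unfold Law at h ⊢
  apply hf
  rw [map_cs, h]
  simp

theorem Law.conj {y c : G} (h : Law m y c) (g : G) : Law m (g * y * g⁻¹) (g * c * g⁻¹) :=
  h.map (MulAut.conj g).toMonoidHom

theorem Law.succ {y c : G} (h : Law m y c) : Law m y (c * y * c⁻¹) := by
  unfold Law at h ⊢
  rw [← cs_succ', cs, h]
  group

theorem Law.cs {y c : G} (h : Law m y c) (j : ℕ) : Law m y (cs y c j) := by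
  induction j with
  | zero => exact h
  | succ j ih => exact ih.succ

theorem law_self (y : G) : Law m y y := by
  have : ∀ j, cs y y j = y := fun j => by
    induction j with
    | zero => rfl
    | succ j ih => rw [cs, ih]; group
  unfold Law
  rw [this]
  group

theorem Law.pred (q : QQ G) {y c : G} (hc : IsConj y c) (h : Law m y (c * y * c⁻¹)) :
    Law m y c := by
  by_cases hy : y = 1
  · subst hy
    rw [isConj_one_right.1 hc]
    exact law_self 1
  unfold Law at h ⊢
  rw [← cs_succ', Ng.cs] at h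
  obtain ⟨t, ht⟩ := isConj_iff.1 (isConj_cs hc m)
  obtain ⟨s, hs⟩ := isConj_iff.1 hc
  have e : y ^ m * c * (y ^ m)⁻¹ = (y ^ m * s) * y * (y ^ m * s)⁻¹ := by rw [← hs]; group
  have := q y (y ^ m * s) t ((y ^ m * c * (y ^ m)⁻¹)⁻¹ * Ng.cs y c m) hy (by
    rw [Commute, SemiconjBy]
    calc _ = (y ^ m * c * (y ^ m)⁻¹)⁻¹ * (Ng.cs y c m * y * (Ng.cs y c m)⁻¹) * Ng.cs y c m := by
          group
      _ = _ := by rw [h]; group) (by rw [ht, ← e]; group)
  exact (inv_mul_eq_one.1 this).symm

theorem Law.of_cs (q : QQ G) {y c : G} (hc : IsConj y c) {j : ℕ} (h : Law m y (Ng.cs y c j)) :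
    Law m y c := by
  induction j with
  | zero => exact h
  | succ j ih => exact ih (Law.pred q (isConj_cs hc j) h)

/-- Treated pairs satisfy the law in the image. -/
theorem Tr.law {T : Type} {Y C : T → G} {y c : G} (h : Tr m Y C y c) (θ : G →* H) (q : QQ H)
    (hl : ∀ τ, Law m (θ (Y τ)) (θ (C τ))) (hc : IsConj (θ y) (θ c)) : Law m (θ y) (θ c) := by
  obtain ⟨k, h | ⟨g, τ, j, h1, h2⟩⟩ := h
  · refine Law.of_cs q hc (j := k) ?_
    rw [← map_cs]
    exact h.map θ
  · refine Law.of_cs q hc (j := k) ?_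
    have := ((hl τ).cs j).conj (θ g)⁻¹
    rw [← map_cs, ← h2, ← h1] at this
    rw [← map_cs]
    simpa [mul_assoc] using this

theorem CSA.eq_of_conj (h : CSA G) {y c : G} (hc : IsConj y c) (e : Commute y c) : c = y := by
  obtain ⟨s, rfl⟩ := isConj_iff.1 hc
  by_cases hy : y = 1
  · simp [hy]
  · rw [(h y s hy e.symm).eq]
    group

theorem CSA.not_comm_succ (h : CSA G) {y c : G} (e : ¬ Commute y c) :
    ¬ Commute y (c * y * c⁻¹) := fun e' => by
  by_cases hy : y = 1
  · exact e (hy ▸ Commute.one_left c)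
  · exact e (h y c hy e'.symm).symm

end Pool.Agent.Lib.MP_429c3d_al.Ng
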