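import Pool.Agent.Lib.MP_429c3d_al.NgMac
import Pool.Agent.Lib.MP_429c3d_al.NgLaw

set_option autoImplicit false
set_option linter.unusedSectionVars false

/-! A stage with complete arms is a final stage. -/

namespace Pool.Agent.Lib.MP_429c3d_al.Ng

open Hyp

theorem LF.conj {G Z : Type} [Group G] [MulAction G Z] {t : Z} {e δ : G} {N : ℕ} (h : LF t e N)
    (hδ : δ • t = t) : LF t (δ * e * δ⁻¹) N := by
  intro l j hl hj hr e1
  have key : ∀ l : List (ℤ × G), wd (δ * e * δ⁻¹) l =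
      δ * wd e (l.map fun p => (p.1, δ⁻¹ * p.2 * δ)) * δ⁻¹ := by
    intro l
    induction l with
    | nil => simp [wd_nil]
    | cons p l ih =>
      rw [List.map_cons, wd_cons, wd_cons, ih, conj_zpow]
      group
  have hδ' : δ⁻¹ • t = t := inv_smul_eq_iff.2 hδ.symm
  refine h (l.map fun p => (p.1, δ⁻¹ * p.2 * δ)) j (by simpa using hl) hj (fun p hp => ?_) ?_
  · obtain ⟨q, hq, rfl⟩ := List.mem_map.1 hp
    obtain ⟨h1, h2, h3⟩ := hr q hq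
    refine ⟨h1, fun e2 => h2 ?_, by rw [mul_smul, mul_smul, hδ, h3, hδ']⟩
    rwa [mul_assoc, inv_mul_eq_one, right_eq_mul] at e2
  · rw [key, conj_zpow] at e1
    simp only [mul_smul, inv_smul_smul, hδ'] at e1
    rw [mul_smul, ← hδ', eq_inv_smul_iff, hδ']
    exact e1

theorem Tr_clo {G T : Type} [Group G] (m : ℕ) (Y C : T → G) : Clo (Tr m Y C) := by
  constructor
  · rintro g y c ⟨k, h | ⟨g', τ, j, h1, h2⟩⟩
    · exact ⟨k, Or.inl (by rw [← conj_cs]; exact h.conj g)⟩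
    · refine ⟨k, Or.inr ⟨g' * g⁻¹, τ, j, by rw [← h1]; group, ?_⟩⟩
      rw [← conj_cs, ← h2]
      group
  · rintro y c ⟨k, h⟩
    exact ⟨k + 1, by rwa [cs_succ']⟩

theorem Val.cases {n : ℕ} {h : ℤ} (hv : Val n h) :
    (∃ j k : ℕ, 2 ≤ j ∧ j + k = n ∧ h = -(j : ℤ)) ∨ ∃ j : ℕ, j + 1 ≤ n ∧ h = (j + 1 : ℕ) := by
  rcases hv with h1 | h1
  · exact Or.inl ⟨(-h).toNat, (h + n).toNat, by omega, by omega, by omega⟩
  · exact Or.inr ⟨(h - 1).toNat, by omega, by omega⟩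

theorem idx_neg {n k1 j k : ℕ} (h : j + k = n) : idx n k1 (-(j : ℤ)) = k := by
  unfold idx
  rw [if_neg (by omega)]
  omega

theorem idx_pos (n : ℕ) {k1 : ℕ} (h : 1 ≤ k1) (j : ℕ) :
    idx n k1 (j + 1 : ℕ) = n + (j + 1 + k1 - 1) := by
  unfold idx
  rw [if_pos (by omega)]
  omega

variable {AA N0 K I : Type} [CommGroup AA] {S₀ : St AA (Nm N0 (I × Bool)) K} {n : ℕ}

theorem exists_fs (B : Base S₀ n) (H₀ : S₀.OK) (hn : 2 ≤ n) {J : St AA (Nm N0 (I × Bool)) K}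
    (E : Emb (Fin' n) S₀ J) (ok : J.OK) (arms : ∀ τ, Arm B J E τ)
    (used : ∀ α x τ b h, J.Fl α x → J.nm α x = .inr (τ, b, h) → Val n h ∨ h = -1)
    (orb : ∀ α, J.ap α → (∃ g : J.G, α = g • E.ι (B.o (J.cls α))) ∨
      ∃ x τ, J.Fl α x ∧ J.nm α x = .inr (τ, false, -(n : ℤ)))
    (dfm : ∀ α x x', J.Fl α x → J.Fl α x' → J.df α x x' ∈ J.Lb (E.ι (B.o (J.cls α)))) :
    ∃ F : Fs J n, F.k1 = B.k1 ∧
      ∀ m y c, B.L0 m y c → Tr m F.Y F.ε (E.φ y) (E.φ c) := by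
  choose δ ε P r₀ hr hδ A nb using arms
  obtain ⟨Q, Q1, Q2⟩ : ∃ Q : I × Bool → ℤ → J.Z, (∀ τ (j : ℕ), Q τ (-(j : ℤ)) = P τ j) ∧
      ∀ τ (j : ℕ), Q τ (j + 1 : ℕ) = δ τ • E.ι (B.P τ (j + 1)) :=
    ⟨fun τ h => if 0 < h then δ τ • E.ι (B.P τ h.toNat) else P τ (-h).toNat,
      fun τ j => by simp only [if_neg (show ¬ (0 : ℤ) < -(j : ℤ) by omega), neg_neg, Int.toNat_natCast],
      fun τ j => by simp only [if_pos (show (0 : ℤ) < (j + 1 : ℕ) by omega), Int.toNat_natCast]⟩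
  have cδ : ∀ τ, δ τ * E.φ (yy B.y τ) * (δ τ)⁻¹ = E.φ (yy B.y τ) := fun τ => by
    rw [(ok.comm (hδ τ) (A τ).fixY).eq, mul_inv_cancel_right]
  have csf : ∀ τ j, cs (E.φ (yy B.y τ)) (ε τ) (n + j) =
      δ τ * E.φ (cs (yy B.y τ) (cc B.y B.s τ) j) * (δ τ)⁻¹ := fun τ j => by
    rw [← cs_add, (A τ).top, map_cs, conj_cs, cδ]
  have hδ' : ∀ τ, (δ τ)⁻¹ • E.ι (B.oo τ) = E.ι (B.oo τ) := fun τ => inv_smul_eq_iff.2 (hδ τ).symm
  have fP : ∀ τ j, j ≤ n → J.Fl (E.ι (B.oo τ)) (δ τ • E.ι (B.P τ j)) := fun τ j hj =>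
    ok.fl_fix (E.fl (B.fl_P τ hj)) (hδ τ)
  have aP : ∀ τ j, S₀.ap (B.P τ (j + 1)) := fun τ j => by
    rw [B.P_succ]
    exact H₀.ap_smul _ _ (B.ap_o _)
  have fl : ∀ τ h, Val n h → J.Fl (E.ι (B.oo τ)) (Q τ h) := by
    intro τ h hv
    rcases hv.cases with ⟨j, k, h1, h2, rfl⟩ | ⟨j, h1, rfl⟩
    · rw [Q1]
      exact (A τ).fl j ((hr τ).trans h1) (by omega)
    · rw [Q2]
      exact fP τ _ h1
  have pot : ∀ τ h, Val n h → J.df (E.ι (B.oo τ)) (δ τ • E.ι (B.P τ 0)) (Q τ h) =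
      B.η τ ^ ((idx n (B.k1 τ) h : ℤ) - n) := by
    intro τ h hv
    rcases hv.cases with ⟨j, k, h1, h2, rfl⟩ | ⟨j, h1, rfl⟩
    · rw [Q1, (A τ).df j ((hr τ).trans h1) (by omega), idx_neg h2]
      congr 1
      omega
    · have f0 := B.fl_P τ (Nat.zero_le n)
      have f1 := B.fl_P τ h1
      rw [Q2, ok.df_fix (E.fl f0) (E.fl f1) (hδ τ), E.df_ι _ _ _ f0 f1, idx_pos n (B.k1_pos τ),
        Nat.cast_add n, add_sub_cancel_left, zpow_natCast]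
      exact B.dfE τ (j + 1) (by omega) h1
  have two : ∀ {h : ℤ}, Val n h → Val n (h + 1) →
      (∃ j k : ℕ, 2 ≤ j ∧ j + k + 1 = n ∧ h = -((j + 1 : ℕ) : ℤ) ∧ h + 1 = -(j : ℤ)) ∨
        ∃ j : ℕ, j + 1 + 1 ≤ n ∧ h = (j + 1 : ℕ) ∧ h + 1 = (j + 1 + 1 : ℕ) := by
    intro h h1 h2
    unfold Val at h1 h2
    by_cases h3 : h < 0
    · exact Or.inl ⟨(-h - 1).toNat, (h + n).toNat, by omega, by omega, by omega, by omega⟩
    · exact Or.inr ⟨(h - 1).toNat, by omega, by omega, by omega⟩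
  have fn : ∀ τ, J.Fl (P τ n) (E.ι (B.oo τ)) := fun τ =>
    ok.fl_symm ((A τ).fl n (A τ).le le_rfl) ((A τ).ap n (A τ).le le_rfl)
  refine ⟨
    { o := fun κ => E.ι (B.o κ)
      κ := fun τ => B.κ τ.1
      Y := fun τ => E.φ (yy B.y τ)
      ε := ε
      k1 := B.k1
      P := Q
      tfA := B.tfA
      ap_o := fun κ => (E.ap_ι _).2 (B.ap_o κ)
      cls_o := fun κ => (E.cls_ι _).trans (B.cls_o κ)
      orb := fun α hα => (orb α hα).imp_right ?_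
      df_mem := dfm
      Y_fix := fun τ => (A τ).fixY
      k1_pos := B.k1_pos
      ap_P := fun τ h hv => ?_
      adj := fun τ h hv => (fl τ h hv).2
      nmE := fun τ h hv => ?_
      nmF := fun τ h hv => ?_
      nm_rng := used
      P_succ := fun τ h hv hv' => ?_
      dfE := fun τ h h' hv hv' => ?_
      dfF := fun τ h hv hv' => ?_
      cls_last := fun τ => ?_
      fix_last := fun τ => ?_
      lab_last := fun τ => ?_
      nb_last := fun τ => ?_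
      lf := fun τ h hv => ?_ }, rfl, ?_⟩
  · rintro ⟨x, τ, h1, h2⟩
    obtain ⟨g, h3, -⟩ := ok.nm_orb _ _ _ _ (fn τ) h1 (((A τ).nmF n (A τ).le le_rfl).trans h2.symm)
    exact ⟨τ, g, by rw [Q1, h3]⟩
  · rcases hv.cases with ⟨j, k, h1, h2, rfl⟩ | ⟨j, h1, rfl⟩
    · rw [Q1]
      exact (A τ).ap j ((hr τ).trans h1) (by omega)
    · rw [Q2]
      exact ok.ap_smul _ _ ((E.ap_ι _).2 (aP τ j))
  · change J.nm (E.ι (B.oo τ)) _ = _
    rcases hv.cases with ⟨j, k, h1, h2, rfl⟩ | ⟨j, h1, rfl⟩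
    · rw [Q1]
      exact (A τ).nmE j ((hr τ).trans h1) (by omega)
    · have f1 := B.fl_P τ h1
      rw [Q2, ← hδ τ, ok.nm_smul _ _ _ (E.fl f1), E.nm_ι _ _ f1]
      exact B.nmE τ (j + 1) (by omega) h1
  · change J.nm _ (E.ι (B.oo τ)) = _
    rcases hv.cases with ⟨j, k, h1, h2, rfl⟩ | ⟨j, h1, rfl⟩
    · rw [Q1]
      exact (A τ).nmF j ((hr τ).trans h1) (by omega)
    · have f1 := H₀.fl_symm (B.fl_P τ h1) (aP τ j)
      rw [Q2, ← hδ τ, ok.nm_smul _ _ _ (E.fl f1), E.nm_ι _ _ f1]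
      exact B.nmF τ (j + 1) (by omega) h1
  · change _ = _ • E.ι (B.oo τ)
    rcases two hv hv' with ⟨j, k, h1, h2, h3, h4⟩ | ⟨j, h1, h3, h4⟩
    · rw [h4, h3, Q1, idx_neg (k := k) (by omega)]
      exact (A τ).succ j k ((hr τ).trans h1) h2
    · rw [h4, h3, Q2, idx_pos n (B.k1_pos τ), csf, mul_smul, mul_smul, hδ', B.P_succ, E.ι_smul]
      rfl
  · change J.df (E.ι (B.oo τ)) _ _ = J.lab (E.ι (B.oo τ)) _ ^ _
    rw [← ok.df_mul _ _ _ _ (fl τ h hv) (A τ).fp (fl τ h' hv'), ok.df_symm (A τ).fp (fl τ h hv),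
      pot τ h hv, pot τ h' hv', (A τ).labY, ← zpow_neg, ← zpow_add]
    congr 1
    ring
  · change J.df (E.ι (B.oo τ)) _ (_ • E.ι (B.oo τ)) = 1
    rcases two hv hv' with ⟨j, k, h1, h2, h3, h4⟩ | ⟨j, h1, h3, h4⟩
    · rw [h4, h3, Q1, idx_neg (k := k) (by omega)]
      exact (A τ).dfF j k ((hr τ).trans h1) h2
    · have f1 := B.fl_P τ h1
      have f2 : S₀.Fl (B.oo τ)
          ((cs (yy B.y τ) (cc B.y B.s τ) (j + 1 + B.k1 τ - 1))⁻¹ • B.oo τ) := by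
        have := H₀.fl_smul (cs (yy B.y τ) (cc B.y B.s τ) (j + 1 + B.k1 τ - 1))⁻¹
          (H₀.fl_symm f1 (aP τ _))
        rwa [B.P_succ, inv_smul_smul] at this
      rw [h4, h3, Q2, idx_pos n (B.k1_pos τ), csf, mul_inv_rev, mul_inv_rev, inv_inv, mul_smul,
        mul_smul, hδ', ← map_inv, ← E.ι_smul, ok.df_fix (E.fl f1) (E.fl f2) (hδ τ),
        E.df_ι _ _ _ f1 f2]
      exact B.dfF τ (j + 1) (by omega) h1
  · rw [Q1, (A τ).cls n (A τ).le le_rfl, E.cls_ι]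
    exact B.cls_o _
  · rw [Q1]
    exact (A τ).fix n 0 (A τ).le rfl
  · rw [Q1]
    exact ((A τ).lab n 0 (A τ).le rfl).trans (A τ).labY.symm
  · rw [Q1]
    exact nb τ
  · change LF (E.ι (B.oo τ)) _ _
    rcases hv.cases with ⟨j, k, h1, h2, rfl⟩ | ⟨j, h1, rfl⟩
    · rw [idx_neg h2, Int.natAbs_neg, Int.natAbs_natCast]
      exact (A τ).lf j k ((hr τ).trans h1) h2
    · rw [idx_pos n (B.k1_pos τ), csf]
      exact (E.lf _ _ _ (B.lf τ (j + 1) _ (by omega) h1)).conj (hδ τ)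
  · rintro m y c ⟨k, h | ⟨g, τ, j, h1, h2⟩⟩
    · exact ⟨k, Or.inl (by rw [← map_cs]; exact h.map E.φ)⟩
    · refine ⟨k, Or.inr ⟨δ τ * E.φ g, τ, n + j, ?_, ?_⟩⟩
      · change _ = E.φ (yy B.y τ)
        rw [← cδ, ← h1, map_mul, map_mul, map_inv]
        group
      · change _ = cs (E.φ (yy B.y τ)) (ε τ) (n + j)
        rw [csf, ← h2, ← map_cs, map_mul, map_mul, map_inv]
        group

end Pool.Agent.Lib.MP_429c3d_al.Ng
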