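import Pool.Agent.Lib.MP_429c3d_al.NgStp

set_option autoImplicit false

/-! The union of a chain of stages. -/

namespace Pool.Agent.Lib.MP_429c3d_al.Ng

open Hyp Filter

variable {AA N K : Type} [CommGroup AA] {fin : N → Prop}

section Up

variable {S : ℕ → St AA N K} (E : ∀ n, Emb fin (S n) (S (n + 1)))

/-- The embedding of a stage in a later stage. -/
def limUp {n m : ℕ} (h : n ≤ m) : Emb fin (S n) (S m) :=
  Nat.leRec (motive := fun m _ => Emb fin (S n) (S m)) (Emb.refl fin (S n))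
    (fun k _ e => e.trans (E k)) h

theorem limUp_self (n : ℕ) : limUp E (le_refl n) = Emb.refl fin (S n) :=
  Nat.leRec_self _ _

theorem limUp_succ {n m : ℕ} (h : n ≤ m) (h' : n ≤ m + 1) :
    limUp E h' = (limUp E h).trans (E m) :=
  Nat.leRec_succ _ _ h

theorem limUp_φ {i j k : ℕ} (hij : i ≤ j) (hjk : j ≤ k) (g : (S i).G) :
    (limUp E hjk).φ ((limUp E hij).φ g) = (limUp E (hij.trans hjk)).φ g := by
  induction k, hjk using Nat.le_induction with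
  | base => rw [limUp_self]; rfl
  | succ k hk ih =>
    rw [limUp_succ E hk, limUp_succ E (hij.trans hk), Emb.trans_φ, Emb.trans_φ, ih]

theorem limUp_ι {i j k : ℕ} (hij : i ≤ j) (hjk : j ≤ k) (x : (S i).Z) :
    (limUp E hjk).ι ((limUp E hij).ι x) = (limUp E (hij.trans hjk)).ι x := by
  induction k, hjk using Nat.le_induction with
  | base => rw [limUp_self]; rfl
  | succ k hk ih =>
    rw [limUp_succ E hk, limUp_succ E (hij.trans hk), Emb.trans_ι, Emb.trans_ι, ih]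

theorem limUp_one_φ (n : ℕ) (g : (S n).G) : (limUp E (Nat.le_succ n)).φ g = (E n).φ g := by
  rw [limUp_succ E (le_refl n), limUp_self]; rfl

theorem limUp_one_ι (n : ℕ) (x : (S n).Z) : (limUp E (Nat.le_succ n)).ι x = (E n).ι x := by
  rw [limUp_succ E (le_refl n), limUp_self]; rfl

/-- The union of the groups and of the spaces, without the further structure. -/
structure LimD where
  G : Type
  Z : Type
  [grp : Group G]
  [act : MulAction G Z]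
  φ : ∀ n, (S n).G →* G
  ι : ∀ n, (S n).Z → Z
  φ_inj : ∀ n, Function.Injective (φ n)
  ι_inj : ∀ n, Function.Injective (ι n)
  φ_up : ∀ {n m : ℕ} (h : n ≤ m) g, φ m ((limUp E h).φ g) = φ n g
  ι_up : ∀ {n m : ℕ} (h : n ≤ m) x, ι m ((limUp E h).ι x) = ι n x
  smul : ∀ n (g : (S n).G) x, ι n (g • x) = φ n g • ι n x
  exG : ∀ g, ∃ n g₀, g = φ n g₀
  exZ : ∀ x, ∃ n x₀, x = ι n x₀

attribute [instance] LimD.grp LimD.act

/-- The transition maps of the groups. -/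
def limG (i j : ℕ) (h : i ≤ j) : (S i).G →* (S j).G := (limUp E h).φ

/-- The transition maps of the spaces. -/
def limZ (hS : ∀ n, (S n).OK) (i j : ℕ) (h : i ≤ j) : (S i).Z ↪ (S j).Z :=
  ⟨(limUp E h).ι, (limUp E h).ι_inj (hS i) (hS j)⟩

instance limG_dir : DirectedSystem (fun i => (S i).G) (limG E · · ·) :=
  ⟨fun i x => by
    change (limUp E (le_refl i)).φ x = x
    rw [limUp_self]; rfl, fun _ _ _ hij hjk x => limUp_φ E hij hjk x⟩

instance limZ_dir (hS : ∀ n, (S n).OK) : DirectedSystem (fun i => (S i).Z) (limZ E hS · · ·) :=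
  ⟨fun i x => by
    change (limUp E (le_refl i)).ι x = x
    rw [limUp_self]; rfl, fun _ _ _ hij hjk x => limUp_ι E hij hjk x⟩

/-- The direct limit of the groups. -/
abbrev LG : Type := DirectLimit (fun i => (S i).G) (limG E)

/-- The direct limit of the spaces. -/
abbrev LZ (hS : ∀ n, (S n).OK) : Type := DirectLimit (fun i => (S i).Z) (limZ E hS)

/-- The canonical map of groups. -/
def mkG (n : ℕ) (g : (S n).G) : LG E := ⟦⟨n, g⟩⟧

/-- The canonical map of spaces. -/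
def mkZ (hS : ∀ n, (S n).OK) (n : ℕ) (x : (S n).Z) : LZ E hS := ⟦⟨n, x⟩⟧

theorem mkG_mul (n : ℕ) (a b : (S n).G) : mkG E n a * mkG E n b = mkG E n (a * b) :=
  DirectLimit.mul_def (G := fun i => (S i).G) (f := limG E) n a b

theorem mkG_one (n : ℕ) : (1 : LG E) = mkG E n 1 :=
  DirectLimit.one_def (G := fun i => (S i).G) (f := limG E) n

theorem mkG_up {n m : ℕ} (h : n ≤ m) (g : (S n).G) : mkG E m ((limUp E h).φ g) = mkG E n g :=
  DirectLimit.mk_apply (F := fun i => (S i).G) (f := limG E) n m g h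

theorem mkZ_up (hS : ∀ n, (S n).OK) {n m : ℕ} (h : n ≤ m) (x : (S n).Z) :
    mkZ E hS m ((limUp E h).ι x) = mkZ E hS n x :=
  DirectLimit.mk_apply (F := fun i => (S i).Z) (f := limZ E hS) n m x h

/-- The action in the limit. -/
noncomputable def limS (hS : ∀ n, (S n).OK) : LG E → LZ E hS → LZ E hS :=
  DirectLimit.map₂ (limG E) (limZ E hS) (limZ E hS) (fun _ g x => g • x)
    fun _ _ h g x => (limUp E h).ι_smul g x

theorem limS_mk (hS : ∀ n, (S n).OK) (i : ℕ) (g : (S i).G) (x : (S i).Z) :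
    limS E hS (mkG E i g) (mkZ E hS i x) = mkZ E hS i (g • x) :=
  DirectLimit.map₂_def ..

theorem exists_limD (hS : ∀ n, (S n).OK) : Nonempty (LimD E) := by
  have hG : ∀ g : LG E, ∃ i a, g = mkG E i a := DirectLimit.exists_eq_mk (limG E)
  have hZ : ∀ x : LZ E hS, ∃ i y, x = mkZ E hS i y := DirectLimit.exists_eq_mk (limZ E hS)
  have hev : ∀ (g g' : LG E) (x : LZ E hS),
      ∃ i a a' y, g = mkG E i a ∧ g' = mkG E i a' ∧ x = mkZ E hS i y := by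
    intro g g' x
    obtain ⟨i, a, rfl⟩ := hG g
    obtain ⟨k, a', rfl⟩ := hG g'
    obtain ⟨j, y, rfl⟩ := hZ x
    exact ⟨i + k + j, _, _, _, (mkG_up E (by omega) a).symm, (mkG_up E (by omega) a').symm,
      (mkZ_up E hS (by omega) y).symm⟩
  let act : MulAction (LG E) (LZ E hS) :=
    { smul := limS E hS
      one_smul := fun x => by
        obtain ⟨j, y, rfl⟩ := hZ x
        change limS E hS _ _ = _
        rw [mkG_one E j, limS_mk, one_smul]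
      mul_smul := fun g g' x => by
        obtain ⟨i, a, a', y, rfl, rfl, rfl⟩ := hev g g' x
        change limS E hS _ _ = limS E hS _ (limS E hS _ _)
        rw [mkG_mul, limS_mk, limS_mk, limS_mk, mul_smul] }
  exact ⟨{
    G := LG E
    Z := LZ E hS
    φ := fun n => MonoidHom.mk' (mkG E n) fun a b => (mkG_mul E n a b).symm
    ι := mkZ E hS
    φ_inj := DirectLimit.mk_injective (limG E) fun _ _ h => (limUp E h).φ_inj
    ι_inj := DirectLimit.mk_injective (limZ E hS) fun i j h => (limZ E hS i j h).injective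
    φ_up := mkG_up E
    ι_up := mkZ_up E hS
    smul := fun n g x => (limS_mk E hS n g x).symm
    exG := hG
    exZ := hZ }⟩

namespace LimD

variable {E} (D : LimD E)

theorem evG (g : D.G) : ∀ᶠ n in atTop, ∃ g₀, g = D.φ n g₀ := by
  obtain ⟨n, g₀, rfl⟩ := D.exG g
  exact (eventually_ge_atTop n).mono fun m h => ⟨_, (D.φ_up h g₀).symm⟩

theorem evZ (x : D.Z) : ∀ᶠ n in atTop, ∃ x₀, x = D.ι n x₀ := by
  obtain ⟨n, x₀, rfl⟩ := D.exZ x
  exact (eventually_ge_atTop n).mono fun m h => ⟨_, (D.ι_up h x₀).symm⟩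

theorem evL (l : List (ℤ × D.G)) :
    ∀ᶠ n in atTop, ∃ l₀ : List (ℤ × (S n).G), l = l₀.map (Prod.map id (D.φ n)) := by
  induction l with
  | nil => exact Eventually.of_forall fun _ => ⟨[], rfl⟩
  | cons p l ih =>
    refine (ih.and (D.evG p.2)).mono ?_
    rintro m ⟨⟨l₀, rfl⟩, g₀, hg⟩
    exact ⟨(p.1, g₀) :: l₀, by rw [List.map_cons, Prod.map_apply, ← hg]; rfl⟩

theorem φ_eq {n m : ℕ} (h : n ≤ m) {a : (S n).G} {b : (S m).G} (e : D.φ n a = D.φ m b) :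
    (limUp E h).φ a = b := D.φ_inj m (by rw [D.φ_up, e])

theorem ι_eq {n m : ℕ} (h : n ≤ m) {x : (S n).Z} {y : (S m).Z} (e : D.ι n x = D.ι m y) :
    (limUp E h).ι x = y := D.ι_inj m (by rw [D.ι_up, e])

theorem ex_d (x y : D.Z) :
    ∃ k : ℕ, ∀ n x₀ y₀, x = D.ι n x₀ → y = D.ι n y₀ → k = (S n).d x₀ y₀ := by
  obtain ⟨m, ⟨x₁, rfl⟩, y₁, rfl⟩ := ((D.evZ x).and (D.evZ y)).exists
  refine ⟨(S m).d x₁ y₁, fun n x₀ y₀ hx hy => ?_⟩
  rcases le_total m n with h | h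
  · rw [← D.ι_eq h hx, ← D.ι_eq h hy, Emb.d_ι]
  · rw [← D.ι_eq h hx.symm, ← D.ι_eq h hy.symm, Emb.d_ι]

theorem ex_cls (x : D.Z) : ∃ κ : K, ∀ n x₀, x = D.ι n x₀ → κ = (S n).cls x₀ := by
  obtain ⟨m, x₁, rfl⟩ := D.exZ x
  refine ⟨(S m).cls x₁, fun n x₀ hx => ?_⟩
  rcases le_total m n with h | h
  · rw [← D.ι_eq h hx, Emb.cls_ι]
  · rw [← D.ι_eq h hx.symm, Emb.cls_ι]

theorem ex_nm (x y : D.Z) : ∃ ν : N, ∀ n x₀ y₀, (S n).Fl x₀ y₀ → x = D.ι n x₀ → y = D.ι n y₀ →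
    ν = (S n).nm x₀ y₀ := by
  obtain ⟨m, ⟨x₁, rfl⟩, y₁, rfl⟩ := ((D.evZ x).and (D.evZ y)).exists
  refine ⟨(S m).nm x₁ y₁, fun n x₀ y₀ hf hx hy => ?_⟩
  rcases le_total m n with h | h
  · rw [← D.ι_eq h hx, ← D.ι_eq h hy] at hf ⊢
    rw [Emb.nm_ι _ _ _ ((limUp E h).fl_iff.1 hf)]
  · rw [← D.ι_eq h hx.symm, ← D.ι_eq h hy.symm, Emb.nm_ι _ _ _ hf]

theorem ex_df (x y z : D.Z) : ∃ η : AA, ∀ n x₀ y₀ z₀, (S n).Fl x₀ y₀ → (S n).Fl x₀ z₀ →
    x = D.ι n x₀ → y = D.ι n y₀ → z = D.ι n z₀ → η = (S n).df x₀ y₀ z₀ := by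
  obtain ⟨m, ⟨x₁, rfl⟩, ⟨y₁, rfl⟩, z₁, rfl⟩ := ((D.evZ x).and ((D.evZ y).and (D.evZ z))).exists
  refine ⟨(S m).df x₁ y₁ z₁, fun n x₀ y₀ z₀ hf hf' hx hy hz => ?_⟩
  rcases le_total m n with h | h
  · rw [← D.ι_eq h hx, ← D.ι_eq h hy] at hf
    rw [← D.ι_eq h hx, ← D.ι_eq h hz] at hf'
    rw [← D.ι_eq h hx, ← D.ι_eq h hy, ← D.ι_eq h hz,
      Emb.df_ι _ _ _ _ ((limUp E h).fl_iff.1 hf) ((limUp E h).fl_iff.1 hf')]
  · rw [← D.ι_eq h hx.symm, ← D.ι_eq h hy.symm, ← D.ι_eq h hz.symm, Emb.df_ι _ _ _ _ hf hf']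

theorem ex_lab (hS : ∀ n, (S n).OK) (x : D.Z) (g : D.G) : ∃ η : AA, ∀ n x₀ (g₀ : (S n).G),
    (S n).ap x₀ → g₀ • x₀ = x₀ → x = D.ι n x₀ → g = D.φ n g₀ → η = (S n).lab x₀ g₀ := by
  obtain ⟨m, ⟨x₁, rfl⟩, g₁, rfl⟩ := ((D.evZ x).and (D.evG g)).exists
  refine ⟨(S m).lab x₁ g₁, fun n x₀ g₀ ha hf hx hg => ?_⟩
  rcases le_total m n with h | h
  · rw [← D.ι_eq h hx] at ha
    rw [← D.ι_eq h hx, ← D.φ_eq h hg, ← Emb.ι_smul] at hf
    rw [← D.ι_eq h hx, ← D.φ_eq h hg, Emb.lab_ι _ _ _ (((limUp E h).ap_ι _).1 ha)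
      ((limUp E h).ι_inj (hS m) (hS n) hf)]
  · rw [← D.ι_eq h hx.symm, ← D.φ_eq h hg.symm, Emb.lab_ι _ _ _ ha hf]

/-- The union as a stage. -/
@[reducible] noncomputable def st (hS : ∀ n, (S n).OK) : St AA N K where
  G := D.G
  Z := D.Z
  d := fun x y => Classical.choose (D.ex_d x y)
  ap := fun x => ∃ n x₀, x = D.ι n x₀ ∧ (S n).ap x₀
  cls := fun x => Classical.choose (D.ex_cls x)
  nm := fun x y => Classical.choose (D.ex_nm x y)
  df := fun x y z => Classical.choose (D.ex_df x y z)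
  lab := fun x g => Classical.choose (D.ex_lab hS x g)

variable (hS : ∀ n, (S n).OK)

theorem d_ι (n : ℕ) (x y : (S n).Z) : (D.st hS).d (D.ι n x) (D.ι n y) = (S n).d x y :=
  Classical.choose_spec (D.ex_d _ _) n x y rfl rfl

theorem ap_ι (n : ℕ) (x : (S n).Z) : (D.st hS).ap (D.ι n x) ↔ (S n).ap x := by
  refine ⟨?_, fun h => ⟨n, x, rfl, h⟩⟩
  rintro ⟨m, x₁, hx, ha⟩
  rcases le_total m n with h | h
  · rw [← D.ι_eq h hx.symm, Emb.ap_ι]
    exact ha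
  · rw [← D.ι_eq h hx, Emb.ap_ι] at ha
    exact ha

theorem cls_ι (n : ℕ) (x : (S n).Z) : (D.st hS).cls (D.ι n x) = (S n).cls x :=
  Classical.choose_spec (D.ex_cls _) n x rfl

theorem nm_ι (n : ℕ) (x y : (S n).Z) (h : (S n).Fl x y) :
    (D.st hS).nm (D.ι n x) (D.ι n y) = (S n).nm x y :=
  Classical.choose_spec (D.ex_nm _ _) n x y h rfl rfl

theorem df_ι (n : ℕ) (x y z : (S n).Z) (h : (S n).Fl x y) (h' : (S n).Fl x z) :
    (D.st hS).df (D.ι n x) (D.ι n y) (D.ι n z) = (S n).df x y z :=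
  Classical.choose_spec (D.ex_df _ _ _) n x y z h h' rfl rfl rfl

theorem lab_ι (n : ℕ) (x : (S n).Z) (g : (S n).G) (h : (S n).ap x) (h' : g • x = x) :
    (D.st hS).lab (D.ι n x) (D.φ n g) = (S n).lab x g :=
  Classical.choose_spec (D.ex_lab hS _ _) n x g h h' rfl rfl

theorem fl_ι (n : ℕ) (x y : (S n).Z) : (D.st hS).Fl (D.ι n x) (D.ι n y) ↔ (S n).Fl x y := by
  unfold St.Fl
  rw [D.ap_ι, D.d_ι]

theorem smul' (n : ℕ) (g : (S n).G) (x : (S n).Z) :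
    (HSMul.hSMul (α := (D.st hS).G) (β := (D.st hS).Z) (D.φ n g) (D.ι n x) : (D.st hS).Z) =
      D.ι n (g • x) := (D.smul n g x).symm

theorem map_wd {G H : Type} [Group G] [Group H] (f : G →* H) (e : G) (l : List (ℤ × G)) :
    wd (f e) (l.map (Prod.map id f)) = f (wd e l) := by
  induction l with
  | nil => simp [wd_nil]
  | cons p l ih => rw [List.map_cons, wd_cons, wd_cons, ih, map_mul, map_mul, map_zpow]; rfl

/-- The embedding of a stage in the union. -/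
noncomputable def emb (n : ℕ) : Emb fin (S n) (D.st hS) where
  φ := D.φ n
  ι := D.ι n
  φ_inj := D.φ_inj n
  ι_smul := D.smul n
  d_ι := D.d_ι hS n
  ap_ι := D.ap_ι hS n
  cls_ι := D.cls_ι hS n
  nm_ι := D.nm_ι hS n
  df_ι := D.df_ι hS n
  lab_ι := D.lab_ι hS n
  ret := fun x' => by
    obtain ⟨m, h, x₁, rfl⟩ := ((eventually_ge_atTop n).and (D.evZ x')).exists
    obtain ⟨x, hx⟩ := (limUp E h).ret x₁
    refine ⟨x, fun a => (hx a).trans_eq ?_⟩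
    rw [← D.φ_up h a, D.smul' hS, D.d_ι]
  lf := fun t e k hL l j hl hj hr => by
    obtain ⟨m, h, l₀, rfl⟩ := ((eventually_ge_atTop n).and (D.evL l)).exists
    have h1 : Red ((limUp E h).ι t) l₀ := by
      intro p hp
      obtain ⟨p1, p2, p3⟩ := hr _ (List.mem_map_of_mem (f := Prod.map id (D.φ m)) hp)
      refine ⟨p1, fun e => p2 (by rw [Prod.map_snd, e, map_one]), D.ι_inj m ?_⟩
      rw [D.smul, D.ι_up]
      exact p3
    intro hh
    refine (limUp E h).lf t e k hL l₀ j (by simpa using hl) hj h1 (D.ι_inj m ?_)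
    rw [D.smul, D.ι_up, map_mul, map_zpow, ← map_wd, D.φ_up]
    exact hh
  keep := fun α x hf hfin x' hd => by
    obtain ⟨m, h, x₁, rfl⟩ := ((eventually_ge_atTop n).and (D.evZ x')).exists
    rw [← D.ι_up h α, D.d_ι] at hd
    obtain ⟨x₀, rfl⟩ := (limUp E h).keep α x hf hfin x₁ hd
    exact ⟨x₀, D.ι_up h x₀⟩

theorem st_gr : IsGr (D.st hS).d := by
  refine ⟨⟨fun x => ?_, fun x y => ?_, fun x y z => ?_⟩, fun x y h => ?_, fun x y => ?_⟩
  · obtain ⟨n, x, rfl⟩ := D.exZ x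
    rw [D.d_ι, (hS n).gr.met.self]
  · obtain ⟨n, ⟨x, rfl⟩, y, rfl⟩ := ((D.evZ x).and (D.evZ y)).exists
    rw [D.d_ι, D.d_ι, (hS n).gr.met.symm]
  · obtain ⟨n, ⟨x, rfl⟩, ⟨y, rfl⟩, z, rfl⟩ := ((D.evZ x).and ((D.evZ y).and (D.evZ z))).exists
    rw [D.d_ι, D.d_ι, D.d_ι]
    exact (hS n).gr.met.tri _ _ _
  · obtain ⟨n, ⟨x, rfl⟩, y, rfl⟩ := ((D.evZ x).and (D.evZ y)).exists
    rw [D.d_ι] at h
    rw [(hS n).gr.sep x y h]
  · obtain ⟨n, ⟨x, rfl⟩, y, rfl⟩ := ((D.evZ x).and (D.evZ y)).exists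
    obtain ⟨g, g0, g1, g2⟩ := (hS n).gr.geo x y
    refine ⟨fun i => D.ι n (g i), congrArg _ g0, by rw [D.d_ι, D.d_ι, g1], ?_⟩
    rw [D.d_ι]
    intro i j h1 h2 h3
    rw [D.d_ι]
    exact g2 i j h1 h2 h3

theorem st_ok : (D.st hS).OK where
  gr := D.st_gr hS
  iso := fun g x y => by
    obtain ⟨n, ⟨g, rfl⟩, ⟨x, rfl⟩, y, rfl⟩ := ((D.evG g).and ((D.evZ x).and (D.evZ y))).exists
    rw [D.smul' hS, D.smul' hS, D.d_ι, D.d_ι, (hS n).iso]
  ap_smul := fun g x h => by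
    obtain ⟨n, ⟨g, rfl⟩, x, rfl⟩ := ((D.evG g).and (D.evZ x)).exists
    rw [D.smul' hS, D.ap_ι]
    exact (hS n).ap_smul g x ((D.ap_ι hS n x).1 h)
  cls_smul := fun g x => by
    obtain ⟨n, ⟨g, rfl⟩, x, rfl⟩ := ((D.evG g).and (D.evZ x)).exists
    rw [D.smul' hS, D.cls_ι, D.cls_ι, (hS n).cls_smul]
  free := fun g x h e => by
    obtain ⟨n, ⟨g, rfl⟩, x, rfl⟩ := ((D.evG g).and (D.evZ x)).exists
    rw [D.smul' hS] at e
    rw [D.ap_ι] at h
    rw [(hS n).free g x h (D.ι_inj n e)]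
    exact map_one _
  two := fun g x y e e' hne => by
    obtain ⟨n, ⟨g, rfl⟩, ⟨x, rfl⟩, y, rfl⟩ := ((D.evG g).and ((D.evZ x).and (D.evZ y))).exists
    rw [D.smul' hS] at e e'
    rw [(hS n).two g x y (D.ι_inj n e) (D.ι_inj n e') fun h => hne (congrArg _ h)]
    exact map_one _
  nb := fun α h => by
    obtain ⟨n, α, rfl⟩ := D.exZ α
    obtain ⟨x, hx⟩ := (hS n).nb α ((D.ap_ι hS n α).1 h)
    exact ⟨D.ι n x, (D.d_ι hS n α x).trans hx⟩
  nm_smul := fun g x y h => by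
    obtain ⟨n, ⟨g, rfl⟩, ⟨x, rfl⟩, y, rfl⟩ := ((D.evG g).and ((D.evZ x).and (D.evZ y))).exists
    rw [D.fl_ι] at h
    rw [D.smul' hS, D.smul' hS, D.nm_ι hS n _ _ ((hS n).fl_smul g h), D.nm_ι hS n _ _ h,
      (hS n).nm_smul g x y h]
  nm_orb := fun x y x' y' h h' e => by
    obtain ⟨n, ⟨x, rfl⟩, ⟨y, rfl⟩, ⟨x', rfl⟩, y', rfl⟩ :=
      ((D.evZ x).and ((D.evZ y).and ((D.evZ x').and (D.evZ y')))).exists
    rw [D.fl_ι] at h h'
    rw [D.nm_ι hS n _ _ h, D.nm_ι hS n _ _ h'] at e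
    obtain ⟨g, rfl, rfl⟩ := (hS n).nm_orb x y x' y' h h' e
    exact ⟨D.φ n g, D.smul' hS n g x, D.smul' hS n g y⟩
  df_smul := fun g x y z h h' => by
    obtain ⟨n, ⟨g, rfl⟩, ⟨x, rfl⟩, ⟨y, rfl⟩, z, rfl⟩ :=
      ((D.evG g).and ((D.evZ x).and ((D.evZ y).and (D.evZ z)))).exists
    rw [D.fl_ι] at h h'
    rw [D.smul' hS, D.smul' hS, D.smul' hS,
      D.df_ι hS n _ _ _ ((hS n).fl_smul g h) ((hS n).fl_smul g h'), D.df_ι hS n _ _ _ h h',
      (hS n).df_smul g x y z h h']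
  df_mul := fun x y z u h h' h'' => by
    obtain ⟨n, ⟨x, rfl⟩, ⟨y, rfl⟩, ⟨z, rfl⟩, u, rfl⟩ :=
      ((D.evZ x).and ((D.evZ y).and ((D.evZ z).and (D.evZ u)))).exists
    rw [D.fl_ι] at h h' h''
    rw [D.df_ι hS n _ _ _ h h', D.df_ι hS n _ _ _ h' h'', D.df_ι hS n _ _ _ h h'',
      (hS n).df_mul x y z u h h' h'']
  lab_df := fun x y g h e => by
    obtain ⟨n, ⟨g, rfl⟩, ⟨x, rfl⟩, y, rfl⟩ := ((D.evG g).and ((D.evZ x).and (D.evZ y))).exists
    rw [D.fl_ι] at h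
    rw [D.smul' hS] at e
    have e' := D.ι_inj n e
    rw [D.smul' hS, D.df_ι hS n _ _ _ h ((hS n).fl_fix h e'), D.lab_ι hS n _ _ h.1 e',
      (hS n).lab_df x y g h e']
  lab_inj := fun x g h e hl => by
    obtain ⟨n, ⟨g, rfl⟩, x, rfl⟩ := ((D.evG g).and (D.evZ x)).exists
    rw [D.ap_ι] at h
    rw [D.smul' hS] at e
    have e' := D.ι_inj n e
    rw [D.lab_ι hS n _ _ h e'] at hl
    rw [(hS n).lab_inj x g h e' hl]
    exact map_one _

end LimD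

end Up

/-- The union exists (direct limit of the groups and of the spaces; `nm`, `df`, `lab` are read
off from a stage in which the arguments form flags). -/
theorem exists_lim (S : ℕ → St AA N K) (E : ∀ n, Emb fin (S n) (S (n + 1)))
    (hS : ∀ n, (S n).OK) :
    ∃ (J : St AA N K) (F : ∀ n, Emb fin (S n) J), J.OK ∧ Exh E F := by
  obtain ⟨D⟩ := exists_limD E hS
  refine ⟨D.st hS, D.emb hS, D.st_ok hS, fun n g => ?_, fun n x => ?_, D.exG, D.exZ⟩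
  · rw [← limUp_one_φ]
    exact D.φ_up _ g
  · rw [← limUp_one_ι]
    exact D.ι_up _ x

end Pool.Agent.Lib.MP_429c3d_al.Ng
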