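import Pool.Agent.Lib.MP_429c3d_al.NgStp

set_option autoImplicit false
set_option linter.unusedSectionVars false

/-! The invariants pass to the union of a chain of stages. -/

namespace Pool.Agent.Lib.MP_429c3d_al.Ng

open Hyp

variable {AA N K : Type} [CommGroup AA] {fin : N → Prop} {S : ℕ → St AA N K}
  {E : ∀ n, Emb fin (S n) (S (n + 1))} {J : St AA N K} {F : ∀ n, Emb fin (S n) J}

/-- Everything that is in the image of a stage is in the image of all later stages. -/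
theorem Exh.G_ev (X : Exh E F) (g : J.G) : ∀ᶠ n in Filter.atTop, ∃ g₀, g = (F n).φ g₀ := by
  obtain ⟨n, g₀, h⟩ := X.G g
  refine Filter.eventually_atTop.2 ⟨n, fun m hm => ?_⟩
  induction m, hm using Nat.le_induction with
  | base => exact ⟨g₀, h⟩
  | succ m _ ih =>
    obtain ⟨g₁, h₁⟩ := ih
    exact ⟨(E m).φ g₁, by rw [X.φ, h₁]⟩

theorem Exh.Z_ev (X : Exh E F) (x : J.Z) : ∀ᶠ n in Filter.atTop, ∃ x₀, x = (F n).ι x₀ := by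
  obtain ⟨n, x₀, h⟩ := X.Z x
  refine Filter.eventually_atTop.2 ⟨n, fun m hm => ?_⟩
  induction m, hm using Nat.le_induction with
  | base => exact ⟨x₀, h⟩
  | succ m _ ih =>
    obtain ⟨x₁, h₁⟩ := ih
    exact ⟨(E m).ι x₁, by rw [X.ι, h₁]⟩

namespace Emb

variable {T T' : St AA N K} (D : Emb fin T T')

theorem li_comm {a b : T.G} : Commute (D.φ a) (D.φ b) ↔ Commute a b :=
  ⟨fun h => D.φ_inj (by simpa only [map_mul] using h.eq), fun h => h.map D.φ⟩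

theorem li_ne {a : T.G} (h : D.φ a ≠ 1) : a ≠ 1 := fun e => h (by rw [e, map_one])

theorem li_fix (H : T.OK) (H' : T'.OK) {a : T.G} {x : T.Z} (h : D.φ a • D.ι x = D.ι x) :
    a • x = x := D.ι_inj H H' (by rw [D.ι_smul, h])

theorem li_d (a : T.G) (x : T.Z) : T'.d (D.ι x) (D.φ a • D.ι x) = T.d x (a • x) := by
  rw [← D.ι_smul, D.d_ι]

end Emb

/-- An apex element comes from an apex element of a late stage. -/
theorem Exh.li_apL (X : Exh E F) (hS : ∀ n, (S n).OK) (hJ : J.OK) {c : J.G} {κ : K} {η : AA}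
    (h : J.ApL c κ η) : ∀ᶠ n in Filter.atTop, ∃ c₀, c = (F n).φ c₀ ∧ (S n).ApL c₀ κ η := by
  obtain ⟨α, h1, h2, h3, h4⟩ := h
  filter_upwards [X.G_ev c, X.Z_ev α] with n hc hα
  obtain ⟨c₀, rfl⟩ := hc
  obtain ⟨α₀, rfl⟩ := hα
  have h1' := ((F n).ap_ι α₀).1 h1
  have h3' := (F n).li_fix (hS n) hJ h3
  exact ⟨c₀, rfl, α₀, h1', ((F n).cls_ι α₀).symm.trans h2, h3',
    ((F n).lab_ι α₀ c₀ h1' h3').symm.trans h4⟩

theorem Exh.alg (X : Exh E F) (hS : ∀ n, (S n).OK) (hJ : J.OK) (h : ∀ n, (S n).Alg) : J.Alg := by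
  refine ⟨?_, ?_, ?_, ?_, ?_, ?_⟩
  · intro g k hk e
    obtain ⟨n, g₀, rfl⟩ := X.G g
    rw [(h n).tf g₀ k hk ((F n).φ_inj (by rw [map_pow, e, map_one])), map_one]
  · intro a g ha e
    obtain ⟨n, ⟨a₀, rfl⟩, g₀, rfl⟩ := ((X.G_ev a).and (X.G_ev g)).exists
    refine (F n).li_comm.2 ((h n).csa a₀ g₀ ((F n).li_ne ha) ((F n).li_comm.1 ?_))
    simpa only [map_mul, map_inv] using e
  · intro a b c hb e e'
    obtain ⟨n, ⟨a₀, rfl⟩, ⟨b₀, rfl⟩, c₀, rfl⟩ :=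
      ((X.G_ev a).and ((X.G_ev b).and (X.G_ev c))).exists
    exact (F n).li_comm.2 ((h n).ct a₀ b₀ c₀ ((F n).li_ne hb) ((F n).li_comm.1 e)
      ((F n).li_comm.1 e'))
  · intro c c' z κ η ζ hη h1 h2 h3 e
    obtain ⟨n, ⟨c₀, rfl, k1⟩, ⟨c₁, rfl, k2⟩, z₀, rfl, k3⟩ :=
      ((X.li_apL hS hJ h1).and ((X.li_apL hS hJ h2).and (X.li_apL hS hJ h3))).exists
    rw [(h n).qp c₀ c₁ z₀ κ η ζ hη k1 k2 k3 ((F n).φ_inj (by rw [map_mul, e])), map_one]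
  · intro y s t z hy e e'
    obtain ⟨n, ⟨y₀, rfl⟩, ⟨s₀, rfl⟩, ⟨t₀, rfl⟩, z₀, rfl⟩ :=
      ((X.G_ev y).and ((X.G_ev s).and ((X.G_ev t).and (X.G_ev z)))).exists
    rw [(h n).qq y₀ s₀ t₀ z₀ ((F n).li_ne hy) ((F n).li_comm.1 e)
      ((F n).φ_inj (by simpa only [map_mul, map_inv] using e')), map_one]
  · intro y a f hy e e'
    obtain ⟨n, ⟨y₀, rfl⟩, ⟨a₀, rfl⟩, f₀, rfl⟩ :=
      ((X.G_ev y).and ((X.G_ev a).and (X.G_ev f))).exists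
    exact (F n).li_comm.2 ((h n).p1 y₀ a₀ f₀ ((F n).li_ne hy) ((F n).li_comm.1 e)
      ((F n).φ_inj (by simpa only [map_mul, map_inv] using e')))

theorem Exh.mi (X : Exh E F) (hS : ∀ n, (S n).OK) (hJ : J.OK) {dn : N → N → ℕ}
    {k c l0 D L f P : ℕ} (h : ∀ n, (S n).MI dn k c l0 D L f P) : J.MI dn k c l0 D L f P := by
  refine ⟨?_, ?_, ?_, ?_, ?_⟩
  · intro x y z w
    obtain ⟨n, ⟨x₀, rfl⟩, ⟨y₀, rfl⟩, ⟨z₀, rfl⟩, w₀, rfl⟩ :=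
      ((X.Z_ev x).and ((X.Z_ev y).and ((X.Z_ev z).and (X.Z_ev w)))).exists
    simpa only [(F n).d_ι] using (h n).hyp x₀ y₀ z₀ w₀
  · rintro α x x' l hα hl hx hx' ⟨p, rfl, rfl, pa, ps⟩
    have hp : ∀ᶠ n in Filter.atTop, ∀ i ∈ Finset.range (l + 1), ∃ x₀, p i = (F n).ι x₀ :=
      (Finset.range (l + 1)).eventually_all.2 fun i _ => X.Z_ev (p i)
    obtain ⟨n, ⟨α₀, rfl⟩, hq⟩ := ((X.Z_ev α).and hp).exists
    have hq' : ∀ i, ∃ x₀, i ≤ l → p i = (F n).ι x₀ := by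
      intro i
      by_cases hi : i ≤ l
      · obtain ⟨x₀, e⟩ := hq i (Finset.mem_range.2 (by omega))
        exact ⟨x₀, fun _ => e⟩
      · exact ⟨α₀, fun hi' => absurd hi' hi⟩
    choose q hq' using hq'
    have hα₀ := ((F n).ap_ι α₀).1 hα
    have qa : ∀ i, i ≤ l → q i ≠ α₀ := fun i hi e => pa i hi (by rw [hq' i hi, e])
    rw [hq' 0 (Nat.zero_le l), (F n).d_ι] at hx
    rw [hq' l le_rfl, (F n).d_ι] at hx'
    rw [hq' 0 (Nat.zero_le l), hq' l le_rfl,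
      (F n).nm_ι _ _ ((hS n).fl_of_le hα₀ (qa 0 (Nat.zero_le l)) hx),
      (F n).nm_ι _ _ ((hS n).fl_of_le hα₀ (qa l le_rfl) hx')]
    refine (h n).det α₀ (q 0) (q l) l hα₀ hl hx hx' ⟨q, rfl, rfl, qa, fun i hi => ?_⟩
    have := ps i hi
    rwa [hq' i hi.le, hq' (i + 1) hi, (F n).d_ι] at this
  · intro a α x ha e
    obtain ⟨n, ⟨a₀, rfl⟩, ⟨α₀, rfl⟩, x₀, rfl⟩ :=
      ((X.G_ev a).and ((X.Z_ev α).and (X.Z_ev x))).exists
    rw [(F n).d_ι, (F n).li_d]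
    exact (h n).ta a₀ α₀ x₀ ((F n).li_ne ha) ((F n).li_fix (hS n) hJ e)
  · intro a b x x' hab h1 h2 h3 h4
    obtain ⟨n, ⟨a₀, rfl⟩, ⟨b₀, rfl⟩, ⟨x₀, rfl⟩, x₁, rfl⟩ :=
      ((X.G_ev a).and ((X.G_ev b).and ((X.Z_ev x).and (X.Z_ev x')))).exists
    rw [(F n).li_d] at h1 h2 h3 h4
    rw [(F n).d_ι]
    exact (h n).ai a₀ b₀ x₀ x₁ (fun e => hab ((F n).li_comm.2 e)) h1 h2 h3 h4
  · intro a ha j hj x
    obtain ⟨n, ⟨a₀, rfl⟩, x₀, rfl⟩ := ((X.G_ev a).and (X.Z_ev x)).exists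
    rw [← map_pow, (F n).li_d]
    exact (h n).pw a₀ (fun y e => ha _ ((F n).fix e)) j hj x₀

theorem Exh.gt (X : Exh E F) (hS : ∀ n, (S n).OK) (hJ : J.OK)
    {L : ∀ n, (S n).G → (S n).G → Prop} {L' : J.G → J.G → Prop} {Kk S' : ℕ}
    (hL : ∀ n y c, L n y c → L' ((F n).φ y) ((F n).φ c)) (h : ∀ n, (S n).GT (L n) Kk S') :
    J.GT L' Kk S' := by
  intro y c hp hc
  have key : ∃ n y₀ c₀, y = (F n).φ y₀ ∧ c = (F n).φ c₀ ∧ (S n).PreC y₀ c₀ := by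
    rcases hp with hp | ⟨κ, η, h1, h2⟩
    · obtain ⟨g, hg⟩ := isConj_iff.1 hp
      obtain ⟨n, ⟨y₀, rfl⟩, g₀, rfl⟩ := ((X.G_ev y).and (X.G_ev g)).exists
      exact ⟨n, y₀, g₀ * y₀ * g₀⁻¹, rfl, by rw [← hg, map_mul, map_mul, map_inv],
        Or.inl (isConj_iff.2 ⟨g₀, rfl⟩)⟩
    · obtain ⟨n, ⟨y₀, rfl, k1⟩, c₀, rfl, k2⟩ :=
        ((X.li_apL hS hJ h1).and (X.li_apL hS hJ h2)).exists
      exact ⟨n, y₀, c₀, rfl, rfl, Or.inr ⟨κ, η, k1, k2⟩⟩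
  obtain ⟨n, y₀, c₀, rfl, rfl, hp'⟩ := key
  exact (h n y₀ c₀ hp' fun e => hc ((F n).li_comm.2 e)).imp (hL n y₀ c₀) (F n).esc

end Pool.Agent.Lib.MP_429c3d_al.Ng
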