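import Pool.Agent.Lib.MP_429c3d_al.NgPk

/-! The algebraic package of the base stage: flags, names, labels. -/

set_option autoImplicit false

namespace Pool.Agent.Lib.MP_429c3d_al.Ng

open Hyp

section Delta

variable {E L A J : Type} [Group E] [MulAction E L] [CommGroup A] (l : E →* A) {F : L → Prop}

theorem exists_delta0 (hF : ∀ (a : E) x, F x → F (a • x))
    (free : ∀ (a : E) x, F x → a • x = x → a = 1) :
    ∃ δ : L → A, (∀ (a : E) y, F y → δ (a • y) = l a * δ y) ∧ ∀ y, ∃ a, δ y = l a := by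
  have ex : ∀ y : L, ∃ a : E, a • (Quotient.mk (MulAction.orbitRel E L) y).out = y := fun y => by
    obtain ⟨g, hg⟩ := Quotient.mk_out (s := MulAction.orbitRel E L) y
    exact ⟨g⁻¹, inv_smul_eq_iff.2 hg.symm⟩
  choose f hf using ex
  refine ⟨fun y => l (f y), fun a y hy => ?_, fun y => ⟨_, rfl⟩⟩
  have e : Quotient.mk (MulAction.orbitRel E L) (a • y) = Quotient.mk _ y :=
    Quotient.sound ⟨a, rfl⟩
  have e1 := hf (a • y)
  rw [e] at e1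
  have e2 := free (f (a • y) * (a * f y)⁻¹) (a • y) (hF a y hy) (by
    rw [mul_smul, mul_inv_rev, mul_smul, inv_smul_smul, inv_smul_eq_iff.2 (hf y).symm, e1])
  simp only [← map_mul, mul_inv_eq_one.1 e2]

theorem exists_delta (free : ∀ (a : E) x, F x → a • x = x → a = 1) (x : J → L) (hx : ∀ j, F (x j))
    (inj : ∀ (a : E) j j', a • x j = x j' → j = j') {δ0 : L → A}
    (h0 : ∀ (a : E) y, F y → δ0 (a • y) = l a * δ0 y) (v : J → A) :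
    ∃ δ : L → A, (∀ (a : E) y, F y → δ (a • y) = l a * δ y) ∧ (∀ j, δ (x j) = v j) ∧
      (∀ y, (∀ (a : E) j, a • x j ≠ y) → δ y = δ0 y) ∧
      ∀ y, δ y = δ0 y ∨ ∃ a j, δ y = l a * v j := by
  classical
  let δ : L → A := fun y => if h : ∃ p : E × J, p.1 • x p.2 = y then
    l h.choose.1 * v h.choose.2 else δ0 y
  have key : ∀ (a : E) j, δ (a • x j) = l a * v j := fun a j => by
    have h : ∃ p : E × J, p.1 • x p.2 = a • x j := ⟨(a, j), rfl⟩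
    have e := h.choose_spec
    have e1 : (a⁻¹ * h.choose.1) • x h.choose.2 = x j := by rw [mul_smul, e, inv_smul_smul]
    have e2 := inj _ _ _ e1
    rw [e2] at e1
    simp only [δ, dif_pos h, e2, ← inv_mul_eq_one.1 (free _ _ (hx j) e1)]
  have out : ∀ y, (∀ (a : E) j, a • x j ≠ y) → δ y = δ0 y := fun y hy =>
    dif_neg fun ⟨p, hp⟩ => hy _ _ hp
  refine ⟨δ, fun a y hy => ?_, fun j => by simpa using key 1 j, out, fun y => ?_⟩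
  · by_cases h : ∀ (b : E) j, b • x j ≠ y
    · rw [out y h, out _ fun b j hh => h (a⁻¹ * b) j (by rw [mul_smul, hh, inv_smul_smul]),
        h0 a y hy]
    · push Not at h
      obtain ⟨b, j, rfl⟩ := h
      rw [← mul_smul, key, key, map_mul, mul_assoc]
  · by_cases h : ∀ (b : E) j, b • x j ≠ y
    · exact Or.inl (out y h)
    · push Not at h
      obtain ⟨b, j, rfl⟩ := h
      exact Or.inr ⟨b, j, key b j⟩

end Delta

theorem abel_inj {E : Type} [Group E] (h : ∀ a b : E, Commute a b) {a : E}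
    (ha : Abelianization.of a = 1) : a = 1 := by
  have e : commutator E = ⊥ := by
    rw [commutator_eq_bot_iff_center_eq_top, eq_top_iff]
    exact fun b _ => Subgroup.mem_center_iff.2 fun c => (h c b).eq
  have : a ∈ (Abelianization.of : E →* _).ker := ha
  rwa [Abelianization.ker_of, e, Subgroup.mem_bot] at this

namespace Pk

variable {G X Ω K I : Type} [Group G] [MulAction G X] [MulAction G Ω] {d : X → X → ℕ} {u S2 : ℕ}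
  (P : Pk G d u S2 Ω K I) (k1 : I × Bool → ℕ) (n : ℕ)

/-- The base apex of a pair. -/
def oo (τ : I × Bool) : Ω := P.o (P.κ τ.1)

/-- The element of height `h`. -/
def CC (τ : I × Bool) (h : ℕ) : G := cs (yy P.y τ) (cc P.y P.s τ) (h + k1 τ - 1)

/-- The apex of height `h`. -/
def PP (τ : I × Bool) : ℕ → Ω
  | 0 => sg P.s τ • P.oo τ
  | h + 1 => P.CC k1 τ h • P.oo τ

/-- The pair `α, x` is a translate of the telescope flag with the name `ν`. -/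
def IsFg (α x : X ⊕ Ω) (ν : (I × Bool) × Bool × ℤ) : Prop :=
  ∃ (h : ℕ) (g : G), ν.2.2 = h ∧ 1 ≤ h ∧ h ≤ n ∧
    ((ν.2.1 = true ∧ α = .inr (g • P.oo ν.1) ∧ x = .inr (g • P.PP k1 ν.1 h)) ∨
      (ν.2.1 = false ∧ α = .inr (g • P.PP k1 ν.1 h) ∧ x = .inr (g • P.oo ν.1)))

/-- The base names. -/
abbrev N0 (G X Ω : Type) [Group G] [MulAction G X] [MulAction G Ω] : Type :=
  Quotient (MulAction.orbitRel G ((X ⊕ Ω) × (X ⊕ Ω)))

/-- The names of flags. -/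
noncomputable def nm (α x : X ⊕ Ω) : Nm (N0 G X Ω) (I × Bool) :=
  open Classical in
  if h : ∃ ν, P.IsFg k1 n α x ν then .inr h.choose else .inl (Quotient.mk _ (α, x))

/-- What the geometry has to provide for the algebraic package. -/
structure Geo (dS : X ⊕ Ω → X ⊕ Ω → ℕ) : Prop where
  gr : IsGr dS
  iso : Isom G dS
  le : ∀ x x', d x x' ≤ u → dS (.inl x) (.inl x') ≤ 1
  nb : ∀ ω, ∃ z, dS (.inr ω) z = 1
  adj : ∀ τ h, h ≤ n → dS (.inr (P.oo τ)) (.inr (P.PP k1 τ h)) = 1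
  ee : ∀ τ τ' h h' (g : G), 1 ≤ h → h ≤ n → 1 ≤ h' → h' ≤ n → g • P.oo τ = P.oo τ' →
    g • P.PP k1 τ h = P.PP k1 τ' h' → τ = τ' ∧ h = h'
  ef : ∀ τ τ' h h' (g : G), 1 ≤ h → h ≤ n → 1 ≤ h' → h' ≤ n → g • P.oo τ = P.PP k1 τ' h' →
    g • P.PP k1 τ h ≠ P.oo τ'
  eb : ∀ τ τ' h (g : G), 1 ≤ h → h ≤ n → g • P.oo τ = P.oo τ' → g • P.PP k1 τ h ≠ P.PP k1 τ' 0
  lf : ∀ τ h N, 1 ≤ h → h ≤ n → LF (P.oo τ) (P.CC k1 τ h) N

variable {P k1 n} {dS : X ⊕ Ω → X ⊕ Ω → ℕ}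

theorem IsFg.smul {α x : X ⊕ Ω} {ν : (I × Bool) × Bool × ℤ} (h : P.IsFg k1 n α x ν) (g : G) :
    P.IsFg k1 n (g • α) (g • x) ν := by
  obtain ⟨h, g', h1, h2, h3, ⟨h4, rfl, rfl⟩ | ⟨h4, rfl, rfl⟩⟩ := h
  · exact ⟨h, g * g', h1, h2, h3, Or.inl ⟨h4, by simp [mul_smul], by simp [mul_smul]⟩⟩
  · exact ⟨h, g * g', h1, h2, h3, Or.inr ⟨h4, by simp [mul_smul], by simp [mul_smul]⟩⟩

theorem IsFg.orb {α x α' x' : X ⊕ Ω} {ν : (I × Bool) × Bool × ℤ} (h : P.IsFg k1 n α x ν)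
    (h' : P.IsFg k1 n α' x' ν) : ∃ g : G, g • α = α' ∧ g • x = x' := by
  obtain ⟨h, g, h1, -, -, h4⟩ := h
  obtain ⟨h', g', h5, -, -, h6⟩ := h'
  obtain rfl : h = h' := by omega
  refine ⟨g' * g⁻¹, ?_⟩
  rcases h4 with ⟨h4, rfl, rfl⟩ | ⟨h4, rfl, rfl⟩ <;> rcases h6 with ⟨h6, rfl, rfl⟩ | ⟨h6, rfl, rfl⟩
  · simp [mul_smul]
  · simp [h4] at h6
  · simp [h4] at h6
  · simp [mul_smul]

theorem Geo.uniq (H : P.Geo k1 n dS) {α x : X ⊕ Ω} {ν ν' : (I × Bool) × Bool × ℤ}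
    (h : P.IsFg k1 n α x ν) (h' : P.IsFg k1 n α x ν') : ν = ν' := by
  obtain ⟨τ, b, j⟩ := ν
  obtain ⟨τ', b', j'⟩ := ν'
  obtain ⟨h, g, h1, h2, h3, h4⟩ := h
  obtain ⟨h', g', h5, h6, h7, h8⟩ := h'
  simp only at h1 h4 h5 h8
  subst h1 h5
  have key : ∀ a a' : Ω, (Sum.inr (g • a) : X ⊕ Ω) = .inr (g' • a') → (g'⁻¹ * g) • a = a' :=
    fun a a' hh => by rw [mul_smul, Sum.inr.inj hh, inv_smul_smul]
  rcases h4 with ⟨rfl, rfl, rfl⟩ | ⟨rfl, rfl, rfl⟩ <;> rcases h8 with ⟨rfl, e1, e2⟩ | ⟨rfl, e1, e2⟩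
  · obtain ⟨rfl, rfl⟩ := H.ee _ _ _ _ _ h2 h3 h6 h7 (key _ _ e1) (key _ _ e2)
    rfl
  · exact absurd (key _ _ e2) (H.ef _ _ _ _ _ h2 h3 h6 h7 (key _ _ e1))
  · exact absurd (key _ _ e1) (H.ef _ _ _ _ _ h2 h3 h6 h7 (key _ _ e2))
  · obtain ⟨rfl, rfl⟩ := H.ee _ _ _ _ _ h2 h3 h6 h7 (key _ _ e2) (key _ _ e1)
    rfl

theorem Geo.nm_eq (H : P.Geo k1 n dS) {α x : X ⊕ Ω} {ν : (I × Bool) × Bool × ℤ}
    (h : P.IsFg k1 n α x ν) : P.nm k1 n α x = .inr ν := by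
  have e : ∃ ν, P.IsFg k1 n α x ν := ⟨ν, h⟩
  rw [nm, dif_pos e, H.uniq e.choose_spec h]

theorem nm_cases (α x : X ⊕ Ω) : (∃ ν, P.IsFg k1 n α x ν ∧ P.nm k1 n α x = .inr ν) ∨
    ((∀ ν, ¬ P.IsFg k1 n α x ν) ∧ P.nm k1 n α x = .inl (Quotient.mk _ (α, x))) := by
  by_cases e : ∃ ν, P.IsFg k1 n α x ν
  · exact Or.inl ⟨_, e.choose_spec, dif_pos e⟩
  · exact Or.inr ⟨fun ν h => e ⟨ν, h⟩, dif_neg e⟩

theorem isFg_of_nm {α x : X ⊕ Ω} {ν : (I × Bool) × Bool × ℤ} (h : P.nm k1 n α x = .inr ν) :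
    P.IsFg k1 n α x ν := by
  rcases nm_cases (P := P) (k1 := k1) (n := n) α x with ⟨ν', h1, h2⟩ | ⟨-, h2⟩
  · rwa [← Sum.inr.inj (h2.symm.trans h)]
  · exact absurd (h2.symm.trans h) Sum.inl_ne_inr

theorem Geo.nm_smul (H : P.Geo k1 n dS) (g : G) (α x : X ⊕ Ω) :
    P.nm k1 n (g • α) (g • x) = P.nm k1 n α x := by
  rcases nm_cases (P := P) (k1 := k1) (n := n) α x with ⟨ν, h1, h2⟩ | ⟨h1, h2⟩
  · rw [h2, H.nm_eq (h1.smul g)]
  · rw [h2, nm, dif_neg fun ⟨ν, h⟩ => h1 ν (by simpa using h.smul g⁻¹)]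
    exact congrArg Sum.inl (Quotient.sound ⟨g, rfl⟩)

theorem nm_orb {α x α' x' : X ⊕ Ω} (h : P.nm k1 n α x = P.nm k1 n α' x') :
    ∃ g : G, g • α = α' ∧ g • x = x' := by
  rcases nm_cases (P := P) (k1 := k1) (n := n) α x with ⟨ν, h1, h2⟩ | ⟨-, h2⟩
  · exact h1.orb (isFg_of_nm (h.symm.trans h2))
  · rcases nm_cases (P := P) (k1 := k1) (n := n) α' x' with ⟨ν, -, h4⟩ | ⟨-, h4⟩
    · exact absurd (h2.symm.trans (h.trans h4)) Sum.inl_ne_inr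
    · obtain ⟨g, hg⟩ := Quotient.exact (Sum.inl.inj (h4.symm.trans (h.symm.trans h2)))
      exact ⟨g, congrArg Prod.fst hg, congrArg Prod.snd hg⟩

theorem isFg_E {τ : I × Bool} {h : ℕ} (h1 : 1 ≤ h) (h2 : h ≤ n) :
    P.IsFg k1 n (.inr (P.oo τ)) (.inr (P.PP k1 τ h)) (τ, true, h) :=
  ⟨h, 1, rfl, h1, h2, Or.inl ⟨rfl, by simp, by simp⟩⟩

theorem isFg_F {τ : I × Bool} {h : ℕ} (h1 : 1 ≤ h) (h2 : h ≤ n) :
    P.IsFg k1 n (.inr (P.PP k1 τ h)) (.inr (P.oo τ)) (τ, false, h) :=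
  ⟨h, 1, rfl, h1, h2, Or.inr ⟨rfl, by simp, by simp⟩⟩

theorem Geo.not_isFg (H : P.Geo k1 n dS) (τ : I × Bool) (ν : (I × Bool) × Bool × ℤ) :
    ¬ P.IsFg k1 n (.inr (P.oo τ)) (.inr (P.PP k1 τ 0)) ν := by
  rintro ⟨h, g, -, h2, h3, ⟨-, e1, e2⟩ | ⟨-, e1, e2⟩⟩
  · exact H.eb _ _ _ g h2 h3 (Sum.inr.inj e1).symm (Sum.inr.inj e2).symm
  · have e3 : sg P.s (τ.1, !τ.2) = (sg P.s τ)⁻¹ := by
      obtain ⟨i, _ | _⟩ := τ <;> simp [sg]
    refine H.eb ν.1 (τ.1, !τ.2) h ((sg P.s τ)⁻¹ * g) h2 h3 ?_ ?_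
    · rw [mul_smul, ← Sum.inr.inj e2, PP, inv_smul_smul]
      rfl
    · rw [mul_smul, ← Sum.inr.inj e1, PP, e3]
      rfl

end Pk

end Pool.Agent.Lib.MP_429c3d_al.Ng
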