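import Pool.Agent.Lib.MP_429c3d_al.NgM
import Pool.Agent.Lib.MP_429c3d_al.NgPk2

set_option autoImplicit false
set_option linter.unusedSectionVars false

/-! The translates of the telescopes of the primitive pairs. -/

namespace Pool.Agent.Lib.MP_429c3d_al.Ng

open Hyp Sum

namespace Pk

variable {G X Ω K I : Type} [Group G] [MulAction G X] [MulAction G Ω] {d : X → X → ℕ} {u S2 : ℕ}
  (P : Pk G d u S2 Ω K I) (k1 : I × Bool → ℕ)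
  {ST : St (Multiplicative ℤ) (Nm Empty Unit) Unit} {n : ℕ} (T : Tel ST n)

/-- The index `i` is the translate by `g0 i` of the telescope of the pair `ty i`. -/
structure Arms {J : Type} [MulAction G J] (ψ : J → ST.Z → X ⊕ Ω) (ρ : J → ST.G →* G)
    (ty : J → I × Bool) (g0 : J → G) : Prop where
  ρ_y : ∀ i, ρ i T.y = g0 i * yy P.y (ty i) * (g0 i)⁻¹
  ρ_ε : ∀ i, ρ i T.ε = g0 i * P.CC k1 (ty i) 1 * (g0 i)⁻¹
  ψ_o : ∀ i, ψ i T.o = inr (g0 i • P.oo (ty i))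
  ψ_p : ∀ i, ψ i T.p = inr (g0 i • P.PP k1 (ty i) 1)
  equi : ∀ i t x, ψ i (t • x) = ρ i t • ψ i x
  move : ∀ (γ : G) i, ∃ t : ST.G, ∀ x, ψ (γ • i) (t • x) = γ • ψ i x
  all : ∀ τ (g : G), ∃ i t, ty i = τ ∧ ρ i t * g0 i = g
  uniq : ∀ i j t t', ty i = ty j → ρ i t * g0 i = ρ j t' * g0 j → i = j

theorem arm_yy_fix (τ : I × Bool) : yy P.y τ • P.oo τ = P.oo τ := by
  obtain ⟨i, _ | _⟩ := τ
  · exact inv_smul_eq_iff.2 (P.y_fix i).symm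
  · exact P.y_fix i

theorem arm_CC_succ (hk : ∀ τ, 1 ≤ k1 τ) (τ : I × Bool) (h : ℕ) :
    P.CC k1 τ (h + 1) = P.CC k1 τ h * yy P.y τ * (P.CC k1 τ h)⁻¹ := by
  have := hk τ
  rw [CC, show h + 1 + k1 τ - 1 = h + k1 τ - 1 + 1 by omega]
  rfl

theorem arm_CC_fix (hk : ∀ τ, 1 ≤ k1 τ) (τ : I × Bool) (h : ℕ) :
    P.CC k1 τ (h + 1) • P.PP k1 τ (h + 1) = P.PP k1 τ (h + 1) := by
  rw [P.arm_CC_succ k1 hk, PP, mul_smul, mul_smul, inv_smul_smul, P.arm_yy_fix]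

theorem arm_cs (τ : I × Bool) (j : ℕ) : cs (yy P.y τ) (P.CC k1 τ 1) j = P.CC k1 τ (j + 1) := by
  rw [CC, CC, cs_add]
  congr 1
  omega

/-- The equivariant map from the telescope that belongs to a homomorphism. -/
theorem arm_theta {W : Type} [MulAction G W] (φ : ST.G →* G) {a b : W} (ha : φ T.y • a = a)
    (hb : φ T.ε • b = b) : ∃ θ : ST.Z → W, θ T.o = a ∧ θ T.p = b ∧
      ∀ t x, θ (t • x) = φ t • θ x := by
  classical
  choose f hf using T.orb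
  have fix : ∀ {g : G} {w : W}, g • w = w → ∀ i : ℤ, g ^ i • w = w := fun h i =>
    MulAction.mem_stabilizer_iff.1 (Subgroup.zpow_mem _ (MulAction.mem_stabilizer_iff.2 h) i)
  let θ : ST.Z → W := fun x => if x = f x • T.o then φ (f x) • a else φ (f x) • b
  have h1 : ∀ g : ST.G, θ (g • T.o) = φ g • a := fun g => by
    have e : g • T.o = f (g • T.o) • T.o := (hf _).resolve_right fun h =>
      T.ne ((f (g • T.o))⁻¹ * g) (by rw [mul_smul, inv_smul_eq_iff]; exact h)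
    obtain ⟨i, hi⟩ := (T.stab_o (g⁻¹ * f (g • T.o))).1 (by rw [mul_smul, ← e, inv_smul_smul])
    simp only [θ, if_pos e]
    rw [inv_mul_eq_iff_eq_mul.1 hi, map_mul, map_zpow, mul_smul, fix ha]
  have h2 : ∀ g : ST.G, θ (g • T.p) = φ g • b := fun g => by
    have e' : g • T.p ≠ f (g • T.p) • T.o := fun h =>
      T.ne (g⁻¹ * f (g • T.p)) (by rw [mul_smul, ← h, inv_smul_smul])
    have e := (hf _).resolve_left e'
    obtain ⟨i, hi⟩ := (T.stab_p (g⁻¹ * f (g • T.p))).1 (by rw [mul_smul, ← e, inv_smul_smul])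
    simp only [θ, if_neg e']
    rw [inv_mul_eq_iff_eq_mul.1 hi, map_mul, map_zpow, mul_smul, fix hb]
  refine ⟨θ, by simpa using h1 1, by simpa using h2 1, fun t x => ?_⟩
  obtain ⟨g, rfl | rfl⟩ := T.orb x
  · rw [← mul_smul, h1, h1, map_mul, mul_smul]
  · rw [← mul_smul, h2, h2, map_mul, mul_smul]

/-- `φ τ` from `T.univ`; `θ τ (g o) = φ τ g • oo τ`, `θ τ (g p) = φ τ g • PP τ 1` (`orb`, `stab_o`,
`stab_p`, `ne`; `CC τ 1` fixes `PP τ 1` as `1 ≤ k1 τ`); `J = Σ τ, G ⧸ (φ τ).range`,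
`g0 ⟨τ, q⟩ = q.out`, `ψ i x = g0 i • θ x`, `ρ i t = g0 i * φ t * (g0 i)⁻¹`. -/
theorem exists_arms (hk : ∀ τ, 1 ≤ k1 τ) : ∃ (J : Type) (_ : MulAction G J)
    (ψ : J → ST.Z → X ⊕ Ω) (ρ : J → ST.G →* G) (ty : J → I × Bool) (g0 : J → G),
    P.Arms k1 T ψ ρ ty g0 := by
  choose φ h1 h2 using fun τ => T.univ G (yy P.y τ) (P.CC k1 τ 1)
  choose θ h3 h4 h5 using fun τ => arm_theta T (φ τ) (a := P.oo τ) (b := P.PP k1 τ 1)
    (by rw [h1, P.arm_yy_fix]) (by rw [h2]; exact P.arm_CC_fix k1 hk τ 0)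
  refine ⟨Σ τ, G ⧸ (φ τ).range, inferInstance, fun i x => inr (i.2.out • θ i.1 x),
    fun i => (MulAut.conj i.2.out).toMonoidHom.comp (φ i.1), fun i => i.1, fun i => i.2.out,
    fun i => by simp [h1], fun i => by simp [h2], fun i => by rw [h3], fun i => by rw [h4],
    fun i t x => by simp [h5, mul_smul], ?_, fun τ g => ?_, ?_⟩
  · rintro γ ⟨τ, q⟩
    have : ((γ • q).out)⁻¹ * (γ * q.out) ∈ (φ τ).range := by
      rw [← QuotientGroup.eq, QuotientGroup.out_eq', ← smul_eq_mul, MulAction.Quotient.coe_smul_out]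
    obtain ⟨t, ht⟩ := this
    refine ⟨t, fun x => ?_⟩
    show inr ((γ • q).out • θ τ (t • x)) = γ • inr (q.out • θ τ x)
    rw [h5, ht, ← mul_smul, mul_inv_cancel_left, mul_smul]
    rfl
  · have : ((g : G ⧸ (φ τ).range).out)⁻¹ * g ∈ (φ τ).range := by
      rw [← QuotientGroup.eq, QuotientGroup.out_eq']
    obtain ⟨t, ht⟩ := this
    exact ⟨⟨τ, g⟩, t, rfl, by simp [ht]⟩
  · rintro ⟨τ, q⟩ ⟨τ', q'⟩ t t' (rfl : τ = τ') h
    have e : q.out * φ τ t = q'.out * φ τ t' := by simpa using h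
    congr 1
    rw [← QuotientGroup.out_eq' q, ← QuotientGroup.out_eq' q', QuotientGroup.eq]
    exact ⟨t * t'⁻¹, by rw [map_mul, map_inv, eq_inv_mul_iff_mul_eq, ← mul_assoc, e,
      mul_inv_cancel_right]⟩

variable {P k1 T} {J : Type} [MulAction G J] {ψ : J → ST.Z → X ⊕ Ω} {ρ : J → ST.G →* G}
  {ty : J → I × Bool} {g0 : J → G} {dY : X ⊕ Ω → X ⊕ Ω → ℕ} {kY cY l0 l1 : ℕ}

namespace Arms

variable (R : P.Arms k1 T ψ ρ ty g0) (hk : ∀ τ, 1 ≤ k1 τ)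
include R hk

theorem ψ_P (i : J) (t : ST.G) (j : ℕ) :
    ψ i (t • T.P j) = inr ((ρ i t * g0 i) • P.PP k1 (ty i) (j + 1)) := by
  rw [R.equi]
  rcases j with _ | j
  · rw [T.P_zero, R.ψ_p, mul_smul]
    rfl
  · rw [T.P_succ, R.equi, R.ψ_o, map_cs, R.ρ_y, R.ρ_ε, ← conj_cs, arm_cs]
    simp [PP, mul_smul]

theorem arm_ψ_o (i : J) (t : ST.G) : ψ i (t • T.o) = inr ((ρ i t * g0 i) • P.oo (ty i)) := by
  rw [R.equi, R.ψ_o, mul_smul]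
  rfl

theorem arm_fgE (i : J) (t : ST.G) {j : ℕ} (hj : j ≤ n) :
    P.IsFg k1 (n + 1) (ψ i (t • T.o)) (ψ i (t • T.P j)) (ty i, true, (j : ℤ) + 1) :=
  ⟨j + 1, ρ i t * g0 i, rfl, by omega, by omega, Or.inl ⟨rfl, R.arm_ψ_o hk i t, R.ψ_P hk i t j⟩⟩

theorem arm_fgF (i : J) (t : ST.G) {j : ℕ} (hj : j ≤ n) :
    P.IsFg k1 (n + 1) (ψ i (t • T.P j)) (ψ i (t • T.o)) (ty i, false, (j : ℤ) + 1) :=
  ⟨j + 1, ρ i t * g0 i, rfl, by omega, by omega, Or.inr ⟨rfl, R.ψ_P hk i t j, R.arm_ψ_o hk i t⟩⟩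

theorem arm_all (τ : I × Bool) (g : G) : ∃ (i : J) (t : ST.G), ty i = τ ∧
    ψ i (t • T.o) = inr (g • P.oo τ) ∧ ∀ j, ψ i (t • T.P j) = inr (g • P.PP k1 τ (j + 1)) := by
  obtain ⟨i, t, rfl, rfl⟩ := R.all τ g
  exact ⟨i, t, rfl, R.arm_ψ_o hk i t, R.ψ_P hk i t⟩

theorem leg_iff (α x : X ⊕ Ω) (ok : ST.OK) :
    (∃ i, legM ψ i α x) ↔ ∃ ν, P.IsFg k1 (n + 1) α x ν := by
  constructor
  · rintro ⟨i, x₀, x₁, h, rfl, rfl⟩
    obtain ⟨g, j, hj, ⟨rfl, rfl⟩ | ⟨rfl, rfl⟩⟩ := T.edge x₀ x₁ h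
    · exact ⟨_, R.arm_fgE hk i g hj⟩
    · exact ⟨_, R.arm_fgF hk i g hj⟩
  · rintro ⟨ν, h, g, -, h1, h2, h3⟩
    obtain ⟨j, rfl⟩ : ∃ j, h = j + 1 := ⟨h - 1, by omega⟩
    obtain ⟨i, t, -, e1, e2⟩ := R.arm_all hk ν.1 g
    have e3 : ST.d (t • T.o) (t • T.P j) = 1 := by rw [ok.iso, T.adj j (by omega)]
    rcases h3 with ⟨-, rfl, rfl⟩ | ⟨-, rfl, rfl⟩
    · exact ⟨i, _, _, e3, e1, e2 j⟩
    · exact ⟨i, _, _, by rwa [ok.gr.met.symm], e2 j, e1⟩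

/-- `ρ_y`, `ρ_ε`, `cs_add`, `conj_cs`. -/
theorem tr_of {m : ℕ} {i : J} {y c : G} {a j : ℕ} {g : G} (h1 : g * y * g⁻¹ = ρ i T.y)
    (h2 : g * cs y c a * g⁻¹ = cs (ρ i T.y) (ρ i T.ε) j) : Tr m (yy P.y) (cc P.y P.s) y c := by
  refine ⟨a, Or.inr ⟨(g0 i)⁻¹ * g, ty i, 1 + k1 (ty i) - 1 + j, ?_, ?_⟩⟩
  · rw [R.ρ_y] at h1
    rw [show (g0 i)⁻¹ * g * y * ((g0 i)⁻¹ * g)⁻¹ = (g0 i)⁻¹ * (g * y * g⁻¹) * g0 i by group, h1]
    group
  · rw [R.ρ_y, R.ρ_ε, ← conj_cs, CC, cs_add] at h2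
    rw [show (g0 i)⁻¹ * g * cs y c a * ((g0 i)⁻¹ * g)⁻¹ =
      (g0 i)⁻¹ * (g * cs y c a * g⁻¹) * g0 i by group, h2]
    group

variable (M : Mod T G dY ψ ρ kY cY l0 l1)
  (mal : ∀ i j x x' z z', x ≠ x' → ψ i x = ψ j z → ψ i x' = ψ j z' → i = j)
include M mal

/-- `ee`, `ef`: `all`, `mal`, `M.inj`, names in the telescope. `eb`: `M.far` against `hb`.
`lf`: `lf_of_tam` in `X ⊕ Ω` (the distance from `oo` to `PP h` is large by `M.far`... or by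
induction with `M.ta`), then pass from `inr (oo τ)` to `oo τ`. -/
theorem geo (hl : 2 * cY + 3 * kY + 3 ≤ l0)
    (hx : ∀ x x', d x x' ≤ u → dY (inl x) (inl x') ≤ 1) (hn : ∀ ω, ∃ x, dY (inr ω) (inl x) ≤ 1)
    (hb : ∀ τ, dY (inr (P.oo τ)) (inr (P.PP k1 τ 0)) ≤ 1) :
    P.Geo k1 (n + 1) (dSM ψ dY) := by
  obtain ⟨gr, le⟩ := gd_isGr (adj := fun x y => dY x y ≤ 1 ∨ ∃ i, legM ψ i x y)
    (by
      rintro x y (h | ⟨i, x₀, x₁, h, rfl, rfl⟩)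
      · exact Or.inl (by rwa [M.gr.met.symm])
      · exact Or.inr ⟨i, x₁, x₀, by rwa [M.ok.gr.met.symm], rfl, rfl⟩)
    fun x y => M.gr.induct x (P := fun _ v => Relation.ReflTransGen _ x v) .refl
      (fun _ _ _ _ _ h ih => ih.tail (Or.inl h.le)) y
  have one : ∀ x y, x ≠ y → (dY x y ≤ 1 ∨ ∃ i, legM ψ i x y) → dSM ψ dY x y = 1 := by
    intro x y h1 h2
    have e1 : dSM ψ dY x y ≤ 1 := (le x y).2 (Or.inr h2)
    have e2 : dSM ψ dY x y ≠ 0 := fun e => h1 (gr.sep x y e)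
    omega
  have adj : ∀ (t : ST.G) j, j ≤ n → ST.d (t • T.o) (t • T.P j) = 1 := fun t j hj => by
    rw [M.ok.iso, T.adj j hj]
  have ne : ∀ (t : ST.G) j, j ≤ n → t • T.o ≠ t • T.P j := fun t j hj e => by
    have := adj t j hj
    rw [e, M.ok.gr.met.self] at this
    omega
  have nE : ∀ (t : ST.G) j, j ≤ n → ST.nm (t • T.o) (t • T.P j) = inr ((), true, (j : ℤ) + 1) :=
    fun t j hj => by rw [M.ok.nm_smul t _ _ ⟨T.ap _, T.adj j hj⟩, T.nmE j hj]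
  have nF : ∀ (t : ST.G) j, j ≤ n → ST.nm (t • T.P j) (t • T.o) = inr ((), false, (j : ℤ) + 1) :=
    fun t j hj => by
      rw [M.ok.nm_smul t _ _ ⟨T.ap _, by rw [M.ok.gr.met.symm, T.adj j hj]⟩, T.nmF j hj]
  have far : ∀ τ (g : G) j, j ≤ n →
      l0 ≤ dY (inr (g • P.oo τ)) (inr (g • P.PP k1 τ (j + 1))) + cY + kY := fun τ g j hj => by
    obtain ⟨i, t, -, e1, e2⟩ := R.arm_all hk τ g
    rw [← e1, ← e2]
    exact M.far i (ne t j hj)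
  refine ⟨gr, fun g x y => ?_, fun x x' h => (le _ _).2 (Or.inr (Or.inl (hx x x' h))),
    fun ω => ?_, fun τ h hh => ?_, fun τ τ' h h' g a1 a2 a3 a4 e1 e2 => ?_,
    fun τ τ' h h' g a1 a2 a3 a4 e1 e2 => ?_, fun τ τ' h g a1 a2 e1 e2 => ?_,
    fun τ h N a1 a2 => ?_⟩
  · have key : ∀ (g : G) m x y, GW (fun x y => dY x y ≤ 1 ∨ ∃ i, legM ψ i x y) m x y →
        GW (fun x y => dY x y ≤ 1 ∨ ∃ i, legM ψ i x y) m (g • x) (g • y) := by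
      rintro g m x y ⟨c, c0, cn, cs⟩
      refine ⟨fun i => g • c i, by simp [c0], by simp [cn], fun i hi =>
        (cs i hi).imp (congrArg _) ?_⟩
      rintro (h | ⟨j, x₀, x₁, h, e0, e1⟩)
      · exact Or.inl (by rwa [M.iso])
      · obtain ⟨t, ht⟩ := M.move g j
        exact Or.inr ⟨g • j, t • x₀, t • x₁, by rwa [M.ok.iso], by rw [ht, e0], by rw [ht, e1]⟩
    unfold dSM gd
    congr 1
    ext m
    exact ⟨fun h => by simpa using key g⁻¹ m _ _ h, key g m x y⟩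
  · obtain ⟨x, h⟩ := hn ω
    exact ⟨inl x, one _ _ inr_ne_inl (Or.inl h)⟩
  · rcases h with _ | j
    · refine one _ _ (fun e => (P.prim τ).2.1 ?_) (Or.inl (hb τ))
      have e1 := P.aps.comm _ _ _ (P.arm_yy_fix τ) (inr.inj e).symm
      rw [cc, ← e1.eq, mul_inv_cancel_right]
    · obtain ⟨i, t, -, e1, e2⟩ := R.arm_all hk τ 1
      simp only [one_smul] at e1 e2
      rw [← e1, ← e2]
      exact one _ _ (fun e => ne t j (by omega) (M.inj i e))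
        (Or.inr ⟨i, _, _, adj t j (by omega), rfl, rfl⟩)
  · obtain ⟨j, rfl⟩ : ∃ j, h = j + 1 := ⟨h - 1, by omega⟩
    obtain ⟨j', rfl⟩ : ∃ j, h' = j + 1 := ⟨h' - 1, by omega⟩
    obtain ⟨i, t, rfl, b1, b2⟩ := R.arm_all hk τ g
    obtain ⟨i', t', rfl, b3, b4⟩ := R.arm_all hk τ' 1
    have c1 : ψ i (t • T.o) = ψ i' (t' • T.o) := by rw [b1, b3, one_smul, e1]
    have c2 : ψ i (t • T.P j) = ψ i' (t' • T.P j') := by rw [b2, b4, one_smul, e2]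
    obtain rfl := mal _ _ _ _ _ _ (ne t j (by omega)) c1 c2
    have c3 := nE t j (by omega)
    rw [M.inj i c1, M.inj i c2, nE t' j' (by omega)] at c3
    simp only [inr.injEq, Prod.mk.injEq, true_and] at c3
    exact ⟨rfl, by omega⟩
  · obtain ⟨j, rfl⟩ : ∃ j, h = j + 1 := ⟨h - 1, by omega⟩
    obtain ⟨j', rfl⟩ : ∃ j, h' = j + 1 := ⟨h' - 1, by omega⟩
    obtain ⟨i, t, rfl, b1, b2⟩ := R.arm_all hk τ g
    obtain ⟨i', t', rfl, b3, b4⟩ := R.arm_all hk τ' 1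
    have c1 : ψ i (t • T.o) = ψ i' (t' • T.P j') := by rw [b1, b4, one_smul, e1]
    have c2 : ψ i (t • T.P j) = ψ i' (t' • T.o) := by rw [b2, b3, one_smul, e2]
    obtain rfl := mal _ _ _ _ _ _ (ne t j (by omega)) c1 c2
    have c3 := nE t j (by omega)
    rw [M.inj i c1, M.inj i c2, nF t' j' (by omega)] at c3
    simp at c3
  · obtain ⟨j, rfl⟩ : ∃ j, h = j + 1 := ⟨h - 1, by omega⟩
    have c1 := far τ g j (by omega)
    have c2 := hb τ'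
    rw [e1, e2] at c1
    omega
  · obtain ⟨j, rfl⟩ : ∃ j, h = j + 1 := ⟨h - 1, by omega⟩
    have c1 := far τ 1 j (by omega)
    simp only [one_smul] at c1
    have c2 := lf_of_tam M.gr.met M.hyp M.iso M.ta M.tf (o := inr (P.oo τ))
      (p := inr (P.PP k1 τ (j + 1))) (e := P.CC k1 τ (j + 1))
      (by rw [P.arm_CC_succ k1 hk]; exact fun e => (P.prim τ).ne_one (conj_eq_one_iff.1 e))
      (congrArg inr (P.arm_CC_fix k1 hk τ j)) (by omega) N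
    exact fun l i b1 b2 b3 e => c2 l i b1 b2
      (fun p hp => ⟨(b3 p hp).1, (b3 p hp).2.1, congrArg inr (b3 p hp).2.2⟩) (congrArg inr e)

/-- The names of the flags of a telescope. -/
theorem nm_leg (H : P.Geo k1 (n + 1) (dSM ψ dY)) (i : J) {x x' : ST.Z} (h : ST.d x x' = 1) :
    ∃ (b : Bool) (j : ℤ), ST.nm x x' = inr ((), b, j) ∧
      P.nm k1 (n + 1) (ψ i x) (ψ i x') = inr (ty i, b, j) := by
  obtain ⟨g, j, hj, ⟨rfl, rfl⟩ | ⟨rfl, rfl⟩⟩ := T.edge x x' h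
  · exact ⟨true, j + 1, by rw [M.ok.nm_smul g _ _ ⟨T.ap _, T.adj j hj⟩, T.nmE j hj],
      H.nm_eq (R.arm_fgE hk i g hj)⟩
  · exact ⟨false, j + 1, by
      rw [M.ok.nm_smul g _ _ ⟨T.ap _, by rw [M.ok.gr.met.symm, T.adj j hj]⟩, T.nmF j hj],
      H.nm_eq (R.arm_fgF hk i g hj)⟩

theorem ht_zero (v b : X ⊕ Ω) (h : ∀ i, ¬ legM ψ i v b) :
    (P.nm k1 (n + 1) v b).ht.natAbs = 0 := by
  rcases nm_cases (P := P) (k1 := k1) (n := n + 1) v b with ⟨ν, h1, -⟩ | ⟨-, h2⟩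
  · obtain ⟨i, hi⟩ := (R.leg_iff hk v b M.ok).2 ⟨ν, h1⟩
    exact absurd hi (h i)
  · rw [h2]
    rfl

theorem ht_one (H : P.Geo k1 (n + 1) (dSM ψ dY)) (i : J) (c v : X ⊕ Ω) (h : trM ψ T i c v) :
    (P.nm k1 (n + 1) v c).ht.natAbs ≤ 1 := by
  obtain ⟨x, x', ⟨g, ⟨rfl, rfl⟩ | ⟨rfl, rfl⟩⟩, rfl, rfl⟩ := h
  · rw [← T.P_zero, H.nm_eq (R.arm_fgF hk i g (Nat.zero_le _))]
    exact le_rfl
  · rw [← T.P_zero, H.nm_eq (R.arm_fgE hk i g (Nat.zero_le _))]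
    exact le_rfl

theorem det_leg (H : P.Geo k1 (n + 1) (dSM ψ dY))
    (hD : ∀ l, Det ST.d ST.ap ST.nm dnm l 3) (i : J) (v a b : X ⊕ Ω) (l : ℕ)
    (ha : legM ψ i v a) (hb : legM ψ i v b) (h : AvT (ZM ψ) (dTM ψ T) i v l a b) :
    dnm (P.nm k1 (n + 1) v a) (P.nm k1 (n + 1) v b) ≤ 3 * l := by
  obtain ⟨x₀, x₁, a1, rfl, rfl⟩ := ha
  obtain ⟨x₀', x₂, a2, e, rfl⟩ := hb
  obtain rfl := M.inj i e
  obtain ⟨b1, j1, c1, c2⟩ := R.nm_leg hk M mal H i a1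
  obtain ⟨b2, j2, c3, c4⟩ := R.nm_leg hk M mal H i a2
  obtain ⟨_, _, _, c, c0, cn, ca, cs⟩ := h
  choose f hf using fun t => (c t).2
  have key := hD l x₀' x₁ x₂ l (T.ap _) le_rfl a1.le a2.le
    ⟨f, M.inj i (by rw [hf, c0]), M.inj i (by rw [hf, cn]),
      fun t ht e' => ca t ht (Subtype.ext (by rw [← hf, e'])), fun t ht => by
        have := cs t ht
        simp only at this
        rwa [← hf, ← hf, M.dTM_eq] at this⟩
  rw [c1, c3] at key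
  rw [c2, c4]
  simpa [dnm, Nm.arm, Nm.ht] using key

end Arms

end Pk

end Pool.Agent.Lib.MP_429c3d_al.Ng
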