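import Pool.Agent.Lib.MP_429c3d_al.NgFiL

set_option autoImplicit false

/-! The charts are labelled graphs; horoball charts. -/

namespace Pool.Agent.Lib.MP_429c3d_al.Ng

open Hyp

namespace Fi

variable {AA N0 K T : Type} [CommGroup AA] (P : Fi AA N0 K T)

theorem linv_linv (l : P.Lbl) : P.linv (P.linv l) = l := by
  rcases l with ρ | a | u
  · rfl
  · simp only [linv, inv_inv]
  · rfl

theorem rev_rev (e : P.E) : P.rev (P.rev e) = e :=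
  Subtype.ext (Prod.ext rfl (Prod.ext (P.linv_linv _) rfl))

theorem src_rev (e : P.E) : P.src (P.rev e) = P.tgt e := rfl

theorem lgJ : LGraph P.src P.tgt P.rev P.dJ P.πJ P.dartJ := by
  obtain ⟨g1, g2⟩ := Cu.dW_gr (H := P.ok) (dnm_met (N0 := N0) (T := T))
  refine ⟨g1, fun p e q h => ⟨Subtype.ext h.1, Subtype.ext h.2.2⟩,
    fun p e q h => ⟨h.2.2, h.2.1.inv, h.1⟩, fun p e q h => (g2 p q).2 (Or.inr ?_),
    fun p q h => ?_⟩
  · obtain ⟨⟨a, l, b⟩, he⟩ := e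
    have h2 : P.D0 p l q := h.2.1
    rcases l with ρ | a | u
    · exact Or.inr (Or.inr h2.1)
    · exact Or.inr (Or.inl h2.1)
    · exact Or.inl h2
  · have mk : ∀ l, P.D0 p l q → ∃ e, P.dartJ p e q := fun l hl =>
      ⟨⟨(P.pi0 p, l, P.pi0 q), Or.inl ⟨p, q, rfl, hl, rfl⟩⟩, rfl, hl, rfl⟩
    rcases (g2 p q).1 h.le with e | e | e | e
    · subst e
      have := g1.met.self p
      exact absurd (h.symm.trans this) (by omega)
    · exact mk (.inr (.inr ())) e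
    · exact mk (.inr (.inl _)) ⟨e, rfl⟩
    · exact mk (.inl _) ⟨e, rfl⟩

theorem connQ (q q' : P.Q) :
    Relation.ReflTransGen (fun u v => ∃ e, P.src e = u ∧ P.tgt e = v) q q' := by
  obtain ⟨_, p, rfl⟩ := q
  obtain ⟨_, p', rfl⟩ := q'
  refine P.lgJ.gr.induct p (P := fun _ v =>
    Relation.ReflTransGen (fun u v => ∃ e, P.src e = u ∧ P.tgt e = v) (P.πJ p) (P.πJ v))
    Relation.ReflTransGen.refl ?_ p'
  intro n u v _ _ h ih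
  obtain ⟨e, he⟩ := P.lgJ.ex u v h
  obtain ⟨e1, e2⟩ := P.lgJ.ends _ _ _ he
  exact ih.tail ⟨e, e1.symm, e2.symm⟩

/-- The point `t` levels above `u`. -/
def HP.up {P : Fi AA N0 K T} {κ : K} (u : P.HP κ) (t : ℕ) : P.HP κ :=
  ⟨u.a, u.ν, u.i + t, u.mem, u.occ⟩

theorem climbH {κ : K} (u : P.HP κ) (t : ℕ) :
    Relation.ReflTransGen (fun u v => ∃ l, P.DH u l v) u (u.up t) ∧
      Relation.ReflTransGen (fun u v => ∃ l, P.DH u l v) (u.up t) u := by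
  induction t with
  | zero => exact ⟨Relation.ReflTransGen.refl, Relation.ReflTransGen.refl⟩
  | succ t ih =>
    have h : P.DH (u.up t) (.inr (.inr ())) (u.up (t + 1)) := ⟨rfl, rfl, Or.inl rfl⟩
    exact ⟨ih.1.tail ⟨_, h⟩, ih.2.head ⟨_, h.inv⟩⟩

theorem dH_gr (κ : K) : IsGr (P.dH κ) ∧ ∀ u v, P.dH κ u v ≤ 1 ↔ u = v ∨ ∃ l, P.DH u l v := by
  refine gd_isGr (fun u v ⟨l, h⟩ => ⟨_, h.inv⟩) fun u v => ?_
  have h : P.DH (u.up (v.i + dnb P.per u.ν v.ν + 1)) (.inr (.inl (u.a⁻¹ * v.a)))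
      (v.up (u.i + dnb P.per u.ν v.ν + 1)) := by
    refine ⟨?_, ?_, ?_, ?_⟩
    · simp only [HP.up]
      omega
    · simp only [HP.up]
      omega
    · simp only [HP.up]
      have := Nat.lt_two_pow_self (n := u.i + (v.i + dnb P.per u.ν v.ν + 1))
      omega
    · simp only [HP.up, mul_inv_cancel_left]
  exact ((P.climbH u _).1.tail ⟨_, h⟩).trans (P.climbH v _).2

theorem horoH (κ : K) : Horo (P.dH κ) (fun a b : AA × Nm N0 T => dnb P.per a.2 b.2)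
    (fun u => (u.a, u.ν)) HP.i := by
  obtain ⟨g1, g2⟩ := P.dH_gr κ
  have m := dnb_met (N0 := N0) (per := P.per)
  refine ⟨g1, ⟨fun a => m.self _, fun a b => m.symm _ _, fun a b c => m.tri _ _ _⟩,
    fun u v h h' => HP.ext (congrArg Prod.fst h) (congrArg Prod.snd h) h',
    fun u => ⟨u.up 1, rfl, rfl, (g2 _ _).2 (Or.inr ⟨.inr (.inr ()), rfl, rfl, Or.inl rfl⟩)⟩,
    fun u v h1 h2 h3 => (g2 _ _).2 (Or.inr ⟨.inr (.inl (u.a⁻¹ * v.a)), h1.symm, h2, h3,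
      (mul_inv_cancel_left _ _).symm⟩), fun u v h => ?_⟩
  rcases (g2 u v).1 h with rfl | ⟨l, hl⟩
  · exact Or.inl ⟨rfl, by omega, by omega⟩
  · rcases l with ρ | a | w
    · exact hl.elim
    · exact Or.inr ⟨hl.1.symm, hl.2.2.1⟩
    · obtain ⟨h1, h2, h3⟩ := hl
      exact Or.inl ⟨Prod.ext h1.symm h2.symm, by omega, by omega⟩

theorem lgH (κ : K) : LGraph P.src P.tgt P.rev (P.dH κ) P.πH P.dartH := by
  obtain ⟨g1, g2⟩ := P.dH_gr κ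
  refine ⟨g1, fun p e q h => ⟨Subtype.ext h.1, Subtype.ext h.2.2⟩,
    fun p e q h => ⟨h.2.2, h.2.1.inv, h.1⟩, fun p e q h => (g2 p q).2 (Or.inr ⟨_, h.2.1⟩),
    fun p q h => ?_⟩
  rcases (g2 p q).1 h.le with e | ⟨l, hl⟩
  · subst e
    have := g1.met.self p
    exact absurd (h.symm.trans this) (by omega)
  · exact ⟨⟨(.inr (p.ν, p.i), l, .inr (q.ν, q.i)), Or.inr ⟨κ, p, q, rfl, hl, rfl⟩⟩, rfl, hl, rfl⟩

variable {P}

theorem dartH.smul {κ : K} {u v : P.HP κ} {e : P.E} (h : P.dartH u e v) (b : P.Ac κ) :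
    P.dartH (b • u) e (b • v) := by
  refine ⟨h.1, ?_, h.2.2⟩
  obtain ⟨⟨x, l, y⟩, he⟩ := e
  have h2 : P.DH u l v := h.2.1
  show P.DH (b • u) l (b • v)
  rcases l with ρ | a | w
  · exact h2
  · refine ⟨h2.1, h2.2.1, h2.2.2.1, ?_⟩
    show (b : AA) * v.a = b * u.a * a
    rw [h2.2.2.2, mul_assoc]
  · refine ⟨?_, h2.2.1, h2.2.2⟩
    show (b : AA) * v.a = b * u.a
    rw [h2.1]

theorem πH_inj {κ κ' : K} {u : P.HP κ} {v : P.HP κ'} (h : P.πH u = P.πH v) :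
    u.ν = v.ν ∧ u.i = v.i := by
  have h1 : (Sum.inr (u.ν, u.i) : P.Q0) = .inr (v.ν, v.i) := congrArg Subtype.val h
  exact Prod.ext_iff.1 (Sum.inr.inj h1)

theorem πH_eq {κ : K} {u v : P.HP κ} (h : P.πH u = P.πH v) : ∃ b : P.Ac κ, b • u = v := by
  obtain ⟨h1, h2⟩ := πH_inj h
  refine ⟨⟨v.a * u.a⁻¹, (P.Ac κ).mul_mem v.mem ((P.Ac κ).inv_mem u.mem)⟩, HP.ext ?_ h1 h2⟩
  show v.a * u.a⁻¹ * u.a = v.a
  rw [inv_mul_cancel_right]

theorem πH_cls {κ κ' : K} {u : P.HP κ} {v : P.HP κ'} (h : P.πH u = P.πH v) : κ = κ' :=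
  Occ.un u.occ ((πH_inj h).1 ▸ v.occ)

theorem pi0_ap {p : P.W} (h : P.J.ap p.a) : P.pi0 p = .inr (P.nb p.a p.n, p.i) := by
  simp only [pi0, if_pos h]

theorem pi0_inr {p : P.W} {ν : Nm N0 T} {i : ℕ} (h : P.pi0 p = .inr (ν, i)) :
    P.J.ap p.a ∧ P.nb p.a p.n = ν ∧ p.i = i := by
  by_cases ha : P.J.ap p.a
  · rw [pi0_ap ha] at h
    exact ⟨ha, Prod.ext_iff.1 (Sum.inr.inj h)⟩
  · simp only [pi0, if_neg ha] at h
    exact absurd h (by simp)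

/-- What a dart that starts at a reduced name of class `κ` looks like (`df_mem`, `dnb_bar`,
`dnb_le`, `cls_nb`, `Occ.un`). -/
theorem vd_hor {κ : K} {ν : Nm N0 T} {i : ℕ} (ho : P.Occ κ ν) (e : P.E) (h : e.1.1 = .inr (ν, i))
    {a : AA} (hl : e.1.2.1 = .inr (.inl a)) : ∃ ν', e.1.2.2 = .inr (ν', i) ∧ 1 ≤ i ∧
      dnb P.per ν ν' ≤ 2 ^ i ∧ a ∈ P.J.Lb (P.F.o κ) ∧ P.Occ κ ν' := by
  rcases e.2 with ⟨p, q, h1, h2, h3⟩ | ⟨κ', u, v, h1, h2, h3⟩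
  · rw [hl] at h2
    obtain ⟨⟨a1, a2, a3, a4⟩, a5⟩ := h2
    obtain ⟨ha, rfl, rfl⟩ := pi0_inr (h1.trans h)
    have hp : P.J.Fl p.a p.n := Cu.fl ha
    have hq : P.J.Fl p.a q.n := a1 ▸ Cu.fl (a1 ▸ ha)
    obtain rfl : P.J.cls p.a = κ := Occ.un ⟨p.a, p.n, hp, rfl, rfl⟩ ho
    refine ⟨P.nb p.a q.n, ?_, a3, ?_, a5 ▸ P.F.df_mem _ _ _ hp hq, p.a, q.n, hq, rfl, rfl⟩
    · rw [← h3, pi0_ap (a1 ▸ ha), a1, a2]
    · exact ((dnb_bar _ _).le.trans (dnb_le _ _)).trans a4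
  · rw [hl] at h2
    obtain ⟨a1, a2, a3, a4⟩ := h2
    obtain ⟨rfl, rfl⟩ := Prod.ext_iff.1 (Sum.inr.inj (h1.trans h))
    obtain rfl : κ' = κ := Occ.un u.occ ho
    refine ⟨v.ν, by rw [← h3, a1], a2, a3, ?_, v.occ⟩
    have : a = u.a⁻¹ * v.a := by rw [a4, inv_mul_cancel_left]
    rw [this]
    exact (P.Ac κ').mul_mem ((P.Ac κ').inv_mem u.mem) v.mem

theorem vd_ver {ν : Nm N0 T} {i : ℕ} (e : P.E) (h : e.1.1 = .inr (ν, i)) {u : Unit}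
    (hl : e.1.2.1 = .inr (.inr u)) : ∃ j, e.1.2.2 = .inr (ν, j) ∧ (j = i + 1 ∨ i = j + 1) := by
  rcases e.2 with ⟨p, q, h1, h2, h3⟩ | ⟨κ', w, v, h1, h2, h3⟩
  · rw [hl] at h2
    obtain ⟨a1, a2, a3⟩ := h2
    obtain ⟨ha, rfl, rfl⟩ := pi0_inr (h1.trans h)
    exact ⟨q.i, by rw [← h3, pi0_ap (a1 ▸ ha), a1, a2], a3⟩
  · rw [hl] at h2
    obtain ⟨a1, a2, a3⟩ := h2
    obtain ⟨rfl, rfl⟩ := Prod.ext_iff.1 (Sum.inr.inj (h1.trans h))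
    exact ⟨v.i, by rw [← h3, a2], a3⟩

theorem vd_crs {ν : Nm N0 T} {i : ℕ} (e : P.E) (h : e.1.1 = .inr (ν, i))
    {ρ : P.J.Z → P.J.Z → Prop} (hl : e.1.2.1 = .inl ρ) : i = 0 := by
  rcases e.2 with ⟨p, q, h1, h2, h3⟩ | ⟨κ', w, v, h1, h2, h3⟩
  · rw [hl] at h2
    obtain ⟨-, -, rfl⟩ := pi0_inr (h1.trans h)
    exact h2.1.1
  · rw [hl] at h2
    exact h2.elim

theorem outH {κ : K} (u : P.HP κ) (e : P.E) (hu : 1 ≤ u.i) (he : P.src e = P.πH u) :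
    ∃! v, P.dartH u e v := by
  have h : e.1.1 = .inr (u.ν, u.i) := congrArg Subtype.val he
  refine existsUnique_of_exists_of_unique ?_ ?_
  · rcases hl : e.1.2.1 with ρ | a | w
    · have := vd_crs e h hl
      omega
    · obtain ⟨ν', a1, a2, a3, a4, a5⟩ := vd_hor u.occ e h hl
      refine ⟨⟨u.a * a, ν', u.i, (P.Ac κ).mul_mem u.mem a4, a5⟩, h.symm, ?_, a1.symm⟩
      rw [hl]
      exact ⟨rfl, a2, a3, rfl⟩
    · obtain ⟨j, a1, a2⟩ := vd_ver e h hl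
      refine ⟨⟨u.a, u.ν, j, u.mem, u.occ⟩, h.symm, ?_, a1.symm⟩
      rw [hl]
      exact ⟨rfl, rfl, a2⟩
  · rintro v v' ⟨-, a1, a2⟩ ⟨-, b1, b2⟩
    obtain ⟨c1, c2⟩ := Prod.ext_iff.1 (Sum.inr.inj (a2.trans b2.symm))
    refine HP.ext ?_ c1 c2
    rcases hl : e.1.2.1 with ρ | a | w
    · rw [hl] at a1
      exact a1.elim
    · rw [hl] at a1 b1
      exact a1.2.2.2.trans b1.2.2.2.symm
    · rw [hl] at a1 b1
      exact a1.1.trans b1.1.symm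

theorem compatHH {κ κ' : K} (u : P.HP κ) (v : P.HP κ') (L : List P.E) (h : P.πH u = P.πH v)
    (hL : LW P.dartH u L u) : LW P.dartH v L v := by
  obtain rfl := πH_cls h
  obtain ⟨b, rfl⟩ := πH_eq h
  exact hL.map' (b • ·) fun _ _ _ h => h.smul b

end Fi

end Pool.Agent.Lib.MP_429c3d_al.Ng
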