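import Pool.Agent.Lib.MP_429c3d_al.NgFiL

set_option autoImplicit false

/-! Positions move slowly; good and deep points. -/

namespace Pool.Agent.Lib.MP_429c3d_al.Ng

open Hyp

theorem dz_le_add {T : Type} (a b : Option T × ℤ) : dz a b ≤ a.2.natAbs + b.2.natAbs := by
  unfold dz
  split_ifs
  · omega
  · exact le_rfl

namespace Fi

variable {AA N0 K T : Type} [CommGroup AA] (P : Fi AA N0 K T)

variable {P} {R ρ : ℕ}

theorem pos_ap {p : P.W} (h : P.J.ap p.a) :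
    P.pos p = ((P.J.nm p.a p.n).arm, (P.J.nm p.a p.n).ht) := if_pos h

theorem pos_nap {p : P.W} (h : ¬ P.J.ap p.a) : P.pos p = (none, 0) := if_neg h

/-- The name of a flag has a valid height or a height of size at most one. -/
theorem val_or_small {α n : P.J.Z} (hf : P.J.Fl α n) :
    (∃ τ b h, P.J.nm α n = .inr (τ, b, h) ∧ Val (2 * P.M) h) ∨ (P.J.nm α n).ht.natAbs ≤ 1 := by
  rcases e : P.J.nm α n with a | ⟨τ, b, h⟩
  · exact Or.inr (Nat.zero_le _)
  · rcases P.F.nm_rng α n τ b h hf e with hv | rfl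
    · exact Or.inl ⟨τ, b, h, rfl, hv⟩
    · exact Or.inr le_rfl

theorem crs_cases {p q : P.W} (h : Cu.Crs p q) : P.pos p = P.pos q ∨ (P.pos p).2.natAbs ≤ 1 := by
  by_cases hp : P.J.ap p.a
  · rcases val_or_small (Cu.fl hp) with ⟨τ, b, t, e, hv⟩ | hs
    · obtain ⟨h1, h2⟩ := opp (Cu.fl hp) e hv
      have e1 := h.2.2.2.1 hp
      rw [e1] at h1 h2
      left
      rw [pos_ap hp, pos_ap h1, e, h.2.2.2.2 h1, h2]
      rfl
    · right
      rw [pos_ap hp]
      exact hs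
  · right
    rw [pos_nap hp]
    exact Nat.zero_le _

/-- Proof: for `Crs` edges use `opp` if one of the heights is valid; otherwise both heights are
`0` or `-1` (`nm_rng`). -/
theorem pos_step (hR : 1 ≤ R) {p q : P.W} (h : P.dJ p q ≤ 1) (hp : p.i ≤ R) :
    dz (P.pos p) (P.pos q) ≤ 2 ^ R := by
  have key : P.pos p = P.pos q → dz (P.pos p) (P.pos q) ≤ 2 ^ R := fun e => by
    rw [e, dz_met.self]
    exact Nat.zero_le _
  rcases ((Cu.dW_gr dnm_met).2 p q).1 h with rfl | hv | hh | hc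
  · exact key rfl
  · refine key ?_
    unfold pos
    rw [hv.1, hv.2.1]
  · have ha := Cu.ap_of_i hh.2.2.1
    rw [pos_ap ha, pos_ap (p := q) (hh.1 ▸ ha), hh.1, ← dnm_eq]
    exact hh.2.2.2.trans (Nat.pow_le_pow_right (by omega) hp)
  · rcases crs_cases hc with e | h1
    · exact key e
    · rcases crs_cases hc.symm with e | h2
      · exact key e.symm
      · have h3 := dz_le_add (P.pos p) (P.pos q)
        have h4 : 2 ^ 1 ≤ 2 ^ R := Nat.pow_le_pow_right (by omega) hR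
        omega

theorem pos_lip (hR : 1 ≤ R) {p q : P.W} (hp : p.i + P.dJ p q ≤ R) :
    dz (P.pos p) (P.pos q) ≤ P.dJ p q * 2 ^ R := by
  have G : IsGr P.dJ := (Cu.dW_gr dnm_met).1
  refine G.induct p (P := fun n u => p.i + n ≤ R → dz (P.pos p) (P.pos u) ≤ n * 2 ^ R)
    (fun _ => by rw [dz_met.self]; exact Nat.zero_le _) (fun n u v h1 _ h3 ih hn => ?_) q hp
  have h4 : u.i ≤ p.i + P.dJ u p := Cu.i_le dnm_met u p
  rw [G.met.symm, h1] at h4
  have h5 := pos_step hR h3.le (show u.i ≤ R by omega)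
  have h6 := dz_met.tri (P.pos p) (P.pos u) (P.pos v)
  have h7 := ih (by omega)
  rw [Nat.add_mul, one_mul]
  omega

theorem deep.mono (hR : 1 ≤ R) {s : ℕ} {p q : P.W} (h : P.deep R (ρ + s) p) (hq : P.dJ p q ≤ s) :
    P.deep R ρ q := by
  have G : IsGr P.dJ := (Cu.dW_gr dnm_met).1
  obtain ⟨h1, h2⟩ := h
  have h3 : q.i ≤ p.i + P.dJ q p := Cu.i_le dnm_met q p
  rw [G.met.symm] at h3
  have h4 := pos_lip hR (p := p) (q := q) (by omega)
  have h5 := dz_ht (P.pos q) (P.pos p)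
  rw [dz_met.symm] at h5
  have h6 : P.dJ p q * 2 ^ R ≤ s * 2 ^ R := Nat.mul_le_mul_right _ hq
  have h7 : (ρ + s + 1) * 2 ^ R = (ρ + 1) * 2 ^ R + s * 2 ^ R := by ring
  exact ⟨by omega, by omega⟩

theorem deep.good (hR : 1 ≤ R) {p q : P.W} (h : P.deep R ρ p) (hq : P.dJ p q ≤ ρ) :
    P.good R q := by
  have h1 : P.deep R 0 q := deep.mono hR (by rwa [Nat.zero_add]) hq
  obtain ⟨h2, h3⟩ := h1
  rw [Nat.zero_add, one_mul] at h3
  exact ⟨h2, h3⟩

theorem deep_pt (hM : (ρ + 1) * 2 ^ R + 2 ≤ 2 * P.M) (hρ : ρ ≤ R) {x : P.J.Z} (hx : ¬ P.J.ap x) :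
    P.deep R ρ (Cu.pt P.ok x) := by
  refine ⟨by rw [Cu.pt_i]; omega, ?_⟩
  rw [pos_nap (by rwa [Cu.pt_a])]
  simpa using hM

/-- Replacing the flag by the standard flag of a congruent height. -/
theorem exists_shift {p : P.W} (hp : P.J.ap p.a) {τ : T} {b : Bool} {h h' : ℤ}
    (e : P.J.nm p.a p.n = .inr (τ, b, h)) (hv : Val (2 * P.M) h') (hd : (P.per τ : ℤ) ∣ h' - h) :
    ∃ w : P.W, P.pi0 w = P.pi0 p ∧ w.i = p.i ∧ (P.pos w).2 = h' := by
  obtain ⟨h1, h2⟩ := fl_st hv 1 b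
  refine ⟨⟨P.sa τ 1 b h', P.sn τ 1 b h', p.i, Or.inl h1⟩, ?_, rfl, ?_⟩
  · simp only [pi0, if_pos h1.1, if_pos hp, nb, h2, e, barN_congr hd]
  · rw [pos_ap h1.1, h2]
    rfl

/-- Proof: if the height `h` of the name is larger than `3 M / 2 + 1` in absolute value, use the
standard flag of height `h - per` or `h + per` (`fl_st`, `barN_congr`). -/
theorem exists_deep (hM : 2 * ((ρ + 1) * 2 ^ R + 4) ≤ P.M) (p : P.W) (hp : p.i + ρ ≤ R) :
    ∃ w, P.pi0 w = P.pi0 p ∧ P.deep R ρ w := by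
  by_cases hd : (P.pos p).2.natAbs + (ρ + 1) * 2 ^ R + 2 ≤ 2 * P.M
  · exact ⟨p, rfl, hp, hd⟩
  have ha : P.J.ap p.a := by
    by_contra ha
    rw [pos_nap ha] at hd
    exact hd (by simp only [Int.natAbs_zero]; omega)
  rw [pos_ap ha] at hd
  rcases val_or_small (Cu.fl ha) with ⟨τ, b, h, e, hv⟩ | hs
  · have h1 := P.per_ge τ
    have h2 := P.per_le τ
    rw [e] at hd
    change ¬ (h.natAbs + (ρ + 1) * 2 ^ R + 2 ≤ 2 * P.M) at hd
    unfold Val at hv
    generalize hA : (ρ + 1) * 2 ^ R = A at hM hd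
    rcases hv with hv | hv
    · obtain ⟨w, e1, e2, e3⟩ := exists_shift (h' := h + P.per τ) ha e
        (Or.inr (by constructor <;> omega)) ⟨1, by ring⟩
      refine ⟨w, e1, by omega, ?_⟩
      rw [e3, hA]
      omega
    · obtain ⟨w, e1, e2, e3⟩ := exists_shift (h' := h - P.per τ) ha e
        (Or.inl (by constructor <;> omega)) ⟨-1, by ring⟩
      refine ⟨w, e1, by omega, ?_⟩
      rw [e3, hA]
      omega
  · exact absurd (by dsimp only; omega) hd

end Fi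

end Pool.Agent.Lib.MP_429c3d_al.Ng
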