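import Pool.Agent.Lib.MP_429c3d_al.NgAtA
import Pool.Agent.Lib.MP_429c3d_al.NgFiP

set_option autoImplicit false

/-! The cusped space is a covering at its good points. -/

namespace Pool.Agent.Lib.MP_429c3d_al.Ng

open Hyp

namespace Fi

variable {AA N0 K T : Type} [CommGroup AA] (P : Fi AA N0 K T)

variable {P} {R σ : ℕ}

theorem atb_pi_ap {p : P.W} (h : P.J.ap p.a) : P.pi0 p = .inr (P.nb p.a p.n, p.i) := by
  simp only [pi0, if_pos h]

theorem atb_ap_of_pi {p : P.W} {x : Nm N0 T × ℕ} (h : P.pi0 p = .inr x) : P.J.ap p.a := by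
  by_contra h'
  simp only [pi0, if_neg h'] at h
  exact absurd h Sum.inl_ne_inr

theorem atb_i_zero {p : P.W} (h : ¬ P.J.ap p.a) : p.i = 0 :=
  (p.ok.resolve_left fun e => h e.1).2.2

theorem atb_crs_un {w p q : P.W} (hp : Cu.Crs w p) (hq : Cu.Crs w q) (e : p.a = q.a) : p = q := by
  refine Cu.ext e ?_ (hp.2.1.trans hq.2.1.symm)
  by_cases h : P.J.ap p.a
  · rw [hp.2.2.2.2 h, hq.2.2.2.2 (e ▸ h)]
  · rw [(p.ok.resolve_left fun e => h e.1).2.1,
      (q.ok.resolve_left fun e' => h (e ▸ e'.1)).2.1, e]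

theorem atb_ap {w : P.W} {e : P.E} (he : e.1.1 = P.pi0 w) {l : AA ⊕ Unit}
    (hl : e.1.2.1 = .inr l) : P.J.ap w.a := by
  rcases e.2 with ⟨p, q, h1, h2, -⟩ | ⟨κ, u, v, h1, -⟩
  · have hp : P.J.ap p.a := by
      rw [hl] at h2
      rcases l with a | u
      · exact Cu.ap_of_i h2.1.2.2.1
      · rcases h2.2.2 with h | h
        · exact h2.1 ▸ Cu.ap_of_i (p := q) (by omega)
        · exact Cu.ap_of_i (by omega)
    exact atb_ap_of_pi (he.symm.trans (h1.symm.trans (atb_pi_ap hp)))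
  · exact atb_ap_of_pi (he.symm.trans h1.symm)

theorem atb_crs (w : P.W) (e : P.E) (he : e.1.1 = P.pi0 w) {ρ : P.J.Z → P.J.Z → Prop}
    (hl : e.1.2.1 = .inl ρ) : ∃! w', P.dartJ w e w' := by
  refine existsUnique_of_exists_of_unique ?_ ?_
  · rcases e.2 with ⟨p, q, h1, h2, h3⟩ | ⟨κ, u, v, -, h2, -⟩
    · rcases pi0_cases (h1.trans he) with ⟨g, rfl⟩ | ⟨hp, hw, hi, τ, b, h, h', n1, n2, v1, v2, hh⟩
      · exact ⟨g • q, dartJ.smul ⟨h1, h2, h3⟩ g⟩
      · rw [hl] at h2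
        obtain ⟨hc, hρ⟩ := h2
        have e1 : p.n = q.a := hc.2.2.2.1 hp
        obtain ⟨a1, m1⟩ := opp (Cu.fl hp) n1 v1
        obtain ⟨a2, m2⟩ := opp (Cu.fl hw) n2 v2
        have e2 : q.n = p.a := hc.2.2.2.2 (e1 ▸ a1)
        have f2 : P.J.Fl w.n w.a := ⟨a2, by rw [P.ok.gr.met.symm]; exact (Cu.fl hw).2⟩
        refine ⟨⟨w.n, w.a, 0, Or.inl f2⟩, he.symm, ?_, ?_⟩
        · rw [hl]
          refine ⟨⟨hi ▸ hc.1, rfl, (Cu.fl hw).2, fun _ => rfl, fun _ => rfl⟩, ?_⟩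
          rw [hρ]
          funext x y
          exact propext ⟨fun h => absurd ⟨hp, e1 ▸ a1⟩ h.1, fun h => absurd ⟨hw, a2⟩ h.1⟩
        · rw [← h3, atb_pi_ap (p := q) (e1 ▸ a1), atb_pi_ap (p := ⟨w.n, w.a, 0, Or.inl f2⟩) a2,
            hc.2.1, nb, nb, e2, ← e1, m1]
          change Sum.inr (barN P.per (P.J.nm w.n w.a), 0) = _
          rw [m2, barN_congr (j := h)]
          rcases hh with rfl | rfl
          · exact ⟨1, by ring⟩
          · exact ⟨-1, by ring⟩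
    · rw [hl] at h2
      exact h2.elim
  · rintro p q ⟨-, h2, -⟩ ⟨-, h4, -⟩
    rw [hl] at h2 h4
    refine atb_crs_un h2.1 h4.1 ?_
    by_cases hw : P.J.ap w.a
    · rw [← h2.1.2.2.2.1 hw, ← h4.1.2.2.2.1 hw]
    · have h5 : P.crl w.a p.a w.a p.a := ⟨fun h => hw h.1, 1, one_smul _ _, one_smul _ _⟩
      rw [← h2.2, h4.2] at h5
      obtain ⟨-, g, g1, g2⟩ := h5
      rw [← g2, P.ok.free g _ hw g1, one_smul]

theorem atb_ver (w : P.W) (e : P.E) (he : e.1.1 = P.pi0 w) {u : Unit}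
    (hl : e.1.2.1 = .inr (.inr u)) : ∃! w', P.dartJ w e w' := by
  have hw := atb_ap he hl
  obtain ⟨j, h1, h2⟩ := vd_ver e (he.trans (atb_pi_ap hw)) hl
  refine ⟨⟨w.a, w.n, j, Or.inl (Cu.fl hw)⟩, ⟨he.symm, ?_, ?_⟩, ?_⟩
  · rw [hl]
    exact ⟨rfl, rfl, h2⟩
  · rw [h1]
    exact atb_pi_ap hw
  · rintro p ⟨-, h3, h4⟩
    rw [hl] at h3
    rw [h1, atb_pi_ap (h3.1 ▸ hw)] at h4
    exact Cu.ext h3.1 h3.2.1 (congrArg Prod.snd (Sum.inr.inj h4))

theorem atb_occ {α n : P.J.Z} (hf : P.J.Fl α n) {b : Nm N0 T} (h : barN P.per b = P.nb α n)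
    (hb : b.ht.natAbs ≤ 2 * P.M) :
    ∃ α' n', P.J.Fl α' n' ∧ P.J.nm α' n' = b ∧ P.J.cls α' = P.J.cls α := by
  rcases barN_eq h with h1 | ⟨τ, β, i, j, rfl, h2, h3, h4⟩
  · exact ⟨α, n, hf, h1.symm, rfl⟩
  · have h5 := ht_le hf
    rw [h2] at h5
    have h6 := P.per_ge τ
    have h7 : (P.per τ : ℤ) ≤ |i - j| :=
      Int.le_of_dvd (abs_pos.2 (sub_ne_zero.2 h3)) ((dvd_abs _ _).2 h4)
    change j.natAbs ≤ _ at h5
    change i.natAbs ≤ _ at hb
    have hv : Val (2 * P.M) i := by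
      unfold Val
      rcases abs_cases (i - j) with h8 | h8 <;> omega
    obtain ⟨f1, f2⟩ := fl_st (τ := τ) hv 1 β
    exact ⟨_, _, f1, f2, cls_nb f1 hf (by rw [nb, f2, h])⟩

theorem atb_hor (hM : 2 * 2 ^ R + 4 ≤ P.M) (w : P.W) (e : P.E) (hg : P.good R w)
    (he : e.1.1 = P.pi0 w) {a : AA} (hl : e.1.2.1 = .inr (.inl a)) : ∃! w', P.dartJ w e w' := by
  have hw := atb_ap he hl
  have fw := Cu.fl hw
  obtain ⟨ν', h1, h2, h3, h4, α', n', f', c', rfl⟩ :=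
    vd_hor (κ := P.J.cls w.a) ⟨w.a, w.n, fw, rfl, rfl⟩ e (he.trans (atb_pi_ap hw)) hl
  have hi : 2 ^ w.i ≤ 2 ^ R := Nat.pow_le_pow_right (by norm_num) hg.1
  have hp : (P.J.nm w.a w.n).ht.natAbs + 2 ^ R + 2 ≤ 2 * P.M := by
    have := hg.2
    simpa only [pos, if_pos hw] using this
  rw [nb, nb, dnb_bar] at h3
  refine existsUnique_of_exists_of_unique ?_ ?_
  · obtain ⟨b', b1, b2⟩ := exists_lift (per := P.per) (P.J.nm w.a w.n) (P.J.nm α' n') fun τ => by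
      have := P.per_ge τ
      omega
    have b3 : b'.ht.natAbs ≤ (P.J.nm w.a w.n).ht.natAbs + dnm (P.J.nm w.a w.n) b' := by
      rw [dnm_met.symm, dnm_eq]
      exact dz_ht (b'.arm, b'.ht) ((P.J.nm w.a w.n).arm, (P.J.nm w.a w.n).ht)
    obtain ⟨α'', n'', f'', m'', c''⟩ := atb_occ f' b1 (by omega)
    obtain ⟨n, f, m, d⟩ := exists_nb fw (by omega) f'' (by rw [m'']; omega) (c''.trans c') h4
    refine ⟨⟨w.a, n, w.i, Or.inl f⟩, he.symm, ?_, ?_⟩
    · rw [hl]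
      refine ⟨⟨rfl, rfl, h2, ?_⟩, d.symm⟩
      change dnm _ (P.J.nm w.a n) ≤ _
      rw [m, m'']
      omega
    · rw [h1, atb_pi_ap (p := ⟨w.a, n, w.i, Or.inl f⟩) hw, nb, nb, ← b1, ← m'', ← m]
  · rintro p q ⟨-, h5, h6⟩ ⟨-, h7, h8⟩
    rw [hl] at h5 h7
    obtain ⟨⟨a1, i1, -, d1⟩, e1⟩ := h5
    obtain ⟨⟨a2, i2, -, d2⟩, e2⟩ := h7
    have fp : P.J.Fl w.a p.n := a1 ▸ Cu.fl (a1 ▸ hw)
    have fq : P.J.Fl w.a q.n := a2 ▸ Cu.fl (a2 ▸ hw)
    have h9 := h6.trans h8.symm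
    rw [atb_pi_ap (a1 ▸ hw), atb_pi_ap (a2 ▸ hw), a1, a2] at h9
    refine Cu.ext (a1.trans a2.symm) (nb_un fw fp fq ?_ (e1.symm.trans e2)) (i1.trans i2.symm)
    refine eq_of_barN (congrArg Prod.fst (Sum.inr.inj h9)) (s := 2 * 2 ^ R) (fun τ => ?_) ?_
    · have := P.per_ge τ
      omega
    · have := dnm_met.tri (P.J.nm w.a p.n) (P.J.nm w.a w.n) (P.J.nm w.a q.n)
      rw [dnm_met.symm (P.J.nm w.a p.n) (P.J.nm w.a w.n)] at this
      omega

theorem atb_step {κ : K} {z z' : P.W} {v v' : P.HP κ} {e : P.E} (h : P.dartJ z e z')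
    (h' : P.dartH v e v') : z'.a = z.a ∧ v'.a = v.a * P.J.df z.a z.n z'.n ∧
      dnm (P.J.nm z.a z.n) (P.J.nm z.a z'.n) ≤ 2 ^ z.i := by
  have hz : P.J.ap z.a := atb_ap_of_pi (h.1.trans h'.1.symm)
  have h1 := h.2.1
  have h2 := h'.2.1
  generalize e.1.2.1 = l at h1 h2
  rcases l with ρ | a | u
  · exact h2.elim
  · exact ⟨h1.1.1, h1.2 ▸ h2.2.2.2, h1.1.2.2.2⟩
  · refine ⟨h1.1, ?_, ?_⟩
    · rw [h1.2.1, P.ok.df_self (Cu.fl hz), mul_one, h2.1]
    · rw [h1.2.1, dnm_met.self]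
      exact Nat.zero_le _

theorem atb_df {κ : K} {w z z' : P.W} {u v v' : P.HP κ} {e : P.E} (h : P.dartJ z e z')
    (h' : P.dartH v e v') (ha : z.a = w.a) (hd : v.a = u.a * P.J.df w.a w.n z.n) :
    z'.a = w.a ∧ v'.a = u.a * P.J.df w.a w.n z'.n := by
  have hz : P.J.ap z.a := atb_ap_of_pi (h.1.trans h'.1.symm)
  obtain ⟨h1, h2, -⟩ := atb_step h h'
  have fz : P.J.Fl w.a z.n := ha ▸ Cu.fl hz
  have fz' : P.J.Fl w.a z'.n := (h1.trans ha) ▸ Cu.fl (h1 ▸ hz)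
  refine ⟨h1.trans ha, ?_⟩
  rw [h2, hd, ha, mul_assoc, P.ok.df_mul _ _ _ _ (Cu.fl (ha ▸ hz)) fz fz']

/-- Proof by cases on the label. Across: the dart comes from a pair `p, q` with `pi0 p = pi0 w`;
use `pi0_cases` (translate, or `opp` for shifted names); uniqueness from `Cu.ext`, and from
`ok.free` if `w.a` is not an apex. Vertical: `vd_ver`. Horizontal: `vd_hor`, `exists_lift`
(the lifted name occurs: it is the old one or has a valid height, `fl_st`, `cls_nb`), `exists_nb`;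
uniqueness from `eq_of_barN` and `nb_un`. -/
theorem outJ (hM : 2 * 2 ^ R + 4 ≤ P.M) (w : P.W) (e : P.E) (hw : P.good R w)
    (he : P.src e = P.πJ w) : ∃! w', P.dartJ w e w' := by
  have he' : e.1.1 = P.pi0 w := congrArg Subtype.val he
  rcases hl : e.1.2.1 with ρ | a | u
  · exact atb_crs w e he' hl
  · exact atb_hor hM w e hw he' hl
  · exact atb_ver w e he' hl

/-- Proof: lift the walk step by step with `outJ`; the lift stays at the apex `w.a`, and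
`df w.a w.n z.n = u.a⁻¹ * v.a` for the current points `z` and `v`; at the end use `eq_of_barN`
(the name moved by at most `σ * 2 ^ R`) and `nb_un`. -/
theorem compatHJ (hM : (σ + 2) * 2 ^ R + 4 ≤ P.M) {κ : K} (u : P.HP κ) (w : P.W) (L : List P.E)
    (h : P.πH u = P.πJ w) (hg : ∀ z, P.dJ w z ≤ σ → P.good R z) (hl : L.length ≤ σ)
    (hL : LW P.dartH u L u) : LW P.dartJ w L w := by
  have h0 : Sum.inr (u.ν, u.i) = P.pi0 w := congrArg Subtype.val h
  have hw : P.J.ap w.a := atb_ap_of_pi h0.symm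
  have hM' : 2 * 2 ^ R + 4 ≤ P.M := by
    rw [add_mul] at hM
    omega
  have key : ∀ (L : List P.E) (v : P.HP κ) (z : P.W) (t : ℕ), P.pi0 z = .inr (v.ν, v.i) →
      z.a = w.a → P.dJ w z ≤ t → dnm (P.J.nm w.a w.n) (P.J.nm w.a z.n) ≤ t * 2 ^ R →
      v.a = u.a * P.J.df w.a w.n z.n → t + L.length ≤ σ → LW P.dartH v L u →
      LW P.dartJ z L w := by
    intro L
    induction L with
    | nil =>
      intro v z t h1 h2 _ h4 h5 h6 h7
      obtain rfl : v = u := h7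
      have fz : P.J.Fl w.a z.n := h2 ▸ Cu.fl (h2 ▸ hw)
      have h8 := h1.trans h0
      rw [atb_pi_ap (h2 ▸ hw), atb_pi_ap hw, h2] at h8
      have h9 := Sum.inr.inj h8
      refine Cu.ext h2 (nb_un (Cu.fl hw) fz (Cu.fl hw) ?_ ?_) (congrArg Prod.snd h9)
      · refine eq_of_barN (congrArg Prod.fst h9) (s := σ * 2 ^ R) (fun τ => ?_) ?_
        · have := P.per_ge τ
          rw [add_mul] at hM
          omega
        · rw [dnm_met.symm]
          exact h4.trans (Nat.mul_le_mul_right _ (by omega))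
      · rw [P.ok.df_self (Cu.fl hw)]
        exact (mul_eq_left.1 h5.symm)
    | cons e L ih =>
      rintro v z t h1 h2 h3 h4 h5 h6 ⟨v', d1, d2⟩
      rw [List.length_cons] at h6
      have gz := hg z (by omega)
      obtain ⟨z', d3, -⟩ := outJ hM' z e gz (Subtype.ext (d1.1.symm.trans h1.symm))
      obtain ⟨s1, s2⟩ := atb_df d3 d1 h2 h5
      refine ⟨z', d3, ih v' z' (t + 1) (d3.2.2.trans d1.2.2.symm) s1 ?_ ?_ s2 (by omega) d2⟩
      · have := P.lgJ.gr.met.tri w z z'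
        have := P.lgJ.le _ _ _ d3
        omega
      · have h7 := (atb_step d3 d1).2.2
        have h8 : 2 ^ z.i ≤ 2 ^ R := Nat.pow_le_pow_right (by norm_num) gz.1
        have := dnm_met.tri (P.J.nm w.a w.n) (P.J.nm w.a z.n) (P.J.nm w.a z'.n)
        rw [h2] at h7
        rw [add_mul]
        omega
  refine key L u w 0 h0.symm rfl ?_ ?_ ?_ (by omega) hL
  · rw [P.lgJ.gr.met.self]
  · rw [dnm_met.self]
    exact Nat.zero_le _
  · rw [P.ok.df_self (Cu.fl hw), mul_one]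

/-- Proof: lift the walk step by step with `outH`; so no label is across, the walk in the cusped
space stays at one apex and `df w.a w.n z.n = u.a⁻¹ * v.a`. -/
theorem compatJH {κ : K} (w : P.W) (u : P.HP κ) (L : List P.E) (h : P.πJ w = P.πH u)
    (hg : ∀ z, P.dH κ u z ≤ σ → 1 ≤ z.i) (hl : L.length ≤ σ) (hL : LW P.dartJ w L w) :
    LW P.dartH u L u := by
  have h0 : P.pi0 w = Sum.inr (u.ν, u.i) := congrArg Subtype.val h
  have hw : P.J.ap w.a := atb_ap_of_pi h0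
  have key : ∀ (L : List P.E) (v : P.HP κ) (z : P.W) (t : ℕ), P.pi0 z = .inr (v.ν, v.i) →
      z.a = w.a → P.dH κ u v ≤ t → v.a = u.a * P.J.df w.a w.n z.n → t + L.length ≤ σ →
      LW P.dartJ z L w → LW P.dartH v L u := by
    intro L
    induction L with
    | nil =>
      intro v z t h1 _ _ h5 _ h7
      obtain rfl : z = w := h7
      have h9 := Sum.inr.inj (h1.symm.trans h0)
      rw [P.ok.df_self (Cu.fl hw), mul_one] at h5
      exact HP.ext h5 (congrArg Prod.fst h9) (congrArg Prod.snd h9)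
    | cons e L ih =>
      rintro v z t h1 h2 h3 h5 h6 ⟨z', d1, d2⟩
      rw [List.length_cons] at h6
      obtain ⟨v', d3, -⟩ := outH v e (hg v (by omega)) (Subtype.ext (d1.1.symm.trans h1))
      obtain ⟨s1, s2⟩ := atb_df d1 d3 h2 h5
      refine ⟨v', d3, ih v' z' (t + 1) (d1.2.2.trans d3.2.2.symm) s1 ?_ s2 (by omega) d2⟩
      have := (P.lgH κ).gr.met.tri u v v'
      have := (P.lgH κ).le _ _ _ d3
      omega
  refine key L u w 0 h0 rfl ?_ ?_ (by omega) hL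
  · rw [(P.lgH κ).gr.met.self]
  · rw [P.ok.df_self (Cu.fl hw), mul_one]

end Fi

end Pool.Agent.Lib.MP_429c3d_al.Ng
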