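import Pool.Agent.Lib.MP_429c3d_al.NgW2

set_option autoImplicit false
set_option linter.unusedSectionVars false

/-! Copies of the telescope in a hyperbolic space with long edges of the first level. -/

namespace Pool.Agent.Lib.MP_429c3d_al.Ng

open Hyp Sum

variable {ST : St (Multiplicative ℤ) (Nm Empty Unit) Unit} {n : ℕ}

/-- The edges of the first level. -/
def Tel.tr (T : Tel ST n) (x x' : ST.Z) : Prop :=
  ∃ g : ST.G, (x = g • T.o ∧ x' = g • T.p) ∨ (x' = g • T.o ∧ x = g • T.p)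

/-- A family of equivariant maps `ψ i` from the telescope to the space `V`. -/
structure Mod (T : Tel ST n) (G : Type) {V J : Type} [Group G] [MulAction G V] [MulAction G J]
    (dY : V → V → ℕ) (ψ : J → ST.Z → V) (ρ : J → ST.G →* G) (kY cY l0 l1 : ℕ) : Prop where
  ok : ST.OK
  gr : IsGr dY
  hyp : Hyp4 dY kY
  iso : Isom G dY
  ta : TAm G dY cY
  two : Free2 G V
  tf : TF G
  equi : ∀ i t x, ψ i (t • x) = ρ i t • ψ i x
  move : ∀ (γ : G) i, ∃ t : ST.G, ∀ x, ψ (γ • i) (t • x) = γ • ψ i x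
  y_ne : ∀ i, ρ i T.y ≠ 1
  ε_ne : ∀ i, ρ i T.ε ≠ 1
  lo : ∀ i, l0 ≤ dY (ψ i T.o) (ψ i T.p)
  hi : ∀ i, dY (ψ i T.o) (ψ i T.p) ≤ l1
  big : cY + 2 * kY + 3 ≤ l0

section defs

variable {V J : Type} (ψ : J → ST.Z → V)

/-- The vertices of the tree `i`. -/
def ZM (i : J) (v : V) : Prop := ∃ x, ψ i x = v

/-- The edges of the tree `i`. -/
def trM (T : Tel ST n) (i : J) (a b : V) : Prop := ∃ x x', T.tr x x' ∧ ψ i x = a ∧ ψ i x' = b

/-- The edges of the telescope `i`. -/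
def legM (i : J) (a b : V) : Prop := ∃ x x', ST.d x x' = 1 ∧ ψ i x = a ∧ ψ i x' = b

/-- The distance in the telescope `i`. -/
noncomputable def dTM (T : Tel ST n) (i : J) (a b : V) : ℕ :=
  haveI : Nonempty ST.Z := ⟨T.o⟩
  ST.d (Function.invFun (ψ i) a) (Function.invFun (ψ i) b)

/-- The union of the space with the telescopes. -/
noncomputable def dSM (dY : V → V → ℕ) : V → V → ℕ :=
  gd fun x y => dY x y ≤ 1 ∨ ∃ i, legM ψ i x y

/-- The edges of the cone-off. -/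
def adjB (dY : V → V → ℕ) (Z : J → V → Prop) : V ⊕ J → V ⊕ J → Prop
  | inl x, inl y => dY x y ≤ 1
  | inl x, inr i => Z i x
  | inr i, inl x => Z i x
  | inr _, inr _ => False

end defs

/-- Use `gd_isGr`; connectivity from `IsGr.induct` and `ne`. -/
theorem grB_of {V J : Type} {dY : V → V → ℕ} {Z : J → V → Prop} (gr : IsGr dY)
    (ne : ∀ i, ∃ a, Z i a) : IsGr (gd (adjB dY Z)) ∧
      (∀ x y, gd (adjB dY Z) (inl x) (inl y) ≤ 1 ↔ dY x y ≤ 1) ∧
      (∀ x i, gd (adjB dY Z) (inl x) (inr i) ≤ 1 ↔ Z i x) ∧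
      ∀ i j, gd (adjB dY Z) (inr i) (inr j) ≤ 1 → i = j := by
  have key : ∀ x y : V, Relation.ReflTransGen (adjB dY Z) (inl x) (inl y) :=
    fun x y => gr.induct x (P := fun _ y => Relation.ReflTransGen (adjB dY Z) (inl x) (inl y))
      .refl (fun _ _ _ _ _ h ih => ih.tail h.le) y
  obtain ⟨Γ, E⟩ := gd_isGr (adj := adjB dY Z) (by
    rintro (x | i) (y | j) h
    · exact (gr.met.symm y x).le.trans h
    · exact h
    · exact h
    · exact h) (by
    rintro (x | i) (y | j)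
    · exact key x y
    · obtain ⟨a, ha⟩ := ne j
      exact (key x a).tail ha
    · obtain ⟨a, ha⟩ := ne i
      exact .head (b := inl a) ha (key a y)
    · obtain ⟨a, ha⟩ := ne i
      obtain ⟨b, hb⟩ := ne j
      exact .head (b := inl a) ha ((key a b).tail hb))
  refine ⟨Γ, fun x y => (E _ _).trans ⟨?_, Or.inr⟩, fun x i => (E _ _).trans ⟨?_, Or.inr⟩,
    fun i j h => ?_⟩
  · rintro (e | e)
    · rw [inl_injective e, gr.met.self]
      omega
    · exact e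
  · rintro (e | e)
    · exact absurd e inl_ne_inr
    · exact e
  · rcases (E _ _).1 h with e | e
    · exact inr_injective e
    · exact e.elim

private theorem ngm_zpow {G : Type} [Group G] (tf : TF G) {e : G} (he : e ≠ 1) {j : ℤ}
    (hj : j ≠ 0) : e ^ j ≠ 1 := fun h => by
  refine he (tf e j.natAbs (by omega) ?_)
  rcases Int.natAbs_eq j with e1 | e1
  · rw [← zpow_natCast, ← e1, h]
  · rw [← zpow_natCast, ← neg_neg (j.natAbs : ℤ), ← e1, zpow_neg, h, inv_one]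

private theorem ngm_zfix {G V : Type} [Group G] [MulAction G V] {e : G} {p : V} (hp : e • p = p)
    (j : ℤ) : e ^ j • p = p :=
  (MulAction.stabilizer G p).zpow_mem (x := e) hp j

private theorem ngm_step {G V : Type} [Group G] [MulAction G V] {d : V → V → ℕ} {k c : ℕ}
    (m : IsMet d) (hyp : Hyp4 d k) (iso : Isom G d) (ta : TAm G d c) {o p x : V} {a : G}
    (ha : a ≠ 1) (ho : a • o = o) (hl : c + 2 * k + 3 ≤ d o p)
    (h : d p o + d p x ≤ d o x + (c + k) ∧ d p o ≤ d p x) :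
    d o p + d o (a • x) ≤ d p (a • x) + (c + k) ∧ d o p ≤ d o (a • x) := by
  have e1 := iso a p x
  have e2 := iso a o x
  have e3 := iso a p o
  rw [ho] at e2 e3
  have e4 := ta a o p ha ho
  have e5 := hyp p (a • p) o (a • x)
  have := m.symm o p
  omega

/-- Reduced words move `o`. Induction on the list with the invariant
`d p o + d p x ≤ d o x + (c + k)` and `d p o ≤ d p x` for `x = (wd e l * e ^ j) • o`. -/
theorem lf_of_tam {G V : Type} [Group G] [MulAction G V] {d : V → V → ℕ} {k c : ℕ} (m : IsMet d)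
    (hyp : Hyp4 d k) (iso : Isom G d) (ta : TAm G d c) (tf : TF G) {o p : V} {e : G} (he : e ≠ 1)
    (hp : e • p = p) (hl : c + 2 * k + 3 ≤ d o p) (N : ℕ) : LF o e N := by
  have s := m.symm o p
  have key : ∀ (l : List (ℤ × G)) (j : ℤ), j ≠ 0 → Red o l →
      d p o + d p ((wd e l * e ^ j) • o) ≤ d o ((wd e l * e ^ j) • o) + (c + k) ∧
        d p o ≤ d p ((wd e l * e ^ j) • o) := by
    intro l j hj
    induction l with
    | nil =>
      intro _
      rw [wd_nil, one_mul]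
      have e1 := ta (e ^ j) p o (ngm_zpow tf he hj) (ngm_zfix hp j)
      have e2 := iso (e ^ j) p o
      rw [ngm_zfix hp j] at e2
      omega
    | cons q l ih =>
      intro hr
      obtain ⟨⟨h1, h2, h3⟩, h4⟩ := red_cons.1 hr
      rw [wd_cons, mul_assoc, mul_assoc, mul_smul, mul_smul]
      exact ngm_step m hyp iso ta (ngm_zpow tf he h1) (ngm_zfix hp q.1) (by omega)
        (ngm_step m hyp iso ta h2 h3 hl (ih h4))
  intro l j _ hj hr h
  have := key l j hj hr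
  rw [h, m.self] at this
  omega

private theorem ngm_tr_smul (T : Tel ST n) (g : ST.G) {x x' : ST.Z} (h : T.tr x x') :
    T.tr (g • x) (g • x') := by
  obtain ⟨s, ⟨rfl, rfl⟩ | ⟨rfl, rfl⟩⟩ := h
  · exact ⟨g * s, Or.inl ⟨(mul_smul _ _ _).symm, (mul_smul _ _ _).symm⟩⟩
  · exact ⟨g * s, Or.inr ⟨(mul_smul _ _ _).symm, (mul_smul _ _ _).symm⟩⟩

private theorem ngm_tr_symm (T : Tel ST n) (x x' : ST.Z) (h : T.tr x x') : T.tr x' x :=
  h.imp fun _ h => h.symm

private theorem ngm_conn (T : Tel ST n) (x x' : ST.Z) : Relation.ReflTransGen T.tr x x' := by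
  have sm : ∀ (g : ST.G) {a b : ST.Z}, Relation.ReflTransGen T.tr a b →
      Relation.ReflTransGen T.tr (g • a) (g • b) := fun g _ _ h => by
    induction h with
    | refl => exact .refl
    | tail _ h ih => exact ih.tail (ngm_tr_smul T g h)
  have sy : ∀ {a b : ST.Z}, Relation.ReflTransGen T.tr a b → Relation.ReflTransGen T.tr b a :=
    fun h => by
      induction h with
      | refl => exact .refl
      | tail _ h ih => exact .head (ngm_tr_symm T _ _ h) ih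
  have k1 : ∀ g : ST.G, Relation.ReflTransGen T.tr T.o (g • T.o) := by
    intro g
    have hg : g ∈ Subgroup.closure {T.y, T.ε} := T.gen ▸ Subgroup.mem_top g
    induction hg using Subgroup.closure_induction with
    | mem g hg =>
      rcases hg with rfl | rfl
      · rw [(T.stab_o T.y).2 ⟨1, (zpow_one _).symm⟩]
      · refine .head (b := T.p) ⟨1, Or.inl ⟨(one_smul _ _).symm, (one_smul _ _).symm⟩⟩
          (.single ⟨T.ε, Or.inr ⟨rfl, ((T.stab_p T.ε).2 ⟨1, (zpow_one _).symm⟩).symm⟩⟩)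
    | one => rw [one_smul]
    | mul g g' _ _ h h' =>
      rw [mul_smul]
      exact h.trans (sm g h')
    | inv g _ h =>
      have := sm g⁻¹ h
      rw [inv_smul_smul] at this
      exact sy this
  have k2 : ∀ x, Relation.ReflTransGen T.tr T.o x := fun x => by
    obtain ⟨g, rfl | rfl⟩ := T.orb x
    · exact k1 g
    · exact (k1 g).tail ⟨g, Or.inl ⟨rfl, rfl⟩⟩
  exact (sy (k2 x)).trans (k2 x')

namespace Mod

variable {T : Tel ST n} {G V J : Type} [Group G] [MulAction G V] [MulAction G J]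
  {dY : V → V → ℕ} {ψ : J → ST.Z → V} {ρ : J → ST.G →* G} {kY cY l0 l1 : ℕ}
  (M : Mod T G dY ψ ρ kY cY l0 l1)
include M

private theorem tr_eq (i : J) {x x' : ST.Z} (h : T.tr x x') :
    dY (ψ i x) (ψ i x') = dY (ψ i T.o) (ψ i T.p) := by
  obtain ⟨g, ⟨rfl, rfl⟩ | ⟨rfl, rfl⟩⟩ := h
  · rw [M.equi, M.equi, M.iso]
  · rw [M.equi, M.equi, M.iso, M.gr.met.symm]

private theorem tr_lo (i : J) {x x' : ST.Z} (h : T.tr x x') : l0 ≤ dY (ψ i x) (ψ i x') := by
  rw [M.tr_eq i h]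
  exact M.lo i

private theorem turn (i : J) {a b : ST.Z} {e g g' : ST.G} (he : ρ i e ≠ 1)
    (hb : ∀ s : ST.G, s • b = b ↔ ∃ j : ℤ, s = e ^ j) (h : g • b = g' • b) (hne : g • a ≠ g' • a) :
    dY (ψ i (g • b)) (ψ i (g • a)) + dY (ψ i (g • b)) (ψ i (g' • a)) ≤
      dY (ψ i (g • a)) (ψ i (g' • a)) + cY := by
  obtain ⟨j, hj⟩ := (hb (g⁻¹ * g')).1 (by rw [mul_smul, ← h, inv_smul_smul])
  obtain rfl : g' = g * e ^ j := by rw [← hj, mul_inv_cancel_left]
  have h0 : j ≠ 0 := fun e0 => hne (by rw [e0, zpow_zero, mul_one])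
  have h1 : ρ i (e ^ j) • ψ i b = ψ i b := by rw [← M.equi, (hb _).2 ⟨j, rfl⟩]
  have h2 := M.ta (ρ i (e ^ j)) (ψ i b) (ψ i a) (by
    rw [map_zpow]
    exact ngm_zpow M.tf he h0) h1
  have h3 := M.iso (ρ i (e ^ j)) (ψ i b) (ψ i a)
  have h4 := M.gr.met.symm (ψ i a) (ψ i b)
  rw [h1] at h3
  simp only [mul_smul, M.equi, M.iso (ρ i g)]
  omega

private theorem corner (i : J) {u v w : ST.Z} (h : T.tr u v) (h' : T.tr v w) (hne : u ≠ w) :
    dY (ψ i v) (ψ i u) + dY (ψ i v) (ψ i w) ≤ dY (ψ i u) (ψ i w) + cY := by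
  obtain ⟨g, ⟨rfl, rfl⟩ | ⟨rfl, rfl⟩⟩ := h <;> obtain ⟨g', ⟨e, rfl⟩ | ⟨rfl, e⟩⟩ := h'
  · exact absurd (by rw [mul_smul, ← e, inv_smul_smul]) (T.ne (g⁻¹ * g'))
  · exact M.turn i (M.ε_ne i) T.stab_p e hne
  · exact M.turn i (M.y_ne i) T.stab_o e hne
  · exact absurd (by rw [mul_smul, e, inv_smul_smul]) (T.ne (g'⁻¹ * g))

/-- Take a shortest walk for `T.tr` (connected by `T.gen`, `T.orb`). It has no stall and no
backtracking, so at an inner vertex `v` the two neighbours differ by a non trivial power of a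
conjugate of `y` or `ε` (`stab_o`, `stab_p`, `ne`), whose image is non trivial (`tf`); the corner
condition is `ta`. -/
theorem path (i : J) (x x' : ST.Z) : ∃ (N : ℕ) (γ : ℕ → ST.Z), γ 0 = x ∧ γ N = x' ∧
    (∀ t, t < N → T.tr (γ t) (γ (t + 1))) ∧ Broken dY (fun t => ψ i (γ t)) N cY l0 := by
  obtain ⟨Γ, E⟩ := gd_isGr (ngm_tr_symm T) (ngm_conn T)
  obtain ⟨γ, g0, g1, g2⟩ := Γ.exists_geo x x'
  have tr : ∀ t, t < gd T.tr x x' → T.tr (γ t) (γ (t + 1)) := fun t ht => by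
    have h1 := g2 t (t + 1) (Nat.zero_le _) (by omega) (by omega)
    rcases (E (γ t) (γ (t + 1))).1 (by omega) with e | e
    · rw [← e, Γ.met.self] at h1
      omega
    · exact e
  refine ⟨_, γ, g0, g1, tr, fun t ht => M.tr_lo i (tr t ht), fun t ht => ?_⟩
  refine M.corner i (tr t (by omega)) (tr (t + 1) (by omega)) fun e => ?_
  have h1 := g2 t (t + 2) (Nat.zero_le _) (by omega) ht
  rw [← e, Γ.met.self] at h1
  omega

theorem tr_hi (i : J) {x x' : ST.Z} (h : T.tr x x') : dY (ψ i x) (ψ i x') ≤ l1 := by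
  rw [M.tr_eq i h]
  exact M.hi i

/-- `Broken.dist`. -/
theorem far (i : J) {x x' : ST.Z} (h : x ≠ x') : l0 ≤ dY (ψ i x) (ψ i x') + cY + kY := by
  obtain ⟨N, γ, rfl, rfl, -, B⟩ := M.path i x x'
  have big := M.big
  have h1 := B.dist M.gr.met M.hyp (by omega) 0 N (by omega)
  obtain ⟨r, rfl⟩ : ∃ r, l0 = r + (cY + kY) := ⟨l0 - (cY + kY), by omega⟩
  obtain ⟨N, rfl⟩ : ∃ N', N = N' + 1 := ⟨N - 1, by
    have : N ≠ 0 := fun e => h (by rw [e])
    omega⟩
  simp only [Nat.zero_add, Nat.mul_add, Nat.add_mul, Nat.one_mul] at h1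
  omega

theorem inj (i : J) : Function.Injective (ψ i) := fun x x' e => by
  by_contra h
  have h1 := M.far i h
  have big := M.big
  rw [e, M.gr.met.self] at h1
  omega

theorem ρ_inj (i : J) : Function.Injective (ρ i) := by
  refine (injective_iff_map_eq_one _).2 fun t ht => ?_
  have h1 : ∀ x : ST.Z, t • x = x := fun x => M.inj i (by rw [M.equi, ht, one_smul])
  exact M.ok.two t T.o T.p (h1 _) (h1 _) fun e => T.ne 1 (by rw [one_smul, e])

/-- `move` and `two`. -/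
theorem stab {γ : G} {i : J} (h : γ • i = i) : ∃ t, ρ i t = γ := by
  obtain ⟨t, ht⟩ := M.move γ i
  rw [h] at ht
  have h1 : ∀ x, (γ⁻¹ * ρ i t) • ψ i x = ψ i x := fun x => by
    rw [mul_smul, ← M.equi, ht, inv_smul_smul]
  refine ⟨t, (inv_mul_eq_one.1 (M.two _ _ _ (h1 T.o) (h1 T.p) fun e => ?_)).symm⟩
  exact T.ne 1 (by rw [one_smul, M.inj i e])

theorem dTM_eq (i : J) (x x' : ST.Z) : dTM ψ T i (ψ i x) (ψ i x') = ST.d x x' := by
  have : Nonempty ST.Z := ⟨T.o⟩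
  unfold dTM
  rw [Function.leftInverse_invFun (M.inj i) x, Function.leftInverse_invFun (M.inj i) x']

/-- `Broken.prod`, `Broken.dist`: take the last vertex of the path before `w`. -/
theorem qc (i : J) (a b w : V) (ha : ZM ψ i a) (hb : ZM ψ i b) (hw : dY a w + dY w b = dY a b) :
    ∃ v, ZM ψ i v ∧ dY w v ≤ l1 + cY + 4 * kY + 2 := by
  obtain ⟨x, rfl⟩ := ha
  obtain ⟨x', rfl⟩ := hb
  obtain ⟨N, γ, rfl, rfl, tr, B⟩ := M.path i x x'
  have m := M.gr.met
  have big := M.big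
  by_cases hc : dY (ψ i (γ 0)) w < dY (ψ i (γ 0)) (ψ i (γ N))
  · obtain ⟨t, ht, h1, h2⟩ := exists_interval (e := fun t => dY (ψ i (γ 0)) (ψ i (γ t)))
      (by simp only [m.self]; omega) hc
    have h3 := B.prod m M.hyp (by omega) (Nat.zero_le t) ht.le le_rfl
    have h4 := M.tr_hi i (tr t ht)
    have h5 := m.tri (ψ i (γ 0)) (ψ i (γ t)) (ψ i (γ (t + 1)))
    have h6 := M.hyp w (ψ i (γ t)) (ψ i (γ 0)) (ψ i (γ N))
    have := m.symm w (ψ i (γ 0))
    have := m.symm (ψ i (γ t)) (ψ i (γ 0))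
    exact ⟨_, ⟨γ t, rfl⟩, by omega⟩
  · exact ⟨_, ⟨γ N, rfl⟩, by omega⟩

theorem tw {α D kB kT : ℕ} (q : QFam dY (ZM ψ) kY α D) (hT : Hyp4 ST.d kT)
    (hB : Hyp4 (gd (adjB dY (ZM ψ))) kB) :
    TW dY (ZM ψ) (trM ψ T) (legM ψ) (dTM ψ T) (dSM ψ dY) (gd (adjB dY (ZM ψ))) kY α D kB kT :=
  have m := M.gr.met
  have S := gd_isGr (adj := fun x y => dY x y ≤ 1 ∨ ∃ i, legM ψ i x y) (by
    rintro x y (h | ⟨i, a, b, h, rfl, rfl⟩)
    · exact Or.inl ((m.symm y x).le.trans h)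
    · exact Or.inr ⟨i, b, a, (M.ok.gr.met.symm b a).trans h, rfl, rfl⟩) fun x y =>
    M.gr.induct x (P := fun _ y => Relation.ReflTransGen
      (fun x y => dY x y ≤ 1 ∨ ∃ i, legM ψ i x y) x y) .refl
      (fun _ _ _ _ _ h ih => ih.tail (Or.inl h.le)) y
  have B := grB_of q.gr q.ne
  { q := q
    tree := by
      rintro i _ _ ⟨x, rfl⟩ ⟨x', rfl⟩
      obtain ⟨N, γ, rfl, rfl, tr, B⟩ := M.path i x x'
      have big := M.big
      have h1 := B.dist m M.hyp (by omega) 0 N (by omega)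
      obtain ⟨r, rfl⟩ : ∃ r, l0 = r + 1 + (cY + kY) := ⟨l0 - (cY + kY) - 1, by omega⟩
      simp only [Nat.zero_add, Nat.mul_add, Nat.mul_one] at h1
      have h2 : GW (trM ψ T i) N (ψ i (γ 0)) (ψ i (γ N)) :=
        ⟨fun t => ψ i (γ t), rfl, rfl, fun t ht => Or.inr ⟨_, _, tr t ht, rfl, rfl⟩⟩
      have h3 := h2.trans (m := dY (ψ i (γ 0)) (ψ i (γ N)) + 1 - N) (z := ψ i (γ N))
        ⟨fun _ => _, rfl, rfl, fun _ _ => Or.inl rfl⟩
      rwa [show N + (dY (ψ i (γ 0)) (ψ i (γ N)) + 1 - N) = dY (ψ i (γ 0)) (ψ i (γ N)) + 1 by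
        omega] at h3
    tr_leg := by
      have h0 : ST.d T.o T.p = 1 := T.P_zero ▸ T.adj 0 (Nat.zero_le _)
      rintro i _ _ ⟨x, x', ⟨g, ⟨rfl, rfl⟩ | ⟨rfl, rfl⟩⟩, rfl, rfl⟩
      · exact ⟨_, _, (M.ok.iso g _ _).trans h0, rfl, rfl⟩
      · exact ⟨_, _, (M.ok.gr.met.symm _ _).trans ((M.ok.iso g _ _).trans h0), rfl, rfl⟩
    leg_Z := by
      rintro i _ _ ⟨x, x', -, rfl, rfl⟩
      exact ⟨⟨x, rfl⟩, x', rfl⟩
    grT := fun i => by
      have : Nonempty ST.Z := ⟨T.o⟩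
      refine M.ok.gr.comap (fun a : {v // ZM ψ i v} => Function.invFun (ψ i) a.1)
        ⟨fun a b e => Subtype.ext ?_, fun x => ⟨⟨ψ i x, x, rfl⟩,
          Function.leftInverse_invFun (M.inj i) x⟩⟩
      rw [← Function.invFun_eq a.2, ← Function.invFun_eq b.2]
      exact congrArg (ψ i) e
    hypT := fun i _ _ _ _ => hT _ _ _ _
    legT := by
      rintro i _ _ ⟨x, rfl⟩ ⟨x', rfl⟩
      rw [M.dTM_eq]
      refine ⟨fun h => ?_, ?_⟩
      · by_cases e : ST.d x x' = 0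
        · exact Or.inl (congrArg _ (M.ok.gr.sep _ _ e))
        · exact Or.inr ⟨x, x', by omega, rfl, rfl⟩
      · rintro (e | ⟨a, b, h, e, e'⟩)
        · rw [M.inj i e, M.ok.gr.met.self]
          omega
        · rw [← M.inj i e, ← M.inj i e', h]
    grS := S.1
    edgeS := fun x y => (S.2 x y).trans ⟨fun h => h.elim (fun e => Or.inl (by
      rw [e, m.self]
      omega)) id, Or.inr⟩
    grB := B.1
    hypB := hB
    B_ll := B.2.1
    B_lr := B.2.2.1
    B_rr := B.2.2.2 }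

theorem twa {kT cT : ℕ} {fT PT : ℕ → ℕ} (h : ∀ l0 L, ST.MI dnm kT cT l0 3 L (fT L) (PT L)) :
    TWA G dY (ZM ψ) (legM ψ) (dTM ψ T) cT fT PT where
  isoY := M.iso
  Z_smul := by
    rintro g i _ ⟨x, rfl⟩
    obtain ⟨t, ht⟩ := M.move g i
    exact ⟨_, ht x⟩
  leg_smul := by
    rintro g i _ _ ⟨x, x', h1, rfl, rfl⟩
    obtain ⟨t, ht⟩ := M.move g i
    exact ⟨_, _, (M.ok.iso t x x').trans h1, ht x, ht x'⟩
  dT_smul := by
    rintro g i _ _ ⟨x, rfl⟩ ⟨x', rfl⟩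
    obtain ⟨t, ht⟩ := M.move g i
    rw [← ht, ← ht, M.dTM_eq, M.dTM_eq, M.ok.iso]
  two := M.two
  taT := by
    rintro g i _ _ hg hi hv ⟨x, rfl⟩ ⟨x', rfl⟩
    obtain ⟨t, rfl⟩ := M.stab hi
    rw [← M.equi] at hv ⊢
    rw [M.dTM_eq, M.dTM_eq]
    exact (h 0 0).ta t x x' (fun e => hg (by rw [e, map_one])) (M.inj i hv)
  aiT := by
    rintro L a b i _ _ ha hb hc ⟨x, rfl⟩ ⟨x', rfl⟩
    obtain ⟨s, rfl⟩ := M.stab ha
    obtain ⟨t, rfl⟩ := M.stab hb
    simp only [← M.equi, M.dTM_eq]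
    exact (h 0 L).ai s t x x' fun e => hc (e.map _)
  pwT := by
    rintro L a i ha hv j _ hj ⟨x, rfl⟩
    obtain ⟨t, rfl⟩ := M.stab ha
    rw [← map_pow, ← M.equi, M.dTM_eq]
    exact (h 0 L).pw t (fun y e => hv _ ⟨y, rfl⟩ (by rw [← M.equi, e])) j hj x

/-- A conjugate pair in the stabiliser of `i` is an iterate of the pair of the telescope or
escapes in the telescope. -/
theorem gt {Kk S' : ℕ} (h : ST.GT (fun y c => ∃ (i j : ℕ) (g : ST.G), g * y * g⁻¹ = T.y ∧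
      g * cs y c i * g⁻¹ = cs T.y T.ε j) Kk S') {i : J} {y c : G} (hy : y • i = i)
    (hc : c • i = i) (hn : ¬ Commute y (c * y * c⁻¹)) :
    (∃ (a j : ℕ) (g : G), g * y * g⁻¹ = ρ i T.y ∧
      g * cs y c (a + 1) * g⁻¹ = cs (ρ i T.y) (ρ i T.ε) j) ∨
    ∃ j, j ≤ Kk ∧ ∀ v, ZM ψ i v →
      S' ≤ dTM ψ T i v (y • v) ∨ S' ≤ dTM ψ T i v (cs y c (j + 1) • v) := by
  obtain ⟨s, rfl⟩ := M.stab hy
  obtain ⟨t, rfl⟩ := M.stab hc
  rcases h s (t * s * t⁻¹) (Or.inl (isConj_iff.2 ⟨t, rfl⟩)) (fun e => hn (by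
    simpa only [map_mul, map_inv] using e.map (ρ i))) with ⟨a, j, g, h1, h2⟩ | ⟨j, hj, h1⟩
  · refine Or.inl ⟨a, j, ρ i g, by rw [← h1, map_mul, map_mul, map_inv], ?_⟩
    rw [← map_cs, ← map_cs, ← h2, cs_succ', map_mul, map_mul, map_inv]
  · refine Or.inr ⟨j, hj, ?_⟩
    rintro _ ⟨x, rfl⟩
    rw [← map_cs, ← M.equi, ← M.equi, M.dTM_eq, M.dTM_eq, cs_succ']
    exact h1 x

end Mod

end Pool.Agent.Lib.MP_429c3d_al.Ng
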