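import Pool.Agent.Lib.MP_429c3d_al.NgY
import Pool.Agent.Lib.MP_429c3d_al.NgM

set_option autoImplicit false
set_option linter.unusedSectionVars false

/-! The second cone-off: a cone point over every tree. -/

namespace Pool.Agent.Lib.MP_429c3d_al.Ng

open Hyp Sum

/-- The shadows in the second cone-off. -/
def ShB (G : Type) {X Ω J : Type} [Group G] [MulAction G X] [MulAction G Ω] (d : X → X → ℕ) (u : ℕ)
    (Z : J → X ⊕ Ω → Prop) : (X ⊕ Ω) ⊕ J → X → Prop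
  | inl v, p => ShY G d u v p
  | inr i, p => Hull d (fun x => ∃ γ, Z i γ ∧ ShY G d u γ x) p

/-- The cone constant. -/
def cB (α : ℕ) : ℕ := coneN 2 + α + 3

/-- The separation constant. -/
def LY (α D : ℕ) : ℕ := D + 6 * cB α + 600

/-- The number of levels that are used in `BH.gt`. -/
def lvB (α D n : ℕ) : ℕ := (3 * (LY α D + 1) + 2) * (2 * (2 * n + 2 * coneN (cB α) + 4) + 1)

/-- The assumptions on the trees. -/
structure BH (G : Type) {X Ω J : Type} [Group G] [MulAction G X] [MulAction G Ω] [MulAction G J]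
    (d : X → X → ℕ) (Z : J → X ⊕ Ω → Prop) (k A u α D : ℕ) : Prop where
  H : YH G Ω d k A u
  q : QFam (dYY G d u) Z kY α D
  smul : ∀ (g : G) i a, Z i a → Z (g • i) (g • a)

namespace BH

variable {G X Ω J : Type} [Group G] [MulAction G X] [MulAction G Ω] [MulAction G J]
  {d : X → X → ℕ} {Z : J → X ⊕ Ω → Prop} {k A u α D : ℕ} (B : BH G d Z k A u α D)
include B

/-- `IsGr.lip` and `grB_of`. -/
theorem le_Y (v w : X ⊕ Ω) : gd (adjB (dYY G d u) Z) (inl v) (inl w) ≤ dYY G d u v w := by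
  have Γ := grB_of B.q.gr B.q.ne
  simpa using B.q.gr.lip Γ.1.met inl (c := 1) (fun x y h => (Γ.2.1 x y).2 h) v w

/-- `hull_nb`, `QC.near'` in the first cone-off, `q.qc`. -/
theorem nb_Z {i : J} {p p' q : X} (h1 : ShB G d u Z (inr i) p) (h2 : ShB G d u Z (inr i) p')
    (hq : Btw d p q p') : ∃ γ, Z i γ ∧ dYY G d u (inl q) γ ≤ coneN 2 + α + 1 := by
  have m := B.H.xl.gr.met
  have hk := B.H.hk
  obtain ⟨r, r', ⟨γ, z1, s1⟩, ⟨γ', z2, s2⟩, h3⟩ := hull_nb m B.H.xl.hyp h1 h2 (hq.nb m)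
  obtain ⟨w, w1, w2⟩ := B.H.qc.1.near' s1 s2 h3 (by omega)
  obtain ⟨γ'', z3, h4⟩ := B.q.qc i γ γ' w z1 z2 w1
  have := B.q.gr.met.tri (inl q) w γ''
  exact ⟨γ'', z3, by omega⟩

theorem qc : QC d (gd (adjB (dYY G d u) Z)) (fun x => inl (inl x)) (ShB G d u Z) k u (cB α) := by
  have Γ := grB_of B.q.gr B.q.ne
  have Q := B.H.qc.1
  have m := B.H.xl.gr.met
  have up : ∀ {i : J} {v : X ⊕ Ω} {p : X}, Z i v → ShY G d u v p → ShB G d u Z (inr i) p :=
    fun h h' => hull_self m ⟨_, h, h'⟩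
  have ne : ∀ b, ∃ x, ShB G d u Z b x := by
    rintro (v | i)
    · exact Q.ne v
    · obtain ⟨a, ha⟩ := B.q.ne i
      obtain ⟨x, hx⟩ := Q.ne a
      exact ⟨x, up ha hx⟩
  have key : ∀ {i : J} {p p' q : X}, ShB G d u Z (inr i) p → ShB G d u Z (inr i) p' →
      Btw d p q p' → gd (adjB (dYY G d u) Z) (inl (inl q)) (inr i) ≤ coneN 2 + α + 2 := by
    intro i p p' q h1 h2 h3
    obtain ⟨γ, z, h4⟩ := B.nb_Z h1 h2 h3
    have := B.le_Y (inl q) γ
    have := (Γ.2.2.1 γ i).2 z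
    have := Γ.1.met.tri (inl (inl q)) (inl γ) (inr i)
    omega
  refine
    { gr := B.H.xl.gr, hyp := B.H.xl.hyp, grB := Γ.1, sh_ι := fun x => rfl, ne := ne
      lip := fun x y h => (Γ.2.1 _ _).2 (Q.lip x y h), big := Q.big, small := ?_, link := ?_
      qc := ?_, huge := B.H.hk }
  · unfold cB
    rintro (v | i) (w | j) p p' q h h1 h2 h3
    · have := Q.small v w p p' q ((Γ.2.1 _ _).1 h) h1 h2 h3
      have := B.le_Y (inl q) v
      omega
    · have := key (up ((Γ.2.2.1 _ _).1 h) h1) h2 h3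
      have := Γ.1.met.tri (inl (inl q)) (inr j) (inl v)
      have := Γ.1.met.symm (inr j) (inl v)
      omega
    · rw [Γ.1.met.symm] at h
      have := key h1 (up ((Γ.2.2.1 _ _).1 h) h2) h3
      omega
    · obtain rfl := Γ.2.2.2 _ _ h
      have := key h1 h2 h3
      omega
  · rintro (v | i) (w | j) h
    · exact Q.link v w ((Γ.2.1 _ _).1 h)
    · obtain ⟨x, hx⟩ := Q.ne v
      exact ⟨x, x, hx, up ((Γ.2.2.1 _ _).1 h) hx, by rw [m.self]; omega⟩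
    · rw [Γ.1.met.symm] at h
      obtain ⟨x, hx⟩ := Q.ne w
      exact ⟨x, x, up ((Γ.2.2.1 _ _).1 h) hx, hx, by rw [m.self]; omega⟩
    · obtain rfl := Γ.2.2.2 _ _ h
      obtain ⟨x, hx⟩ := ne (inr i)
      exact ⟨x, x, hx, hx, by rw [m.self]; omega⟩
  · rintro (v | i) r r' s h1 h2 h3
    · exact Q.qc v r r' s h1 h2 h3
    · exact hull_qc B.H.xl.gr B.H.xl.hyp h1 h2 h3

theorem act : CAct G d (gd (adjB (dYY G d u) Z)) (fun x => inl (inl x)) (ShB G d u Z) := by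
  have Γ := grB_of B.q.gr B.q.ne
  have A := B.H.act
  refine ⟨B.H.xl.iso, Γ.1.iso ?_, fun g x => rfl, ?_⟩
  · rintro g (v | i) (w | j) h
    · refine (Γ.2.1 (g • v) (g • w)).2 ?_
      rw [A.invB]
      exact (Γ.2.1 _ _).1 h
    · exact (Γ.2.2.1 (g • v) (g • j)).2 (B.smul g _ _ ((Γ.2.2.1 _ _).1 h))
    · rw [Γ.1.met.symm] at h ⊢
      exact (Γ.2.2.1 (g • w) (g • i)).2 (B.smul g _ _ ((Γ.2.2.1 _ _).1 h))
    · obtain rfl := Γ.2.2.2 _ _ h
      rw [Γ.1.met.self]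
      omega
  · rintro g (v | i) x h
    · exact A.sh_smul g v x h
    · obtain ⟨r, r', ⟨γ, z1, s1⟩, ⟨γ', z2, s2⟩, h3⟩ := h
      exact ⟨g • r, g • r', ⟨g • γ, B.smul g _ _ z1, A.sh_smul g _ _ s1⟩,
        ⟨g • γ', B.smul g _ _ z2, A.sh_smul g _ _ s2⟩, h3.smul B.H.xl.iso g⟩

theorem near_Z {i : J} {x : X} (h : Near d (ShB G d u Z) (2 * u) (inr i) x) :
    ∃ γ, Z i γ ∧ dYY G d u (inl x) γ ≤ cB α := by
  obtain ⟨s, h1, h2⟩ := h
  obtain ⟨γ, z, h3⟩ := B.nb_Z h1 h1 (q := s) (by rw [Btw, B.H.xl.gr.met.self])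
  have := B.H.qc.1.ι_le_mul 2 x s h2
  have := B.q.gr.met.tri (inl x) (inl s) γ
  exact ⟨γ, z, by unfold cB; omega⟩

/-- `YH.sep` with `ι_le_mul`; `near_Z` and `q.ov`. -/
theorem sep {e : (X ⊕ Ω) ⊕ J} {f : G} {x x' : X} (h1 : Near d (ShB G d u Z) (2 * u) e x)
    (h2 : Near d (ShB G d u Z) (2 * u) e x') (h3 : Near d (ShB G d u Z) (2 * u) (f • e) x)
    (h4 : Near d (ShB G d u Z) (2 * u) (f • e) x')
    (h : LY α D < dYY G (Ω := Ω) d u (inl x) (inl x')) :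
    (∃ β, e = inl (inr β) ∧ f • β = β) ∨ ∃ i, e = inr i ∧ f • i = i := by
  unfold LY at h
  rcases e with v | i
  · obtain ⟨β, rfl, hβ⟩ := B.H.sep (e := v) (f := f) h1 h2 h3 h4 (by
      by_contra hc
      have := B.H.qc.1.ι_le_mul 600 x x' (by omega)
      omega)
    exact Or.inl ⟨β, rfl, hβ⟩
  · refine Or.inr ⟨i, rfl, ?_⟩
    by_contra hc
    obtain ⟨γ1, z1, e1⟩ := B.near_Z h1
    obtain ⟨γ2, z2, e2⟩ := B.near_Z h2
    obtain ⟨γ3, z3, e3⟩ := B.near_Z (i := f • i) h3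
    obtain ⟨γ4, z4, e4⟩ := B.near_Z (i := f • i) h4
    have m := B.q.gr.met
    have := m.tri γ1 (inl x) γ3
    have := m.symm γ1 (inl x)
    have := m.tri γ2 (inl x') γ4
    have := m.symm γ2 (inl x')
    have := B.q.ov i (f • i) γ1 γ2 γ3 γ4 (2 * cB α) (Ne.symm hc) z1 z2 z3 z4 (by omega) (by omega)
    have := m.tri (inl x) γ1 (inl x')
    have := m.tri γ1 γ2 (inl x')
    omega

/-- `QC.ta`. -/
theorem ta {a : G} (ha : a ≠ 1) {v : X ⊕ Ω} (hv : a • v = v) {x : (X ⊕ Ω) ⊕ J} {L : ℕ}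
    (hx : gd (adjB (dYY G d u) Z) x (a • x) ≤ L) :
    gd (adjB (dYY G d u) Z) x (inl v) ≤ L + (2 * coneN (cB α) + 3) := by
  rw [← add_assoc]
  refine B.qc.ta B.act (α := inl v) (congrArg inl hv) (fun q hq => ?_) hx
  have hk := B.H.hk
  rcases v with y | β
  · exact absurd (B.H.free a y (inl_injective hv)) ha
  · exact (B.le_Y _ _).trans (B.H.adj_of (B.H.sh_of ha (inr_injective hv) (by omega)))

theorem ai (L : ℕ) : AI G (gd (adjB (dYY G d u) Z)) L (4 * L + (2 * coneN (cB α) + 5)) := by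
  rw [← add_assoc]
  exact B.qc.ai B.act B.H.xl.ai B.H.hA B.H.xl.csa B.H.xl.ct L

/-- `QC.pw` with `M = 1202 * (LY α D + 1) + 2`, `sep`, `YH.pw`. -/
theorem pw {a : G} (h : ∀ b : (X ⊕ Ω) ⊕ J, a • b ≠ b) {n : ℕ} (hn : (2 * n + 10) * k + 1 ≤ u)
    (hL : (2 * LY α D + 10) * k + 1 ≤ u) {j : ℕ}
    (hj : (1202 * (LY α D + 1) + 3) * (n + 1) + 2 ≤ j) (x : (X ⊕ Ω) ⊕ J) :
    n < gd (adjB (dYY G d u) Z) x (a ^ j • x) := by
  have h' : ∀ v : X ⊕ Ω, a • v ≠ v := fun v e => h (inl v) (congrArg inl e)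
  refine B.qc.pw B.act (B.H.long h') (M := 1202 * (LY α D + 1) + 2) hn ?_ hj x
  intro e y _ h1 h2 h3 h4
  rcases B.sep h1 h2 h3 h4 (B.H.pw h' hL le_rfl (inl y)) with ⟨β, -, hβ⟩ | ⟨i, -, hi⟩
  · exact h' (inr β) (congrArg inr hβ)
  · exact h (inr i) (congrArg inr hi)

/-- `QC.mov` if all displacements are larger than `u`; otherwise `aps.ex` and `ta`. -/
theorem mov {a : G} (ha : a ≠ 1) {v : (X ⊕ Ω) ⊕ J} {n : ℕ}
    (hv : gd (adjB (dYY G d u) Z) v (a • v) ≤ n) : ∃ w, MinP d a w ∧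
      gd (adjB (dYY G d u) Z) (inl (inl w)) v ≤ 2 * n + 2 * coneN (cB α) + 4 := by
  by_cases hμ : ∀ x : X, u < d x (a • x)
  · obtain ⟨w, w1, w2⟩ := B.qc.mov B.act hμ hv
    exact ⟨w, w1, by omega⟩
  · obtain ⟨x, hx⟩ := not_forall.1 hμ
    obtain ⟨ω, hω⟩ := B.H.aps.ex a ha ⟨x, by omega⟩
    obtain ⟨w, -, hw⟩ := (measure fun x : X => d x (a • x)).wf.has_min Set.univ ⟨x, trivial⟩
    have w1 : MinP d a w := fun x => not_lt.1 (hw x trivial)
    have w2 := w1 x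
    have h1 := (B.le_Y _ _).trans (B.H.adj_of (B.H.sh_of ha hω (x := w) (by omega)))
    have h2 := B.ta ha (v := inr ω) (congrArg inr hω) hv
    have m := B.qc.grB.met
    have := m.tri (inl (inl w)) (inl (inr ω)) v
    have := m.symm (inl (inr ω)) v
    exact ⟨w, w1, by omega⟩

/-- `mov` for `y` and for the iterate, `Flip.gate_nb`, `QC.flip` with `M = 3 * (LY α D + 1)`,
`YH.flip` with `n = LY α D`, `sep`; the apex case contradicts `hc`. -/
theorem gt {y c : G} {ξ : X} {l N J0 n : ℕ} (F : Flip d y c ξ l N J0) (h1 : IsConj y c)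
    (hc : ¬ Commute y c) (hN : 602 * u ≤ N) (hu : 10 * lvB α D n * (J0 + k + 1) ≤ u)
    {v : (X ⊕ Ω) ⊕ J} (hy : gd (adjB (dYY G d u) Z) v (y • v) ≤ n)
    (hv : gd (adjB (dYY G d u) Z) v (cs y c (l + lvB α D n) • v) ≤ n) :
    ∃ (i : J) (j : ℕ), j ≤ l + lvB α D n ∧ y • i = i ∧ cs y c j • i = i := by
  have nc := not_commute_cs B.H.xl.csa hc
  have m := B.qc.grB.met
  obtain ⟨w, w1, w2⟩ := B.mov (a := y) (fun e => hc (e ▸ Commute.one_left c)) hy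
  obtain ⟨w', w3, w4⟩ := B.mov (fun e => nc _ (e ▸ Commute.one_right y)) hv
  have hw : gd (adjB (dYY G d u) Z) (inl (inl w)) (inl (inl w')) ≤
      2 * (2 * n + 2 * coneN (cB α) + 4) := by
    have := m.tri (inl (inl w)) v (inl (inl w'))
    have := m.symm v (inl (inl w'))
    omega
  have e0 : lvB α D n = (3 * (LY α D + 1) + 2) * (2 * (2 * n + 2 * coneN (cB α) + 4) + 1) := rfl
  have b1 : 3 * (LY α D + 1) + 2 ≤ lvB α D n :=
    (Nat.le_mul_of_pos_right _ (by omega)).trans e0.ge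
  have b2 : 2 * (2 * n + 2 * coneN (cB α) + 4) + 1 ≤ lvB α D n :=
    (Nat.le_mul_of_pos_left _ (by omega)).trans e0.ge
  have num : ∀ s t : ℕ, s ≤ 10 * lvB α D n → t ≤ 10 * lvB α D n → s * J0 + t * k + 1 ≤ u := by
    intro s t hs ht
    have := Nat.mul_le_mul_right J0 hs
    have := Nat.mul_le_mul_right k ht
    rw [Nat.mul_add, Nat.mul_add] at hu
    omega
  obtain ⟨e, a, a1, a2, a3⟩ := B.qc.flip B.act F (B.qc.sh_ι w) (B.qc.sh_ι w')
    (M := 3 * (LY α D + 1)) (t := (lvB α D n + 1) * J0) hw le_rfl (fun j j1 j2 => by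
      rw [← e0] at j2
      exact (F.gate_nb B.H.xl.gr.met B.H.xl.iso j1 j2 w1 w3).mono
        (Nat.mul_le_mul_right _ (by omega))) (by
      rw [← e0, ← Nat.add_mul]
      exact num _ _ (by omega) (by omega))
  rw [← e0] at a2
  have key : ∀ j, j = a + 3 * (LY α D + 1) ∨ j = a + 3 * (LY α D + 1) + 1 →
      (∃ β, e = inl (inr β) ∧ cs y c j • β = β) ∨ ∃ i, e = inr i ∧ cs y c j • i = i := by
    intro j hj
    obtain ⟨n1, n2, n3, n4⟩ := a3 j hj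
    rcases B.sep n1 n2 n3 n4 (B.H.flip F hc hN a1 (by omega) (by
      rw [← Nat.add_mul]
      exact num _ _ (by omega) (by omega))) with ⟨β, e1, e2⟩ | ⟨i, e1, e2⟩
    · exact Or.inl ⟨β, e1, (inv_smul_eq_iff.1 e2).symm⟩
    · exact Or.inr ⟨i, e1, (inv_smul_eq_iff.1 e2).symm⟩
  rcases key _ (Or.inl rfl) with ⟨β, rfl, e1⟩ | ⟨i, rfl, e1⟩ <;>
    rcases key _ (Or.inr rfl) with ⟨β', e2, e3⟩ | ⟨i', e2, e3⟩
  · obtain rfl : β = β' := inr_injective (inl_injective e2)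
    refine (nc (a + 3 * (LY α D + 1)) (B.H.aps.comm _ _ β ?_ e1)).elim
    rwa [cs, mul_smul, mul_smul, inv_smul_eq_iff.2 e1.symm, ← eq_inv_smul_iff,
      inv_smul_eq_iff.2 e1.symm] at e3
  · exact absurd e2 inl_ne_inr
  · exact absurd e2 inr_ne_inl
  · obtain rfl : i = i' := inr_injective e2
    refine ⟨i, _, by omega, ?_, e1⟩
    rwa [cs, mul_smul, mul_smul, inv_smul_eq_iff.2 e1.symm, ← eq_inv_smul_iff,
      inv_smul_eq_iff.2 e1.symm] at e3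

end BH

end Pool.Agent.Lib.MP_429c3d_al.Ng
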