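import Pool.Agent.Lib.MP_429c3d_al.NgFoot

/-! BSL: the guessed geodesics of the next stage, with the same constants. -/

set_option autoImplicit false

namespace Pool.Agent.Lib.MP_429c3d_al.Ng

open Hyp

/-- The invariants of the guessed geodesics `g` and of the marked edges `mk`. -/
structure BS (G : Type) {Z : Type} [Group G] [MulAction G Z] (d : Z → Z → ℕ) (g : Z → Z → Set Z)
    (mk : Z → Z → Prop) (q q0 r' h : ℕ) : Prop where
  symm : ∀ x y z, z ∈ g x y → z ∈ g y x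
  left : ∀ x y, x ∈ g x y
  smul : ∀ (γ : G) x y z, z ∈ g x y → γ • z ∈ g (γ • x) (γ • y)
  mk_symm : ∀ a b, mk a b → mk b a
  mk_smul : ∀ (γ : G) a b, mk a b → mk (γ • a) (γ • b)
  mk_d : ∀ a b, mk a b → d a b ≤ 1
  mk_g : ∀ a b z, mk a b → z ∈ g a b → z = a ∨ z = b
  qs : ∀ a b y z, mk a b → z ∈ g a y → ∃ u ∈ g b y, d z u ≤ q
  qz : ∀ a v b z, mk a v → mk v b → z ∈ g a b → d z v ≤ q0
  guess : Guess d g 1 r' h

variable {G G' Z Z' : Type} [Group G] [Group G'] [MulAction G Z] [MulAction G' Z']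
  {d : Z → Z → ℕ} {d' : Z' → Z' → ℕ} {g : Z → Z → Set Z} {mk : Z → Z → Prop} {q q0 r' h : ℕ}

theorem BS.right (B : BS G d g mk q q0 r' h) (x y : Z) : y ∈ g x y := B.symm _ _ _ (B.left y x)

namespace Gate

variable (S : Gate G G' d d')

/-- The guessed geodesics of the next stage. -/
def gg (g : Z → Z → Set Z) (x y : Z') : Set Z' :=
  {p | p = x ∨ p = y ∨ ∃ (γ : G') (a b u : Z), S.Rho (γ⁻¹ • x) a ∧ S.Rho (γ⁻¹ • y) b ∧
    S.Dis (γ⁻¹ • x) (γ⁻¹ • y) ∧ u ∈ g a b ∧ p = γ • S.ι u}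

/-- The marked edges of the next stage. -/
def mkk (mk : Z → Z → Prop) (x y : Z') : Prop :=
  (∃ (γ : G') (a b : Z), mk a b ∧ x = γ • S.ι a ∧ y = γ • S.ι b) ∨
    (∃ γ : G', x = γ • S.w ∧ y = γ • S.ι S.t) ∨ ∃ γ : G', y = γ • S.w ∧ x = γ • S.ι S.t

theorem gg_left (x y : Z') : x ∈ S.gg g x y := Or.inl rfl

theorem gg_right (x y : Z') : y ∈ S.gg g x y := Or.inr (Or.inl rfl)

theorem gg_ι {x y : Z'} {a b u : Z} (ha : S.Rho x a) (hb : S.Rho y b) (hd : S.Dis x y)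
    (hu : u ∈ g a b) : S.ι u ∈ S.gg g x y :=
  Or.inr (Or.inr ⟨1, a, b, u, by simpa, by simpa, by simpa, hu, (one_smul _ _).symm⟩)

theorem gg_smul (γ : G') {x y p : Z'} (hp : p ∈ S.gg g x y) : γ • p ∈ S.gg g (γ • x) (γ • y) := by
  rcases hp with rfl | rfl | ⟨δ, a, b, u, h1, h2, h3, h4, rfl⟩
  · exact S.gg_left _ _
  · exact S.gg_right _ _
  · refine Or.inr (Or.inr ⟨γ * δ, a, b, u, ?_, ?_, ?_, h4, (mul_smul _ _ _).symm⟩) <;>
      simpa [mul_smul]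

theorem gg_smul' (γ : G') {x y p : Z'} (hp : p ∈ S.gg g (γ⁻¹ • x) (γ⁻¹ • y)) :
    γ • p ∈ S.gg g x y := by
  simpa using S.gg_smul γ hp

theorem gg_symm (B : BS G d g mk q q0 r' h) {x y p : Z'} (hp : p ∈ S.gg g x y) :
    p ∈ S.gg g y x := by
  rcases hp with rfl | rfl | ⟨δ, a, b, u, h1, h2, h3, h4, rfl⟩
  · exact S.gg_right _ _
  · exact S.gg_left _ _
  · exact Or.inr (Or.inr ⟨δ, b, a, u, h2, h1, h3.symm, B.symm _ _ _ h4, rfl⟩)

theorem mkk_symm (B : BS G d g mk q q0 r' h) {x y : Z'} (hm : S.mkk mk x y) : S.mkk mk y x := by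
  rcases hm with ⟨γ, a, b, h1, h2, h3⟩ | h1 | h1
  exacts [Or.inl ⟨γ, b, a, B.mk_symm _ _ h1, h3, h2⟩, Or.inr (Or.inr h1), Or.inr (Or.inl h1)]

theorem mkk_smul (γ : G') {x y : Z'} (hm : S.mkk mk x y) : S.mkk mk (γ • x) (γ • y) := by
  rcases hm with ⟨δ, a, b, h1, rfl, rfl⟩ | h1 | h1
  · exact Or.inl ⟨γ * δ, a, b, h1, (mul_smul _ _ _).symm, (mul_smul _ _ _).symm⟩
  · exact Or.inr (Or.inl (OnL.smul h1 γ))
  · exact Or.inr (Or.inr (OnL.smul h1 γ))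

theorem mkk_ι {a b : Z} (hm : mk a b) : S.mkk mk (S.ι a) (S.ι b) :=
  Or.inl ⟨1, a, b, hm, (one_smul _ _).symm, (one_smul _ _).symm⟩

theorem OnL.mkk {S : Gate G G' d d'} {x a : Z'} (hl : S.OnL x a) : S.mkk mk x a :=
  Or.inr (Or.inl hl)

theorem mkk_d (B : BS G d g mk q q0 r' h) {x y : Z'} (hm : S.mkk mk x y) : d' x y ≤ 1 := by
  rcases hm with ⟨δ, a, b, h1, rfl, rfl⟩ | h1 | h1
  exacts [(S.d_smul_ι _ _ _).trans (B.mk_d _ _ h1), OnL.d_le h1, OnL.d_le' h1]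

theorem gg_old_sub (B : BS G d g mk q q0 r' h) {a b : Z} {p : Z'}
    (hp : p ∈ S.gg g (S.ι a) (S.ι b)) : ∃ u ∈ g a b, p = S.ι u := by
  rcases hp with rfl | rfl | ⟨δ, a', b', u, h1, h2, h3, h4, rfl⟩
  · exact ⟨a, B.left _ _, rfl⟩
  · exact ⟨b, B.right _ _, rfl⟩
  · rw [(S.old_smul_ι _ _).rho] at h1 h2
    rcases S.rt_copy δ⁻¹ a b with ⟨c, hc⟩ | h5
    · rw [hc, S.rt_φ_ι] at h1 h2
      refine ⟨c⁻¹ • u, by simpa [h1, h2] using B.smul c⁻¹ _ _ _ h4, ?_⟩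
      rw [S.ι_smul, map_inv, ← hc, inv_inv]
    · exact absurd h5 ((S.dis_old (S.old_smul_ι _ _) (S.old_smul_ι _ _)).1 h3)

theorem gg_copy (B : BS G d g mk q q0 r' h) {γ : G'} {a b : Z} {p : Z'}
    (hp : p ∈ S.gg g (γ • S.ι a) (γ • S.ι b)) : ∃ u ∈ g a b, p = γ • S.ι u := by
  obtain ⟨u, h1, h2⟩ := S.gg_old_sub B (a := a) (b := b) (p := γ⁻¹ • p)
    (by simpa using S.gg_smul γ⁻¹ hp)
  exact ⟨u, h1, by rw [← h2, smul_inv_smul]⟩

theorem gg_onL {x a p : Z'} (hl : S.OnL x a) (hp : p ∈ S.gg g x a) : p = x ∨ p = a := by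
  rcases hp with rfl | rfl | ⟨δ, -, -, -, -, -, h3, -, -⟩
  exacts [Or.inl rfl, Or.inr rfl, absurd h3 (hl.smul _).not_dis]

theorem gg_self {x p : Z'} (hp : p ∈ S.gg g x x) : p = x := by
  rcases hp with rfl | rfl | ⟨δ, a, -, -, h1, -, h3, -, -⟩
  exacts [rfl, rfl, absurd h1 (h3 _ h1)]

theorem mkk_g (B : BS G d g mk q q0 r' h) {x y p : Z'} (hm : S.mkk mk x y)
    (hp : p ∈ S.gg g x y) : p = x ∨ p = y := by
  rcases hm with ⟨δ, a, b, h1, rfl, rfl⟩ | h1 | h1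
  · obtain ⟨u, h2, rfl⟩ := S.gg_copy B hp
    rcases B.mk_g _ _ _ h1 h2 with rfl | rfl
    exacts [Or.inl rfl, Or.inr rfl]
  · exact S.gg_onL h1 hp
  · exact (S.gg_onL h1 (S.gg_symm B hp)).symm

theorem rho_mk (B : BS G d g mk q q0 r' h) (hm : mk S.t S.h) {x : Z'} {a b : Z} (ha : S.Rho x a)
    (hb : S.Rho x b) (hab : a ≠ b) : mk a b := by
  obtain ⟨c, -, ⟨rfl, rfl⟩ | ⟨rfl, rfl⟩⟩ := S.rho_two ha hb hab
  exacts [B.mk_smul _ _ _ hm, B.mk_symm _ _ (B.mk_smul _ _ _ hm)]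

theorem rho_qs (B : BS G d g mk q q0 r' h) (hm : mk S.t S.h) {x : Z'} {a b : Z} (ha : S.Rho x a)
    (hb : S.Rho x b) {y u : Z} (hu : u ∈ g a y) : ∃ u' ∈ g b y, d u u' ≤ q := by
  by_cases hab : a = b
  · exact ⟨u, hab ▸ hu, by rw [S.met.self]; exact Nat.zero_le _⟩
  · exact B.qs _ _ _ _ (S.rho_mk B hm ha hb hab) hu

/-- A point of the guessed geodesic between the two gates of a cone is next to the cone. -/
theorem rho_near (B : BS G d g mk q q0 r' h) (hm : mk S.t S.h) {x : Z'} {a b u : Z}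
    (ha : S.Rho x a) (hb : S.Rho x b) (hab : a ≠ b) (hu : u ∈ g a b) : d' (S.ι u) x ≤ 1 := by
  rcases B.mk_g _ _ _ (S.rho_mk B hm ha hb hab) hu with rfl | rfl
  exacts [(S.rho_two_onL ha hb hab).d_le', (S.rho_two_onL hb ha hab.symm).d_le']

theorem thin_base (B : BS G d g mk q q0 r' h) (hm : mk S.t S.h) (hq : 2 * q + 1 ≤ h)
    {x y : Z'} (z : Z') {a b u : Z} (ha : S.Rho x a) (hb : S.Rho y b) (hd : S.Dis x y)
    (hu : u ∈ g a b) : ∃ p, (p ∈ S.gg g x z ∨ p ∈ S.gg g z y) ∧ d' (S.ι u) p ≤ h := by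
  by_cases h1 : S.Dis x z <;> by_cases h2 : S.Dis z y
  · obtain ⟨v, hv | hv, hvd⟩ := B.guess.thin a b (S.rt z) u hu
    · exact ⟨_, Or.inl (S.gg_ι ha (S.rho_rt z) h1 hv), (S.d_ι _ _).trans hvd⟩
    · exact ⟨_, Or.inr (S.gg_ι (S.rho_rt z) hb h2 hv), (S.d_ι _ _).trans hvd⟩
  · obtain ⟨c, c1, c2⟩ := S.not_dis.1 h2
    obtain ⟨v, hv, hvd⟩ := S.rho_qs B hm hb c2 (B.symm _ _ _ hu)
    exact ⟨_, Or.inl (S.gg_ι ha c1 h1 (B.symm _ _ _ hv)), (S.d_ι _ _).trans (by omega)⟩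
  · obtain ⟨c, c1, c2⟩ := S.not_dis.1 h1
    obtain ⟨v, hv, hvd⟩ := S.rho_qs B hm ha c1 hu
    exact ⟨_, Or.inr (S.gg_ι c2 hb h2 hv), (S.d_ι _ _).trans (by omega)⟩
  · obtain ⟨c, c1, c2⟩ := S.not_dis.1 h1
    obtain ⟨c', c3, c4⟩ := S.not_dis.1 h2
    obtain ⟨v, hv, hvd⟩ := S.rho_qs B hm ha c1 hu
    obtain ⟨v', hv', hvd'⟩ := S.rho_qs B hm hb c4 (B.symm _ _ _ hv)
    have e1 := S.rho_near B hm c3 c2 (fun hh => hd c c1 (hh ▸ c4)) hv'
    have e2 := S.met.tri u v v'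
    have e3 := S.d_ι u v'
    have e4 := S.met'.tri (S.ι u) (S.ι v') z
    exact ⟨z, Or.inl (S.gg_right _ _), by omega⟩

theorem gg_thin (B : BS G d g mk q q0 r' h) (hm : mk S.t S.h) (hq : 2 * q + 1 ≤ h)
    (x y z p : Z') (hp : p ∈ S.gg g x y) :
    ∃ u, (u ∈ S.gg g x z ∨ u ∈ S.gg g z y) ∧ d' p u ≤ h := by
  rcases hp with rfl | rfl | ⟨δ, a, b, u, h1, h2, h3, h4, rfl⟩
  · exact ⟨p, Or.inl (S.gg_left _ _), by rw [S.met'.self]; exact Nat.zero_le _⟩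
  · exact ⟨p, Or.inr (S.gg_right _ _), by rw [S.met'.self]; exact Nat.zero_le _⟩
  · obtain ⟨p, e1, e2⟩ := S.thin_base B hm hq (δ⁻¹ • z) h1 h2 h3 h4
    exact ⟨δ • p, e1.imp (S.gg_smul' δ) (S.gg_smul' δ), by rwa [S.inv']⟩

theorem gg_small (B : BS G d g mk q q0 r' h) (hh : 1 ≤ h) (x y : Z') (hxy : d' x y ≤ 1)
    (p : Z') (hp : p ∈ S.gg g x y) : d' p x ≤ h := by
  have key : p = x ∨ p = y → d' p x ≤ h := by
    rintro (rfl | rfl)
    · rw [S.met'.self]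
      exact Nat.zero_le _
    · rw [S.met'.symm]
      omega
  rcases S.edge x y hxy with rfl | ⟨γ, z, z', rfl, rfl, hz⟩ | hl | hl
  · exact key (Or.inl (S.gg_self hp))
  · obtain ⟨u, h2, rfl⟩ := S.gg_copy B hp
    exact (S.d_smul_ι _ _ _).trans (B.guess.small _ _ hz u h2)
  · exact key (S.gg_onL hl hp)
  · exact key (S.gg_onL hl (S.gg_symm B hp)).symm

/-- A new marked edge either has a common gate or is an old marked edge of the base copy. -/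
theorem mkk_cases (B : BS G d g mk q q0 r' h) {x y : Z'} (hm : S.mkk mk x y) :
    (∃ a b, mk a b ∧ x = S.ι a ∧ y = S.ι b) ∨ (S.Old x ∧ S.Old y ∧ S.rt x = S.rt y) ∨
      S.OnL x y ∨ S.OnL y x := by
  rcases hm with ⟨δ, a, b, h1, rfl, rfl⟩ | h1
  · rcases S.rt_copy δ a b with ⟨c, rfl⟩ | h2
    · exact Or.inl ⟨_, _, B.mk_smul c _ _ h1, (S.ι_smul _ _).symm, (S.ι_smul _ _).symm⟩
    · exact Or.inr (Or.inl ⟨S.old_smul_ι _ _, S.old_smul_ι _ _, h2⟩)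
  · exact Or.inr (Or.inr h1)

theorem qs_base (B : BS G d g mk q q0 r' h) (hm : mk S.t S.h) (hq : q0 + 1 ≤ q)
    {x x' y : Z'} (hx : S.mkk mk x x') {a b u : Z} (ha : S.Rho x a) (hb : S.Rho y b)
    (hd : S.Dis x y) (hu : u ∈ g a b) : ∃ p ∈ S.gg g x' y, d' (S.ι u) p ≤ q := by
  rcases S.mkk_cases B hx with ⟨a₀, a', h1, rfl, rfl⟩ | ⟨h1, h2, h3⟩ | h1 | h1
  · obtain rfl := (S.rho_ι _ _).1 ha
    by_cases h2 : S.Dis (S.ι a') y
    · obtain ⟨v, hv, hvd⟩ := B.qs _ _ _ _ h1 hu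
      exact ⟨_, S.gg_ι ((S.rho_ι _ _).2 rfl) hb h2 hv, (S.d_ι _ _).trans hvd⟩
    · obtain ⟨c, c1, c2⟩ := S.not_dis.1 h2
      obtain rfl := (S.rho_ι _ _).1 c1
      refine ⟨_, S.gg_left _ _, (S.d_ι _ _).trans ?_⟩
      by_cases h3 : c = b
      · subst h3
        rcases B.mk_g _ _ _ h1 hu with rfl | rfl
        · exact (B.mk_d _ _ h1).trans (by omega)
        · rw [S.met.self]
          exact Nat.zero_le _
      · exact (B.qz _ _ _ _ h1 (S.rho_mk B hm c2 hb h3) hu).trans (by omega)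
  · refine ⟨_, S.gg_ι (h2.rho.2 ((h1.rho.1 ha).trans h3)) hb (fun c hc => hd c ?_) hu, ?_⟩
    · exact h1.rho.2 ((h2.rho.1 hc).trans h3.symm)
    · rw [S.met'.self]
      exact Nat.zero_le _
  · obtain ⟨v, hv, hvd⟩ := S.rho_qs B hm ha h1.rho hu
    exact ⟨_, S.gg_ι (S.rho_rt _) hb (fun c hc => hd c (h1.old.rho.1 hc ▸ h1.rho)) hv,
      (S.d_ι _ _).trans hvd⟩
  · have ha' : S.Rho x' a := h1.old.rho.1 ha ▸ h1.rho
    by_cases h2 : S.Dis x' y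
    · exact ⟨_, S.gg_ι ha' hb h2 hu, by rw [S.met'.self]; exact Nat.zero_le _⟩
    · obtain ⟨c, c1, c2⟩ := S.not_dis.1 h2
      have hac : a ≠ c := fun hh => hd a ha (hh ▸ c2)
      refine ⟨_, S.gg_left _ _, ?_⟩
      by_cases h3 : c = b
      · exact (S.rho_near B hm ha' c1 hac (h3 ▸ hu)).trans (by omega)
      · have e1 := B.qz _ _ _ _ (S.rho_mk B hm ha' c1 hac) (S.rho_mk B hm c2 hb h3) hu
        have e2 := (S.rho_two_onL c1 ha' hac.symm).d_le'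
        have e3 := S.d_ι u c
        have e4 := S.met'.tri (S.ι u) (S.ι c) x'
        omega

theorem gg_qs (B : BS G d g mk q q0 r' h) (hm : mk S.t S.h) (hq : q0 + 1 ≤ q)
    (x x' y p : Z') (hx : S.mkk mk x x') (hp : p ∈ S.gg g x y) :
    ∃ u ∈ S.gg g x' y, d' p u ≤ q := by
  rcases hp with rfl | rfl | ⟨δ, a, b, u, h1, h2, h3, h4, rfl⟩
  · exact ⟨x', S.gg_left _ _, (S.mkk_d B hx).trans (by omega)⟩
  · exact ⟨p, S.gg_right _ _, by rw [S.met'.self]; exact Nat.zero_le _⟩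
  · obtain ⟨p, e1, e2⟩ := S.qs_base B hm hq (S.mkk_smul δ⁻¹ hx) h1 h2 h3 h4
    exact ⟨δ • p, S.gg_smul' δ e1, by rwa [S.inv']⟩

theorem qz_half (B : BS G d g mk q q0 r' h) (hm : mk S.t S.h) (hq : 1 ≤ q0) {y : Z'}
    {a c b u : Z} (h1 : mk a c) (hc : S.Rho y c) (hb : S.Rho y b) (hu : u ∈ g a b) :
    d u c ≤ q0 := by
  by_cases h3 : c = b
  · subst h3
    rcases B.mk_g _ _ _ h1 hu with rfl | rfl
    · exact (B.mk_d _ _ h1).trans hq
    · rw [S.met.self]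
      exact Nat.zero_le _
  · exact B.qz _ _ _ _ h1 (S.rho_mk B hm hc hb h3) hu

theorem mkk_cases' (B : BS G d g mk q q0 r' h) {x y : Z'} (hm : S.mkk mk x y) :
    (∃ a b, mk a b ∧ x = S.ι a ∧ y = S.ι b) ∨
      ∃ c, S.Rho x c ∧ S.Rho y c ∧ (¬ S.Old y → S.Old x) := by
  rcases S.mkk_cases B hm with h1 | ⟨h1, h2, h3⟩ | h1 | h1
  · exact Or.inl h1
  · exact Or.inr ⟨_, S.rho_rt x, h3 ▸ S.rho_rt y, fun _ => h1⟩
  · exact Or.inr ⟨_, h1.rho, S.rho_rt y, fun h2 => absurd h1.old h2⟩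
  · exact Or.inr ⟨_, S.rho_rt x, h1.rho, fun _ => h1.old⟩

theorem qz_base (B : BS G d g mk q q0 r' h) (hm : mk S.t S.h) (hq : 1 ≤ q0)
    {x v y : Z'} (hx : S.mkk mk x v) (hy : S.mkk mk y v) {a b u : Z} (ha : S.Rho x a)
    (hb : S.Rho y b) (hd : S.Dis x y) (hu : u ∈ g a b) : d' (S.ι u) v ≤ q0 := by
  rcases S.mkk_cases' B hx with ⟨a₀, c, h1, rfl, rfl⟩ | ⟨c, c1, c2, c3⟩
  · obtain rfl := (S.rho_ι _ _).1 ha
    refine (S.d_ι _ _).trans ?_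
    rcases S.mkk_cases' B hy with ⟨b₀, c', h2, rfl, h3⟩ | ⟨c', c4, c5, -⟩
    · obtain rfl := (S.rho_ι _ _).1 hb
      obtain rfl := S.ι_inj h3
      exact B.qz _ _ _ _ h1 (B.mk_symm _ _ h2) hu
    · obtain rfl := (S.rho_ι _ _).1 c5
      exact S.qz_half B hm hq h1 c4 hb hu
  · rcases S.mkk_cases' B hy with ⟨b₀, c', h2, rfl, rfl⟩ | ⟨c', c4, c5, c6⟩
    · obtain rfl := (S.rho_ι _ _).1 hb
      obtain rfl := (S.rho_ι _ _).1 c2
      exact (S.d_ι _ _).trans (S.qz_half B hm hq h2 c1 ha (B.symm _ _ _ hu))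
    · have hcc : c ≠ c' := fun hh => hd c c1 (hh ▸ c4)
      have hv := (S.rho_two_onL c2 c5 hcc).not_old
      obtain rfl := ((c3 hv).rho.1 ha).trans ((c3 hv).rho.1 c1).symm
      obtain rfl := ((c6 hv).rho.1 hb).trans ((c6 hv).rho.1 c4).symm
      exact (S.rho_near B hm c2 c5 hcc hu).trans hq

theorem gg_qz (B : BS G d g mk q q0 r' h) (hm : mk S.t S.h) (hq : 1 ≤ q0)
    (x v y p : Z') (hx : S.mkk mk x v) (hy : S.mkk mk v y) (hp : p ∈ S.gg g x y) :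
    d' p v ≤ q0 := by
  have hy' := S.mkk_symm B hy
  rcases hp with rfl | rfl | ⟨δ, a, b, u, h1, h2, h3, h4, rfl⟩
  · exact (S.mkk_d B hx).trans hq
  · exact (S.mkk_d B hy').trans hq
  · have := S.qz_base B hm hq (S.mkk_smul δ⁻¹ hx) (S.mkk_smul δ⁻¹ hy') h1 h2 h3 h4
    rwa [← S.inv' δ, smul_inv_smul] at this

/-! Chains. -/

theorem con_smul (γ : G') {x y a b : Z'} (hc : Con d' r' (S.gg g x y) a b) :
    Con d' r' (S.gg g (γ • x) (γ • y)) (γ • a) (γ • b) :=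
  hc.map (fun p => γ • p) (fun _ _ => (S.inv' _ _ _).le) fun _ hp => S.gg_smul γ hp

theorem con_base (B : BS G d g mk q q0 r' h) {x y : Z'} {a b : Z} (ha : S.Rho x a)
    (hb : S.Rho y b) (hd : S.Dis x y) : Con d' r' (S.gg g x y) (S.ι a) (S.ι b) :=
  (con_iff.2 (B.guess.conn a b)).map S.ι S.d_ι fun _ hu => S.gg_ι ha hb hd hu

theorem con_old_base (B : BS G d g mk q q0 r' h) (γ : G') (z z₀ : Z) :
    Con d' r' (S.gg g (S.ι z₀) (γ • S.ι z)) (S.ι z₀) (γ • S.ι z) := by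
  induction hn : S.len γ using Nat.strong_induction_on generalizing γ z₀ with
  | _ n ih =>
    have hy := S.old_smul_ι γ z
    have key : Con d' r' (S.gg g (S.ι (S.rt (γ • S.ι z))) (γ • S.ι z)) (S.ι (S.rt (γ • S.ι z)))
        (γ • S.ι z) := by
      by_cases hγ : γ ∈ S.φ.range
      · obtain ⟨c, rfl⟩ := hγ
        rw [S.rt_φ_ι, S.ι_smul]
        exact Con.refl (S.gg_left _ _)
      · obtain ⟨σ, a₁, e1, e2⟩ := S.next γ hγ z
        have := S.con_smul σ (ih _ (hn ▸ e2) (σ⁻¹ * γ) a₁ rfl)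
        rwa [mul_smul, smul_inv_smul, e1] at this
    by_cases h0 : z₀ = S.rt (γ • S.ι z)
    · rwa [h0]
    · have hd : S.Dis (S.ι z₀) (γ • S.ι z) := by rwa [S.dis_old (S.old_ι _) hy, S.rt_ι]
      have c1 := S.con_base B ((S.rho_ι z₀ z₀).2 rfl) (S.rho_rt _) hd
      refine c1.trans (key.mono ?_)
      rintro p (rfl | rfl | ⟨δ, a, b, u, h1, h2, h3, h4, rfl⟩)
      · exact S.gg_ι ((S.rho_ι z₀ z₀).2 rfl) (S.rho_rt _) hd (B.right _ _)
      · exact S.gg_right _ _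
      · rw [S.dis_old (S.old_smul_ι _ _) (hy.smul _)] at h3
        rcases S.rt_copy δ⁻¹ (S.rt (γ • S.ι z)) z₀ with ⟨c, hc⟩ | h5
        · exact absurd (by rw [hc, S.rt_φ_ι, S.rt_smul]) h3
        · refine Or.inr (Or.inr ⟨δ, a, b, u, ?_, h2, ?_, h4, rfl⟩)
          · rw [(S.old_smul_ι _ _).rho] at h1 ⊢
            exact h1.trans h5
          · rwa [S.dis_old (S.old_smul_ι _ _) (hy.smul _), ← h5]

theorem con_old (B : BS G d g mk q q0 r' h) {x y : Z'} (hx : S.Old x) (hy : S.Old y) :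
    Con d' r' (S.gg g x y) x y := by
  obtain ⟨δ, z₀, rfl⟩ := hx
  obtain ⟨γ, z, rfl⟩ := hy
  have := S.con_smul δ (S.con_old_base B (δ⁻¹ * γ) z z₀)
  rwa [mul_smul, smul_inv_smul] at this

/-- An old point belongs to every guessed geodesic that it guards. -/
theorem mem_gg (B : BS G d g mk q q0 r' h) {x y p p' : Z'} (hp : S.Old p) (hp' : S.Old p')
    (hne : p' ≠ p) (h1 : ∀ σ : G', S.Rho (σ • x) (S.rt (σ • p)))
    (h3 : ∀ σ : G', S.Dis (σ • p) (σ • p') → S.Dis (σ • x) (σ • y)) : p ∈ S.gg g x y := by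
  obtain ⟨σ, a₁, e1, e2⟩ := S.first_old hp hp' hne
  have e3 : S.rt (σ⁻¹ • p) = a₁ := by rw [← e1, inv_smul_smul, S.rt_ι]
  exact Or.inr (Or.inr ⟨σ, a₁, _, a₁, e3 ▸ h1 σ⁻¹, S.rho_rt _,
    h3 _ (by rw [S.dis_old (hp.smul _) (hp'.smul _), e3]; exact e2.symm), B.left _ _, e1.symm⟩)

theorem gg_sub (B : BS G d g mk q q0 r' h) {x y p p' : Z'} (hp : S.Old p) (hp' : S.Old p')
    (hne : p' ≠ p) (h1 : ∀ σ : G', S.Rho (σ • x) (S.rt (σ • p)))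
    (h2 : ∀ σ : G', S.Rho (σ • y) (S.rt (σ • p')))
    (h3 : ∀ σ : G', S.Dis (σ • p) (σ • p') → S.Dis (σ • x) (σ • y)) :
    S.gg g p p' ⊆ S.gg g x y := by
  rintro v (rfl | rfl | ⟨δ, a, b, u, e1, e2, e3, e4, rfl⟩)
  · exact S.mem_gg B hp hp' hne h1 h3
  · exact S.gg_symm B (S.mem_gg B hp' hp hne.symm h2 fun σ hd => (h3 σ hd.symm).symm)
  · exact Or.inr (Or.inr ⟨δ, a, b, u, (hp.smul _).rho.1 e1 ▸ h1 _, (hp'.smul _).rho.1 e2 ▸ h2 _,
      h3 _ e3, e4, rfl⟩)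

theorem con_cone_old (B : BS G d g mk q q0 r' h) (hr : 2 ≤ r') (γ : G') {y : Z'}
    (hy : S.Old y) : Con d' r' (S.gg g (γ • S.w) y) (γ • S.w) y := by
  obtain ⟨p, h1, h2⟩ := S.foot γ hy
  by_cases hne : y = p
  · exact Con.step (S.gg_left _ _) (S.gg_right _ _) ((hne ▸ h1.d_le).trans (by omega))
  · have c := (S.con_old B h1.old hy).mono
      (S.gg_sub B h1.old hy hne (fun σ => (h1.smul σ).rho) (fun σ => S.rho_rt _) h2)
    exact (Con.step (S.gg_left _ _) c.1 (h1.d_le.trans (by omega))).trans c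

theorem gg_con (B : BS G d g mk q q0 r' h) (hr : 2 ≤ r') (x y : Z') :
    Con d' r' (S.gg g x y) x y := by
  rcases S.cover x with hx | ⟨γ, rfl⟩ <;> rcases S.cover y with hy | ⟨δ, rfl⟩
  · exact S.con_old B hx hy
  · exact ((S.con_cone_old B hr δ hx).symm S.met').mono fun _ hp => S.gg_symm B hp
  · exact S.con_cone_old B hr γ hy
  · by_cases hc : ∀ p, S.OnL (γ • S.w) p → ¬ S.OnL (δ • S.w) p
    · obtain ⟨p, p', h1, h2, h3⟩ := S.feet γ δ hc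
      have c := (S.con_old B h1.old h2.old).mono (S.gg_sub B h1.old h2.old
        (fun hh => hc p h1 (hh ▸ h2)) (fun σ => (h1.smul σ).rho) (fun σ => (h2.smul σ).rho) h3)
      exact ((Con.step (S.gg_left _ _) c.1 (h1.d_le.trans (by omega))).trans c).trans
        (Con.step (c.symm S.met').1 (S.gg_right _ _) (h2.d_le'.trans (by omega)))
    · push Not at hc
      obtain ⟨p, h1, h2⟩ := hc
      have e1 := h1.d_le
      have e2 := h2.d_le'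
      have e3 := S.met'.tri (γ • S.w) p (δ • S.w)
      exact Con.step (S.gg_left _ _) (S.gg_right _ _) (by omega)

/-- BSL: the invariants pass to the next stage with the same constants. -/
theorem bsl (B : BS G d g mk q q0 r' h) (hm : mk S.t S.h) (h0 : 1 ≤ q0) (h1 : q0 + 1 ≤ q)
    (h2 : 2 * q + 1 ≤ h) (hr : 2 ≤ r') : BS G' d' (S.gg g) (S.mkk mk) q q0 r' h where
  symm := fun _ _ _ hp => S.gg_symm B hp
  left := S.gg_left
  smul := fun γ _ _ _ hp => S.gg_smul γ hp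
  mk_symm := fun _ _ hx => S.mkk_symm B hx
  mk_smul := fun γ _ _ hx => S.mkk_smul γ hx
  mk_d := fun _ _ hx => S.mkk_d B hx
  mk_g := fun _ _ _ hx hp => S.mkk_g B hx hp
  qs := fun _ _ _ _ hx hp => S.gg_qs B hm h1 _ _ _ _ hx hp
  qz := fun _ _ _ _ hx hy hp => S.gg_qz B hm h0 _ _ _ _ hx hy hp
  guess := ⟨S.gg_thin B hm h2, S.gg_small B (by omega), fun x y => con_iff.1 (S.gg_con B hr x y)⟩

end Gate

end Pool.Agent.Lib.MP_429c3d_al.Ng
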