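import Pool.Agent.Lib.MP_429c3d_al.HypGraph

set_option autoImplicit false

/-! Basic notions for the construction of a non abelian group with the law. -/

namespace Pool.Agent.Lib.MP_429c3d_al.Ng

open Pool.Agent.Lib.MP_429c3d_al.Hyp

/-- Betweenness. -/
def Btw {V : Type} (d : V → V → ℕ) (x z y : V) : Prop := d x z + d z y = d x y

section groups

variable {G : Type} [Group G]

/-- The sequence `c, c y c⁻¹, ...`. -/
def cs (y c : G) : ℕ → G
  | 0 => c
  | n + 1 => cs y c n * y * (cs y c n)⁻¹

/-- The law for one pair. -/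
def Law (m : ℕ) (y c : G) : Prop := cs y c m = y ^ m * c * (y ^ m)⁻¹

variable (G)

/-- Torsion free. -/
def TF : Prop := ∀ (g : G) (n : ℕ), n ≠ 0 → g ^ n = 1 → g = 1

/-- Conjugacy separation of centralisers. -/
def CSA : Prop := ∀ a g : G, a ≠ 1 → Commute (g * a * g⁻¹) a → Commute g a

/-- Commutation is transitive. -/
def CT : Prop := ∀ a b c : G, b ≠ 1 → Commute a b → Commute b c → Commute a c

/-- Injectivity of the step map. -/
def QQ : Prop :=
  ∀ y s t z : G, y ≠ 1 → Commute z y → t * y * t⁻¹ = s * y * s⁻¹ * z → z = 1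

/-- No element is the product of its own successor with an element of the centraliser. -/
def P1 : Prop :=
  ∀ y a f : G, y ≠ 1 → Commute a y → f * y * f⁻¹ = a⁻¹ * f → Commute f y

variable {G}

/-- Pairs some iterate of which is conjugate into the image of `L0`. -/
def LT {G0 : Type} [Group G0] (b : G0 →* G) (L0 : G0 → G0 → Prop) (y c : G) : Prop :=
  ∃ (k : ℕ) (g : G) (y0 c0 : G0), L0 y0 c0 ∧ g * y * g⁻¹ = b y0 ∧ g * cs y c k * g⁻¹ = b c0

/-- Sets of pairs closed under conjugation and under predecessors. -/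
structure Clo (L : G → G → Prop) : Prop where
  conj : ∀ g y c, L y c → L (g * y * g⁻¹) (g * c * g⁻¹)
  pre : ∀ y c, L y (c * y * c⁻¹) → L y c

/-- Treated pairs: some iterate satisfies the law or is conjugate to an iterate of a listed pair. -/
def Tr {T : Type} (m : ℕ) (Y C : T → G) (y c : G) : Prop :=
  ∃ k : ℕ, Law m y (cs y c k) ∨
    ∃ (g : G) (τ : T) (j : ℕ), g * y * g⁻¹ = Y τ ∧ g * cs y c k * g⁻¹ = cs (Y τ) (C τ) j

theorem cs_succ' (y c : G) (n : ℕ) : cs y c (n + 1) = cs y (c * y * c⁻¹) n := by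
  induction n with
  | zero => rfl
  | succ n ih => rw [cs, ih]; rfl

theorem cs_add (y c : G) (i j : ℕ) : cs y (cs y c i) j = cs y c (i + j) := by
  induction j with
  | zero => rfl
  | succ j ih => rw [cs, ih]; rfl

theorem map_cs {H : Type} [Group H] (f : G →* H) (y c : G) (n : ℕ) :
    f (cs y c n) = cs (f y) (f c) n := by
  induction n with
  | zero => rfl
  | succ n ih => simp [cs, ih]

theorem conj_cs (g y c : G) (n : ℕ) :
    g * cs y c n * g⁻¹ = cs (g * y * g⁻¹) (g * c * g⁻¹) n := by
  induction n with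
  | zero => rfl
  | succ n ih => rw [cs, cs, ← ih]; group

theorem LT_clo {G0 : Type} [Group G0] (b : G0 →* G) (L0 : G0 → G0 → Prop) : Clo (LT b L0) := by
  constructor
  · rintro g y c ⟨k, g', y0, c0, h1, h2, h3⟩
    refine ⟨k, g' * g⁻¹, y0, c0, h1, by rw [← h2]; group, ?_⟩
    rw [← conj_cs, ← h3]; group
  · rintro y c ⟨k, g', y0, c0, h1, h2, h3⟩
    exact ⟨k + 1, g', y0, c0, h1, h2, by rw [cs_succ']; exact h3⟩

end groups

section actions

variable (G : Type) [Group G] {V : Type} [MulAction G V]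

/-- Isometric actions. -/
def Isom (d : V → V → ℕ) : Prop := ∀ (g : G) (x y : V), d (g • x) (g • y) = d x y

/-- Free actions. -/
def Free (V : Type) [MulAction G V] : Prop := ∀ (g : G) (x : V), g • x = x → g = 1

/-- The acylindricity invariant. -/
def AI (d : V → V → ℕ) (B A : ℕ) : Prop :=
  ∀ (a b : G) (x x' : V), ¬ Commute a b → d x (a • x) ≤ B → d x (b • x) ≤ B →
    d x' (a • x') ≤ B → d x' (b • x') ≤ B → d x x' ≤ A

/-- Where a non trivial element is short, its centraliser has almost minimal displacement. -/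
def RC (d : V → V → ℕ) (B A : ℕ) : Prop :=
  ∀ (a y : G) (x x' : V), a ≠ 1 → Commute a y → d x (a • x) ≤ B → d x (y • x) ≤ d x' (y • x') + A

/-- An element with a fixed point is short only near the fixed point. -/
def TAm (d : V → V → ℕ) (c : ℕ) : Prop :=
  ∀ (a : G) (α x : V), a ≠ 1 → a • α = α → 2 * d x α ≤ d x (a • x) + c

variable {G}

/-- The pair has size at least `S`. -/
def Big (d : V → V → ℕ) (S : ℕ) (y c : G) : Prop :=
  ∀ x : V, S ≤ d x (y • x) ∨ S ≤ d x (c • x)

/-- The pair escapes to size `S` within `K` steps. -/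
def Esc (d : V → V → ℕ) (K S : ℕ) (y c : G) : Prop := ∃ j, j ≤ K ∧ Big d S y (cs y c j)

/-- The shortness constant. -/
def b1 (k : ℕ) : ℕ := 1000 * (k + 1)

variable (G)

/-- The standing assumptions of the lemmas about one level. -/
structure XL (d : V → V → ℕ) (k A : ℕ) : Prop where
  gr : IsGr d
  hyp : Hyp4 d k
  iso : Isom G d
  ne : Nonempty V
  tf : TF G
  csa : CSA G
  ct : CT G
  ai : AI G d (b1 k) A
  rc : RC G d (b1 k) A

/-- The invariants of a level. -/
structure Lev (d : V → V → ℕ) (k A S2 k0 m : ℕ) : Prop where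
  xl : XL G d k A
  cnt : Countable G
  free : Free G V
  qq : QQ G
  p1 : P1 G
  gt : ∀ y c : G, IsConj y c → ¬ Commute y c → Law m y c ∨ Esc d k0 S2 y c

end actions

end Pool.Agent.Lib.MP_429c3d_al.Ng
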