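import Pool.Agent.Lib.MP_429c3d_al.NgStep

set_option autoImplicit false

/-! The bipartite tree of copies and glue apices of a step, trivial common stabilisers. -/

namespace Pool.Agent.Lib.MP_429c3d_al.Ng

open Hyp

section Cut

variable {V : Type} {d : V → V → ℕ}

theorem cut_dist (hg : IsGr d) {u v : V} {C : Set V}
    (hC : ∀ a b, d a b = 1 → a ∈ C → b ∉ C → a = v ∧ b = u) {x y : V} (hx : x ∈ C)
    (hy : y ∉ C) : d x y = d x v + 1 + d u y := by
  obtain ⟨g, g0, g1, g2⟩ := hg.exists_geo x y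
  have ex : ∃ i, g i ∉ C := ⟨d x y, by rwa [g1]⟩
  classical
  have h1 := Nat.find_spec ex
  have h2 : Nat.find ex ≤ d x y := Nat.find_min' ex (by rwa [g1])
  obtain ⟨i, hi⟩ : ∃ i, Nat.find ex = i + 1 := by
    refine Nat.exists_eq_succ_of_ne_zero fun h => ?_
    rw [h, g0] at h1
    exact h1 hx
  have h3 := Nat.find_min ex (show i < Nat.find ex by omega)
  rw [hi] at h1 h2
  have e1 := g2 0 i le_rfl (Nat.zero_le _) (by omega)
  have e2 := g2 i (i + 1) (Nat.zero_le _) (by omega) h2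
  have e3 := g2 (i + 1) _ (Nat.zero_le _) h2 le_rfl
  obtain ⟨a1, a2⟩ := hC _ _ (by omega) (not_not.1 h3) h1
  rw [g0, a1] at e1
  rw [g1, a2] at e3
  omega

/-- A graph in which every edge is a bridge is `0`-hyperbolic. -/
theorem hyp4_of_cut (hg : IsGr d) (hc : ∀ u v, d u v = 1 → ∃ C : Set V, v ∈ C ∧ u ∉ C ∧
    ∀ a b, d a b = 1 → a ∈ C → b ∉ C → a = v ∧ b = u) : Hyp4 d 0 := by
  intro x y z w
  have m := hg.met
  have key := hg.induct x (P := fun _ w =>
      (d x y + d z w ≤ d x z + d y w ∨ d x y + d z w ≤ d x w + d y z) ∧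
      (d x z + d y w ≤ d x y + d z w ∨ d x z + d y w ≤ d x w + d y z) ∧
      (d x w + d y z ≤ d x y + d z w ∨ d x w + d y z ≤ d x z + d y w)) (by
      have := m.self x
      have := m.symm z x
      have := m.symm y x
      have := m.tri y x z
      omega) (by
      intro n u v h1 h2 h3 ih
      obtain ⟨C, hv, hu, hC⟩ := hc u v h3
      have hx : x ∉ C := fun hx => by
        have := cut_dist hg hC hx hu
        omega
      have out : ∀ p, p ∉ C → d p v = d p u + 1 := fun p hp => by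
        have := cut_dist hg hC hv hp
        have := m.self v
        have := m.symm p v
        have := m.symm p u
        omega
      have s1 := m.symm x y
      have s2 := m.symm x z
      have s3 := m.symm y z
      have s4 := m.symm u x
      have s5 := m.symm u y
      have s6 := m.symm u z
      have s7 := m.symm v z
      have s8 := m.symm v y
      have t1 := m.tri x u y
      have t2 := m.tri x u z
      have t3 := m.tri y v z
      by_cases hy : y ∈ C <;> by_cases hz : z ∈ C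
      · have := cut_dist hg hC hy hx
        have := cut_dist hg hC hz hx
        omega
      · have := cut_dist hg hC hy hx
        have := cut_dist hg hC hy hz
        have := out z hz
        omega
      · have := cut_dist hg hC hz hx
        have := cut_dist hg hC hz hy
        have := out y hy
        omega
      · have := out y hy
        have := out z hz
        omega) w
  simpa using key.1

theorem IsGr.step (hg : IsGr d) {x y : V} {n : ℕ} (h : d x y = n + 1) :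
    ∃ z, d x z = 1 ∧ d z y = n := by
  obtain ⟨z, h1, h2⟩ := hg.geo.mid hg.met x y (s := 1) (by omega)
  exact ⟨z, h1, by omega⟩

end Cut

variable {G G' Z Z' : Type} [Group G] [Group G'] [MulAction G Z] [MulAction G' Z']
  {d : Z → Z → ℕ} {d' : Z' → Z' → ℕ}

namespace Gate

variable (S : Gate G G' d d')

/-- Vertices of the tree: copies and glue apices. -/
def TV : Type := (G' ⧸ S.φ.range) ⊕ MulAction.orbit G' (S.ι S.t)

instance : MulAction G' S.TV :=
  inferInstanceAs (MulAction G' ((G' ⧸ S.φ.range) ⊕ MulAction.orbit G' (S.ι S.t)))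

/-- The base copy. -/
def C0 : S.TV := Sum.inl (QuotientGroup.mk 1)

/-- The apex vertex of a point of the orbit of `ι t`. -/
def av (x : MulAction.orbit G' (S.ι S.t)) : S.TV := Sum.inr x

/-- Apex vertices. -/
def tap (v : S.TV) : Prop := ∃ x, v = S.av x

theorem smul_C0 (γ : G') : γ • S.C0 = Sum.inl (QuotientGroup.mk γ) := by
  change Sum.inl (QuotientGroup.mk (γ * 1)) = _
  rw [mul_one]

theorem smul_av (γ : G') (x : MulAction.orbit G' (S.ι S.t)) : γ • S.av x = S.av (γ • x) := rfl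

theorem av_inj {x y : MulAction.orbit G' (S.ι S.t)} (h : S.av x = S.av y) : x = y :=
  Sum.inr.inj h

theorem smul_C0_ne (γ : G') (x : MulAction.orbit G' (S.ι S.t)) : γ • S.C0 ≠ S.av x := by
  rw [smul_C0]
  exact Sum.inl_ne_inr

theorem smul_C0_eq_iff (γ δ : G') : γ • S.C0 = δ • S.C0 ↔ γ⁻¹ * δ ∈ S.φ.range := by
  rw [smul_C0, smul_C0, ← QuotientGroup.eq]
  exact ⟨Sum.inl.inj, congrArg Sum.inl⟩

theorem stab_C0 (γ : G') : γ • S.C0 = S.C0 ↔ γ ∈ S.φ.range := by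
  have := S.smul_C0_eq_iff γ 1
  rwa [one_smul, mul_one, inv_mem_iff] at this

theorem tcover (v : S.TV) : (∃ γ : G', v = γ • S.C0) ∨ S.tap v := by
  rcases v with q | x
  · induction q using QuotientGroup.induction_on with
    | H γ => exact Or.inl ⟨γ, (S.smul_C0 γ).symm⟩
  · exact Or.inr ⟨x, rfl⟩

theorem not_tap (γ : G') : ¬ S.tap (γ • S.C0) := fun ⟨x, hx⟩ => S.smul_C0_ne γ x hx

theorem tap_smul (γ : G') (v : S.TV) : S.tap (γ • v) ↔ S.tap v := by
  constructor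
  · rintro ⟨x, hx⟩
    exact ⟨γ⁻¹ • x, by rw [← smul_av, ← hx, inv_smul_smul]⟩
  · rintro ⟨x, rfl⟩
    exact ⟨γ • x, rfl⟩

/-- The copy `u` contains the apex `v`. -/
def inc (u v : S.TV) : Prop :=
  ∃ (γ : G') (x : MulAction.orbit G' (S.ι S.t)) (z : Z),
    u = γ • S.C0 ∧ v = S.av x ∧ (x : Z') = γ • S.ι z

def tadj (u v : S.TV) : Prop := S.inc u v ∨ S.inc v u

theorem inc_smul (δ : G') {u v : S.TV} (h : S.inc u v) : S.inc (δ • u) (δ • v) := by
  obtain ⟨γ, x, z, rfl, rfl, h⟩ := h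
  exact ⟨δ * γ, δ • x, z, (mul_smul _ _ _).symm, rfl, by
    rw [mul_smul, ← h]; rfl⟩

theorem tadj_smul (δ : G') (u v : S.TV) (h : S.tadj u v) : S.tadj (δ • u) (δ • v) :=
  h.imp (S.inc_smul δ) (S.inc_smul δ)

theorem ι_t_mem (g : G) : S.ι (g • S.t) ∈ MulAction.orbit G' (S.ι S.t) :=
  ⟨S.φ g, (S.ι_smul g _).symm⟩

theorem ι_h_mem (g : G) : S.ι (g • S.h) ∈ MulAction.orbit G' (S.ι S.t) :=
  ⟨S.φ g * S.e, by simp only [mul_smul, S.e_t, S.ι_smul]⟩

theorem ι_mem_iff (z : Z) :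
    S.ι z ∈ MulAction.orbit G' (S.ι S.t) ↔ ∃ g : G, z = g • S.t ∨ z = g • S.h := by
  constructor
  · rintro ⟨γ, hγ⟩
    have hz : z = S.rt (γ • S.ι S.t) := by rw [show γ • S.ι S.t = S.ι z from hγ, S.rt_ι]
    by_cases h : γ ∈ S.φ.range
    · obtain ⟨g, rfl⟩ := h
      exact ⟨g, Or.inl (by rw [hz, S.rt_φ_ι])⟩
    · rw [hz]
      exact S.far_ap γ h S.t
  · rintro ⟨g, rfl | rfl⟩
    exacts [S.ι_t_mem g, S.ι_h_mem g]

theorem tconn (u v : S.TV) : Relation.ReflTransGen S.tadj u v := by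
  have tr : ∀ (δ : G') {a b : S.TV}, Relation.ReflTransGen S.tadj a b →
      Relation.ReflTransGen S.tadj (δ • a) (δ • b) := by
    intro δ a b h
    induction h with
    | refl => exact Relation.ReflTransGen.refl
    | tail _ h ih => exact ih.tail (S.tadj_smul δ _ _ h)
  have k1 : ∀ γ : G', Relation.ReflTransGen S.tadj S.C0 (γ • S.C0) := by
    intro γ
    induction hn : S.len γ using Nat.strong_induction_on generalizing γ with
    | _ n ih =>
      by_cases h : γ ∈ S.φ.range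
      · rw [(S.stab_C0 γ).2 h]
      · obtain ⟨σ, a, e1, e2⟩ := S.next γ h S.t
        have hm : S.ι (S.rt (γ • S.ι S.t)) ∈ MulAction.orbit G' (S.ι S.t) :=
          (S.ι_mem_iff _).2 (S.far_ap γ h S.t)
        have h1 : S.tadj S.C0 (S.av ⟨_, hm⟩) :=
          Or.inl ⟨1, _, _, (one_smul _ _).symm, rfl, (one_smul _ _).symm⟩
        have h2 : S.tadj (S.av ⟨_, hm⟩) (σ • S.C0) := Or.inr ⟨σ, _, a, rfl, rfl, e1.symm⟩
        have h3 := tr σ (ih _ (hn ▸ e2) (σ⁻¹ * γ) rfl)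
        rw [← mul_smul, mul_inv_cancel_left] at h3
        exact ((Relation.ReflTransGen.single h1).tail h2).trans h3
  have base : ∀ v, Relation.ReflTransGen S.tadj S.C0 v := by
    intro v
    rcases S.tcover v with ⟨γ, rfl⟩ | ⟨x, rfl⟩
    · exact k1 γ
    · obtain ⟨γ, hγ⟩ := x.2
      exact (k1 γ).tail (Or.inl ⟨γ, x, S.t, rfl, rfl, hγ.symm⟩)
  have sy : ∀ v, Relation.ReflTransGen S.tadj S.C0 v → Relation.ReflTransGen S.tadj v S.C0 := by
    intro v hv
    induction hv with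
    | refl => exact Relation.ReflTransGen.refl
    | tail _ h ih => exact Relation.ReflTransGen.head h.symm ih
  exact (sy u (base u)).trans (base v)

/-- The tree metric. -/
noncomputable def dT : S.TV → S.TV → ℕ := gd S.tadj

theorem dT_gr : IsGr S.dT := (gd_isGr (fun _ _ h => h.symm) S.tconn).1

theorem dT_inv (γ : G') (u v : S.TV) : S.dT (γ • u) (γ • v) = S.dT u v :=
  gd_smul S.tadj_smul γ u v

theorem inc_ap {u v : S.TV} (h : S.inc u v) : ¬ S.tap u ∧ S.tap v := by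
  obtain ⟨γ, x, z, rfl, rfl, -⟩ := h
  exact ⟨S.not_tap γ, x, rfl⟩

theorem dT_eq_one (u v : S.TV) : S.dT u v = 1 ↔ S.tadj u v := by
  have h1 := (gd_isGr (fun _ _ h => h.symm) S.tconn).2 u v
  constructor
  · intro h
    rcases h1.1 h.le with e | e
    · rw [e, S.dT_gr.met.self] at h
      exact absurd h (by decide)
    · exact e
  · intro h
    have h2 : S.dT u v ≤ 1 := h1.2 (Or.inr h)
    have h3 : S.dT u v ≠ 0 := fun h0 => by
      rw [S.dT_gr.sep u v h0] at h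
      rcases h with h | h <;> exact (S.inc_ap h).1 (S.inc_ap h).2
    omega

theorem dT_bip {u v : S.TV} (h : S.dT u v = 1) : S.tap u ↔ ¬ S.tap v := by
  rcases (S.dT_eq_one u v).1 h with h | h
  · exact ⟨fun a => absurd a (S.inc_ap h).1, fun a => absurd (S.inc_ap h).2 a⟩
  · exact ⟨fun _ => (S.inc_ap h).1, fun _ => (S.inc_ap h).2⟩

/-- The neighbours of a copy are the apices that it contains. -/
theorem dT_copy (γ : G') (v : S.TV) : S.dT (γ • S.C0) v = 1 ↔
    ∃ (x : MulAction.orbit G' (S.ι S.t)) (z : Z), v = S.av x ∧ (x : Z') = γ • S.ι z := by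
  rw [dT_eq_one]
  constructor
  · rintro (⟨δ, x, z, h1, rfl, h3⟩ | h)
    · obtain ⟨g, hg⟩ := (S.smul_C0_eq_iff γ δ).1 h1
      exact ⟨x, g • z, rfl, by rw [h3, S.ι_smul, hg, ← mul_smul, mul_inv_cancel_left]⟩
    · exact absurd (S.inc_ap h).2 (S.not_tap γ)
  · rintro ⟨x, z, rfl, h⟩
    exact Or.inl ⟨γ, x, z, rfl, rfl, h⟩

theorem dT_C0 (v : S.TV) : S.dT S.C0 v = 1 ↔ ∃ g : G,
    v = S.av ⟨_, S.ι_t_mem g⟩ ∨ v = S.av ⟨_, S.ι_h_mem g⟩ := by
  have := S.dT_copy 1 v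
  rw [one_smul] at this
  rw [this]
  constructor
  · rintro ⟨⟨x, hx⟩, z, rfl, h⟩
    rw [one_smul] at h
    obtain rfl : x = S.ι z := h
    obtain ⟨g, rfl | rfl⟩ := (S.ι_mem_iff z).1 hx
    exacts [⟨g, Or.inl rfl⟩, ⟨g, Or.inr rfl⟩]
  · rintro ⟨g, rfl | rfl⟩
    exacts [⟨_, _, rfl, (one_smul _ _).symm⟩, ⟨_, _, rfl, (one_smul _ _).symm⟩]

/-- The vertices seen from the base copy through the gate `a`. -/
def side (a : Z) : Set S.TV :=
  {v | (∃ γ : G', v = γ • S.C0 ∧ γ ∉ S.φ.range ∧ S.rt (γ • S.ι S.t) = a) ∨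
    ∃ x, v = S.av x ∧ S.rt x = a}

theorem mem_side_copy (a : Z) (γ : G') :
    γ • S.C0 ∈ S.side a ↔ γ ∉ S.φ.range ∧ ∀ z, S.rt (γ • S.ι z) = a := by
  constructor
  · rintro (⟨δ, h1, h2, h3⟩ | ⟨x, h1, -⟩)
    · obtain ⟨g, hg⟩ := (S.smul_C0_eq_iff δ γ).1 h1.symm
      have e : γ = δ * S.φ g := by rw [hg, mul_inv_cancel_left]
      refine ⟨fun h => h2 ?_, fun z => ?_⟩
      · rw [e] at h
        exact (Subgroup.mul_mem_cancel_right _ (MonoidHom.mem_range.2 ⟨g, rfl⟩)).1 h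
      · rw [e, mul_smul, ← S.ι_smul, S.far δ h2 _ S.t, h3]
    · exact absurd h1 (S.smul_C0_ne γ x)
  · rintro ⟨h1, h2⟩
    exact Or.inl ⟨γ, rfl, h1, h2 _⟩

theorem mem_side_av (a : Z) (x : MulAction.orbit G' (S.ι S.t)) :
    S.av x ∈ S.side a ↔ S.rt x = a := by
  constructor
  · rintro (⟨δ, h1, -⟩ | ⟨y, h1, h2⟩)
    · exact absurd h1.symm (S.smul_C0_ne δ x)
    · rwa [S.av_inj h1]
  · exact fun h => Or.inr ⟨x, rfl, h⟩

theorem side_inc (a : Z) {u v : S.TV} (h : S.inc u v) :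
    (u ∈ S.side a ↔ v ∈ S.side a) ∨
      (u = S.C0 ∧ (v ∈ S.side a → ∃ x, v = S.av x ∧ (x : Z') = S.ι a)) := by
  obtain ⟨γ, x, z, rfl, rfl, h⟩ := h
  rw [mem_side_copy, mem_side_av, h]
  by_cases hγ : γ ∈ S.φ.range
  · refine Or.inr ⟨(S.stab_C0 γ).2 hγ, fun hh => ⟨x, rfl, ?_⟩⟩
    obtain ⟨g, rfl⟩ := hγ
    rw [S.rt_φ_ι] at hh
    rw [h, ← hh, S.ι_smul]
  · exact Or.inl ⟨fun hh => hh.2 z, fun hh => ⟨hγ, fun z' => (S.far γ hγ z' z).trans hh⟩⟩

theorem C0_not_mem_side (a : Z) : S.C0 ∉ S.side a := fun h => by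
  rw [← one_smul G' S.C0, mem_side_copy] at h
  exact h.1 (Subgroup.one_mem _)

theorem inc_cut {u v : S.TV} (h : S.inc u v) : ∃ C : Set S.TV, v ∈ C ∧ u ∉ C ∧
    ∀ a b, S.tadj a b → a ∈ C → b ∉ C → a = v ∧ b = u := by
  obtain ⟨γ, x, z, rfl, rfl, h⟩ := h
  refine ⟨{p | γ⁻¹ • p ∈ S.side z}, ?_, ?_, fun a b hab ha hb => ?_⟩
  · change S.av (γ⁻¹ • x) ∈ S.side z
    rw [mem_side_av]
    change S.rt (γ⁻¹ • (x : Z')) = z
    rw [h, inv_smul_smul, S.rt_ι]
  · change γ⁻¹ • γ • S.C0 ∉ S.side z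
    rw [inv_smul_smul]
    exact S.C0_not_mem_side z
  · change γ⁻¹ • a ∈ S.side z at ha
    change γ⁻¹ • b ∉ S.side z at hb
    rcases S.tadj_smul γ⁻¹ a b hab with h1 | h1
    · rcases S.side_inc z h1 with h2 | ⟨h2, -⟩
      · exact absurd (h2.1 ha) hb
      · exact absurd (h2 ▸ ha) (S.C0_not_mem_side z)
    · rcases S.side_inc z h1 with h2 | ⟨h2, h3⟩
      · exact absurd (h2.2 ha) hb
      · obtain ⟨y, e1, e2⟩ := h3 ha
        refine ⟨?_, by rw [← h2, smul_inv_smul]⟩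
        rw [inv_smul_eq_iff] at e1
        rw [e1, smul_av]
        congr 1
        refine Subtype.ext ?_
        change γ • (y : Z') = x
        rw [e2, h]

theorem dT_hyp : Hyp4 S.dT 0 := by
  refine hyp4_of_cut S.dT_gr fun u v h => ?_
  simp only [S.dT_eq_one] at h ⊢
  rcases h with h | h
  · exact S.inc_cut h
  · obtain ⟨C, h1, h2, h3⟩ := S.inc_cut h
    exact ⟨Cᶜ, h2, fun hh => hh h1, fun a b hab ha hb =>
      (h3 b a hab.symm (not_not.1 hb) ha).symm⟩

/-! Trivial common stabilisers. -/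

theorem e_zpow_not_mem {j : ℤ} (hj : j ≠ 0) : S.e ^ j ∉ S.φ.range := by
  rintro ⟨g, hg⟩
  have key : ∀ (g : G) (j : ℤ), 0 < j → S.φ g = S.e ^ j → False := by
    intro g j hj hg
    have e0 := S.rt_zpow j
    have e1 := S.rt_zpow (j + 1)
    rw [← hg, S.rt_φ_ι, if_pos (by omega)] at e0
    rw [zpow_add_one, mul_smul, S.e_t, ← hg, S.rt_φ_ι, if_pos (by omega)] at e1
    exact S.th (smul_left_cancel g (e0.trans e1.symm))
  rcases lt_or_gt_of_ne hj with h | h
  · have e0 := S.rt_zpow j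
    have e1 := S.rt_zpow (j + 1)
    rw [← hg, S.rt_φ_ι, if_neg (by omega)] at e0
    rw [zpow_add_one, mul_smul, S.e_t, ← hg, S.rt_φ_ι, if_neg (by omega)] at e1
    exact S.th (smul_left_cancel g (e0.trans e1.symm))
  · exact key g j h hg

theorem rt_e_zpow {j : ℤ} (hj : j ≠ 0) (z : Z) :
    S.rt (S.e ^ j • S.ι z) = if 1 ≤ j then S.h else S.t := by
  rw [S.far _ (S.e_zpow_not_mem hj) z S.t, S.rt_zpow]

/-- The position of an old point along the basic line. -/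
theorem exists_pos : ∃ J : Z' → ℤ, (∀ x, S.Old x → ∀ k : ℤ, J (S.e ^ k • x) = J x + k) ∧
    ∀ x y, S.Old x → S.Old y → (∀ k : ℤ, S.rt (S.e ^ k • x) = S.rt (S.e ^ k • y)) → J x = J y := by
  have ex : ∀ x : Z', ∃ j : ℤ, S.Old x → S.rt (S.e ^ (-j) • x) ≠ S.h ∧
      ∀ i, i < j → S.rt (S.e ^ (-i) • x) = S.h := by
    intro x
    by_cases hx : S.Old x
    · obtain ⟨γ, z, rfl⟩ := hx
      obtain ⟨j, h1, h2, -⟩ := S.line γ z
      exact ⟨j, fun _ => ⟨h1, h2⟩⟩
    · exact ⟨0, fun h => absurd h hx⟩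
  choose J hJ using ex
  have uq : ∀ x, S.Old x → ∀ j : ℤ, S.rt (S.e ^ (-j) • x) ≠ S.h →
      (∀ i, i < j → S.rt (S.e ^ (-i) • x) = S.h) → J x = j := by
    intro x hx j h1 h2
    rcases lt_trichotomy (J x) j with h | h | h
    · exact absurd (h2 _ h) (hJ x hx).1
    · exact h
    · exact absurd ((hJ x hx).2 _ h) h1
  refine ⟨J, fun x hx k => uq _ (hx.smul _) _ ?_ fun i hi => ?_, fun x y hx hy h =>
    uq x hx _ (by rw [h]; exact (hJ y hy).1) fun i hi => by rw [h]; exact (hJ y hy).2 i hi⟩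
  · rw [← mul_smul, ← zpow_add, show -(J x + k) + k = -J x by ring]
    exact (hJ x hx).1
  · rw [← mul_smul, ← zpow_add, show -i + k = -(i - k) by ring]
    exact (hJ x hx).2 _ (by omega)

theorem e_zpow_old {j : ℤ} {x : Z'} (hx : S.Old x) (h : S.e ^ j • x = x) : j = 0 := by
  obtain ⟨J, h1, -⟩ := S.exists_pos
  have := h1 x hx j
  rw [h] at this
  omega

/-- An element that conjugates a power of `e` to a power of `e` crosses the basic line. -/
theorem exists_cross {j k : ℤ} (hj : j ≠ 0) {δ : G'} (h : S.e ^ j * δ = δ * S.e ^ k) :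
    ∃ (m i : ℤ) (g : G), S.e ^ m * δ * S.e ^ i = S.φ g := by
  by_contra hn
  have hn' : ∀ m i : ℤ, S.e ^ m * δ * S.e ^ i ∉ S.φ.range := fun m i ⟨g, hg⟩ =>
    hn ⟨m, i, g, hg.symm⟩
  obtain ⟨J, h1, h2⟩ := S.exists_pos
  have ho : ∀ i : ℤ, S.Old (δ • S.e ^ i • S.ι S.t) := fun i => (S.old_smul_ι _ _).smul δ
  have st : ∀ i : ℤ, J (δ • S.e ^ (i + 1) • S.ι S.t) = J (δ • S.e ^ i • S.ι S.t) := by
    intro i
    refine h2 _ _ (ho _) (ho _) fun m => ?_
    rw [zpow_add_one, mul_smul, S.e_t]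
    simp only [← mul_smul, ← mul_assoc]
    exact S.far _ (hn' m i) _ _
  have all : ∀ i : ℤ, J (δ • S.e ^ i • S.ι S.t) = J (δ • S.e ^ (0 : ℤ) • S.ι S.t) := by
    intro i
    induction i using Int.induction_on with
    | zero => rfl
    | succ i ih => rw [st, ih]
    | pred i ih => rw [← st, sub_add_cancel, ih]
  have e1 := all k
  have e2 := h1 _ (ho 0) j
  rw [← mul_smul, ← h, mul_smul] at e1
  rw [zpow_zero, one_smul] at e1 e2
  omega

theorem conj_e (h2 : ∀ (a : G) (x y : Z), a • x = x → a • y = y → x ≠ y → a = 1)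
    (hs : ∀ g : G, g • S.t = S.h → g • S.h ≠ S.t) {j k : ℤ} (hj : j ≠ 0) {δ : G'}
    (h : S.e ^ j * δ = δ * S.e ^ k) : ∃ i : ℤ, δ = S.e ^ i := by
  obtain ⟨m, i, g, hg⟩ := S.exists_cross hj h
  have hk : k ≠ 0 := by
    rintro rfl
    rw [zpow_zero, mul_one, mul_eq_right] at h
    exact S.e_zpow_not_mem hj (h ▸ Subgroup.one_mem _)
  have e1 : S.e ^ j * S.φ g = S.φ g * S.e ^ k := by
    rw [← hg]
    calc S.e ^ j * (S.e ^ m * δ * S.e ^ i) = S.e ^ m * (S.e ^ j * δ) * S.e ^ i := by group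
      _ = S.e ^ m * (δ * S.e ^ k) * S.e ^ i := by rw [h]
      _ = S.e ^ m * δ * S.e ^ i * S.e ^ k := by group
  have e2 : S.e ^ (-j) * S.φ g = S.φ g * S.e ^ (-k) := by
    rw [zpow_neg, zpow_neg, inv_mul_eq_iff_eq_mul, ← mul_assoc, e1, mul_inv_cancel_right]
  have a1 := congrArg (fun γ => S.rt (γ • S.ι S.t)) e1
  have a2 := congrArg (fun γ => S.rt (γ • S.ι S.t)) e2
  simp only [mul_smul] at a1 a2
  rw [← S.ι_smul, S.rt_e_zpow hj, S.rt_smul, S.rt_e_zpow hk] at a1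
  rw [← S.ι_smul, S.rt_e_zpow (neg_ne_zero.2 hj), S.rt_smul, S.rt_e_zpow (neg_ne_zero.2 hk)] at a2
  have hg1 : g = 1 := by
    by_cases c1 : 1 ≤ j <;> by_cases c2 : 1 ≤ k
    · rw [if_pos c1, if_pos c2] at a1
      rw [if_neg (by omega), if_neg (by omega)] at a2
      exact h2 g _ _ a2.symm a1.symm S.th
    · rw [if_pos c1, if_neg c2] at a1
      rw [if_neg (by omega), if_pos (by omega)] at a2
      exact absurd a2.symm (hs g a1.symm)
    · rw [if_neg c1, if_pos c2] at a1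
      rw [if_pos (by omega), if_neg (by omega)] at a2
      exact absurd a1.symm (hs g a2.symm)
    · rw [if_neg c1, if_neg c2] at a1
      rw [if_pos (by omega), if_pos (by omega)] at a2
      exact h2 g _ _ a1.symm a2.symm S.th
  rw [hg1, map_one] at hg
  refine ⟨-m - i, ?_⟩
  calc δ = S.e ^ (-m) * (S.e ^ m * δ * S.e ^ i) * S.e ^ (-i) := by group
    _ = S.e ^ (-m - i) := by rw [hg]; group

/-- An element fixing `ι a` and an old point with another gate lies in the old group. -/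
theorem mem_range_of_fix {γ : G'} {a : Z} {y : Z'} (hy : S.Old y) (h1 : γ • S.ι a = S.ι a)
    (h2 : γ • y = y) (hne : S.rt y ≠ a) : γ ∈ S.φ.range := by
  by_contra hγ
  have := S.other_old hy hγ h1 hne
  rw [inv_smul_eq_iff.2 h2.symm] at this
  exact hne this

/-- Two different points of the new space have trivial common stabiliser. -/
theorem free2 (h2 : ∀ (a : G) (x y : Z), a • x = x → a • y = y → x ≠ y → a = 1)
    (hs : ∀ g : G, g • S.t = S.h → g • S.h ≠ S.t) (γ : G') (x y : Z') (hx : γ • x = x)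
    (hy : γ • y = y) (hne : x ≠ y) : γ = 1 := by
  have cw : ∀ (δ : G') (y : Z'), γ • δ • S.w = δ • S.w → γ • y = y → δ • S.w ≠ y → γ = 1 := by
    intro δ y h1 h3 h4
    obtain ⟨j, hj⟩ := S.stab_w (δ⁻¹ * γ * δ) (by rw [mul_smul, mul_smul, h1, inv_smul_smul])
    suffices j = 0 by
      rw [this, zpow_zero] at hj
      calc γ = δ * (δ⁻¹ * γ * δ) * δ⁻¹ := by group
        _ = 1 := by rw [hj]; group
    have h5 : S.e ^ j • δ⁻¹ • y = δ⁻¹ • y := by
      rw [← hj, mul_smul, mul_smul, smul_inv_smul, h3]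
    rcases S.cover y with hy' | ⟨σ, rfl⟩
    · exact S.e_zpow_old (Old.smul hy' _) h5
    · by_contra hj0
      obtain ⟨k, hk⟩ := S.stab_w ((δ⁻¹ * σ)⁻¹ * S.e ^ j * (δ⁻¹ * σ)) (by
        rw [mul_smul, mul_smul, mul_smul, h5, ← mul_smul δ⁻¹ σ, inv_smul_smul])
      obtain ⟨i, hi⟩ := S.conj_e h2 hs hj0 (δ := δ⁻¹ * σ) (k := k) (by rw [← hk]; group)
      refine h4 ?_
      rw [← smul_inv_smul δ (σ • S.w), ← mul_smul δ⁻¹ σ, hi, S.zpow_w]
  rcases S.cover x with ⟨δ, z, rfl⟩ | ⟨δ, rfl⟩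
  · rcases S.cover y with ⟨δ', z', rfl⟩ | ⟨δ', rfl⟩
    · obtain ⟨σ, a, e1, e2⟩ := S.exists_first_old (δ⁻¹ * δ') z' z (fun hh => hne (by
        rw [← hh, mul_smul, smul_inv_smul]))
      have f1 : ((δ * σ)⁻¹ * γ * (δ * σ)) • S.ι a = S.ι a := by
        rw [mul_smul, mul_smul, mul_smul δ, e1, hx, ← e1, ← mul_smul δ, inv_smul_smul]
      have f2 : ((δ * σ)⁻¹ * γ * (δ * σ)) • σ⁻¹ • (δ⁻¹ * δ') • S.ι z' =
          σ⁻¹ • (δ⁻¹ * δ') • S.ι z' := by
        simp only [mul_smul, mul_inv_rev, smul_inv_smul, hy]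
      obtain ⟨g, hg⟩ := S.mem_range_of_fix ((S.old_smul_ι _ _).smul _) f1 f2 e2
      rw [← hg] at f1 f2
      have g1 : g • a = a := S.ι_inj (by rw [S.ι_smul, f1])
      have g2 := congrArg S.rt f2
      rw [S.rt_smul] at g2
      rw [h2 g _ _ g2 g1 e2, map_one] at hg
      calc γ = (δ * σ) * ((δ * σ)⁻¹ * γ * (δ * σ)) * (δ * σ)⁻¹ := by group
        _ = 1 := by rw [← hg]; group
    · exact cw δ' _ hy hx hne.symm
  · exact cw δ _ hx hy hne

end Gate

end Pool.Agent.Lib.MP_429c3d_al.Ng
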