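import Pool.Agent.Lib.MP_429c3d_al.NgStab
import Pool.Agent.Lib.MP_429c3d_al.NgTree

set_option autoImplicit false

/-! Cocycles (labels) and functions on flags extend over a step. -/

namespace Pool.Agent.Lib.MP_429c3d_al.Ng

open Hyp HNNExtension

/-- A cocycle of an action with values in an abelian group. -/
def Coc {H X A : Type} [Group H] [MulAction H X] [CommGroup A] (c : H → X → A) : Prop :=
  ∀ g k x, c (g * k) x = c g (k • x) * c k x

section general

variable {H X A : Type} [Group H] [MulAction H X] [CommGroup A] {c : H → X → A}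

theorem Coc.one (h : Coc c) (x : X) : c 1 x = 1 := by
  have := h 1 1 x
  rw [one_mul, one_smul] at this
  exact left_eq_mul.1 this

theorem Coc.inv (h : Coc c) (g : H) (x : X) : c g⁻¹ (g • x) = (c g x)⁻¹ := by
  have := h g⁻¹ g x
  rw [inv_mul_cancel, h.one] at this
  exact eq_inv_of_mul_eq_one_left this.symm

theorem Coc.conj (h : Coc c) (g : H) {a : H} {x : X} (ha : a • x = x) :
    c (g * a * g⁻¹) (g • x) = c a x := by
  rw [h, h, inv_smul_smul, ha, h.inv, mul_inv_cancel_comm]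

theorem Coc.mul_fix (h : Coc c) (a : H) {b : H} {x : X} (hb : b • x = x) :
    c (a * b) x = c a x * c b x := by rw [h, hb]

theorem Coc.zpow_fix (h : Coc c) {a : H} {x : X} (ha : a • x = x) (j : ℤ) :
    c (a ^ j) x = c a x ^ j := by
  let f : MulAction.stabilizer H x →* A :=
    MonoidHom.mk' (fun u => c u x) fun u v => h.mul_fix u v.2
  exact map_zpow f ⟨a, ha⟩ j

/-- A cocycle that vanishes on stabilisers is a coboundary. -/
theorem Coc.cobound (h : Coc c) (h0 : ∀ a x, a • x = x → c a x = 1) :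
    ∃ κ : X → A, ∀ a x, κ (a • x) = κ x * c a x := by
  have ex : ∀ x : X, ∃ g : H, g • (Quotient.mk (MulAction.orbitRel H X) x).out = x := fun x =>
    (MulAction.orbitRel H X).symm (Quotient.mk_out (s := MulAction.orbitRel H X) x)
  choose τ hτ using ex
  refine ⟨fun x => c (τ x) (Quotient.mk (MulAction.orbitRel H X) x).out, fun a x => ?_⟩
  have e : Quotient.mk (MulAction.orbitRel H X) (a • x) = Quotient.mk _ x :=
    Quotient.sound (MulAction.mem_orbit x a)
  have h1 := hτ (a • x)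
  have h2 := hτ x
  simp only [e] at h1 ⊢
  generalize (Quotient.mk (MulAction.orbitRel H X) x).out = r at h1 h2 ⊢
  have h3 : ((τ (a • x))⁻¹ * (a * τ x)) • r = r := by
    rw [mul_smul, mul_smul, h2, inv_smul_eq_iff, h1]
  have h4 := h (τ (a • x)) ((τ (a • x))⁻¹ * (a * τ x)) r
  rw [mul_inv_cancel_left, h0 _ _ h3, h3, mul_one, h, h2] at h4
  rw [← h4, mul_comm]

/-- Extension of a function from a family of base points. -/
theorem exists_equi {N I : Type} [Nonempty N] (act : H → X → N → N)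
    (hm : ∀ g k x n, act (g * k) x n = act g (k • x) (act k x n)) (b : I → X) (f : I → N)
    (hc : ∀ (g : H) i j, g • b i = b j → act g (b i) (f i) = f j) :
    ∃ F : X → N, ∀ (g : H) i, F (g • b i) = act g (b i) (f i) := by
  classical
  refine ⟨fun x => if h : ∃ p : H × I, x = p.1 • b p.2 then
    act h.choose.1 (b h.choose.2) (f h.choose.2) else Classical.arbitrary N, fun g i => ?_⟩
  have h : ∃ p : H × I, g • b i = p.1 • b p.2 := ⟨(g, i), rfl⟩
  refine (dif_pos h).trans ?_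
  have h1 := h.choose_spec
  generalize h.choose = p at h1 ⊢
  have h2 : (p.1⁻¹ * g) • b i = b p.2 := by rw [mul_smul, h1, inv_smul_smul]
  rw [← hc _ _ _ h2, ← h2, ← hm, mul_inv_cancel_left]

/-- The permutation of `X × A` over `g` with multiplier `f`. -/
def skew (g : H) (f : X → A) : Equiv.Perm (X × A) where
  toFun p := (g • p.1, p.2 * f p.1)
  invFun p := (g⁻¹ • p.1, p.2 * (f (g⁻¹ • p.1))⁻¹)
  left_inv p := by simp
  right_inv p := by simp

theorem skew_mul (g k : H) (f f' : X → A) :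
    skew g f * skew k f' = skew (g * k) fun x => f (k • x) * f' x := by
  ext1 p
  change (g • k • p.1, p.2 * f' p.1 * f (k • p.1)) = ((g * k) • p.1, p.2 * (f (k • p.1) * f' p.1))
  rw [mul_smul, mul_assoc, mul_comm (f' p.1)]

theorem skew_inv (g : H) (f : X → A) : (skew g f)⁻¹ = skew g⁻¹ fun x => (f (g⁻¹ • x))⁻¹ :=
  Equiv.ext fun _ => rfl

theorem skew_inj {g k : H} {f f' : X → A} (h : skew g f = skew k f') : f = f' := by
  funext x
  have : 1 * f x = 1 * f' x := congrArg (fun p : Equiv.Perm (X × A) => (p (x, 1)).2) h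
  exact mul_left_cancel this

end general

namespace SlotD

variable {G Z : Type} [Group G] [MulAction G Z] {d : Z → Z → ℕ} (S : SlotD G d)

theorem w_ne_ι (γ : S.GG) (z : Z) : γ • S.w ≠ S.ι z := fun h =>
  S.w_ne γ⁻¹ z (by rw [← h, inv_smul_smul])

/-- Labels extend over the step; the values on the new letter at the tail and at the new cone
point are free. -/
theorem exists_coc {A : Type} [CommGroup A] {c : G → Z → A} (hc : Coc c)
    (hf : ∀ (a : G) (x y : Z), a • x = x → a • y = y → x ≠ y → a = 1)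
    (hφ : ∀ a (ha : a ∈ S.A), c (S.φ ⟨a, ha⟩ : G) S.h = c a S.t) (κ η : A) :
    ∃ c' : S.GG → S.ZZ → A, Coc c' ∧ (∀ g z, c' (S.em g) (S.ι z) = c g z) ∧
      c' S.e (S.ι S.t) = κ ∧ c' S.e S.w = η := by
  classical
  obtain ⟨c0, c0ι, c0n⟩ : ∃ c0 : G → S.ZZ → A, (∀ g z, c0 g (S.ι z) = c g z) ∧
      ∀ g y, y ∉ Set.range S.ι → c0 g y = 1 :=
    ⟨fun g y => if y ∈ Set.range S.ι then c g (S.rr S.t y) else 1,
      fun g z => by simp only [if_pos (Set.mem_range_self z), rr_ι], fun g y hy => if_neg hy⟩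
  have c0m : ∀ g k y, c0 (g * k) y = c0 g (S.em k • y) * c0 k y := by
    intro g k y
    by_cases hy : y ∈ Set.range S.ι
    · obtain ⟨z, rfl⟩ := hy
      rw [← ι_smul, c0ι, c0ι, c0ι, hc]
    · rw [c0n _ _ hy, c0n _ _ hy, c0n, mul_one]
      rintro ⟨z, hz⟩
      exact hy ⟨k⁻¹ • z, by rw [ι_smul, hz, map_inv, inv_smul_smul]⟩
  have c01 : ∀ y, c0 1 y = 1 := fun y => by
    have := c0m 1 1 y
    rw [map_one, one_smul, mul_one] at this
    exact left_eq_mul.1 this
  let act : MulAction S.A S.ZZ := MulAction.compHom _ (S.em.comp S.A.subtype)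
  have sm : ∀ (a : S.A) (y : S.ZZ), a • y = S.em a • y := fun _ _ => rfl
  have ec : ∀ (a : S.A) (y : S.ZZ), S.e • S.em a • y = S.em (S.φ a) • S.e • y := fun a y => by
    rw [← S.e_conj a.2, mul_smul, mul_smul, inv_smul_smul]
  obtain ⟨κ0, hκ0⟩ := Coc.cobound (H := S.A) (X := S.ZZ)
    (c := fun a y => c0 (S.φ a) (S.e • y) * (c0 a y)⁻¹) (by
      intro a b y
      simp only [map_mul, Subgroup.coe_mul, c0m, sm, ec, mul_inv]
      exact mul_mul_mul_comm _ _ _ _) (by
      intro a y hy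
      rw [sm] at hy
      by_cases ha : a = 1
      · subst ha
        simp only [map_one, Subgroup.coe_one, c01, inv_one, mul_one]
      by_cases h1 : y = S.ι S.t
      · subst h1
        rw [e_t, c0ι, c0ι, hφ a a.2, mul_inv_cancel]
      by_cases h2 : y ∈ Set.range S.ι
      · obtain ⟨z, rfl⟩ := h2
        exact absurd (Subtype.ext (hf a z S.t (S.em_smul_eq.1 hy) (S.At a a.2) fun e =>
          h1 (congrArg S.ι e))) ha
      rw [c0n _ _ h2, c0n, inv_one, mul_one]
      rintro ⟨z, hz⟩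
      have h2 := ec a y
      rw [hy, ← hz, eq_comm, em_smul_eq] at h2
      refine ha (S.φ.injective (Subtype.ext ?_))
      rw [map_one]
      refine hf _ z S.h h2 ((S.Bh _).1 (S.φ a).2) fun e => h1 ?_
      rwa [e, ← e_t, smul_left_cancel_iff, eq_comm] at hz)
  obtain ⟨κ1, hκ1, k1, k2⟩ : ∃ κ1 : S.ZZ → A, (∀ (a : S.A) y, κ1 (S.em a • y) =
      κ1 y * (c0 (S.φ a) (S.e • y) * (c0 a y)⁻¹)) ∧ κ1 (S.ι S.t) = κ ∧ κ1 S.w = η := by
    refine ⟨fun y => κ0 y * if y = S.ι S.t then (κ0 (S.ι S.t))⁻¹ * κ else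
      if ∃ a : S.A, y = S.em a • S.w then (κ0 S.w)⁻¹ * η else 1, fun a y => ?_, ?_, ?_⟩
    · have e1 : S.em a • y = S.ι S.t ↔ y = S.ι S.t := by
        rw [smul_eq_iff_eq_inv_smul, ← map_inv, ← ι_smul, S.At _ (inv_mem a.2)]
      have e2 : (∃ b : S.A, S.em a • y = S.em b • S.w) ↔ ∃ b : S.A, y = S.em b • S.w := by
        constructor
        · rintro ⟨b, hb⟩
          exact ⟨a⁻¹ * b, by rw [Subgroup.coe_mul, map_mul, mul_smul, ← hb, Subgroup.coe_inv,
            map_inv, inv_smul_smul]⟩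
        · rintro ⟨b, rfl⟩
          exact ⟨a * b, by rw [Subgroup.coe_mul, map_mul, mul_smul]⟩
      have := hκ0 a y
      rw [sm] at this
      simp only [e1, e2, this]
      exact mul_right_comm _ _ _
    · simp only [if_true, mul_inv_cancel_left]
    · have h1 : S.w ≠ S.ι S.t := by simpa using S.w_ne 1 S.t
      have h2 : ∃ a : S.A, S.w = S.em a • S.w := ⟨1, by simp⟩
      simp only [if_neg h1, if_pos h2, mul_inv_cancel_left]
  let ρ0 : G →* Equiv.Perm (S.ZZ × A) := MonoidHom.mk' (fun g => skew (S.em g) (c0 g)) (by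
    intro g k
    rw [skew_mul, map_mul]
    exact congrArg _ (funext (c0m g k)))
  let ρ : S.GG →* Equiv.Perm (S.ZZ × A) := HNNExtension.lift ρ0 (skew S.e κ1) (by
    intro a
    change skew S.e κ1 * skew (S.em a) (c0 a) = skew (S.em (S.φ a)) (c0 (S.φ a)) * skew S.e κ1
    rw [skew_mul, skew_mul, ← S.e_conj a.2, inv_mul_cancel_right]
    refine congrArg _ (funext fun y => ?_)
    rw [hκ1, mul_assoc, inv_mul_cancel_right, mul_comm])
  have ρem : ∀ g, ρ (S.em g) = skew (S.em g) (c0 g) := fun g => HNNExtension.lift_of _ _ _ g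
  have ρe : ρ S.e = skew S.e κ1 := HNNExtension.lift_t _ _ _
  have form : ∀ γ : S.GG, ∃ f, ρ γ = skew γ f := by
    intro γ
    induction γ using HNNExtension.induction_on with
    | of g => exact ⟨_, ρem g⟩
    | t => exact ⟨_, ρe⟩
    | mul γ δ h1 h2 =>
      obtain ⟨f, hf⟩ := h1
      obtain ⟨f', hf'⟩ := h2
      exact ⟨_, by rw [map_mul, hf, hf', skew_mul]⟩
    | inv γ h1 =>
      obtain ⟨f, hf⟩ := h1
      exact ⟨_, by rw [map_inv, hf, skew_inv]⟩
  choose c' hc' using form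
  refine ⟨c', fun γ δ y => ?_, fun g z => ?_, ?_, ?_⟩
  · have := map_mul ρ γ δ
    rw [hc', hc', hc', skew_mul] at this
    exact congrFun (skew_inj this) y
  · rw [skew_inj ((hc' _).symm.trans (ρem g)), c0ι]
  · rw [skew_inj ((hc' _).symm.trans ρe), k1]
  · rw [skew_inj ((hc' _).symm.trans ρe), k2]

/-- The values of the extended cocycle on arrows between points of the base copy. -/
theorem coc_mem {A : Type} [CommGroup A] {c' : S.GG → S.ZZ → A} (hc : Coc c') (U : Subgroup A)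
    (h0 : ∀ (g : G) z, S.Gl z → c' (S.em g) (S.ι z) ∈ U) (h1 : c' S.e (S.ι S.t) ∈ U)
    {γ : S.GG} {z z' : Z} (hz : S.Gl z) (e : γ • S.ι z = S.ι z') : c' γ (S.ι z) ∈ U := by
  induction hn : wlen γ using Nat.strong_induction_on generalizing γ z' with
  | _ n ih =>
    rcases S.trans_cases e with ⟨g, rfl, -⟩ | ⟨g, u, γ', o, k, m, -, -, rfl, -, e2, hl⟩
    · exact h0 g z hz
    rw [hc, hc, e2, tp_ap]
    refine mul_mem (mul_mem (h0 g _ (by simpa using S.gl_ap 1 u)) ?_) (ih _ (hn ▸ hl) e2 rfl)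
    rcases Int.units_eq_one_or u with rfl | rfl
    · rwa [tp_one, ap_neg_one]
    · rw [tp_neg_one, neg_neg, ap_one, ← e_t, hc.inv]
      exact inv_mem h1

/-- Two copies have at most one point in common. -/
theorem mem_range_of_two {γ : S.GG} {y y' z z' : Z} (h : γ • S.ι y = S.ι z)
    (h' : γ • S.ι y' = S.ι z') (hne : z ≠ z') : γ ∈ S.em.range := by
  by_contra hγ
  have := S.rr_far S.t hγ y y'
  rw [h, h', rr_ι, rr_ι] at this
  exact hne this

theorem eq_one_of_tw {γ : S.GG} (h : γ • S.ι S.t = S.ι S.t) (h' : γ • S.w = S.w) : γ = 1 := by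
  obtain ⟨j, rfl⟩ := S.stab_w γ h'
  have : j = 0 := S.gate.e_zpow_old (S.gate.old_ι S.t) h
  rw [this, zpow_zero]

/-- Functions on flags that transform by a rule `act` extend over the step; the values on the two
new flags are free. -/
theorem exists_flag {N : Type} (act : S.GG → S.ZZ → N → N) (h1 : ∀ x n, act 1 x n = n)
    (hm : ∀ γ δ x n, act (γ * δ) x n = act γ (δ • x) (act δ x n)) (R : Z → Z → Prop)
    (hR : ∀ z z', R z z' → z' ≠ z) (F : Z → Z → N)
    (hF : ∀ (g : G) z z', R z z' → F (g • z) (g • z') = act (S.em g) (S.ι z) (F z z'))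
    (x₁ x₂ : N) : ∃ F' : S.ZZ → S.ZZ → N,
      (∀ (γ : S.GG) z z', R z z' →
        F' (γ • S.ι z) (γ • S.ι z') = act γ (S.ι z) (F z z')) ∧
      (∀ γ : S.GG, F' (γ • S.ι S.t) (γ • S.w) = act γ (S.ι S.t) x₁) ∧
      ∀ γ : S.GG, F' (γ • S.w) (γ • S.ι S.t) = act γ S.w x₂ := by
  have : Nonempty N := ⟨x₁⟩
  let b : {p : Z × Z // R p.1 p.2} ⊕ Bool → S.ZZ × S.ZZ :=
    Sum.elim (fun p => (S.ι p.1.1, S.ι p.1.2)) fun o =>
      cond o (S.ι S.t, S.w) (S.w, S.ι S.t)
  let f : {p : Z × Z // R p.1 p.2} ⊕ Bool → N :=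
    Sum.elim (fun p => F p.1.1 p.1.2) fun o => cond o x₁ x₂
  have wn : ∀ (γ : S.GG) z, γ • S.ι z ≠ S.w := fun γ z e => S.w_ne γ z e.symm
  obtain ⟨F', hF'⟩ := exists_equi (H := S.GG) (X := S.ZZ × S.ZZ) (fun γ p n => act γ p.1 n)
    (fun γ δ p n => hm γ δ p.1 n) b f (by
      rintro γ (⟨⟨z, z'⟩, hz⟩ | _ | _) (⟨⟨y, y'⟩, hy⟩ | _ | _) e <;>
        obtain ⟨e1, e2⟩ := Prod.mk.inj e
      · obtain ⟨g, rfl⟩ := S.mem_range_of_two e1 e2 (hR _ _ hy).symm
        obtain rfl := S.em_smul_eq.1 e1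
        obtain rfl := S.em_smul_eq.1 e2
        exact (hF g z z' hz).symm
      · exact absurd e1 (wn _ _)
      · exact absurd e2 (wn _ _)
      · exact absurd e1 (S.w_ne_ι _ _)
      · rw [S.eq_one_of_tw e2 e1]
        exact h1 _ _
      · exact absurd e1 (S.w_ne_ι _ _)
      · exact absurd e2 (S.w_ne_ι _ _)
      · exact absurd e1 (wn _ _)
      · rw [S.eq_one_of_tw e1 e2]
        exact h1 _ _)
  exact ⟨fun x y => F' (x, y), fun γ z z' h => hF' γ (Sum.inl ⟨(z, z'), h⟩),
    fun γ => hF' γ (Sum.inr true), fun γ => hF' γ (Sum.inr false)⟩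

/-- Invariant functions on points extend over the step. -/
theorem exists_pt {K : Type} (F : Z → K) (hF : ∀ (g : G) z, F (g • z) = F z)
    (hth : F S.h = F S.t) (x : K) : ∃ F' : S.ZZ → K, (∀ (γ : S.GG) z, F' (γ • S.ι z) = F z) ∧
      ∀ γ : S.GG, F' (γ • S.w) = x := by
  have : Nonempty K := ⟨x⟩
  have gl : ∀ z, S.Gl z → F z = F S.t := by
    rintro _ ⟨g, rfl | rfl⟩
    · exact hF _ _
    · rw [hF, hth]
  obtain ⟨F', hF'⟩ := exists_equi (H := S.GG) (X := S.ZZ) (fun _ _ n => n)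
    (fun _ _ _ _ => rfl) (fun o : Option Z => o.elim S.w S.ι) (fun o => o.elim x F) (by
      rintro γ (_ | z) (_ | z') e
      · rfl
      · exact absurd e (S.w_ne_ι _ _)
      · exact absurd e.symm (S.w_ne _ _)
      · rcases S.orbit_cases e with ⟨g, -, rfl⟩ | ⟨-, h1, h2⟩
        · exact (hF g z).symm
        · exact (gl z h1).trans (gl z' h2).symm)
  exact ⟨F', fun γ z => hF' γ (some z), fun γ => hF' γ none⟩

end SlotD

end Pool.Agent.Lib.MP_429c3d_al.Ng
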