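import Pool.Agent.Lib.MP_429c3d_al.NgStL
import Pool.Agent.Lib.MP_429c3d_al.HypBlowH

set_option autoImplicit false

/-! The cusped space of a stage: definitions. -/

namespace Pool.Agent.Lib.MP_429c3d_al.Ng

open Hyp

variable {AA N K : Type} [CommGroup AA] {S : St AA N K}

/-- Points of the cusped space: flags with a depth, and points that are not apices. -/
@[ext]
structure Cu (H : S.OK) where
  a : S.Z
  n : S.Z
  i : ℕ
  ok : S.Fl a n ∨ (¬ S.ap a ∧ n = a ∧ i = 0)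

namespace Cu

variable {H : S.OK}

instance : MulAction S.G (Cu H) where
  smul g p := ⟨g • p.a, g • p.n, p.i, p.ok.imp (H.fl_smul g) fun h =>
    ⟨fun e => h.1 ((H.ap_smul_iff g _).1 e), by rw [h.2.1], h.2.2⟩⟩
  one_smul p := Cu.ext (one_smul _ p.a) (one_smul _ p.n) rfl
  mul_smul g g' p := Cu.ext (mul_smul g g' p.a) (mul_smul g g' p.n) rfl

theorem smul_a (g : S.G) (p : Cu H) : (g • p).a = g • p.a := rfl

theorem smul_n (g : S.G) (p : Cu H) : (g • p).n = g • p.n := rfl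

theorem smul_i (g : S.G) (p : Cu H) : (g • p).i = p.i := rfl

theorem fl {p : Cu H} (h : S.ap p.a) : S.Fl p.a p.n := p.ok.resolve_right fun e => e.1 h

/-- Vertical edges. -/
def Ver (p q : Cu H) : Prop := q.a = p.a ∧ q.n = p.n ∧ (q.i = p.i + 1 ∨ p.i = q.i + 1)

/-- Horizontal edges. -/
def Hor (dn : N → N → ℕ) (p q : Cu H) : Prop :=
  q.a = p.a ∧ q.i = p.i ∧ 1 ≤ p.i ∧ dn (S.nm p.a p.n) (S.nm p.a q.n) ≤ 2 ^ p.i

/-- Edges between different fibres. -/
def Crs (p q : Cu H) : Prop :=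
  p.i = 0 ∧ q.i = 0 ∧ S.d p.a q.a = 1 ∧ (S.ap p.a → p.n = q.a) ∧ (S.ap q.a → q.n = p.a)

/-- The metric of the fibres. -/
noncomputable def dF (dn : N → N → ℕ) : Cu H → Cu H → ℕ := gd fun p q => Ver p q ∨ Hor dn p q

/-- The metric of the cusped space. -/
noncomputable def dW (dn : N → N → ℕ) : Cu H → Cu H → ℕ :=
  gd fun p q => Ver p q ∨ Hor dn p q ∨ Crs p q

/-- A point over `x`. -/
noncomputable def pt (H : S.OK) (x : S.Z) : Cu H :=
  open Classical in
  if h : S.ap x then ⟨x, (H.nb x h).choose, 0, Or.inl ⟨h, (H.nb x h).choose_spec⟩⟩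
  else ⟨x, x, 0, Or.inr ⟨h, rfl, rfl⟩⟩

end Cu

end Pool.Agent.Lib.MP_429c3d_al.Ng
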