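import Pool.Agent.Lib.MP_429c3d_al.NgCu

set_option autoImplicit false

/-! The cusped space is a blow up of the stage. -/

namespace Pool.Agent.Lib.MP_429c3d_al.Ng

open Hyp

variable {AA N K : Type} [CommGroup AA] {S : St AA N K} {H : S.OK} {dn : N → N → ℕ}

namespace Cu

theorem ap_of_i {p : Cu H} (h : 1 ≤ p.i) : S.ap p.a := by
  rcases p.ok with e | e
  · exact e.1
  · have := e.2.2
    omega

theorem free : Free S.G (Cu H) := by
  intro g p h
  have ha : g • p.a = p.a := congrArg Cu.a h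
  have hn : g • p.n = p.n := congrArg Cu.n h
  rcases p.ok with e | e
  · refine H.two g p.a p.n ha hn fun e' => ?_
    have e2 := e.2
    rw [← e', H.gr.met.self] at e2
    omega
  · exact H.free g p.a e.1 ha

theorem pt_a (x : S.Z) : (pt H x).a = x := by
  unfold pt
  split_ifs <;> rfl

theorem pt_i (x : S.Z) : (pt H x).i = 0 := by
  unfold pt
  split_ifs <;> rfl

theorem eq_pt {p : Cu H} (h : ¬ S.ap p.a) : p = pt H p.a := by
  have e := p.ok.resolve_left fun e => h e.1
  unfold pt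
  rw [dif_neg h]
  exact Cu.ext rfl e.2.1 e.2.2

theorem Ver.smul {p q : Cu H} (h : Ver p q) (g : S.G) : Ver (g • p) (g • q) :=
  ⟨congrArg (g • ·) h.1, congrArg (g • ·) h.2.1, h.2.2⟩

theorem Hor.smul {p q : Cu H} (h : Hor dn p q) (g : S.G) : Hor dn (g • p) (g • q) := by
  obtain ⟨h1, h2, h3, h4⟩ := h
  have hp : S.ap p.a := ap_of_i h3
  have hq : S.Fl p.a q.n := h1 ▸ fl (p := q) (h1 ▸ hp)
  refine ⟨congrArg (g • ·) h1, h2, h3, ?_⟩
  rw [smul_a, smul_n, smul_n, H.nm_smul g _ _ (fl hp), H.nm_smul g _ _ hq]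
  exact h4

theorem Crs.smul {p q : Cu H} (h : Crs p q) (g : S.G) : Crs (g • p) (g • q) := by
  obtain ⟨h1, h2, h3, h4, h5⟩ := h
  refine ⟨h1, h2, by rw [smul_a, smul_a, H.iso]; exact h3, fun e => ?_, fun e => ?_⟩
  · exact congrArg (g • ·) (h4 ((H.ap_smul_iff g _).1 e))
  · exact congrArg (g • ·) (h5 ((H.ap_smul_iff g _).1 e))

theorem Ver.symm {p q : Cu H} (h : Ver p q) : Ver q p :=
  ⟨h.1.symm, h.2.1.symm, h.2.2.symm⟩

theorem Hor.symm (m : IsMet dn) {p q : Cu H} (h : Hor dn p q) : Hor dn q p := by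
  obtain ⟨h1, h2, h3, h4⟩ := h
  refine ⟨h1.symm, h2.symm, h2 ▸ h3, ?_⟩
  rw [h1, h2, m.symm]
  exact h4

theorem Crs.symm {p q : Cu H} (h : Crs p q) : Crs q p :=
  ⟨h.2.1, h.1, by rw [H.gr.met.symm]; exact h.2.2.1, h.2.2.2.2, h.2.2.2.1⟩

private theorem climb {p : Cu H} (h : S.ap p.a) (t : ℕ) :
    Relation.ReflTransGen (fun p q : Cu H => Ver p q ∨ Hor dn p q) p
      ⟨p.a, p.n, p.i + t, Or.inl (fl h)⟩ := by
  induction t with
  | zero => exact .refl
  | succ t ih => exact ih.tail (Or.inl ⟨rfl, rfl, Or.inl rfl⟩)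

private theorem symmF (m : IsMet dn) (p q : Cu H) (h : Ver p q ∨ Hor dn p q) :
    Ver q p ∨ Hor dn q p := h.imp Ver.symm (Hor.symm m)

private theorem rtg_symm {V : Type} {r : V → V → Prop} (hs : ∀ x y, r x y → r y x) {x y : V}
    (h : Relation.ReflTransGen r x y) : Relation.ReflTransGen r y x := by
  induction h with
  | refl => exact .refl
  | tail _ e ih => exact ih.head (hs _ _ e)

private theorem rtg_mono {V : Type} {r r' : V → V → Prop} (hs : ∀ x y, r x y → r' x y) {x y : V}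
    (h : Relation.ReflTransGen r x y) : Relation.ReflTransGen r' x y := by
  induction h with
  | refl => exact .refl
  | tail _ e ih => exact ih.tail (hs _ _ e)

private theorem connF (m : IsMet dn) {p q : Cu H} (e : p.a = q.a) :
    Relation.ReflTransGen (fun p q : Cu H => Ver p q ∨ Hor dn p q) p q := by
  by_cases h : S.ap p.a
  · have h' : S.ap q.a := e ▸ h
    have h1 := climb (dn := dn) h (q.i + dn (S.nm p.a p.n) (S.nm p.a q.n) + 1)
    have h2 := climb (dn := dn) h' (p.i + dn (S.nm p.a p.n) (S.nm p.a q.n) + 1)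
    refine (h1.tail ?_).trans (rtg_symm (symmF m) h2)
    refine Or.inr ⟨e.symm, ?_, ?_, ?_⟩
    · simp only
      omega
    · simp only
      omega
    · have := Nat.lt_two_pow_self (n := p.i + (q.i + dn (S.nm p.a p.n) (S.nm p.a q.n) + 1))
      simp only
      omega
  · rw [eq_pt h, eq_pt (p := q) (e ▸ h), e]

private theorem exists_end {u v : S.Z} (h : S.d u v = 1) :
    ∃ p : Cu H, p.a = u ∧ p.i = 0 ∧ (S.ap u → p.n = v) := by
  by_cases e : S.ap u
  · exact ⟨⟨u, v, 0, Or.inl ⟨e, h⟩⟩, rfl, rfl, fun _ => rfl⟩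
  · exact ⟨pt H u, pt_a u, pt_i u, fun e' => absurd e' e⟩

private theorem exists_crs {u v : S.Z} (h : S.d u v = 1) :
    ∃ p q : Cu H, p.a = u ∧ q.a = v ∧ Crs p q := by
  obtain ⟨p, p1, p2, p3⟩ := exists_end (H := H) h
  obtain ⟨q, q1, q2, q3⟩ := exists_end (H := H) (u := v) (v := u) (by rwa [H.gr.met.symm])
  refine ⟨p, q, p1, q1, p2, q2, by rwa [p1, q1], ?_, ?_⟩
  · rwa [p1, q1]
  · rwa [p1, q1]

private theorem gw_mono {V : Type} {r r' : V → V → Prop} (h : ∀ x y, r x y → r' x y) {n : ℕ}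
    {x y : V} (w : GW r n x y) : GW r' n x y := by
  obtain ⟨c, c0, cn, cs⟩ := w
  exact ⟨c, c0, cn, fun i hi => (cs i hi).imp_right (h _ _)⟩

private theorem gd_smul {G V : Type} [Group G] [MulAction G V] {r : V → V → Prop}
    (h : ∀ (g : G) x y, r x y → r (g • x) (g • y)) (g : G) (x y : V) :
    gd r (g • x) (g • y) = gd r x y := by
  have key : ∀ (g : G) n x y, GW r n x y → GW r n (g • x) (g • y) := by
    rintro g n x y ⟨c, c0, cn, cs⟩
    exact ⟨fun i => g • c i, by simp only [c0], by simp only [cn],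
      fun i hi => (cs i hi).imp (congrArg (g • ·)) (h g _ _)⟩
  unfold gd
  congr 1
  ext n
  refine ⟨fun w => ?_, key g n x y⟩
  simpa using key g⁻¹ n _ _ w

/-- Connected: two points of one fibre are joined by climbing high enough, neighbours of the
stage are joined by `Crs` edges, and the stage is connected (`IsGr.induct`). -/
theorem dW_gr (m : IsMet dn) : IsGr (dW (H := H) dn) ∧
    ∀ p q : Cu H, dW dn p q ≤ 1 ↔ p = q ∨ Ver p q ∨ Hor dn p q ∨ Crs p q := by
  have mono : ∀ {p q : Cu H}, p.a = q.a →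
      Relation.ReflTransGen (fun p q : Cu H => Ver p q ∨ Hor dn p q ∨ Crs p q) p q :=
    fun e => rtg_mono (fun _ _ h => h.imp_right Or.inl) (connF m e)
  refine gd_isGr (fun p q h => h.imp Ver.symm (Or.imp (Hor.symm m) Crs.symm)) fun p q => ?_
  refine H.gr.induct p.a (P := fun _ v => ∀ q : Cu H, q.a = v →
    Relation.ReflTransGen (fun p q : Cu H => Ver p q ∨ Hor dn p q ∨ Crs p q) p q)
    (fun q e => mono e.symm) ?_ q.a q rfl
  intro n u v _ _ h ih q e
  obtain ⟨p', q', e1, e2, c⟩ := exists_crs (H := H) h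
  exact ((ih p' e1).tail (Or.inr (Or.inr c))).trans (mono (e2.trans e.symm))

theorem dW_smul (g : S.G) (p q : Cu H) : dW dn (g • p) (g • q) = dW dn p q :=
  gd_smul (fun g _ _ h => h.imp (Ver.smul · g) (Or.imp (Hor.smul · g) (Crs.smul · g))) g p q

theorem i_le (m : IsMet dn) (p q : Cu H) : p.i ≤ q.i + dW dn p q := by
  refine (dW_gr m).1.induct p (P := fun n q => p.i ≤ q.i + n) le_rfl ?_ q
  intro n u v _ _ h ih
  rcases ((dW_gr m).2 u v).1 h.le with e | e | e | e
  · rw [← e]
    omega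
  · have := e.2.2
    omega
  · have := e.2.1
    omega
  · have := e.1
    have := e.2.1
    omega

theorem bact : BAct S.G (dW (H := H) dn) S.d (dF dn) Cu.a :=
  ⟨dW_smul, H.iso, fun g p q _ =>
    gd_smul (fun g _ _ h => h.imp (Ver.smul · g) (Hor.smul · g)) g p q, fun _ _ => rfl⟩

private theorem a_eq {p q : Cu H} (h : Ver p q ∨ Hor dn p q) : q.a = p.a := h.elim (·.1) (·.1)

private theorem dF_eq (v : S.Z) : (fun p q : {p : Cu H // p.a = v} => dF dn p.1 q.1) =
    gd fun p q : {p : Cu H // p.a = v} => Ver p.1 q.1 ∨ Hor dn p.1 q.1 := by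
  funext p q
  unfold dF gd
  congr 1
  ext n
  constructor
  · rintro ⟨c, c0, cn, cs⟩
    have hc : ∀ i, i ≤ n → (c i).a = v := by
      intro i
      induction i with
      | zero => exact fun _ => c0 ▸ p.2
      | succ i ih =>
        intro hi
        rcases cs i (by omega) with e | e
        · exact e ▸ ih (by omega)
        · exact (a_eq e).trans (ih (by omega))
    refine ⟨fun i => ⟨c (min i n), hc _ (min_le_right _ _)⟩, Subtype.ext (by simpa using c0),
      Subtype.ext (by simpa using cn), fun i hi => ?_⟩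
    have e1 : min i n = i := by omega
    have e2 : min (i + 1) n = i + 1 := by omega
    rcases cs i hi with e | e
    · exact Or.inl (Subtype.ext (by simpa only [e1, e2] using e))
    · exact Or.inr (by simpa only [e1, e2] using e)
  · rintro ⟨c, c0, cn, cs⟩
    exact ⟨fun i => (c i).1, congrArg Subtype.val c0, congrArg Subtype.val cn,
      fun i hi => (cs i hi).imp_left (congrArg Subtype.val)⟩

private theorem dF_gr (m : IsMet dn) (v : S.Z) :
    IsGr (fun p q : {p : Cu H // p.a = v} => dF dn p.1 q.1) ∧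
      ∀ p q : {p : Cu H // p.a = v}, dF dn p.1 q.1 ≤ 1 ↔ p = q ∨ Ver p.1 q.1 ∨ Hor dn p.1 q.1 := by
  have key := gd_isGr (adj := fun p q : {p : Cu H // p.a = v} => Ver p.1 q.1 ∨ Hor dn p.1 q.1)
    (fun p q => symmF m p.1 q.1) (fun p q => by
      have h : ∀ q : Cu H, Relation.ReflTransGen (fun p q : Cu H => Ver p q ∨ Hor dn p q) p.1 q →
          ∃ hq : q.a = v, Relation.ReflTransGen
            (fun p q : {p : Cu H // p.a = v} => Ver p.1 q.1 ∨ Hor dn p.1 q.1) p ⟨q, hq⟩ := by
        intro q h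
        induction h with
        | refl => exact ⟨p.2, .refl⟩
        | tail _ e ih =>
          obtain ⟨hb, ih⟩ := ih
          exact ⟨(a_eq e).trans hb, ih.tail e⟩
      exact (h q.1 (connF m (p.2.trans q.2.symm))).2)
  rw [← dF_eq] at key
  exact key

private theorem horo (m : IsMet dn) {v : S.Z} (hv : S.ap v) :
    Horo (fun p q : {p : Cu H // p.a = v} => dF dn p.1 q.1)
      (fun n n' => dn (S.nm v n) (S.nm v n')) (fun p => p.1.n) (fun p => p.1.i) := by
  obtain ⟨g, e⟩ := dF_gr (H := H) m v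
  refine ⟨g, ⟨fun _ => m.self _, fun _ _ => m.symm _ _, fun _ _ _ => m.tri _ _ _⟩,
    fun p q h1 h2 => Subtype.ext (Cu.ext (p.2.trans q.2.symm) h1 h2), fun p => ?_,
    fun p q h1 h2 h3 => ?_, fun p q h => ?_⟩
  · refine ⟨⟨⟨p.1.a, p.1.n, p.1.i + 1, Or.inl (fl (p.2.symm ▸ hv))⟩, p.2⟩, rfl, rfl, ?_⟩
    exact (e _ _).2 (Or.inr (Or.inl ⟨rfl, rfl, Or.inl rfl⟩))
  · refine (e _ _).2 (Or.inr (Or.inr ⟨q.2.trans p.2.symm, h1.symm, h2, ?_⟩))
    rw [p.2]
    exact h3
  · rcases (e _ _).1 h with h | h | h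
    · rw [h]
      exact Or.inl ⟨rfl, Nat.le_succ _, Nat.le_succ _⟩
    · have := h.2.2
      exact Or.inl ⟨h.2.1.symm, by omega, by omega⟩
    · have h4 := h.2.2.2
      rw [p.2] at h4
      exact Or.inr ⟨h.2.1.symm, h4⟩

/-- Proof: on the fibre of `v` the metric `dF` is the graph metric of the restricted relation
(walks stay in the fibre); for an apex `v` this is a `Horo` over `S.Z` with the pseudo-metric
`fun n n' => dn (S.nm v n) (S.nm v n')`, otherwise a point. For `detour`: if `p ≠ p'` then both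
have depth `0`, `p.n`, `p'.n` are the ends of the avoiding path, use `Det` and `Horo.upper` with
`n = D0 * (20 * k + 20) + 1`. -/
theorem blow (m : IsMet dn) {k D0 : ℕ} (hyp : Hyp4 S.d k)
    (det : Det S.d S.ap S.nm dn (20 * k + 20) D0) :
    Blow (dW (H := H) dn) S.d (dF dn) Cu.a k 12 (2 * (D0 * (20 * k + 20)) + 3) := by
  obtain ⟨g, e⟩ := dW_gr (H := H) m
  have d0 : ∀ {p q : Cu H}, q.a = p.a → S.d p.a q.a = 0 := fun h => by rw [h, H.gr.met.self]
  have crs : ∀ {p q : Cu H}, dW dn p q ≤ 1 → q.a ≠ p.a → Crs p q := by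
    intro p q h hne
    rcases (e _ _).1 h with h | h | h | h
    · exact absurd (by rw [h]) hne
    · exact absurd h.1 hne
    · exact absurd h.1 hne
    · exact h
  refine ⟨g, H.gr, hyp, fun v => (dF_gr m v).1, fun v => ?_, fun v => ⟨pt H v, pt_a v⟩,
    fun p q h => gd_le (gw_mono (fun _ _ h => h.imp_right Or.inl) (gw_gd (connF m h))),
    fun p q h h' => ?_, fun p q h => ?_, fun u v h => ?_, fun p p' q q' h h1 h2 av => ?_⟩
  · by_cases hv : S.ap v
    · exact (horo m hv).hyp
    · have one : ∀ p q : {p : Cu H // p.a = v}, p = q := fun p q => Subtype.ext (by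
        rw [eq_pt (p := p.1) (p.2.symm ▸ hv), eq_pt (p := q.1) (q.2.symm ▸ hv), p.2, q.2])
      intro x y z w
      rw [one y x, one z x, one w x]
      exact Or.inl (Nat.le_add_right _ _)
  · refine gd_le (GW.step ?_)
    rcases (e _ _).1 h' with h' | h' | h' | h'
    · exact Or.inl h'
    · exact Or.inr (Or.inl h')
    · exact Or.inr (Or.inr h')
    · have := h'.2.2.1
      have := d0 h.symm
      omega
  · by_cases hne : q.a = p.a
    · rw [d0 hne]
      omega
    · exact (crs h hne).2.2.1.le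
  · obtain ⟨p, q, e1, e2, c⟩ := exists_crs (H := H) h
    exact ⟨p, q, e1, e2, (e _ _).2 (Or.inr (Or.inr (Or.inr c)))⟩
  · have n12 : q.a ≠ p.a ∧ q'.a ≠ p.a := by
      obtain ⟨c, c0, cn, ca, -⟩ := av
      exact ⟨c0 ▸ ca 0 (Nat.zero_le _), cn ▸ ca _ le_rfl⟩
    have c1 := crs h1 n12.1
    have c2 := crs h2 (h ▸ n12.2)
    by_cases hv : S.ap p.a
    · have k1 := det p.a q.a q'.a _ hv le_rfl c1.2.2.1.le (h ▸ c2.2.2.1.le) av
      have k2 := (horo (H := H) m hv).upper ⟨p, rfl⟩ ⟨p', h.symm⟩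
        (n := D0 * (20 * k + 20) + 1) (by omega) (by simp only [c1.1]; omega)
        (by simp only [c2.1]; omega) (by
          simp only [c1.2.2.2.1 hv, c2.2.2.2.1 (h ▸ hv)]
          have := Nat.lt_two_pow_self (n := D0 * (20 * k + 20) + 1)
          omega)
      simp only at k2
      omega
    · rw [eq_pt hv, eq_pt (p := p') (h ▸ hv), ← h]
      exact (gd_le (GW.refl _)).trans (Nat.zero_le _)

end Cu

end Pool.Agent.Lib.MP_429c3d_al.Ng
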