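import Pool.Agent.Lib.MP_429c3d_al.NgSt
import Pool.Agent.Lib.MP_429c3d_al.HypBlowH

set_option autoImplicit false

/-! The abstract description of the cusped space and of the developed space. -/

namespace Pool.Agent.Lib.MP_429c3d_al.Ng

open Hyp

variable {AA N K T : Type} [CommGroup AA]

/-- The cusped space of a stage: apices are replaced by horoballs. -/
structure Cusp (S : St AA N K) (k D : ℕ) where
  W : Type
  [act : MulAction S.G W]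
  dW : W → W → ℕ
  dF : W → W → ℕ
  bar : W → S.Z
  dep : W → ℕ
  deep : W → Prop
  pt : S.Z → W
  blow : Blow dW S.d dF bar k 12 D
  bact : BAct S.G dW S.d dF bar
  free : Free S.G W
  ap_of_dep : ∀ w, 1 ≤ dep w → S.ap (bar w)
  up : ∀ w, S.ap (bar w) → ∃ w', bar w' = bar w ∧ 1 ≤ dep w' ∧ dW w w' ≤ 1
  bar_pt : ∀ x, bar (pt x) = x
  pt_smul : ∀ (g : S.G) x, ¬ S.ap x → pt (g • x) = g • pt x
  pt_le : ∀ x x', ¬ S.ap x → ¬ S.ap x' → S.d x x' ≤ 1 → dW (pt x) (pt x') ≤ 1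
  pt_deep : ∀ x, ¬ S.ap x → deep (pt x)

attribute [instance] Cusp.act

/-- A space with a family of labelled horoballs. -/
structure Dv (AA K : Type) [CommGroup AA] (k : ℕ) where
  Γ : Type
  X : Type
  Ω : Type
  [grp : Group Γ]
  [act : MulAction Γ X]
  [actΩ : MulAction Γ Ω]
  d : X → X → ℕ
  dep : X → ℕ
  mem : Ω → X → Prop
  lb : Ω → Γ → AA
  cl : Ω → K
  gr : IsGr d
  hyp : Hyp4 d k
  iso : Isom Γ d
  free : Free Γ X
  dep_smul : ∀ (γ : Γ) x, dep (γ • x) = dep x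
  dep_le : ∀ x x', dep x ≤ dep x' + d x x'
  mem_smul : ∀ (γ : Γ) ω x, mem ω x → mem (γ • ω) (γ • x)
  mem_ne : ∀ ω, ∃ x, mem ω x
  mem_dep : ∀ ω x, mem ω x → 1 ≤ dep x
  mem_ex : ∀ x, 1 ≤ dep x → ∃ ω, mem ω x
  mem_un : ∀ ω ω' x, mem ω x → mem ω' x → ω = ω'
  mem_near : ∀ ω x x', mem ω x → d x x' < dep x → mem ω x'
  mem_up : ∀ ω x t, mem ω x → ∃ x', mem ω x' ∧ dep x' = dep x + t
  short : ∀ (γ : Γ) ω x, γ • ω = ω → mem ω x → d x (γ • x) ≤ 1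
  cl_smul : ∀ (γ : Γ) ω, cl (γ • ω) = cl ω
  lb_conj : ∀ (γ a : Γ) ω, a • ω = ω → lb (γ • ω) (γ * a * γ⁻¹) = lb ω a
  lb_mul : ∀ (a b : Γ) ω, a • ω = ω → b • ω = ω → lb ω (a * b) = lb ω a * lb ω b
  lb_inj : ∀ (a : Γ) ω, a • ω = ω → lb ω a = 1 → a = 1

attribute [instance] Dv.grp Dv.act Dv.actΩ

/-- A developing map from the cusped space. -/
structure Chart {S : St AA N K} {k D k' : ℕ} (C : Cusp S k D) (V : Dv AA K k') (Y ε : T → S.G)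
    (m r : ℕ) where
  Φ : C.W → V.X
  θ : S.G →* V.Γ
  hh : S.Z → V.Ω
  Φ_smul : ∀ (g : S.G) w, Φ (g • w) = θ g • Φ w
  le : ∀ w w', V.d (Φ w) (Φ w') ≤ C.dW w w'
  iso : ∀ w w' w'', C.deep w → C.dW w w' ≤ r → C.dW w w'' ≤ r → V.d (Φ w') (Φ w'') = C.dW w' w''
  onto : ∀ w x, C.deep w → V.d (Φ w) x ≤ r → ∃ w', Φ w' = x ∧ C.dW w w' ≤ V.d (Φ w) x
  lift : ∀ w (γ : V.Γ), C.deep w → V.d (Φ w) (γ • Φ w) ≤ r →
    ∃ g : S.G, θ g = γ ∧ C.dW w (g • w) ≤ V.d (Φ w) (γ • Φ w)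
  dep_eq : ∀ w, V.dep (Φ w) = C.dep w
  mem_hh : ∀ w, 1 ≤ C.dep w → V.mem (hh (C.bar w)) (Φ w)
  hh_smul : ∀ (g : S.G) α, S.ap α → hh (g • α) = θ g • hh α
  fix : ∀ w w' (g : S.G), C.deep w → C.dW w w' + 1 ≤ r → C.dW w (g • w') ≤ r → 1 ≤ C.dep w' →
    θ g • hh (C.bar w') = hh (C.bar w') → g • C.bar w' = C.bar w'
  lb_hh : ∀ α (a : S.G), S.ap α → a • α = α → V.lb (hh α) (θ a) = S.lab α a
  cl_hh : ∀ α, S.ap α → V.cl (hh α) = S.cls α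
  law : ∀ τ, Law m (θ (Y τ)) (θ (ε τ))

/-- Every point of small depth is the image of a deep point under a developing map. -/
def Cov {S : St AA N K} {k D k' : ℕ} (C : Cusp S k D) (V : Dv AA K k') (Y ε : T → S.G)
    (m r R0 : ℕ) : Prop :=
  ∀ x : V.X, V.dep x ≤ R0 → ∃ (c : Chart C V Y ε m r) (w : C.W), C.deep w ∧ c.Φ w = x

end Pool.Agent.Lib.MP_429c3d_al.Ng
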