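import Pool.Agent.Lib.MP_429c3d_al.NgAtA
import Pool.Agent.Lib.MP_429c3d_al.NgFiP
import Pool.Agent.Lib.MP_429c3d_al.NgDevI

set_option autoImplicit false

/-! The developed space and its horoballs: definitions. -/

namespace Pool.Agent.Lib.MP_429c3d_al.Ng

open Hyp

namespace Fi

variable {AA N0 K T : Type} [CommGroup AA] (P : Fi AA N0 K T)

/-- A developed space with its developing maps. -/
structure DD (k R σ r : ℕ) where
  X : Type
  Γ : Type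
  [grp : Group Γ]
  [act : MulAction Γ X]
  dX : X → X → ℕ
  πX : X → P.Q
  dartX : X → P.E → X → Prop
  dev : Devel (Γ := Γ) P.src P.tgt P.rev dX πX dartX k
  hH : ∀ (κ : K) (u : P.HP κ) (x : X), πX x = P.πH u → ∃ Φ : P.HP κ → X, Φ u = x ∧
    DMap (P.dH κ) P.πH P.dartH (fun u => 1 ≤ u.i) dX πX dartX Φ σ r
  hJ : ∀ (w : P.W) (x : X), πX x = P.πJ w → ∃ Φ : P.W → X, Φ w = x ∧
    DMap P.dJ P.πJ P.dartJ (P.good R) dX πX dartX Φ σ r

attribute [instance] DD.grp DD.act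

namespace DD

variable {P} {k R σ r : ℕ} (V : P.DD k R σ r)

/-- The depth. -/
def dep (x : V.X) : ℕ := Sum.elim (fun _ => 0) Prod.snd (V.πX x).1

/-- Developing maps of horoball charts. -/
def IsH (κ : K) (Φ : P.HP κ → V.X) : Prop :=
  DMap (P.dH κ) P.πH P.dartH (fun u => 1 ≤ u.i) V.dX V.πX V.dartX Φ σ r

theorem IsH.smul {V : P.DD k R σ r} {κ : K} {Φ : P.HP κ → V.X} (h : V.IsH κ Φ) (γ : V.Γ) :
    V.IsH κ fun u => γ • Φ u where
  ov u := ((V.dev.fib _ _).2 ⟨γ, rfl⟩).symm.trans (h.ov u)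
  map u e v he := V.dev.equi γ _ _ _ (h.map u e v he)
  iso u v h1 h2 := by rw [V.dev.inv, h.iso u v h1 h2]
  onto u x h1 := by
    have e : V.dX (γ • Φ u) x = V.dX (Φ u) (γ⁻¹ • x) := by rw [← V.dev.inv γ⁻¹, inv_smul_smul]
    rw [e] at h1 ⊢
    obtain ⟨v, h2, h3⟩ := h.onto u _ h1
    exact ⟨v, by rw [h2, smul_inv_smul], h3⟩

/-- Horoballs. -/
def Ω : Type := {s : Set V.X // ∃ κ Φ, V.IsH κ Φ ∧ s = {x | ∃ u, 1 ≤ u.i ∧ Φ u = x}}

instance : MulAction V.Γ V.Ω where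
  smul γ s := ⟨{x | γ⁻¹ • x ∈ s.1}, by
    obtain ⟨κ, Φ, h1, h2⟩ := s.2
    refine ⟨κ, _, h1.smul γ, ?_⟩
    rw [h2]
    ext x
    simp only [Set.mem_ofPred_eq, eq_inv_smul_iff]⟩
  one_smul s := Subtype.ext (Set.ext fun x => by
    change (1 : V.Γ)⁻¹ • x ∈ s.1 ↔ _
    rw [inv_one, one_smul])
  mul_smul γ γ' s := Subtype.ext (Set.ext fun x => by
    change (γ * γ')⁻¹ • x ∈ s.1 ↔ γ'⁻¹ • γ⁻¹ • x ∈ s.1
    rw [mul_inv_rev, mul_smul])

theorem mem_smul_iff (γ : V.Γ) (ω : V.Ω) (x : V.X) : x ∈ (γ • ω).1 ↔ γ⁻¹ • x ∈ ω.1 := Iff.rfl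

/-- A horizontal dart with label `a` leads from `x` to `x'`. -/
def HD (x : V.X) (a : AA) (x' : V.X) : Prop :=
  ∃ e : P.E, e.1.2.1 = .inr (.inl a) ∧ V.dartX x e x'

/-- The label of an element that stabilises a horoball. -/
noncomputable def lb (ω : V.Ω) (γ : V.Γ) : AA :=
  open Classical in if h : ∃ a, ∀ x ∈ ω.1, V.HD x a (γ • x) then h.choose else 1

/-- The class of a horoball. -/
noncomputable def cl (ω : V.Ω) : K := ω.2.choose

end DD

end Fi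

end Pool.Agent.Lib.MP_429c3d_al.Ng
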