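import Pool.Agent.Lib.MP_429c3d_al.NgFoot
import Pool.Agent.Lib.MP_429c3d_al.HypBlow

/-! Detours around an apex move the name of the link point by at most `D` per step. -/

set_option autoImplicit false

namespace Pool.Agent.Lib.MP_429c3d_al.Ng

open Hyp

/-- Detours of length `l ≤ l0` around an apex move the link point by at most `D * l`. -/
def Det {V N : Type} (d : V → V → ℕ) (ap : V → Prop) (nm : V → V → N) (dn : N → N → ℕ)
    (l0 D : ℕ) : Prop :=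
  ∀ α n n' l, ap α → l ≤ l0 → d α n ≤ 1 → d α n' ≤ 1 → Avoid d α l n n' →
    dn (nm α n) (nm α n') ≤ D * l

variable {G G' Z Z' : Type} [Group G] [Group G'] [MulAction G Z] [MulAction G' Z']
  {d : Z → Z → ℕ} {d' : Z' → Z' → ℕ}

namespace Gate

variable (S : Gate G G' d d')

/-- How apices and names of flags behave in a step. -/
structure Names {N : Type} (ap : Z → Prop) (ap' : Z' → Prop) (nm : Z → Z → N) (nm' : Z' → Z' → N)
    (dn : N → N → ℕ) (D : ℕ) : Prop where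
  met : IsMet dn
  ap_smul : ∀ (γ : G') x, ap' x → ap' (γ • x)
  ap_ι : ∀ a, ap' (S.ι a) → ap a
  nm_smul : ∀ (γ : G') α n, ap' α → n ≠ α → d' α n ≤ 1 → nm' (γ • α) (γ • n) = nm' α n
  nm_ι : ∀ a n, ap a → n ≠ a → d a n ≤ 1 → nm' (S.ι a) (S.ι n) = nm a n
  dn_t : dn (nm' (S.ι S.t) S.w) (nm' (S.ι S.t) (S.ι S.h)) ≤ D
  dn_h : dn (nm' (S.ι S.h) S.w) (nm' (S.ι S.h) (S.ι S.t)) ≤ D

/-- The neighbours of a cone are the points of its line. -/
theorem adj_cone {x y : Z'} (hx : ¬ S.Old x) (h : d' x y ≤ 1) (hne : x ≠ y) : S.OnL x y := by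
  rcases S.edge x y h with rfl | ⟨γ, z, z', rfl, -, -⟩ | hl | hl
  exacts [absurd rfl hne, absurd (S.old_smul_ι _ _) hx, hl, absurd (OnL.old hl) hx]

/-- A neighbour of `ι a` that does not have the gate `a` lies in the base copy. -/
theorem adj_base {x : Z'} {a : Z} (h : d' (S.ι a) x ≤ 1) (hx : ¬ S.Rho x a) :
    x = S.ι (S.rt x) ∧ d a (S.rt x) ≤ 1 := by
  refine ⟨?_, by simpa [S.rt_ι] using (S.rt_edge h).1⟩
  rcases S.edge _ _ h with rfl | ⟨γ, z, z', h1, rfl, -⟩ | hl | hl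
  · exact absurd ((S.rho_ι a a).2 rfl) hx
  · rcases S.rt_copy γ z z' with ⟨c, rfl⟩ | h2
    · rw [S.rt_φ_ι, S.ι_smul]
    · rw [← h1, S.rt_ι] at h2
      exact absurd (h2 ▸ S.rho_rt _) hx
  · exact absurd (S.old_ι a) (OnL.not_old hl)
  · exact absurd (by simpa [S.rt_ι] using OnL.rho hl) hx

variable {N : Type} {ap : Z → Prop} {ap' : Z' → Prop} {nm : Z → Z → N} {nm' : Z' → Z' → N}
  {dn : N → N → ℕ} {l0 D : ℕ}

theorem Names.nm_cone {S : Gate G G' d d'} (H : S.Names ap ap' nm nm' dn D) {x p p' : Z'}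
    (hx : ap' x) (hp : S.OnL x p) (hp' : S.OnL x p') : nm' x p = nm' x p' := by
  obtain ⟨γ, h1, rfl⟩ := id hp
  obtain ⟨δ, h2, rfl⟩ := id hp'
  have e : (δ * γ⁻¹) • x = x := by rw [mul_smul, h1, inv_smul_smul, ← h1, h2]
  have := H.nm_smul (δ * γ⁻¹) x _ hx (fun hh => hp.not_old (hh ▸ hp.old)) hp.d_le
  rw [e, mul_smul, inv_smul_smul] at this
  exact this.symm

/-- From a cone through `ι a` to the other gate. -/
theorem Names.dn_cone {S : Gate G G' d d'} (H : S.Names ap ap' nm nm' dn D) {x : Z'} {a b : Z}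
    (hap : ap' (S.ι a)) (ha : S.Rho x a) (hb : S.Rho x b) (hab : a ≠ b) :
    dn (nm' (S.ι a) x) (nm' (S.ι a) (S.ι b)) ≤ D := by
  have ne1 : ∀ z, S.w ≠ S.ι z := fun z => by simpa using S.w_ne 1 z
  have ne2 : S.ι S.t ≠ S.ι S.h := fun hh => S.th (S.ι_inj hh)
  have d1 : d' (S.ι S.t) (S.ι S.h) ≤ 1 := (S.d_ι _ _).trans S.dth
  have l1 : S.OnL S.w (S.ι S.t) := by simpa using S.onL_t 1
  have l2 : S.OnL S.w (S.ι S.h) := by simpa using S.onL_h 1
  obtain ⟨c, rfl, ⟨rfl, rfl⟩ | ⟨rfl, rfl⟩⟩ := S.rho_two ha hb hab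
  · rw [S.ι_smul] at hap
    have hap' : ap' (S.ι S.t) := by simpa using H.ap_smul (S.φ c)⁻¹ _ hap
    rw [S.ι_smul, S.ι_smul, H.nm_smul _ _ _ hap' (ne1 _) l1.d_le',
      H.nm_smul _ _ _ hap' ne2.symm d1]
    exact H.dn_t
  · rw [S.ι_smul] at hap
    have hap' : ap' (S.ι S.h) := by simpa using H.ap_smul (S.φ c)⁻¹ _ hap
    rw [S.ι_smul, S.ι_smul, H.nm_smul _ _ _ hap' (ne1 _) l2.d_le',
      H.nm_smul _ _ _ hap' ne2 (by rwa [S.met'.symm])]
    exact H.dn_h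

/-- The end of a detour, seen in the base copy. -/
theorem Names.entry {S : Gate G G' d d'} (H : S.Names ap ap' nm nm' dn D) {a : Z} {x y : Z'}
    (hap : ap' (S.ι a)) (hx : d' (S.ι a) x ≤ 1) (hy : ¬ S.Rho y a) {i : ℕ}
    (h : x = y ∨ (i = 1 ∧ S.OnL x (S.ι a) ∧ d' x y ≤ 1)) :
    d a (S.rt y) ≤ 1 ∧ dn (nm' (S.ι a) x) (nm a (S.rt y)) ≤ D * i := by
  have hne : S.rt y ≠ a := fun hh => hy (hh ▸ S.rho_rt y)
  rcases h with rfl | ⟨rfl, h1, h2⟩
  · obtain ⟨e1, e2⟩ := S.adj_base hx hy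
    refine ⟨e2, ?_⟩
    rw [← H.nm_ι _ _ (H.ap_ι _ hap) hne e2, ← e1, H.met.self]
    exact Nat.zero_le _
  · have ha : S.Rho x a := by simpa [S.rt_ι] using h1.rho
    have hl := S.adj_cone h1.not_old h2 fun hh => hy (hh ▸ ha)
    have e2 := S.rho_d ha hl.rho
    refine ⟨e2, ?_⟩
    rw [← H.nm_ι _ _ (H.ap_ι _ hap) hne e2, mul_one]
    exact H.dn_cone hap ha hl.rho hne.symm

theorem Names.det_base {S : Gate G G' d d'} (H : S.Names ap ap' nm nm' dn D)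
    (hD : Det d ap nm dn l0 D) {a : Z} (hap : ap' (S.ι a)) {c : ℕ → Z'} {l i j : ℕ} (hl : l ≤ l0)
    (h0 : d' (S.ι a) (c 0) ≤ 1) (h1 : d' (S.ι a) (c l) ≤ 1) (ha : ∀ s, s ≤ l → c s ≠ S.ι a)
    (hs : ∀ s, s < l → d' (c s) (c (s + 1)) ≤ 1) (hij : i + j ≤ l)
    (hi : i = 0 ∨ (i = 1 ∧ S.OnL (c 0) (S.ι a))) (hj : j = 0 ∨ (j = 1 ∧ S.OnL (c l) (S.ι a)))
    (hm : ∀ s, i ≤ s → s + j ≤ l → ¬ S.OnL (c s) (S.ι a)) (hr : ¬ S.Rho (c i) a) :
    dn (nm' (S.ι a) (c 0)) (nm' (S.ι a) (c l)) ≤ D * l := by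
  have key : ∀ s, i + s + j ≤ l → ¬ S.Rho (c (i + s)) a := by
    intro s
    induction s with
    | zero => exact fun _ => hr
    | succ s ih =>
      intro h2 h3
      have e := hs (i + s) (by omega)
      rw [S.met'.symm] at e
      rcases S.sep_edge e h3 (ih (by omega)) with h4 | h4
      · exact ha _ (by omega) h4
      · exact hm _ (by omega) (by omega) h4
  obtain ⟨m, hm'⟩ : ∃ m, l = i + m + j := ⟨l - i - j, by omega⟩
  obtain ⟨e1, e2⟩ := H.entry (y := c i) (i := i) hap h0 hr (by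
    rcases hi with rfl | ⟨rfl, h2⟩
    exacts [Or.inl rfl, Or.inr ⟨rfl, h2, hs 0 (by omega)⟩])
  obtain ⟨e3, e4⟩ := H.entry (y := c (i + m)) (i := j) hap h1 (key m hm'.ge) (by
    rcases hj with rfl | ⟨rfl, h2⟩
    · exact Or.inl (by rw [hm']; rfl)
    · refine Or.inr ⟨rfl, h2, ?_⟩
      rw [S.met'.symm, hm']
      exact hs _ (by omega))
  have e5 := hD a _ _ m (H.ap_ι _ hap) (by omega) e1 e3 ⟨fun s => S.rt (c (i + s)), rfl, rfl,
    fun s hs' hh => key s (by omega) (hh ▸ S.rho_rt _),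
    fun s hs' => (S.rt_edge (hs (i + s) (by omega))).1⟩
  have t1 := H.met.tri (nm' (S.ι a) (c 0)) (nm a (S.rt (c i))) (nm' (S.ι a) (c l))
  have t2 := H.met.tri (nm a (S.rt (c i))) (nm a (S.rt (c (i + m)))) (nm' (S.ι a) (c l))
  rw [H.met.symm (nm' (S.ι a) (c l))] at e4
  have : D * l = D * i + D * m + D * j := by rw [hm']; ring
  omega

theorem Names.det_old {S : Gate G G' d d'} (H : S.Names ap ap' nm nm' dn D)
    (hD : Det d ap nm dn l0 D) {α : Z'} (hα : S.Old α) (hap : ap' α) (l : ℕ) :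
    ∀ c : ℕ → Z', l ≤ l0 → d' α (c 0) ≤ 1 → d' α (c l) ≤ 1 → (∀ s, s ≤ l → c s ≠ α) →
      (∀ s, s < l → d' (c s) (c (s + 1)) ≤ 1) → dn (nm' α (c 0)) (nm' α (c l)) ≤ D * l := by
  induction l using Nat.strong_induction_on with
  | _ l ih =>
    intro c hl h0 h1 ha hs
    by_cases hmid : ∃ s, 0 < s ∧ s < l ∧ S.OnL (c s) α
    · obtain ⟨s, s0, s1, s2⟩ := hmid
      obtain ⟨m, rfl⟩ : ∃ m, l = s + m := ⟨l - s, by omega⟩
      have e1 := ih s s1 c (by omega) h0 s2.d_le' (fun u hu => ha u (by omega))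
        fun u hu => hs u (by omega)
      have e2 := ih m (by omega) (fun u => c (s + u)) (by omega) s2.d_le' h1
        (fun u hu => ha _ (by omega)) fun u hu => hs _ (by omega)
      have t1 := H.met.tri (nm' α (c 0)) (nm' α (c s)) (nm' α (c (s + m)))
      rw [mul_add]
      exact t1.trans (Nat.add_le_add e1 e2)
    by_cases heq : c 0 = c l
    · rw [← heq, H.met.self]
      exact Nat.zero_le _
    have l1 : l ≠ 0 := fun hh => heq (by rw [hh])
    obtain ⟨i, hi, hi'⟩ : ∃ i, (i = 0 ∨ (i = 1 ∧ S.OnL (c 0) α)) ∧ (i = 0 → ¬ S.OnL (c 0) α) := by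
      by_cases h2 : S.OnL (c 0) α
      exacts [⟨1, Or.inr ⟨rfl, h2⟩, fun h => absurd h one_ne_zero⟩, ⟨0, Or.inl rfl, fun _ => h2⟩]
    obtain ⟨j, hj, hj'⟩ : ∃ j, (j = 0 ∨ (j = 1 ∧ S.OnL (c l) α)) ∧ (j = 0 → ¬ S.OnL (c l) α) := by
      by_cases h2 : S.OnL (c l) α
      exacts [⟨1, Or.inr ⟨rfl, h2⟩, fun h => absurd h one_ne_zero⟩, ⟨0, Or.inl rfl, fun _ => h2⟩]
    have hij : i + j ≤ l := by
      rcases hi with rfl | ⟨rfl, h2⟩ <;> rcases hj with rfl | ⟨rfl, h3⟩ <;> try omega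
      by_contra h4
      obtain rfl : l = 1 := by omega
      exact h3.not_old (S.adj_cone h2.not_old (hs 0 one_pos) heq).old
    have hm : ∀ s, i ≤ s → s + j ≤ l → ¬ S.OnL (c s) α := by
      intro s s1 s2 s3
      by_cases s4 : s = 0
      · exact hi' (by omega) (s4 ▸ s3)
      by_cases s5 : s = l
      · exact hj' (by omega) (s5 ▸ s3)
      exact hmid ⟨s, by omega, by omega, s3⟩
    obtain ⟨σ, a, rfl, e2⟩ := S.first hα (ha i (by omega)) (hm i le_rfl hij)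
    have hap' : ap' (S.ι a) := by simpa using H.ap_smul σ⁻¹ _ hap
    have dd : ∀ x, d' (S.ι a) (σ⁻¹ • x) = d' (σ • S.ι a) x := fun x => by
      rw [← S.inv' σ, smul_inv_smul]
    have ol : ∀ x, S.OnL (σ⁻¹ • x) (S.ι a) ↔ S.OnL x (σ • S.ι a) := fun x =>
      ⟨fun h => by simpa using h.smul σ, fun h => by simpa using h.smul σ⁻¹⟩
    have := H.det_base hD hap' (c := fun s => σ⁻¹ • c s) hl (by rwa [dd]) (by rwa [dd])
      (fun s hs' hh => ha s hs' (by rw [← hh, smul_inv_smul]))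
      (fun s hs' => by rw [S.inv']; exact hs s hs') hij (by rwa [ol]) (by rwa [ol])
      (fun s s1 s2 => by rw [ol]; exact hm s s1 s2) e2
    rw [← H.nm_smul σ⁻¹ _ _ hap (ha 0 (by omega)) h0, ← H.nm_smul σ⁻¹ _ _ hap (ha l le_rfl) h1,
      inv_smul_smul]
    exact this

/-- The detour bound passes to the next stage with the same constants. -/
theorem Names.det {S : Gate G G' d d'} (H : S.Names ap ap' nm nm' dn D)
    (hD : Det d ap nm dn l0 D) : Det d' ap' nm' dn l0 D := by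
  rintro α n n' l hap hl h0 h1 ⟨c, rfl, rfl, ha, hs⟩
  by_cases hα : S.Old α
  · exact H.det_old hD hα hap l c hl h0 h1 ha hs
  · rw [H.nm_cone hap (S.adj_cone hα h0 (ha 0 (by omega)).symm)
      (S.adj_cone hα h1 (ha l le_rfl).symm), H.met.self]
    exact Nat.zero_le _

end Gate

end Pool.Agent.Lib.MP_429c3d_al.Ng
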