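import Pool.Agent.Lib.MP_429c3d_al.NgLF
import Pool.Agent.Lib.MP_429c3d_al.NgBase

set_option autoImplicit false

/-! Pairs of elements that are given by the same word in a stabiliser and one more letter. -/

namespace Pool.Agent.Lib.MP_429c3d_al.Ng

variable {G Z : Type} [Group G] [MulAction G Z]

/-- `g₁` and `g₂` are the values of one word with at most `N` syllables at `e₁` and at `e₂`. -/
def RR (o : Z) (e₁ e₂ : G) (N : ℕ) (g₁ g₂ : G) : Prop :=
  ∃ (a : G) (l : List (ℤ × G)), a • o = o ∧ (∀ p ∈ l, p.2 • o = o) ∧ l.length ≤ N ∧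
    g₁ = a * wd e₁ l ∧ g₂ = a * wd e₂ l

variable {o : Z} {e₁ e₂ : G} {N N' : ℕ} {g₁ g₂ g₁' g₂' : G}

theorem RR.mono (h : RR o e₁ e₂ N g₁ g₂) (hN : N ≤ N') : RR o e₁ e₂ N' g₁ g₂ := by
  obtain ⟨a, l, h1, h2, h3, h4⟩ := h
  exact ⟨a, l, h1, h2, h3.trans hN, h4⟩

theorem rr_fix {a : G} (h : a • o = o) : RR o e₁ e₂ 0 a a :=
  ⟨a, [], h, by simp, le_rfl, by simp [wd], by simp [wd]⟩

theorem rr_zpow (j : ℤ) : RR o e₁ e₂ 1 (e₁ ^ j) (e₂ ^ j) :=
  ⟨1, [(j, 1)], one_smul _ _, by simp, le_rfl, by simp [wd], by simp [wd]⟩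

theorem wd_append (e : G) (l l' : List (ℤ × G)) : wd e (l ++ l') = wd e l * wd e l' := by
  simp [wd]

theorem RR.mul (h : RR o e₁ e₂ N g₁ g₂) (h' : RR o e₁ e₂ N' g₁' g₂') :
    RR o e₁ e₂ (N + N') (g₁ * g₁') (g₂ * g₂') := by
  obtain ⟨a, l, h1, h2, h3, rfl, rfl⟩ := h
  obtain ⟨a', l', h1', h2', h3', rfl, rfl⟩ := h'
  rcases List.eq_nil_or_concat' l with rfl | ⟨l, p, rfl⟩
  · exact ⟨a * a', l', by rw [mul_smul, h1', h1], h2', by omega, by simp [wd, mul_assoc],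
      by simp [wd, mul_assoc]⟩
  · refine ⟨a, l ++ [(p.1, p.2 * a')] ++ l', h1, fun q hq => ?_, by simp at h3 ⊢; omega,
      by simp [wd, mul_assoc], by simp [wd, mul_assoc]⟩
    simp only [List.mem_append, List.mem_singleton] at hq h2
    rcases hq with (hq | rfl) | hq
    exacts [h2 q (Or.inl hq), by rw [mul_smul, h1', h2 p (Or.inr rfl)], h2' q hq]

theorem RR.inv (h : RR o e₁ e₂ N g₁ g₂) : RR o e₁ e₂ N g₁⁻¹ g₂⁻¹ := by
  obtain ⟨a, l, h1, h2, h3, rfl, rfl⟩ := h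
  have key : RR o e₁ e₂ l.length (wd e₁ l)⁻¹ (wd e₂ l)⁻¹ := by
    clear h3
    induction l with
    | nil => simpa [wd] using rr_fix (one_smul G o)
    | cons p l ih =>
      have := ((ih fun q hq => h2 q (by simp [hq])).mul
        (rr_fix (inv_smul_eq_iff.2 (h2 p (by simp)).symm))).mul (rr_zpow (-p.1))
      simpa [wd_cons, mul_assoc] using this
  simpa using (key.mono h3).mul (rr_fix (inv_smul_eq_iff.2 h1.symm))

theorem rr_cs {y : G} (h : y • o = o) (j : ℕ) : RR o e₁ e₂ (2 ^ j) (cs y e₁ j) (cs y e₂ j) := by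
  induction j with
  | zero => simpa [cs] using rr_zpow (o := o) (e₁ := e₁) (e₂ := e₂) 1
  | succ j ih => simpa [cs, pow_succ, mul_two] using (ih.mul (rr_fix h)).mul ih.inv

theorem wd_nf (l : List (ℤ × G)) (h : ∀ p ∈ l, p.2 • o = o) : ∃ (a a' : G) (l' : List (ℤ × G))
    (j : ℤ), a • o = o ∧ a' • o = o ∧ Red o l' ∧ (l' = [] ∧ j = 0 ∨ j ≠ 0 ∧ l'.length < l.length) ∧
      ∀ e, wd e l = a * (wd e l' * e ^ j) * a' := by
  induction l with
  | nil => exact ⟨1, 1, [], 0, one_smul _ _, one_smul _ _, red_nil o, Or.inl ⟨rfl, rfl⟩,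
      fun e => by simp [wd]⟩
  | cons p l ih =>
    obtain ⟨a, a', l', j, h1, h2, h3, h4, h5⟩ := ih fun q hq => h q (by simp [hq])
    have hb : (p.2 * a) • o = o := by rw [mul_smul, h1, h p (by simp)]
    have hz : ∀ i : ℤ, (([] : List (ℤ × G)) = [] ∧ i = 0) ∨
        i ≠ 0 ∧ ([] : List (ℤ × G)).length < (p :: l).length := fun i => by
      by_cases e : i = 0 <;> simp [e]
    by_cases c1 : p.1 = 0
    · exact ⟨p.2 * a, a', l', j, hb, h2, h3, h4.imp id fun e => ⟨e.1, by simp; omega⟩,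
        fun e => by simp [wd_cons, h5, c1, mul_assoc]⟩
    rcases h4 with ⟨rfl, rfl⟩ | ⟨c2, c3⟩
    · exact ⟨1, p.2 * a * a', [], p.1, one_smul _ _, by rw [mul_smul, h2, hb], h3, hz _,
        fun e => by simp [wd_cons, h5, wd_nil, mul_assoc]⟩
    by_cases c4 : p.2 * a = 1
    · have e0 : ∀ e, wd e (p :: l) = e ^ p.1 * (wd e l' * e ^ j) * a' := fun e => by
        rw [wd_cons, h5, ← mul_assoc, ← mul_assoc, mul_assoc _ p.2, c4, mul_one]
      rcases l' with _ | ⟨q, l'⟩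
      · exact ⟨1, a', [], p.1 + j, one_smul _ _, h2, h3, hz _,
          fun e => by simp [e0, wd_nil, zpow_add]⟩
      · obtain ⟨⟨-, q2, q3⟩, q4⟩ := red_cons.1 h3
        rw [List.length_cons] at c3
        by_cases c5 : p.1 + q.1 = 0
        · refine ⟨q.2, a', l', j, q3, h2, q4, Or.inr ⟨c2, by simp; omega⟩, fun e => ?_⟩
          rw [e0, wd_cons, mul_assoc, mul_assoc, mul_assoc, mul_assoc, ← mul_assoc, ← zpow_add, c5]
          simp [mul_assoc]
        · exact ⟨1, a', (p.1 + q.1, q.2) :: l', j, one_smul _ _, h2, red_cons.2 ⟨⟨c5, q2, q3⟩, q4⟩,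
            Or.inr ⟨c2, by simp; omega⟩, fun e => by simp [e0, wd_cons, zpow_add, mul_assoc]⟩
    · exact ⟨1, a', (p.1, p.2 * a) :: l', j, one_smul _ _, h2, red_cons.2 ⟨⟨c1, c4, hb⟩, h3⟩,
        Or.inr ⟨c2, by simpa using c3⟩, fun e => by simp [wd_cons, h5, mul_assoc]⟩

/-- Proof: strong induction on the length; a zero exponent or a trivial letter that is not the
last one allows to shorten the word, a reduced non empty word contradicts `LF`. -/
theorem RR.eq_one (hL : LF o e₁ N) (h : RR o e₁ e₂ N 1 g₂) : g₂ = 1 := by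
  obtain ⟨a₀, l, h0, h1, h2, h3, rfl⟩ := h
  obtain ⟨a, a', l', j, e1, e2, e3, ⟨rfl, rfl⟩ | ⟨e4, e5⟩, e6⟩ := wd_nf l h1
  · rw [e6] at h3 ⊢
    simpa [wd] using h3.symm
  · refine absurd ?_ (hL l' j (by omega) e4 e3)
    have : wd e₁ l' * e₁ ^ j = (a₀ * a)⁻¹ * (a₀ * wd e₁ l) * a'⁻¹ := by rw [e6]; group
    rw [this, ← h3, mul_one, mul_smul, inv_smul_eq_iff.2 e2.symm, inv_smul_eq_iff, mul_smul, e1, h0]

end Pool.Agent.Lib.MP_429c3d_al.Ng
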