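import Pool.Agent.Lib.MP_429c3d_al.NgAtA
import Pool.Agent.Lib.MP_429c3d_al.NgFiP
import Pool.Agent.Lib.MP_429c3d_al.NgRed

set_option autoImplicit false

/-! Closed walks at shifted heights. -/

namespace Pool.Agent.Lib.MP_429c3d_al.Ng

open Hyp

namespace Fi

variable {AA N0 K T : Type} [CommGroup AA] (P : Fi AA N0 K T)

/-- The element that carries the base apex to the apex of the standard flag. -/
def uu (τ : T) (b : Bool) (h : ℤ) : P.J.G := if b then 1 else P.C τ (h - 1)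

variable {P} {R σ : ℕ}

theorem sa_eq {τ : T} {b : Bool} {h : ℤ} (hv : Val (2 * P.M) h)
    (hv' : b = true ∨ Val (2 * P.M) (h - 1)) (g : P.J.G) :
    P.sa τ g b h = (g * P.uu τ b h) • P.o τ := by
  cases b
  · have := P.F.P_succ τ (h - 1) (hv'.resolve_left (by simp)) (by simpa using hv)
    rw [sub_add_cancel] at this
    simp only [sa, uu, Bool.false_eq_true, if_false, mul_smul, this]
    rfl
  · simp [sa, uu]

theorem nb_o {τ : T} {b : Bool} {h : ℤ} (hv : Val (2 * P.M) h)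
    (hv' : b = true ∨ Val (2 * P.M) (h - 1)) : ∃ n, P.J.Fl (P.o τ) n ∧
      P.J.df (P.o τ) (P.F.P τ h) n = 1 ∧ ∀ g, P.sn τ g b h = (g * P.uu τ b h) • n := by
  have f1 : P.J.Fl (P.o τ) (P.F.P τ h) := ⟨P.F.ap_o _, P.F.adj τ h hv⟩
  cases b
  · have h1 := hv'.resolve_left (by simp)
    have e := P.F.P_succ τ (h - 1) h1 (by simpa using hv)
    have e' := P.F.dfF τ (h - 1) h1 (by simpa using hv)
    rw [sub_add_cancel] at e e'
    refine ⟨(P.C τ (h - 1))⁻¹ • P.o τ, ⟨f1.1, ?_⟩, e', fun g => by simp [sn, uu, mul_smul]⟩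
    rw [← P.ok.iso (P.C τ (h - 1)), smul_inv_smul, P.ok.gr.met.symm]
    exact e ▸ f1.2
  · exact ⟨_, f1, P.ok.df_self f1, fun g => by simp [sn, uu]⟩

/-- The label of a horizontal step between standard flags (`dfE`, `dfF`, `lab_df`). -/
theorem df_st {τ : T} {b b' : Bool} {h h' : ℤ} (hv : Val (2 * P.M) h)
    (hw : b = true ∨ Val (2 * P.M) (h - 1)) (hv' : Val (2 * P.M) h')
    (hw' : b' = true ∨ Val (2 * P.M) (h' - 1)) (hs : 0 < h ↔ 0 < h') (g x : P.J.G)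
    (hx : x • P.o τ = P.o τ) :
    P.sa τ (g * P.uu τ b h * x * (P.uu τ b' h')⁻¹) b' h' = P.sa τ g b h ∧
    P.J.df (P.sa τ g b h) (P.sn τ g b h) (P.sn τ (g * P.uu τ b h * x * (P.uu τ b' h')⁻¹) b' h') =
      P.η τ ^ (h' - h) * P.J.lab (P.o τ) x := by
  obtain ⟨n, f1, e1, e2⟩ := nb_o hv hw
  obtain ⟨n', f2, e3, e4⟩ := nb_o hv' hw'
  have f3 : P.J.Fl (P.o τ) (P.F.P τ h) := ⟨P.F.ap_o _, P.F.adj τ h hv⟩
  have f4 : P.J.Fl (P.o τ) (P.F.P τ h') := ⟨P.F.ap_o _, P.F.adj τ h' hv'⟩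
  refine ⟨by rw [sa_eq hv' hw', sa_eq hv hw, inv_mul_cancel_right, mul_smul _ x, hx], ?_⟩
  have e5 : ((idx (2 * P.M) (P.F.k1 τ) h' : ℤ) - idx (2 * P.M) (P.F.k1 τ) h) = h' - h := by
    have := P.F.k1_pos τ
    unfold Val at hv hv'
    unfold idx
    split_ifs <;> omega
  rw [sa_eq hv hw, e2, e4, inv_mul_cancel_right, mul_smul _ x,
    P.ok.df_smul _ _ _ _ f1 (P.ok.fl_fix f2 hx), ← P.ok.df_mul _ _ n' _ f1 f2 (P.ok.fl_fix f2 hx),
    P.ok.lab_df _ _ _ f2 hx, ← P.ok.df_mul _ _ _ _ f1 f3 f2, ← P.ok.df_mul _ _ _ n' f3 f4 f2,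
    P.ok.df_symm f3 f1, e1, e3, ← e5]
  have := P.F.dfE τ h h' hv hv'
  simp only [inv_one, one_mul, mul_one]
  exact congrArg (· * _) this

/-- The state of the two walks: standard flags of heights `h` and `h + s`, translated by elements
that are given by the same word. -/
def Sy (τ : T) (s a : ℤ) (g₀ g₀' : P.J.G) (N : ℕ) (h : ℤ) (p p' : P.W) : Prop :=
  ∃ (b : Bool) (g g' : P.J.G), Val (2 * P.M) h ∧ Val (2 * P.M) (h + s) ∧ p.a = P.sa τ g b h ∧
    p.n = P.sn τ g b h ∧ p'.a = P.sa τ g' b (h + s) ∧ p'.n = P.sn τ g' b (h + s) ∧ p'.i = p.i ∧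
    RR (P.o τ) (P.C τ a) (P.C τ (a + s)) N (g₀⁻¹ * g) (g₀'⁻¹ * g')

/-- The point over a standard flag. -/
def mkP (τ : T) {h : ℤ} (hv : Val (2 * P.M) h) (g : P.J.G) (b : Bool) (i : ℕ) : P.W :=
  ⟨P.sa τ g b h, P.sn τ g b h, i, Or.inl (fl_st hv g b).1⟩

theorem pi0_st {τ : T} {h : ℤ} (hv : Val (2 * P.M) h) {g : P.J.G} {b : Bool} {p : P.W}
    (h1 : p.a = P.sa τ g b h) (h2 : p.n = P.sn τ g b h) :
    P.pi0 p = .inr (barN P.per (.inr (τ, b, h)), p.i) := by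
  have f := fl_st (τ := τ) hv g b
  rw [← h1, ← h2] at f
  simp only [pi0, if_pos f.1.1, nb, f.2]

theorem rr_uu {τ : T} {s a h : ℤ} {b : Bool} {t : ℕ} (ha : -(2 * P.M : ℕ) ≤ a)
    (ha' : -(2 * P.M : ℕ) ≤ a + s) (h1 : b = true ∨ a ≤ h - 1) (h2 : 0 < a ∨ h - 1 < 0)
    (h3 : 0 < a + s ∨ h + s - 1 < 0) (h4 : h - 1 ≤ a + t) :
    RR (P.o τ) (P.C τ a) (P.C τ (a + s)) (2 ^ t) (P.uu τ b h) (P.uu τ b (h + s)) := by
  cases b
  · have h5 := h1.resolve_left (by simp)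
    simp only [uu, Bool.false_eq_true, if_false]
    rw [C_add ha h5 h2, C_add ha' (show a + s ≤ h + s - 1 by omega) h3,
      show h + s - 1 - (a + s) = h - 1 - a by ring]
    exact (rr_cs (P.F.Y_fix τ) _).mono (Nat.pow_le_pow_right (by omega) (by omega))
  · exact (rr_fix (one_smul _ _)).mono (Nat.zero_le _)

theorem dnm_same (τ : T) (b b' : Bool) (h h' : ℤ) :
    dnm (.inr (τ, b, h) : Nm N0 T) (.inr (τ, b', h')) = (h - h').natAbs := by
  simp [dnm, Nm.arm, Nm.ht]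

theorem near_name {τ : T} {b : Bool} {h : ℤ} {ν : Nm N0 T} {c : ℕ}
    (e : dnm (.inr (τ, b, h)) ν ≤ c) (hc : c < h.natAbs) : ∃ b' h', ν = .inr (τ, b', h') := by
  rcases ν with ν | ⟨τ', b', h'⟩
  · simp [dnm, Nm.arm, Nm.ht] at e
    omega
  · by_cases h1 : τ = τ'
    · exact ⟨b', h', h1 ▸ rfl⟩
    · simp [dnm, Nm.arm, Nm.ht, h1] at e
      omega

/-- One step. Here `s = per τ` or `s = - per τ`, `a` is a lowest height for both walks.
Vertical darts change nothing, a dart across flips the side `b` (`opp`; the label is the empty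
relation). For a horizontal dart to `q` the name of `q` is `(τ, b', h')` with
`|h' - h| ≤ 2 ^ R` (same arm because `|h|` is large), `h'` is valid. If `p.a` is not a last cone
(for `b = true`, `h = -2 M` the formulas hold as well because `uu = 1`), write
`g₁ = g * uu b h * x * (uu b' h')⁻¹` with `x` fixing `o`, put
`g₁' = g' * uu b (h + s) * x * (uu b' (h' + s))⁻¹` and use `df_st`, `C_add`, `rr_cs`. If `b = false`
and `h = -2 M = a`, then `g₁ = g * ε ^ i` (`nb_last`), put `g₁' = g' * C (h + s) ^ i` (`C_fix`). -/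
theorem sy_step (hR : 1 ≤ R) (hM : 2 * (2 ^ R + 4) ≤ P.M) {τ : T} {s a : ℤ}
    (hs : s = P.per τ ∨ s = -P.per τ) (ha : -(2 * P.M : ℕ) ≤ a) (ha' : -(2 * P.M : ℕ) ≤ a + s)
    {g₀ g₀' : P.J.G} {N t : ℕ} {h : ℤ} {p p' q : P.W} {e : P.E} (H : Sy τ s a g₀ g₀' N h p p')
    (hsg : 0 < h → 0 < a) (hsg' : 0 < h + s → 0 < a + s)
    (hlo : a + 2 ^ R + 1 ≤ h ∨ a = -(2 * P.M : ℕ) ∨ a + s = -(2 * P.M : ℕ))
    (hhi : h + 2 ^ R ≤ a + t) (hg : P.good R p') (hd : P.dartJ p e q) :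
    ∃ (h' : ℤ) (q' : P.W), P.dartJ p' e q' ∧ (h' - h).natAbs ≤ 2 ^ R ∧
      Sy τ s a g₀ g₀' (N + 2 * 2 ^ t) h' q q' := by
  obtain ⟨b, g, g', v, v', pa, pn, pa', pn', pi, rr⟩ := H
  have hp := P.per_ge τ
  have f := fl_st (τ := τ) v g b
  have f' := fl_st (τ := τ) v' g' b
  rw [← pa, ← pn] at f
  rw [← pa', ← pn'] at f'
  have gd : (h + s).natAbs + 2 ^ R + 2 ≤ 2 * P.M := by
    have := hg.2
    simpa only [pos, if_pos f'.1.1, f'.2, Nm.ht] using this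
  have cg : ∀ (b₀ : Bool) (h₀ : ℤ), barN P.per (.inr (τ, b₀, h₀ + s) : Nm N0 T) =
      barN P.per (.inr (τ, b₀, h₀)) := fun b₀ h₀ => barN_congr (by
    rcases hs with rfl | rfl <;> simp)
  have e0 : P.pi0 p' = e.1.1 := by rw [← hd.1, pi0_st v pa pn, pi0_st v' pa' pn', cg, pi]
  have big : 2 ^ R + 4 < h.natAbs ∧ 2 ^ R + 4 < (h + s).natAbs := by
    unfold Val at v v'
    omega
  have pw : ((2 : ℤ) ^ R) = ((2 ^ R : ℕ) : ℤ) := by push_cast; rfl
  rw [pw] at hlo hhi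
  obtain ⟨-, d2, d3⟩ := hd
  generalize hl : e.1.2.1 = l at d2
  rcases l with ρ | a₀ | u
  · obtain ⟨⟨c1, c2, -, c4, c5⟩, c6⟩ := d2
    have o1 := opp f.1 f.2 v
    have o2 := opp f'.1 f'.2 v'
    have qa : q.a = P.sa τ g (!b) h := by rw [← c4 f.1.1, pn]; cases b <;> rfl
    have qn : q.n = P.sn τ g (!b) h := by rw [c5 (c4 f.1.1 ▸ o1.1), pa]; cases b <;> rfl
    have qa' : (mkP τ v' g' (!b) 0 : P.W).a = p'.n := by rw [pn']; cases b <;> rfl
    have qn' : (mkP τ v' g' (!b) 0 : P.W).n = p'.a := by rw [pa']; cases b <;> rfl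
    refine ⟨h, mkP τ v' g' (!b) 0, ⟨e0, ?_, ?_⟩, by simp,
      !b, g, g', v, v', qa, qn, rfl, rfl, c2.symm, rr.mono (by omega)⟩
    · rw [hl]
      refine ⟨⟨pi.trans c1, rfl, by rw [qa']; exact f'.1.2, fun _ => qa'.symm, fun _ => qn'⟩, ?_⟩
      rw [c6, qa', ← c4 f.1.1]
      funext x y
      simp only [crl, f.1.1, o1.1, f'.1.1, o2.1, and_self, not_true, false_and]
    · rw [← d3, pi0_st v qa qn, pi0_st v' rfl rfl, cg, c2]
      rfl
  · obtain ⟨⟨c1, c2, c3, c4⟩, c5⟩ := d2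
    have fq : P.J.Fl p.a q.n := c1 ▸ Cu.fl (c1 ▸ f.1.1)
    have c6 : 2 ^ p.i ≤ 2 ^ R := Nat.pow_le_pow_right (by omega) (pi ▸ hg.1)
    rw [f.2] at c4
    obtain ⟨b', h', en⟩ := near_name c4 (by omega)
    rw [en, dnm_same] at c4
    have w : Val (2 * P.M) h' := (P.F.nm_rng _ _ _ _ _ fq en).resolve_right (by omega)
    have w' : Val (2 * P.M) (h' + s) := by unfold Val at v' ⊢; omega
    obtain ⟨g₁, qa, qn⟩ := val_rep fq en w
    have fin : ∀ g₂ g₂', p.a = P.sa τ g₂ b' h' → q.n = P.sn τ g₂ b' h' →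
        p'.a = P.sa τ g₂' b' (h' + s) → P.J.df p'.a p'.n (P.sn τ g₂' b' (h' + s)) = a₀ →
        RR (P.o τ) (P.C τ a) (P.C τ (a + s)) (2 * 2 ^ t) (g⁻¹ * g₂) (g'⁻¹ * g₂') →
        ∃ (h' : ℤ) (q' : P.W), P.dartJ p' e q' ∧ (h' - h).natAbs ≤ 2 ^ R ∧
          Sy τ s a g₀ g₀' (N + 2 * 2 ^ t) h' q q' := by
      intro g₂ g₂' r1 r2 r3 r4 r5
      refine ⟨h', mkP τ w' g₂' b' p.i, ⟨e0, ?_, ?_⟩, by omega,
        b', g₂, g₂', w, w', c1.trans r1, r2, rfl, rfl, c2.symm, ?_⟩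
      · rw [hl]
        refine ⟨⟨r3.symm, pi.symm, pi ▸ c3, ?_⟩, r4.symm⟩
        have := (fl_st (τ := τ) w' g₂' b').2
        rw [← r3] at this
        change dnm _ (P.J.nm p'.a (P.sn τ g₂' b' (h' + s))) ≤ _
        rw [f'.2, this, dnm_same, pi]
        omega
      · rw [← d3, pi0_st w (c1.trans r1) r2, pi0_st w' rfl rfl, cg, c2]
        rfl
      · simpa [mul_assoc] using rr.mul r5
    by_cases hlast : (b = false ∧ h = -(2 * P.M : ℕ)) ∨ (b' = false ∧ h' = -(2 * P.M : ℕ))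
    · obtain ⟨rfl, rfl, rfl, rfl⟩ : b = false ∧ h = -(2 * P.M : ℕ) ∧ b' = false ∧
          h' = -(2 * P.M : ℕ) := by
        rcases hlast with ⟨rfl, rfl⟩ | ⟨rfl, rfl⟩
        · have := nm_last τ g (n := q.n) (by have := fq.2; rwa [pa] at this)
          rw [show g • P.F.P τ _ = p.a from pa.symm, en] at this
          simp only [Sum.inr.injEq, Prod.mk.injEq, true_and] at this
          exact ⟨rfl, rfl, this⟩
        · have := nm_last τ g₁ (n := p.n) (by have := f.1.2; rwa [qa] at this)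
          rw [show g₁ • P.F.P τ _ = p.a from qa.symm, f.2] at this
          simp only [Sum.inr.injEq, Prod.mk.injEq, true_and] at this
          exact ⟨this.1, this.2, rfl, rfl⟩
      obtain rfl : a = -(2 * P.M : ℕ) := by omega
      obtain ⟨j, hj⟩ := P.F.nb_last τ (g⁻¹ • q.n) (by
        rw [← P.ok.iso g, smul_inv_smul]
        have := fq.2
        rwa [pa] at this)
      have key : ∀ (h₀ : ℤ) (v₀ : Val (2 * P.M) h₀) (g₀ : P.J.G),
          (Val (2 * P.M) (h₀ - 1) ∨ h₀ = -(2 * P.M : ℕ)) →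
          P.sa τ g₀ false h₀ = P.sa τ (g₀ * P.C τ h₀ ^ j) false h₀ ∧
          P.J.df (P.sa τ g₀ false h₀) (P.sn τ g₀ false h₀) (P.sn τ (g₀ * P.C τ h₀ ^ j) false h₀) =
            P.η τ ^ j := by
        intro h₀ v₀ g₀ hh
        obtain ⟨k1, k2⟩ := C_fix (τ := τ) v₀ hh
        have k3 := (fl_st (τ := τ) v₀ 1 false).1
        simp only [sa, sn, Bool.false_eq_true, if_false, one_smul, mul_smul] at k3 ⊢
        refine ⟨by rw [St.zpow_fix k1], ?_⟩
        rw [P.ok.df_smul _ _ _ _ k3 (P.ok.fl_fix k3 (St.zpow_fix k1 j)),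
          P.ok.lab_df _ _ _ k3 (St.zpow_fix k1 j), P.ok.lab_zpow k3.1 k1, k2]
      have ce : P.C τ (-(2 * P.M : ℕ)) = P.F.ε τ := by
        have : idx (2 * P.M) (P.F.k1 τ) (-(2 * P.M : ℕ)) = 0 := by
          unfold idx
          split_ifs <;> omega
        rw [C, this, cs]
      obtain ⟨k1, k2⟩ := key _ v g (Or.inr rfl)
      obtain ⟨k3, k4⟩ := key _ v' g' (Or.inl (by unfold Val at v' ⊢; omega))
      have qn' : q.n = P.sn τ (g * P.C τ (-(2 * P.M : ℕ)) ^ j) false (-(2 * P.M : ℕ)) := by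
        simp only [sn, Bool.false_eq_true, if_false, mul_smul, ce]
        exact inv_smul_eq_iff.1 hj
      refine fin _ _ (pa.trans k1) qn' (pa'.trans k3) (by rw [c5, pa, pn, pa', pn', qn', k2, k4]) ?_
      rw [inv_mul_cancel_left, inv_mul_cancel_left]
      exact (rr_zpow j).mono (by have := Nat.one_le_two_pow (n := t); omega)
    · have hb : ∀ b₀ : Bool, b₀ = true ∨ b₀ = false := fun b₀ => by cases b₀ <;> simp
      have hw : b = true ∨ (Val (2 * P.M) (h - 1) ∧ a ≤ h - 1) := (hb b).imp id fun e => by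
        have : h ≠ -(2 * P.M : ℕ) := fun e' => hlast (Or.inl ⟨e, e'⟩)
        unfold Val at v v' ⊢
        omega
      have hw' : b' = true ∨ (Val (2 * P.M) (h' - 1) ∧ a ≤ h' - 1) := (hb b').imp id fun e => by
        have : h' ≠ -(2 * P.M : ℕ) := fun e' => hlast (Or.inr ⟨e, e'⟩)
        unfold Val at v v' w ⊢
        omega
      have hx : ((g * P.uu τ b h)⁻¹ * (g₁ * P.uu τ b' h')) • P.o τ = P.o τ := by
        rw [mul_smul, ← sa_eq w (hw'.imp id And.left), ← qa, pa, sa_eq v (hw.imp id And.left),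
          inv_smul_smul]
      obtain ⟨x, ex⟩ : ∃ x, x = (g * P.uu τ b h)⁻¹ * (g₁ * P.uu τ b' h') := ⟨_, rfl⟩
      rw [← ex] at hx
      obtain rfl : g₁ = g * P.uu τ b h * x * (P.uu τ b' h')⁻¹ := by rw [ex]; group
      have k1 := df_st v (hw.imp id And.left) w (hw'.imp id And.left) (by omega) g x hx
      have k2 := df_st (b := b) (b' := b') v' (Or.inr (by unfold Val at v' ⊢; omega)) w'
        (Or.inr (by unfold Val at v' ⊢; omega)) (by omega) g' x hx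
      refine fin _ _ qa qn (pa'.trans k2.1.symm) (by
        rw [c5, pa, pn, pa', pn', qn, k1.2, k2.2, add_sub_add_right_eq_sub]) ?_
      have r1 := rr_uu (τ := τ) (t := t) ha ha' (hw.imp id And.right) (by omega) (by omega)
        (by omega)
      have r2 := rr_uu (τ := τ) (t := t) ha ha' (hw'.imp id And.right) (by omega) (by omega)
        (by omega)
      simpa [mul_assoc, two_mul] using (r1.mul (rr_fix hx)).mul r2.inv
  · obtain ⟨c1, c2, c3⟩ := d2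
    refine ⟨h, mkP τ v' g' b q.i, ⟨e0, ?_, ?_⟩, by simp,
      b, g, g', v, v', c1.trans pa, c2.trans pn, rfl, rfl, rfl, rr.mono (by omega)⟩
    · rw [hl]
      exact ⟨pa'.symm, pn'.symm, pi ▸ c3⟩
    · rw [← d3, pi0_st v (c1.trans pa) (c2.trans pn), pi0_st v' rfl rfl, cg]
      rfl

/-- Proof: `pi0_cases`. A translate: `dartJ.smul`, `LW.map'`. Shifted names of heights `h₀` and
`h₀ + s`: put `a = max (h₀ - σ * 2 ^ R - 1) (max (-2 M) (-2 M - s))`, `t = 2 * σ * 2 ^ R + 1`,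
iterate `sy_step` along the walk (the new walk stays in the good ball by `lgJ.le`). At the end the
first walk is closed, so the side, the height and `g = g₀` are the initial ones (`fl_st`,
`st_inj`), `RR.eq_one` with `F.lf` at the height `a` gives `g' = g₀'`. -/
theorem compatJJ (hR : 1 ≤ R)
    (hM : 2 * (σ * (2 * 2 ^ (2 * σ * 2 ^ R + 1)) + (σ + 1) * 2 ^ R + 8) ≤ P.M) (w w' : P.W)
    (L : List P.E) (h : P.πJ w = P.πJ w') (hg : ∀ z, P.dJ w' z ≤ σ → P.good R z)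
    (hl : L.length ≤ σ) (hL : LW P.dartJ w L w) : LW P.dartJ w' L w' := by
  rcases pi0_cases (congrArg Subtype.val h) with ⟨g, rfl⟩ |
    ⟨a1, a2, ei, τ, b, h₀, h₁, n1, n2, v, v', hs⟩
  · exact hL.map' (fun p => g • p) fun _ _ _ hd => hd.smul g
  obtain ⟨s, rfl⟩ : ∃ s, h₁ = h₀ + s := ⟨h₁ - h₀, by ring⟩
  have hs' : s = P.per τ ∨ s = -P.per τ := by omega
  have hp := P.per_ge τ
  obtain ⟨g₀, p1, p2⟩ := val_rep (Cu.fl a1) n1 v
  obtain ⟨g₀', p3, p4⟩ := val_rep (Cu.fl a2) n2 v'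
  obtain ⟨c, hc⟩ : ∃ c, c = σ * 2 ^ R := ⟨_, rfl⟩
  obtain ⟨t, ht⟩ : ∃ t, t = 2 * c + 1 := ⟨_, rfl⟩
  rw [mul_assoc 2 σ, add_mul σ 1, one_mul, ← hc, ← ht] at hM
  obtain ⟨a, ha⟩ : ∃ a : ℤ, a = max (h₀ - c - 1) (max (-(2 * P.M : ℕ)) (-(2 * P.M : ℕ) - s)) :=
    ⟨_, rfl⟩
  have pos : 0 < 2 ^ R := Nat.two_pow_pos R
  have big : P.M + 10 ≤ 2 * h₀.natAbs ∧ P.M + 10 ≤ 2 * (h₀ + s).natAbs := by
    unfold Val at v v'
    omega
  have key : ∀ (l : List P.E) (j : ℕ) (h : ℤ) (p p' q : P.W), j + l.length ≤ σ →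
      Sy τ s a g₀ g₀' (j * (2 * 2 ^ t)) h p p' → (h - h₀).natAbs ≤ j * 2 ^ R → P.dJ w' p' ≤ j →
      LW P.dartJ p l q → ∃ h' q', LW P.dartJ p' l q' ∧ Sy τ s a g₀ g₀' (σ * (2 * 2 ^ t)) h' q q' := by
    intro l
    induction l with
    | nil =>
      rintro j h p p' q h1 ⟨b, g, g', r1, r2, r3, r4, r5, r6, r7, r8⟩ - - rfl
      exact ⟨h, p', rfl, b, g, g', r1, r2, r3, r4, r5, r6, r7,
        r8.mono (Nat.mul_le_mul_right _ (by omega))⟩
    | cons e l ih =>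
      rintro j h p p' q h1 h2 h3 h4 ⟨z, h5, h6⟩
      rw [List.length_cons] at h1
      have e1 : (j + 1) * 2 ^ R ≤ c := hc ▸ Nat.mul_le_mul_right _ (by omega)
      rw [add_mul, one_mul] at e1
      have pw : ((2 : ℤ) ^ R) = ((2 ^ R : ℕ) : ℤ) := by push_cast; rfl
      unfold Val at v v'
      obtain ⟨h', z', r1, r2, r3⟩ := sy_step (t := t) hR (by omega) hs' (by omega) (by omega) h2
        (by omega) (by omega) (by rw [pw]; omega) (by rw [pw]; omega) (hg p' (by omega)) h5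
      obtain ⟨h'', q', r4, r5⟩ := ih (j + 1) h' z z' q (by omega) (by rwa [add_mul, one_mul])
        (by rw [add_mul, one_mul]; omega) (by
          have := P.lgJ.le _ _ _ r1
          have := P.lgJ.gr.met.tri w' p' z'
          omega) h6
      exact ⟨h'', q', ⟨z', r1, r4⟩, r5⟩
  obtain ⟨h', q', r1, b', g, g', r2, r3, r4, r5, r6, r7, r8, r9⟩ := key L 0 h₀ w w' w (by omega)
    ⟨b, g₀, g₀', v, v', p1, p2, p3, p4, ei.symm, by simpa using rr_fix (one_smul _ _)⟩ (by simp)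
    (by rw [P.lgJ.gr.met.self]) hL
  have e1 := (fl_st (τ := τ) r2 g b').2
  rw [← r4, ← r5, n1] at e1
  simp only [Sum.inr.injEq, Prod.mk.injEq, true_and] at e1
  obtain ⟨rfl, rfl⟩ := e1
  obtain rfl : g = g₀ := st_inj v (r4.symm.trans p1) (r5.symm.trans p2)
  rw [inv_mul_cancel] at r9
  have e2 := RR.eq_one (P.F.lf τ a (by unfold Val at v v' ⊢; omega))
    (r9.mono (by unfold Val at v v'; omega))
  obtain rfl : g₀' = g' := inv_mul_eq_one.1 e2
  rwa [show q' = w' from Cu.ext (r6.trans p3.symm) (r7.trans p4.symm) (r8.trans ei)] at r1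

end Fi

end Pool.Agent.Lib.MP_429c3d_al.Ng
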