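import Pool.Agent.Lib.MP_429c3d_al.NgDvC
import Pool.Agent.Lib.MP_429c3d_al.NgShift

set_option autoImplicit false

/-! The developed space of a final stage. -/

namespace Pool.Agent.Lib.MP_429c3d_al.Ng

open Hyp

namespace Fi

variable {AA N0 K T : Type} [CommGroup AA] (P : Fi AA N0 K T)

/-- The charts. -/
def WW : Option K → Type
  | none => P.W
  | some κ => P.HP κ

/-- Their metrics. -/
noncomputable def dd : ∀ a, P.WW a → P.WW a → ℕ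
  | none => P.dJ
  | some κ => P.dH κ

/-- Their projections. -/
noncomputable def pp : ∀ a, P.WW a → P.Q
  | none => P.πJ
  | some _ => P.πH

/-- Their darts. -/
def dt : ∀ a, P.WW a → P.E → P.WW a → Prop
  | none => P.dartJ
  | some _ => P.dartH

/-- Their good points. -/
def gg (R : ℕ) : ∀ a, P.WW a → Prop
  | none => P.good R
  | some _ => fun u => 1 ≤ u.i

theorem atlas {k R σ ρ : ℕ} (hk : 12 ≤ k) (hyp : Hyp4 P.dJ k) (h1 : 2 * σ ≤ ρ)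
    (h2 : ρ + 2 * σ + 1 ≤ R) (hM1 : 2 * ((ρ + 1) * 2 ^ R + 4) ≤ P.M)
    (hM2 : (σ + 2) * 2 ^ R + 4 ≤ P.M)
    (hM3 : 2 * (σ * (2 * 2 ^ (2 * σ * 2 ^ R + 1)) + (σ + 1) * 2 ^ R + 8) ≤ P.M) :
    LAtlas P.src P.tgt P.rev P.dd P.pp P.dt (P.gg R) k σ where
  rr := P.rev_rev
  sr := P.src_rev
  conn := P.connQ
  lg
    | none => P.lgJ
    | some κ => P.lgH κ
  hyp
    | none => hyp
    | some κ => (P.horoH κ).hyp.mono hk
  out
    | none => fun w e h he => outJ (by rw [add_mul] at hM2; omega) w e h he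
    | some _ => fun u e h he => outH u e h he
  cover := by
    rintro ⟨q, p, rfl⟩
    by_cases h : p.i + ρ ≤ R
    · obtain ⟨w, e1, e2⟩ := exists_deep hM1 p h
      exact ⟨none, w, Subtype.ext e1, fun z hz => e2.good (by omega) (le_trans hz h1)⟩
    · have ha : P.J.ap p.a := Cu.ap_of_i (by omega)
      refine ⟨some (P.J.cls p.a), ⟨1, P.nb p.a p.n, p.i, (P.Ac _).one_mem,
        p.a, p.n, Cu.fl ha, rfl, rfl⟩, Subtype.ext ?_, fun z hz => ?_⟩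
      · change Sum.inr _ = P.pi0 p
        simp only [pi0, if_pos ha]
      · have := (P.horoH _).dep_le ⟨1, P.nb p.a p.n, p.i, (P.Ac _).one_mem,
          p.a, p.n, Cu.fl ha, rfl, rfl⟩ z
        have hz' : P.dH _ ⟨1, P.nb p.a p.n, p.i, (P.Ac _).one_mem,
          p.a, p.n, Cu.fl ha, rfl, rfl⟩ z ≤ 2 * σ := hz
        change p.i ≤ _ at this
        change 1 ≤ HP.i z
        omega
  compat
    | none, none => fun w w' L e hg hl h => compatJJ (by omega) hM3 w w' L e hg hl h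
    | none, some _ => fun w u L e hg hl h => compatJH w u L e hg hl h
    | some _, none => fun u w L e hg hl h => compatHJ hM2 u w L e hg hl h
    | some _, some _ => fun u v L e _ _ h => compatHH u v L e h

end Fi

theorem dev_main (kT D0 : ℕ) : ∃ D k : ℕ, ∀ r R0 kk : ℕ, ∃ m n : ℕ, 2 ≤ n ∧ 1 ≤ m ∧
    ∀ (AA N0 K T : Type) [CommGroup AA] (J : St AA (Nm N0 T) K) (F : Fs J n),
      (∀ τ, F.k1 τ ≤ kk) → J.OK → Hyp4 J.d kT → Det J.d J.ap J.nm dnm (20 * kT + 20) D0 →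
      Nonempty J.Z → ∃ (C : Cusp J kT D) (V : Dv AA K k),
        Nonempty (Chart C V F.Y F.ε m r) ∧ Cov C V F.Y F.ε m r R0 := by
  obtain ⟨kJ, hkJ⟩ : ∃ kJ, kJ = blowK kT 12 (2 * (D0 * (20 * kT + 20)) + 3) + 12 := ⟨_, rfl⟩
  refine ⟨2 * (D0 * (20 * kT + 20)) + 3, 1000 * kJ + 4, fun r' R0 kk => ?_⟩
  obtain ⟨r, hr⟩ : ∃ r, r = 100 * kJ + 100 + 2 * r' := ⟨_, rfl⟩
  obtain ⟨σ, hσ⟩ : ∃ σ, σ = 6000 * r := ⟨_, rfl⟩
  obtain ⟨ρ, hρ⟩ : ∃ ρ, ρ = 2 * σ + r' := ⟨_, rfl⟩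
  obtain ⟨R, hR⟩ : ∃ R, R = ρ + 2 * σ + 1 + R0 := ⟨_, rfl⟩
  obtain ⟨M1, h1⟩ : ∃ M1, M1 = (ρ + 1) * 2 ^ R := ⟨_, rfl⟩
  obtain ⟨M2, h2⟩ : ∃ M2, M2 = (σ + 2) * 2 ^ R := ⟨_, rfl⟩
  obtain ⟨M3, h3⟩ : ∃ M3, M3 = σ * (2 * 2 ^ (2 * σ * 2 ^ R + 1)) + (σ + 1) * 2 ^ R := ⟨_, rfl⟩
  obtain ⟨M, hM⟩ : ∃ M, M = 2 * (M1 + 4) + (M2 + 4) + 2 * (M3 + 8) + (2 * kk + 8) := ⟨_, rfl⟩
  refine ⟨3 * M, 2 * M, by omega, by omega, ?_⟩
  intro AA N0 K T _ J F hk ok hyp det ⟨z⟩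
  let P : Fi AA N0 K T := ⟨J, M, F, ok, fun τ => by have := hk τ; omega⟩
  have hPM : P.M = M := rfl
  have hW : Hyp4 P.dJ kJ := (Cu.blow dnm_met hyp det).hypW.mono (by omega)
  obtain ⟨X, Γ, _, _, dX, πX, dartX, dev, hΦ⟩ := (P.atlas (k := kJ) (R := R) (σ := σ) (ρ := ρ)
    (by omega) hW (by omega) (by omega) (by omega) (by omega) (by omega)).develop (r := r)
    (P.πJ (Cu.pt ok z)) (by omega) (by omega)
  let V : P.DD (1000 * kJ + 4) R σ r := ⟨X, Γ, dX, πX, dartX, dev, fun κ => hΦ (some κ), hΦ none⟩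
  have hM1 : (ρ + 1) * 2 ^ R + 2 ≤ 2 * P.M := by omega
  have hM2 : 2 * 2 ^ R + 4 ≤ P.M := by rw [add_mul] at h2; omega
  have key := fun w x e => V.exists_chart (by omega) (ρ := ρ) (r' := r') hyp det hM1 hM2
    (by omega) (by omega) (by omega) (by omega) w x e
  refine ⟨P.cusp R ρ hyp det hM1 (by omega), V.dv (by omega), ?_, fun x hx => ?_⟩
  · obtain ⟨x, hx⟩ := dev.surj (P.πJ (Cu.pt ok z))
    exact ⟨(key _ x hx).choose⟩
  · obtain ⟨p, hp⟩ := (πX x).2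
    have hi : p.i ≤ R0 := by
      have e : V.dep x = Sum.elim (fun _ => 0) Prod.snd (P.pi0 p) := by rw [hp]; rfl
      have hx' : V.dep x ≤ R0 := hx
      by_cases ha : P.J.ap p.a
      · simp only [Fi.pi0, if_pos ha, Sum.elim_inr] at e
        omega
      · have := (p.ok.resolve_left fun h => ha h.1).2.2
        omega
    obtain ⟨w, e1, e2⟩ := Fi.exists_deep (ρ := ρ) (R := R) (by omega) p (by omega)
    obtain ⟨c, hc⟩ := key w x (Subtype.ext (hp.symm.trans e1.symm))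
    exact ⟨c, w, e2, hc⟩

end Pool.Agent.Lib.MP_429c3d_al.Ng
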