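import Pool.Agent.Lib.MP_429c3d_al.NgDD

set_option autoImplicit false

/-! Developing maps of the cusped space force the law. -/

namespace Pool.Agent.Lib.MP_429c3d_al.Ng

open Hyp

namespace Fi

variable {AA N0 K T : Type} [CommGroup AA] (P : Fi AA N0 K T)

namespace DD

variable {P} {k R σ r : ℕ} {V : P.DD k R σ r} {Φ : P.W → V.X}

/-- Two darts of the cusped space with the same raw data have the same end in `V.X`. -/
theorem map_eq (hm : ∀ w e w', P.dartJ w e w' → V.dartX (Φ w) e (Φ w'))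
    (ho : ∀ w, V.πX (Φ w) = P.πJ w) {p q p' q' : P.W} {l : P.Lbl} (e : Φ p = Φ q)
    (hp : P.D0 p l p') (hq : P.D0 q l q') (e' : P.pi0 p' = P.pi0 q') : Φ p' = Φ q' := by
  have e0 : P.πJ p = P.πJ q := by rw [← ho, ← ho, e]
  have e1 : P.pi0 p = P.pi0 q := congrArg Subtype.val e0
  let d : P.E := ⟨(P.pi0 p, l, P.pi0 p'), Or.inl ⟨p, p', rfl, hp, rfl⟩⟩
  have h1 := hm p d p' ⟨rfl, hp, rfl⟩
  have h2 := hm q d q' ⟨e1.symm, hq, e'.symm⟩
  rw [← e] at h2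
  exact (V.dev.out (Φ p) d (by rw [ho]; rfl)).unique h1 h2

/-- The point over a flag with a given depth. -/
def dvlPt {α n : P.J.Z} (h : P.J.Fl α n) (j : ℕ) : P.W := ⟨α, n, j, Or.inl h⟩

theorem dvl_pi0 {α n : P.J.Z} (h : P.J.Fl α n) (j : ℕ) :
    P.pi0 (dvlPt h j) = .inr (P.nb α n, j) := by
  simp only [pi0, dvlPt, if_pos h.1]

theorem dvl_ver {α n : P.J.Z} (h : P.J.Fl α n) {i j : ℕ} (e : j = i + 1 ∨ i = j + 1) :
    P.D0 (dvlPt h i) (.inr (.inr ())) (dvlPt h j) := ⟨rfl, rfl, e⟩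

theorem dvl_crs {α n : P.J.Z} (h : P.J.Fl α n) (h' : P.J.Fl n α) :
    P.D0 (dvlPt h 0) (.inl fun _ _ => False) (dvlPt h' 0) := by
  refine ⟨⟨rfl, rfl, h.2, fun _ => rfl, fun _ => rfl⟩, ?_⟩
  funext x y
  exact propext ⟨False.elim, fun e => e.1 ⟨h.1, h'.1⟩⟩

theorem dvl_hor {α n : P.J.Z} (h : P.J.Fl α n) {c : P.J.G} (hc : c • α = α) :
    P.D0 (dvlPt h 1) (.inr (.inl (P.J.lab α c))) (c • dvlPt h 1) := by
  refine ⟨⟨hc, rfl, le_rfl, ?_⟩, (P.ok.lab_df α n c h hc).symm⟩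
  have e : P.J.nm α (c • n) = P.J.nm α n := by
    have := P.ok.nm_smul c α n h
    rwa [hc] at this
  change dnm (P.J.nm α n) (P.J.nm α (c • n)) ≤ _
  rw [e, dnm_met.self]
  exact Nat.zero_le _

theorem dvl_link (hm : ∀ w e w', P.dartJ w e w' → V.dartX (Φ w) e (Φ w'))
    (ho : ∀ w, V.πX (Φ w) = P.πJ w) {α n n' : P.J.Z} (h : P.J.Fl α n) (h' : P.J.Fl α n')
    (hn : P.nb α n = P.nb α n') (hd : P.J.df α n n' = 1) (i : ℕ) :
    Φ (dvlPt h i) = Φ (dvlPt h' i) := by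
  have hpi : ∀ j, P.pi0 (dvlPt h j) = P.pi0 (dvlPt h' j) := fun j => by
    rw [dvl_pi0, dvl_pi0, hn]
  have down : ∀ t j, Φ (dvlPt h (j + t)) = Φ (dvlPt h' (j + t)) →
      Φ (dvlPt h j) = Φ (dvlPt h' j) := by
    intro t
    induction t with
    | zero => exact fun j e => e
    | succ t ih =>
      intro j e
      exact ih j (map_eq hm ho e (dvl_ver h (Or.inr rfl)) (dvl_ver h' (Or.inr rfl)) (hpi _))
  obtain ⟨s, hs⟩ : ∃ s, s = dnm (P.J.nm α n) (P.J.nm α n') := ⟨_, rfl⟩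
  refine down (s + 1) i ?_
  have h1 : 1 ≤ i + (s + 1) := by omega
  have h2 : s ≤ 2 ^ (i + (s + 1)) :=
    (show s ≤ i + (s + 1) by omega).trans Nat.lt_two_pow_self.le
  refine map_eq hm ho (p := dvlPt h (i + (s + 1))) (q := dvlPt h (i + (s + 1)))
    (l := .inr (.inl 1)) rfl ⟨⟨rfl, rfl, h1, ?_⟩, (P.ok.df_self h).symm⟩
    ⟨⟨rfl, rfl, h1, ?_⟩, hd.symm⟩ (hpi _)
  · change dnm (P.J.nm α n) (P.J.nm α n) ≤ _
    rw [dnm_met.self]
    exact Nat.zero_le _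
  · change dnm (P.J.nm α n) (P.J.nm α n') ≤ _
    rw [← hs]
    exact h2

/-- Proof: climb to a depth `j ≥ 1` with `dnm ≤ 2 ^ j`; there the horizontal dart between the two
points has the same data as the loop at the first point; descend with `map_eq`. -/
theorem map_link (hm : ∀ w e w', P.dartJ w e w' → V.dartX (Φ w) e (Φ w'))
    (ho : ∀ w, V.πX (Φ w) = P.πJ w) {p q : P.W} (hp : P.J.ap p.a) (ha : q.a = p.a)
    (hi : q.i = p.i) (hn : P.nb p.a p.n = P.nb p.a q.n) (hd : P.J.df p.a p.n q.n = 1) :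
    Φ p = Φ q := by
  have h : P.J.Fl p.a p.n := Cu.fl hp
  have h' : P.J.Fl p.a q.n := ha ▸ Cu.fl (ha ▸ hp)
  have e' : q = dvlPt h' p.i := Cu.ext ha rfl hi
  exact (dvl_link hm ho h h' hn hd p.i).trans (congrArg Φ e'.symm)

/-- Proof: let `h = per τ - 2 M`, then `idx h = 3 M`. By `map_link` the flags `(o, P h)` and
`(o, Y ^ (3 M) • P (-2 M))` have the same image (`dfE`, `lab_df`, `lab_zpow`, `barN_congr`). By
`map_eq` go across and up to depth one, then along the horizontal darts with label `η` that are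
given by `C h` and by `Y ^ (3 M) * ε * (Y ^ (3 M))⁻¹` (`C_fix`, `lab_conj`). The action on `V.X`
is free. -/
theorem law_of_map (hm : ∀ w e w', P.dartJ w e w' → V.dartX (Φ w) e (Φ w'))
    (ho : ∀ w, V.πX (Φ w) = P.πJ w) (θ : P.J.G →* V.Γ) (hθ : ∀ g w, Φ (g • w) = θ g • Φ w)
    (τ : T) : Law (3 * P.M) (θ (P.F.Y τ)) (θ (P.F.ε τ)) := by
  have hk := P.k1_le τ
  have hk1 := P.F.k1_pos τ
  have hper : (P.per τ : ℤ) = 3 * P.M + 1 - P.F.k1 τ := by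
    unfold per
    omega
  obtain ⟨h, hh⟩ : ∃ h : ℤ, h = P.M + 1 - P.F.k1 τ := ⟨_, rfl⟩
  obtain ⟨b, hb⟩ : ∃ b : ℤ, b = -(2 * P.M : ℕ) := ⟨_, rfl⟩
  have hv : Val (2 * P.M) h := Or.inr (by omega)
  have hv' : Val (2 * P.M) (h - 1) := Or.inr (by omega)
  have bv : Val (2 * P.M) b := Or.inl (by omega)
  have ih : idx (2 * P.M) (P.F.k1 τ) h = 3 * P.M := by
    unfold idx
    rw [if_pos (by omega)]
    omega
  have ib : idx (2 * P.M) (P.F.k1 τ) b = 0 := by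
    unfold idx
    rw [if_neg (by omega)]
    omega
  have hdv : (P.per τ : ℤ) ∣ h - b := ⟨1, by omega⟩
  obtain ⟨g, hg⟩ : ∃ g, g = P.F.Y τ ^ (3 * P.M) := ⟨_, rfl⟩
  have hg' : g = P.F.Y τ ^ ((3 * P.M : ℕ) : ℤ) := by rw [hg, zpow_natCast]
  have ao : P.J.ap (P.o τ) := P.F.ap_o _
  have go : g • P.o τ = P.o τ := by
    rw [hg']
    exact St.zpow_fix (P.F.Y_fix τ) _
  have f1 : P.J.Fl (P.o τ) (P.F.P τ h) := ⟨ao, P.F.adj τ h hv⟩
  have f0 : P.J.Fl (P.o τ) (P.F.P τ b) := ⟨ao, P.F.adj τ b bv⟩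
  have f2 : P.J.Fl (P.o τ) (g • P.F.P τ b) := P.ok.fl_fix f0 go
  have r1 : P.J.Fl (P.F.P τ h) (P.o τ) := ⟨P.F.ap_P τ h hv, by rw [P.ok.gr.met.symm]; exact f1.2⟩
  have r0 : P.J.Fl (P.F.P τ b) (P.o τ) := ⟨P.F.ap_P τ b bv, by rw [P.ok.gr.met.symm]; exact f0.2⟩
  have r2 : P.J.Fl (g • P.F.P τ b) (P.o τ) :=
    ⟨P.ok.ap_smul g _ r0.1, by rw [P.ok.gr.met.symm]; exact f2.2⟩
  have n1 : P.nb (P.o τ) (P.F.P τ h) = P.nb (P.o τ) (g • P.F.P τ b) := by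
    have e := P.ok.nm_smul g _ _ f0
    rw [go] at e
    unfold nb
    rw [e]
    exact (congrArg _ (P.F.nmE τ h hv)).trans
      ((barN_congr hdv).trans (congrArg _ (P.F.nmE τ b bv)).symm)
  have n2 : P.nb (P.F.P τ h) (P.o τ) = P.nb (g • P.F.P τ b) (P.o τ) := by
    have e := P.ok.nm_smul g _ _ r0
    rw [go] at e
    unfold nb
    rw [e]
    exact (congrArg _ (P.F.nmF τ h hv)).trans
      ((barN_congr hdv).trans (congrArg _ (P.F.nmF τ b bv)).symm)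
  have hd : P.J.df (P.o τ) (P.F.P τ h) (g • P.F.P τ b) = 1 := by
    have e1 := P.F.dfE τ h b hv bv
    rw [ih, ib] at e1
    have e2 : P.J.lab (P.o τ) g = P.J.lab (P.o τ) (P.F.Y τ) ^ ((3 * P.M : ℕ) : ℤ) := by
      rw [hg']
      exact P.ok.lab_zpow ao (P.F.Y_fix τ) _
    rw [← P.ok.df_mul _ _ _ _ f1 f0 f2, P.ok.lab_df _ _ g f0 go, e2]
    refine (congrArg (· * _) e1).trans ?_
    change P.J.lab (P.o τ) (P.F.Y τ) ^ _ * _ = 1
    rw [← zpow_add]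
    simp
  have s0 := dvl_link hm ho f1 f2 n1 hd 0
  have s1 := map_eq hm ho s0 (dvl_crs f1 r1) (dvl_crs f2 r2) (by rw [dvl_pi0, dvl_pi0, n2])
  have hpi : P.pi0 (dvlPt r1 1) = P.pi0 (dvlPt r2 1) := by rw [dvl_pi0, dvl_pi0, n2]
  have s2 := map_eq hm ho s1 (dvl_ver r1 (Or.inl rfl)) (dvl_ver r2 (Or.inl rfl)) hpi
  obtain ⟨c1, c2⟩ := C_fix hv (Or.inl hv')
  obtain ⟨c3, c4⟩ := C_fix (P := P) (τ := τ) bv (Or.inr hb)
  have ce : P.C τ b = P.F.ε τ := by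
    unfold C
    rw [ib]
    rfl
  rw [ce] at c3 c4
  have c5 : (g * P.F.ε τ * g⁻¹) • g • P.F.P τ b = g • P.F.P τ b := by
    rw [mul_smul, mul_smul, inv_smul_smul, c3]
  have c6 : P.J.lab (g • P.F.P τ b) (g * P.F.ε τ * g⁻¹) = P.η τ := by
    rw [P.ok.lab_conj g r0.1 c3, c4]
  have d1 := dvl_hor r1 c1
  have d2 := dvl_hor r2 c5
  rw [c2] at d1
  rw [c6] at d2
  have s3 := map_eq hm ho s2 d1 d2 (by rw [pi0_smul, pi0_smul, hpi])
  rw [hθ, hθ, ← s2] at s3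
  have s4 : θ (P.C τ h) = θ (g * P.F.ε τ * g⁻¹) := by
    have := V.dev.free ((θ (g * P.F.ε τ * g⁻¹))⁻¹ * θ (P.C τ h)) _
      (by rw [mul_smul, s3, inv_smul_smul])
    exact (inv_mul_eq_one.1 this).symm
  unfold C at s4
  rw [ih, map_cs, map_mul, map_mul, map_inv, hg, map_pow] at s4
  exact s4

end DD

end Fi

end Pool.Agent.Lib.MP_429c3d_al.Ng
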