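import Pool.Agent.Lib.MP_429c3d_al.NgDvH
import Pool.Agent.Lib.MP_429c3d_al.NgDvL
import Pool.Agent.Lib.MP_429c3d_al.NgAtB

set_option autoImplicit false

/-! Charts of the developed space. -/

namespace Pool.Agent.Lib.MP_429c3d_al.Ng

open Hyp

namespace Fi

variable {AA N0 K T : Type} [CommGroup AA] (P : Fi AA N0 K T)

/-- The cusped space of a final stage. -/
noncomputable def cusp {kT D0 : ℕ} (R ρ : ℕ) (hyp : Hyp4 P.J.d kT)
    (det : Det P.J.d P.J.ap P.J.nm dnm (20 * kT + 20) D0)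
    (hM : (ρ + 1) * 2 ^ R + 2 ≤ 2 * P.M) (hρ : ρ ≤ R) :
    Cusp P.J kT (2 * (D0 * (20 * kT + 20)) + 3) where
  W := P.W
  dW := P.dJ
  dF := Cu.dF dnm
  bar := Cu.a
  dep := Cu.i
  deep := P.deep R ρ
  pt := Cu.pt P.ok
  blow := Cu.blow dnm_met hyp det
  bact := Cu.bact
  free := Cu.free
  ap_of_dep _ h := Cu.ap_of_i h
  up w h := ⟨⟨w.a, w.n, w.i + 1, Or.inl (Cu.fl h)⟩, rfl, Nat.le_add_left _ _,
    ((Cu.dW_gr dnm_met).2 _ _).2 (Or.inr (Or.inl ⟨rfl, rfl, Or.inl rfl⟩))⟩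
  bar_pt := Cu.pt_a
  pt_smul g x h := by
    have h1 : (g • Cu.pt P.ok x).a = g • x := by rw [Cu.smul_a, Cu.pt_a]
    rw [Cu.eq_pt (p := g • Cu.pt P.ok x) (by rwa [h1, P.ok.ap_smul_iff]), h1]
  pt_le x x' h h' hd := by
    refine ((Cu.dW_gr dnm_met).2 _ _).2 ?_
    by_cases e : P.J.d x x' = 0
    · exact Or.inl (by rw [P.ok.gr.sep x x' e])
    · refine Or.inr (Or.inr (Or.inr ⟨Cu.pt_i x, Cu.pt_i x', ?_, fun e => ?_, fun e => ?_⟩))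
      · rw [Cu.pt_a, Cu.pt_a]
        omega
      · exact absurd (Cu.pt_a (H := P.ok) x ▸ e) h
      · exact absurd (Cu.pt_a (H := P.ok) x' ▸ e) h'
  pt_deep x h := deep_pt hM hρ h

namespace DD

variable {P} {k R σ r : ℕ}

/-- The developed space with its horoballs. -/
noncomputable def dv (V : P.DD k R σ r) (hr : 1 ≤ r) : Dv AA K k where
  Γ := V.Γ
  X := V.X
  Ω := V.Ω
  d := V.dX
  dep := V.dep
  mem ω x := x ∈ ω.1
  lb := V.lb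
  cl := V.cl
  gr := V.dev.lg.gr
  hyp := V.dev.hyp
  iso := V.dev.inv
  free := V.dev.free
  dep_smul := dep_smul
  dep_le := dep_le
  mem_smul γ ω x h := by rwa [mem_smul_iff, inv_smul_smul]
  mem_ne := mem_ne
  mem_dep := mem_dep
  mem_ex := mem_ex
  mem_un := mem_un
  mem_near := mem_near
  mem_up := mem_up
  short := short
  cl_smul := cl_smul
  lb_conj := lb_conj hr
  lb_mul := lb_mul hr
  lb_inj := lb_inj

/-- The dart that is given by a labelled edge of the cusped space. -/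
theorem exists_dartJ {p q : P.W} {l : P.Lbl} (h : P.D0 p l q) :
    ∃ e : P.E, e.1.2.1 = l ∧ P.dartJ p e q :=
  ⟨⟨(P.pi0 p, l, P.pi0 q), Or.inl ⟨p, q, rfl, h, rfl⟩⟩, rfl, rfl, h, rfl⟩

section map

variable {V : P.DD k R σ r} {Φ : P.W → V.X}

theorem map_dep (ho : ∀ w, V.πX (Φ w) = P.πJ w) (p : P.W) : V.dep (Φ p) = p.i := by
  unfold dep
  rw [ho]
  change Sum.elim (fun _ => 0) Prod.snd (P.pi0 p) = p.i
  unfold pi0
  by_cases h : P.J.ap p.a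
  · rw [if_pos h]
    rfl
  · rw [if_neg h]
    exact ((p.ok.resolve_left fun f => h f.1).2.2).symm

theorem map_mem_step (hm : ∀ w e w', P.dartJ w e w' → V.dartX (Φ w) e (Φ w'))
    (ho : ∀ w, V.πX (Φ w) = P.πJ w) {ω : V.Ω} {p q : P.W} {l : P.Lbl} (h : P.D0 p l q)
    (hq : 1 ≤ q.i) (hp : Φ p ∈ ω.1) : Φ q ∈ ω.1 := by
  obtain ⟨e, -, he⟩ := exists_dartJ h
  exact mem_dart ω hp (hm _ _ _ he) (by rwa [map_dep ho])

theorem map_mem_one (hm : ∀ w e w', P.dartJ w e w' → V.dartX (Φ w) e (Φ w'))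
    (ho : ∀ w, V.πX (Φ w) = P.πJ w) {ω : V.Ω} {α n : P.J.Z} (f : P.J.Fl α n) (i : ℕ) :
    Φ ⟨α, n, i + 1, Or.inl f⟩ ∈ ω.1 ↔ Φ ⟨α, n, 1, Or.inl f⟩ ∈ ω.1 := by
  induction i with
  | zero => exact Iff.rfl
  | succ i ih =>
    rw [← ih]
    exact ⟨map_mem_step hm ho (l := .inr (.inr ())) ⟨rfl, rfl, Or.inr rfl⟩ (Nat.le_add_left _ _),
      map_mem_step hm ho (l := .inr (.inr ())) ⟨rfl, rfl, Or.inl rfl⟩ (Nat.le_add_left _ _)⟩

/-- All points of positive depth over one apex are mapped into one horoball. -/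
theorem map_mem (hm : ∀ w e w', P.dartJ w e w' → V.dartX (Φ w) e (Φ w'))
    (ho : ∀ w, V.πX (Φ w) = P.πJ w) {ω : V.Ω} {α n n' : P.J.Z} (f : P.J.Fl α n)
    (f' : P.J.Fl α n') (i j : ℕ) (h : Φ ⟨α, n, i + 1, Or.inl f⟩ ∈ ω.1) :
    Φ ⟨α, n', j + 1, Or.inl f'⟩ ∈ ω.1 := by
  obtain ⟨t, ht⟩ : ∃ t, t = dnm (P.J.nm α n) (P.J.nm α n') := ⟨_, rfl⟩
  rw [map_mem_one hm ho f, ← map_mem_one hm ho f t] at h
  rw [map_mem_one hm ho f', ← map_mem_one hm ho f' t]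
  refine map_mem_step hm ho (l := .inr (.inl (P.J.df α n n'))) (p := ⟨α, n, t + 1, Or.inl f⟩)
    ⟨⟨rfl, rfl, Nat.le_add_left _ _, ?_⟩, rfl⟩ (Nat.le_add_left _ _) h
  change dnm (P.J.nm α n) (P.J.nm α n') ≤ 2 ^ (t + 1)
  rw [← ht]
  exact (Nat.le_succ t).trans Nat.lt_two_pow_self.le

theorem exists_hh (hm : ∀ w e w', P.dartJ w e w' → V.dartX (Φ w) e (Φ w'))
    (ho : ∀ w, V.πX (Φ w) = P.πJ w) :
    ∃ hh : P.J.Z → V.Ω, ∀ p : P.W, 1 ≤ p.i → Φ p ∈ (hh p.a).1 := by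
  have ex : ∀ α, P.J.ap α → ∃ ω : V.Ω, ∀ p : P.W, p.a = α → 1 ≤ p.i → Φ p ∈ ω.1 := by
    intro α h
    obtain ⟨n, hn⟩ := P.ok.nb α h
    have f : P.J.Fl α n := ⟨h, hn⟩
    obtain ⟨ω, hω⟩ := mem_ex (Φ ⟨α, n, 0 + 1, Or.inl f⟩) (by rw [map_dep ho])
    refine ⟨ω, ?_⟩
    rintro ⟨a, n', i, ok⟩ rfl hi
    obtain ⟨j, rfl⟩ : ∃ j, i = j + 1 := ⟨i - 1, (Nat.sub_add_cancel hi).symm⟩
    exact map_mem hm ho f (ok.resolve_right fun e => e.1 h) 0 j hω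
  have ex' : ∀ α, ∃ ω : V.Ω, ∀ p : P.W, p.a = α → 1 ≤ p.i → Φ p ∈ ω.1 := by
    intro α
    by_cases h : P.J.ap α
    · exact ex α h
    · obtain ⟨ω, -⟩ := ex _ (P.F.ap_o (P.J.cls α))
      exact ⟨ω, fun p hp hi => absurd (hp ▸ Cu.ap_of_i hi) h⟩
  choose hh h using ex'
  exact ⟨hh, fun p hi => h p.a p rfl hi⟩

theorem map_le (hm : ∀ w e w', P.dartJ w e w' → V.dartX (Φ w) e (Φ w')) (p q : P.W) :
    V.dX (Φ p) (Φ q) ≤ P.dJ p q := by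
  obtain ⟨l, l1, l2⟩ := P.lgJ.word p q
  exact l1 ▸ V.dev.lg.lw_le (l2.map' Φ hm)

variable (D : DMap P.dJ P.πJ P.dartJ (P.good R) V.dX V.πX V.dartX Φ σ r) {ρ r' : ℕ}
include D

theorem map_iso (hR : 1 ≤ R) (h1 : 2 * r' ≤ r) (h2 : σ + r' ≤ ρ) {p q q' : P.W}
    (hp : P.deep R ρ p) (hq : P.dJ p q ≤ r') (hq' : P.dJ p q' ≤ r') :
    V.dX (Φ q) (Φ q') = P.dJ q q' := by
  have m := P.lgJ.gr.met
  have t1 := m.tri q p q'
  have t2 := m.symm q p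
  refine D.iso q q' (fun z hz => hp.good hR ?_) (by omega)
  have t3 := m.tri p q z
  omega

theorem map_onto (hR : 1 ≤ R) (h2 : σ + r' ≤ ρ) {p : P.W} {x : V.X} (hp : P.deep R ρ p)
    (hx : V.dX (Φ p) x ≤ r') : ∃ q, Φ q = x ∧ P.dJ p q ≤ V.dX (Φ p) x :=
  D.onto p x fun z hz => hp.good hR (by omega)

theorem map_lift (hM : (ρ + 1) * 2 ^ R + 2 ≤ 2 * P.M) (hR : 1 ≤ R) (h2 : σ + r' ≤ ρ)
    {θ : P.J.G →* V.Γ} (hθ : ∀ g w, Φ (g • w) = θ g • Φ w) {p : P.W} {γ : V.Γ}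
    (hp : P.deep R ρ p) (hx : V.dX (Φ p) (γ • Φ p) ≤ r') :
    ∃ g : P.J.G, θ g = γ ∧ P.dJ p (g • p) ≤ V.dX (Φ p) (γ • Φ p) := by
  obtain ⟨q, q1, q2⟩ := map_onto D hR h2 hp hx
  have e : P.πJ p = P.πJ q := by
    rw [← D.ov, ← D.ov, q1]
    exact (V.dev.fib _ _).2 ⟨γ, rfl⟩
  have a1 := hp.1
  have a2 := pos_lip hR (p := p) (q := q) (by omega)
  have a3 : P.dJ p q * 2 ^ R ≤ (ρ + 1) * 2 ^ R := Nat.mul_le_mul_right _ (by omega)
  obtain ⟨g, rfl⟩ := orbit_of (congrArg Subtype.val e) (by omega)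
  refine ⟨g, ?_, q2⟩
  have := V.dev.free (γ⁻¹ * θ g) (Φ p) (by rw [mul_smul, ← hθ, q1, inv_smul_smul])
  exact (inv_mul_eq_one.1 this).symm

theorem map_fix (hM' : 2 * 2 ^ R + 4 ≤ P.M) (hR : 1 ≤ R) (h1 : 2 * r' ≤ r) (h2 : σ + r' ≤ ρ)
    {θ : P.J.G →* V.Γ} (hθ : ∀ g w, Φ (g • w) = θ g • Φ w) {p q : P.W} {g : P.J.G} {ω : V.Ω}
    (hp : P.deep R ρ p) (hq : P.dJ p q + 1 ≤ r') (hg : P.dJ p (g • q) ≤ r') (hω : Φ q ∈ ω.1)
    (h : θ g • ω = ω) : g • q.a = q.a := by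
  obtain ⟨e, e1, e2⟩ := lb_spec h hω
  have s : P.src e = P.πJ q := (V.dev.lg.ends _ _ _ e2).1.symm.trans (D.ov q)
  obtain ⟨z, hz, -⟩ := outJ hM' q e (hp.good hR (by omega)) s
  have e3 : Φ z = Φ (g • q) := by
    rw [hθ]
    exact (V.dev.out (Φ q) e (s.trans (D.ov q).symm)).unique (D.map _ _ _ hz) e2
  have t1 := P.lgJ.gr.met.tri p q z
  have t2 := P.lgJ.le _ _ _ hz
  have e4 := map_iso D hR h1 h2 hp (q := z) (by omega) hg
  rw [e3, V.dev.lg.gr.met.self] at e4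
  have e5 := P.lgJ.gr.sep _ _ e4.symm
  have e6 := hz.2.1
  rw [e1] at e6
  rw [← Cu.smul_a, ← e5]
  exact e6.1.1

end map

/-- Proof: take `Φ` from `hJ`, `θ` from `Devel.exists_theta`. All points of positive depth over one
apex are mapped into one horoball (climb, `mem_dart`); this is `hh` (over a point that is not an
apex use the apex `F.o (cls α)`). `le`: words; `iso`: `DMap.iso` at `w'` with `deep.mono`,
`deep.good`; `lift`: `onto`, `Devel.fib`, `orbit_of`, `pos_lip`, freeness; `fix`: lift the dart of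
`lb_spec` at the good point `w'` with `outJ`, its end lies over the same apex and has the same
image as `g • w'`; `lb_hh`: `lb_eq`, `lab_df`; `cl_hh`: `cl_spec`, `Occ.un`; `law_of_map`. -/
theorem exists_chart (V : P.DD k R σ r) (hr : 1 ≤ r) {kT D0 ρ r' : ℕ} (hyp : Hyp4 P.J.d kT)
    (det : Det P.J.d P.J.ap P.J.nm dnm (20 * kT + 20) D0) (hM : (ρ + 1) * 2 ^ R + 2 ≤ 2 * P.M)
    (hM' : 2 * 2 ^ R + 4 ≤ P.M) (hρ : ρ ≤ R) (hR : 1 ≤ R) (h1 : 2 * r' ≤ r) (h2 : σ + r' ≤ ρ)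
    (w : P.W) (x : V.X) (e : V.πX x = P.πJ w) :
    ∃ c : Chart (P.cusp R ρ hyp det hM hρ) (V.dv hr) P.F.Y P.F.ε (3 * P.M) r', c.Φ w = x := by
  obtain ⟨Φ, hΦ, D⟩ := V.hJ w x e
  obtain ⟨θ, hθ⟩ := V.dev.exists_theta (G := P.J.G) P.lgJ D.ov D.map
    (fun g p => Subtype.ext (pi0_smul g p)) (fun g _ _ _ h => h.smul g) w
  obtain ⟨hh, hm⟩ := exists_hh D.map D.ov
  refine ⟨{
    Φ := Φ
    θ := θ
    hh := hh
    Φ_smul := hθ
    le := map_le D.map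
    iso := fun _ _ _ a b c => map_iso D hR h1 h2 a b c
    onto := fun _ _ a b => map_onto D hR h2 a b
    lift := fun _ _ a b => map_lift D hM hR h2 hθ a b
    dep_eq := map_dep D.ov
    mem_hh := hm
    hh_smul := fun g α h => ?_
    fix := fun _ q _ a b c d f => map_fix D hM' hR h1 h2 hθ a b c (hm q d) f
    lb_hh := fun α a h ha => ?_
    cl_hh := fun α h => ?_
    law := law_of_map D.map D.ov θ hθ }, hΦ⟩
  · obtain ⟨n, hn⟩ := P.ok.nb α h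
    let p : P.W := ⟨α, n, 1, Or.inl ⟨h, hn⟩⟩
    refine mem_un (V := V) _ _ (Φ (g • p)) (hm (g • p) le_rfl) ?_
    change Φ (g • p) ∈ (θ g • hh α).1
    rw [mem_smul_iff, hθ, inv_smul_smul]
    exact hm p le_rfl
  · obtain ⟨n, hn⟩ := P.ok.nb α h
    have f : P.J.Fl α n := ⟨h, hn⟩
    let p : P.W := ⟨α, n, 1, Or.inl f⟩
    have e0 : P.J.nm α (a • n) = P.J.nm α n := by
      have := P.ok.nm_smul a α n f
      rwa [ha] at this
    have d0 : P.D0 p (.inr (.inl (P.J.lab α a))) (a • p) := by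
      refine ⟨⟨ha, rfl, le_rfl, ?_⟩, (P.ok.lab_df α n a f ha).symm⟩
      change dnm (P.J.nm α n) (P.J.nm α (a • n)) ≤ 2 ^ 1
      rw [e0, dnm_met.self]
      omega
    obtain ⟨e', e1, e2⟩ := exists_dartJ d0
    exact (lb_eq (V := V) hr (hm p le_rfl) ⟨e', e1, hθ a p ▸ D.map _ _ _ e2⟩).2
  · obtain ⟨n, hn⟩ := P.ok.nb α h
    have f : P.J.Fl α n := ⟨h, hn⟩
    let p : P.W := ⟨α, n, 1, Or.inl f⟩
    have e0 : (V.πX (Φ p)).1 = .inr (P.nb α n, 1) := by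
      rw [D.ov]
      change P.pi0 p = _
      unfold pi0
      rw [if_pos h]
    exact Occ.un (cl_spec (V := V) _ (hm p le_rfl) e0) ⟨α, n, f, rfl, rfl⟩

end DD

end Fi

end Pool.Agent.Lib.MP_429c3d_al.Ng
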