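import Pool.Agent.Lib.MP_429c3d_al.NgDD

set_option autoImplicit false

/-! The horoballs of the developed space. -/

namespace Pool.Agent.Lib.MP_429c3d_al.Ng

open Hyp

namespace Fi

variable {AA N0 K T : Type} [CommGroup AA] (P : Fi AA N0 K T)

namespace DD

variable {P} {k R σ r : ℕ} {V : P.DD k R σ r}

private theorem DvH_pi0 (p : P.W) : Sum.elim (fun _ => 0) Prod.snd (P.pi0 p) = p.i := by
  unfold pi0
  split_ifs with h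
  · rfl
  · rcases p.ok with h' | h'
    · exact absurd h'.1 h
    · exact h'.2.2.symm

private theorem DvH_step {x x' : V.X} {e : P.E} (h : V.dartX x e x') :
    V.dep x' ≤ V.dep x + 1 := by
  obtain ⟨h1, h2⟩ := V.dev.lg.ends _ _ _ h
  have a1 : (V.πX x).1 = e.1.1 := congrArg Subtype.val h1
  have a2 : (V.πX x').1 = e.1.2.2 := congrArg Subtype.val h2
  unfold dep
  rw [a1, a2]
  obtain ⟨⟨q, l, q'⟩, he⟩ := e
  rcases he with ⟨p, p', b1, b2, b3⟩ | ⟨κ, u, v, b1, b2, b3⟩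
  · dsimp only at b1 b2 b3 ⊢
    rw [← b1, ← b3, DvH_pi0, DvH_pi0]
    rcases l with ρ | a | t
    · have := b2.1.2.1
      omega
    · have := b2.1.2.1
      omega
    · have := b2.2.2
      omega
  · dsimp only at b1 b2 b3 ⊢
    rw [← b1, ← b3]
    change v.i ≤ u.i + 1
    rcases l with ρ | a | t
    · exact b2.elim
    · have := b2.1
      omega
    · have := b2.2.2
      omega

theorem IsH.dep_eq {κ : K} {Φ : P.HP κ → V.X} (h : V.IsH κ Φ) (u : P.HP κ) :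
    V.dep (Φ u) = u.i := by
  unfold dep
  rw [h.ov]
  rfl

private theorem DvH_dh {κ : K} (b : P.Ac κ) {u : P.HP κ} (hu : 1 ≤ u.i) :
    P.DH u (.inr (.inl (b : AA))) (b • u) :=
  ⟨rfl, hu, by
    change dnb P.per u.ν u.ν ≤ _
    rw [dnb_met.self]
    exact Nat.zero_le _, mul_comm _ _⟩

private theorem DvH_hd {κ : K} {Φ : P.HP κ → V.X} (h : V.IsH κ Φ) (b : P.Ac κ) {u : P.HP κ}
    (hu : 1 ≤ u.i) : V.HD (Φ u) b (Φ (b • u)) :=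
  ⟨⟨(.inr (u.ν, u.i), .inr (.inl (b : AA)), .inr (u.ν, u.i)),
    Or.inr ⟨κ, u, b • u, rfl, DvH_dh b hu, rfl⟩⟩, rfl, h.map _ _ _ ⟨rfl, DvH_dh b hu, rfl⟩⟩

private theorem DvH_out {κ : K} {Φ : P.HP κ → V.X} (h : V.IsH κ Φ) {u : P.HP κ} (hu : 1 ≤ u.i)
    {e : P.E} {y : V.X} (hd : V.dartX (Φ u) e y) : ∃ v, P.dartH u e v ∧ Φ v = y := by
  have h1 := (V.dev.lg.ends _ _ _ hd).1
  obtain ⟨v, hv, -⟩ := outH u e hu (h1.symm.trans (h.ov u))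
  exact ⟨v, hv, (V.dev.out _ e h1.symm).unique (h.map _ _ _ hv) hd⟩

private theorem DvH_out' {κ : K} {Φ : P.HP κ → V.X} (h : V.IsH κ Φ) {u : P.HP κ} (hu : 1 ≤ u.i)
    {a : AA} {y : V.X} (hd : V.HD (Φ u) a y) : ∃ v, v.i = u.i ∧ v.a = u.a * a ∧ Φ v = y := by
  obtain ⟨e, he, hd⟩ := hd
  obtain ⟨v, ⟨-, h1, -⟩, h2⟩ := DvH_out h hu hd
  rw [he] at h1
  exact ⟨v, h1.1, h1.2.2.2, h2⟩

private theorem DvH_pi (γ : V.Γ) (x : V.X) : V.πX (γ • x) = V.πX x :=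
  ((V.dev.fib _ _).2 ⟨γ, rfl⟩).symm

private theorem DvH_ms (γ : V.Γ) {ω : V.Ω} {x : V.X} (h : x ∈ ω.1) : γ • x ∈ (γ • ω).1 := by
  rw [mem_smul_iff, inv_smul_smul]
  exact h

theorem dep_smul (γ : V.Γ) (x : V.X) : V.dep (γ • x) = V.dep x := by
  unfold dep
  rw [DvH_pi]

/-- Along a dart the depth changes by at most one (both kinds of valid darts). -/
theorem dep_le (x x' : V.X) : V.dep x ≤ V.dep x' + V.dX x x' := by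
  rw [V.dev.lg.gr.met.symm]
  refine V.dev.lg.gr.induct x' (P := fun n v => V.dep v ≤ V.dep x' + n) le_rfl ?_ x
  intro n u v _ _ h3 ih
  obtain ⟨e, he⟩ := V.dev.lg.ex u v h3
  have := DvH_step he
  omega

/-- Dart preserving maps that agree at one point agree (`lgH`, `LGraph.word`, `Devel.det`). -/
theorem IsH.uniq {κ : K} {Φ Φ' : P.HP κ → V.X} (h : V.IsH κ Φ) (h' : V.IsH κ Φ') {u : P.HP κ}
    {b : P.Ac κ} (e : Φ (b • u) = Φ' u) (v : P.HP κ) : Φ (b • v) = Φ' v := by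
  obtain ⟨l, -, hl⟩ := (P.lgH κ).word u v
  have h1 := hl.map' (dart' := V.dartX) (fun w => Φ (b • w))
    fun w e w' he => h.map _ _ _ (he.smul b)
  have h2 := hl.map' (dart' := V.dartX) Φ' h'.map
  rw [← e] at h2
  exact V.dev.det h1 h2

/-- Proof: `πH_eq` gives `v = b • u`; climb to depth `σ + 1` (equal vertical labels), there the two
points are joined by an edge and `iso` applies. -/
theorem IsH.inj (hr : 1 ≤ r) {κ : K} {Φ : P.HP κ → V.X} (h : V.IsH κ Φ) :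
    Function.Injective Φ := by
  intro u v huv
  obtain ⟨b, rfl⟩ := πH_eq (u := u) (v := v) (by rw [← h.ov, ← h.ov, huv])
  let w : P.HP κ := ⟨u.a, u.ν, σ + 1, u.mem, u.occ⟩
  have hw : 1 ≤ w.i := Nat.le_add_left _ _
  have h1 := h.uniq h huv.symm w
  have h2 : P.dH κ w (b • w) ≤ 1 := ((P.dH_gr κ).2 _ _).2 (Or.inr ⟨_, DvH_dh b hw⟩)
  have h3 := h.iso w (b • w) (fun z hz => by
    have := (P.horoH κ).dep_le w z
    have e : w.i = σ + 1 := rfl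
    omega) (h2.trans hr)
  rw [h1, V.dev.lg.gr.met.self] at h3
  have h4 : u.a = b * u.a := congrArg HP.a ((P.dH_gr κ).1.sep _ _ h3.symm)
  exact HP.ext h4 rfl rfl

theorem mem_ne (ω : V.Ω) : ∃ x, x ∈ ω.1 := by
  obtain ⟨s, κ, Φ, h, rfl⟩ := ω
  obtain ⟨n, hn⟩ := P.ok.nb _ (P.F.ap_o κ)
  exact ⟨_, ⟨1, P.nb (P.F.o κ) n, 1, (P.Ac κ).one_mem, _, n, ⟨P.F.ap_o κ, hn⟩, P.F.cls_o κ, rfl⟩,
    le_rfl, rfl⟩

theorem mem_dep (ω : V.Ω) (x : V.X) (h : x ∈ ω.1) : 1 ≤ V.dep x := by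
  obtain ⟨s, κ, Φ, h', rfl⟩ := ω
  obtain ⟨u, hu, rfl⟩ := h
  rwa [h'.dep_eq]

theorem mem_ex (x : V.X) (h : 1 ≤ V.dep x) : ∃ ω : V.Ω, x ∈ ω.1 := by
  obtain ⟨p, hp⟩ := (V.πX x).2
  have h1 : 1 ≤ p.i := by
    unfold dep at h
    rwa [← hp, DvH_pi0] at h
  have ha := Cu.ap_of_i h1
  let u : P.HP (P.J.cls p.a) :=
    ⟨1, P.nb p.a p.n, p.i, (P.Ac _).one_mem, p.a, p.n, Cu.fl ha, rfl, rfl⟩
  obtain ⟨Φ, h2, h3⟩ := V.hH _ u x (Subtype.ext (by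
    rw [← hp]
    simp only [pi0, if_pos ha]
    rfl))
  exact ⟨⟨_, _, Φ, h3, rfl⟩, u, h1, h2⟩

theorem mem_un (ω ω' : V.Ω) (x : V.X) (h : x ∈ ω.1) (h' : x ∈ ω'.1) : ω = ω' := by
  obtain ⟨s, κ, Φ, g, rfl⟩ := ω
  obtain ⟨s', κ', Φ', g', rfl⟩ := ω'
  obtain ⟨u, -, rfl⟩ := h
  obtain ⟨u', -, e⟩ := h'
  have e1 : P.πH u' = P.πH u := by rw [← g.ov, ← g'.ov, e]
  obtain rfl := πH_cls e1
  obtain ⟨b, rfl⟩ := πH_eq e1
  have key := g.uniq g' e.symm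
  refine Subtype.ext (Set.ext fun y => ⟨?_, ?_⟩)
  · rintro ⟨v, hv, rfl⟩
    exact ⟨b⁻¹ • v, hv, by rw [← key, smul_inv_smul]⟩
  · rintro ⟨v, hv, rfl⟩
    exact ⟨b • v, hv, key v⟩

theorem mem_near (ω : V.Ω) (x x' : V.X) (h : x ∈ ω.1) (hd : V.dX x x' < V.dep x) : x' ∈ ω.1 := by
  obtain ⟨s, κ, Φ, g, rfl⟩ := ω
  obtain ⟨u, -, rfl⟩ := h
  rw [g.dep_eq] at hd
  have key : ∀ z, P.dH κ u z ≤ V.dX (Φ u) x' → 1 ≤ z.i := fun z hz => by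
    have := (P.horoH κ).dep_le u z
    omega
  obtain ⟨w, h1, h2⟩ := g.onto u x' key
  exact ⟨w, key w h2, h1⟩

theorem mem_up (ω : V.Ω) (x : V.X) (t : ℕ) (h : x ∈ ω.1) :
    ∃ x', x' ∈ ω.1 ∧ V.dep x' = V.dep x + t := by
  obtain ⟨s, κ, Φ, g, rfl⟩ := ω
  obtain ⟨u, hu, rfl⟩ := h
  exact ⟨_, ⟨⟨u.a, u.ν, u.i + t, u.mem, u.occ⟩, hu.trans (Nat.le_add_right _ _), rfl⟩,
    by rw [g.dep_eq, g.dep_eq]⟩

/-- A dart between points of positive depth stays in the horoball (`outH`, `Devel.out`). -/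
theorem mem_dart (ω : V.Ω) {x x' : V.X} {e : P.E} (h : x ∈ ω.1) (hd : V.dartX x e x')
    (h' : 1 ≤ V.dep x') : x' ∈ ω.1 := by
  obtain ⟨s, κ, Φ, g, rfl⟩ := ω
  obtain ⟨u, hu, rfl⟩ := h
  obtain ⟨v, -, rfl⟩ := DvH_out g hu hd
  rw [g.dep_eq] at h'
  exact ⟨v, h', rfl⟩

theorem cl_spec (ω : V.Ω) {x : V.X} (h : x ∈ ω.1) {ν : Nm N0 T} {i : ℕ}
    (e : (V.πX x).1 = .inr (ν, i)) : P.Occ (V.cl ω) ν := by
  obtain ⟨Φ, g, hs⟩ := ω.2.choose_spec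
  rw [hs] at h
  obtain ⟨u, -, rfl⟩ := h
  rw [g.ov] at e
  have e1 : u.ν = ν := congrArg Prod.fst (Sum.inr.inj e)
  exact e1 ▸ u.occ

theorem cl_smul (γ : V.Γ) (ω : V.Ω) : V.cl (γ • ω) = V.cl ω := by
  obtain ⟨x, hx⟩ := mem_ne ω
  obtain ⟨κ, Φ, g, hs⟩ := ω.2
  have hx' := hx
  rw [hs] at hx'
  obtain ⟨u, -, rfl⟩ := hx'
  have e : (V.πX (Φ u)).1 = .inr (u.ν, u.i) := by rw [g.ov]; rfl
  exact (cl_spec _ (DvH_ms γ hx) (by rw [DvH_pi]; exact e)).un (cl_spec _ hx e)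

private theorem DvH_stab {ω : V.Ω} {κ : K} {Φ : P.HP κ → V.X} (g : V.IsH κ Φ)
    (hs : ω.1 = {x | ∃ u, 1 ≤ u.i ∧ Φ u = x}) {γ : V.Γ} (h : γ • ω = ω) :
    ∃ b : P.Ac κ, ∀ v, Φ (b • v) = γ • Φ v := by
  obtain ⟨x, hx⟩ := mem_ne ω
  have hx' := DvH_ms γ hx
  rw [h, hs] at hx'
  rw [hs] at hx
  obtain ⟨u, -, rfl⟩ := hx
  obtain ⟨u', -, e⟩ := hx'
  obtain ⟨b, rfl⟩ := πH_eq (u := u) (v := u') (by rw [← g.ov, ← g.ov, e, DvH_pi])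
  exact ⟨b, g.uniq (g.smul γ) e⟩

theorem lb_spec {ω : V.Ω} {γ : V.Γ} (h : γ • ω = ω) {x : V.X} (hx : x ∈ ω.1) :
    V.HD x (V.lb ω γ) (γ • x) := by
  have ex : ∃ a, ∀ x ∈ ω.1, V.HD x a (γ • x) := by
    obtain ⟨κ, Φ, g, hs⟩ := ω.2
    obtain ⟨b, hb⟩ := DvH_stab g hs h
    refine ⟨b, fun y hy => ?_⟩
    rw [hs] at hy
    obtain ⟨v, hv, rfl⟩ := hy
    rw [← hb]
    exact DvH_hd g b hv
  unfold lb
  rw [dif_pos ex]
  exact ex.choose_spec x hx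

theorem lb_eq (hr : 1 ≤ r) {ω : V.Ω} {γ : V.Γ} {x : V.X} (hx : x ∈ ω.1) {a : AA}
    (h : V.HD x a (γ • x)) : γ • ω = ω ∧ V.lb ω γ = a := by
  have h1 : γ • ω = ω := by
    obtain ⟨e, -, he⟩ := h
    exact mem_un _ _ _ (DvH_ms γ hx) (mem_dart ω hx he (by rw [dep_smul]; exact mem_dep ω x hx))
  refine ⟨h1, ?_⟩
  have h2 := lb_spec h1 hx
  obtain ⟨κ, Φ, g, hs⟩ := ω.2
  rw [hs] at hx
  obtain ⟨u, hu, rfl⟩ := hx
  obtain ⟨v, -, a1, a2⟩ := DvH_out' g hu h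
  obtain ⟨v', -, b1, b2⟩ := DvH_out' g hu h2
  obtain rfl := g.inj hr (a2.trans b2.symm)
  exact mul_left_cancel (b1.symm.trans a1)

theorem short (γ : V.Γ) (ω : V.Ω) (x : V.X) (h : γ • ω = ω) (hx : x ∈ ω.1) :
    V.dX x (γ • x) ≤ 1 := by
  obtain ⟨e, -, he⟩ := lb_spec h hx
  exact V.dev.lg.le _ _ _ he

theorem lb_conj (hr : 1 ≤ r) (γ a : V.Γ) (ω : V.Ω) (h : a • ω = ω) :
    V.lb (γ • ω) (γ * a * γ⁻¹) = V.lb ω a := by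
  obtain ⟨x, hx⟩ := mem_ne ω
  obtain ⟨e, h1, h2⟩ := lb_spec h hx
  refine (lb_eq hr (DvH_ms γ hx) ⟨e, h1, ?_⟩).2
  rw [mul_smul, inv_smul_smul, mul_smul]
  exact V.dev.equi γ _ _ _ h2

theorem lb_mul (hr : 1 ≤ r) (a b : V.Γ) (ω : V.Ω) (ha : a • ω = ω) (hb : b • ω = ω) :
    V.lb ω (a * b) = V.lb ω a * V.lb ω b := by
  obtain ⟨x, hx⟩ := mem_ne ω
  obtain ⟨κ, Φ, g, hs⟩ := ω.2
  obtain ⟨c, hc⟩ := DvH_stab g hs ha
  obtain ⟨c', hc'⟩ := DvH_stab g hs hb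
  have hx' := hx
  rw [hs] at hx'
  obtain ⟨u, hu, rfl⟩ := hx'
  have e1 : V.lb ω a = c := (lb_eq hr hx (by rw [← hc]; exact DvH_hd g c hu)).2
  have e2 : V.lb ω b = c' := (lb_eq hr hx (by rw [← hc']; exact DvH_hd g c' hu)).2
  rw [e1, e2]
  refine (lb_eq hr hx ?_).2
  rw [mul_smul, ← hc', ← hc, ← mul_smul]
  exact DvH_hd g (c * c') hu

theorem lb_inj (a : V.Γ) (ω : V.Ω) (ha : a • ω = ω) (h : V.lb ω a = 1) : a = 1 := by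
  obtain ⟨x, hx⟩ := mem_ne ω
  have h2 := lb_spec ha hx
  rw [h] at h2
  obtain ⟨κ, Φ, g, hs⟩ := ω.2
  rw [hs] at hx
  obtain ⟨u, hu, rfl⟩ := hx
  obtain ⟨v, a0, a1, a2⟩ := DvH_out' g hu h2
  have e : P.πH v = P.πH u := by rw [← g.ov, ← g.ov, a2, DvH_pi]
  have e1 : v.ν = u.ν := congrArg Prod.fst (Sum.inr.inj (congrArg Subtype.val e))
  obtain rfl : v = u := HP.ext (a1.trans (mul_one _)) e1 a0
  exact V.dev.free _ _ a2.symm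

end DD

end Fi

end Pool.Agent.Lib.MP_429c3d_al.Ng
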