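import Pool.Agent.Lib.MP_429c3d_al.NgName
import Pool.Agent.Lib.MP_429c3d_al.NgCusp
import Pool.Agent.Lib.MP_429c3d_al.HypLabCH

set_option autoImplicit false

/-! The labelled charts of a final stage: definitions. -/

namespace Pool.Agent.Lib.MP_429c3d_al.Ng

open Hyp

/-- A final stage with long arms. -/
structure Fi (AA N0 K T : Type) [CommGroup AA] where
  J : St AA (Nm N0 T) K
  M : ℕ
  F : Fs J (2 * M)
  ok : J.OK
  k1_le : ∀ τ, 2 * F.k1 τ + 8 ≤ M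

namespace Fi

variable {AA N0 K T : Type} [CommGroup AA] (P : Fi AA N0 K T)

/-- The period of an arm. -/
def per (τ : T) : ℕ := 3 * P.M + 1 - P.F.k1 τ

/-- The element of height `h`. -/
def C (τ : T) (h : ℤ) : P.J.G := cs (P.F.Y τ) (P.F.ε τ) (idx (2 * P.M) (P.F.k1 τ) h)

/-- The base apex of an arm. -/
def o (τ : T) : P.J.Z := P.F.o (P.F.κ τ)

/-- The label of an arm. -/
def η (τ : T) : AA := P.J.lab (P.o τ) (P.F.Y τ)

/-- The cusped space. -/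
abbrev W : Type := Cu P.ok

/-- The reduced name of a flag. -/
def nb (α n : P.J.Z) : Nm N0 T := barN P.per (P.J.nm α n)

/-- The reduced name `ν` occurs in the class `κ`. -/
def Occ (κ : K) (ν : Nm N0 T) : Prop := ∃ α n, P.J.Fl α n ∧ P.J.cls α = κ ∧ P.nb α n = ν

/-- Points of the horoball chart of the class `κ`. -/
@[ext]
structure HP (κ : K) where
  a : AA
  ν : Nm N0 T
  i : ℕ
  mem : a ∈ P.J.Lb (P.F.o κ)
  occ : P.Occ κ ν

/-- The group of the horoball chart. -/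
abbrev Ac (κ : K) : Subgroup AA := P.ok.lbs (P.F.ap_o κ)

instance (κ : K) : MulAction (P.Ac κ) (P.HP κ) where
  smul b u := ⟨b * u.a, u.ν, u.i, (P.Ac κ).mul_mem b.2 u.mem, u.occ⟩
  one_smul u := HP.ext (one_mul u.a) rfl rfl
  mul_smul b b' u := HP.ext (mul_assoc (b : AA) b' u.a) rfl rfl

/-- Raw vertices of the quotient graph. -/
abbrev Q0 : Type := Set P.J.Z ⊕ Nm N0 T × ℕ

/-- Labels: across, horizontal, vertical. -/
abbrev Lbl : Type := (P.J.Z → P.J.Z → Prop) ⊕ AA ⊕ Unit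

/-- The inverse label. -/
def linv : P.Lbl → P.Lbl
  | .inl ρ => .inl fun x y => ρ y x
  | .inr (.inl a) => .inr (.inl a⁻¹)
  | .inr (.inr u) => .inr (.inr u)

/-- The raw projection of the cusped space. -/
noncomputable def pi0 (p : P.W) : P.Q0 :=
  open Classical in
  if P.J.ap p.a then .inr (P.nb p.a p.n, p.i) else .inl (MulAction.orbit P.J.G p.a)

/-- The label of an edge of the stage. -/
def crl (α β x y : P.J.Z) : Prop :=
  ¬ (P.J.ap α ∧ P.J.ap β) ∧ ∃ g : P.J.G, g • α = x ∧ g • β = y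

/-- Labelled edges of the cusped space. -/
def D0 (p : P.W) : P.Lbl → P.W → Prop
  | .inl ρ, q => Cu.Crs p q ∧ ρ = P.crl p.a q.a
  | .inr (.inl a), q => Cu.Hor dnm p q ∧ a = P.J.df p.a p.n q.n
  | .inr (.inr _), q => Cu.Ver p q

/-- Labelled edges of a horoball chart. -/
def DH {κ : K} (u : P.HP κ) : P.Lbl → P.HP κ → Prop
  | .inl _, _ => False
  | .inr (.inl b), v => v.i = u.i ∧ 1 ≤ u.i ∧ dnb P.per u.ν v.ν ≤ 2 ^ u.i ∧ v.a = u.a * b
  | .inr (.inr _), v => v.a = u.a ∧ v.ν = u.ν ∧ (v.i = u.i + 1 ∨ u.i = v.i + 1)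

/-- The metric of a horoball chart. -/
noncomputable def dH (κ : K) : P.HP κ → P.HP κ → ℕ := gd fun u v => ∃ l, P.DH u l v

/-- Vertices of the quotient graph. -/
def Q : Type := {q : P.Q0 // ∃ p, P.pi0 p = q}

/-- Raw darts that occur in a chart. -/
def Vd (e : P.Q0 × P.Lbl × P.Q0) : Prop :=
  (∃ p q, P.pi0 p = e.1 ∧ P.D0 p e.2.1 q ∧ P.pi0 q = e.2.2) ∨
    ∃ (κ : K) (u v : P.HP κ), .inr (u.ν, u.i) = e.1 ∧ P.DH u e.2.1 v ∧ .inr (v.ν, v.i) = e.2.2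

/-- Darts of the quotient graph. -/
def E : Type := {e : P.Q0 × P.Lbl × P.Q0 // P.Vd e}

theorem hp_mem {κ : K} (u : P.HP κ) : ∃ p, P.pi0 p = .inr (u.ν, u.i) := by
  obtain ⟨α, n, h1, -, h2⟩ := u.occ
  exact ⟨⟨α, n, u.i, Or.inl h1⟩, by simp only [pi0, if_pos h1.1, h2]⟩

theorem D0.inv {P : Fi AA N0 K T} {p q : P.W} {l : P.Lbl} (h : P.D0 p l q) :
    P.D0 q (P.linv l) p := by
  rcases l with ρ | a | u
  · refine ⟨h.1.symm, ?_⟩
    rw [h.2]
    funext x y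
    simp only [crl, and_comm]
  · have ha := Cu.ap_of_i h.1.2.2.1
    have hq : P.J.Fl p.a q.n := h.1.1 ▸ Cu.fl (h.1.1 ▸ ha)
    refine ⟨h.1.symm dnm_met, ?_⟩
    rw [h.2, h.1.1, P.ok.df_symm (Cu.fl ha) hq]
  · exact Cu.Ver.symm h

theorem DH.inv {P : Fi AA N0 K T} {κ : K} {u v : P.HP κ} {l : P.Lbl} (h : P.DH u l v) :
    P.DH v (P.linv l) u := by
  rcases l with ρ | a | w
  · exact h
  · obtain ⟨h1, h2, h3, h4⟩ := h
    exact ⟨h1.symm, h1 ▸ h2, by rwa [dnb_met.symm, h1], by rw [h4, mul_inv_cancel_right]⟩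
  · exact ⟨h.1.symm, h.2.1.symm, h.2.2.symm⟩

/-- The source of a dart. -/
def src (e : P.E) : P.Q :=
  ⟨e.1.1, e.2.elim (fun ⟨p, _, h, _⟩ => ⟨p, h⟩) fun ⟨_, u, _, h, _⟩ => h ▸ P.hp_mem u⟩

/-- The target of a dart. -/
def tgt (e : P.E) : P.Q :=
  ⟨e.1.2.2, e.2.elim (fun ⟨_, q, _, _, h⟩ => ⟨q, h⟩) fun ⟨_, _, v, _, _, h⟩ => h ▸ P.hp_mem v⟩

/-- The inverse dart. -/
def rev (e : P.E) : P.E :=
  ⟨(e.1.2.2, P.linv e.1.2.1, e.1.1), e.2.imp (fun ⟨p, q, h1, h2, h3⟩ => ⟨q, p, h3, h2.inv, h1⟩)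
    fun ⟨κ, u, v, h1, h2, h3⟩ => ⟨κ, v, u, h3, h2.inv, h1⟩⟩

/-- The projection of the cusped space. -/
noncomputable def πJ (p : P.W) : P.Q := ⟨P.pi0 p, p, rfl⟩

/-- The projection of a horoball chart. -/
def πH {κ : K} (u : P.HP κ) : P.Q := ⟨.inr (u.ν, u.i), P.hp_mem u⟩

/-- Darts of the cusped space. -/
def dartJ (p : P.W) (e : P.E) (q : P.W) : Prop :=
  P.pi0 p = e.1.1 ∧ P.D0 p e.1.2.1 q ∧ P.pi0 q = e.1.2.2

/-- Darts of a horoball chart. -/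
def dartH {κ : K} (u : P.HP κ) (e : P.E) (v : P.HP κ) : Prop :=
  .inr (u.ν, u.i) = e.1.1 ∧ P.DH u e.1.2.1 v ∧ .inr (v.ν, v.i) = e.1.2.2

/-- The position (arm and height) of a point of the cusped space. -/
noncomputable def pos (p : P.W) : Option T × ℤ :=
  open Classical in
  if P.J.ap p.a then ((P.J.nm p.a p.n).arm, (P.J.nm p.a p.n).ht) else (none, 0)

/-- Good points of the cusped space. -/
def good (R : ℕ) (p : P.W) : Prop := p.i ≤ R ∧ (P.pos p).2.natAbs + 2 ^ R + 2 ≤ 2 * P.M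

/-- Points whose `ρ`-ball is good. -/
def deep (R ρ : ℕ) (p : P.W) : Prop :=
  p.i + ρ ≤ R ∧ (P.pos p).2.natAbs + (ρ + 1) * 2 ^ R + 2 ≤ 2 * P.M

/-- The metric of the cusped space. -/
noncomputable abbrev dJ : P.W → P.W → ℕ := Cu.dW dnm

end Fi

end Pool.Agent.Lib.MP_429c3d_al.Ng
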