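import Pool.Agent.Lib.MP_429c3d_al.NgFi

set_option autoImplicit false

/-! The flags of the arms of a final stage. -/

namespace Pool.Agent.Lib.MP_429c3d_al.Ng

open Hyp

namespace Fi

variable {AA N0 K T : Type} [CommGroup AA] (P : Fi AA N0 K T)

theorem per_ge (τ : T) : 5 * P.M + 10 ≤ 2 * P.per τ := by
  have := P.k1_le τ
  unfold per
  omega

theorem per_le (τ : T) : P.per τ ≤ 3 * P.M := by
  have := P.F.k1_pos τ
  unfold per
  omega

/-- The apex of the translate by `g` of the standard flag with side `b` and height `h`. -/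
def sa (τ : T) (g : P.J.G) (b : Bool) (h : ℤ) : P.J.Z := if b then g • P.o τ else g • P.F.P τ h

/-- The neighbour of the translate by `g` of the standard flag. -/
def sn (τ : T) (g : P.J.G) (b : Bool) (h : ℤ) : P.J.Z := if b then g • P.F.P τ h else g • P.o τ

variable {P}

theorem fl_st {τ : T} {h : ℤ} (hv : Val (2 * P.M) h) (g : P.J.G) (b : Bool) :
    P.J.Fl (P.sa τ g b h) (P.sn τ g b h) ∧
      P.J.nm (P.sa τ g b h) (P.sn τ g b h) = .inr (τ, b, h) := by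
  have f1 : P.J.Fl (P.o τ) (P.F.P τ h) := ⟨P.F.ap_o _, P.F.adj τ h hv⟩
  have f2 : P.J.Fl (P.F.P τ h) (P.o τ) := ⟨P.F.ap_P τ h hv, by rw [P.ok.gr.met.symm]; exact f1.2⟩
  cases b
  · exact ⟨P.ok.fl_smul g f2, (P.ok.nm_smul g _ _ f2).trans (P.F.nmF τ h hv)⟩
  · exact ⟨P.ok.fl_smul g f1, (P.ok.nm_smul g _ _ f1).trans (P.F.nmE τ h hv)⟩

theorem val_rep {α n : P.J.Z} {τ : T} {b : Bool} {h : ℤ} (hf : P.J.Fl α n)
    (e : P.J.nm α n = .inr (τ, b, h)) (hv : Val (2 * P.M) h) :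
    ∃ g, α = P.sa τ g b h ∧ n = P.sn τ g b h := by
  have f := fl_st (τ := τ) hv 1 b
  obtain ⟨g, h1, h2⟩ := P.ok.nm_orb _ _ _ _ f.1 hf (f.2.trans e.symm)
  refine ⟨g, ?_, ?_⟩
  · rw [← h1]
    cases b <;> simp [sa]
  · rw [← h2]
    cases b <;> simp [sn]

theorem st_inj {τ : T} {b : Bool} {h : ℤ} (hv : Val (2 * P.M) h) {g g' : P.J.G}
    (e : P.sa τ g b h = P.sa τ g' b h) (e' : P.sn τ g b h = P.sn τ g' b h) : g = g' := by
  have ne : P.o τ ≠ P.F.P τ h := fun e => by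
    have := P.F.adj τ h hv
    rw [← show P.F.o (P.F.κ τ) = _ from e, P.ok.gr.met.self] at this
    omega
  have key : g • P.o τ = g' • P.o τ ∧ g • P.F.P τ h = g' • P.F.P τ h := by
    cases b
    exacts [⟨e', e⟩, ⟨e, e'⟩]
  have := P.ok.two (g'⁻¹ * g) _ _ (by rw [mul_smul, key.1, inv_smul_smul])
    (by rw [mul_smul, key.2, inv_smul_smul]) ne
  exact (inv_mul_eq_one.1 this).symm

theorem opp {α n : P.J.Z} {τ : T} {b : Bool} {h : ℤ} (hf : P.J.Fl α n)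
    (e : P.J.nm α n = .inr (τ, b, h)) (hv : Val (2 * P.M) h) :
    P.J.ap n ∧ P.J.nm n α = .inr (τ, !b, h) := by
  obtain ⟨g, rfl, rfl⟩ := val_rep hf e hv
  have f := fl_st (τ := τ) hv g (!b)
  cases b
  exacts [⟨f.1.1, f.2⟩, ⟨f.1.1, f.2⟩]

theorem ht_le {α n : P.J.Z} (hf : P.J.Fl α n) : (P.J.nm α n).ht.natAbs ≤ 2 * P.M := by
  rcases e : P.J.nm α n with ν | ⟨τ, b, h⟩
  · simp [Nm.ht]
  · have h1 := P.F.nm_rng _ _ _ _ _ hf e
    have h2 := P.k1_le τ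
    unfold Val at h1
    simp only [Nm.ht]
    omega

theorem shift_cases {α n α' n' : P.J.Z} (hf : P.J.Fl α n) (hf' : P.J.Fl α' n')
    (e : P.nb α n = P.nb α' n') : P.J.nm α n = P.J.nm α' n' ∨ ∃ τ b h h',
      P.J.nm α n = .inr (τ, b, h) ∧ P.J.nm α' n' = .inr (τ, b, h') ∧ Val (2 * P.M) h ∧
      Val (2 * P.M) h' ∧ (h' = h + P.per τ ∨ h = h' + P.per τ) := by
  refine (barN_eq e).imp id ?_
  rintro ⟨τ, b, i, j, h1, h2, h3, c, h4⟩
  have r1 := P.F.nm_rng _ _ _ _ _ hf h1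
  have r2 := P.F.nm_rng _ _ _ _ _ hf' h2
  have r3 := P.per_ge τ
  unfold Val at r1 r2
  have hc : c = 1 ∨ c = -1 := by
    rcases (by omega : c ≤ -2 ∨ c = -1 ∨ c = 0 ∨ c = 1 ∨ 2 ≤ c) with h | h | h | h | h
    · have := mul_le_mul_of_nonneg_left h (Int.natCast_nonneg (P.per τ))
      omega
    · exact Or.inr h
    · rw [h] at h4
      omega
    · exact Or.inl h
    · have := mul_le_mul_of_nonneg_left h (Int.natCast_nonneg (P.per τ))
      omega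
  refine ⟨τ, b, i, j, h1, h2, ?_, ?_, ?_⟩
  all_goals
    try unfold Val
    rcases hc with rfl | rfl <;> omega

theorem cls_st {τ : T} {h : ℤ} (hv : Val (2 * P.M) h) (h1 : h ≠ 1) (g : P.J.G) (b : Bool) :
    P.J.cls (P.sa τ g b h) = P.F.κ τ := by
  cases b
  · simp only [sa, Bool.false_eq_true, if_false, P.ok.cls_smul]
    by_cases e : h = -(2 * P.M : ℕ)
    · rw [e, P.F.cls_last]
    · have := P.F.P_succ τ (h - 1) (by unfold Val at hv ⊢; omega) (by simpa using hv)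
      rw [sub_add_cancel] at this
      rw [this, P.ok.cls_smul, P.F.cls_o]
  · simp only [sa, if_true, P.ok.cls_smul, o, P.F.cls_o]

theorem cls_nb {α n α' n' : P.J.Z} (hf : P.J.Fl α n) (hf' : P.J.Fl α' n')
    (e : P.nb α n = P.nb α' n') : P.J.cls α = P.J.cls α' := by
  rcases shift_cases hf hf' e with h | ⟨τ, b, h, h', h1, h2, v, v', h3⟩
  · obtain ⟨g, rfl, -⟩ := P.ok.nm_orb _ _ _ _ hf hf' h
    rw [P.ok.cls_smul]
  · obtain ⟨g, rfl, -⟩ := val_rep hf h1 v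
    obtain ⟨g', rfl, -⟩ := val_rep hf' h2 v'
    have := P.per_ge τ
    rw [cls_st v (by unfold Val at v v'; omega), cls_st v' (by unfold Val at v v'; omega)]

theorem Occ.un {κ κ' : K} {ν : Nm N0 T} (h : P.Occ κ ν) (h' : P.Occ κ' ν) : κ = κ' := by
  obtain ⟨α, n, h1, rfl, h2⟩ := h
  obtain ⟨α', n', h3, rfl, h4⟩ := h'
  exact cls_nb h1 h3 (h2.trans h4.symm)

/-- All flags at the last cone of an arm have the same name. -/
theorem nm_last (τ : T) (g : P.J.G) {n : P.J.Z} (h : P.J.d (g • P.F.P τ (-(2 * P.M : ℕ))) n = 1) :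
    P.J.nm (g • P.F.P τ (-(2 * P.M : ℕ))) n = .inr (τ, false, -(2 * P.M : ℕ)) := by
  have v : Val (2 * P.M) (-(2 * P.M : ℕ)) := by
    have := P.k1_le τ
    unfold Val
    omega
  obtain ⟨i, hi⟩ := P.F.nb_last τ (g⁻¹ • n) (by rwa [← P.ok.iso g, smul_inv_smul])
  have := (fl_st (τ := τ) v (g * P.F.ε τ ^ i) false).2
  simp only [sa, sn, Bool.false_eq_true, if_false, mul_smul, St.zpow_fix (P.F.fix_last τ)] at this
  rw [inv_smul_eq_iff.1 hi]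
  exact this

theorem full {α n : P.J.Z} (hf : P.J.Fl α n) (h : (P.J.nm α n).ht.natAbs < 2 * P.M) :
    ∃ g : P.J.G, α = g • P.F.o (P.J.cls α) := by
  refine (P.F.orb α hf.1).resolve_right ?_
  rintro ⟨τ, g, rfl⟩
  rw [nm_last τ g hf.2] at h
  simp only [Nm.ht] at h
  omega

theorem exists_nb {α n α' n' : P.J.Z} (hf : P.J.Fl α n) (h : (P.J.nm α n).ht.natAbs < 2 * P.M)
    (hf' : P.J.Fl α' n') (h' : (P.J.nm α' n').ht.natAbs < 2 * P.M) (e : P.J.cls α' = P.J.cls α)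
    {a : AA} (ha : a ∈ P.J.Lb (P.F.o (P.J.cls α))) :
    ∃ n'', P.J.Fl α n'' ∧ P.J.nm α n'' = P.J.nm α' n' ∧ P.J.df α n n'' = a := by
  obtain ⟨g, hg⟩ := full hf h
  obtain ⟨g', hg'⟩ := full hf' h'
  have e1 : (g * g'⁻¹) • α' = α := by
    rw [mul_smul, inv_smul_eq_iff.2 hg', e, ← hg]
  have f1 : P.J.Fl α ((g * g'⁻¹) • n') := e1 ▸ P.ok.fl_smul _ hf'
  obtain ⟨x, x1, x2⟩ : (P.J.df α n ((g * g'⁻¹) • n'))⁻¹ * a ∈ P.J.Lb (P.F.o (P.J.cls α)) :=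
    (P.Ac _).mul_mem ((P.Ac _).inv_mem (P.F.df_mem _ _ _ hf f1)) ha
  have e2 : (g * x * g⁻¹) • α = α := by
    rw [mul_smul, mul_smul, inv_smul_eq_iff.2 hg, x1, ← hg]
  have e3 : P.J.lab α (g * x * g⁻¹) = P.J.lab (P.F.o (P.J.cls α)) x := by
    rw [← P.ok.lab_conj g (P.F.ap_o _) x1, ← hg]
  refine ⟨(g * x * g⁻¹) • (g * g'⁻¹) • n', P.ok.fl_fix f1 e2, ?_, ?_⟩
  · rw [← P.ok.nm_smul (g * g'⁻¹) _ _ hf', e1, ← P.ok.nm_smul (g * x * g⁻¹) _ _ f1, e2]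
  · rw [← P.ok.df_mul _ _ _ _ hf f1 (P.ok.fl_fix f1 e2), P.ok.lab_df _ _ _ f1 e2, e3, x2,
      mul_inv_cancel_left]

theorem nb_un {α n n' n'' : P.J.Z} (hf : P.J.Fl α n) (hf' : P.J.Fl α n') (hf'' : P.J.Fl α n'')
    (e : P.J.nm α n' = P.J.nm α n'') (e' : P.J.df α n n' = P.J.df α n n'') : n' = n'' := by
  obtain ⟨g, h1, rfl⟩ := P.ok.nm_orb _ _ _ _ hf' hf'' e
  rw [← P.ok.df_mul _ _ _ _ hf hf' hf'', P.ok.lab_df _ _ _ hf' h1, left_eq_mul] at e'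
  rw [P.ok.lab_inj α g hf.1 h1 e', one_smul]

theorem C_add {τ : T} {a h : ℤ} (ha : -(2 * P.M : ℕ) ≤ a) (hah : a ≤ h) (hs : 0 < a ∨ h < 0) :
    P.C τ h = cs (P.F.Y τ) (P.C τ a) (h - a).toNat := by
  have := P.F.k1_pos τ
  rw [C, C, cs_add]
  congr 1
  unfold idx
  split_ifs <;> omega

theorem C_fix {τ : T} {h : ℤ} (hv : Val (2 * P.M) h)
    (hv' : Val (2 * P.M) (h - 1) ∨ h = -(2 * P.M : ℕ)) :
    P.C τ h • P.F.P τ h = P.F.P τ h ∧ P.J.lab (P.F.P τ h) (P.C τ h) = P.η τ := by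
  rcases hv' with h1 | rfl
  · have e := P.F.P_succ τ (h - 1) h1 (by simpa using hv)
    rw [sub_add_cancel] at e
    have e' : P.C τ h = P.C τ (h - 1) * P.F.Y τ * (P.C τ (h - 1))⁻¹ := by
      rw [C_add (a := h - 1) (h := h) (by unfold Val at h1; omega) (by omega)
        (by unfold Val at hv h1; omega), sub_sub_cancel]
      rfl
    rw [e, e']
    exact ⟨by
      change _ = P.C τ (h - 1) • _
      rw [mul_smul, mul_smul]
      erw [inv_smul_smul]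
      rw [P.F.Y_fix], P.ok.lab_conj _ (P.F.ap_o _) (P.F.Y_fix τ)⟩
  · have : idx (2 * P.M) (P.F.k1 τ) (-(2 * P.M : ℕ)) = 0 := by
      unfold idx
      split_ifs <;> omega
    rw [C, this]
    exact ⟨P.F.fix_last τ, P.F.lab_last τ⟩

theorem pi0_smul (g : P.J.G) (p : P.W) : P.pi0 (g • p) = P.pi0 p := by
  unfold pi0
  rw [Cu.smul_a, Cu.smul_n, Cu.smul_i]
  by_cases h : P.J.ap p.a
  · rw [if_pos h, if_pos (P.ok.ap_smul g _ h), nb, nb, P.ok.nm_smul g _ _ (Cu.fl h)]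
  · rw [if_neg h, if_neg (mt (P.ok.ap_smul_iff g _).1 h), MulAction.orbit_smul]

theorem pos_smul (g : P.J.G) (p : P.W) : P.pos (g • p) = P.pos p := by
  unfold pos
  rw [Cu.smul_a, Cu.smul_n]
  by_cases h : P.J.ap p.a
  · rw [if_pos h, if_pos (P.ok.ap_smul g _ h), P.ok.nm_smul g _ _ (Cu.fl h)]
  · rw [if_neg h, if_neg (mt (P.ok.ap_smul_iff g _).1 h)]

theorem D0.smul {p q : P.W} {l : P.Lbl} (h : P.D0 p l q) (g : P.J.G) :
    P.D0 (g • p) l (g • q) := by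
  rcases l with ρ | a | u
  · refine ⟨h.1.smul g, ?_⟩
    rw [h.2, Cu.smul_a, Cu.smul_a]
    funext x y
    simp only [crl, P.ok.ap_smul_iff, eq_iff_iff]
    refine and_congr_right fun _ => ⟨fun ⟨c, h1, h2⟩ => ⟨c * g⁻¹, ?_, ?_⟩,
      fun ⟨c, h1, h2⟩ => ⟨c * g, ?_, ?_⟩⟩
    all_goals simpa [mul_smul]
  · have ha := Cu.ap_of_i h.1.2.2.1
    have hq : P.J.Fl p.a q.n := h.1.1 ▸ Cu.fl (h.1.1 ▸ ha)
    exact ⟨h.1.smul g, h.2.trans (P.ok.df_smul g _ _ _ (Cu.fl ha) hq).symm⟩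
  · exact Cu.Ver.smul h g

theorem dartJ.smul {p q : P.W} {e : P.E} (h : P.dartJ p e q) (g : P.J.G) :
    P.dartJ (g • p) e (g • q) :=
  ⟨(pi0_smul g p).trans h.1, h.2.1.smul g, (pi0_smul g q).trans h.2.2⟩

/-- Points with the same projection: a translate, or shifted names. -/
theorem pi0_cases {p q : P.W} (e : P.pi0 p = P.pi0 q) : (∃ g : P.J.G, g • p = q) ∨
    (P.J.ap p.a ∧ P.J.ap q.a ∧ p.i = q.i ∧ ∃ τ b h h', P.J.nm p.a p.n = .inr (τ, b, h) ∧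
      P.J.nm q.a q.n = .inr (τ, b, h') ∧ Val (2 * P.M) h ∧ Val (2 * P.M) h' ∧
      (h' = h + P.per τ ∨ h = h' + P.per τ)) := by
  unfold pi0 at e
  by_cases h : P.J.ap p.a <;> by_cases h' : P.J.ap q.a
  · rw [if_pos h, if_pos h'] at e
    simp only [Sum.inr.injEq, Prod.mk.injEq] at e
    rcases shift_cases (Cu.fl h) (Cu.fl h') e.1 with h1 | h1
    · obtain ⟨g, h2, h3⟩ := P.ok.nm_orb _ _ _ _ (Cu.fl h) (Cu.fl h') h1
      exact Or.inl ⟨g, Cu.ext h2 h3 e.2⟩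
    · exact Or.inr ⟨h, h', e.2, h1⟩
  · simp [h, h'] at e
  · simp [h, h'] at e
  · rw [if_neg h, if_neg h'] at e
    obtain ⟨g, hg⟩ : q.a ∈ MulAction.orbit P.J.G p.a := by
      rw [Sum.inl.inj e]
      exact MulAction.mem_orbit_self _
    have h1 : (g • p).a = q.a := hg
    exact Or.inl ⟨g, by rw [Cu.eq_pt (p := g • p) (h1 ▸ h'), Cu.eq_pt h', h1]⟩

theorem orbit_of {p q : P.W} (e : P.pi0 p = P.pi0 q) (h : dz (P.pos p) (P.pos q) ≤ 2 * P.M) :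
    ∃ g : P.J.G, g • p = q := by
  refine (pi0_cases e).resolve_right ?_
  rintro ⟨h1, h2, -, τ, b, i, j, h3, h4, -, -, h5⟩
  have := P.per_ge τ
  simp only [pos, if_pos h1, if_pos h2, h3, h4, dz, Nm.arm, Nm.ht, if_true] at h
  omega

end Fi

end Pool.Agent.Lib.MP_429c3d_al.Ng
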