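import Pool.Agent.Lib.MP_429c3d_al.NgGate

/-! Feet of points on lines, first copies, chains. -/

set_option autoImplicit false

namespace Pool.Agent.Lib.MP_429c3d_al.Ng

open Hyp

/-- Chains with steps at most `r` inside a set. -/
def Con {V : Type} (d : V → V → ℕ) (r : ℕ) (S : Set V) (x y : V) : Prop :=
  x ∈ S ∧ Relation.ReflTransGen (fun a b => b ∈ S ∧ d a b ≤ r) x y

section Con

variable {V W : Type} {d : V → V → ℕ} {dW : W → W → ℕ} {r : ℕ} {S : Set V} {x y z : V}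

theorem Con.refl (h : x ∈ S) : Con d r S x x := ⟨h, Relation.ReflTransGen.refl⟩

theorem Con.step (hx : x ∈ S) (hy : y ∈ S) (h : d x y ≤ r) : Con d r S x y :=
  ⟨hx, Relation.ReflTransGen.single ⟨hy, h⟩⟩

theorem Con.trans (h : Con d r S x y) (h' : Con d r S y z) : Con d r S x z :=
  ⟨h.1, h.2.trans h'.2⟩

theorem Con.map {T : Set W} (f : V → W) (hf : ∀ a b, dW (f a) (f b) ≤ d a b)
    (hT : ∀ a ∈ S, f a ∈ T) (h : Con d r S x y) : Con dW r T (f x) (f y) := by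
  refine ⟨hT _ h.1, ?_⟩
  obtain ⟨-, h⟩ := h
  induction h with
  | refl => exact Relation.ReflTransGen.refl
  | tail _ h2 ih => exact ih.tail ⟨hT _ h2.1, (hf _ _).trans h2.2⟩

theorem Con.mono {T : Set V} (hT : S ⊆ T) (h : Con d r S x y) : Con d r T x y :=
  h.map id (fun _ _ => le_rfl) hT

theorem Con.symm (m : IsMet d) (h : Con d r S x y) : Con d r S y x := by
  obtain ⟨hx, h⟩ := h
  induction h with
  | refl => exact Con.refl hx
  | tail _ h2 ih => exact (Con.step h2.1 ih.1 (by rw [m.symm]; exact h2.2)).trans ih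

theorem con_iff : Con d r S x y ↔ ∃ (c : ℕ → V) (n : ℕ), c 0 = x ∧ c n = y ∧
    (∀ i, i ≤ n → c i ∈ S) ∧ ∀ i, i < n → d (c i) (c (i + 1)) ≤ r := by
  constructor
  · rintro ⟨hx, h⟩
    induction h with
    | refl => exact ⟨fun _ => x, 0, rfl, rfl, fun _ _ => hx, fun i hi => absurd hi (by omega)⟩
    | @tail b c' _ h2 ih =>
      obtain ⟨c, n, h0, hn, h3, h4⟩ := ih
      refine ⟨fun i => if i ≤ n then c i else c', n + 1, by simpa using h0, by simp, ?_, ?_⟩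
      · intro i _
        by_cases hi : i ≤ n
        · simpa [hi] using h3 i hi
        · simpa [hi] using h2.1
      · intro i hi
        rcases Nat.lt_succ_iff_lt_or_eq.1 hi with h5 | rfl
        · simpa [h5.le, Nat.succ_le_of_lt h5] using h4 i h5
        · simpa [hn] using h2.2
  · rintro ⟨c, n, rfl, rfl, h3, h4⟩
    induction n with
    | zero => exact Con.refl (h3 0 le_rfl)
    | succ n ih =>
      exact (ih (fun i hi => h3 i (by omega)) fun i hi => h4 i (by omega)).trans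
        (Con.step (h3 n (by omega)) (h3 _ le_rfl) (h4 n (by omega)))

end Con

variable {G G' Z Z' : Type} [Group G] [Group G'] [MulAction G Z] [MulAction G' Z']
  {d : Z → Z → ℕ} {d' : Z' → Z' → ℕ}

namespace Gate

variable (S : Gate G G' d d')

/-- No common gate in the base copy. -/
def Dis (x y : Z') : Prop := ∀ c, S.Rho x c → ¬ S.Rho y c

theorem Dis.symm {S : Gate G G' d d'} {x y : Z'} (h : S.Dis x y) : S.Dis y x :=
  fun c h1 h2 => h c h2 h1

theorem not_dis {x y : Z'} : ¬ S.Dis x y ↔ ∃ c, S.Rho x c ∧ S.Rho y c := by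
  simp [Dis]

theorem dis_old {x y : Z'} (hx : S.Old x) (hy : S.Old y) : S.Dis x y ↔ S.rt x ≠ S.rt y := by
  simp [Dis, hx.rho, hy.rho]

theorem dis_old_right {x y : Z'} (hy : S.Old y) : S.Dis x y ↔ ¬ S.Rho x (S.rt y) := by
  simp only [Dis, hy.rho]
  exact ⟨fun h h' => h _ h' rfl, fun h c h1 h2 => h (h2 ▸ h1)⟩

theorem dis_smul (g : G) (x y : Z') : S.Dis (S.φ g • x) (S.φ g • y) ↔ S.Dis x y := by
  simp only [Dis, S.rho_smul']
  exact ⟨fun h c => by simpa using h (g • c), fun h c => h _⟩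

theorem OnL.not_dis {S : Gate G G' d d'} {x a : Z'} (h : S.OnL x a) : ¬ S.Dis x a :=
  S.not_dis.2 ⟨_, h.rho, S.rho_rt a⟩

theorem line_old {y : Z'} (hy : S.Old y) : ∃ j : ℤ, S.rt (S.e ^ (-j) • y) ≠ S.h ∧
    (∀ i, i < j → S.rt (S.e ^ (-i) • y) = S.h) ∧ ∀ i, j < i → S.rt (S.e ^ (-i) • y) = S.t := by
  obtain ⟨γ, z, rfl⟩ := hy
  exact S.line γ z

/-- A copy crossed by the basic line is one of the copies `e ^ i`. -/
theorem cross {σ : G'} {g : G} (h : σ • S.w = S.φ g • S.w) :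
    ∃ i : ℤ, ∀ x : Z', σ • x = S.φ g • S.e ^ (-i) • x := by
  obtain ⟨i, hi⟩ := S.stab_w (σ⁻¹ * S.φ g) (by rw [mul_smul, ← h, inv_smul_smul])
  exact ⟨i, fun x => by rw [zpow_neg, ← hi, mul_inv_rev, inv_inv, mul_smul, smul_inv_smul]⟩

theorem foot_w {y : Z'} (hy : S.Old y) : ∃ p, S.OnL S.w p ∧
    ∀ σ : G', S.Dis (σ • p) (σ • y) → S.Dis (σ • S.w) (σ • y) := by
  obtain ⟨j, h1, h2, h3⟩ := S.line_old hy
  have hp : S.OnL S.w (S.e ^ j • S.ι S.t) := by simpa using S.onL_zpow 1 j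
  refine ⟨_, hp, fun σ hd => ?_⟩
  rw [S.dis_old (hp.old.smul σ) (hy.smul σ)] at hd
  rw [S.dis_old_right (hy.smul σ)]
  intro hc
  obtain ⟨g, e1, e2⟩ := S.rho_two (hp.smul σ).rho hc hd
  obtain ⟨i, hi⟩ := S.cross e1
  rw [hi, hi, S.rt_smul, S.rt_smul, ← mul_smul, ← zpow_add, S.rt_zpow] at e2
  simp only [smul_left_cancel_iff] at e2
  have := S.th
  rcases lt_trichotomy i j with hij | rfl | hij
  · rw [if_pos (by omega), h2 i hij] at e2
    rcases e2 with ⟨e2, -⟩ | ⟨-, e2⟩ <;> exact this e2.symm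
  · rw [if_neg (by omega)] at e2
    rcases e2 with ⟨-, e2⟩ | ⟨e2, -⟩
    exacts [h1 e2, this e2]
  · rw [if_neg (by omega), h3 i hij] at e2
    rcases e2 with ⟨-, e2⟩ | ⟨e2, -⟩ <;> exact this e2

/-- The foot of an old point on a line. -/
theorem foot (γ : G') {y : Z'} (hy : S.Old y) : ∃ p, S.OnL (γ • S.w) p ∧
    ∀ σ : G', S.Dis (σ • p) (σ • y) → S.Dis (σ • γ • S.w) (σ • y) := by
  obtain ⟨p, h1, h2⟩ := S.foot_w (hy.smul γ⁻¹)
  refine ⟨γ • p, h1.smul γ, fun σ hd => ?_⟩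
  have := h2 (σ * γ) (by simpa [mul_smul] using hd)
  simpa [mul_smul] using this

/-- The feet of two lines without common point. -/
theorem feet (γ δ : G') (h : ∀ p, S.OnL (γ • S.w) p → ¬ S.OnL (δ • S.w) p) :
    ∃ p p', S.OnL (γ • S.w) p ∧ S.OnL (δ • S.w) p' ∧
      ∀ σ : G', S.Dis (σ • p) (σ • p') → S.Dis (σ • γ • S.w) (σ • δ • S.w) := by
  obtain ⟨p, h1, h2⟩ := S.foot γ (S.onL_t δ).old
  obtain ⟨p', h3, h4⟩ := S.foot δ h1.old
  refine ⟨p, p', h1, h3, fun σ hd c hc hc' => ?_⟩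
  have e1 := h4 σ hd.symm
  rw [S.dis_old_right (h1.old.smul σ)] at e1
  have hne : c ≠ S.rt (σ • p) := fun hh => e1 (hh ▸ hc')
  have e2 := S.rho_two_onL hc (h1.smul σ).rho hne
  have e0 := ((S.onL_t δ).smul σ).rho
  by_cases e3 : c = S.rt (σ • δ • S.ι S.t)
  · refine h2 σ ?_ c hc (e3 ▸ S.rho_rt _)
    rw [S.dis_old (h1.old.smul σ) ((S.onL_t δ).old.smul σ), ← e3]
    exact hne.symm
  · have e4 := S.rho_two_onL hc' e0 e3
    refine h (σ⁻¹ • S.ι c) ?_ ?_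
    · simpa using e2.smul σ⁻¹
    · simpa using e4.smul σ⁻¹

/-- The copy at an old point that looks towards another old point. -/
theorem first_old {a y : Z'} (ha : S.Old a) (hy : S.Old y) (h : y ≠ a) :
    ∃ (σ : G') (a₁ : Z), σ • S.ι a₁ = a ∧ S.rt (σ⁻¹ • y) ≠ a₁ := by
  obtain ⟨δ, a₀, rfl⟩ := ha
  obtain ⟨γ, z, rfl⟩ := hy
  obtain ⟨σ, a₁, e1, e2⟩ := S.exists_first_old (δ⁻¹ * γ) z a₀ fun hh => h (by
    rw [← hh, mul_smul, smul_inv_smul])
  exact ⟨δ * σ, a₁, by rw [mul_smul, e1], by simpa [mul_smul] using e2⟩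

/-- The copy at an old point that looks towards any point. -/
theorem first {a y : Z'} (ha : S.Old a) (h : y ≠ a) (h' : ¬ S.OnL y a) :
    ∃ (σ : G') (a₁ : Z), σ • S.ι a₁ = a ∧ ¬ S.Rho (σ⁻¹ • y) a₁ := by
  rcases S.cover y with hy | ⟨γ, rfl⟩
  · obtain ⟨σ, a₁, e1, e2⟩ := S.first_old ha hy h
    exact ⟨σ, a₁, e1, fun hh => e2 (((Old.smul hy _).rho).1 hh).symm⟩
  · obtain ⟨p, h1, h2⟩ := S.foot γ ha
    obtain ⟨σ, a₁, e1, e2⟩ := S.first_old ha h1.old fun hh => h' (hh ▸ h1)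
    have e3 : S.rt (σ⁻¹ • a) = a₁ := by rw [← e1, inv_smul_smul, S.rt_ι]
    have e4 := h2 σ⁻¹ (by rwa [S.dis_old (h1.old.smul _) (ha.smul _), e3])
    exact ⟨σ, a₁, e1, fun hh => e4 _ hh (e3 ▸ S.rho_rt _)⟩

end Gate

end Pool.Agent.Lib.MP_429c3d_al.Ng
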