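import Pool.Agent.Lib.MP_429c3d_al.NgU

/-! The invariant PW passes to the next stage. -/

set_option autoImplicit false

namespace Pool.Agent.Lib.MP_429c3d_al.Ng

open Hyp

theorem Pre.exists_height {V : Type} {O : V → Prop} {B : V → V → V → Prop} (P : Pre O B)
    {c : ℤ → V} (h : ∀ i, B (c i) (c (i + 1)) (c (i + 2))) (hne : ∀ i, c i ≠ c (i + 1)) {y : V}
    (hy : O y) : Function.Injective c ∧ ∃ m : ℤ, ∀ i, B y (c i) (c (i + 1)) ↔ m ≤ i := by
  have hlt : ∀ i k, i < k → c i ≠ c k := fun i k hik hh =>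
    hne i (P.eq_of_self (by
      have := P.align h hne (show i ≤ i + 1 by omega) (show i + 1 ≤ k by omega)
      rwa [← hh] at this)).symm
  have hinj : Function.Injective c := fun i k hh => by
    rcases lt_trichotomy i k with h1 | h1 | h1
    exacts [absurd hh (hlt _ _ h1), h1, absurd hh.symm (hlt _ _ h1)]
  have up : ∀ i k, B y (c i) (c (i + 1)) → i + 1 ≤ k → B y (c (i + 1)) (c k) := fun i k h1 h2 =>
    P.glue h1 (P.align h hne (by omega) h2) (hne i)
  have mono : ∀ i k, B y (c i) (c (i + 1)) → i ≤ k → B y (c k) (c (k + 1)) := by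
    intro i k h1 h2
    induction k, h2 using Int.leInduction with
    | base => exact h1
    | succ k _ ih => exact up k _ ih (by omega)
  have ex : ∃ i, B y (c i) (c (i + 1)) := by
    by_contra hn
    push Not at hn
    refine Set.infinite_of_injective_forall_mem (f := fun n : ℕ => c n)
      (fun a b hh => by exact_mod_cast hinj hh) (fun n => ?_) (P.fin (c 0) y)
    exact (P.split _ _ _ y hy (P.align h hne (show (0 : ℤ) ≤ n by omega)
      (show (n : ℤ) ≤ n + 1 by omega))).resolve_right (hn _)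
  have ex' : ∃ i, ¬ B y (c i) (c (i + 1)) := by
    by_contra hn
    push Not at hn
    refine Set.infinite_of_injective_forall_mem (f := fun n : ℕ => c (-n))
      (fun a b hh => by have := hinj hh; omega) (fun n => ?_) (P.fin y (c 1))
    exact P.sub (up _ 1 (hn _) (by omega)) (hn _)
  obtain ⟨b, hb⟩ := ex'
  obtain ⟨m, m1, m2⟩ := Int.exists_least_of_bdd (P := fun i => B y (c i) (c (i + 1)))
    ⟨b, fun z hz => by
      by_contra hh
      exact hb (mono z b hz (by omega))⟩ ex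
  exact ⟨hinj, m, fun i => ⟨m2 i, mono m i m1⟩⟩

variable {G G' Z Z' : Type} [Group G] [Group G'] [MulAction G Z] [MulAction G' Z']
  {d : Z → Z → ℕ} {d' : Z' → Z' → ℕ}

namespace Gate

variable (S : Gate G G' d d')

/-- Two lines with two common points are equal. -/
theorem line_eq (hf : Free2 G Z) (hs : ∀ s : G, s • S.t = S.h → s • S.h ≠ S.t) {x y p p' : Z'}
    (x1 : S.OnL x p) (x2 : S.OnL x p') (y1 : S.OnL y p) (y2 : S.OnL y p') (hne : p' ≠ p) :
    x = y := by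
  obtain ⟨σ, a, rfl, e⟩ := S.first_old x1.old x2.old hne
  have r1 := (x1.smul σ⁻¹).rho
  have r2 := (y1.smul σ⁻¹).rho
  rw [inv_smul_smul, S.rt_ι] at r1 r2
  obtain ⟨c, c1, c2⟩ := S.rho_two r1 (x2.smul σ⁻¹).rho e.symm
  obtain ⟨c', c3, c4⟩ := S.rho_two r2 (y2.smul σ⁻¹).rho e.symm
  have key : ∀ u v : Z, c • u = c' • v → (c'⁻¹ * c) • u = v := fun u v hh => by
    rw [mul_smul, hh, inv_smul_smul]
  have : c'⁻¹ * c = 1 := by
    rcases c2 with ⟨a1, a2⟩ | ⟨a1, a2⟩ <;> rcases c4 with ⟨b1, b2⟩ | ⟨b1, b2⟩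
    · exact hf _ _ _ (key _ _ (a1.symm.trans b1)) (key _ _ (a2.symm.trans b2)) S.th
    · exact absurd (key _ _ (a2.symm.trans b2)) (hs _ (key _ _ (a1.symm.trans b1)))
    · exact absurd (key _ _ (a1.symm.trans b1)) (hs _ (key _ _ (a2.symm.trans b2)))
    · exact hf _ _ _ (key _ _ (a2.symm.trans b2)) (key _ _ (a1.symm.trans b1)) S.th
  rw [inv_mul_eq_one] at this
  exact smul_left_cancel σ⁻¹ (by rw [c1, c3, this])

theorem bt_rt (z : Z) {y : Z'} (hy : S.Old y) : S.Bt (S.ι z) (S.ι (S.rt y)) y := by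
  by_cases h : z = S.rt y
  · rw [h]
    exact S.bt_left (S.old_ι _) hy
  · exact (S.bt_base (S.old_ι z) hy (by rwa [S.rt_ι])).2 rfl

theorem cnt_ι_le (a b : Z) : cnt S.Bt (S.ι a) (S.ι b) ≤ 2 :=
  (Set.ncard_le_ncard (t := {S.ι a, S.ι b}) (fun _ hv => S.bt_ι hv) (Set.toFinite _)).trans
    ((Set.ncard_insert_le _ _).trans (by rw [Set.ncard_singleton]))

theorem axis_step {a : G'} (ha : a ∉ S.φ.range) {z : Z} (h1 : S.rt (a • S.ι z) ≠ z)
    (h2 : S.rt (a⁻¹ • S.ι z) ≠ z) :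
    ∃ u, cnt S.Bt (S.ι u) (a • S.ι u) < cnt S.Bt (S.ι z) (a • S.ι z) := by
  obtain ⟨u, hu⟩ : ∃ u, u = S.rt (a⁻¹ • S.ι z) := ⟨_, rfl⟩
  have e1 := (S.bt_rt z (S.old_smul_ι a⁻¹ z)).smul a
  rw [smul_inv_smul, ← hu] at e1
  have e2 := S.pre.cnt_add e1.symm
  have e3 := S.pre.two_le_cnt (S.old_smul_ι a u) (S.old_smul_ι a z) fun hh =>
    h2 (hu ▸ S.ι_inj (smul_left_cancel a hh))
  have e4 := S.pre.cnt_add (S.bt_rt z (S.old_smul_ι a u))
  have e5 := S.pre.cnt_add (S.bt_rt u (S.old_smul_ι a u))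
  have e6 := S.cnt_ι_le u (S.rt (a • S.ι u))
  have e7 := S.pre.two_le_cnt (S.old_ι z) (S.old_ι (S.rt (a • S.ι u))) fun hh =>
    h1 ((S.far a ha z u).trans (S.ι_inj hh).symm)
  exact ⟨u, by omega⟩

/-- An element that fixes no copy and no old point has an axis. -/
theorem exists_axis {a : G'} (ha : ∀ σ : G', σ⁻¹ * a * σ ∉ S.φ.range)
    (hfix : ∀ y, S.Old y → a • y ≠ y) : ∃ α, S.Bt (a⁻¹ • α) α (a • α) := by
  have key : ∀ n x, S.Old x → cnt S.Bt x (a • x) = n → ∃ α, S.Bt (a⁻¹ • α) α (a • α) := by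
    intro n
    induction n using Nat.strong_induction_on with
    | _ n ih =>
      intro x hx hn
      obtain ⟨σ, z, rfl, e⟩ := S.first_old hx (hx.smul a) (hfix x hx)
      by_cases h2 : S.rt (σ⁻¹ • a⁻¹ • σ • S.ι z) = z
      · exact ⟨_, ((S.bt_copy (hx.smul a) (hx.smul a⁻¹) e).2 h2).symm⟩
      · obtain ⟨u, hu⟩ := S.axis_step (ha σ) (z := z) (by simpa [mul_smul] using e)
          (by simpa [mul_smul] using h2)
        rw [← S.cnt_smul σ, ← S.cnt_smul σ (S.ι z)] at hu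
        simp only [mul_smul, smul_inv_smul] at hu
        exact ih _ (hn ▸ hu) _ (S.old_smul_ι σ u) rfl
  exact key _ _ (S.old_ι S.t) rfl

theorem pw_old (hf : Free2 G Z) (hs : ∀ s : G, s • S.t = S.h → s • S.h ≠ S.t) {a : G'}
    (ha : ∀ σ : G', σ⁻¹ * a * σ ∉ S.φ.range) (hfix : ∀ y : Z', a • y ≠ y) {x : Z'} (hx : S.Old x)
    (j : ℕ) : j ≤ 2 * d' x (a ^ j • x) + 2 := by
  obtain ⟨α, hα⟩ := S.exists_axis ha fun y _ => hfix y
  have e0 : ∀ i : ℤ, a ^ (i + 1) • α = a • a ^ i • α := fun i => by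
    rw [add_comm, zpow_one_add, mul_smul]
  have h1 : ∀ i : ℤ, S.Bt (a ^ i • α) (a ^ (i + 1) • α) (a ^ (i + 2) • α) := fun i => by
    have := hα.smul (a ^ (i + 1))
    rwa [← mul_smul, ← mul_smul _ a, ← zpow_add_one, ← zpow_sub_one, add_sub_cancel_right,
      show i + 1 + 1 = i + 2 by ring] at this
  have h2 : ∀ i : ℤ, a ^ i • α ≠ a ^ (i + 1) • α := fun i hh => hfix _ ((e0 i).symm.trans hh.symm)
  obtain ⟨hinj, m, hm⟩ := S.pre.exists_height (c := fun i => a ^ i • α) h1 h2 hx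
  have h3 : ∀ i : ℕ, i < j → S.Bt x (a ^ (m + i) • α) (a ^ j • x) := fun i hi => by
    refine (Bt.split (hx.smul _) ((hm (m + i)).2 (by omega))).resolve_right fun hh => ?_
    have := hh.smul (a ^ (-(j : ℤ)))
    rw [← zpow_natCast, ← mul_smul, ← mul_smul, ← mul_smul, ← zpow_add, ← zpow_add, ← zpow_add,
      neg_add_cancel, zpow_zero, one_smul, ← add_assoc _ _ (1 : ℤ)] at this
    have := (hm _).1 this
    omega
  obtain ⟨c, c0, c1, -, c2⟩ := S.exists_path x (a ^ j • x)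
  have h4 : ∀ i : ℕ, ∃ s, i < j → s ≤ d' x (a ^ j • x) ∧
      (c s = a ^ (m + i) • α ∨ S.OnL (c s) (a ^ (m + i) • α)) := fun i => by
    by_cases hi : i < j
    · obtain ⟨s, s1, s2⟩ := Bt.path (c := c) (by rw [c0, c1]; exact h3 i hi) c2
      exact ⟨s, fun _ => ⟨s1, s2⟩⟩
    · exact ⟨0, fun hh => absurd hh hi⟩
  choose s hs' using h4
  have h5 : ∀ (y : Z') (i k : ℤ), i + 2 ≤ k → (y = a ^ i • α ∨ S.OnL y (a ^ i • α)) →
      (y = a ^ k • α ∨ S.OnL y (a ^ k • α)) → False := by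
    rintro y i k hik (e1 | e1) (e2 | e2)
    · have := hinj (e1.symm.trans e2)
      omega
    · exact e2.not_old (e1 ▸ hα.2.1.smul _)
    · exact e1.not_old (e2 ▸ hα.2.1.smul _)
    · have al : ∀ l, i ≤ l → l ≤ k → S.OnL y (a ^ l • α) := fun l l1 l2 =>
        Bt.onL (S.pre.align (c := fun i => a ^ i • α) h1 h2 l1 l2) e1 e2
      refine hfix y (S.line_eq hf hs (p := a ^ (i + 1) • α) (p' := a ^ (i + 1 + 1) • α) ?_ ?_
        (al _ (by omega) (by omega)) (al _ (by omega) (by omega)) (h2 _).symm)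
      · rw [e0]
        exact e1.smul a
      · rw [e0]
        exact (al _ (by omega) (by omega)).smul a
  have h6 := Finset.card_le_card_of_injOn (s := Finset.range ((j + 1) / 2))
    (t := Finset.range (d' x (a ^ j • x) + 1)) (fun i => s (2 * i))
    (fun i hi => by
      have := (hs' (2 * i) (by simp at hi; omega)).1
      simp only [Finset.coe_range, Set.mem_Iio]
      omega)
    (fun i hi k hk hh => by
      simp only [Finset.coe_range, Set.mem_Iio] at hi hk hh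
      have e1 := (hs' (2 * i) (by omega)).2
      have e2 := (hs' (2 * k) (by omega)).2
      rw [hh] at e1
      rcases lt_trichotomy i k with h7 | h7 | h7
      exacts [(h5 _ _ _ (by omega) e1 e2).elim, h7, (h5 _ _ _ (by omega) e2 e1).elim])
  rw [Finset.card_range, Finset.card_range] at h6
  omega

/-- PW passes to the next stage. -/
theorem pw {P L : ℕ} (hf : Free2 G Z) (hs : ∀ s : G, s • S.t = S.h → s • S.h ≠ S.t)
    (hP : PW G d P L) (hL : 2 * L + 6 ≤ P) : PW G' d' P L := by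
  intro a hfix j hj x
  by_cases ha : ∀ σ : G', σ⁻¹ * a * σ ∉ S.φ.range
  · obtain ⟨p, p1, p2, -⟩ := S.exists_old_rho x
    have e1 := S.pw_old hf hs ha hfix p1 j
    have e2 := S.short_near p2 (a ^ j)
    omega
  · push Not at ha
    obtain ⟨σ, a₁, e⟩ := ha
    have e1 : S.φ (a₁ ^ j) • σ⁻¹ • x = σ⁻¹ • a ^ j • x := by
      rw [map_pow, e, show σ⁻¹ * a * σ = σ⁻¹ * a * σ⁻¹⁻¹ by rw [inv_inv], conj_pow]
      simp [mul_smul]
    have e2 := S.rho_short (S.rho_rt (σ⁻¹ • x)) (a₁ ^ j)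
    rw [e1, S.inv'] at e2
    refine (hP a₁ (fun z hz => hfix (σ • S.ι z) ?_) j hj _).trans e2
    have := S.ι_smul a₁ z
    rw [hz, e, mul_smul, mul_smul] at this
    exact (inv_smul_eq_iff.1 this.symm)

end Gate

end Pool.Agent.Lib.MP_429c3d_al.Ng
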