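import Pool.Agent.Lib.MP_429c3d_al.NgTA

/-! The invariant UU passes to the next stage. -/

set_option autoImplicit false

namespace Pool.Agent.Lib.MP_429c3d_al.Ng

open Hyp

variable {G G' Z Z' : Type} [Group G] [Group G'] [MulAction G Z] [MulAction G' Z']
  {d : Z → Z → ℕ} {d' : Z' → Z' → ℕ} {g : Z → Z → Set Z} {mk : Z → Z → Prop} {q q0 r' h : ℕ}

namespace Gate

variable (S : Gate G G' d d')

/-- Points between `x` and `y` that are far from both. -/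
def Dp (x y : Z') (R : ℕ) (v : Z') : Prop := S.Bt x v y ∧ R ≤ d' x v ∧ R ≤ d' y v

include S in
theorem d_inv_smul (a : G') (x : Z') : d' x (a⁻¹ • x) = d' x (a • x) := by
  rw [← S.inv' a, smul_inv_smul, S.met'.symm]

theorem not_bt_of_far {x v : Z'} {a : G'} {L : ℕ} (h1 : d' x (a • x) ≤ L) (h2 : L + 2 ≤ d' x v) :
    ¬ S.Bt x v (a⁻¹ • x) := fun h => by
  have := h.d_le
  rw [S.d_inv_smul] at this
  omega

theorem Dp.smul {S : Gate G G' d d'} {x y v : Z'} {a : G'} {L R : ℕ} (h : S.Dp x y (R + L) v)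
    (hR : 2 ≤ R) (h1 : d' x (a • x) ≤ L) (h2 : d' y (a • y) ≤ L) : S.Dp x y R (a • v) := by
  obtain ⟨hb, d1, d2⟩ := h
  have e1 := (hb.split (hb.1.smul a⁻¹)).resolve_left (S.not_bt_of_far h1 (by omega))
  have e2 := (e1.split (hb.2.2.1.smul a⁻¹)).resolve_right fun hh =>
    S.not_bt_of_far h2 (by omega) hh.symm
  have t1 := S.met'.tri (a • x) x (a • v)
  have t2 := S.met'.tri (a • y) y (a • v)
  rw [S.inv', S.met'.symm (a • _)] at t1 t2
  exact ⟨by simpa using e2.smul a, by omega, by omega⟩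

theorem Dp.mono {S : Gate G G' d d'} {x y v : Z'} {R R' : ℕ} (h : S.Dp x y R v) (hR : R' ≤ R) :
    S.Dp x y R' v := ⟨h.1, hR.trans h.2.1, hR.trans h.2.2⟩

theorem Dp.shift {S : Gate G G' d d'} {x y u v : Z'} {a : G'} {L : ℕ} (hu : S.Dp x y (2 + L) u)
    (hv : S.Dp x y (2 + L) v) (h1 : d' x (a • x) ≤ L) :
    cnt S.Bt x (a • u) + cnt S.Bt x v = cnt S.Bt x (a • v) + cnt S.Bt x u := by
  have := S.pre.cnt_shift hu.1 hv.1 (hu.1.1.smul a⁻¹) (S.not_bt_of_far h1 (by have := hu.2.1; omega))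
    (S.not_bt_of_far h1 (by have := hv.2.1; omega))
  rwa [← S.cnt_smul a (a⁻¹ • x) u, ← S.cnt_smul a (a⁻¹ • x) v, smul_inv_smul] at this

theorem Dp.comm {S : Gate G G' d d'} {x y v : Z'} {a b : G'} {L : ℕ}
    (h : S.Dp x y (2 + L + L) v) (a1 : d' x (a • x) ≤ L) (a2 : d' y (a • y) ≤ L)
    (b1 : d' x (b • x) ≤ L) (b2 : d' y (b • y) ≤ L) : a • b • v = b • a • v := by
  have ha := h.smul (by omega) a1 a2
  have hb := h.smul (by omega) b1 b2
  have h0 := h.mono (show 2 + L ≤ 2 + L + L by omega)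
  have e1 := hb.shift h0 a1
  have e2 := ha.shift h0 b1
  exact S.pre.eq_of_cnt (hb.smul le_rfl a1 a2).1 (ha.smul le_rfl b1 b2).1 (by omega)

theorem Dp.commute {S : Gate G G' d d'} (hf : Free2 G' Z') {x y u v : Z'} {a b : G'} {L : ℕ}
    (hu : S.Dp x y (2 + L + L) u) (hv : S.Dp x y (2 + L + L) v) (hne : u ≠ v)
    (a1 : d' x (a • x) ≤ L) (a2 : d' y (a • y) ≤ L) (b1 : d' x (b • x) ≤ L)
    (b2 : d' y (b • y) ≤ L) : Commute a b := by
  have key : ∀ p : Z', a • b • p = b • a • p → ((b * a)⁻¹ * (a * b)) • p = p := fun p hp => by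
    rw [mul_smul, mul_smul a, hp, ← mul_smul b, inv_smul_smul]
  have := hf _ u v (key u (hu.comm a1 a2 b1 b2)) (key v (hv.comm a1 a2 b1 b2)) hne
  exact (inv_mul_eq_one.1 this).symm

/-- Walking along the tree geodesic with bounded steps. -/
theorem walk {Λ R : ℕ} {x y : Z'} (hx : S.Old x) (hy : S.Old y) :
    (∀ σ : G', d (S.rt (σ • x)) (S.rt (σ • y)) ≤ Λ) → ∀ o : Z', d' o x < R → R ≤ d' o y →
      ∃ v, S.Bt x v y ∧ R ≤ d' o v ∧ d' o v < R + Λ := by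
  refine S.old_ind (P := fun x y => (∀ σ : G', d (S.rt (σ • x)) (S.rt (σ • y)) ≤ Λ) →
    ∀ o : Z', d' o x < R → R ≤ d' o y → ∃ v, S.Bt x v y ∧ R ≤ d' o v ∧ d' o v < R + Λ)
    (fun σ x y ih hg o h1 h2 => ?_) (fun z _ o h1 h2 => absurd h1 (by omega))
    (fun z y hy hz ih hg o h1 h2 => ?_) hx hy
  · have e : ∀ p, d' (σ⁻¹ • o) p = d' o (σ • p) := fun p => by rw [← S.inv' σ, smul_inv_smul]
    obtain ⟨v, v1, v2, v3⟩ := ih (fun τ => by simpa [mul_smul] using hg (τ * σ⁻¹)) (σ⁻¹ • o)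
      (by rwa [e]) (by rwa [e])
    exact ⟨σ • v, v1.smul σ, by rwa [← e], by rwa [← e]⟩
  · have hb : S.Bt (S.ι z) (S.ι (S.rt y)) y :=
      (S.bt_base (S.old_ι z) hy (by rwa [S.rt_ι])).2 rfl
    by_cases h3 : R ≤ d' o (S.ι (S.rt y))
    · have e1 := hg 1
      rw [one_smul, one_smul, S.rt_ι] at e1
      have e2 := S.d_ι z (S.rt y)
      have e3 := S.met'.tri o (S.ι z) (S.ι (S.rt y))
      exact ⟨_, hb, h3, by omega⟩
    · obtain ⟨v, v1, v2⟩ := ih (fun τ => by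
        rcases S.rt_copy τ (S.rt y) z with ⟨c, rfl⟩ | h4
        · rw [S.rt_φ_ι, S.rt_smul, S.met.self]
          exact Nat.zero_le _
        · rw [h4]
          exact hg τ) o (by omega) h2
      exact ⟨v, S.pre.sub' hb v1, v2⟩

theorem back_old {γ : G'} (hγ : γ ∉ S.φ.range) {y : Z'} (hy : S.Old y) (z₁ z₂ : Z)
    (h : S.rt y ≠ S.rt (γ • S.ι z₁)) : S.rt (γ⁻¹ • y) = S.rt (γ⁻¹ • S.ι z₂) := by
  obtain ⟨δ, z, rfl⟩ := hy
  exact S.back γ hγ δ z z₁ z₂ h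

/-- An element that moves the base copy and is short at two points with far away gates. -/
theorem gap {x y : Z'} (hx : S.Old x) (hy : S.Old y) {a : G'} (ha : a ∉ S.φ.range) {L : ℕ}
    (h1 : d' x (a • x) ≤ L) (h2 : d' y (a • y) ≤ L) (hD : 2 * L < d (S.rt x) (S.rt y)) :
    d (S.rt x) (S.rt y) ≤ d' x (S.ι (S.rt x)) + L ∧
      d (S.rt x) (S.rt y) ≤ d' y (S.ι (S.rt y)) + L := by
  have ha' : a⁻¹ ∉ S.φ.range := fun hh => ha (by simpa using inv_mem hh)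
  obtain ⟨α, hα⟩ : ∃ α, ∀ z, S.rt (a • S.ι z) = α := ⟨_, fun z => S.far a ha z S.t⟩
  obtain ⟨β, hβ⟩ : ∃ β, ∀ z, S.rt (a⁻¹ • S.ι z) = β := ⟨_, fun z => S.far a⁻¹ ha' z S.t⟩
  have F1 : ∀ p, S.Old p → S.rt p ≠ α → S.rt (a⁻¹ • p) = β := fun p hp hh => by
    rw [S.back_old ha hp S.t S.t (by rwa [hα]), hβ]
  have F2 : ∀ p, S.Old p → S.rt p ≠ β → S.rt (a • p) = α := fun p hp hh => by
    have := S.back_old ha' hp S.t S.t (by rwa [hβ])
    rwa [inv_inv, hα] at this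
  have l1 := (S.rt_lip _ _).trans h1
  have l2 := (S.rt_lip _ _).trans h2
  have l3 := (S.rt_lip _ _).trans ((S.d_inv_smul a x).trans_le h1)
  have l4 := (S.rt_lip _ _).trans ((S.d_inv_smul a y).trans_le h2)
  have m1 := S.rt_lip (a • x) (a • S.ι (S.rt x))
  have m2 := S.rt_lip (a • y) (a • S.ι (S.rt y))
  have m3 := S.rt_lip (a⁻¹ • x) (a⁻¹ • S.ι (S.rt x))
  have m4 := S.rt_lip (a⁻¹ • y) (a⁻¹ • S.ι (S.rt y))
  rw [S.inv', hα] at m1 m2
  rw [S.inv', hβ] at m3 m4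
  have s0 := S.met.symm (S.rt x) (S.rt y)
  have t1 := S.met.tri (S.rt x) (S.rt (a • x)) (S.rt y)
  have t2 := S.met.tri (S.rt y) (S.rt (a • y)) (S.rt x)
  have t3 := S.met.tri (S.rt x) (S.rt (a⁻¹ • x)) (S.rt y)
  have t4 := S.met.tri (S.rt y) (S.rt (a⁻¹ • y)) (S.rt x)
  have hne : S.rt x ≠ S.rt y := fun hh => by
    rw [hh, S.met.self] at hD
    omega
  by_cases c1 : S.rt x = α
  · have e1 := F1 y hy (c1 ▸ hne.symm)
    have c2 : S.rt x ≠ β := fun hh => by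
      rw [e1, ← hh] at l4
      omega
    have c3 : S.rt y = β := by
      by_contra c3
      have e2 := F2 y hy c3
      rw [e2, ← c1] at l2
      omega
    rw [← c1] at m2
    rw [← c3] at m3
    omega
  · have e1 := F1 x hx c1
    have c2 : S.rt y = α := by
      by_contra c2
      rw [F1 y hy c2] at l4
      rw [e1] at l3
      have := S.met.tri (S.rt x) β (S.rt y)
      have := S.met.symm β (S.rt y)
      omega
    have c3 : S.rt x = β := by
      by_contra c3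
      rw [F2 x hx c3, ← c2] at l1
      omega
    rw [← c2] at m1
    rw [← c3] at m4
    omega

theorem gap_commute (hf : Free2 G' Z') {x y : Z'} (hx : S.Old x) (hy : S.Old y) {a b : G'}
    (hab : a ∉ S.φ.range ∨ b ∉ S.φ.range) {L : ℕ} (a1 : d' x (a • x) ≤ L)
    (a2 : d' y (a • y) ≤ L) (b1 : d' x (b • x) ≤ L) (b2 : d' y (b • y) ≤ L)
    (hD : 3 * L + 2 ≤ d (S.rt x) (S.rt y)) : Commute a b := by
  have hne : S.rt x ≠ S.rt y := fun hh => by
    rw [hh, S.met.self] at hD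
    omega
  obtain ⟨e1, e2⟩ := hab.elim (fun ha => S.gap hx hy ha a1 a2 (by omega))
    fun hb => S.gap hx hy hb b1 b2 (by omega)
  have e3 := S.rt_lip x (S.ι (S.rt y))
  have e4 := S.rt_lip y (S.ι (S.rt x))
  rw [S.rt_ι] at e3 e4
  rw [S.met.symm] at e4
  exact Dp.commute hf (u := S.ι (S.rt x)) (v := S.ι (S.rt y))
    ⟨((S.bt_base hy hx hne.symm).2 rfl).symm, by omega, by omega⟩
    ⟨(S.bt_base hx hy hne).2 rfl, by omega, by omega⟩ (fun hh => hne (S.ι_inj hh)) a1 a2 b1 b2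

theorem u_old (hf : Free2 G' Z') {x y : Z'} (hx : S.Old x) (hy : S.Old y) {a b : G'}
    (hab : ¬ Commute a b) (hc : ∀ σ : G', σ * a * σ⁻¹ ∉ S.φ.range ∨ σ * b * σ⁻¹ ∉ S.φ.range)
    {L : ℕ} (a1 : d' x (a • x) ≤ L) (a2 : d' y (a • y) ≤ L) (b1 : d' x (b • x) ≤ L)
    (b2 : d' y (b • y) ≤ L) : d' x y ≤ 10 * L + 6 := by
  have hg : ∀ σ : G', d (S.rt (σ • x)) (S.rt (σ • y)) ≤ 3 * L + 1 := fun σ => by
    by_contra hD
    have e : ∀ (c : G') (p : Z'), d' (σ • p) ((σ * c * σ⁻¹) • σ • p) = d' p (c • p) :=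
      fun c p => by rw [mul_smul, mul_smul, inv_smul_smul, S.inv']
    have := S.gap_commute hf (hx.smul σ) (hy.smul σ) (hc σ) (L := L) (by rwa [e]) (by rwa [e])
      (by rwa [e]) (by rwa [e]) (by omega)
    exact hab (by simpa [mul_assoc] using this.conj σ⁻¹)
  by_contra hD
  have s0 := S.met'.self x
  obtain ⟨u, u1, u2, u3⟩ := S.walk (R := 2 + L + L) hx hy hg x (by omega) (by omega)
  obtain ⟨v, v1, v2, v3⟩ := S.walk (R := 2 + L + L + (3 * L + 1)) hx hy hg x (by omega) (by omega)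
  have t1 := S.met'.tri x u y
  have t2 := S.met'.tri x v y
  rw [S.met'.symm u] at t1
  rw [S.met'.symm v] at t2
  exact hab (Dp.commute hf ⟨u1, u2, by omega⟩ ⟨v1, by omega, by omega⟩
    (fun hh => by rw [hh] at u3; omega) a1 a2 b1 b2)

include S in
theorem short_near {x p : Z'} (hp : d' x p ≤ 1) (a : G') : d' p (a • p) ≤ d' x (a • x) + 2 := by
  have t1 := S.met'.tri p x (a • p)
  have t2 := S.met'.tri x (a • x) (a • p)
  rw [S.met'.symm p x] at t1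
  rw [S.inv'] at t2
  omega

theorem uu_base {L f : ℕ} (B : BS G d g mk q q0 r' h) (hm : mk S.t S.h) (hU : UU G d g mk L f)
    {a b : G} {x y : Z'} (hab : ¬ Commute a b) (ha : ∀ z : Z, a • z ≠ z)
    (a1 : d' x (S.φ a • x) ≤ L) (b1 : d' x (S.φ b • x) ≤ L) (a2 : d' y (S.φ a • y) ≤ L)
    (b2 : d' y (S.φ b • y) ≤ L) : ∃ z ∈ S.gg g x (S.φ a • x), ∃ z' ∈ S.gg g y (S.φ a • y),
      d' z z' ≤ f + pen (S.mkk mk) x (S.φ a • x) + pen (S.mkk mk) y (S.φ a • y) := by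
  obtain ⟨u, u1, u2⟩ := S.descend B hm a x fun u _ => ha u
  obtain ⟨v, v1, v2⟩ := S.descend B hm a y fun u _ => ha u
  obtain ⟨z, z1, z', z2, z3⟩ := hU a b u v hab ha ((S.rho_short u1 a).trans a1)
    ((S.rho_short u1 b).trans b1) ((S.rho_short v1 a).trans a2) ((S.rho_short v1 b).trans b2)
  obtain ⟨p, p1, p2⟩ := u2 z z1
  obtain ⟨p', p3, p4⟩ := v2 z' z2
  have t1 := S.met'.tri p (S.ι z) p'
  have t2 := S.met'.tri (S.ι z) (S.ι z') p'
  have t3 := S.d_ι z z'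
  rw [S.met'.symm] at p4
  exact ⟨p, p1, p', p3, by omega⟩

/-- UU passes to the next stage. -/
theorem uu {L f : ℕ} (B : BS G d g mk q q0 r' h) (hm : mk S.t S.h) (hf : Free2 G' Z')
    (hU : UU G d g mk L f) (hL : 10 * L + 28 ≤ f) : UU G' d' (S.gg g) (S.mkk mk) L f := by
  intro a b x y hab ha a1 b1 a2 b2
  by_cases hc : ∀ σ : G', σ * a * σ⁻¹ ∉ S.φ.range ∨ σ * b * σ⁻¹ ∉ S.φ.range
  · obtain ⟨p, p1, p2, -⟩ := S.exists_old_rho x
    obtain ⟨p', p3, p4, -⟩ := S.exists_old_rho y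
    have e := S.u_old hf p1 p3 hab hc (L := L + 2) (by have := S.short_near p2 a; omega)
      (by have := S.short_near p4 a; omega) (by have := S.short_near p2 b; omega)
      (by have := S.short_near p4 b; omega)
    have t1 := S.met'.tri x p y
    have t2 := S.met'.tri p p' y
    rw [S.met'.symm] at p4
    exact ⟨x, S.gg_left _ _, y, S.gg_left _ _, by omega⟩
  · push Not at hc
    obtain ⟨σ, ⟨a₁, e1⟩, ⟨b₁, e2⟩⟩ := hc
    have f1 : ∀ p : Z', S.φ a₁ • σ • p = σ • a • p := fun p => by simp [e1, mul_smul]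
    have f2 : ∀ p : Z', S.φ b₁ • σ • p = σ • b • p := fun p => by simp [e2, mul_smul]
    obtain ⟨z, z1, z', z2, z3⟩ := S.uu_base B hm hU (a := a₁) (b := b₁) (x := σ • x) (y := σ • y)
      (fun hh => hab (by simpa [e1, e2, mul_assoc] using (hh.map S.φ).conj σ⁻¹))
      (fun z hz => ha (σ⁻¹ • S.ι z) (by
        have := f1 (σ⁻¹ • S.ι z)
        rw [smul_inv_smul, ← S.ι_smul, hz] at this
        exact (inv_smul_eq_iff.2 this).symm))
      (by rwa [f1, S.inv']) (by rwa [f2, S.inv']) (by rwa [f1, S.inv']) (by rwa [f2, S.inv'])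
    rw [f1] at z1 z2
    rw [f1, f1, S.pen_smul, S.pen_smul] at z3
    exact ⟨σ⁻¹ • z, by simpa using S.gg_smul σ⁻¹ z1, σ⁻¹ • z', by simpa using S.gg_smul σ⁻¹ z2,
      by rwa [S.inv']⟩

end Gate

end Pool.Agent.Lib.MP_429c3d_al.Ng
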