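import Pool.Agent.Lib.MP_429c3d_al.NgStp
import Pool.Agent.Lib.MP_429c3d_al.NgU
import Pool.Agent.Lib.MP_429c3d_al.NgPW

set_option autoImplicit false

/-! The metric invariants pass to the next stage. -/

namespace Pool.Agent.Lib.MP_429c3d_al.Ng

open Hyp

/-- The star metric on names. -/
theorem dnm_metg (N0 T : Type) : IsMet (dnm : Nm N0 T → Nm N0 T → ℕ) where
  self := fun a => by simp [dnm]
  symm := fun a b => by
    unfold dnm
    by_cases h : a.arm = b.arm
    · rw [if_pos h, if_pos h.symm]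
      omega
    · rw [if_neg h, if_neg fun e => h e.symm]
      omega
  tri := fun a b c => by
    unfold dnm
    by_cases h1 : a.arm = b.arm <;> by_cases h2 : b.arm = c.arm
    · rw [if_pos h1, if_pos h2, if_pos (h1.trans h2)]
      omega
    · rw [if_pos h1, if_neg h2, if_neg fun e => h2 (h1.symm.trans e)]
      omega
    · rw [if_neg h1, if_pos h2, if_neg fun e => h1 (e.trans h2.symm)]
      omega
    · rw [if_neg h1, if_neg h2]
      split_ifs <;> omega

/-- The intervals of a hyperbolic graph satisfy the invariants. -/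
theorem bs_btw {G Z : Type} [Group G] [MulAction G Z] {d : Z → Z → ℕ} (gr : IsGr d)
    (iso : Isom G d) {k : ℕ} (hyp : Hyp4 d k) :
    BS G d (fun x y => {z | d x z + d z y = d x y}) (fun x y => d x y = 1) (k + 3) 2 2
      (2 * (k + 3) + 1) where
  symm := fun x y z hz => by
    have e : d x z + d z y = d x y := hz
    show d y z + d z x = d y x
    rw [gr.met.symm y z, gr.met.symm z x, gr.met.symm y x]
    omega
  left := fun x y => by
    show d x x + d x y = d x y
    rw [gr.met.self, zero_add]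
  smul := fun γ x y z hz => by
    show d (γ • x) (γ • z) + d (γ • z) (γ • y) = d (γ • x) (γ • y)
    rw [iso, iso, iso]
    exact hz
  mk_symm := fun a b h => by rwa [gr.met.symm]
  mk_smul := fun γ a b h => by rwa [iso]
  mk_d := fun a b h => h.le
  mk_g := fun a b z h hz => by
    have e : d a z + d z b = d a b := hz
    by_cases h0 : d a z = 0
    · exact Or.inl (gr.sep _ _ h0).symm
    · exact Or.inr (gr.sep _ _ (by omega))
  qs := fun a b y z h hz => by
    have e : d a z + d z y = d a y := hz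
    have t1 := gr.met.tri z a b
    have t2 := gr.met.tri a b y
    have s1 := gr.met.symm z a
    obtain ⟨u, u1, u2⟩ := near_mid gr.met hyp gr.geo b y z (c := 2) (by omega)
    exact ⟨u, u1, by omega⟩
  qz := fun a v b z h h' hz => by
    have e : d a z + d z b = d a b := hz
    have t1 := gr.met.tri a v b
    have t2 := gr.met.tri z a v
    have t3 := gr.met.tri z b v
    have s1 := gr.met.symm z a
    have s2 := gr.met.symm b v
    omega
  guess := by
    refine ⟨fun x y z w hw => ?_, fun x y h w hw => ?_, fun x y => ?_⟩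
    · have e : d x w + d w y = d x y := hw
      have s1 := gr.met.symm w x
      have s2 := gr.met.symm y w
      have s3 := gr.met.symm y z
      rcases hyp x y w z with h | h
      · obtain ⟨u, u1, u2⟩ := near_mid gr.met hyp gr.geo z y w (c := k) (by omega)
        exact ⟨u, Or.inr u1, by omega⟩
      · obtain ⟨u, u1, u2⟩ := near_mid gr.met hyp gr.geo x z w (c := k) (by omega)
        exact ⟨u, Or.inl u1, by omega⟩
    · have e : d x w + d w y = d x y := hw
      have s1 := gr.met.symm w x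
      omega
    · obtain ⟨c, c0, c1, c2⟩ := gr.exists_geo x y
      refine ⟨c, d x y, c0, c1, fun i hi => ?_, fun i hi => ?_⟩
      · have e1 := c2 0 i le_rfl (Nat.zero_le _) hi
        have e2 := c2 i _ (Nat.zero_le _) hi le_rfl
        rw [c0] at e1
        rw [c1] at e2
        show d x (c i) + d (c i) y = d x y
        omega
      · have e1 := c2 i (i + 1) (Nat.zero_le _) (by omega) hi
        omega

theorem exists_exp (h : ℕ) : ∃ p, 2 * ((p + 4) * h) + 4 * h + 2 ≤ 2 ^ p * 1 := by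
  obtain ⟨n, hn⟩ : ∃ n, n = 4 * h + 12 := ⟨_, rfl⟩
  refine ⟨n + n, ?_⟩
  have e1 : n < 2 ^ n := Nat.lt_two_pow_self
  have e2 : n * n ≤ 2 ^ n * 2 ^ n := Nat.mul_le_mul e1.le e1.le
  rw [pow_add, mul_one]
  refine le_trans ?_ e2
  subst hn
  nlinarith [Nat.zero_le h]

/-- Points of the guessed geodesics are almost between the end points. -/
theorem guess_btw {Z : Type} {d : Z → Z → ℕ} (gr : IsGr d) {g : Z → Z → Set Z} {r' h p : ℕ}
    (B : Guess d g 1 r' h) (hp : 2 * ((p + 4) * h) + 4 * h + 2 ≤ 2 ^ p * 1) {x y z : Z}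
    (hz : z ∈ g x y) : ∃ i, i ≤ d x y ∧ d x z ≤ i + (p + 3) * h ∧
      d y z + i ≤ d x y + (p + 3) * h := by
  obtain ⟨c, c0, c1, c2⟩ := gr.exists_geo x y
  obtain ⟨i, i1, i2⟩ := B.near gr.met hp c2 z (by rwa [c0, c1])
  have e1 := c2 0 i le_rfl (Nat.zero_le _) i1
  have e2 := c2 i _ (Nat.zero_le _) i1 le_rfl
  rw [c0] at e1
  rw [c1] at e2
  have t1 := gr.met.tri x (c i) z
  have t2 := gr.met.tri y (c i) z
  have s1 := gr.met.symm z (c i)
  have s2 := gr.met.symm y (c i)
  exact ⟨i, i1, by omega, by omega⟩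

variable {AA N K : Type} [CommGroup AA] {S T : St AA N K} {dn : N → N → ℕ}

/-- Take `g x y = {z | d x z + d z y = d x y}` and `mk x y := d x y = 1`; use `near_mid`. -/
theorem geo_of_mi (hS : S.OK) {k c l0 D L f P : ℕ} (h : S.MI dn k c l0 D L f P) :
    S.Geo dn (k + 3) (c + k + 2) l0 D L (f + 10 * L + 28) (P + 2 * L + 6) := by
  refine ⟨by omega, by omega, by omega, by omega, _, _, bs_btw hS.gr hS.iso h.hyp,
    fun _ _ e => e, fun α a ha hα x => ?_, fun a b x x' hab _ a1 b1 a2 b2 => ?_,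
    fun a ha j hj x => h.pw a ha j (by omega) x, h.det⟩
  · have e1 := h.ta a α x ha hα
    have e2 := hS.iso a α x
    rw [hα] at e2
    have s1 := hS.gr.met.symm α x
    obtain ⟨u, u1, u2⟩ := near_mid hS.gr.met h.hyp hS.gr.geo x (a • x) α (c := c) (by omega)
    have s2 := hS.gr.met.symm α u
    exact ⟨u, u1, by omega, fun _ => by omega⟩
  · have e := h.ai a b x x' hab a1 b1 a2 b2
    refine ⟨x, ?_, x', ?_, by omega⟩
    · show S.d x x + S.d x (a • x) = S.d x (a • x)
      rw [hS.gr.met.self, zero_add]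
    · show S.d x' x' + S.d x' (a • x') = S.d x' (a • x')
      rw [hS.gr.met.self, zero_add]

/-- `Guess.hyp4`, `Guess.near`; `AI` from `TAm` (if `a` has a fixed point) and `UU`. -/
theorem mi_of_geo (q c : ℕ) : ∃ k' c' F : ℕ, ∀ (AA N K : Type) [CommGroup AA] (S : St AA N K)
    (dn : N → N → ℕ) (l0 D L f P : ℕ), S.OK → S.Geo dn q c l0 D L f P →
    S.MI dn k' c' l0 D L (f + 2 * L + F) P := by
  obtain ⟨p, hp⟩ := exists_exp (2 * q + 1)
  obtain ⟨F, hF⟩ : ∃ F, F = (p + 3) * (2 * q + 1) := ⟨_, rfl⟩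
  refine ⟨6 * (4 * ((p + 3) * (2 * q + 1)) + (2 * q + 1) + 2) + 2, 2 * (F + c + 1),
    2 * (F + c + 1), ?_⟩
  rintro AA N K _ S dn l0 D L f P hS ⟨-, -, -, -, g, mk, B, -, hT, hU, hP, hD⟩
  have m := hS.gr.met
  have ta : TAm S.G S.d (2 * (F + c + 1)) := by
    intro a α x ha hα
    obtain ⟨z, z1, z2, -⟩ := hT α a ha hα x
    obtain ⟨i, -, i2, i3⟩ := guess_btw hS.gr B.guess hp z1
    rw [← hF] at i2 i3
    have e2 := hS.iso a x α
    rw [hα] at e2
    have t1 := m.tri x z α
    have t2 := m.tri (a • x) z α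
    omega
  refine ⟨B.guess.hyp4 m hS.gr.sep hS.gr.geo hp, hD, ta, fun a b x x' hab a1 b1 a2 b2 => ?_, hP⟩
  by_cases ha : ∀ y : S.Z, a • y ≠ y
  · obtain ⟨z, z1, z', z2, z3⟩ := hU a b x x' hab ha a1 b1 a2 b2
    obtain ⟨i, i1, i2, -⟩ := guess_btw hS.gr B.guess hp z1
    obtain ⟨j, j1, j2, -⟩ := guess_btw hS.gr B.guess hp z2
    rw [← hF] at i2 j2
    have p1 := pen_le mk x (a • x)
    have p2 := pen_le mk x' (a • x')
    have t1 := m.tri x z x'
    have t2 := m.tri z z' x'
    have s1 := m.symm z' x'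
    omega
  · push Not at ha
    obtain ⟨α, hα⟩ := ha
    have h1 : a ≠ 1 := fun e => hab (e ▸ Commute.one_left b)
    have e1 := ta a α x h1 hα
    have e2 := ta a α x' h1 hα
    have t1 := m.tri x α x'
    have s1 := m.symm α x'
    omega

/-- `Gate.bsl`, `Gate.ta`, `Gate.uu`, `Gate.pw`, `Gate.Names.det`; `St.OK.no_swap`. -/
theorem Stp.geo_step (X : Stp S T) (hS : S.OK) (hT : T.OK) (tf : TF S.G) (hd : IsMet dn)
    {q c l0 D L f P : ℕ} (h1 : dn X.x₁ (S.nm X.t X.h) ≤ D) (h2 : dn X.x₁ (S.nm X.h X.t) ≤ D)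
    (h : S.Geo dn q c l0 D L f P) : T.Geo dn q c l0 D L f P := by
  obtain ⟨hq, hc, hf, hP, g, mk, B, hmk, h3, h4, h5, h6⟩ := h
  have hm : mk X.t X.h := hmk _ _ X.fl.2
  have names : X.toGate.Names S.ap T.ap S.nm T.nm dn D := by
    refine ⟨hd, hT.ap_smul, fun a => (X.ap_ι a).1,
      fun γ α n e1 e2 e3 => hT.nm_smul γ α n (hT.fl_of_le e1 e2 e3),
      fun a n e1 e2 e3 => X.nm_ι a n (hS.fl_of_le e1 e2 e3), ?_, ?_⟩
    · rw [X.nm_tw, X.nm_ι _ _ X.fl]
      exact h1
    · have e := hT.nm_smul X.e _ _ (X.fl_tw hT)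
      rw [X.e_t, X.e_w, X.nm_tw] at e
      rw [e, X.nm_ι _ _ (X.fl_ht hS)]
      exact h2
  refine ⟨hq, hc, hf, hP, X.toGate.gg g, X.toGate.mkk mk,
    X.toGate.bsl B hm (by omega) (by omega) le_rfl le_rfl, fun x y e => ?_,
    X.toGate.ta B hm hS.two h3 hc, X.toGate.uu B hm hT.two h4 hf,
    X.toGate.pw hS.two (hS.no_swap tf X.th) h5 hP, names.det h6⟩
  rcases X.edge_cases hT e with ⟨γ, z, z', e1, e2, e3⟩ | ⟨γ, e1, e2⟩ | e1
  · exact Or.inl ⟨γ, z, z', hmk _ _ e3, e1, e2⟩
  · exact Or.inr (Or.inr ⟨γ, e2, e1⟩)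
  · exact Or.inr (Or.inl e1)

end Pool.Agent.Lib.MP_429c3d_al.Ng
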