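import Pool.Agent.Lib.MP_429c3d_al.NgStp
import Pool.Agent.Lib.MP_429c3d_al.NgCoc

set_option autoImplicit false

/-! Existence of steps. -/

namespace Pool.Agent.Lib.MP_429c3d_al.Ng

open Hyp

theorem exists_equiv_of_range {A B C : Type} [Group A] [Group B] [Group C] (f : A →* C)
    (g : B →* C) (hf : Function.Injective f) (hg : Function.Injective g)
    (h : f.range = g.range) : ∃ φ : A ≃* B, ∀ a, g (φ a) = f a := by
  refine ⟨(MonoidHom.ofInjective hf).trans ((MulEquiv.subgroupCongr h).trans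
    (MonoidHom.ofInjective hg).symm), fun a => ?_⟩
  exact MonoidHom.apply_ofInjective_symm hg _

theorem TF.zpows {A : Type} [Group A] (h : TF A) {a : A} (ha : a ≠ 1) {j : ℤ} (e : a ^ j = 1) :
    j = 0 := by
  by_contra hj
  refine ha (h a j.natAbs (by omega) ?_)
  rcases Int.natAbs_eq j with h1 | h1
  · rw [← zpow_natCast, ← h1, e]
  · rw [← zpow_natCast, ← inv_eq_one, ← zpow_neg, ← h1, e]

variable {AA N K : Type} [CommGroup AA]

/-- The differences come from positions, which move by a cocycle. -/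
theorem St.OK.exists_pos {S : St AA N K} (H : S.OK) :
    ∃ (c : S.G → S.Z → AA) (p : S.Z → S.Z → AA), Coc c ∧
      (∀ (g : S.G) α n, S.Fl α n → p (g • α) (g • n) = c g α * p α n) ∧
      (∀ α n n', S.Fl α n → S.Fl α n' → (p α n)⁻¹ * p α n' = S.df α n n') ∧
      (∀ α (a : S.G), S.ap α → a • α = α → c a α = S.lab α a) ∧
      ∀ U : K → Subgroup AA, (∀ α x x', S.Fl α x → S.Fl α x' → S.df α x x' ∈ U (S.cls α)) →
        (∀ g α, S.ap α → c g α ∈ U (S.cls α)) ∧ ∀ α n, S.Fl α n → p α n ∈ U (S.cls α) := by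
  classical
  have ex : ∀ α, ∃ n, S.ap α → S.Fl α n := fun α => by
    by_cases h : S.ap α
    · exact (H.exists_fl h).imp fun _ hn _ => hn
    · exact ⟨α, fun h' => absurd h' h⟩
  choose n0 hn using ex
  have f1 : ∀ (g : S.G) α, S.ap α → S.Fl (g • α) (n0 (g • α)) := fun g α h =>
    hn _ (H.ap_smul g α h)
  have f2 : ∀ (g : S.G) α, S.ap α → S.Fl (g • α) (g • n0 α) := fun g α h => H.fl_smul g (hn α h)
  refine ⟨fun g α => if S.ap α then S.df (g • α) (n0 (g • α)) (g • n0 α) else 1,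
    fun α n => S.df α (n0 α) n, fun g k α => ?_, fun g α n h => ?_, fun α n n' h h' => ?_,
    fun α a h ha => ?_, fun U hU => ⟨fun g α h => ?_, fun α n h => hU _ _ _ (hn α h.1) h⟩⟩
  · by_cases h : S.ap α
    · have h' := H.ap_smul k α h
      simp only [if_pos h, if_pos h', mul_smul]
      rw [← H.df_smul g (k • α) _ _ (f1 k α h) (f2 k α h),
        H.df_mul _ _ _ _ (f1 g _ h') (f2 g _ h') (H.fl_smul g (f2 k α h))]
    · simp only [if_neg h, if_neg (mt (H.ap_smul_iff k α).1 h), mul_one]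
  · simp only [if_pos h.1]
    rw [← H.df_smul g α _ _ (hn α h.1) h,
      H.df_mul _ _ _ _ (f1 g α h.1) (f2 g α h.1) (H.fl_smul g h)]
  · simp only
    rw [← H.df_symm (hn α h.1) h, H.df_mul _ _ _ _ h (hn α h.1) h']
  · simp only [if_pos h, ha]
    exact H.lab_df α _ a (hn α h) ha
  · simp only [if_pos h]
    rw [← H.cls_smul g α]
    exact hU _ _ _ (f1 g α h) (f2 g α h)

/-- The group theoretic input of the step. -/
theorem St.OK.exists_slot {S : St AA N K} (H : S.OK) {t h : S.Z} (hfl : S.Fl t h) (hh : S.ap h)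
    (hL : S.Lb h ⊆ S.Lb t) : ∃ σ : SlotD S.G S.d, σ.t = t ∧ σ.h = h ∧
      (∀ a, a ∈ σ.A ↔ a • t = t ∧ S.lab t a ∈ S.Lb h) ∧
      ∀ a (ha : a ∈ σ.A), S.lab h (σ.φ ⟨a, ha⟩ : S.G) = S.lab t a := by
  let A : Subgroup S.G :=
    { carrier := {a | a • t = t ∧ S.lab t a ∈ H.lbs hh}
      one_mem' := ⟨one_smul _ _, by rw [H.lab_one hfl.1]; exact one_mem _⟩
      mul_mem' := fun {a b} ha hb => ⟨by rw [mul_smul, hb.1, ha.1], by
        rw [H.lab_mul hfl.1 ha.1 hb.1]; exact mul_mem ha.2 hb.2⟩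
      inv_mem' := fun {a} ha => ⟨inv_smul_eq_iff.2 ha.1.symm, by
        rw [H.lab_inv hfl.1 ha.1]; exact inv_mem ha.2⟩ }
  obtain ⟨φ, hφ⟩ := exists_equiv_of_range (A := A) (B := MulAction.stabilizer S.G h)
    (MonoidHom.mk' (fun a => S.lab t a) fun a b => H.lab_mul hfl.1 a.2.1 b.2.1)
    (MonoidHom.mk' (fun b => S.lab h b) fun a b => H.lab_mul hh a.2 b.2)
    (fun a b e => Subtype.ext (H.lab_eq hfl.1 a.2.1 b.2.1 e))
    (fun a b e => Subtype.ext (H.lab_eq hh a.2 b.2 e)) (by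
      ext x
      constructor
      · rintro ⟨a, rfl⟩
        obtain ⟨b, h1, h2⟩ := a.2.2
        exact ⟨⟨b, h1⟩, h2⟩
      · rintro ⟨b, rfl⟩
        obtain ⟨a, h1, h2⟩ := hL ⟨b, b.2, rfl⟩
        exact ⟨⟨a, h1, b, b.2, h2.symm⟩, h2⟩)
  exact ⟨⟨t, h, A, _, φ, H.gr, H.iso, (H.fl_ne hfl).symm, hfl.2.le, fun _ ha => ha.1,
    fun _ => Iff.rfl⟩, rfl, rfl, fun _ => Iff.rfl, fun a ha => hφ ⟨a, ha⟩⟩

theorem exists_stp (S : St AA N K) (hS : S.OK) (tf : TF S.G) (tfA : TF AA) {t h : S.Z}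
    (η ξ ζ : AA) (x₁ x₂ : N) (hfl : S.Fl t h) (hh : S.ap h) (hc : S.cls h = S.cls t)
    (hL : S.Lb h ⊆ S.Lb t) (hη : η ≠ 1) (hx : x₁ ≠ x₂)
    (hf : ∀ α x, S.Fl α x → S.nm α x ≠ x₁ ∧ S.nm α x ≠ x₂)
    (hχ : ∀ s : S.G, s • t = h → ∃ χ : AA →* Multiplicative ℤ,
      (∀ α x x', S.Fl α x → S.Fl α x' → χ (S.df α x x') = 1) ∧ χ η = 1 ∧
        χ ζ = Multiplicative.ofAdd (-1)) :
    ∃ (T : St AA N K) (X : Stp S T), T.OK ∧ X.t = t ∧ X.h = h ∧ X.η = η ∧ X.ξ = ξ ∧ X.ζ = ζ ∧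
      X.x₁ = x₁ ∧ X.x₂ = x₂ := by
  obtain ⟨c, p, hcc, hp, hdf, hlab, hU⟩ := hS.exists_pos
  obtain ⟨σ, rfl, rfl, hA, hφ⟩ := hS.exists_slot hfl hh hL
  have hφh : ∀ a (ha : a ∈ σ.A), (σ.φ ⟨a, ha⟩ : S.G) • σ.h = σ.h := fun a ha =>
    (σ.Bh _).1 (σ.φ ⟨a, ha⟩).2
  have hht := hS.fl_symm hfl hh
  obtain ⟨c', hc', c1, c2, c3⟩ := σ.exists_coc hcc hS.two (fun a ha => by
    rw [hlab _ _ hh (hφh a ha), hlab _ _ hfl.1 (σ.At a ha), hφ])
    (p σ.h σ.t * (p σ.t σ.h)⁻¹ * ζ⁻¹) η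
  obtain ⟨p', p1, p2, p3⟩ := σ.exists_flag (fun γ x n => c' γ x * n)
    (fun x n => by rw [hc'.one, one_mul]) (fun γ δ x n => by rw [hc', mul_assoc]) S.Fl
    (fun _ _ => hS.fl_ne) p (fun g z z' hz => by rw [c1, hp g z z' hz]) (p σ.t σ.h * ξ⁻¹) 1
  obtain ⟨nm', n1, n2, n3⟩ := σ.exists_flag (fun _ _ n => n) (fun _ _ => rfl)
    (fun _ _ _ _ => rfl) S.Fl (fun _ _ => hS.fl_ne) S.nm hS.nm_smul x₁ x₂
  obtain ⟨cls', k1, k2⟩ := σ.exists_pt S.cls hS.cls_smul hc (S.cls σ.t)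
  obtain ⟨ap', a1, a2⟩ := σ.exists_pt S.ap (fun g z => propext (hS.ap_smul_iff g z))
    (propext (iff_of_true hh hfl.1)) True
  have one : ∀ z, σ.ι z = (1 : σ.GG) • σ.ι z := fun z => (one_smul _ _).symm
  have onew : σ.w = (1 : σ.GG) • σ.w := (one_smul _ _).symm
  have dι : ∀ z z', σ.dd (σ.ι z) (σ.ι z') = S.d z z' := σ.gate.d_ι_eq
  have dinv : ∀ (γ : σ.GG) x y, σ.dd (γ • x) (γ • y) = σ.dd x y := σ.gate.inv'
  have dw : σ.dd σ.w (σ.ι σ.t) = 1 := by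
    have h1 : σ.dd σ.w (σ.ι σ.t) ≤ 1 := σ.gate.d_w
    have h2 : σ.dd σ.w (σ.ι σ.t) ≠ 0 := fun e => σ.w_ne 1 σ.t ((σ.dd_gr.sep _ _ e).trans (one _))
    omega
  have cases : ∀ {x y : σ.ZZ}, ap' x ∧ σ.dd x y = 1 →
      (∃ (γ : σ.GG) (z z' : S.Z), x = γ • σ.ι z ∧ y = γ • σ.ι z' ∧ S.Fl z z') ∨
        (∃ γ : σ.GG, x = γ • σ.ι σ.t ∧ y = γ • σ.w) ∨
          ∃ γ : σ.GG, x = γ • σ.w ∧ y = γ • σ.ι σ.t := by
    rintro x y ⟨h1, h2⟩
    rcases (σ.dd_le_one x y).1 h2.le with e | ⟨γ, z, z', rfl, rfl, -⟩ | h3 | ⟨γ, h3, h4⟩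
    · rw [e, σ.dd_gr.met.self] at h2
      omega
    · exact Or.inl ⟨γ, z, z', rfl, rfl, by rwa [a1] at h1, by rwa [dinv, dι] at h2⟩
    · exact Or.inr (Or.inr h3)
    · exact Or.inr (Or.inl ⟨γ, h4, h3⟩)
  have pE : ∀ (γ : σ.GG) {x y : σ.ZZ}, ap' x ∧ σ.dd x y = 1 →
      p' (γ • x) (γ • y) = c' γ x * p' x y := by
    intro γ x y hxy
    rcases cases hxy with ⟨δ, z, z', rfl, rfl, h1⟩ | ⟨δ, rfl, rfl⟩ | ⟨δ, rfl, rfl⟩
    · rw [← mul_smul, ← mul_smul, p1 _ _ _ h1, p1 _ _ _ h1, hc', mul_assoc]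
    · rw [← mul_smul, ← mul_smul, p2, p2, hc', mul_assoc]
    · rw [← mul_smul, ← mul_smul, p3, p3, hc', mul_assoc]
  have pι : ∀ z z', S.Fl z z' → p' (σ.ι z) (σ.ι z') = p z z' := fun z z' hz => by
    rw [one z, one z', p1 _ _ _ hz, hc'.one, one_mul]
  have apE : ∀ (γ : σ.GG) x, ap' (γ • x) = ap' x := by
    intro γ x
    rcases σ.cover x with ⟨δ, z, rfl⟩ | ⟨δ, rfl⟩
    · rw [← mul_smul, a1, a1]
    · rw [← mul_smul, a2, a2]
  have clE : ∀ (γ : σ.GG) x, cls' (γ • x) = cls' x := by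
    intro γ x
    rcases σ.cover x with ⟨δ, z, rfl⟩ | ⟨δ, rfl⟩
    · rw [← mul_smul, k1, k1]
    · rw [← mul_smul, k2, k2]
  have glap : ∀ z, σ.Gl z → S.ap z ∧ S.cls z = S.cls σ.t := by
    rintro _ ⟨g, rfl | rfl⟩
    · exact ⟨hS.ap_smul g _ hfl.1, hS.cls_smul _ _⟩
    · exact ⟨hS.ap_smul g _ hh, (hS.cls_smul _ _).trans hc⟩
  have cj : ∀ (δ γ : σ.GG) (x : σ.ZZ), γ • δ • x = δ • x → (δ⁻¹ * γ * δ) • x = x ∧
      c' (δ⁻¹ * γ * δ) x = c' γ (δ • x) := by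
    intro δ γ x e
    have e1 : (δ⁻¹ * γ * δ) • x = x := by rw [mul_smul, mul_smul, e, inv_smul_smul]
    refine ⟨e1, ?_⟩
    rw [← hc'.conj δ e1]
    congr 1
    group
  have wst : ∀ s : S.G, s • σ.t = σ.h → ∀ γ : σ.GG, γ • σ.ι σ.t = σ.ι σ.t →
      ∃ (a : S.G) (j : ℤ), a • σ.t = σ.t ∧ γ = σ.em a * σ.v s ^ j := by
    intro s hs γ e
    refine σ.wtype_stab hs (fun a ha => (hA a).2 ⟨ha, ?_⟩) (fun a ha => ?_) e
    · rw [← hs, hS.Lb_smul hfl.1]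
      exact ⟨a, ha, rfl⟩
    · have h1 := σ.At a ha
      refine hS.lab_eq hh (hφh a ha) (by rw [← hs, mul_smul, mul_smul, inv_smul_smul, h1]) ?_
      rw [hφ, ← hS.lab_conj s hfl.1 h1, hs]
  have ker : ∀ γ : σ.GG, γ • σ.ι σ.t = σ.ι σ.t → psi σ.φ γ = 1 →
      ∃ a : S.G, γ = σ.em a ∧ a • σ.t = σ.t := by
    intro γ e h1
    by_cases he : ∀ g : S.G, g • σ.t ≠ σ.h
    · exact σ.etype_stab he e
    · push Not at he
      obtain ⟨s, hs⟩ := he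
      obtain ⟨a, j, ha, rfl⟩ := wst s hs γ e
      rw [σ.psi_em_v] at h1
      obtain rfl : j = 0 := Multiplicative.ofAdd.injective h1
      exact ⟨a, by rw [zpow_zero, mul_one], ha⟩
  have chi : ∃ χ : AA →* Multiplicative ℤ, χ η = 1 ∧
      ∀ z (γ : σ.GG), S.ap z → γ • σ.ι z = σ.ι z → χ (c' γ (σ.ι z)) = psi σ.φ γ := by
    have red : ∀ χ : AA →* Multiplicative ℤ, (∀ g z, S.ap z → χ (c g z) = 1) →
        (∀ γ : σ.GG, γ • σ.ι σ.t = σ.ι σ.t → χ (c' γ (σ.ι σ.t)) = psi σ.φ γ) →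
        ∀ z (γ : σ.GG), S.ap z → γ • σ.ι z = σ.ι z → χ (c' γ (σ.ι z)) = psi σ.φ γ := by
      intro χ h1 h2 z γ hz e
      by_cases hg : σ.Gl z
      · obtain ⟨δ, hδ⟩ := σ.gl_mem hg
        rw [hδ] at e ⊢
        obtain ⟨e1, e2⟩ := cj δ γ _ e
        rw [← e2, h2 _ e1, map_mul, map_mul, map_inv, inv_mul_cancel_comm]
      · obtain ⟨g, rfl, -⟩ := σ.stab_other hg e
        rw [c1, h1 g z hz, σ.psi_em]
    by_cases he : ∀ g : S.G, g • σ.t ≠ σ.h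
    · refine ⟨1, rfl, red 1 (fun _ _ _ => rfl) fun γ e => ?_⟩
      obtain ⟨a, rfl, -⟩ := σ.etype_stab he e
      exact (σ.psi_em a).symm
    · push Not at he
      obtain ⟨s, hs⟩ := he
      obtain ⟨χ, h1, h2, h3⟩ := hχ s hs
      obtain ⟨u1, u2⟩ := hU (fun _ => χ.ker) h1
      refine ⟨χ, h2, red χ u1 fun γ e => ?_⟩
      obtain ⟨a, j, ha, rfl⟩ := wst s hs γ e
      have hv := σ.v_t hs
      have e1 : χ (c' (σ.v s) (σ.ι σ.t)) = Multiplicative.ofAdd 1 := by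
        rw [SlotD.v, hc', σ.e_t, ← map_inv, c1, c2, map_mul, map_mul, map_mul, map_inv, map_inv,
          u1 _ _ hh, u2 _ _ hht, u2 _ _ hfl, h3]
        simp
      rw [σ.psi_em_v, hc'.mul_fix _ (St.zpow_fix hv j), hc'.zpow_fix hv, c1, map_mul,
        u1 _ _ hfl.1, one_mul, map_zpow, e1, ← ofAdd_zsmul, smul_eq_mul, mul_one]
  let T : St AA N K := ⟨σ.GG, σ.ZZ, σ.dd, ap', cls', nm', fun α n n' => (p' α n)⁻¹ * p' α n',
    fun α a => c' a α⟩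
  have dfE : ∀ (γ : σ.GG) {α x x' : σ.ZZ}, ap' α ∧ σ.dd α x = 1 → ap' α ∧ σ.dd α x' = 1 →
      (p' (γ • α) (γ • x))⁻¹ * p' (γ • α) (γ • x') = (p' α x)⁻¹ * p' α x' := by
    intro γ α x x' h1 h2
    rw [pE γ h1, pE γ h2, mul_inv_rev, mul_assoc, inv_mul_cancel_left]
  have fin : ∀ γ δ : σ.GG, δ⁻¹ * γ * δ = 1 → γ = 1 := fun γ δ h2 => by
    rwa [mul_assoc, inv_mul_eq_one, right_eq_mul] at h2
  have hT : T.OK := by
    refine ⟨σ.dd_gr, dinv, fun γ x hx => (iff_of_eq (apE γ x)).2 hx, clE, ?_,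
      σ.gate.free2 hS.two (hS.no_swap tf σ.th), ?_, ?_, ?_, fun γ _ _ _ h1 h2 => dfE γ h1 h2,
      ?_, ?_, ?_⟩
    · intro (γ : σ.GG) (x : σ.ZZ) (hx : ¬ ap' x) (e : γ • x = x)
      rcases σ.cover x with ⟨δ, z, rfl⟩ | ⟨δ, rfl⟩
      · rw [a1] at hx
        obtain ⟨g, h1, h2⟩ := σ.stab_other (fun hg => hx (glap z hg).1) (cj δ γ _ e).1
        rw [hS.free g z hx h2, map_one] at h1
        exact fin γ δ h1
      · exact absurd (by rw [a2]; trivial) hx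
    · intro (x : σ.ZZ) (hx : ap' x)
      rcases σ.cover x with ⟨δ, z, rfl⟩ | ⟨δ, rfl⟩
      · obtain ⟨n, hn⟩ := hS.nb z (by rwa [a1] at hx)
        exact ⟨δ • σ.ι n, (dinv _ _ _).trans ((dι _ _).trans hn)⟩
      · exact ⟨δ • σ.ι σ.t, (dinv _ _ _).trans dw⟩
    · intro (γ : σ.GG) (x : σ.ZZ) (y : σ.ZZ) hxy
      change nm' (γ • x) (γ • y) = nm' x y
      rcases cases hxy with ⟨δ, z, z', rfl, rfl, h1⟩ | ⟨δ, rfl, rfl⟩ | ⟨δ, rfl, rfl⟩
      · rw [← mul_smul, ← mul_smul, n1 _ _ _ h1, n1 _ _ _ h1]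
      · rw [← mul_smul, ← mul_smul, n2, n2]
      · rw [← mul_smul, ← mul_smul, n3, n3]
    · intro (x : σ.ZZ) (y : σ.ZZ) (x' : σ.ZZ) (y' : σ.ZZ) hxy hxy' (e : nm' x y = nm' x' y')
      change ∃ g : σ.GG, g • x = x' ∧ g • y = y'
      have tr : ∀ (δ δ' : σ.GG) (u v : σ.ZZ), ∃ g : σ.GG, g • δ • u = δ' • u ∧
          g • δ • v = δ' • v := fun δ δ' u v => ⟨δ' * δ⁻¹, by simp [mul_smul], by simp [mul_smul]⟩
      rcases cases hxy with ⟨δ, z, z', rfl, rfl, h1⟩ | ⟨δ, rfl, rfl⟩ | ⟨δ, rfl, rfl⟩ <;>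
        rcases cases hxy' with ⟨δ', u, u', rfl, rfl, h2⟩ | ⟨δ', rfl, rfl⟩ | ⟨δ', rfl, rfl⟩
      · rw [n1 _ _ _ h1, n1 _ _ _ h2] at e
        obtain ⟨g, rfl, rfl⟩ := hS.nm_orb _ _ _ _ h1 h2 e
        exact ⟨δ' * σ.em g * δ⁻¹, by simp [mul_smul, σ.ι_smul], by simp [mul_smul, σ.ι_smul]⟩
      · rw [n1 _ _ _ h1, n2] at e
        exact absurd e (hf _ _ h1).1
      · rw [n1 _ _ _ h1, n3] at e
        exact absurd e (hf _ _ h1).2
      · rw [n1 _ _ _ h2, n2] at e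
        exact absurd e.symm (hf _ _ h2).1
      · exact tr _ _ _ _
      · rw [n2, n3] at e
        exact absurd e hx
      · rw [n1 _ _ _ h2, n3] at e
        exact absurd e.symm (hf _ _ h2).2
      · rw [n2, n3] at e
        exact absurd e.symm hx
      · exact tr _ _ _ _
    · intro α n n' n'' _ _ _
      change (p' α n)⁻¹ * p' α n' * ((p' α n')⁻¹ * p' α n'') = (p' α n)⁻¹ * p' α n''
      rw [mul_assoc, mul_inv_cancel_left]
    · intro (α : σ.ZZ) (n : σ.ZZ) (a : σ.GG) hn (ha : a • α = α)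
      change (p' α n)⁻¹ * p' α (a • n) = c' a α
      have := pE a hn
      rw [ha] at this
      rw [this, inv_mul_cancel_comm_assoc]
    · intro (x : σ.ZZ) (γ : σ.GG) (hx : ap' x) (e : γ • x = x) (h1 : c' γ x = 1)
      rcases σ.cover x with ⟨δ, z, rfl⟩ | ⟨δ, rfl⟩
      · rw [a1] at hx
        by_cases hg : σ.Gl z
        · obtain ⟨δ', hδ⟩ := σ.gl_mem hg
          rw [hδ, ← mul_smul δ] at e h1
          obtain ⟨e1, e2⟩ := cj _ γ _ e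
          obtain ⟨χ, -, h2⟩ := chi
          obtain ⟨a, h3, h4⟩ := ker _ e1 (by rw [← h2 _ _ hfl.1 e1, e2, h1, map_one])
          rw [h3, c1, hlab _ _ hfl.1 h4, h1] at e2
          rw [hS.lab_inj _ a hfl.1 h4 e2, map_one] at h3
          exact fin _ _ h3
        · obtain ⟨e1, e2⟩ := cj δ γ _ e
          obtain ⟨a, h3, h4⟩ := σ.stab_other hg e1
          rw [h3, c1, hlab _ _ hx h4, h1] at e2
          rw [hS.lab_inj _ a hx h4 e2, map_one] at h3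
          exact fin _ _ h3
      · obtain ⟨e1, e2⟩ := cj δ γ _ e
        obtain ⟨j, hj⟩ := σ.stab_w _ e1
        rw [hj, hc'.zpow_fix σ.e_w, c3, h1] at e2
        rw [tfA.zpows hη e2, zpow_zero] at hj
        exact fin _ _ hj
  refine ⟨T,
    { toGate := σ.gate
      η := η
      ξ := ξ
      ζ := ζ
      x₁ := x₁
      x₂ := x₂
      psi := psi σ.φ
      psi_φ := σ.psi_em
      psi_e := σ.psi_e
      gen := ?_
      lift := ?_
      fl := hfl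
      ap_h := hh
      cls_h := hc
      lb := hL
      η_ne := hη
      tfA := tfA
      ap_ι := fun z => iff_of_eq ((congrArg ap' (one z)).trans (a1 1 z))
      ap_w := (iff_of_eq ((congrArg ap' onew).trans (a2 1))).2 trivial
      cls_ι := fun z => (congrArg cls' (one z)).trans (k1 1 z)
      cls_w := (congrArg cls' onew).trans (k2 1)
      nm_ι := fun α n hn => (congrArg₂ nm' (one α) (one n)).trans (n1 1 α n hn)
      nm_tw := (congrArg₂ nm' (one _) onew).trans (n2 1)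
      nm_wt := (congrArg₂ nm' onew (one _)).trans (n3 1)
      df_ι := ?_
      df_w := ?_
      df_e := ?_
      lab_ι := fun α a h1 h2 => (c1 a α).trans (hlab α a h1 h2)
      lab_w := c3
      conj := ?_
      estab := fun he γ e => (σ.etype_stab he e).imp fun _ h1 => h1.1.symm
      wstab := wst
      chi := chi
      dfs := ?_ }, hT, rfl, rfl, rfl, rfl, rfl, rfl, rfl⟩
  · change Subgroup.closure (Set.range σ.em ∪ {σ.e}) = ⊤
    rw [eq_top_iff]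
    rintro γ -
    induction γ using HNNExtension.induction_on with
    | of g => exact Subgroup.subset_closure (Or.inl ⟨g, rfl⟩)
    | t => exact Subgroup.subset_closure (Or.inr rfl)
    | mul _ _ h1 h2 => exact mul_mem h1 h2
    | inv _ h1 => exact inv_mem h1
  · intro H _ f x hfx
    exact ⟨HNNExtension.lift f x fun a => mul_inv_eq_iff_eq_mul.1
      (hfx a _ (σ.At a a.2) (hφh a a.2) (hφ a a.2).symm),
      fun g => HNNExtension.lift_of _ _ _ g, HNNExtension.lift_t _ _ _⟩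
  · intro α n n' h1 h2
    change (p' (σ.ι α) (σ.ι n))⁻¹ * p' (σ.ι α) (σ.ι n') = _
    rw [pι _ _ h1, pι _ _ h2, hdf _ _ _ h1 h2]
  · change (p' (σ.ι σ.t) σ.w)⁻¹ * p' (σ.ι σ.t) (σ.ι σ.h) = ξ
    have := p2 1
    rw [one_smul, one_smul, hc'.one, one_mul] at this
    rw [this, pι _ _ hfl, mul_inv_rev, inv_inv, inv_mul_cancel_right]
  · change (p' (σ.ι σ.t) (σ.ι σ.h))⁻¹ * p' (σ.ι σ.t) (σ.e⁻¹ • σ.ι σ.t) = ζ
    have := p1 σ.e⁻¹ _ _ hht
    rw [← σ.e_t, inv_smul_smul, hc'.inv, c2] at this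
    rw [this, pι _ _ hfl]
    simp only [mul_inv_rev, inv_inv]
    rw [mul_assoc, mul_assoc, inv_mul_cancel, mul_one, inv_mul_cancel_comm_assoc]
  · intro a b (ha : a • σ.t = σ.t) (hb : b • σ.h = σ.h) (e : S.lab σ.t a = S.lab σ.h b)
    have h1 : a ∈ σ.A := (hA a).2 ⟨ha, b, hb, e.symm⟩
    exact (σ.e_conj h1).trans (congrArg σ.em (hS.lab_eq hh (hφh a h1) hb ((hφ a h1).trans e)))
  · intro U h1 (h2 : η ∈ U (S.cls σ.t)) (h3 : ξ ∈ U (S.cls σ.t)) (h4 : ζ ∈ U (S.cls σ.t))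
    obtain ⟨u1, u2⟩ := hU U h1
    have cm : ∀ (δ : σ.GG) u z, S.ap u → δ • σ.ι u = σ.ι z → c' δ (σ.ι u) ∈ U (S.cls u) := by
      intro δ u z hu e
      rcases σ.orbit_cases e with ⟨g, rfl, -⟩ | ⟨-, g1, -⟩
      · rw [c1]
        exact u1 g u hu
      · rw [(glap u g1).2]
        refine σ.coc_mem hc' _ (fun g v hv => ?_) ?_ g1 e
        · rw [c1, ← (glap v hv).2]
          exact u1 g v (glap v hv).1
        · rw [c2]
          exact mul_mem (mul_mem (hc ▸ u2 _ _ hht) (inv_mem (u2 _ _ hfl))) (inv_mem h4)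
    have base : ∀ α x : σ.ZZ, (∃ z, α = σ.ι z) ∨ α = σ.w → ap' α ∧ σ.dd α x = 1 →
        p' α x ∈ U (cls' α) := by
      intro α x hα hx
      rcases cases hx with ⟨δ, z, z', rfl, rfl, g1⟩ | ⟨δ, rfl, rfl⟩ | ⟨δ, rfl, rfl⟩
      · obtain ⟨u, hu⟩ := hα.resolve_right fun e => σ.w_ne _ _ e.symm
        rw [p1 _ _ _ g1, k1]
        exact mul_mem (cm δ z u g1.1 hu) (u2 _ _ g1)
      · obtain ⟨u, hu⟩ := hα.resolve_right fun e => σ.w_ne _ _ e.symm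
        rw [p2, k1]
        exact mul_mem (cm δ _ u hfl.1 hu) (mul_mem (u2 _ _ hfl) (inv_mem h3))
      · obtain ⟨j, rfl⟩ := σ.stab_w δ (hα.resolve_left fun ⟨u, hu⟩ => σ.w_ne_ι _ _ hu)
        rw [p3, k2, mul_one, hc'.zpow_fix σ.e_w, c3]
        exact zpow_mem h2 j
    intro (α : σ.ZZ) (x : σ.ZZ) (x' : σ.ZZ) hx hx'
    change (p' α x)⁻¹ * p' α x' ∈ U (cls' α)
    obtain ⟨γ, hγ⟩ : ∃ γ : σ.GG, (∃ z, γ • α = σ.ι z) ∨ γ • α = σ.w := by
      rcases σ.cover α with ⟨δ, z, rfl⟩ | ⟨δ, rfl⟩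
      · exact ⟨δ⁻¹, Or.inl ⟨z, inv_smul_smul _ _⟩⟩
      · exact ⟨δ⁻¹, Or.inr (inv_smul_smul _ _)⟩
    rw [← dfE γ hx hx', ← clE γ]
    exact mul_mem (inv_mem (base _ _ hγ (hT.fl_smul γ hx))) (base _ _ hγ (hT.fl_smul γ hx'))

end Pool.Agent.Lib.MP_429c3d_al.Ng
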