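import Pool.Agent.Lib.MP_429c3d_al.NgStpA
import Pool.Agent.Lib.MP_429c3d_al.NgStpEx
import Pool.Agent.Lib.MP_429c3d_al.NgGeo

set_option autoImplicit false

/-! Telescopes. -/

namespace Pool.Agent.Lib.MP_429c3d_al.Ng

open Hyp

/-- The metric of the star. -/
def telD : Option (Multiplicative ℤ) → Option (Multiplicative ℤ) → ℕ
  | none, none => 0
  | none, some _ => 1
  | some _, none => 1
  | some a, some b => if a = b then 0 else 2

/-- The star. -/
def telStar (m : ℕ) : St (Multiplicative ℤ) (Nm Empty Unit) Unit where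
  G := Multiplicative ℤ
  Z := Option (Multiplicative ℤ)
  d := telD
  ap := fun _ => True
  cls := fun _ => ()
  nm := fun x _ => .inr ((), x.isNone, (m : ℤ) + 1)
  df := fun x y z => match x, y, z with
    | none, some a, some b => a⁻¹ * b
    | _, _, _ => 1
  lab := fun x a => match x with
    | none => a
    | some _ => 1

theorem telD_le (x y : Option (Multiplicative ℤ)) : telD x y ≤ 2 := by
  rcases x with _ | a <;> rcases y with _ | b <;> simp only [telD] <;> (try split_ifs) <;> omega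

theorem telD_gr : IsGr telD := by
  refine ⟨⟨?_, ?_, ?_⟩, ?_, ?_⟩
  · rintro (_ | a) <;> simp [telD]
  · rintro (_ | a) (_ | b) <;> simp [telD, eq_comm]
  · rintro (_ | a) (_ | b) (_ | c) <;> simp only [telD] <;> (try split_ifs) <;> simp_all
  · rintro (_ | a) (_ | b) <;> simp [telD]
  · intro x y
    by_cases h : x = y
    · subst h
      have h0 : telD x x = 0 := by rcases x with _ | a <;> simp [telD]
      exact ⟨fun _ => x, rfl, h0, fun i j _ _ _ => by rw [h0] at *; omega⟩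
    rcases x with _ | a <;> rcases y with _ | b
    · exact absurd rfl h
    · refine ⟨fun i => if i = 0 then none else some b, rfl, by simp [telD], fun i j _ h2 h3 => ?_⟩
      simp only [telD] at h3
      interval_cases j <;> interval_cases i <;> simp [telD]
    · refine ⟨fun i => if i = 0 then some a else none, rfl, by simp [telD], fun i j _ h2 h3 => ?_⟩
      simp only [telD] at h3
      interval_cases j <;> interval_cases i <;> simp [telD]
    · have hab : a ≠ b := fun e => h (by rw [e])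
      refine ⟨fun i => if i = 0 then some a else if i = 1 then none else some b, rfl,
        by simp [telD, hab], fun i j _ h2 h3 => ?_⟩
      simp only [telD, if_neg hab] at h3
      interval_cases j <;> interval_cases i <;> simp [telD, hab]

theorem telD_one {x y : Option (Multiplicative ℤ)} (h : telD x y = 1) :
    (∃ a, x = none ∧ y = some a) ∨ ∃ a, x = some a ∧ y = none := by
  rcases x with _ | a <;> rcases y with _ | b
  · simp [telD] at h
  · exact Or.inl ⟨b, rfl, rfl⟩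
  · exact Or.inr ⟨a, rfl, rfl⟩
  · simp only [telD] at h
    split_ifs at h
    omega

theorem tel_fix {g a : Multiplicative ℤ} (h : g • (some a : Option (Multiplicative ℤ)) = some a) :
    g = 1 := by
  have : g * a = a := Option.some.inj h
  exact mul_eq_right.1 this

theorem tel_tfA : TF (Multiplicative ℤ) := fun _ _ hn h => (pow_eq_one_iff_left hn).1 h

theorem telStar_ok (m : ℕ) : (telStar m).OK := by
  refine ⟨telD_gr, ?_, fun _ _ _ => trivial, fun _ _ => rfl, fun _ _ h => absurd trivial h, ?_, ?_,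
    ?_, ?_, ?_, ?_, ?_, ?_⟩
  · rintro (g : Multiplicative ℤ) (_ | a) (_ | b)
    · rfl
    · rfl
    · rfl
    · show (if g * a = g * b then 0 else 2) = if a = b then 0 else 2
      simp
  · rintro (g : Multiplicative ℤ) (_ | a) (_ | b) h1 h2 h3
    · exact absurd rfl h3
    · exact tel_fix h2
    · exact tel_fix h1
    · exact tel_fix h1
  · rintro (_ | a) -
    · exact ⟨some 1, rfl⟩
    · exact ⟨none, rfl⟩
  · rintro g (_ | a) n - <;> rfl
  · intro α n α' n' h h' e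
    rcases telD_one h.2 with ⟨a, rfl, rfl⟩ | ⟨a, rfl, rfl⟩ <;>
      rcases telD_one h'.2 with ⟨a', rfl, rfl⟩ | ⟨a', rfl, rfl⟩
    · exact ⟨a' * a⁻¹, rfl, congrArg some (inv_mul_cancel_right a' a)⟩
    · simp [telStar] at e
    · simp [telStar] at e
    · exact ⟨a' * a⁻¹, congrArg some (inv_mul_cancel_right a' a), rfl⟩
  · rintro (g : Multiplicative ℤ) (_ | a) (_ | b) (_ | c) - - <;> try rfl
    show (g * b)⁻¹ * (g * c) = b⁻¹ * c
    group
  · intro α n n' n'' h h' h''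
    rcases telD_one h.2 with ⟨a, rfl, rfl⟩ | ⟨a, rfl, rfl⟩
    · rcases telD_one h'.2 with ⟨b, -, rfl⟩ | ⟨b, e, -⟩
      · rcases telD_one h''.2 with ⟨c, -, rfl⟩ | ⟨c, e, -⟩
        · show a⁻¹ * b * (b⁻¹ * c) = a⁻¹ * c
          group
        · cases e
      · cases e
    · exact one_mul _
  · rintro α n (g : Multiplicative ℤ) h -
    rcases telD_one h.2 with ⟨a, rfl, rfl⟩ | ⟨a, rfl, rfl⟩
    · show a⁻¹ * (g * a) = g
      rw [mul_comm g, inv_mul_cancel_left]
    · rfl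
  · rintro (_ | a) g - h1 h2
    · exact h2
    · exact tel_fix h1

theorem telStar_comm (m : ℕ) (a b : (telStar m).G) : Commute a b :=
  mul_comm (G := Multiplicative ℤ) a b

theorem telStar_alg (m : ℕ) : (telStar m).Alg := by
  refine ⟨tel_tfA, fun _ _ _ _ => telStar_comm m _ _, fun _ _ _ _ _ _ => telStar_comm m _ _, ?_, ?_,
    fun _ _ _ _ _ _ => telStar_comm m _ _⟩
  · rintro c c' z κ η ζ hη ⟨_ | a, -, -, -, h1⟩ ⟨_ | a', -, -, -, h2⟩ - h3
    · have e1 : c = η := h1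
      have e2 : c' = η := h2
      rw [e1, e2] at h3
      exact left_eq_mul.1 h3
    · exact absurd h2.symm hη
    · exact absurd h1.symm hη
    · exact absurd h1.symm hη
  · intro y s t z _ _ h
    rw [(telStar_comm m t y).eq, (telStar_comm m s y).eq, mul_inv_cancel_right,
      mul_inv_cancel_right] at h
    exact left_eq_mul.1 h

theorem telStar_mi (m l0 L : ℕ) : (telStar m).MI dnm 4 2 l0 3 L 0 0 := by
  refine ⟨fun x y z w => Or.inl ?_, fun α n n' l _ _ _ _ _ => ?_, ?_,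
    fun a b _ _ h => absurd (telStar_comm m a b) h, fun a h => absurd rfl (h none)⟩
  · have h1 : (telStar m).d x y ≤ 2 := telD_le x y
    have h2 : (telStar m).d z w ≤ 2 := telD_le z w
    omega
  · exact ((dnm_metg Empty Unit).self _).trans_le (Nat.zero_le _)
  · rintro a (_ | z) x ha h
    · have : (telStar m).d x none ≤ 1 := by rcases x with _ | b <;> simp [telStar, telD]
      omega
    · exact absurd (tel_fix h) ha

/-- A telescope after `n` steps, with `m` steps to go. -/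
structure PT (S : St (Multiplicative ℤ) (Nm Empty Unit) Unit) (n m : ℕ) where
  y : S.G
  b : S.G
  o : S.Z
  p : S.Z
  P : ℕ → S.Z
  gen : Subgroup.closure {y, b} = ⊤
  univ : ∀ (H : Type) [Group H] (a c : H), ∃ f : S.G →* H, f y = a ∧ (n ≠ 0 → f b = c)
  ap : ∀ x, S.ap x
  stab_o : ∀ g : S.G, g • o = o ↔ ∃ i : ℤ, g = y ^ i
  stab_p : ∀ g : S.G, g • p = p ↔ ∃ i : ℤ, g = b ^ i
  orb : ∀ x, ∃ g : S.G, x = g • o ∨ x = g • p
  ne : ∀ g : S.G, g • o ≠ p
  lab_o : S.lab o y = Multiplicative.ofAdd 1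
  lab_p : n ≠ 0 → S.lab p b = Multiplicative.ofAdd 1
  b_one : n = 0 → b = 1
  P_zero : P 0 = p
  P_succ : ∀ j, j < n → P (j + 1) = cs y b j • o
  adj : ∀ j, j ≤ n → S.d o (P j) = 1
  nmE : ∀ j, j ≤ n → S.nm o (P j) = .inr ((), true, (j : ℤ) + 1 + m)
  nmF : ∀ j, j ≤ n → S.nm (P j) o = .inr ((), false, (j : ℤ) + 1 + m)
  edge : ∀ x x', S.d x x' = 1 → ∃ (g : S.G) (j : ℕ), j ≤ n ∧
    ((x = g • o ∧ x' = g • P j) ∨ (x' = g • o ∧ x = g • P j))

theorem tel_zpow (g : Multiplicative ℤ) : g = Multiplicative.ofAdd (1 : ℤ) ^ g.toAdd := by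
  rw [← ofAdd_zsmul]
  simp

/-- The star as a telescope. -/
def telPT (m : ℕ) : PT (telStar m) 0 m where
  y := Multiplicative.ofAdd (1 : ℤ)
  b := 1
  o := none
  p := some 1
  P := fun _ => some 1
  gen := by
    refine eq_top_iff.2 fun g _ => ?_
    rw [tel_zpow g]
    exact Subgroup.zpow_mem _ (Subgroup.subset_closure (Set.mem_insert _ _)) _
  univ := fun H _ a _ => ⟨zpowersHom H a, zpow_one a, fun h => absurd rfl h⟩
  ap := fun _ => trivial
  stab_o := fun g => ⟨fun _ => ⟨_, tel_zpow g⟩, fun _ => rfl⟩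
  stab_p := fun g => ⟨fun h => ⟨0, tel_fix h⟩, by
    rintro ⟨i, rfl⟩
    rw [one_zpow, one_smul]⟩
  orb := by
    rintro (_ | a)
    · exact ⟨1, Or.inl rfl⟩
    · exact ⟨a, Or.inr (congrArg some (mul_one a).symm)⟩
  ne := fun g h => by cases h
  lab_o := rfl
  lab_p := fun h => absurd rfl h
  b_one := fun _ => rfl
  P_zero := rfl
  P_succ := fun j h => absurd h (Nat.not_lt_zero j)
  adj := fun _ _ => rfl
  nmE := fun j hj => by
    obtain rfl : j = 0 := by omega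
    simp [telStar, add_comm]
  nmF := fun j hj => by
    obtain rfl : j = 0 := by omega
    simp [telStar, add_comm]
  edge := fun x x' h => by
    rcases telD_one h with ⟨a, rfl, rfl⟩ | ⟨a, rfl, rfl⟩
    · exact ⟨a, 0, le_rfl, Or.inl ⟨rfl, congrArg some (mul_one a).symm⟩⟩
    · exact ⟨a, 0, le_rfl, Or.inr ⟨rfl, congrArg some (mul_one a).symm⟩⟩

namespace PT

variable {S T : St (Multiplicative ℤ) (Nm Empty Unit) Unit} {n m : ℕ} (A : PT S n m)

theorem y_fix : A.y • A.o = A.o := (A.stab_o _).2 ⟨1, (zpow_one _).symm⟩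

theorem b_fix : A.b • A.p = A.p := (A.stab_p _).2 ⟨1, (zpow_one _).symm⟩

theorem fl : S.Fl A.o A.p := ⟨A.ap _, A.P_zero ▸ A.adj 0 (Nat.zero_le _)⟩

theorem y_ne (H : S.OK) : A.y ≠ 1 := fun h => by
  have := A.lab_o
  rw [h, H.lab_one (A.ap _)] at this
  exact absurd this (by decide)

/-- Elements of the two stabilisers with the same label. -/
theorem same (H : S.OK) {a c : S.G} (ha : a • A.o = A.o) (hc : c • A.p = A.p)
    (e : S.lab A.o a = S.lab A.p c) : ∃ i : ℤ, a = A.y ^ i ∧ c = A.b ^ i ∧ (n = 0 → i = 0) := by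
  obtain ⟨i, rfl⟩ := (A.stab_o a).1 ha
  obtain ⟨k, rfl⟩ := (A.stab_p c).1 hc
  rw [H.lab_zpow (A.ap _) A.y_fix, H.lab_zpow (A.ap _) A.b_fix, A.lab_o, ← ofAdd_zsmul] at e
  by_cases hn : n = 0
  · rw [A.b_one hn, H.lab_one (A.ap _), one_zpow] at e
    obtain rfl : i = 0 := by simpa using e
    exact ⟨0, rfl, by rw [A.b_one hn, one_zpow, one_zpow], fun _ => rfl⟩
  · rw [A.lab_p hn, ← ofAdd_zsmul] at e
    obtain rfl : i = k := by simpa using e
    exact ⟨i, rfl, rfl, fun h => absurd h hn⟩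

/-- The treated pairs. -/
def L (y c : S.G) : Prop :=
  n ≠ 0 ∧ ∃ (i j : ℕ) (g : S.G), g * y * g⁻¹ = A.y ∧ g * cs y c i * g⁻¹ = cs A.y A.b j

theorem clo : Clo A.L := by
  constructor
  · rintro g y c ⟨h, i, j, g', h2, h3⟩
    refine ⟨h, i, j, g' * g⁻¹, by rw [← h2]; group, ?_⟩
    rw [← conj_cs, ← h3]; group
  · rintro y c ⟨h, i, j, g', h2, h3⟩
    exact ⟨h, i + 1, j, g', h2, by rw [cs_succ']; exact h3⟩

theorem exists_step (A : PT S n (m + 1)) (H : S.OK) (tf : TF S.G) :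
    ∃ (T : St (Multiplicative ℤ) (Nm Empty Unit) Unit) (X : Stp S T), T.OK ∧ X.t = A.o ∧
      X.h = A.p ∧ X.η = Multiplicative.ofAdd 1 ∧ X.x₁ = .inr ((), true, (m : ℤ) + 1) ∧
      X.x₂ = .inr ((), false, (m : ℤ) + 1) := by
  obtain ⟨T, X, h1, h2, h3, h4, -, -, h5, h6⟩ := exists_stp S H tf tel_tfA (t := A.o) (h := A.p)
    (Multiplicative.ofAdd 1) (Multiplicative.ofAdd 1) 1 (.inr ((), true, (m : ℤ) + 1))
    (.inr ((), false, (m : ℤ) + 1)) A.fl (A.ap _) rfl
    (fun η _ => ⟨A.y ^ η.toAdd, (A.stab_o _).2 ⟨_, rfl⟩, by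
      rw [H.lab_zpow (A.ap _) A.y_fix, A.lab_o, ← tel_zpow]⟩)
    (by decide) (by simp) (fun α x h => by
      obtain ⟨g, j, hj, ⟨rfl, rfl⟩ | ⟨rfl, rfl⟩⟩ := A.edge α x h.2
      · rw [H.nm_smul g _ _ ⟨A.ap _, A.adj j hj⟩, A.nmE j hj]
        simp only [ne_eq, Sum.inr.injEq, Prod.mk.injEq]
        omega
      · rw [H.nm_smul g _ _ (H.fl_symm ⟨A.ap _, A.adj j hj⟩ (A.ap _)), A.nmF j hj]
        simp only [ne_eq, Sum.inr.injEq, Prod.mk.injEq]
        omega)
    (fun s h => absurd h (A.ne s))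
  exact ⟨T, X, h1, h2, h3, h4, h5, h6⟩

theorem conj_e (X : Stp S T) (ht : X.t = A.o) (hh : X.h = A.p) (hn : n ≠ 0) :
    X.e * X.φ A.y * X.e⁻¹ = X.φ A.b :=
  X.conj _ _ (ht ▸ A.y_fix) (hh ▸ A.b_fix) (by rw [ht, hh, A.lab_o, A.lab_p hn])

theorem cs_e (X : Stp S T) (ht : X.t = A.o) (hh : X.h = A.p) (hn : n ≠ 0) (j : ℕ) :
    cs (X.φ A.y) X.e (j + 1) = X.φ (cs A.y A.b j) := by
  rw [cs_succ', A.conj_e X ht hh hn, map_cs]

/-- The next telescope. -/
def step (A : PT S n (m + 1)) (X : Stp S T) (H : S.OK) (H' : T.OK) (ht : X.t = A.o)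
    (hh : X.h = A.p) (hη : X.η = Multiplicative.ofAdd 1)
    (h1 : X.x₁ = .inr ((), true, (m : ℤ) + 1)) (h2 : X.x₂ = .inr ((), false, (m : ℤ) + 1)) :
    PT T (n + 1) m where
  y := X.φ A.y
  b := X.e
  o := X.ι A.o
  p := X.w
  P := fun j => match j with
    | 0 => X.w
    | j + 1 => X.ι (A.P j)
  gen := by
    rw [eq_top_iff, ← X.gen, Subgroup.closure_le]
    have e1 : X.φ A.y ∈ Subgroup.closure {X.φ A.y, X.e} := Subgroup.subset_closure (Or.inl rfl)
    have e2 : X.e ∈ Subgroup.closure {X.φ A.y, X.e} := Subgroup.subset_closure (Or.inr rfl)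
    rintro _ (⟨g, rfl⟩ | rfl)
    · have : Subgroup.closure {A.y, A.b} ≤ (Subgroup.closure {X.φ A.y, X.e}).comap X.φ := by
        rw [Subgroup.closure_le]
        rintro _ (rfl | rfl)
        · exact e1
        · by_cases hn : n = 0
          · rw [A.b_one hn]
            exact Subgroup.one_mem _
          · show X.φ A.b ∈ Subgroup.closure {X.φ A.y, X.e}
            rw [← A.conj_e X ht hh hn]
            exact mul_mem (mul_mem e2 e1) (inv_mem e2)
      exact this (A.gen ▸ Subgroup.mem_top g)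
    · exact e2
  univ := fun G _ a c => by
    obtain ⟨f, f1, f2⟩ := A.univ G a (c * a * c⁻¹)
    obtain ⟨f', f3, f4⟩ := X.lift G f c fun a' b' e1 e2 e3 => by
      rw [ht] at e1
      rw [hh] at e2
      rw [ht, hh] at e3
      obtain ⟨i, rfl, rfl, e4⟩ := A.same H e1 e2 e3
      by_cases hn : n = 0
      · rw [e4 hn]
        simp
      · rw [map_zpow, map_zpow, f1, f2 hn, conj_zpow]
    exact ⟨f', by rw [f3, f1], fun _ => f4⟩
  ap := fun x => by
    rcases X.cover x with ⟨γ, z, rfl⟩ | ⟨γ, rfl⟩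
    · exact H'.ap_smul _ _ ((X.ap_ι z).2 (A.ap z))
    · exact H'.ap_smul _ _ X.ap_w
  stab_o := fun g => by
    constructor
    · intro h
      obtain ⟨g₀, rfl⟩ := X.estab (by rw [ht, hh]; exact A.ne) g (by rw [ht]; exact h)
      obtain ⟨i, rfl⟩ := (A.stab_o g₀).1 (X.φ_smul_eq.1 h)
      exact ⟨i, map_zpow _ _ _⟩
    · rintro ⟨i, rfl⟩
      rw [← map_zpow]
      exact X.φ_smul_eq.2 ((A.stab_o _).2 ⟨i, rfl⟩)
  stab_p := fun g => ⟨X.stab_w g, by
    rintro ⟨i, rfl⟩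
    exact MulAction.mem_stabilizer_iff.1
      (Subgroup.zpow_mem _ (MulAction.mem_stabilizer_iff.2 X.e_w) i)⟩
  orb := fun x => by
    rcases X.cover x with ⟨γ, z, rfl⟩ | ⟨γ, rfl⟩
    · obtain ⟨g, rfl | rfl⟩ := A.orb z
      · exact ⟨γ * X.φ g, Or.inl (by rw [X.ι_smul, mul_smul])⟩
      · exact ⟨γ * X.φ g * X.e, Or.inl (by rw [X.ι_smul, mul_smul, mul_smul, ← ht, X.e_t, hh])⟩
    · exact ⟨γ, Or.inr rfl⟩
  ne := fun g h => X.w_ne g _ h.symm
  lab_o := (X.lab_ι _ _ (A.ap _) A.y_fix).trans A.lab_o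
  lab_p := fun _ => X.lab_w.trans hη
  b_one := fun h => absurd h (Nat.succ_ne_zero n)
  P_zero := rfl
  P_succ := by
    rintro (_ | j) hj
    · show X.ι (A.P 0) = X.e • X.ι A.o
      rw [A.P_zero, ← ht, X.e_t, hh]
    · show X.ι (A.P (j + 1)) = _
      rw [A.cs_e X ht hh (by omega), A.P_succ j (by omega), X.ι_smul]
  adj := by
    rintro (_ | j) hj
    · exact ht ▸ (X.fl_tw H').2
    · exact (X.d_ι_eq _ _).trans (A.adj j (by omega))
  nmE := by
    rintro (_ | j) hj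
    · show T.nm (X.ι A.o) X.w = _
      rw [← ht, X.nm_tw, h1]
      simp [add_comm]
    · show T.nm (X.ι A.o) (X.ι (A.P j)) = _
      rw [X.nm_ι _ _ ⟨A.ap _, A.adj j (by omega)⟩, A.nmE j (by omega)]
      simp only [Sum.inr.injEq, Prod.mk.injEq, true_and]
      omega
  nmF := by
    rintro (_ | j) hj
    · show T.nm X.w (X.ι A.o) = _
      rw [← ht, X.nm_wt, h2]
      simp [add_comm]
    · show T.nm (X.ι (A.P j)) (X.ι A.o) = _
      rw [X.nm_ι _ _ (H.fl_symm ⟨A.ap _, A.adj j (by omega)⟩ (A.ap _)), A.nmF j (by omega)]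
      simp only [Sum.inr.injEq, Prod.mk.injEq, true_and]
      omega
  edge := fun x x' h => by
    rcases X.edge_cases H' h with ⟨γ, z, z', rfl, rfl, e⟩ | ⟨γ, rfl, rfl⟩ | ⟨γ, rfl, rfl⟩
    · obtain ⟨g, j, hj, e'⟩ := A.edge z z' e
      refine ⟨γ * X.φ g, j + 1, by omega, e'.imp ?_ ?_⟩ <;> rintro ⟨rfl, rfl⟩ <;>
        exact ⟨by rw [X.ι_smul, mul_smul], by rw [X.ι_smul, mul_smul]⟩
    · exact ⟨γ, 0, Nat.zero_le _, Or.inl ⟨by rw [ht], rfl⟩⟩
    · exact ⟨γ, 0, Nat.zero_le _, Or.inr ⟨by rw [ht], rfl⟩⟩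

end PT

theorem tel_ind (K0 : ℕ → ℕ) (hK : ∀ (S' : ℕ) (S T : St (Multiplicative ℤ) (Nm Empty Unit) Unit)
    (X : Stp S T) (L : S.G → S.G → Prop), S.OK → T.OK → S.Alg →
    S.NP X.t X.h X.η → S.EH X.t X.h → Clo L → S.GT L (K0 S') S' →
    (∀ a b : S.G, a • X.t = X.t → b • X.h = X.h → S.lab X.t a = X.η → S.lab X.h b = X.η →
      L a b ∧ (L b⁻¹ a⁻¹ ∨ Esc S.d (K0 S' - 1) S' b⁻¹ a⁻¹)) →
    T.GT (LT X.φ L) (K0 S') S' ∧ ∀ a : S.G, a ≠ 1 → a • X.t = X.t →
      Esc T.d (K0 S' - 1) S' X.e (X.φ a) ∧ Esc T.d (K0 S' - 1) S' X.e⁻¹ (X.φ a)) (n : ℕ) :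
    ∀ m, ∃ (S : St (Multiplicative ℤ) (Nm Empty Unit) Unit) (A : PT S n m), S.OK ∧ S.Alg ∧
      Top S.G A.p ∧
      (∀ l0 L, S.Geo dnm (4 + 3) (2 + 4 + 2) l0 3 L (0 + 10 * L + 28) (0 + 2 * L + 6)) ∧
      ∀ S', S.GT A.L (K0 S') S' ∧ (n ≠ 0 → Esc S.d (K0 S' - 1) S' A.b⁻¹ A.y⁻¹) := by
  induction n with
  | zero =>
    exact fun m => ⟨telStar m, telPT m, telStar_ok m, telStar_alg m,
      top_of_free (telStar_alg m).tf fun _ h => tel_fix h,
      fun l0 L => geo_of_mi (telStar_ok m) (telStar_mi m l0 L),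
      fun S' => ⟨fun y c _ h => absurd (telStar_comm m y c) h, fun h => absurd rfl h⟩⟩
  | succ n ih =>
    intro m
    obtain ⟨S, A, H, hA, hT, hG, hL⟩ := ih (m + 1)
    obtain ⟨T, X, H', ht, hh, hη, h1, h2⟩ := A.exists_step H hA.tf
    have np : S.NP X.t X.h X.η := fun f _ => by rw [ht, hh]; exact A.ne f
    have eh : S.EH X.t X.h := fun _ => by rw [hh]; exact ⟨hT, A.b, A.stab_p⟩
    refine ⟨T, A.step X H H' ht hh hη h1 h2, H', X.alg_step H H' hA np eh,
      X.top_step H H' hA np eh, fun l0 L => X.geo_step H H' hA.tf (dnm_metg _ _) ?_ ?_ (hG l0 L),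
      fun S' => ?_⟩
    · rw [h1, ht, hh, ← A.P_zero, A.nmE 0 (Nat.zero_le _)]
      simp only [dnm, Nm.arm, Nm.ht, if_true]
      omega
    · rw [h1, ht, hh, ← A.P_zero, A.nmF 0 (Nat.zero_le _)]
      simp only [dnm, Nm.arm, Nm.ht, if_true]
      omega
    obtain ⟨g1, g2⟩ := hK S' S T X A.L H H' hA np eh A.clo (hL S').1 fun a b e1 e2 e3 e4 => by
      rw [ht] at e1 e3
      rw [hh] at e2 e4
      have hn : n ≠ 0 := fun hn => by
        obtain ⟨i, rfl, -, e5⟩ := A.same H e1 e2 (e3.trans e4.symm)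
        rw [e5 hn, zpow_zero, H.lab_one (A.ap _)] at e3
        exact X.η_ne e3.symm
      obtain rfl : a = A.y := H.lab_eq (A.ap _) e1 A.y_fix (by rw [e3, hη, A.lab_o])
      obtain rfl : b = A.b := H.lab_eq (A.ap _) e2 A.b_fix (by rw [e4, hη, A.lab_p hn])
      exact ⟨⟨hn, 0, 0, 1, by simp, by simp⟩, Or.inr ((hL S').2 hn)⟩
    refine ⟨fun y c a b => (g1 y c a b).imp_left ?_, fun _ => ?_⟩
    · rintro ⟨k, g, y0, c0, ⟨hn, i, j, g0, e1, e2⟩, e3, e4⟩
      refine ⟨Nat.succ_ne_zero n, k + i, j + 1, X.φ g0 * g, ?_, ?_⟩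
      · show _ = X.φ A.y
        rw [← e1, map_mul, map_mul, map_inv, ← e3]
        group
      · show _ = cs (X.φ A.y) X.e (j + 1)
        rw [A.cs_e X ht hh hn, ← e2, map_mul, map_mul, map_inv, map_cs, ← e3, ← e4, ← conj_cs,
          cs_add]
        group
    · have := (g2 A.y⁻¹ (inv_ne_one.2 (A.y_ne H))
        (by rw [ht]; exact inv_smul_eq_iff.2 A.y_fix.symm)).2
      rwa [map_inv] at this

/-- Telescopes: `n` steps from the star. -/
theorem tel_exists : ∃ (k c : ℕ) (f P Kk : ℕ → ℕ), ∀ n, 1 ≤ n →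
    ∃ (S : St (Multiplicative ℤ) (Nm Empty Unit) Unit) (T : Tel S n), S.OK ∧ S.Alg ∧
      (∀ l0 L, S.MI dnm k c l0 3 L (f L) (P L)) ∧
      ∀ S', S.GT (fun y c => ∃ (i j : ℕ) (g : S.G), g * y * g⁻¹ = T.y ∧
        g * cs y c i * g⁻¹ = cs T.y T.ε j) (Kk S') S' := by
  obtain ⟨k, c, F, hM⟩ := mi_of_geo (4 + 3) (2 + 4 + 2)
  choose K0 hK using gt_step
  refine ⟨k, c, fun L => 0 + 10 * L + 28 + 2 * L + F, fun L => 0 + 2 * L + 6, K0, fun n hn => ?_⟩
  obtain ⟨S, A, H, hA, -, hG, hL⟩ := tel_ind K0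
    (fun S' S T X L => hK S' _ _ _ S T X L _ le_rfl) n 0
  let Q : ℕ → S.Z := fun j => match j with
    | 0 => A.p
    | j + 1 => cs A.y A.b j • A.o
  have hQ : ∀ j, j ≤ n → Q j = A.P j := by
    rintro (_ | j) hj
    · exact A.P_zero.symm
    · exact (A.P_succ j hj).symm
  refine ⟨S, ⟨A.y, A.b, A.o, A.p, Q, A.gen, fun G _ a b => ?_, A.ap, A.stab_o, A.stab_p, A.orb,
    A.ne, A.lab_o, A.lab_p (by omega), rfl, fun _ => rfl, fun j hj => ?_, fun j hj => ?_,
    fun j hj => ?_, fun x x' h => ?_⟩, H, hA, fun l0 L => hM _ _ _ S _ _ _ _ _ _ H (hG l0 L),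
    fun S' y c a b => ((hL S').1 y c a b).imp_left fun h => h.2⟩
  · obtain ⟨f, f1, f2⟩ := A.univ G a b
    exact ⟨f, f1, f2 (by omega)⟩
  · rw [hQ j hj, A.adj j hj]
  · rw [hQ j hj, A.nmE j hj]
    simp
  · rw [hQ j hj, A.nmF j hj]
    simp
  · obtain ⟨g, j, hj, e⟩ := A.edge x x' h
    exact ⟨g, j, hj, by rwa [hQ j hj]⟩

end Pool.Agent.Lib.MP_429c3d_al.Ng
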