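import Pool.Agent.Lib.MP_429c3d_al.NgAFin
import Pool.Agent.Lib.MP_429c3d_al.NgALim
import Pool.Agent.Lib.MP_429c3d_al.NgALimI
import Pool.Agent.Lib.MP_429c3d_al.NgTel

set_option autoImplicit false

/-! Block A: the final stage. -/

namespace Pool.Agent.Lib.MP_429c3d_al.Ng

open Hyp

theorem Emb.ext' {AA N K : Type} [CommGroup AA] {fin : N → Prop} {S T : St AA N K}
    {E E' : Emb fin S T} (h1 : ∀ g, E.φ g = E'.φ g) (h2 : ∀ x, E.ι x = E'.ι x) : E = E' := by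
  cases E
  cases E'
  congr 1
  · exact MonoidHom.ext h1
  · exact funext h2

variable {AA N0 K I : Type} [CommGroup AA] {S₀ : St AA (Nm N0 (I × Bool)) K} {n : ℕ}

/-- The chain of stages: all slots are treated one after the other. -/
theorem exists_chain (B : Base S₀ n) (π : Prm) (H₀ : S₀.OK) (hn : 2 ≤ n) {e : I → ℕ}
    (he : Function.Injective e) (h0 : Inv B π S₀ (Emb.refl _ _) fun _ => 0) :
    ∃ (S : ℕ → St AA (Nm N0 (I × Bool)) K) (E : ∀ k, Emb (Fin' n) S₀ (S k))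
      (E' : ∀ k, Emb (Fin' n) (S k) (S (k + 1))), (∀ k, E (k + 1) = (E k).trans (E' k)) ∧
      ∀ k, Inv B π (S k) (E k) (fun τ => if e τ.1 < k then n else 0) ∧
        ∀ τ : I × Bool, e τ.1 < k → Arm B (S k) (E k) τ := by
  classical
  let X : ℕ → Type 1 := fun k => {p : Σ S : St AA (Nm N0 (I × Bool)) K, Emb (Fin' n) S₀ S //
    Inv B π p.1 p.2 (fun τ => if e τ.1 < k then n else 0) ∧
      ∀ τ : I × Bool, e τ.1 < k → Arm B p.1 p.2 τ}
  have step : ∀ k (x : X k), ∃ (y : X (k + 1)) (E' : Emb (Fin' n) x.1.1 y.1.1),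
      y.1.2 = x.1.2.trans E' := by
    rintro k ⟨⟨S, E⟩, H, arm⟩
    by_cases hk : ∃ i, e i = k
    · obtain ⟨i, rfl⟩ := hk
      obtain ⟨T, E', H', arm'⟩ := H.both H₀ hn i (if_neg (lt_irrefl _)) (if_neg (lt_irrefl _))
      refine ⟨⟨⟨T, E.trans E'⟩, ?_, fun τ hτ => ?_⟩, E', rfl⟩
      · convert H' using 1
        funext ⟨j, b⟩
        by_cases hj : j = i
        · subst hj
          cases b <;> simp
        · have : e j ≠ e i := fun h => hj (he h)
          rw [Function.update_of_ne (by simp [hj]), Function.update_of_ne (by simp [hj])]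
          exact if_congr (show e j < e i ↔ e j < e i + 1 by omega) rfl rfl |>.symm
      · obtain ⟨j, b⟩ := τ
        by_cases hj : j = i
        · subst hj
          exact arm' b
        · have : e j ≠ e i := fun h => hj (he h)
          exact (arm (j, b) (by simp only at hτ ⊢; omega)).map H.ok E'
    · have hk' : ∀ i, e i < k + 1 ↔ e i < k := fun i => by
        have : e i ≠ k := fun h => hk ⟨i, h⟩
        omega
      exact ⟨⟨⟨S, E⟩, by simpa only [hk'] using H, fun τ hτ => arm τ ((hk' _).1 hτ)⟩,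
        Emb.refl _ _, rfl⟩
  choose nx E' hE using step
  let x : ∀ k, X k := fun k => Nat.rec (motive := X)
    ⟨⟨S₀, Emb.refl _ _⟩, by simpa using h0, fun _ h => absurd h (Nat.not_lt_zero _)⟩ nx k
  exact ⟨fun k => (x k).1.1, fun k => (x k).1.2, fun k => E' k (x k), fun k => hE k (x k),
    fun k => (x k).2⟩

/-- The final stage: all backward arms are attached. -/
theorem fs_exists (k c : ℕ) : ∃ k' c' : ℕ, ∀ L f P : ℕ, ∃ f' P' : ℕ, ∀ S' : ℕ, ∃ K0 : ℕ,
    ∀ (l0 D Kk m n : ℕ) (AA N0 K I : Type) [CommGroup AA] [Countable I]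
      (S : St AA (Nm N0 (I × Bool)) K) (B : Base S n), 3 ≤ D → K0 ≤ Kk → 2 ≤ n → S.OK →
      S.MI dnm k c l0 D L f P → S.Alg → S.GT (Tr m (yy B.y) (cc B.y B.s)) Kk S' →
      ∃ (J : St AA (Nm N0 (I × Bool)) K) (F : Fs J n), Nonempty (BaseEmb B F m) ∧ J.OK ∧
        J.MI dnm k' c' l0 D L f' P' ∧ J.Alg ∧ J.GT (Tr m F.Y F.ε) Kk S' := by
  obtain ⟨k', c', F0, hmi⟩ := mi_of_geo (k + 3) (c + k + 2)
  refine ⟨k', c', fun L f P => ⟨f + 10 * L + 28 + 2 * L + F0, P + 2 * L + 6, fun S' =>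
    ⟨(gt_step S').choose, ?_⟩⟩⟩
  intro l0 D Kk m n AA N0 K I _ _ S₀ B hD hK hn H₀ hM hA hT
  obtain ⟨e, he⟩ := exists_injective_nat I
  let π : Prm := ⟨k + 3, c + k + 2, l0, D, L, f + 10 * L + 28, P + 2 * L + 6, Kk, S', m, hD, hK⟩
  obtain ⟨S, E, E', hE, H⟩ := exists_chain B π H₀ hn he (Inv.base B π H₀ hA (geo_of_mi H₀ hM) hT)
  have ok : ∀ j, (S j).OK := fun j => (H j).1.ok
  obtain ⟨J, F, okJ, X⟩ := exists_lim S E' ok
  have eq : ∀ j, (E j).trans (F j) = (E 0).trans (F 0) := by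
    intro j
    induction j with
    | zero => rfl
    | succ j ih =>
      rw [← ih, hE]
      exact Emb.ext' (fun g => X.φ j _) fun x => X.ι j _
  have eι : ∀ j x, (F j).ι ((E j).ι x) = ((E 0).trans (F 0)).ι x := fun j x => by
    rw [← eq j]
    rfl
  obtain ⟨Fs, h1, h2⟩ := exists_fs B H₀ hn ((E 0).trans (F 0)) okJ
    (fun τ => eq (e τ.1 + 1) ▸ ((H _).2 τ (Nat.lt_succ_self _)).map (ok _) (F _)) (by
      intro α x τ b h f1 f2
      obtain ⟨j, ⟨α, rfl⟩, x, rfl⟩ := ((X.Z_ev α).and (X.Z_ev x)).exists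
      have f3 := (F j).fl_iff.1 f1
      have := (H j).1.used α x τ b h f3 (((F j).nm_ι _ _ f3).symm.trans f2)
      have := (H j).1.le τ
      unfold Val
      omega) (by
      intro α hα
      obtain ⟨j, α, rfl⟩ := X.Z α
      rcases (H j).1.orb α (((F j).ap_ι α).1 hα) with ⟨g, hg⟩ | ⟨x, τ, f1, f2⟩
      · exact Or.inl ⟨(F j).φ g, by rw [(F j).cls_ι, ← eι j, ← (F j).ι_smul, ← hg]⟩
      · refine Or.inr ⟨(F j).ι x, τ, (F j).fl f1, ?_⟩
        have := (H j).1.used α x τ _ _ f1 f2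
        rw [(F j).nm_ι _ _ f1, f2]
        split_ifs at this ⊢
        · rfl
        · omega) (by
      intro α x x' f1 f2
      obtain ⟨j, ⟨α, rfl⟩, ⟨x, rfl⟩, x', rfl⟩ :=
        ((X.Z_ev α).and ((X.Z_ev x).and (X.Z_ev x'))).exists
      have f3 := (F j).fl_iff.1 f1
      have f4 := (F j).fl_iff.1 f2
      rw [(F j).df_ι _ _ _ f3 f4, (F j).cls_ι, ← eι j]
      exact (F j).lb ((H j).1.ap_o _) ((H j).1.dfm α x x' f3 f4))
  refine ⟨J, Fs, ⟨⟨_, _, Emb.φ_inj _, Emb.ι_smul _, Emb.d_ι _, Emb.ap_ι _, h1, h2 m⟩⟩, okJ,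
    X.mi ok okJ fun j => hmi _ _ _ _ _ _ _ _ _ _ (ok j) (H j).1.geo,
    X.alg ok okJ fun j => (H j).1.alg, X.gt ok okJ (fun j y c h => ?_) fun j => (H j).1.gt⟩
  have := h.map (F j).φ
  rw [show (F j).φ.comp (E j).φ = ((E j).trans (F j)).φ from rfl, eq j] at this
  exact (Tr_clo m _ _).lt (h2 m) this

end Pool.Agent.Lib.MP_429c3d_al.Ng
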