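import Pool.Agent.Lib.MP_429c3d_al.HypBow

/-! Gates: the abstract geometry of one step (copies of a space glued in a tree like way along
apices, and cones over the lines). -/

set_option autoImplicit false

namespace Pool.Agent.Lib.MP_429c3d_al.Ng

open Hyp

/-- The data and the tree like properties of a step. `rt` and `rh` are the two retractions onto
the base copy (a cone whose line crosses the base copy goes to the tail, to the head). -/
structure Gate (G G' : Type) {Z Z' : Type} [Group G] [Group G'] [MulAction G Z] [MulAction G' Z']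
    (d : Z → Z → ℕ) (d' : Z' → Z' → ℕ) where
  φ : G →* G'
  ι : Z → Z'
  t : Z
  h : Z
  e : G'
  w : Z'
  rt : Z' → Z
  rh : Z' → Z
  len : G' → ℕ
  met : IsMet d
  met' : IsMet d'
  sep' : ∀ x y, d' x y = 0 → x = y
  geo' : IsGeo d'
  inv : ∀ (g : G) x y, d (g • x) (g • y) = d x y
  inv' : ∀ (g : G') x y, d' (g • x) (g • y) = d' x y
  φ_inj : Function.Injective φ
  th : t ≠ h
  dth : d t h ≤ 1
  ι_smul : ∀ (g : G) z, ι (g • z) = φ g • ι z
  e_t : e • ι t = ι h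
  e_w : e • w = w
  cover : ∀ x, (∃ (γ : G') (z : Z), x = γ • ι z) ∨ ∃ γ : G', x = γ • w
  w_ne : ∀ (γ : G') z, w ≠ γ • ι z
  stab_w : ∀ γ : G', γ • w = w → ∃ j : ℤ, γ = e ^ j
  d_ι : ∀ z z', d' (ι z) (ι z') ≤ d z z'
  d_w : d' w (ι t) ≤ 1
  edge : ∀ x y, d' x y ≤ 1 → x = y ∨
    (∃ (γ : G') (z z' : Z), x = γ • ι z ∧ y = γ • ι z' ∧ d z z' ≤ 1) ∨
    (∃ γ : G', x = γ • w ∧ y = γ • ι t) ∨ ∃ γ : G', y = γ • w ∧ x = γ • ι t
  rt_ι : ∀ z, rt (ι z) = z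
  rt_smul : ∀ (g : G) x, rt (φ g • x) = g • rt x
  rh_smul : ∀ (g : G) x, rh (φ g • x) = g • rh x
  rh_old : ∀ (γ : G') z, rh (γ • ι z) = rt (γ • ι z)
  far : ∀ γ : G', γ ∉ φ.range → ∀ z z', rt (γ • ι z) = rt (γ • ι z')
  far_ap : ∀ γ : G', γ ∉ φ.range → ∀ z, ∃ g : G, rt (γ • ι z) = g • t ∨ rt (γ • ι z) = g • h
  cone : ∀ γ : G', (rh (γ • w) = rt (γ • w) ∧ ∀ j : ℤ, rt (γ • e ^ j • ι t) = rt (γ • w)) ∨
    ∃ (g : G) (j : ℤ), γ * e ^ j = φ g ∧ rt (γ • w) = g • t ∧ rh (γ • w) = g • h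
  line : ∀ (γ : G') z, ∃ j : ℤ, rt (e ^ (-j) • γ • ι z) ≠ h ∧
    (∀ i, i < j → rt (e ^ (-i) • γ • ι z) = h) ∧ ∀ i, j < i → rt (e ^ (-i) • γ • ι z) = t
  back : ∀ γ : G', γ ∉ φ.range → ∀ (δ : G') z z₁ z₂, rt (δ • ι z) ≠ rt (γ • ι z₁) →
    rt (γ⁻¹ • δ • ι z) = rt (γ⁻¹ • ι z₂)
  next : ∀ γ : G', γ ∉ φ.range → ∀ z, ∃ (σ : G') (a : Z), σ • ι a = ι (rt (γ • ι z)) ∧
    len (σ⁻¹ * γ) < len γ

variable {G G' Z Z' : Type} [Group G] [Group G'] [MulAction G Z] [MulAction G' Z']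
  {d : Z → Z → ℕ} {d' : Z' → Z' → ℕ}

namespace Gate

variable (S : Gate G G' d d')

/-- Points of the copies. -/
def Old (x : Z') : Prop := ∃ (γ : G') (z : Z), x = γ • S.ι z

/-- `a` lies on the line of the cone `x`. -/
def OnL (x a : Z') : Prop := ∃ γ : G', x = γ • S.w ∧ a = γ • S.ι S.t

/-- The gates of `x` in the base copy. -/
def Rho (x : Z') (a : Z) : Prop := a = S.rt x ∨ a = S.rh x

theorem ι_inj : Function.Injective S.ι := fun a b h => by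
  rw [← S.rt_ι a, h, S.rt_ι]

theorem old_ι (z : Z) : S.Old (S.ι z) := ⟨1, z, (one_smul _ _).symm⟩

theorem Old.smul {S : Gate G G' d d'} {x : Z'} (h : S.Old x) (γ : G') : S.Old (γ • x) := by
  obtain ⟨δ, z, rfl⟩ := h
  exact ⟨γ * δ, z, (mul_smul _ _ _).symm⟩

theorem old_smul_ι (γ : G') (z : Z) : S.Old (γ • S.ι z) := ⟨γ, z, rfl⟩

theorem not_old_w (γ : G') : ¬ S.Old (γ • S.w) := by
  rintro ⟨δ, z, h⟩
  exact S.w_ne (γ⁻¹ * δ) z (by rw [mul_smul, ← h, inv_smul_smul])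

theorem OnL.smul {S : Gate G G' d d'} {x a : Z'} (h : S.OnL x a) (γ : G') :
    S.OnL (γ • x) (γ • a) := by
  obtain ⟨δ, rfl, rfl⟩ := h
  exact ⟨γ * δ, (mul_smul _ _ _).symm, (mul_smul _ _ _).symm⟩

theorem OnL.old {S : Gate G G' d d'} {x a : Z'} (h : S.OnL x a) : S.Old a := by
  obtain ⟨δ, -, rfl⟩ := h
  exact S.old_smul_ι _ _

theorem OnL.not_old {S : Gate G G' d d'} {x a : Z'} (h : S.OnL x a) : ¬ S.Old x := by
  obtain ⟨δ, rfl, -⟩ := h
  exact S.not_old_w δ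

theorem zpow_w (j : ℤ) : S.e ^ j • S.w = S.w :=
  MulAction.mem_stabilizer_iff.1 (Subgroup.zpow_mem _ (MulAction.mem_stabilizer_iff.2 S.e_w) j)

theorem onL_zpow (γ : G') (j : ℤ) : S.OnL (γ • S.w) (γ • S.e ^ j • S.ι S.t) :=
  ⟨γ * S.e ^ j, by rw [mul_smul, S.zpow_w], (mul_smul _ _ _).symm⟩

theorem OnL.exists_zpow {S : Gate G G' d d'} {γ : G'} {a : Z'} (h : S.OnL (γ • S.w) a) :
    ∃ j : ℤ, a = γ • S.e ^ j • S.ι S.t := by
  obtain ⟨δ, h1, rfl⟩ := h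
  obtain ⟨j, hj⟩ := S.stab_w (γ⁻¹ * δ) (by rw [mul_smul, ← h1, inv_smul_smul])
  exact ⟨j, by rw [← hj, mul_smul, smul_inv_smul]⟩

theorem OnL.d_le {S : Gate G G' d d'} {x a : Z'} (h : S.OnL x a) : d' x a ≤ 1 := by
  obtain ⟨δ, rfl, rfl⟩ := h
  rw [S.inv']
  exact S.d_w

theorem OnL.d_le' {S : Gate G G' d d'} {x a : Z'} (h : S.OnL x a) : d' a x ≤ 1 := by
  rw [S.met'.symm]
  exact h.d_le

theorem Old.rh {S : Gate G G' d d'} {x : Z'} (h : S.Old x) : S.rh x = S.rt x := by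
  obtain ⟨δ, z, rfl⟩ := h
  exact S.rh_old δ z

theorem Old.rho {S : Gate G G' d d'} {x : Z'} (h : S.Old x) {a : Z} :
    S.Rho x a ↔ a = S.rt x := by
  rw [Rho, h.rh, or_self]

theorem rho_ι (z a : Z) : S.Rho (S.ι z) a ↔ a = z := by
  rw [(S.old_ι z).rho, S.rt_ι]

theorem rho_rt (x : Z') : S.Rho x (S.rt x) := Or.inl rfl

theorem rho_rh (x : Z') : S.Rho x (S.rh x) := Or.inr rfl

theorem rho_smul (g : G) (x : Z') (a : Z) : S.Rho (S.φ g • x) (g • a) ↔ S.Rho x a := by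
  simp only [Rho, S.rt_smul, S.rh_smul, smul_left_cancel_iff]

theorem rho_smul' (g : G) (x : Z') (a : Z) : S.Rho (S.φ g • x) a ↔ S.Rho x (g⁻¹ • a) := by
  rw [← S.rho_smul g x, smul_inv_smul]

theorem d_smul_ι (γ : G') (z z' : Z) : d' (γ • S.ι z) (γ • S.ι z') ≤ d z z' := by
  rw [S.inv']
  exact S.d_ι z z'

theorem rt_φ_ι (g : G) (z : Z) : S.rt (S.φ g • S.ι z) = g • z := by
  rw [S.rt_smul, S.rt_ι]

/-- The gates of the points of the basic line. -/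
theorem rt_zpow (i : ℤ) : S.rt (S.e ^ i • S.ι S.t) = if 1 ≤ i then S.h else S.t := by
  obtain ⟨j, h1, h2, h3⟩ := S.line 1 S.t
  simp only [one_smul] at h1 h2 h3
  have h0 : S.rt (S.e ^ (-(0 : ℤ)) • S.ι S.t) = S.t := by simp [S.rt_ι]
  have hm : S.rt (S.e ^ (-(-1 : ℤ)) • S.ι S.t) = S.h := by simp [S.e_t, S.rt_ι]
  have hj : j = 0 := by
    rcases lt_trichotomy j 0 with hj | hj | hj
    · rcases eq_or_lt_of_le (show j ≤ -1 by omega) with hj' | hj'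
      · exact absurd (hj' ▸ hm) h1
      · exact absurd ((h3 _ hj').symm.trans hm) S.th
    · exact hj
    · exact absurd (h0.symm.trans (h2 _ hj)) S.th
  subst hj
  split_ifs with hi
  · simpa using h2 (-i) (by omega)
  · rcases eq_or_lt_of_le (show i ≤ 0 by omega) with hi' | hi'
    · simp [hi', S.rt_ι]
    · simpa using h3 (-i) (by omega)

/-- A cone either has one gate, the gate of all points of its line, or its line crosses the base
copy. -/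
theorem cone' (γ : G') : (∀ a, S.OnL (γ • S.w) a → ∀ b, S.Rho (γ • S.w) b ↔ b = S.rt a) ∨
    ∃ g : G, γ • S.w = S.φ g • S.w ∧ S.rt (γ • S.w) = g • S.t ∧ S.rh (γ • S.w) = g • S.h := by
  rcases S.cone γ with ⟨h1, h2⟩ | ⟨g, j, h1, h2, h3⟩
  · refine Or.inl fun a ha b => ?_
    obtain ⟨j, rfl⟩ := ha.exists_zpow
    rw [Rho, h1, or_self, h2]
  · exact Or.inr ⟨g, by rw [← h1, mul_smul, S.zpow_w], h2, h3⟩

theorem rt_w : S.rt S.w = S.t ∧ S.rh S.w = S.h := by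
  rcases S.cone 1 with ⟨-, h2⟩ | ⟨g, j, h1, h2, h3⟩
  · have e0 := h2 0
    have e1 := h2 1
    rw [one_smul, S.rt_zpow] at e0 e1
    simp only [le_refl, if_true] at e1
    rw [if_neg (by omega)] at e0
    exact absurd (e0.trans e1.symm) S.th
  · rw [one_mul] at h1
    rw [one_smul] at h2 h3
    have e0 := S.rt_zpow j
    have e1 := S.rt_zpow (j + 1)
    rw [h1, S.rt_φ_ι] at e0
    rw [zpow_add_one, mul_smul, S.e_t, h1, S.rt_φ_ι] at e1
    have hne : g • S.t ≠ g • S.h := fun hh => S.th (smul_left_cancel g hh)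
    rw [e0, e1] at hne
    rw [h2, h3, e0, e1]
    split_ifs at hne ⊢ with c1 c2 c2
    · exact absurd rfl hne
    · omega
    · exact ⟨rfl, rfl⟩
    · exact absurd rfl hne

theorem rho_w (a : Z) : S.Rho S.w a ↔ a = S.t ∨ a = S.h := by
  rw [Rho, S.rt_w.1, S.rt_w.2]

theorem onL_t (γ : G') : S.OnL (γ • S.w) (γ • S.ι S.t) := ⟨γ, rfl, rfl⟩

theorem onL_h (γ : G') : S.OnL (γ • S.w) (γ • S.ι S.h) := by
  simpa [S.e_t] using S.onL_zpow γ 1

/-- The gate of a point of a line is a gate of the cone. -/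
theorem OnL.rho {S : Gate G G' d d'} {x a : Z'} (h : S.OnL x a) : S.Rho x (S.rt a) := by
  obtain ⟨γ, rfl, -⟩ := id h
  rcases S.cone' γ with h1 | ⟨g, h1, -, -⟩
  · exact (h1 a h _).2 rfl
  · rw [h1] at h ⊢
    obtain ⟨j, rfl⟩ := h.exists_zpow
    rw [S.rt_smul, S.rho_smul, S.rho_w, S.rt_zpow]
    split_ifs
    exacts [Or.inr rfl, Or.inl rfl]

/-- Two different gates are the two ends of a translate of the slot. -/
theorem rho_two {x : Z'} {a b : Z} (ha : S.Rho x a) (hb : S.Rho x b) (hab : a ≠ b) :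
    ∃ g : G, x = S.φ g • S.w ∧ ((a = g • S.t ∧ b = g • S.h) ∨ (a = g • S.h ∧ b = g • S.t)) := by
  rcases S.cover x with hx | ⟨γ, rfl⟩
  · exact absurd (((Old.rho hx).1 ha).trans ((Old.rho hx).1 hb).symm) hab
  · rcases S.cone' γ with h1 | ⟨g, h1, h2, h3⟩
    · exact absurd (((h1 _ (S.onL_t γ) _).1 ha).trans ((h1 _ (S.onL_t γ) _).1 hb).symm) hab
    · refine ⟨g, h1, ?_⟩
      rw [Rho, h2, h3] at ha hb
      rcases ha with rfl | rfl <;> rcases hb with rfl | rfl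
      exacts [absurd rfl hab, Or.inl ⟨rfl, rfl⟩, Or.inr ⟨rfl, rfl⟩, absurd rfl hab]

theorem rho_two_onL {x : Z'} {a b : Z} (ha : S.Rho x a) (hb : S.Rho x b) (hab : a ≠ b) :
    S.OnL x (S.ι a) := by
  obtain ⟨g, rfl, ⟨rfl, -⟩ | ⟨rfl, -⟩⟩ := S.rho_two ha hb hab
  · rw [S.ι_smul]
    exact S.onL_t _
  · rw [S.ι_smul]
    exact S.onL_h _

theorem rho_d {x : Z'} {a b : Z} (ha : S.Rho x a) (hb : S.Rho x b) : d a b ≤ 1 := by
  by_cases hab : a = b
  · rw [hab, S.met.self]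
    exact Nat.zero_le _
  · obtain ⟨g, -, ⟨rfl, rfl⟩ | ⟨rfl, rfl⟩⟩ := S.rho_two ha hb hab
    · rw [S.inv]
      exact S.dth
    · rw [S.inv, S.met.symm]
      exact S.dth

/-- Two points of one copy have the same gate in every other copy. -/
theorem rt_copy (γ : G') (z z' : Z) : (∃ g : G, γ = S.φ g) ∨
    S.rt (γ • S.ι z) = S.rt (γ • S.ι z') := by
  by_cases hγ : γ ∈ S.φ.range
  · obtain ⟨g, hg⟩ := hγ
    exact Or.inl ⟨g, hg.symm⟩
  · exact Or.inr (S.far γ hγ z z')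

theorem rt_edge {x y : Z'} (h : d' x y ≤ 1) :
    d (S.rt x) (S.rt y) ≤ 1 ∧ d (S.rh x) (S.rh y) ≤ 1 := by
  have z1 : ∀ a : Z, d a a ≤ 1 := fun a => by rw [S.met.self]; exact Nat.zero_le _
  have key : ∀ {x y : Z'}, S.OnL x y → d (S.rt x) (S.rt y) ≤ 1 ∧ d (S.rh x) (S.rh y) ≤ 1 :=
    fun hl => ⟨S.rho_d (S.rho_rt _) hl.rho, by
      rw [hl.old.rh]
      exact S.rho_d (S.rho_rh _) hl.rho⟩
  rcases S.edge x y h with rfl | ⟨γ, z, z', rfl, rfl, hz⟩ | hl | hl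
  · exact ⟨z1 _, z1 _⟩
  · rw [S.rh_old, S.rh_old, and_self]
    rcases S.rt_copy γ z z' with ⟨g, rfl⟩ | h1
    · rwa [S.rt_φ_ι, S.rt_φ_ι, S.inv]
    · rw [h1]
      exact z1 _
  · exact key hl
  · rw [S.met.symm (S.rt x), S.met.symm (S.rh x)]
    exact key hl

include S in
/-- A unit speed path between two points. -/
theorem exists_path (x y : Z') : ∃ c : ℕ → Z', c 0 = x ∧ c (d' x y) = y ∧
    GeoOn d' c 0 (d' x y) ∧ ∀ i, i < d' x y → d' (c i) (c (i + 1)) ≤ 1 := by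
  obtain ⟨c, h0, h1, h2⟩ := S.geo' x y
  refine ⟨c, h0, S.sep' _ _ h1, h2, fun i hi => ?_⟩
  have := h2 i (i + 1) (Nat.zero_le _) (Nat.le_succ _) hi
  omega

include S in
/-- A function that changes by at most `K` along edges. -/
theorem lip_of_edge {Y : Type} {dY : Y → Y → ℕ} (m : IsMet dY) (f : Z' → Y) {K : ℕ}
    (hf : ∀ x y, d' x y ≤ 1 → dY (f x) (f y) ≤ K) (x y : Z') :
    dY (f x) (f y) ≤ K * d' x y := by
  obtain ⟨c, h0, h1, -, h2⟩ := S.exists_path x y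
  have key : ∀ i, i ≤ d' x y → dY (f x) (f (c i)) ≤ K * i := by
    intro i
    induction i with
    | zero =>
      intro _
      rw [h0, m.self]
      exact Nat.zero_le _
    | succ i ih =>
      intro hi
      have e1 := ih (by omega)
      have e2 := hf _ _ (h2 i hi)
      have e3 := m.tri (f x) (f (c i)) (f (c (i + 1)))
      rw [Nat.mul_succ]
      omega
  simpa [h1] using key _ le_rfl

theorem rt_lip (x y : Z') : d (S.rt x) (S.rt y) ≤ d' x y := by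
  simpa using S.lip_of_edge S.met S.rt (K := 1) (fun _ _ h => (S.rt_edge h).1) x y

theorem rh_lip (x y : Z') : d (S.rh x) (S.rh y) ≤ d' x y := by
  simpa using S.lip_of_edge S.met S.rh (K := 1) (fun _ _ h => (S.rt_edge h).2) x y

theorem d_ι_eq (z z' : Z) : d' (S.ι z) (S.ι z') = d z z' :=
  le_antisymm (S.d_ι z z') (by simpa [S.rt_ι] using S.rt_lip (S.ι z) (S.ι z'))

/-- Separation: along an edge from a point with gate `a` to a point without it. -/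
theorem sep_edge {x y : Z'} (h : d' x y ≤ 1) {a : Z} (hx : S.Rho x a) (hy : ¬ S.Rho y a) :
    x = S.ι a ∨ S.OnL x (S.ι a) := by
  rcases S.edge x y h with rfl | ⟨γ, z, z', rfl, rfl, -⟩ | hl | hl
  · exact absurd hx hy
  · rw [(S.old_smul_ι _ _).rho] at hx hy
    rcases S.rt_copy γ z z' with ⟨g, rfl⟩ | h1
    · rw [S.rt_φ_ι] at hx
      exact Or.inl (by rw [hx, S.ι_smul])
    · exact absurd (hx.trans h1) hy
  · have hl' : S.OnL x y := hl
    rw [hl'.old.rho] at hy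
    exact Or.inr (S.rho_two_onL hx hl'.rho hy)
  · have hl' : S.OnL y x := hl
    rw [hl'.old.rho] at hx
    exact absurd (hx ▸ hl'.rho) hy

/-- SEP: every path from a point with gate `a` to a point without it passes at distance at most
one from `a`. -/
theorem sep_path {c : ℕ → Z'} {n : ℕ} (hc : ∀ i, i < n → d' (c i) (c (i + 1)) ≤ 1) {a : Z}
    (h0 : S.Rho (c 0) a) (hn : ¬ S.Rho (c n) a) :
    ∃ i, i < n ∧ (c i = S.ι a ∨ S.OnL (c i) (S.ι a)) := by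
  induction n with
  | zero => exact absurd h0 hn
  | succ n ih =>
    by_cases h : S.Rho (c n) a
    · exact ⟨n, Nat.lt_succ_self n, S.sep_edge (hc n (Nat.lt_succ_self n)) h hn⟩
    · obtain ⟨i, hi, h'⟩ := ih (fun i hi => hc i (by omega)) h
      exact ⟨i, by omega, h'⟩

theorem sep_geo {x y : Z'} {a : Z} (hx : S.Rho x a) (hy : ¬ S.Rho y a) :
    ∃ u, d' x u + d' u y = d' x y ∧ d' x u < d' x y ∧ d' u (S.ι a) ≤ 1 := by
  obtain ⟨c, h0, h1, h2, h3⟩ := S.exists_path x y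
  obtain ⟨i, hi, h⟩ := S.sep_path h3 (h0 ▸ hx) (by rw [h1]; exact hy)
  have e1 := h2 0 i le_rfl (Nat.zero_le _) hi.le
  have e2 := h2 i _ (Nat.zero_le _) hi.le le_rfl
  rw [h0] at e1
  rw [h1] at e2
  refine ⟨c i, by omega, by omega, ?_⟩
  rcases h with h | h
  · rw [h, S.met'.self]
    exact Nat.zero_le _
  · exact h.d_le

theorem sep_le {x y : Z'} {a : Z} (hx : S.Rho x a) (hy : ¬ S.Rho y a) :
    d' x (S.ι a) ≤ d' x y ∧ d' y (S.ι a) ≤ d' x y + 1 := by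
  obtain ⟨u, h1, h2, h3⟩ := S.sep_geo hx hy
  have e1 := S.met'.tri x u (S.ι a)
  have e2 := S.met'.tri y u (S.ι a)
  have e3 := S.met'.symm y u
  omega

/-- The copy at an old point `ι a` that looks towards an old point. -/
theorem exists_first_old (γ : G') (z a : Z) (h : γ • S.ι z ≠ S.ι a) :
    ∃ (σ : G') (a₁ : Z), σ • S.ι a₁ = S.ι a ∧ S.rt (σ⁻¹ • γ • S.ι z) ≠ a₁ := by
  induction hn : S.len γ using Nat.strong_induction_on generalizing γ a with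
  | _ n ih =>
    by_cases h1 : S.rt (γ • S.ι z) = a
    · by_cases hγ : γ ∈ S.φ.range
      · obtain ⟨g, rfl⟩ := hγ
        rw [S.rt_φ_ι] at h1
        exact absurd (by rw [← h1, S.ι_smul]) h
      · obtain ⟨σ, a₁, e1, e2⟩ := S.next γ hγ z
        rw [h1] at e1
        obtain ⟨σ₂, a₂, e3, e4⟩ := ih _ (hn ▸ e2) (σ⁻¹ * γ) a₁ (fun hh => h (by
          rw [← e1, ← hh, mul_smul, smul_inv_smul])) rfl
        refine ⟨σ * σ₂, a₂, by rw [mul_smul, e3, e1], ?_⟩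
        rwa [mul_inv_rev, mul_smul, ← mul_smul σ⁻¹]
    · exact ⟨1, a, one_smul _ _, by simpa using h1⟩

/-- The other copies at `ι a` see the point through `ι a`. -/
theorem other_old {x : Z'} (hx : S.Old x) {a a₁ : Z} {σ : G'} (hσ : σ ∉ S.φ.range)
    (h1 : σ • S.ι a₁ = S.ι a) (h2 : S.rt x ≠ a) : S.rt (σ⁻¹ • x) = a₁ := by
  obtain ⟨δ, z, rfl⟩ := hx
  rw [S.back σ hσ δ z a₁ a (by rwa [h1, S.rt_ι]), ← h1, inv_smul_smul, S.rt_ι]

theorem other {x : Z'} {a a₁ : Z} {σ : G'} (hσ : σ ∉ S.φ.range)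
    (h1 : σ • S.ι a₁ = S.ι a) (h2 : ¬ S.Rho x a) {b : Z} : S.Rho (σ⁻¹ • x) b ↔ b = a₁ := by
  rcases S.cover x with hx | ⟨γ, rfl⟩
  · rw [(Old.smul hx _).rho, S.other_old hx hσ h1 fun hh => h2 (hh ▸ S.rho_rt x)]
  · have key : ∀ p, S.OnL (σ⁻¹ • γ • S.w) p → S.rt p = a₁ := fun p hp => by
      have hp' := hp.smul σ
      rw [smul_inv_smul] at hp'
      rw [← inv_smul_smul σ p]
      exact S.other_old hp'.old hσ h1 fun hh => h2 (hh ▸ hp'.rho)
    rw [← mul_smul] at key ⊢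
    rcases S.cone' (σ⁻¹ * γ) with h3 | ⟨g, h3, -, -⟩
    · rw [h3 _ (S.onL_t _), key _ (S.onL_t _)]
    · rw [h3] at key
      have e1 := key _ (S.onL_t _)
      have e2 := key _ (S.onL_h _)
      rw [S.rt_φ_ι] at e1 e2
      exact absurd (smul_left_cancel g (e1.trans e2.symm)) S.th

end Gate

end Pool.Agent.Lib.MP_429c3d_al.Ng
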