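import Pool.Agent.Lib.MP_429c3d_al.NgT4

/-! The translates of the line of a new cone. -/

set_option autoImplicit false

namespace Pool.Agent.Lib.MP_429c3d_al.Ng

open Hyp

namespace BT

variable {H V : Type} [Group H] [MulAction H V] {T : BT H V} {l : ℤ → V} {e g g' : H} {ψ : H → ℤ}

/-- The basic line, its translation and the exponent sum. -/
structure Cone (T : BT H V) (e : H) (l : ℤ → V) (ψ : H → ℤ) : Prop where
  ac : T.AC
  ax : T.Ax e l (2 * 1)
  mul : ∀ a b, ψ (a * b) = ψ a + ψ b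
  one : ψ e = 1
  fix : ∀ (g : H) i, ¬ T.ap (l i) → g • l i = l i → ψ g = 0

/-- The relative position of `l` and `g l`. -/
structure Cf (T : BT H V) (l : ℤ → V) (g : H) (a b δ : ℤ) (D : ℕ) : Prop where
  nonneg : 0 ≤ δ
  le : δ ≤ 2
  zero : D = 0 ∨ δ = 0
  pj : ∀ q, ∃ p E, a ≤ p ∧ p ≤ a + δ ∧ D ≤ E ∧ T.Ft l (g • l q) p E
  pj' : ∀ q, ∃ p E, b ≤ p ∧ p ≤ b + δ ∧ D ≤ E ∧ T.Ft l (g⁻¹ • l q) p E
  att : ∃ p q, T.d (l p) (g • l q) = D
  two : δ = 2 → ¬ T.ap (l b) ∧ ∀ k, 0 ≤ k → k ≤ 2 → g • l (b + k) = l (a + k)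

theorem Ft.add {x : V} {u p : ℤ} {D : ℕ} (h : T.Ft (fun j => l (u + j)) x p D) :
    T.Ft l x (u + p) D := fun k => by
  have := h (k - u)
  simp only [add_sub_cancel] at this
  omega

theorem Ft.sub {x : V} {u p : ℤ} {D : ℕ} (h : T.Ft (fun j => l (u - j)) x p D) :
    T.Ft l x (u - p) D := fun k => by
  have := h (u - k)
  simp only [sub_sub_cancel] at this
  omega

variable {a b δ a' b' δ' : ℤ} {D D' : ℕ}

theorem Cf.symm (h : T.Cf l g a b δ D) : T.Cf l g⁻¹ b a δ D := by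
  refine ⟨h.nonneg, h.le, h.zero, h.pj', by simpa using h.pj, ?_, fun e => ?_⟩
  · obtain ⟨p, q, e⟩ := h.att
    exact ⟨q, p, by rw [T.inv', inv_inv, T.symm, e]⟩
  · obtain ⟨h1, h2⟩ := h.two e
    refine ⟨?_, fun k k1 k2 => by rw [← h2 k k1 k2, inv_smul_smul]⟩
    have := h2 0 le_rfl (by omega)
    rw [add_zero, add_zero] at this
    rwa [← this, T.ap_smul]

theorem Cf.mem (h : T.Cf l g a b δ D) (hl : T.IsL l) {p q : ℤ} (e : g • l q = l p) :
    a ≤ p ∧ p ≤ a + δ ∧ b ≤ q ∧ q ≤ b + δ := by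
  obtain ⟨p', E, p1, p2, -, p3⟩ := h.pj q
  obtain ⟨q', E', q1, q2, -, q3⟩ := h.pj' p
  rw [e] at p3
  rw [← e, inv_smul_smul] at q3
  have := (p3.unique (hl.ft p)).1
  have := (q3.unique (hl.ft q)).1
  omega

namespace Cone

variable (C : T.Cone e l ψ)
include C

theorem psi_one : ψ 1 = 0 := by
  have := C.mul 1 1
  rw [mul_one] at this
  omega

theorem psi_inv (g : H) : ψ g⁻¹ = -ψ g := by
  have := C.mul g g⁻¹
  rw [mul_inv_cancel, C.psi_one] at this
  omega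

theorem psi_zpow (k : ℤ) : ψ (e ^ k) = k := by
  induction k using Int.induction_on with
  | zero => simpa using C.psi_one
  | succ k ih => rw [zpow_add_one, C.mul, ih, C.one]
  | pred k ih => rw [zpow_sub_one, C.mul, ih, C.psi_inv, C.one]; ring

theorem ez (k i : ℤ) : e ^ k • l i = l (i + 2 * k) := by
  rw [(C.ax.zpow k).2]; congr 1; ring

theorem level {i j : ℤ} (hi : ¬ T.ap (l i)) (h : g • l i = l j) : 2 * ψ g = j - i := by
  have h1 := C.ax.1.even h
  have := C.fix (e ^ ((i - j) / 2) * g) i hi (by rw [mul_smul, h, C.ez]; congr 1; omega)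
  rw [C.mul, C.psi_zpow] at this
  omega

theorem of_ax {u : ℤ} (h : T.Ax g l u) : ∃ k : ℤ, g = e ^ k := by
  have := h.even
  exact ⟨u / 2, C.ac.ax_eq h ⟨h.1, fun j => by rw [C.ez]; congr 1; omega⟩⟩

theorem of_comm {k : ℤ} (hk : k ≠ 0) (h : g * e ^ k = e ^ k * g) : ∃ k : ℤ, g = e ^ k := by
  obtain ⟨u, hu⟩ := C.ac.ax_of_comm (C.ax.zpow k) (by omega) h
  exact C.of_ax hu

theorem of_conj {k j : ℤ} (hk : k ≠ 0) (h : g * e ^ k * g⁻¹ = e ^ j) : ∃ k : ℤ, g = e ^ k := by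
  obtain ⟨u, hu⟩ := C.ac.ax_of_conj (C.ax.zpow k) (by omega) (h ▸ C.ax.zpow j)
  exact C.of_ax hu

theorem of_sq (h : ∃ k : ℤ, g * g = e ^ k) : ∃ k : ℤ, g = e ^ k := by
  obtain ⟨k, h⟩ := h
  by_cases hk : k = 0
  · exact ⟨0, by rw [zpow_zero, C.ac.sq (g := g) (by rw [h, hk, zpow_zero])]⟩
  · exact C.of_comm hk (by rw [← h, mul_assoc])

theorem of_par {i j n : ℤ} (h : ∀ k, 0 ≤ k → k ≤ n → g • l (i + k) = l (j + k))
    (hn : 3 ≤ n ∨ (2 ≤ n ∧ T.ap (l i))) : ∃ k : ℤ, g = e ^ k := by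
  have hl := C.ax.1
  have h0 := h 0 le_rfl (by omega)
  have := hl.even h0
  have h1 : ∀ k, 0 ≤ k → k ≤ n → g • l (i + k) = e ^ ((j - i) / 2) • l (i + k) := fun k k1 k2 => by
    rw [h k k1 k2, C.ez]; congr 1; omega
  refine ⟨(j - i) / 2, ?_⟩
  rcases hn with hn | ⟨hn, ha⟩
  · exact C.ac.eq3 (h1 0 le_rfl (by omega)) (h1 3 (by omega) hn) (by rw [hl]; omega)
  · exact C.ac.eq2 (h1 0 le_rfl (by omega)) (h1 2 (by omega) hn) (by rwa [add_zero])
      (by rw [hl]; omega)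

theorem rev_le {i j c : ℤ} (h : ∀ k, i ≤ k → k ≤ j → g • l k = l (c - k)) : j ≤ i + 1 := by
  by_contra hc
  obtain ⟨-, -, h1, -⟩ := C.ac.crit C.ax (by omega) h (by omega)
  have h2 := C.level h1 (h i le_rfl (by omega))
  have h3 := C.level (fun ha => h1 (((C.ax.1.par (i + 2) i).2 (by omega)).1 ha))
    (h (i + 2) (by omega) (by omega))
  omega

theorem exists_cf (hg : ¬ ∃ k : ℤ, g = e ^ k) : ∃ a b δ D, T.Cf l g a b δ D := by
  obtain ⟨u, u', δ, D, h | h⟩ := C.ac.exists_ov C.ax (by omega) (g := g) fun h =>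
    hg (C.of_comm (k := 1) (by omega) (by rwa [zpow_one]))
  · have h0 := h.nonneg
    have key : D = 0 → ∀ k, 0 ≤ k → k ≤ δ → g • l (u' + k) = l (u + k) := by
      rintro rfl k k1 k2
      exact (h.eq k1 k2).symm
    have := h.zero
    refine ⟨u, u', δ, D, h0, by_contra fun hc => hg (C.of_par (key (by omega)) (by omega)), h.zero,
      fun q => ?_, fun q => ?_, ⟨u + 0, u' + 0, ?_⟩, fun e => ⟨fun ha =>
        hg (C.of_par (key (by omega)) (Or.inr ⟨by omega, ha⟩)), e ▸ key (by omega)⟩⟩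
    · have := (h.symm.ft (q - u')).add
      simp only [add_sub_cancel] at this
      exact ⟨_, _, by unfold cl; omega, by unfold cl; omega, by omega, this⟩
    · have := (h.ft (q - u)).smul g⁻¹
      simp only [add_sub_cancel, inv_smul_smul] at this
      exact ⟨_, _, by unfold cl; omega, by unfold cl; omega, by omega, this.add⟩
    · rw [h.ft]; unfold cl; omega
  · have h0 := h.nonneg
    have := h.zero
    have h1 : δ ≤ 1 := by
      by_contra hc
      obtain rfl : D = 0 := by omega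
      have := C.rev_le (g := g) (i := u' - δ) (j := u') (c := u + u') fun k k1 k2 => by
        have := h.eq (i := u' - k) (by omega) (by omega)
        simp only [sub_sub_cancel] at this
        rw [← this]; congr 1; ring
      omega
    refine ⟨u, u' - δ, δ, D, h0, by omega, h.zero, fun q => ?_, fun q => ?_, ⟨u + 0, u' - 0, ?_⟩,
      fun e => by omega⟩
    · have := (h.symm.ft (u' - q)).add
      simp only [sub_sub_cancel] at this
      exact ⟨_, _, by unfold cl; omega, by unfold cl; omega, by omega, this⟩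
    · have := (h.ft (q - u)).smul g⁻¹
      simp only [add_sub_cancel, inv_smul_smul] at this
      exact ⟨_, _, by unfold cl; omega, by unfold cl; omega, by omega, this.sub⟩
    · rw [h.ft]; unfold cl; omega

theorem psi_two (h : T.Cf l g a b δ D) (e2 : δ = 2) : 2 * ψ g = a - b := by
  obtain ⟨h1, h2⟩ := h.two e2
  have := h2 0 le_rfl (by omega)
  rw [add_zero, add_zero] at this
  exact C.level h1 this

/-- Either the projections meet or the lines are far from each other. -/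
theorem meet (h : T.Cf l g a b δ D) (h' : T.Cf l g' a' b' δ' D') (k : ℤ) {x : H} {a₁ b₁ δ₁ : ℤ}
    {D₁ : ℕ} (h₁ : T.Cf l x a₁ b₁ δ₁ D₁) {i j : ℤ} (hx : g * e ^ i * x = e ^ k * g' * e ^ j) :
    (a' + 2 * k ≤ a + δ ∧ a ≤ a' + 2 * k + δ') ∨ D + D' < D₁ := by
  obtain ⟨p, q, h1⟩ := h₁.att
  rw [← T.inv (g * e ^ i), ← mul_smul _ x, hx, mul_smul, mul_smul, mul_smul, C.ez, C.ez] at h1
  obtain ⟨r, E, r1, r2, r3, r4⟩ := h.pj (p + 2 * i)
  obtain ⟨r', E', s1, s2, s3, s4⟩ := h'.pj (q + 2 * j)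
  have s5 : T.Ft l (e ^ k • g' • l (q + 2 * j)) (r' + 2 * k) E' := fun m => by
    rw [show l m = e ^ k • l (m - 2 * k) by rw [C.ez, sub_add_cancel], T.inv, s4]
    omega
  by_cases hr : r = r' + 2 * k
  · exact Or.inl (by omega)
  · rw [r4.via C.ax.1 s5 hr] at h1
    omega

theorem x3 {f : H} {o i : ℤ} (hi : i ≠ 0)
    (h : e ^ o * f = f * e ^ i * f⁻¹ * e ^ i * (f * e ^ i * f⁻¹)⁻¹) : ∃ k : ℤ, f = e ^ k := by
  by_contra hf
  obtain ⟨a, b, δ, D, h1⟩ := C.exists_cf hf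
  obtain ⟨a', b', δ', D', h2⟩ := C.exists_cf (g := f * e ^ i * f⁻¹)
    fun ⟨_, hk⟩ => hf (C.of_conj hi hk)
  have m1 := C.meet h1.symm h1.symm i h2 (i := 0) (j := 0) (by group)
  have m2 := C.meet h2.symm h2.symm i h1 (i := o) (j := 0)
    (by rw [mul_assoc _ (e ^ o), h]; group)
  have := h1.zero
  have := h1.le
  have := h2.le
  have e2 : δ' = 2 := by omega
  have p := C.psi_two h2 e2
  rw [C.mul, C.mul, C.psi_inv, C.psi_zpow] at p
  have key : ∀ k, 0 ≤ k → k ≤ 2 → a ≤ b' + k ∧ a' + k ≤ a + δ ∧ b' + k ≤ a + δ ∧ a ≤ a' + k := by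
    intro k k1 k2
    have e1 := (h2.two e2).2 k k1 k2
    rw [mul_smul, mul_smul] at e1
    obtain ⟨r, hr⟩ := (C.ax.zpow i).mem (by omega) (x := f⁻¹ • l (b' + k)) (by
      rw [← T.inv f, e1, smul_inv_smul, C.ax.1]; omega)
    rw [hr, C.ez] at e1
    have := h1.mem C.ax.1 e1
    have := h1.mem C.ax.1 (inv_smul_eq_iff.1 hr).symm
    omega
  have := key 0 (by omega) (by omega)
  have := key 2 (by omega) (by omega)
  omega

theorem x2 (hc : CSA H) {s : H} {i j : ℤ} (h : s * s * e ^ i * s * s = e ^ j * s * (e ^ j)⁻¹) :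
    ∃ k : ℤ, s = e ^ k := by
  by_contra hs
  have hs1 : s ≠ 1 := fun e => hs ⟨0, by rw [e, zpow_zero]⟩
  have hj : j ≠ 0 := by
    rintro rfl
    have e1 : e ^ i = (s ^ 3)⁻¹ := by
      calc _ = s⁻¹ * s⁻¹ * (s * s * e ^ i * s * s) * s⁻¹ * s⁻¹ := by group
        _ = _ := by rw [h]; group
    by_cases hi : i = 0
    · rw [hi, zpow_zero, eq_comm, inv_eq_one] at e1
      exact hs1 (C.ac.tf (by omega) e1)
    · exact hs (C.of_comm hi (by rw [e1]; group))
  have hi : i ≠ 0 := by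
    rintro rfl
    exact hs (C.of_comm hj (hc s (e ^ j) hs1 (by rw [← h]; unfold Commute SemiconjBy; group)).symm)
  have p := congrArg ψ h
  simp only [C.mul, C.psi_inv, C.psi_zpow] at p
  obtain ⟨a, b, δ, D, h1⟩ := C.exists_cf hs
  obtain ⟨a', b', δ', D', h2⟩ := C.exists_cf (g := s * s) fun hk => hs (C.of_sq hk)
  have t1 := C.meet h1 h2 0 h1 (i := 0) (j := 0) (by group)
  have t2 := C.meet h1.symm h2.symm 0 h1.symm (i := 0) (j := 0) (by group)
  have t3 := C.meet h1.symm h1 0 h2 (i := 0) (j := 0) (by group)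
  have t4 := C.meet h2 h1 j h2 (i := i) (j := -j) (by rw [zpow_neg, ← h]; group)
  have t5 := C.meet h2.symm h1.symm j h2.symm (i := -i) (j := -j) (by
    rw [zpow_neg, zpow_neg, show e ^ j * s⁻¹ * (e ^ j)⁻¹ = (e ^ j * s * (e ^ j)⁻¹)⁻¹ by group, ← h]
    group)
  have t6 := C.meet h2.symm h2 i h1 (i := j) (j := j) (by
    rw [mul_assoc, ← inv_mul_cancel_right (e ^ j * s) (e ^ j), ← h]; group)
  have p1 := C.psi_two h1
  have p2 := C.psi_two h2
  rw [C.mul] at p2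
  have := h1.zero
  have := h1.le
  have := h1.nonneg
  have := h2.zero
  have := h2.le
  have := h2.nonneg
  have e1 : δ = 2 ∧ δ' = 2 := by omega
  obtain ⟨-, k1⟩ := h1.two e1.1
  obtain ⟨-, k2⟩ := h2.two e1.2
  have n1 : ¬ (b' = b ∧ (a - b).natAbs = 2) := by
    rintro ⟨rfl, hab⟩
    have q : ∀ k, 0 ≤ k → k ≤ 2 → a + k ≤ b' + δ ∧ b' ≤ a + k := fun k k3 k4 => by
      have := k2 k k3 k4
      rw [mul_smul, k1 k k3 k4] at this
      have := h1.mem C.ax.1 this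
      omega
    have := q 0 (by omega) (by omega)
    have := q 2 (by omega) (by omega)
    omega
  have n2 : ¬ (a' = a ∧ (a - b).natAbs = 2) := by
    rintro ⟨rfl, hab⟩
    have q : ∀ k, 0 ≤ k → k ≤ 2 → b + k ≤ a' + δ ∧ a' ≤ b + k := fun k k3 k4 => by
      have := k2 k k3 k4
      rw [mul_smul, ← k1 k k3 k4] at this
      have := h1.mem C.ax.1 (smul_left_cancel _ this)
      omega
    have := q 0 (by omega) (by omega)
    have := q 2 (by omega) (by omega)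
    omega
  omega

theorem cube {f : H} {p q : ℤ} (h : f * f * f * e ^ p = e ^ q) : ∃ k : ℤ, f = e ^ k := by
  have e1 : e ^ (q - p) = f ^ 3 := by rw [zpow_sub, ← h, mul_inv_cancel_right, pow_three']
  by_cases hi : q - p = 0
  · rw [hi, zpow_zero] at e1
    exact ⟨0, by rw [zpow_zero, C.ac.tf (by omega) e1.symm]⟩
  · exact C.of_comm hi (by rw [e1]; group)

theorem cyc {f : H} {p q r : ℤ} (h : f * e ^ p * (f * e ^ q) * (f * e ^ r) = 1) :
    ∃ k : ℤ, f = e ^ k := by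
  have two : ∀ {p r : ℤ}, f * e ^ p * (f * e ^ p) * (f * e ^ r) = 1 → ∃ k : ℤ, f = e ^ k := by
    intro p r h
    obtain ⟨k, hk⟩ := C.cube (f := f * e ^ p) (p := r - p) (q := 0) (by rw [zpow_zero, ← h]; group)
    exact ⟨k - p, by rw [zpow_sub, ← hk]; group⟩
  have rot : ∀ {p q r : ℤ}, f * e ^ p * (f * e ^ q) * (f * e ^ r) = 1 →
      f * e ^ q * (f * e ^ r) * (f * e ^ p) = 1 := fun h => by
    rw [mul_assoc, mul_eq_one_comm] at h
    exact h
  by_contra hf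
  have n1 : p ≠ q := fun e => hf (two (e ▸ h))
  have n2 : q ≠ r := fun e => hf (two (e ▸ rot h))
  have n3 : r ≠ p := fun e => hf (two (e ▸ rot (rot h)))
  obtain ⟨a, b, δ, D, h1⟩ := C.exists_cf hf
  have m : ∀ {p q r : ℤ}, f * e ^ p * (f * e ^ q) * (f * e ^ r) = 1 →
      b + 2 * -r ≤ a + δ ∧ a ≤ b + 2 * -r + δ := fun {p q r} h => by
    have := C.meet h1 h1.symm (-r) h1 (i := p) (j := -q) (by
      rw [← one_mul (e ^ (-r) * f⁻¹ * e ^ (-q)), ← h]; group)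
    omega
  have z : ∀ {p q r : ℤ}, f * e ^ p * (f * e ^ q) * (f * e ^ r) = 1 → δ = 2 → b + 2 * -r = a →
      p = r := fun {p q r} h e2 hr => by
    have k1 := (h1.two e2).2
    have e1 : f⁻¹ = e ^ p * f * e ^ q * f * e ^ r := by
      rw [← mul_one f⁻¹, ← h]; group
    have key : ∀ k, 0 ≤ k → k ≤ 2 → a + 2 * p ≤ b + k ∧ b + k ≤ a + 2 * p + δ := fun k k2 k3 => by
      have e3 := k1 k k2 k3
      have e4 := inv_smul_eq_iff.2 e3.symm
      rw [e1] at e4
      simp only [mul_smul] at e4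
      rw [C.ez, show a + k + 2 * r = b + k by omega, e3, C.ez, ← eq_inv_smul_iff, ← zpow_neg,
        C.ez] at e4
      have := h1.mem C.ax.1 e4
      omega
    have := key 0 (by omega) (by omega)
    have := key 2 (by omega) (by omega)
    omega
  have m1 := m h
  have m2 := m (rot h)
  have m3 := m (rot (rot h))
  have z1 := z h
  have z2 := z (rot h)
  have z3 := z (rot (rot h))
  have := h1.le
  omega

theorem p1 (hP : P1 H) {f : H} {p q : ℤ} (h : f * e ^ p * f⁻¹ = e ^ q * f) : ∃ k : ℤ, f = e ^ k := by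
  by_cases hp : p = 0
  · refine ⟨-q, ?_⟩
    rw [hp, zpow_zero, mul_one, mul_inv_cancel] at h
    rw [zpow_neg, eq_inv_iff_mul_eq_one, mul_eq_one_comm, ← h]
  · exact C.of_comm hp (hP (e ^ p) (e ^ (-q)) f
      (fun e => (C.ax.zpow p).not_fix (by omega) (l 0) (by rw [e, one_smul]))
      (Commute.zpow_zpow_self _ _ _) (by rw [h]; group)).eq

/-- The properties of the new cone point. -/
theorem top (hc : CSA H) (hP : P1 H) {Z : Type} [MulAction H Z] {w : Z}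
    (hw : ∀ g : H, g • w = w ↔ ∃ k : ℤ, g = e ^ k) : TopK (⊤ : Subgroup H) w := by
  have hw' : ∀ g g' : H, g • w = g' • w → ∃ k : ℤ, g = g' * e ^ k := fun g g' h => by
    obtain ⟨k, hk⟩ := (hw (g'⁻¹ * g)).1 (by rw [mul_smul, h, inv_smul_smul])
    exact ⟨k, by rw [← hk]; group⟩
  refine ⟨?_, ?_, ?_, ?_⟩
  · rintro f - f' - h1 - h3 ⟨g, -, ⟨a1, a2⟩ | ⟨a1, a2⟩⟩ ⟨g', -, ⟨b1, b2⟩ | ⟨b1, b2⟩⟩ <;>
      rw [← mul_smul] at a2 b2
    · obtain ⟨k, rfl⟩ := (hw g).1 a1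
      obtain ⟨m, rfl⟩ := hw' _ _ b1
      obtain ⟨n, hn⟩ := hw' _ _ (b2.trans a2.symm)
      obtain ⟨j, hj⟩ := C.p1 hP (f := f * e ^ m) (p := n) (q := -k) (by
        calc _ = e ^ (-k) * (e ^ k * f * e ^ n) * f⁻¹ := by group
          _ = _ := by rw [← hn]; group)
      exact h1 ((hw f).2 ⟨j - m, by rw [zpow_sub, ← hj]; group⟩)
    · obtain ⟨k, rfl⟩ := (hw g).1 a1
      obtain ⟨m, rfl⟩ := hw' _ _ (b1.trans a2.symm)
      obtain ⟨n, hn⟩ := hw' _ _ b2
      obtain ⟨j, hj⟩ := C.p1 hP (f := f * e ^ m) (p := n) (q := k) (by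
        calc _ = f * e ^ n * f⁻¹ := by group
          _ = _ := by rw [← hn]; group)
      exact h1 ((hw f).2 ⟨j - m, by rw [zpow_sub, ← hj]; group⟩)
    · obtain ⟨k, hk⟩ := (hw _).1 a2
      obtain ⟨m, rfl⟩ := hw' _ _ b1
      obtain ⟨n, hn⟩ := hw' _ _ (b2.trans a1.symm)
      refine h1 ((hw f).2 (C.cyc (p := m) (q := -n) (r := -k) ?_))
      calc _ = f * e ^ m * f * e ^ (-n) * f * e ^ (-k) := by group
        _ = g * f * e ^ (-k) := by rw [hn]; group
        _ = 1 := by rw [hk]; group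
    · obtain ⟨k, hk⟩ := (hw _).1 a2
      obtain ⟨m, rfl⟩ := hw' _ _ (b1.trans a1.symm)
      obtain ⟨n, hn⟩ := hw' _ _ b2
      obtain ⟨j, hj⟩ := C.p1 hP (f := f⁻¹ * e ^ k) (p := -m) (q := -n) (by
        calc _ = (g * e ^ m * f)⁻¹ * (g * f) := by group
          _ = _ := by rw [hn, hk]; group)
      exact h1 ((hw f).2 ⟨k - j, by rw [zpow_sub, ← hj]; group⟩)
  · intro x _ y _ g _ hx hy h
    obtain ⟨i, rfl⟩ := (hw x).1 hx
    have p := congrArg ψ h
    simp only [C.mul, C.psi_inv, C.psi_zpow] at p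
    exact ⟨e ^ (-ψ g), trivial, (hw _).2 ⟨_, rfl⟩, by rw [← zpow_add]; congr 1; omega⟩
  · intro x _ y _ s _ hx hy h
    obtain ⟨i, rfl⟩ := (hw x).1 hx
    obtain ⟨j, rfl⟩ := (hw y).1 hy
    exact (hw s).2 (C.x2 hc h)
  · intro x _ y _ f _ hx hy h1 h
    obtain ⟨o, rfl⟩ := (hw x).1 hx
    obtain ⟨i, rfl⟩ := (hw y).1 hy
    exact (hw f).2 (C.x3 (fun e => h1 (by rw [e, zpow_zero])) h)

end Cone

end BT

end Pool.Agent.Lib.MP_429c3d_al.Ng
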