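import Pool.Agent.Lib.MP_429c3d_al.NgT6
import Pool.Agent.Lib.MP_429c3d_al.NgT7

/-! Growth of pairs in the tree. -/

set_option autoImplicit false

namespace Pool.Agent.Lib.MP_429c3d_al.Ng

open Hyp

namespace BT

variable {H V : Type} [Group H] [MulAction H V] {T : BT H V} {l l' : ℤ → V} {e g c y : H}
  {p q u v x : V}

/-- The geodesic from `q` to `g q` passes through `p` and `g p`. -/
def Tn (T : BT H V) (g : H) (p q : V) : Prop := T.d q (g • q) = T.d p (g • p) + 2 * T.d p q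

theorem Tn.inv (h : T.Tn g p q) : T.Tn g⁻¹ p q := by
  unfold Tn at *
  rw [T.inv' g⁻¹, T.inv' g⁻¹, inv_inv, T.symm (g • q), T.symm (g • p), h]

theorem Tn.conj (h : T.Tn g p q) (a : H) : T.Tn (a * g * a⁻¹) (a • p) (a • q) := by
  unfold Tn at *
  simp only [mul_smul, inv_smul_smul, T.inv, h]

theorem Tn.left (h : T.Tn g p q) : T.d p (g • q) = T.d p (g • p) + T.d p q := by
  unfold Tn at h
  have := T.tri q p (g • q)
  have := T.tri p (g • p) (g • q)
  have := T.inv g p q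
  have := T.symm p q
  omega

theorem Tn.beyond (h : T.Tn g p q) (hu : u ≠ p) (h1 : T.d p u + T.d u q = T.d p q)
    (h2 : T.d p u + T.d u x = T.d p x) : T.Tn g p x := by
  unfold Tn at *
  have a1 := T.tri q u (g • q)
  have a2 := T.tri u (g • u) (g • q)
  have a3 := T.tri u p (g • u)
  have a4 := T.tri p (g • p) (g • u)
  have a5 := T.inv g u q
  have a6 := T.inv g p u
  have a7 := T.symm q u
  have a8 := T.symm p u
  have b1 := T.ext h2 hu (q := g • u) (by omega)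
  have a9 := T.tri x (g • p) (g • u)
  have a10 := T.tri x p (g • p)
  have b2 := T.ext (x := g • x) (p := g • p) (u := g • u) (q := x) (by simpa only [T.inv] using h2)
    (fun e => hu (smul_left_cancel _ e)) (by
      rw [T.symm _ x, T.symm (g • u), T.symm (g • p) x]; omega)
  rw [T.inv, T.symm _ x, T.symm _ x] at b2
  have := T.symm p x
  omega

/-- A bridge between the two minimal sets. -/
def Br (T : BT H V) (y c : H) (p q : V) : Prop := p ≠ q ∧ T.Tn y p q ∧ T.Tn c q p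

theorem Br.btw (h : T.Br y c p q) :
    T.d p (c • p) = T.d q (c • q) + 2 * T.d p q ∧ T.d p q + T.d q (c • p) = T.d p (c • p) := by
  have h1 := h.2.2.left
  have h2 : _ = _ := h.2.2
  have := T.symm p q
  omega

theorem Br.succ (h : T.Br y c p q) : T.Br y (c * y * c⁻¹) p (c • p) := by
  have h1 := h.btw
  have h2 := T.pos h.1
  refine ⟨T.ne_of (by omega), h.2.1.beyond h.1.symm (by rw [T.self, add_zero]) h1.2, ?_⟩
  have := (h.2.1.beyond h.1.symm (by rw [T.self, add_zero])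
    (Br.btw (c := c⁻¹) ⟨h.1, h.2.1, h.2.2.inv⟩).2).conj c
  rwa [smul_inv_smul] at this

theorem Br.between (h : T.Br y c p q) {a : V} (ha : T.d p a + T.d a q = T.d p q) (v : V) :
    T.d v a + T.d a (y • v) = T.d v (y • v) ∨ T.d v a + T.d a (c • v) = T.d v (c • v) := by
  obtain ⟨m, m1, m2, m3⟩ := T.median p q v
  have key : ∀ {g : H} {p q : V}, T.Tn g p q → T.d p a + T.d a q = T.d p q →
      T.d p m + T.d m q = T.d p q → T.d p m + T.d m v = T.d p v → m ≠ p → T.d p a ≤ T.d p m →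
      T.d v a + T.d a (g • v) = T.d v (g • v) := by
    intro g p q h ha m1 m2 hm hle
    have h1 := h.beyond hm m1 m2
    have h2 := h1.left
    have h3 : _ = _ := h1
    have h4 := T.hyp a m p q
    have := T.tri v a (g • v)
    have := T.tri v m a
    have := T.tri a p (g • v)
    have := T.symm a p
    have := T.symm m p
    have := T.symm m v
    have := T.symm m a
    omega
  have := T.symm p q
  have := T.symm p a
  have := T.symm a q
  have := T.symm p m
  have := T.symm m q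
  by_cases hm : m ≠ p ∧ T.d p a ≤ T.d p m
  · exact Or.inl (key h.2.1 ha m1 m2 hm.1 hm.2)
  · have := T.pos h.1
    have : m = p → T.d p m = 0 := fun e => by rw [e, T.self]
    refine Or.inr (key h.2.2 (by omega) (by omega) m3 (T.ne_of ?_) ?_) <;>
      by_cases hp : m = p <;> simp only [hp, ne_eq, not_true, not_false_iff, true_and, not_le,
        forall_const] at * <;> omega

/-- Two points on a common translate of `l`. -/
def Ln (H : Type) [Group H] [MulAction H V] (l : ℤ → V) (a b : V) : Prop :=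
  ∃ (γ : H) (i j : ℤ), a = γ • l i ∧ b = γ • l j

theorem Ln.symm {a b : V} (h : Ln H l a b) : Ln H l b a := by
  obtain ⟨γ, i, j, h1, h2⟩ := h
  exact ⟨γ, j, i, h2, h1⟩

theorem Ln.of_smul {a b : V} (h : Ln H l (g • a) (g • b)) : Ln H l a b := by
  obtain ⟨γ, i, j, h1, h2⟩ := h
  exact ⟨g⁻¹ * γ, i, j, by rw [mul_smul, ← h1, inv_smul_smul], by rw [mul_smul, ← h2, inv_smul_smul]⟩

theorem IsL.btw (h : T.IsL l) {i j : ℤ} (e : T.d (l i) x + T.d x (l j) = T.d (l i) (l j)) :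
    ∃ k, x = l k := by
  rcases le_total i j with h1 | h1
  · obtain ⟨k, -, -, hk⟩ := h.exists_of_between h1 e
    exact ⟨k, hk⟩
  · obtain ⟨k, -, -, hk⟩ := h.exists_of_between (x := x) h1
      (by rw [T.symm (l j) x, T.symm x (l i), T.symm (l j) (l i)]; omega)
    exact ⟨k, hk⟩

/-- At least `r` independent apices on a bridge. -/
def Gr (T : BT H V) (l : ℤ → V) (r : ℕ) (y c : H) : Prop :=
  ∃ (p q : V) (s : Finset V), T.Br y c p q ∧ r ≤ s.card ∧
    (∀ a ∈ s, T.ap a ∧ T.d p a + T.d a q = T.d p q) ∧ ∀ a ∈ s, ∀ b ∈ s, a ≠ b → ¬ Ln H l a b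

theorem Br.pos (h : T.Br y c p q) {a b : V} (ha : T.d p a + T.d a q = T.d p q)
    (hb : T.d p b + T.d b q = T.d p q) :
    T.d p a + T.d a (c • b) + T.d p b = T.d p (c • p) ∧ T.d p a + T.d a (c • p) = T.d p (c • p) ∧
      T.d p (c • b) + T.d (c • b) (c • p) = T.d p (c • p) := by
  have := h.btw
  have := T.tri p a (c • p)
  have := T.tri p a (c • b)
  have := T.tri p (c • b) (c • p)
  have := T.tri a (c • b) (c • p)
  have := T.tri a q (c • b)
  have := T.tri q (c • q) (c • b)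
  have := T.inv c q b
  have := T.inv c b p
  have := T.symm q b
  have := T.symm b p
  omega

theorem btw_d {a b : V} (ha : T.d p a + T.d a q = T.d p q) (hb : T.d p b + T.d b q = T.d p q)
    (h : T.d p a ≤ T.d p b) : T.d p a + T.d a b = T.d p b := by
  have := T.hyp a b p q
  have := T.tri p a b
  have := T.symm a p
  have := T.symm b p
  omega

theorem Gr.succ (hl : T.IsL l) {r : ℕ} (hr : 2 ≤ r) (h : T.Gr l r y c) :
    T.Gr l (r + 1) y (c * y * c⁻¹) := by
  classical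
  obtain ⟨p, q, s, h1, h2, h3, h4⟩ := h
  obtain ⟨a, ha, b, hb, hab⟩ : ∃ a ∈ s, ∃ b ∈ s, T.d p a < T.d p b := by
    obtain ⟨a, ha, b, hb, hab⟩ := Finset.one_lt_card.1 (show 1 < s.card by omega)
    have : T.d p a ≠ T.d p b := fun e => hab (T.uniq (h3 a ha).2 (h3 b hb).2 e)
    rcases lt_or_gt_of_ne this with e | e
    exacts [⟨a, ha, b, hb, e⟩, ⟨b, hb, a, ha, e⟩]
  have e1 := btw_d (h3 a ha).2 (h3 b hb).2 hab.le
  have key : ∀ x ∈ s, x ≠ c • a ∧ ¬ Ln H l x (c • a) := fun x hx => by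
    have e2 := (h1.pos (h3 x hx).2 (h3 a ha).2).1
    have e3 := (h1.pos (h3 x hx).2 (h3 b hb).2).1
    refine ⟨T.ne_of (by omega), ?_⟩
    rintro ⟨γ, i, j, f1, f2⟩
    obtain ⟨k, hk⟩ := (hl.smul γ).btw (i := i) (j := j) (x := c • b) (by
      rw [← f1, ← f2, T.inv, T.symm b a]; omega)
    exact h4 a ha b hb (fun e => by rw [e] at hab; omega) (Ln.of_smul ⟨γ, j, k, f2, hk⟩)
  refine ⟨p, c • p, insert (c • a) s, h1.succ, ?_, fun x hx => ?_, fun x hx z hz hne => ?_⟩
  · rw [Finset.card_insert_of_notMem fun h => (key _ h).1 rfl]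
    omega
  · rcases Finset.mem_insert.1 hx with rfl | hx
    · exact ⟨(T.ap_smul _ _).2 (h3 a ha).1, (h1.pos (h3 a ha).2 (h3 a ha).2).2.2⟩
    · exact ⟨(h3 x hx).1, (h1.pos (h3 x hx).2 (h3 a ha).2).2.1⟩
  · rcases Finset.mem_insert.1 hx with rfl | hx <;> rcases Finset.mem_insert.1 hz with rfl | hz
    · exact absurd rfl hne
    · exact fun h => (key z hz).2 h.symm
    · exact (key x hx).2
    · exact h4 x hx z hz hne

theorem Br.gr (A : T.AC) (he : T.Ax e l (2 * 1)) (h : T.Br y c p q) (h3 : 3 ≤ T.d p q) :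
    T.Gr l 2 y (c * y * c⁻¹) := by
  classical
  obtain ⟨a, ha, a1, a2⟩ : ∃ a, T.ap a ∧ T.d p a ≤ 1 ∧ T.d p a + T.d a q = T.d p q := by
    by_cases hp : T.ap p
    · exact ⟨p, hp, by rw [T.self]; omega, by rw [T.self, zero_add]⟩
    · obtain ⟨a, a1, a2⟩ := T.exists_pt p q (k := 1) (by omega)
      exact ⟨a, (T.bip a p (by rw [T.symm, a1])).2 hp, by omega, by omega⟩
  obtain ⟨b, b1, b2⟩ := T.exists_pt p q (k := T.d p a + 2) (by omega)
  have b3 : T.d p b + T.d b q = T.d p q := by omega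
  have e1 := btw_d a2 b3 (by omega)
  have e2 := h.pos a2 a2
  have e3 := (h.pos a2 b3).1
  have e4 := (h.pos b3 a2).1
  have e5 := (h.pos b3 b3).1
  have key : ¬ Ln H l a (c • a) := by
    rintro ⟨γ, i, j, f1, f2⟩
    have hL := he.conj γ
    obtain ⟨k, hk⟩ := hL.1.btw (i := i) (j := j) (x := c • b) (by
      rw [← f1, ← f2, T.inv, T.symm b a]; omega)
    obtain ⟨m, hm⟩ := hL.1.btw (i := i) (j := j) (x := b) (by rw [← f1, ← f2]; omega)
    have d1 := hL.1 i m
    have d2 := hL.1 m k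
    have d3 := hL.1 k j
    have d4 := hL.1 i j
    have d5 := hL.1 i k
    have d6 := hL.1 m j
    have d7 := T.par_smul c a
    simp only [← f1, ← f2, ← hk, ← hm, T.inv] at d1 d2 d3 d4 d5 d6
    rw [T.symm b a] at d3
    refine A.flip2 (g := (γ * e * γ⁻¹) ^ ((m - j) / 2) * c) (x := a) (y := b) ?_ ?_ ha
      (T.ne_of (by omega))
    · rw [mul_smul, f2, (hL.zpow _).2, hm]; congr 2; omega
    · rw [mul_smul, hk, (hL.zpow _).2, f1]; congr 2; omega
  have hne : a ≠ c • a := T.ne_of (by omega)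
  refine ⟨p, c • p, {a, c • a}, h.succ, by rw [Finset.card_pair hne], fun x hx => ?_,
    fun x hx z hz hne => ?_⟩
  · rcases Finset.mem_insert.1 hx with rfl | hx
    · exact ⟨ha, e2.2.1⟩
    · rw [Finset.mem_singleton.1 hx]
      exact ⟨(T.ap_smul _ _).2 ha, e2.2.2⟩
  · simp only [Finset.mem_insert, Finset.mem_singleton] at hx hz
    rcases hx with hx | hx <;> rcases hz with hz | hz <;> rw [hx, hz] at hne ⊢
    · exact absurd rfl hne
    · exact key
    · exact fun h => key h.symm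
    · exact absurd rfl hne

theorem Br.grow (A : T.AC) (he : T.Ax e l (2 * 1)) (h : T.Br y c p q) (r : ℕ) :
    T.Gr l (r + 2) y (cs y c (r + 3)) := by
  induction r with
  | zero =>
    have h1 := h.btw
    have h2 := h.succ.btw
    have h3 := T.pos h.1
    exact h.succ.succ.gr A he (by omega)
  | succ r ih => exact ih.succ he.1 (by omega)

theorem Gr.big {r : ℕ} (h : T.Gr l (2 * r) y c) (v : V) : ∃ s : Finset V, r ≤ s.card ∧
    (∀ a ∈ s, T.ap a) ∧ (∀ a ∈ s, ∀ b ∈ s, a ≠ b → ¬ Ln H l a b) ∧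
    ((∀ a ∈ s, T.d v a + T.d a (y • v) = T.d v (y • v)) ∨
      ∀ a ∈ s, T.d v a + T.d a (c • v) = T.d v (c • v)) := by
  classical
  obtain ⟨p, q, s, h1, h2, h3, h4⟩ := h
  have := Finset.card_filter_add_card_filter_not (s := s)
    fun a => T.d v a + T.d a (y • v) = T.d v (y • v)
  by_cases hc : r ≤ (s.filter fun a => T.d v a + T.d a (y • v) = T.d v (y • v)).card
  · exact ⟨_, hc, fun a ha => (h3 a (Finset.mem_filter.1 ha).1).1, fun a ha b hb =>
      h4 a (Finset.mem_filter.1 ha).1 b (Finset.mem_filter.1 hb).1,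
      Or.inl fun a ha => (Finset.mem_filter.1 ha).2⟩
  · exact ⟨s.filter fun a => ¬ T.d v a + T.d a (y • v) = T.d v (y • v), by omega,
      fun a ha => (h3 a (Finset.mem_filter.1 ha).1).1, fun a ha b hb =>
      h4 a (Finset.mem_filter.1 ha).1 b (Finset.mem_filter.1 hb).1, Or.inr fun a ha =>
      (h1.between (h3 a (Finset.mem_filter.1 ha).1).2 v).resolve_left (Finset.mem_filter.1 ha).2⟩

theorem br_ell {x x' : V} (hy : y • x = x) (hc : c • x' = x')
    (hn : ∀ v : V, y • v = v → c • v ≠ v) : ∃ p q, T.Br y c p q := by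
  have : Nonempty {w : V × V // y • w.1 = w.1 ∧ c • w.2 = w.2} := ⟨⟨(x, x'), hy, hc⟩⟩
  obtain ⟨⟨⟨p, q⟩, hp, hq⟩, hm⟩ :=
    exists_min fun w : {w : V × V // y • w.1 = w.1 ∧ c • w.2 = w.2} => T.d w.1.1 w.1.2
  simp only at hp hq hm
  refine ⟨p, q, fun e => hn p hp (e ▸ hq), ?_, ?_⟩
  · obtain ⟨m, m1, m2, -, m3⟩ := T.exists_mid hp q
    have := hm ⟨(m, q), m1, hq⟩
    have := T.symm m q
    have := T.symm p q
    unfold Tn
    simp only at *
    rw [hp, T.self]
    omega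
  · obtain ⟨m, m1, m2, -, m3⟩ := T.exists_mid hq p
    have := hm ⟨(p, m), hp, m1⟩
    have := T.symm p q
    unfold Tn
    simp only at *
    rw [hq, T.self]
    omega

theorem Ax.tn {s i : ℤ} {D : ℕ} (h : T.Ax y l s) (hs : s ≠ 0) (hq : T.Ft l q i D) :
    T.Tn y (l i) q := by
  unfold Tn
  rw [h.disp hs hq, h.d_eq, T.symm, hq]
  omega

/-- The overlap of `l` and `g l` has length at most `N`. -/
def OL (T : BT H V) (l : ℤ → V) (g : H) (N : ℤ) : Prop :=
  ∀ i i' j j', l i = g • l j → l i' = g • l j' → (T.d (l i) (l i') : ℤ) ≤ N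

theorem OL.of {N : ℤ} (h : T.OL l' g N) (hs : ∀ i, ∃ j, l i = l' j) : T.OL l g N := by
  intro i i' j j' e e'
  obtain ⟨a, ha⟩ := hs i
  obtain ⟨a', ha'⟩ := hs i'
  obtain ⟨b, hb⟩ := hs j
  obtain ⟨b', hb'⟩ := hs j'
  rw [ha, hb] at e
  rw [ha', hb'] at e'
  rw [ha, ha']
  exact h _ _ _ _ e e'

theorem ov_core (A : T.AC) (hT : T.TopH) {y₀ : H} {n s δ M : ℤ} {D : ℕ} (h : T.Ov l l' δ D)
    (hy : T.Ax y l s) (hs : s ≠ 0) (h0 : T.Ax y₀ l (2 * n)) (hn : 0 < n) (hc : T.Ax c l' M)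
    (hM : 2 * n ≤ M) (hg : ∀ j, ∃ i, g • l' j = l i) :
    (∃ p q, T.Br y (c * y * c⁻¹) p q) ∨ (M ≤ δ ∧ D = 0 ∧ T.OL l c (max (δ - M) (M - 1))) := by
  have hl := h.left
  have hl' := h.right
  have := h.nonneg
  have := h.zero
  by_cases hD : D = 0
  swap
  · obtain rfl : δ = 0 := by omega
    have f1 := h.ft 0
    have f2 := h.symm.ft 0
    rw [show cl 0 0 = 0 from rfl] at f1 f2
    exact Or.inl ⟨_, _, Br.succ (q := l' 0) ⟨T.ne_of (by rw [f1]; omega), hy.tn hs f2,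
      hc.tn (by omega) f1⟩⟩
  subst hD
  by_cases hδ : δ < M
  · have f1 := h.symm.ft M
    have f2 := h.symm.ft (δ - M)
    rw [show cl δ M = δ by unfold cl; omega] at f1
    rw [show cl δ (δ - M) = 0 by unfold cl; omega] at f2
    have e1 : c • l 0 = l' M := by rw [h.eq le_rfl h.nonneg, hc.2, zero_add]
    have e2 : c • l' (δ - M) = l δ := by rw [hc.2, sub_add_cancel, h.eq h.nonneg le_rfl]
    have := (hy.tn hs f2).conj c
    rw [e1, e2] at this
    exact Or.inl ⟨l δ, l' M, T.ne_of (by rw [T.symm, f1]; omega), hy.tn hs f1, this⟩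
  refine Or.inr ⟨by omega, rfl, fun i i' j j' e e' => ?_⟩
  have b1 := (h.common hc (by omega) e).2
  have b2 := (h.common hc (by omega) e').2
  rw [hl]
  by_contra hc'
  obtain ⟨rfl, m, m1, m2⟩ : δ = M ∧ ∃ m, δ + δ ≤ m ∧ l m = c • l (δ - m) := by
    refine ⟨by omega, ?_⟩
    rcases le_total i i' with b4 | b4
    · exact ⟨i', by omega, by rw [e']; congr 2; omega⟩
    · exact ⟨i, by omega, by rw [e]; congr 2; omega⟩
  have b4 : c • l 0 = l δ := by rw [h.eq le_rfl h.nonneg, hc.2, zero_add, h.eq h.nonneg le_rfl]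
  have rv : ∀ j, δ ≤ j → j ≤ m → c⁻¹ • l j = l (δ - j) := fun j j1 j2 => by
    have := hl.conv' (hl.smul c) (i := δ) (i' := 0) (n := m - δ) (k := j - δ) b4.symm
      (by rw [show δ + (m - δ) = m by ring, m2]; congr 2; ring) (by omega) (by omega)
    rw [show δ + (j - δ) = j by ring, show 0 - (j - δ) = δ - j by ring] at this
    rw [← this, inv_smul_smul]
  obtain ⟨-, -, c1, c2⟩ := A.crit h0 hn rv (by omega)
  have q1 := h.eq (i := δ - 1) (by omega) (by omega)
  have q2 := h.eq h.nonneg le_rfl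
  have a1 := hl.ap_pred c1
  refine c2.tripod hT (C := l δ) (α := l (δ - 1)) (β := l (δ + 1)) (γ := l' (δ + 1))
    (by rw [hl]; omega) (by rw [hl]; omega) (by rw [q2, hl']; omega) (hl.ne (by omega))
    (by rw [q1]; exact hl'.ne (by omega)) (fun e => by have := h.mem e; omega)
    (Tu.of a1 1 δ (one_smul _ _) (one_smul _ _)) ?_
    (Tu.of (hl.ap_succ c1) c 0 ?_ ?_)
  · rw [q1]
    exact Tu.of_sim hl hl' g hg (q1 ▸ a1)
  · rw [← smul_inv_smul c (l (δ + 1)), rv _ (by omega) (by omega)]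
    congr 2; ring
  · rw [zero_add, h.eq (i := 1) (by omega) (by omega), hc.2, add_comm]

theorem ov_step (A : T.AC) (hT : T.TopH) {y₀ : H} {n M N : ℤ} (hy : T.Ax y l M)
    (h0 : T.Ax y₀ l (2 * n)) (hn : 0 < n) (hM : 2 * n ≤ M) (h : T.OL l g N) :
    (∃ p q, T.Br y (cs y (g * y * g⁻¹) 1) p q) ∨
      (M ≤ N ∧ T.OL l (g * y * g⁻¹) (max (N - M) (M - 1))) := by
  have mono : ∀ {L : ℤ → V} {δ : ℤ}, δ ≤ N → (∀ i, ∃ j, l i = L j) →
      (M ≤ δ ∧ T.OL L (g * y * g⁻¹) (max (δ - M) (M - 1))) →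
      M ≤ N ∧ T.OL l (g * y * g⁻¹) (max (N - M) (M - 1)) := fun h1 h2 h3 =>
    ⟨h3.1.trans h1, fun i i' j j' e e' => by
      have := h3.2.of h2 i i' j j' e e'
      omega⟩
  have hc := hy.conj g
  obtain ⟨u, u', δ, D, o | o⟩ := exists_ov hy.1 (hy.1.smul g) (N := N) fun i i' j j' e e' => by
    have := h i i' j j' e e'
    rw [hy.1] at this
    omega
  · refine (ov_core A hT (g := g⁻¹) o (hy.add u) (by omega) (h0.add u) hn (hc.add u') hM fun j =>
      ⟨u' + j - u, by rw [inv_smul_smul]; congr 1; ring⟩).imp_right fun ⟨a1, a2, a3⟩ =>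
        mono ?_ (fun i => ⟨i - u, by congr 1; ring⟩) ⟨a1, a3⟩
    subst a2
    have := h _ _ _ _ (o.eq le_rfl o.nonneg) (o.eq o.nonneg le_rfl)
    rw [hy.1] at this
    omega
  · refine (ov_core A hT (g := g⁻¹) o.rev ((hy.add u).sub δ) (by omega) ((h0.add u).rev δ) hn
      (c := g * y * g⁻¹) (by simpa using (hc.sub u').sub δ) hM fun j =>
      ⟨δ + u - u' + δ - j, by rw [inv_smul_smul]; congr 1; ring⟩).imp_right fun ⟨a1, a2, a3⟩ =>
        mono ?_ (fun i => ⟨δ + u - i, by congr 1; ring⟩) ⟨a1, a3⟩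
    subst a2
    have := h _ _ _ _ (o.eq le_rfl o.nonneg) (o.eq o.nonneg le_rfl)
    rw [hy.1] at this
    omega

theorem Br.cs (h : T.Br y c p q) (k : ℕ) : ∃ q, T.Br y (cs y c k) p q := by
  induction k with
  | zero => exact ⟨q, h⟩
  | succ k ih => exact ih.elim fun _ h => ⟨_, h.succ⟩

theorem br_hyp (A : T.AC) (hT : T.TopH) {M : ℤ} (hy : T.Ax y l M) (hM : 0 < M)
    (hg : g * y ≠ y * g) : ∃ p q, T.Br y (cs y (g * y * g⁻¹) 3) p q := by
  obtain ⟨y₀, n, hp⟩ := A.exists_prim hy hM.ne'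
  have hn := hp.pos
  have hM' : 2 * n ≤ M := by
    obtain ⟨k, -, rfl⟩ := hp.gen y M hy
    have : 0 < k := by
      by_contra hk
      nlinarith
    nlinarith
  have h0 : T.OL l g (2 * n + 2) := fun i i' j j' e e' => by
    have hg' : g * y₀ ≠ y₀ * g := fun e => by
      obtain ⟨u, hu⟩ := A.ax_of_comm hp.ax (by omega) e
      exact hg (A.ax_comm hu hy)
    have := A.ov_le hp.ax hn hg' e e'
    have := A.ov_le hp.ax hn hg' e' e
    rw [hy.1]
    omega
  rcases ov_step A hT hy hp.ax hn hM' h0 with ⟨p, q, h⟩ | ⟨-, h1⟩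
  · exact ⟨p, h.cs 2⟩
  rcases ov_step A hT hy hp.ax hn hM' h1 with ⟨p, q, h⟩ | ⟨h2, h3⟩
  · exact ⟨p, h.cs 1⟩
  rcases ov_step A hT hy hp.ax hn hM' h3 with h | ⟨h4, -⟩
  · exact h
  · omega

/-- Conjugate elements without a common fixed point grow. -/
theorem AC.grow (A : T.AC) (hT : T.TopH) (he : T.Ax e l (2 * 1)) (hg : g * y ≠ y * g)
    (hn : ∀ v : V, y • v = v → (g * y * g⁻¹) • v ≠ v) (r : ℕ) :
    T.Gr l (r + 2) y (cs y (g * y * g⁻¹) (r + 6)) := by
  have := A.ne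
  obtain ⟨p, q, h⟩ : ∃ p q, T.Br y (cs y (g * y * g⁻¹) 3) p q := by
    rcases T.ell_or_ax y with ⟨x, hx⟩ | ⟨L, M, hM, hy⟩
    · obtain ⟨p, q, h⟩ := br_ell (T := T) (c := g * y * g⁻¹) (x' := g • x) hx
        (by simp [mul_smul, hx]) hn
      exact ⟨p, h.cs 3⟩
    · exact br_hyp A hT hy hM hg
  have := h.grow A he r
  rwa [cs_add, show 3 + (r + 3) = r + 6 by ring] at this

/-- An element that moves a copy across an apex fixed by `y`. -/
theorem AC.cross (A : T.AC) {C : V} (hC : ¬ T.ap C) (h1 : y • C = C)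
    (h2 : (c * y * c⁻¹) • C = C) (h3 : c • C ≠ C) (hn : c * y ≠ y * c) :
    ∃ L, T.Ax c L 2 ∧ L 2 = C ∧ y • L 1 = L 1 := by
  have hy : y ≠ 1 := fun e => hn (by rw [e, mul_one, one_mul])
  rw [mul_smul, mul_smul, ← eq_inv_smul_iff] at h2
  have h4 : T.d (c⁻¹ • C) C = 2 := by
    have a1 := T.par_smul c⁻¹ C
    have a2 := T.pos (x := c⁻¹ • C) (y := C) fun e => h3 (inv_smul_eq_iff.1 e).symm
    have a3 := mt (A.fix3 h2 h1) hy
    rw [T.symm] at a1
    omega
  obtain ⟨a, a1, a2⟩ := T.exists_pt (c⁻¹ • C) C (k := 1) (by omega)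
  have a3 := T.fix_of_between (u := a) h2 h1 (by omega)
  have a4 : T.ap a := (T.bip a C (by omega)).2 hC
  have a5 := T.nbr_far (x := c⁻¹ • C) (p := C) (u := a) (v := c • a) (by omega) (by omega)
    (by rw [T.inv', a1]) fun e => hn (A.ab _ _ a a4 e a3)
  obtain ⟨L, hL, L0, L1⟩ := ax_of (T := T) (g := c) a1 (by rw [smul_inv_smul]; omega)
    (by rw [smul_inv_smul]; omega)
  rw [smul_inv_smul, h4] at hL
  exact ⟨L, hL, by rw [← smul_inv_smul c C, ← L0, hL.2]; rfl, by rw [L1, a3]⟩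

end BT

end Pool.Agent.Lib.MP_429c3d_al.Ng
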