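import Pool.Agent.Lib.MP_429c3d_al.NgStp
import Pool.Agent.Lib.MP_429c3d_al.NgT8

set_option autoImplicit false

/-! The algebraic invariants pass to the next stage. -/

namespace Pool.Agent.Lib.MP_429c3d_al.Ng

open Hyp

/-- A point with trivial stabiliser of a torsion free group. -/
theorem top_of_free {G Z : Type} [Group G] [MulAction G Z] (tf : TF G) {h : Z}
    (hf : ∀ g : G, g • h = h → g = 1) : Top G h := by
  have hf' : ∀ g g' : G, g • h = g' • h → g = g' := fun g g' e =>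
    (inv_mul_eq_one.1 (hf (g'⁻¹ * g) (by rw [mul_smul, e, inv_smul_smul]))).symm
  refine ⟨?_, fun g x y hx _ _ => ⟨1, one_smul _ _, by rw [hf x hx, mul_one]⟩,
    fun s x y hx hy e => ?_, fun f x y _ hy h1 _ => absurd (hf y hy) h1⟩
  · rintro f f' h1 h2 h3 ⟨g, ⟨a1, a2⟩ | ⟨a1, a2⟩⟩ ⟨g', ⟨b1, b2⟩ | ⟨b1, b2⟩⟩
    · exact h3 (by rw [← a2, hf g a1, one_smul])
    · exact h3 (by rw [← a2, hf g a1, one_smul])
    · rw [← mul_smul] at a2 b2
      obtain rfl := hf' _ _ b1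
      have e1 := hf _ a2
      rw [hf' _ _ a1, ← hf' _ _ b2] at e1
      exact h1 (by rw [tf g' 3 (by omega) (by rw [pow_three', e1]), one_smul])
    · rw [← mul_smul] at b2
      exact h2 (by rw [← b1, mul_eq_right.1 (hf' _ _ b2), one_smul])
  · rw [hf x hx, hf y hy] at e
    rw [tf s 3 (by omega) (by
      calc s ^ 3 = s * s * 1 * s * s * s⁻¹ := by rw [pow_three']; group
        _ = 1 := by rw [e]; group), one_smul]

theorem top_iff {G Z : Type} [Group G] [MulAction G Z] {h : Z} :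
    Top G h ↔ TopK (⊤ : Subgroup G) h := by
  have pe : ∀ x y x' y' : Z, PE G x y x' y' ↔ PK (⊤ : Subgroup G) x y x' y' := fun _ _ _ _ =>
    ⟨fun ⟨g, e⟩ => ⟨g, trivial, e⟩, fun ⟨g, _, e⟩ => ⟨g, e⟩⟩
  refine ⟨fun H => ⟨fun f _ f' _ a b c d e => H.eq f f' a b c ((pe _ _ _ _).2 d) ((pe _ _ _ _).2 e),
    fun x _ y _ g _ a b c => ?_, fun x _ y _ s _ => H.x2 s x y, fun x _ y _ f _ => H.x3 f x y⟩,
    fun H => ⟨fun f f' a b c d e => H.eq f trivial f' trivial a b c ((pe _ _ _ _).1 d)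
      ((pe _ _ _ _).1 e), fun g x y a b c => ?_, fun s x y => H.x2 x trivial y trivial s trivial,
      fun f x y => H.x3 x trivial y trivial f trivial⟩⟩
  · obtain ⟨u, hu⟩ := H.x1 g x y a b c
    exact ⟨u, trivial, hu⟩
  · obtain ⟨u, -, hu⟩ := H.x1 x trivial y trivial g trivial a b c
    exact ⟨u, hu⟩

theorem Esc.conj {G Z : Type} [Group G] [MulAction G Z] {d : Z → Z → ℕ} (hd : Isom G d) {k n : ℕ}
    {y c : G} (g : G) (h : Esc d k n (g * y * g⁻¹) (g * c * g⁻¹)) : Esc d k n y c := by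
  obtain ⟨j, hj, h⟩ := h
  refine ⟨j, hj, fun x => ?_⟩
  have := h (g • x)
  rwa [← conj_cs, mul_smul, mul_smul, mul_smul, mul_smul, inv_smul_smul, hd, hd] at this

theorem Esc.pre {G Z : Type} [Group G] [MulAction G Z] {d : Z → Z → ℕ} {k n : ℕ} {y c : G}
    (h : Esc d k n y (c * y * c⁻¹)) : Esc d (k + 1) n y c := by
  obtain ⟨j, hj, h⟩ := h
  exact ⟨j + 1, by omega, by rwa [cs_succ']⟩

theorem Esc.le {G Z : Type} [Group G] [MulAction G Z] {d : Z → Z → ℕ} {k k' n : ℕ} {y c : G}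
    (h : Esc d k n y c) (hk : k ≤ k') : Esc d k' n y c := by
  obtain ⟨j, hj, h⟩ := h
  exact ⟨j, hj.trans hk, h⟩

variable {AA N K : Type} [CommGroup AA] {S T : St AA N K}

namespace Stp

variable (X : Stp S T)

theorem av_fix {g : T.G} {a : MulAction.orbit T.G (X.ι X.t)} :
    g • X.av a = X.av a ↔ g • (a : T.Z) = a :=
  ⟨fun h => congrArg Subtype.val (X.av_inj h), fun h => congrArg X.av (Subtype.ext h)⟩

theorem ap_av (hT : T.OK) (a : MulAction.orbit T.G (X.ι X.t)) : T.ap a := by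
  obtain ⟨_, γ, rfl⟩ := a
  exact hT.ap_smul γ _ ((X.ap_ι _).2 X.ap_t)

theorem copy {x : X.TV} (hx : ¬ X.bt.ap x) : ∃ γ : T.G, x = γ • X.C0 :=
  (X.tcover x).resolve_right hx

theorem fix_copy {g γ : T.G} (h : g • γ • X.C0 = γ • X.C0) : ∃ a, γ⁻¹ * g * γ⁻¹⁻¹ = X.φ a := by
  obtain ⟨a, ha⟩ := (X.stab_C0 (γ⁻¹ * g * γ⁻¹⁻¹)).1 (by simp [mul_smul, h])
  exact ⟨a, ha.symm⟩

theorem des : X.bt.Des S.G := by
  intro x hx
  obtain ⟨γ, rfl⟩ := X.copy hx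
  refine ⟨(MonoidHom.ofInjective X.φ_inj).symm.toMonoidHom.comp
    (((MulAut.conj γ⁻¹).toMonoidHom.comp (Subgroup.subtype _)).codRestrict X.φ.range
      fun g => ?_), ?_⟩
  · obtain ⟨a, ha⟩ := X.fix_copy g.2
    exact ⟨a, ha.symm⟩
  · intro a b h
    exact Subtype.ext ((MulAut.conj γ⁻¹).injective
      (congrArg Subtype.val ((MonoidHom.ofInjective X.φ_inj).symm.injective h)))

theorem ac (hT : T.OK) (hA : TF S.G) : X.bt.AC := by
  refine BT.ac_of X.des hA ⟨X.C0⟩ ?_ ?_ ?_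
  · rintro g _ _ ⟨a, rfl⟩ ⟨b, rfl⟩ h1 h2
    by_cases h : (a : T.Z) = b
    · exact Or.inl (congrArg X.av (Subtype.ext h))
    · exact Or.inr (hT.two g _ _ (X.av_fix.1 h1) (X.av_fix.1 h2) h)
  · rintro a b _ ⟨x, rfl⟩ h1 h2
    exact hT.comm (X.av_fix.1 h1) (X.av_fix.1 h2)
  · rintro g _ n ⟨x, rfl⟩ h1 hn e
    refine hT.lab_inj x g (X.ap_av hT x) (X.av_fix.1 h1) (X.tfA _ n hn ?_)
    rw [← zpow_natCast, ← hT.lab_zpow (X.ap_av hT x) (X.av_fix.1 h1), zpow_natCast, e,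
      hT.lab_one (X.ap_av hT x)]

theorem no_root (g : S.G) : ¬ X.bt.Root X.C0 (X.av ⟨_, X.ι_t_mem g⟩) := by
  rintro ⟨-, -, r, r1, r2, r3⟩
  have h1 : ((X.φ g)⁻¹ * r * X.φ g) • X.ι X.t = X.ι X.t := by
    have : r • X.ι (g • X.t) = X.ι (g • X.t) := X.av_fix.1 r1
    rw [mul_smul, mul_smul, ← X.ι_smul, this, X.ι_smul, inv_smul_smul]
  have h2 : (X.φ g)⁻¹ * r * X.φ g ∈ X.φ.range := by
    by_cases he : ∀ s : S.G, s • X.t ≠ X.h
    · exact X.estab he _ h1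
    · push Not at he
      obtain ⟨s, hs⟩ := he
      obtain ⟨a, j, -, e⟩ := X.wstab s hs _ h1
      rw [← mul_smul, X.stab_C0] at r3
      obtain ⟨b, hb⟩ := r3
      have p1 := congrArg (fun u => Multiplicative.toAdd (X.psi u)) e
      have p2 := congrArg (fun u => Multiplicative.toAdd (X.psi u)) hb
      simp [X.psi_φ, X.psi_e] at p1 p2
      obtain rfl : j = 0 := by omega
      exact ⟨a, by simpa using e.symm⟩
  refine r2 ((X.stab_C0 r).2 ?_)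
  rwa [Subgroup.mul_mem_cancel_right _ (MonoidHom.mem_range.2 ⟨g, rfl⟩),
    Subgroup.mul_mem_cancel_left _ (inv_mem (MonoidHom.mem_range.2 ⟨g, rfl⟩))] at h2

theorem topH (he : S.EH X.t X.h) : X.bt.TopH := by
  intro C α hr
  obtain ⟨γ, rfl⟩ := X.copy fun h => (X.bt.bip _ _ hr.1).1 h hr.2.1
  have h1 := hr.smul γ⁻¹
  rw [inv_smul_smul] at h1
  obtain ⟨g, e | e⟩ := (X.dT_C0 _).1 h1.1
  · exact absurd (e ▸ h1) (X.no_root g)
  by_cases hw : ∀ s : S.G, s • X.t ≠ X.h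
  swap
  · push Not at hw
    obtain ⟨s, hs⟩ := hw
    refine absurd ?_ (X.no_root (g * s))
    rwa [e, show (⟨_, X.ι_h_mem g⟩ : MulAction.orbit T.G (X.ι X.t)) = ⟨_, X.ι_t_mem (g * s)⟩ from
      Subtype.ext (by simp only [mul_smul, hs])] at h1
  classical
  obtain ⟨f, hf⟩ : ∃ f : S.Z → X.TV, ∀ a : S.G, f (a • X.h) =
      (γ * X.φ g) • X.av ⟨_, X.ι_h_mem a⟩ :=
    ⟨fun z => if h : X.ι z ∈ MulAction.orbit T.G (X.ι X.t) then (γ * X.φ g) • X.av ⟨_, h⟩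
      else X.C0, fun a => dif_pos (X.ι_h_mem a)⟩
  have key := (top_iff.1 (he hw).1).map ((MulAut.conj (γ * X.φ g)).toMonoidHom.comp X.φ)
    ((MulAut.conj _).injective.comp X.φ_inj) f (fun a _ b _ h => by
      rw [hf, hf] at h
      exact X.ι_inj (congrArg Subtype.val (X.av_inj (smul_left_cancel _ h))))
    (fun a _ b _ => by
      rw [← mul_smul, hf, hf]
      change _ = ((γ * X.φ g) * X.φ a * (γ * X.φ g)⁻¹) • _
      rw [mul_smul _ _⁻¹, inv_smul_smul, mul_smul _ (X.φ a)]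
      congr 1
      exact congrArg X.av (Subtype.ext (by simp only [mul_smul, X.ι_smul]; rfl)))
  have e1 : f X.h = α := by
    rw [← one_smul S.G X.h, hf, mul_smul, ← smul_inv_smul γ α, e]
    congr 1
    exact congrArg X.av (Subtype.ext (by simp only [one_smul, X.ι_smul]; rfl))
  have e2 : Subgroup.map ((MulAut.conj (γ * X.φ g)).toMonoidHom.comp X.φ) ⊤ =
      MulAction.stabilizer T.G (γ • X.C0) := by
    ext u
    constructor
    · rintro ⟨a, -, rfl⟩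
      change ((γ * X.φ g) * X.φ a * (γ * X.φ g)⁻¹) • _ = _
      rw [eq_comm, ← mul_smul, X.smul_C0_eq_iff]
      exact ⟨g * a * g⁻¹, by simp [mul_assoc]⟩
    · intro hu
      obtain ⟨a, ha⟩ := X.fix_copy hu
      refine ⟨g⁻¹ * a * g, trivial, ?_⟩
      change (γ * X.φ g) * X.φ (g⁻¹ * a * g) * (γ * X.φ g)⁻¹ = u
      simp [← ha, mul_assoc]
  rwa [e1, e2] at key

theorem ax_e : X.bt.Ax X.e X.l0 (2 * 1) := ⟨X.isL_l0, X.e_l0⟩

theorem cone' (hT : T.OK) (hA : TF S.G) :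
    X.bt.Cone X.e X.l0 fun g => Multiplicative.toAdd (X.psi g) := by
  refine ⟨X.ac hT hA, X.ax_e, fun a b => by simp, by simp [X.psi_e], fun g i hi h => ?_⟩
  obtain ⟨γ, hγ⟩ := X.copy hi
  rw [hγ] at h
  obtain ⟨a, ha⟩ := X.fix_copy h
  simpa [X.psi_φ] using congrArg (fun u => Multiplicative.toAdd (X.psi u)) ha

end Stp

/-- The algebraic invariants. -/
theorem Stp.alg_step (X : Stp S T) (hS : S.OK) (hT : T.OK) (hA : S.Alg)
    (hn : S.NP X.t X.h X.η) (he : S.EH X.t X.h) : T.Alg := by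
  have A := X.ac hT hA.tf
  have hQ := X.qp_step hS hT hA.qp hn
  have hP := A.p1 (X.topH he) X.des hA.p1
  refine ⟨A.tF, A.cSA X.des hA.csa, A.cT X.des hA.ct, hQ,
    A.qq (X.topH he) hP X.des hA.qq ?_, hP⟩
  rintro y s t z _ ⟨a, rfl⟩ hy hz h1 e
  have h2 : T.ApL y _ _ := ⟨a, X.ap_av hT a, rfl, X.av_fix.1 hy, rfl⟩
  exact hQ _ _ z _ _ _ (fun e => h1 (hT.lab_inj _ _ (X.ap_av hT a) (X.av_fix.1 hy) e))
    (hT.apL_conj s h2) (hT.apL_conj t h2) ⟨a, X.ap_av hT a, rfl, X.av_fix.1 hz, rfl⟩ e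

/-- The new cone point. -/
theorem Stp.top_step (X : Stp S T) (hS : S.OK) (hT : T.OK) (hA : S.Alg)
    (hn : S.NP X.t X.h X.η) (he : S.EH X.t X.h) : Top T.G X.w :=
  top_iff.2 ((X.cone' hT hA.tf).top (X.alg_step hS hT hA hn he).csa
    (X.alg_step hS hT hA hn he).p1 fun g => ⟨X.stab_w g, by rintro ⟨k, rfl⟩; exact X.zpow_w k⟩)

namespace Stp

variable (X : Stp S T)

theorem esc_φ {k n : ℕ} {y c : S.G} (h : Esc S.d k n y c) : Esc T.d k n (X.φ y) (X.φ c) := by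
  obtain ⟨j, hj, h⟩ := h
  refine ⟨j, hj, fun x => ?_⟩
  rw [← map_cs]
  exact (h (X.rt x)).imp (fun e => e.trans (X.rho_short (X.rho_rt x) _))
    fun e => e.trans (X.rho_short (X.rho_rt x) _)

theorem big_of_gr {n : ℕ} {y c : T.G} (h : X.bt.Gr X.l0 (2 * (n + 1)) y c) : Big T.d n y c := by
  classical
  intro x
  obtain ⟨v, hv⟩ := X.exists_at x
  obtain ⟨s, s1, s2, s3, s4⟩ := h.big v
  obtain ⟨s₀, -, rfl⟩ := Finset.subset_set_image_iff.1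
    (show (s : Set X.TV) ⊆ X.av '' Set.univ from fun a ha =>
      (s2 a ha).elim fun b hb => ⟨b, trivial, hb.symm⟩)
  have h1 := Finset.card_image_le (s := s₀) (f := X.av)
  have key : ∀ g : T.G, (∀ a ∈ s₀.image X.av, X.bt.d v a + X.bt.d a (g • v) = X.bt.d v (g • v)) →
      n ≤ T.d x (g • x) := fun g hg => by
    have := X.size hv (hv.smul g) s₀ (fun a ha b hb hab u h1 h2 =>
      s3 _ (Finset.mem_image_of_mem _ ha) _ (Finset.mem_image_of_mem _ hb)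
        (fun e => hab (X.av_inj e)) ((X.common_line_iff a b).1 ⟨u, h1, h2⟩))
      fun a ha => hg _ (Finset.mem_image_of_mem _ ha)
    omega
  exact s4.imp (key y) (key c)

theorem esc_tree (hT : T.OK) (hA : TF S.G) (he : S.EH X.t X.h) (n : ℕ) {y g : T.G}
    (hg : g * y ≠ y * g) (hn : ∀ v : X.TV, y • v = v → (g * y * g⁻¹) • v ≠ v) :
    Esc T.d (2 * n + 7) n y g :=
  Esc.pre ⟨2 * n + 6, le_rfl, X.big_of_gr ((X.ac hT hA).grow (X.topH he) X.ax_e hg hn (2 * n))⟩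

theorem apL_down (hS : S.OK) (hT : T.OK) {c : S.G} (hc : c ≠ 1) {κ : K} {η : AA}
    (h : T.ApL (X.φ c) κ η) : S.ApL c κ η := by
  obtain ⟨χ, L⟩ := X.lst hS hT
  rcases L.apL_cases h with h1 | ⟨γ, j, h1, -, -⟩
  · exact h1.down hc
  · have := L.psi_conj γ j
    rw [← h1, X.psi_φ] at this
    obtain rfl : j = 0 := by simpa using this.symm
    exact absurd (X.φ_inj (by simpa using h1)) hc

theorem preC_down (hS : S.OK) (hT : T.OK) {y c : S.G} (hy : y ≠ 1) (hc : c ≠ 1)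
    (h : T.PreC (X.φ y) (X.φ c)) : S.PreC y c := by
  have key : ∀ κ η, T.ApL (X.φ y) κ η → T.ApL (X.φ c) κ η → S.PreC y c := fun κ η h1 h2 =>
    Or.inr ⟨κ, η, X.apL_down hS hT hy h1, X.apL_down hS hT hc h2⟩
  rcases h with h | ⟨κ, η, h1, h2⟩
  swap
  · exact key κ η h1 h2
  obtain ⟨γ, hγ⟩ := isConj_iff.1 h
  by_cases h1 : γ • X.C0 = X.C0
  · obtain ⟨g, rfl⟩ := (X.stab_C0 γ).1 h1
    exact Or.inl (isConj_iff.2 ⟨g, X.φ_inj (by simpa using hγ)⟩)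
  have f0 : ∀ a : S.G, X.φ a • X.C0 = X.C0 := fun a => (X.stab_C0 _).2 ⟨a, rfl⟩
  obtain ⟨u, u1, u2⟩ := X.bt.exists_pt X.C0 (γ⁻¹ • X.C0) (k := 1)
    (X.bt.pos fun e => h1 (inv_smul_eq_iff.1 e.symm).symm)
  have u3 := X.bt.fix_of_between (u := u) (f0 y) (y := γ⁻¹ • X.C0) (by
    rw [eq_inv_smul_iff, ← mul_smul, ← mul_smul, hγ, f0]) (by omega)
  obtain ⟨a, rfl⟩ := (X.bt.bip u X.C0 (by rw [X.bt.symm, u1])).2
    (by rw [← one_smul T.G X.C0]; exact X.not_tap 1)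
  have h2 : T.ApL (X.φ y) _ _ := ⟨a, X.ap_av hT a, rfl, X.av_fix.1 u3, rfl⟩
  exact key _ _ h2 (hγ ▸ hT.apL_conj γ h2)

/-- The pairs whose second element crosses a copy. -/
theorem cross (hS : S.OK) (hT : T.OK) (hA : TF S.G) {y c : T.G} (h : T.PreC y c) {C : X.TV}
    (hC : ¬ X.bt.ap C) (h1 : y • C = C) (h2 : (c * y * c⁻¹) • C = C) (h3 : c • C ≠ C)
    (hn : c * y ≠ y * c) : ∃ (g : T.G) (a b : S.G), a • X.t = X.t ∧ b • X.h = X.h ∧
      S.lab X.t a = X.η ∧ S.lab X.h b = X.η ∧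
      ((g * y * g⁻¹ = X.φ a ∧ g * (c * y * c⁻¹) * g⁻¹ = X.φ b) ∨
        (g * y * g⁻¹ = X.φ b⁻¹ ∧ g * (c * y * c⁻¹) * g⁻¹ = X.φ a⁻¹)) := by
  obtain ⟨L, hL, L2, -⟩ := (X.ac hT hA).cross hC h1 h2 h3 hn
  have hy : y ≠ 1 := fun e => hn (by rw [e, mul_one, one_mul])
  obtain ⟨χ, H⟩ := X.lst hS hT
  obtain ⟨κ, η, a1, a2⟩ := h.resolve_left fun h => by
    obtain ⟨γ, rfl⟩ := isConj_iff.1 h
    exact hL.not_fix (by omega) (γ • C) (by simp [mul_smul, h1])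
  rcases H.apL_cases a2 with a3 | ⟨γ, j, rfl, rfl, -⟩
  · obtain ⟨v, hv⟩ := a3.fix
    exact absurd hv (hL.not_fix (by omega) v)
  have hx := (X.ax_e.zpow j).conj γ
  have hj := hx.natAbs_eq hL
  obtain ⟨u, hu⟩ := hx.same (by omega) hL
  obtain ⟨m, hm⟩ : ∃ m : ℤ, C = γ • X.l0 (2 * m + 1) := by
    obtain ⟨i, hi⟩ : ∃ i, C = γ • X.l0 i :=
      hu.elim (fun h => ⟨_, L2.symm.trans (h.2 2)⟩) fun h => ⟨_, L2.symm.trans (h.2 2)⟩
    rcases Int.even_or_odd' i with ⟨m, rfl | rfl⟩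
    · rw [X.l0_even, ← mul_smul] at hi
      exact absurd (hi ▸ (X.tap_smul _ _).2 ⟨_, rfl⟩) hC
    · exact ⟨m, hi⟩
  obtain ⟨δ, hδ⟩ : ∃ δ, δ = γ * X.e ^ m := ⟨_, rfl⟩
  have c1 : C = δ • X.C0 := by rw [hm, X.l0_odd, hδ, mul_smul]
  rw [c1] at h1 h2
  obtain ⟨p, hp⟩ := X.fix_copy h1
  obtain ⟨q, hq⟩ := X.fix_copy h2
  have e1 : X.e ^ j * X.φ p * (X.e ^ j)⁻¹ = X.φ q := by rw [← hp, ← hq, hδ]; group
  have hp1 : p ≠ 1 := fun e => hy (by rwa [e, map_one, conj_eq_one_iff] at hp)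
  obtain ⟨α, b1, -, b2, b3⟩ := X.apL_down hS hT hp1 (hp ▸ hT.apL_conj δ⁻¹ a1)
  obtain rfl | rfl : j = 1 ∨ j = -1 := by omega
  · obtain ⟨f1, f2, f3⟩ := X.of_conj hT (by simpa using e1)
    rw [hS.fix_uniq hp1 b2 f1, zpow_one] at b3
    exact ⟨δ⁻¹, p, q, f1, f2, b3, f3 ▸ b3, Or.inl ⟨hp, hq⟩⟩
  · obtain ⟨f1, f2, f3⟩ := X.of_conj hT (a := q) (b := p) (by rw [← e1]; group)
    rw [hS.fix_uniq hp1 b2 f2, zpow_neg_one] at b3
    exact ⟨δ⁻¹, q⁻¹, p⁻¹, inv_smul_eq_iff.2 f1.symm, inv_smul_eq_iff.2 f2.symm,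
      by rw [hS.lab_inv X.ap_t f1, f3, b3, inv_inv], by rw [hS.lab_inv X.ap_h f2, b3, inv_inv],
      Or.inr ⟨by rw [inv_inv p]; exact hp, by rw [inv_inv q]; exact hq⟩⟩

end Stp

/-- Pairs are treated or escape. -/
theorem gt_step (S' : ℕ) : ∃ K0 : ℕ, ∀ (AA N K : Type) [CommGroup AA] (S T : St AA N K)
    (X : Stp S T) (L : S.G → S.G → Prop) (Kk : ℕ), K0 ≤ Kk → S.OK → T.OK → S.Alg →
    S.NP X.t X.h X.η → S.EH X.t X.h → Clo L → S.GT L Kk S' →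
    (∀ a b : S.G, a • X.t = X.t → b • X.h = X.h → S.lab X.t a = X.η → S.lab X.h b = X.η →
      L a b ∧ (L b⁻¹ a⁻¹ ∨ Esc S.d (Kk - 1) S' b⁻¹ a⁻¹)) →
    T.GT (LT X.φ L) Kk S' ∧ ∀ a : S.G, a ≠ 1 → a • X.t = X.t →
      Esc T.d (Kk - 1) S' X.e (X.φ a) ∧ Esc T.d (Kk - 1) S' X.e⁻¹ (X.φ a) := by
  refine ⟨2 * S' + 8, fun AA N K _ S T X L Kk hK hS hT hA hn he _ hG hL => ⟨?_, ?_⟩⟩
  · intro y c hp hc
    have hc' : c * y ≠ y * c := fun e => hc e.symm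
    by_cases h1 : ∀ v : X.TV, y • v = v → (c * y * c⁻¹) • v ≠ v
    · exact Or.inr ((X.esc_tree hT hA.tf he S' hc' h1).le (by omega))
    push Not at h1
    obtain ⟨C, h1, h2⟩ := h1
    have hy : y ≠ 1 := fun e => hc (e ▸ Commute.one_left c)
    have hC : ¬ X.bt.ap C := fun h => hc ((X.alg_step hS hT hA hn he).csa y c hy
      ((X.ac hT hA.tf).ab _ _ C h h2 h1)).symm
    by_cases h3 : c • C = C
    · obtain ⟨γ, rfl⟩ := X.copy hC
      obtain ⟨p, hp'⟩ := X.fix_copy h1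
      obtain ⟨q, hq⟩ := X.fix_copy h3
      have n1 : ¬ Commute p q := fun e => hc (by
        have := e.map X.φ
        rw [← hp', ← hq] at this
        exact comm_of_inj (f := (MulAut.conj γ⁻¹).toMonoidHom) (MulAut.conj γ⁻¹).injective this)
      have n2 : T.PreC (X.φ p) (X.φ q) := by
        rw [← hp', ← hq]
        rcases hp with h | ⟨κ, η, a1, a2⟩
        · exact Or.inl (((isConj_iff.2 ⟨γ⁻¹, rfl⟩ : IsConj y _).symm.trans h).trans
            (isConj_iff.2 ⟨γ⁻¹, rfl⟩))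
        · exact Or.inr ⟨κ, η, hT.apL_conj _ a1, hT.apL_conj _ a2⟩
      rcases hG p q (X.preC_down hS hT (fun e => n1 (e ▸ Commute.one_left q))
        (fun e => n1 (e ▸ Commute.one_right p)) n2) n1 with h | h
      · exact Or.inl ⟨0, γ⁻¹, p, q, h, hp', hq⟩
      · exact Or.inr (Esc.conj hT.iso γ⁻¹ (by rw [hp', hq]; exact X.esc_φ h))
    obtain ⟨g, a, b, a1, a2, a3, a4, ⟨e1, e2⟩ | ⟨e1, e2⟩⟩ := X.cross hS hT hA.tf hp hC h1 h2 h3 hc'
    · exact Or.inl ⟨1, g, a, b, (hL a b a1 a2 a3 a4).1, e1, e2⟩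
    · rcases (hL a b a1 a2 a3 a4).2 with h | h
      · exact Or.inl ⟨1, g, _, _, h, e1, e2⟩
      · exact Or.inr ((Esc.conj hT.iso g (by rw [e1, e2]; exact X.esc_φ h)).pre.le (by omega))
  · intro a ha h1
    have key : ∀ j : ℤ, j ≠ 0 → Esc T.d (Kk - 1) S' (X.e ^ j) (X.φ a) := fun j hj => by
      refine (X.esc_tree hT hA.tf he S' (fun e => ha ?_) fun v hv =>
        absurd hv ((X.ax_e.zpow j).not_fix (by omega) v)).le (by omega)
      obtain ⟨k, hk⟩ := (X.cone' hT hA.tf).of_comm hj e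
      by_cases h0 : k = 0
      · exact X.φ_inj (by rw [hk, h0, zpow_zero, map_one])
      · exact absurd ⟨a, hk⟩ (X.e_zpow_not_mem h0)
    exact ⟨by simpa using key 1 (by omega), by simpa using key (-1) (by omega)⟩

end Pool.Agent.Lib.MP_429c3d_al.Ng
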