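import Pool.Agent.Lib.MP_429c3d_al.NgAArm
import Pool.Agent.Lib.MP_429c3d_al.NgStpA
import Pool.Agent.Lib.MP_429c3d_al.NgStpEx
import Pool.Agent.Lib.MP_429c3d_al.NgGeo

set_option autoImplicit false
set_option linter.unusedSectionVars false

/-! The invariant of the stages over a base stage, and one step. -/

namespace Pool.Agent.Lib.MP_429c3d_al.Ng

open Hyp

/-- The numerical parameters. -/
structure Prm where
  q : ℕ
  c : ℕ
  l0 : ℕ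
  D : ℕ
  L : ℕ
  f : ℕ
  P : ℕ
  Kk : ℕ
  S' : ℕ
  m : ℕ
  hD : 3 ≤ D
  hK : (gt_step S').choose ≤ Kk

/-- The final names. -/
def Fin' {N0 T : Type} (n : ℕ) (x : Nm N0 T) : Prop := ∃ τ, x = .inr (τ, false, -(n : ℤ))

variable {AA N0 K I : Type} [CommGroup AA] {S₀ : St AA (Nm N0 (I × Bool)) K} {n : ℕ}

namespace Base

variable (B : Base S₀ n)

/-- The centre of the pair. -/
def oo (τ : I × Bool) : S₀.Z := B.o (B.κ τ.1)

/-- The label of the pair. -/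
def η (τ : I × Bool) : AA := S₀.lab (B.oo τ) (yy B.y τ)

/-- The treated pairs of the base stage. -/
def L0 (m : ℕ) : S₀.G → S₀.G → Prop := Tr m (yy B.y) (cc B.y B.s)

/-- The pending slots, by name and label. -/
def Pd (lo : I × Bool → ℕ) (x : Nm N0 (I × Bool)) (ζ : AA) : Prop :=
  ∃ i, (lo (i, true) = 0 ∧ x = S₀.nm (B.oo (i, true)) (B.P (i, true) 0) ∧ ζ = B.η (i, true)) ∨
    (lo (i, false) = 0 ∧ x = .inr ((i, true), true, -1) ∧ ζ = B.η (i, false))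

theorem ap_oo (τ : I × Bool) : S₀.ap (B.oo τ) := B.ap_o _

theorem yy_fix (τ : I × Bool) : yy B.y τ • B.oo τ = B.oo τ := by
  unfold yy
  split_ifs
  · exact B.y_fix _
  · exact inv_smul_eq_iff.2 (B.y_fix _).symm

theorem yy_ne (τ : I × Bool) : yy B.y τ ≠ 1 := by
  unfold yy
  split_ifs
  · exact B.y_ne _
  · exact inv_ne_one.2 (B.y_ne _)

theorem η_ne (H : S₀.OK) (τ : I × Bool) : B.η τ ≠ 1 := fun h =>
  B.yy_ne τ (H.lab_inj _ _ (B.ap_oo τ) (B.yy_fix τ) h)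

theorem η_false (H : S₀.OK) (i : I) : B.η (i, false) = (B.η (i, true))⁻¹ :=
  H.lab_inv (B.ap_o _) (B.y_fix i)

theorem η_ne' (H : S₀.OK) (i : I) : B.η (i, true) ≠ B.η (i, false) := by
  rw [B.η_false H]
  intro h
  exact B.η_ne H (i, true) (B.tfA _ 2 (by omega) (by rw [pow_two]; exact mul_eq_one_iff_eq_inv.2 h))

theorem fl_P (τ : I × Bool) {h : ℕ} (hh : h ≤ n) : S₀.Fl (B.oo τ) (B.P τ h) :=
  ⟨B.ap_o _, B.adj τ h hh⟩

theorem Pd.mono {B : Base S₀ n} {lo lo' : I × Bool → ℕ} (h : ∀ τ, lo τ ≤ lo' τ)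
    {x : Nm N0 (I × Bool)} {ζ : AA} (p : B.Pd lo' x ζ) : B.Pd lo x ζ := by
  obtain ⟨i, ⟨h1, h2⟩ | ⟨h1, h2⟩⟩ := p
  · exact ⟨i, Or.inl ⟨by have := h (i, true); omega, h2⟩⟩
  · exact ⟨i, Or.inr ⟨by have := h (i, false); omega, h2⟩⟩

theorem Pd.ne {B : Base S₀ n} {lo : I × Bool → ℕ} {τ : I × Bool} {r : ℕ} (hr : r ≠ 0) {ζ : AA} :
    ¬ B.Pd lo (.inr (τ, false, -(r : ℤ))) ζ := by
  rintro ⟨i, ⟨-, h, -⟩ | ⟨-, h, -⟩⟩
  · have := B.nm_zero (i, true)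
    rw [show B.o (B.κ (i, true).1) = B.oo (i, true) from rfl, ← h] at this
    exact hr (by simpa [Nm.ht] using this)
  · simp at h

end Base

/-- The invariant; `lo τ` is the depth of the backward arm of `τ`. -/
structure Inv (B : Base S₀ n) (π : Prm) (S : St AA (Nm N0 (I × Bool)) K)
    (E : Emb (Fin' n) S₀ S) (lo : I × Bool → ℕ) : Prop where
  ok : S.OK
  alg : S.Alg
  geo : S.Geo dnm π.q π.c π.l0 π.D π.L π.f π.P
  gt : S.GT (LT E.φ (B.L0 π.m)) π.Kk π.S'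
  le : ∀ τ, lo τ ≤ n
  used : ∀ α x τ b h, S.Fl α x → S.nm α x = .inr (τ, b, h) →
    (1 ≤ h ∧ h ≤ n) ∨ (h < 0 ∧ -h ≤ lo τ)
  orb : ∀ α, S.ap α → (∃ g : S.G, α = g • E.ι (B.o (S.cls α))) ∨
    ∃ x τ, S.Fl α x ∧ S.nm α x = .inr (τ, false, -(lo τ : ℤ))
  ofin : ∀ κ x τ, S.Fl (E.ι (B.o κ)) x → S.nm (E.ι (B.o κ)) x ≠ .inr (τ, false, -(lo τ : ℤ))
  dfm : ∀ α x x', S.Fl α x → S.Fl α x' → S.df α x x' ∈ S.Lb (E.ι (B.o (S.cls α)))
  chi : ∀ τ, lo τ = 0 → ∀ α x x', S.Fl α x → S.Fl α x' → B.χ τ (S.df α x x') = 1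
  np : ∀ α x ζ, S.Fl α x → B.Pd lo (S.nm α x) ζ → S.NP α x ζ

theorem St.GT.mono_L {N : Type} {S : St AA N K} {L L' : S.G → S.G → Prop} {Kk S' : ℕ}
    (h : S.GT L Kk S') (hL : ∀ y c, L y c → L' y c) : S.GT L' Kk S' :=
  fun y c h1 h2 => (h y c h1 h2).imp_left (hL y c)

theorem LT.of {G G' : Type} [Group G] [Group G'] (φ : G →* G') {L : G → G → Prop} {y c : G}
    (h : L y c) : LT φ L (φ y) (φ c) := ⟨0, 1, y, c, h, by simp, by simp [cs]⟩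

theorem LT.map {G₀ G G' : Type} [Group G₀] [Group G] [Group G'] {ψ : G₀ →* G} (φ : G →* G')
    {L : G₀ → G₀ → Prop} {y c : G} (h : LT ψ L y c) : LT (φ.comp ψ) L (φ y) (φ c) := by
  obtain ⟨k, g, y₀, c₀, h1, h2, h3⟩ := h
  exact ⟨k, φ g, y₀, c₀, h1, by rw [MonoidHom.comp_apply, ← h2, map_mul, map_mul, map_inv],
    by rw [MonoidHom.comp_apply, ← h3, map_mul, map_mul, map_inv, map_cs]⟩

theorem Clo.cs {G : Type} [Group G] {L : G → G → Prop} (h : Clo L) {y c : G} (k : ℕ)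
    (e : L y (cs y c k)) : L y c := by
  induction k with
  | zero => exact e
  | succ k ih => exact ih (h.pre _ _ e)

theorem Clo.of_conj {G : Type} [Group G] {L : G → G → Prop} (h : Clo L) {y c : G} (g : G)
    (e : L (g * y * g⁻¹) (g * c * g⁻¹)) : L y c := by
  simpa [mul_assoc] using h.conj g⁻¹ _ _ e

theorem Clo.lt {G G' : Type} [Group G] [Group G'] {φ : G →* G'} {L : G → G → Prop}
    {L' : G' → G' → Prop} (h : Clo L') (hL : ∀ y c, L y c → L' (φ y) (φ c)) {y c : G'}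
    (e : LT φ L y c) : L' y c := by
  obtain ⟨k, g, y₀, c₀, h1, h2, h3⟩ := e
  have := hL _ _ h1
  rw [← h2, ← h3] at this
  exact h.cs k (h.of_conj g this)

theorem Inv.base (B : Base S₀ n) (π : Prm) (H : S₀.OK) (hA : S₀.Alg)
    (hG : S₀.Geo dnm π.q π.c π.l0 π.D π.L π.f π.P) (hT : S₀.GT (B.L0 π.m) π.Kk π.S') :
    Inv B π S₀ (Emb.refl _ _) fun _ => 0 where
  ok := H
  alg := hA
  geo := hG
  gt := hT.mono_L fun _ _ h => LT.of (MonoidHom.id _) h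
  le _ := Nat.zero_le _
  used α x τ b h h1 h2 := Or.inl (B.nm_rng α x τ b h h1 h2)
  orb α h := Or.inl (B.orb α h)
  ofin κ x τ h1 h2 := by
    have := B.nm_rng _ x τ _ _ h1 h2
    omega
  dfm := B.df_mem
  chi τ _ := B.χ_df τ
  np α x ζ h1 := by
    rintro ⟨i, ⟨-, h2, rfl⟩ | ⟨-, h2, -⟩⟩
    · obtain ⟨g, rfl, rfl⟩ := H.nm_orb _ _ _ _ (B.fl_P (i, true) (Nat.zero_le _)) h1 h2.symm
      refine H.np_smul g ?_
      rw [B.P_zero]
      exact B.np i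
    · have := B.nm_rng _ x _ _ _ h1 h2
      omega

namespace Inv

variable {B : Base S₀ n} {π : Prm} {S : St AA (Nm N0 (I × Bool)) K} {E : Emb (Fin' n) S₀ S}
  {lo : I × Bool → ℕ} (H : Inv B π S E lo)
include H

theorem ap_o (κ : K) : S.ap (E.ι (B.o κ)) := (E.ap_ι _).2 (B.ap_o κ)

theorem cls_o (κ : K) : S.cls (E.ι (B.o κ)) = κ := (E.cls_ι _).trans (B.cls_o κ)

theorem lb_df {α : S.Z} (hα : S.ap α) {ζ : AA} (h : ζ ∈ S.Lb α) :
    ∃ x x', S.Fl α x ∧ S.Fl α x' ∧ ζ = S.df α x x' := by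
  obtain ⟨a, ha, rfl⟩ := h
  obtain ⟨x, hx⟩ := H.ok.exists_fl hα
  exact ⟨x, a • x, hx, H.ok.fl_fix hx ha, (H.ok.lab_df α x a hx ha).symm⟩

theorem η_mem (τ : I × Bool) : B.η τ ∈ S.Lb (E.ι (B.oo τ)) :=
  E.lb (B.ap_oo τ) ⟨_, B.yy_fix τ, rfl⟩

theorem lab_Y (τ : I × Bool) : S.lab (E.ι (B.oo τ)) (E.φ (yy B.y τ)) = B.η τ :=
  E.lab_ι _ _ (B.ap_oo τ) (B.yy_fix τ)

/-- One step. -/
theorem micro [DecidableEq I] (H₀ : S₀.OK) (τ : I × Bool) {r : ℕ} (hr : lo τ < r) (hrn : r ≤ n)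
    {h : S.Z} {ξ ζ : AA} (hfl : S.Fl (E.ι (B.oo τ)) h) (hh : S.ap h)
    (hc : S.cls h = B.κ τ.1) (hξ : ξ ∈ S.Lb (E.ι (B.oo τ)))
    (ty : ((∀ g : S.G, g • E.ι (B.oo τ) ≠ h) ∧ ζ = 1 ∧ S.EH (E.ι (B.oo τ)) h ∧
        ∀ x, S.Fl h x → S.nm h x = .inr (τ, false, -(lo τ : ℤ))) ∨
      ((∃ s : S.G, s • E.ι (B.oo τ) = h) ∧ lo τ = 0 ∧ ζ = B.ζ τ))
    (hn : S.NP (E.ι (B.oo τ)) h (B.η τ))
    (d1 : dnm (.inr (τ, true, -(r : ℤ))) (S.nm (E.ι (B.oo τ)) h) ≤ 3)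
    (d2 : dnm (.inr (τ, true, -(r : ℤ))) (S.nm h (E.ι (B.oo τ))) ≤ 3)
    (pr : ∀ b : S.G, b • h = h → S.lab h b = B.η τ →
      LT E.φ (B.L0 π.m) (E.φ (yy B.y τ)) b ∧ (LT E.φ (B.L0 π.m) b⁻¹ (E.φ (yy B.y τ))⁻¹ ∨
        Esc S.d (π.Kk - 1) π.S' b⁻¹ (E.φ (yy B.y τ))⁻¹))
    (p1 : ¬ B.Pd (Function.update lo τ r) (S.nm (E.ι (B.oo τ)) h) (B.η τ))
    (p2 : ¬ B.Pd (Function.update lo τ r) (S.nm h (E.ι (B.oo τ))) (B.η τ)⁻¹) :
    ∃ (T : St AA (Nm N0 (I × Bool)) K) (X : Stp S T) (E' : Emb (Fin' n) S T),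
      E'.φ = X.φ ∧ E'.ι = X.ι ∧ X.t = E.ι (B.oo τ) ∧ X.h = h ∧ X.η = B.η τ ∧ X.ξ = ξ ∧ X.ζ = ζ ∧
      X.x₁ = .inr (τ, true, -(r : ℤ)) ∧ X.x₂ = .inr (τ, false, -(r : ℤ)) ∧
      Inv B π T (E.trans E') (Function.update lo τ r) ∧ Top T.G X.w ∧
      ∀ a : S.G, a ≠ 1 → a • X.t = X.t →
        Esc T.d (π.Kk - 1) π.S' X.e (X.φ a) ∧ Esc T.d (π.Kk - 1) π.S' X.e⁻¹ (X.φ a) := by
  have ok := H.ok
  have ct : S.cls (E.ι (B.oo τ)) = B.κ τ.1 := H.cls_o _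
  have χL : ∀ τ', lo τ' = 0 → ∀ u ∈ S.Lb (E.ι (B.oo τ)), B.χ τ' u = 1 := by
    intro τ' h0 u hu
    obtain ⟨x, x', h1, h2, rfl⟩ := H.lb_df hfl.1 hu
    exact H.chi τ' h0 _ _ _ h1 h2
  have fresh : ∀ α x b, S.Fl α x → S.nm α x ≠ .inr (τ, b, -(r : ℤ)) := by
    intro α x b h1 h2
    have := H.used α x τ b _ h1 h2
    omega
  obtain ⟨T, X, hT, et, eh, eη, eξ, eζ, e1, e2⟩ := exists_stp S ok H.alg.tf B.tfA (B.η τ) ξ ζ
    (.inr (τ, true, -(r : ℤ))) (.inr (τ, false, -(r : ℤ))) hfl hh (hc.trans ct.symm) (by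
      intro u hu
      obtain ⟨x, x', h1, h2, rfl⟩ := H.lb_df hh hu
      have := H.dfm _ _ _ h1 h2
      rwa [hc] at this) (B.η_ne H₀ τ) (by simp) (fun α x h1 => ⟨fresh α x _ h1, fresh α x _ h1⟩) (by
      intro s hs
      rcases ty with ⟨h1, -⟩ | ⟨-, h1, h2⟩
      · exact absurd hs (h1 s)
      · exact ⟨B.χ τ, H.chi τ h1, χL τ h1 _ (H.η_mem τ), by rw [h2, B.χ_self]⟩)
  have he : S.EH X.t X.h := by
    rw [et, eh]
    rcases ty with ⟨-, -, h1, -⟩ | ⟨⟨s, hs⟩, -⟩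
    · exact h1
    · exact fun h1 => absurd hs (h1 s)
  have hn' : S.NP X.t X.h X.η := by rwa [et, eh, eη]
  have upd : ∀ τ', τ' ≠ τ → Function.update lo τ r τ' = lo τ' := fun τ' h1 =>
    Function.update_of_ne h1 _ _
  have upt : Function.update lo τ r τ = r := Function.update_self _ _ _
  have upl : ∀ τ', lo τ' ≤ Function.update lo τ r τ' := fun τ' => by
    by_cases h1 : τ' = τ
    · rw [h1, upt]; omega
    · rw [upd τ' h1]
  have glnm : ∀ z, X.Gl z → ∀ x τ', S.Fl z x → S.nm z x = .inr (τ', false, -(lo τ' : ℤ)) →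
      τ' = τ := by
    have a : ∀ (g : S.G) x τ', S.Fl (g • E.ι (B.oo τ)) x →
        S.nm (g • E.ι (B.oo τ)) x ≠ .inr (τ', false, -(lo τ' : ℤ)) := by
      intro g x τ' h1
      have h2 := ok.fl_smul g⁻¹ h1
      rw [← ok.nm_smul g⁻¹ _ _ h1]
      rw [inv_smul_smul] at h2 ⊢
      exact H.ofin _ _ τ' h2
    rintro _ ⟨g, rfl | rfl⟩ x τ' h1 h2
    · rw [et] at h1 h2
      exact absurd h2 (a g x τ' h1)
    · rw [eh] at h1 h2
      rcases ty with ⟨-, -, -, h3⟩ | ⟨⟨s, rfl⟩, -⟩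
      · have h4 := ok.fl_smul g⁻¹ h1
        rw [← ok.nm_smul g⁻¹ _ _ h1] at h2
        rw [inv_smul_smul] at h2 h4
        rw [h3 _ h4] at h2
        exact (Prod.mk.inj (Sum.inr.inj h2)).1.symm
      · rw [← mul_smul] at h1 h2
        exact absurd h2 (a _ x τ' h1)
  let E' : Emb (Fin' n) S T := X.emb hT (Fin' n) (by
    rintro α x h1 ⟨τ', h2⟩ hg
    have h3 := H.used α x τ' _ _ h1 h2
    have h4 := H.le τ'
    have h5 : lo τ' = n := by omega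
    rw [glnm α hg x τ' h1 (by rwa [h5])] at h5
    omega)
  have Eι : ∀ x, (E.trans E').ι x = X.ι (E.ι x) := fun _ => rfl
  obtain ⟨g1, g2⟩ := (gt_step π.S').choose_spec AA _ K S T X (LT E.φ (B.L0 π.m)) π.Kk π.hK ok hT
    H.alg hn' he (LT_clo _ _) H.gt (by
      intro a b ha hb la lb
      rw [et] at ha la
      rw [eh] at hb lb
      rw [eη] at la lb
      rw [ok.lab_eq hfl.1 ha (E.fix (B.yy_fix τ)) (la.trans (H.lab_Y τ).symm)]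
      exact pr b hb lb)
  have apT : ∀ κ, T.ap (X.ι (E.ι (B.o κ))) := fun κ => (X.ap_ι _).2 (H.ap_o κ)
  have lbT : ∀ κ, S.Lb (E.ι (B.o κ)) ⊆ T.Lb (X.ι (E.ι (B.o κ))) := fun κ => E'.lb (H.ap_o κ)
  refine ⟨T, X, E', rfl, rfl, et, eh, eη, eξ, eζ, e1, e2, ⟨hT, X.alg_step ok hT H.alg hn' he,
    X.geo_step ok hT H.alg.tf (dnm_metg _ _) (by rw [e1, et, eh]; exact d1.trans π.hD)
      (by rw [e1, et, eh]; exact d2.trans π.hD) H.geo,
    g1.mono_L fun y c => (LT_clo _ _).lt fun _ _ => LT.map X.φ, fun τ' => ?_, ?_, ?_, ?_, ?_, ?_,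
    ?_⟩, X.top_step ok hT H.alg hn' he, g2⟩
  · by_cases h1 : τ' = τ
    · rwa [h1, upt]
    · rw [upd τ' h1]
      exact H.le τ'
  · intro α x τ' b k h1 h2
    rcases X.nm_cases hT h1 with ⟨γ, z, z', -, -, h3, h4⟩ | ⟨γ, -, -, h4⟩ | ⟨γ, -, -, h4⟩
    · have := H.used z z' τ' b k h3 (h4.symm.trans h2)
      have := upl τ'
      omega
    · rw [h4, e1] at h2
      obtain ⟨rfl, -, rfl⟩ : τ = τ' ∧ true = b ∧ -(r : ℤ) = k := by simpa using h2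
      rw [upt]
      omega
    · rw [h4, e2] at h2
      obtain ⟨rfl, -, rfl⟩ : τ = τ' ∧ false = b ∧ -(r : ℤ) = k := by simpa using h2
      rw [upt]
      omega
  · intro α hα
    rw [Eι]
    rcases X.cover α with ⟨γ, z, rfl⟩ | ⟨γ, rfl⟩
    · have hz := (X.ap_ι z).1 ((hT.ap_smul_iff γ _).1 hα)
      rw [hT.cls_smul, X.cls_ι]
      rcases H.orb z hz with ⟨g, hg⟩ | ⟨x, τ', h1, h2⟩
      · exact Or.inl ⟨γ * X.φ g, by rw [mul_smul, ← X.ι_smul, ← hg]⟩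
      by_cases h3 : τ' = τ
      · subst h3
        rcases ty with ⟨-, -, -, h4⟩ | ⟨-, h4, -⟩
        · have h5 := ok.fl_symm hfl hh
          obtain ⟨g, rfl, -⟩ := ok.nm_orb _ _ _ _ h5 h1 ((h4 _ h5).trans h2.symm)
          refine Or.inl ⟨γ * X.φ g * X.e, ?_⟩
          rw [ok.cls_smul, hc, mul_smul, mul_smul, X.ι_smul, ← eh, ← X.e_t, et]
          rfl
        · have := H.used z x _ _ _ h1 h2
          omega
      · exact Or.inr ⟨γ • X.ι x, τ', hT.fl_smul γ (X.fl_ι h1), by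
          rw [hT.nm_smul _ _ _ (X.fl_ι h1), X.nm_ι _ _ h1, h2, upd τ' h3]⟩
    · exact Or.inr ⟨γ • X.ι X.t, τ, hT.fl_smul γ (X.fl_wt hT), by
        rw [hT.nm_smul _ _ _ (X.fl_wt hT), X.nm_wt, e2, upt]⟩
  · intro κ x τ' h1 h2
    rw [Eι] at h1 h2
    rcases X.nm_cases hT h1 with ⟨γ, z, z', h0, -, h3, h4⟩ | ⟨γ, -, -, h4⟩ | ⟨γ, h0, -⟩
    · rw [h4] at h2
      by_cases h5 : τ' = τ
      · rw [h5, upt] at h2
        exact fresh _ _ _ h3 h2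
      rw [upd τ' h5] at h2
      by_cases hg : X.Gl z
      · exact h5 (glnm z hg z' τ' h3 h2)
      · obtain ⟨g, -, h6⟩ := X.stab_other hg h0.symm
        refine H.ofin κ (g • z') τ' (h6 ▸ ok.fl_smul g h3) ?_
        rw [← h6, ok.nm_smul g _ _ h3, h2]
    · rw [h4, e1] at h2
      simp at h2
    · exact X.w_ne_ι _ _ h0.symm
  · refine X.dfs (fun κ => hT.lbs (apT κ)) (fun α x x' h1 h2 => lbT _ (H.dfm α x x' h1 h2))
      ?_ ?_ ?_ <;> rw [et, ct]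
    · exact lbT _ (eη ▸ H.η_mem τ)
    · exact lbT _ (eξ ▸ hξ)
    · rcases ty with ⟨-, h1, -⟩ | ⟨⟨s, hs⟩, -⟩
      · rw [eζ, h1]
        exact one_mem _
      · rw [← et, ← eh] at hs
        have f1 := X.fl_ι X.fl
        have f2 := X.fl_te ok hT
        have f3 : S.Fl X.t (s⁻¹ • X.t) := by
          have := ok.fl_smul s⁻¹ (X.fl_ht ok)
          rwa [← hs, inv_smul_smul] at this
        have v1 : (X.e⁻¹ * X.φ s) • X.ι X.t = X.ι X.t := by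
          rw [mul_smul, ← X.ι_smul, hs, ← X.e_t, inv_smul_smul]
        have v2 : (X.e⁻¹ * X.φ s) • X.ι (s⁻¹ • X.t) = X.e⁻¹ • X.ι X.t := by
          rw [mul_smul, ← X.ι_smul, smul_inv_smul]
        rw [← X.df_e, ← hT.df_mul _ _ _ _ f1 (X.fl_ι f3) f2, ← v2,
          hT.lab_df _ _ _ (X.fl_ι f3) v1, X.df_ι _ _ _ X.fl f3]
        refine mul_mem (lbT _ ?_) ?_
        · have := H.dfm _ _ _ X.fl f3
          rwa [et, ct, ← et] at this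
        · rw [et] at v1 ⊢
          exact ⟨_, v1, rfl⟩
  · intro τ' h0
    have h1 : τ' ≠ τ := by
      rintro rfl
      omega
    rw [upd τ' h1] at h0
    refine X.dfs (fun _ => (B.χ τ').ker) (H.chi τ' h0) (eη ▸ χL τ' h0 _ (H.η_mem τ))
      (eξ ▸ χL τ' h0 _ hξ) ?_
    rw [eζ]
    rcases ty with ⟨-, h2, -⟩ | ⟨-, -, h2⟩
    · rw [h2]
      exact one_mem _
    · rw [h2]
      exact B.χ_ne τ' τ h1
  · intro α x u h1 h2
    rcases X.nm_cases hT h1 with ⟨γ, z, z', rfl, rfl, h3, h4⟩ | ⟨γ, rfl, rfl, -⟩ |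
      ⟨γ, rfl, rfl, -⟩
    · rw [h4] at h2
      refine hT.np_smul γ (X.np_step ok hT h3 (H.np z z' u h3 (h2.mono upl)) ?_ ?_)
      · rintro g rfl rfl rfl
        rw [ok.nm_smul g _ _ X.fl, et, eh, eη] at h2
        exact p1 h2
      · rintro g rfl rfl rfl
        rw [ok.nm_smul g _ _ (X.fl_ht ok), et, eh, eη] at h2
        exact p2 h2
    · exact hT.np_smul γ fun f _ e => X.w_ne f _ e.symm
    · exact hT.np_smul γ fun f _ e => X.w_ne_ι f _ e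

end Inv

end Pool.Agent.Lib.MP_429c3d_al.Ng
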