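import Pool.Agent.Lib.MP_429c3d_al.NgGate

/-! Local freeness of the stabiliser of `t` and of the letter `e`. -/

set_option autoImplicit false

namespace Pool.Agent.Lib.MP_429c3d_al.Ng

open Hyp

/-- The value of the word `e ^ j₁ * a₁ * ... * e ^ jₙ * aₙ`. -/
def wd {G : Type} [Group G] (e : G) (l : List (ℤ × G)) : G := (l.map fun p => e ^ p.1 * p.2).prod

/-- All syllables are non trivial and the letters `aᵢ` fix `t`. -/
def Red {G Z : Type} [Group G] [MulAction G Z] (t : Z) (l : List (ℤ × G)) : Prop :=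
  ∀ p ∈ l, p.1 ≠ 0 ∧ p.2 ≠ 1 ∧ p.2 • t = t

/-- Reduced words with at most `N` powers of `e` move `t`. -/
def LF {G Z : Type} [Group G] [MulAction G Z] (t : Z) (e : G) (N : ℕ) : Prop :=
  ∀ (l : List (ℤ × G)) (j : ℤ), l.length < N → j ≠ 0 → Red t l → (wd e l * e ^ j) • t ≠ t

variable {G G' Z Z' : Type} [Group G] [Group G'] [MulAction G Z] [MulAction G' Z']
  {d : Z → Z → ℕ} {d' : Z' → Z' → ℕ}

theorem wd_nil (e : G) : wd e [] = 1 := rfl

theorem wd_cons (e : G) (p : ℤ × G) (l : List (ℤ × G)) :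
    wd e (p :: l) = e ^ p.1 * p.2 * wd e l := by
  simp [wd]

theorem wd_concat (e : G) (p : ℤ × G) (l : List (ℤ × G)) :
    wd e (l ++ [p]) = wd e l * (e ^ p.1 * p.2) := by
  simp [wd]

theorem red_nil (t : Z) : Red t ([] : List (ℤ × G)) := fun _ h => absurd h List.not_mem_nil

theorem red_cons {t : Z} {p : ℤ × G} {l : List (ℤ × G)} :
    Red t (p :: l) ↔ (p.1 ≠ 0 ∧ p.2 ≠ 1 ∧ p.2 • t = t) ∧ Red t l := List.forall_mem_cons

theorem LF.mono {t : Z} {e : G} {N N' : ℕ} (h : LF t e N) (hN : N' ≤ N) : LF t e N' :=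
  fun l j h1 => h l j (by omega)

theorem LF.ne {t : Z} {e : G} {N : ℕ} (h : LF t e N) {l : List (ℤ × G)} (h0 : l ≠ [])
    (h1 : l.length ≤ N) (h2 : Red t l) : wd e l • t ≠ t := by
  obtain ⟨l, p, rfl⟩ := (List.eq_nil_or_concat' l).resolve_left h0
  obtain ⟨p1, -, p3⟩ := h2 p (by simp)
  rw [wd_concat, ← mul_assoc, mul_smul, p3]
  exact h l p.1 (by simp at h1; omega) p1 fun q hq => h2 q (by simp [hq])

/-- The gates that occur along a reduced word. -/
def PP (t h : Z) (b : G) (n : ℕ) (u : Z) : Prop :=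
  ∃ l, Red t l ∧ ((∃ k : ℤ, k ≠ 0 ∧ l.length + 2 ≤ n ∧ u = (wd b l * b ^ k) • t) ∨
    (l.length + 1 ≤ n ∧ u = wd b l • h))

section PP

variable {t h u : Z} {b a : G} {n N : ℕ}

theorem pp_h (hn : 1 ≤ n) : PP t h b n h :=
  ⟨[], red_nil t, Or.inr ⟨by simpa, by simp [wd_nil]⟩⟩

theorem PP.mono (hu : PP t h b n u) {m : ℕ} (hm : n ≤ m) : PP t h b m u := by
  obtain ⟨l, h1, ⟨k, h2, h3, h4⟩ | ⟨h3, h4⟩⟩ := hu
  exacts [⟨l, h1, Or.inl ⟨k, h2, by omega, h4⟩⟩, ⟨l, h1, Or.inr ⟨by omega, h4⟩⟩]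

theorem PP.cons (hu : PP t h b n u) {k : ℤ} (hk : k ≠ 0) (ha : a ≠ 1) (hat : a • t = t) :
    PP t h b (n + 1) (b ^ k • a • u) := by
  obtain ⟨l, h1, h2⟩ := hu
  refine ⟨(k, a) :: l, red_cons.2 ⟨⟨hk, ha, hat⟩, h1⟩, ?_⟩
  rcases h2 with ⟨k', h2, h3, rfl⟩ | ⟨h3, rfl⟩
  · exact Or.inl ⟨k', h2, by simpa using h3, by simp [wd_cons, mul_smul]⟩
  · exact Or.inr ⟨by simpa using h3, by simp [wd_cons, mul_smul]⟩

theorem PP.ne_t (hL : LF t b N) (hne : ∀ s : G, s • t ≠ h) (hu : PP t h b n u) (hn : n ≤ N + 1) :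
    u ≠ t := by
  obtain ⟨l, h1, ⟨k, h2, h3, rfl⟩ | ⟨-, rfl⟩⟩ := hu
  · exact hL l k (by omega) h2 h1
  · exact fun hh => hne _ (inv_smul_eq_iff.2 hh.symm)

theorem PP.ne_h (hL : LF t b N) (hne : ∀ s : G, s • t ≠ h)
    (hB : ∀ c : G, c • h = h → ∃ k : ℤ, c = b ^ k) (hu : PP t h b n u) (hn : n ≤ N) (ha : a ≠ 1)
    (hat : a • t = t) : a • u ≠ h := by
  obtain ⟨l, h1, ⟨k, -, -, rfl⟩ | ⟨h3, rfl⟩⟩ := hu
  · rw [← mul_smul]
    exact hne _
  · intro hh
    obtain ⟨k, hk⟩ := hB _ ((mul_smul _ _ _).trans hh)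
    by_cases h0 : k = 0
    · rw [h0, zpow_zero] at hk
      by_cases hl : l = []
      · exact ha (by simpa [hl, wd_nil] using hk)
      · refine hL.ne hl (by omega) h1 (smul_left_cancel a ?_)
        rw [← mul_smul, hk, one_smul, hat]
    · refine hL.ne (l := (-k, a) :: l) (by simp) (by simp; omega)
        (red_cons.2 ⟨⟨neg_ne_zero.2 h0, ha, hat⟩, h1⟩) ?_
      rw [wd_cons, mul_assoc, hk, ← zpow_add, neg_add_cancel, zpow_zero, one_smul]

end PP

namespace Gate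

variable (S : Gate G G' d d')

/-- Every step preserves LF. -/
theorem lf_keep {t : Z} {e : G} {N : ℕ} (h : LF t e N) : LF (S.ι t) (S.φ e) N := by
  have key : ∀ (l : List (ℤ × G')) (j : ℤ), l.length < N → j ≠ 0 → Red (S.ι t) l →
      ∃ (l₀ : List (ℤ × G)) (j₀ : ℤ), l₀.length ≤ l.length ∧ j₀ ≠ 0 ∧ Red t l₀ ∧
        S.rt ((wd (S.φ e) l * S.φ e ^ j) • S.ι t) = (wd e l₀ * e ^ j₀) • t := by
    intro l j hl hj hr
    induction l with
    | nil => exact ⟨[], j, le_rfl, hj, red_nil t, by simp [wd_nil, ← map_zpow, S.rt_φ_ι]⟩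
    | cons p l ih =>
      obtain ⟨⟨p1, p2, p3⟩, hr'⟩ := red_cons.1 hr
      rw [List.length_cons] at hl
      obtain ⟨l₀, j₀, e1, e2, e3, e4⟩ := ih (by omega) hr'
      rw [wd_cons, mul_assoc, mul_smul, mul_smul, ← map_zpow, S.rt_smul]
      by_cases hp : p.2 ∈ S.φ.range
      · obtain ⟨a, ha⟩ := hp
        refine ⟨(p.1, a) :: l₀, j₀, by simpa using e1, e2, red_cons.2 ⟨⟨p1, fun hh => p2 ?_,
          S.ι_inj ?_⟩, e3⟩, ?_⟩
        · rw [← ha, show a = 1 from hh, map_one]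
        · rw [S.ι_smul, ha, p3]
        · rw [← ha, S.rt_smul, e4, wd_cons]
          simp [mul_smul]
      · have := S.other_old (S.old_smul_ι (wd (S.φ e) l * S.φ e ^ j) t) (σ := p.2⁻¹)
          (fun hh => hp (by simpa using inv_mem hh)) (inv_smul_eq_iff.2 p3.symm)
          (e4 ▸ h l₀ j₀ (by omega) e2 e3)
        rw [inv_inv] at this
        exact ⟨[], p.1, Nat.zero_le _, p1, red_nil t, by rw [this, wd_nil, one_mul]⟩
  intro l j hl hj hr hh
  obtain ⟨l₀, j₀, e1, e2, e3, e4⟩ := key l j hl hj hr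
  rw [hh, S.rt_ι] at e4
  exact h l₀ j₀ (by omega) e2 e3 e4.symm

theorem rt_up {y : Z'} (hy : S.Old y) (h : S.rt y ≠ S.t) {i : ℤ} (hi : 0 < i) :
    S.rt (S.e ^ i • y) = S.h := by
  obtain ⟨γ, z, rfl⟩ := hy
  obtain ⟨j, -, h2, h3⟩ := S.line γ z
  have : ¬ j < 0 := fun hj => h (by simpa using h3 0 hj)
  simpa using h2 (-i) (by omega)

theorem rt_down {y : Z'} (hy : S.Old y) (h : S.rt y ≠ S.h) {i : ℤ} (hi : i < 0) :
    S.rt (S.e ^ i • y) = S.t := by
  obtain ⟨γ, z, rfl⟩ := hy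
  obtain ⟨j, -, h2, h3⟩ := S.line γ z
  have : ¬ 0 < j := fun hj => h (by simpa using h2 0 hj)
  simpa using h3 (-i) (by omega)

/-- The new letter is locally free of order one. -/
theorem lf_one : LF (S.ι S.t) S.e 1 := by
  intro l j hl hj _ hh
  obtain rfl : l = [] := List.eq_nil_of_length_eq_zero (by omega)
  rw [wd_nil, one_mul] at hh
  rcases lt_or_gt_of_ne hj with h1 | h1
  · have := S.rt_zpow (-j)
    rw [zpow_neg, inv_smul_eq_iff.2 hh.symm, S.rt_ι, if_pos (by omega)] at this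
    exact S.th this
  · have := S.rt_zpow j
    rw [hh, S.rt_ι, if_pos (by omega)] at this
    exact S.th this

/-- The invariant along a reduced word in the new letter. -/
def LI (b : G) (n : ℕ) (y : Z') : Prop :=
  PP S.t S.h b n (S.rt y) ∨ (S.rt (S.e • y) ≠ S.h ∧ (S.rt (S.e • y) = S.t ∨
    ∃ (a : G) (u : Z), a ≠ 1 ∧ a • S.t = S.t ∧ PP S.t S.h b n u ∧ S.rt (S.e • y) = a • u))

theorem li_down {b : G} {n : ℕ} {y : Z'} (hy : S.Old y) (h1 : S.rt y ≠ S.h)
    (h2 : S.rt y = S.t ∨ ∃ (a : G) (u : Z), a ≠ 1 ∧ a • S.t = S.t ∧ PP S.t S.h b n u ∧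
      S.rt y = a • u) {i : ℤ} (hi : i < 0) : S.LI b n (S.e ^ i • y) := by
  refine Or.inr ?_
  rw [← mul_smul, ← zpow_one_add]
  rcases eq_or_lt_of_le (show 1 + i ≤ 0 by omega) with h3 | h3
  · rw [h3, zpow_zero, one_smul]
    exact ⟨h1, h2⟩
  · rw [S.rt_down hy h1 h3]
    exact ⟨S.th, Or.inl rfl⟩

theorem li_step {b : G} {N n : ℕ} (hL : LF S.t b N) (hne : ∀ s : G, s • S.t ≠ S.h)
    (hB : ∀ c : G, c • S.h = S.h → ∃ k : ℤ, c = b ^ k) (h1 : 1 ≤ n) (hn : n ≤ N) {y : Z'}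
    (hy : S.Old y) (hI : S.LI b n y) {a : G} (ha : a ≠ 1) (hat : a • S.t = S.t) {i : ℤ}
    (hi : i ≠ 0) : S.LI b (n + 1) (S.e ^ i • S.φ a • y) := by
  have hy' := hy.smul (S.φ a)
  rcases hI with hP | ⟨h2, h3⟩
  · rcases lt_or_gt_of_ne hi with hi | hi
    · refine S.li_down hy' ?_ (Or.inr ⟨a, _, ha, hat, hP.mono (by omega), S.rt_smul _ _⟩) hi
      rw [S.rt_smul]
      exact hP.ne_h hL hne hB hn ha hat
    · refine Or.inl ?_
      rw [S.rt_up hy' (fun hh => hP.ne_t hL hne (by omega) (smul_left_cancel a ?_)) hi]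
      · exact pp_h (by omega)
      · rw [← S.rt_smul, hh, hat]
  · have h4 : S.rt (S.φ a • y) = S.t := by
      have := S.rt_down (hy.smul S.e) h2 (show (-1 : ℤ) < 0 by omega)
      rw [zpow_neg_one, inv_smul_smul] at this
      rw [S.rt_smul, this, hat]
    rcases lt_or_gt_of_ne hi with hi | hi
    · exact S.li_down hy' (h4 ▸ S.th) (Or.inl h4) hi
    · have fix : (S.e * S.φ a * S.e⁻¹) • S.ι S.h = S.ι S.h := by
        rw [← S.e_t, mul_smul, inv_smul_smul, mul_smul, ← S.ι_smul, hat]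
      have e0 : S.e • S.φ a • y = (S.e * S.φ a * S.e⁻¹) • S.e • y := by simp [mul_smul]
      have hP : PP S.t S.h b (n + 1) (S.rt (S.e • S.φ a • y)) := by
        rw [e0]
        by_cases hσ : S.e * S.φ a * S.e⁻¹ ∈ S.φ.range
        · obtain ⟨c, hc⟩ := hσ
          obtain ⟨k, rfl⟩ := hB c (S.ι_inj (by rw [S.ι_smul, hc, fix]))
          have hk : k ≠ 0 := fun hh => ha (S.φ_inj (by
            rw [hh, zpow_zero, map_one] at hc
            rw [map_one]
            exact conj_eq_one_iff.1 hc.symm))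
          rw [← hc, S.rt_smul]
          rcases h3 with h3 | ⟨a', u, a1, a2, a3, h3⟩
          · exact ⟨[], red_nil _, Or.inl ⟨k, hk, by simpa, by rw [h3, wd_nil, one_mul]⟩⟩
          · rw [h3]
            exact a3.cons hk a1 a2
        · have := S.other_old (hy.smul S.e) (σ := (S.e * S.φ a * S.e⁻¹)⁻¹)
            (fun hh => hσ (by simpa only [inv_inv] using inv_mem hh))
            (inv_smul_eq_iff.2 fix.symm) h2
          rw [inv_inv] at this
          rw [this]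
          exact pp_h (by omega)
      refine Or.inl ?_
      rcases eq_or_lt_of_le (show 1 ≤ i by omega) with rfl | h5
      · rwa [zpow_one]
      · have := S.rt_up (hy'.smul S.e) (hP.ne_t hL hne (by omega)) (show 0 < i - 1 by omega)
        rw [← mul_smul, ← zpow_add_one, sub_add_cancel] at this
        rw [this]
        exact pp_h (by omega)

/-- A step of type `e` raises the order of local freeness by one. -/
theorem lf_step {b : G} {N : ℕ} (hL : LF S.t b N) (hne : ∀ s : G, s • S.t ≠ S.h)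
    (hB : ∀ c : G, c • S.h = S.h → ∃ k : ℤ, c = b ^ k)
    (hst : ∀ a : G', a • S.ι S.t = S.ι S.t → a ∈ S.φ.range) : LF (S.ι S.t) S.e (N + 1) := by
  have key : ∀ (l : List (ℤ × G')) (j : ℤ), l.length < N + 1 → j ≠ 0 → Red (S.ι S.t) l →
      S.LI b (l.length + 1) ((wd S.e l * S.e ^ j) • S.ι S.t) := by
    intro l j hl hj hr
    induction l with
    | nil =>
      rw [wd_nil, one_mul]
      rcases lt_or_gt_of_ne hj with h1 | h1
      · exact S.li_down (S.old_ι _) (by rw [S.rt_ι]; exact S.th) (Or.inl (S.rt_ι _)) h1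
      · refine Or.inl ?_
        rw [S.rt_zpow, if_pos (by omega)]
        exact pp_h (by omega)
    | cons p l ih =>
      obtain ⟨⟨p1, p2, p3⟩, hr'⟩ := red_cons.1 hr
      rw [List.length_cons] at hl ⊢
      obtain ⟨a, ha⟩ := hst _ p3
      rw [wd_cons, mul_assoc, mul_smul, mul_smul, ← ha]
      exact S.li_step hL hne hB (by omega) (by omega) (S.old_smul_ι _ _) (ih (by omega) hr')
        (fun hh => p2 (by rw [← ha, hh, map_one])) (S.ι_inj (by rw [S.ι_smul, ha, p3])) p1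
  intro l j hl hj hr hh
  have := key l j hl hj hr
  rw [hh] at this
  rcases this with h1 | ⟨h1, -⟩
  · exact h1.ne_t hL hne (by omega) (S.rt_ι _)
  · exact h1 (by rw [S.e_t, S.rt_ι])

end Gate

end Pool.Agent.Lib.MP_429c3d_al.Ng
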