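import Pool.Agent.Lib.MP_429c3d_al.NgX
import Pool.Agent.Lib.MP_429c3d_al.NgLaw
import Pool.Agent.Lib.MP_429c3d_al.HypFree

set_option autoImplicit false

/-! Subgroups inherit the invariants; level zero. -/

namespace Pool.Agent.Lib.MP_429c3d_al.Ng

open Hyp

/-- The invariants pass to countable subgroups. -/
theorem lev_sub {G X : Type} [Group G] [MulAction G X] {d : X → X → ℕ} {k A S2 k0 m : ℕ}
    (xl : XL G d k A) (free : Free G X) (qq : QQ G) (p1 : P1 G)
    (gt : ∀ y c : G, IsConj y c → ¬ Commute y c → Law m y c ∨ Esc d k0 S2 y c) (H : Subgroup G)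
    (hc : Countable H) : Lev H d k A S2 k0 m where
  xl :=
    { gr := xl.gr
      hyp := xl.hyp
      iso := fun g x y => xl.iso g x y
      ne := xl.ne
      tf := fun g n hn h => Subtype.ext (xl.tf g n hn (congrArg Subtype.val h))
      csa := fun a g ha h => Subtype.ext
        (xl.csa a g (fun e => ha (Subtype.ext e)) (congrArg Subtype.val h))
      ct := fun a b c hb h h' => Subtype.ext
        (xl.ct a b c (fun e => hb (Subtype.ext e)) (congrArg Subtype.val h)
          (congrArg Subtype.val h'))
      ai := fun a b x x' h => xl.ai a b x x' fun e => h (Subtype.ext e)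
      rc := fun a y x x' ha h => xl.rc a y x x' (fun e => ha (Subtype.ext e))
        (congrArg Subtype.val h) }
  cnt := hc
  free := fun g x h => Subtype.ext (free g x h)
  qq := fun y s t z hy h e => Subtype.ext
    (qq y s t z (fun e => hy (Subtype.ext e)) (congrArg Subtype.val h) (congrArg Subtype.val e))
  p1 := fun y a f hy h e => Subtype.ext
    (p1 y a f (fun e => hy (Subtype.ext e)) (congrArg Subtype.val h) (congrArg Subtype.val e))
  gt := fun y c h h' => by
    rcases gt y c (H.subtype.map_isConj h) (fun e => h' (Subtype.ext e)) with e | ⟨j, hj, e⟩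
    · exact Or.inl (law_of_map H.subtype H.subtype_injective e)
    · refine Or.inr ⟨j, hj, fun x => ?_⟩
      have e1 : ((cs y c j : H) : G) = cs (y : G) (c : G) j := map_cs H.subtype y c j
      have e2 := e x
      rw [← e1] at e2
      exact e2

section free

open FreeGroup

variable {E : Type} [DecidableEq E]

/-- The endomorphism that raises the generators to the power `n`. -/
private def lev0_pw (n : ℕ) : FreeGroup E →* FreeGroup E := FreeGroup.lift fun e => of e ^ n

omit [DecidableEq E] in
private theorem lev0_mk (n : ℕ) (L : List (E × Bool)) :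
    lev0_pw n (mk L) = mk (L.flatMap (List.replicate n)) := by
  induction L with
  | nil => exact _root_.map_one _
  | cons a L ih =>
    rw [List.flatMap_cons, ← mul_mk, ← ih, ← List.singleton_append, ← mul_mk,
      _root_.map_mul]
    congr 1
    have e : (mk [a] : FreeGroup E) ^ n = mk (List.replicate n a) := by
      rw [pow_mk, List.flatten_replicate_singleton]
    rw [← e]
    obtain ⟨x, b⟩ := a
    cases b
    · have e1 : (mk [(x, false)] : FreeGroup E) = (of x)⁻¹ := rfl
      rw [e1, _root_.map_inv, lev0_pw, lift_apply_of, inv_pow]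
    · have e1 : (mk [(x, true)] : FreeGroup E) = of x := rfl
      rw [e1, lev0_pw, lift_apply_of]

omit [DecidableEq E] in
private theorem lev0_rep (n : ℕ) (a : E × Bool) {L : List (E × Bool)} (h : IsReduced (a :: L)) :
    IsReduced (a :: (List.replicate n a ++ L)) := by
  induction n with
  | zero => exact h
  | succ n ih =>
    rw [List.replicate_succ, List.cons_append, isReduced_cons_cons]
    exact ⟨fun _ => rfl, ih⟩

omit [DecidableEq E] in
private theorem lev0_red (n : ℕ) {L : List (E × Bool)} (h : IsReduced L) :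
    IsReduced (L.flatMap (List.replicate (n + 1))) := by
  induction L with
  | nil => exact IsReduced.nil
  | cons a L ih =>
    rw [List.flatMap_cons, List.replicate_succ, List.cons_append]
    refine lev0_rep n a ?_
    rcases L with _ | ⟨b, L⟩
    · exact IsReduced.singleton
    · rw [isReduced_cons_cons] at h
      have := ih h.2
      rw [List.flatMap_cons, List.replicate_succ, List.cons_append] at this ⊢
      exact isReduced_cons_cons.2 ⟨h.1, this⟩

private theorem lev0_norm (n : ℕ) (w : FreeGroup E) :
    (lev0_pw (n + 1) w).norm = (n + 1) * w.norm := by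
  conv_lhs => rw [← mk_toWord (x := w), lev0_mk, norm_mk_red (lev0_red n isReduced_toWord)]
  rw [norm_eq_length]
  generalize w.toWord = L
  induction L with
  | nil => rfl
  | cons a L ih =>
    rw [List.flatMap_cons, List.length_append, ih, List.length_replicate, List.length_cons]
    ring

private theorem lev0_pow {w : FreeGroup E} (hw : w ≠ 1) (n : ℕ) : n + 1 ≤ (w ^ (n + 1)).norm := by
  have h1 : reduceCyclically w.toWord ≠ [] := fun e => by
    have h2 := congrArg mk (reduceCyclically.conj_conjugator_reduceCyclically w.toWord)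
    rw [e, mk_toWord, List.append_nil, ← mul_mk, ← inv_mk, mul_inv_cancel] at h2
    exact hw h2.symm
  have h3 := List.length_pos_iff.2 h1
  rw [norm_eq_length, toWord_pow, reduceCyclically.reduce_flatten_replicate_succ isReduced_toWord]
  simp only [List.length_append, List.length_flatten, List.map_replicate, List.sum_replicate,
    smul_eq_mul]
  have := Nat.mul_le_mul_left (n + 1) h3
  omega

private theorem lev0_norm_pow (g : FreeGroup E) (n : ℕ) : (g ^ n).norm ≤ n * g.norm := by
  induction n with
  | zero => simp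
  | succ n ih =>
    have := norm_mul_le (g ^ n) g
    rw [pow_succ, Nat.succ_mul]
    omega

private theorem lev0_move (n : ℕ) {w : FreeGroup E} (hw : w ≠ 1) (x : FreeGroup E) :
    n + 1 ≤ (x⁻¹ * (lev0_pw (n + 1) w * x)).norm := by
  by_contra h
  have h1 : (x⁻¹ * (lev0_pw (n + 1) w * x)).norm ≤ n := by omega
  have h2 := lev0_norm_pow (x⁻¹ * (lev0_pw (n + 1) w * x)) (2 * x.norm + 1)
  have h3 : lev0_pw (n + 1) (w ^ (2 * x.norm + 1)) =
      x * (x⁻¹ * (lev0_pw (n + 1) w * x)) ^ (2 * x.norm + 1) * x⁻¹ := by
    rw [← conj_pow, map_pow]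
    congr 1
    group
  have h4 := lev0_norm n (w ^ (2 * x.norm + 1))
  have h5 := Nat.mul_le_mul_left (n + 1) (lev0_pow hw (2 * x.norm))
  have h6 := norm_mul_le (x * (x⁻¹ * (lev0_pw (n + 1) w * x)) ^ (2 * x.norm + 1)) x⁻¹
  have h7 := norm_mul_le x ((x⁻¹ * (lev0_pw (n + 1) w * x)) ^ (2 * x.norm + 1))
  have h8 := Nat.mul_le_mul_left (2 * x.norm + 1) h1
  rw [← h3, norm_inv_eq] at h6
  have h9 : (n + 1) * (2 * x.norm + 1) = (2 * x.norm + 1) * n + (2 * x.norm + 1) := by ring
  omega

private theorem lev0_gr : IsGr fun x y : FreeGroup E => (x⁻¹ * y).norm := by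
  have m : IsMet fun x y : FreeGroup E => (x⁻¹ * y).norm :=
    ⟨fun x => by simp, norm_symm, norm_tri⟩
  refine ⟨m, fun x y h => inv_mul_eq_one.1 (norm_eq_zero.1 h), isGeo_of_step m fun x y n h => ?_⟩
  rw [norm_eq_length] at h
  obtain ⟨a, L, e⟩ := List.exists_cons_of_length_eq_add_one h
  have e1 : x⁻¹ * y = mk [a] * mk L := by rw [mul_mk, List.singleton_append, ← e, mk_toWord]
  refine ⟨x * mk [a], ?_, ?_⟩
  · rw [inv_mul_cancel_left]
    exact norm_mk_le
  · rw [mul_inv_rev, mul_assoc, e1, inv_mul_cancel_left]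
    have h1 := norm_mk_le (L₁ := L)
    rw [e, List.length_cons] at h
    omega

end free

/-- Level zero. Proof: let `F = FreeGroup Bool` act on itself with the word metric
`d x y = (x⁻¹ * y).norm` (`norm_hyp4`, `isGeo_of_step` in `HypFree`), and let `G` be the range of
the endomorphism that raises both generators to the power `Λ`. Every `g ≠ 1` in `G` moves every
point by at least `Λ` (conjugate to the image of a cyclically reduced word; or: `G` is contained in
the subgroup of `F` that acts on the tree with `Λ`-subdivided edges). Apply `gen_xl` with the empty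
family and `P = 1` to `G` (`AI` is void), restrict the constant (`AI`, `RC` are void because
`Λ > b1 k`), get `P1`, `QQ` from `short_red`, and `Big` at once. -/
theorem lev_zero (k A S2 : ℕ) : ∃ Λ : ℕ, ∀ k0 m : ℕ, ∃ (G X : Type) (_ : Group G)
    (_ : MulAction G X) (d : X → X → ℕ) (a b : G) (x : X), Lev G d k A S2 k0 m ∧ ¬ Commute a b ∧
      d x (a • x) ≤ Λ ∧ d x (b • x) ≤ Λ := by
  obtain ⟨A', -, hA'⟩ := gen_xl k 0 1 0
  obtain ⟨S, hS⟩ := short_red k A
  obtain ⟨n, n1, n2, n3⟩ : ∃ n, 2 * b1 k ≤ n ∧ S ≤ n ∧ S2 ≤ n :=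
    ⟨2 * b1 k + S + S2, by omega, by omega, by omega⟩
  refine ⟨n + 1, fun k0 m => ?_⟩
  let φ : FreeGroup Bool →* FreeGroup Bool := lev0_pw (n + 1)
  let d : FreeGroup Bool → FreeGroup Bool → ℕ := fun x y => (x⁻¹ * y).norm
  have mv : ∀ g : φ.range, g ≠ 1 → ∀ x, n + 1 ≤ d x (g • x) := by
    rintro ⟨_, w, rfl⟩ hg x
    exact lev0_move n (fun e => hg (Subtype.ext (by rw [e]; exact map_one φ))) x
  have iso : Isom φ.range d := fun g x y => by
    show (((g : FreeGroup Bool) * x)⁻¹ * ((g : FreeGroup Bool) * y)).norm = (x⁻¹ * y).norm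
    rw [mul_inv_rev, mul_assoc, inv_mul_cancel_left]
  have ai : ∀ B, AI φ.range d (b1 k) B := fun B a b x x' h h1 _ _ _ => by
    have := mv a (fun e => h (e ▸ Commute.one_left b)) x
    omega
  let _ : MulAction φ.range Empty :=
    { smul := fun _ ω => ω, one_smul := fun _ => rfl, mul_smul := fun _ _ _ => rfl }
  have xl' : XL φ.range d k A' := hA' φ.range (FreeGroup Bool) Empty d (fun _ _ => False) lev0_gr
    (norm_hyp4.mono (Nat.zero_le k)) iso ⟨1⟩
    ⟨fun _ ω => ω.elim, fun ω => ω.elim, fun _ ω => ω.elim, fun _ _ ω => ω.elim,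
      fun _ ω => ω.elim, fun _ ω => ω.elim, fun _ ω => ω.elim, fun a _ ha x => by
        have := mv a ha x
        rw [pow_one]
        omega⟩ (ai 0)
  have xl : XL φ.range d k A :=
    { xl' with
      ai := ai A
      rc := fun a y x x' ha _ h => by
        have := mv a ha x
        omega }
  obtain ⟨s1, s2⟩ := hS φ.range (FreeGroup Bool) d xl
  have p1 : P1 φ.range := fun y a f hy h e => by
    rcases s1 y a f hy h e with h1 | ⟨x, h1, -⟩
    · exact h1
    · have := mv y hy x
      omega
  have qq : QQ φ.range := fun y s t z hy h e => by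
    rcases s2 p1 y s t z hy h e with h1 | ⟨x, h1, -⟩
    · exact h1
    · have := mv y hy x
      omega
  have hd : ∀ e : Bool, d 1 (φ.rangeRestrict (FreeGroup.of e) • (1 : FreeGroup Bool)) ≤ n + 1 :=
    fun e => by
      show ((1 : FreeGroup Bool)⁻¹ * (φ (FreeGroup.of e) * 1)).norm ≤ n + 1
      rw [inv_one, one_mul, mul_one, lev0_norm, FreeGroup.norm_of, mul_one]
  refine ⟨φ.range, FreeGroup Bool, inferInstance, inferInstance, d,
    φ.rangeRestrict (FreeGroup.of true), φ.rangeRestrict (FreeGroup.of false), 1,
    ⟨xl, inferInstance, fun g x h => ?_, qq, p1, fun y c _ h => Or.inr ⟨0, Nat.zero_le _,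
      fun x => Or.inl ?_⟩⟩, fun h => ?_, hd true, hd false⟩
  · by_contra hg
    have := mv g hg x
    rw [h, xl.gr.met.self] at this
    omega
  · have := mv y (fun e => h (e ▸ Commute.one_left c)) x
    omega
  · have h1 : φ (FreeGroup.of true * FreeGroup.of false * (FreeGroup.of false *
        FreeGroup.of true)⁻¹) = 1 := by
      rw [map_mul, map_inv, mul_inv_eq_one, map_mul, map_mul]
      exact congrArg Subtype.val h
    have h2 := lev0_norm n (FreeGroup.of true * FreeGroup.of false * (FreeGroup.of false *
        FreeGroup.of true)⁻¹ : FreeGroup Bool)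
    have h3 : (FreeGroup.of true * FreeGroup.of false * (FreeGroup.of false *
        FreeGroup.of true)⁻¹ : FreeGroup Bool).norm = 4 := by decide
    rw [h3, show lev0_pw (n + 1) = φ from rfl, h1, FreeGroup.norm_one] at h2
    omega

end Pool.Agent.Lib.MP_429c3d_al.Ng
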