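import Pool.Agent.Lib.MP_429c3d_al.NgLaw

set_option autoImplicit false

/-! The limit of the levels. -/

namespace Pool.Agent.Lib.MP_429c3d_al.Ng

open Hyp

/-- The passage from one level to the next one. -/
structure Nx (G G' : Type) {X X' : Type} [Group G] [Group G'] [MulAction G X] [MulAction G' X']
    (d : X → X → ℕ) (d' : X' → X' → ℕ) (u m : ℕ) where
  θ : G →* G'
  Φ : X → X'
  surj : Function.Surjective θ
  smul : ∀ (g : G) x, Φ (g • x) = θ g • Φ x
  le : ∀ x x', d x x' ≤ u → d' (Φ x) (Φ x') ≤ 1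
  ne : ∀ (g : G) x, g ≠ 1 → d x (g • x) ≤ 4 * u → θ g ≠ 1
  law : ∀ y c : G, IsConj y c → ¬ Commute y c → ¬ Big d 3 y c → Law m (θ y) (θ c)

/-- A level with its data. -/
structure LimLv (k A S2 k0 m u : ℕ) where
  G : Type
  X : Type
  [grp : Group G]
  [act : MulAction G X]
  d : X → X → ℕ
  lev : Lev G d k A S2 k0 m
  sh : ∃ (a : G) (x : X), a ≠ 1 ∧ d x (a • x) ≤ u

attribute [instance] LimLv.grp LimLv.act

theorem lim_half {X X' : Type} {d : X → X → ℕ} {d' : X' → X' → ℕ} (hd : IsGr d) (hd' : IsMet d')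
    (Φ : X → X') {u : ℕ} (hu : 2 ≤ u) (hΦ : ∀ x x', d x x' ≤ u → d' (Φ x) (Φ x') ≤ 1) (D : ℕ) :
    ∀ x x', d x x' ≤ D → 2 * d' (Φ x) (Φ x') ≤ D + 1 := by
  induction D using Nat.strong_induction_on with
  | _ D ih =>
    intro x x' h
    by_cases h0 : d x x' = 0
    · rw [hd.sep x x' h0, hd'.self]
      omega
    by_cases h2 : d x x' ≤ 2
    · have := hΦ x x' (by omega)
      omega
    obtain ⟨w, h3, h4⟩ := hd.geo.mid hd.met x x' (s := 2) (by omega)
    have h5 := hΦ x w (by omega)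
    have h6 := ih (D - 2) (by omega) w x' (by omega)
    have h7 := hd'.tri (Φ x) (Φ w) (Φ x')
    omega

theorem lim_dis_mul {G X : Type} [Group G] [MulAction G X] {d : X → X → ℕ} (hm : IsMet d)
    (hi : Isom G d) (g h : G) (x : X) : d x ((g * h) • x) ≤ d x (g • x) + d x (h • x) := by
  have h1 := hm.tri x (g • x) ((g * h) • x)
  rw [mul_smul, hi g x (h • x)] at h1
  rwa [mul_smul]

theorem lim_dis_inv {G X : Type} [Group G] [MulAction G X] {d : X → X → ℕ} (hm : IsMet d)
    (hi : Isom G d) (g : G) (x : X) : d x (g⁻¹ • x) = d x (g • x) := by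
  rw [← hi g x (g⁻¹ • x), smul_inv_smul, hm.symm]

theorem lim_main {k A S2 k0 m u : ℕ} (hu : 2 ≤ u) (G X : ℕ → Type) [∀ n, Group (G n)]
    [∀ n, MulAction (G n) (X n)] (d : ∀ n, X n → X n → ℕ)
    (hL : ∀ n, Lev (G n) (d n) k A S2 k0 m)
    (N : ∀ n, Nx (G n) (G (n + 1)) (d n) (d (n + 1)) u m) (a b : G 0) (x : X 0)
    (hab : ¬ Commute a b) (ha : d 0 x (a • x) ≤ u) (hb : d 0 x (b • x) ≤ u) :
    ∃ (H : Type) (_ : Group H), (∃ a b : H, ¬ Commute a b) ∧
      ∀ y c : H, IsConj y c → Law m y c := by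
  obtain ⟨f, f0, fs⟩ : ∃ f : ∀ n, G 0 →* G n, (∀ g, f 0 g = g) ∧
      ∀ n g, f (n + 1) g = (N n).θ (f n g) :=
    ⟨fun n => Nat.rec (motive := fun n => G 0 →* G n) (MonoidHom.id _)
      (fun n f => (N n).θ.comp f) n, fun _ => rfl, fun _ _ => rfl⟩
  obtain ⟨p, p0, ps⟩ : ∃ p : ∀ n, X n, p 0 = x ∧ ∀ n, p (n + 1) = (N n).Φ (p n) :=
    ⟨fun n => Nat.rec (motive := fun n => X n) x (fun n y => (N n).Φ y) n, rfl, fun _ => rfl⟩
  have hdis : ∀ (g : G 0) (n : ℕ), d n (p n) (f n g • p n) ≤ 1 ∨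
      d n (p n) (f n g • p n) + n ≤ d 0 x (g • x) := by
    intro g n
    induction n with
    | zero => rw [f0, p0]; omega
    | succ n ih =>
      have h1 := lim_half (hL n).xl.gr (hL (n + 1)).xl.gr.met (N n).Φ hu (N n).le _ (p n)
        (f n g • p n) le_rfl
      rw [(N n).smul, ← fs, ← ps] at h1
      omega
  have hone : ∀ (g : G 0) (n j : ℕ), f n g = 1 → f (n + j) g = 1 := by
    intro g n j h
    induction j with
    | zero => exact h
    | succ j ih => rw [← add_assoc, fs, ih, map_one]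
  let K : Subgroup (G 0) :=
    { carrier := {g | ∃ n, f n g = 1}
      mul_mem' := by
        rintro g h ⟨n, hg⟩ ⟨j, hh⟩
        refine ⟨n + j, ?_⟩
        have h1 := hone h j n hh
        rw [add_comm j n] at h1
        rw [map_mul, hone g n j hg, h1, one_mul]
      one_mem' := ⟨0, map_one _⟩
      inv_mem' := by
        rintro g ⟨n, hg⟩
        exact ⟨n, by rw [map_inv, hg, inv_one]⟩ }
  have hK : K.Normal := ⟨by
    rintro g ⟨n, hg⟩ s
    exact ⟨n, by rw [map_mul, map_mul, hg, mul_one, ← map_mul, mul_inv_cancel, map_one]⟩⟩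
  have hne : ∀ n, f n (a * b * a⁻¹ * b⁻¹) ≠ 1 := by
    intro n
    induction n with
    | zero =>
      rw [f0]
      intro h
      apply hab
      rw [mul_inv_eq_one, mul_inv_eq_iff_eq_mul] at h
      exact h
    | succ n ih =>
      rw [fs]
      refine (N n).ne _ (p n) ih ?_
      have hm := (hL n).xl.gr.met
      have hi := (hL n).xl.iso
      have h1 := hdis a n
      have h2 := hdis b n
      have h3 := lim_dis_mul hm hi (f n a * f n b * (f n a)⁻¹) (f n b)⁻¹ (p n)
      have h4 := lim_dis_mul hm hi (f n a * f n b) (f n a)⁻¹ (p n)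
      have h5 := lim_dis_mul hm hi (f n a) (f n b) (p n)
      have h6 := lim_dis_inv hm hi (f n a) (p n)
      have h7 := lim_dis_inv hm hi (f n b) (p n)
      rw [map_mul, map_mul, map_mul, map_inv, map_inv]
      omega
  refine ⟨G 0 ⧸ K, inferInstance, ⟨QuotientGroup.mk' K a, QuotientGroup.mk' K b, fun h => ?_⟩, ?_⟩
  · have h1 : QuotientGroup.mk' K (a * b * a⁻¹ * b⁻¹) = 1 := by
      rw [map_mul, map_mul, map_mul, map_inv, map_inv, h.eq]
      group
    obtain ⟨n, hn⟩ := (QuotientGroup.eq_one_iff _).1 h1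
    exact hne n hn
  · intro y c hc
    obtain ⟨s, rfl⟩ := isConj_iff.1 hc
    obtain ⟨y, rfl⟩ := QuotientGroup.mk'_surjective K y
    obtain ⟨s, rfl⟩ := QuotientGroup.mk'_surjective K s
    have hlaw : ∃ n, Law m (f n y) (f n (s * y * s⁻¹)) := by
      obtain ⟨n, hn1, hn2⟩ : ∃ n, d 0 x (y • x) ≤ n ∧ d 0 x ((s * y * s⁻¹) • x) ≤ n :=
        ⟨_, le_max_left _ _, le_max_right _ _⟩
      have hcj : IsConj (f n y) (f n (s * y * s⁻¹)) :=
        isConj_iff.2 ⟨f n s, by rw [map_mul, map_mul, map_inv]⟩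
      by_cases hcm : Commute (f n y) (f n (s * y * s⁻¹))
      · refine ⟨n, ?_⟩
        rw [(hL n).xl.csa.eq_of_conj hcj hcm]
        exact law_self _
      · refine ⟨n + 1, ?_⟩
        rw [fs, fs]
        refine (N n).law _ _ hcj hcm fun hB => ?_
        have h1 := hB (p n)
        have h2 := hdis y n
        have h3 := hdis (s * y * s⁻¹) n
        omega
    obtain ⟨n, hn⟩ := hlaw
    rw [← map_inv, ← map_mul, ← map_mul]
    unfold Law at hn ⊢
    rw [← map_cs, ← map_pow, ← map_inv, ← map_mul, ← map_mul] at hn ⊢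
    refine (QuotientGroup.eq).2 ⟨n, ?_⟩
    rw [map_mul, map_inv, hn, inv_mul_cancel]

/-- Proof: choose a sequence of levels (a structure in `Type 1` that bundles `G, X, d` and `Lev`,
iterate a choice function), let `f n : G 0 →* G n` be the composite maps and `N` the union of their
kernels. Along the sequence `d' (Φ x) (Φ x') ≤ d x x' / u + 1` (cut a geodesic into pieces), so
`a, b` stay `u`-short at the image of `x` and `a * b * a⁻¹ * b⁻¹` never dies; for `y, s` in `G 0`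
the elements `y` and `c = s * y * s⁻¹` are eventually `2`-short at the image of `x`; then they
commute (so `c = y` by `CSA.eq_of_conj`, `law_self`) or the law holds at the next level. -/
theorem limit_group (k A S2 k0 m u : ℕ) (hu : 2 ≤ u)
    (step : ∀ (G X : Type) [Group G] [MulAction G X] (d : X → X → ℕ), Lev G d k A S2 k0 m →
      (∃ (a : G) (x : X), a ≠ 1 ∧ d x (a • x) ≤ u) → ∃ (G' X' : Type) (_ : Group G') (_ : MulAction G' X') (d' : X' → X' → ℕ),
        Lev G' d' k A S2 k0 m ∧ Nonempty (Nx G G' d d' u m))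
    (G X : Type) [Group G] [MulAction G X] (d : X → X → ℕ) (a b : G) (x : X)
    (h : Lev G d k A S2 k0 m) (hab : ¬ Commute a b) (ha : d x (a • x) ≤ u) (hb : d x (b • x) ≤ u) :
    ∃ (H : Type) (_ : Group H), (∃ a b : H, ¬ Commute a b) ∧
      ∀ y c : H, IsConj y c → Law m y c := by
  have step' : ∀ L : LimLv k A S2 k0 m u, ∃ L' : LimLv k A S2 k0 m u,
      Nonempty (Nx L.G L'.G L.d L'.d u m) := by
    intro L
    obtain ⟨G', X', i1, i2, d', h1, ⟨N⟩⟩ := step L.G L.X L.d L.lev L.sh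
    obtain ⟨g, z, e1, e2⟩ := L.sh
    refine ⟨@LimLv.mk k A S2 k0 m u G' X' i1 i2 d' h1 ⟨N.θ g, N.Φ z, N.ne g z e1 (by omega), ?_⟩,
      ⟨N⟩⟩
    rw [← N.smul]
    exact (N.le _ _ e2).trans (by omega)
  choose nxt hn using step'
  let L : ℕ → LimLv k A S2 k0 m u := fun n =>
    Nat.rec (LimLv.mk G X d h ⟨a, x, fun e => hab (e ▸ Commute.one_left b), ha⟩) (fun _ L => nxt L) n
  exact @lim_main k A S2 k0 m u hu (fun n => (L n).G) (fun n => (L n).X) (fun n => (L n).grp)
    (fun n => (L n).act) (fun n => (L n).d) (fun n => (L n).lev) (fun n => (hn (L n)).some)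
    a b x hab ha hb

end Pool.Agent.Lib.MP_429c3d_al.Ng
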