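import Pool.Agent.Lib.MP_429c3d_al.NgInv

set_option autoImplicit false
set_option linter.unusedSectionVars false

/-! Both backward arms of one slot. -/

namespace Pool.Agent.Lib.MP_429c3d_al.Ng

open Hyp

variable {AA N0 K I : Type} [CommGroup AA] {S₀ : St AA (Nm N0 (I × Bool)) K} {n : ℕ}
  {B : Base S₀ n} {π : Prm}

theorem dnm_same {T : Type} (τ : T) (b b' : Bool) (h h' : ℤ) :
    dnm (.inr (τ, b, h) : Nm N0 T) (.inr (τ, b', h')) = (h - h').natAbs := if_pos rfl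

theorem dnm_le {T : Type} (x y : Nm N0 T) : dnm x y ≤ x.ht.natAbs + y.ht.natAbs := by
  unfold dnm
  split_ifs <;> omega

/-- The steps of type `e` that complete an arm. -/
theorem Inv.chain [DecidableEq I] (H₀ : S₀.OK) (τ : I × Bool) {r₀ : ℕ} (k : ℕ) :
    ∀ {S : St AA (Nm N0 (I × Bool)) K} {E : Emb (Fin' n) S₀ S} {lo : I × Bool → ℕ} {r : ℕ}
      {C ε : S.G} {p : S.Z} {P : ℕ → S.Z}, r + k = n → 1 ≤ r →
      Inv B π S E (Function.update lo τ r) →
      PArm S (E.ι (B.oo τ)) (E.φ (yy B.y τ)) C p (B.η τ) τ r₀ r ε P →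
      S.Nb (P r) ε (E.ι (B.oo τ)) → Top S.G (P r) → (∀ g : S.G, g • E.ι (B.oo τ) ≠ P r) →
      Esc S.d (π.Kk - 1) π.S' ε⁻¹ (E.φ (yy B.y τ))⁻¹ → LT E.φ (B.L0 π.m) (E.φ (yy B.y τ)) C →
      ∃ (T : St AA (Nm N0 (I × Bool)) K) (E' : Emb (Fin' n) S T) (ε' : T.G) (P' : ℕ → T.Z),
        Inv B π T (E.trans E') (Function.update lo τ n) ∧
        PArm T (E'.ι (E.ι (B.oo τ))) (E'.φ (E.φ (yy B.y τ))) (E'.φ C) (E'.ι p) (B.η τ) τ r₀ n
          ε' P' ∧ T.Nb (P' n) ε' (E'.ι (E.ι (B.oo τ))) ∧ P' r = E'.ι (P r) ∧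
        cs (E'.φ (E.φ (yy B.y τ))) ε' k = E'.φ ε := by
  induction k with
  | zero =>
    intro S E lo r C ε p P hk _ H A nb _ _ _ _
    obtain rfl : r = n := hk
    exact ⟨S, Emb.refl _ _, ε, P, H, A, nb, rfl, rfl⟩
  | succ k ih =>
    intro S E lo r C ε p P hk h1 H A nb tp ne es lt
    have ok := H.ok
    have f1 := A.fl r A.le le_rfl
    have a1 := A.ap r A.le le_rfl
    have f2 := ok.fl_symm f1 a1
    have x1 : ε • P r = P r := A.fix r 0 A.le rfl
    have l1 : S.lab (P r) ε = B.η τ := A.lab r 0 A.le rfl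
    have n1 := A.nmE r A.le le_rfl
    have n2 := A.nmF r A.le le_rfl
    obtain ⟨T, X, E', eφ, eι, et, eh, eη, eξ, eζ, e1, e2, H', tp', es'⟩ :=
      H.micro H₀ τ (r := r + 1) (by rw [Function.update_self]; omega) (by omega) (ξ := B.η τ)
        (ζ := 1) f1 a1 ((A.cls r A.le le_rfl).trans (H.cls_o _)) (H.η_mem τ)
        (Or.inl ⟨ne, rfl, fun _ => ⟨tp, ε, nb.stab ok f2 x1⟩, fun x hx => by
          rw [nb.nm ok f2 x1 hx, n2, Function.update_self]⟩)
        (fun f _ => ne f) (by rw [n1, dnm_same]; omega) (by rw [n2, dnm_same]; omega)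
        (fun b hb lb => by
          rw [ok.lab_eq a1 hb x1 (lb.trans l1.symm)]
          exact ⟨(LT_clo _ _).cs r (by rwa [A.top]), Or.inr es⟩)
        (by
          rw [n1]
          rintro ⟨i, ⟨-, h2, -⟩ | ⟨-, h2, h3⟩⟩
          · have := B.nm_zero (i, true)
            rw [show B.o (B.κ (i, true).1) = B.oo (i, true) from rfl, ← h2] at this
            simp [Nm.ht] at this
            omega
          · obtain rfl : τ = (i, true) := (Prod.mk.inj (Sum.inr.inj h2)).1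
            exact B.η_ne' H₀ i h3)
        (by rw [n2]; exact Base.Pd.ne (by omega))
    rw [Function.update_idem] at H'
    obtain ⟨ec, A'⟩ := X.arm_step ok H'.ok E' eφ eι A h1 nb ne et eh eη eξ eζ e1 e2
    have w1 : (if r + 1 ≤ r then E'.ι (P (r + 1)) else X.w) = X.w := if_neg (by omega)
    have o1 : (E.trans E').ι (B.oo τ) = X.ι X.t := by rw [et, ← eι]; rfl
    obtain ⟨T', E'', ε', P', H'', A'', nb'', p1, p2⟩ := ih (E := E.trans E') (r := r + 1)
      (by omega) (by omega) H' A' (by rw [w1, o1]; exact X.nb H'.ok) (by rwa [w1])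
      (fun g => by rw [w1, o1]; exact fun e => X.w_ne g _ e.symm) (by
        have := (es' (E.φ (yy B.y τ))⁻¹ (by
          rw [← map_inv, ← map_one E.φ]
          exact fun e => inv_ne_one.2 (B.yy_ne τ) (E.φ_inj e))
          (by rw [et, inv_smul_eq_iff, E.fix (B.yy_fix τ)])).2
        rwa [map_inv, ← eφ] at this) (lt.map E'.φ)
    refine ⟨T', E'.trans E'', ε', P', H'', A'', nb'', ?_, ?_⟩
    · rw [A''.succ r k A.le (by omega)]
      rw [p2, ← E''.ι_smul, o1, X.e_t, eh, ← eι]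
      rfl
    · change cs (E''.φ ((E.trans E').φ (yy B.y τ))) ε' k * E''.φ (E'.φ (E.φ (yy B.y τ))) *
        (cs (E''.φ ((E.trans E').φ (yy B.y τ))) ε' k)⁻¹ = E''.φ (E'.φ ε)
      rw [p2, ← ec, map_mul, map_mul, map_inv]

/-- A complete backward arm. -/
def Arm (B : Base S₀ n) (S : St AA (Nm N0 (I × Bool)) K) (E : Emb (Fin' n) S₀ S)
    (τ : I × Bool) : Prop :=
  ∃ (δ ε : S.G) (P : ℕ → S.Z) (r₀ : ℕ), r₀ ≤ 2 ∧ δ • E.ι (B.oo τ) = E.ι (B.oo τ) ∧
    PArm S (E.ι (B.oo τ)) (E.φ (yy B.y τ)) (δ * E.φ (cc B.y B.s τ) * δ⁻¹) (δ • E.ι (B.P τ 0))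
      (B.η τ) τ r₀ n ε P ∧ S.Nb (P n) ε (E.ι (B.oo τ))

theorem Arm.map {S T : St AA (Nm N0 (I × Bool)) K} {E : Emb (Fin' n) S₀ S} {τ : I × Bool}
    (h : Arm B S E τ) (H : S.OK) (E' : Emb (Fin' n) S T) : Arm B T (E.trans E') τ := by
  obtain ⟨δ, ε, P, r₀, h1, h2, A, nb⟩ := h
  have A' := A.map H E'
  rw [map_mul, map_mul, map_inv, E'.ι_smul] at A'
  exact ⟨E'.φ δ, E'.φ ε, _, r₀, h1, E'.fix h2, A', nb.map E'
    (H.fl_symm (A.fl n A.le le_rfl) (A.ap n A.le le_rfl)) ⟨τ, A.nmF n A.le le_rfl⟩⟩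

/-- The first arm of a slot. -/
theorem Inv.first [DecidableEq I] (H₀ : S₀.OK) (hn : 2 ≤ n) {S : St AA (Nm N0 (I × Bool)) K}
    {E : Emb (Fin' n) S₀ S} {lo : I × Bool → ℕ} (H : Inv B π S E lo) (i : I)
    (h1 : lo (i, true) = 0) :
    ∃ (T : St AA (Nm N0 (I × Bool)) K) (E' : Emb (Fin' n) S T),
      Inv B π T (E.trans E') (Function.update lo (i, true) n) ∧ Arm B T (E.trans E') (i, true) ∧
      ∃ (w : T.Z) (e s : T.G), T.Fl ((E.trans E').ι (B.oo (i, true))) w ∧ T.ap w ∧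
        T.cls w = B.κ i ∧ s • (E.trans E').ι (B.oo (i, true)) = w ∧
        T.nm ((E.trans E').ι (B.oo (i, true))) w = .inr ((i, true), true, -1) ∧
        T.nm w ((E.trans E').ι (B.oo (i, true))) = .inr ((i, true), false, -1) ∧
        e • w = w ∧ T.lab w e = B.η (i, true) ∧
        e • (E.trans E').ι (B.oo (i, true)) = (E.trans E').ι (B.P (i, true) 0) ∧
        T.df ((E.trans E').ι (B.oo (i, true))) ((E.trans E').ι (B.P (i, true) 0)) w =
          (B.η (i, true))⁻¹ ∧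
        T.df ((E.trans E').ι (B.oo (i, true))) ((E.trans E').ι (B.P (i, true) 0))
          (e⁻¹ • (E.trans E').ι (B.oo (i, true))) = B.ζ (i, true) ∧
        Esc T.d (π.Kk - 1) π.S' e ((E.trans E').φ (B.y i)) := by
  have ok := H.ok
  have P0 : B.P (i, true) 0 = B.s i • B.oo (i, true) := B.P_zero _
  have P0' : B.P (i, false) 0 = (B.s i)⁻¹ • B.oo (i, true) := B.P_zero _
  have f0 := B.fl_P (i, true) (Nat.zero_le n)
  have f0' : S₀.Fl (B.oo (i, true)) (B.P (i, false) 0) := B.fl_P (i, false) (Nat.zero_le n)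
  have a0 : S₀.ap (B.P (i, true) 0) := by rw [P0]; exact H₀.ap_smul _ _ f0.1
  have f1 := H₀.fl_symm f0 a0
  have z1 : (S₀.nm (B.oo (i, true)) (B.P (i, true) 0)).ht = 0 := B.nm_zero (i, true)
  have z2 : (S₀.nm (B.P (i, true) 0) (B.oo (i, true))).ht = 0 := by
    rw [← H₀.nm_smul (B.s i)⁻¹ _ _ f1, P0, inv_smul_smul, ← P0']
    exact B.nm_zero (i, false)
  have c1 : cc B.y B.s (i, true) • B.P (i, true) 0 = B.P (i, true) 0 := by
    rw [P0]
    change (B.s i * B.y i * (B.s i)⁻¹) • _ = _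
    rw [mul_smul, mul_smul, inv_smul_smul,
      show B.y i • B.oo (i, true) = B.oo (i, true) from B.y_fix i]
  have c2 : S₀.lab (B.P (i, true) 0) (cc B.y B.s (i, true)) = B.η (i, true) := by
    rw [P0]
    exact H₀.lab_conj (B.s i) f0.1 (B.y_fix i)
  have l0 : ∀ τ, LT E.φ (B.L0 π.m) (E.φ (yy B.y τ)) (E.φ (cc B.y B.s τ)) := fun τ =>
    LT.of _ ⟨0, Or.inr ⟨1, τ, 0, by simp, by simp⟩⟩
  obtain ⟨T, X, E', eφ, eι, et, eh, eη, eξ, eζ, e1, e2, H', tp', es'⟩ :=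
    H.micro H₀ (i, true) (r := 1) (by omega) (by omega) (ξ := B.η (i, true))
      (ζ := B.ζ (i, true)) (E.fl f0) ((E.ap_ι _).2 a0)
      (by rw [E.cls_ι, P0, H₀.cls_smul]; exact B.cls_o _) (H.η_mem _)
      (Or.inr ⟨⟨E.φ (B.s i), by rw [← E.ι_smul, P0]⟩, h1, rfl⟩)
      (H.np _ _ _ (E.fl f0) ⟨i, Or.inl ⟨h1, E.nm_ι _ _ f0, rfl⟩⟩)
      (by rw [E.nm_ι _ _ f0]; exact (dnm_le _ _).trans (by rw [z1]; simp [Nm.ht]))
      (by rw [E.nm_ι _ _ f1]; exact (dnm_le _ _).trans (by rw [z2]; simp [Nm.ht]))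
      (fun b hb lb => by
        rw [ok.lab_eq ((E.ap_ι _).2 a0) hb (E.fix c1) (lb.trans
          ((E.lab_ι _ _ a0 c1).trans c2).symm)]
        refine ⟨l0 _, Or.inl ((LT_clo _ _).of_conj (E.φ (B.s i))⁻¹ ?_)⟩
        have := l0 (i, false)
        simp only [yy, cc, sg, if_true, Bool.false_eq_true, if_false, map_mul, map_inv] at this ⊢
        convert this using 1; group)
      (by
        rw [E.nm_ι _ _ f0]
        rintro ⟨j, ⟨h2, h3, h4⟩ | ⟨-, h3, -⟩⟩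
        · obtain ⟨g, g1, g2⟩ := H₀.nm_orb _ _ _ _ f0 (B.fl_P (j, true) (Nat.zero_le n)) h3
          rw [P0, B.P_zero] at g2
          rw [← B.ineq i j g g1 g2 h4, Function.update_self] at h2
          omega
        · rw [h3] at z1
          simp [Nm.ht] at z1)
      (by
        rw [E.nm_ι _ _ f1]
        rintro ⟨j, ⟨-, h3, h4⟩ | ⟨-, h3, -⟩⟩
        · obtain ⟨g, g1, g2⟩ := H₀.nm_orb _ _ _ _ f1 (B.fl_P (j, true) (Nat.zero_le n)) h3
          rw [P0] at g1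
          rw [B.P_zero] at g2
          exact B.ineq' i j g g2 g1 (inv_eq_iff_eq_inv.1 h4)
        · rw [h3] at z2
          simp [Nm.ht] at z2)
  have ok' := H'.ok
  have yt : E.φ (yy B.y (i, true)) • X.t = X.t := by rw [et]; exact E.fix (B.yy_fix _)
  have yl : S.lab X.t (E.φ (yy B.y (i, true))) = X.η := by rw [et, eη]; exact H.lab_Y _
  have y1 : E.φ (yy B.y (i, true)) ≠ 1 := fun e => B.yy_ne _ (E.φ_inj (e.trans (map_one _).symm))
  have fh := X.fl_ι X.fl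
  have A := X.arm_start (τ := (i, true)) ok' yt yl fh (r := 1) (by omega) e1 e2 (by
    rw [ok'.df_symm (X.fl_tw ok') fh, X.df_w, eξ, eη]
    simp)
  have ec : cs (X.φ (E.φ (yy B.y (i, true)))) X.e 1 = X.φ (E.φ (cc B.y B.s (i, true))) :=
    X.conj _ _ yt (by rw [eh]; exact E.fix c1) (by rw [yl, eh, eη, E.lab_ι _ _ a0 c1, c2])
  have ne : ∀ g : T.G, g • X.ι X.t ≠ X.w := fun g e => X.w_ne g _ e.symm
  have nb := X.nb ok'
  have es1 := (es' _ y1 yt).1
  have es2 := (es' _ (inv_ne_one.2 y1) (inv_smul_eq_iff.2 yt.symm)).2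
  have ft := X.fl_te ok ok'
  have dz := X.df_e
  have eth := X.e_t
  rw [map_inv] at es2
  rw [ec, eη] at A
  rw [eζ] at dz
  rw [et, eh, ← eι] at *
  rw [← eφ] at A es1 es2
  obtain ⟨k, rfl⟩ : ∃ k, n = 1 + (k + 1) := ⟨n - 2, by omega⟩
  obtain ⟨T', E'', ε', P', H'', A'', nb'', p1, p2⟩ := Inv.chain H₀ (i, true) (k + 1)
    (E := E.trans E') rfl le_rfl H' A nb tp' ne es2 ((l0 _).map E'.φ)
  have q1 := A''.fix 1 (k + 1) le_rfl rfl
  have q2 := A''.lab 1 (k + 1) le_rfl rfl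
  rw [p2] at q1 q2
  refine ⟨T', E'.trans E'', H'', ⟨1, ε', P', 1, by omega, one_smul _ _, by
    rw [one_mul, inv_one, mul_one, one_smul]; exact A'', nb''⟩, P' 1, E''.φ X.e, _,
    A''.fl 1 le_rfl (by omega), A''.ap 1 le_rfl (by omega),
    (A''.cls 1 le_rfl (by omega)).trans (H''.cls_o _), (A''.succ 1 k le_rfl (by omega)).symm,
    A''.nmE 1 le_rfl (by omega), A''.nmF 1 le_rfl (by omega), q1, q2,
    (E''.ι_smul _ _).symm.trans (congrArg E''.ι eth),
    (A''.df 1 le_rfl (by omega)).trans (by simp), ?_, E''.esc es1⟩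
  rw [← dz, ← E''.df_ι _ _ _ fh ft, E''.ι_smul, map_inv]
  rfl

/-- Both arms of a slot. -/
theorem Inv.both [DecidableEq I] (H₀ : S₀.OK) (hn : 2 ≤ n) {S₁ : St AA (Nm N0 (I × Bool)) K}
    {E₁ : Emb (Fin' n) S₀ S₁} {lo : I × Bool → ℕ} (H₁ : Inv B π S₁ E₁ lo) (i : I)
    (h1 : lo (i, true) = 0) (h2 : lo (i, false) = 0) :
    ∃ (T : St AA (Nm N0 (I × Bool)) K) (E' : Emb (Fin' n) S₁ T),
      Inv B π T (E₁.trans E')
        (Function.update (Function.update lo (i, true) n) (i, false) n) ∧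
      ∀ b, Arm B T (E₁.trans E') (i, b) := by
  obtain ⟨S, E₂, H, arm, w, e, s, fw, aw, cw, sw, n1, n2, ew, lw, eo, dw, de, es⟩ :=
    H₁.first H₀ hn i h1
  generalize hE : E₁.trans E₂ = E at H arm fw sw n1 n2 eo dw de es
  have ok := H.ok
  have h3 : Function.update lo (i, true) n (i, false) = 0 := by
    rw [Function.update_of_ne (by simp), h2]
  have P0 : B.P (i, true) 0 = B.s i • B.oo (i, true) := B.P_zero _
  have P0' : B.P (i, false) 0 = (B.s i)⁻¹ • B.oo (i, true) := B.P_zero _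
  have f0 := E.fl (B.fl_P (i, true) (Nat.zero_le n))
  have fe : S.Fl (E.ι (B.oo (i, true))) (e⁻¹ • E.ι (B.oo (i, true))) := by
    have := ok.fl_smul e⁻¹ (ok.fl_symm f0 (by rw [← eo]; exact ok.ap_smul _ _ f0.1))
    rwa [← eo, inv_smul_smul] at this
  have ew' : e⁻¹ • w = w := inv_smul_eq_iff.2 ew.symm
  have lw' : S.lab w e⁻¹ = B.η (i, false) := by rw [ok.lab_inv aw ew, lw, B.η_false H₀]
  obtain ⟨δ, hδ⟩ : ∃ δ, δ = e⁻¹ * E.φ (B.s i) := ⟨_, rfl⟩
  have δ1 : δ • E.ι (B.oo (i, false)) = E.ι (B.oo (i, false)) := by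
    rw [hδ, mul_smul, ← E.ι_smul, inv_smul_eq_iff]
    exact (congrArg E.ι P0.symm).trans eo.symm
  have δ2 : δ • E.ι (B.P (i, false) 0) = e⁻¹ • E.ι (B.oo (i, true)) := by
    rw [hδ, mul_smul, ← E.ι_smul, P0', smul_inv_smul]
  have δ3 : e⁻¹ * E.φ (yy B.y (i, false)) * e⁻¹⁻¹ = δ * E.φ (cc B.y B.s (i, false)) * δ⁻¹ := by
    simp only [hδ, yy, cc, sg, Bool.false_eq_true, if_false, map_mul, map_inv]
    group
  have l1 : LT E.φ (B.L0 π.m) (E.φ (yy B.y (i, false))) (δ * E.φ (cc B.y B.s (i, false)) * δ⁻¹) := by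
    have := (LT_clo _ _).conj δ _ _ (LT.of (L := B.L0 π.m) E.φ
      ⟨0, Or.inr ⟨1, (i, false), 0, by simp, by simp⟩⟩ :
        LT E.φ (B.L0 π.m) (E.φ (yy B.y (i, false))) (E.φ (cc B.y B.s (i, false))))
    rwa [(ok.comm δ1 (E.fix (B.yy_fix _))).eq, mul_inv_cancel_right] at this
  obtain ⟨T, X, E', eφ, eι, et, eh, eη, eξ, eζ, e1, e2, H', tp', es'⟩ :=
    H.micro H₀ (i, false) (r := 2) (by omega) hn (h := w)
      (ξ := B.η (i, false) ^ 3 * (B.ζ (i, true))⁻¹) (ζ := B.ζ (i, false)) fw aw cw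
      (by
        refine (ok.mem_lbs fw.1 _).1 (mul_mem (pow_mem (H.η_mem (i, false)) 3) (inv_mem ?_))
        have := H.dfm _ _ _ f0 fe
        rwa [de, show S.cls (E.ι (B.oo (i, true))) = B.κ i from H.cls_o _] at this)
      (Or.inr ⟨⟨s, sw⟩, h3, rfl⟩) (H.np _ _ _ fw ⟨i, Or.inr ⟨h3, n1, rfl⟩⟩)
      ((dnm_le _ _).trans (by rw [show B.oo (i, false) = B.oo (i, true) from rfl, n1]; simp [Nm.ht]))
      ((dnm_le _ _).trans (by rw [show B.oo (i, false) = B.oo (i, true) from rfl, n2]; simp [Nm.ht]))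
      (fun b hb lb => by
        rw [ok.lab_eq aw hb ew' (lb.trans lw'.symm)]
        refine ⟨(LT_clo _ _).pre _ _ (by rwa [δ3]), Or.inr ?_⟩
        rw [inv_inv, ← map_inv]
        simpa only [yy, Bool.false_eq_true, if_false, inv_inv] using es)
      (by
        rw [show B.oo (i, false) = B.oo (i, true) from rfl, n1]
        rintro ⟨j, ⟨-, h4, -⟩ | ⟨h4, h5, -⟩⟩
        · have := B.nm_zero (j, true)
          rw [show B.o (B.κ (j, true).1) = B.oo (j, true) from rfl, ← h4] at this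
          simp [Nm.ht] at this
        · obtain rfl : i = j := by simpa using h5
          rw [Function.update_self] at h4
          omega)
      (by
        rw [show B.oo (i, false) = B.oo (i, true) from rfl, n2]
        exact Base.Pd.ne (r := 1) (by omega))
  have ok' := H'.ok
  have yt : E.φ (yy B.y (i, false)) • X.t = X.t := by rw [et]; exact E.fix (B.yy_fix _)
  have yl : S.lab X.t (E.φ (yy B.y (i, false))) = X.η := by rw [et, eη]; exact H.lab_Y _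
  have y1 : E.φ (yy B.y (i, false)) ≠ 1 := fun e => B.yy_ne _ (E.φ_inj (e.trans (map_one _).symm))
  have et' : X.t = E.ι (B.oo (i, true)) := et
  rw [← et'] at fe f0 fw de dw
  have A := X.arm_start (τ := (i, false)) ok' yt yl (X.fl_ι fe) (r := 2) le_rfl e1 e2 (by
    rw [← ok'.df_mul _ _ _ _ (X.fl_ι fe) (X.fl_ι X.fl) (X.fl_tw ok'),
      ok'.df_symm (X.fl_tw ok') (X.fl_ι X.fl), X.df_w, X.df_ι _ _ _ fe X.fl, eh,
      ← ok.df_mul _ _ _ _ fe f0 fw, ok.df_symm f0 fe, de, dw, eξ, eη, ← B.η_false H₀]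
    rw [mul_inv_rev, inv_inv, mul_assoc, mul_left_comm (B.η (i, false)), inv_mul_cancel_left,
      ← zpow_natCast, ← zpow_neg, ← zpow_one_add]
    rfl)
  have ec : cs (X.φ (E.φ (yy B.y (i, false)))) X.e 2 =
      X.φ (δ * E.φ (cc B.y B.s (i, false)) * δ⁻¹) := by
    rw [cs_succ', X.conj _ e⁻¹ yt (by rwa [eh]) (by rw [yl, eh, eη, lw']), ← map_cs, ← δ3]
    rfl
  have ne : ∀ g : T.G, g • X.ι X.t ≠ X.w := fun g e => X.w_ne g _ e.symm
  have nb := X.nb ok'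
  have es2 := (es' _ (inv_ne_one.2 y1) (inv_smul_eq_iff.2 yt.symm)).2
  rw [map_inv, ← eφ] at es2
  rw [ec, eη, et', ← δ2, ← eι, ← eφ] at A
  rw [et, ← eι] at ne nb
  obtain ⟨T', E'', ε', P', H'', A'', nb'', -, -⟩ := Inv.chain H₀ (i, false) (n - 2)
    (E := E.trans E') (by omega) (by omega) H' A nb tp' ne es2 (l1.map E'.φ)
  subst hE
  refine ⟨T', E₂.trans (E'.trans E''), H'', fun b => ?_⟩
  cases b with
  | true => exact arm.map ok (E'.trans E'')
  | false =>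
    simp only [map_mul, map_inv, Emb.ι_smul] at A''
    exact ⟨E''.φ (E'.φ δ), ε', P', 2, le_rfl, E''.fix (E'.fix δ1), A'', nb''⟩

end Pool.Agent.Lib.MP_429c3d_al.Ng
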