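import Pool.Agent.Lib.MP_429c3d_al.NgY
import Pool.Agent.Lib.MP_429c3d_al.NgArm

set_option autoImplicit false
set_option linter.unusedSectionVars false

/-! Different trees have bounded overlaps. -/

namespace Pool.Agent.Lib.MP_429c3d_al.Ng

open Hyp Sum

/-- Depth in the cone-off. -/
def c1M : ℕ := 2 * coneN 2 + 2 + (cY + 2 * kY)

/-- Depth in the level. -/
def C1M (CN : ℕ) : ℕ := (c1M + 1) * (2 * (CN + 2)) + 1

/-- The lower bound for the length of the edges in the cone-off. -/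
def l0M (C3 : ℕ) : ℕ := 4 * (c1M + C3 + 2) + 2 * cY + 3 * kY + 3

/-- The lower bound for the length of the edges in the level. -/
def N0M (CN C3 : ℕ) : ℕ := 2 * (C1M CN + C3) + (l0M C3 + 1) * (2 * (CN + 2)) + 602

/-- The quasi-convexity constant. -/
def alM (N1 : ℕ) : ℕ := N1 + 2 + cY + 4 * kY + 2

/-- The overlap constant. -/
def DM (N1 : ℕ) : ℕ := 2 * (2 * coneN 2 + cY + 2 * kY + 3) + 2 * (N1 + 2)

theorem Deep.smul {G X : Type} [Group G] [MulAction G X] {d : X → X → ℕ} (iso : Isom G d) (g : G)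
    {r : ℕ} {p q p' : X} (h : Deep d r p q p') : Deep d r (g • p) (g • q) (g • p') :=
  ⟨h.1.smul iso g, by rw [iso]; exact h.2.1, by rw [iso]; exact h.2.2⟩

theorem Deep.symm {X : Type} {d : X → X → ℕ} (m : IsMet d) {r : ℕ} {p q p' : X}
    (h : Deep d r p q p') : Deep d r p' q p :=
  ⟨h.1.symm m, m.symm q p' ▸ h.2.2, m.symm p q ▸ h.2.1⟩

theorem Deep.mono {X : Type} {d : X → X → ℕ} {r r' : ℕ} {p q p' : X} (h : Deep d r p q p')
    (hr : r' ≤ r) : Deep d r' p q p' := ⟨h.1, hr.trans h.2.1, hr.trans h.2.2⟩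

variable {G X Ω K I J : Type} [Group G] [MulAction G X] [MulAction G Ω] [MulAction G J]
  {d : X → X → ℕ} {u S2 : ℕ} {ST : St (Multiplicative ℤ) (Nm Empty Unit) Unit} {n : ℕ}

/-- The assumptions on the top edges. -/
structure MH (P : Pk G d u S2 Ω K I) (k1 : I × Bool → ℕ) (ξ : I × Bool → X) (T : Tel ST n)
    (ψ : J → ST.Z → X ⊕ Ω) (ρ : J → ST.G →* G) (ty : J → I × Bool) (g0 : J → G)
    (k A CN C3 N1 : ℕ) : Prop where
  H : YH G Ω d k A u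
  R : P.Arms k1 T ψ ρ ty g0
  ok : ST.OK
  pos : ∀ τ, 1 ≤ k1 τ
  hu : (2 * l0M C3 + 10) * k + 1 ≤ u
  short : ∀ τ, d (ξ τ) (yy P.y τ • ξ τ) ≤ u
  lo : ∀ τ, N0M CN C3 * u ≤ d (ξ τ) (P.CC k1 τ 0 • ξ τ)
  hi : ∀ τ, d (ξ τ) (P.CC k1 τ 0 • ξ τ) ≤ N1 * u
  nt : ∀ τ, NT G d u CN (ξ τ) (P.CC k1 τ 0 • ξ τ)
  edge : ∀ τ τ' (g g' : G) p p' q0 q0',
    (∀ q, Deep d (C1M CN * u) (g • ξ τ) q (g • P.CC k1 τ 0 • ξ τ) → NB d (100 * (k + 1)) p q p') →
    (∀ q, Deep d (C1M CN * u) (g' • ξ τ') q (g' • P.CC k1 τ' 0 • ξ τ') →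
      NB d (100 * (k + 1)) p q p') →
    Deep d (C3 * u) (g • ξ τ) q0 (g • P.CC k1 τ 0 • ξ τ) →
    Deep d (C3 * u) (g' • ξ τ') q0' (g' • P.CC k1 τ' 0 • ξ τ') → d q0 q0' ≤ 100 * (k + 1) →
    τ = τ' ∧ g = g'

/-- Translate by `g⁻¹`; `P.uniq`. -/
theorem mh_of {P : Pk G d u S2 Ω K I} {k1 : I × Bool → ℕ} {ξ : I × Bool → X} {T : Tel ST n}
    {ψ : J → ST.Z → X ⊕ Ω} {ρ : J → ST.G →* G} {ty : J → I × Bool} {g0 : J → G}
    {k A CN C3 N1 S1 J0 K0 k0 kk : ℕ} {Top : G → G → ℕ → X → Prop} (H : YH G Ω d k A u)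
    (R : P.Arms k1 T ψ ρ ty g0) (ok : ST.OK) (pos : ∀ τ, 1 ≤ k1 τ)
    (hu : (2 * l0M C3 + 10) * k + 1 ≤ u)
    (XX : XI G d Top CN (C1M CN) C3 (N0M CN C3) N1 k S1 S2 J0 u K0 k0 kk)
    (top : ∀ τ, Top (yy P.y τ) (cc P.y P.s τ) (k1 τ) (ξ τ)) :
    MH P k1 ξ T ψ ρ ty g0 k A CN C3 N1 := by
  have e : ∀ τ, eta (yy P.y τ) (cc P.y P.s τ) (ξ τ) (k1 τ) = P.CC k1 τ 0 • ξ τ := fun τ => by
    rw [eta, Pk.CC, Nat.zero_add]
  have iso := H.xl.iso
  refine ⟨H, R, ok, pos, hu, fun τ => XX.short _ _ _ _ (top τ), fun τ => e τ ▸ XX.lo _ _ _ _ (top τ),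
    fun τ => e τ ▸ XX.hi _ _ _ _ (top τ), fun τ => e τ ▸ XX.nt _ _ _ _ (top τ),
    fun τ τ' g g' p p' q0 q0' h1 h2 h3 h4 h5 => ?_⟩
  obtain ⟨⟨h, a1, a2⟩, a3⟩ := XX.edge _ _ _ _ _ _ _ _ (top τ) (top τ') (P.prim τ).2.2
    (P.prim τ').2.2 (g⁻¹ * g') (g⁻¹ • p) (g⁻¹ • p') (g⁻¹ • q0) (g⁻¹ • q0')
    (fun q hq => by
      simpa only [inv_smul_smul] using (h1 (g • q) (e τ ▸ hq.smul iso g)).smul iso g⁻¹)
    (fun q hq => by
      simpa using (h2 (g • q) (by simpa [mul_smul, e] using hq.smul iso g)).smul iso g⁻¹)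
    (by simpa [e] using h3.smul iso g⁻¹) (by simpa [e, mul_smul] using h4.smul iso g⁻¹)
    (by rwa [iso])
  obtain rfl := P.uniq τ' τ h a1 a2
  exact ⟨rfl, inv_mul_eq_one.1 (a3 rfl rfl rfl rfl)⟩

namespace MH

variable {P : Pk G d u S2 Ω K I} {k1 : I × Bool → ℕ} {ξ : I × Bool → X} {T : Tel ST n}
  {ψ : J → ST.Z → X ⊕ Ω} {ρ : J → ST.G →* G} {ty : J → I × Bool} {g0 : J → G}
  {k A CN C3 N1 : ℕ} (M : MH P k1 ξ T ψ ρ ty g0 k A CN C3 N1)
include M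

theorem sh_o (τ : I × Bool) (g : G) : ShY G d u (inr (g • P.oo τ)) (g • ξ τ) :=
  M.H.act.sh_smul g (inr (P.oo τ)) _
    (M.H.sh_of (P.prim τ).ne_one (P.arm_yy_fix τ) ((M.short τ).trans (by omega)))

theorem sh_p (τ : I × Bool) (g : G) :
    ShY G d u (inr (g • P.PP k1 τ 1)) (g • P.CC k1 τ 0 • ξ τ) := by
  simpa only [mul_smul, Pk.PP] using M.sh_o τ (g * P.CC k1 τ 0)

theorem nt' (τ : I × Bool) (g : G) : NT G d u CN (g • ξ τ) (g • P.CC k1 τ 0 • ξ τ) := by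
  intro a q q' ha h1 h2 h3 h4
  have iso := M.H.xl.iso
  have e : ∀ q : X, d (g⁻¹ • q) ((g⁻¹ * a * g⁻¹⁻¹) • g⁻¹ • q) = d q (a • q) := fun q => by
    simp [mul_smul, iso g⁻¹]
  rw [← iso g⁻¹]
  exact M.nt τ (g⁻¹ * a * g⁻¹⁻¹) _ _ (fun h => ha (conj_eq_one_iff.1 h))
    (by simpa using h1.smul iso g⁻¹) (by simpa using h2.smul iso g⁻¹) (e q ▸ h3) (e q' ▸ h4)

theorem far_of {τ : I × Bool} {g : G} {q q' : X} (hq : Btw d (g • ξ τ) q (g • P.CC k1 τ 0 • ξ τ))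
    (hq' : Btw d (g • ξ τ) q' (g • P.CC k1 τ 0 • ξ τ)) {b b' : X ⊕ Ω} (h1 : ShY G d u b q)
    (h2 : ShY G d u b' q') {s : ℕ} (hs : s ≤ l0M C3) (h : (s + 1) * (2 * (CN + 2)) * u < d q q') :
    s < dYY G d u b b' := by
  by_contra hc
  have h3 := M.hu
  have h4 := Nat.mul_le_mul_right k (show 2 * s + 10 ≤ 2 * l0M C3 + 10 by omega)
  have := M.H.len (M.nt' τ g) hq hq' h1 h2 (not_lt.1 hc) (by omega)
  rw [← mul_assoc] at this
  omega

theorem mod : Mod T G (dYY G d u) ψ ρ kY cY (l0M C3) (N1 + 2) := by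
  have C := M.H.qc.1
  have m := C.gr.met
  have hu := C.huge
  refine ⟨M.ok, C.grB, C.hypB, M.H.act.invB, M.H.ta, M.H.two, M.H.xl.tf, M.R.equi, M.R.move,
    fun i h => ?_, fun i h => ?_, fun i => ?_, fun i => ?_, by unfold l0M; omega⟩
  · exact (P.prim _).ne_one (conj_eq_one_iff.1 (M.R.ρ_y i ▸ h))
  · rw [M.R.ρ_ε, conj_eq_one_iff, P.arm_CC_succ k1 M.pos, conj_eq_one_iff] at h
    exact (P.prim _).ne_one h
  · rw [M.R.ψ_o, M.R.ψ_p]
    refine (M.far_of (by rw [Btw, m.self, Nat.zero_add]) (by rw [Btw, m.self, Nat.add_zero])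
      (M.sh_o _ _) (M.sh_p _ _) le_rfl ?_).le
    have := M.lo (ty i)
    rw [M.H.xl.iso]
    unfold N0M at this
    rw [Nat.add_mul, Nat.add_mul] at this
    omega
  · rw [M.R.ψ_o, M.R.ψ_p]
    have e1 := M.H.adj_of (M.sh_o (ty i) (g0 i))
    have e2 := M.H.adj_of (M.sh_p (ty i) (g0 i))
    have e3 := C.ι_le_mul N1 _ _ ((M.H.xl.iso (g0 i) _ _).le.trans (M.hi (ty i)))
    have := C.grB.met.tri (inr (g0 i • P.oo (ty i))) (inl (g0 i • ξ (ty i)))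
      (inr (g0 i • P.PP k1 (ty i) 1))
    have := C.grB.met.tri (inl (g0 i • ξ (ty i))) (inl (g0 i • P.CC k1 (ty i) 0 • ξ (ty i)))
      (inr (g0 i • P.PP k1 (ty i) 1))
    rw [C.grB.met.symm] at e1
    omega

theorem deepY {τ : I × Bool} {g : G} {q : X}
    (h : Deep d (C1M CN * u) (g • ξ τ) q (g • P.CC k1 τ 0 • ξ τ)) :
    c1M < dYY G d u (inl q) (inr (g • P.oo τ)) ∧ c1M < dYY G d u (inl q) (inr (g • P.PP k1 τ 1)) := by
  have m := M.H.xl.gr.met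
  have hu := M.H.hk
  obtain ⟨h1, h2, h3⟩ := h
  unfold C1M at h2 h3
  rw [Nat.add_mul] at h2 h3
  rw [m.symm] at h2
  exact ⟨M.far_of (b := inl q) h1 (by rw [Btw, m.self, Nat.zero_add]) rfl (M.sh_o _ _)
    (by unfold l0M; omega) (by omega), M.far_of (b := inl q) h1
    (by rw [Btw, m.self, Nat.add_zero]) rfl (M.sh_p _ _) (by unfold l0M; omega) (by omega)⟩

/-- The edges of the trees are translates of top edges. -/
theorem ends (i : J) {x x' : ST.Z} (h : T.tr x x') : ∃ (s : ST.G) (g : G) (e e' : X),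
    g = ρ i s * g0 i ∧ ShY G d u (ψ i x) e ∧ ShY G d u (ψ i x') e' ∧
    (∀ r q, Deep d r e q e' ↔ Deep d r (g • ξ (ty i)) q (g • P.CC k1 (ty i) 0 • ξ (ty i))) ∧
    ∀ q, Deep d (C1M CN * u) e q e' →
      c1M < dYY G d u (inl q) (ψ i x) ∧ c1M < dYY G d u (inl q) (ψ i x') := by
  have m := M.H.xl.gr.met
  have e1 := M.R.arm_ψ_o M.pos i
  have e2 := fun s => M.R.ψ_P M.pos i s 0
  simp only [T.P_zero, Nat.zero_add] at e2
  obtain ⟨s, ⟨rfl, rfl⟩ | ⟨rfl, rfl⟩⟩ := h <;> rw [e1, e2]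
  · exact ⟨s, _, _, _, rfl, M.sh_o _ _, M.sh_p _ _, fun _ _ => Iff.rfl, fun q hq => M.deepY hq⟩
  · exact ⟨s, _, _, _, rfl, M.sh_p _ _, M.sh_o _ _, fun _ _ => ⟨Deep.symm m, Deep.symm m⟩,
      fun q hq => (M.deepY (hq.symm m)).symm⟩

theorem on_path {z : ℕ → X ⊕ Ω} {N t : ℕ} (B : Broken (dYY G d u) z N cY (l0M C3)) (ht : t < N)
    {r r' e e' q : X} (hr : ShY G d u (z 0) r) (hr' : ShY G d u (z N) r')
    (he : ShY G d u (z t) e) (he' : ShY G d u (z (t + 1)) e') (hq : Btw d e q e')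
    (h : c1M < dYY G d u (inl q) (z t) ∧ c1M < dYY G d u (inl q) (z (t + 1))) :
    NB d (2 * k) r q r' := by
  have C := M.H.qc.1
  have hu := C.huge
  have hl : cY + 2 * kY + 1 ≤ l0M C3 := by unfold l0M; omega
  simpa using C.mid2 hr he he' hr'
    (B.prod C.grB.met M.mod.hyp hl (Nat.zero_le t) (Nat.le_succ t) ht)
    (B.prod C.grB.met M.mod.hyp hl (Nat.le_succ t) ht le_rfl) (hq.nb C.gr.met) (by omega) h.1 h.2

/-- A deep point of an edge that is far from the tree `j`. -/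
theorem exists_far (τ : I × Bool) (g : G) (j : J) :
    ∃ q, Deep d ((C1M CN + C3) * u) (g • ξ τ) q (g • P.CC k1 τ 0 • ξ τ) ∧
      ∀ x, c1M + C3 + 2 < dYY G d u (inl q) (ψ j x) := by
  have C := M.H.qc.1
  have m := C.gr.met
  have mY := C.grB.met
  have hu := C.huge
  have lo := M.lo τ
  rw [← M.H.xl.iso g, show N0M CN C3 * u = 2 * ((C1M CN + C3) * u) + l0M C3 * (2 * (CN + 2)) * u +
    2 * (CN + 2) * u + 602 * u by unfold N0M; ring] at lo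
  have key := fun q q' => M.far_of (τ := τ) (g := g) (q := q) (q' := q') (b := inl q)
    (b' := inl q') (s := l0M C3 - 1)
  rw [show l0M C3 - 1 + 1 = l0M C3 by unfold l0M; omega] at key
  generalize g • P.CC k1 τ 0 • ξ τ = b at *
  generalize g • ξ τ = a at *
  obtain ⟨q1, a1, a2⟩ := C.gr.geo.mid m a b (s := (C1M CN + C3) * u) (by omega)
  obtain ⟨q2, b1, b2⟩ := C.gr.geo.mid m q1 b (s := d q1 b - (C1M CN + C3) * u) (by omega)
  have t1 := m.tri a q1 q2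
  have t2 := m.tri a q2 b
  have h1 := key q1 q2 (by unfold Btw; omega) (by unfold Btw; omega) rfl rfl (by omega) (by omega)
  obtain ⟨q, c1, c2⟩ := C.exists_at (b := inl q1) (b' := inl q2) rfl rfl
    (s := 2 * (c1M + C3 + 2) + 1) (by omega) (by unfold l0M at h1; omega)
  have t3 := m.tri a q1 q
  have t4 := m.tri q q2 b
  have t5 := m.tri a q b
  by_contra hc
  push Not at hc
  obtain ⟨x1, e1⟩ := hc q1 ⟨by unfold Btw; omega, by omega, by omega⟩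
  obtain ⟨x2, e2⟩ := hc q ⟨by unfold Btw; omega, by omega, by omega⟩
  have t6 := mY.tri (inl q) (ψ j x2) (inl q1)
  have t7 := mY.tri (ψ j x1) (inl q1) (ψ j x2)
  have t8 := mY.tri (inl q1) (inl q) (ψ j x2)
  have s1 := mY.symm (inl q1) (ψ j x1)
  have s2 := mY.symm (inl q1) (inl q)
  by_cases e : x1 = x2
  · subst e
    omega
  · have := M.mod.far j e
    unfold l0M at this
    omega

/-- An edge of the tree `i` along a segment between shadows of vertices of the tree `j`. -/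
theorem core {i j : J} {s : ST.G} {z z' : ST.Z} {r r' : X} (hr : ShY G d u (ψ j z) r)
    (hr' : ShY G d u (ψ j z') r') (h : ∀ q, Deep d (C1M CN * u) ((ρ i s * g0 i) • ξ (ty i)) q
      ((ρ i s * g0 i) • P.CC k1 (ty i) 0 • ξ (ty i)) → NB d (4 * k) r q r') : i = j := by
  classical
  have C := M.H.qc.1
  have m := C.gr.met
  have mY := C.grB.met
  have hu := C.huge
  have hl : cY + 2 * kY + 1 ≤ l0M C3 := by unfold l0M; omega
  obtain ⟨q, q1, q2⟩ := M.exists_far (ty i) (ρ i s * g0 i) j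
  rw [Nat.add_mul] at q1
  have q3 := h q (q1.mono (by omega))
  obtain ⟨N, γ, rfl, rfl, γ1, γ2⟩ := M.mod.path j z z'
  have same : ∀ x p p', ShY G d u (ψ j x) p → ShY G d u (ψ j x) p' → ¬ NB d (7 * k) p q p' := by
    intro x p p' h1 h2 h3
    obtain ⟨w, w1, w2⟩ := C.near' h1 h2 h3 (by omega)
    have := q2 x
    have := mY.tri (inl q) w (ψ j x)
    rw [Btw, mY.self] at w1
    unfold c1M at *
    omega
  have ex : ∃ t, t ≤ N ∧ ∃ p, ShY G d u (ψ j (γ t)) p ∧ NB d (5 * k) r q p :=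
    ⟨N, le_rfl, r', hr', q3.mono (by omega)⟩
  obtain ⟨t1, p, p1, p2⟩ := Nat.find_spec ex
  have t2 := fun t => Nat.find_min ex (m := t)
  generalize Nat.find ex = t at *
  rcases t with _ | t
  · exact absurd (p2.mono (by omega)) (same _ r p hr p1)
  obtain ⟨s', g', e, e', rfl, e1, e2, e3, e4⟩ := M.ends j (γ1 t t1)
  have f1 : NB d (4 * k + k) e q r' :=
    (q3.split m C.hyp e).resolve_left fun hh => t2 t (by omega) ⟨by omega, e, e1, hh.mono (by omega)⟩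
  have f2 : NB d (5 * k + k) e q p := (p2.split m C.hyp e).resolve_left fun hh => by
    have := C.corner hr e1 e1 hr' (γ2.prod mY M.mod.hyp hl (Nat.zero_le t) (by omega) le_rfl) hh
      (f1.mono (by omega)) (by omega)
    have := q2 (γ t)
    unfold c1M at *
    omega
  have f3 : NB d (5 * k + k + k) e q e' :=
    (f2.split m C.hyp e').resolve_right fun hh => same _ e' p e2 p1 (hh.mono (by omega))
  obtain ⟨q', w1, w2⟩ := f3.near C.gr C.hyp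
  have deep : ∀ x p, ShY G d u (ψ j x) p → C3 * u ≤ d q' p := fun x p hp => by
    by_contra hc
    have := C.ι_le_mul C3 q' p (by omega)
    have := C.lip q q' (by omega)
    have := C.sh_le hp
    have := q2 x
    have := mY.tri (inl q) (inl q') (ψ j x)
    have := mY.tri (inl q') (inl p) (ψ j x)
    unfold c1M at *
    omega
  obtain ⟨a1, a2⟩ := M.edge (ty i) (ty j) _ _ r r' q q' (fun w hw => (h w hw).mono (by omega))
    (fun w hw => (M.on_path γ2 t1 hr hr' e1 e2 ((e3 _ w).2 hw).1 (e4 w ((e3 _ w).2 hw))).mono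
      (by omega)) (q1.mono (by omega))
    ((e3 _ q').1 ⟨w1, m.symm q' e ▸ deep _ e e1, deep _ e' e2⟩) (by omega)
  exact M.R.uniq i j s s' a1 a2

theorem mal (i j : J) (x x' z z' : ST.Z) (h : x ≠ x') (h1 : ψ i x = ψ j z)
    (h2 : ψ i x' = ψ j z') : i = j := by
  obtain ⟨N, γ, rfl, rfl, γ1, γ2⟩ := M.mod.path i x x'
  have hN : 0 < N := Nat.pos_of_ne_zero fun e => h (by rw [e])
  obtain ⟨s, g, e, e', rfl, e1, e2, e3, e4⟩ := M.ends i (γ1 0 hN)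
  obtain ⟨r', hr'⟩ := M.H.qc.1.ne (ψ i (γ N))
  exact M.core (h1 ▸ e1) (h2 ▸ hr') fun w hw =>
    (M.on_path γ2 hN e1 hr' e1 e2 ((e3 _ w).2 hw).1 (e4 w ((e3 _ w).2 hw))).mono (by omega)

theorem qfam : QFam (dYY G d u) (ZM ψ) kY (alM N1) (DM N1) := by
  classical
  have C := M.H.qc.1
  have m := C.gr.met
  have mY := C.grB.met
  have hu := C.huge
  have hl : cY + 2 * kY + 1 ≤ l0M C3 := by unfold l0M; omega
  refine ⟨C.grB, C.hypB, fun i => ⟨_, T.o, rfl⟩, M.mod.qc, ?_⟩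
  rintro i j _ _ _ _ σ hij ⟨x, rfl⟩ ⟨x', rfl⟩ ⟨z, rfl⟩ ⟨z', rfl⟩ h1 h2
  by_contra hc
  unfold DM at hc
  obtain ⟨N, γ, rfl, rfl, γ1, γ2⟩ := M.mod.path i x x'
  have ex : ∃ t, t ≤ N ∧
      σ + (2 * coneN 2 + cY + 2 * kY + 3) ≤ dYY G d u (ψ i (γ 0)) (ψ i (γ t)) :=
    ⟨N, le_rfl, by omega⟩
  obtain ⟨t1, t2⟩ := Nat.find_spec ex
  have t3 := fun t => Nat.find_min ex (m := t)
  generalize Nat.find ex = t at *
  rcases t with _ | t
  · rw [mY.self] at t2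
    omega
  have t4 := not_and.1 (t3 t (by omega)) (by omega)
  have t5 := M.mod.tr_hi i (γ1 t t1)
  have t6 := mY.tri (ψ i (γ 0)) (ψ i (γ t)) (ψ i (γ (t + 1)))
  have hN : t + 1 < N := lt_of_le_of_ne t1 fun e => by
    rw [← e] at hc
    omega
  have t7 := M.mod.tr_hi i (γ1 _ hN)
  have t8 := mY.tri (ψ i (γ 0)) (ψ i (γ (t + 1))) (ψ i (γ N))
  have t9 := mY.tri (ψ i (γ (t + 1))) (ψ i (γ (t + 1 + 1))) (ψ i (γ N))
  obtain ⟨s, g, e, e', rfl, e1, e2, e3, e4⟩ := M.ends i (γ1 _ hN)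
  obtain ⟨r, hr⟩ := C.ne (ψ i (γ 0))
  obtain ⟨r', hr'⟩ := C.ne (ψ i (γ N))
  obtain ⟨p, hp⟩ := C.ne (ψ j z)
  obtain ⟨p', hp'⟩ := C.ne (ψ j z')
  refine hij (M.core (s := s) hp hp' fun q hq => ?_)
  have q1 := (e3 _ q).2 hq
  have q2 := M.on_path γ2 hN hr hr' e1 e2 q1.1 (e4 q q1)
  obtain ⟨w, w1, w2⟩ := C.near' e1 e2 (q1.1.nb m) (by omega)
  have p1 := γ2.prod mY M.mod.hyp hl (Nat.zero_le (t + 1)) (Nat.le_succ _) hN
  have p2 := γ2.prod mY M.mod.hyp hl (Nat.le_succ (t + 1)) hN le_rfl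
  have side : ∀ {a a' : X ⊕ Ω} {x x' : X} {t : ℕ}, ShY G d u a x → ShY G d u a' x' →
      dYY G d u a a' ≤ σ → t ≤ u → NB d t x q x' → dYY G d u w a ≤ σ + 2 * coneN 2 + 2 := by
    intro a a' x x' t a1 a2 a3 a4 a5
    obtain ⟨v, v1, v2⟩ := C.near' a1 a2 a5 a4
    have := mY.tri w (inl q) a
    have := mY.tri (inl q) v a
    have := mY.symm w (inl q)
    have := mY.symm v a
    unfold Btw at v1
    omega
  unfold Btw at w1
  have s1 := mY.symm (ψ i (γ (t + 1))) (ψ i (γ 0))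
  have s2 := mY.symm (ψ i (γ (t + 1))) (ψ i (γ (t + 1 + 1)))
  have s3 := mY.symm w (ψ i (γ 0))
  have u1 := mY.tri (ψ i (γ 0)) w (ψ i (γ (t + 1 + 1)))
  have u2 := mY.tri (ψ i (γ (t + 1))) w (ψ i (γ N))
  simp only [Nat.succ_eq_add_one] at p1 p2
  have f1 := (q2.split m C.hyp p).resolve_left fun hh => by
    have := side hr hp h1 (by omega) hh
    omega
  refine ((f1.split m C.hyp p').resolve_right fun hh => ?_).mono (by omega)
  have := side hr' hp' h2 (by omega) (hh.symm m)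
  omega

end MH

end Pool.Agent.Lib.MP_429c3d_al.Ng
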