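import Pool.Agent.Lib.MP_429c3d_al.NgSt

set_option autoImplicit false

/-! Names modulo the periods, and the metrics on names. -/

namespace Pool.Agent.Lib.MP_429c3d_al.Ng

open Hyp

variable {N0 T : Type}

/-- The distance to the multiples of `p`. -/
def cyc (p : ℕ) (h : ℤ) : ℕ := min (h % p).toNat ((-h) % p).toNat

/-- Reduction of the height modulo the period of the arm. -/
def barN (per : T → ℕ) : Nm N0 T → Nm N0 T
  | .inl a => .inl a
  | .inr p => .inr (p.1, p.2.1, p.2.2 % per p.1)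

/-- The period of an arm. -/
def perO (per : T → ℕ) : Option T → ℕ
  | none => 0
  | some τ => per τ

/-- The metric of the bouquet of circles. -/
noncomputable def dnb (per : T → ℕ) (a b : Nm N0 T) : ℕ :=
  open Classical in
  if a.arm = b.arm then cyc (perO per a.arm) (a.ht - b.ht)
  else cyc (perO per a.arm) a.ht + cyc (perO per b.arm) b.ht

/-- The star metric on positions. -/
noncomputable def dz (a b : Option T × ℤ) : ℕ :=
  open Classical in if a.1 = b.1 then (a.2 - b.2).natAbs else a.2.natAbs + b.2.natAbs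

theorem dnm_eq (a b : Nm N0 T) : dnm a b = dz (a.arm, a.ht) (b.arm, b.ht) := rfl

theorem dz_met : IsMet (dz (T := T)) := by
  refine ⟨fun a => by simp [dz], fun a b => ?_, fun a b c => ?_⟩
  · unfold dz
    by_cases h : a.1 = b.1
    · rw [if_pos h, if_pos h.symm]
      omega
    · rw [if_neg h, if_neg (Ne.symm h)]
      omega
  · unfold dz
    split_ifs with h1 h2 h3 h4 h5 h6 h7
    any_goals omega
    exact absurd (h5.trans h6) h1

theorem dnm_met : IsMet (dnm (N0 := N0) (T := T)) :=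
  ⟨fun a => dz_met.self (a.arm, a.ht), fun a b => dz_met.symm (a.arm, a.ht) (b.arm, b.ht),
    fun a b c => dz_met.tri (a.arm, a.ht) (b.arm, b.ht) (c.arm, c.ht)⟩

theorem dz_ht (a b : Option T × ℤ) : a.2.natAbs ≤ b.2.natAbs + dz a b := by
  unfold dz
  split_ifs <;> omega

theorem cyc_neg (p : ℕ) (h : ℤ) : cyc p (-h) = cyc p h := by
  rw [cyc, cyc, neg_neg, min_comm]

theorem cyc_congr {p : ℕ} {h h' : ℤ} (e : (p : ℤ) ∣ h - h') : cyc p h = cyc p h' := by
  have e' : (p : ℤ) ∣ -h - -h' := by rwa [neg_sub_neg, ← neg_sub, dvd_neg]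
  rw [cyc, cyc, (Int.emod_emod_of_dvd _ (dvd_refl _)).symm.trans
    (Int.emod_eq_emod_iff_emod_sub_eq_zero.2 (by simpa using e)),
    (Int.emod_eq_emod_iff_emod_sub_eq_zero.2 (Int.emod_eq_zero_of_dvd e') : -h % p = -h' % p)]

theorem emod_le_self (p : ℕ) {h : ℤ} (h0 : 0 ≤ h) : h % p ≤ h := by
  have h1 := Int.emod_add_mul_ediv h p
  have h2 := mul_nonneg (Int.natCast_nonneg p) (Int.ediv_nonneg h0 (Int.natCast_nonneg p))
  omega

theorem cyc_le (p : ℕ) (h : ℤ) : cyc p h ≤ h.natAbs := by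
  unfold cyc
  rcases le_total 0 h with h0 | h0
  · have := emod_le_self p h0
    omega
  · have := emod_le_self p (neg_nonneg.2 h0)
    omega

theorem exists_cyc {p : ℕ} (hp : 0 < p) (h : ℤ) :
    ∃ h' : ℤ, (p : ℤ) ∣ h' - h ∧ h'.natAbs = cyc p h ∧ 2 * cyc p h ≤ p := by
  have hp' : (0 : ℤ) < p := by omega
  have a1 := Int.emod_nonneg h hp'.ne'
  have a2 := Int.emod_nonneg (-h) hp'.ne'
  have a3 := Int.emod_lt_of_pos h hp'
  have a4 := Int.emod_lt_of_pos (-h) hp'
  have b1 : (p : ℤ) ∣ h % p - h := Int.dvd_emod_sub_self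
  have b2 : (p : ℤ) ∣ -(-h % p) - h := by
    have : (p : ℤ) ∣ -h % p - -h := Int.dvd_emod_sub_self
    rwa [← dvd_neg, neg_sub, sub_eq_neg_add, ← sub_eq_add_neg] at this
  have b3 : h % p + -h % p ≤ p := by
    obtain ⟨c, hc⟩ := dvd_sub b1 b2
    by_contra hh
    rcases le_or_gt c 1 with h1 | h1
    · have := mul_le_mul_of_nonneg_left h1 hp'.le
      omega
    · have := mul_le_mul_of_nonneg_left (show 2 ≤ c by omega) hp'.le
      omega
  unfold cyc
  rcases le_total (h % p) (-h % p) with h1 | h1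
  · exact ⟨_, b1, by omega, by omega⟩
  · exact ⟨_, b2, by omega, by omega⟩

theorem cyc_zero (h : ℤ) : cyc 0 h = 0 := by
  simp only [cyc, Nat.cast_zero, Int.emod_zero]
  omega

theorem cyc_add (p : ℕ) (h h' : ℤ) : cyc p (h + h') ≤ cyc p h + cyc p h' := by
  rcases Nat.eq_zero_or_pos p with rfl | hp
  · simp [cyc_zero]
  · obtain ⟨a, a1, a2, -⟩ := exists_cyc hp h
    obtain ⟨b, b1, b2, -⟩ := exists_cyc hp h'
    have := cyc_le p (a + b)
    rw [cyc_congr (h' := h + h') (by rw [add_sub_add_comm]; exact dvd_add a1 b1)] at this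
    omega

variable {per : T → ℕ}

theorem dnb_met : IsMet (dnb (N0 := N0) per) := by
  refine ⟨fun a => by simp [dnb, cyc], fun a b => ?_, fun a b c => ?_⟩
  · unfold dnb
    by_cases h : a.arm = b.arm
    · rw [if_pos h, if_pos h.symm, ← cyc_neg, neg_sub, h]
    · rw [if_neg h, if_neg (Ne.symm h)]
      omega
  · unfold dnb
    have e1 := cyc_add (perO per a.arm) (a.ht - b.ht) (b.ht - c.ht)
    have e2 := cyc_add (perO per a.arm) a.ht (-c.ht)
    have e3 := cyc_add (perO per a.arm) (a.ht - b.ht) b.ht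
    have e4 := cyc_add (perO per b.arm) (-(b.ht - c.ht)) b.ht
    rw [sub_add_sub_cancel] at e1
    rw [← sub_eq_add_neg, cyc_neg] at e2
    rw [sub_add_cancel] at e3
    rw [cyc_neg, neg_sub, sub_add_cancel] at e4
    split_ifs with h1 h2 h3 h4 h5 h6 h7
    · rwa [← h2]
    · exact absurd (h2.symm.trans h1) h3
    · exact absurd (h1.trans h4.symm) h2
    · rw [← h1]
      omega
    · exact absurd (h5.trans h6) h1
    · rw [← h5]
      omega
    · rw [← h7]
      omega
    · omega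

theorem arm_bar (a : Nm N0 T) : (barN per a).arm = a.arm := by
  rcases a with a | a <;> rfl

theorem ht_bar (a : Nm N0 T) : (perO per a.arm : ℤ) ∣ (barN per a).ht - a.ht := by
  rcases a with a | a
  · simp [barN]
  · exact Int.dvd_emod_sub_self

theorem dnb_bar (a b : Nm N0 T) : dnb per (barN per a) (barN per b) = dnb per a b := by
  unfold dnb
  rw [arm_bar, arm_bar]
  split_ifs with h
  · refine cyc_congr ?_
    rw [sub_sub_sub_comm]
    exact dvd_sub (ht_bar a) (h ▸ ht_bar b)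
  · rw [cyc_congr (ht_bar a), cyc_congr (ht_bar b)]

theorem dnb_le (a b : Nm N0 T) : dnb per a b ≤ dnm a b := by
  unfold dnb dnm
  split_ifs
  exacts [cyc_le _ _, Nat.add_le_add (cyc_le _ _) (cyc_le _ _)]

theorem barN_eq {a b : Nm N0 T} (h : barN per a = barN per b) :
    a = b ∨ ∃ τ β i j, a = .inr (τ, β, i) ∧ b = .inr (τ, β, j) ∧ i ≠ j ∧ (per τ : ℤ) ∣ i - j := by
  rcases a with a | ⟨τ, β, i⟩ <;> rcases b with b | ⟨τ', β', j⟩
  · exact Or.inl h
  · simp [barN] at h
  · simp [barN] at h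
  · simp only [barN, Sum.inr.injEq, Prod.mk.injEq] at h
    obtain ⟨rfl, rfl, h⟩ := h
    by_cases e : i = j
    · exact Or.inl (e ▸ rfl)
    · exact Or.inr ⟨τ, β, i, j, rfl, rfl, e,
        Int.dvd_of_emod_eq_zero (Int.emod_eq_emod_iff_emod_sub_eq_zero.1 h)⟩

theorem barN_congr {τ : T} {β : Bool} {i j : ℤ} (h : (per τ : ℤ) ∣ i - j) :
    barN per (.inr (τ, β, i) : Nm N0 T) = barN per (.inr (τ, β, j)) := by
  simp only [barN, Int.emod_eq_emod_iff_emod_sub_eq_zero.2 (Int.emod_eq_zero_of_dvd h)]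

/-- Names with the same reduction are equal or far apart. -/
theorem eq_of_barN {a b : Nm N0 T} (h : barN per a = barN per b) {s : ℕ} (hs : ∀ τ, s < per τ)
    (hd : dnm a b ≤ s) : a = b := by
  refine (barN_eq h).resolve_right ?_
  rintro ⟨τ, β, i, j, rfl, rfl, h1, h2⟩
  have e1 := Nat.le_of_dvd (Int.natAbs_pos.2 (sub_ne_zero.2 h1)) (Int.natCast_dvd.1 h2)
  have e2 := hs τ
  simp only [dnm, Nm.arm, Nm.ht, if_true] at hd
  omega

theorem cyc_small {p : ℕ} {h : ℤ} (e : cyc p h + h.natAbs < p) : h.natAbs ≤ cyc p h := by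
  obtain ⟨a, a1, a2, -⟩ := exists_cyc (show 0 < p by omega) h
  by_cases e1 : a - h = 0
  · omega
  · have := Nat.le_of_dvd (Int.natAbs_pos.2 e1) (Int.natCast_dvd.1 a1)
    omega

/-- Lifting of distances. -/
theorem exists_lift (a b : Nm N0 T) (hp : ∀ τ, dnb per a b + a.ht.natAbs < per τ) :
    ∃ b', barN per b' = barN per b ∧ dnm a b' ≤ dnb per a b := by
  have ha : a.arm ≠ b.arm → a.ht.natAbs ≤ cyc (perO per a.arm) a.ht := fun e => by
    rcases a with a | ⟨τ, β, i⟩
    · simp [Nm.ht]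
    · have := hp τ
      rw [dnb, if_neg e] at this
      exact cyc_small (by change _ + _ < per τ; omega)
  rcases b with b | ⟨τ, β, j⟩
  · refine ⟨_, rfl, ?_⟩
    unfold dnm dnb
    split_ifs with h
    · rcases a with a | a
      · simp [Nm.ht]
      · simp [Nm.arm] at h
    · have := ha h
      simp only [Nm.ht] at this ⊢
      omega
  · have hτ : 0 < per τ := by have := hp τ; omega
    by_cases h : a.arm = some τ
    · obtain ⟨c, c1, c2, -⟩ := exists_cyc hτ (a.ht - j)
      refine ⟨.inr (τ, β, a.ht - c), barN_congr (by rwa [← dvd_neg, sub_right_comm, neg_sub]), ?_⟩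
      rw [dnm, dnb, if_pos (by exact h), if_pos (by exact h), h]
      simp only [perO, Nm.ht] at c2 ⊢
      omega
    · obtain ⟨c, c1, c2, -⟩ := exists_cyc hτ j
      refine ⟨.inr (τ, β, c), barN_congr c1, ?_⟩
      rw [dnm, dnb, if_neg (by exact h), if_neg (by exact h)]
      exact Nat.add_le_add (ha h) c2.le

end Pool.Agent.Lib.MP_429c3d_al.Ng
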