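import Pool.Agent.Lib.MP_429c3d_al.NgSt

set_option autoImplicit false

/-! What the base stage does for a level. -/

namespace Pool.Agent.Lib.MP_429c3d_al.Ng

open Hyp

/-- What the base stage does for the level `(G, X, d)`. -/
structure Over (G : Type) {X AA N0 K I : Type} [Group G] [MulAction G X] [CommGroup AA]
    (d : X → X → ℕ) {S : St AA (Nm N0 (I × Bool)) K} {n : ℕ} (B : Base S n) (u S1 kk m : ℕ) where
  φ : G →* S.G
  j : X → S.Z
  φ_inj : Function.Injective φ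
  j_smul : ∀ (g : G) x, j (g • x) = φ g • j x
  not_ap : ∀ x, ¬ S.ap (j x)
  le : ∀ x x', d x x' ≤ u → S.d (j x) (j x') ≤ 1
  k1_le : ∀ τ, B.k1 τ ≤ kk
  tr : ∀ y c : G, IsConj y c → ¬ Commute y c → ¬ Big d S1 y c →
    Tr m (yy B.y) (cc B.y B.s) (φ y) (φ c)

end Pool.Agent.Lib.MP_429c3d_al.Ng
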