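import Pool.Agent.Lib.MP_429c3d_al.NgSt
import Pool.Agent.Lib.MP_429c3d_al.NgLaw

/-! The algebraic package of the base stage: apices and primitive pairs. -/

set_option autoImplicit false

namespace Pool.Agent.Lib.MP_429c3d_al.Ng

open Hyp

section Apices

variable {G : Type} [Group G]

/-- The apices: one point for every maximal abelian subgroup with an element satisfying `P`. -/
structure ApS (G Ω : Type) [Group G] [MulAction G Ω] (P : G → Prop) : Prop where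
  comm : ∀ (a b : G) (ω : Ω), a • ω = ω → b • ω = ω → Commute a b
  cent : ∀ (a b : G) (ω : Ω), a ≠ 1 → a • ω = ω → Commute a b → b • ω = ω
  two : Free2 G Ω
  ex : ∀ a : G, a ≠ 1 → P a → ∃ ω : Ω, a • ω = ω
  sh : ∀ ω : Ω, ∃ a : G, a ≠ 1 ∧ P a ∧ a • ω = ω

/-- Centralisers of the non trivial elements satisfying a conjugation invariant property. -/
def Apx (P : {P : G → Prop // ∀ g a, P a → P (g * a * g⁻¹)}) : Type :=
  {E : Set G // ∃ a, a ≠ 1 ∧ P.1 a ∧ E = {b | Commute a b}}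

theorem commute_conj_iffp (g a b : G) : Commute (g * a * g⁻¹) b ↔ Commute a (g⁻¹ * b * g) :=
  ⟨fun h => by simpa [mul_assoc] using h.conj g⁻¹, fun h => by simpa [mul_assoc] using h.conj g⟩

instance (P : {P : G → Prop // ∀ g a, P a → P (g * a * g⁻¹)}) : MulAction G (Apx P) where
  smul g E := ⟨{b | g⁻¹ * b * g ∈ E.1}, by
    obtain ⟨a, h1, h2, h3⟩ := E.2
    exact ⟨g * a * g⁻¹, fun hh => h1 (conj_eq_one_iff.1 hh), P.2 g a h2,
      Set.ext fun b => by rw [h3]; exact (commute_conj_iffp g a b).symm⟩⟩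
  one_smul E := Subtype.ext (Set.ext fun b => by
    change 1⁻¹ * b * 1 ∈ E.1 ↔ _
    simp)
  mul_smul g h E := Subtype.ext (Set.ext fun b => by
    change (g * h)⁻¹ * b * (g * h) ∈ E.1 ↔ h⁻¹ * (g⁻¹ * b * g) * h ∈ E.1
    rw [show (g * h)⁻¹ * b * (g * h) = h⁻¹ * (g⁻¹ * b * g) * h by group])

theorem apx_apS (csa : CSA G) (ct : CT G) (P : {P : G → Prop // ∀ g a, P a → P (g * a * g⁻¹)}) :
    ApS G (Apx P) P.1 := by
  have key : ∀ (E : Apx P) (a : G), a ≠ 1 → E.1 = {b | Commute a b} →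
      ∀ g : G, g • E = E ↔ Commute a g := by
    intro E a ha hE g
    have e : (g • E).1 = {b | Commute (g * a * g⁻¹) b} := Set.ext fun b => by
      change g⁻¹ * b * g ∈ E.1 ↔ _
      rw [hE]
      exact (commute_conj_iffp g a b).symm
    constructor
    · intro h
      have h1 : a ∈ (g • E).1 := by rw [h, hE]; exact Commute.refl a
      rw [e] at h1
      exact (csa a g ha h1).symm
    · intro h
      refine Subtype.ext ?_
      rw [e, hE, ← h.eq, mul_inv_cancel_right]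
  refine ⟨fun a b ω h1 h2 => ?_, fun a b ω h0 h1 h2 => ?_, fun g ω ω' h1 h2 hne => ?_,
    fun a h1 h2 => ⟨⟨_, a, h1, h2, rfl⟩, (key _ a h1 rfl a).2 (Commute.refl a)⟩, fun ω => ?_⟩
  · obtain ⟨c, c1, -, c3⟩ := ω.2
    exact ct a c b c1 ((key ω c c1 c3 a).1 h1).symm ((key ω c c1 c3 b).1 h2)
  · obtain ⟨c, c1, -, c3⟩ := ω.2
    exact (key ω c c1 c3 b).2 (ct c a b h0 ((key ω c c1 c3 a).1 h1) h2)
  · obtain ⟨c, c1, -, c3⟩ := ω.2
    obtain ⟨c', c4, -, c5⟩ := ω'.2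
    by_contra hg
    have e := ct c g c' hg ((key ω c c1 c3 g).1 h1) ((key ω' c' c4 c5 g).1 h2).symm
    refine hne (Subtype.ext ?_)
    rw [c3, c5]
    exact Set.ext fun b => ⟨fun h => ct c' c b c1 e.symm h, fun h => ct c c' b c4 e h⟩
  · obtain ⟨c, c1, c2, c3⟩ := ω.2
    exact ⟨c, c1, c2, (key ω c c1 c3 c).2 (Commute.refl c)⟩

end Apices

section Pairs

variable {G : Type} [Group G]

/-- Primitive pairs: conjugate, not commuting, without predecessor. -/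
def Prim (y c : G) : Prop :=
  IsConj y c ∧ ¬ Commute y c ∧ ∀ f : G, IsConj y f → f * y * f⁻¹ ≠ c

theorem isConj_conj (g y : G) : IsConj y (g * y * g⁻¹) := isConj_iff.2 ⟨g, rfl⟩

theorem IsConj.inv' {y c : G} (h : IsConj y c) : IsConj y⁻¹ c⁻¹ := by
  obtain ⟨s, rfl⟩ := isConj_iff.1 h
  exact isConj_iff.2 ⟨s, by group⟩

theorem Prim.conj {y c : G} (h : Prim y c) (g : G) : Prim (g * y * g⁻¹) (g * c * g⁻¹) := by
  refine ⟨((isConj_conj g y).symm.trans h.1).trans (isConj_conj g c),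
    fun hh => h.2.1 (by simpa [mul_assoc] using hh.conj g⁻¹), fun f h1 h2 => ?_⟩
  refine h.2.2 (g⁻¹ * f * g⁻¹⁻¹) (((isConj_conj g y).trans h1).trans (isConj_conj _ f)) ?_
  rw [show c = g⁻¹ * (g * c * g⁻¹) * g by group, ← h2]
  group

theorem Prim.swap {y c : G} (h : Prim y c) : Prim c⁻¹ y⁻¹ := by
  refine ⟨IsConj.inv' h.1.symm, fun hh => h.2.1 (by simpa using hh.symm.inv_inv),
    fun f h1 h2 => h.2.2 f⁻¹ (h.1.trans (by simpa using IsConj.inv' h1)) ?_⟩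
  rw [← inv_inv y, ← h2]
  group

theorem not_isConj_inv (tf : TF G) (csa : CSA G) {y : G} (hy : y ≠ 1) : ¬ IsConj y y⁻¹ := by
  intro h
  obtain ⟨s, hs⟩ := isConj_iff.1 h
  have e := csa y s hy (by rw [hs]; exact (Commute.refl y).inv_left)
  rw [e.eq, mul_inv_cancel_right] at hs
  exact hy (tf y 2 (by decide) (by rw [pow_two]; nth_rewrite 1 [hs]; exact inv_mul_cancel y))

theorem Prim.ne_one {y c : G} (h : Prim y c) : y ≠ 1 := fun hh => h.2.1 (hh ▸ Commute.one_left c)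

theorem not_commute_cs (csa : CSA G) {y c : G} (h : ¬ Commute y c) (j : ℕ) :
    ¬ Commute y (cs y c j) := by
  induction j with
  | zero => exact h
  | succ j ih =>
    exact fun hh => ih (csa y _ (fun h1 => h (h1 ▸ Commute.one_left c)) hh.symm).symm

theorem exists_prim_or {y c : G} (h1 : IsConj y c) (h2 : ¬ Commute y c) (k : ℕ) :
    ∃ f j, IsConj y f ∧ ¬ Commute y f ∧ cs y f j = c ∧ (Prim y f ∨ j = k) := by
  induction k with
  | zero => exact ⟨c, 0, h1, h2, rfl, Or.inr rfl⟩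
  | succ k ih =>
    obtain ⟨f, j, a1, a2, a3, a4 | rfl⟩ := ih
    · exact ⟨f, j, a1, a2, a3, Or.inl a4⟩
    · by_cases hp : Prim y f
      · exact ⟨f, j, a1, a2, a3, Or.inl hp⟩
      · have : ∃ f', IsConj y f' ∧ f' * y * f'⁻¹ = f := by
          by_contra hn
          exact hp ⟨a1, a2, fun f' b1 b2 => hn ⟨f', b1, b2⟩⟩
        obtain ⟨f', b1, rfl⟩ := this
        refine ⟨f', j + 1, b1, fun hh => a2 ?_, by rw [cs_succ', a3], Or.inr rfl⟩
        rw [← hh.eq, mul_inv_cancel_right]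

variable {X : Type} [MulAction G X] {d : X → X → ℕ}

theorem Big.conj {S : ℕ} {y c : G} (iso : Isom G d) (h : Big d S y c) (g : G) :
    Big d S (g * y * g⁻¹) (g * c * g⁻¹) := fun x => by
  have e : ∀ a : G, d x ((g * a * g⁻¹) • x) = d (g⁻¹ • x) (a • g⁻¹ • x) := fun a => by
    rw [← iso g⁻¹]
    simp [mul_smul]
  rw [e, e]
  exact h _

theorem Big.swap {S : ℕ} {y c : G} (m : IsMet d) (iso : Isom G d) (h : Big d S y c) :
    Big d S c⁻¹ y⁻¹ := fun x => by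
  have e : ∀ a : G, d x (a⁻¹ • x) = d x (a • x) := fun a => by
    rw [← iso a, smul_inv_smul, m.symm]
  rw [e, e]
  exact (h x).symm

end Pairs

/-- The package: apices for the `u`-short elements and representatives of the primitive pairs of
size less than `S2`, up to conjugation and the swap. -/
structure Pk (G : Type) {X : Type} [Group G] [MulAction G X] (d : X → X → ℕ) (u S2 : ℕ)
    (Ω K I : Type) [MulAction G Ω] where
  aps : ApS G Ω fun a => ∃ x : X, d x (a • x) ≤ u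
  o : K → Ω
  cls : Ω → K
  cls_o : ∀ κ, cls (o κ) = κ
  cls_smul : ∀ (g : G) ω, cls (g • ω) = cls ω
  orb : ∀ ω, ∃ g : G, ω = g • o (cls ω)
  κ : I → K
  y : I → G
  s : I → G
  y_fix : ∀ i, y i • o (κ i) = o (κ i)
  prim : ∀ τ, Prim (yy y τ) (cc y s τ)
  small : ∀ τ, ¬ Big d S2 (yy y τ) (cc y s τ)
  all : ∀ y' c' : G, Prim y' c' → ¬ Big d S2 y' c' →
    ∃ (g : G) (τ : I × Bool), g * y' * g⁻¹ = yy y τ ∧ g * c' * g⁻¹ = cc y s τ
  uniq : ∀ (τ τ' : I × Bool) (g : G), g * yy y τ * g⁻¹ = yy y τ' →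
    g * cc y s τ * g⁻¹ = cc y s τ' → τ = τ'

theorem exists_pk {G X : Type} [Group G] [MulAction G X] [Countable G] {d : X → X → ℕ} {u S2 : ℕ}
    (m : IsMet d) (iso : Isom G d) (tf : TF G) (csa : CSA G) (ct : CT G) (hu : S2 ≤ u) :
    ∃ (Ω K I : Type) (_ : MulAction G Ω) (_ : Countable I), Nonempty (Pk G d u S2 Ω K I) := by
  obtain ⟨Ω, _, aps⟩ : ∃ (Ω : Type) (_ : MulAction G Ω),
      ApS G Ω fun a => ∃ x : X, d x (a • x) ≤ u :=
    ⟨_, _, apx_apS csa ct ⟨fun a => ∃ x : X, d x (a • x) ≤ u, fun g a ⟨x, hx⟩ =>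
      ⟨g • x, by rw [← iso g⁻¹]; simpa [mul_smul] using hx⟩⟩⟩
  let K := Quotient (MulAction.orbitRel G Ω)
  have orb : ∀ ω : Ω, ∃ g : G, ω = g • (Quotient.mk _ ω : K).out := fun ω => by
    obtain ⟨g, hg⟩ := Quotient.mk_out (s := MulAction.orbitRel G Ω) ω
    exact ⟨g⁻¹, eq_inv_smul_iff.2 hg⟩
  let Pr := {p : G × G // Prim p.1 p.2 ∧ ¬ Big d S2 p.1 p.2}
  let r : Setoid Pr :=
    ⟨fun p q => ∃ g : G, (g * p.1.1 * g⁻¹ = q.1.1 ∧ g * p.1.2 * g⁻¹ = q.1.2) ∨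
      (g * p.1.2⁻¹ * g⁻¹ = q.1.1 ∧ g * p.1.1⁻¹ * g⁻¹ = q.1.2),
      fun p => ⟨1, Or.inl ⟨by simp, by simp⟩⟩,
      by
        rintro p q ⟨g, ⟨h1, h2⟩ | ⟨h1, h2⟩⟩
        · exact ⟨g⁻¹, Or.inl ⟨by rw [← h1]; group, by rw [← h2]; group⟩⟩
        · exact ⟨g⁻¹, Or.inr ⟨by rw [← h2]; group, by rw [← h1]; group⟩⟩,
      by
        rintro p q w ⟨g, ⟨h1, h2⟩ | ⟨h1, h2⟩⟩ ⟨g', ⟨h3, h4⟩ | ⟨h3, h4⟩⟩
        · exact ⟨g' * g, Or.inl ⟨by rw [← h3, ← h1]; group, by rw [← h4, ← h2]; group⟩⟩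
        · exact ⟨g' * g, Or.inr ⟨by rw [← h3, ← h2]; group, by rw [← h4, ← h1]; group⟩⟩
        · exact ⟨g' * g, Or.inr ⟨by rw [← h3, ← h1]; group, by rw [← h4, ← h2]; group⟩⟩
        · exact ⟨g' * g, Or.inl ⟨by rw [← h3, ← h2]; group, by rw [← h4, ← h1]; group⟩⟩⟩
  have ex : ∀ i : Quotient r, ∃ (κ : K) (y s : G), y • κ.out = κ.out ∧
      ∃ h : Prim y (s * y * s⁻¹) ∧ ¬ Big d S2 y (s * y * s⁻¹),
        Quotient.mk r ⟨(y, s * y * s⁻¹), h⟩ = i := by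
    intro i
    obtain ⟨⟨⟨y, c⟩, h1, h2⟩, rfl⟩ := Quotient.exists_rep i
    simp only at h1 h2
    obtain ⟨x, hx⟩ : ∃ x : X, d x (y • x) ≤ u := by
      by_contra hn
      push Not at hn
      exact h2 fun x => Or.inl (hu.trans (hn x).le)
    obtain ⟨ω, hω⟩ := aps.ex y h1.ne_one ⟨x, hx⟩
    obtain ⟨g, hg⟩ := orb ω
    obtain ⟨s, rfl⟩ := isConj_iff.1 h1.1
    have e : g⁻¹ * s * g * (g⁻¹ * y * g⁻¹⁻¹) * (g⁻¹ * s * g)⁻¹ = g⁻¹ * (s * y * s⁻¹) * g⁻¹⁻¹ := by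
      group
    refine ⟨Quotient.mk _ ω, g⁻¹ * y * g⁻¹⁻¹, g⁻¹ * s * g, ?_,
      ⟨e ▸ h1.conj g⁻¹, fun hh => h2 ?_⟩, Quotient.sound ⟨g, Or.inl ⟨by group, by group⟩⟩⟩
    · rw [inv_inv, mul_smul, mul_smul, ← hg, hω, inv_smul_eq_iff, ← hg]
    · simpa [e, mul_assoc] using hh.conj iso g
  choose κ y s h1 h2 h3 using ex
  have sw : ∀ i, Prim (y i)⁻¹ ((s i)⁻¹ * (y i)⁻¹ * (s i)⁻¹⁻¹) := fun i => by
    simpa [mul_assoc] using (h2 i).1.swap.conj (s i)⁻¹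
  refine ⟨Ω, K, Quotient r, inferInstance, inferInstance, ⟨⟨aps, Quotient.out, Quotient.mk _,
    Quotient.out_eq, fun g ω => Quotient.sound ⟨g, rfl⟩, orb, κ, y, s, h1, ?_, ?_, ?_, ?_⟩⟩⟩
  · rintro ⟨i, _ | _⟩
    exacts [sw i, (h2 i).1]
  · rintro ⟨i, _ | _⟩ hh
    · refine (h2 i).2 ?_
      simpa [yy, cc, sg, mul_assoc] using (hh.swap m iso).conj iso (s i)
    · exact (h2 i).2 hh
  · intro y' c' a1 a2
    obtain ⟨g, ⟨b1, b2⟩ | ⟨b1, b2⟩⟩ := Quotient.exact (h3 (Quotient.mk r ⟨(y', c'), a1, a2⟩)).symm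
    · exact ⟨g, (_, true), b1, b2⟩
    · simp only at b1 b2
      generalize Quotient.mk r ⟨(y', c'), a1, a2⟩ = i at b1 b2
      refine ⟨(s i)⁻¹ * g, (i, false), ?_, ?_⟩
      · simp only [yy, Bool.false_eq_true, if_false]
        rw [show (s i)⁻¹ * g * y' * ((s i)⁻¹ * g)⁻¹ = (s i)⁻¹ * (g * y'⁻¹ * g⁻¹)⁻¹ * s i by group,
          b2]
        group
      · simp only [cc, yy, sg, Bool.false_eq_true, if_false]
        rw [← b1]
        group
  · have hc : ∀ i j, IsConj (y i) (y j)⁻¹ → i ≠ j := by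
      rintro i _ hh rfl
      exact not_isConj_inv tf csa (h2 i).1.ne_one hh
    have eq1 : ∀ i j (g : G), g * y i * g⁻¹ = y j →
        g * (s i * y i * (s i)⁻¹) * g⁻¹ = s j * y j * (s j)⁻¹ → i = j := fun i j g a1 a2 =>
      (h3 i).symm.trans (Eq.trans (Quotient.sound ⟨g, Or.inl ⟨a1, a2⟩⟩) (h3 j))
    have eq2 : ∀ i j (g : G), g * (s i * y i * (s i)⁻¹)⁻¹ * g⁻¹ = y j →
        g * (y i)⁻¹ * g⁻¹ = s j * y j * (s j)⁻¹ → i = j := fun i j g a1 a2 =>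
      (h3 i).symm.trans (Eq.trans (Quotient.sound ⟨g, Or.inr ⟨a1, a2⟩⟩) (h3 j))
    rintro ⟨i, _ | _⟩ ⟨j, _ | _⟩ g a1 a2 <;>
      simp only [cc, yy, sg, Bool.false_eq_true, if_false, if_true] at a1 a2
    · have e1 : g * y i * g⁻¹ = y j := by rw [← inv_inv (y j), ← a1]; group
      refine congrArg (·, false) (eq1 i j (s j * g * (s i)⁻¹) ?_ ?_)
      · rw [show y j = s j * ((s j)⁻¹ * (y j)⁻¹ * (s j)⁻¹⁻¹)⁻¹ * (s j)⁻¹ by group, ← a2]
        group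
      · rw [← e1]
        group
    · refine absurd (eq2 j i (s i * g⁻¹) ?_ ?_) (hc j i (isConj_iff.2 ⟨g, a1⟩).symm)
      · rw [← a2]
        group
      · rw [← a1]
        group
    · refine absurd (eq2 i j (s j * g) ?_ ?_) (hc i j (isConj_iff.2 ⟨g, a1⟩))
      · rw [show s j * g * (s i * y i * (s i)⁻¹)⁻¹ * (s j * g)⁻¹ =
          s j * (g * (s i * y i * (s i)⁻¹) * g⁻¹)⁻¹ * (s j)⁻¹ by group, a2]
        group
      · rw [show s j * g * (y i)⁻¹ * (s j * g)⁻¹ = s j * (g * y i * g⁻¹)⁻¹ * (s j)⁻¹ by group, a1]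
        group
    · exact congrArg (·, true) (eq1 i j g a1 a2)

/-- Pairs that are not big are treated. -/
theorem Pk.tr {G X Ω K I : Type} [Group G] [MulAction G X] [MulAction G Ω] {d : X → X → ℕ}
    {u k A S1 S2 k0 m : ℕ} (P : Pk G d u S2 Ω K I) (L : Lev G d k A S2 k0 m)
    (mono : ∀ y c : G, IsConj y c → ¬ Commute y c → Big d S2 y c → ∀ j, Big d S1 y (cs y c j))
    {y c : G} (h1 : IsConj y c) (h2 : ¬ Commute y c) (h3 : ¬ Big d S1 y c) :
    Tr m (yy P.y) (cc P.y P.s) y c := by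
  obtain ⟨f, j, a1, a2, rfl, a4 | rfl⟩ := exists_prim_or h1 h2 k0
  · obtain ⟨g, τ, b1, b2⟩ := P.all y f a4 fun hh => h3 (mono y f a1 a2 hh j)
    exact ⟨0, Or.inr ⟨g, τ, j, b1, by rw [cs, conj_cs, b1, b2]⟩⟩
  · rcases L.gt y f a1 a2 with b | ⟨i, b1, b2⟩
    · exact ⟨0, Or.inl (b.cs j)⟩
    · have := mono y _ (isConj_cs a1 i) (not_commute_cs L.xl.csa a2 i) b2 (j - i)
      rw [cs_add, show i + (j - i) = j by omega] at this
      exact absurd this h3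

end Pool.Agent.Lib.MP_429c3d_al.Ng
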