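import Pool.Agent.Lib.MP_429c3d_al.NgPk2

/-! The algebraic package of the base stage: labels and the stage. -/

set_option autoImplicit false

namespace Pool.Agent.Lib.MP_429c3d_al.Ng

open Hyp

namespace Pk

variable {G X Ω K I : Type} [Group G] [MulAction G X] [MulAction G Ω] {d : X → X → ℕ} {u S2 : ℕ}
  (P : Pk G d u S2 Ω K I) (k1 : I × Bool → ℕ) (n : ℕ)

/-- The group of labels. -/
abbrev AA : Type :=
  (∀ κ : K, Abelianization (MulAction.stabilizer G (P.o κ))) × (I × Bool → Multiplicative ℤ)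

open Classical in
/-- The label homomorphism of a class. -/
noncomputable def lh (κ : K) : MulAction.stabilizer G (P.o κ) →* P.AA :=
  (MonoidHom.inl _ _).comp ((MonoidHom.mulSingle
    (fun κ : K => Abelianization (MulAction.stabilizer G (P.o κ))) κ).comp Abelianization.of)

/-- The label of an element of the stabiliser of the base apex. -/
noncomputable def lb (κ : K) (a : G) : P.AA :=
  open Classical in if h : a • P.o κ = P.o κ then P.lh κ ⟨a, h⟩ else 1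

theorem lb_eq {κ : K} (a : MulAction.stabilizer G (P.o κ)) : P.lb κ a = P.lh κ a := dif_pos a.2

theorem lb_mul {κ : K} {a b : G} (ha : a • P.o κ = P.o κ) (hb : b • P.o κ = P.o κ) :
    P.lb κ (a * b) = P.lb κ a * P.lb κ b := by
  have := map_mul (P.lh κ) ⟨a, ha⟩ ⟨b, hb⟩
  rwa [← P.lb_eq, ← P.lb_eq, ← P.lb_eq] at this

theorem lb_zpow {κ : K} {a : G} (ha : a • P.o κ = P.o κ) (j : ℤ) :
    P.lb κ (a ^ j) = P.lb κ a ^ j := by
  have := map_zpow (P.lh κ) ⟨a, ha⟩ j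
  rwa [← P.lb_eq, ← P.lb_eq] at this

theorem lb_inj {κ : K} {a : G} (ha : a • P.o κ = P.o κ) (h : P.lb κ a = 1) : a = 1 := by
  classical
  have e := congrArg (fun p : P.AA => p.1 κ) ((P.lb_eq ⟨a, ha⟩).symm.trans h)
  simp only [lh, MonoidHom.comp_apply, MonoidHom.inl_apply, MonoidHom.mulSingle_apply,
    Pi.mulSingle_eq_same, Prod.fst_one, Pi.one_apply] at e
  exact congrArg Subtype.val (abel_inj (fun a b => Subtype.ext (P.aps.comm _ _ _ a.2 b.2).eq) e)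

theorem lb_eq_iff {κ : K} {a b : G} (ha : a • P.o κ = P.o κ) (hb : b • P.o κ = P.o κ)
    (h : P.lb κ a = P.lb κ b) : a = b := by
  have hb' : b ^ (-1 : ℤ) • P.o κ = P.o κ := by rw [zpow_neg_one, inv_smul_eq_iff, hb]
  have := P.lb_inj (a := a * b ^ (-1 : ℤ)) (by rw [mul_smul, hb', ha])
    (by rw [P.lb_mul ha hb', P.lb_zpow hb, h, zpow_neg_one, mul_inv_cancel])
  rwa [zpow_neg_one, mul_inv_eq_one] at this

theorem lb_snd (κ : K) (a : G) : (P.lb κ a).2 = 1 := by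
  unfold lb
  split_ifs <;> rfl

theorem tf_AA (tf : TF G) : TF P.AA := by
  intro g m hm hg
  refine Prod.ext (funext fun κ => ?_) (funext fun τ => ?_)
  · have e : g.1 κ ^ m = 1 := congrArg (fun p : P.AA => p.1 κ) hg
    obtain ⟨a, ha⟩ : ∃ a, Abelianization.of a = g.1 κ := Quot.exists_rep _
    rw [← ha, ← map_pow] at e
    have := abel_inj (fun a b => Subtype.ext (P.aps.comm _ _ _ a.2 b.2).eq) e
    rw [← ha, show a = 1 from Subtype.ext (tf a m hm (congrArg Subtype.val this)), map_one]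
    rfl
  · have e : g.2 τ ^ m = 1 := congrArg (fun p : P.AA => p.2 τ) hg
    have := congrArg Multiplicative.toAdd e
    rw [toAdd_pow, toAdd_one, smul_eq_zero] at this
    exact Multiplicative.toAdd.injective (this.resolve_left hm)

/-- A translation from the base apex. -/
noncomputable def tr0 (ω : Ω) : G := (P.orb ω).choose

theorem tr0_spec (ω : Ω) : ω = P.tr0 ω • P.o (P.cls ω) := (P.orb ω).choose_spec

/-- Labels. -/
noncomputable def lab : X ⊕ Ω → G → P.AA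
  | .inl _, _ => 1
  | .inr ω, a => P.lb (P.cls ω) ((P.tr0 ω)⁻¹ * a * P.tr0 ω)

/-- Differences of link points. -/
noncomputable def df (δ : K → X ⊕ Ω → P.AA) : X ⊕ Ω → X ⊕ Ω → X ⊕ Ω → P.AA
  | .inl _, _, _ => 1
  | .inr ω, x, x' => (δ (P.cls ω) ((P.tr0 ω)⁻¹ • x))⁻¹ * δ (P.cls ω) ((P.tr0 ω)⁻¹ • x')

/-- The base stage. -/
noncomputable abbrev st (κ₀ : K) (dS : X ⊕ Ω → X ⊕ Ω → ℕ) (δ : K → X ⊕ Ω → P.AA) :
    St P.AA (Nm (N0 G X Ω) (I × Bool)) K where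
  G := G
  Z := X ⊕ Ω
  d := dS
  ap := fun z => z.isRight = true
  cls := Sum.elim (fun _ => κ₀) P.cls
  nm := P.nm k1 n
  df := P.df δ
  lab := P.lab

/-- The normalisation of the coordinates of link points. -/
structure Dl (δ : K → X ⊕ Ω → P.AA) : Prop where
  eqv : ∀ κ (a : G) x, a • P.o κ = P.o κ → x ≠ .inr (P.o κ) → δ κ (a • x) = P.lb κ a * δ κ x
  mem : ∀ κ x, ∃ a : G, a • P.o κ = P.o κ ∧ δ κ x = P.lb κ a
  dE : ∀ τ h, 1 ≤ h → h ≤ n → δ (P.κ τ.1) (.inr (P.PP k1 τ h)) =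
    P.lb (P.κ τ.1) (yy P.y τ) ^ (h + k1 τ - 1) * δ (P.κ τ.1) (.inr (P.PP k1 τ 0))
  dF : ∀ τ h, 1 ≤ h → h + 1 ≤ n → δ (P.κ τ.1) (.inr ((P.CC k1 τ h)⁻¹ • P.oo τ)) =
    δ (P.κ τ.1) (.inr (P.PP k1 τ (h + 1)))

theorem yy_fix (τ : I × Bool) : yy P.y τ • P.o (P.κ τ.1) = P.o (P.κ τ.1) := by
  unfold yy
  split_ifs
  exacts [P.y_fix _, inv_smul_eq_iff.2 (P.y_fix _).symm]

include P in
theorem free2 (hf : Free G X) : Free2 G (X ⊕ Ω) := by
  rintro a (x | x) (y | y) h1 h2 hne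
  exacts [hf a x (Sum.inl.inj h1), hf a x (Sum.inl.inj h1), hf a y (Sum.inl.inj h2),
    P.aps.two a x y (Sum.inr.inj h1) (Sum.inr.inj h2) fun hh => hne (congrArg _ hh)]

theorem tr0_fix (g : G) (κ : K) : ((P.tr0 (g • P.o κ))⁻¹ * g) • P.o κ = P.o κ := by
  have := P.tr0_spec (g • P.o κ)
  rw [P.cls_smul, P.cls_o] at this
  rw [mul_smul, inv_smul_eq_iff, ← this]

theorem lab_eq (g : G) {κ : K} {a : G} (ha : a • P.o κ = P.o κ) :
    P.lab (.inr (g • P.o κ)) (g * a * g⁻¹) = P.lb κ a := by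
  have e := (P.aps.comm _ _ _ (P.tr0_fix g κ) ha).eq
  rw [lab, P.cls_smul, P.cls_o, show (P.tr0 (g • P.o κ))⁻¹ * (g * a * g⁻¹) * P.tr0 (g • P.o κ) =
    ((P.tr0 (g • P.o κ))⁻¹ * g * a) * ((P.tr0 (g • P.o κ))⁻¹ * g)⁻¹ by group, e,
    mul_inv_cancel_right]

theorem lab_o {κ : K} {a : G} (ha : a • P.o κ = P.o κ) : P.lab (.inr (P.o κ)) a = P.lb κ a := by
  simpa using P.lab_eq 1 ha

variable {P k1 n} {dS : X ⊕ Ω → X ⊕ Ω → ℕ} {δ : K → X ⊕ Ω → P.AA}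

theorem Dl.df_eq (D : P.Dl k1 n δ) (g : G) (κ : K) {x x' : X ⊕ Ω} (hx : x ≠ .inr (P.o κ))
    (hx' : x' ≠ .inr (P.o κ)) :
    P.df δ (.inr (g • P.o κ)) (g • x) (g • x') = (δ κ x)⁻¹ * δ κ x' := by
  rw [df, P.cls_smul, P.cls_o, ← mul_smul, ← mul_smul, D.eqv _ _ _ (P.tr0_fix g κ) hx,
    D.eqv _ _ _ (P.tr0_fix g κ) hx', mul_inv_rev, mul_assoc, inv_mul_cancel_left]

theorem Dl.df_o (D : P.Dl k1 n δ) (κ : K) {x x' : X ⊕ Ω} (hx : x ≠ .inr (P.o κ))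
    (hx' : x' ≠ .inr (P.o κ)) : P.df δ (.inr (P.o κ)) x x' = (δ κ x)⁻¹ * δ κ x' := by
  simpa using D.df_eq 1 κ hx hx'

theorem Geo.ne (H : P.Geo k1 n dS) {x y : X ⊕ Ω} (h : dS x y = 1) : y ≠ x := fun hh => by
  rw [hh, H.gr.met.self] at h
  exact absurd h (by decide)

theorem Geo.exists_dl (H : P.Geo k1 n dS) (hf : Free G X) : ∃ δ, P.Dl k1 n δ := by
  have key : ∀ κ : K, ∃ δ : X ⊕ Ω → P.AA,
      (∀ (a : G) x, a • P.o κ = P.o κ → x ≠ .inr (P.o κ) → δ (a • x) = P.lb κ a * δ x) ∧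
      (∀ x, ∃ a : G, a • P.o κ = P.o κ ∧ δ x = P.lb κ a) ∧
      (∀ τ h, P.κ τ.1 = κ → 1 ≤ h → h ≤ n → δ (.inr (P.PP k1 τ h)) =
        P.lb κ (yy P.y τ) ^ (h + k1 τ - 1) * δ (.inr (P.PP k1 τ 0))) ∧
      ∀ τ h, P.κ τ.1 = κ → 1 ≤ h → h + 1 ≤ n → δ (.inr ((P.CC k1 τ h)⁻¹ • P.oo τ)) =
        δ (.inr (P.PP k1 τ (h + 1))) := by
    intro κ
    have fr : ∀ (a : MulAction.stabilizer G (P.o κ)) (x : X ⊕ Ω), x ≠ .inr (P.o κ) → a • x = x →
        a = 1 := fun a x h1 h2 =>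
      Subtype.ext (P.free2 hf a x (.inr (P.o κ)) h2 (congrArg Sum.inr a.2) h1)
    obtain ⟨δ0, a1, a2⟩ := exists_delta0 (P.lh κ) (F := fun x : X ⊕ Ω => x ≠ .inr (P.o κ))
      (fun a x h1 h2 => h1 (by
        have e : (a : G) • (Sum.inr (P.o κ) : X ⊕ Ω) = .inr (P.o κ) := congrArg Sum.inr a.2
        exact smul_left_cancel (a : G) (h2.trans e.symm))) fr
    let J := {ν : (I × Bool) × Bool × ℕ // P.κ ν.1.1 = κ ∧ 1 ≤ ν.2.2 ∧ ν.2.2 ≤ n}
    let x : J → X ⊕ Ω := fun ν => .inr (if ν.1.2.1 then P.PP k1 ν.1.1 ν.1.2.2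
      else (P.CC k1 ν.1.1 (ν.1.2.2 - 1))⁻¹ • P.oo ν.1.1)
    have fg : ∀ ν : J, P.IsFg k1 n (.inr (P.o κ)) (x ν) (ν.1.1, ν.1.2.1, ν.1.2.2) := by
      rintro ⟨⟨τ, _ | _, h⟩, rfl, h1, h2⟩
      · obtain ⟨h, rfl⟩ : ∃ h', h = h' + 1 := ⟨h - 1, by simp only at h1; omega⟩
        simpa [x, PP, oo] using (isFg_F (P := P) (k1 := k1) (τ := τ) h1 h2).smul (P.CC k1 τ h)⁻¹
      · exact isFg_E h1 h2
    have fg' : ∀ (a : MulAction.stabilizer G (P.o κ)) (ν : J),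
        P.IsFg k1 n (.inr (P.o κ)) (a • x ν) (ν.1.1, ν.1.2.1, ν.1.2.2) := fun a ν => by
      have e : (a : G) • (Sum.inr (P.o κ) : X ⊕ Ω) = .inr (P.o κ) := congrArg Sum.inr a.2
      have := (fg ν).smul a
      rwa [e] at this
    obtain ⟨δ, b1, b2, b3, b4⟩ := exists_delta (P.lh κ) fr x (fun ν hh => by
        obtain ⟨h, g, -, -, h3, ⟨-, e1, e2⟩ | ⟨-, e1, e2⟩⟩ := fg ν
        · exact H.ne (H.adj _ h h3) (congrArg Sum.inr (smul_left_cancel g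
            (Sum.inr.inj (e2.symm.trans (hh.trans e1)))))
        · exact H.ne (H.adj _ h h3) (congrArg Sum.inr (smul_left_cancel g
            (Sum.inr.inj (e1.symm.trans (hh.symm.trans e2))))))
      (fun a ν ν' hh => by
        have := H.uniq (fg' a ν) (hh ▸ fg ν')
        simp only [Prod.mk.injEq, Nat.cast_inj] at this
        exact Subtype.ext (Prod.ext this.1 (Prod.ext this.2.1 this.2.2))) a1
      fun ν => P.lb κ (yy P.y ν.1.1) ^ (ν.1.2.2 + k1 ν.1.1 - 1) * δ0 (.inr (P.PP k1 ν.1.1 0))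
    have b5 : ∀ τ, P.κ τ.1 = κ → δ (.inr (P.PP k1 τ 0)) = δ0 (.inr (P.PP k1 τ 0)) := by
      rintro τ rfl
      exact b3 _ fun a ν hh => H.not_isFg τ _ (hh ▸ fg' a ν)
    refine ⟨δ, fun a x h1 h2 => ?_, fun y => ?_, fun τ h h0 h1 h2 => ?_, fun τ h h0 h1 h2 => ?_⟩
    · exact (b1 ⟨a, h1⟩ x h2).trans (by rw [← P.lb_eq])
    · rcases b4 y with e | ⟨a, ⟨⟨τ, b, h⟩, rfl, h0⟩, e⟩
      · obtain ⟨a, ha⟩ := a2 y
        exact ⟨a, a.2, by rw [e, ha, P.lb_eq]⟩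
      · obtain ⟨a', ha'⟩ := a2 (.inr (P.PP k1 τ 0))
        refine ⟨_, (a * (⟨_, P.yy_fix τ⟩ ^ (h + k1 τ - 1) * a') : MulAction.stabilizer G _).2, ?_⟩
        rw [e, ha', P.lb_eq, map_mul, map_mul, map_pow, ← P.lb_eq ⟨_, P.yy_fix τ⟩]
    · rw [b5 τ h0]
      exact b2 ⟨(τ, true, h), h0, h1, h2⟩
    · exact (b2 ⟨(τ, false, h + 1), h0, by simp, h2⟩).trans
        (b2 ⟨(τ, true, h + 1), h0, by simp, h2⟩).symm
  choose δ h1 h2 h3 h4 using key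
  exact ⟨δ, h1, h2, fun τ h => h3 _ τ h rfl, fun τ h => h4 _ τ h rfl⟩

theorem exists_apex {z : X ⊕ Ω} (h : z.isRight = true) : ∃ (g : G) (κ : K), z = .inr (g • P.o κ) := by
  rcases z with x | ω
  · exact absurd h (by simp)
  · exact ⟨_, _, congrArg _ (P.tr0_spec ω)⟩

theorem Geo.ok (H : P.Geo k1 n dS) (D : P.Dl k1 n δ) (hf : Free G X) (κ₀ : K) :
    (P.st k1 n κ₀ dS δ).OK := by
  have ne : ∀ {g : G} {κ : K} {x : X ⊕ Ω}, dS (.inr (g • P.o κ)) x = 1 →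
      g⁻¹ • x ≠ .inr (P.o κ) := fun h hh => H.ne h (inv_smul_eq_iff.1 hh)
  have df' : ∀ {g : G} {κ : K} {x x' : X ⊕ Ω}, dS (.inr (g • P.o κ)) x = 1 →
      dS (.inr (g • P.o κ)) x' = 1 →
      P.df δ (.inr (g • P.o κ)) x x' = (δ κ (g⁻¹ • x))⁻¹ * δ κ (g⁻¹ • x') :=
    fun {g κ x x'} h h' => by simpa using D.df_eq g κ (ne h) (ne h')
  refine ⟨H.gr, H.iso, ?_, ?_, ?_, P.free2 hf, ?_, fun g α x _ => H.nm_smul g α x,
    fun _ _ _ _ _ _ h => nm_orb h, ?_, ?_, ?_, ?_⟩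
  · rintro g (x | x) h
    exacts [h, rfl]
  · rintro g (x | x)
    exacts [rfl, P.cls_smul g x]
  · rintro g (x | x) h1 h2
    exacts [hf g x (Sum.inl.inj h2), absurd rfl h1]
  · rintro (x | x) h
    exacts [absurd h (by simp), H.nb x]
  · rintro (g : G) α (x : X ⊕ Ω) (x' : X ⊕ Ω) ⟨h1, h2⟩ ⟨-, h3⟩
    obtain ⟨g', κ, rfl⟩ := exists_apex (P := P) h1
    have := D.df_eq (g * g') κ (ne h2) (ne h3)
    rw [← df' h2 h3, mul_smul, mul_smul, mul_smul, smul_inv_smul, smul_inv_smul] at this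
    exact this
  · rintro (x | ω) y y' y'' ⟨h, -⟩ - -
    · exact absurd h (by simp)
    · simp [df]
  · rintro α (x : X ⊕ Ω) (a : G) ⟨h1, h2⟩ ha
    obtain ⟨g, κ, rfl⟩ := exists_apex (P := P) h1
    have ha' : (g⁻¹ * a * g) • P.o κ = P.o κ := by
      rw [mul_smul, mul_smul, show a • g • P.o κ = g • P.o κ from Sum.inr.inj ha, inv_smul_smul]
    have e1 := D.df_eq g κ (ne h2) (x' := (g⁻¹ * a * g) • g⁻¹ • x) fun hh => ne h2
      (smul_left_cancel (g⁻¹ * a * g) (hh.trans (congrArg Sum.inr ha'.symm)))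
    have e2 := P.lab_eq g ha'
    rw [D.eqv _ _ _ ha' (ne h2), mul_comm (P.lb _ _), inv_mul_cancel_left, ← e2] at e1
    simpa [mul_smul, mul_assoc] using e1
  · rintro α (a : G) h1 ha h2
    obtain ⟨g, κ, rfl⟩ := exists_apex (P := P) h1
    have ha' : (g⁻¹ * a * g) • P.o κ = P.o κ := by
      rw [mul_smul, mul_smul, show a • g • P.o κ = g • P.o κ from Sum.inr.inj ha, inv_smul_smul]
    have e2 := P.lab_eq g ha'
    rw [show g * (g⁻¹ * a * g) * g⁻¹ = a by group] at e2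
    have := P.lb_inj ha' (e2.symm.trans h2)
    simpa using conj_eq_one_iff.1 (show g⁻¹ * a * g⁻¹⁻¹ = 1 by simpa using this)

theorem apL_iff {κ₀ : K} {c : G} {κ : K} {η : P.AA} (h : (P.st k1 n κ₀ dS δ).ApL c κ η) :
    ∃ g a : G, a • P.o κ = P.o κ ∧ P.lb κ a = η ∧ c = g * a * g⁻¹ := by
  obtain ⟨α, h1, h2, h3, h4⟩ := h
  obtain ⟨g, κ', rfl⟩ := exists_apex (P := P) h1
  obtain rfl : κ' = κ := by
    rw [← h2]
    exact ((P.cls_smul g _).trans (P.cls_o _)).symm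
  have ha' : (g⁻¹ * c * g) • P.o κ' = P.o κ' := by
    rw [mul_smul, mul_smul, show c • g • P.o κ' = g • P.o κ' from Sum.inr.inj h3, inv_smul_smul]
  have e2 := P.lab_eq g ha'
  rw [show g * (g⁻¹ * c * g) * g⁻¹ = c by group] at e2
  exact ⟨g, _, ha', e2.symm.trans h4, by group⟩

theorem isConj_of_preC {κ₀ : K} {y c : G} (h : (P.st k1 n κ₀ dS δ).PreC y c) : IsConj y c := by
  rcases h with h | ⟨κ, η, h1, h2⟩
  · exact h
  · obtain ⟨g, a, a1, a2, rfl⟩ := apL_iff h1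
    obtain ⟨g', a', b1, b2, rfl⟩ := apL_iff h2
    rw [P.lb_eq_iff a1 b1 (a2.trans b2.symm)]
    exact (isConj_conj g a').symm.trans (isConj_conj g' a')

theorem qp {κ₀ : K} (qq : QQ G) : (P.st k1 n κ₀ dS δ).QP := by
  intro c c' z κ η ζ hη h1 h2 h3 e
  obtain ⟨g, a, a1, a2, rfl⟩ := apL_iff h1
  obtain ⟨g', a', b1, b2, b3⟩ := apL_iff h2
  obtain ⟨g'', z₀, c1, -, rfl⟩ := apL_iff h3
  obtain rfl := P.lb_eq_iff a1 b1 (a2.trans b2.symm)
  have ha : a ≠ 1 := by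
    rintro rfl
    exact hη (by rw [← a2]; simpa using P.lb_zpow (one_smul G (P.o κ)) 0)
  refine qq (g'' * a * g''⁻¹) (g * g''⁻¹) (g' * g''⁻¹) _ (fun hh => ha (conj_eq_one_iff.1 hh))
    ((P.aps.comm _ _ _ c1 a1).conj g'') ?_
  rw [show g' * g''⁻¹ * (g'' * a * g''⁻¹) * (g' * g''⁻¹)⁻¹ = g' * a * g'⁻¹ by group, ← b3,
    show g * g''⁻¹ * (g'' * a * g''⁻¹) * (g * g''⁻¹)⁻¹ = g * a * g⁻¹ by group]
  exact e

end Pk

end Pool.Agent.Lib.MP_429c3d_al.Ng
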