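import Pool.Agent.Lib.MP_429c3d_al.NgPk3
import Pool.Agent.Lib.MP_429c3d_al.NgOver

/-! The base stage from the geometric facts. -/

set_option autoImplicit false

namespace Pool.Agent.Lib.MP_429c3d_al.Ng

open Hyp

theorem LF.inr {G X Ω : Type} [Group G] [MulAction G X] [MulAction G Ω] {t : Ω} {e : G} {N : ℕ}
    (h : LF t e N) : LF (Sum.inr t : X ⊕ Ω) e N := fun l j h1 h2 h3 hh =>
  h l j h1 h2 (fun p hp => ⟨(h3 p hp).1, (h3 p hp).2.1, Sum.inr.inj (h3 p hp).2.2⟩)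
    (Sum.inr.inj hh)

namespace Pk

variable {G X Ω K I : Type} [Group G] [MulAction G X] [MulAction G Ω] {d : X → X → ℕ} {u S2 : ℕ}
  {P : Pk G d u S2 Ω K I} {k1 : I × Bool → ℕ} {n : ℕ} {dS : X ⊕ Ω → X ⊕ Ω → ℕ}
  {δ : K → X ⊕ Ω → P.AA}

theorem conj_eq {κ : K} {a g g' : G} (ha : a • P.o κ = P.o κ) (h : g • P.o κ = g' • P.o κ) :
    g * a * g⁻¹ = g' * a * g'⁻¹ := by
  have e := (P.aps.comm (g'⁻¹ * g) a _ (by rw [mul_smul, h, inv_smul_smul]) ha).eq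
  rw [show g * a * g⁻¹ = g' * (g'⁻¹ * g * a) * g⁻¹ by group, e]
  group

theorem cls_eq {κ κ' : K} {g g' : G} (h : g • P.o κ = g' • P.o κ') : κ = κ' := by
  rw [← P.cls_o κ, ← P.cls_smul g, h, P.cls_smul, P.cls_o]

theorem np (κ₀ : K) (i : I) : (P.st k1 n κ₀ dS δ).NP (.inr (P.o (P.κ i)))
    (P.s i • .inr (P.o (P.κ i))) (P.lab (.inr (P.o (P.κ i))) (P.y i)) := by
  intro f hf e
  obtain ⟨g, a, a1, a2, rfl⟩ := apL_iff hf
  simp only [Sum.elim_inr, P.cls_o] at a1 a2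
  obtain rfl := P.lb_eq_iff a1 (P.y_fix i) (a2.trans (P.lab_o (P.y_fix i)))
  exact (P.prim (i, true)).2.2 _ (isConj_conj g _) (conj_eq a1 (Sum.inr.inj e))

theorem ineq (i j : I) (g : G) (h1 : g • P.o (P.κ i) = P.o (P.κ j))
    (h2 : g • P.s i • P.o (P.κ i) = P.s j • P.o (P.κ j))
    (h3 : P.lab (.inr (P.o (P.κ i))) (P.y i) = P.lab (.inr (P.o (P.κ j))) (P.y j)) : i = j := by
  have e := cls_eq (h1.trans (one_smul G _).symm)
  have yi := P.y_fix i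
  have yj := P.y_fix j
  rw [P.lab_o yi, P.lab_o yj] at h3
  rw [← e] at h1 h2 h3 yj
  have e1 := P.lb_eq_iff yi yj h3
  refine congrArg Prod.fst (P.uniq (i, true) (j, true) g ?_ ?_)
  · exact (conj_eq yi (h1.trans (one_smul G _).symm)).trans (by simp [yy, e1])
  · have := conj_eq yi ((mul_smul _ _ _).trans h2)
    simp only [cc, yy, sg, if_true, ← e1, ← this]
    group

theorem ineq' (i j : I) (g : G) (h1 : g • P.o (P.κ i) = P.s j • P.o (P.κ j))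
    (h2 : g • P.s i • P.o (P.κ i) = P.o (P.κ j)) :
    P.lab (.inr (P.o (P.κ i))) (P.y i) ≠ (P.lab (.inr (P.o (P.κ j))) (P.y j))⁻¹ := by
  intro h3
  have e := cls_eq h1
  have yi := P.y_fix i
  have yj := P.y_fix j
  rw [P.lab_o yi, P.lab_o yj, ← zpow_neg_one, ← P.lb_zpow yj, zpow_neg_one] at h3
  rw [← e] at h1 h2 h3 yj
  have e1 := P.lb_eq_iff yi (inv_smul_eq_iff.2 yj.symm) h3
  have := P.uniq (i, true) (j, false) ((P.s j)⁻¹ * g) (by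
    have := conj_eq yi h1
    simp only [yy, if_true, Bool.false_eq_true, if_false, ← e1]
    rw [show (P.s j)⁻¹ * g * P.y i * ((P.s j)⁻¹ * g)⁻¹ =
      (P.s j)⁻¹ * (g * P.y i * g⁻¹) * P.s j by group, this]
    group) (by
    have := conj_eq yi (((mul_smul _ _ _).trans h2).trans (one_smul G _).symm)
    simp only [cc, yy, sg, if_true, Bool.false_eq_true, if_false, ← e1]
    rw [show (P.s j)⁻¹ * g * (P.s i * P.y i * (P.s i)⁻¹) * ((P.s j)⁻¹ * g)⁻¹ =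
      (P.s j)⁻¹ * (g * P.s i * P.y i * (g * P.s i)⁻¹) * P.s j by group, this]
    group)
  exact absurd (congrArg Prod.snd this) (by simp)

theorem df_mem (D : P.Dl k1 n δ) (κ₀ : K) (α x x' : X ⊕ Ω) (hα : α.isRight = true) :
    ∃ (κ : K) (a : G), (P.st k1 n κ₀ dS δ).cls α = κ ∧ a • P.o κ = P.o κ ∧
      P.df δ α x x' = P.lb κ a := by
  rcases α with α | ω
  · exact absurd hα (by simp)
  obtain ⟨a, a1, a2⟩ := D.mem (P.cls ω) ((P.tr0 ω)⁻¹ • x)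
  obtain ⟨b, b1, b2⟩ := D.mem (P.cls ω) ((P.tr0 ω)⁻¹ • x')
  have a3 : a ^ (-1 : ℤ) • P.o (P.cls ω) = P.o (P.cls ω) := by
    rw [zpow_neg_one, inv_smul_eq_iff, a1]
  exact ⟨P.cls ω, a ^ (-1 : ℤ) * b, rfl, by rw [mul_smul, b1, a3],
    by rw [df, a2, b2, P.lb_mul a3 b1, P.lb_zpow a1, zpow_neg_one]⟩

open Classical in
/-- The data of the base stage. -/
noncomputable def base (H : P.Geo k1 n dS) (D : P.Dl k1 n δ) (tf : TF G) (κ₀ : K)
    (hk : ∀ τ, 1 ≤ k1 τ) : Base (I := I) (P.st k1 n κ₀ dS δ) n where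
  o := fun κ => .inr (P.o κ)
  κ := P.κ
  y := P.y
  s := P.s
  k1 := k1
  P := fun τ h => .inr (P.PP k1 τ h)
  ζ := fun τ => (1, Pi.mulSingle τ (Multiplicative.ofAdd (-1)))
  χ := fun τ => (Pi.evalMonoidHom (fun _ => Multiplicative ℤ) τ).comp (MonoidHom.snd _ _)
  tfA := P.tf_AA tf
  ap_o := fun _ => rfl
  cls_o := P.cls_o
  orb := by
    rintro (x | ω) h
    exacts [absurd h (by simp), ⟨_, congrArg Sum.inr (P.tr0_spec ω)⟩]
  df_mem := fun α x x' h _ => by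
    obtain ⟨κ, a, rfl, h1, h2⟩ := df_mem (dS := dS) D κ₀ α x x' h.1
    exact ⟨a, congrArg Sum.inr h1, (P.lab_o h1).trans h2.symm⟩
  χ_df := fun τ α x x' h _ => by
    obtain ⟨κ, a, -, -, h2⟩ := df_mem (dS := dS) D κ₀ α x x' h.1
    change (P.df δ α x x').2 τ = 1
    rw [h2, P.lb_snd, Pi.one_apply]
  χ_self := fun τ => by simp
  χ_ne := fun τ τ' h => by simp [Pi.mulSingle_eq_of_ne h]
  y_fix := fun i => congrArg Sum.inr (P.y_fix i)
  y_ne := fun i => (P.prim (i, true)).ne_one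
  k1_pos := hk
  P_zero := fun _ => rfl
  P_succ := fun _ _ => rfl
  adj := H.adj
  nmE := fun _ _ h1 h2 => H.nm_eq (isFg_E h1 h2)
  nmF := fun _ _ h1 h2 => H.nm_eq (isFg_F h1 h2)
  nm_rng := fun α x τ b h _ hn => by
    obtain ⟨h', -, h1, h2, h3, -⟩ := isFg_of_nm hn
    simp only at h1
    omega
  nm_zero := fun τ => by
    rcases nm_cases (P := P) (k1 := k1) (n := n) (.inr (P.oo τ)) (.inr (P.PP k1 τ 0)) with
      ⟨ν, h1, -⟩ | ⟨-, h2⟩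
    · exact absurd h1 (H.not_isFg τ ν)
    · exact congrArg Nm.ht h2
  dfE := fun τ h h1 h2 => by
    have := D.df_o _ (H.ne (H.adj τ 0 (by omega))) (H.ne (H.adj τ h h2))
    rw [D.dE τ h h1 h2, mul_comm (_ ^ _), inv_mul_cancel_left, ← P.lab_o (P.yy_fix τ)] at this
    exact this
  dfF := fun τ h h1 h2 => by
    have e := H.ne (H.adj τ (h + 1) h2)
    have := D.df_o _ e (x' := .inr ((P.CC k1 τ h)⁻¹ • P.oo τ)) fun hh =>
      e (congrArg Sum.inr (inv_smul_eq_iff.1 (Sum.inr.inj hh)).symm)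
    rw [D.dF τ h h1 h2, inv_mul_cancel] at this
    exact this
  lf := fun τ h N h1 h2 => (H.lf τ h N h1 h2).inr
  np := np κ₀
  ineq := fun i j g h1 h2 => ineq i j g (Sum.inr.inj h1) (Sum.inr.inj h2)
  ineq' := fun i j g h1 h2 => ineq' i j g (Sum.inr.inj h1) (Sum.inr.inj h2)

/-- The base stage from the geometric facts. -/
theorem st0_of {k A S1 k0 m kS cS l0 D L f Pw Kk S' kk : ℕ} (Lv : Lev G d k A S2 k0 m)
    (hsh : ∃ (a : G) (x : X), a ≠ 1 ∧ d x (a • x) ≤ u) (H : P.Geo k1 n dS)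
    (hk : ∀ τ, 1 ≤ k1 τ) (hk' : ∀ τ, k1 τ ≤ kk)
    (mono : ∀ y c : G, IsConj y c → ¬ Commute y c → Big d S2 y c → ∀ j, Big d S1 y (cs y c j))
    (hyp : Hyp4 dS kS) (det : Det dS (fun z => z.isRight = true) (P.nm k1 n) dnm l0 D)
    (ta : TAm G dS cS) (ai : AI G dS L f) (pw : PW G dS Pw L)
    (gt0 : ∀ y c : G, IsConj y c → ¬ Commute y c → Big d S1 y c →
      Tr m (yy P.y) (cc P.y P.s) y c ∨ Esc dS Kk S' y c) :
    ∃ (AA N0 : Type) (_ : CommGroup AA) (S : St AA (Nm N0 (I × Bool)) K) (B : Base S n),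
      Nonempty (Over G d B u S1 kk m) ∧ S.OK ∧ S.MI dnm kS cS l0 D L f Pw ∧ S.Alg ∧
        S.GT (Tr m (yy B.y) (cc B.y B.s)) Kk S' := by
  obtain ⟨a, x, ha, hx⟩ := hsh
  obtain ⟨ω, -⟩ := P.aps.ex a ha ⟨x, hx⟩
  obtain ⟨δ, hδ⟩ := H.exists_dl Lv.free
  refine ⟨_, _, inferInstance, P.st k1 n (P.cls ω) dS δ, base H hδ Lv.xl.tf _ hk,
    ⟨⟨MonoidHom.id G, Sum.inl, fun _ _ h => h, fun _ _ => rfl, fun _ h => absurd h (by simp),
      H.le, hk', fun y c h1 h2 h3 => P.tr Lv mono h1 h2 h3⟩⟩, H.ok hδ Lv.free _,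
    ⟨hyp, det, ta, ai, pw⟩, ⟨Lv.xl.tf, Lv.xl.csa, Lv.xl.ct, qp Lv.qq, Lv.qq, Lv.p1⟩,
    fun y c h1 h2 => ?_⟩
  by_cases h3 : Big d S1 y c
  · exact gt0 y c (isConj_of_preC h1) h2 h3
  · exact Or.inl (P.tr Lv mono (isConj_of_preC h1) h2 h3)

end Pk

end Pool.Agent.Lib.MP_429c3d_al.Ng
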