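import Pool.Agent.Lib.MP_429c3d_al.NgFoot

/-! The betweenness relation of the tree of copies: a pretree with finite intervals. -/

set_option autoImplicit false

namespace Pool.Agent.Lib.MP_429c3d_al.Ng

open Hyp

/-- Pretrees with finite intervals; `B x v y` says that `v` lies between `x` and `y`. -/
structure Pre {V : Type} (O : V → Prop) (B : V → V → V → Prop) : Prop where
  old : ∀ x v y, B x v y → O x ∧ O v ∧ O y
  symm : ∀ x v y, B x v y → B y v x
  left : ∀ x y, O x → O y → B x x y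
  split : ∀ x v y z, O z → B x v y → B x v z ∨ B z v y
  anti : ∀ x v y, B x v y → B x y v → v = y
  fin : ∀ x y, {v | B x v y}.Finite

/-- The number of points of an interval. -/
noncomputable def cnt {V : Type} (B : V → V → V → Prop) (x y : V) : ℕ := {v | B x v y}.ncard

namespace Pre

variable {V : Type} {O : V → Prop} {B : V → V → V → Prop} (P : Pre O B) {x y z u v : V}

include P

theorem right (hx : O x) (hy : O y) : B x y y := P.symm _ _ _ (P.left y x hy hx)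

theorem eq_of_self (h : B x v x) : v = x :=
  P.anti x v x h (P.left _ _ (P.old _ _ _ h).1 (P.old _ _ _ h).2.1)

theorem sub (h : B x v y) (h' : B x u v) : B x u y := by
  rcases P.split _ _ _ y (P.old _ _ _ h).2.2 h' with h1 | h1
  · exact h1
  · rcases P.split _ _ _ u (P.old _ _ _ h').2.1 h with h2 | h2
    · exact P.anti _ _ _ h' h2 ▸ h
    · exact P.anti _ _ _ h1 (P.symm _ _ _ h2) ▸ h

theorem sub' (h : B x v y) (h' : B v u y) : B x u y :=
  P.symm _ _ _ (P.sub (P.symm _ _ _ h) (P.symm _ _ _ h'))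

theorem total (h : B x u y) (h' : B x v y) : B x u v ∨ B x v u := by
  rcases P.split _ _ _ v (P.old _ _ _ h').2.1 h with h1 | h1
  · exact Or.inl h1
  · rcases P.split _ _ _ u (P.old _ _ _ h).2.1 h' with h2 | h2
    · exact Or.inr h2
    · obtain rfl := P.anti _ _ _ (P.symm _ _ _ h1) (P.symm _ _ _ h2)
      exact Or.inl (P.right (P.old _ _ _ h).1 (P.old _ _ _ h).2.1)

theorem inter (h : B x v y) (h1 : B x u v) (h2 : B v u y) : u = v := by
  rcases P.split _ _ _ u (P.old _ _ _ h1).2.1 h with h3 | h3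
  · exact P.anti _ _ _ h1 h3
  · exact P.anti _ _ _ (P.symm _ _ _ h2) (P.symm _ _ _ h3)

/-- If `u` is before `v` on the way to `y` then `v` is between `u` and `y`. -/
theorem after (h : B x v y) (h1 : B x u v) : B u v y := by
  rcases P.split _ _ _ u (P.old _ _ _ h1).2.1 h with h3 | h3
  · rw [P.anti _ _ _ h1 h3]
    exact P.left _ _ (P.old _ _ _ h).2.1 (P.old _ _ _ h).2.2
  · exact h3

theorem glue (h : B x u v) (h' : B u v y) (hne : u ≠ v) : B x v y := by
  rcases P.split _ _ _ x (P.old _ _ _ h).1 h' with h1 | h1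
  · exact absurd (P.anti _ _ _ h (P.symm _ _ _ h1)) hne
  · exact h1

theorem cnt_add (h : B x v y) : cnt B x y + 1 = cnt B x v + cnt B v y := by
  have e1 : {u | B x u y} = {u | B x u v} ∪ {u | B v u y} := by
    ext u
    exact ⟨fun hu => P.split _ _ _ v (P.old _ _ _ h).2.1 hu,
      fun hu => hu.elim (P.sub h) (P.sub' h)⟩
  have e2 : {u | B x u v} ∩ {u | B v u y} = {v} := by
    ext u
    refine ⟨fun hu => P.inter h hu.1 hu.2, ?_⟩
    rintro rfl
    exact ⟨P.right (P.old _ _ _ h).1 (P.old _ _ _ h).2.1,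
      P.left _ _ (P.old _ _ _ h).2.1 (P.old _ _ _ h).2.2⟩
  have := Set.ncard_union_add_ncard_inter _ _ (P.fin x v) (P.fin v y)
  rw [← e1, e2, Set.ncard_singleton] at this
  exact this

theorem cnt_pos (hx : O x) (hy : O y) : 1 ≤ cnt B x y :=
  (Set.ncard_pos (P.fin x y)).2 ⟨x, P.left x y hx hy⟩

theorem two_le_cnt (hx : O x) (hy : O y) (h : x ≠ y) : 2 ≤ cnt B x y :=
  (Set.one_lt_ncard (P.fin x y)).2 ⟨x, P.left x y hx hy, y, P.right hx hy, h⟩

/-- The position on an interval determines the point. -/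
theorem eq_of_cnt (h : B x u y) (h' : B x v y) (e : cnt B x u = cnt B x v) : u = v := by
  by_contra hne
  rcases P.total h h' with h1 | h1
  · have := P.cnt_add h1
    have := P.two_le_cnt (P.old _ _ _ h).2.1 (P.old _ _ _ h').2.1 hne
    omega
  · have := P.cnt_add h1
    have := P.two_le_cnt (P.old _ _ _ h').2.1 (P.old _ _ _ h).2.1 (Ne.symm hne)
    omega

/-- Seen from two points that are not separated by `u` nor by `v`, the positions differ by a
constant. -/
theorem cnt_shift (h : B x u y) (h' : B x v y) (hz : O z) (h1 : ¬ B x u z) (h2 : ¬ B x v z) :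
    cnt B z u + cnt B x v = cnt B z v + cnt B x u := by
  rcases P.total h h' with h3 | h3
  · have := P.cnt_add h3
    have := P.cnt_add ((P.split _ _ _ z hz h3).resolve_left h1)
    omega
  · have := P.cnt_add h3
    have := P.cnt_add ((P.split _ _ _ z hz h3).resolve_left h2)
    omega

/-- A locally aligned sequence is aligned. -/
theorem align {c : ℤ → V} (h : ∀ i, B (c i) (c (i + 1)) (c (i + 2)))
    (hne : ∀ i, c i ≠ c (i + 1)) {i j k : ℤ} (hij : i ≤ j) (hjk : j ≤ k) :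
    B (c i) (c j) (c k) := by
  have ho : ∀ i, O (c i) := fun i => (P.old _ _ _ (h i)).1
  have key : ∀ (n : ℕ) (i : ℤ), B (c i) (c (i + n)) (c (i + n + 1)) := by
    intro n i
    induction n with
    | zero => simpa using P.left _ _ (ho i) (ho _)
    | succ n ih =>
      have := P.glue ih (h (i + n)) (hne _)
      rwa [show i + n + 2 = i + (n + 1 : ℕ) + 1 by push_cast; ring,
        show i + n + 1 = i + (n + 1 : ℕ) by push_cast; ring] at this
  obtain ⟨m, rfl⟩ : ∃ m : ℕ, k = j + m := ⟨(k - j).toNat, by omega⟩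
  induction m with
  | zero => simpa using P.right (ho i) (ho j)
  | succ m ih =>
    have e := key (j + m - i).toNat i
    rw [show i + ((j + m - i).toNat : ℤ) = j + m by omega] at e
    rw [show j + (m + 1 : ℕ) = j + m + 1 by push_cast; ring]
    exact P.sub e (ih (by omega))

end Pre

variable {G G' Z Z' : Type} [Group G] [Group G'] [MulAction G Z] [MulAction G' Z']
  {d : Z → Z → ℕ} {d' : Z' → Z' → ℕ}

namespace Gate

variable (S : Gate G G' d d')

/-- `x` and `y` are seen from `v` through the same copy. -/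
def Sm (v x y : Z') : Prop :=
  ∃ (σ : G') (a : Z), σ • S.ι a = v ∧ S.rt (σ⁻¹ • x) ≠ a ∧ S.rt (σ⁻¹ • y) ≠ a

/-- Betweenness of old points. -/
def Bt (x v y : Z') : Prop := S.Old x ∧ S.Old v ∧ S.Old y ∧ ¬ S.Sm v x y

theorem Sm.smul {S : Gate G G' d d'} {v x y : Z'} (h : S.Sm v x y) (γ : G') :
    S.Sm (γ • v) (γ • x) (γ • y) := by
  obtain ⟨σ, a, rfl, h1, h2⟩ := h
  exact ⟨γ * σ, a, mul_smul _ _ _, by simpa [mul_smul] using h1, by simpa [mul_smul] using h2⟩

theorem Bt.smul {S : Gate G G' d d'} {x v y : Z'} (h : S.Bt x v y) (γ : G') :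
    S.Bt (γ • x) (γ • v) (γ • y) :=
  ⟨h.1.smul γ, h.2.1.smul γ, h.2.2.1.smul γ, fun h' => h.2.2.2 (by simpa using h'.smul γ⁻¹)⟩

theorem bt_smul (γ : G') {x v y : Z'} : S.Bt (γ • x) (γ • v) (γ • y) ↔ S.Bt x v y :=
  ⟨fun h => by simpa using h.smul γ⁻¹, fun h => h.smul γ⟩

/-- In the base copy that looks towards `x`, the relation is decided by the gate. -/
theorem sm_base {x y : Z'} {a : Z} (hx : S.Old x) (h : S.rt x ≠ a) :
    S.Sm (S.ι a) x y ↔ S.rt y ≠ a := by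
  refine ⟨?_, fun h' => ⟨1, a, one_smul _ _, by simpa, by simpa⟩⟩
  rintro ⟨σ, a₁, e, h1, h2⟩
  by_cases hσ : σ ∈ S.φ.range
  · obtain ⟨c, rfl⟩ := hσ
    rw [← S.ι_smul] at e
    rw [← map_inv, S.rt_smul] at h2
    exact fun hh => h2 (by rw [hh, ← S.ι_inj e, inv_smul_smul])
  · exact absurd (S.other_old hx hσ e h) h1

theorem bt_base {x y : Z'} {a : Z} (hx : S.Old x) (hy : S.Old y) (h : S.rt x ≠ a) :
    S.Bt x (S.ι a) y ↔ S.rt y = a := by
  rw [Bt, S.sm_base hx h, not_not]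
  exact ⟨fun h => h.2.2.2, fun h => ⟨hx, S.old_ι a, hy, h⟩⟩

theorem bt_copy {x y : Z'} {a : Z} {σ : G'} (hx : S.Old x) (hy : S.Old y)
    (h : S.rt (σ⁻¹ • x) ≠ a) : S.Bt x (σ • S.ι a) y ↔ S.rt (σ⁻¹ • y) = a := by
  rw [← S.bt_base (hx.smul _) (hy.smul _) h, ← S.bt_smul σ⁻¹, inv_smul_smul]

theorem Bt.symm {S : Gate G G' d d'} {x v y : Z'} (h : S.Bt x v y) : S.Bt y v x :=
  ⟨h.2.2.1, h.2.1, h.1, fun ⟨σ, a, e, h1, h2⟩ => h.2.2.2 ⟨σ, a, e, h2, h1⟩⟩

theorem bt_left {x y : Z'} (hx : S.Old x) (hy : S.Old y) : S.Bt x x y :=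
  ⟨hx, hx, hy, fun ⟨σ, a, e, h1, _⟩ => h1 (by rw [← e, inv_smul_smul, S.rt_ι])⟩

theorem Bt.split {S : Gate G G' d d'} {x v y z : Z'} (hz : S.Old z) (h : S.Bt x v y) :
    S.Bt x v z ∨ S.Bt z v y := by
  by_cases hzv : z = v
  · exact Or.inr (hzv ▸ S.bt_left hz h.2.2.1)
  obtain ⟨σ, a, rfl, e⟩ := S.first_old h.2.1 hz hzv
  by_cases h1 : S.rt (σ⁻¹ • x) = a
  · exact Or.inl ((S.bt_copy hz h.1 e).2 h1).symm
  · exact Or.inr ((S.bt_copy hz h.2.2.1 e).2 ((S.bt_copy h.1 h.2.2.1 h1).1 h))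

theorem bt_anti_base {x y : Z'} {a : Z} (h0 : S.rt y ≠ a) (h : S.Bt x (S.ι a) y)
    (h' : S.Bt x y (S.ι a)) : False := by
  have hx := h.1
  have hy := h.2.2.1
  have e1 : S.rt x = a := (S.bt_base hy hx h0).1 h.symm
  obtain ⟨σ, b, rfl, e2⟩ := S.first_old hy (S.old_ι a) fun hh => h0 (by rw [← hh, S.rt_ι])
  have e3 := (S.bt_copy (S.old_ι a) hx e2).1 h'.symm
  refine e2 (e3 ▸ ?_)
  by_cases hσ : σ ∈ S.φ.range
  · obtain ⟨c, rfl⟩ := hσ
    rw [← map_inv, S.rt_smul, S.rt_smul, e1, S.rt_ι]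
  · obtain ⟨δ, z, rfl⟩ := hx
    exact (S.back σ hσ δ z b a (e1 ▸ h0.symm)).symm

theorem Bt.anti {S : Gate G G' d d'} {x v y : Z'} (h : S.Bt x v y) (h' : S.Bt x y v) : v = y := by
  by_contra hne
  obtain ⟨σ, a, rfl, e⟩ := S.first_old h.2.1 h.2.2.1 (Ne.symm hne)
  exact S.bt_anti_base e (by simpa using h.smul σ⁻¹) (by simpa using h'.smul σ⁻¹)

/-- Induction along the tree geodesic between two old points. -/
theorem old_ind {P : Z' → Z' → Prop} (hs : ∀ (σ : G') x y, P x y → P (σ • x) (σ • y))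
    (h0 : ∀ z, P (S.ι z) (S.ι z))
    (h1 : ∀ z y, S.Old y → z ≠ S.rt y → P (S.ι (S.rt y)) y → P (S.ι z) y) {x y : Z'}
    (hx : S.Old x) (hy : S.Old y) : P x y := by
  have key : ∀ (γ : G') (z z₀ : Z), P (S.ι z₀) (γ • S.ι z) := by
    intro γ z z₀
    induction hn : S.len γ using Nat.strong_induction_on generalizing γ z₀ with
    | _ n ih =>
      have e : P (S.ι (S.rt (γ • S.ι z))) (γ • S.ι z) := by
        by_cases hγ : γ ∈ S.φ.range
        · obtain ⟨c, rfl⟩ := hγ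
          rw [S.rt_φ_ι, ← S.ι_smul]
          exact h0 _
        · obtain ⟨σ, a₁, e1, e2⟩ := S.next γ hγ z
          have := hs σ _ _ (ih _ (hn ▸ e2) (σ⁻¹ * γ) a₁ rfl)
          rwa [mul_smul, smul_inv_smul, e1] at this
      by_cases h2 : z₀ = S.rt (γ • S.ι z)
      · rwa [h2]
      · exact h1 _ _ (S.old_smul_ι _ _) h2 e
  obtain ⟨δ, z₀, rfl⟩ := hx
  obtain ⟨γ, z, rfl⟩ := hy
  have := hs δ _ _ (key (δ⁻¹ * γ) z z₀)
  rwa [mul_smul, smul_inv_smul] at this

/-- Nothing lies strictly between two points of one copy. -/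
theorem bt_ι {a b : Z} {v : Z'} (h : S.Bt (S.ι a) v (S.ι b)) : v = S.ι a ∨ v = S.ι b := by
  by_cases hv : S.ι a = v
  · exact Or.inl hv.symm
  obtain ⟨σ, c, rfl, e⟩ := S.first_old h.2.1 h.1 hv
  have e1 := (S.bt_copy h.1 h.2.2.1 e).1 h
  rcases S.rt_copy σ⁻¹ a b with ⟨g, hg⟩ | h2
  · refine Or.inr ?_
    rw [hg, S.rt_φ_ι] at e1
    rw [← e1, S.ι_smul, ← hg, smul_inv_smul]
  · exact absurd (h2.trans e1) e

theorem bt_fin (x y : Z') : {v | S.Bt x v y}.Finite := by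
  by_cases hx : S.Old x
  swap
  · exact Set.finite_empty.subset fun v hv => hx hv.1
  by_cases hy : S.Old y
  swap
  · exact Set.finite_empty.subset fun v hv => hy hv.2.2.1
  refine S.old_ind (P := fun x y => {v | S.Bt x v y}.Finite) (fun σ x y h => ?_) (fun z => ?_)
    (fun z y _ _ h => ?_) hx hy
  · refine (h.image fun v => σ • v).subset fun v hv => ⟨σ⁻¹ • v, ?_, smul_inv_smul _ _⟩
    simpa using Bt.smul hv σ⁻¹
  · exact (Set.finite_singleton _).subset fun v hv => (S.bt_ι hv).elim id id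
  · refine ((h.insert (S.ι (S.rt y))).insert (S.ι z)).subset fun v hv => ?_
    rcases Bt.split (S.old_ι (S.rt y)) hv with h2 | h2
    · exact (S.bt_ι h2).imp id Or.inl
    · exact Or.inr (Or.inr h2)

theorem pre : Pre S.Old S.Bt where
  old := fun _ _ _ h => ⟨h.1, h.2.1, h.2.2.1⟩
  symm := fun _ _ _ h => h.symm
  left := fun _ _ => S.bt_left
  split := fun _ _ _ _ hz h => h.split hz
  anti := fun _ _ _ => Bt.anti
  fin := S.bt_fin

theorem cnt_smul (γ : G') (x y : Z') : cnt S.Bt (γ • x) (γ • y) = cnt S.Bt x y := by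
  have : {v | S.Bt (γ • x) v (γ • y)} = (fun v => γ • v) '' {v | S.Bt x v y} := by
    ext v
    refine ⟨fun hv => ⟨γ⁻¹ • v, by simpa using Bt.smul hv γ⁻¹, smul_inv_smul _ _⟩, ?_⟩
    rintro ⟨u, hu, rfl⟩
    exact Bt.smul hu γ
  rw [cnt, this, Set.ncard_image_of_injective _ (MulAction.injective γ), cnt]

/-- SEP for the betweenness relation. -/
theorem Bt.path {S : Gate G G' d d'} {c : ℕ → Z'} {n : ℕ} {v : Z'} (h : S.Bt (c 0) v (c n))
    (hc : ∀ i, i < n → d' (c i) (c (i + 1)) ≤ 1) : ∃ i, i ≤ n ∧ (c i = v ∨ S.OnL (c i) v) := by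
  by_cases hv : c n = v
  · exact ⟨n, le_rfl, Or.inl hv⟩
  obtain ⟨σ, a, rfl, e⟩ := S.first_old h.2.1 h.2.2.1 hv
  have e1 := (S.bt_copy h.2.2.1 h.1 e).1 h.symm
  obtain ⟨i, hi, h2⟩ := S.sep_path (c := fun i => σ⁻¹ • c i) (n := n) (a := a)
    (fun i hi => by rw [S.inv']; exact hc i hi) (e1 ▸ S.rho_rt _)
    (fun hh => e (((h.2.2.1.smul _).rho).1 hh).symm)
  refine ⟨i, hi.le, h2.imp (fun h3 => ?_) fun h3 => by simpa using h3.smul σ⟩
  rw [← h3, smul_inv_smul]

theorem Bt.d_le {S : Gate G G' d d'} {x v y : Z'} (h : S.Bt x v y) : d' x v ≤ d' x y + 1 := by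
  obtain ⟨c, h0, h1, h2, h3⟩ := S.exists_path x y
  obtain ⟨i, hi, h4⟩ := Bt.path (c := c) (by rwa [h0, h1]) h3
  have e1 := h2 0 i le_rfl (Nat.zero_le _) hi
  have e2 := S.met'.tri x (c i) v
  have e3 : d' (c i) v ≤ 1 := by
    rcases h4 with rfl | h4
    · rw [S.met'.self]
      exact Nat.zero_le _
    · exact h4.d_le
  rw [h0] at e1
  omega

/-- Lines are convex. -/
theorem Bt.onL {S : Gate G G' d d'} {x p v p' : Z'} (h : S.Bt p v p') (hp : S.OnL x p)
    (hp' : S.OnL x p') : S.OnL x v := by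
  by_cases hv : p = v
  · exact hv ▸ hp
  obtain ⟨σ, a, rfl, e⟩ := S.first_old h.2.1 h.1 hv
  have e1 := (S.bt_copy h.1 h.2.2.1 e).1 h
  simpa using (S.rho_two_onL (e1 ▸ (hp'.smul σ⁻¹).rho) (hp.smul σ⁻¹).rho e.symm).smul σ

end Gate

end Pool.Agent.Lib.MP_429c3d_al.Ng
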