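import Pool.Agent.Lib.MP_429c3d_al.NgXI
import Pool.Agent.Lib.MP_429c3d_al.HypCone
import Pool.Agent.Lib.MP_429c3d_al.HypChain

set_option autoImplicit false
set_option linter.unusedSectionVars false

/-! Cone-offs along quasi-convex shadows. -/

namespace Pool.Agent.Lib.MP_429c3d_al.Ng

open Hyp

/-- The points between two points of `S`. -/
def Hull {X : Type} (d : X → X → ℕ) (S : X → Prop) (q : X) : Prop :=
  ∃ r r', S r ∧ S r' ∧ Btw d r q r'

/-- `x` is close to the shadow of `e`. -/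
def Near {X B : Type} (d : X → X → ℕ) (Sh : B → X → Prop) (ρ : ℕ) (e : B) (x : X) : Prop :=
  ∃ s, Sh e s ∧ d x s ≤ ρ

/-- Cone-offs with quasi-convex shadows such that adjacent vertices have close shadows. -/
structure QC {X B : Type} (d : X → X → ℕ) (dB : B → B → ℕ) (ι : X → B) (Sh : B → X → Prop)
    (k u c : ℕ) : Prop extends Cone d dB ι Sh k u c where
  link : ∀ e e', dB e e' ≤ 1 → ∃ s s', Sh e s ∧ Sh e' s' ∧ d s s' ≤ u
  qc : ∀ e r r' s, Sh e r → Sh e r' → Btw d r s r' → ∃ s', Sh e s' ∧ d s s' ≤ 2 * k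
  huge : 200 * (k + 1) ≤ u

section basic

variable {X : Type} {d : X → X → ℕ} {k : ℕ}

theorem Btw.nb (m : IsMet d) {p q p' : X} (h : Btw d p q p') : NB d 0 p q p' := by
  unfold NB Btw at *
  rw [m.symm q p]
  omega

theorem NB.mono {e e' : ℕ} {p q p' : X} (h : NB d e p q p') (he : e ≤ e') : NB d e' p q p' := by
  unfold NB at *
  omega

theorem NB.symm (m : IsMet d) {e : ℕ} {p q p' : X} (h : NB d e p q p') : NB d e p' q p := by
  unfold NB at *
  rw [m.symm p' p]
  omega

theorem NB.split (m : IsMet d) (h : Hyp4 d k) {e : ℕ} {p q p' : X} (hq : NB d e p q p') (r : X) :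
    NB d (e + k) p q r ∨ NB d (e + k) r q p' := by
  unfold NB at *
  have := h p p' q r
  have := m.symm p' r
  have := m.symm p q
  have := m.symm p' q
  omega

theorem NB.near (Γ : IsGr d) (h : Hyp4 d k) {e : ℕ} {p q p' : X} (hq : NB d e p q p') :
    ∃ w, Btw d p w p' ∧ 2 * d q w ≤ e + 2 * k + 1 := near_mid Γ.met h Γ.geo p p' q hq

theorem NB.out (m : IsMet d) {e : ℕ} {r p q r' : X} (hp : Btw d r p r') (hq : NB d e r q p) :
    NB d e r q r' := by
  unfold NB Btw at *
  have := m.tri q p r'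
  omega

theorem Btw.symm (m : IsMet d) {p q p' : X} (h : Btw d p q p') : Btw d p' q p := by
  unfold Btw at *
  rw [m.symm p' q, m.symm q p, m.symm p' p]
  omega

theorem hull_self (m : IsMet d) {S : X → Prop} {x : X} (h : S x) : Hull d S x :=
  ⟨x, x, h, h, by rw [Btw, m.self]⟩

theorem hull_nb (m : IsMet d) (h : Hyp4 d k) {S : X → Prop} {p p' q : X} {e : ℕ}
    (hp : Hull d S p) (hp' : Hull d S p') (hq : NB d e p q p') :
    ∃ r r', S r ∧ S r' ∧ NB d (e + 2 * k) r q r' := by
  obtain ⟨r1, r1', a1, a2, a3⟩ := hp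
  obtain ⟨r2, r2', b1, b2, b3⟩ := hp'
  rcases hq.split m h r2 with e1 | e1
  · rcases e1.split m h r1 with e2 | e2
    · exact ⟨r1, r1', a1, a2, ((e2.symm m).out m a3).mono (by omega)⟩
    · exact ⟨r1, r2, a1, b1, e2.mono (by omega)⟩
  · exact ⟨r2, r2', b1, b2, (e1.out m b3).mono (by omega)⟩

theorem hull_qc (Γ : IsGr d) (h : Hyp4 d k) {S : X → Prop} {p p' q : X} (hp : Hull d S p)
    (hp' : Hull d S p') (hq : Btw d p q p') : ∃ s, Hull d S s ∧ d q s ≤ 2 * k := by
  obtain ⟨r, r', a1, a2, a3⟩ := hull_nb Γ.met h hp hp' (hq.nb Γ.met)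
  obtain ⟨w, w1, w2⟩ := a3.near Γ h
  exact ⟨w, ⟨r, r', a1, a2, w1⟩, by omega⟩

variable {G : Type} [Group G] [MulAction G X]

theorem Btw.smul (iso : Isom G d) (g : G) {p q p' : X} (h : Btw d p q p') :
    Btw d (g • p) (g • q) (g • p') := by
  unfold Btw at *
  rwa [iso, iso, iso]

theorem NB.smul (iso : Isom G d) (g : G) {e : ℕ} {p q p' : X} (h : NB d e p q p') :
    NB d e (g • p) (g • q) (g • p') := by
  unfold NB at *
  rwa [iso, iso, iso]

theorem dis_move (m : IsMet d) (iso : Isom G d) (a : G) (x y : X) :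
    d y (a • y) ≤ d x (a • x) + 2 * d x y := by
  have := m.tri y x (a • y)
  have := m.tri x (a • x) (a • y)
  have := iso a x y
  have := m.symm x y
  omega

theorem MinP.pow (iso : Isom G d) {a : G} {y : X} (h : MinP d a y) (s : ℕ) :
    MinP d a (a ^ s • y) := fun x => by
  rw [← mul_smul, ← pow_succ', pow_succ, mul_smul, iso]
  exact h x

/-- The displacement function is almost convex (`Hyp4` for `x, a x', w, a w` and so on; if `2 * k`
is too small use `10 * (k + 1)` inside `tube` directly and delete this lemma). -/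
theorem dis_conv (m : IsMet d) (h : Hyp4 d k) (iso : Isom G d) (a : G) {x w x' : X} {B : ℕ}
    (hw : Btw d x w x') (h1 : d x (a • x) ≤ B) (h2 : d x' (a • x') ≤ B) :
    d w (a • w) ≤ B + 2 * k := by
  unfold Btw at hw
  have := h w (a • w) x x'
  have := m.tri (a • w) (a • x') x'
  have := m.tri (a • w) (a • x) x
  have := iso a w x'
  have := iso a w x
  have := m.symm (a • x') x'
  have := m.symm (a • x) x
  have := m.symm w x
  omega

/-- Between short points of commuting elements, one of them is short. The point `a' x` is short for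
`a`. By `NB.split` with `a' x`, `w` is close to a point between `x` and `a' x` (then `dis_conv`,
`dis_move`), or almost between `a' x` and `x'`; then compare `w` and `a' w`, which is between
`a' x` and `a' x'`, with `Hyp4`. -/
theorem tube (Γ : IsGr d) (h : Hyp4 d k) (iso : Isom G d) {a a' : G} (hc : Commute a a')
    {x w x' : X} {B : ℕ} (hw : Btw d x w x') (h1 : d x (a • x) ≤ B) (h2 : d x' (a' • x') ≤ B) :
    d w (a • w) ≤ B + 10 * (k + 1) ∨ d w (a' • w) ≤ B + 10 * (k + 1) := by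
  have m := Γ.met
  rcases (hw.nb m).split m h (a' • x) with e | e
  · obtain ⟨v, v1, v2⟩ := e.near Γ h
    have e1 : d (a' • x) (a • a' • x) ≤ B := by
      rw [smul_smul, hc.eq, mul_smul, iso]
      exact h1
    have := dis_conv m h iso a v1 h1 e1
    have := dis_move m iso a v w
    have := m.symm v w
    omega
  · unfold NB at e
    unfold Btw at hw
    have := h w (a' • w) (a' • x) x'
    have := iso a' w x
    have := iso a' w x'
    have := iso a' x x'
    have := m.tri (a' • x) x' (a' • x')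
    have := m.tri (a' • w) (a' • x') x'
    have := m.symm (a' • x') x'
    have := m.symm w x
    omega

namespace Flip

variable {y c : G} {ξ : X} {l N J : ℕ} (F : Flip d y c ξ l N J) (m : IsMet d) (iso : Isom G d)
include F m iso

/-- Induction with `turn`; `eta y c ξ (j + 1) = cs y c j • ξ`, and the distance from
`cs y c j • eta y c ξ j` to it is `d ξ (eta y c ξ j)`. All lemmas are triangle inequalities. -/
theorem tele {a b : ℕ} (ha : l ≤ a) (hb : a ≤ b) :
    d ξ (eta y c ξ a) + d (eta y c ξ a) (eta y c ξ b) ≤ d ξ (eta y c ξ b) + (b - a) * J := by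
  induction b, hb using Nat.le_induction with
  | base =>
    rw [m.self]
    omega
  | succ b hb ih =>
    have e1 := F.turn b (ha.trans hb)
    have e2 : eta y c ξ (b + 1) = cs y c b • ξ := rfl
    have e3 := iso (cs y c b) (eta y c ξ b) ξ
    have := m.tri (eta y c ξ a) (eta y c ξ b) (cs y c b • ξ)
    have := m.tri (eta y c ξ b) (cs y c b • eta y c ξ b) (cs y c b • ξ)
    have := m.symm (eta y c ξ b) ξ
    rw [e2, show b + 1 - a = b - a + 1 by omega, Nat.add_mul]
    omega

theorem nb {a j b : ℕ} (ha : l ≤ a) (hj : a ≤ j) (hb : j ≤ b) :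
    NB d ((b - a) * J) (eta y c ξ a) (eta y c ξ j) (eta y c ξ b) := by
  have e1 := F.tele m iso ha hj
  have e2 := F.tele m iso (ha.trans hj) hb
  have := m.tri ξ (eta y c ξ a) (eta y c ξ b)
  have := m.symm (eta y c ξ j) (eta y c ξ a)
  unfold NB
  rw [show b - a = j - a + (b - j) by omega, Nat.add_mul]
  omega

theorem nbf {a a' j b : ℕ} (ha : l ≤ a) (ha' : a ≤ a') (hj : a' ≤ j) (hb : j < b) :
    NB d ((2 * (b - a) + 1) * J) (eta y c ξ a) (cs y c j • eta y c ξ a') (eta y c ξ b) := by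
  have e1 := F.tele m iso ha (ha'.trans hj)
  have e2 := F.tele m iso (ha.trans ha') hj
  have e3 := F.tele m iso (a := j + 1) (b := b) (by omega) hb
  have e4 := F.turn j (by omega)
  have e5 : eta y c ξ (j + 1) = cs y c j • ξ := rfl
  have e6 : (j - a + (j - a') + (b - (j + 1)) + 1) * J ≤ (2 * (b - a) + 1) * J :=
    Nat.mul_le_mul_right J (by omega)
  rw [e5] at e3
  rw [Nat.add_mul, Nat.add_mul, Nat.add_mul, Nat.one_mul] at e6
  have := m.tri ξ (eta y c ξ a) (eta y c ξ b)
  have := m.tri (cs y c j • eta y c ξ a') (cs y c j • ξ) (eta y c ξ b)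
  have := m.tri (cs y c j • eta y c ξ a') (cs y c j • eta y c ξ j) (eta y c ξ a)
  have := m.tri (cs y c j • eta y c ξ j) (eta y c ξ j) (eta y c ξ a)
  have := iso (cs y c j) (eta y c ξ a') ξ
  have := iso (cs y c j) (eta y c ξ a') (eta y c ξ j)
  have := m.symm (eta y c ξ a') ξ
  have := m.symm (eta y c ξ j) (eta y c ξ a)
  have := m.symm (cs y c j • eta y c ξ j) (eta y c ξ j)
  unfold NB
  omega

theorem far (hJ : J ≤ N) {a b : ℕ} (ha : l ≤ a) (hb : a < b) :
    N ≤ d (eta y c ξ a) (eta y c ξ b) + J := by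
  have step : ∀ j, l ≤ j → d ξ (eta y c ξ j) + N ≤ d ξ (eta y c ξ (j + 1)) + J := by
    intro j hj
    have := F.turn j hj
    have := F.len j hj
    have e : eta y c ξ (j + 1) = cs y c j • ξ := rfl
    rw [e]
    omega
  have key : d ξ (eta y c ξ a) + N ≤ d ξ (eta y c ξ b) + J := by
    induction b, hb using Nat.le_induction with
    | base => exact step a ha
    | succ b hb ih =>
      have := step b (by omega)
      omega
  have := m.tri ξ (eta y c ξ a) (eta y c ξ b)
  omega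

theorem gate_nb {j b : ℕ} (hj : l ≤ j) (hb : j ≤ b) {w w' : X} (hw : MinP d y w)
    (hw' : MinP d (cs y c b) w') : NB d ((b - j + 1) * J) w (eta y c ξ j) w' := by
  have e1 := F.tele m iso hj hb
  have e2 := F.gate b w w' (hj.trans hb) hw hw'
  have := m.tri (eta y c ξ j) ξ w
  have := m.tri (eta y c ξ j) (eta y c ξ b) w'
  have := m.symm (eta y c ξ j) ξ
  have := m.symm ξ w
  unfold NB
  rw [Nat.add_mul]
  omega

end Flip

end basic

/-- Vertices are adjacent if their shadows are close. -/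
def adjQ {X B : Type} (d : X → X → ℕ) (Sh : B → X → Prop) (u : ℕ) (e e' : B) : Prop :=
  ∃ s s', Sh e s ∧ Sh e' s' ∧ d s s' ≤ u

variable {X B : Type} {d : X → X → ℕ} {dB : B → B → ℕ} {ι : X → B} {Sh : B → X → Prop}
  {k u c : ℕ}

/-- `gd_isGr` (connect `b` to `ι x` with `Sh b x`, and `ι x` to `ι y` by `IsGr.induct`). `small`:
split twice along `s, s'`; a point almost between two points of a shadow is within `u` of it. -/
theorem qc_of (Γ : IsGr d) (h : Hyp4 d k) (hu : 200 * (k + 1) ≤ u) (hι : ∀ x, Sh (ι x) x)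
    (ne : ∀ b, ∃ x, Sh b x)
    (qc : ∀ e r r' s, Sh e r → Sh e r' → Btw d r s r' → ∃ s', Sh e s' ∧ d s s' ≤ 2 * k) :
    QC d (gd (adjQ d Sh u)) ι Sh k u 2 ∧
      ∀ e e', gd (adjQ d Sh u) e e' ≤ 1 ↔ adjQ d Sh u e e' := by
  have m := Γ.met
  have symm : ∀ e e', adjQ d Sh u e e' → adjQ d Sh u e' e := by
    rintro e e' ⟨s, s', h1, h2, h3⟩
    exact ⟨s', s, h2, h1, by rwa [m.symm]⟩
  have same : ∀ {e e' x}, Sh e x → Sh e' x → adjQ d Sh u e e' := fun {e e' x} h1 h2 =>
    ⟨x, x, h1, h2, by rw [m.self]; omega⟩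
  obtain ⟨gB, E⟩ := gd_isGr symm fun e e' => by
    obtain ⟨x, hx⟩ := ne e
    obtain ⟨y, hy⟩ := ne e'
    refine (Γ.induct x (P := fun _ y => Relation.ReflTransGen (adjQ d Sh u) e (ι y))
      (.single (same hx (hι x))) (fun _ v w _ _ h ih => ih.tail ⟨v, w, hι v, hι w, by omega⟩)
      y).tail (same (hι y) hy)
  have E' : ∀ e e', gd (adjQ d Sh u) e e' ≤ 1 ↔ adjQ d Sh u e e' := fun e e' =>
    ⟨fun h => ((E e e').1 h).elim (fun e1 => (ne e).elim fun x hx => same hx (e1 ▸ hx)) id,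
      fun h => (E e e').2 (Or.inr h)⟩
  have cl : ∀ {b q s}, Sh b s → d q s ≤ u → gd (adjQ d Sh u) (ι q) b ≤ 1 :=
    fun {b q s} h1 h2 => (E' _ _).2 ⟨q, s, hι q, h1, h2⟩
  have nr : ∀ {b q r r'}, Sh b r → Sh b r' → NB d (2 * k) r q r' →
      gd (adjQ d Sh u) (ι q) b ≤ 1 := by
    intro b q r r' h1 h2 h3
    obtain ⟨w, w1, w2⟩ := h3.near Γ h
    obtain ⟨s, s1, s2⟩ := qc b r r' w h1 h2 w1
    have := m.tri q w s
    exact cl s1 (by omega)
  refine ⟨⟨⟨Γ, h, gB, hι, ne, fun x y hd => cl (hι y) hd, by omega, ?_⟩,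
    fun e e' hd => (E' e e').1 hd, qc, hu⟩, E'⟩
  intro b b' p p' q hd h1 h2 h3
  obtain ⟨s, s', s1, s2, s3⟩ := (E' b b').1 hd
  have t1 := gB.met.tri (ι q) b' b
  have t2 := gB.met.symm b' b
  rcases (Btw.nb m h3).split m h s with e | e
  · have := nr h1 s1 (e.mono (by omega))
    omega
  rcases e.split m h s' with e | e
  · unfold NB at e
    by_cases hc : d q s ≤ u
    · have := cl s1 hc
      omega
    · have := cl (q := q) s2 (by omega)
      omega
  · have := nr s2 h2 (e.mono (by omega))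
    omega

theorem Near.mono {ρ ρ' : ℕ} {e : B} {x : X} (h : Near d Sh ρ e x) (hρ : ρ ≤ ρ') :
    Near d Sh ρ' e x := h.imp fun _ hs => ⟨hs.1, hs.2.trans hρ⟩

theorem le_coneN (c : ℕ) : c ≤ coneN c := by
  unfold coneN
  nlinarith

namespace QC

variable (C : QC d dB ι Sh k u c)
include C

/-- `NB.near`, `Cone.near`, `lip`. -/
theorem near' {b b' : B} {p p' q : X} {t : ℕ} (h1 : Sh b p) (h2 : Sh b' p') (h3 : NB d t p q p')
    (ht : t ≤ u) : ∃ w, Btw dB b w b' ∧ dB (ι q) w ≤ coneN c + 1 := by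
  obtain ⟨v, v1, v2⟩ := h3.near C.gr C.hyp
  obtain ⟨w, w1, w2⟩ := C.toCone.near h1 h2 v1
  have := C.big
  have := C.lip q v (by omega)
  have := C.grB.met.tri (ι q) (ι v) w
  exact ⟨w, w1, by omega⟩

/-- A point on both sides of a corner is close to the corner: `near'` twice gives `w` between `a`
and `γ`, `w'` between `γ` and `b`, and `dB w γ + dB w' γ ≤ dB w w' + κ`. -/
theorem corner {a γ b : B} {r p p' r' q : X} {t κ : ℕ} (ha : Sh a r) (hγ : Sh γ p) (hγ' : Sh γ p')
    (hb : Sh b r') (hκ : NB dB κ a γ b) (h1 : NB d t r q p) (h2 : NB d t p' q r') (ht : t ≤ u) :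
    dB (ι q) γ ≤ 2 * coneN c + 2 + κ := by
  obtain ⟨w, w1, w2⟩ := C.near' ha hγ h1 ht
  obtain ⟨w', w1', w2'⟩ := C.near' hγ' hb h2 ht
  have mB := C.grB.met
  unfold Btw at w1 w1'
  unfold NB at hκ
  have := mB.tri a w b
  have := mB.tri w (ι q) b
  have := mB.tri (ι q) w' b
  have := mB.tri (ι q) w γ
  have := mB.tri (ι q) w' γ
  have := mB.symm w (ι q)
  have := mB.symm w' γ
  have := mB.symm γ a
  omega

/-- `NB.split` with `r` and `r'`, `corner` twice. -/
theorem mid2 {a γ γ' b : B} {r p p' r' q : X} {t κ : ℕ} (ha : Sh a r) (hγ : Sh γ p)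
    (hγ' : Sh γ' p') (hb : Sh b r') (hκ : NB dB κ a γ γ') (hκ' : NB dB κ γ γ' b)
    (hq : NB d t p q p') (ht : t + 2 * k ≤ u) (h1 : 2 * coneN c + 2 + κ < dB (ι q) γ)
    (h2 : 2 * coneN c + 2 + κ < dB (ι q) γ') : NB d (t + 2 * k) r q r' := by
  have m := C.gr.met
  rcases hq.split m C.hyp r with e | e
  · have := C.corner ha hγ hγ hγ' hκ (e.symm m) (hq.mono (Nat.le_add_right _ _)) (by omega)
    omega
  rcases e.split m C.hyp r' with e' | e'
  · exact e'.mono (by omega)
  · have := C.corner hγ hγ' hγ' hb hκ' (hq.mono (by omega)) (e'.symm m) (by omega)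
    omega

theorem near_of_nb {e : B} {r r' q : X} {t : ℕ} (h1 : Sh e r) (h2 : Sh e r')
    (h3 : NB d t r q r') : ∃ s, Sh e s ∧ 2 * d q s ≤ t + 6 * k + 1 := by
  obtain ⟨w, w1, w2⟩ := h3.near C.gr C.hyp
  obtain ⟨s, s1, s2⟩ := C.qc e r r' w h1 h2 w1
  have := C.gr.met.tri q w s
  exact ⟨s, s1, by omega⟩

/-- For a geodesic `g` from `b` to `b'`, show by induction on the length (with `link` and two
`NB.split` per edge) that a point `x` with `NB d t p x p'` is `Near d Sh u (g i) x` for some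
`i ≤ n`; then the pigeonhole principle. -/
theorem coverV {b b' : B} {p p' : X} (h1 : Sh b p) (h2 : Sh b' p') {n t : ℕ} (hn : dB b b' ≤ n)
    (ht : t + (2 * n + 6) * k + 1 ≤ u) (z : ℕ → X) (hz : ∀ i, i ≤ n + 1 → NB d t p (z i) p') :
    ∃ e i j, i < j ∧ j ≤ n + 1 ∧ Near d Sh u e (z i) ∧ Near d Sh u e (z j) := by
  have m := C.gr.met
  obtain ⟨g, g0, g1, g2⟩ := C.grB.exists_geo b b'
  have key : ∀ (x : X) i, i ≤ dB b b' → ∀ p' t, Sh (g i) p' → NB d t p x p' →
      t + (2 * i + 6) * k + 1 ≤ u → ∃ e, e ≤ i ∧ Near d Sh u (g e) x := by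
    intro x i
    induction i with
    | zero =>
      intro _ p' t a1 a2 a3
      obtain ⟨s, s1, s2⟩ := C.near_of_nb (g0 ▸ h1) a1 a2
      exact ⟨0, le_rfl, s, s1, by omega⟩
    | succ i ih =>
      intro hi p' t a1 a2 a3
      have := g2 i (i + 1) (Nat.zero_le _) (by omega) hi
      obtain ⟨s, s', s1, s2, s3⟩ := C.link (g i) (g (i + 1)) (by omega)
      have e0 : (2 * (i + 1) + 6) * k = (2 * i + 6) * k + 2 * k := by ring
      have e1 : (2 * i + 6) * k = 2 * i * k + 6 * k := by ring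
      rcases a2.split m C.hyp s with e | e
      · obtain ⟨e, b1, b2⟩ := ih (by omega) s _ s1 e (by omega)
        exact ⟨e, by omega, b2⟩
      rcases e.split m C.hyp s' with e | e
      · unfold NB at e
        by_cases hc : d x s ≤ u
        · exact ⟨i, by omega, s, s1, hc⟩
        · exact ⟨i + 1, le_rfl, s', s2, by omega⟩
      · obtain ⟨v, v1, v2⟩ := C.near_of_nb s2 a1 e
        exact ⟨i + 1, le_rfl, v, v1, by omega⟩
  have e0 : (2 * dB b b' + 6) * k ≤ (2 * n + 6) * k := Nat.mul_le_mul_right k (by omega)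
  have key2 : ∀ i, ∃ e, i ≤ n + 1 → e ≤ n ∧ Near d Sh u (g e) (z i) := by
    intro i
    by_cases hi : i ≤ n + 1
    · obtain ⟨e, e1, e2⟩ := key (z i) _ le_rfl p' t (g1.symm ▸ h2) (hz i hi) (by omega)
      exact ⟨e, fun _ => ⟨by omega, e2⟩⟩
    · exact ⟨0, fun h => absurd h hi⟩
  choose f hf using key2
  obtain ⟨i, hi, j, hj, hij, e⟩ := Finset.exists_ne_map_eq_of_card_lt_of_maps_to
    (s := Finset.range (n + 2)) (t := Finset.range (n + 1)) (f := f) (by simp) fun i hi => by
      have := (hf i (by simpa [Nat.lt_succ_iff] using hi)).1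
      simpa [Nat.lt_succ_iff] using this
  rw [Finset.mem_range] at hi hj
  have a1 := (hf i (by omega)).2
  have a2 := (hf j (by omega)).2
  rw [← e] at a2
  rcases Nat.lt_or_gt_of_ne hij with c | c
  · exact ⟨_, i, j, c, by omega, a1, a2⟩
  · exact ⟨_, j, i, c, by omega, a2, a1⟩

/-- Split along the two close points of the shadow. -/
theorem near_mid {e : B} {x x' w : X} {t : ℕ} (h1 : Near d Sh u e x) (h2 : Near d Sh u e x')
    (hw : NB d t x w x') (ht : t + 5 * k + 1 ≤ u) : Near d Sh (2 * u) e w := by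
  have m := C.gr.met
  obtain ⟨s, s1, s2⟩ := h1
  obtain ⟨s', s1', s2'⟩ := h2
  rcases hw.split m C.hyp s with a | a
  · unfold NB at a
    exact ⟨s, s1, by omega⟩
  rcases a.split m C.hyp s' with a | a
  · obtain ⟨v, v1, v2⟩ := C.near_of_nb s1 s1' a
    exact ⟨v, v1, by omega⟩
  · unfold NB at a
    have := m.symm s' x'
    exact ⟨s', s1', by omega⟩

end QC

end Pool.Agent.Lib.MP_429c3d_al.Ng
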