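import Pool.Agent.Lib.MP_429c3d_al.NgQC

set_option autoImplicit false
set_option linter.unusedSectionVars false

/-! Group actions on cone-offs along quasi-convex shadows. -/

namespace Pool.Agent.Lib.MP_429c3d_al.Ng

open Hyp

variable {X B : Type} {d : X → X → ℕ} {dB : B → B → ℕ} {ι : X → B} {Sh : B → X → Prop}
  {k u c : ℕ}

namespace QC

variable (C : QC d dB ι Sh k u c)
include C

variable {G : Type} [Group G] [MulAction G X] [MulAction G B] (A : CAct G d dB ι Sh)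
include A

omit C in
theorem near_smul (g : G) {ρ : ℕ} {e : B} {x : X} (h : Near d Sh ρ e x) :
    Near d Sh ρ (g • e) (g • x) := by
  obtain ⟨s, h1, h2⟩ := h
  exact ⟨g • s, A.sh_smul g e s h1, by rwa [A.inv]⟩

/-- Take `p` in the shadow of `x`, a nearest point `y` of the shadow of `α`, `exists_at` with
`s = L + coneN c + 2`, `fix_short`. -/
theorem ta {a : G} {α x : B} {L : ℕ} (hα : a • α = α)
    (hs : ∀ q, d q (a • q) ≤ 5 * k → dB (ι q) α ≤ 1) (hx : dB x (a • x) ≤ L) :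
    dB x α ≤ L + 2 * coneN c + 3 := by
  classical
  by_contra hc
  have mB := C.grB.met
  have hN := le_coneN c
  obtain ⟨p, hp⟩ := C.ne x
  obtain ⟨y₀, h₀⟩ := C.ne α
  have ex : ∃ n, ∃ y, Sh α y ∧ d p y = n := ⟨_, y₀, h₀, rfl⟩
  obtain ⟨y, h1, h2⟩ := Nat.find_spec ex
  obtain ⟨q, q1, q2⟩ := C.toCone.exists_at hp h1 (s := L + coneN c + 2) (by omega) (by omega)
  have t1 := mB.tri x (ι q) α
  have t2 := mB.symm x (ι q)
  have := hs q (C.toCone.fix_short A hp h1 (fun y' h' => h2 ▸ Nat.find_min' ex ⟨y', h', rfl⟩) q1 hx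
    hα (by omega) (by omega))
  omega

/-- `exists_at` with `s = 2 * L + coneN c + 2` and `s + 2`; `comm_short` for the pairs `(a, b)`,
`(b, a⁻¹)`, `(b⁻¹, a)` (`CAct.dis_inv`) gives `c1 = a⁻¹ b⁻¹ a b`, `a c1 a⁻¹`, `b c1 b⁻¹` short at
both points; by `csa`, `ct` one of the conjugates does not commute with `c1`. -/
theorem ai {A0 : ℕ} (h : AI G d (b1 k) A0) (hA : A0 ≤ u) (csa : CSA G) (ct : CT G) (L : ℕ) :
    AI G dB L (4 * L + 2 * coneN c + 5) := by
  intro a b x x' hab h1 h2 h3 h4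
  by_contra hc
  have mB := C.grB.met
  have hN := le_coneN c
  obtain ⟨p, hp⟩ := C.ne x
  obtain ⟨p', hp'⟩ := C.ne x'
  have key : ∀ s, 2 * L + coneN c + 2 ≤ s → s ≤ 2 * L + coneN c + 4 → ∃ q, dB (ι q) x = s ∧
      d q ((a⁻¹ * b⁻¹ * a * b) • q) ≤ b1 k ∧ d q ((a * (a⁻¹ * b⁻¹ * a * b) * a⁻¹) • q) ≤ b1 k ∧
      d q ((b * (a⁻¹ * b⁻¹ * a * b) * b⁻¹) • q) ≤ b1 k := by
    intro s s1 s2
    obtain ⟨q, q1, q2⟩ := C.toCone.exists_at hp hp' (s := s) (by omega) (by omega)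
    have t1 := mB.tri x (ι q) x'
    have t2 := mB.symm x (ι q)
    have e1 := C.toCone.comm_short A hp hp' q1 h1 h3 h2 h4 (by omega) (by omega)
    have e2 := C.toCone.comm_short A hp hp' q1 (a := b) (b := a⁻¹) h2 h4
      (by rwa [A.dis_inv mB]) (by rwa [A.dis_inv mB]) (by omega) (by omega)
    have e3 := C.toCone.comm_short A hp hp' q1 (a := b⁻¹) (b := a)
      (by rwa [A.dis_inv mB]) (by rwa [A.dis_inv mB]) h1 h3 (by omega) (by omega)
    rw [show b⁻¹ * a⁻¹⁻¹ * b * a⁻¹ = a * (a⁻¹ * b⁻¹ * a * b) * a⁻¹ by group] at e2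
    rw [show b⁻¹⁻¹ * a⁻¹ * b⁻¹ * a = b * (a⁻¹ * b⁻¹ * a * b) * b⁻¹ by group] at e3
    unfold b1
    exact ⟨q, q2, by omega, by omega, by omega⟩
  obtain ⟨q, q0, q1, q2, q3⟩ := key (2 * L + coneN c + 2) le_rfl (by omega)
  obtain ⟨q', r0, r1, r2, r3⟩ := key (2 * L + coneN c + 4) (by omega) le_rfl
  have hne : a⁻¹ * b⁻¹ * a * b ≠ 1 := fun e => hab (by
    rw [commute_iff_eq, ← mul_one (b * a), ← e]
    group)
  have hd : d q q' ≤ A0 := by
    by_cases c1 : Commute (a * (a⁻¹ * b⁻¹ * a * b) * a⁻¹) (a⁻¹ * b⁻¹ * a * b)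
    · by_cases c2 : Commute (b * (a⁻¹ * b⁻¹ * a * b) * b⁻¹) (a⁻¹ * b⁻¹ * a * b)
      · exact absurd (ct a _ b hne (csa _ a hne c1) (csa _ b hne c2).symm) hab
      · exact h _ _ q q' c2 q3 q1 r3 r1
    · exact h _ _ q q' c1 q2 q1 r2 r1
  have := C.lip q q' (hd.trans hA)
  have := mB.tri (ι q') (ι q) x
  have := mB.symm (ι q') (ι q)
  omega

/-- `exists_axis`, `coverV` for `z i = a ^ (1 + (M + 1) * i) • y`, `broken_axis`, `Broken.prod`,
`near_mid`, `near_smul`, `MinP.pow`. -/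
theorem pw {a : G} (hμ : ∀ x, u < d x (a • x)) {M n : ℕ} (hn : (2 * n + 10) * k + 1 ≤ u)
    (hE : ∀ e y, MinP d a y → Near d Sh (2 * u) e y → Near d Sh (2 * u) e (a ^ M • y) →
      Near d Sh (2 * u) (a • e) y → Near d Sh (2 * u) (a • e) (a ^ M • y) → False)
    {j : ℕ} (hj : (M + 1) * (n + 1) + 2 ≤ j) (x : B) : n < dB x (a ^ j • x) := by
  by_contra hc
  have hu := C.huge
  obtain ⟨p, hp⟩ := C.ne x
  obtain ⟨y, hy, hax⟩ := exists_axis C.gr C.hyp A.inv (g := a)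
    (fun x => by have := hμ x; omega) p
  obtain ⟨e, i, i', hi, hi', n1, n2⟩ := C.coverV hp (A.sh_smul (a ^ j) _ _ hp) (n := n)
    (t := 4 * k) (by omega) (by nlinarith) (fun i => a ^ (1 + (M + 1) * i) • y) fun i hi =>
      hax j _ (by omega) (by nlinarith [Nat.mul_le_mul_left (M + 1) hi])
  have hle : 1 + (M + 1) * i + (M + 1) ≤ 1 + (M + 1) * i' := by
    nlinarith [Nat.mul_le_mul_left (M + 1) (show i + 1 ≤ i' from hi)]
  generalize 1 + (M + 1) * i = s at n1 hle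
  generalize 1 + (M + 1) * i' = s' at n2 hle
  have hy' := hμ y
  have Br := broken_axis C.gr C.hyp A.inv hy (by omega) s'
  have key : ∀ r, s ≤ r → r ≤ s' → Near d Sh (2 * u) e (a ^ r • y) := fun r r1 r2 =>
    C.near_mid n1 n2 (t := 2 * k + 2 * k) (Br.prod C.gr.met C.hyp (by omega) r1 r2 le_rfl)
      (by omega)
  refine hE e (a ^ (s + 1) • y) (MinP.pow A.inv hy _) (key _ (by omega) (by omega)) ?_ ?_ ?_
  · rw [smul_smul, ← pow_add]
    exact key _ (by omega) (by omega)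
  · rw [pow_succ', mul_smul]
    exact near_smul A a (key _ le_rfl (by omega))
  · rw [smul_smul, ← pow_add, ← add_assoc, pow_succ', mul_smul]
    exact near_smul A a (key _ (by omega) (by omega))

/-- `exists_axis` with `j = 2`, `s = 1`; `near'`. -/
theorem mov {a : G} (hμ : ∀ x, u < d x (a • x)) {v : B} {n : ℕ} (hv : dB v (a • v) ≤ n) :
    ∃ w, MinP d a w ∧ dB (ι w) v ≤ 2 * n + coneN c + 1 := by
  have hu := C.huge
  have mB := C.grB.met
  obtain ⟨p, hp⟩ := C.ne v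
  obtain ⟨y, hy, hax⟩ := exists_axis C.gr C.hyp A.inv (g := a)
    (fun x => by have := hμ x; omega) p
  obtain ⟨w, w1, w2⟩ := C.near' hp (A.sh_smul (a ^ 2) _ _ hp) (q := a ^ 1 • y) (t := 4 * k)
    (hax 2 1 le_rfl le_rfl) (by omega)
  refine ⟨a ^ 1 • y, MinP.pow A.inv hy 1, ?_⟩
  have e1 := A.dis_mul mB a a v
  rw [← pow_two] at e1
  have := mB.tri (ι (a ^ 1 • y)) w v
  have := mB.symm w v
  unfold Btw at w1
  omega

/-- A short path between the ends of a folded segment has a vertex that sees two flips: `coverV`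
for `z i = eta (a0 + (M + 2) * i)`, `Flip.nb`, `Flip.nbf`, `near_mid`, `near_smul`. -/
theorem flip {y g : G} {ξ : X} {l N J : ℕ} (F : Flip d y g ξ l N J) {b b' : B} {p p' : X}
    (h1 : Sh b p) (h2 : Sh b' p') {n M a0 t : ℕ} (hn : dB b b' ≤ n) (ha : l ≤ a0)
    (hz : ∀ j, a0 ≤ j → j ≤ a0 + (M + 2) * (n + 1) → NB d t p (eta y g ξ j) p')
    (ht : t + (2 * ((M + 2) * (n + 1)) + 1) * J + (2 * n + 6) * k + 1 ≤ u) :
    ∃ e a, a0 ≤ a ∧ a + M + 2 ≤ a0 + (M + 2) * (n + 1) ∧ ∀ j, j = a + M ∨ j = a + M + 1 →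
      Near d Sh (2 * u) e (eta y g ξ a) ∧ Near d Sh (2 * u) e (eta y g ξ j) ∧
      Near d Sh (2 * u) ((cs y g j)⁻¹ • e) (eta y g ξ a) ∧
      Near d Sh (2 * u) ((cs y g j)⁻¹ • e) (eta y g ξ j) := by
  obtain ⟨e, i, i', hi, hi', n1, n2⟩ := C.coverV h1 h2 hn (t := t) (by omega)
    (fun i => eta y g ξ (a0 + (M + 2) * i)) fun i hi =>
      hz _ (by omega) (Nat.add_le_add_left (Nat.mul_le_mul_left (M + 2) hi) a0)
  have hle : a0 + (M + 2) * i + (M + 2) ≤ a0 + (M + 2) * i' := by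
    nlinarith [Nat.mul_le_mul_left (M + 2) (show i + 1 ≤ i' from hi)]
  have hle' : a0 + (M + 2) * i' ≤ a0 + (M + 2) * (n + 1) :=
    Nat.add_le_add_left (Nat.mul_le_mul_left (M + 2) hi') a0
  have hle0 : a0 ≤ a0 + (M + 2) * i := Nat.le_add_right _ _
  generalize a0 + (M + 2) * i = a at n1 hle hle0
  generalize a0 + (M + 2) * i' = a' at n2 hle hle'
  generalize (M + 2) * (n + 1) = R at ht hle' ⊢
  have b1 : (2 * (a' - a) + 1) * J ≤ (2 * R + 1) * J := Nat.mul_le_mul_right J (by omega)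
  have b2 : (a' - a) * J ≤ (2 * R + 1) * J := Nat.mul_le_mul_right J (by omega)
  have b3 : 5 * k ≤ (2 * n + 6) * k := Nat.mul_le_mul_right k (by omega)
  refine ⟨e, a, hle0, by omega, fun j hj => ?_⟩
  have key : ∀ r, a ≤ r → r ≤ j → Near d Sh (2 * u) ((cs y g j)⁻¹ • e) (eta y g ξ r) := by
    intro r r1 r2
    have := near_smul A (cs y g j)⁻¹ (C.near_mid n1 n2
      (F.nbf C.gr.met A.inv (a := a) (a' := r) (j := j) (b := a') (by omega) r1 r2 (by omega))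
      (by omega))
    rwa [inv_smul_smul] at this
  exact ⟨n1.mono (by omega), C.near_mid n1 n2 (F.nb C.gr.met A.inv (a := a) (j := j) (b := a')
    (by omega) (by omega) (by omega)) (by omega), key a le_rfl (by omega), key j (by omega) le_rfl⟩

end QC

end Pool.Agent.Lib.MP_429c3d_al.Ng
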