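import Pool.Agent.Lib.MP_429c3d_al.HypGraph

/-! Bipartite trees with a group action: medians, lines, feet, overlap of two lines. -/

set_option autoImplicit false

namespace Pool.Agent.Lib.MP_429c3d_al.Ng

open Hyp

/-- A bipartite tree with a type preserving isometric action. -/
structure BT (H V : Type) [Group H] [MulAction H V] where
  d : V → V → ℕ
  ap : V → Prop
  gr : IsGr d
  hyp : Hyp4 d 0
  bip : ∀ x y, d x y = 1 → (ap x ↔ ¬ ap y)
  inv : ∀ (g : H) x y, d (g • x) (g • y) = d x y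
  ap_smul : ∀ (g : H) x, ap (g • x) ↔ ap x

namespace BT

variable {H V : Type} [Group H] [MulAction H V] (T : BT H V)

theorem self (x : V) : T.d x x = 0 := T.gr.met.self x
theorem symm (x y : V) : T.d x y = T.d y x := T.gr.met.symm x y
theorem tri (x y z : V) : T.d x z ≤ T.d x y + T.d y z := T.gr.met.tri x y z
theorem sep {x y : V} (h : T.d x y = 0) : x = y := T.gr.sep x y h
theorem pos {x y : V} (h : x ≠ y) : 0 < T.d x y := Nat.pos_of_ne_zero fun e => h (T.sep e)
theorem ne_of {x y : V} (h : 0 < T.d x y) : x ≠ y := fun e => by rw [e, T.self] at h; omega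

theorem inv' (g : H) (x y : V) : T.d x (g • y) = T.d (g⁻¹ • x) y := by
  rw [← T.inv g⁻¹, inv_smul_smul]

theorem par (x y : V) : (T.ap x ↔ T.ap y) ↔ T.d x y % 2 = 0 := by
  refine T.gr.induct x (P := fun n v => (T.ap x ↔ T.ap v) ↔ n % 2 = 0) (by simp) ?_ y
  intro n u v _ _ h ih
  have h1 := T.bip u v h
  by_cases hn : n % 2 = 0
  · have h2 := ih.2 hn
    exact ⟨fun h3 => by tauto, fun h3 => by omega⟩
  · have h2 := mt ih.1 hn
    exact ⟨fun _ => by omega, fun _ => by tauto⟩

theorem par3 (x y z : V) : (T.d x y + T.d y z + T.d x z) % 2 = 0 := by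
  have h1 := T.par x y
  have h2 := T.par y z
  have h3 := T.par x z
  by_cases a : T.d x y % 2 = 0 <;> by_cases b : T.d y z % 2 = 0 <;>
    by_cases c : T.d x z % 2 = 0 <;> first | omega | (exfalso; tauto)

theorem par_smul (g : H) (x : V) : T.d x (g • x) % 2 = 0 :=
  (T.par _ _).1 (T.ap_smul g x).symm

theorem uniq {x y u u' : V} (h : T.d x u + T.d u y = T.d x y) (h' : T.d x u' + T.d u' y = T.d x y)
    (e : T.d x u = T.d x u') : u = u' := by
  have h1 := T.hyp u u' x y
  rw [T.symm u x, T.symm u' x] at h1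
  exact T.sep (by omega)

theorem exists_pt (x y : V) {k : ℕ} (hk : k ≤ T.d x y) :
    ∃ u, T.d x u = k ∧ k + T.d u y = T.d x y := by
  obtain ⟨g, g0, g1, g2⟩ := T.gr.exists_geo x y
  have h1 := g2 0 k le_rfl (Nat.zero_le _) hk
  have h2 := g2 k _ (Nat.zero_le _) hk le_rfl
  rw [g0] at h1
  rw [g1] at h2
  exact ⟨g k, by omega, by omega⟩

theorem on_of_branch {x y z u : V} (h : T.d x u + T.d u z = T.d x z)
    (hk : 2 * T.d x u + T.d y z ≤ T.d x y + T.d x z) : T.d x u + T.d u y = T.d x y := by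
  have h1 := T.hyp u y x z
  have h2 := T.tri x u y
  rw [T.symm u x, T.symm y x] at h1
  omega

theorem median (x y z : V) : ∃ m, T.d x m + T.d m y = T.d x y ∧ T.d x m + T.d m z = T.d x z ∧
    T.d y m + T.d m z = T.d y z := by
  have h1 := T.par3 x y z
  have h2 := T.tri y x z
  have h3 := T.tri x y z
  have h4 := T.tri x z y
  rw [T.symm y x] at h2
  rw [T.symm z y] at h4
  obtain ⟨m, a, b⟩ := T.exists_pt x z (k := (T.d x y + T.d x z - T.d y z) / 2) (by omega)
  have c := T.on_of_branch (x := x) (y := y) (z := z) (u := m) (by omega) (by omega)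
  refine ⟨m, c, by omega, ?_⟩
  rw [T.symm y m]
  omega

/-- A neighbour of `p` which is not on the way to `x` is farther from `x`. -/
theorem nbr_far {x p u v : V} (hu : T.d x u + 1 = T.d x p) (hup : T.d u p = 1) (hv : T.d p v = 1)
    (h : v ≠ u) : T.d x v = T.d x p + 1 := by
  have h1 := T.par3 x p v
  have h2 := T.tri x p v
  have h3 := T.tri x v p
  rw [T.symm v p] at h3
  by_contra hc
  exact h (T.uniq (x := x) (y := p) (by rw [T.symm v p]; omega) (by omega) (by omega))

/-- Extension of a geodesic beyond an edge. -/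
theorem ext {x p u q : V} (hx : T.d p u + T.d u x = T.d p x) (hu : u ≠ p)
    (hq : T.d u q = T.d u p + T.d p q) : T.d x q = T.d x p + T.d p q := by
  have h1 := T.hyp x p u q
  have h2 := T.tri x p q
  have h3 := T.pos hu
  rw [T.symm p x, T.symm u x, T.symm p u] at hx
  rw [T.symm p u] at h1
  omega

theorem fix_of_between {g : H} {x y u : V} (hx : g • x = x) (hy : g • y = y)
    (h : T.d x u + T.d u y = T.d x y) : g • u = u := by
  have e1 : T.d x (g • u) = T.d x u := by rw [← T.inv g x u, hx]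
  have e2 : T.d (g • u) y = T.d u y := by rw [← T.inv g u y, hy]
  exact T.uniq (x := x) (y := y) (by omega) h e1

/-- Geodesic lines. -/
def IsL (l : ℤ → V) : Prop := ∀ i j, T.d (l i) (l j) = (i - j).natAbs

/-- `l p` is the foot of `x` on `l`, at distance `D`. -/
def Ft (l : ℤ → V) (x : V) (p : ℤ) (D : ℕ) : Prop := ∀ k, T.d x (l k) = D + (k - p).natAbs

variable {T} {l l' : ℤ → V}

theorem IsL.inj (h : T.IsL l) {i j : ℤ} (e : l i = l j) : i = j := by
  have := h i j
  rw [e, T.self] at this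
  omega

theorem IsL.ne (h : T.IsL l) {i j : ℤ} (e : i ≠ j) : l i ≠ l j := fun h' => e (h.inj h')

theorem IsL.add (h : T.IsL l) (u : ℤ) : T.IsL fun j => l (u + j) := fun i j => by
  rw [h]; omega

theorem IsL.sub (h : T.IsL l) (u : ℤ) : T.IsL fun j => l (u - j) := fun i j => by
  rw [h]; omega

theorem IsL.smul (h : T.IsL l) (g : H) : T.IsL fun j => g • l j := fun i j => by
  rw [T.inv, h]

theorem IsL.par (h : T.IsL l) (i j : ℤ) : (T.ap (l i) ↔ T.ap (l j)) ↔ (i - j) % 2 = 0 := by
  rw [T.par, h]; omega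

theorem IsL.ft (h : T.IsL l) (p : ℤ) : T.Ft l (l p) p 0 := fun k => by rw [h]; omega

theorem IsL.eq_of_between (h : T.IsL l) {x : V} {i j k : ℤ} (h1 : i ≤ k) (h2 : k ≤ j)
    (e1 : (T.d (l i) x : ℤ) = k - i) (e2 : (T.d x (l j) : ℤ) = j - k) : x = l k := by
  have a := h i j
  have b := h i k
  have c := h k j
  exact T.uniq (x := l i) (y := l j) (by omega) (by omega) (by omega)

theorem IsL.exists_of_between (h : T.IsL l) {x : V} {i j : ℤ} (hij : i ≤ j)
    (e : T.d (l i) x + T.d x (l j) = T.d (l i) (l j)) : ∃ k, i ≤ k ∧ k ≤ j ∧ x = l k := by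
  have a := h i j
  exact ⟨i + T.d (l i) x, by omega, by omega,
    h.eq_of_between (i := i) (j := j) (by omega) (by omega) (by omega) (by omega)⟩

/-- Two lines agree between two common points, parallel case. -/
theorem IsL.conv (h : T.IsL l) (h' : T.IsL l') {i i' n k : ℤ} (e : l i = l' i')
    (e' : l (i + n) = l' (i' + n)) (h1 : 0 ≤ k) (h2 : k ≤ n) : l' (i' + k) = l (i + k) := by
  refine h.eq_of_between (i := i) (j := i + n) (by omega) (by omega) ?_ ?_
  · rw [e, h']; omega
  · rw [e', h']; omega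

/-- Two lines agree between two common points, antiparallel case. -/
theorem IsL.conv' (h : T.IsL l) (h' : T.IsL l') {i i' n k : ℤ} (e : l i = l' i')
    (e' : l (i + n) = l' (i' - n)) (h1 : 0 ≤ k) (h2 : k ≤ n) : l' (i' - k) = l (i + k) := by
  refine h.eq_of_between (i := i) (j := i + n) (by omega) (by omega) ?_ ?_
  · rw [e, h']; omega
  · rw [e', h']; omega

theorem isL_of_local (h1 : ∀ i, T.d (l i) (l (i + 1)) = 1) (h2 : ∀ i, l (i + 2) ≠ l i) :
    T.IsL l := by
  have key : ∀ (i : ℤ) (n : ℕ), T.d (l i) (l (i + n)) = n ∧ T.d (l i) (l (i + n + 1)) = n + 1 := by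
    intro i n
    induction n with
    | zero => simpa [T.self] using h1 i
    | succ n ih =>
      refine ⟨by rw [show i + ((n + 1 : ℕ) : ℤ) = i + n + 1 by push_cast; ring]; exact ih.2, ?_⟩
      have a := h1 (i + n)
      have b := h1 (i + n + 1)
      have c := h2 (i + n)
      have e : (i + ((n + 1 : ℕ) : ℤ) + 1) = i + n + 1 + 1 := by push_cast; ring
      rw [e, T.nbr_far (u := l (i + n)) (p := l (i + n + 1)) (by omega) a b
        (by rwa [show i + n + 1 + 1 = i + n + 2 by ring]), ih.2]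
  intro i j
  rcases le_total i j with h | h
  · have := (key i (j - i).natAbs).1
    rw [show i + ((j - i).natAbs : ℤ) = j by omega] at this
    omega
  · have := (key j (i - j).natAbs).1
    rw [show j + ((i - j).natAbs : ℤ) = i by omega] at this
    rw [T.symm]
    omega

theorem exists_min {α : Type} [Nonempty α] (f : α → ℕ) : ∃ p, ∀ q, f p ≤ f q :=
  ⟨Function.argmin f, fun q => Function.argmin_le f q⟩

theorem IsL.exists_ft (h : T.IsL l) (x : V) : ∃ p D, T.Ft l x p D := by
  obtain ⟨p, hp⟩ := exists_min fun k => T.d x (l k)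
  refine ⟨p, T.d x (l p), fun k => ?_⟩
  obtain ⟨m, a, b, c⟩ := T.median x (l p) (l k)
  have e : m = l p := by
    rcases le_total p k with hk | hk
    · obtain ⟨j, -, -, rfl⟩ := h.exists_of_between hk c
      have := hp j
      exact T.sep (by omega)
    · obtain ⟨j, -, -, rfl⟩ := h.exists_of_between (x := m) hk
        (by rw [T.symm (l k) m, T.symm m (l p), T.symm (l k)]; omega)
      have := hp j
      exact T.sep (by omega)
  have := h p k
  subst e
  omega

theorem Ft.unique {x : V} {p q : ℤ} {D E : ℕ} (h : T.Ft l x p D) (h' : T.Ft l x q E) :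
    p = q ∧ D = E := by
  have a := h p
  have b := h q
  have c := h' p
  have e := h' q
  omega

theorem Ft.eq {x : V} {p : ℤ} (h : T.Ft l x p 0) : x = l p := T.sep (by rw [h]; omega)

theorem Ft.via (hl : T.IsL l) {x y : V} {p q : ℤ} {D E : ℕ} (h : T.Ft l x p D) (h' : T.Ft l y q E)
    (hpq : p ≠ q) : T.d x y = D + (p - q).natAbs + E := by
  have h1 := T.hyp x (l q) y (l p)
  have h2 := T.tri x (l q) y
  rw [T.symm (l q) y, h, h', h, h', hl] at h1
  rw [T.symm (l q) y, h, h'] at h2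
  omega

theorem Ft.smul {x : V} {p : ℤ} {D : ℕ} (h : T.Ft l x p D) (g : H) :
    T.Ft (fun j => g • l j) (g • x) p D := fun k => by rw [T.inv, h]

/-- Clamping to the interval from `0` to `δ`. -/
def cl (δ i : ℤ) : ℤ := max 0 (min δ i)

/-- The two lines have the common part from `0` to `δ`, or a bridge of length `D` from `l 0` to
`l' 0`. -/
structure Ov (T : BT H V) (l l' : ℤ → V) (δ : ℤ) (D : ℕ) : Prop where
  left : T.IsL l
  right : T.IsL l'
  nonneg : 0 ≤ δ
  zero : D = 0 ∨ δ = 0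
  ft : ∀ i, T.Ft l' (l i) (cl δ i) (D + (i - cl δ i).natAbs)

theorem Ov.symm {δ : ℤ} {D : ℕ} (h : T.Ov l l' δ D) : T.Ov l' l δ D := by
  refine ⟨h.right, h.left, h.nonneg, h.zero, fun i k => ?_⟩
  have := h.nonneg
  have := h.zero
  rw [T.symm, h.ft k i]
  unfold cl
  omega

theorem Ov.rev {δ : ℤ} {D : ℕ} (h : T.Ov l l' δ D) :
    T.Ov (fun j => l (δ - j)) (fun j => l' (δ - j)) δ D := by
  refine ⟨h.left.sub _, h.right.sub _, h.nonneg, h.zero, fun i k => ?_⟩
  have := h.nonneg
  rw [h.ft (δ - i) (δ - k)]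
  unfold cl
  omega

theorem Ov.eq {δ : ℤ} (h : T.Ov l l' δ 0) {i : ℤ} (h1 : 0 ≤ i) (h2 : i ≤ δ) : l i = l' i :=
  T.sep (by rw [h.ft]; unfold cl; omega)

theorem Ov.mem {δ : ℤ} {D : ℕ} (h : T.Ov l l' δ D) {i j : ℤ} (e : l i = l' j) :
    D = 0 ∧ 0 ≤ i ∧ i ≤ δ ∧ j = i := by
  have h1 := h.ft i j
  have := h.nonneg
  rw [e, T.self] at h1
  unfold cl at h1
  omega

theorem ov_of_ends (h : T.IsL l) (h' : T.IsL l') {δ : ℤ} (h0 : 0 ≤ δ) (e0 : l 0 = l' 0)
    (e1 : l δ = l' δ) (hm : ∀ i j, l i = l' j → 0 ≤ i ∧ i ≤ δ) : T.Ov l l' δ 0 := by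
  refine ⟨h, h', h0, Or.inl rfl, fun i => ?_⟩
  obtain ⟨q, E, hq⟩ := h'.exists_ft (l i)
  have a := hq 0
  have b := hq δ
  have c := hq q
  rw [← e0, h] at a
  rw [← e1, h] at b
  rcases lt_or_ge i 0 with hi | hi
  · obtain ⟨k, k1, k2, k3⟩ := h.exists_of_between (x := l' q) hi.le (by rw [h, e0, h']; omega)
    have := hm k q k3.symm
    have e : k = 0 := by omega
    rw [e, e0] at k3
    have := h'.inj k3
    intro k
    rw [hq]
    unfold cl
    omega
  rcases lt_or_ge δ i with hi' | hi'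
  · obtain ⟨k, k1, k2, k3⟩ := h.exists_of_between (x := l' q) hi'.le
      (by rw [h, e1, h', T.symm]; omega)
    have := hm k q k3.symm
    have e : k = δ := by omega
    rw [e, e1] at k3
    have := h'.inj k3
    intro k
    rw [hq]
    unfold cl
    omega
  · intro k
    rw [hq]
    unfold cl
    omega

/-- Two lines with bounded overlap. -/
theorem exists_ov (h : T.IsL l) (h' : T.IsL l') {N : ℤ}
    (hN : ∀ i i' j j', l i = l' j → l i' = l' j' → i' ≤ i + N) :
    ∃ (u u' δ : ℤ) (D : ℕ), T.Ov (fun j => l (u + j)) (fun j => l' (u' + j)) δ D ∨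
      T.Ov (fun j => l (u + j)) (fun j => l' (u' - j)) δ D := by
  by_cases hc : ∃ i j, l i = l' j
  · obtain ⟨i0, j0, e0⟩ := hc
    obtain ⟨u, ⟨u', hu⟩, hmin⟩ := Int.exists_least_of_bdd (P := fun i => ∃ j, l i = l' j)
      ⟨i0 - N, fun i ⟨j, e⟩ => by have := hN _ _ _ _ e e0; omega⟩ ⟨i0, j0, e0⟩
    obtain ⟨v, ⟨v', hv⟩, hmax⟩ := Int.exists_greatest_of_bdd (P := fun i => ∃ j, l i = l' j)
      ⟨i0 + N, fun i ⟨j, e⟩ => hN _ _ _ _ e0 e⟩ ⟨i0, j0, e0⟩
    have h1 := hmin v ⟨v', hv⟩
    have h2 := h u v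
    rw [hu, hv, h'] at h2
    refine ⟨u, u', v - u, 0, ?_⟩
    rcases le_total u' v' with h3 | h3
    · left
      refine ov_of_ends (h.add u) (h'.add u') (by omega) (by simpa using hu) ?_ fun i j e => ?_
      · rw [show u + (v - u) = v by ring, show u' + (v - u) = v' by omega]; exact hv
      · have := hmin _ ⟨_, e⟩
        have := hmax _ ⟨_, e⟩
        omega
    · right
      refine ov_of_ends (h.add u) (h'.sub u') (by omega) (by simpa using hu) ?_ fun i j e => ?_
      · rw [show u + (v - u) = v by ring, show u' - (v - u) = v' by omega]; exact hv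
      · have := hmin _ ⟨_, e⟩
        have := hmax _ ⟨_, e⟩
        omega
  · obtain ⟨⟨p, p'⟩, hp⟩ := exists_min fun q : ℤ × ℤ => T.d (l q.1) (l' q.2)
    have hD : 0 < T.d (l p) (l' p') := T.pos fun e => hc ⟨_, _, e⟩
    obtain ⟨q, E, hq⟩ := h'.exists_ft (l p)
    obtain ⟨q', E', hq'⟩ := h.exists_ft (l' p')
    have a1 := hq q
    have a2 := hq p'
    have a3 := hp (p, q)
    have b1 := hq' q'
    have b2 := hq' p
    have b3 := hp (q', p')
    simp only at a3 b3
    rw [T.symm] at b1 b2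
    refine ⟨p, p', 0, T.d (l p) (l' p'), Or.inl ⟨h.add p, h'.add p', le_rfl, Or.inr rfl,
      fun i k => ?_⟩⟩
    have c1 := T.hyp (l (p + i)) (l' p') (l' (p' + k)) (l p)
    have c2 := T.tri (l (p + i)) (l' p') (l' (p' + k))
    have c3 := hq (p' + k)
    have c4 := hq' (p + i)
    rw [T.symm] at c3 c4
    rw [h, h', T.symm (l' p') (l p)] at c1
    rw [h'] at c2
    unfold cl
    omega

end BT

end Pool.Agent.Lib.MP_429c3d_al.Ng
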