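import Pool.Agent.Lib.MP_429c3d_al.NgTree
import Pool.Agent.Lib.MP_429c3d_al.NgT1

/-! The tree of a step as a bipartite tree, the basic line, and the size lemma. -/

set_option autoImplicit false

namespace Pool.Agent.Lib.MP_429c3d_al.Ng

open Hyp

variable {G G' Z Z' : Type} [Group G] [Group G'] [MulAction G Z] [MulAction G' Z']
  {d : Z → Z → ℕ} {d' : Z' → Z' → ℕ}

namespace Gate

variable (S : Gate G G' d d')

/-- The tree of copies and glue apices. -/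
noncomputable def bt : BT G' S.TV where
  d := S.dT
  ap := S.tap
  gr := S.dT_gr
  hyp := S.dT_hyp
  bip := fun _ _ h => S.dT_bip h
  inv := S.dT_inv
  ap_smul := S.tap_smul

/-- The apex vertex of the tail. -/
def t0 : S.TV := S.av ⟨S.ι S.t, MulAction.mem_orbit_self _⟩

/-- Positions of a point in the tree. -/
def At (x : Z') (v : S.TV) : Prop :=
  (∃ (γ : G') (z : Z), x = γ • S.ι z ∧ v = γ • S.C0) ∨
    ∃ a : MulAction.orbit G' (S.ι S.t), S.OnL x a ∧ v = S.av a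

theorem exists_at (x : Z') : ∃ v, S.At x v := by
  rcases S.cover x with ⟨γ, z, h⟩ | ⟨γ, rfl⟩
  · exact ⟨_, Or.inl ⟨γ, z, h, rfl⟩⟩
  · exact ⟨_, Or.inr ⟨⟨γ • S.ι S.t, γ, rfl⟩, S.onL_t γ, rfl⟩⟩

theorem At.smul {S : Gate G G' d d'} {x : Z'} {v : S.TV} (h : S.At x v) (δ : G') :
    S.At (δ • x) (δ • v) := by
  rcases h with ⟨γ, z, rfl, rfl⟩ | ⟨a, h1, rfl⟩
  · exact Or.inl ⟨δ * γ, z, (mul_smul _ _ _).symm, (mul_smul _ _ _).symm⟩
  · exact Or.inr ⟨δ • a, h1.smul δ, rfl⟩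

theorem At.rho {S : Gate G G' d d'} {x : Z'} {v : S.TV} (h : S.At x v) {z : Z}
    (hv : v ∈ S.side z) : S.Rho x z := by
  rcases h with ⟨γ, z', rfl, rfl⟩ | ⟨a, h1, rfl⟩
  · exact Or.inl (((S.mem_side_copy _ _).1 hv).2 z').symm
  · exact (S.mem_side_av _ _).1 hv ▸ h1.rho

theorem At.of_rho {S : Gate G G' d d'} {x : Z'} {v : S.TV} (h : S.At x v) {z : Z}
    (hv : v ∉ S.side z) (hx : S.Rho x z) : x = S.ι z ∨ S.OnL x (S.ι z) := by
  rcases h with ⟨γ, z', rfl, rfl⟩ | ⟨a, h1, rfl⟩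
  · rw [(S.old_smul_ι _ _).rho] at hx
    by_cases hγ : γ ∈ S.φ.range
    · obtain ⟨g, rfl⟩ := hγ
      rw [S.rt_φ_ι] at hx
      exact Or.inl (by rw [hx, S.ι_smul])
    · exact absurd ((S.mem_side_copy _ _).2 ⟨hγ, fun u => (S.far γ hγ u z').trans hx.symm⟩) hv
  · exact Or.inr (S.rho_two_onL hx h1.rho fun hh => hv ((S.mem_side_av _ _).2 hh.symm))

theorem side_cut {a : MulAction.orbit G' (S.ι S.t)} {z : Z} (ha : (a : Z') = S.ι z) {u v : S.TV}
    (hu : u ∈ S.side z) (hv : v ∉ S.side z) : S.dT u v = S.dT u (S.av a) + 1 + S.dT S.C0 v := by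
  refine cut_dist S.dT_gr (fun p q hpq hp hq => ?_) hu hv
  rcases (S.dT_eq_one _ _).1 hpq with h1 | h1
  · rcases S.side_inc z h1 with h2 | ⟨h2, -⟩
    · exact absurd (h2.1 hp) hq
    · exact absurd (h2 ▸ hp) (S.C0_not_mem_side z)
  · rcases S.side_inc z h1 with h2 | ⟨h2, h3⟩
    · exact absurd (h2.2 hp) hq
    · obtain ⟨y, e1, e2⟩ := h3 hp
      exact ⟨by rw [e1, Subtype.ext (e2.trans ha.symm)], h2⟩

/-- SEP: a path meets every apex between the positions of its ends, or a cone over it. -/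
theorem sep_at {c : ℕ → Z'} {n : ℕ} (hc : ∀ i, i < n → d' (c i) (c (i + 1)) ≤ 1) {v v' : S.TV}
    (h0 : S.At (c 0) v) (hn : S.At (c n) v') {a : MulAction.orbit G' (S.ι S.t)}
    (ha : S.dT v (S.av a) + S.dT (S.av a) v' = S.dT v v') :
    ∃ i, i ≤ n ∧ (c i = a ∨ S.OnL (c i) a) := by
  by_cases hv : S.dT (S.av a) v' = 0
  · rw [← S.dT_gr.sep _ _ hv] at hn
    rcases hn with ⟨γ, -, -, h2⟩ | ⟨b, h1, h2⟩
    · exact absurd h2.symm (S.smul_C0_ne γ a)
    · exact ⟨n, le_rfl, Or.inr (S.av_inj h2 ▸ h1)⟩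
  obtain ⟨m, hm⟩ := Nat.exists_eq_succ_of_ne_zero hv
  obtain ⟨u, u1, u2⟩ := IsGr.step S.dT_gr hm
  obtain ⟨γ, rfl⟩ := (S.tcover u).resolve_right ((S.dT_bip u1).1 ⟨a, rfl⟩)
  have m1 := S.dT_gr.met
  rw [m1.symm] at u1
  obtain ⟨b, z, e1, e2⟩ := (S.dT_copy γ _).1 u1
  obtain rfl := S.av_inj e1
  have e3 : ((γ⁻¹ • a : MulAction.orbit G' (S.ι S.t)) : Z') = S.ι z := by
    change γ⁻¹ • (a : Z') = _
    rw [e2, inv_smul_smul]
  have e4 : S.av (γ⁻¹ • a) ∈ S.side z := (S.mem_side_av _ _).2 (by rw [e3, S.rt_ι])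
  have dd : ∀ p, S.dT (γ⁻¹ • p) S.C0 = S.dT p (γ • S.C0) := fun p => by
    rw [← S.dT_inv γ, smul_inv_smul]
  have h1 : γ⁻¹ • v' ∉ S.side z := fun hh => by
    have := S.side_cut e3 hh (S.C0_not_mem_side z)
    rw [dd, ← S.smul_av, S.dT_inv, m1.symm v', m1.symm v'] at this
    omega
  have h2 : γ⁻¹ • v ∈ S.side z := by
    by_contra hh
    have := S.side_cut e3 e4 hh
    rw [m1.self, m1.symm S.C0, dd, ← S.smul_av, S.dT_inv, m1.symm _ v] at this
    have := m1.tri v (γ • S.C0) v'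
    omega
  have back : ∀ i, γ⁻¹ • c i = S.ι z ∨ S.OnL (γ⁻¹ • c i) (S.ι z) → c i = a ∨ S.OnL (c i) a :=
    fun i hi => hi.imp (fun h3 => by rw [e2, ← h3, smul_inv_smul])
      fun h3 => by simpa [e2] using h3.smul γ
  by_cases h3 : S.Rho (γ⁻¹ • c n) z
  · exact ⟨n, le_rfl, back n ((hn.smul γ⁻¹).of_rho h1 h3)⟩
  · obtain ⟨i, hi, h4⟩ := S.sep_path (c := fun i => γ⁻¹ • c i)
      (fun i hi => by rw [S.inv']; exact hc i hi) ((h0.smul γ⁻¹).rho h2) h3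
    exact ⟨i, hi.le, back i h4⟩

/-- SIZE: apices between the positions of two points, no two of them on a common line. -/
theorem size {x x' : Z'} {v v' : S.TV} (hx : S.At x v) (hx' : S.At x' v')
    (s : Finset (MulAction.orbit G' (S.ι S.t)))
    (h1 : ∀ a ∈ s, ∀ b ∈ s, a ≠ b → ∀ u, S.OnL u a → ¬ S.OnL u b)
    (h2 : ∀ a ∈ s, S.dT v (S.av a) + S.dT (S.av a) v' = S.dT v v') : s.card ≤ d' x x' + 1 := by
  obtain ⟨c, c0, c1, -, c2⟩ := S.exists_path x x'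
  have h3 : ∀ a : MulAction.orbit G' (S.ι S.t), ∃ i, a ∈ s → i ≤ d' x x' ∧
      (c i = a ∨ S.OnL (c i) a) := fun a => by
    by_cases ha : a ∈ s
    · obtain ⟨i, hi⟩ := S.sep_at c2 (c0 ▸ hx) (by rw [c1]; exact hx') (h2 a ha)
      exact ⟨i, fun _ => hi⟩
    · exact ⟨0, fun hh => absurd hh ha⟩
  choose f hf using h3
  have old : ∀ a : MulAction.orbit G' (S.ι S.t), S.Old a := fun ⟨_, γ, hγ⟩ => ⟨γ, S.t, hγ.symm⟩
  have := Finset.card_le_card_of_injOn (s := s) (t := Finset.range (d' x x' + 1)) f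
    (fun a ha => by
      have := (hf a ha).1
      simp only [Finset.coe_range, Set.mem_Iio]
      omega)
    (fun a ha b hb hh => by
      by_contra hne
      have e1 := (hf a ha).2
      have e2 := (hf b hb).2
      rw [hh] at e1
      rcases e1 with e1 | e1 <;> rcases e2 with e2 | e2
      · exact hne (Subtype.ext (e1.symm.trans e2))
      · exact e2.not_old (e1 ▸ old a)
      · exact e1.not_old (e2 ▸ old b)
      · exact h1 a ha b hb hne _ e1 e2)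
  rwa [Finset.card_range] at this

/-- The basic line of the tree. -/
def l0 (i : ℤ) : S.TV := if i % 2 = 0 then S.e ^ (i / 2) • S.t0 else S.e ^ (i / 2) • S.C0

theorem l0_even (j : ℤ) : S.l0 (2 * j) = S.e ^ j • S.t0 := by
  rw [l0, if_pos (by omega), show 2 * j / 2 = j by omega]

theorem l0_odd (j : ℤ) : S.l0 (2 * j + 1) = S.e ^ j • S.C0 := by
  rw [l0, if_neg (by omega), show (2 * j + 1) / 2 = j by omega]

theorem e_l0 (i : ℤ) : S.e • S.l0 i = S.l0 (i + 2) := by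
  rcases Int.even_or_odd' i with ⟨j, rfl | rfl⟩
  · rw [show 2 * j + 2 = 2 * (j + 1) by ring, l0_even, l0_even, ← mul_smul, add_comm,
      zpow_one_add]
  · rw [show 2 * j + 1 + 2 = 2 * (j + 1) + 1 by ring, l0_odd, l0_odd, ← mul_smul, add_comm,
      zpow_one_add]

theorem zpow_l0 (k i : ℤ) : S.e ^ k • S.l0 i = S.l0 (i + 2 * k) := by
  rcases Int.even_or_odd' i with ⟨j, rfl | rfl⟩
  · rw [show 2 * j + 2 * k = 2 * (k + j) by ring, l0_even, l0_even, ← mul_smul, zpow_add]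
  · rw [show 2 * j + 1 + 2 * k = 2 * (k + j) + 1 by ring, l0_odd, l0_odd, ← mul_smul, zpow_add]

theorem isL_l0 : S.bt.IsL S.l0 := by
  refine BT.isL_of_local (fun i => ?_) fun i hi => ?_
  · change S.dT _ _ = 1
    rcases Int.even_or_odd' i with ⟨j, rfl | rfl⟩
    · rw [l0_even, l0_odd, S.dT_gr.met.symm]
      exact (S.dT_copy _ _).2 ⟨_, S.t, rfl, rfl⟩
    · rw [show 2 * j + 1 + 1 = 2 * (j + 1) by ring, l0_even, l0_odd]
      refine (S.dT_copy _ _).2 ⟨_, S.h, rfl, ?_⟩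
      change S.e ^ (j + 1) • S.ι S.t = _
      rw [zpow_add_one, mul_smul, S.e_t]
  · rw [← e_l0] at hi
    rcases Int.even_or_odd' i with ⟨j, rfl | rfl⟩
    · rw [l0_even] at hi
      have := congrArg Subtype.val (S.av_inj hi)
      exact one_ne_zero (S.e_zpow_old (j := 1) (S.old_smul_ι _ _) (by rw [zpow_one]; exact this))
    · rw [l0_odd, ← mul_smul, S.smul_C0_eq_iff] at hi
      refine S.e_zpow_not_mem (j := -1) (by omega) ?_
      rwa [show (S.e * S.e ^ j)⁻¹ * S.e ^ j = S.e ^ (-1 : ℤ) by group] at hi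

theorem dT_l0 (i j : ℤ) : S.dT (S.l0 i) (S.l0 j) = (i - j).natAbs := S.isL_l0 i j

theorem av_eq_l0 {a : MulAction.orbit G' (S.ι S.t)} {γ : G'} {i : ℤ} (h : S.av a = γ • S.l0 i) :
    S.OnL (γ • S.w) a := by
  rcases Int.even_or_odd' i with ⟨j, rfl | rfl⟩
  · rw [l0_even] at h
    have := congrArg Subtype.val (S.av_inj h)
    exact this ▸ S.onL_zpow γ j
  · rw [l0_odd, ← mul_smul] at h
    exact absurd h.symm (S.smul_C0_ne _ _)

theorem onL_iff (γ : G') (a : MulAction.orbit G' (S.ι S.t)) :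
    S.OnL (γ • S.w) a ↔ ∃ i, S.av a = γ • S.l0 i := by
  refine ⟨fun h => ?_, fun ⟨_, h⟩ => S.av_eq_l0 h⟩
  obtain ⟨j, hj⟩ := h.exists_zpow
  exact ⟨2 * j, by rw [l0_even]; exact congrArg S.av (Subtype.ext hj)⟩

theorem common_line_iff (a b : MulAction.orbit G' (S.ι S.t)) : (∃ u, S.OnL u a ∧ S.OnL u b) ↔
    ∃ (γ : G') (i j : ℤ), S.av a = γ • S.l0 i ∧ S.av b = γ • S.l0 j := by
  constructor
  · rintro ⟨u, h1, h2⟩
    obtain ⟨γ, rfl, -⟩ := id h1
    obtain ⟨i, hi⟩ := (S.onL_iff γ a).1 h1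
    obtain ⟨j, hj⟩ := (S.onL_iff γ b).1 h2
    exact ⟨γ, i, j, hi, hj⟩
  · rintro ⟨γ, i, j, h1, h2⟩
    exact ⟨_, S.av_eq_l0 h1, S.av_eq_l0 h2⟩

end Gate

end Pool.Agent.Lib.MP_429c3d_al.Ng
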