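import Pool.Agent.Lib.MP_429c3d_al.NgT1

/-! Products of elliptic elements and translations on a tree. -/

set_option autoImplicit false

namespace Pool.Agent.Lib.MP_429c3d_al.Ng

open Hyp

namespace BT

variable {H V : Type} [Group H] [MulAction H V] (T : BT H V) {l l' : ℤ → V}

/-- The midpoint between `x` and `g x` is fixed by an elliptic element `g`. -/
theorem q_mid {g : H} {q x m : V} (hq : g • q = q) (h1 : T.d x m = T.d m (g • x))
    (h2 : T.d x m + T.d m (g • x) = T.d x (g • x)) : g • m = m := by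
  obtain ⟨μ, a, b, c⟩ := T.median x (g • x) q
  have e1 : T.d (g • x) q = T.d x q := by rw [← T.inv g x q, hq]
  have e2 := T.symm μ (g • x)
  obtain rfl : μ = m := T.uniq a h2 (by omega)
  have e3 : T.d (g • x) (g • μ) = T.d x μ := T.inv _ _ _
  have e4 : T.d (g • μ) q = T.d μ q := by rw [← T.inv g μ q, hq]
  exact T.uniq (x := g • x) (y := q) (by omega) c (by omega)

include T in
theorem q_serre {a b : H} {p q x : V} (hp : a • p = p) (hq : b • q = q) (hx : (a * b) • x = x) :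
    ∃ v : V, a • v = v ∧ b • v = v := by
  have e := T.par_smul b x
  obtain ⟨m, m1, m2⟩ := T.exists_pt x (b • x) (k := T.d x (b • x) / 2) (by omega)
  have e1 : a⁻¹ • x = b • x := by rw [inv_smul_eq_iff, ← mul_smul, hx]
  refine ⟨m, ?_, T.q_mid hq (x := x) (by omega) (by omega)⟩
  exact (inv_smul_eq_iff.1 (T.q_mid (inv_smul_eq_iff.2 hp.symm) (x := x) (by rw [e1]; omega)
    (by rw [e1]; omega))).symm

/-- Two geodesics that leave `q` through different neighbours. -/
theorem q_turn {x y q u v : V} (h1 : T.d q u = 1) (h2 : T.d q u + T.d u x = T.d q x)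
    (h3 : T.d q v = 1) (h4 : T.d q v + T.d v y = T.d q y) (huv : u ≠ v) :
    T.d x y = T.d x q + T.d q y := by
  have a := T.nbr_far (x := x) (p := q) (u := u) (v := v)
    (by rw [T.symm x u, T.symm x q]; omega) (by rw [T.symm]; exact h1) h3 huv.symm
  have b := T.hyp x v q y
  have c := T.tri x q y
  have e1 := T.symm v q
  omega

variable {T}

theorem IsL.q_disp (h : T.IsL l) {g : H} {s : ℤ} (hg : ∀ i, g • l i = l (i + s)) (hs : s ≠ 0)
    {x : V} {p : ℤ} {D : ℕ} (hx : T.Ft l x p D) : T.d x (g • x) = 2 * D + s.natAbs := by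
  have h1 : T.Ft l (g • x) (p + s) D := fun k => by
    rw [show l k = g • l (k - s) by rw [hg, sub_add_cancel], T.inv, hx]
    omega
  rw [hx.via h h1 (by omega)]
  omega

theorem IsL.q_not_fix (h : T.IsL l) {g : H} {s : ℤ} (hg : ∀ i, g • l i = l (i + s)) (hs : s ≠ 0)
    (x : V) : g • x ≠ x := fun hx => by
  obtain ⟨p, D, hp⟩ := h.exists_ft x
  have := h.q_disp hg hs hp
  rw [hx, T.self] at this
  omega

theorem IsL.q_on (h : T.IsL l) {g : H} {s : ℤ} (hg : ∀ i, g • l i = l (i + s)) (hs : s ≠ 0)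
    {x : V} (hx : T.d x (g • x) ≤ s.natAbs) : ∃ i, x = l i := by
  obtain ⟨p, D, hp⟩ := h.exists_ft x
  have := h.q_disp hg hs hp
  obtain rfl : D = 0 := by omega
  exact ⟨p, hp.eq⟩

/-- A point between `g⁻¹ x` and `g x` lies on the axis. -/
theorem IsL.q_axis (h : T.IsL l) {g : H} {s : ℤ} (hg : ∀ i, g • l i = l (i + s)) (hs : s ≠ 0)
    {x : V} (hx : T.d (g⁻¹ • x) (g • x) = T.d (g⁻¹ • x) x + T.d x (g • x)) :
    T.d x (g • x) = s.natAbs := by
  obtain ⟨p, D, hp⟩ := h.exists_ft x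
  have e1 := h.q_disp hg hs hp
  have e2 := h.q_disp (g := g * g) (s := 2 * s)
    (fun i => by rw [mul_smul, hg, hg]; congr 1; ring) (by omega) hp
  rw [← T.inv' g x x, ← T.inv' g x (g • x), ← mul_smul] at hx
  omega

/-- A translation that is a product of two elliptic elements. -/
theorem IsL.q_ee (h : T.IsL l) {c z : H} {k : ℤ} (hg : ∀ i, (c * z⁻¹) • l i = l (i + 2 * k))
    (hk : k ≠ 0) {p₀ q₀ : V} (hp : c • p₀ = p₀) (hq : z • q₀ = q₀) :
    ∃ i, z • l i = l i ∧ c • l (i + k) = l (i + k) ∧ z • l (i + k) = l (i - k) := by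
  have : Nonempty {r : V × V // c • r.1 = r.1 ∧ z • r.2 = r.2} := ⟨⟨(p₀, q₀), hp, hq⟩⟩
  obtain ⟨⟨⟨p, q⟩, hp, hq⟩, hm⟩ :=
    exists_min fun r : {r : V × V // c • r.1 = r.1 ∧ z • r.2 = r.2} => T.d r.1.2 r.1.1
  simp only at hp hq
  have hm' : ∀ p' q' : V, c • p' = p' → z • q' = q' → T.d q p ≤ T.d q' p' :=
    fun p' q' a b => hm ⟨(p', q'), a, b⟩
  have hq' : z⁻¹ • q = q := inv_smul_eq_iff.2 hq.symm
  have hp' : c⁻¹ • p = p := inv_smul_eq_iff.2 hp.symm
  have gq : (c * z⁻¹) • q = c • q := by rw [mul_smul, hq']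
  have hD : 0 < T.d q p := T.pos fun e => h.q_not_fix hg (by omega) q (by rw [gq, e, hp])
  obtain ⟨u, u1, u2⟩ := T.exists_pt q p (k := 1) hD
  obtain ⟨v, v1, v2⟩ := T.exists_pt p q (k := 1) (by rwa [T.symm])
  have s1 := T.symm p q
  have s2 := T.symm v q
  have hu : z • u ≠ u := fun e => by have := hm' p u hp e; omega
  have hv : ∀ a : H, a • p = p → a • v ≠ v → T.d q (a • q) = T.d q p + T.d p (a • q) ∧
      T.d p (a • q) = T.d p q := fun a ha hne => by
    have e1 : T.d p (a • q) = T.d p q := by rw [← T.inv a p q, ha]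
    have e2 : T.d p (a • v) = 1 := by rw [← v1, ← T.inv a p v, ha]
    exact ⟨T.q_turn v1 (by omega) e2 (by rw [T.inv]; omega) hne.symm, e1⟩
  have hv1 : c • v ≠ v := fun e => by have := hm' v q e hq; omega
  obtain ⟨a1, a2⟩ := hv c hp hv1
  obtain ⟨b1, b2⟩ := hv c⁻¹ hp' fun e => hv1 (inv_smul_eq_iff.1 e).symm
  have t1 := T.tri u p (c • q)
  have t2 := T.tri q u (c • q)
  have t3 := T.tri u p (c⁻¹ • q)
  have t4 := T.tri q u (c⁻¹ • q)
  have e1 : T.d q (z • u) = 1 := by rw [← u1, ← T.inv z q u, hq]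
  have e2 : T.d q (z • c⁻¹ • q) = T.d q (c⁻¹ • q) := by rw [← T.inv z q (c⁻¹ • q), hq]
  have e3 := T.q_turn (x := z • c⁻¹ • q) (y := c • q) e1 (by rw [T.inv]; omega) u1 (by omega) hu
  have e4 := h.q_axis hg (by omega) (x := q) (by
    rw [gq, mul_inv_rev, inv_inv, mul_smul]; exact e3)
  obtain ⟨i, rfl⟩ := h.q_on hg (by omega) e4.le
  rw [hg] at gq e4
  rw [← gq] at a1 a2
  have e5 : p = l (i + k) := by
    rcases lt_or_gt_of_ne hk with hk' | hk'
    · exact h.eq_of_between (i := i + 2 * k) (j := i) (by omega) (by omega)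
        (by rw [T.symm]; omega) (by omega)
    · exact h.eq_of_between (i := i) (j := i + 2 * k) (by omega) (by omega) (by omega) (by omega)
  subst e5
  refine ⟨i, hq, hp, ?_⟩
  have e6 := hg (i - k)
  rw [show i - k + 2 * k = i + k by ring, mul_smul, ← hp, smul_left_cancel_iff] at e6
  exact (inv_smul_eq_iff.1 e6).symm

/-- A translation that is the product of a translation and an elliptic element. -/
theorem IsL.q_he (h : T.IsL l) (h' : T.IsL l') {c z : H} {s s' : ℤ}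
    (hg : ∀ i, (c * z⁻¹) • l i = l (i + s)) (hs : s ≠ 0) (hc : ∀ i, c • l' i = l' (i + s'))
    (hs' : s' ≠ 0) (hle : s.natAbs ≤ s'.natAbs) {q₀ : V} (hq : z • q₀ = q₀) :
    ∃ i, z • l' i = l' i := by
  have : Nonempty {r : V × ℤ // z • r.1 = r.1} := ⟨⟨(q₀, 0), hq⟩⟩
  obtain ⟨⟨⟨q, p⟩, hq⟩, hm⟩ := exists_min fun r : {r : V × ℤ // z • r.1 = r.1} =>
    T.d r.1.1 (l' r.1.2)
  simp only at hq
  have hm' : ∀ (q' : V) (p' : ℤ), z • q' = q' → T.d q (l' p) ≤ T.d q' (l' p') :=
    fun q' p' a => hm ⟨(q', p'), a⟩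
  obtain ⟨p', D, hf⟩ := h'.exists_ft q
  obtain rfl : p = p' := by
    have := hm' q p' hq
    rw [hf, hf] at this
    omega
  rcases Nat.eq_zero_or_pos D with rfl | hD
  · exact ⟨p, hf.eq ▸ hq⟩
  have e0 : T.d q (l' p) = D := by rw [hf]; omega
  obtain ⟨u, u1, u2⟩ := T.exists_pt q (l' p) (k := 1) (by omega)
  have hu : z • u ≠ u := fun e => by have := hm' u p e; omega
  have gq : (c * z⁻¹) • q = c • q := by rw [mul_smul, inv_smul_eq_iff.2 hq.symm]
  have key : ∀ (a : H) (r : ℤ), (∀ i, a • l' i = l' (i + r)) → r ≠ 0 →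
      T.d q u + T.d u (a • q) = T.d q (a • q) := fun a r ha hr => by
    have e1 := h'.q_disp ha hr hf
    have e2 : T.d (l' p) (a • q) = D + r.natAbs := by
      rw [show l' p = a • l' (p - r) by rw [ha, sub_add_cancel], T.inv, T.symm, hf]
      omega
    have t1 := T.tri u (l' p) (a • q)
    have t2 := T.tri q u (a • q)
    omega
  have k1 := key c s' hc hs'
  have k2 := key c⁻¹ (-s') (fun i => by rw [inv_smul_eq_iff, hc]; congr 1; ring) (by omega)
  have e1 : T.d q (z • u) = 1 := by rw [← u1, ← T.inv z q u, hq]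
  have e2 : T.d q (z • c⁻¹ • q) = T.d q (c⁻¹ • q) := by rw [← T.inv z q (c⁻¹ • q), hq]
  have e3 := T.q_turn (x := z • c⁻¹ • q) (y := c • q) e1 (by rw [T.inv]; omega) u1 k1 hu
  have e4 := h.q_axis hg hs (x := q) (by rw [gq, mul_inv_rev, inv_inv, mul_smul]; exact e3)
  have e5 := h'.q_disp hc hs' hf
  rw [gq] at e4
  omega

end BT

end Pool.Agent.Lib.MP_429c3d_al.Ng
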