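import Pool.Agent.Lib.MP_429c3d_al.NgStL
import Pool.Agent.Lib.MP_429c3d_al.NgSize
import Pool.Agent.Lib.MP_429c3d_al.NgTq

/-! The invariants QP and NP pass to the next stage. -/

set_option autoImplicit false

namespace Pool.Agent.Lib.MP_429c3d_al.Ng

open Hyp

variable {AA N K : Type} [CommGroup AA]

namespace St

variable {S : St AA N K}

theorem OK.apL_conj (h : S.OK) (g : S.G) {c : S.G} {κ : K} {η : AA} (hc : S.ApL c κ η) :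
    S.ApL (g * c * g⁻¹) κ η := by
  obtain ⟨α, h1, h2, h3, h4⟩ := hc
  exact ⟨g • α, h.ap_smul g α h1, by rw [h.cls_smul, h2], by simp [mul_smul, h3],
    by rw [h.lab_conj g h1 h3, h4]⟩

theorem OK.apL_inv (h : S.OK) {c : S.G} {κ : K} {η : AA} (hc : S.ApL c κ η) :
    S.ApL c⁻¹ κ η⁻¹ := by
  obtain ⟨α, h1, h2, h3, h4⟩ := hc
  exact ⟨α, h1, h2, inv_smul_eq_iff.2 h3.symm, by rw [h.lab_inv h1 h3, h4]⟩

theorem OK.apL_ne (h : S.OK) {c : S.G} {κ : K} {η : AA} (hc : S.ApL c κ η) (hη : η ≠ 1) :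
    c ≠ 1 := by
  obtain ⟨α, h1, -, -, h4⟩ := hc
  rintro rfl
  exact hη (h4.symm.trans (h.lab_one h1))

end St

/-- How apices, classes and labels behave in a step. -/
structure LSt (S S' : St AA N K) (Γ : Gate S.G S'.G S.d S'.d) (η : AA)
    (ψ : S'.G →* Multiplicative ℤ) (χ : AA →* Multiplicative ℤ) : Prop where
  ok : S.OK
  ok' : S'.OK
  ap_t : S.ap Γ.t
  ap_h : S.ap Γ.h
  cls_h : S.cls Γ.h = S.cls Γ.t
  ap_ι : ∀ z, S'.ap (Γ.ι z) ↔ S.ap z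
  cls_ι : ∀ z, S'.cls (Γ.ι z) = S.cls z
  ap_w : S'.ap Γ.w
  cls_w : S'.cls Γ.w = S.cls Γ.t
  lab_ι : ∀ α (a : S.G), S.ap α → a • α = α → S'.lab (Γ.ι α) (Γ.φ a) = S.lab α a
  lab_w : S'.lab Γ.w Γ.e = η
  ψ_φ : ∀ a, ψ (Γ.φ a) = 1
  ψ_e : ψ Γ.e = Multiplicative.ofAdd 1
  ψ_lab : ∀ z (a : S'.G), S.ap z → a • Γ.ι z = Γ.ι z → ψ a = χ (S'.lab (Γ.ι z) a)
  χ_η : χ η = 1

namespace Gate

variable {G G' Z Z' : Type} [Group G] [Group G'] [MulAction G Z] [MulAction G' Z']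
  {d : Z → Z → ℕ} {d' : Z' → Z' → ℕ} (Γ : Gate G G' d d')

theorem fix_vertex {c : G'} {α : Z'} (hα : Γ.Old α) (h : c • α = α) : ∃ v : Γ.TV, c • v = v := by
  obtain ⟨σ, z, rfl⟩ := hα
  by_cases hr : σ⁻¹ * c * σ ∈ Γ.φ.range
  · refine ⟨σ • Γ.C0, ?_⟩
    rw [← mul_smul, eq_comm, Γ.smul_C0_eq_iff, ← mul_assoc]
    exact hr
  · have h1 := Γ.far_ap _ hr z
    rw [mul_smul, mul_smul, h, inv_smul_smul, Γ.rt_ι] at h1
    obtain ⟨a, ha⟩ : ∃ a : MulAction.orbit G' (Γ.ι Γ.t), (a : Z') = σ • Γ.ι z :=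
      ⟨σ • ⟨_, (Γ.ι_mem_iff z).2 h1⟩, rfl⟩
    exact ⟨Γ.av a, congrArg Γ.av (Subtype.ext (show c • (a : Z') = a by rw [ha, h]))⟩

theorem conj_l0 (γ : G') (j i : ℤ) :
    (γ * Γ.e ^ j * γ⁻¹) • γ • Γ.l0 i = γ • Γ.l0 (i + 2 * j) := by
  rw [mul_smul, inv_smul_smul, mul_smul, Γ.zpow_l0]

/-- An element that moves a point of the base copy inside the base copy. -/
theorem dT_two {f : G'} (hf : f ∉ Γ.φ.range) {a b : Z} (h : f • Γ.ι a = Γ.ι b) :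
    ∃ hb : Γ.ι b ∈ MulAction.orbit G' (Γ.ι Γ.t), Γ.dT Γ.C0 (Γ.av ⟨_, hb⟩) = 1 ∧
      Γ.dT (Γ.av ⟨_, hb⟩) (f • Γ.C0) = 1 ∧ Γ.dT Γ.C0 (f • Γ.C0) = 2 := by
  have h1 := Γ.far_ap _ hf a
  rw [h, Γ.rt_ι] at h1
  have hb := (Γ.ι_mem_iff b).2 h1
  have e1 : Γ.dT Γ.C0 (Γ.av ⟨_, hb⟩) = 1 := by
    have := (Γ.dT_copy 1 _).2 ⟨⟨_, hb⟩, b, rfl, (one_smul _ _).symm⟩
    rwa [one_smul] at this
  have e2 : Γ.dT (Γ.av ⟨_, hb⟩) (f • Γ.C0) = 1 := by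
    rw [Γ.dT_gr.met.symm]
    exact (Γ.dT_copy f _).2 ⟨⟨_, hb⟩, a, rfl, h.symm⟩
  have e3 := Γ.dT_gr.met.tri Γ.C0 (Γ.av ⟨_, hb⟩) (f • Γ.C0)
  have e4 : Γ.dT Γ.C0 (f • Γ.C0) % 2 = 0 := Γ.bt.par_smul f Γ.C0
  have e5 : 0 < Γ.dT Γ.C0 (f • Γ.C0) := Γ.bt.pos fun hh => hf ((Γ.stab_C0 f).1 hh.symm)
  exact ⟨hb, e1, e2, by omega⟩

end Gate

namespace LSt

variable {S S' : St AA N K} {Γ : Gate S.G S'.G S.d S'.d} {η : AA}
  {ψ : S'.G →* Multiplicative ℤ} {χ : AA →* Multiplicative ℤ} (H : LSt S S' Γ η ψ χ)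

/-- Apex elements that fix an old apex. -/
def OT (_ : LSt S S' Γ η ψ χ) (c : S'.G) (κ : K) (ζ : AA) : Prop :=
  ∃ α, Γ.Old α ∧ S'.ap α ∧ S'.cls α = κ ∧ c • α = α ∧ S'.lab α c = ζ

theorem OT.apL {H : LSt S S' Γ η ψ χ} {c : S'.G} {κ : K} {ζ : AA} (h : H.OT c κ ζ) :
    S'.ApL c κ ζ := by
  obtain ⟨α, -, h1⟩ := h
  exact ⟨α, h1⟩

theorem OT.conj {H : LSt S S' Γ η ψ χ} {c : S'.G} {κ : K} {ζ : AA} (h : H.OT c κ ζ) (g : S'.G) :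
    H.OT (g * c * g⁻¹) κ ζ := by
  obtain ⟨α, h0, h1, h2, h3, h4⟩ := h
  exact ⟨g • α, h0.smul g, H.ok'.ap_smul g α h1, by rw [H.ok'.cls_smul, h2],
    by simp [mul_smul, h3], by rw [H.ok'.lab_conj g h1 h3, h4]⟩

theorem OT.inv {H : LSt S S' Γ η ψ χ} {c : S'.G} {κ : K} {ζ : AA} (h : H.OT c κ ζ) :
    H.OT c⁻¹ κ ζ⁻¹ := by
  obtain ⟨α, h0, h1, h2, h3, h4⟩ := h
  exact ⟨α, h0, h1, h2, inv_smul_eq_iff.2 h3.symm, by rw [H.ok'.lab_inv h1 h3, h4]⟩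

theorem OT.fix {H : LSt S S' Γ η ψ χ} {c : S'.G} {κ : K} {ζ : AA} (h : H.OT c κ ζ) :
    ∃ v : Γ.TV, c • v = v := by
  obtain ⟨α, h0, -, -, h3, -⟩ := h
  exact Γ.fix_vertex h0 h3

theorem OT.psi {H : LSt S S' Γ η ψ χ} {c : S'.G} {κ : K} {ζ : AA} (h : H.OT c κ ζ) :
    ψ c = χ ζ := by
  obtain ⟨_, ⟨σ, z, rfl⟩, h1, -, h3, h4⟩ := h
  have e1 : S'.ap (Γ.ι z) := by simpa using H.ok'.ap_smul σ⁻¹ _ h1
  have e2 := H.ψ_lab z (σ⁻¹ * c * σ⁻¹⁻¹) ((H.ap_ι z).1 e1) (by simp [mul_smul, h3])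
  have e3 := H.ok'.lab_conj σ⁻¹ h1 h3
  rw [inv_smul_smul] at e3
  rw [e3, h4] at e2
  simpa [mul_comm] using e2

theorem OT.down {H : LSt S S' Γ η ψ χ} {c : S.G} {κ : K} {ζ : AA} (h : H.OT (Γ.φ c) κ ζ)
    (hc : c ≠ 1) : S.ApL c κ ζ := by
  obtain ⟨α, -, h1, h2, h3, h4⟩ := h
  have e1 : c • Γ.rt α = Γ.rt α := by rw [← Γ.rt_smul, h3]
  have e2 : α = Γ.ι (Γ.rt α) := by
    by_contra hne
    exact hc (Γ.φ_inj ((H.ok'.two _ _ _ h3 (by rw [← Γ.ι_smul, e1]) hne).trans (map_one _).symm))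
  have e3 : S.ap (Γ.rt α) := (H.ap_ι _).1 (e2 ▸ h1)
  exact ⟨_, e3, by rw [← H.cls_ι, ← e2, h2], e1, by rw [← H.lab_ι _ _ e3 e1, ← e2, h4]⟩

include H

theorem apL_cases {c : S'.G} {κ : K} {ζ : AA} (h : S'.ApL c κ ζ) : H.OT c κ ζ ∨
    ∃ (γ : S'.G) (j : ℤ), c = γ * Γ.e ^ j * γ⁻¹ ∧ ζ = η ^ j ∧ κ = S.cls Γ.t := by
  obtain ⟨α, h1, h2, h3, h4⟩ := h
  rcases Γ.cover α with hα | ⟨γ, rfl⟩
  · exact Or.inl ⟨α, hα, h1, h2, h3, h4⟩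
  · obtain ⟨j, hj⟩ := Γ.stab_w (γ⁻¹ * c * γ) (by simp [mul_smul, h3])
    have e : c = γ * Γ.e ^ j * γ⁻¹ := by rw [← hj]; group
    refine Or.inr ⟨γ, j, e, ?_, by rw [← h2, H.ok'.cls_smul, H.cls_w]⟩
    rw [← h4, e, H.ok'.lab_conj γ H.ap_w (Γ.zpow_w j), H.ok'.lab_zpow H.ap_w Γ.e_w, H.lab_w]

theorem psi_conj (γ : S'.G) (j : ℤ) : ψ (γ * Γ.e ^ j * γ⁻¹) = Multiplicative.ofAdd j := by
  rw [map_mul, map_mul, map_inv, mul_inv_cancel_comm, map_zpow, H.ψ_e, ← ofAdd_zsmul, smul_eq_mul,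
    mul_one]

theorem level {a : S'.G} {i j : ℤ} (h : a • Γ.e ^ i • Γ.C0 = Γ.e ^ j • Γ.C0) :
    ψ a = Multiplicative.ofAdd (j - i) := by
  rw [← mul_smul, Γ.smul_C0_eq_iff] at h
  obtain ⟨g, hg⟩ := h
  have e1 := H.psi_conj 1 (j - i)
  have e2 : a = Γ.e ^ j * (Γ.φ g)⁻¹ * (Γ.e ^ i)⁻¹ := by rw [hg]; group
  rw [e2, map_mul, map_mul, map_inv, H.ψ_φ, ← e1]
  simp [zpow_sub]

/-- An old element of the stabiliser of the head that passes through `e`. -/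
theorem pass (hQ : S.QP) {g a z : S.G} {ζ : AA} (hg : g • Γ.h = Γ.h)
    (ha : Γ.φ a = Γ.e⁻¹ * Γ.φ g * Γ.e) (hz : z ≠ 1 → S.ApL z (S.cls Γ.t) ζ) (e : a = z * g) :
    z = 1 := by
  by_contra hne
  have e1 : a • Γ.t = Γ.t := Γ.ι_inj (by
    rw [Γ.ι_smul, ha, mul_smul, mul_smul, Γ.e_t, ← Γ.ι_smul, hg, ← Γ.e_t, inv_smul_smul])
  have e2 : S.lab Γ.t a = S.lab Γ.h g := by
    rw [← H.lab_ι _ _ H.ap_t e1, ← H.lab_ι _ _ H.ap_h hg, ← Γ.e_t, ← H.ok'.lab_conj Γ.e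
      ((H.ap_ι _).2 H.ap_t) (by rw [← Γ.ι_smul, e1]), ha]
    congr 1
    group
  by_cases h1 : S.lab Γ.h g = 1
  · have e3 := H.ok.lab_inj _ _ H.ap_h hg h1
    have e4 := H.ok.lab_inj _ _ H.ap_t e1 (e2.trans h1)
    exact hne (by simpa [e3, e4] using e.symm)
  · have := hQ g a (g⁻¹ * z * g⁻¹⁻¹) _ _ ζ h1 ⟨_, H.ap_h, H.cls_h, hg, rfl⟩
      ⟨_, H.ap_t, rfl, e1, e2⟩ (H.ok.apL_conj g⁻¹ (hz hne)) (by rw [e]; group)
    exact hne (conj_eq_one_iff.1 this)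

theorem hh_pos (hQ : S.QP) {g z : S.G} {ζ : AA} {j : ℤ} (hj : 0 < j)
    (hz : z ≠ 1 → S.ApL z (S.cls Γ.t) ζ) (e : Γ.φ g * Γ.e ^ j * (Γ.φ g)⁻¹ = Γ.e ^ j * Γ.φ z) :
    z = 1 := by
  have hg : g • Γ.h = Γ.h := by
    have := congrArg (fun a => Γ.rt (a • Γ.ι (g • Γ.t))) e
    simp only [mul_smul] at this
    rwa [← Γ.ι_smul z, Γ.rt_e_zpow hj.ne', Γ.rt_smul, Γ.ι_smul, inv_smul_smul, Γ.rt_zpow,
      if_pos (by omega)] at this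
  have fix : (Γ.e⁻¹ * Γ.φ g * Γ.e) • Γ.ι Γ.t = Γ.ι Γ.t := by
    rw [mul_smul, mul_smul, Γ.e_t, ← Γ.ι_smul, hg, ← Γ.e_t, inv_smul_smul]
  have e' : Γ.e⁻¹ * Γ.φ g * Γ.e * Γ.e ^ (j - 1) = Γ.e ^ (j - 1) * Γ.φ (z * g) := by
    rw [map_mul, ← mul_assoc, show Γ.e ^ (j - 1) * Γ.φ z = Γ.e⁻¹ * (Γ.e ^ j * Γ.φ z) by group, ← e]
    group
  rcases eq_or_lt_of_le (show 1 ≤ j by omega) with rfl | h1
  · exact H.pass hQ hg (by simpa using e'.symm) hz rfl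
  · have e1 := congrArg (fun a => Γ.rt (a • Γ.ι Γ.t)) e'
    simp only [mul_smul (Γ.e ^ (j - 1)), mul_smul _ (Γ.e ^ (j - 1))] at e1
    rw [← Γ.ι_smul, Γ.rt_e_zpow (by omega), if_pos (by omega)] at e1
    have e2 : Γ.rt (Γ.e ^ (j - 1) • Γ.ι Γ.t) = Γ.h := by rw [Γ.rt_zpow, if_pos (by omega)]
    by_cases hr : Γ.e⁻¹ * Γ.φ g * Γ.e ∈ Γ.φ.range
    · obtain ⟨a, ha⟩ := hr
      rw [← ha, Γ.rt_smul, e2] at e1
      have e3 := H.ok.two a _ _ (Γ.ι_inj (by rw [Γ.ι_smul, ha, fix])) e1 Γ.th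
      have e4 : Γ.φ g = 1 := by
        rw [e3, map_one] at ha
        simpa using conj_eq_one_iff.1 (show Γ.e⁻¹ * Γ.φ g * Γ.e⁻¹⁻¹ = 1 by simpa using ha.symm)
      exact Γ.φ_inj (by simpa [e4] using e)
    · have := Γ.other_old (Γ.old_smul_ι (Γ.e ^ (j - 1)) Γ.t) (σ := (Γ.e⁻¹ * Γ.φ g * Γ.e)⁻¹)
        (fun hh => hr (by simpa only [inv_inv] using inv_mem hh)) (inv_smul_eq_iff.2 fix.symm)
        (e2 ▸ Γ.th.symm)
      rw [inv_inv, e1] at this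
      exact absurd this.symm Γ.th

theorem hh (hQ : S.QP) {γ z : S'.G} {ζ : AA} {j : ℤ} (hj : j ≠ 0) (hz : H.OT z (S.cls Γ.t) ζ)
    (e : γ * Γ.e ^ j * γ⁻¹ = Γ.e ^ j * z) : z = 1 := by
  obtain ⟨q, hq⟩ := hz.fix
  obtain ⟨i', hi'⟩ := Γ.isL_l0.q_he (Γ.isL_l0.smul γ) (c := γ * Γ.e ^ j * γ⁻¹) (z := z)
    (s := 2 * j) (s' := 2 * j) (fun i => by rw [e, mul_inv_cancel_right, Γ.zpow_l0]) (by omega)
    (Γ.conj_l0 γ j) (by omega) le_rfl hq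
  obtain ⟨i, hi⟩ := Γ.isL_l0.q_on (Γ.zpow_l0 j) (by omega) (x := γ • Γ.l0 i') (by
    rw [← hi', ← mul_smul (Γ.e ^ j), ← e, hi', Γ.conj_l0, BT.inv, Γ.isL_l0]
    omega)
  rw [hi] at hi'
  rcases Int.even_or_odd' i with ⟨k, rfl | rfl⟩ <;> rcases Int.even_or_odd' i' with ⟨k', rfl | rfl⟩
  · rw [Γ.l0_even] at hi'
    rw [Γ.l0_even, Γ.l0_even] at hi
    have a1 : γ • Γ.e ^ k' • Γ.ι Γ.t = Γ.e ^ k • Γ.ι Γ.t := congrArg Subtype.val (Γ.av_inj hi)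
    have a2 : z • Γ.e ^ k • Γ.ι Γ.t = Γ.e ^ k • Γ.ι Γ.t := congrArg Subtype.val (Γ.av_inj hi')
    have a3 : γ * Γ.e ^ (k' - k) = 1 := by
      refine H.ok'.two _ (Γ.e ^ k • Γ.ι Γ.t) (Γ.e ^ j • Γ.e ^ k • Γ.ι Γ.t) ?_ ?_
        fun hh => hj (Γ.e_zpow_old (Γ.old_smul_ι _ _) hh.symm)
      · rw [← mul_smul, mul_assoc, ← zpow_add, sub_add_cancel, mul_smul, a1]
      · have := congrArg (fun a => a • Γ.e ^ k • Γ.ι Γ.t) e
        simp only [mul_smul] at this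
        rw [a2, ← a1, inv_smul_smul, a1] at this
        refine Eq.trans ?_ this
        simp only [← mul_smul]
        congr 1
        group
    rw [mul_eq_one_iff_eq_inv.1 a3] at e
    have : Γ.e ^ j * z = Γ.e ^ j := by rw [← e]; group
    simpa using this
  · rw [Γ.l0_even, Γ.l0_odd, ← mul_smul] at hi
    exact absurd hi (Γ.smul_C0_ne _ _)
  · rw [Γ.l0_even, Γ.l0_odd] at hi
    exact absurd hi.symm (Γ.smul_C0_ne _ _)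
  · rw [Γ.l0_odd] at hi'
    rw [Γ.l0_odd, Γ.l0_odd, ← mul_smul, eq_comm, Γ.smul_C0_eq_iff] at hi
    rw [← mul_smul, eq_comm, Γ.smul_C0_eq_iff, ← mul_assoc] at hi'
    obtain ⟨g, hg⟩ := hi
    obtain ⟨z₁, hz₁⟩ := hi'
    have e1 : Γ.φ g * Γ.e ^ j * (Γ.φ g)⁻¹ = Γ.e ^ j * Γ.φ z₁ := by
      rw [hg, hz₁, show Γ.e ^ j * ((Γ.e ^ k)⁻¹ * z * Γ.e ^ k) =
        (Γ.e ^ k)⁻¹ * (Γ.e ^ j * z) * Γ.e ^ k by group, ← e]
      group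
    have hz' : H.OT (Γ.φ z₁) (S.cls Γ.t) ζ := by simpa [hz₁] using hz.conj (Γ.e ^ k)⁻¹
    have e2 : z₁ = 1 := by
      rcases lt_or_gt_of_ne hj with h1 | h1
      · refine inv_eq_one.1 (H.hh_pos hQ (g := z₁ * g) (j := -j) (ζ := ζ⁻¹) (by omega)
          (fun hh => H.ok.apL_inv (hz'.down fun h2 => hh (by rw [h2, inv_one]))) ?_)
        rw [map_mul, map_inv, zpow_neg, show Γ.φ z₁ * Γ.φ g * (Γ.e ^ j)⁻¹ * (Γ.φ z₁ * Γ.φ g)⁻¹ =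
          Γ.φ z₁ * (Γ.φ g * Γ.e ^ j * (Γ.φ g)⁻¹)⁻¹ * (Γ.φ z₁)⁻¹ by group, e1]
        group
      · exact H.hh_pos hQ h1 hz'.down e1
    rw [e2, map_one] at hz₁
    simpa using conj_eq_one_iff.1 (show (Γ.e ^ k)⁻¹ * z * (Γ.e ^ k)⁻¹⁻¹ = 1 by simpa using hz₁.symm)

theorem np_up (hN : S.NP Γ.t Γ.h η) {c : S'.G} (hc : H.OT c (S.cls Γ.t) η) {k : ℤ}
    (h1 : c • Γ.l0 (2 * k + 1) = Γ.l0 (2 * k + 1)) (h2 : c • Γ.l0 (2 * k) = Γ.l0 (2 * (k + 1))) :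
    False := by
  rw [Γ.l0_odd, ← mul_smul, eq_comm, Γ.smul_C0_eq_iff, ← mul_assoc] at h1
  obtain ⟨f, hf⟩ := h1
  rw [Γ.l0_even, Γ.l0_even] at h2
  have a1 : c • Γ.e ^ k • Γ.ι Γ.t = Γ.e ^ (k + 1) • Γ.ι Γ.t := congrArg Subtype.val (Γ.av_inj h2)
  have a2 : f • Γ.t = Γ.h := Γ.ι_inj (by
    rw [Γ.ι_smul, hf, mul_smul, mul_smul, a1, zpow_add_one, mul_smul, inv_smul_smul, Γ.e_t])
  have hf' : H.OT (Γ.φ f) (S.cls Γ.t) η := by simpa [hf] using hc.conj (Γ.e ^ k)⁻¹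
  exact hN f (hf'.down fun hh => Γ.th (by rw [← a2, hh, one_smul])) a2

theorem ho (hN : S.NP Γ.t Γ.h η) {c z : S'.G} {κ : K} {ζ : AA} {j : ℤ} (hj : j ≠ 0)
    (hc : H.OT c (S.cls Γ.t) (η ^ j)) (hz : H.OT z κ ζ) (e : c = Γ.e ^ j * z) : False := by
  obtain ⟨p, hp⟩ := hc.fix
  obtain ⟨q, hq⟩ := hz.fix
  have hψ : ψ z = Multiplicative.ofAdd (-j) := by
    have e1 := hc.psi
    have e2 := H.psi_conj 1 j
    rw [one_mul, inv_one, mul_one] at e2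
    rw [map_zpow, H.χ_η, one_zpow, e, map_mul, e2] at e1
    exact eq_inv_of_mul_eq_one_right e1
  obtain ⟨i, i1, i2, i3⟩ := Γ.isL_l0.q_ee (c := c) (z := z) (k := j)
    (fun i => by rw [e, mul_inv_cancel_right, Γ.zpow_l0]) hj hp hq
  have i4 : c • Γ.l0 i = Γ.l0 (i + 2 * j) := by rw [e, mul_smul, i1, Γ.zpow_l0]
  rcases Int.even_or_odd' i with ⟨k, rfl | rfl⟩
  swap
  · rw [Γ.l0_odd] at i1
    have := Multiplicative.ofAdd.injective (hψ.symm.trans (H.level i1))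
    omega
  rcases lt_or_gt_of_ne hj with h1 | h1
  · have e1 := Γ.isL_l0.conv' (Γ.isL_l0.smul z) (i := 2 * k) (i' := 2 * k) (n := -j) (k := 1)
      i1.symm (by simpa [sub_eq_add_neg] using i3.symm) (by omega) (by omega)
    rw [show 2 * k - 1 = 2 * (k - 1) + 1 by ring, Γ.l0_odd, Γ.l0_odd] at e1
    obtain rfl : j = -1 := by
      have := Multiplicative.ofAdd.injective (hψ.symm.trans (H.level e1))
      omega
    refine H.np_up hN (c := c⁻¹) (by simpa using hc.inv) (k := k - 1) ?_ ?_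
    · rw [inv_smul_eq_iff, show 2 * (k - 1) + 1 = 2 * k + -1 by ring, i2]
    · rw [inv_smul_eq_iff, sub_add_cancel, i4]
      congr 1
      ring
  · have e1 := (Γ.isL_l0.smul z).conv' Γ.isL_l0 (i := 2 * k) (i' := 2 * k) (n := j) (k := 1)
      i1 i3 (by omega) (by omega)
    rw [show 2 * k - 1 = 2 * (k - 1) + 1 by ring, Γ.l0_odd, Γ.l0_odd] at e1
    obtain rfl : j = 1 := by
      have := Multiplicative.ofAdd.injective (hψ.symm.trans (H.level e1.symm))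
      omega
    exact H.np_up hN (by simpa using hc) i2 (by rw [i4]; congr 1; ring)

theorem qp_h (hQ : S.QP) (hN : S.NP Γ.t Γ.h η) {γ c z : S'.G} {ζ : AA} {j : ℤ} (hj : η ^ j ≠ 1)
    (hc : H.OT c (S.cls Γ.t) (η ^ j)) (hz : S'.ApL z (S.cls Γ.t) ζ)
    (e : c = γ * Γ.e ^ j * γ⁻¹ * z) : False := by
  have hj0 : j ≠ 0 := fun hh => hj (by rw [hh, zpow_zero])
  rcases H.apL_cases hz with h1 | ⟨δ, k, rfl, -, -⟩
  · exact H.ho hN hj0 (hc.conj γ⁻¹) (h1.conj γ⁻¹) (by rw [e]; group)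
  · have e1 := hc.psi
    rw [map_zpow, H.χ_η, one_zpow, e, map_mul, H.psi_conj, H.psi_conj] at e1
    obtain rfl : k = -j := by
      have := Multiplicative.ofAdd.injective (show Multiplicative.ofAdd (j + k) =
        Multiplicative.ofAdd 0 from e1)
      omega
    have := H.hh hQ (γ := γ⁻¹ * δ) (j := -j) (by omega) (hc.conj γ⁻¹) (by rw [e]; group)
    exact H.ok'.apL_ne hc.apL hj (conj_eq_one_iff.1 this)

theorem qp_o (hQ : S.QP) {c c' z : S'.G} {κ : K} {ζ ζ' : AA} (hζ : ζ ≠ 1) (hc : H.OT c κ ζ)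
    (hc' : H.OT c' κ ζ) (hz : H.OT z κ ζ') (e : c' = c * z) : z = 1 := by
  obtain ⟨p, hp⟩ := hc.fix
  obtain ⟨q, hq⟩ := hz.fix
  obtain ⟨x, hx⟩ := hc'.fix
  obtain ⟨v, v1, v2⟩ := Γ.bt.q_serre hp hq (e ▸ hx)
  have n1 := H.ok'.apL_ne hc.apL hζ
  have n2 := H.ok'.apL_ne hc'.apL hζ
  rcases Γ.tcover v with ⟨σ, rfl⟩ | ⟨a, rfl⟩
  · rw [← mul_smul, eq_comm, Γ.smul_C0_eq_iff, ← mul_assoc] at v1 v2
    obtain ⟨c₁, h1⟩ := v1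
    obtain ⟨z₁, h2⟩ := v2
    have o1 : H.OT (Γ.φ c₁) κ ζ := by simpa [h1] using hc.conj σ⁻¹
    have o2 : H.OT (Γ.φ z₁) κ ζ' := by simpa [h2] using hz.conj σ⁻¹
    have o3 : H.OT (Γ.φ (c₁ * z₁)) κ ζ := by
      rw [map_mul, h1, h2, show σ⁻¹ * c * σ * (σ⁻¹ * z * σ) = σ⁻¹ * (c * z) * σ⁻¹⁻¹ by group, ← e]
      exact hc'.conj σ⁻¹
    have ne : ∀ {u : S.G}, H.OT (Γ.φ u) κ ζ → u ≠ 1 := fun h hh =>
      H.ok'.apL_ne h.apL hζ (by rw [hh, map_one])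
    have e2 : z₁ = 1 := by
      by_contra hne
      exact hne (hQ c₁ _ z₁ κ ζ ζ' hζ (o1.down (ne o1)) (o3.down (ne o3)) (o2.down hne) rfl)
    rw [e2, map_one] at h2
    simpa using conj_eq_one_iff.1 (show σ⁻¹ * z * σ⁻¹⁻¹ = 1 by simpa using h2.symm)
  · have a1 : c • (a : S'.Z) = a := congrArg Subtype.val (Γ.av_inj v1)
    have a2 : z • (a : S'.Z) = a := congrArg Subtype.val (Γ.av_inj v2)
    obtain ⟨α, -, b1, -, b2, b3⟩ := hc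
    obtain ⟨α', -, -, -, b4, b5⟩ := hc'
    obtain rfl : α = a := by
      by_contra hne
      exact n1 (H.ok'.two _ _ _ b2 a1 hne)
    obtain rfl : α' = a := by
      by_contra hne
      exact n2 (H.ok'.two _ _ _ b4 (by rw [e, mul_smul, a2, a1]) hne)
    rw [e, H.ok'.lab_mul b1 a1 a2, b3, mul_eq_left] at b5
    exact H.ok'.lab_inj _ _ b1 a2 b5

/-- QP passes to the next stage. -/
theorem qp (hA : TF AA) (hQ : S.QP) (hN : S.NP Γ.t Γ.h η) : S'.QP := by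
  intro c c' z κ ζ ζ' hζ hc hc' hz e
  rcases H.apL_cases hc with h1 | ⟨γ, j, rfl, rfl, rfl⟩ <;>
    rcases H.apL_cases hc' with h2 | ⟨γ', j', rfl, h3, h4⟩
  · rcases H.apL_cases hz with h3 | ⟨δ, k, rfl, -, -⟩
    · exact H.qp_o hQ hζ h1 h2 h3 e
    · have e1 := h2.psi
      rw [e, map_mul, h1.psi, mul_eq_left, H.psi_conj] at e1
      obtain rfl : k = 0 := Multiplicative.ofAdd.injective e1
      simp
  · subst h3 h4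
    exact (H.qp_h hQ hN (γ := γ') hζ h1 (H.ok'.apL_inv hz) (by rw [e]; group)).elim
  · exact (H.qp_h hQ hN hζ h2 hz e).elim
  · obtain rfl : j = j' := by
      by_contra hne
      refine hζ ?_
      rw [hA η (j - j').natAbs (by omega) (by
        rw [← zpow_natCast, Int.natCast_natAbs, zpow_abs_eq_one, zpow_sub, h3, mul_inv_cancel]),
        one_zpow]
    rcases H.apL_cases hz with h5 | ⟨δ, k, rfl, -, -⟩
    · have := H.hh hQ (γ := γ⁻¹ * γ') (j := j) (fun hh => hζ (by rw [hh, zpow_zero]))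
        (h5.conj γ⁻¹) (by
          rw [show γ⁻¹ * γ' * Γ.e ^ j * (γ⁻¹ * γ')⁻¹ = γ⁻¹ * (γ' * Γ.e ^ j * γ'⁻¹) * γ by group, e]
          group)
      exact conj_eq_one_iff.1 this
    · have e1 := congrArg ψ e
      rw [map_mul _ _ (δ * _ * _), H.psi_conj, H.psi_conj, H.psi_conj, left_eq_mul] at e1
      obtain rfl : k = 0 := Multiplicative.ofAdd.injective e1
      simp

/-- NP is kept for the slots that are not equivalent to the slot of the step. -/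
theorem np {t h : S.Z} {ζ : AA} (hN : S.NP t h ζ) (hne : t ≠ h)
    (h1 : ∀ g : S.G, g • Γ.t = t → g • Γ.h = h → ζ ≠ η)
    (h2 : ∀ g : S.G, g • Γ.h = t → g • Γ.t = h → ζ ≠ η⁻¹) : S'.NP (Γ.ι t) (Γ.ι h) ζ := by
  intro f hf e
  rw [H.cls_ι] at hf
  rcases H.apL_cases hf with h3 | ⟨γ, j, rfl, rfl, -⟩
  · by_cases hr : f ∈ Γ.φ.range
    · obtain ⟨f₁, rfl⟩ := hr
      have e1 : f₁ • t = h := Γ.ι_inj (by rw [Γ.ι_smul, e])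
      exact hN f₁ (h3.down fun hh => hne (by rw [← e1, hh, one_smul])) e1
    · obtain ⟨hb, a1, a2, a3⟩ := Γ.dT_two hr e
      obtain ⟨q, hq⟩ := h3.fix
      have e1 : f • Γ.ι h = Γ.ι h := congrArg Subtype.val (Γ.av_inj (Γ.bt.q_mid hq (x := Γ.C0)
        (m := Γ.av ⟨_, hb⟩) (a1.trans a2.symm) (by change Γ.dT _ _ + Γ.dT _ _ = Γ.dT _ _; omega)))
      exact hne (Γ.ι_inj (smul_left_cancel f (e.trans e1.symm)))
  · have hj : j ≠ 0 := fun hh => hne (Γ.ι_inj (by simpa [hh] using e))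
    have hr : γ * Γ.e ^ j * γ⁻¹ ∉ Γ.φ.range := by
      rintro ⟨g, hg⟩
      have := H.psi_conj γ j
      rw [← hg, H.ψ_φ] at this
      exact hj (Multiplicative.ofAdd.injective this.symm)
    obtain ⟨-, -, -, a3⟩ := Γ.dT_two hr e
    obtain ⟨p, D, hp⟩ := (Γ.isL_l0.smul γ).exists_ft Γ.C0
    have a4 : Γ.dT _ _ = _ := (Γ.isL_l0.smul γ).q_disp (Γ.conj_l0 γ j) (by omega) hp
    obtain rfl : D = 0 := by omega
    have a5 := hp.eq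
    rcases Int.even_or_odd' p with ⟨k, rfl | rfl⟩
    · rw [Γ.l0_even, ← one_smul S'.G Γ.C0] at a5
      exact Γ.smul_C0_ne _ _ a5
    rw [Γ.l0_odd, ← mul_smul, eq_comm, Γ.stab_C0] at a5
    obtain ⟨g, hg⟩ := a5
    have e1 : Γ.e ^ j • Γ.ι (g⁻¹ • t) = Γ.ι (g⁻¹ • h) := by
      rw [Γ.ι_smul, Γ.ι_smul, map_inv, ← e, hg]
      simp only [← mul_smul]
      congr 1
      group
    have e2 := Γ.rt_e_zpow hj (g⁻¹ • t)
    have e3 := Γ.rt_e_zpow (neg_ne_zero.2 hj) (g⁻¹ • h)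
    rw [e1, Γ.rt_ι, inv_smul_eq_iff] at e2
    rw [← e1, zpow_neg, inv_smul_smul, Γ.rt_ι, inv_smul_eq_iff] at e3
    rcases (show j = 1 ∨ j = -1 by omega) with rfl | rfl
    · exact h1 g (by simpa using e3.symm) (by simpa using e2.symm) (zpow_one η)
    · exact h2 g (by simpa using e3.symm) (by simpa using e2.symm) (zpow_neg_one η)

omit [CommGroup AA] H in
/-- The new cone is not in the orbit of an old point. -/
theorem np_w (t : S.Z) (ζ : AA) : S'.NP (Γ.ι t) Γ.w ζ := fun f _ e => Γ.w_ne f t e.symm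

end LSt

end Pool.Agent.Lib.MP_429c3d_al.Ng
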