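import Pool.Agent.Lib.MP_429c3d_al.NgS7A

set_option autoImplicit false

/-! The deck group: the property `QQ`. -/

namespace Pool.Agent.Lib.MP_429c3d_al.Ng

open Hyp

variable {AA N K T : Type} [CommGroup AA] {S : St AA N K} {kT D k m r : ℕ} {C : Cusp S kT D}
  {V : Dv AA K k} {Y ε : T → S.G}

/-- A short lift of a horoball stabiliser element near the horoball is an apex element. -/
theorem Chart.apl (c : Chart C V Y ε m r) {w : C.W} (hw : C.deep w) {g : S.G} {ω : V.Ω} {p : V.X}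
    {a b : ℕ} (hp : V.mem ω p) (hd : V.d (c.Φ w) p ≤ a) (hg : C.dW w (g • w) ≤ b)
    (hr : a + b + 1 ≤ r) (hf : c.θ g • ω = ω) : S.ApL g (V.cl ω) (V.lb ω (c.θ g)) := by
  obtain ⟨w', rfl, e1⟩ := c.onto w p hw (by omega)
  have e2 : 1 ≤ C.dep w' := c.dep_eq w' ▸ V.mem_dep _ _ hp
  obtain rfl := V.mem_un _ _ _ hp (c.mem_hh w' e2)
  have e3 := C.ap_of_dep w' e2
  have e4 := C.blow.grW.met.tri w (g • w) (g • w')
  rw [C.bact.iW] at e4
  have e5 := c.fix w w' g hw (by omega) (by omega) e2 hf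
  exact ⟨_, e3, (c.cl_hh _ e3).symm, e5, (c.lb_hh _ g e3 e5).symm⟩

/-- A loxodromic element: the conjugator can be chosen short. -/
theorem Dv.short_conj (V : Dv AA K k) {y s : V.Γ} {P B : ℕ} {x : V.X}
    (hP : ∀ x : V.X, b1 k ≤ V.d x (y ^ P • x)) (h : V.d x (y • x) ≤ B)
    (h' : V.d x ((s * y * s⁻¹) • x) ≤ B) :
    ∃ s' : V.Γ, s' * y * s'⁻¹ = s * y * s⁻¹ ∧ V.d x (s' • x) ≤ 100 * (P + 1) * (B + k + 1) := by
  obtain ⟨i, hi⟩ := lox_near V.gr V.hyp V.iso y (P := P) (B := B) (x := x) (x' := s⁻¹ • x)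
    (fun x => le_trans (by unfold b1; omega) (hP x)) h
    (by rwa [← V.iso s, smul_inv_smul, ← mul_smul, ← mul_smul])
  refine ⟨(y ^ i * s⁻¹)⁻¹, by group, ?_⟩
  rwa [dis_inv V.gr.met V.iso, mul_smul]

/-- Proof: `short_red` gives `x` where `y`, `c = s y s⁻¹`, `c' = t y t⁻¹` are short. Deep in a
horoball all three commute, `CSA.eq_of_conj` gives `c = c' = y`. Otherwise lift `y, c, c'` to a
chart, `z` lifts to `c⁻¹ c'`. If `y` fixes a horoball `ω`, then `z` fixes it (`two`), `c` fixes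
`s • ω`, `c'` fixes `t • ω`; `s7_near` (at the scale of `short_red`), `onto`, `mem_hh`, `mem_un`,
`fix` give apices fixed by the lifts, `lb_hh`, `lb_conj`, `cl_hh`, `cl_smul`, `lb_inj` give the
hypotheses of `S.QP`. If `y` fixes no horoball, `y` is short at `x` and at `s⁻¹ • x`, so
`lox_near` allows to replace `s` by a short `s * y ^ (-i)`, same for `t`; lift them, the relations
lift by `Chart.inj`, use `QQ S.G`. -/
theorem s7_qq (kT cT D k A P : ℕ) : ∃ r0 : ℕ, ∀ (AA N K T : Type) [CommGroup AA]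
    (S : St AA N K) (C : Cusp S kT D) (V : Dv AA K k) (Y ε : T → S.G) (m r R0 : ℕ), S.OK →
    TAm S.G S.d cT → S.QP → QQ S.G → XL V.Γ V.d k A → P1 V.Γ → Free2 V.Γ V.Ω →
    (∀ a : V.Γ, (∀ ω : V.Ω, a • ω ≠ ω) → a ≠ 1 → ∀ x : V.X, b1 k ≤ V.d x (a ^ P • x)) →
    r0 ≤ r → r0 ≤ R0 → Cov C V Y ε m r R0 → QQ V.Γ := by
  obtain ⟨B, hB⟩ := short_red k A
  obtain ⟨cn, r1, hn⟩ := s7_near kT cT D k B
  obtain ⟨E, hE⟩ : ∃ E, E = 100 * (P + 1) * (B + k + 1) := ⟨_, rfl⟩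
  refine ⟨r1 + cn + 2 * E + 3 * B + 1, ?_⟩
  intro AA N K T _ S C V Y ε m r R0 H ta qp qq xl p1 two di hr hR cov y s t z hy hz he
  rcases (hB V.Γ V.X V.d xl).2 p1 y s t z hy hz he with h | ⟨x, x1, x2, x3⟩
  · exact h
  by_cases hd : B < V.dep x
  · obtain ⟨ω, hω⟩ := V.mem_ex x (by omega)
    have f1 := V.deep_fix hω (x1.trans_lt hd)
    have e1 := xl.csa.eq_of_conj (isConj_iff.2 ⟨s, rfl⟩) (V.comm f1 (V.deep_fix hω (x2.trans_lt hd)))
    have e2 := xl.csa.eq_of_conj (isConj_iff.2 ⟨t, rfl⟩) (V.comm f1 (V.deep_fix hω (x3.trans_lt hd)))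
    rw [e1, e2] at he
    exact (left_eq_mul.1 he)
  obtain ⟨c, w, hw, rfl⟩ := cov x (by omega)
  have mW := C.blow.grW.met
  have iW : Isom S.G C.dW := C.bact.iW
  obtain ⟨y', ey, dy⟩ := c.lift w y hw (by omega)
  obtain ⟨a, ea, da⟩ := c.lift w _ hw (x2.trans (by omega))
  obtain ⟨b, eb, db⟩ := c.lift w _ hw (x3.trans (by omega))
  have ez : c.θ (a⁻¹ * b) = z := by rw [map_mul, map_inv, ea, eb, he]; group
  have dz := dis_mul mW iW a⁻¹ b w
  rw [dis_inv mW iW] at dz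
  suffices h : a⁻¹ * b = 1 by rw [← ez, h, map_one]
  by_cases hf : ∃ ω : V.Ω, y • ω = ω
  · obtain ⟨ω, hω⟩ := hf
    have near := hn AA N K T S C V Y ε m r R0 H ta (by omega) (by omega) cov
    have fz : z • ω = ω := by
      by_contra hne
      exact hy (two y _ _ (by rw [← mul_smul, ← hz.eq, mul_smul, hω]) hω hne)
    have fc : ∀ g : V.Γ, (g * y * g⁻¹) • g • ω = g • ω := fun g => by
      rw [mul_smul, mul_smul, inv_smul_smul, hω]
    have nc : ∀ g : V.Γ, g * y * g⁻¹ ≠ 1 := fun g h => hy (by simpa using h)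
    obtain ⟨p0, q0, d0⟩ := near y ω _ hy hω x1
    obtain ⟨pa, qa, d1⟩ := near _ _ _ (nc s) (fc s) x2
    obtain ⟨pb, qb, d2⟩ := near _ _ _ (nc t) (fc t) x3
    have a0 := c.apl hw q0 d0 dz (by omega) (ez ▸ fz)
    have a1 := c.apl hw qa d1 da (by omega) (ea ▸ fc s)
    have a2 := c.apl hw qb d2 db (by omega) (eb ▸ fc t)
    rw [ea, V.cl_smul, V.lb_conj s y ω hω] at a1
    rw [eb, V.cl_smul, V.lb_conj t y ω hω] at a2
    exact qp a b _ _ _ _ (fun h => hy (V.lb_inj y ω hω h)) a1 a2 a0 (by group)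
  · have hP := di y (fun ω h => hf ⟨ω, h⟩) hy
    obtain ⟨s1, es, ds⟩ := V.short_conj hP x1 x2
    obtain ⟨t1, et, dt⟩ := V.short_conj hP x1 x3
    obtain ⟨s', fs, gs⟩ := c.lift w s1 hw (by omega)
    obtain ⟨t', ft, gt⟩ := c.lift w t1 hw (by omega)
    have dc : ∀ g : S.G, C.dW w ((g * y' * g⁻¹) • w) ≤ 2 * C.dW w (g • w) + B := fun g => by
      have e1 := dis_mul mW iW (g * y') g⁻¹ w
      have e2 := dis_mul mW iW g y' w
      rw [dis_inv mW iW] at e1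
      omega
    have c1 := dc s'
    have c2 := dc t'
    have c3 := dis_mul mW iW (s' * y' * s'⁻¹) (a⁻¹ * b) w
    have c4 := dis_mul mW iW (a⁻¹ * b) y' w
    have c5 := dis_mul mW iW y' (a⁻¹ * b) w
    refine qq y' s' t' _ (fun h => hy (by rw [← ey, h, map_one]))
      (c.inj hw (by omega) (by omega) (by rw [map_mul, ez, map_mul, ez, ey, hz.eq]))
      (c.inj hw (by omega) (by omega) ?_)
    rw [map_mul _ _ (a⁻¹ * b), ez]
    simp only [map_mul, map_inv, ey, fs, ft, es, et, he]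

end Pool.Agent.Lib.MP_429c3d_al.Ng
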