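import Pool.Agent.Lib.MP_429c3d_al.NgS7A

set_option autoImplicit false

/-! The deck group: pairs satisfy the law or escape. -/

namespace Pool.Agent.Lib.MP_429c3d_al.Ng

open Hyp

theorem dis_cs {G X : Type} [Group G] [MulAction G X] {d : X → X → ℕ} (m : IsMet d)
    (iso : Isom G d) {y c : G} {x : X} {s : ℕ} (hy : d x (y • x) ≤ s) (hc : d x (c • x) ≤ s)
    (i : ℕ) : d x (cs y c i • x) ≤ 3 ^ i * s := by
  induction i with
  | zero => simpa [cs] using hc
  | succ i ih =>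
    have e1 := dis_mul m iso (cs y c i * y) (cs y c i)⁻¹ x
    have e2 := dis_mul m iso (cs y c i) y x
    have e3 := dis_inv m iso (cs y c i) x
    have e4 : s ≤ 3 ^ i * s := Nat.le_mul_of_pos_left _ (by positivity)
    rw [cs, pow_succ, mul_comm (3 ^ i) 3, mul_assoc 3]
    omega

theorem CSA.not_comm_cs {G : Type} [Group G] (h : CSA G) {y c : G} (e : ¬ Commute y c) (i : ℕ) :
    ¬ Commute y (cs y c i) := by
  induction i with
  | zero => exact e
  | succ i ih => exact h.not_comm_succ ih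

/-- Proof: if the pair is not `Big`, both are `S2`-short at some `x`, not deep (they do not commute).
Lift them to `y', c'`; the pair `(y', c' y' c'⁻¹)` is conjugate and does not commute
(`CSA.not_comm_succ`). If it is treated, `Tr.law` and `Law.pred` give the law. Otherwise
`(y', cs y' c' (j + 1))` is `Big` in the stage for some `j ≤ Kk`. All `cs y' c' i` move `w` by at
most `3 ^ i * S2`. If `y` and `cs y c (j + 1)` (they do not commute) were `S2`-short at `x'`, then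
`ai_scale` bounds `d x x'`, so `x' = Φ w'` with `w'` near `w`, the displacements agree by `iso`,
and `Blow.bar_le` contradicts `Big` at `bar w'`. -/
theorem s7_gt (kT D k A S2 Kk : ℕ) : ∃ r0 : ℕ, ∀ (AA N K T : Type) [CommGroup AA]
    (S : St AA N K) (C : Cusp S kT D) (V : Dv AA K k) (Y ε : T → S.G) (m r R0 : ℕ),
    S.GT (Tr m Y ε) Kk S2 → XL V.Γ V.d k A → QQ V.Γ → r0 ≤ r → r0 ≤ R0 → Cov C V Y ε m r R0 →
    ∀ y c : V.Γ, IsConj y c → ¬ Commute y c → Law m y c ∨ Esc V.d (Kk + 1) S2 y c := by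
  obtain ⟨Cc, hC⟩ := ai_scale k A (3 ^ (Kk + 1) * S2)
  refine ⟨Cc + 3 ^ (Kk + 1) * S2 + S2 + 1, ?_⟩
  intro AA N K T _ S C V Y ε m r R0 gt xl qq hr hR cov y c hc hn
  have hB : S2 ≤ 3 ^ (Kk + 1) * S2 := Nat.le_mul_of_pos_left _ (by positivity)
  by_cases hb : Big V.d S2 y c
  · exact Or.inr ⟨0, Nat.zero_le _, hb⟩
  obtain ⟨x, hx⟩ := not_forall.1 hb
  obtain ⟨hy1, hc1⟩ := not_or.1 hx
  have hdep : V.dep x ≤ R0 := by
    by_contra hd
    obtain ⟨ω, hω⟩ := V.mem_ex x (by omega)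
    exact hn (V.comm (V.deep_fix hω (by omega)) (V.deep_fix hω (by omega)))
  obtain ⟨ch, w, hw, rfl⟩ := cov x hdep
  obtain ⟨y', rfl, hy'⟩ := ch.lift w y hw (by omega)
  obtain ⟨c', rfl, hc'⟩ := ch.lift w c hw (by omega)
  have mW := C.blow.grW.met
  have iW : Isom S.G C.dW := C.bact.iW
  have hn1 : ¬ Commute y' (c' * y' * c'⁻¹) := fun e => xl.csa.not_comm_succ hn (by
    simpa using e.map ch.θ)
  rcases gt y' (c' * y' * c'⁻¹) (Or.inl (isConj_iff.2 ⟨_, rfl⟩)) hn1 with h | ⟨j, hj, h⟩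
  · refine Or.inl (Law.pred qq hc ?_)
    simpa using h.law ch.θ qq ch.law (isConj_iff.2 ⟨ch.θ c', by simp⟩)
  refine Or.inr ⟨j + 1, by omega, fun x' => ?_⟩
  rw [← cs_succ'] at h
  by_contra hs
  obtain ⟨hy2, hc2⟩ := not_or.1 hs
  have hp : 3 ^ (j + 1) * S2 ≤ 3 ^ (Kk + 1) * S2 :=
    Nat.mul_le_mul_right _ (Nat.pow_le_pow_right (by norm_num) (by omega))
  have b1 := dis_cs mW iW (s := S2) (x := w) (y := y') (c := c') (by omega) (by omega) (j + 1)
  have b2 := dis_cs V.gr.met V.iso (s := S2) (x := ch.Φ w) (y := ch.θ y') (c := ch.θ c')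
    (by omega) (by omega) (j + 1)
  have b3 := hC V.Γ V.X V.d xl _ _ (ch.Φ w) x' (xl.csa.not_comm_cs hn (j + 1)) (by omega)
    (by omega) (by omega) (by omega)
  obtain ⟨w', rfl, hw'⟩ := ch.onto w x' hw (by omega)
  have key : ∀ g : S.G, C.dW w (g • w) ≤ 3 ^ (Kk + 1) * S2 →
      S.d (C.bar w') (g • C.bar w') ≤ V.d (ch.Φ w') (ch.θ g • ch.Φ w') := fun g hg => by
    have e1 := mW.tri w (g • w) (g • w')
    rw [iW] at e1
    rw [← ch.Φ_smul, ch.iso w w' (g • w') hw (by omega) (by omega), ← C.bact.comm]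
    exact C.blow.bar_le _ _
  have k1 := key y' (by omega)
  have k2 := key (cs y' c' (j + 1)) (by omega)
  rw [map_cs] at k2
  rcases h (C.bar w') with e | e <;> omega

end Pool.Agent.Lib.MP_429c3d_al.Ng
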