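import Pool.Agent.Lib.MP_429c3d_al.NgS7A

set_option autoImplicit false

/-! The deck group: acylindricity. -/

namespace Pool.Agent.Lib.MP_429c3d_al.Ng

open Hyp

/-- Proof: if `d x x' > A0` replace `x'` by a point between at distance `A0 + 1` (`dis_btw`). If
`dep x > R0` both elements fix a horoball and commute. Else lift everything to a chart at `x`; the
lifts do not commute, `AI` of the stage bounds `S.d (bar w) (bar w')` by `f`; `Blow.upper` bounds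
`dW w w'` unless some `v` is far, and then `Blow.TP` says that both lifts fix `v` (`OK.comm`). -/
theorem s7_ai (kT D k B f : ℕ) : ∃ A0 r0 : ℕ, ∀ (AA N K T : Type) [CommGroup AA]
    (S : St AA N K) (C : Cusp S kT D) (V : Dv AA K k) (Y ε : T → S.G) (m r R0 L : ℕ), S.OK →
    B + b1 k ≤ L → AI S.G S.d L f → r0 ≤ r → r0 ≤ R0 → Cov C V Y ε m r R0 →
    AI V.Γ V.d B A0 := by
  obtain ⟨s, hs⟩ : ∃ s, s = B + b1 k := ⟨_, rfl⟩
  obtain ⟨Θ, hΘ⟩ : ∃ Θ, Θ = (D + 1) * (7 * s + 12) := ⟨_, rfl⟩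
  obtain ⟨A0, hA⟩ : ∃ A0, A0 = (f + 1) * (Θ + 1) := ⟨_, rfl⟩
  have hb : 10 * (k + 1) ≤ b1 k := by unfold b1; omega
  refine ⟨A0, A0 + s + 2, ?_⟩
  intro AA N K T _ S C V Y ε m r R0 L H hL ai hr hR cov a b x x' hab h1 h2 h3 h4
  by_contra hc
  obtain ⟨z, z1, z2⟩ := V.gr.geo.mid V.gr.met x x' (s := A0 + 1) (by omega)
  have hz : Btw V.d x z x' := by unfold Btw; omega
  have a1 := dis_btw V.gr V.hyp V.iso a hz h1 h3
  have b1' := dis_btw V.gr V.hyp V.iso b hz h2 h4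
  by_cases hd : V.dep x ≤ R0
  swap
  · obtain ⟨ω, hω⟩ := V.mem_ex x (by omega)
    exact hab (V.comm (V.deep_fix hω (by omega)) (V.deep_fix hω (by omega)))
  obtain ⟨c, w, hw, rfl⟩ := cov x hd
  obtain ⟨w', rfl, w2⟩ := c.onto w z hw (by omega)
  have key : ∀ γ : V.Γ, V.d (c.Φ w) (γ • c.Φ w) ≤ B → V.d (c.Φ w') (γ • c.Φ w') ≤ s →
      ∃ g : S.G, c.θ g = γ ∧ C.dW w (g • w) ≤ s ∧ C.dW w' (g • w') ≤ s := by
    intro γ e1 e2
    obtain ⟨g, rfl, g2⟩ := c.lift w γ hw (by omega)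
    have t1 := C.blow.grW.met.tri w (g • w) (g • w')
    rw [C.bact.iW] at t1
    have t2 := c.iso w w' (g • w') hw (by omega) (by omega)
    rw [c.Φ_smul] at t2
    exact ⟨g, rfl, by omega, by omega⟩
  obtain ⟨g, rfl, g1, g2⟩ := key a h1 (by omega)
  obtain ⟨h, rfl, k1, k2⟩ := key b h2 (by omega)
  have hgh : ¬ Commute g h := fun e => hab (e.map c.θ)
  have bl : ∀ (u : S.G) (p : C.W), C.dW p (u • p) ≤ s → S.d (C.bar p) (u • C.bar p) ≤ L := by
    intro u p e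
    have := C.blow.bar_le p (u • p)
    rw [C.bact.comm] at this
    omega
  have e1 := ai g h _ _ hgh (bl g w g1) (bl h w k1) (bl g w' g2) (bl h w' k2)
  have e2 := C.blow.upper (Θ := Θ) (y := w) (y' := w') fun v hv => hgh (H.comm
    (C.blow.TP C.bact g1 g2 (hv.mono (by omega))) (C.blow.TP C.bact k1 k2 (hv.mono (by omega))))
  have e3 : (S.d (C.bar w) (C.bar w') + 1) * (Θ + 1) ≤ (f + 1) * (Θ + 1) :=
    Nat.mul_le_mul_right _ (by omega)
  have e4 := c.le w w'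
  omega

end Pool.Agent.Lib.MP_429c3d_al.Ng
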