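import Pool.Agent.Lib.MP_429c3d_al.NgS7A

set_option autoImplicit false

/-! The deck group: the property `P1`. -/

namespace Pool.Agent.Lib.MP_429c3d_al.Ng

open Hyp

/-- Proof: `short_red` gives a point where `y, a, f` are short. Deep in a horoball they commute,
otherwise lift them; the relations lift by `Chart.inj` and `dis_mul`. -/
theorem s7_p1 (kT D k A : ℕ) : ∃ r0 : ℕ, ∀ (AA N K T : Type) [CommGroup AA]
    (S : St AA N K) (C : Cusp S kT D) (V : Dv AA K k) (Y ε : T → S.G) (m r R0 : ℕ),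
    P1 S.G → XL V.Γ V.d k A → r0 ≤ r → r0 ≤ R0 → Cov C V Y ε m r R0 → P1 V.Γ := by
  obtain ⟨B, hB⟩ := short_red k A
  refine ⟨3 * B, ?_⟩
  intro AA N K T _ S C V Y ε m r R0 hP hX hr hR hC y a f hy hay hf
  rcases (hB V.Γ V.X V.d hX).1 y a f hy hay hf with h | ⟨x, h1, h2, h3⟩
  · exact h
  by_cases hd : V.dep x ≤ R0
  · obtain ⟨c, w, hw, rfl⟩ := hC x hd
    obtain ⟨y', rfl, e1⟩ := c.lift w y hw (by omega)
    obtain ⟨a', rfl, e2⟩ := c.lift w a hw (by omega)
    obtain ⟨f', rfl, e3⟩ := c.lift w f hw (by omega)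
    have mt := C.blow.grW.met
    have is : Isom S.G C.dW := C.bact.iW
    have hy' : y' ≠ 1 := fun h => hy (by rw [h, map_one])
    have c1 : Commute a' y' := by
      have b1 := dis_mul mt is a' y' w
      have b2 := dis_mul mt is y' a' w
      exact c.inj hw (by omega) (by omega) (by rw [map_mul, map_mul]; exact hay)
    have c2 : f' * y' * f'⁻¹ = a'⁻¹ * f' := by
      have b1 := dis_mul mt is (f' * y') f'⁻¹ w
      have b2 := dis_mul mt is f' y' w
      have b3 := dis_mul mt is a'⁻¹ f' w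
      have b4 := dis_inv mt is f' w
      have b5 := dis_inv mt is a' w
      exact c.inj hw (by omega) (by omega) (by simpa only [map_mul, map_inv] using hf)
    exact (hP y' a' f' hy' c1 c2).map c.θ
  · obtain ⟨ω, hω⟩ := V.mem_ex x (by omega)
    exact V.comm (V.deep_fix hω (by omega)) (V.deep_fix hω (by omega))

end Pool.Agent.Lib.MP_429c3d_al.Ng
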