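import Pool.Agent.Lib.MP_429c3d_al.NgS7B
import Pool.Agent.Lib.MP_429c3d_al.NgS7C
import Pool.Agent.Lib.MP_429c3d_al.NgS7D
import Pool.Agent.Lib.MP_429c3d_al.NgS7E
import Pool.Agent.Lib.MP_429c3d_al.NgS7F

set_option autoImplicit false

/-! The invariants of the deck group. -/

namespace Pool.Agent.Lib.MP_429c3d_al.Ng

open Hyp

theorem s7_main (kT cT D k : ℕ) : ∃ L : ℕ, ∀ f P : ℕ, ∃ A : ℕ, ∀ S2 Kk : ℕ, ∃ r0 : ℕ,
    ∀ (AA N K T : Type) [CommGroup AA] (S : St AA N K) (C : Cusp S kT D) (V : Dv AA K k)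
      (Y ε : T → S.G) (m r R0 : ℕ), TF AA → S.OK → TAm S.G S.d cT → AI S.G S.d L f →
      PW S.G S.d P L → S.Alg → S.GT (Tr m Y ε) Kk S2 → r0 ≤ r → r0 ≤ R0 → Nonempty V.X →
      Cov C V Y ε m r R0 → XL V.Γ V.d k A ∧ QQ V.Γ ∧ P1 V.Γ ∧
        ∀ y c : V.Γ, IsConj y c → ¬ Commute y c → Law m y c ∨ Esc V.d (Kk + 1) S2 y c := by
  refine ⟨3 * b1 k, fun f P => ?_⟩
  obtain ⟨c, r1, h1⟩ := s7_near kT cT D k (2 * b1 k)
  obtain ⟨r2, h2⟩ := s7_di kT D k (2 * b1 k) P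
  obtain ⟨A0, r3, h3⟩ := s7_ai kT D k (b1 k) f
  obtain ⟨A, -, hA⟩ := gen_xl k c (P + 1) A0
  refine ⟨A, fun S2 Kk => ?_⟩
  obtain ⟨r4, h4⟩ := s7_p1 kT D k A
  obtain ⟨r5, h5⟩ := s7_qq kT cT D k A (P + 1)
  obtain ⟨r6, h6⟩ := s7_gt kT D k A S2 Kk
  refine ⟨r1 + r2 + r3 + r4 + r5 + r6, ?_⟩
  intro AA N K T _ S C V Y ε m r R0 tf H ta ai pw al gt hr hR ne cov
  have near := h1 AA N K T S C V Y ε m r R0 H ta (by omega) (by omega) cov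
  have di := h2 AA N K T S C V Y ε m r R0 _ H (by omega) pw (by omega) (by omega) cov
  have two : Free2 V.Γ V.Ω := V.two fun a ω x e1 e2 e3 =>
    near a ω x e1 e2 (e3.trans (by unfold b1; omega))
  have xl := hA V.Γ V.X V.Ω V.d V.mem V.gr V.hyp V.iso ne
    ⟨V.mem_smul, V.mem_ne, V.short, fun a b ω => V.comm, fun a ω n e1 e2 e3 => V.tf tf e1 e2 e3,
      two, near, di⟩ (h3 AA N K T S C V Y ε m r R0 _ H (by omega) ai (by omega) (by omega) cov)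
  have p1 := h4 AA N K T S C V Y ε m r R0 al.p1 xl (by omega) (by omega) cov
  have qq := h5 AA N K T S C V Y ε m r R0 H ta al.qp al.qq xl p1 two
    (fun a e1 e2 x => le_trans (by omega) (di a e1 e2 x)) (by omega) (by omega) cov
  exact ⟨xl, qq, p1, h6 AA N K T S C V Y ε m r R0 gt xl qq (by omega) (by omega) cov⟩

end Pool.Agent.Lib.MP_429c3d_al.Ng
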