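import Pool.Agent.Lib.MP_429c3d_al.NgSt

set_option autoImplicit false

/-! Simple consequences of the axioms of a stage. -/

namespace Pool.Agent.Lib.MP_429c3d_al.Ng

open Hyp

namespace St

variable {AA N K : Type} [CommGroup AA] {S : St AA N K}

theorem OK.fl_smul (H : S.OK) (g : S.G) {α n : S.Z} (h : S.Fl α n) : S.Fl (g • α) (g • n) :=
  ⟨H.ap_smul g α h.1, by rw [H.iso]; exact h.2⟩

theorem OK.ap_smul_iff (H : S.OK) (g : S.G) (x : S.Z) : S.ap (g • x) ↔ S.ap x :=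
  ⟨fun h => by simpa using H.ap_smul g⁻¹ _ h, H.ap_smul g x⟩

theorem OK.fl_fix (H : S.OK) {a : S.G} {α n : S.Z} (h : S.Fl α n) (ha : a • α = α) :
    S.Fl α (a • n) := by
  simpa [ha] using H.fl_smul a h

theorem OK.df_self (H : S.OK) {α n : S.Z} (h : S.Fl α n) : S.df α n n = 1 := by
  simpa using H.df_mul α n n n h h h

theorem OK.df_symm (H : S.OK) {α n n' : S.Z} (h : S.Fl α n) (h' : S.Fl α n') :
    S.df α n' n = (S.df α n n')⁻¹ := by
  rw [eq_inv_iff_mul_eq_one, H.df_mul α n' n n' h' h h', H.df_self h']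

theorem OK.lab_mul (H : S.OK) {α : S.Z} (h : S.ap α) {a b : S.G} (ha : a • α = α)
    (hb : b • α = α) : S.lab α (a * b) = S.lab α a * S.lab α b := by
  obtain ⟨n, hn⟩ := H.nb α h
  have f : S.Fl α n := ⟨h, hn⟩
  rw [← H.lab_df α n (a * b) f (by rw [mul_smul, hb, ha]), mul_comm,
    ← H.lab_df α n b f hb, ← H.lab_df α (b • n) a (H.fl_fix f hb) ha,
    H.df_mul α _ _ _ f (H.fl_fix f hb) (H.fl_fix (H.fl_fix f hb) ha), mul_smul]

theorem OK.lab_one (H : S.OK) {α : S.Z} (h : S.ap α) : S.lab α 1 = 1 := by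
  simpa using H.lab_mul h (one_smul _ α) (one_smul _ α)

theorem OK.lab_inv (H : S.OK) {α : S.Z} (h : S.ap α) {a : S.G} (ha : a • α = α) :
    S.lab α a⁻¹ = (S.lab α a)⁻¹ := by
  rw [eq_inv_iff_mul_eq_one, ← H.lab_mul h (inv_smul_eq_iff.2 ha.symm) ha, inv_mul_cancel,
    H.lab_one h]

theorem OK.lab_conj (H : S.OK) (g : S.G) {α : S.Z} {a : S.G} (h : S.ap α) (ha : a • α = α) :
    S.lab (g • α) (g * a * g⁻¹) = S.lab α a := by
  obtain ⟨n, hn⟩ := H.nb α h
  have f : S.Fl α n := ⟨h, hn⟩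
  rw [← H.lab_df α n a f ha, ← H.lab_df (g • α) (g • n) _ (H.fl_smul g f)
    (by rw [mul_smul, mul_smul, inv_smul_smul, ha]), mul_smul, mul_smul, inv_smul_smul,
    H.df_smul g α _ _ f (H.fl_fix f ha)]

theorem OK.lab_eq (H : S.OK) {α : S.Z} (h : S.ap α) {a b : S.G} (ha : a • α = α)
    (hb : b • α = α) (e : S.lab α a = S.lab α b) : a = b := by
  have hb' : b⁻¹ • α = α := inv_smul_eq_iff.2 hb.symm
  have := H.lab_inj α (a * b⁻¹) h (by rw [mul_smul, hb', ha])
    (by rw [H.lab_mul h ha hb', H.lab_inv h hb, e, mul_inv_cancel])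
  exact mul_inv_eq_one.1 this

theorem zpow_fix {G Z : Type} [Group G] [MulAction G Z] {a : G} {α : Z} (ha : a • α = α) (i : ℤ) :
    a ^ i • α = α :=
  MulAction.mem_stabilizer_iff.1 (Subgroup.zpow_mem _ (MulAction.mem_stabilizer_iff.2 ha) i)

theorem OK.lab_zpow (H : S.OK) {α : S.Z} (h : S.ap α) {a : S.G} (ha : a • α = α) (i : ℤ) :
    S.lab α (a ^ i) = S.lab α a ^ i := by
  induction i using Int.induction_on with
  | zero => simpa using H.lab_one h
  | succ i ih => rw [zpow_add_one, zpow_add_one, H.lab_mul h (zpow_fix ha _) ha, ih]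
  | pred i ih =>
    rw [zpow_sub_one, zpow_sub_one, H.lab_mul h (zpow_fix ha _) (inv_smul_eq_iff.2 ha.symm), ih,
      H.lab_inv h ha]

/-- Point stabilisers are abelian. -/
theorem OK.comm (H : S.OK) {α : S.Z} {a b : S.G} (ha : a • α = α) (hb : b • α = α) :
    Commute a b := by
  by_cases h : S.ap α
  · exact H.lab_eq h (by rw [mul_smul, hb, ha]) (by rw [mul_smul, ha, hb])
      (by rw [H.lab_mul h ha hb, H.lab_mul h hb ha, mul_comm])
  · rw [H.free a α h ha]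
    exact Commute.one_left b

/-- The labels of a stabiliser form a subgroup. -/
def OK.lbs (H : S.OK) {α : S.Z} (h : S.ap α) : Subgroup AA where
  carrier := S.Lb α
  one_mem' := ⟨1, one_smul _ _, H.lab_one h⟩
  mul_mem' := by
    rintro _ _ ⟨a, ha, rfl⟩ ⟨b, hb, rfl⟩
    exact ⟨a * b, by rw [mul_smul, hb, ha], H.lab_mul h ha hb⟩
  inv_mem' := by
    rintro _ ⟨a, ha, rfl⟩
    exact ⟨a⁻¹, inv_smul_eq_iff.2 ha.symm, H.lab_inv h ha⟩

end St

end Pool.Agent.Lib.MP_429c3d_al.Ng
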