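import Pool.Agent.Lib.MP_429c3d_al.NxF

set_option autoImplicit false

/-! Block B, first part: lemmas about one hyperbolic action that are used for the developed space
and for level zero. -/

namespace Pool.Agent.Lib.MP_429c3d_al.Ng

open Hyp

section
variable {G V : Type} [Group G] [MulAction G V] {d : V → V → ℕ} {k : ℕ}

/-- X1: the displacement function is almost convex. -/
theorem dis_btw (gr : IsGr d) (hyp : Hyp4 d k) (iso : Isom G d) (g : G) {x z x' : V} {B : ℕ}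
    (hz : Btw d x z x') (h : d x (g • x) ≤ B) (h' : d x' (g • x') ≤ B) :
    d z (g • z) ≤ B + 10 * (k + 1) :=
  ((sp_of gr hyp iso).conv g hz h h').trans (by omega)

/-- X2: where a power is short, the root is short nearby. -/
theorem root_short (gr : IsGr d) (hyp : Hyp4 d k) (iso : Isom G d) (g : G) (j : ℕ) (hj : j ≠ 0)
    {x : V} {B : ℕ} (h : d x (g ^ j • x) ≤ B) :
    ∃ x' : V, d x' (g • x') ≤ B + 50 * (k + 1) ∧ d x' (g ^ j • x') ≤ B + 50 * (k + 1) := by
  have S := sp_of gr hyp iso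
  obtain ⟨x0, h0⟩ := S.mu_le_of_pow g hj x
  obtain ⟨p, hp, -⟩ := S.exists_gt g (K := B + 8 * (k + 1) + 2) (y := x0) (by omega) x
  have := S.gt_short hp (Commute.self_pow g j).symm
  have := hp.sh
  exact ⟨p, by omega, by omega⟩

/-- X6: a loxodromic element moves its short points along its powers. -/
theorem lox_near (gr : IsGr d) (hyp : Hyp4 d k) (iso : Isom G d) (g : G) {P B : ℕ}
    (hP : ∀ x : V, 100 * (k + 1) ≤ d x (g ^ P • x)) {x x' : V} (h : d x (g • x) ≤ B)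
    (h' : d x' (g • x') ≤ B) : ∃ i : ℤ, d x (g ^ i • x') ≤ 100 * (P + 1) * (B + k + 1) := by
  have S := sp_of gr hyp iso
  obtain ⟨x0, h0⟩ := exists_min d (g ^ P) x
  have b := hP x0
  obtain ⟨R, hR⟩ : ∃ R, R = d x0 (g ^ P • x0) + d x0 x + d x0 x' := ⟨_, rfl⟩
  obtain ⟨γ, ty, H⟩ := S.exists_ax h0 (by omega) (R := R) (by omega)
  obtain ⟨i, i1, i2, i3, -⟩ := S.ax_near H x (by omega)
  have t1 := H.ty1
  have t2 := H.ty2
  obtain ⟨T, rfl⟩ : ∃ T : ℕ, ty = T := ⟨ty.toNat, by omega⟩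
  obtain ⟨n, j, j1, j2, j3⟩ := S.ax_norm H (Commute.refl _) (by omega) (by omega) H.tly (T := T)
    (abs_of_nonneg (by omega)).symm (by omega) x' (by omega) (l := i) (by omega) (by omega)
  refine ⟨P * n, ?_⟩
  rw [zpow_mul, zpow_natCast]
  have e1 := (S.dis_pow g x P).trans (Nat.mul_le_mul_left P h)
  have e2 := (S.dis_pow g x' P).trans (Nat.mul_le_mul_left P h')
  have e3 := H.gz.lip' i j (T + 3 * (k + 1)) (by omega) (by omega)
  have e4 := S.tri x (γ i) ((g ^ P) ^ n • x')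
  have e5 := S.tri (γ i) (γ j) ((g ^ P) ^ n • x')
  have e6 := S.symm (γ j) ((g ^ P) ^ n • x')
  have e7 := h0 x
  have e8 : 100 * (P + 1) * (B + k + 1) = 100 * (P * B) + 100 * (P * (k + 1) + B) + 100 * (k + 1) := by
    ring
  omega

/-- A family of horoballs: `H g` says that `g` stabilises one of them. -/
structure Fam (G : Type) {V Ω : Type} [Group G] [MulAction G V] [MulAction G Ω] (d : V → V → ℕ)
    (mem : Ω → V → Prop) (B c P : ℕ) : Prop where
  smul : ∀ (g : G) ω x, mem ω x → mem (g • ω) (g • x)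
  ne : ∀ ω, ∃ x, mem ω x
  short : ∀ (g : G) ω x, g • ω = ω → mem ω x → d x (g • x) ≤ 1
  comm : ∀ (a b : G) (ω : Ω), a • ω = ω → b • ω = ω → Commute a b
  tf : ∀ (a : G) (ω : Ω) (n : ℕ), a • ω = ω → n ≠ 0 → a ^ n = 1 → a = 1
  two : Free2 G Ω
  near : ∀ (a : G) ω x, a ≠ 1 → a • ω = ω → d x (a • x) ≤ B → ∃ z, mem ω z ∧ d x z ≤ c
  di : ∀ a : G, (∀ ω : Ω, a • ω ≠ ω) → a ≠ 1 → ∀ x : V, B ≤ d x (a ^ P • x)

end

/-- X3: the algebraic invariants from a family of horoballs. -/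
theorem gen_xl (k c P A0 : ℕ) : ∃ A : ℕ, A0 ≤ A ∧ ∀ (G V Ω : Type) [Group G] [MulAction G V]
    [MulAction G Ω] (d : V → V → ℕ) (mem : Ω → V → Prop), IsGr d → Hyp4 d k → Isom G d →
    Nonempty V → Fam G d mem (2 * b1 k) c P → AI G d (b1 k) A0 → XL G d k A := by
  refine ⟨A0 + 2 * c + 1 + P * b1 k + 30 * (k + 1), by omega, ?_⟩
  intro G V Ω _ _ _ d mem gr hyp iso ne F ai
  have S := sp_of gr hyp iso
  have hb : b1 k = 1000 * (k + 1) := rfl
  obtain ⟨tf, ct, csa⟩ := S.gen_alg (P := P) (ai.mono (by omega) le_rfl) ne.some F.comm F.tf F.two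
    fun a h1 h2 x => (F.di a h1 h2 x).trans' (by omega)
  refine ⟨gr, hyp, iso, ne, tf, csa, ct, ai.mono le_rfl (by omega), fun a y x x' h1 h2 h3 => ?_⟩
  by_cases h : ∀ ω : Ω, a • ω ≠ ω
  · have := S.tube (F.di a h h1) (by omega) (h2.symm.pow_right P) x x'
    have := (S.dis_pow a x P).trans (Nat.mul_le_mul_left P h3)
    omega
  · simp only [not_forall, not_not] at h
    obtain ⟨ω, h⟩ := h
    obtain ⟨z, z1, z2⟩ := F.near a ω x h1 h (by omega)
    have e : y • ω = ω := by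
      by_contra e
      exact h1 (F.two a _ _ (by rw [smul_smul, h2.eq, mul_smul, h]) h e)
    have := F.short y ω z e z1
    have := S.dis_move y x z
    omega

/-- X4: acylindricity at every scale. -/
theorem ai_scale (k A B : ℕ) : ∃ C : ℕ, ∀ (G V : Type) [Group G] [MulAction G V]
    (d : V → V → ℕ), XL G d k A → AI G d B C :=
  ⟨A + 8 * B, fun _ _ _ _ _ h _ _ _ _ c h1 h2 h3 h4 => h.xs.ai_sc c h1 h2 h3 h4⟩

/-- X5: the properties `P1` and `QQ` only have to be checked for short configurations. -/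
theorem short_red (k A : ℕ) : ∃ S : ℕ, ∀ (G V : Type) [Group G] [MulAction G V]
    (d : V → V → ℕ), XL G d k A →
    (∀ y a f : G, y ≠ 1 → Commute a y → f * y * f⁻¹ = a⁻¹ * f → Commute f y ∨
      ∃ x : V, d x (y • x) ≤ S ∧ d x (a • x) ≤ S ∧ d x (f • x) ≤ S) ∧
    (P1 G → ∀ y s t z : G, y ≠ 1 → Commute z y → t * y * t⁻¹ = s * y * s⁻¹ * z → z = 1 ∨
      ∃ x : V, d x (y • x) ≤ S ∧ d x ((s * y * s⁻¹) • x) ≤ S ∧ d x ((t * y * t⁻¹) • x) ≤ S) := by
  refine ⟨60000000 * (A + 500 * (k + 1)), fun G V _ _ d h => ⟨fun y a f h1 h2 h3 => ?_,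
    fun p1 y s t z h1 h2 h3 => ?_⟩⟩
  · refine (em _).imp_right fun nc => ?_
    obtain ⟨x, a1, a2, a3⟩ := h.xs.p1_red h1 h2 h3 nc
    have e := Nat.mul_le_mul_right (A + 500 * (k + 1)) (show 30000000 ≤ 60000000 by norm_num)
    exact ⟨x, a1.trans e, a2.trans e, a3.trans e⟩
  · exact (em _).imp_right fun hz => h.xs.q_red p1 h1 hz h2 h3

end Pool.Agent.Lib.MP_429c3d_al.Ng
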