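import Pool.Agent.Lib.MP_429c3d_al.NgDevI
import Pool.Agent.Lib.MP_429c3d_al.NgStL
import Pool.Agent.Lib.MP_429c3d_al.NgX
import Pool.Agent.Lib.MP_429c3d_al.NgLaw

set_option autoImplicit false

/-! Lifting elements of the deck group: basic facts, horoball stabilisers. -/

namespace Pool.Agent.Lib.MP_429c3d_al.Ng

open Hyp

variable {AA N K T : Type} [CommGroup AA] {S : St AA N K} {kT D k m r R0 : ℕ} {C : Cusp S kT D}
  {V : Dv AA K k} {Y ε : T → S.G}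

theorem Dv.deep_fix (V : Dv AA K k) {γ : V.Γ} {ω : V.Ω} {x : V.X} (h : V.mem ω x)
    (hd : V.d x (γ • x) < V.dep x) : γ • ω = ω :=
  V.mem_un _ _ _ (V.mem_smul γ ω x h) (V.mem_near ω x _ h hd)

theorem Dv.comm (V : Dv AA K k) {a b : V.Γ} {ω : V.Ω} (ha : a • ω = ω) (hb : b • ω = ω) :
    Commute a b := by
  have h1 : ∀ c : V.Γ, c • ω = ω → c⁻¹ • ω = ω := fun c h => inv_smul_eq_iff.2 h.symm
  have h2 : ∀ c : V.Γ, c • ω = ω → V.lb ω c * V.lb ω c⁻¹ = 1 := fun c h => by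
    have e := V.lb_mul 1 1 ω (one_smul _ _) (one_smul _ _)
    rw [← V.lb_mul c c⁻¹ ω h (h1 c h), mul_inv_cancel]
    simpa using e
  have hab : (a * b) • ω = ω := by rw [mul_smul, hb, ha]
  have hi : (a⁻¹ * b⁻¹) • ω = ω := by rw [mul_smul, h1 b hb, h1 a ha]
  have := V.lb_inj (a * b * (a⁻¹ * b⁻¹)) ω (by rw [mul_smul, hi, hab]) (by
    rw [V.lb_mul _ _ ω hab hi, V.lb_mul a b ω ha hb, V.lb_mul _ _ ω (h1 a ha) (h1 b hb),
      mul_mul_mul_comm, h2 a ha, h2 b hb, one_mul])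
  rw [Commute, SemiconjBy]
  calc a * b = a * b * (a⁻¹ * b⁻¹) * (b * a) := by group
    _ = b * a := by rw [this, one_mul]

theorem Dv.tf (V : Dv AA K k) (h : TF AA) {a : V.Γ} {ω : V.Ω} (ha : a • ω = ω) {n : ℕ}
    (hn : n ≠ 0) (e : a ^ n = 1) : a = 1 := by
  have h1 : V.lb ω 1 = 1 := by simpa using V.lb_mul 1 1 ω (one_smul _ _) (one_smul _ _)
  have h2 : ∀ j : ℕ, a ^ j • ω = ω ∧ V.lb ω (a ^ j) = V.lb ω a ^ j := fun j => by
    induction j with
    | zero => simpa using h1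
    | succ j ih => exact ⟨by rw [pow_succ, mul_smul, ha, ih.1], by
        rw [pow_succ, pow_succ, V.lb_mul _ _ ω ih.1 ha, ih.2]⟩
  exact V.lb_inj a ω ha (h _ n hn (by rw [← (h2 n).2, e, h1]))

/-- Short lifts are unique. -/
theorem Chart.inj (c : Chart C V Y ε m r) {w : C.W} (hw : C.deep w) {g g' : S.G}
    (h : C.dW w (g • w) ≤ r) (h' : C.dW w (g' • w) ≤ r) (e : c.θ g = c.θ g') : g = g' := by
  have h1 := c.iso w _ _ hw h h'
  rw [c.Φ_smul, c.Φ_smul, e, V.gr.met.self] at h1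
  have h2 := C.blow.grW.sep _ _ h1.symm
  have := C.free (g'⁻¹ * g) w (by rw [mul_smul, h2, inv_smul_smul])
  exact (inv_mul_eq_one.1 this).symm

/-- Displacements add up. -/
theorem dis_mul {G X : Type} [Group G] [MulAction G X] {d : X → X → ℕ} (m : IsMet d)
    (iso : Isom G d) (a b : G) (x : X) : d x ((a * b) • x) ≤ d x (a • x) + d x (b • x) := by
  have := m.tri x (a • x) ((a * b) • x)
  rwa [mul_smul, iso, ← mul_smul] at this

theorem dis_inv {G X : Type} [Group G] [MulAction G X] {d : X → X → ℕ} (m : IsMet d)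
    (iso : Isom G d) (a : G) (x : X) : d x (a⁻¹ • x) = d x (a • x) := by
  rw [← iso a, smul_inv_smul, m.symm]

/-- A horoball stabiliser element is short only near the horoball.
Proof: let `z` be a nearest point of `ω`, suppose `d x z > c`, take `x₁` between `x` and `z` with
`d x₁ z = c + 1` (`IsGeo.mid`); `dis_btw` with `V.short`; `dep x₁ ≤ c + 1` by `mem_near`, `mem_un`.
Take a chart at `x₁ = Φ w`, `z = Φ w'` (`onto`), `a = θ g` (`lift`), `ω = hh (bar w')`, `fix` gives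
`g • α = α` for `α = bar w'`; `TAm` and `Blow.bar_le` bound `S.d (bar w) α`. Let `p` be a projection
of `w` to `α`. No vertex `v` is `Far` for `w, p`: for `v = α` use `prj_eq`, `prj_uniq`; otherwise
`Blow.TAP` and `H.two`. So `Blow.upper` bounds `dW w p`, and `C.up`, `mem_hh`, `le` give a point of
`ω` within `c` of `x₁`. -/
theorem s7_near (kT cT D k B : ℕ) : ∃ c r0 : ℕ, ∀ (AA N K T : Type) [CommGroup AA]
    (S : St AA N K) (C : Cusp S kT D) (V : Dv AA K k) (Y ε : T → S.G) (m r R0 : ℕ), S.OK →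
    TAm S.G S.d cT → r0 ≤ r → r0 ≤ R0 → Cov C V Y ε m r R0 →
    ∀ (a : V.Γ) (ω : V.Ω) (x : V.X), a ≠ 1 → a • ω = ω → V.d x (a • x) ≤ B →
      ∃ z, V.mem ω z ∧ V.d x z ≤ c := by
  classical
  obtain ⟨s, hs⟩ : ∃ s, s = B + 1 + 10 * (k + 1) := ⟨_, rfl⟩
  obtain ⟨Θ, hΘ⟩ : ∃ Θ, Θ = (D + 1) * (s + 2) := ⟨_, rfl⟩
  obtain ⟨c, hc⟩ : ∃ c, c = (s + cT + 1) * (Θ + 1) + 1 := ⟨_, rfl⟩
  refine ⟨c, s + c + 2, fun AA N K T _ S C V Y ε m r R0 H ta hr hR cov a ω x ha hω hx => ?_⟩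
  have hex : ∃ n, ∃ z, V.mem ω z ∧ V.d x z = n := by
    obtain ⟨z, hz⟩ := V.mem_ne ω
    exact ⟨_, z, hz, rfl⟩
  obtain ⟨z, z1, z2⟩ := Nat.find_spec hex
  have hmin : ∀ z', V.mem ω z' → V.d x z ≤ V.d x z' := fun z' h => by
    rw [z2]
    exact Nat.find_min' hex ⟨z', h, rfl⟩
  refine ⟨z, z1, ?_⟩
  by_contra hcon
  have M := V.gr.met
  obtain ⟨x₁, e1, e2⟩ := V.gr.geo.mid M x z (s := V.d x z - (c + 1)) (by omega)
  have e3 : V.d x₁ z = c + 1 := by omega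
  have e4 : V.d x₁ (a • x₁) ≤ s := by
    have := dis_btw V.gr V.hyp V.iso a (x := x) (z := x₁) (x' := z) (B := B + 1)
      (by unfold Btw; omega) (by omega) ((V.short a ω z hω z1).trans (by omega))
    omega
  have e5 : V.dep x₁ ≤ c + 1 := by
    by_contra h
    obtain ⟨ω', h1⟩ := V.mem_ex x₁ (by omega)
    obtain rfl := V.mem_un _ _ z z1 (V.mem_near ω' x₁ z h1 (by omega))
    have := hmin x₁ h1
    omega
  obtain ⟨ch, w, hw, rfl⟩ := cov x₁ (by omega)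
  obtain ⟨w', rfl, f1⟩ := ch.onto w z hw (by omega)
  obtain ⟨g, rfl, f2⟩ := ch.lift w a hw (by omega)
  have f3 : 1 ≤ C.dep w' := ch.dep_eq w' ▸ V.mem_dep ω _ z1
  obtain rfl := V.mem_un _ _ _ z1 (ch.mem_hh w' f3)
  have f4 : g • C.bar w' = C.bar w' := by
    refine ch.fix w w' g hw (by omega) ?_ f3 hω
    have := C.blow.grW.met.tri w (g • w) (g • w')
    rw [C.bact.iW] at this
    omega
  have hg : g ≠ 1 := fun h => ha (by rw [h, map_one])
  have f5 : S.d (C.bar w) (C.bar w') ≤ s + cT := by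
    have h1 := ta g _ (C.bar w) hg f4
    have h2 := C.blow.bar_le w (g • w)
    rw [C.bact.comm] at h2
    omega
  obtain ⟨p, hp⟩ := C.blow.exists_prj (C.bar w') w
  have f6 : C.dW w p ≤ (S.d (C.bar w) (C.bar p) + 1) * (Θ + 1) := by
    refine C.blow.upper fun v hv => ?_
    by_cases e : C.bar w' = v
    · obtain ⟨q, q', h1, h2, h3⟩ := hv
      obtain rfl := C.blow.prj_eq h2 (hp.1.trans e)
      have h4 := C.blow.prj_uniq h1 (e ▸ hp)
      have h5 : (D + 1) * 1 ≤ (D + 1) * (s + 2) := Nat.mul_le_mul_left _ (by omega)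
      omega
    · exact hg (H.two g _ v f4 (C.blow.TAP C.bact (s := s) (y := w) (y' := p) (by omega)
        (by rw [hp.1]; exact f4) (hv.mono (by omega))) e)
  rw [hp.1] at f6
  have f7 : (S.d (C.bar w) (C.bar w') + 1) * (Θ + 1) ≤ (s + cT + 1) * (Θ + 1) :=
    Nat.mul_le_mul_right _ (by omega)
  obtain ⟨p', g1, g2, g3⟩ := C.up p (by rw [hp.1]; exact C.ap_of_dep w' f3)
  have g4 := ch.mem_hh p' g2
  rw [g1, hp.1] at g4
  have g5 := hmin _ g4
  have g6 := ch.le w p'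
  have g7 := C.blow.grW.met.tri w p p'
  have g8 := M.tri x (ch.Φ w) (ch.Φ p')
  omega

theorem Dv.two (V : Dv AA K k) {c : ℕ} (h : ∀ (a : V.Γ) (ω : V.Ω) (x : V.X), a ≠ 1 → a • ω = ω →
    V.d x (a • x) ≤ 1 → ∃ z, V.mem ω z ∧ V.d x z ≤ c) : Free2 V.Γ V.Ω := by
  intro a ω ω' h1 h2 hne
  by_contra ha
  obtain ⟨x, hx⟩ := V.mem_ne ω'
  obtain ⟨x', e1, e2⟩ := V.mem_up ω' x (c + 1) hx
  obtain ⟨z, z1, z2⟩ := h a ω x' ha h1 (V.short a ω' x' h2 e1)
  exact hne (V.mem_un _ _ z z1 (V.mem_near ω' x' z e1 (by omega)))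

end Pool.Agent.Lib.MP_429c3d_al.Ng
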