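import Pool.Agent.Lib.MP_429c3d_al.NgS7A

set_option autoImplicit false

/-! The deck group: powers of elements that fix no horoball. -/

namespace Pool.Agent.Lib.MP_429c3d_al.Ng

open Hyp

theorem s7b_dis_pow {G X : Type} [Group G] [MulAction G X] {d : X → X → ℕ} (m : IsMet d)
    (iso : Isom G d) (a : G) (x : X) (j : ℕ) : d x (a ^ j • x) ≤ j * d x (a • x) := by
  induction j with
  | zero => rw [pow_zero, one_smul, m.self]; omega
  | succ j ih =>
    have := dis_mul m iso (a ^ j) a x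
    rw [pow_succ, Nat.add_mul]
    omega

/-- Proof: otherwise `root_short` gives `x'` where `a` and `a ^ (P + 1)` are short. If
`dep x' > R0` then `a` fixes a horoball (`mem_ex`, `Dv.deep_fix`). Else take a chart, lift `a = θ g`;
`g` fixes no point of `S.Z` (`H.free`, `hh_smul`), so `PW` and `Blow.bar_le` give
`L ≤ dW w (g ^ (P + 1) • w)`, and this equals the displacement of `a ^ (P + 1)` by `iso`. -/
theorem s7_di (kT D k B P : ℕ) : ∃ r0 : ℕ, ∀ (AA N K T : Type) [CommGroup AA]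
    (S : St AA N K) (C : Cusp S kT D) (V : Dv AA K k) (Y ε : T → S.G) (m r R0 L : ℕ), S.OK →
    B + b1 k ≤ L → PW S.G S.d P L → r0 ≤ r → r0 ≤ R0 → Cov C V Y ε m r R0 →
    ∀ a : V.Γ, (∀ ω : V.Ω, a • ω ≠ ω) → a ≠ 1 → ∀ x : V.X, B ≤ V.d x (a ^ (P + 1) • x) := by
  refine ⟨(P + 1) * (B + 50 * (k + 1)), ?_⟩
  intro AA N K T _ S C V Y ε m r R0 L H hL hP hr hR hC a ha ha1 x
  by_contra hc
  obtain ⟨x', h1, h2⟩ := root_short V.gr V.hyp V.iso a (P + 1) (by omega) (x := x) le_rfl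
  have h3 : B + 50 * (k + 1) ≤ (P + 1) * (B + 50 * (k + 1)) := Nat.le_mul_of_pos_left _ (by omega)
  by_cases hd : V.dep x' ≤ R0
  · obtain ⟨c, w, hw, rfl⟩ := hC x' hd
    obtain ⟨g, rfl, h4⟩ := c.lift w a hw (by omega)
    have h5 := s7b_dis_pow C.blow.grW.met C.bact.iW g w (P + 1)
    have h6 : (P + 1) * C.dW w (g • w) ≤ (P + 1) * (B + 50 * (k + 1)) :=
      Nat.mul_le_mul_left _ (by omega)
    have h7 := c.iso w w (g ^ (P + 1) • w) hw (by rw [C.blow.grW.met.self]; omega) (by omega)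
    rw [c.Φ_smul, map_pow] at h7
    have h8 := hP g (fun y hy => by
      by_cases hy' : S.ap y
      · exact ha (c.hh y) (by rw [← c.hh_smul g y hy', hy])
      · exact ha1 (by rw [H.free g y hy' hy, map_one])) (P + 1) (by omega) (C.bar w)
    have h9 := C.blow.bar_le w (g ^ (P + 1) • w)
    rw [C.bact.comm] at h9
    unfold b1 at hL
    omega
  · obtain ⟨ω, hω⟩ := V.mem_ex x' (by omega)
    exact ha ω (V.deep_fix hω (by omega))

end Pool.Agent.Lib.MP_429c3d_al.Ng
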