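import Pool.Agent.Lib.MP_429c3d_al.NgBSL
import Pool.Agent.Lib.MP_429c3d_al.NgPre

/-! The invariants TA, UU, PW pass to the next stage with the same constants. -/

set_option autoImplicit false

namespace Pool.Agent.Lib.MP_429c3d_al.Ng

open Hyp

/-- Two different points have trivial common stabiliser. -/
def Free2 (G Z : Type) [Group G] [MulAction G Z] : Prop :=
  ∀ (a : G) (x y : Z), a • x = x → a • y = y → x ≠ y → a = 1

/-- The guessed geodesic from `x` to `a x` passes near the fixed point of `a`. -/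
def TA (G : Type) {Z : Type} [Group G] [MulAction G Z] (d : Z → Z → ℕ) (g : Z → Z → Set Z)
    (mk : Z → Z → Prop) (c : ℕ) : Prop :=
  ∀ (α : Z) (a : G), a ≠ 1 → a • α = α → ∀ x, ∃ z ∈ g x (a • x), d z α ≤ c + 1 ∧
    (mk x (a • x) → d z α ≤ c)

/-- The penalty of a pair. -/
noncomputable def pen {Z : Type} (mk : Z → Z → Prop) (x y : Z) : ℕ :=
  open Classical in if mk x y then 0 else 1

/-- Non commuting elements are short together only on a bounded set. -/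
def UU (G : Type) {Z : Type} [Group G] [MulAction G Z] (d : Z → Z → ℕ) (g : Z → Z → Set Z)
    (mk : Z → Z → Prop) (L f : ℕ) : Prop :=
  ∀ (a b : G) (x x' : Z), ¬ Commute a b → (∀ y : Z, a • y ≠ y) → d x (a • x) ≤ L →
    d x (b • x) ≤ L → d x' (a • x') ≤ L → d x' (b • x') ≤ L →
    ∃ z ∈ g x (a • x), ∃ z' ∈ g x' (a • x'), d z z' ≤ f + pen mk x (a • x) + pen mk x' (a • x')

/-- Powers of elements without fixed point have large displacement. -/
def PW (G : Type) {Z : Type} [Group G] [MulAction G Z] (d : Z → Z → ℕ) (P L : ℕ) : Prop :=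
  ∀ a : G, (∀ y : Z, a • y ≠ y) → ∀ j : ℕ, P ≤ j → ∀ x : Z, L ≤ d x (a ^ j • x)

variable {G G' Z Z' : Type} [Group G] [Group G'] [MulAction G Z] [MulAction G' Z']
  {d : Z → Z → ℕ} {d' : Z' → Z' → ℕ} {g : Z → Z → Set Z} {mk : Z → Z → Prop} {q q0 r' h : ℕ}

theorem pen_le {Z : Type} (mk : Z → Z → Prop) (x y : Z) : pen mk x y ≤ 1 := by
  unfold pen
  split_ifs <;> omega

theorem pen_mk {Z : Type} {mk : Z → Z → Prop} {x y : Z} (h : mk x y) : pen mk x y = 0 := if_pos h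

theorem pen_not {Z : Type} {mk : Z → Z → Prop} {x y : Z} (h : ¬ mk x y) : pen mk x y = 1 :=
  if_neg h

namespace Gate

variable (S : Gate G G' d d')

theorem mkk_smul_iff (γ : G') {x y : Z'} : S.mkk mk (γ • x) (γ • y) ↔ S.mkk mk x y :=
  ⟨fun h => by simpa using S.mkk_smul γ⁻¹ h, S.mkk_smul γ⟩

theorem pen_smul (γ : G') (x y : Z') : pen (S.mkk mk) (γ • x) (γ • y) = pen (S.mkk mk) x y := by
  unfold pen
  rw [S.mkk_smul_iff]

theorem mkk_dis (B : BS G d g mk q q0 r' h) {x y : Z'} (hm : S.mkk mk x y) (hd : S.Dis x y) :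
    ∃ a b, mk a b ∧ x = S.ι a ∧ y = S.ι b := by
  rcases S.mkk_cases' B hm with h1 | ⟨c, c1, c2, -⟩
  exacts [h1, absurd c2 (hd c c1)]

theorem mkk_old {x y : Z'} (hm : S.mkk mk x y) : S.Old x ∨ S.Old y := by
  rcases hm with ⟨γ, a, b, -, rfl, -⟩ | h1 | h1
  exacts [Or.inl (S.old_smul_ι _ _), Or.inr (OnL.old h1), Or.inl (OnL.old h1)]

theorem rho_short {x : Z'} {u : Z} (hu : S.Rho x u) (a : G) :
    d u (a • u) ≤ d' x (S.φ a • x) := by
  rcases hu with rfl | rfl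
  · rw [← S.rt_smul]
    exact S.rt_lip _ _
  · rw [← S.rh_smul]
    exact S.rh_lip _ _

/-- Descent of the pair `x, a x` to the base copy, when `a` fixes no gate of `x`. -/
theorem descend (B : BS G d g mk q q0 r' h) (hm : mk S.t S.h) (a : G) (x : Z')
    (ha : ∀ u, S.Rho x u → a • u ≠ u) : ∃ u, S.Rho x u ∧ ∀ z ∈ g u (a • u),
      ∃ p ∈ S.gg g x (S.φ a • x), d' p (S.ι z) + pen mk u (a • u) ≤
        pen (S.mkk mk) x (S.φ a • x) := by
  by_cases hd : S.Dis x (S.φ a • x)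
  · refine ⟨_, S.rho_rt x, fun z hz => ⟨_, S.gg_ι (S.rho_rt x)
      ((S.rho_smul a x _).2 (S.rho_rt x)) hd hz, ?_⟩⟩
    rw [S.met'.self, zero_add]
    by_cases hk : S.mkk mk x (S.φ a • x)
    · obtain ⟨u, v, h1, rfl, h3⟩ := S.mkk_dis B hk hd
      rw [← S.ι_smul] at h3
      rw [S.rt_ι, S.ι_inj h3, pen_mk h1]
      exact Nat.zero_le _
    · rw [pen_not hk]
      exact pen_le _ _ _
  · obtain ⟨c, c1, c2⟩ := S.not_dis.1 hd
    rw [S.rho_smul'] at c2
    have hne : a⁻¹ • c ≠ c := fun hh => ha _ c2 (by rw [smul_inv_smul, hh])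
    have hk := S.rho_mk B hm c2 c1 hne
    have hx := (S.rho_two_onL c2 c1 hne).not_old
    refine ⟨_, c2, fun z hz => ⟨x, S.gg_left _ _, ?_⟩⟩
    rw [smul_inv_smul] at hz ⊢
    rw [pen_mk hk, pen_not fun hh => (S.mkk_old hh).elim hx fun h2 => hx (by
      simpa using h2.smul (S.φ a)⁻¹), S.met'.symm]
    exact S.rho_near B hm c2 c1 hne hz

theorem ta_base {c : ℕ} (B : BS G d g mk q q0 r' h) (hm : mk S.t S.h) (hf : Free2 G Z)
    (hT : TA G d g mk c) {a₀ : Z} {a : G'} (ha : a ≠ 1) (hfix : a • S.ι a₀ = S.ι a₀) {x : Z'}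
    (hx : ¬ S.Rho x a₀) :
    ∃ z ∈ S.gg g x (a • x), d' z (S.ι a₀) ≤ c + pen (S.mkk mk) x (a • x) := by
  by_cases hr : a ∈ S.φ.range
  · obtain ⟨a₁, rfl⟩ := hr
    have h1 : a₁ ≠ 1 := fun hh => ha (by rw [hh, map_one])
    have h2 : a₁ • a₀ = a₀ := S.ι_inj (by rw [S.ι_smul, hfix])
    obtain ⟨u, -, hu⟩ := S.descend B hm a₁ x fun u hu hh =>
      h1 (hf a₁ u a₀ hh h2 fun h3 => hx (h3 ▸ hu))
    obtain ⟨z, z1, z2, z3⟩ := hT a₀ a₁ h1 h2 u
    obtain ⟨p, p1, p2⟩ := hu z z1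
    have e1 := S.met'.tri p (S.ι z) (S.ι a₀)
    have e2 := S.d_ι z a₀
    refine ⟨p, p1, ?_⟩
    by_cases hk : mk u (a₁ • u)
    · have := z3 hk
      omega
    · rw [pen_not hk] at p2
      omega
  · have e : ∀ b, S.Rho (a • x) b ↔ b = a₀ := fun b => by
      simpa using S.other (σ := a⁻¹) (fun hh => hr (by simpa using inv_mem hh))
        (inv_smul_eq_iff.2 hfix.symm) hx (b := b)
    refine ⟨_, S.gg_ι (S.rho_rt x) ((e _).2 rfl) (fun b h1 h2 => hx ((e b).1 h2 ▸ h1))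
      (B.right _ _), ?_⟩
    rw [S.met'.self]
    exact Nat.zero_le _

theorem exists_old_rho (x : Z') : ∃ p, S.Old p ∧ d' x p ≤ 1 ∧
    ∀ σ : G', S.Rho (σ • x) (S.rt (σ • p)) := by
  rcases S.cover x with hx | ⟨γ, rfl⟩
  · exact ⟨x, hx, by rw [S.met'.self]; exact Nat.zero_le _, fun σ => S.rho_rt _⟩
  · exact ⟨_, (S.onL_t γ).old, (S.onL_t γ).d_le, fun σ => ((S.onL_t γ).smul σ).rho⟩

/-- Two points at different heights along the basic line. -/
theorem ta_w (B : BS G d g mk q q0 r' h) {x : Z'} (hx : ∀ p, S.OnL S.w p → ¬ S.OnL x p) {k : ℤ}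
    (hk : 0 < k) : ∃ z ∈ S.gg g x (S.e ^ k • x), d' z S.w ≤ 1 := by
  obtain ⟨p, hp, -, h0⟩ := S.exists_old_rho x
  obtain ⟨j, h1, h2, -⟩ := S.line_old hp
  have lh : S.OnL S.w (S.ι S.h) := by simpa using S.onL_h 1
  have key : ∀ (i : ℤ) b, S.Rho (S.e ^ i • x) S.h → S.Rho (S.e ^ i • x) b → S.h = b := by
    intro i b e1 e2
    by_contra hne
    refine hx ((S.e ^ i)⁻¹ • S.ι S.h) ?_ (by simpa using (S.rho_two_onL e1 e2 hne).smul (S.e ^ i)⁻¹)
    have := lh.smul (S.e ^ (-i))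
    rwa [S.zpow_w, zpow_neg] at this
  have e1 : S.Rho ((S.e ^ j)⁻¹ • S.e ^ k • x) S.h := by
    have := h0 (S.e ^ (-(j - k)))
    rwa [h2 _ (by omega), show -(j - k) = -j + k by ring, zpow_add, mul_smul, zpow_neg] at this
  have e2 : S.Dis ((S.e ^ j)⁻¹ • x) ((S.e ^ j)⁻¹ • S.e ^ k • x) := by
    intro b b1 b2
    rw [← zpow_neg, ← mul_smul, ← zpow_add] at e1 b2
    rw [← zpow_neg] at b1
    obtain rfl := key _ _ e1 b2
    exact h1 (key _ _ b1 (h0 _)).symm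
  refine ⟨S.e ^ j • S.ι S.h, S.gg_smul' _ (S.gg_ι (S.rho_rt _) e1 e2 (B.right _ _)), ?_⟩
  have := (lh.smul (S.e ^ j)).d_le'
  rwa [S.zpow_w] at this

theorem ta_cone (B : BS G d g mk q q0 r' h) {a : G'} (ha : a ≠ 1) (hw : a • S.w = S.w) (x : Z') :
    ∃ z ∈ S.gg g x (a • x), d' z S.w ≤ 2 := by
  by_cases hx : ∀ p, S.OnL S.w p → ¬ S.OnL x p
  · obtain ⟨k, rfl⟩ := S.stab_w a hw
    rcases lt_trichotomy k 0 with hk | rfl | hk
    · obtain ⟨z, h1, h2⟩ := S.ta_w B (x := S.e ^ k • x) (k := -k) (fun p h1 h2 => by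
        have := h1.smul (S.e ^ (-k))
        rw [S.zpow_w, zpow_neg] at this
        exact hx _ this (by simpa using h2.smul (S.e ^ k)⁻¹)) (by omega)
      rw [zpow_neg, inv_smul_smul] at h1
      exact ⟨z, S.gg_symm B h1, by omega⟩
    · exact absurd (zpow_zero _) ha
    · obtain ⟨z, h1, h2⟩ := S.ta_w B hx hk
      exact ⟨z, h1, by omega⟩
  · push Not at hx
    obtain ⟨p, h1, h2⟩ := hx
    have e1 := h1.d_le'
    have e2 := h2.d_le
    have e3 := S.met'.tri x p S.w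
    exact ⟨x, S.gg_left _ _, by omega⟩

/-- TA passes to the next stage. -/
theorem ta {c : ℕ} (B : BS G d g mk q q0 r' h) (hm : mk S.t S.h) (hf : Free2 G Z)
    (hT : TA G d g mk c) (hc : 2 ≤ c) : TA G' d' (S.gg g) (S.mkk mk) c := by
  intro α a ha hfix x
  suffices H : ∃ z ∈ S.gg g x (a • x), d' z α ≤ c + pen (S.mkk mk) x (a • x) by
    obtain ⟨z, h1, h2⟩ := H
    exact ⟨z, h1, h2.trans (Nat.add_le_add_left (pen_le _ _ _) _),
      fun hk => by simpa [pen_mk hk] using h2⟩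
  have conj : ∀ σ : G', σ⁻¹ * a * σ ≠ 1 := fun σ hh => ha (by
    rw [show a = σ * (σ⁻¹ * a * σ) * σ⁻¹ by group, hh, mul_one, mul_inv_cancel])
  have cx : ∀ σ : G', (σ⁻¹ * a * σ) • σ⁻¹ • x = σ⁻¹ • a • x := fun σ => by
    simp [mul_smul]
  rcases S.cover α with hα | ⟨γ, rfl⟩
  · by_cases h1 : x = α ∨ S.OnL x α
    · refine ⟨x, S.gg_left _ _, ?_⟩
      rcases h1 with rfl | h1
      · rw [S.met'.self]
        exact Nat.zero_le _
      · exact h1.d_le.trans (by omega)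
    · push Not at h1
      obtain ⟨σ, a₀, rfl, e⟩ := S.first hα h1.1 h1.2
      obtain ⟨z, z1, z2⟩ := S.ta_base B hm hf hT (conj σ) (by simp [mul_smul, hfix]) e
      rw [cx] at z1 z2
      rw [S.pen_smul] at z2
      exact ⟨σ • z, S.gg_smul' σ z1, by rwa [S.inv']⟩
  · obtain ⟨z, z1, z2⟩ := S.ta_cone B (conj γ) (by simp [mul_smul, hfix]) (γ⁻¹ • x)
    rw [cx] at z1
    exact ⟨γ • z, S.gg_smul' γ z1, by rw [S.inv']; omega⟩

end Gate

end Pool.Agent.Lib.MP_429c3d_al.Ng
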