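import Pool.Agent.Lib.MP_429c3d_al.NgBase
import Pool.Agent.Lib.MP_429c3d_al.NgTA
import Pool.Agent.Lib.MP_429c3d_al.NgLF
import Pool.Agent.Lib.MP_429c3d_al.NgDet

set_option autoImplicit false

/-! Stages, names, telescopes, the base stage and the final stage. -/

namespace Pool.Agent.Lib.MP_429c3d_al.Ng

open Hyp

/-- Names of flags: base names, or arm, side and height. -/
abbrev Nm (N0 T : Type) : Type := N0 ⊕ T × Bool × ℤ

/-- The height of a name. -/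
def Nm.ht {N0 T : Type} : Nm N0 T → ℤ
  | .inl _ => 0
  | .inr p => p.2.2

/-- The arm of a name. -/
def Nm.arm {N0 T : Type} : Nm N0 T → Option T
  | .inl _ => none
  | .inr p => some p.1

/-- The star metric on names. -/
noncomputable def dnm {N0 T : Type} (a b : Nm N0 T) : ℕ :=
  open Classical in
  if a.arm = b.arm then (a.ht - b.ht).natAbs else a.ht.natAbs + b.ht.natAbs

/-- Stages. -/
structure St (AA N K : Type) where
  G : Type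
  Z : Type
  [grp : Group G]
  [act : MulAction G Z]
  d : Z → Z → ℕ
  ap : Z → Prop
  cls : Z → K
  nm : Z → Z → N
  df : Z → Z → Z → AA
  lab : Z → G → AA

attribute [instance] St.grp St.act

namespace St

variable {AA N K : Type} [CommGroup AA] (S : St AA N K)

/-- Flags: an apex and a neighbour. -/
def Fl (α n : S.Z) : Prop := S.ap α ∧ S.d α n = 1

/-- The axioms of a stage. -/
structure OK : Prop where
  gr : IsGr S.d
  iso : Isom S.G S.d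
  ap_smul : ∀ (g : S.G) x, S.ap x → S.ap (g • x)
  cls_smul : ∀ (g : S.G) x, S.cls (g • x) = S.cls x
  free : ∀ (g : S.G) x, ¬ S.ap x → g • x = x → g = 1
  two : Free2 S.G S.Z
  nb : ∀ α, S.ap α → ∃ n, S.d α n = 1
  nm_smul : ∀ (g : S.G) α n, S.Fl α n → S.nm (g • α) (g • n) = S.nm α n
  nm_orb : ∀ α n α' n', S.Fl α n → S.Fl α' n' → S.nm α n = S.nm α' n' →
    ∃ g : S.G, g • α = α' ∧ g • n = n'
  df_smul : ∀ (g : S.G) α n n', S.Fl α n → S.Fl α n' →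
    S.df (g • α) (g • n) (g • n') = S.df α n n'
  df_mul : ∀ α n n' n'', S.Fl α n → S.Fl α n' → S.Fl α n'' →
    S.df α n n' * S.df α n' n'' = S.df α n n''
  lab_df : ∀ α n (a : S.G), S.Fl α n → a • α = α → S.df α n (a • n) = S.lab α a
  lab_inj : ∀ α (a : S.G), S.ap α → a • α = α → S.lab α a = 1 → a = 1

/-- `c` fixes an apex of class `κ` and has the label `η`. -/
def ApL (c : S.G) (κ : K) (η : AA) : Prop :=
  ∃ α, S.ap α ∧ S.cls α = κ ∧ c • α = α ∧ S.lab α c = η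

/-- The labels of the stabiliser. -/
def Lb (α : S.Z) : Set AA := {η | ∃ a : S.G, a • α = α ∧ S.lab α a = η}

/-- Conjugate, or apex elements with the same class and label. -/
def PreC (y c : S.G) : Prop := IsConj y c ∨ ∃ κ η, S.ApL y κ η ∧ S.ApL c κ η

/-- Injectivity of the step map, for labels. -/
def QP : Prop :=
  ∀ (c c' z : S.G) κ η ζ, η ≠ 1 → S.ApL c κ η → S.ApL c' κ η → S.ApL z κ ζ → c' = c * z → z = 1

/-- No apex element with label `η` maps `t` to `h`. -/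
def NP (t h : S.Z) (η : AA) : Prop := ∀ f : S.G, S.ApL f (S.cls t) η → f • t ≠ h

/-- Pairs are in `L` or escape. -/
def GT (L : S.G → S.G → Prop) (Kk S' : ℕ) : Prop :=
  ∀ y c, S.PreC y c → ¬ Commute y c → L y c ∨ Esc S.d Kk S' y c

/-- The metric invariants. -/
structure MI (dn : N → N → ℕ) (k c l0 D L f P : ℕ) : Prop where
  hyp : Hyp4 S.d k
  det : Det S.d S.ap S.nm dn l0 D
  ta : TAm S.G S.d c
  ai : AI S.G S.d L f
  pw : PW S.G S.d P L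

/-- The algebraic invariants. -/
structure Alg : Prop where
  tf : TF S.G
  csa : CSA S.G
  ct : CT S.G
  qp : S.QP
  qq : QQ S.G
  p1 : P1 S.G

end St

/-- A telescope with heights `1, ..., n + 1`, over the free group on `y` and `ε`. -/
structure Tel (S : St (Multiplicative ℤ) (Nm Empty Unit) Unit) (n : ℕ) where
  y : S.G
  ε : S.G
  o : S.Z
  p : S.Z
  P : ℕ → S.Z
  gen : Subgroup.closure {y, ε} = ⊤
  univ : ∀ (H : Type) [Group H] (a b : H), ∃ f : S.G →* H, f y = a ∧ f ε = b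
  ap : ∀ x, S.ap x
  stab_o : ∀ g : S.G, g • o = o ↔ ∃ i : ℤ, g = y ^ i
  stab_p : ∀ g : S.G, g • p = p ↔ ∃ i : ℤ, g = ε ^ i
  orb : ∀ x, ∃ g : S.G, x = g • o ∨ x = g • p
  ne : ∀ g : S.G, g • o ≠ p
  lab_o : S.lab o y = Multiplicative.ofAdd 1
  lab_p : S.lab p ε = Multiplicative.ofAdd 1
  P_zero : P 0 = p
  P_succ : ∀ j, P (j + 1) = cs y ε j • o
  adj : ∀ j, j ≤ n → S.d o (P j) = 1
  nmE : ∀ j, j ≤ n → S.nm o (P j) = .inr ((), true, (j : ℤ) + 1)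
  nmF : ∀ j, j ≤ n → S.nm (P j) o = .inr ((), false, (j : ℤ) + 1)
  edge : ∀ x x', S.d x x' = 1 → ∃ (g : S.G) (j : ℕ), j ≤ n ∧
    ((x = g • o ∧ x' = g • P j) ∨ (x' = g • o ∧ x = g • P j))

section Base

variable {AA N0 K I : Type} [CommGroup AA]

/-- The first element of a pair: `y` or its inverse. -/
def yy {G : Type} [Group G] (y : I → G) (τ : I × Bool) : G := if τ.2 then y τ.1 else (y τ.1)⁻¹

/-- The conjugator of a pair: `s` or its inverse. -/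
def sg {G : Type} [Group G] (s : I → G) (τ : I × Bool) : G := if τ.2 then s τ.1 else (s τ.1)⁻¹

/-- The second element of a pair. -/
def cc {G : Type} [Group G] (y s : I → G) (τ : I × Bool) : G := sg s τ * yy y τ * (sg s τ)⁻¹

/-- The base stage: pending slots and forward telescopes of height `n`. -/
structure Base (S : St AA (Nm N0 (I × Bool)) K) (n : ℕ) where
  o : K → S.Z
  κ : I → K
  y : I → S.G
  s : I → S.G
  k1 : I × Bool → ℕ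
  P : I × Bool → ℕ → S.Z
  ζ : I × Bool → AA
  χ : I × Bool → AA →* Multiplicative ℤ
  tfA : TF AA
  ap_o : ∀ κ, S.ap (o κ)
  cls_o : ∀ κ, S.cls (o κ) = κ
  orb : ∀ α, S.ap α → ∃ g : S.G, α = g • o (S.cls α)
  df_mem : ∀ α x x', S.Fl α x → S.Fl α x' → S.df α x x' ∈ S.Lb (o (S.cls α))
  χ_df : ∀ τ α x x', S.Fl α x → S.Fl α x' → χ τ (S.df α x x') = 1
  χ_self : ∀ τ, χ τ (ζ τ) = Multiplicative.ofAdd (-1)
  χ_ne : ∀ τ τ', τ ≠ τ' → χ τ (ζ τ') = 1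
  y_fix : ∀ i, y i • o (κ i) = o (κ i)
  y_ne : ∀ i, y i ≠ 1
  k1_pos : ∀ τ, 1 ≤ k1 τ
  P_zero : ∀ τ, P τ 0 = sg s τ • o (κ τ.1)
  P_succ : ∀ τ h, P τ (h + 1) = cs (yy y τ) (cc y s τ) (h + k1 τ - 1) • o (κ τ.1)
  adj : ∀ τ h, h ≤ n → S.d (o (κ τ.1)) (P τ h) = 1
  nmE : ∀ τ h, 1 ≤ h → h ≤ n → S.nm (o (κ τ.1)) (P τ h) = .inr (τ, true, (h : ℤ))
  nmF : ∀ τ h, 1 ≤ h → h ≤ n → S.nm (P τ h) (o (κ τ.1)) = .inr (τ, false, (h : ℤ))
  nm_rng : ∀ α x τ b h, S.Fl α x → S.nm α x = .inr (τ, b, h) → 1 ≤ h ∧ h ≤ n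
  nm_zero : ∀ τ, (S.nm (o (κ τ.1)) (P τ 0)).ht = 0
  dfE : ∀ τ h, 1 ≤ h → h ≤ n → S.df (o (κ τ.1)) (P τ 0) (P τ h) =
    S.lab (o (κ τ.1)) (yy y τ) ^ (h + k1 τ - 1)
  dfF : ∀ τ h, 1 ≤ h → h + 1 ≤ n → S.df (o (κ τ.1)) (P τ (h + 1))
    ((cs (yy y τ) (cc y s τ) (h + k1 τ - 1))⁻¹ • o (κ τ.1)) = 1
  lf : ∀ τ h N, 1 ≤ h → h ≤ n → LF (o (κ τ.1)) (cs (yy y τ) (cc y s τ) (h + k1 τ - 1)) N
  np : ∀ i, S.NP (o (κ i)) (s i • o (κ i)) (S.lab (o (κ i)) (y i))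
  ineq : ∀ i j (g : S.G), g • o (κ i) = o (κ j) → g • s i • o (κ i) = s j • o (κ j) →
    S.lab (o (κ i)) (y i) = S.lab (o (κ j)) (y j) → i = j
  ineq' : ∀ i j (g : S.G), g • o (κ i) = s j • o (κ j) → g • s i • o (κ i) = o (κ j) →
    S.lab (o (κ i)) (y i) ≠ (S.lab (o (κ j)) (y j))⁻¹

/-- Valid heights. -/
def Val (n : ℕ) (h : ℤ) : Prop := (-(n : ℤ) ≤ h ∧ h ≤ -2) ∨ (1 ≤ h ∧ h ≤ n)

/-- The index of a height. -/
def idx (n k1 : ℕ) (h : ℤ) : ℕ := (h + n + if 0 < h then (k1 : ℤ) - 1 else 0).toNat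

/-- The final stage: arms with heights from `-n` to `n`. -/
structure Fs {T : Type} (S : St AA (Nm N0 T) K) (n : ℕ) where
  o : K → S.Z
  κ : T → K
  Y : T → S.G
  ε : T → S.G
  k1 : T → ℕ
  P : T → ℤ → S.Z
  tfA : TF AA
  ap_o : ∀ κ, S.ap (o κ)
  cls_o : ∀ κ, S.cls (o κ) = κ
  orb : ∀ α, S.ap α → (∃ g : S.G, α = g • o (S.cls α)) ∨ ∃ (τ : T) (g : S.G), α = g • P τ (-n)
  df_mem : ∀ α x x', S.Fl α x → S.Fl α x' → S.df α x x' ∈ S.Lb (o (S.cls α))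
  Y_fix : ∀ τ, Y τ • o (κ τ) = o (κ τ)
  k1_pos : ∀ τ, 1 ≤ k1 τ
  ap_P : ∀ τ h, Val n h → S.ap (P τ h)
  adj : ∀ τ h, Val n h → S.d (o (κ τ)) (P τ h) = 1
  nmE : ∀ τ h, Val n h → S.nm (o (κ τ)) (P τ h) = .inr (τ, true, h)
  nmF : ∀ τ h, Val n h → S.nm (P τ h) (o (κ τ)) = .inr (τ, false, h)
  nm_rng : ∀ α x τ b h, S.Fl α x → S.nm α x = .inr (τ, b, h) → Val n h ∨ h = -1
  P_succ : ∀ τ h, Val n h → Val n (h + 1) →
    P τ (h + 1) = cs (Y τ) (ε τ) (idx n (k1 τ) h) • o (κ τ)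
  dfE : ∀ τ h h', Val n h → Val n h' → S.df (o (κ τ)) (P τ h) (P τ h') =
    S.lab (o (κ τ)) (Y τ) ^ ((idx n (k1 τ) h' : ℤ) - idx n (k1 τ) h)
  dfF : ∀ τ h, Val n h → Val n (h + 1) → S.df (o (κ τ)) (P τ (h + 1))
    ((cs (Y τ) (ε τ) (idx n (k1 τ) h))⁻¹ • o (κ τ)) = 1
  cls_last : ∀ τ, S.cls (P τ (-n)) = κ τ
  fix_last : ∀ τ, ε τ • P τ (-n) = P τ (-n)
  lab_last : ∀ τ, S.lab (P τ (-n)) (ε τ) = S.lab (o (κ τ)) (Y τ)
  nb_last : ∀ τ x, S.d (P τ (-n)) x = 1 → ∃ i : ℤ, x = ε τ ^ i • o (κ τ)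
  lf : ∀ τ h, Val n h → LF (o (κ τ)) (cs (Y τ) (ε τ) (idx n (k1 τ) h)) (h.natAbs - 1)

/-- The embedding of the base stage in the final stage. -/
structure BaseEmb {S J : St AA (Nm N0 (I × Bool)) K} {n : ℕ} (B : Base S n) (F : Fs J n)
    (m : ℕ) where
  φ : S.G →* J.G
  ι : S.Z → J.Z
  φ_inj : Function.Injective φ
  ι_smul : ∀ (g : S.G) x, ι (g • x) = φ g • ι x
  d_ι : ∀ x x', J.d (ι x) (ι x') = S.d x x'
  ap_ι : ∀ x, J.ap (ι x) ↔ S.ap x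
  k1_eq : F.k1 = B.k1
  tr : ∀ y c, Tr m (yy B.y) (cc B.y B.s) y c → Tr m F.Y F.ε (φ y) (φ c)

end Base

end Pool.Agent.Lib.MP_429c3d_al.Ng
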