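import Pool.Agent.Lib.MP_429c3d_al.NgW2

set_option autoImplicit false
set_option linter.unusedSectionVars false

/-! The metric invariants of the union of a space with graphs along trees. -/

namespace Pool.Agent.Lib.MP_429c3d_al.Ng

open Hyp Sum

variable {V I : Type} {dY : V → V → ℕ} {Z : I → V → Prop} {tr leg : I → V → V → Prop}
  {dT : I → V → V → ℕ} {dS : V → V → ℕ} {dB : V ⊕ I → V ⊕ I → ℕ} {k α D kB kT : ℕ}
  {G : Type} [Group G] [MulAction G V] [MulAction G I] {cT : ℕ} {fT PT : ℕ → ℕ}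

/-- The bound for fibre distances in `TW.ta_short`. -/
def thA (k α D kB cT s : ℕ) : ℕ := (detW k α D kB + 1) * (3 * s + 2) + detW k α D kB + cT

/-- The bound for fibre distances in `TW.aiS`. -/
def thU (k α D kB f L : ℕ) : ℕ := (detW k α D kB + 1) * (7 * (3 * L) + 12) + f

namespace TW

variable (S : TW dY Z tr leg dT dS dB k α D kB kT)
include S

theorem upperS {Θ : ℕ} {x y : V} (h : ∀ i p p' (hp : Z i p) (hp' : Z i p'),
    Prj (gd (adjW dY leg)) dB barW (inr i) (inl x) (inr ⟨(i, p), hp⟩) →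
    Prj (gd (adjW dY leg)) dB barW (inr i) (inl y) (inr ⟨(i, p'), hp'⟩) → dT i p p' ≤ Θ) :
    dS x y ≤ (dB (inl x) (inl y) + 1) * (Θ + 1) := by
  refine (S.kap_le (inl x) (inl y)).trans (S.blow.upper (y := inl x) (y' := inl y) ?_)
  rintro (v | i) ⟨p, p', h1, h2, h3⟩
  · rw [bar_inl h1.1] at h3
    exact absurd h3 (by simp [dFW, barW])
  · obtain ⟨q, hq, rfl⟩ := bar_inr h1.1
    obtain ⟨q', hq', rfl⟩ := bar_inr h2.1
    exact absurd (h i q q' hq hq' h1 h2) (not_le.2 h3)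

/-- The detour property of the union. -/
theorem detS {N : Type} (nm : V → V → N) (dn : N → N → ℕ) (ht : N → ℕ) (ap : V → Prop) (l0 : ℕ)
    (h0 : ∀ a, dn a a = 0) (hs : ∀ a b, dn a b = dn b a) (h1 : ∀ a b, dn a b ≤ ht a + ht b)
    (h2 : ∀ a b, ht a ≤ ht b + dn a b) (h3 : ∀ v b, (∀ i, ¬ leg i v b) → ht (nm v b) = 0)
    (h4 : ∀ i c v, tr i c v → ht (nm v c) ≤ 1)
    (h5 : ∀ i v a b l, leg i v a → leg i v b → AvT Z dT i v l a b → dn (nm v a) (nm v b) ≤ 3 * l) :
    Det dS ap nm dn l0 (12 * (prjC k α D + 1) + 2) := by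
  have key : ∀ v a b l, dS v b ≤ 1 → Avoid dS v l a b →
      dn (nm v a) (nm v b) ≤ 3 * ((l + 1) * (prjC k α D + 1)) ∨
        ht (nm v a) ≤ 1 + 3 * ((l + 1) * (prjC k α D + 1)) := by
    intro v a b l hb h
    by_cases hl : ∀ i, ¬ leg i v a
    · exact Or.inr (by rw [h3 v a hl]; omega)
    push Not at hl
    obtain ⟨i, hi⟩ := hl
    rcases S.det_core (S.leg_Z i _ _ hi).1 (S.leg_Z i _ _ hi).2 hb h with ⟨e1, e2⟩ | ⟨c, e1, e2⟩
    · exact Or.inl (h5 i v a b _ hi e1 e2)
    · have := h5 i v a c _ hi (S.leg_symm (S.tr_leg i _ _ e1)) e2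
      have := h4 i c v e1
      have := h2 (nm v a) (nm v c)
      omega
  intro v a b l _ _ ha hb h
  rcases Nat.eq_zero_or_pos l with rfl | hl
  · obtain ⟨c, rfl, rfl, -⟩ := h
    exact (h0 _).le
  have e1 := key v a b l hb h
  have e2 := key v b a l ha (h.symm S.grS.met)
  have := hs (nm v a) (nm v b)
  have := h1 (nm v a) (nm v b)
  have : (l + 1) * (prjC k α D + 1) ≤ 2 * ((prjC k α D + 1) * l) := by nlinarith
  have : (12 * (prjC k α D + 1) + 2) * l = 12 * ((prjC k α D + 1) * l) + 2 * l := by ring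
  omega

variable (A : TWA G dY Z leg dT cT fT PT)
include A

theorem prj_smul {i : I} {x p : V} {hp : Z i p} {a : G} (ha : a • i = i)
    (h : Prj (gd (adjW dY leg)) dB barW (inr i) (inl x) (inr ⟨(i, p), hp⟩)) :
    ∃ hp' : Z i (a • p),
      Prj (gd (adjW dY leg)) dB barW (inr i) (inl (a • x)) (inr ⟨(i, a • p), hp'⟩) := by
  let := actZ A.Z_smul
  have h1 := (S.bact A).prj a h
  have h2 : Z i (a • p) := by simpa [ha] using A.Z_smul a i p hp
  rw [show a • (inr i : V ⊕ I) = inr i from congrArg inr ha,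
    show a • (inr ⟨(i, p), hp⟩ : V ⊕ ZP Z) = inr ⟨(i, a • p), h2⟩ from
      congrArg inr (Subtype.ext (Prod.ext ha rfl))] at h1
  exact ⟨h2, h1⟩

theorem prj_dis {i : I} {x p : V} {hp : Z i p} {a : G} {s : ℕ} (ha : a • i = i)
    (h : Prj (gd (adjW dY leg)) dB barW (inr i) (inl x) (inr ⟨(i, p), hp⟩))
    (hs : dS x (a • x) ≤ s) : dT i p (a • p) ≤ prW k α D kB s := by
  obtain ⟨_, h1⟩ := S.prj_smul A ha h
  refine (S.blow.prj_lip h h1).trans (Nat.mul_le_mul_left _ ?_)
  have := S.inl_le x (a • x)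
  omega

theorem ta_short {cB s : ℕ} (hB : ∀ (a : G) (v : V) x L, a ≠ 1 → a • v = v → dB x (a • x) ≤ L →
      dB x (inl v) ≤ L + cB) {a : G} {v x : V} (ha : a ≠ 1) (hv : a • v = v)
    (hx : dS x (a • x) ≤ s) : dS x v ≤ (3 * s + cB + 1) * (thA k α D kB cT s + 1) := by
  have e0 : dB (inl x) (inl v) ≤ 3 * s + cB :=
    hB a v (inl x) _ ha hv ((S.B_le x (a • x)).trans (by omega))
  refine (S.upperS fun i p p' hp hp' h1 h2 => ?_).trans (Nat.mul_le_mul_right _ (by omega))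
  by_contra hc
  unfold thA at hc
  let := actZ A.Z_smul
  have e1 := S.inl_le x (a • x)
  have hi : a • i = i := inr.inj (S.blow.TAP (S.bact A) (g := a) (s := 3 * s) (y := inl x)
    (y' := inl v) (v := inr i) (e1.trans (by omega)) (congrArg inl hv)
    ⟨_, _, h1, h2, by show _ ≤ dT i p p'; omega⟩)
  have e2 : ∀ b : G, b • i = i → b • v = v → dT i p' (b • p') ≤ detW k α D kB := fun b b1 b2 => by
    obtain ⟨_, h3⟩ := S.prj_smul A b1 h2
    rw [b2] at h3
    exact S.blow.prj_uniq h2 h3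
  have hZ : Z i v := by
    by_contra hn
    have := A.pwT (detW k α D kB + 1) a i hi
      (fun w hw e => hn (by_contra fun _ => ha (A.two a v w hv e fun e' => hn (e' ▸ hw))))
      _ p' le_rfl hp'
    have := e2 (a ^ PT (detW k α D kB + 1)) (MulAction.fixedBy_subset_fixedBy_zpow _ a (PT _) hi |>
      fun h => by simpa using h) (MulAction.fixedBy_subset_fixedBy_zpow _ a (PT _) hv |>
      fun h => by simpa using h)
    omega
  have e3 := A.taT a i v p ha hi hv hZ hp
  have e4 := A.taT a i v p' ha hi hv hZ hp'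
  have e5 := S.prj_dis A hi h1 hx
  have e6 := e2 a hi hv
  have e7 := (S.grT i).met.tri ⟨p, hp⟩ ⟨v, hZ⟩ ⟨p', hp'⟩
  have e8 := S.Tsymm hZ hp'
  unfold prW at e5
  have : (detW k α D kB + 1) * (3 * s + 2) = (detW k α D kB + 1) * (3 * s + 1) +
    (detW k α D kB + 1) := by ring
  simp only at e7
  omega

theorem aiS {L fB : ℕ} (hB : AI G dB (3 * L) fB) :
    AI G dS L ((fB + 1) * (thU k α D kB (fT (prW k α D kB L)) L + 1)) := by
  intro a b x x' hab h1 h2 h3 h4
  have e : ∀ {g : G} {y : V}, dS y (g • y) ≤ L → dB (inl y) (g • inl y) ≤ 3 * L :=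
    fun {g y} h => (S.B_le y (g • y)).trans (by omega)
  have e0 := hB a b (inl x) (inl x') hab (e h1) (e h2) (e h3) (e h4)
  refine (S.upperS fun i p p' hp hp' p1 p2 => ?_).trans (Nat.mul_le_mul_right _ (by omega))
  by_contra hc
  unfold thU at hc
  let := actZ A.Z_smul
  have hi : ∀ g : G, dS x (g • x) ≤ L → dS x' (g • x') ≤ L → g • i = i := fun g g1 g2 =>
    inr.inj (S.blow.TP (S.bact A) (g := g) (s := 3 * L) (y := inl x) (y' := inl x') (v := inr i)
      ((S.inl_le x (g • x)).trans (by omega)) ((S.inl_le x' (g • x')).trans (by omega))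
      ⟨_, _, p1, p2, by show _ ≤ dT i p p'; omega⟩)
  have ia := hi a h1 h3
  have ib := hi b h2 h4
  have := A.aiT _ a b i p p' ia ib hab hp hp' (S.prj_dis A ia p1 h1) (S.prj_dis A ib p1 h2)
    (S.prj_dis A ia p2 h3) (S.prj_dis A ib p2 h4)
  omega

theorem pwS {L PB : ℕ} (hB : ∀ a : G, (∀ b : V ⊕ I, a • b ≠ b) → ∀ j, PB ≤ j → ∀ x : V ⊕ I,
      3 * L < dB x (a ^ j • x)) : PW G dS (PB + PT (prW k α D kB L + 1)) L := by
  intro a ha j hj x
  by_contra hc
  by_cases h : ∃ i : I, a • i = i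
  · obtain ⟨i, hi⟩ := h
    obtain ⟨p, hp, h1⟩ := S.exists_proj A i x
    have := h1 (a ^ j) L (MulAction.fixedBy_subset_fixedBy_zpow _ a j hi |>
      fun h => by simpa using h) (by omega)
    have := A.pwT (prW k α D kB L + 1) a i hi (fun v _ => ha v) j p (by omega) hp
    omega
  · have := hB a (by
      rintro (v | i) e
      exacts [ha v (inl.inj e), h ⟨i, inr.inj e⟩]) j (by omega) (inl x)
    have := S.B_le x (a ^ j • x)
    change _ < dB (inl x) (inl (a ^ j • x)) at *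
    omega

theorem bigS {i : I} {y c : G} {s : ℕ} (hy : y • i = i) (hc : c • i = i)
    (h : ∀ v, Z i v → prW k α D kB s + 1 ≤ dT i v (y • v) ∨ prW k α D kB s + 1 ≤ dT i v (c • v)) :
    Big dS s y c := by
  intro x
  obtain ⟨p, hp, h1⟩ := S.exists_proj A i x
  by_contra hn
  push Not at hn
  have := h1 y s hy hn.1.le
  have := h1 c s hc hn.2.le
  have := h p hp
  omega

end TW

end Pool.Agent.Lib.MP_429c3d_al.Ng
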