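import Pool.Agent.Lib.MP_429c3d_al.NxPat

set_option autoImplicit false
set_option linter.unusedSectionVars false

/-! No non trivial element is short along an edge. -/

namespace Pool.Agent.Lib.MP_429c3d_al.Ng

open Hyp

variable {G X : Type} [Group G] [MulAction G X] {d : X → X → ℕ} {k A K U e D : ℕ}
  {γ : ℤ → X} {a b : ℤ} {y c : G} {x x' : X} {Y : ℕ → G} {p : ℕ → ℤ} {n0 n1 : ℕ}

/-- For `n = m + 1, m + 2` and `w = Y n ^ sgn n`: `η` and `w η w⁻¹` are `B + 2 e` short at
`γ (p n)` and at `γ (2 p n - p (n - 1))` (`Pat.flip1`, `conj_short`), so they commute (`ai_sc`),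
so `w` commutes with `η` (`csa`); by `ct` and `sgn_cases` this contradicts `P.nc`. -/
theorem XS.sa_pat (S : XS G d k A) (hγ : GZ d γ a b) (P : Pat d γ e D y Y p n0 n1) {η : G}
    (hη : η ≠ 1) {B m : ℕ} (h0 : n0 ≤ m) (h1 : m + 3 ≤ n1) (h2 : a ≤ p m) (h3 : p (m + 3) + e ≤ b)
    (hs : ∀ i, p m ≤ i → i ≤ p (m + 3) + e → d (γ i) (η • γ i) ≤ B)
    (hD : A + 8 * (B + 2 * e) + e < D) : False := by
  have he : e ≤ D := by omega
  have key : ∀ n, m ≤ n → n + 2 ≤ m + 3 → Commute (Y (n + 1)) η := by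
    intro n a1 a2
    obtain ⟨r, -, r2⟩ := P.flip1 (m := n) (by omega) (by omega)
    have g1 := (P.gap n (by omega) (by omega)).1
    have l1 := P.le he h0 a1 (by omega)
    have l2 := P.le he (m := n + 2) (n := m + 3) (by omega) a2 h1
    have l3 := P.le he (m := n + 1) (n := n + 2) (by omega) (by omega) (by omega)
    have r3 := r (p n) le_rfl (by omega)
    have r4 := r (p (n + 1)) (by omega) le_rfl
    rw [show 2 * p (n + 1) - p (n + 1) = p (n + 1) by ring] at r4
    have s1 := hs (p n) l1 (by omega)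
    have s2 := hs (p (n + 1)) (by omega) (by omega)
    have s3 := hs (2 * p (n + 1) - p n) (by omega) (by omega)
    have c1 := S.conj_short (a := Y (n + 1) ^ sgn (n + 1)) (η := η) (x := γ (p n))
      (y := γ (2 * p (n + 1) - p n))
    have c2 := S.conj_short (a := Y (n + 1) ^ sgn (n + 1)) (η := η) (x := γ (p (n + 1)))
      (y := γ (p (n + 1)))
    have c : Commute (Y (n + 1) ^ sgn (n + 1) * η * (Y (n + 1) ^ sgn (n + 1))⁻¹) η := by
      by_contra hn
      have e1 := S.ai_sc (B := B + 2 * e) (x := γ (p (n + 1))) (x' := γ (2 * p (n + 1) - p n)) hn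
        (by omega) (by omega) (by omega) (by omega)
      have e2 := hγ.le (i := p (n + 1)) (j := 2 * p (n + 1) - p n) (by omega) (by omega) (by omega)
      omega
    have c' := S.csa η _ hη c
    rcases sgn_cases (n + 1) with h | h <;> rw [h] at c'
    · simpa using c'
    · simpa using c'.inv_left
  exact P.nc (m + 1) (S.ct _ η _ hη (key m le_rfl (by omega)) (key (m + 1) (by omega) le_rfl).symm)

/-- `η` is `B + U` short between the two points (`conv`).  Put `θ = 8 B + 860 U`.  If the edge is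
shorter than `θ` the bound is trivial (`t - s ≤ length + 2 U`).  Otherwise use `exists_lev`,
`pat_edge`, `Pat.first`, `Pat.span` and `sa_pat`. -/
theorem XS.aper_edge (S : XS G d k A) (hγ : GZ d γ a b) (F : Fine d k A K U y c x x') {L : ℕ}
    {E : G × Bool} {s t : ℤ} (hE : Along d γ U x (lx y c x x' L) E s t) (h1 : a ≤ s) (h3 : t ≤ b) :
    Aper G d γ (50 * U) s t := by
  intro η B i j hη a1 a2 a3 a4 a5
  by_contra hc
  obtain ⟨g, o⟩ := E
  have kp := S.pos
  have hk := F.hk
  have hA := F.hA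
  have sh : ∀ l, i ≤ l → l ≤ j → d (γ l) (η • γ l) ≤ B + U := by
    intro l b1 b2
    have e1 := hγ.le (i := i) (j := l) (by omega) b1 (by omega)
    have e2 := hγ.le (i := l) (j := j) (by omega) b2 (by omega)
    have e3 := hγ.le (i := i) (j := j) (by omega) a2 (by omega)
    have := S.conv η (p := γ i) (w := γ l) (q := γ j) (by omega) a4 a5
    omega
  have len : t ≤ s + d x (lx y c x x' L) + 2 * U := by
    have e1 := S.edge_len (x := x) (x' := lx y c x x' L) (g, o)
    have e2 := hE.tail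
    have e3 := hE.head
    have e4 := hγ.le h1 hE.le h3
    have t1 := S.tri (γ s) (tl x (lx y c x x' L) (g, o)) (γ t)
    have t2 := S.tri (tl x (lx y c x x' L) (g, o)) (hd x (lx y c x x' L) (g, o)) (γ t)
    have := S.symm (γ s) (tl x (lx y c x x' L) (g, o))
    omega
  obtain ⟨j0, i0, rfl, b1, b2⟩ := S.exists_lev F (θ := 8 * B + 860 * U) (L := L) (by omega)
    (by omega)
  obtain ⟨p, P, q1, q2, q3⟩ := S.pat_edge hγ F hE h1 h3 (by omega)
  generalize d x (lx y c x x' j0) = D at *
  have n01 : n0o o i0 ≤ n0o o i0 + 2 ^ i0 := Nat.le_add_right _ _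
  generalize n0o o i0 + 2 ^ i0 = n1 at *
  generalize n0o o i0 = n0 at *
  obtain ⟨m, m1, m2, m3, m4⟩ := P.first n01 (μ := i) (by omega)
  have m5 : p m ≤ i + D + 50 * U := by
    rcases m4 with rfl | m4
    · omega
    · omega
  have m6 : m + 3 ≤ n1 := by
    by_contra hn
    obtain ⟨r, rfl⟩ := Nat.exists_eq_add_of_le m2
    have := (P.span m1 r le_rfl).2
    have : r = 0 ∨ r = 1 ∨ r = 2 := by omega
    rcases this with rfl | rfl | rfl <;> push_cast at * <;> omega
  have m7 := (P.span m1 3 m6).2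
  push_cast at m7
  exact S.sa_pat hγ P hη (B := B + U) m1 m6 (by omega) (by omega)
    (fun l c1 c2 => sh l (by omega) (by omega)) (by omega)

end Pool.Agent.Lib.MP_429c3d_al.Ng
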