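import Pool.Agent.Lib.MP_429c3d_al.NxRig
import Pool.Agent.Lib.MP_429c3d_al.NxSA

set_option autoImplicit false
set_option linter.unusedSectionVars false

/-! Two edges with a long common part are equal. -/

namespace Pool.Agent.Lib.MP_429c3d_al.Ng

open Hyp

variable {G X : Type} [Group G] [MulAction G X] {d : X → X → ℕ} {k A K K' U : ℕ}
  {γ : ℤ → X} {a b : ℤ} {y c y' c' : G} {x x' z z' : X}

/-- The length of an edge is at least `t - s - 2 U` (`edge_len`).  `exists_lev` with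
`θ = 150000 U` for the first edge (level `j0`, `L = j0 + i0`) and `θ = 5000000 U` for the second;
`pat_edge` for both, `aper_edge` and `Aper.mono` for the first.  Let `m` be the first hub of the
second pattern after `w + 4 U` (`Pat.first`), `n = 8 (m / 8) + 8`; by `Pat.span` the hubs up to
`n + 16 ≤ m + 24` exist and lie before `t - 5 U - e`.  `rig` gives `N0, r` with `4 * 2 ^ r ∣ N0`; take
`j = j0 + r`, `i = i0 - r`, `N = N0 / 2 ^ r` and the hub `n + 8`; use `Ys_even`, `Ys_block` (also with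
exponent `0` for the second pattern), `cs_add`, `Hs_lev`. -/
theorem XS.core (S : XS G d k A) (hγ : GZ d γ a b) (F : Fine d k A K U y c x x')
    (F' : Fine d k A K' U y' c' z z') {L L' : ℕ} {g g' : G} {o o' : Bool} {s t s' t' w : ℤ}
    (E : Along d γ U x (lx y c x x' L) (g, o) s t) (E' : Along d γ U z (lx y' c' z z' L') (g', o') s' t')
    (h1 : a ≤ s) (h2 : t ≤ b) (h3 : a ≤ s') (h4 : t' ≤ b) (h5 : s ≤ w) (h6 : s' ≤ w)
    (h7 : w + 300000000 * U ≤ t) (h8 : w + 300000000 * U ≤ t') :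
    ∃ j i j' i' N n, L = j + i ∧ L' = j' + i' ∧ N % 2 = 0 ∧ n % 2 = 0 ∧ n0o o i ≤ N ∧
      N < n0o o i + 2 ^ i ∧ n0o o' i' ≤ n ∧ n < n0o o' i' + 2 ^ i' ∧
      100000 * U ≤ d z (lx y' c' z z' j') ∧ ∀ φ φ', φ = G0o y c g o L * Hs y (cs y c j) N →
        φ' = G0o y' c' g' o' L' * Hs y' (cs y' c' j') n →
        φ * y * φ⁻¹ = φ' * y' * φ'⁻¹ ∧ φ * cs y c j * φ⁻¹ = φ' * cs y' c' j' * φ'⁻¹ := by
  have kp := S.pos
  have hk := F.hk
  have len : ∀ (u u' : X) (E : G × Bool) (s t : ℤ), Along d γ U u u' E s t → a ≤ s → t ≤ b →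
      t ≤ s + d u u' + 2 * U := by
    intro u u' E s t hE h1 h3
    have e1 := S.edge_len (x := u) (x' := u') E
    have e2 := hE.tail
    have e3 := hE.head
    have e4 := hγ.le h1 hE.le h3
    have t1 := S.tri (γ s) (tl u u' E) (γ t)
    have t2 := S.tri (tl u u' E) (hd u u' E) (γ t)
    have := S.symm (γ s) (tl u u' E)
    omega
  have l1 := len _ _ _ _ _ E h1 h2
  have l2 := len _ _ _ _ _ E' h3 h4
  have ap := S.aper_edge hγ F E h1 h2
  obtain ⟨j0, i0, rfl, b1, b2⟩ := S.exists_lev F (θ := 150000 * U) (L := L) (by omega) (by omega)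
  obtain ⟨j', i', rfl, b3, b4⟩ := S.exists_lev F' (θ := 5000000 * U) (L := L') (by omega) (by omega)
  obtain ⟨p, P, q1, q2, q3⟩ := S.pat_edge hγ F E h1 h2 (by omega)
  obtain ⟨p', P', q4, q5, q6⟩ := S.pat_edge hγ F' E' h3 h4 (by omega)
  have u1 := q1 _ le_rfl (Nat.le_add_right _ _)
  have u2 := q1 _ (Nat.le_add_right _ _) le_rfl
  replace u1 := u1.1
  replace u2 := u2.2.1
  clear q1 q4 len l1 l2
  obtain ⟨m, m1, m2, m3, m4⟩ := P'.first (Nat.le_add_right _ _) (μ := w + 4 * U) (by omega)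
  generalize hD : d x (lx y c x x' j0) = D at *
  generalize hD' : d z (lx y' c' z z' j') = D' at *
  have m5 : p' m ≤ w + 4 * U + D' + 50 * U := by
    rcases m4 with rfl | m4
    · omega
    · omega
  have m6 : m + 24 ≤ n0o o' i' + 2 ^ i' := by
    by_contra hn
    obtain ⟨r, hr⟩ := Nat.exists_eq_add_of_le m2
    have e1 := (P'.span m1 r hr.ge).2
    have e2 : r * D' ≤ 23 * D' := Nat.mul_le_mul_right _ (by omega)
    have e3 : r * (50 * U) ≤ 23 * (50 * U) := Nat.mul_le_mul_right _ (by omega)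
    rw [← hr, ← Nat.cast_mul, ← Nat.cast_mul] at e1
    omega
  have m7 := (P'.span m1 24 m6).2
  have m8 := P'.le (by omega) m1 (n := 8 * (m / 8) + 8) (by omega) (by omega)
  have m9 := P'.le (by omega) (m := 8 * (m / 8) + 8 + 16) (n := m + 24) (by omega) (by omega) m6
  push_cast at m7
  obtain ⟨N0, r, ⟨q, rfl⟩, r2, r3, r4, r5⟩ := S.rig S.tf S.csa S.ct hγ P F.br.ny (ap.mono u1 u2)
    (Nat.le_add_right _ _) (by omega) (by omega) (by omega) (by omega) P' (by omega)
    (n := 8 * (m / 8) + 8) (by omega) (by omega) (by omega) (by omega) (by omega)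
  have r6 : r < i0 := by
    rw [← Nat.pow_lt_pow_iff_right (a := 2) (by omega)]
    omega
  obtain ⟨i, rfl⟩ := Nat.exists_eq_add_of_le r6.le
  have r7 : n0o o (r + i) = 2 ^ r * n0o o i := by cases o <;> simp [n0o, pow_add]
  have r8 : 4 * 2 ^ r * q = 2 ^ r * (4 * q) := by ring
  have r9 := Nat.two_pow_pos r
  refine ⟨j0 + r, i, j', i', 4 * q, 8 * (m / 8) + 8 + 8, (Nat.add_assoc _ _ _).symm, rfl, by omega,
    by omega, ?_, ?_, by omega, by omega, by omega, ?_⟩
  · rw [r7, r8] at r2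
    exact (Nat.lt_of_mul_lt_mul_left r2).le
  · rw [r7, r8, pow_add, ← Nat.mul_add] at r3
    exact Nat.lt_of_mul_lt_mul_left (a := 2 ^ r) (by omega)
  · rintro φ φ' rfl rfl
    rw [← cs_add, Hs_lev r _ (by omega), ← r8]
    rw [Ys_even (by omega), Ys_even (by rw [Nat.mul_assoc]; omega)] at r4
    rw [Ys_block r _ ⟨q, rfl⟩] at r5
    have r10 := Ys_block (y := y') (c := cs y' c' j') 0 (8 * (m / 8) + 8 + 8) (by omega)
    rw [show 8 * (m / 8) + 8 + 9 = 8 * (m / 8) + 8 + 8 + 2 ^ 0 by omega, r10] at r5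
    simp only [mul_inv_rev, mul_assoc] at r4 r5 ⊢
    exact ⟨r4.symm, r5.symm⟩

theorem up_ht (S : Sp G d k) {C : G} (h0 : d x (y • x) ≤ K) (h1 : d z (C • z) ≤ K) (g : G)
    (m : ℕ) : d (hd x z (g * Hs y C m, par m)) (tl x z (g * Hs y C (m + 1), par (m + 1))) ≤ K := by
  have key : ∀ (f : G) (w : X) (ε : ℤ), d w (f • w) ≤ K → ε = 1 ∨ ε = -1 → ∀ h : G,
      d ((g * h) • w) ((g * (h * f ^ ε)) • w) ≤ K := by
    intro f w ε hw hε h
    rw [← mul_assoc, mul_smul (g * h), S.inv]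
    rcases hε with rfl | rfl
    · rwa [zpow_one]
    · rwa [zpow_neg_one, S.dis_inv]
  have e : Hs y C (m + 1) = Hs y C m * cond (par (m + 1)) C y ^ sgn (m + 1) := rfl
  rw [e, par_succ]
  cases par m
  · exact key C z _ h1 (sgn_cases _) _
  · exact key y x _ h0 (sgn_cases _) _

/-- Edges at close positions are equal. -/
theorem up_eq (S : Sp G d k) (hγ : GZ d γ a b) {s t : ℤ} (ap : Aper G d γ (50 * U) s t)
    (hU : 1 ≤ U) {h h' : G} {o : Bool} {p0 p1 q0 q1 : ℤ} (b0 : s ≤ p0) (b1 : p1 ≤ t)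
    (b2 : p0 + 50000 * U ≤ p1) (c0 : d (tl x z (h, o)) (γ p0) ≤ 4 * U)
    (c1 : d (hd x z (h, o)) (γ p1) ≤ 4 * U) (c2 : d (tl x z (h', o)) (γ q0) ≤ 4 * U)
    (c3 : d (hd x z (h', o)) (γ q1) ≤ 4 * U) (e0 : p0 ≤ q0 + 108 * U) (e1 : q0 ≤ p0 + 108 * U)
    (e2 : p1 ≤ q1 + 108 * U) (e3 : q1 ≤ p1 + 108 * U) : h = h' := by
  by_contra hn
  have key : ∀ (w : X) (p q : ℤ), d (h • w) (γ p) ≤ 4 * U → d (h' • w) (γ q) ≤ 4 * U →
      p ≤ q + 108 * U → q ≤ p + 108 * U → d (γ p) ((h' * h⁻¹) • γ p) ≤ 116 * U := by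
    intro w p q f1 f2 f3 f4
    have t0 := hγ.lip' p q (108 * U) (by push_cast; omega) (by push_cast; omega)
    have t1 := S.tri (γ p) (γ q) ((h' * h⁻¹) • γ p)
    have t2 := S.tri (γ q) (h' • w) ((h' * h⁻¹) • γ p)
    have t3 := S.symm (γ q) (h' • w)
    have t4 : d (h' • w) ((h' * h⁻¹) • γ p) = d (h • w) (γ p) := by
      rw [mul_smul, S.inv, S.inv_r]
    omega
  have := ap (h' * h⁻¹) (116 * U) p0 p1 (fun e => hn (mul_inv_eq_one.1 e).symm) b0 (by omega) b1
    (key _ _ _ c0 c2 e0 e1) (key _ _ _ c1 c3 e2 e3)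
  push_cast at this
  omega

/-- `pat_edge` for both edges, `aper_edge` for the first.  Forward: by induction on `r`, as long as
`N + r`, `n + r` are below the end indices, the elements `G0 * Hs (N + r)` and `G0' * Hs (n + r)` agree
and the signs agree.  Step: let `h` be the common element and `a` the next letter; if the signs
differ then `η = h a ^ (± 2) h⁻¹ ≠ 1` maps the next edge of one pattern to the next edge of the other;
both tails are within `K` of the head of the common edge, so the positions of the next hubs differ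
by at most `8 U` and `108 U`; so `η` is `124 U` short at two consecutive hubs, contradiction with
`Aper`.  Backward in the same way.  Then `sgn_up` gives `N = n` and equal first indices. -/
theorem XS.up (S : XS G d k A) (hγ : GZ d γ a b) (F : Fine d k A K U y c x x') {j i N n : ℕ}
    {g g' : G} {o o' : Bool} {s t s' t' : ℤ} (E : Along d γ U x (lx y c x x' (j + i)) (g, o) s t)
    (E' : Along d γ U x (lx y c x x' (j + i)) (g', o') s' t') (h1 : a ≤ s) (h2 : t ≤ b)
    (h3 : a ≤ s') (h4 : t' ≤ b) (hp : N % 2 = n % 2) (a1 : n0o o i ≤ N) (a2 : N < n0o o i + 2 ^ i)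
    (a3 : n0o o' i ≤ n) (a4 : n < n0o o' i + 2 ^ i) (hD : 100000 * U ≤ d x (lx y c x x' j))
    (e : G0o y c g o (j + i) * Hs y (cs y c j) N = G0o y c g' o' (j + i) * Hs y (cs y c j) n) :
    g = g' ∧ o = o' := by
  have kp := S.pos
  have hk := F.hk
  have hK := F.hK
  obtain ⟨p, P, hP, -, -⟩ := S.toSp.pat_edge hγ F E h1 h2 (by omega)
  obtain ⟨q, Q, hQ, -, -⟩ := S.toSp.pat_edge hγ F E' h3 h4 (by omega)
  have ap := S.aper_edge hγ F E h1 h2
  have B := S.toSp.br_lev F.br (by omega) j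
  have ht := up_ht S.toSp B.g0.sh B.g1.sh
  have gp := P.gap
  have gq := Q.gap
  have fin : N = n → o = o' → g = g' := by
    rintro rfl rfl
    have e1 := mul_right_cancel e
    cases o
    · exact e1
    · exact mul_right_cancel e1
  clear P Q
  generalize G0o y c g o (j + i) = f at *
  generalize G0o y c g' o' (j + i) = f' at *
  generalize lx y c x x' j = w at *
  generalize cs y c j = C at *
  have hh : ∀ m, n0o o i ≤ m → m < n0o o i + 2 ^ i →
      d (hd x w (f * Hs y C m, par m)) (γ (p (m + 1))) ≤ 4 * U := by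
    intro m m1 m2
    have t1 := ht f m
    have t2 := (hP (m + 1) (by omega) (by omega)).2.2
    have t3 := S.tri (hd x w (f * Hs y C m, par m)) (tl x w (f * Hs y C (m + 1), par (m + 1)))
      (γ (p (m + 1)))
    omega
  have hh' : ∀ m, n0o o' i ≤ m → m < n0o o' i + 2 ^ i →
      d (hd x w (f' * Hs y C m, par m)) (γ (q (m + 1))) ≤ 4 * U := by
    intro m m1 m2
    have t1 := ht f' m
    have t2 := (hQ (m + 1) (by omega) (by omega)).2.2
    have t3 := S.tri (hd x w (f' * Hs y C m, par m)) (tl x w (f' * Hs y C (m + 1), par (m + 1)))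
      (γ (q (m + 1)))
    omega
  have pe : ∀ u v : ℕ, u % 2 = v % 2 → par u = par v := fun u v h => by unfold par; rw [h]
  have cl : ∀ (v : X) (u u' : ℕ), n0o o i ≤ u → u ≤ n0o o i + 2 ^ i → n0o o' i ≤ u' →
      u' ≤ n0o o' i + 2 ^ i → d v (γ (p u)) ≤ 4 * U → d v (γ (q u')) ≤ 4 * U →
      p u ≤ q u' + 8 * U ∧ q u' ≤ p u + 8 * U := by
    intro v u u' u1 u2 u3 u4 u5 u6
    obtain ⟨t1, t2, -⟩ := hP u u1 u2
    obtain ⟨t3, t4, -⟩ := hQ u' u3 u4
    have t5 := hγ.ge (i := p u) (j := q u') (by omega) (by omega) (by omega) (by omega)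
    have t6 := S.tri (γ (p u)) v (γ (q u'))
    have t7 := S.symm (γ (p u)) v
    omega
  have eq : ∀ u v, u % 2 = v % 2 → n0o o i ≤ u → u < n0o o i + 2 ^ i → n0o o' i ≤ v →
      v < n0o o' i + 2 ^ i → (p u ≤ q v + 8 * U ∧ q v ≤ p u + 8 * U) ∨
        (p (u + 1) ≤ q (v + 1) + 8 * U ∧ q (v + 1) ≤ p (u + 1) + 8 * U) →
      f * Hs y C u = f' * Hs y C v := by
    intro u v uv u1 u2 u3 u4 hc
    obtain ⟨t1, -, t2⟩ := hP u u1 u2.le
    obtain ⟨-, t3, -⟩ := hP (u + 1) (by omega) u2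
    obtain ⟨-, -, t4⟩ := hQ v u3 u4.le
    have t5 := hh u u1 u2
    have t6 := hh' v u3 u4
    have t7 := gp u u1 u2
    have t8 := gq v u3 u4
    rw [← pe u v uv] at t4 t6
    push_cast at t7 t8
    refine up_eq S.toSp hγ ap (by omega) t1 t3 ?_ (t2.trans (by omega)) t5 (t4.trans (by omega)) t6
      ?_ ?_ ?_ ?_ <;> clear t2 t4 t5 t6 <;> omega
  have fw : ∀ r, N + r < n0o o i + 2 ^ i → n + r < n0o o' i + 2 ^ i →
      f * Hs y C (N + r) = f' * Hs y C (n + r) := by
    intro r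
    induction r with
    | zero => exact fun _ _ => e
    | succ r ih =>
      intro r1 r2
      have t1 := hh (N + r) (by omega) (by omega)
      have t2 := hh' (n + r) (by omega) (by omega)
      rw [← ih (by omega) (by omega), ← pe (N + r) (n + r) (by omega)] at t2
      exact eq (N + r + 1) (n + r + 1) (by omega) (by omega) r1 (by omega) r2
        (Or.inl (cl _ _ _ (by omega) (by omega) (by omega) (by omega) t1 t2))
  have bw : ∀ r u v, u + r = N → v + r = n → n0o o i ≤ u → n0o o' i ≤ v →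
      f * Hs y C u = f' * Hs y C v := by
    intro r
    induction r with
    | zero =>
      rintro u v rfl rfl - -
      exact e
    | succ r ih =>
      intro u v r1 r2 r3 r4
      have t1 := (hP (u + 1) (by omega) (by omega)).2.2
      have t2 := (hQ (v + 1) (by omega) (by omega)).2.2
      rw [← ih (u + 1) (v + 1) (by omega) (by omega) (by omega) (by omega),
        ← pe (u + 1) (v + 1) (by omega)] at t2
      exact eq u v (by omega) r3 (by omega) r4 (by omega)
        (Or.inr (cl _ _ _ (by omega) (by omega) (by omega) (by omega) (t1.trans (by omega))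
          (t2.trans (by omega))))
  have all : ∀ u v, u + n = v + N → n0o o i ≤ u → u < n0o o i + 2 ^ i → n0o o' i ≤ v →
      v < n0o o' i + 2 ^ i → f * Hs y C u = f' * Hs y C v := by
    intro u v uv u1 u2 u3 u4
    rcases le_total N u with h | h
    · obtain ⟨r, rfl⟩ := Nat.exists_eq_add_of_le h
      obtain rfl : v = n + r := by omega
      exact fw r u2 u4
    · exact bw (N - u) u v (by omega) (by omega) u1 u3
  have n0c : ∀ o : Bool, n0o o i = 0 ∨ n0o o i = 2 ^ i := fun o => by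
    cases o
    · exact Or.inl rfl
    · exact Or.inr rfl
  obtain ⟨r1, r2⟩ := sgn_up (n0c o) (n0c o') a1 a2 a3 a4 hp fun u v uv u1 u2 u3 u4 => by
    obtain ⟨u, rfl⟩ : ∃ u', u = u' + 1 := ⟨u - 1, by omega⟩
    obtain ⟨v, rfl⟩ : ∃ v', v = v' + 1 := ⟨v - 1, by omega⟩
    have t1 := all u v (by omega) (by omega) (by omega) (by omega) (by omega)
    have t2 := all (u + 1) (v + 1) uv u1.le u2 u3.le u4
    have t3 : ∀ m, Hs y C (m + 1) = Hs y C m * cond (par (m + 1)) C y ^ sgn (m + 1) := fun _ => rfl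
    rw [t3, t3, ← mul_assoc, ← mul_assoc, t1, ← pe (u + 1) (v + 1) (by omega)] at t2
    have t4 : cond (par (u + 1)) C y ≠ 1 := by
      cases par (u + 1)
      · exact B.ny
      · exact B.nc
    have t5 := S.tf.zpow_eq t4 (i := sgn (u + 1) - sgn (v + 1))
      (by rw [zpow_sub, mul_left_cancel t2, mul_inv_cancel])
    omega
  have oo : o = o' := by
    have := Nat.two_pow_pos i
    cases o <;> cases o' <;> first | rfl | (simp only [n0o, cond_true, cond_false] at r2; omega)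
  exact ⟨fin r1 oo, oo⟩

end Pool.Agent.Lib.MP_429c3d_al.Ng
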