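import Pool.Agent.Lib.MP_429c3d_al.NgXI
import Pool.Agent.Lib.MP_429c3d_al.NxEdge
import Pool.Agent.Lib.MP_429c3d_al.NxGrow

set_option autoImplicit false
set_option linter.unusedSectionVars false

/-! The facts about one level hold. -/

namespace Pool.Agent.Lib.MP_429c3d_al.Ng

open Hyp

section

variable {G X : Type} [Group G] [MulAction G X] {d : X → X → ℕ} {k A K U u : ℕ} {y c : G}
  {x x' : X}

/-- Top edges. -/
def TopP (d : X → X → ℕ) (k A u N0 N1 : ℕ) (y c : G) (k1 : ℕ) (ξ : X) : Prop :=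
  ∃ (j L K : ℕ) (x' : X), k1 = j + L + 1 ∧ IsConj y c ∧ Fine d k A K u y (cs y c j) ξ x' ∧
    N0 * u ≤ d ξ (eta y c ξ k1) ∧ d ξ (eta y c ξ k1) ≤ N1 * u

theorem eta_eq (j L : ℕ) : eta y c x (j + L + 1) = lx y (cs y c j) x x' (L + 1) := by
  rw [lx_succ, cs_add]
  rfl

theorem Fine.mono {U' : ℕ} (F : Fine d k A K U y c x x') (h : U ≤ U') :
    Fine d k A K U' y c x x' :=
  ⟨F.br, F.conj, F.hk.trans h, F.hA.trans h, F.hK.trans h, F.hD.trans h⟩

theorem Big.le {T T' : ℕ} (h : Big d T y c) (hT : T' ≤ T) : Big d T' y c := fun x =>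
  (h x).imp hT.trans hT.trans

theorem Sp.conj_min (S : Sp G d k) (hc : IsConj y c) (x0 : X) :
    ∃ c0, d c0 (c • c0) = d x0 (y • x0) := by
  obtain ⟨s, rfl⟩ := isConj_iff.1 hc
  exact ⟨s • x0, S.dis_conj y s x0⟩

theorem XS.br_of_fa (S : XS G d k A) (hc : IsConj y c) (nc : ¬ Commute y c) (x0 : X)
    (h : Fa d (d x0 (y • x0) + A + 100 * k) (100 * k) y c) :
    ∃ x x', Br d k (d x0 (y • x0) + A + 100 * k) (10 * k) y c x x' ∧
      Fa d (d x0 (y • x0) + A + 100 * k) (d x x') y c := by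
  obtain ⟨c0, h0⟩ := S.conj_min hc x0
  obtain ⟨x, x', B, h1, -⟩ := S.exists_br (y := y) (c := c) (y0 := x0) (c0 := c0)
    (fun e => nc (by rw [e]; exact Commute.one_left c))
    (fun e => nc (by rw [e]; exact Commute.one_right y)) le_rfl (by omega) h
  exact ⟨x, x', B, h1⟩

theorem Sp.lev_big (S : Sp G d k) (B : Br d k K (10 * k) y c x x') {N j : ℕ} (h : N ≤ j) :
    N ≤ d x (lx y c x x' j) := by
  have e1 := S.lev_pow B (by omega) 0 j
  have e2 : j < 2 ^ j := Nat.lt_two_pow_self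
  have e3 := B.len
  have e4 := S.pos
  have e5 : 2 ^ j * 1 ≤ 2 ^ j * d x (lx y c x x' 0) :=
    Nat.mul_le_mul_left _ (by change 1 ≤ d x x'; omega)
  rw [Nat.zero_add] at e1
  omega

theorem XS.flip (S : XS G d k A) (hc : IsConj y c) (nc : ¬ Commute y c)
    (h : Big d (101 * (A + 300 * k)) y c) (N : ℕ) :
    ∃ l ξ, l ≤ N + 20 ∧ Flip d y c ξ l N (50 * k) := by
  obtain ⟨x1⟩ := S.ne
  obtain ⟨x0, hm⟩ := exists_min d y x1
  obtain ⟨j0, h1, h2⟩ := S.grow hm hc nc h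
  obtain ⟨x, x', B, -⟩ := S.br_of_fa (isConj_cs hc j0) (not_comm_cs S.csa nc j0) x0 h2
  have key : ∀ j, j0 + N + 1 ≤ j → ∃ L, N ≤ L ∧ eta y c x j = lx y (cs y c j0) x x' (L + 1) ∧
      cs y c j = cs y (cs y c j0) (L + 1) := by
    intro j hj
    obtain ⟨L, rfl⟩ : ∃ L, j = j0 + L + 1 := ⟨j - j0 - 1, by omega⟩
    exact ⟨L, by omega, eta_eq j0 L, (cs_add y c j0 (L + 1)).symm⟩
  refine ⟨j0 + N + 1, x, by omega, by omega, fun j hj => ?_, fun j hj => ?_,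
    fun j w w' hj w1 w2 => ?_⟩
  · obtain ⟨L, l1, l2, -⟩ := key j hj
    rw [l2]
    exact S.lev_big B (by omega)
  · obtain ⟨L, -, l2, l3⟩ := key j hj
    have := (S.br_dbl (S.br_lev B (by omega) (L + 1)) (by omega)).1
    rw [l2, l3]
    omega
  · obtain ⟨L, -, l2, l3⟩ := key j hj
    obtain ⟨c0, h0⟩ := S.conj_min (isConj_cs hc j) x0
    have e1 := w1 x0
    have e2 := w2 c0
    rw [h0, l3] at e2
    have := S.br_dist (S.br_lev B (by omega) (L + 1)) (by omega) (u := w) (w := w') (by omega)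
      (by omega)
    rw [l2]
    omega

theorem XS.top (S : XS G d k A) (hc : IsConj y c) (nc : ¬ Commute y c) {T k0 : ℕ}
    (hT : 101 * (A + 300 * k) ≤ T) (h1 : ¬ Big d T y c) (h2 : Esc d k0 T y c)
    (hu : T + A + 300 * k ≤ u) (N : ℕ) : ∃ k1 ξ, 1 ≤ k1 ∧ k1 ≤ k0 + 19 + (N + 2) * u ∧
      TopP d k A u N (2 * N + 5) y c k1 ξ := by
  classical
  have kp := S.pos
  obtain ⟨x1, hx1⟩ := not_forall.1 h1
  obtain ⟨x0, hm⟩ := exists_min d y x1
  have m1 := hm x1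
  obtain ⟨j1, a1, a2⟩ := h2
  obtain ⟨j2, a3, a4⟩ := S.grow hm (isConj_cs hc j1) (not_comm_cs S.csa nc j1) (a2.le hT)
  rw [cs_add] at a4
  have ex : ∃ j, Fa d (d x0 (y • x0) + A + 100 * k) (100 * k) y (cs y c j) := ⟨_, a4⟩
  have a5 := Nat.find_min' ex a4
  obtain ⟨x, x', B, hF⟩ := S.br_of_fa (isConj_cs hc _) (not_comm_cs S.csa nc _) x0
    (Nat.find_spec ex)
  have hD : d x x' ≤ u := by
    cases h : Nat.find ex with
    | zero =>
      rw [h] at hF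
      obtain ⟨c0, h0⟩ := S.conj_min hc x0
      obtain ⟨p, p1, p2⟩ := S.near_short y x1 x0 (K := d x0 (y • x0) + A + 100 * k) (by omega)
      obtain ⟨q, q1, q2⟩ := S.near_short c x1 c0 (K := d x0 (y • x0) + A + 100 * k) (by omega)
      have e1 := hF p q p1 q1
      have e2 := S.tri p x1 q
      have e3 := S.symm p x1
      have e4 := S.self x1
      rcases p2 with rfl | p2 <;> rcases q2 with rfl | q2 <;> omega
    | succ m =>
      rw [h] at hF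
      have e1 := Nat.find_min ex (m := m) (by omega)
      simp only [Fa, not_forall] at e1
      obtain ⟨p, q, p1, q1, e2⟩ := e1
      have e3 := hF p (cs y c m • p) p1 (by rw [cs, S.dis_conj]; exact p1)
      have e4 := S.dis_move (cs y c m) p q
      omega
  have F : Fine d k A _ u y _ x x' := ⟨B, isConj_cs hc _, by omega, by omega, by omega, hD⟩
  have n1 : (N + 2) * u = N * u + 2 * u := by ring
  have n2 : (2 * N + 5) * u = 2 * (N * u) + 5 * u := by ring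
  obtain ⟨j, i, b1, b2, b3⟩ := S.exists_lev F (θ := (N + 2) * u) (L := (N + 2) * u) (by omega)
    (S.lev_big B le_rfl)
  cases j with
  | zero =>
    change _ ≤ d x x' at b2
    omega
  | succ L =>
    exact ⟨Nat.find ex + L + 1, x, by omega, by omega, _, L, _, x', rfl, hc, F,
      by rw [eta_eq (x' := x')]; omega, by rw [eta_eq (x' := x')]; omega⟩

theorem XS.nt (S : XS G d k A) (F : Fine d k A K u y c x x') (L : ℕ) {a : G} (ha : a ≠ 1)
    {q q' : X} (h1 : Btw d x q (lx y c x x' L)) (h2 : Btw d x q' (lx y c x x' L))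
    (h3 : d q (a • q) ≤ 10 * u) (h4 : d q' (a • q') ≤ 10 * u) : d q q' ≤ 11000 * u := by
  have kp := S.pos
  have hk := F.hk
  obtain ⟨γ, hγ, g0, g1⟩ := exists_gz S.gr x (lx y c x x' L)
  have ap := S.aper_edge hγ F (L := L) (E := (1, false)) (s := 0) (t := d x (lx y c x x' L))
    ⟨by omega, by simp [tl, g0, S.self], by simp [hd, g1, S.self]⟩ le_rfl le_rfl
  unfold Btw at h1 h2
  obtain ⟨i, i1, i2, i3⟩ := S.near_gz hγ (by omega) q (c := 0)
    (by rw [g0, g1, S.symm q x]; omega)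
  obtain ⟨j, j1, j2, j3⟩ := S.near_gz hγ (by omega) q' (c := 0)
    (by rw [g0, g1, S.symm q' x]; omega)
  have e1 := S.dis_move a (γ i) q
  have e2 := S.dis_move a (γ j) q'
  have s1 := S.symm (γ i) q
  have s2 := S.symm (γ j) q'
  have e3 : d (γ i) (γ j) ≤ 10704 * u := by
    rcases le_total i j with h | h
    · have := ap a (11 * u) i j ha i1 h j2 (by omega) (by omega)
      exact hγ.lip' i j _ (by omega) (by omega)
    · have := ap a (11 * u) j i ha j1 h i2 (by omega) (by omega)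
      exact hγ.lip' i j _ (by omega) (by omega)
  have := S.tri q (γ i) q'
  have := S.tri (γ i) (γ j) q'
  omega

theorem Sp.along (S : Sp G d k) {γ : ℤ → X} {P P' q0 : X} (hγ : GZ d γ 0 (d P P')) (g0 : γ 0 = P)
    (g1 : γ (d P P') = P') {r R W : ℕ} (hk : 100 * k ≤ u) (hU : r + 2 * u ≤ U) (hR : W + 4 * U ≤ R)
    (g : G) (h : ∀ q, Deep d r (g • x) q (g • x') → NB d (100 * k) P q P')
    (h0 : Deep d R (g • x) q0 (g • x')) : ∃ (o : Bool) (s t i : ℤ), Along d γ U x x' (g, o) s t ∧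
      0 ≤ s ∧ t ≤ d P P' ∧ s + W ≤ i ∧ i + W ≤ t ∧ d q0 (γ i) ≤ u := by
  have kp := S.pos
  obtain ⟨b0, b1, b2⟩ := h0
  have b3 : _ = _ := b0
  have nr : ∀ q, Deep d r (g • x) q (g • x') → ∃ i : ℤ, 0 ≤ i ∧ i ≤ d P P' ∧ d q (γ i) ≤ u := by
    intro q hq
    have : _ ≤ _ := h q hq
    obtain ⟨i, i1, i2, i3⟩ := S.near_gz hγ (by omega) q (c := 100 * k) (by rw [g0, g1]; omega)
    exact ⟨i, i1, i2, by omega⟩
  obtain ⟨p, p1, p2⟩ := S.gr.geo.mid S.gr.met (g • x) (g • x') (s := r) (by omega)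
  obtain ⟨q, q1, q2⟩ := S.gr.geo.mid S.gr.met (g • x) (g • x') (s := d (g • x) (g • x') - r)
    (by omega)
  obtain ⟨s, s1, s2, s3⟩ := nr p ⟨by unfold Btw; omega, by omega, by omega⟩
  obtain ⟨t, t1, t2, t3⟩ := nr q ⟨by unfold Btw; omega, by omega, by omega⟩
  obtain ⟨i, i1, i2, i3⟩ := nr q0 ⟨b0, by omega, by omega⟩
  have c1 := S.tri (g • x) p (γ s)
  have c2 := S.tri (g • x') q (γ t)
  have c3 := S.symm (g • x') q
  have d1 := hγ.eq s i s1 s2 i1 i2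
  have d2 := hγ.eq i t i1 i2 t1 t2
  have d3 := hγ.eq s t s1 s2 t1 t2
  have e1 := S.tri (g • x) (γ s) q0
  have e2 := S.tri (γ s) (γ i) q0
  have e3 := S.tri q0 (γ i) (g • x')
  have e4 := S.tri (γ i) (γ t) (g • x')
  have e5 := S.tri (γ s) (g • x) (γ i)
  have e6 := S.tri (g • x) q0 (γ i)
  have e7 := S.tri (γ i) q0 (γ t)
  have e8 := S.tri q0 (g • x') (γ t)
  have e9 := S.tri (g • x) (γ s) (g • x')
  have e10 := S.tri (γ s) (γ t) (g • x')
  have f1 := S.symm (γ i) q0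
  have f2 := S.symm (γ t) (g • x')
  have f3 := S.symm (γ s) (g • x)
  have key : (W : ℤ) + 2 * U < |i - s| ∧ (W : ℤ) + 2 * U < |t - i| ∧
      |i - s| + |t - i| ≤ |t - s| + 4 * U := by omega
  have k1 : d (g • x) (γ s) ≤ U := by omega
  have k2 : d (g • x') (γ t) ≤ U := by omega
  clear * - key k1 k2 s1 s2 t1 t2 i3
  rcases le_total s t with h | h
  · refine ⟨false, s, t, i, ⟨h, k1, k2⟩, s1, t2, ?_, ?_, i3⟩ <;>
      rcases abs_cases (i - s) with w1 | w1 <;> rcases abs_cases (t - i) with w2 | w2 <;>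
      rcases abs_cases (t - s) with w3 | w3 <;> omega
  · refine ⟨true, t, s, i, ⟨h, k2, k1⟩, t1, s2, ?_, ?_, i3⟩ <;>
      rcases abs_cases (i - s) with w1 | w1 <;> rcases abs_cases (t - i) with w2 | w2 <;>
      rcases abs_cases (t - s) with w3 | w3 <;> omega

theorem XS.edge (S : XS G d k A) (qq : QQ G) {K' j0 j0' L L' C : ℕ} {y' c' g : G}
    {z z' P P' q0 q0' : X} (hc : IsConj y c) (hc' : IsConj y' c')
    (F : Fine d k A K u y (cs y c j0) x x') (F' : Fine d k A K' u y' (cs y' c' j0') z z')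
    (n1 : NoPred y c) (n2 : NoPred y' c')
    (h1 : ∀ q, Deep d (C * u) x q (lx y (cs y c j0) x x' L) → NB d (100 * k) P q P')
    (h2 : ∀ q, Deep d (C * u) (g • z) q (g • lx y' (cs y' c' j0') z z' L') → NB d (100 * k) P q P')
    (h3 : Deep d (300000010 * (C + 2) * u) x q0 (lx y (cs y c j0) x x' L))
    (h4 : Deep d (300000010 * (C + 2) * u) (g • z) q0' (g • lx y' (cs y' c' j0') z z' L'))
    (h5 : d q0 q0' ≤ 100 * k) : (∃ h : G, h * y' * h⁻¹ = y ∧ h * c' * h⁻¹ = c) ∧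
      (y' = y → c' = c → j0' = j0 → L' = L → z = x → z' = x' → g = 1) := by
  obtain ⟨U, hU⟩ : ∃ U, U = (C + 2) * u := ⟨_, rfl⟩
  have e1 : C * u + 2 * u ≤ U := by rw [hU]; exact le_of_eq (by ring)
  have hk := F.hk
  rw [Nat.mul_assoc, ← hU] at h3 h4
  obtain ⟨γ, hγ, g0, g1⟩ := exists_gz S.gr P P'
  obtain ⟨o, s, t, i, E, a1, a2, a3, a4, a5⟩ := S.along hγ g0 g1 hk e1 (W := 300000006 * U)
    (R := 300000010 * U) (by omega) (1 : G) (by simpa using h1) (by simpa using h3)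
  obtain ⟨o', s', t', i', E', b1, b2, b3, b4, b5⟩ := S.along hγ g0 g1 hk e1 (W := 300000006 * U)
    (R := 300000010 * U) (by omega) g h2 h4
  have c1 := hγ.ge (i := i) (j := i') (by omega) (by omega) (by omega) (by omega)
  have c2 := S.tri (γ i) q0 (γ i')
  have c3 := S.tri q0 q0' (γ i')
  have c4 := S.symm (γ i) q0
  obtain ⟨j, l, j', l', N, n, d1, d2, d3, d4, d5, d6, d7, d8, d9, d10⟩ :=
    S.core hγ (F.mono (U' := U) (by omega)) (F'.mono (U' := U) (by omega)) E E' a1 a2 b1 b2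
      (w := i) (by omega) (by omega) (by omega) (by omega)
  obtain ⟨f1, f2⟩ := d10 _ _ rfl rfl
  obtain ⟨φ, hφ⟩ : ∃ φ, φ = G0o y (cs y c j0) 1 o L * Hs y (cs y (cs y c j0) j) N := ⟨_, rfl⟩
  obtain ⟨ψ, hψ⟩ : ∃ ψ, ψ = G0o y' (cs y' c' j0') g o' L' * Hs y' (cs y' (cs y' c' j0') j') n :=
    ⟨_, rfl⟩
  rw [← hφ, ← hψ] at f1 f2
  have f3 : φ⁻¹ * ψ * y' * (φ⁻¹ * ψ)⁻¹ = y := by
    rw [show φ⁻¹ * ψ * y' * (φ⁻¹ * ψ)⁻¹ = φ⁻¹ * (ψ * y' * ψ⁻¹) * φ by group, ← f1]; group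
  have f4 : cs y c (j0 + j) = cs y (φ⁻¹ * ψ * c' * (φ⁻¹ * ψ)⁻¹) (j0' + j') := by
    rw [cs_add, cs_add] at f2
    have := conj_cs (φ⁻¹ * ψ) y' c' (j0' + j')
    rw [f3] at this
    rw [← this, show φ⁻¹ * ψ * cs y' c' (j0' + j') * (φ⁻¹ * ψ)⁻¹ =
      φ⁻¹ * (ψ * cs y' c' (j0' + j') * ψ⁻¹) * φ by group, ← f2]
    group
  generalize hh : φ⁻¹ * ψ = h at f3 f4
  have cy : IsConj y' y := isConj_iff.2 ⟨h, f3⟩
  obtain ⟨f5, f6⟩ := cs_inj qq S.csa F.br.ny hc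
    ((cy.symm.trans hc').trans (isConj_iff.2 ⟨h, rfl⟩)) n1 (fun f hf e => by
      refine n2 (h⁻¹ * f * h⁻¹⁻¹) ((cy.trans hf).trans (isConj_iff.2 ⟨h⁻¹, rfl⟩)) ?_
      rw [← f3] at e
      have := congrArg (fun z => h⁻¹ * z * h) e
      simpa [mul_assoc] using this) f4
  refine ⟨⟨h, f3, f6.symm⟩, ?_⟩
  rintro rfl rfl rfl rfl rfl rfl
  obtain rfl : j = j' := by omega
  obtain rfl : l = l' := by omega
  have f7 : h = 1 := by
    by_contra hn
    have u1 : Commute h y' := mul_inv_eq_iff_eq_mul.1 f3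
    have u2 : Commute h c' := mul_inv_eq_iff_eq_mul.1 f6.symm
    have u3 := S.ct y' h c' hn u1.symm u2
    refine S.br_not_comm F.br (by omega) ?_
    clear * - u3
    induction j0' with
    | zero => exact u3
    | succ m ih => exact (ih.mul_right (Commute.refl _)).mul_right ih.inv_right
  subst d1
  refine (S.up hγ (F.mono (U' := U) (by omega)) E E' a1 a2 b1 b2 (by omega) d5 d6 d7 d8 d9
    ?_).1.symm
  rw [← hφ, ← hψ]
  exact inv_mul_eq_one.1 (hh.trans f7)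

end

theorem xi_exists : ∃ CN : ℕ, ∀ C1 : ℕ, ∃ C3 : ℕ, ∀ N0 : ℕ, ∃ N1 : ℕ, ∀ k A : ℕ,
    ∃ S1 S2 J U : ℕ, 3 ≤ S1 ∧ ∀ u, U ≤ u → ∃ K0 : ℕ, ∀ k0 : ℕ, ∃ kk : ℕ,
    ∀ (G X : Type) [Group G] [MulAction G X] (d : X → X → ℕ), XL G d k A → Free G X → QQ G →
      P1 G → ∃ Top, XI G d Top CN C1 C3 N0 N1 k S1 S2 J u K0 k0 kk := by
  refine ⟨11000, fun C1 => ⟨300000010 * (C1 + 2), fun N0 => ⟨2 * N0 + 5, fun k A =>
    ⟨101 * (A + 300 * (k + 1)), 3 * (101 * (A + 300 * (k + 1))) + A + 400 * (k + 1), 50 * (k + 1),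
      3 * (101 * (A + 300 * (k + 1))) + A + 400 * (k + 1) + A + 300 * (k + 1), by omega,
      fun u hu => ⟨N0 * u + 20, fun k0 => ⟨k0 + 19 + (N0 + 2) * u, fun G X _ _ d H _ qq _ =>
        ⟨TopP d (k + 1) A u N0 (2 * N0 + 5), ?_⟩⟩⟩⟩⟩⟩⟩
  have S := H.xs
  refine ⟨fun y c j h1 h2 h3 => S.big_mono h1 h2 h3 j, fun y c h1 h2 h3 => S.flip h1 h2 h3 _,
    fun y c h1 h2 h3 h4 => S.top h1 h2 (by clear * -; omega) h3 h4 hu N0, ?_, ?_, ?_, ?_, ?_⟩
  · rintro y c _ ξ ⟨j, L, K, x', rfl, -, F, -⟩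
    exact F.br.g0.sh.trans F.hK
  · rintro y c _ ξ ⟨j, L, K, x', rfl, -, -, h, -⟩
    exact h
  · rintro y c _ ξ ⟨j, L, K, x', rfl, -, -, -, h⟩
    exact h
  · rintro y c _ ξ ⟨j, L, K, x', rfl, -, F, -⟩ a q q' ha h1 h2
    rw [eta_eq (x' := x')] at h1 h2
    exact S.nt F _ ha h1 h2
  · rintro y c _ ξ y' c' k1' ξ' ⟨j, L, K, x', rfl, hc, F, -⟩ T' n1 n2 g P P' q0 q0' h1 h2 h3 h4 h5
    rw [eta_eq (x' := x')] at h1 h3
    constructor
    · obtain ⟨j', L', K', z', rfl, hc', F', -⟩ := T'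
      rw [eta_eq (x' := z')] at h2 h4
      exact (S.edge qq hc hc' F F' n1 n2 h1 h2 h3 h4 h5).1
    · rintro rfl rfl rfl rfl
      rw [eta_eq (x' := x')] at h2 h4
      exact (S.edge qq hc hc F F n1 n2 h1 h2 h3 h4 h5).2 rfl rfl rfl rfl rfl rfl

end Pool.Agent.Lib.MP_429c3d_al.Ng
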