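import Pool.Agent.Lib.MP_429c3d_al.NgFs
import Pool.Agent.Lib.MP_429c3d_al.NgPk4
import Pool.Agent.Lib.MP_429c3d_al.NgW3
import Pool.Agent.Lib.MP_429c3d_al.NgB
import Pool.Agent.Lib.MP_429c3d_al.NgMal
import Pool.Agent.Lib.MP_429c3d_al.NgXJ

set_option autoImplicit false

/-! Block C: the base stage of a level. -/

namespace Pool.Agent.Lib.MP_429c3d_al.Ng

open Hyp Sum

theorem dnm_facts {N0 T : Type} : (∀ a : Nm N0 T, dnm a a = 0) ∧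
    (∀ a b : Nm N0 T, dnm a b = dnm b a) ∧
    (∀ a b : Nm N0 T, dnm a b ≤ a.ht.natAbs + b.ht.natAbs) ∧
    ∀ a b : Nm N0 T, a.ht.natAbs ≤ b.ht.natAbs + dnm a b := by
  refine ⟨fun a => by simp [dnm], fun a b => ?_, fun a b => ?_, fun a b => ?_⟩ <;> unfold dnm
  · by_cases h : a.arm = b.arm
    · rw [if_pos h, if_pos h.symm]
      omega
    · rw [if_neg h, if_neg (Ne.symm h)]
      omega
  · split_ifs <;> omega
  · split_ifs <;> omega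

theorem Prim.not_law {G : Type} [Group G] {y c : G} (h : Prim y c) {m : ℕ} (hm : 1 ≤ m) :
    ¬ Law m y c := by
  obtain ⟨m, rfl⟩ : ∃ m', m = m' + 1 := ⟨m - 1, by omega⟩
  intro e
  refine h.2.2 ((y ^ (m + 1))⁻¹ * cs y c m * (y ^ (m + 1))⁻¹⁻¹)
    ((isConj_cs h.1 m).trans (isConj_conj _ _)) ?_
  rw [Law, cs] at e
  calc _ = (y ^ (m + 1))⁻¹ * (cs y c m * y * (cs y c m)⁻¹) * y ^ (m + 1) := by group
    _ = c := by rw [e]; group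

/-- The base stage. -/
theorem st0_exists : ∃ kS cS : ℕ, ∀ l0 : ℕ, ∃ D : ℕ, 3 ≤ D ∧ ∀ L : ℕ, ∃ f P : ℕ, ∀ k A : ℕ,
    ∃ S1 S2 : ℕ, 3 ≤ S1 ∧ ∀ S' u0 : ℕ, ∃ u Kk : ℕ, u0 ≤ u ∧ ∀ k0 : ℕ, ∃ kk : ℕ,
    ∀ (m n : ℕ) (G X : Type) [Group G] [MulAction G X] (d : X → X → ℕ), 2 ≤ n → 1 ≤ m →
      Lev G d k A S2 k0 m → (∃ (a : G) (x : X), a ≠ 1 ∧ d x (a • x) ≤ u) →
      ∃ (AA N0 K I : Type) (_ : CommGroup AA) (_ : Countable I)
        (S : St AA (Nm N0 (I × Bool)) K) (B : Base S n), Nonempty (Over G d B u S1 kk m) ∧ S.OK ∧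
        S.MI dnm kS cS l0 D L f P ∧ S.Alg ∧ S.GT (Tr m (yy B.y) (cc B.y B.s)) Kk S' := by
  obtain ⟨kT, cT, fT, PT, KT, hT⟩ := tel_exists
  obtain ⟨CN, hX⟩ := xi_exists
  obtain ⟨C3, hX⟩ := hX (C1M CN)
  obtain ⟨N1, hX⟩ := hX (N0M CN C3)
  obtain ⟨α, hα⟩ : ∃ α, α = alM N1 := ⟨_, rfl⟩
  obtain ⟨D, hD⟩ : ∃ D, D = DM N1 := ⟨_, rfl⟩
  obtain ⟨kB, hB⟩ : ∃ kB, kB = coneK (cB α) := ⟨_, rfl⟩
  obtain ⟨kS, hS⟩ : ∃ kS, kS = 200 * (blowK kB kT (detW kY α D kB) + 3) ^ 2 := ⟨_, rfl⟩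
  refine ⟨kS, 2 * ((3 * (2 * kS) + (2 * coneN (cB α) + 3) + 1) *
    (thA kY α D kB cT (2 * kS) + 1)) + 1, fun l0 => ⟨12 * (prjC kY α D + 1) + 2, by omega,
    fun L => ⟨(4 * (3 * L) + (2 * coneN (cB α) + 5) + 1) *
      (thU kY α D kB (fT (prW kY α D kB L)) L + 1),
      (1202 * (LY α D + 1) + 3) * (3 * L + 1) + 2 + PT (prW kY α D kB L + 1), fun k A => ?_⟩⟩⟩
  obtain ⟨S1, S2, J0, U, h3, hX⟩ := hX k A
  refine ⟨S1, S2, h3, fun S' u0 => ?_⟩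
  obtain ⟨u, hu⟩ : ∃ u, u = u0 + U + S2 + A + 200 * (k + 1) + ((2 * l0M C3 + 10) * k + 1) +
    ((2 * (3 * L) + 10) * k + 1) + ((2 * LY α D + 10) * k + 1) +
    10 * lvB α D (3 * S') * (J0 + k + 1) := ⟨_, rfl⟩
  obtain ⟨K0, hX⟩ := hX u (by omega)
  refine ⟨u, K0 + lvB α D (3 * S') + KT (prW kY α D kB S' + 1) + 1, by omega, fun k0 => ?_⟩
  obtain ⟨kk, hX⟩ := hX k0
  refine ⟨kk, fun m n G X _ _ d hn hm Lv hsh => ?_⟩
  obtain ⟨n, rfl⟩ : ∃ n', n = n' + 1 := ⟨n - 1, by omega⟩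
  obtain ⟨ST, T, ok, -, mi, gtT⟩ := hT n (by omega)
  obtain ⟨Top, XX⟩ := hX G X d Lv.xl Lv.free Lv.qq Lv.p1
  have := Lv.cnt
  obtain ⟨Ω, K, I, _, cI, ⟨P⟩⟩ := exists_pk (u := u) (S2 := S2) Lv.xl.gr.met Lv.xl.iso Lv.xl.tf
    Lv.xl.csa Lv.xl.ct (by omega)
  have mono : ∀ y c : G, IsConj y c → ¬ Commute y c → Big d S2 y c →
      ∀ j, Big d S1 y (cs y c j) := fun y c h1 h2 h3 j => XX.mono y c j h1 h2 h3
  choose k1 ξ hk hk' top using fun τ => XX.top _ _ (P.prim τ).1 (P.prim τ).2.1 (P.small τ)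
    ((Lv.gt _ _ (P.prim τ).1 (P.prim τ).2.1).resolve_left ((P.prim τ).not_law hm))
  obtain ⟨J, _, ψ, ρ, ty, g0, R⟩ := P.exists_arms k1 T hk
  have H : YH G Ω d k A u := ⟨Lv.xl, Lv.free, P.aps, by omega, by omega⟩
  have M := mh_of H R ok hk (by omega) XX top
  have q := M.qfam
  rw [← hα, ← hD] at q
  have B : BH G d (ZM ψ) k A u α D := ⟨H, q, (M.mod.twa mi).Z_smul⟩
  have W := M.mod.tw q (mi 0 0).hyp (hB ▸ B.qc.hypB)
  have WA := M.mod.twa mi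
  have geo : P.Geo k1 (n + 1) (dSM ψ (dYY G d u)) := by
    refine R.geo hk M.mod M.mal (by unfold l0M; omega) H.qc.1.lip (fun ω => ?_) fun τ => ?_
    · obtain ⟨x, hx⟩ := H.qc.1.ne (inr ω)
      exact ⟨x, (H.qc.1.grB.met.symm _ _).le.trans (H.adj_of hx)⟩
    · obtain ⟨x, hx⟩ := not_forall.1 (P.small τ)
      refine (H.qc.2 _ _).2 ⟨x, x, H.sh_of (P.prim τ).ne_one (P.yy_fix τ) (by omega),
        H.sh_of (a := cc P.y P.s τ) (fun e => (P.prim τ).2.1 (e ▸ Commute.one_right _)) ?_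
          (by omega), by rw [Lv.xl.gr.met.self]; omega⟩
      simp only [cc, Pk.PP, Pk.oo, mul_smul, inv_smul_smul, P.yy_fix]
  have gt0 : ∀ y c : G, IsConj y c → ¬ Commute y c → Big d S1 y c →
      Tr m (yy P.y) (cc P.y P.s) y c ∨ Esc (dSM ψ (dYY G d u))
        (K0 + lvB α D (3 * S') + KT (prW kY α D kB S' + 1) + 1) S' y c := by
    intro y c h1 h2 h3
    obtain ⟨l, ξ0, hl, F⟩ := XX.flip y c h1 h2 h3
    by_cases hb : Big (dSM ψ (dYY G d u)) S' y (cs y c (l + lvB α D (3 * S')))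
    · exact Or.inr ⟨_, by omega, hb⟩
    obtain ⟨v, hv⟩ := not_forall.1 hb
    have e1 := W.B_le v (y • v)
    have e2 := W.B_le v (cs y c (l + lvB α D (3 * S')) • v)
    obtain ⟨i, j, j1, j2, j3⟩ := B.gt F h1 h2 (Nat.mul_le_mul_right _ (by unfold N0M; omega))
      (n := 3 * S') (by omega) (v := inl v) (e1.trans (by omega)) (e2.trans (by omega))
    rcases M.mod.gt (gtT (prW kY α D kB S' + 1)) j2 j3 (not_commute_cs Lv.xl.csa h2 (j + 1)) with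
      ⟨a, b, g, e3, e4⟩ | ⟨a, e3, e4⟩
    · rw [cs_add] at e4
      exact Or.inl (R.tr_of hk e3 e4)
    · simp only [cs_add] at e4
      refine Or.inr ⟨j + (a + 1), by omega, W.bigS WA j2 ?_ e4⟩
      rw [← cs_add]
      generalize a + 1 = b
      induction b with
      | zero => exact j3
      | succ b ih => rw [cs, mul_smul, mul_smul, inv_smul_eq_iff.2 ih.symm, j2, ih]
  obtain ⟨f0, f1, f2, f3⟩ := dnm_facts (N0 := Pk.N0 G X Ω) (T := I × Bool)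
  obtain ⟨AA, N0, _, S, Bs, h⟩ := Pk.st0_of (kS := kS) Lv hsh geo hk hk' mono
    (hS ▸ W.hypS) (W.detS (P.nm k1 (n + 1)) dnm (fun a => a.ht.natAbs) _ l0 f0 f1 f2 f3
      (R.ht_zero hk M.mod M.mal) (R.ht_one hk M.mod M.mal geo)
      (R.det_leg hk M.mod M.mal geo fun l => (mi l 0).det))
    (tam_of_short W.grS (hS ▸ W.hypS) (W.isoS WA) fun a v x h1 h2 h3 =>
      W.ta_short WA (fun a v x L e1 e2 e3 => B.ta e1 e2 e3) h1 h2 h3)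
    (W.aiS WA (B.ai (3 * L)))
    (W.pwS WA fun a ha j hj x => B.pw ha (by omega) (by omega) hj x) gt0
  exact ⟨AA, N0, K, I, _, cI, S, Bs, h⟩

end Pool.Agent.Lib.MP_429c3d_al.Ng
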