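import Pool.Agent.Lib.MP_429c3d_al.NgStep

set_option autoImplicit false

/-! Stabilisers and orbits of the old points in the step. -/

namespace Pool.Agent.Lib.MP_429c3d_al.Ng

open Hyp HNNExtension

theorem wlen_of_mul {G : Type} [Group G] {A B : Subgroup G} {φ : A ≃* B} (k : G)
    (γ : HNNExtension G A B φ) : wlen (of k * γ) = wlen γ := by
  obtain ⟨o, g, n, h⟩ := exists_rw γ
  rw [(h.mul_left k).wlen_eq, h.wlen_eq]

namespace SlotD

variable {G Z : Type} [Group G] [MulAction G Z] {d : Z → Z → ℕ} (S : SlotD G d)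

theorem em_inj : Function.Injective S.em := of_injective S.φ

theorem em_smul_eq {g : G} {z z' : Z} : S.em g • S.ι z = S.ι z' ↔ g • z = z' := by
  rw [← ι_smul]
  exact ⟨S.ι_inj, congrArg S.ι⟩

theorem psi_em (g : G) : psi S.φ (S.em g) = 1 := psi_of g

theorem psi_e : psi S.φ S.e = Multiplicative.ofAdd 1 := psi_t

theorem e_conj {a : G} (ha : a ∈ S.A) : S.e * S.em a * S.e⁻¹ = S.em (S.φ ⟨a, ha⟩) :=
  (equiv_eq_conj ⟨a, ha⟩).symm

/-- The first letter of an element that moves a point of the base copy into the base copy. -/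
theorem pass {u : ℤˣ} {g : G} {γ : S.GG} {n : ℕ} (h : RW S.φ (some u) g γ n) {z z' : Z}
    (e : γ • S.ι z = S.ι z') : z' = g • S.ap u := by
  rw [← S.rr_some z h z, e, rr_ι]

theorem trans_cases {γ : S.GG} {z z' : Z} (e : γ • S.ι z = S.ι z') :
    (∃ g : G, γ = S.em g ∧ g • z = z') ∨
      ∃ (g : G) (u : ℤˣ) (γ' : S.GG) (o : Option ℤˣ) (k : G) (m : ℕ), RW S.φ o k γ' m ∧
        ¬ (o = some (-u) ∧ k ∈ toSubgroup S.A S.B u) ∧ γ = S.em g * tp S.φ u * γ' ∧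
        z' = g • S.ap u ∧ γ' • S.ι z = S.ι (S.ap (-u)) ∧ wlen γ' < wlen γ := by
  obtain ⟨o, g, n, h⟩ := exists_rw γ
  cases o with
  | none =>
    obtain ⟨rfl, -⟩ := h.of_none
    exact Or.inl ⟨g, rfl, S.em_smul_eq.1 e⟩
  | some u =>
    have e1 := S.pass h e
    obtain ⟨o, k, γ', m, h1, hr, e2, e3⟩ := h.of_some
    refine Or.inr ⟨g, u, γ', o, k, m, h1, hr, e2, e1, ?_, by rw [h.wlen_eq, h1.wlen_eq]; omega⟩
    have e4 := S.tp_ap (-u)
    rw [neg_neg, tp_neg] at e4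
    rw [e2, e1, ι_smul, mul_smul, mul_smul, smul_left_cancel_iff] at e
    rw [← e4, ← e, inv_smul_smul]

/-- The glued points: translates of the tail and of the head. -/
def Gl (z : Z) : Prop := ∃ g : G, z = g • S.t ∨ z = g • S.h

theorem gl_ap (g : G) (u : ℤˣ) : S.Gl (g • S.ap u) := by
  rcases Int.units_eq_one_or u with rfl | rfl
  · exact ⟨g, Or.inr (by rw [ap_one])⟩
  · exact ⟨g, Or.inl (by rw [ap_neg_one])⟩

theorem gl_t : S.Gl S.t := ⟨1, Or.inl (one_smul _ _).symm⟩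

theorem gl_h : S.Gl S.h := ⟨1, Or.inr (one_smul _ _).symm⟩

theorem Gl.smul {S : SlotD G d} {z : Z} (h : S.Gl z) (k : G) : S.Gl (k • z) := by
  obtain ⟨g, h⟩ := h
  exact ⟨k * g, h.imp (fun e => by rw [e, mul_smul]) fun e => by rw [e, mul_smul]⟩

theorem gl_of_not_mem {γ : S.GG} (hγ : γ ∉ S.em.range) {z z' : Z} (e : γ • S.ι z = S.ι z') :
    S.Gl z ∧ S.Gl z' := by
  have key : ∀ {γ : S.GG}, γ ∉ S.em.range → ∀ {z z' : Z}, γ • S.ι z = S.ι z' → S.Gl z' := by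
    intro γ hγ z z' e
    obtain ⟨u, g, n, h⟩ := exists_rw_some hγ
    rw [S.pass h e]
    exact S.gl_ap g u
  exact ⟨key (γ := γ⁻¹) (by rwa [inv_mem_iff]) (z := z') (by rw [← e, inv_smul_smul]), key hγ e⟩

/-- Orbits of old points. -/
theorem orbit_cases {γ : S.GG} {z z' : Z} (e : γ • S.ι z = S.ι z') :
    (∃ g : G, γ = S.em g ∧ g • z = z') ∨ (γ ∉ S.em.range ∧ S.Gl z ∧ S.Gl z') := by
  by_cases hγ : γ ∈ S.em.range
  · obtain ⟨g, rfl⟩ := hγ
    exact Or.inl ⟨g, rfl, S.em_smul_eq.1 e⟩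
  · exact Or.inr ⟨hγ, S.gl_of_not_mem hγ e⟩

theorem stab_other {γ : S.GG} {z z' : Z} (hz : ¬ S.Gl z) (e : γ • S.ι z = S.ι z') :
    ∃ g : G, γ = S.em g ∧ g • z = z' :=
  (S.orbit_cases e).resolve_right fun h => hz h.2.1

theorem gl_mem {z : Z} (hz : S.Gl z) : ∃ γ : S.GG, S.ι z = γ • S.ι S.t := by
  obtain ⟨g, rfl | rfl⟩ := hz
  · exact ⟨S.em g, S.ι_smul _ _⟩
  · exact ⟨S.em g * S.e, by rw [mul_smul, e_t, ι_smul]⟩

/-! ### e-type -/

theorem etype_stab (he : ∀ g : G, g • S.t ≠ S.h) {γ : S.GG} (e : γ • S.ι S.t = S.ι S.t) :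
    ∃ a : G, γ = S.em a ∧ a • S.t = S.t := by
  have he' : ∀ g : G, S.t ≠ g • S.h := fun g hg =>
    he g⁻¹ (by rw [inv_smul_eq_iff]; exact hg)
  rcases S.trans_cases e with h | ⟨g, u, γ', o, k, m, h1, hr, -, e1, e2, -⟩
  · exact h
  exfalso
  rcases Int.units_eq_one_or u with rfl | rfl
  · exact he' g (by rwa [ap_one] at e1)
  rw [neg_neg, ap_one] at e2
  cases o with
  | none =>
    rw [h1.of_none.1] at e2
    exact he k (S.em_smul_eq.1 e2)
  | some u' =>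
    have e3 := S.pass h1 e2
    rcases Int.units_eq_one_or u' with rfl | rfl
    · rw [ap_one] at e3
      exact hr ⟨by rw [neg_neg], (S.Bh k).2 e3.symm⟩
    · rw [ap_neg_one] at e3
      exact he k e3.symm

theorem etype_tt (he : ∀ g : G, g • S.t ≠ S.h) {γ : S.GG} {g g' : G}
    (e : γ • S.ι (g • S.t) = S.ι (g' • S.t)) : ∃ a : G, γ = S.em a ∧ a • g • S.t = g' • S.t := by
  obtain ⟨a, h1, -⟩ := S.etype_stab he (γ := (S.em g')⁻¹ * γ * S.em g) (by
    rw [mul_smul, mul_smul, ← ι_smul, e, ι_smul, inv_smul_smul])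
  have h2 : γ = S.em (g' * a * g⁻¹) := by
    rw [map_mul, map_mul, ← h1, map_inv]
    group
  exact ⟨_, h2, S.em_smul_eq.1 (h2 ▸ e)⟩

theorem etype_th (he : ∀ g : G, g • S.t ≠ S.h) {γ : S.GG} (e : γ • S.ι S.t = S.ι S.h) :
    ∃ a : G, γ = S.e * S.em a ∧ a • S.t = S.t := by
  obtain ⟨a, h1, h2⟩ := S.etype_stab he (γ := S.e⁻¹ * γ) (by
    rw [mul_smul, e, ← e_t, inv_smul_smul])
  exact ⟨a, by rw [← h1, mul_inv_cancel_left], h2⟩

theorem etype_hh (he : ∀ g : G, g • S.t ≠ S.h) {γ : S.GG} (e : γ • S.ι S.h = S.ι S.h) :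
    ∃ a : G, γ = S.e * S.em a * S.e⁻¹ ∧ a • S.t = S.t := by
  obtain ⟨a, h1, h2⟩ := S.etype_th he (γ := γ * S.e) (by rw [mul_smul, e_t, e])
  exact ⟨a, by rw [← h1, mul_inv_cancel_right], h2⟩

/-- In the e-type case an element of the stabiliser of the tail that survives conjugation into
the old group lies in `A`. -/
theorem conj_mem {a : G} (h : S.e * S.em a * S.e⁻¹ ∈ S.em.range) : a ∈ S.A := by
  by_contra ha
  have h1 := RW.single (φ := S.φ) a (-1) 1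
  have h2 := h1.cons_one 1 fun hh => ha hh.2
  rw [map_one, mul_one, tp_one, tp_neg_one, ← mul_assoc] at h2
  exact absurd (h2.mem_range.1 h) (by simp)

theorem conj_mem' {b : G} (h : S.e⁻¹ * S.em b * S.e ∈ S.em.range) : b ∈ S.B := by
  by_contra hb
  have h1 := RW.single (φ := S.φ) b 1 1
  have h2 := h1.cons_one (-1) fun hh => hb (by simpa using hh.2)
  rw [map_one, mul_one, tp_one, tp_neg_one, ← mul_assoc] at h2
  exact absurd (h2.mem_range.1 h) (by simp)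

/-! ### w-type -/

/-- The new element of the stabiliser of the tail. -/
def v (s : G) : S.GG := (S.em s)⁻¹ * S.e

theorem v_t {s : G} (hs : s • S.t = S.h) : S.v s • S.ι S.t = S.ι S.t := by
  rw [v, mul_smul, e_t, ← hs, ι_smul, inv_smul_smul]

theorem psi_v (s : G) : psi S.φ (S.v s) = Multiplicative.ofAdd 1 := by
  rw [v, map_mul, map_inv, psi_em, psi_e, inv_one, one_mul]

theorem psi_em_v (s a : G) (j : ℤ) : psi S.φ (S.em a * S.v s ^ j) = Multiplicative.ofAdd j := by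
  rw [map_mul, psi_em, one_mul, map_zpow, psi_v, ← ofAdd_zsmul, smul_eq_mul, mul_one]

theorem em_v_inj (s : G) {a a' : G} {j j' : ℤ} (h : S.em a * S.v s ^ j = S.em a' * S.v s ^ j') :
    a = a' ∧ j = j' := by
  have h1 := congrArg (psi S.φ) h
  rw [psi_em_v, psi_em_v] at h1
  obtain rfl : j = j' := Multiplicative.ofAdd.injective h1
  exact ⟨S.em_inj (mul_right_cancel h), rfl⟩

theorem v_comm {s : G} (hφ : ∀ a (ha : a ∈ S.A), (S.φ ⟨a, ha⟩ : G) = s * a * s⁻¹) {a : G}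
    (ha : a ∈ S.A) : Commute (S.v s) (S.em a) := by
  have h1 := S.e_conj ha
  rw [hφ a ha, map_mul, map_mul, map_inv] at h1
  have h2 : S.e * S.em a = S.em s * S.em a * (S.em s)⁻¹ * S.e := by
    rw [← h1, inv_mul_cancel_right]
  change (S.em s)⁻¹ * S.e * S.em a = S.em a * ((S.em s)⁻¹ * S.e)
  rw [mul_assoc, h2]
  group

theorem wtype_stab {s : G} (hs : s • S.t = S.h) (hA : ∀ a : G, a • S.t = S.t → a ∈ S.A)
    (hφ : ∀ a (ha : a ∈ S.A), (S.φ ⟨a, ha⟩ : G) = s * a * s⁻¹) {γ : S.GG}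
    (e : γ • S.ι S.t = S.ι S.t) : ∃ (a : G) (j : ℤ), a • S.t = S.t ∧ γ = S.em a * S.v s ^ j := by
  induction hn : wlen γ using Nat.strong_induction_on generalizing γ with
  | _ n ih =>
    rcases S.trans_cases e with ⟨a, h1, h2⟩ | ⟨g, u, γ', o, k, m, -, -, e0, e1, e2, hl⟩
    · exact ⟨a, 0, h2, by rw [h1, zpow_zero, mul_one]⟩
    rcases Int.units_eq_one_or u with rfl | rfl
    · rw [ap_neg_one] at e2
      rw [ap_one, ← hs, ← mul_smul] at e1
      obtain ⟨a, j, ha, rfl⟩ := ih _ (hn ▸ hl) e2 rfl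
      refine ⟨g * s * a, 1 + j, by rw [mul_smul, ha, ← e1], ?_⟩
      have hc := (S.v_comm hφ (hA a ha)).eq
      rw [e0, tp_one, zpow_add, zpow_one, map_mul, mul_assoc (S.em (g * s)), ← mul_assoc (S.em a),
        ← hc, map_mul, v]
      group
    · rw [neg_neg, ap_one, ← hs, ι_smul] at e2
      rw [ap_neg_one] at e1
      obtain ⟨a, j, ha, e3⟩ := ih (wlen (S.em s⁻¹ * γ')) (by rw [wlen_of_mul]; exact hn ▸ hl)
        (γ := S.em s⁻¹ * γ') (by rw [mul_smul, e2, map_inv, inv_smul_smul]) rfl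
      refine ⟨g * a, -1 + j, by rw [mul_smul, ha, ← e1], ?_⟩
      have hc := (S.v_comm hφ (hA a ha)).inv_left.eq
      have e4 : γ' = S.em s * (S.em a * S.v s ^ j) := by
        rw [← e3, map_inv, mul_inv_cancel_left]
      rw [e0, e4, tp_neg_one, zpow_add, zpow_neg_one, map_mul, mul_assoc (S.em g) (S.em a),
        ← mul_assoc (S.em a), ← hc, v]
      group

theorem wtype_ker {s : G} (hs : s • S.t = S.h) (hA : ∀ a : G, a • S.t = S.t → a ∈ S.A)
    (hφ : ∀ a (ha : a ∈ S.A), (S.φ ⟨a, ha⟩ : G) = s * a * s⁻¹) {γ : S.GG}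
    (e : γ • S.ι S.t = S.ι S.t) (hp : psi S.φ γ = 1) : ∃ a : G, γ = S.em a ∧ a • S.t = S.t := by
  obtain ⟨a, j, ha, rfl⟩ := S.wtype_stab hs hA hφ e
  rw [psi_em_v] at hp
  obtain rfl : j = 0 := Multiplicative.ofAdd.injective hp
  exact ⟨a, by rw [zpow_zero, mul_one], ha⟩

theorem wtype_comm {s : G} (hs : s • S.t = S.h) (hA : ∀ a : G, a • S.t = S.t → a ∈ S.A)
    (hφ : ∀ a (ha : a ∈ S.A), (S.φ ⟨a, ha⟩ : G) = s * a * s⁻¹)
    (hab : ∀ a b : G, a • S.t = S.t → b • S.t = S.t → Commute a b) {γ δ : S.GG}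
    (e : γ • S.ι S.t = S.ι S.t) (e' : δ • S.ι S.t = S.ι S.t) : Commute γ δ := by
  obtain ⟨a, j, ha, rfl⟩ := S.wtype_stab hs hA hφ e
  obtain ⟨b, k, hb, rfl⟩ := S.wtype_stab hs hA hφ e'
  have h1 := S.v_comm hφ (hA a ha)
  have h2 := S.v_comm hφ (hA b hb)
  exact (((hab a b ha hb).map S.em).mul_right (h1.symm.zpow_right k)).mul_left
    ((h2.zpow_left j).mul_right ((Commute.refl _).zpow_zpow j k))

end SlotD

end Pool.Agent.Lib.MP_429c3d_al.Ng
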