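import Pool.Agent.Lib.MP_429c3d_al.NgWord
import Pool.Agent.Lib.MP_429c3d_al.NgGate
import Pool.Agent.Lib.MP_429c3d_al.HypGraph

set_option autoImplicit false

/-! The step construction: copies of a space glued along the Bass-Serre tree of an HNN extension,
with cones over the lines. -/

namespace Pool.Agent.Lib.MP_429c3d_al.Ng

open Hyp HNNExtension

theorem gd_smul {G V : Type} [Group G] [MulAction G V] {adj : V → V → Prop}
    (h : ∀ (g : G) x y, adj x y → adj (g • x) (g • y)) (g : G) (x y : V) :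
    gd adj (g • x) (g • y) = gd adj x y := by
  have key : ∀ (g : G) n x y, GW adj n x y → GW adj n (g • x) (g • y) := by
    rintro g n x y ⟨c, c0, cn, cs⟩
    exact ⟨fun i => g • c i, by simp [c0], by simp [cn], fun i hi =>
      (cs i hi).imp (fun e => by simp only [e]) (h g _ _)⟩
  unfold gd
  congr 1
  ext n
  exact ⟨fun hn => by simpa using key g⁻¹ n _ _ hn, key g n x y⟩

/-- The input of a step. -/
structure SlotD (G : Type) {Z : Type} [Group G] [MulAction G Z] (d : Z → Z → ℕ) where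
  t : Z
  h : Z
  A : Subgroup G
  B : Subgroup G
  φ : A ≃* B
  gr : IsGr d
  inv : ∀ (g : G) x y, d (g • x) (g • y) = d x y
  th : t ≠ h
  dth : d t h ≤ 1
  At : ∀ a ∈ A, a • t = t
  Bh : ∀ b, b ∈ B ↔ b • h = h

namespace SlotD

variable {G Z : Type} [Group G] [MulAction G Z] {d : Z → Z → ℕ} (S : SlotD G d)

/-- The new group. -/
abbrev GG : Type := HNNExtension G S.A S.B S.φ

/-- The new letter. -/
abbrev e : S.GG := HNNExtension.t

/-- The embedding of the old group. -/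
abbrev em : G →* S.GG := HNNExtension.of

def rel (p q : S.GG × Z) : Prop :=
  (∃ γ k z, p = (γ * S.em k, z) ∧ q = (γ, k • z)) ∨ ∃ γ, p = (γ * S.e, S.t) ∧ q = (γ, S.h)

/-- The points of the copies. -/
def Old : Type := Quot S.rel

instance : MulAction S.GG S.Old where
  smul γ := Quot.map (fun p => (γ * p.1, p.2)) (by
    rintro p q (⟨δ, k, z, rfl, rfl⟩ | ⟨δ, rfl, rfl⟩)
    · exact Or.inl ⟨γ * δ, k, z, by simp only [mul_assoc], rfl⟩
    · exact Or.inr ⟨γ * δ, by simp only [mul_assoc], rfl⟩)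
  one_smul x := by
    induction x using Quot.ind with
    | mk p => exact congrArg (Quot.mk _) (by simp)
  mul_smul a b x := by
    induction x using Quot.ind with
    | mk p => exact congrArg (Quot.mk _) (by simp [mul_assoc])

/-- The new space. -/
def ZZ : Type := S.Old ⊕ (S.GG ⧸ Subgroup.zpowers S.e)

instance : MulAction S.GG S.ZZ :=
  inferInstanceAs (MulAction S.GG (S.Old ⊕ (S.GG ⧸ Subgroup.zpowers S.e)))

def ι (z : Z) : S.ZZ := Sum.inl (Quot.mk _ (1, z))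

def w : S.ZZ := Sum.inr (QuotientGroup.mk 1)

theorem smul_ι (γ : S.GG) (z : Z) : γ • S.ι z = Sum.inl (Quot.mk _ (γ, z)) := by
  change Sum.inl (Quot.mk _ (γ * 1, z)) = _
  rw [mul_one]

theorem smul_w (γ : S.GG) : γ • S.w = Sum.inr (QuotientGroup.mk γ) := by
  change Sum.inr (QuotientGroup.mk (γ * 1)) = _
  rw [mul_one]

theorem ι_smul (g : G) (z : Z) : S.ι (g • z) = S.em g • S.ι z := by
  rw [smul_ι]
  have : S.rel (S.em g, z) (1, g • z) := Or.inl ⟨1, g, z, by rw [one_mul], rfl⟩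
  exact congrArg Sum.inl (Quot.sound this).symm

theorem e_t : S.e • S.ι S.t = S.ι S.h := by
  rw [smul_ι]
  exact congrArg Sum.inl (Quot.sound (Or.inr ⟨1, by rw [one_mul], rfl⟩))

theorem cover (x : S.ZZ) : (∃ (γ : S.GG) (z : Z), x = γ • S.ι z) ∨ ∃ γ : S.GG, x = γ • S.w := by
  rcases x with x | x
  · induction x using Quot.ind with
    | mk p => exact Or.inl ⟨p.1, p.2, (S.smul_ι _ _).symm⟩
  · induction x using QuotientGroup.induction_on with
    | H γ => exact Or.inr ⟨γ, (S.smul_w γ).symm⟩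

theorem w_ne (γ : S.GG) (z : Z) : S.w ≠ γ • S.ι z := by
  rw [smul_ι]
  exact Sum.inr_ne_inl

theorem smul_w_eq_iff (γ δ : S.GG) : γ • S.w = δ • S.w ↔ ∃ j : ℤ, γ * S.e ^ j = δ := by
  rw [smul_w, smul_w]
  constructor
  · intro h
    obtain ⟨j, hj⟩ := Subgroup.mem_zpowers_iff.1 (QuotientGroup.eq.1 (Sum.inr.inj h))
    exact ⟨j, by rw [hj, mul_inv_cancel_left]⟩
  · rintro ⟨j, rfl⟩
    exact congrArg Sum.inr (QuotientGroup.eq.2 (by
      rw [inv_mul_cancel_left]; exact Subgroup.zpow_mem_zpowers _ _))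

theorem stab_w (γ : S.GG) (h : γ • S.w = S.w) : ∃ j : ℤ, γ = S.e ^ j := by
  obtain ⟨j, hj⟩ := (S.smul_w_eq_iff 1 γ).1 (by rw [one_smul, h])
  exact ⟨j, by rw [← hj, one_mul]⟩

theorem e_w : S.e • S.w = S.w := by
  have := (S.smul_w_eq_iff 1 S.e).2 ⟨1, by simp⟩
  rw [one_smul] at this
  exact this.symm

/-- The apex at which the copy `e^u` is attached. -/
def ap (u : ℤˣ) : Z := if u = 1 then S.h else S.t

theorem ap_one : S.ap 1 = S.h := if_pos rfl

theorem ap_neg_one : S.ap (-1) = S.t := if_neg (by decide)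

theorem ap_fix (u : ℤˣ) {a : G} (ha : a ∈ toSubgroup S.A S.B (-u)) : a • S.ap u = S.ap u := by
  rcases Int.units_eq_one_or u with rfl | rfl
  · rw [ap_one]; exact (S.Bh a).1 ha
  · rw [ap_neg_one]; exact S.At a ha

theorem ap_ne (u : ℤˣ) : S.ap u ≠ S.ap (-u) := by
  rcases Int.units_eq_one_or u with rfl | rfl
  · rw [ap_one, ap_neg_one]; exact S.th.symm
  · rw [neg_neg, ap_one, ap_neg_one]; exact S.th

theorem tp_ap (u : ℤˣ) : tp S.φ u • S.ι (S.ap (-u)) = S.ι (S.ap u) := by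
  rcases Int.units_eq_one_or u with rfl | rfl
  · rw [tp_one, ap_one, ap_neg_one]; exact S.e_t
  · rw [neg_neg, tp_neg_one, ap_one, ap_neg_one, ← S.e_t, inv_smul_smul]

def gt (o : Option ℤˣ) (g : G) (z : Z) : Z := g • o.elim z S.ap

noncomputable def r0 (p : S.GG × Z) : Z :=
  S.gt (exists_rw p.1).choose (exists_rw p.1).choose_spec.choose p.2

theorem r0_eq {o : Option ℤˣ} {g : G} {γ : S.GG} {n : ℕ} (h : RW S.φ o g γ n) (z : Z) :
    S.r0 (γ, z) = S.gt o g z := by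
  have key : ∀ (o' : Option ℤˣ) (g' : G) (n' : ℕ), RW S.φ o' g' γ n' →
      S.gt o' g' z = S.gt o g z := by
    intro o' g' n' h'
    obtain ⟨rfl, -, e2, e3⟩ := h.unique h'
    cases o with
    | none => rw [e2 rfl]
    | some u =>
      have := S.ap_fix u (e3 u rfl)
      rw [mul_smul, inv_smul_eq_iff] at this
      exact this
  exact key _ _ _ (exists_rw γ).choose_spec.choose_spec.choose_spec

theorem r0_rel (p q : S.GG × Z) (h : S.rel p q) : S.r0 p = S.r0 q := by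
  rcases h with ⟨γ, k, z, rfl, rfl⟩ | ⟨γ, rfl, rfl⟩
  · obtain ⟨o, g, n, h⟩ := exists_rw γ
    cases o with
    | none =>
      obtain ⟨rfl, -⟩ := h.of_none
      rw [← map_mul, S.r0_eq (RW.nil _), S.r0_eq (RW.nil _)]
      exact mul_smul _ _ _
    | some u => rw [S.r0_eq h, S.r0_eq (h.mul_right_some k)]; rfl
  · obtain ⟨o, g, n, h⟩ := exists_rw γ
    cases o with
    | none =>
      obtain ⟨rfl, -⟩ := h.of_none
      have := RW.single (φ := S.φ) g 1 1
      rw [map_one, mul_one, tp_one] at this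
      rw [S.r0_eq this, S.r0_eq (RW.nil _)]
      rfl
    | some u =>
      rcases h.mul_tp 1 with ⟨m, h1⟩ | ⟨a, ha, h1, h2⟩
      · rw [tp_one] at h1
        rw [S.r0_eq h, S.r0_eq h1]
        rfl
      · obtain rfl : u = -1 := by rw [h1, neg_neg]
        obtain ⟨b, hb, e⟩ := tp_conj (φ := S.φ) (-1) ha
        rw [neg_neg, tp_one] at e
        have e' : γ * S.e = S.em (g * b) := by
          rw [h2, map_mul, ← e]
          simp only [mul_assoc]
        rw [e', S.r0_eq h, S.r0_eq (RW.nil _)]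
        change (g * b) • S.t = g • S.ap (-1)
        rw [ap_neg_one, mul_smul, S.At b hb]

noncomputable def rO : S.Old → Z := Quot.lift S.r0 S.r0_rel

open Classical in
/-- The retraction that sends a cone crossing the base copy to the translate of `a`. -/
noncomputable def rr (a : Z) : S.ZZ → Z :=
  Sum.elim S.rO fun q =>
    if hq : ∃ g : G, q = QuotientGroup.mk (S.em g) then hq.choose • a else S.r0 (q.out, S.t)

theorem rr_old (a : Z) (γ : S.GG) (z : Z) : S.rr a (γ • S.ι z) = S.r0 (γ, z) := by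
  rw [smul_ι]
  rfl

theorem rr_rw (a : Z) {o : Option ℤˣ} {g : G} {γ : S.GG} {n : ℕ} (h : RW S.φ o g γ n) (z : Z) :
    S.rr a (γ • S.ι z) = S.gt o g z := by
  rw [rr_old, S.r0_eq h]

theorem rr_some (a : Z) {u : ℤˣ} {g : G} {γ : S.GG} {n : ℕ} (h : RW S.φ (some u) g γ n)
    (z : Z) : S.rr a (γ • S.ι z) = g • S.ap u := S.rr_rw a h z

theorem rr_ι (a z : Z) : S.rr a (S.ι z) = z := by
  have := S.rr_rw a (RW.nil 1) z
  rw [map_one, one_smul] at this
  rw [this]
  exact one_smul _ _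

theorem ι_inj {z z' : Z} (h : S.ι z = S.ι z') : z = z' := by
  rw [← S.rr_ι z z, h, S.rr_ι]

theorem rr_far (a : Z) {γ : S.GG} (hγ : γ ∉ S.em.range) (z z' : Z) :
    S.rr a (γ • S.ι z) = S.rr a (γ • S.ι z') := by
  obtain ⟨u, g, n, h⟩ := exists_rw_some hγ
  rw [S.rr_some a h, S.rr_some a h]

theorem rr_smul_old (a : Z) (k : G) (γ : S.GG) (z : Z) :
    S.rr a (S.em k • γ • S.ι z) = k • S.rr a (γ • S.ι z) := by
  obtain ⟨o, g, n, h⟩ := exists_rw γ
  rw [← mul_smul, S.rr_rw a (h.mul_left k), S.rr_rw a h]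
  exact mul_smul _ _ _

theorem rr_cross (a : Z) (g : G) : S.rr a (S.em g • S.w) = g • a := by
  rw [smul_w]
  have hq : ∃ g' : G, (QuotientGroup.mk (S.em g) : S.GG ⧸ Subgroup.zpowers S.e) =
      QuotientGroup.mk (S.em g') := ⟨g, rfl⟩
  refine (dif_pos hq).trans ?_
  obtain ⟨j, hj⟩ := Subgroup.mem_zpowers_iff.1 (QuotientGroup.eq.1 hq.choose_spec)
  rw [← map_inv, ← map_mul] at hj
  have h0 := t_zpow_mem ⟨_, hj.symm⟩
  rw [h0, zpow_zero, ← map_one S.em] at hj
  have := of_injective (φ := S.φ) hj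
  rw [← inv_mul_eq_one.1 this.symm]

theorem line_const (a : Z) {γ : S.GG} (hγ : ∀ j : ℤ, γ * S.e ^ j ∉ S.em.range) (j : ℤ) :
    S.rr a (γ • S.e ^ j • S.ι S.t) = S.rr a (γ • S.ι S.t) := by
  have st : ∀ i : ℤ, S.rr a (γ • S.e ^ (i + 1) • S.ι S.t) = S.rr a (γ • S.e ^ i • S.ι S.t) := by
    intro i
    rw [zpow_add_one, mul_smul, S.e_t, ← mul_smul, ← mul_smul]
    exact S.rr_far a (hγ i) _ _
  induction j using Int.induction_on with
  | zero => simp
  | succ i ih => rw [st, ih]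
  | pred i ih => rw [← st, sub_add_cancel, ih]

theorem rr_nocross (a b : Z) {γ : S.GG} (hγ : ∀ j : ℤ, γ * S.e ^ j ∉ S.em.range) :
    S.rr a (γ • S.w) = S.rr b (γ • S.ι S.t) := by
  have hq : ¬ ∃ g' : G, (QuotientGroup.mk γ : S.GG ⧸ Subgroup.zpowers S.e) =
      QuotientGroup.mk (S.em g') := by
    rintro ⟨g, hg⟩
    obtain ⟨j, hj⟩ := Subgroup.mem_zpowers_iff.1 (QuotientGroup.eq.1 hg)
    exact hγ j ⟨g, by rw [hj, mul_inv_cancel_left]⟩
  rw [smul_w]
  refine (dif_neg hq).trans ?_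
  obtain ⟨⟨_, j, rfl⟩, hj⟩ := QuotientGroup.mk_out_eq_mul (Subgroup.zpowers S.e) γ
  rw [hj, ← S.rr_old b, mul_smul]
  exact S.line_const b hγ j

theorem rr_smul (a : Z) (k : G) (x : S.ZZ) : S.rr a (S.em k • x) = k • S.rr a x := by
  rcases S.cover x with ⟨γ, z, rfl⟩ | ⟨γ, rfl⟩
  · exact S.rr_smul_old a k γ z
  · by_cases hγ : ∀ j : ℤ, γ * S.e ^ j ∉ S.em.range
    · rw [← mul_smul, S.rr_nocross a a hγ, S.rr_nocross a a (γ := S.em k * γ) fun j hj =>
        hγ j (by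
          rw [mul_assoc] at hj
          exact (Subgroup.mul_mem_cancel_left _ (MonoidHom.mem_range.2 ⟨k, rfl⟩)).1 hj),
        mul_smul, S.rr_smul_old]
    · push Not at hγ
      obtain ⟨j, g, hg⟩ := hγ
      rw [(S.smul_w_eq_iff γ (S.em g)).2 ⟨j, hg.symm⟩, ← mul_smul, ← map_mul, rr_cross, rr_cross,
        mul_smul]

/-- One step along the basic line. -/
theorem rr_tp (a : Z) (u : ℤˣ) {o : Option ℤˣ} {g : G} {γ : S.GG} {n : ℕ} (h : RW S.φ o g γ n)
    (z : Z) : S.rr a ((tp S.φ u * γ) • S.ι z) = S.ap u ∨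
      (S.rr a (γ • S.ι z) = S.ap (-u) ∧ wlen (tp S.φ u * γ) + 1 = wlen γ) := by
  by_cases hr : o = some (-u) ∧ g ∈ toSubgroup S.A S.B u
  · obtain ⟨rfl, hg⟩ := hr
    obtain ⟨o', g', m, h', e⟩ := h.cancel hg
    refine Or.inr ⟨?_, by rw [h'.wlen_eq, h.wlen_eq, e]⟩
    rw [S.rr_some a h, S.ap_fix (-u) (by rwa [neg_neg])]
  · left
    rw [S.rr_some a (h.cons_one u hr), one_smul]

theorem exists_pow_gate (a : Z) (u : ℤˣ) (γ : S.GG) (z : Z) :
    ∃ n : ℕ, S.rr a ((tp S.φ u ^ n * γ) • S.ι z) = S.ap u := by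
  induction hn : wlen γ using Nat.strong_induction_on generalizing γ with
  | _ m ih =>
    obtain ⟨o, g, n, h⟩ := exists_rw γ
    rcases S.rr_tp a u h z with h1 | ⟨-, h1⟩
    · exact ⟨1, by rwa [pow_one]⟩
    · obtain ⟨k, hk⟩ := ih _ (by omega) (tp S.φ u * γ) rfl
      exact ⟨k + 1, by rwa [pow_succ, mul_assoc]⟩

theorem line (a : Z) (γ : S.GG) (z : Z) : ∃ j : ℤ, S.rr a (S.e ^ (-j) • γ • S.ι z) ≠ S.h ∧
    (∀ i, i < j → S.rr a (S.e ^ (-i) • γ • S.ι z) = S.h) ∧
    ∀ i, j < i → S.rr a (S.e ^ (-i) • γ • S.ι z) = S.t := by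
  have st : ∀ (u : ℤˣ) (δ : S.GG), S.rr a (δ • S.ι z) ≠ S.ap (-u) →
      S.rr a ((tp S.φ u * δ) • S.ι z) = S.ap u := by
    intro u δ hne
    obtain ⟨o, g, n, h⟩ := exists_rw δ
    exact (S.rr_tp a u h z).resolve_right fun hh => hne hh.1
  set f : ℤ → Z := fun i => S.rr a (S.e ^ (-i) • γ • S.ι z) with hf
  have up : ∀ i, f i ≠ S.h → f (i + 1) = S.t := by
    intro i hi
    have := st (-1) (S.e ^ (-i) * γ) (by rw [neg_neg, ap_one, mul_smul]; exact hi)
    rw [ap_neg_one, tp_neg_one, ← mul_assoc, ← zpow_neg_one, ← zpow_add, mul_smul] at this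
    rw [← this, hf]
    simp only
    rw [show -(i + 1) = -1 + -i by ring]
  have down : ∀ i, f (i + 1) = S.h → f i = S.h := by
    intro i hi
    by_contra hne
    exact S.th ((up i hne).symm.trans hi)
  obtain ⟨n1, h1⟩ := S.exists_pow_gate a 1 γ z
  obtain ⟨n2, h2⟩ := S.exists_pow_gate a (-1) γ z
  have f1 : f (-n1) = S.h := by
    rw [tp_one, ap_one, mul_smul, ← zpow_natCast] at h1
    rw [← h1, hf]
    simp only [neg_neg]
  have f2 : f n2 ≠ S.h := by
    rw [tp_neg_one, ap_neg_one, mul_smul, inv_pow, ← zpow_natCast, ← zpow_neg] at h2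
    exact fun hh => S.th (h2.symm.trans hh)
  have low : ∀ k : ℕ, f (-n1 - k) = S.h := by
    intro k
    induction k with
    | zero => simpa using f1
    | succ k ih => exact down _ (by rw [← ih]; congr 1; push_cast; ring)
  obtain ⟨j, hj, hmin⟩ := Int.exists_least_of_bdd (P := fun i => f i ≠ S.h)
    ⟨-n1, fun i hi => by
      by_contra hlt
      have := low (-n1 - i).toNat
      rw [Int.toNat_of_nonneg (by omega), sub_sub_cancel] at this
      exact hi this⟩ ⟨n2, f2⟩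
  refine ⟨j, hj, fun i hi => ?_, fun i hi => ?_⟩
  · by_contra hne
    exact absurd (hmin i hne) (by omega)
  · have key : ∀ k : ℕ, f (j + 1 + k) = S.t := by
      intro k
      induction k with
      | zero => simpa using up j hj
      | succ k ih =>
        have := up (j + 1 + k) (by rw [ih]; exact S.th)
        rw [← this]
        congr 1
        push_cast
        ring
    have := key (i - j - 1).toNat
    rw [Int.toNat_of_nonneg (by omega), show j + 1 + (i - j - 1) = i by ring] at this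
    exact this

theorem back (a : Z) {γ : S.GG} (hγ : γ ∉ S.em.range) (δ : S.GG) (z z₁ z₂ : Z)
    (hne : S.rr a (δ • S.ι z) ≠ S.rr a (γ • S.ι z₁)) :
    S.rr a (γ⁻¹ • δ • S.ι z) = S.rr a (γ⁻¹ • S.ι z₂) := by
  obtain ⟨u, g, n, h⟩ := exists_rw_some hγ
  obtain ⟨v, k, hk⟩ := h.back
  obtain ⟨o, g', m, h'⟩ := exists_rw δ
  have h1 := hk o g' δ m h' (by
    rintro ⟨rfl, hg⟩
    refine hne ?_
    rw [S.rr_some a h, S.rr_some a h']
    have := S.ap_fix u hg
    rwa [mul_smul, inv_smul_eq_iff] at this)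
  have h2 := hk none 1 _ 0 (RW.nil 1) (by simp)
  rw [map_one, mul_one] at h2
  rw [← mul_smul, S.rr_some a h1, S.rr_some a h2]

theorem next (a : Z) {γ : S.GG} (hγ : γ ∉ S.em.range) (z : Z) : ∃ (σ : S.GG) (b : Z),
    σ • S.ι b = S.ι (S.rr a (γ • S.ι z)) ∧ wlen (σ⁻¹ * γ) < wlen γ := by
  obtain ⟨u, g, n, h⟩ := exists_rw_some hγ
  refine ⟨S.em g * tp S.φ u, S.ap (-u), ?_, ?_⟩
  · rw [S.rr_some a h, mul_smul, tp_ap, ι_smul]
  · obtain ⟨o, k, γ', m, h1, -, e1, e2⟩ := h.of_some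
    rw [h.wlen_eq, e1, inv_mul_cancel_left, h1.wlen_eq]
    omega

/-- The edges of the new space. -/
def adj (x y : S.ZZ) : Prop :=
  (∃ (γ : S.GG) (z z' : Z), x = γ • S.ι z ∧ y = γ • S.ι z' ∧ d z z' ≤ 1) ∨
    (∃ γ : S.GG, x = γ • S.w ∧ y = γ • S.ι S.t) ∨ ∃ γ : S.GG, y = γ • S.w ∧ x = γ • S.ι S.t

theorem adj_symm (x y : S.ZZ) (h : S.adj x y) : S.adj y x := by
  rcases h with ⟨γ, z, z', h1, h2, h3⟩ | h | h
  · exact Or.inl ⟨γ, z', z, h2, h1, by rwa [S.gr.met.symm]⟩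
  · exact Or.inr (Or.inr h)
  · exact Or.inr (Or.inl h)

theorem adj_smul (δ : S.GG) (x y : S.ZZ) (h : S.adj x y) : S.adj (δ • x) (δ • y) := by
  rcases h with ⟨γ, z, z', rfl, rfl, h3⟩ | ⟨γ, rfl, rfl⟩ | ⟨γ, rfl, rfl⟩
  · exact Or.inl ⟨δ * γ, z, z', (mul_smul _ _ _).symm, (mul_smul _ _ _).symm, h3⟩
  · exact Or.inr (Or.inl ⟨δ * γ, (mul_smul _ _ _).symm, (mul_smul _ _ _).symm⟩)
  · exact Or.inr (Or.inr ⟨δ * γ, (mul_smul _ _ _).symm, (mul_smul _ _ _).symm⟩)

theorem gw_copy (γ : S.GG) (z z' : Z) : GW S.adj (d z z') (γ • S.ι z) (γ • S.ι z') :=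
  S.gr.induct z (P := fun n y => GW S.adj n (γ • S.ι z) (γ • S.ι y)) (GW.refl _)
    (fun _ u v _ _ h3 h4 => h4.trans (GW.step (Or.inr (Or.inl ⟨γ, u, v, rfl, rfl, h3.le⟩)))) z'

theorem rtg_of_gw {V : Type} {adj : V → V → Prop} {n : ℕ} {x y : V} (h : GW adj n x y) :
    Relation.ReflTransGen adj x y := by
  obtain ⟨c, rfl, rfl, cs⟩ := h
  induction n with
  | zero => exact Relation.ReflTransGen.refl
  | succ n ih =>
    have := ih fun i hi => cs i (by omega)
    rcases cs n (by omega) with e | e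
    · rwa [← e]
    · exact this.tail e

theorem conn (x y : S.ZZ) : Relation.ReflTransGen S.adj x y := by
  have cp : ∀ (γ : S.GG) z z', Relation.ReflTransGen S.adj (γ • S.ι z) (γ • S.ι z') :=
    fun γ z z' => rtg_of_gw (S.gw_copy γ z z')
  have key : ∀ γ δ : S.GG, Relation.ReflTransGen S.adj (δ • S.ι S.t) ((δ * γ) • S.ι S.t) ∧
      Relation.ReflTransGen S.adj (δ • S.ι S.t) ((δ * γ⁻¹) • S.ι S.t) := by
    intro γ
    induction γ using HNNExtension.induction_on with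
    | of k =>
      intro δ
      rw [← map_inv, mul_smul, mul_smul, ← ι_smul, ← ι_smul]
      exact ⟨cp _ _ _, cp _ _ _⟩
    | t =>
      intro δ
      refine ⟨by rw [mul_smul, S.e_t]; exact cp _ _ _, ?_⟩
      have := cp (δ * S.e⁻¹) S.h S.t
      rwa [← S.e_t, mul_smul, inv_smul_smul] at this
    | mul x y hx hy =>
      intro δ
      exact ⟨by rw [← mul_assoc]; exact (hx δ).1.trans (hy _).1,
        by rw [mul_inv_rev, ← mul_assoc]; exact (hy δ).2.trans (hx _).2⟩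
    | inv x hx =>
      intro δ
      exact ⟨(hx δ).2, by rw [inv_inv]; exact (hx δ).1⟩
  have base : ∀ x, Relation.ReflTransGen S.adj (S.ι S.t) x := by
    intro x
    have k1 : ∀ γ : S.GG, Relation.ReflTransGen S.adj (S.ι S.t) (γ • S.ι S.t) := fun γ => by
      simpa using (key γ 1).1
    rcases S.cover x with ⟨γ, z, rfl⟩ | ⟨γ, rfl⟩
    · exact (k1 γ).trans (cp _ _ _)
    · exact (k1 γ).tail (Or.inr (Or.inr ⟨γ, rfl, rfl⟩))
  have sy : ∀ x, Relation.ReflTransGen S.adj (S.ι S.t) x →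
      Relation.ReflTransGen S.adj x (S.ι S.t) := by
    intro x hx
    induction hx with
    | refl => exact Relation.ReflTransGen.refl
    | tail _ h ih => exact Relation.ReflTransGen.head (S.adj_symm _ _ h) ih
  exact (sy x (base x)).trans (base y)

/-- The metric of the new space. -/
noncomputable def dd : S.ZZ → S.ZZ → ℕ := gd S.adj

theorem dd_gr : IsGr S.dd := (gd_isGr S.adj_symm S.conn).1

theorem dd_le_one (x y : S.ZZ) : S.dd x y ≤ 1 ↔ x = y ∨ S.adj x y :=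
  (gd_isGr S.adj_symm S.conn).2 x y

/-- The step satisfies the gate axioms. -/
noncomputable def gate : Gate G S.GG d S.dd where
  φ := S.em
  ι := S.ι
  t := S.t
  h := S.h
  e := S.e
  w := S.w
  rt := S.rr S.t
  rh := S.rr S.h
  len := wlen
  met := S.gr.met
  met' := S.dd_gr.met
  sep' := S.dd_gr.sep
  geo' := S.dd_gr.geo
  inv := S.inv
  inv' := gd_smul S.adj_smul
  φ_inj := of_injective S.φ
  th := S.th
  dth := S.dth
  ι_smul := S.ι_smul
  e_t := S.e_t
  e_w := S.e_w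
  cover := S.cover
  w_ne := S.w_ne
  stab_w := S.stab_w
  d_ι z z' := by
    have := gd_le (S.gw_copy 1 z z')
    rwa [one_smul, one_smul] at this
  d_w := (S.dd_le_one _ _).2 (Or.inr (Or.inr (Or.inl ⟨1, by simp, by simp⟩)))
  edge x y h := (S.dd_le_one x y).1 h
  rt_ι := S.rr_ι S.t
  rt_smul := S.rr_smul S.t
  rh_smul := S.rr_smul S.h
  rh_old γ z := by rw [rr_old, rr_old]
  far γ hγ := S.rr_far S.t hγ
  far_ap γ hγ z := by
    obtain ⟨u, g, n, h⟩ := exists_rw_some hγ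
    rw [S.rr_some S.t h]
    rcases Int.units_eq_one_or u with rfl | rfl
    · exact ⟨g, Or.inr (by rw [ap_one])⟩
    · exact ⟨g, Or.inl (by rw [ap_neg_one])⟩
  cone γ := by
    by_cases hγ : ∀ j : ℤ, γ * S.e ^ j ∉ S.em.range
    · refine Or.inl ⟨by rw [S.rr_nocross S.h S.t hγ, S.rr_nocross S.t S.t hγ], fun j => ?_⟩
      rw [S.rr_nocross S.t S.t hγ, S.line_const S.t hγ]
    · push Not at hγ
      obtain ⟨j, g, hg⟩ := hγ
      refine Or.inr ⟨g, j, hg.symm, ?_, ?_⟩ <;>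
        rw [(S.smul_w_eq_iff γ (S.em g)).2 ⟨j, hg.symm⟩, rr_cross]
  line := S.line S.t
  back γ hγ := S.back S.t hγ
  next γ hγ := S.next S.t hγ

end SlotD

end Pool.Agent.Lib.MP_429c3d_al.Ng
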