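import Pool.Agent.Lib.MP_429c3d_al.NgQP

set_option autoImplicit false
set_option linter.unusedSectionVars false

/-! Steps and embeddings of stages. -/

namespace Pool.Agent.Lib.MP_429c3d_al.Ng

open Hyp

/-- Equivalence of unordered pairs of points. -/
def PE (G : Type) {Z : Type} [Group G] [MulAction G Z] (x y x' y' : Z) : Prop :=
  ∃ g : G, (g • x = x' ∧ g • y = y') ∨ (g • x = y' ∧ g • y = x')

/-- The properties of a point that was created in the last step. -/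
structure Top (G : Type) {Z : Type} [Group G] [MulAction G Z] (h : Z) : Prop where
  eq : ∀ f f' : G, f • h ≠ h → f' • h ≠ h → f • h ≠ f' • h → PE G h (f • h) h (f' • h) →
    PE G h (f • h) (f • h) (f' • h) → False
  x1 : ∀ g x y : G, x • h = h → y • h = h → g * g * x * g = y * g * y⁻¹ →
    ∃ u : G, u • h = h ∧ x = u * u
  x2 : ∀ s x y : G, x • h = h → y • h = h → s * s * x * s * s = y * s * y⁻¹ → s • h = h
  x3 : ∀ f x y : G, x • h = h → y • h = h → y ≠ 1 →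
    x * f = (f * y * f⁻¹) * y * (f * y * f⁻¹)⁻¹ → f • h = h

variable {AA N K : Type} [CommGroup AA]

namespace St.OK

variable {S : St AA N K} (H : S.OK)
include H

theorem fl_ne {α n : S.Z} (h : S.Fl α n) : n ≠ α := by
  rintro rfl
  have := h.2
  rw [H.gr.met.self] at this
  omega

theorem fl_of_le {α n : S.Z} (h : S.ap α) (hne : n ≠ α) (hd : S.d α n ≤ 1) : S.Fl α n := by
  refine ⟨h, ?_⟩
  have : S.d α n ≠ 0 := fun e => hne (H.gr.sep _ _ e).symm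
  omega

theorem fl_symm {α n : S.Z} (h : S.Fl α n) (hn : S.ap n) : S.Fl n α :=
  ⟨hn, by rw [H.gr.met.symm]; exact h.2⟩

theorem exists_fl {α : S.Z} (h : S.ap α) : ∃ n, S.Fl α n :=
  (H.nb α h).imp fun _ hn => ⟨h, hn⟩

theorem ap_of_fix {a : S.G} {x : S.Z} (ha : a ≠ 1) (h : a • x = x) : S.ap x := by
  by_contra hx
  exact ha (H.free a x hx h)

theorem fix_uniq {a : S.G} {x y : S.Z} (ha : a ≠ 1) (h : a • x = x) (h' : a • y = y) :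
    x = y := by
  by_contra hne
  exact ha (H.two a x y h h' hne)

theorem df_inv {α n n' : S.Z} (h : S.Fl α n) (h' : S.Fl α n') :
    S.df α n' n = (S.df α n n')⁻¹ := H.df_symm h h'

theorem df_fix {a : S.G} {α n n' : S.Z} (h : S.Fl α n) (h' : S.Fl α n') (ha : a • α = α) :
    S.df α (a • n) (a • n') = S.df α n n' := by
  have := H.df_smul a α n n' h h'
  rwa [ha] at this

theorem stab_comm {α : S.Z} {a b : S.G} (ha : a • α = α) (hb : b • α = α) : Commute a b :=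
  H.comm ha hb

theorem mem_lbs {α : S.Z} (h : S.ap α) (η : AA) : η ∈ H.lbs h ↔ η ∈ S.Lb α := Iff.rfl

theorem Lb_smul {α : S.Z} (h : S.ap α) (g : S.G) : S.Lb (g • α) = S.Lb α := by
  have key : ∀ (α : S.Z) (g : S.G), S.ap α → S.Lb α ⊆ S.Lb (g • α) := by
    rintro α g h _ ⟨a, ha, rfl⟩
    exact ⟨g * a * g⁻¹, by rw [mul_smul, mul_smul, inv_smul_smul, ha], H.lab_conj g h ha⟩
  refine Set.Subset.antisymm ?_ (key α g h)
  simpa using key (g • α) g⁻¹ (H.ap_smul g α h)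

theorem np_smul (g : S.G) {t h : S.Z} {η : AA} (hn : S.NP t h η) : S.NP (g • t) (g • h) η := by
  intro f hf e
  rw [H.cls_smul] at hf
  refine hn _ (H.apL_conj g⁻¹ hf) ?_
  rw [inv_inv, mul_smul, mul_smul, e, inv_smul_smul]

/-- No element swaps two different points. -/
theorem no_swap (tf : TF S.G) {t h : S.Z} (hne : t ≠ h) (s : S.G) (h1 : s • t = h) :
    s • h ≠ t := by
  intro h2
  have := H.two (s ^ 2) t h (by rw [pow_two, mul_smul, h1, h2])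
    (by rw [pow_two, mul_smul, h2, h1]) hne
  rw [tf s 2 (by omega) this, one_smul] at h1
  exact hne h1

end St.OK

/-- A step between two stages. -/
structure Stp (S S' : St AA N K) extends Gate S.G S'.G S.d S'.d where
  η : AA
  ξ : AA
  ζ : AA
  x₁ : N
  x₂ : N
  psi : S'.G →* Multiplicative ℤ
  psi_φ : ∀ g, psi (φ g) = 1
  psi_e : psi e = Multiplicative.ofAdd 1
  gen : Subgroup.closure (Set.range φ ∪ {e}) = ⊤
  lift : ∀ (H : Type) [Group H] (f : S.G →* H) (x : H),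
    (∀ a b : S.G, a • t = t → b • h = h → S.lab t a = S.lab h b → x * f a * x⁻¹ = f b) →
    ∃ f' : S'.G →* H, (∀ g, f' (φ g) = f g) ∧ f' e = x
  fl : S.Fl t h
  ap_h : S.ap h
  cls_h : S.cls h = S.cls t
  lb : S.Lb h ⊆ S.Lb t
  η_ne : η ≠ 1
  tfA : TF AA
  ap_ι : ∀ z, S'.ap (ι z) ↔ S.ap z
  ap_w : S'.ap w
  cls_ι : ∀ z, S'.cls (ι z) = S.cls z
  cls_w : S'.cls w = S.cls t
  nm_ι : ∀ α n, S.Fl α n → S'.nm (ι α) (ι n) = S.nm α n
  nm_tw : S'.nm (ι t) w = x₁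
  nm_wt : S'.nm w (ι t) = x₂
  df_ι : ∀ α n n', S.Fl α n → S.Fl α n' → S'.df (ι α) (ι n) (ι n') = S.df α n n'
  df_w : S'.df (ι t) w (ι h) = ξ
  df_e : S'.df (ι t) (ι h) (e⁻¹ • ι t) = ζ
  lab_ι : ∀ α (a : S.G), S.ap α → a • α = α → S'.lab (ι α) (φ a) = S.lab α a
  lab_w : S'.lab w e = η
  conj : ∀ a b : S.G, a • t = t → b • h = h → S.lab t a = S.lab h b → e * φ a * e⁻¹ = φ b
  estab : (∀ g : S.G, g • t ≠ h) → ∀ γ : S'.G, γ • ι t = ι t → γ ∈ φ.range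
  wstab : ∀ s : S.G, s • t = h → ∀ γ : S'.G, γ • ι t = ι t →
    ∃ (a : S.G) (j : ℤ), a • t = t ∧ γ = φ a * ((φ s)⁻¹ * e) ^ j
  chi : ∃ χ : AA →* Multiplicative ℤ, χ η = 1 ∧
    ∀ z (γ : S'.G), S.ap z → γ • ι z = ι z → χ (S'.lab (ι z) γ) = psi γ
  dfs : ∀ U : K → Subgroup AA,
    (∀ α x x', S.Fl α x → S.Fl α x' → S.df α x x' ∈ U (S.cls α)) →
    η ∈ U (S.cls t) → ξ ∈ U (S.cls t) → ζ ∈ U (S.cls t) →
    ∀ α x x', S'.Fl α x → S'.Fl α x' → S'.df α x x' ∈ U (S'.cls α)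

/-- What is known about the head in a step of type `e`. -/
def St.EH (S : St AA N K) (t h : S.Z) : Prop :=
  (∀ g : S.G, g • t ≠ h) → Top S.G h ∧ ∃ b : S.G, ∀ c : S.G, c • h = h ↔ ∃ k : ℤ, c = b ^ k

/-- Embeddings of stages; apices with a final name get no new neighbours. -/
structure Emb (fin : N → Prop) (S S' : St AA N K) where
  φ : S.G →* S'.G
  ι : S.Z → S'.Z
  φ_inj : Function.Injective φ
  ι_smul : ∀ (g : S.G) x, ι (g • x) = φ g • ι x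
  d_ι : ∀ x x', S'.d (ι x) (ι x') = S.d x x'
  ap_ι : ∀ x, S'.ap (ι x) ↔ S.ap x
  cls_ι : ∀ x, S'.cls (ι x) = S.cls x
  nm_ι : ∀ α n, S.Fl α n → S'.nm (ι α) (ι n) = S.nm α n
  df_ι : ∀ α n n', S.Fl α n → S.Fl α n' → S'.df (ι α) (ι n) (ι n') = S.df α n n'
  lab_ι : ∀ α (a : S.G), S.ap α → a • α = α → S'.lab (ι α) (φ a) = S.lab α a
  ret : ∀ x', ∃ x, ∀ a : S.G, S.d x (a • x) ≤ S'.d x' (φ a • x')
  lf : ∀ (t : S.Z) (e : S.G) (n : ℕ), LF t e n → LF (ι t) (φ e) n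
  keep : ∀ α x, S.Fl α x → fin (S.nm α x) → ∀ x', S'.d (ι α) x' = 1 → ∃ x₀, x' = ι x₀

namespace Emb

variable {fin : N → Prop} {S S' S'' : St AA N K}

theorem fl (E : Emb fin S S') {α n : S.Z} (h : S.Fl α n) : S'.Fl (E.ι α) (E.ι n) :=
  ⟨(E.ap_ι α).2 h.1, (E.d_ι α n).trans h.2⟩

theorem fl_iff (E : Emb fin S S') {α n : S.Z} : S'.Fl (E.ι α) (E.ι n) ↔ S.Fl α n :=
  ⟨fun h => ⟨(E.ap_ι α).1 h.1, (E.d_ι α n).symm.trans h.2⟩, E.fl⟩

theorem ι_inj (E : Emb fin S S') (H : S.OK) (H' : S'.OK) : Function.Injective E.ι :=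
  fun x y h => H.gr.sep x y (by rw [← E.d_ι, h, H'.gr.met.self])

theorem fix (E : Emb fin S S') {a : S.G} {x : S.Z} (h : a • x = x) : E.φ a • E.ι x = E.ι x := by
  rw [← E.ι_smul, h]

theorem apL (E : Emb fin S S') {c : S.G} {κ : K} {η : AA} (h : S.ApL c κ η) :
    S'.ApL (E.φ c) κ η := by
  obtain ⟨α, h1, h2, h3, h4⟩ := h
  exact ⟨E.ι α, (E.ap_ι α).2 h1, (E.cls_ι α).trans h2, E.fix h3, (E.lab_ι α c h1 h3).trans h4⟩

theorem lb (E : Emb fin S S') {α : S.Z} (h : S.ap α) : S.Lb α ⊆ S'.Lb (E.ι α) := by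
  rintro _ ⟨a, ha, rfl⟩
  exact ⟨E.φ a, E.fix ha, E.lab_ι α a h ha⟩

theorem big (E : Emb fin S S') {n : ℕ} {y c : S.G} (h : Big S.d n y c) :
    Big S'.d n (E.φ y) (E.φ c) := by
  intro x'
  obtain ⟨x, hx⟩ := E.ret x'
  exact (h x).imp (fun e => e.trans (hx y)) fun e => e.trans (hx c)

theorem esc (E : Emb fin S S') {k n : ℕ} {y c : S.G} (h : Esc S.d k n y c) :
    Esc S'.d k n (E.φ y) (E.φ c) := by
  obtain ⟨j, hj, h⟩ := h
  exact ⟨j, hj, by rw [← map_cs]; exact E.big h⟩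

/-- The identity. -/
def refl (fin : N → Prop) (S : St AA N K) : Emb fin S S where
  φ := MonoidHom.id _
  ι := id
  φ_inj := fun _ _ h => h
  ι_smul := fun _ _ => rfl
  d_ι := fun _ _ => rfl
  ap_ι := fun _ => Iff.rfl
  cls_ι := fun _ => rfl
  nm_ι := fun _ _ _ => rfl
  df_ι := fun _ _ _ _ _ => rfl
  lab_ι := fun _ _ _ _ => rfl
  ret := fun x => ⟨x, fun _ => le_rfl⟩
  lf := fun _ _ _ h => h
  keep := fun _ _ _ _ x' _ => ⟨x', rfl⟩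

/-- Composition. -/
def trans (E : Emb fin S S') (E' : Emb fin S' S'') : Emb fin S S'' where
  φ := E'.φ.comp E.φ
  ι := fun x => E'.ι (E.ι x)
  φ_inj := E'.φ_inj.comp E.φ_inj
  ι_smul := fun g x => by rw [E.ι_smul, E'.ι_smul]; rfl
  d_ι := fun x x' => by rw [E'.d_ι, E.d_ι]
  ap_ι := fun x => (E'.ap_ι _).trans (E.ap_ι x)
  cls_ι := fun x => (E'.cls_ι _).trans (E.cls_ι x)
  nm_ι := fun α n h => (E'.nm_ι _ _ (E.fl h)).trans (E.nm_ι α n h)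
  df_ι := fun α n n' h h' => (E'.df_ι _ _ _ (E.fl h) (E.fl h')).trans (E.df_ι α n n' h h')
  lab_ι := fun α a h ha =>
    (E'.lab_ι _ _ ((E.ap_ι α).2 h) (E.fix ha)).trans (E.lab_ι α a h ha)
  ret := fun x'' => by
    obtain ⟨x', h'⟩ := E'.ret x''
    obtain ⟨x, h⟩ := E.ret x'
    exact ⟨x, fun a => (h a).trans (h' _)⟩
  lf := fun t e n h => E'.lf _ _ n (E.lf t e n h)
  keep := fun α x h hf x'' hx => by
    obtain ⟨x', rfl⟩ := E'.keep _ _ (E.fl h) (by rwa [E.nm_ι α x h]) x'' hx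
    obtain ⟨x₀, rfl⟩ := E.keep α x h hf x' (by rwa [E'.d_ι] at hx)
    exact ⟨x₀, rfl⟩

theorem trans_φ (E : Emb fin S S') (E' : Emb fin S' S'') (g : S.G) :
    (E.trans E').φ g = E'.φ (E.φ g) := rfl

theorem trans_ι (E : Emb fin S S') (E' : Emb fin S' S'') (x : S.Z) :
    (E.trans E').ι x = E'.ι (E.ι x) := rfl

end Emb

namespace Stp

variable {S S' : St AA N K} (X : Stp S S')

/-- The glued points: translates of the tail and of the head. -/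
def Gl (z : S.Z) : Prop := ∃ g : S.G, z = g • X.t ∨ z = g • X.h

theorem ap_t : S.ap X.t := X.fl.1

theorem φ_smul_eq {g : S.G} {z z' : S.Z} : X.φ g • X.ι z = X.ι z' ↔ g • z = z' := by
  rw [← X.ι_smul]
  exact ⟨fun h => X.ι_inj h, congrArg X.ι⟩

theorem gl_of_not_mem {γ : S'.G} (hγ : γ ∉ X.φ.range) {z z' : S.Z} (e : γ • X.ι z = X.ι z') :
    X.Gl z ∧ X.Gl z' := by
  have key : ∀ {γ : S'.G}, γ ∉ X.φ.range → ∀ {z z' : S.Z}, γ • X.ι z = X.ι z' → X.Gl z' := by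
    intro γ hγ z z' e
    have := X.far_ap γ hγ z
    rwa [e, X.rt_ι] at this
  exact ⟨key (γ := γ⁻¹) (by rwa [inv_mem_iff]) (z := z') (by rw [← e, inv_smul_smul]), key hγ e⟩

theorem stab_other {γ : S'.G} {z z' : S.Z} (hz : ¬ X.Gl z) (e : γ • X.ι z = X.ι z') :
    ∃ g : S.G, γ = X.φ g ∧ g • z = z' := by
  by_cases hγ : γ ∈ X.φ.range
  · obtain ⟨g, rfl⟩ := hγ
    exact ⟨g, rfl, X.φ_smul_eq.1 e⟩
  · exact absurd (X.gl_of_not_mem hγ e).1 hz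

theorem gl_mem {z : S.Z} (hz : X.Gl z) : ∃ γ : S'.G, X.ι z = γ • X.ι X.t := by
  obtain ⟨g, rfl | rfl⟩ := hz
  · exact ⟨X.φ g, X.ι_smul _ _⟩
  · exact ⟨X.φ g * X.e, by rw [mul_smul, X.e_t, X.ι_smul]⟩

/-- Two copies have at most one point in common. -/
theorem mem_range_of_two {γ : S'.G} {y y' z z' : S.Z} (h : γ • X.ι y = X.ι z)
    (h' : γ • X.ι y' = X.ι z') (hne : z ≠ z') : γ ∈ X.φ.range := by
  by_contra hγ
  have := X.far γ hγ y y'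
  rw [h, h', X.rt_ι, X.rt_ι] at this
  exact hne this

theorem w_ne_ι (γ : S'.G) (z : S.Z) : γ • X.w ≠ X.ι z := fun h =>
  X.w_ne γ⁻¹ z (by rw [← h, inv_smul_smul])

theorem fl_ι {α n : S.Z} (h : S.Fl α n) : S'.Fl (X.ι α) (X.ι n) :=
  ⟨(X.ap_ι α).2 h.1, (X.d_ι_eq α n).trans h.2⟩

theorem fl_wt (H' : S'.OK) : S'.Fl X.w (X.ι X.t) :=
  H'.fl_of_le X.ap_w (fun e => X.w_ne 1 X.t (by rw [one_smul, e])) X.d_w

theorem fl_tw (H' : S'.OK) : S'.Fl (X.ι X.t) X.w :=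
  H'.fl_symm (X.fl_wt H') ((X.ap_ι _).2 X.ap_t)

theorem fl_ht (H : S.OK) : S.Fl X.h X.t := H.fl_symm X.fl X.ap_h

theorem fl_te (H : S.OK) (H' : S'.OK) : S'.Fl (X.ι X.t) (X.e⁻¹ • X.ι X.t) := by
  have := H'.fl_smul X.e⁻¹ (X.fl_ι (X.fl_ht H))
  rwa [← X.e_t, inv_smul_smul] at this

/-- The three kinds of edges of the new stage. -/
theorem edge_cases (H' : S'.OK) {x y : S'.Z} (h : S'.d x y = 1) :
    (∃ (γ : S'.G) (z z' : S.Z), x = γ • X.ι z ∧ y = γ • X.ι z' ∧ S.d z z' = 1) ∨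
      (∃ γ : S'.G, x = γ • X.ι X.t ∧ y = γ • X.w) ∨
        ∃ γ : S'.G, x = γ • X.w ∧ y = γ • X.ι X.t := by
  rcases X.edge x y h.le with e | ⟨γ, z, z', rfl, rfl, -⟩ | h1 | ⟨γ, h1, h2⟩
  · rw [e, H'.gr.met.self] at h
    omega
  · exact Or.inl ⟨γ, z, z', rfl, rfl, by rwa [X.inv', X.d_ι_eq] at h⟩
  · exact Or.inr (Or.inr h1)
  · exact Or.inr (Or.inl ⟨γ, h2, h1⟩)

/-- The three kinds of flags of the new stage. -/
theorem fl_cases (H' : S'.OK) {x y : S'.Z} (h : S'.Fl x y) :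
    (∃ (γ : S'.G) (z z' : S.Z), x = γ • X.ι z ∧ y = γ • X.ι z' ∧ S.Fl z z') ∨
      (∃ γ : S'.G, x = γ • X.ι X.t ∧ y = γ • X.w) ∨
        ∃ γ : S'.G, x = γ • X.w ∧ y = γ • X.ι X.t := by
  rcases X.edge_cases H' h.2 with ⟨γ, z, z', rfl, rfl, h1⟩ | h1
  · exact Or.inl ⟨γ, z, z', rfl, rfl, (X.ap_ι z).1 ((H'.ap_smul_iff γ _).1 h.1), h1⟩
  · exact Or.inr h1

/-- The names of the flags of the new stage. -/
theorem nm_cases (H' : S'.OK) {x y : S'.Z} (h : S'.Fl x y) :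
    (∃ (γ : S'.G) (z z' : S.Z), x = γ • X.ι z ∧ y = γ • X.ι z' ∧ S.Fl z z' ∧
      S'.nm x y = S.nm z z') ∨
      (∃ γ : S'.G, x = γ • X.ι X.t ∧ y = γ • X.w ∧ S'.nm x y = X.x₁) ∨
        ∃ γ : S'.G, x = γ • X.w ∧ y = γ • X.ι X.t ∧ S'.nm x y = X.x₂ := by
  rcases X.fl_cases H' h with ⟨γ, z, z', rfl, rfl, h1⟩ | ⟨γ, rfl, rfl⟩ | ⟨γ, rfl, rfl⟩
  · exact Or.inl ⟨γ, z, z', rfl, rfl, h1, by rw [H'.nm_smul _ _ _ (X.fl_ι h1), X.nm_ι _ _ h1]⟩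
  · exact Or.inr (Or.inl ⟨γ, rfl, rfl, by rw [H'.nm_smul _ _ _ (X.fl_tw H'), X.nm_tw]⟩)
  · exact Or.inr (Or.inr ⟨γ, rfl, rfl, by rw [H'.nm_smul _ _ _ (X.fl_wt H'), X.nm_wt]⟩)

theorem nb_w (H' : S'.OK) {y : S'.Z} (h : S'.d X.w y = 1) : ∃ j : ℤ, y = X.e ^ j • X.ι X.t := by
  rcases X.edge_cases H' h with ⟨γ, z, z', h1, -, -⟩ | ⟨γ, h1, -⟩ | ⟨γ, h1, rfl⟩
  · exact absurd h1 (X.w_ne _ _)
  · exact absurd h1 (X.w_ne _ _)
  · obtain ⟨j, rfl⟩ := X.stab_w γ h1.symm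
    exact ⟨j, rfl⟩

theorem nb_other (H' : S'.OK) {z : S.Z} (hz : ¬ X.Gl z) {y : S'.Z} (h : S'.d (X.ι z) y = 1) :
    ∃ y₀, y = X.ι y₀ := by
  rcases X.edge_cases H' h with ⟨γ, u, u', h1, rfl, -⟩ | ⟨γ, h1, -⟩ | ⟨γ, h1, -⟩
  · obtain ⟨g, h2, -⟩ := X.stab_other (γ := γ⁻¹) (z' := u) hz (by rw [h1, inv_smul_smul])
    exact ⟨g⁻¹ • u', by rw [X.ι_smul, map_inv, ← h2, inv_inv]⟩
  · obtain ⟨g, -, h2⟩ := X.stab_other (γ := γ⁻¹) (z' := X.t) hz (by rw [h1, inv_smul_smul])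
    exact absurd ⟨g⁻¹, Or.inl (by rw [← h2, inv_smul_smul])⟩ hz
  · exact absurd h1.symm (X.w_ne_ι _ _)

/-- An element that survives conjugation by the new letter. -/
theorem of_conj (H' : S'.OK) {a b : S.G} (e : X.e * X.φ a * X.e⁻¹ = X.φ b) :
    a • X.t = X.t ∧ b • X.h = X.h ∧ S.lab X.t a = S.lab X.h b := by
  have h1 : X.e • X.ι (a • X.t) = X.ι (b • X.h) := by
    rw [X.ι_smul, X.ι_smul, ← e, ← X.e_t, mul_smul, mul_smul, inv_smul_smul]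
  have h2 : b • X.h = X.h := by
    by_contra hne
    have := X.mem_range_of_two h1 X.e_t hne
    exact X.e_zpow_not_mem one_ne_zero (by rwa [zpow_one])
  rw [h2, ← X.e_t, smul_left_cancel_iff] at h1
  have h3 : a • X.t = X.t := X.ι_inj h1
  refine ⟨h3, h2, ?_⟩
  rw [← X.lab_ι _ _ X.ap_t h3, ← X.lab_ι _ _ X.ap_h h2, ← e, ← X.e_t,
    H'.lab_conj _ ((X.ap_ι _).2 X.ap_t) (X.φ_smul_eq.2 h3)]

theorem exists_conj {b : S.G} (hb : b • X.h = X.h) :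
    ∃ a : S.G, a • X.t = X.t ∧ S.lab X.t a = S.lab X.h b ∧ X.e * X.φ a * X.e⁻¹ = X.φ b := by
  obtain ⟨a, h1, h2⟩ := X.lb ⟨b, hb, rfl⟩
  exact ⟨a, h1, h2, X.conj a b h1 hb h2⟩

theorem lst (H : S.OK) (H' : S'.OK) : ∃ χ, LSt S S' X.toGate X.η X.psi χ := by
  obtain ⟨χ, h1, h2⟩ := X.chi
  exact ⟨χ, H, H', X.ap_t, X.ap_h, X.cls_h, X.ap_ι, X.cls_ι, X.ap_w, X.cls_w, X.lab_ι, X.lab_w,
    X.psi_φ, X.psi_e, fun z a hz ha => (h2 z a hz ha).symm, h1⟩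

/-- Pending slots stay free. -/
theorem np_step (H : S.OK) (H' : S'.OK) {t₁ h₁ : S.Z} {η₁ : AA}
    (hfl : S.Fl t₁ h₁) (hn : S.NP t₁ h₁ η₁)
    (h1 : ∀ g : S.G, g • X.t = t₁ → g • X.h = h₁ → η₁ ≠ X.η)
    (h2 : ∀ g : S.G, g • X.h = t₁ → g • X.t = h₁ → η₁ ≠ X.η⁻¹) :
    S'.NP (X.ι t₁) (X.ι h₁) η₁ := by
  obtain ⟨χ, L⟩ := X.lst H H'
  exact L.np hn (H.fl_ne hfl).symm h1 h2

theorem qp_step (H : S.OK) (H' : S'.OK) (hQ : S.QP) (hn : S.NP X.t X.h X.η) : S'.QP := by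
  obtain ⟨χ, L⟩ := X.lst H H'
  exact L.qp X.tfA hQ hn

/-- The step as an embedding. -/
def emb (H' : S'.OK) (fin : N → Prop) (hf : ∀ α x, S.Fl α x → fin (S.nm α x) → ¬ X.Gl α) :
    Emb fin S S' where
  φ := X.φ
  ι := X.ι
  φ_inj := X.φ_inj
  ι_smul := X.ι_smul
  d_ι := X.d_ι_eq
  ap_ι := X.ap_ι
  cls_ι := X.cls_ι
  nm_ι := X.nm_ι
  df_ι := X.df_ι
  lab_ι := X.lab_ι
  ret := fun x' => ⟨X.rt x', fun a => X.rho_short (X.rho_rt x') a⟩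
  lf := fun _ _ _ h => X.lf_keep h
  keep := fun α x h hx _ hd => X.nb_other H' (hf α x h hx) hd

end Stp

/-- The metric invariants in the form that passes to the next stage. -/
def St.Geo (S : St AA N K) (dn : N → N → ℕ) (q c l0 D L f P : ℕ) : Prop :=
  3 ≤ q ∧ 2 ≤ c ∧ 10 * L + 28 ≤ f ∧ 2 * L + 6 ≤ P ∧
    ∃ (g : S.Z → S.Z → Set S.Z) (mk : S.Z → S.Z → Prop), BS S.G S.d g mk q 2 2 (2 * q + 1) ∧
      (∀ x y, S.d x y = 1 → mk x y) ∧ TA S.G S.d g mk c ∧ UU S.G S.d g mk L f ∧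
      PW S.G S.d P L ∧ Det S.d S.ap S.nm dn l0 D

/-- `J` is the union of the chain `S`. -/
structure Exh {fin : N → Prop} {S : ℕ → St AA N K} (E : ∀ n, Emb fin (S n) (S (n + 1)))
    {J : St AA N K} (F : ∀ n, Emb fin (S n) J) : Prop where
  φ : ∀ n g, (F (n + 1)).φ ((E n).φ g) = (F n).φ g
  ι : ∀ n x, (F (n + 1)).ι ((E n).ι x) = (F n).ι x
  G : ∀ g, ∃ n g₀, g = (F n).φ g₀
  Z : ∀ x, ∃ n x₀, x = (F n).ι x₀

end Pool.Agent.Lib.MP_429c3d_al.Ng
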