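import Pool.Agent.Lib.MP_429c3d_al.NgT1

/-! Axes and fixed points of tree automorphisms, acylindrical actions. -/

set_option autoImplicit false

namespace Pool.Agent.Lib.MP_429c3d_al.Ng

open Hyp

namespace BT

variable {H V : Type} [Group H] [MulAction H V] {T : BT H V} {l l' : ℤ → V} {g g' : H} {s s' : ℤ}

/-- `g` translates the line `l` by `s`. -/
def Ax (T : BT H V) (g : H) (l : ℤ → V) (s : ℤ) : Prop := T.IsL l ∧ ∀ j, g • l j = l (j + s)

theorem Ax.mul (h : T.Ax g l s) (h' : T.Ax g' l s') : T.Ax (g * g') l (s + s') :=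
  ⟨h.1, fun j => by rw [mul_smul, h'.2, h.2]; congr 1; ring⟩

theorem Ax.inv (h : T.Ax g l s) : T.Ax g⁻¹ l (-s) :=
  ⟨h.1, fun j => by rw [inv_smul_eq_iff, h.2]; congr 1; ring⟩

theorem shift_zpow (h : ∀ j, g • l j = l (j + s)) (k j : ℤ) : g ^ k • l j = l (j + k * s) := by
  induction k using Int.induction_on generalizing j with
  | zero => simp
  | succ k ih => rw [zpow_add_one, mul_smul, h, ih]; congr 1; ring
  | pred k ih =>
    rw [zpow_sub_one, mul_smul, show g⁻¹ • l j = l (j - s) by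
      rw [inv_smul_eq_iff, h, sub_add_cancel], ih]
    congr 1; ring

theorem Ax.zpow (h : T.Ax g l s) (k : ℤ) : T.Ax (g ^ k) l (k * s) := ⟨h.1, shift_zpow h.2 k⟩

theorem Ax.conj (h : T.Ax g l s) (a : H) : T.Ax (a * g * a⁻¹) (fun j => a • l j) s :=
  ⟨h.1.smul a, fun j => by rw [mul_smul, mul_smul, inv_smul_smul, h.2]⟩

theorem Ax.add (h : T.Ax g l s) (u : ℤ) : T.Ax g (fun j => l (u + j)) s :=
  ⟨h.1.add u, fun j => by rw [h.2, add_assoc]⟩

theorem Ax.sub (h : T.Ax g l s) (u : ℤ) : T.Ax g (fun j => l (u - j)) (-s) :=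
  ⟨h.1.sub u, fun j => by rw [h.2]; congr 1; ring⟩

theorem Ax.unique (h : T.Ax g l s) (h' : T.Ax g l s') : s = s' := by
  have := h.1.inj ((h.2 0).symm.trans (h'.2 0))
  omega

theorem IsL.even (h : T.IsL l) {i j : ℤ} (e : g • l i = l j) : (i - j) % 2 = 0 := by
  rw [← h.par, ← e, T.ap_smul]

theorem Ax.even (h : T.Ax g l s) : s % 2 = 0 := by
  have := h.1.even (h.2 0)
  omega

theorem Ax.disp (h : T.Ax g l s) (hs : s ≠ 0) {x : V} {p : ℤ} {D : ℕ} (hx : T.Ft l x p D) :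
    T.d x (g • x) = 2 * D + s.natAbs := by
  have h1 : T.Ft l (g • x) (p + s) D := fun k => by
    rw [show l k = g • l (k - s) by rw [h.2, sub_add_cancel], T.inv, hx]
    omega
  rw [hx.via h.1 h1 (by omega)]
  omega

theorem Ax.le_disp (h : T.Ax g l s) (x : V) : s.natAbs ≤ T.d x (g • x) := by
  by_cases hs : s = 0
  · omega
  obtain ⟨p, D, hx⟩ := h.1.exists_ft x
  rw [h.disp hs hx]
  omega

theorem Ax.not_fix (h : T.Ax g l s) (hs : s ≠ 0) (x : V) : g • x ≠ x := fun e => by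
  have := h.le_disp x
  rw [e, T.self] at this
  omega

theorem Ax.mem (h : T.Ax g l s) (hs : s ≠ 0) {x : V} (hx : T.d x (g • x) ≤ s.natAbs) :
    ∃ p, x = l p := by
  obtain ⟨p, D, h1⟩ := h.1.exists_ft x
  rw [h.disp hs h1] at hx
  obtain rfl : D = 0 := by omega
  exact ⟨p, h1.eq⟩

theorem Ax.d_eq (h : T.Ax g l s) (j : ℤ) : T.d (l j) (g • l j) = s.natAbs := by
  rw [h.2, h.1]
  omega

theorem Ax.natAbs_eq (h : T.Ax g l s) (h' : T.Ax g l' s') : s.natAbs = s'.natAbs := by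
  have a := h.le_disp (l' 0)
  have b := h'.le_disp (l 0)
  rw [h'.d_eq] at a
  rw [h.d_eq] at b
  omega

theorem IsL.sub_line (h : T.IsL l) (h' : T.IsL l') (hm : ∀ j, ∃ p, l' j = l p) :
    ∃ u, (∀ j, l' j = l (u + j)) ∨ ∀ j, l' j = l (u - j) := by
  choose f hf using hm
  have key : ∀ i j, (f i - f j).natAbs = (i - j).natAbs := fun i j => by
    rw [← h, ← hf, ← hf, h']
  refine ⟨f 0, ?_⟩
  have h1 := key 1 0
  rcases le_total (f 0) (f 1) with h2 | h2
  · refine Or.inl fun j => ?_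
    have := key j 0
    have := key j 1
    rw [hf]; congr 1; omega
  · refine Or.inr fun j => ?_
    have := key j 0
    have := key j 1
    rw [hf]; congr 1; omega

theorem Ax.same (h : T.Ax g l s) (hs : s ≠ 0) (h' : T.Ax g l' s') :
    ∃ u, (s' = s ∧ ∀ j, l' j = l (u + j)) ∨ (s' = -s ∧ ∀ j, l' j = l (u - j)) := by
  obtain ⟨u, hu | hu⟩ := h.1.sub_line h'.1 fun j =>
    h.mem hs (by rw [h'.d_eq, h.natAbs_eq h'])
  · refine ⟨u, Or.inl ⟨?_, hu⟩⟩
    have := h'.2 0
    rw [hu, hu, h.2] at this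
    have := h.1.inj this
    omega
  · refine ⟨u, Or.inr ⟨?_, hu⟩⟩
    have := h'.2 0
    rw [hu, hu, h.2] at this
    have := h.1.inj this
    omega

/-- A point whose orbit path is locally geodesic lies on an axis. -/
theorem ax_of {x a : V} (h1 : T.d x a = 1) (h2 : T.d a (g • x) < T.d x (g • x))
    (h3 : T.d x (g • x) < T.d x (g • a)) :
    ∃ l, T.Ax g l (T.d x (g • x)) ∧ l 0 = x ∧ l 1 = a := by
  obtain ⟨c, c0, c1, c2⟩ := T.gr.exists_geo x (g • x)
  have hp := T.par_smul g x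
  have t1 := T.tri x a (g • x)
  have t2 := T.tri x (g • x) (g • a)
  rw [T.inv] at t2
  generalize hn : T.d x (g • x) = n at *
  have ca : c 1 = a := by
    have e1 := c2 0 1 le_rfl (by omega) (by omega)
    have e2 := c2 1 n (by omega) (by omega) le_rfl
    rw [c0] at e1
    rw [c1] at e2
    exact T.uniq (x := x) (y := g • x) (by omega) (by omega) (by omega)
  have n0 : (n : ℤ) ≠ 0 := by omega
  obtain ⟨f, hf⟩ : ∃ f : ℤ → V, ∀ j, f j = g ^ (j / n) • c (j % n).toNat := ⟨_, fun _ => rfl⟩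
  have sh : ∀ j, g • f j = f (j + n) := fun j => by
    rw [hf, hf, Int.add_emod_right, Int.add_ediv_of_dvd_right dvd_rfl, Int.ediv_self n0,
      add_comm, zpow_one_add, mul_smul]
  have f0 : ∀ k : ℕ, k < n → f k = c k := fun k hk => by
    rw [hf, Int.ediv_eq_zero_of_lt (by omega) (by omega), Int.emod_eq_of_lt (by omega) (by omega)]
    simp
  have fx : f 0 = x := by simpa [c0] using f0 0 (by omega)
  have fa : f 1 = a := by simpa [ca] using f0 1 (by omega)
  have f1 : ∀ k : ℕ, k ≤ n → f k = c k := fun k hk => by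
    rcases eq_or_lt_of_le hk with rfl | hk
    · rw [c1, ← fx, sh, zero_add]
    · exact f0 k hk
  have dx : ∀ k : ℕ, k ≤ n + 1 → T.d x (f k) = k := fun k hk => by
    rcases eq_or_lt_of_le hk with rfl | hk
    · rw [show ((n + 1 : ℕ) : ℤ) = 1 + n by push_cast; ring, ← sh, fa]
      omega
    · have := c2 0 k le_rfl (by omega) (by omega)
      rw [c0] at this
      rw [f1 k (by omega)]
      omega
  have red : ∀ j : ℤ, ∃ (k : ℕ) (q : ℤ), k < n ∧ ∀ i, f (j + i) = g ^ q • f (k + i) := fun j => by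
    have a1 := Int.emod_nonneg j n0
    have a2 := Int.emod_lt_of_pos j (show (0 : ℤ) < n by omega)
    refine ⟨(j % n).toNat, j / n, by omega, fun i => ?_⟩
    rw [shift_zpow sh, Int.toNat_of_nonneg a1]
    congr 1
    have := Int.emod_add_mul_ediv j n
    linarith
  refine ⟨f, ⟨isL_of_local (fun j => ?_) fun j => ?_, sh⟩, fx, fa⟩
  · obtain ⟨k, q, hk, e⟩ := red j
    have e0 := e 0
    rw [add_zero, add_zero] at e0
    have := c2 k (k + 1) (by omega) (by omega) hk
    rw [e0, e 1, T.inv, f0 k hk, ← Nat.cast_add_one, f1 (k + 1) hk]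
    omega
  · obtain ⟨k, q, hk, e⟩ := red j
    have e0 := e 0
    rw [add_zero, add_zero] at e0
    rw [e0, e 2]
    intro h
    have a1 := dx k (by omega)
    have a2 := dx (k + 2) (by omega)
    push_cast at a2
    rw [smul_left_cancel _ h] at a2
    omega

theorem exists_ax [Nonempty V] (h : ∀ x : V, g • x ≠ x) : ∃ l s, 0 < s ∧ T.Ax g l s := by
  obtain ⟨x, hx⟩ := exists_min fun x : V => T.d x (g • x)
  have h0 := T.pos (h x).symm
  have hp := T.par_smul g x
  obtain ⟨a, a1, a2⟩ := T.exists_pt x (g • x) (k := 1) h0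
  obtain ⟨u, u1, u2⟩ := T.exists_pt x (g • x) (k := T.d x (g • x) - 1) (by omega)
  have h1 : g • a ≠ u := fun e => by
    have b1 := hx a
    have b2 := T.hyp a u x (g • x)
    rw [T.symm a x, T.symm u x] at b2
    simp only [e] at b1
    omega
  have h2 := T.nbr_far (x := x) (p := g • x) (u := u) (v := g • a) (by omega) (by omega)
    (by rw [T.inv, a1]) h1
  obtain ⟨l, hl, -⟩ := ax_of (T := T) (g := g) a1 (by omega) (by omega)
  exact ⟨l, _, by omega, hl⟩

theorem ell_or_ax (T : BT H V) [Nonempty V] (g : H) :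
    (∃ x : V, g • x = x) ∨ ∃ l s, 0 < s ∧ T.Ax g l s := by
  by_cases h : ∃ x : V, g • x = x
  · exact Or.inl h
  · exact Or.inr (exists_ax fun x e => h ⟨x, e⟩)

/-- The midpoint between `x` and `g x` is fixed by an elliptic `g`. -/
theorem exists_mid (T : BT H V) {x₀ : V} (h : g • x₀ = x₀) (x : V) :
    ∃ m, g • m = m ∧ T.d x (g • x) = 2 * T.d x m ∧ T.d m (g • x) = T.d x m ∧
      T.d x m + T.d m x₀ = T.d x x₀ := by
  obtain ⟨m, a, b, c⟩ := T.median x₀ x (g • x)
  have e : T.d x₀ (g • x) = T.d x₀ x := by rw [← T.inv g x₀ x, h]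
  have e1 : T.d x₀ (g • m) = T.d x₀ m := by rw [← T.inv g x₀ m, h]
  have e2 := T.inv g m x
  have e3 := T.symm x m
  have e4 := T.symm x₀ m
  have e5 := T.symm x₀ x
  exact ⟨m, T.uniq (x := x₀) (y := g • x) (by omega) b e1, by omega, by omega, by omega⟩

theorem serre (T : BT H V) {a b : H} {x y z : V} (hx : a • x = x) (hy : b • y = y)
    (hz : (a * b) • z = z) : ∃ m : V, a • m = m ∧ b • m = m := by
  obtain ⟨m, m1, m2, m3, -⟩ := T.exists_mid hy z
  obtain ⟨m', n1, n2, n3, -⟩ := T.exists_mid (g := a⁻¹) (inv_smul_eq_iff.2 hx.symm) z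
  have e : a⁻¹ • z = b • z := by rw [inv_smul_eq_iff, ← mul_smul, hz]
  rw [e] at n2 n3
  obtain rfl : m = m' := T.uniq (x := z) (y := b • z) (by omega) (by omega) (by omega)
  exact ⟨m, (inv_smul_eq_iff.1 n1).symm, m1⟩

theorem ell_of_zpow (T : BT H V) {k : ℤ} (hk : k ≠ 0) {x : V} (h : g ^ k • x = x) :
    ∃ y : V, g • y = y := by
  have : Nonempty V := ⟨x⟩
  rcases T.ell_or_ax g with h1 | ⟨l, s, h1, h2⟩
  · exact h1
  · exact absurd h ((h2.zpow k).not_fix (mul_ne_zero hk h1.ne') x)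

/-- An element which moves `x` at least as far as its square does is elliptic. -/
theorem ell_of_sq (T : BT H V) {x : V} (h : T.d x (g • g • x) ≤ T.d x (g • x)) :
    ∃ y : V, g • y = y := by
  have : Nonempty V := ⟨x⟩
  rcases T.ell_or_ax g with h1 | ⟨l, s, h1, h2⟩
  · exact h1
  · obtain ⟨p, D, hp⟩ := h2.1.exists_ft x
    rw [← mul_smul, (h2.mul h2).disp (by omega) hp, h2.disp h1.ne' hp] at h
    omega

/-- Acylindricity hypotheses. -/
structure AC (T : BT H V) : Prop where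
  ne : Nonempty V
  acyl : ∀ (g : H) (x y : V), T.ap x → T.ap y → g • x = x → g • y = y → x = y ∨ g = 1
  ab : ∀ (a b : H) (x : V), T.ap x → a • x = x → b • x = x → a * b = b * a
  tfv : ∀ (g : H) (x : V) (n : ℕ), g • x = x → n ≠ 0 → g ^ n = 1 → g = 1

namespace AC

variable (A : T.AC)
include A

theorem tf {n : ℕ} (hn : n ≠ 0) (h : g ^ n = 1) : g = 1 := by
  obtain ⟨x⟩ := A.ne
  obtain ⟨y, hy⟩ := T.ell_of_zpow (g := g) (k := n) (by omega) (x := x)
    (by rw [zpow_natCast, h, one_smul])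
  exact A.tfv g y n hy hn h

theorem tfz {k : ℤ} (hk : k ≠ 0) (h : g ^ k = 1) : g = 1 := by
  refine A.tf (n := k.natAbs) (by omega) ?_
  rw [← zpow_natCast]
  rcases Int.natAbs_eq k with e | e
  · rw [← e, h]
  · rw [show (k.natAbs : ℤ) = -k by omega, zpow_neg, h, inv_one]

theorem sq (h : g * g = 1) : g = 1 := A.tf (n := 2) (by omega) (by rw [pow_two, h])

theorem fix2 {x y : V} (hx : g • x = x) (hy : g • y = y) (ha : T.ap x) (h : 2 ≤ T.d x y) :
    g = 1 := by
  obtain ⟨u, u1, u2⟩ := T.exists_pt x y h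
  rcases A.acyl g x u ha (((T.par x u).2 (by omega)).1 ha) hx
    (T.fix_of_between hx hy (by omega)) with e | e
  · exact absurd e (T.ne_of (by omega))
  · exact e

theorem fix3 {x y : V} (hx : g • x = x) (hy : g • y = y) (h : 3 ≤ T.d x y) : g = 1 := by
  by_cases ha : T.ap x
  · exact A.fix2 hx hy ha (by omega)
  · obtain ⟨u, u1, u2⟩ := T.exists_pt x y (k := 1) (by omega)
    have := T.bip u x (by rw [T.symm, u1])
    exact A.fix2 (T.fix_of_between hx hy (by omega)) hy (this.2 ha) (by omega)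

theorem flip3 {x y : V} (hx : g • x = y) (hy : g • y = x) (h : 3 ≤ T.d x y) : False := by
  have e : g = 1 := A.sq (A.fix3 (x := x) (y := y) (by rw [mul_smul, hx, hy])
    (by rw [mul_smul, hy, hx]) h)
  rw [e, one_smul] at hx
  exact T.ne_of (by omega) hx

theorem flip2 {x y : V} (hx : g • x = y) (hy : g • y = x) (ha : T.ap x) (h : x ≠ y) : False := by
  have h1 := T.par_smul g x
  have h2 := T.pos h
  rw [hx] at h1
  have e : g = 1 := A.sq (A.fix2 (x := x) (y := y) (by rw [mul_smul, hx, hy])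
    (by rw [mul_smul, hy, hx]) ha (by omega))
  rw [e, one_smul] at hx
  exact h hx

theorem eq3 {x y : V} (hx : g • x = g' • x) (hy : g • y = g' • y) (h : 3 ≤ T.d x y) : g = g' :=
  (inv_mul_eq_one.1 (A.fix3 (x := x) (y := y) (by rw [mul_smul, hx, inv_smul_smul])
    (by rw [mul_smul, hy, inv_smul_smul]) h)).symm

theorem eq2 {x y : V} (hx : g • x = g' • x) (hy : g • y = g' • y) (ha : T.ap x)
    (h : 2 ≤ T.d x y) : g = g' :=
  (inv_mul_eq_one.1 (A.fix2 (x := x) (y := y) (by rw [mul_smul, hx, inv_smul_smul])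
    (by rw [mul_smul, hy, inv_smul_smul]) ha h)).symm

theorem ax_eq (h : T.Ax g l s) (h' : T.Ax g' l s) : g = g' :=
  A.eq3 (x := l 0) (y := l 3) (by rw [h.2, h'.2]) (by rw [h.2, h'.2]) (by rw [h.1]; decide)

theorem ax_comm (h : T.Ax g l s) (h' : T.Ax g' l s') : g * g' = g' * g :=
  A.ax_eq (h.mul h') (by rw [add_comm]; exact h'.mul h)

theorem not_rev (hl : T.IsL l) {u : ℤ} (h : ∀ j, g • l j = l (u - j)) : False := by
  have := hl.even (h 0)
  exact A.flip3 (x := l (u / 2 - 2)) (y := l (u / 2 + 2)) (g := g)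
    (by rw [h]; congr 1; omega) (by rw [h]; congr 1; omega) (by rw [hl]; omega)

theorem ax_of_mem (hl : T.IsL l) (h : ∀ j, ∃ p, g • l j = l p) : ∃ u, T.Ax g l u := by
  obtain ⟨u, hu | hu⟩ := hl.sub_line (hl.smul g) h
  · exact ⟨u, hl, fun j => by rw [hu, add_comm]⟩
  · exact (A.not_rev hl hu).elim

/-- An element conjugating one translation of `l` to another one translates `l`. -/
theorem ax_of_conj (h : T.Ax g l s) (hs : s ≠ 0) {a : H} (h' : T.Ax (a * g * a⁻¹) l s') :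
    ∃ u, T.Ax a l u := by
  have e := (h.conj a).natAbs_eq h'
  refine A.ax_of_mem h.1 fun j => h'.mem (by omega) ?_
  rw [(h.conj a).d_eq, e]

theorem ax_of_comm (h : T.Ax g l s) (hs : s ≠ 0) {a : H} (e : a * g = g * a) :
    ∃ u, T.Ax a l u :=
  A.ax_of_conj h hs (s' := s) (by rwa [e, mul_inv_cancel_right])

end AC

/-- `y` generates the group of translations of `l`. -/
structure Prim (T : BT H V) (y : H) (l : ℤ → V) (n : ℤ) : Prop where
  pos : 0 < n
  ax : T.Ax y l (2 * n)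
  gen : ∀ z u, T.Ax z l u → ∃ k : ℤ, z = y ^ k ∧ u = k * (2 * n)

theorem AC.exists_prim (A : T.AC) (h : T.Ax g l s) (hs : s ≠ 0) : ∃ y n, T.Prim y l n := by
  obtain ⟨u, ⟨u0, y, hy⟩, hm⟩ := Int.exists_least_of_bdd (P := fun u => 0 < u ∧ ∃ z, T.Ax z l u)
    ⟨0, fun u hu => hu.1.le⟩ (by
      rcases lt_or_gt_of_ne hs with h1 | h1
      exacts [⟨-s, by omega, _, h.inv⟩, ⟨s, h1, _, h⟩])
  have := hy.even
  obtain ⟨n, rfl⟩ : ∃ n, u = 2 * n := ⟨u / 2, by omega⟩
  refine ⟨y, n, by omega, hy, fun z u hz => ?_⟩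
  have a1 := Int.emod_nonneg u u0.ne'
  have a2 := Int.emod_lt_of_pos u u0
  have a3 := Int.emod_add_mul_ediv u (2 * n)
  have a4 := hz.mul (hy.zpow (u / (2 * n))).inv
  rw [show u + -(u / (2 * n) * (2 * n)) = u % (2 * n) by linarith] at a4
  have a5 : u % (2 * n) = 0 := by
    by_contra h0
    have := hm _ ⟨by omega, _, a4⟩
    omega
  have a6 : u = u / (2 * n) * (2 * n) := by linarith
  exact ⟨u / (2 * n), A.ax_eq hz (by rw [a6]; simpa [← a6] using hy.zpow (u / (2 * n))), a6⟩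

theorem Prim.add {y : H} {n : ℤ} (h : T.Prim y l n) (u : ℤ) : T.Prim y (fun j => l (u + j)) n :=
  ⟨h.pos, h.ax.add u, fun z v hz => h.gen z v (by simpa using hz.add (-u))⟩

theorem Prim.sub {y : H} {n : ℤ} (h : T.Prim y l n) (u : ℤ) :
    T.Prim y⁻¹ (fun j => l (u - j)) n := by
  refine ⟨h.pos, by simpa using (h.ax.sub u).inv, fun z v hz => ?_⟩
  obtain ⟨k, e1, e2⟩ := h.gen z (-v) (by simpa using hz.sub u)
  exact ⟨-k, by rw [e1]; group, by linarith⟩

theorem Prim.conj {y : H} {n : ℤ} (h : T.Prim y l n) (a : H) :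
    T.Prim (a * y * a⁻¹) (fun j => a • l j) n := by
  refine ⟨h.pos, h.ax.conj a, fun z v hz => ?_⟩
  obtain ⟨k, e1, e2⟩ := h.gen _ v (by simpa using hz.conj a⁻¹)
  exact ⟨k, by rw [conj_zpow, ← e1]; group, e2⟩

end BT

end Pool.Agent.Lib.MP_429c3d_al.Ng
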