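import Pool.Agent.Lib.MP_429c3d_al.NgT2

/-! Commutation, long overlaps, critical reversals. -/

set_option autoImplicit false

namespace Pool.Agent.Lib.MP_429c3d_al.Ng

open Hyp

section TopK

variable {H Z : Type} [Group H] [MulAction H Z]

/-- The unordered pairs are equivalent under `K`. -/
def PK (K : Subgroup H) (x y x' y' : Z) : Prop :=
  ∃ g ∈ K, (g • x = x' ∧ g • y = y') ∨ (g • x = y' ∧ g • y = x')

/-- The properties of a freshly created apex `h`. -/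
structure TopK (K : Subgroup H) (h : Z) : Prop where
  eq : ∀ f ∈ K, ∀ f' ∈ K, f • h ≠ h → f' • h ≠ h → f • h ≠ f' • h →
    PK K h (f • h) h (f' • h) → PK K h (f • h) (f • h) (f' • h) → False
  x1 : ∀ x ∈ K, ∀ y ∈ K, ∀ g ∈ K, x • h = h → y • h = h → g * g * x * g = y * g * y⁻¹ →
    ∃ u ∈ K, u • h = h ∧ x = u * u
  x2 : ∀ x ∈ K, ∀ y ∈ K, ∀ s ∈ K, x • h = h → y • h = h → s * s * x * s * s = y * s * y⁻¹ →
    s • h = h
  x3 : ∀ x ∈ K, ∀ y ∈ K, ∀ f ∈ K, x • h = h → y • h = h → y ≠ 1 →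
    x * f = f * y * f⁻¹ * y * (f * y * f⁻¹)⁻¹ → f • h = h

variable {K : Subgroup H} {x y x' y' x'' y'' : Z}

theorem PK.symm (h : PK K x y x' y') : PK K x' y' x y := by
  obtain ⟨g, hg, ⟨rfl, rfl⟩ | ⟨rfl, rfl⟩⟩ := h
  · exact ⟨g⁻¹, inv_mem hg, Or.inl ⟨inv_smul_smul _ _, inv_smul_smul _ _⟩⟩
  · exact ⟨g⁻¹, inv_mem hg, Or.inr ⟨inv_smul_smul _ _, inv_smul_smul _ _⟩⟩

theorem PK.trans (h : PK K x y x' y') (h' : PK K x' y' x'' y'') : PK K x y x'' y'' := by
  obtain ⟨g, hg, ⟨rfl, rfl⟩ | ⟨rfl, rfl⟩⟩ := h <;>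
    obtain ⟨g', hg', ⟨rfl, rfl⟩ | ⟨rfl, rfl⟩⟩ := h' <;>
    exact ⟨g' * g, mul_mem hg' hg, by simp [mul_smul]⟩

theorem PK.swap (h : PK K x y x' y') : PK K x y y' x' := by
  obtain ⟨g, hg, h⟩ := h
  exact ⟨g, hg, h.symm⟩

theorem PK.of (g : H) (h1 : g • x = x') (h2 : g • y = y') : PK (⊤ : Subgroup H) x y x' y' :=
  ⟨g, trivial, Or.inl ⟨h1, h2⟩⟩

/-- Transport along an equivariant embedding. -/
theorem TopK.map {H' Z' : Type} [Group H'] [MulAction H' Z'] {h : Z} (hT : TopK K h) (φ : H →* H')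
    (hφ : Function.Injective φ) (ι : Z → Z') (hι : ∀ g ∈ K, ∀ g' ∈ K, ι (g • h) = ι (g' • h) →
      g • h = g' • h) (he : ∀ g ∈ K, ∀ g' ∈ K, ι (g • g' • h) = φ g • ι (g' • h)) :
    TopK (K.map φ) (ι h) := by
  have e1 : ∀ g ∈ K, φ g • ι h = ι (g • h) := fun g hg => by
    simpa using (he g hg 1 (one_mem _)).symm
  have e2 : ∀ g ∈ K, φ g • ι h = ι h → g • h = h := fun g hg e => by
    simpa using hι g hg 1 (one_mem _) (by rw [← e1 g hg, e, one_smul])
  have pe : ∀ a ∈ K, ∀ b ∈ K, ∀ c ∈ K, ∀ d ∈ K,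
      PK (K.map φ) (ι (a • h)) (ι (b • h)) (ι (c • h)) (ι (d • h)) →
      PK K (a • h) (b • h) (c • h) (d • h) := by
    rintro a ha b hb c hc d hd ⟨_, ⟨g, hg, rfl⟩, e⟩
    rw [← he g hg a ha, ← he g hg b hb, ← mul_smul, ← mul_smul] at e
    refine ⟨g, hg, ?_⟩
    rw [← mul_smul, ← mul_smul]
    exact e.imp (fun e => ⟨hι _ (mul_mem hg ha) _ hc e.1, hι _ (mul_mem hg hb) _ hd e.2⟩)
      fun e => ⟨hι _ (mul_mem hg ha) _ hd e.1, hι _ (mul_mem hg hb) _ hc e.2⟩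
  refine ⟨?_, ?_, ?_, ?_⟩
  · rintro _ ⟨f, hf, rfl⟩ _ ⟨f', hf', rfl⟩ h1 h2 h3 h4 h5
    rw [e1 f hf, e1 f' hf'] at *
    refine hT.eq f hf f' hf' (fun e => h1 (by rw [e])) (fun e => h2 (by rw [e]))
      (fun e => h3 (by rw [e])) ?_ ?_
    · simpa using pe 1 (one_mem _) f hf 1 (one_mem _) f' hf' (by simpa using h4)
    · simpa using pe 1 (one_mem _) f hf f hf f' hf' (by simpa using h5)
  · rintro _ ⟨x, hx, rfl⟩ _ ⟨y, hy, rfl⟩ _ ⟨g, hg, rfl⟩ h1 h2 h3
    obtain ⟨u, hu, u1, rfl⟩ := hT.x1 x hx y hy g hg (e2 x hx h1) (e2 y hy h2)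
      (hφ (by simpa using h3))
    exact ⟨φ u, ⟨u, hu, rfl⟩, by rw [e1 u hu, u1], map_mul _ _ _⟩
  · rintro _ ⟨x, hx, rfl⟩ _ ⟨y, hy, rfl⟩ _ ⟨g, hg, rfl⟩ h1 h2 h3
    rw [e1 g hg, hT.x2 x hx y hy g hg (e2 x hx h1) (e2 y hy h2) (hφ (by simpa using h3))]
  · rintro _ ⟨x, hx, rfl⟩ _ ⟨y, hy, rfl⟩ _ ⟨g, hg, rfl⟩ h1 h2 h3 h4
    rw [e1 g hg, hT.x3 x hx y hy g hg (e2 x hx h1) (e2 y hy h2) (fun e => h3 (by rw [e, map_one]))
      (hφ (by simpa using h4))]

end TopK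

namespace BT

variable {H V : Type} [Group H] [MulAction H V] {T : BT H V} {l l' : ℤ → V} {g g' y : H}
  {s s' n : ℤ}

/-- The centre of the fixed point set. -/
def Ctr (T : BT H V) (a : H) (z : V) : Prop := a • z = z ∧ (T.ap z ∨ ∀ x : V, a • x = x → x = z)

theorem exists_ctr (T : BT H V) {a : H} {x : V} (h : a • x = x) : ∃ z, T.Ctr a z := by
  by_cases h1 : ∃ z, T.ap z ∧ a • z = z
  · obtain ⟨z, z1, z2⟩ := h1
    exact ⟨z, z2, Or.inl z1⟩
  · refine ⟨x, h, Or.inr fun y hy => by_contra fun hne => ?_⟩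
    obtain ⟨u, u1, u2⟩ := T.exists_pt x y (k := 1) (T.pos (Ne.symm hne))
    have := T.bip x u u1
    exact h1 ⟨u, by_contra fun hu => h1 ⟨x, this.2 hu, h⟩, T.fix_of_between h hy (by omega)⟩

theorem AC.ctr_eq (A : T.AC) {a : H} {z x : V} (ha : a ≠ 1) (h : T.Ctr a z) (hx : a • x = x)
    (e : T.ap x ↔ T.ap z) : x = z := by
  rcases h.2 with h1 | h1
  · exact (A.acyl a x z (e.2 h1) h1 hx h.1).resolve_right ha
  · exact h1 x hx

theorem AC.ctr_fix (A : T.AC) {a b : H} {z : V} (ha : a ≠ 1) (h : T.Ctr a z) (e : b * a = a * b) :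
    b • z = z :=
  A.ctr_eq ha h (by rw [← mul_smul, ← e, mul_smul, h.1]) (T.ap_smul _ _)

theorem AC.ct (A : T.AC) (hc : ∀ x : V, ¬ T.ap x → ∀ a b c : H, a • x = x → b • x = x →
      c • x = x → b ≠ 1 → a * b = b * a → c * b = b * c → a * c = c * a)
    {a b c : H} (hb : b ≠ 1) (h1 : a * b = b * a) (h2 : c * b = b * c) : a * c = c * a := by
  have := A.ne
  rcases T.ell_or_ax b with ⟨x, hx⟩ | ⟨l, s, hs, hl⟩
  · obtain ⟨z, hz⟩ := T.exists_ctr hx
    by_cases h : T.ap z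
    · exact A.ab a c z h (A.ctr_fix hb hz h1) (A.ctr_fix hb hz h2)
    · exact hc z h a b c (A.ctr_fix hb hz h1) hz.1 (A.ctr_fix hb hz h2) hb h1 h2
  · obtain ⟨u, hu⟩ := A.ax_of_comm hl hs.ne' h1
    obtain ⟨v, hv⟩ := A.ax_of_comm hl hs.ne' h2
    exact A.ax_comm hu hv

theorem AC.csa (A : T.AC) (hc : ∀ x : V, ¬ T.ap x → ∀ a g : H, a • x = x → g • x = x → a ≠ 1 →
      g * a * g⁻¹ * a = a * (g * a * g⁻¹) → g * a = a * g)
    {a g : H} (ha : a ≠ 1) (h : g * a * g⁻¹ * a = a * (g * a * g⁻¹)) : g * a = a * g := by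
  have := A.ne
  rcases T.ell_or_ax a with ⟨x, hx⟩ | ⟨l, s, hs, hl⟩
  · obtain ⟨z, hz⟩ := T.exists_ctr hx
    have h1 := A.ctr_fix ha hz h
    rw [mul_smul, mul_smul, ← eq_inv_smul_iff] at h1
    have h2 : g • z = z := (inv_smul_eq_iff.1 (A.ctr_eq ha hz h1 (T.ap_smul _ _))).symm
    by_cases h3 : T.ap z
    · exact A.ab g a z h3 h2 hz.1
    · exact hc z h3 a g hz.1 h2 ha h
  · obtain ⟨u, hu⟩ := A.ax_of_comm hl hs.ne' h
    obtain ⟨v, hv⟩ := A.ax_of_conj hl hs.ne' hu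
    exact A.ax_comm hv hl

theorem AC.long_par (A : T.AC) (hy : T.Ax y l s) (hs : 0 < s) {a b u : ℤ}
    (h : ∀ j, a ≤ j → j ≤ b → g • l j = l (j + u)) (hl : a + s + 3 ≤ b) : g * y = y * g :=
  A.eq3 (x := l a) (y := l (a + 3))
    (by rw [mul_smul, mul_smul, hy.2, h _ (by omega) (by omega), h _ le_rfl (by omega), hy.2]
        congr 1; ring)
    (by rw [mul_smul, mul_smul, hy.2, h _ (by omega) (by omega), h _ (by omega) (by omega), hy.2]
        congr 1; ring) (by rw [hy.1]; omega)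

/-- A reversal of a segment gives flips with centres in a residue class. -/
theorem Ax.flip (hy : T.Ax y l (2 * n)) {a b c : ℤ}
    (h : ∀ j, a ≤ j → j ≤ b → g • l j = l (c - j)) (k : ℤ) {m : ℤ} (hm : 2 * m = c + k * (2 * n))
    (j : ℤ) (h1 : a ≤ j) (h2 : j ≤ b) : (y ^ k * g) • l j = l (2 * m - j) := by
  rw [mul_smul, h j h1 h2, (hy.zpow k).2]
  congr 1
  linarith

theorem exists_ctr_int (hn : 0 < n) {c : ℤ} (hc : c % 2 = 0) (a : ℤ) :
    ∃ m k, a ≤ m ∧ m < a + n ∧ 2 * m = c + k * (2 * n) := by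
  have a1 := Int.emod_nonneg (c / 2 - a) hn.ne'
  have a2 := Int.emod_lt_of_pos (c / 2 - a) hn
  have a3 := Int.emod_add_mul_ediv (c / 2 - a) n
  have a4 : c = 2 * (c / 2) := by omega
  exact ⟨a + (c / 2 - a) % n, -((c / 2 - a) / n), by omega, by omega, by linarith⟩

theorem AC.long_rev (A : T.AC) (hy : T.Ax y l (2 * n)) (hn : 0 < n) {a b c : ℤ}
    (h : ∀ j, a ≤ j → j ≤ b → g • l j = l (c - j)) : b ≤ a + n + 2 := by
  by_contra hb
  have h1 := hy.1.even (h a le_rfl (by omega))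
  obtain ⟨m, k, m1, m2, m3⟩ := exists_ctr_int hn (c := c) (by omega) (a + 2)
  have f := hy.flip h k m3
  exact A.flip3 (x := l (m - 2)) (y := l (m + 2)) (g := y ^ k * g)
    (by rw [f _ (by omega) (by omega)]; congr 1; ring)
    (by rw [f _ (by omega) (by omega)]; congr 1; ring) (by rw [hy.1]; omega)

/-- The apex `α` of the copy `C` is fixed by an element which swaps `C` with another copy. -/
def Root (T : BT H V) (C α : V) : Prop :=
  T.d C α = 1 ∧ T.ap α ∧ ∃ r : H, r • α = α ∧ r • C ≠ C ∧ r • r • C = C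

theorem Root.smul {C α : V} (h : T.Root C α) (g : H) : T.Root (g • C) (g • α) := by
  obtain ⟨h1, h2, r, r1, r2, r3⟩ := h
  refine ⟨by rw [T.inv, h1], (T.ap_smul _ _).2 h2, g * r * g⁻¹, ?_, ?_, ?_⟩
  · simp [mul_smul, r1]
  · simpa [mul_smul] using r2
  · simp [mul_smul, r3]

theorem AC.root (A : T.AC) (hl : T.IsL l) {m : ℤ} {r : H} (h0 : r • l m = l m)
    (h1 : r • l (m - 1) = l (m + 1)) (h2 : r • l (m + 1) = l (m - 1)) :
    T.ap (l m) ∧ T.Root (l (m - 1)) (l m) ∧ T.Root (l (m + 1)) (l m) := by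
  have d1 : T.d (l (m - 1)) (l m) = 1 := by rw [hl]; omega
  have ha : T.ap (l m) := by_contra fun ha =>
    A.flip2 h1 h2 ((T.bip _ _ d1).2 ha) (hl.ne (by omega))
  exact ⟨ha, ⟨d1, ha, r, h0, by rw [h1]; exact hl.ne (by omega), by rw [h1, h2]⟩,
    ⟨by rw [hl]; omega, ha, r, h0, by rw [h2]; exact hl.ne (by omega), by rw [h2, h1]⟩⟩

/-- All root pairs are fresh. -/
def TopH (T : BT H V) : Prop := ∀ C α, T.Root C α → TopK (MulAction.stabilizer H C) α

theorem pe_stab {C α β α' β' : V} (h1 : T.d C α = 1) (h2 : T.d C β = 1) (h3 : T.d C α' = 1)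
    (h4 : T.d C β' = 1) (hne : α ≠ β) (h : PK (⊤ : Subgroup H) α β α' β') :
    PK (MulAction.stabilizer H C) α β α' β' := by
  have key : ∀ (g : H), T.d C (g • α) = 1 → T.d C (g • β) = 1 → g • C = C := fun g a b => by
    have := T.pos hne
    have := T.par3 C α β
    have := T.inv g α β
    have := T.inv g α C
    have := T.inv g C β
    have := T.symm C α
    have := T.symm C (g • α)
    exact T.uniq (x := g • α) (y := g • β) (by have := T.tri α C β; omega)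
      (by have := T.tri α C β; omega) (by omega)
  obtain ⟨g, -, ⟨rfl, rfl⟩ | ⟨rfl, rfl⟩⟩ := h
  exacts [⟨g, key g h3 h4, Or.inl ⟨rfl, rfl⟩⟩, ⟨g, key g h4 h3, Or.inr ⟨rfl, rfl⟩⟩]

/-- No tripod at a root with three equivalent turns. -/
theorem TopH.tripod (hT : T.TopH) {C α β γ : V} (h : T.Root C α) (hβ : T.d C β = 1)
    (hγ : T.d C γ = 1) (n1 : β ≠ α) (n2 : γ ≠ α) (n3 : β ≠ γ)
    (p1 : PK (⊤ : Subgroup H) α β α γ) (p2 : PK (⊤ : Subgroup H) α β β γ) : False := by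
  have q1 := pe_stab h.1 hβ h.1 hγ n1.symm p1
  have q2 := pe_stab h.1 hβ hβ hγ n1.symm p2
  have key : ∃ f ∈ MulAction.stabilizer H C, ∃ f' ∈ MulAction.stabilizer H C,
      f • α = β ∧ f' • α = γ := by
    obtain ⟨a, ha, ⟨a1, a2⟩ | ⟨a1, a2⟩⟩ := id q1
    · obtain ⟨b, hb, ⟨b1, -⟩ | ⟨b1, -⟩⟩ := id q2
      · exact ⟨b, hb, a * b, mul_mem ha hb, b1, by rw [mul_smul, b1, a2]⟩
      · exact ⟨a⁻¹ * b, mul_mem (inv_mem ha) hb, b, hb, by rw [mul_smul, b1, ← a2, inv_smul_smul],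
          b1⟩
    · exact ⟨a⁻¹, inv_mem ha, a, ha, by rw [← a2, inv_smul_smul], a1⟩
  obtain ⟨f, hf, f', hf', rfl, rfl⟩ := key
  exact (hT C α h).eq f hf f' hf' n1 n2 n3 q1 q2

/-- All turns of `l` at copies are equivalent root turns. -/
def Cr (T : BT H V) (l : ℤ → V) : Prop :=
  T.IsL l ∧ ∀ i, ¬ T.ap (l i) → T.Root (l i) (l (i - 1)) ∧ T.Root (l i) (l (i + 1)) ∧
    ∀ j, ¬ T.ap (l j) → PK (⊤ : Subgroup H) (l (i - 1)) (l (i + 1)) (l (j - 1)) (l (j + 1))

theorem AC.crit (A : T.AC) (hy : T.Ax y l (2 * n)) (hn : 0 < n) {a b c : ℤ}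
    (h : ∀ j, a ≤ j → j ≤ b → g • l j = l (c - j)) (hb : a + 2 * n ≤ b) :
    b = a + 2 * n ∧ n ≤ 2 ∧ ¬ T.ap (l a) ∧ T.Cr l := by
  have h0 := A.long_rev hy hn h
  have h1 := hy.1.even (h a le_rfl (by omega))
  have hl := hy.1
  have rt : ∀ m k, 2 * m = c + k * (2 * n) → a < m → m < b →
      T.ap (l m) ∧ T.Root (l (m - 1)) (l m) ∧ T.Root (l (m + 1)) (l m) := fun m k hm m1 m2 => by
    have f := hy.flip h k hm
    exact A.root hl (r := y ^ k * g) (by rw [f _ (by omega) (by omega)]; congr 1; ring)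
      (by rw [f _ (by omega) (by omega)]; congr 1; ring)
      (by rw [f _ (by omega) (by omega)]; congr 1; ring)
  have tr : ∀ {i j : ℤ} (k : ℤ), T.Root (l i) (l j) →
      T.Root (l (i + k * (2 * n))) (l (j + k * (2 * n))) := fun k hr => by
    simpa only [(hy.zpow k).2] using hr.smul (y ^ k)
  have tp : ∀ (i k : ℤ), PK (⊤ : Subgroup H) (l (i - 1)) (l (i + 1)) (l (i + k * (2 * n) - 1))
      (l (i + k * (2 * n) + 1)) := fun i k =>
    PK.of (y ^ k) (by rw [(hy.zpow k).2]; congr 1; ring) (by rw [(hy.zpow k).2]; congr 1; ring)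
  have np : ∀ i, T.ap (l (a + 1)) → (¬ T.ap (l i) ↔ (i - a) % 2 = 0) := fun i ha => by
    have := hl.par i (a + 1)
    constructor
    · intro hi
      have := mt this.2 fun e => hi (e.2 ha)
      omega
    · intro hi hi'
      have := this.1 ⟨fun _ => ha, fun _ => hi'⟩
      omega
  obtain rfl | rfl : n = 1 ∨ n = 2 := by omega
  · have r1 := rt (a + 1) (a + 1 - c / 2) (by omega) (by omega) (by omega)
    have hb' : b = a + 2 * 1 := by
      by_contra hb'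
      have r2 := rt (a + 2) (a + 2 - c / 2) (by omega) (by omega) (by omega)
      exact (np _ r1.1).2 (by omega) r2.1
    refine ⟨hb', by omega, (np _ r1.1).2 (by omega), hl, fun i hi => ⟨?_, ?_, fun j hj => ?_⟩⟩
    · have := (np _ r1.1).1 hi
      have := tr ((i - a - 2) / 2) r1.2.2
      rwa [show a + 1 + 1 + (i - a - 2) / 2 * (2 * 1) = i by omega,
        show a + 1 + (i - a - 2) / 2 * (2 * 1) = i - 1 by omega] at this
    · have := (np _ r1.1).1 hi
      have := tr ((i - a) / 2) r1.2.1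
      rwa [show a + 1 - 1 + (i - a) / 2 * (2 * 1) = i by omega,
        show a + 1 + (i - a) / 2 * (2 * 1) = i + 1 by omega] at this
    · have := (np _ r1.1).1 hi
      have := (np _ r1.1).1 hj
      have := tp i ((j - i) / 2)
      rwa [show i + (j - i) / 2 * (2 * 1) = j by omega] at this
  · have hc : (c / 2 - a) % 2 = 1 := by
      by_contra hc
      have f := hy.flip h ((a + 2 - c / 2) / 2) (m := a + 2) (by omega)
      exact A.flip3 (x := l a) (y := l (a + 4)) (f _ (by omega) (by omega) |>.trans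
        (by congr 1; ring)) (f _ (by omega) (by omega) |>.trans (by congr 1; ring))
        (by rw [hl]; omega)
    have r1 := rt (a + 1) ((a + 1 - c / 2) / 2) (by omega) (by omega) (by omega)
    have r2 := rt (a + 3) ((a + 3 - c / 2) / 2) (by omega) (by omega) (by omega)
    have p1 : ∀ i, (i - a) % 2 = 0 →
        PK (⊤ : Subgroup H) (l (i - 1)) (l (i + 1)) (l (a + 2 - 1)) (l (a + 2 + 1)) := by
      intro i hi
      by_cases hi' : (i - a) % 4 = 2
      · have := tp i ((a + 2 - i) / 4)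
        rwa [show i + (a + 2 - i) / 4 * (2 * 2) = a + 2 by omega] at this
      · have := tp i ((c - a - 2 - i) / 4)
        rw [show i + (c - a - 2 - i) / 4 * (2 * 2) = c - a - 2 by omega] at this
        refine this.trans (PK.symm (PK.swap (PK.of g ?_ ?_)))
        · rw [h _ (by omega) (by omega)]; congr 1; ring
        · rw [h _ (by omega) (by omega)]; congr 1; ring
    refine ⟨by omega, by omega, (np _ r1.1).2 (by omega), hl, fun i hi => ⟨?_, ?_, fun j hj =>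
      (p1 i ((np _ r1.1).1 hi)).trans (p1 j ((np _ r1.1).1 hj)).symm⟩⟩
    · have := (np _ r1.1).1 hi
      by_cases hi' : (i - a) % 4 = 2
      · have := tr ((i - a - 2) / 4) r1.2.2
        rwa [show a + 1 + 1 + (i - a - 2) / 4 * (2 * 2) = i by omega,
          show a + 1 + (i - a - 2) / 4 * (2 * 2) = i - 1 by omega] at this
      · have := tr ((i - a - 4) / 4) r2.2.2
        rwa [show a + 3 + 1 + (i - a - 4) / 4 * (2 * 2) = i by omega,
          show a + 3 + (i - a - 4) / 4 * (2 * 2) = i - 1 by omega] at this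
    · have := (np _ r1.1).1 hi
      by_cases hi' : (i - a) % 4 = 2
      · have := tr ((i - a - 2) / 4) r2.2.1
        rwa [show a + 3 - 1 + (i - a - 2) / 4 * (2 * 2) = i by omega,
          show a + 3 + (i - a - 2) / 4 * (2 * 2) = i + 1 by omega] at this
      · have := tr ((i - a) / 4) r1.2.1
        rwa [show a + 1 - 1 + (i - a) / 4 * (2 * 2) = i by omega,
          show a + 1 + (i - a) / 4 * (2 * 2) = i + 1 by omega] at this

/-- The pair `x, z` is equivalent to a turn of `l`. -/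
def Tu (T : BT H V) (l : ℤ → V) (x z : V) : Prop :=
  T.ap x ∧ ∃ i, PK (⊤ : Subgroup H) (l (i - 1)) (l (i + 1)) x z

theorem Tu.of {x z : V} (hx : T.ap x) (g : H) (i : ℤ) (h1 : g • l (i - 1) = x)
    (h2 : g • l (i + 1) = z) : T.Tu l x z := ⟨hx, i, PK.of g h1 h2⟩

theorem Tu.of' {x z : V} (hx : T.ap x) (g : H) (i : ℤ) (h1 : g • l (i + 1) = x)
    (h2 : g • l (i - 1) = z) : T.Tu l x z := ⟨hx, i, (PK.of g h2 h1).swap⟩

theorem Tu.nap (hl : T.IsL l) {x z : V} (hx : T.ap x) {i : ℤ}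
    (h : PK (⊤ : Subgroup H) (l (i - 1)) (l (i + 1)) x z) : ¬ T.ap (l i) := by
  obtain ⟨g, -, ⟨rfl, -⟩ | ⟨-, rfl⟩⟩ := h
  · exact (T.bip _ _ (by rw [hl]; omega)).1 ((T.ap_smul _ _).1 hx)
  · exact (T.bip _ _ (by rw [hl]; omega)).1 ((T.ap_smul _ _).1 hx)

theorem Cr.tripod (h : T.Cr l) (hT : T.TopH) {C α β γ : V} (hα : T.d C α = 1) (hβ : T.d C β = 1)
    (hγ : T.d C γ = 1) (n1 : β ≠ α) (n2 : γ ≠ α) (n3 : β ≠ γ) (t1 : T.Tu l α β) (t2 : T.Tu l α γ)
    (t3 : T.Tu l β γ) : False := by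
  obtain ⟨a1, i, p1⟩ := t1
  obtain ⟨-, j, p2⟩ := t2
  obtain ⟨a3, k, p3⟩ := t3
  have hi := Tu.nap h.1 a1 p1
  obtain ⟨r1, r2, pe⟩ := h.2 i hi
  refine hT.tripod (C := C) ?_ hβ hγ n1 n2 n3 (p1.symm.trans ((pe j (Tu.nap h.1 a1 p2)).trans p2))
    (p1.symm.trans ((pe k (Tu.nap h.1 a3 p3)).trans p3))
  have key : ∀ g : H, T.d C (g • l (i - 1)) = 1 → T.d C (g • l (i + 1)) = 1 → C = g • l i :=
    fun g a b => (h.1.smul g).eq_of_between (i := i - 1) (j := i + 1) (by omega) (by omega)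
      (by rw [T.symm]; omega) (by omega)
  obtain ⟨g, -, ⟨rfl, rfl⟩ | ⟨rfl, rfl⟩⟩ := p1
  · rw [key g hα hβ]; exact r1.smul g
  · rw [key g hβ hα]; exact r2.smul g

/-- Common points of `l` and `c l` when `l'` is an axis of `c`. -/
theorem Ov.common {δ M : ℤ} {D : ℕ} {c : H} (h : T.Ov l l' δ D) (hc : T.Ax c l' M) (hM : 0 < M)
    {i j : ℤ} (e : l i = c • l j) :
    D = 0 ∧ ((M ≤ i ∧ i ≤ δ ∧ j = i - M) ∨ (δ = M ∧ δ ≤ i ∧ j = δ - i)) := by
  have h1 : T.Ft l' (l i) (cl δ j + M) (D + (j - cl δ j).natAbs) := fun k => by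
    rw [e, show l' k = c • l' (k - M) by rw [hc.2, sub_add_cancel], T.inv, h.ft]
    omega
  have := (h.ft i).unique h1
  have := h.nonneg
  have := h.zero
  unfold cl at *
  omega

/-- The overlap of an axis with a translate is bounded. -/
theorem AC.ov_le (A : T.AC) (hy : T.Ax y l (2 * n)) (hn : 0 < n) (hg : g * y ≠ y * g)
    {i i' j j' : ℤ} (e : l i = g • l j) (e' : l i' = g • l j') : i' ≤ i + (2 * n + 2) := by
  by_contra hc
  have hl := hy.1
  have h1 := hl i i'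
  rw [e, e', T.inv, hl] at h1
  rcases le_total j j' with h2 | h2
  · refine hg (A.long_par hy (by omega) (a := j) (b := j') (u := i - j) (fun k k1 k2 => ?_)
      (by omega))
    have := hl.conv (hl.smul g) (n := i' - i) (k := k - j) e
      (by rw [show i + (i' - i) = i' by ring, show j + (i' - i) = j' by omega]; exact e')
      (by omega) (by omega)
    rw [show j + (k - j) = k by ring] at this
    rw [this]; congr 1; ring
  · have := A.long_rev hy hn (g := g) (a := j') (b := j) (c := i + j) fun k k1 k2 => by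
      have := hl.conv' (hl.smul g) (n := i' - i) (k := j - k) e
        (by rw [show i + (i' - i) = i' by ring, show j - (i' - i) = j' by omega]; exact e')
        (by omega) (by omega)
      rw [show j - (j - k) = k by ring] at this
      rw [this]; congr 1; ring
    omega

theorem AC.exists_ov (A : T.AC) (hy : T.Ax y l (2 * n)) (hn : 0 < n) (hg : g * y ≠ y * g) :
    ∃ (u u' δ : ℤ) (D : ℕ), T.Ov (fun j => l (u + j)) (fun j => g • l (u' + j)) δ D ∨
      T.Ov (fun j => l (u + j)) (fun j => g • l (u' - j)) δ D :=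
  BT.exists_ov hy.1 (hy.1.smul g) (N := 2 * n + 2) fun _ _ _ _ e e' => A.ov_le hy hn hg e e'

end BT

end Pool.Agent.Lib.MP_429c3d_al.Ng
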