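import Pool.Agent.Lib.MP_429c3d_al.NgT3
import Pool.Agent.Lib.MP_429c3d_al.NgBase

/-! The steps for `CSA`, `CT` and `P1`. -/

set_option autoImplicit false

namespace Pool.Agent.Lib.MP_429c3d_al.Ng

open Hyp

section Inj

variable {G K : Type} [Group G] [Group K] {f : K →* G}

theorem comm_of_inj (hf : Function.Injective f) {a b : K} (h : Commute (f a) (f b)) :
    Commute a b := hf (by simpa using h.eq)

theorem TF.of_inj (h : TF G) (hf : Function.Injective f) : TF K := fun g n hn e =>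
  hf (by rw [map_one]; exact h _ n hn (by rw [← map_pow, e, map_one]))

theorem CSA.of_inj (h : CSA G) (hf : Function.Injective f) : CSA K := fun a g ha e =>
  comm_of_inj hf (h _ _ (fun e => ha (hf (by rw [e, map_one]))) (by simpa using e.map f))

theorem CT.of_inj (h : CT G) (hf : Function.Injective f) : CT K := fun a b c hb e e' =>
  comm_of_inj hf (h _ (f b) _ (fun e => hb (hf (by rw [e, map_one]))) (e.map f) (e'.map f))

theorem QQ.of_inj (h : QQ G) (hf : Function.Injective f) : QQ K := fun y s t z hy e e' =>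
  hf (by
    rw [map_one]
    exact h (f y) (f s) (f t) _ (fun e => hy (hf (by rw [e, map_one]))) (e.map f)
      (by simpa using congrArg f e'))

theorem P1.of_inj (h : P1 G) (hf : Function.Injective f) : P1 K := fun y a g hy e e' =>
  comm_of_inj hf (h (f y) (f a) _ (fun e => hy (hf (by rw [e, map_one]))) (e.map f)
    (by simpa using congrArg f e'))

end Inj

namespace BT

variable {H V : Type} [Group H] [MulAction H V] {T : BT H V} {l l' : ℤ → V} {g g' y : H}
  {s s' n : ℤ}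

/-- The stabilisers of copies embed in `G`. -/
def Des (T : BT H V) (G : Type) [Group G] : Prop :=
  ∀ x, ¬ T.ap x → ∃ f : MulAction.stabilizer H x →* G, Function.Injective f

variable {G : Type} [Group G]

theorem ac_of (hD : T.Des G) (hG : TF G) (ne : Nonempty V)
    (acyl : ∀ (g : H) (x y : V), T.ap x → T.ap y → g • x = x → g • y = y → x = y ∨ g = 1)
    (ab : ∀ (a b : H) (x : V), T.ap x → a • x = x → b • x = x → a * b = b * a)
    (tf : ∀ (g : H) (x : V) (n : ℕ), T.ap x → g • x = x → n ≠ 0 → g ^ n = 1 → g = 1) : T.AC := by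
  refine ⟨ne, acyl, ab, fun g x n hx hn e => ?_⟩
  by_cases h : T.ap x
  · exact tf g x n h hx hn e
  · obtain ⟨f, hf⟩ := hD x h
    exact congrArg Subtype.val (hG.of_inj hf ⟨g, hx⟩ n hn (Subtype.ext e))

theorem AC.tF (A : T.AC) : TF H := fun _ _ hn e => A.tf hn e

theorem AC.cT (A : T.AC) (hD : T.Des G) (hG : CT G) : CT H := fun _ _ _ hb h1 h2 =>
  A.ct (fun x hx a b c ha hb hc hb' e e' => by
    obtain ⟨f, hf⟩ := hD x hx
    exact congrArg Subtype.val (hG.of_inj hf ⟨a, ha⟩ ⟨b, hb⟩ ⟨c, hc⟩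
      (fun e => hb' (congrArg Subtype.val e)) (Subtype.ext e) (Subtype.ext e'.symm)).eq)
    hb h1.eq h2.symm.eq

theorem AC.cSA (A : T.AC) (hD : T.Des G) (hG : CSA G) : CSA H := fun _ _ ha h =>
  A.csa (fun x hx a g ha hg ha' e => by
    obtain ⟨f, hf⟩ := hD x hx
    exact congrArg Subtype.val (hG.of_inj hf ⟨a, ha⟩ ⟨g, hg⟩
      (fun e => ha' (congrArg Subtype.val e)) (Subtype.ext e)).eq) ha h.eq

theorem Tu.of_sim (h : T.IsL l) (h' : T.IsL l') (g : H) (hs : ∀ j, ∃ i, g • l' j = l i) {k : ℤ}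
    (ha : T.ap (l' (k - 1))) : T.Tu l (l' (k - 1)) (l' (k + 1)) := by
  obtain ⟨u, hu | hu⟩ := h.sub_line (h'.smul g) hs
  · exact Tu.of ha g⁻¹ (u + k) (by rw [inv_smul_eq_iff, hu]; congr 1; ring)
      (by rw [inv_smul_eq_iff, hu]; congr 1; ring)
  · exact Tu.of' ha g⁻¹ (u - k) (by rw [inv_smul_eq_iff, hu]; congr 1; ring)
      (by rw [inv_smul_eq_iff, hu]; congr 1; ring)

theorem IsL.ap_succ (h : T.IsL l) {i : ℤ} (hi : ¬ T.ap (l i)) : T.ap (l (i + 1)) :=
  (T.bip _ _ (by rw [h]; omega)).2 hi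

theorem IsL.ap_pred (h : T.IsL l) {i : ℤ} (hi : ¬ T.ap (l i)) : T.ap (l (i - 1)) :=
  (T.bip _ _ (by rw [h]; omega)).2 hi

theorem Ax.rev (h : T.Ax g l s) (u : ℤ) : T.Ax g⁻¹ (fun j => l (u - j)) s := by
  simpa using (h.sub u).inv

theorem p1_core (A : T.AC) (hT : T.TopH) {δ M : ℤ} {D : ℕ} {a f : H} (h : T.Ov l' l δ D)
    (ha : T.Ax a l M) (hy : T.Ax y l' (2 * n)) (hn : 0 < n) (hM : 2 * n ≤ M)
    (h1 : ∀ j, ∃ i, f • l j = l' i) (h2 : ∀ j, ∃ i, f • l' j = a • l' i) : False := by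
  have hl := h.right
  have hl' := h.left
  have h0 := h.nonneg
  obtain ⟨i0, e0⟩ := h1 0
  obtain ⟨j0, f0⟩ := h2 0
  have hD : D = 0 := by
    have b1 : T.Ft l (a • l' j0) (cl δ j0 + M) (D + (j0 - cl δ j0).natAbs) := fun k => by
      rw [show l k = a • l (k - M) by rw [ha.2, sub_add_cancel], T.inv, h.ft]
      omega
    by_contra hD
    have := h.zero
    have b2 := (h.ft i0).via hl b1 (by unfold cl; omega)
    rw [← e0, ← f0, T.inv, T.symm, h.ft] at b2
    unfold cl at b2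
    omega
  subst hD
  obtain ⟨i1, e1⟩ := h1 δ
  obtain ⟨j1, f1⟩ := h2 δ
  rw [h.eq le_rfl h0, e0] at f0
  rw [h.eq h0 le_rfl, e1] at f1
  have b1 := hl' i0 i1
  rw [← e0, ← e1, T.inv, hl] at b1
  have b2 := (h.common ha (by omega) f0).2
  have b3 := (h.common ha (by omega) f1).2
  obtain ⟨rfl, m, m1, m2⟩ : δ = M ∧ ∃ m, δ + δ ≤ m ∧ l' m = a • l' (δ - m) := by
    refine ⟨by omega, ?_⟩
    rcases le_total i0 i1 with b4 | b4
    · exact ⟨i1, by omega, by rw [f1]; congr 2; omega⟩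
    · exact ⟨i0, by omega, by rw [f0]; congr 2; omega⟩
  have b4 : a • l' 0 = l' δ := by rw [h.eq le_rfl h0, ha.2, zero_add, h.eq h0 le_rfl]
  have rv : ∀ j, δ ≤ j → j ≤ m → a⁻¹ • l' j = l' (δ - j) := fun j j1 j2 => by
    have := hl'.conv' (hl'.smul a) (i := δ) (i' := 0) (n := m - δ) (k := j - δ) b4.symm
      (by rw [show δ + (m - δ) = m by ring, m2]; congr 2; ring) (by omega) (by omega)
    rw [show δ + (j - δ) = j by ring, show 0 - (j - δ) = δ - j by ring] at this
    rw [← this, inv_smul_smul]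
  obtain ⟨-, -, c1, c2⟩ := A.crit hy hn rv (by omega)
  have q1 := h.eq (i := δ - 1) (by omega) (by omega)
  have q2 := h.eq h0 le_rfl
  have a1 := hl'.ap_pred c1
  refine c2.tripod hT (C := l' δ) (α := l' (δ - 1)) (β := l' (δ + 1)) (γ := l (δ + 1))
    (by rw [hl']; omega) (by rw [hl']; omega) (by rw [q2, hl]; omega) (hl'.ne (by omega))
    (by rw [q1]; exact hl.ne (by omega)) (fun e => by have := h.mem e; omega)
    (Tu.of a1 1 δ (one_smul _ _) (one_smul _ _)) ?_
    (Tu.of (hl'.ap_succ c1) a 0 ?_ ?_)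
  · rw [q1]
    exact Tu.of_sim hl' hl f h1 (q1 ▸ a1)
  · rw [← smul_inv_smul a (l' (δ + 1)), rv _ (by omega) (by omega)]
    congr 2; ring
  · rw [zero_add, h.eq (i := 1) (by omega) (by omega), ha.2, add_comm]

theorem AC.p1 (A : T.AC) (hT : T.TopH) (hD : T.Des G) (hG : P1 G) : P1 H := by
  intro y a f hy hay e
  have := A.ne
  have e1 : f = a * (f * y * f⁻¹) := by rw [e]; group
  have e2 : f * f = a * f * y := by
    calc f * f = a * (f * y * f⁻¹) * f := by rw [← e1]
      _ = a * f * y := by group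
  rcases T.ell_or_ax y with ⟨x, hx⟩ | ⟨l, s, hs, hl⟩
  · obtain ⟨z, hz⟩ := T.exists_ctr hx
    have h1 := A.ctr_fix hy hz hay.eq
    obtain ⟨w, hw⟩ := T.ell_of_sq (g := f) (x := z) (by
      rw [← mul_smul, e2, mul_smul, mul_smul, hz.1, T.inv' a, inv_smul_eq_iff.2 h1.symm])
    obtain ⟨m, m1, m2⟩ := T.serre h1 (b := f * y * f⁻¹) (y := f • z) (z := w)
      (by rw [mul_smul, mul_smul, inv_smul_smul, hz.1]) (by rw [← e1, hw])
    have m3 : f • m = m := by rw [e1, mul_smul, m2, m1]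
    have m4 : y • m = m := by
      rwa [mul_smul, mul_smul, inv_smul_eq_iff.2 m3.symm, ← eq_inv_smul_iff,
        inv_smul_eq_iff.2 m3.symm] at m2
    by_cases hm : T.ap m
    · exact A.ab _ _ m hm m3 m4
    · obtain ⟨φ, hφ⟩ := hD m hm
      exact congrArg Subtype.val (hG.of_inj hφ ⟨y, m4⟩ ⟨a, m1⟩ ⟨f, m3⟩
        (fun e => hy (congrArg Subtype.val e)) (Subtype.ext hay.eq) (Subtype.ext e)).eq
  · obtain ⟨y0, n, hp⟩ := A.exists_prim hl hs.ne'
    obtain ⟨M, hM⟩ := A.ax_of_comm hl hs.ne' hay.eq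
    obtain ⟨m, -, rfl⟩ := hp.gen a M hM
    by_contra hc
    have hc' : f * y0 ≠ y0 * f := fun e' => by
      obtain ⟨u, hu⟩ := A.ax_of_comm hp.ax (by have := hp.pos; omega) e'
      exact hc (A.ax_comm hu hl)
    have hm : m ≠ 0 := by
      rintro rfl
      rw [A.ax_eq hM (g' := 1) ⟨hl.1, by simp⟩, one_mul] at e2
      exact hc (by rw [← mul_left_cancel e2])
    have k1 : ∀ j, f • f • l j = a • f • l (j + s) := fun j => by
      rw [← mul_smul, e2, mul_smul, mul_smul, hl.2]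
    have hn := hp.pos
    have hx := hp.ax.conj f
    obtain ⟨u, u', δ, D, h | h⟩ := A.exists_ov hp.ax hp.pos hc'
    · rcases lt_or_gt_of_ne hm with hm | hm
      · exact p1_core A hT h.symm.rev (f := f) ((hM.add u).sub δ) ((hx.add u').rev δ) hn
          (M := -(m * (2 * n))) (by nlinarith) (fun j => ⟨δ + u' - u - δ + j, by congr 2; ring⟩)
          fun j => ⟨j - s, by rw [k1]; congr 3; ring⟩
      · exact p1_core A hT h.symm (f := f) (hM.add u) (hx.add u') hn (by nlinarith)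
          (fun j => ⟨u + j - u', by congr 2; ring⟩) fun j => ⟨j + s, by rw [k1]; congr 3; ring⟩
    · rcases lt_or_gt_of_ne hm with hm | hm
      · exact p1_core A hT h.symm.rev (f := f) ((hM.add u).sub δ) ((hx.rev u').rev δ) hn
          (M := -(m * (2 * n))) (by nlinarith) (fun j => ⟨δ + u - j - u' + δ, by congr 2; ring⟩)
          fun j => ⟨j + s, by rw [k1]; congr 3; ring⟩
      · exact p1_core A hT h.symm (f := f) (hM.add u) (hx.rev u') hn (by nlinarith)
          (fun j => ⟨u' - (u + j), by congr 2; ring⟩) fun j => ⟨j - s, by rw [k1]; congr 3; ring⟩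

end BT

end Pool.Agent.Lib.MP_429c3d_al.Ng
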