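import Pool.Agent.Lib.MP_429c3d_al.NgT4

/-! Pants: the generic configuration of three axes in the step for `QQ`. -/

set_option autoImplicit false

namespace Pool.Agent.Lib.MP_429c3d_al.Ng

open Hyp

namespace BT

variable {H V : Type} [Group H] [MulAction H V] {T : BT H V} {l l' : ℤ → V} {g g' y σ τ : H}
  {s s' n h k a b : ℤ}

theorem AC.no_flip (A : T.AC) (hy : T.Ax y l (2 * n)) {a b c : ℤ}
    (h : ∀ j, a ≤ j → j ≤ b → g • l j = l (c - j)) (k : ℤ) {m : ℤ} (hm : 2 * m = c + k * (2 * n))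
    (h1 : a + 2 ≤ m) (h2 : m + 2 ≤ b) : False := by
  have f := hy.flip h k hm
  exact A.flip3 (x := l (m - 2)) (y := l (m + 2)) (g := y ^ k * g)
    (by rw [f _ (by omega) (by omega)]; congr 1; ring)
    (by rw [f _ (by omega) (by omega)]; congr 1; ring) (by rw [hy.1]; omega)

theorem AC.flip_ap (A : T.AC) (hy : T.Ax y l (2 * n)) {a b c : ℤ}
    (h : ∀ j, a ≤ j → j ≤ b → g • l j = l (c - j)) (k : ℤ) {m : ℤ} (hm : 2 * m = c + k * (2 * n))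
    (h1 : a + 1 ≤ m) (h2 : m + 1 ≤ b) : T.ap (l m) := by
  have f := hy.flip h k hm
  exact (A.root hy.1 (r := y ^ k * g) (by rw [f _ (by omega) (by omega)]; congr 1; ring)
    (by rw [f _ (by omega) (by omega)]; congr 1; ring)
    (by rw [f _ (by omega) (by omega)]; congr 1; ring)).1

theorem edge_comm (A : T.AC) {x x' : V} (hx : T.d x x' = 1) {u v : H} (h1 : u • x = x)
    (h2 : u • x' = x') (h3 : v • x = x) (h4 : v • x' = x') : u * v = v * u := by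
  by_cases ha : T.ap x'
  · exact A.ab u v x' ha h2 h4
  · exact A.ab u v x ((T.bip _ _ hx).2 ha) h1 h3

theorem AC.no_sqrt (A : T.AC) (hp : T.Prim y l 2) {ρ : H} (e : ρ * ρ = y) : False := by
  obtain ⟨u, hu⟩ := A.ax_of_comm hp.ax (by omega) (a := ρ) (by rw [← e, mul_assoc])
  have h1 := (hu.mul hu).unique (e ▸ hp.ax)
  obtain ⟨k, -, hk⟩ := hp.gen ρ u hu
  omega

/-- The turns at `i` and `j` are equivalent. -/
def Tq (l : ℤ → V) (H : Type) [Group H] [MulAction H V] (i j : ℤ) : Prop :=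
  PK (⊤ : Subgroup H) (l (i - 1)) (l (i + 1)) (l (j - 1)) (l (j + 1))

theorem Tq.tr (g : H) {i j : ℤ} (h1 : g • l (i - 1) = l (j - 1)) (h2 : g • l (i + 1) = l (j + 1)) :
    Tq l H i j := PK.of g h1 h2

theorem Tq.rv (g : H) {i j : ℤ} (h1 : g • l (i - 1) = l (j + 1)) (h2 : g • l (i + 1) = l (j - 1)) :
    Tq l H i j := (PK.of g h1 h2).swap

/-- The pants. -/
structure Pa (T : BT H V) (y : H) (l : ℤ → V) (h k : ℤ) (σ τ : H) (a b : ℤ) : Prop where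
  pr : T.Prim y l h
  kp : 1 ≤ k
  rel : τ * y ^ k * τ⁻¹ = σ * y ^ k * σ⁻¹ * y
  S : ∀ j, 0 ≤ j → j ≤ h → σ • l (a - j) = l j
  g1 : σ • l (a + 1) ≠ l (-1)
  g2 : σ • l (a - h - 1) ≠ l (h + 1)
  Tt : ∀ j, -h ≤ j → j ≤ 0 → τ • l (b + j) = l j
  R : ∀ j, 0 ≤ j → j ≤ k * (2 * h) - h → σ • l (a + j) = τ • l (b + j)

namespace Pa

variable (P : T.Pa y l h k σ τ a b)
include P

theorem K : h ≤ k * (2 * h) - h ∧ (k = 1 ∨ 3 * h ≤ k * (2 * h) - h) := by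
  have := P.pr.pos
  have := P.kp
  refine ⟨by nlinarith, ?_⟩
  rcases eq_or_lt_of_le P.kp with e | e
  · exact Or.inl e.symm
  · exact Or.inr (by nlinarith)

theorem shift (p q : ℤ) {a' b' : ℤ} (ha : a' + p * (2 * h) = a) (hb : b' + q * (2 * h) = b) :
    T.Pa y l h k (σ * y ^ p) (τ * y ^ q) a' b' := by
  subst ha hb
  have e1 : ∀ i, (σ * y ^ p) • l (a' + i) = σ • l (a' + p * (2 * h) + i) := fun i => by
    rw [mul_smul, (P.pr.ax.zpow p).2]; congr 2; ring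
  have e2 : ∀ i, (τ * y ^ q) • l (b' + i) = τ • l (b' + q * (2 * h) + i) := fun i => by
    rw [mul_smul, (P.pr.ax.zpow q).2]; congr 2; ring
  refine ⟨P.pr, P.kp, ?_, fun j j1 j2 => ?_, by rw [e1]; exact P.g1, ?_,
    fun j j1 j2 => by rw [e2, P.Tt j j1 j2], fun j j1 j2 => by rw [e1, e2, P.R j j1 j2]⟩
  · calc _ = τ * y ^ k * τ⁻¹ := by group
      _ = _ := by rw [P.rel]; group
  · rw [sub_eq_add_neg, e1, ← sub_eq_add_neg, P.S j j1 j2]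
  · rw [show a' - h - 1 = a' + (-h - 1) by ring, e1,
      show a' + p * (2 * h) + (-h - 1) = a' + p * (2 * h) - h - 1 by ring]
    exact P.g2

theorem sym : T.Pa y⁻¹ (fun j => l (h - j)) h k σ (y * τ) (2 * h - a) (2 * h - b) := by
  have e : y * τ = σ * (y ^ k)⁻¹ * σ⁻¹ * τ * y ^ k := by
    calc y * τ = σ * (y ^ k)⁻¹ * σ⁻¹ * (σ * y ^ k * σ⁻¹ * y) * τ := by group
      _ = _ := by rw [← P.rel]; group
  refine ⟨P.pr.sub h, P.kp, ?_, fun j j1 j2 => ?_, ?_, ?_, fun j j1 j2 => ?_, fun j j1 j2 => ?_⟩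
  · calc _ = y * (τ * y ^ k * τ⁻¹)⁻¹ * y⁻¹ := by group
      _ = _ := by rw [P.rel]; group
  · rw [← P.S (h - j) (by omega) (by omega)]; congr 2; ring
  · rw [show h - (2 * h - a + 1) = a - h - 1 by ring, show h - -1 = h + 1 by ring]
    exact P.g2
  · rw [show h - (2 * h - a - h - 1) = a + 1 by ring, show h - (h + 1) = -1 by ring]
    exact P.g1
  · rw [show h - (2 * h - b + j) = b + (-h - j) by ring, mul_smul, P.Tt _ (by omega) (by omega),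
      P.pr.ax.2]
    congr 1; ring
  · rw [e]
    simp only [mul_smul]
    rw [(P.pr.ax.zpow k).2, show h - (2 * h - b + j) + k * (2 * h) = b + (k * (2 * h) - h - j) by
      ring, ← P.R _ (by omega) (by omega), inv_smul_smul, (P.pr.ax.zpow k).inv.2]
    congr 2; ring

theorem S' (j : ℤ) (j1 : 0 ≤ j) (j2 : j ≤ h) : σ⁻¹ • l j = l (a - j) := by
  rw [← P.S j j1 j2, inv_smul_smul]

theorem T' (j : ℤ) (j1 : -h ≤ j) (j2 : j ≤ 0) : τ⁻¹ • l j = l (b + j) := by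
  rw [← P.Tt j j1 j2, inv_smul_smul]

theorem R' (j : ℤ) (j1 : 0 ≤ j) (j2 : j ≤ k * (2 * h) - h) :
    (τ⁻¹ * σ) • l (a + j) = l (b + j) := by
  rw [mul_smul, P.R j j1 j2, inv_smul_smul]

theorem ne : τ⁻¹ * σ ≠ 1 := fun e => by
  have h1 := P.rel
  rw [inv_mul_eq_one.1 e, left_eq_mul] at h1
  have := P.pr.pos
  exact P.pr.ax.not_fix (by omega) (l 0) (by rw [h1, one_smul])

theorem ne' {t : H} (e : t • l (b + 1) = l 1) : τ ≠ t := by
  rintro rfl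
  have := P.pr.pos
  have := P.K
  have h1 := P.R 1 (by omega) (by omega)
  rw [e, ← P.S 1 (by omega) (by omega)] at h1
  exact P.pr.ax.1.ne (by omega) (smul_left_cancel _ h1)

/-- The tripod at `l 0`. -/
theorem eq (hT : T.TopH) (hr : T.Root (l 0) (l 1)) (p1 : Tq l H 0 a) (p2 : Tq l H 0 b) : False := by
  have hl := P.pr.ax.1
  have := P.pr.pos
  have := P.K
  have s0 := P.S 0 le_rfl (by omega)
  have s1 := P.S 1 (by omega) (by omega)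
  have t1 := P.Tt (-1) (by omega) (by omega)
  have r1 := P.R 1 (by omega) (by omega)
  have q : PK (⊤ : Subgroup H) (l 1) (l (-1)) (l (0 - 1)) (l (0 + 1)) :=
    (PK.of 1 (one_smul _ _) (one_smul _ _)).swap
  refine hT.tripod hr (β := l (-1)) (γ := σ • l (a + 1)) (by rw [hl]; rfl)
    (by rw [← s0, T.inv, hl]; omega) (hl.ne (by omega))
    (by rw [← s1]; exact fun e => hl.ne (by omega) (smul_left_cancel _ e)) P.g1.symm
    (q.trans (PK.trans p1 (PK.of σ s1 rfl))) (q.trans (PK.trans p2 (PK.of τ t1 r1.symm)))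

end Pa

theorem Pa.c00 (P : T.Pa y l h k σ τ 0 0) (A : T.AC) (hP : P1 H) : False := by
  have hl := P.pr.ax.1
  have h0 := P.pr.pos
  have r : ∀ j, 0 ≤ j → j ≤ k * (2 * h) - h → (τ⁻¹ * σ) • l j = l j := fun j j1 j2 => by
    simpa using P.R' j j1 j2
  obtain ⟨k1, rfl | k2⟩ := P.K
  swap
  · exact P.ne (A.fix3 (r 0 le_rfl (by omega)) (r 3 (by omega) (by omega)) (by rw [hl]; decide))
  have t : ∀ j, 0 ≤ j → j ≤ h → (σ * τ * σ⁻¹) • l j = l j := fun j j1 j2 => by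
    have := P.Tt (-j) (by omega) (by omega)
    rw [zero_add] at this
    rw [mul_smul, mul_smul, P.S' j j1 j2, zero_sub, this, ← zero_sub, P.S j j1 j2]
  have c := edge_comm A (x := l 0) (x' := l 1) (by rw [hl]; decide) (r 0 le_rfl (by omega))
    (r 1 (by omega) (by omega)) (t 0 le_rfl (by omega)) (t 1 (by omega) (by omega))
  have rel := P.rel
  rw [zpow_one] at rel
  have e : y * σ⁻¹ * (σ * τ * σ⁻¹)⁻¹ * (y * σ⁻¹)⁻¹ = (τ⁻¹ * σ)⁻¹⁻¹ * (y * σ⁻¹) := by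
    calc _ = τ⁻¹ * (τ * y * τ⁻¹) * y⁻¹ := by group
      _ = _ := by rw [rel]; group
  have h1 := hP _ (τ⁻¹ * σ)⁻¹ _ (fun e => P.ne' (t := 1) (by simp)
      (by rwa [inv_eq_one, conj_eq_one_iff] at e))
    (Commute.inv_inv c) e
  rw [h1.eq, mul_inv_cancel_right, inv_inv] at e
  have h2 : (σ * τ * σ⁻¹)⁻¹ • l 0 = (τ⁻¹ * σ * (y * σ⁻¹)) • l 0 := by rw [e]
  rw [inv_smul_eq_iff.2 (t 0 le_rfl h0.le).symm, mul_smul, mul_smul y, P.S' 0 le_rfl h0.le,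
    P.pr.ax.2, ← inv_smul_eq_iff, inv_smul_eq_iff.2 (r 0 le_rfl (by omega)).symm] at h2
  exact hl.ne (by omega) h2

theorem Pa.c02 (P : T.Pa y l h k σ τ 0 2) (A : T.AC) (hT : T.TopH) (h2 : 2 ≤ h) : False := by
  have hl := P.pr.ax.1
  have r : ∀ j, 0 ≤ j → j ≤ h → (τ⁻¹ * σ⁻¹) • l j = l (2 - j) := fun j j1 j2 => by
    rw [mul_smul, P.S' j j1 j2, P.T' _ (by omega) (by omega)]; congr 1; ring
  have r0 := r 0 (by omega) (by omega)
  have r1 := r 1 (by omega) (by omega)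
  have r2 := r 2 (by omega) (by omega)
  obtain ⟨a1, hr, -⟩ := A.root hl (m := 1) r1 r0 r2
  rcases eq_or_lt_of_le h2 with rfl | h3
  swap
  · exact P.eq hT hr (PK.of 1 (one_smul _ _) (one_smul _ _))
      (PK.symm (Tq.rv _ r1 (r 3 (by omega) (by omega))))
  have p : ∀ j, 0 ≤ j → j ≤ k * (2 * 2) - 2 → (τ⁻¹ * σ) • l j = l (2 + j) := fun j j1 j2 => by
    simpa using P.R' j j1 j2
  obtain ⟨k1, rfl | k2⟩ := P.K
  swap
  · refine A.no_sqrt P.pr (ρ := τ⁻¹ * σ) (A.eq3 (x := l 0) (y := l 3) ?_ ?_ (by rw [hl]; decide))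
    · rw [mul_smul, p _ (by omega) (by omega), p _ (by omega) (by omega), P.pr.ax.2]; rfl
    · rw [mul_smul, p _ (by omega) (by omega), p _ (by omega) (by omega), P.pr.ax.2]; rfl
  have rel := P.rel
  rw [zpow_one] at rel
  have s0 : σ • l 0 = l 0 := P.S 0 (by omega) (by omega)
  have s1 : σ • l (-1) = l 1 := P.S 1 (by omega) (by omega)
  have y0 : y • l 0 = l 4 := P.pr.ax.2 _
  have y1 : y • l (-1) = l 3 := P.pr.ax.2 _
  have p1 : (τ⁻¹ * σ) • l 1 = l 3 := p 1 (by omega) (by omega)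
  have p2 : (τ⁻¹ * σ) • l 2 = l 4 := p 2 (by omega) (by omega)
  obtain ⟨ρ, hρ⟩ : ∃ ρ, ρ = τ⁻¹ * σ⁻¹ := ⟨_, rfl⟩
  obtain ⟨w, hw⟩ : ∃ w, w = ρ⁻¹ * ((τ⁻¹ * σ)⁻¹ * (y * σ⁻¹)) := ⟨_, rfl⟩
  rw [← hρ] at r0 r1 r2
  have w0 : w • l 0 = l 0 := by
    rw [hw, mul_smul, mul_smul, mul_smul y, inv_smul_eq_iff.2 s0.symm, y0, ← p2, inv_smul_smul,
      inv_smul_eq_iff, r0]; rfl
  have w1 : w • l 1 = l 1 := by
    rw [hw, mul_smul, mul_smul, mul_smul y, inv_smul_eq_iff.2 s1.symm, y1, ← p1, inv_smul_smul,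
      inv_smul_eq_iff, r1]; rfl
  have c : ρ * w = w * ρ := A.ab _ _ _ a1 r1 w1
  have e1 : τ = σ⁻¹ * ρ⁻¹ := by rw [hρ]; group
  have e2 : y = ρ * σ * σ * ρ * w * σ := by rw [hw, hρ]; group
  rw [e1, e2] at rel
  have key : σ * σ * (w * (ρ * ρ)) * σ * σ = w * σ * w⁻¹ := by
    have e3 : w * σ * ρ = σ * σ * (ρ * w) * ρ * σ * σ * (ρ * w) := by
      calc _ = ρ⁻¹ * σ⁻¹ * (σ⁻¹ * ρ⁻¹ * (ρ * σ * σ * ρ * w * σ) * (σ⁻¹ * ρ⁻¹)⁻¹) * σ⁻¹ := by group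
        _ = _ := by rw [rel]; group
    rw [c] at e3
    calc _ = σ * σ * (w * ρ) * ρ * σ * σ * (w * ρ) * ρ⁻¹ * w⁻¹ := by group
      _ = _ := by rw [← e3]; group
  have b0 : (ρ * ρ) • l 0 = l 0 := by rw [mul_smul, r0]; exact r2
  have := (hT _ _ hr).x2 (w * (ρ * ρ)) (mul_mem w0 b0) w w0 σ s0
    (by rw [mul_smul, mul_smul, show ρ • l 1 = l 1 from r1, show ρ • l 1 = l 1 from r1, w1]) w1 key
  exact hl.ne (by omega) (smul_left_cancel _ (this.trans s1.symm))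

theorem Pa.a0 (P : T.Pa y l h k σ τ 0 b) (A : T.AC) (hT : T.TopH) (hP : P1 H) : False := by
  have hl := P.pr.ax.1
  have h0 := P.pr.pos
  have hb := hl.even (P.Tt 0 (by omega) le_rfl)
  obtain ⟨m, q, m1, m2, m3⟩ := exists_ctr_int h0 (c := b) (by omega) 0
  have r : ∀ j, 0 ≤ j → j ≤ h → (τ⁻¹ * σ⁻¹) • l j = l (b - j) := fun j j1 j2 => by
    rw [mul_smul, P.S' j j1 j2, P.T' _ (by omega) (by omega)]; congr 1; ring
  have : ¬ (0 + 2 ≤ m ∧ m + 2 ≤ h) := fun e => A.no_flip P.pr.ax r q m3 e.1 e.2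
  obtain rfl | ⟨rfl, h2⟩ | ⟨e, h2⟩ : m = 0 ∨ (m = 1 ∧ 2 ≤ h) ∨ (m = h - 1 ∧ 2 ≤ h) := by omega
  · exact (P.shift 0 (-q) (by ring) (by linarith)).c00 A hP
  · exact (P.shift 0 (-q) (by ring) (by linarith)).c02 A hT h2
  · exact (P.sym.shift 1 q (by ring) (by rw [e] at m3; linarith)).c02 A hT h2

theorem Pa.c20 (P : T.Pa y l h k σ τ 2 0) (A : T.AC) (hT : T.TopH) (h2 : 2 ≤ h) : False := by
  have hl := P.pr.ax.1
  have t : ∀ j, -h ≤ j → j ≤ 0 → τ • l j = l j := fun j j1 j2 => by simpa using P.Tt j j1 j2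
  have n1 : τ ≠ 1 := P.ne' (by simp)
  rcases eq_or_lt_of_le h2 with rfl | h3
  swap
  · exact n1 (A.fix3 (t (-3) (by omega) (by omega)) (t 0 (by omega) le_rfl) (by rw [hl]; decide))
  have p : ∀ j, 2 ≤ j → j ≤ k * (2 * 2) → (τ⁻¹ * σ) • l j = l (j - 2) := fun j j1 j2 => by
    simpa using P.R' (j - 2) (by omega) (by omega)
  obtain ⟨k1, rfl | k2⟩ := P.K
  swap
  · refine A.no_sqrt P.pr (ρ := (τ⁻¹ * σ)⁻¹) (A.eq3 (x := l 0) (y := l 3) ?_ ?_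
      (by rw [hl]; decide))
    · rw [mul_smul, inv_smul_eq_iff, inv_smul_eq_iff, P.pr.ax.2, p _ (by omega) (by omega),
        p _ (by omega) (by omega)]; rfl
    · rw [mul_smul, inv_smul_eq_iff, inv_smul_eq_iff, P.pr.ax.2, p _ (by omega) (by omega),
        p _ (by omega) (by omega)]; rfl
  have rel := P.rel
  rw [zpow_one] at rel
  have s0 : σ • l 2 = l 0 := P.S 0 (by omega) (by omega)
  have s1 : σ • l 1 = l 1 := P.S 1 (by omega) (by omega)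
  have s2 : σ • l 0 = l 2 := P.S 2 (by omega) (by omega)
  obtain ⟨a1, hr, -⟩ := A.root hl (m := 1) s1 s2 s0
  have y0 : y • l 0 = l 4 := P.pr.ax.2 _
  have y1 : y • l (-1) = l 3 := P.pr.ax.2 _
  have p1 : (τ⁻¹ * σ) • l 3 = l 1 := p 3 (by omega) (by omega)
  have p2 : (τ⁻¹ * σ) • l 4 = l 2 := p 4 (by omega) (by omega)
  obtain ⟨f, hf⟩ : ∃ f, f = (σ⁻¹ * (τ⁻¹ * σ * y))⁻¹ := ⟨_, rfl⟩
  have f0 : f • l 0 = l 0 := by
    rw [hf, inv_smul_eq_iff, mul_smul, mul_smul, y0, p2, eq_inv_smul_iff, s2]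
  have f1 : f • l 1 = l (-1) := by
    rw [hf, inv_smul_eq_iff, mul_smul, mul_smul, y1, p1, eq_inv_smul_iff, s1]
  obtain ⟨v, hv⟩ : ∃ v, v = f⁻¹ * τ * f := ⟨_, rfl⟩
  have v0 : v • l 0 = l 0 := by
    rw [hv, mul_smul, mul_smul, f0, t 0 (by omega) le_rfl, inv_smul_eq_iff, f0]
  have v1 : v • l 1 = l 1 := by
    rw [hv, mul_smul, mul_smul, f1, t _ (by omega) (by omega), inv_smul_eq_iff, f1]
  have c : σ * v = v * σ := A.ab _ _ _ a1 s1 v1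
  have e1 : τ = f * v * f⁻¹ := by rw [hv]; group
  have e2 : y = σ⁻¹ * τ * σ * f⁻¹ := by rw [hf]; group
  have e3 : τ * v * τ⁻¹ = σ * σ * f * (σ * σ)⁻¹ := by
    rw [e2] at rel
    have e4 : τ * (σ * v⁻¹) = σ * σ * f⁻¹ * (σ * σ)⁻¹ * τ * σ := by
      calc _ = σ * τ⁻¹ * (τ * (σ⁻¹ * τ * σ * f⁻¹) * (f * v * f⁻¹)⁻¹) * f := by group
        _ = _ := by rw [← e1, rel]; group
    rw [show σ * v⁻¹ = v⁻¹ * σ from (Commute.inv_right c).eq] at e4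
    calc _ = τ * σ * (τ * (v⁻¹ * σ))⁻¹ := by group
      _ = _ := by rw [e4]; simp [mul_assoc]
  have e5 : f * (σ * σ)⁻¹ * v * (f * (σ * σ)⁻¹)⁻¹ = τ := by
    have c2 : Commute (σ * σ)⁻¹ v := (Commute.mul_left c c).inv_left
    rw [e1, mul_assoc f, c2.eq]; group
  have b0 : (σ * σ) • l 0 = l 0 := by rw [mul_smul, s2, s0]
  have b1 : (σ * σ) • l 1 = l 1 := by rw [mul_smul, s1, s1]
  have := (hT _ _ hr).x3 (σ * σ) b0 v v0 (f * (σ * σ)⁻¹) (mul_mem f0 (inv_mem b0)) b1 v1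
    (fun e => n1 (by rw [e1, e]; group)) (by rw [e5, e3]; group)
  rw [mul_smul, inv_smul_eq_iff.2 b1.symm, f1] at this
  exact hl.ne (by omega) this

theorem Pa.c22 (P : T.Pa y l h k σ τ 2 2) (A : T.AC) (hT : T.TopH) (h2 : 2 ≤ h) : False := by
  have hl := P.pr.ax.1
  obtain ⟨rfl, rfl⟩ : h = 2 ∧ k = 1 := by
    by_contra hc
    have := P.K
    exact P.ne (A.fix3 (P.R' 0 le_rfl (by omega)) (P.R' 3 (by omega) (by omega))
      (by rw [hl]; decide))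
  have rel := P.rel
  rw [zpow_one] at rel
  have s0 : σ • l 2 = l 0 := P.S 0 (by omega) (by omega)
  have s1 : σ • l 1 = l 1 := P.S 1 (by omega) (by omega)
  have s2 : σ • l 0 = l 2 := P.S 2 (by omega) (by omega)
  obtain ⟨a1, hr, -⟩ := A.root hl (m := 1) s1 s2 s0
  have y0 : y • l 0 = l 4 := P.pr.ax.2 _
  have y1 : y • l (-1) = l 3 := P.pr.ax.2 _
  have t0 : τ • l 2 = l 0 := P.Tt 0 (by omega) (by omega)
  have t1 : τ • l 1 = l (-1) := by simpa using P.Tt (-1) (by omega) (by omega)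
  have p1 : (τ⁻¹ * σ) • l 3 = l 3 := P.R' 1 (by omega) (by omega)
  have p2 : (τ⁻¹ * σ) • l 4 = l 4 := P.R' 2 (by omega) (by omega)
  obtain ⟨f, hf⟩ : ∃ f, f = τ * σ := ⟨_, rfl⟩
  have f0 : f • l 0 = l 0 := by rw [hf, mul_smul, s2, t0]
  have f1 : f • l 1 = l (-1) := by rw [hf, mul_smul, s1, t1]
  obtain ⟨v, hv⟩ : ∃ v, v = (y * f)⁻¹ * (τ⁻¹ * σ) * (y * f) := ⟨_, rfl⟩
  have v0 : v • l 0 = l 0 := by
    rw [hv, mul_smul, mul_smul, mul_smul y, f0, y0, p2, inv_smul_eq_iff, mul_smul, f0, y0]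
  have v1 : v • l 1 = l 1 := by
    rw [hv, mul_smul, mul_smul, mul_smul y, f1, y1, p1, inv_smul_eq_iff, mul_smul, f1, y1]
  have c : Commute σ v := A.ab _ _ _ a1 s1 v1
  have e1 : τ = f * σ⁻¹ := by rw [hf]; group
  have e2 : τ⁻¹ * σ = y * f * v * (y * f)⁻¹ := by rw [hv]; group
  have e3 : y * f = σ * (f * v⁻¹ * f⁻¹) * σ := by
    calc _ = σ * y⁻¹ * (τ⁻¹ * σ)⁻¹ * τ⁻¹ * (σ * y * σ⁻¹ * y) * f := by group
      _ = _ := by rw [← rel, e2, e1]; group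
  have e4 : (σ * σ)⁻¹ * f = f * v⁻¹ * f⁻¹ * v⁻¹ * (f * v⁻¹ * f⁻¹)⁻¹ := by
    rw [e3, mul_assoc _ σ v, c.eq] at e2
    calc _ = σ⁻¹ * (τ⁻¹ * σ)⁻¹ * σ := by rw [e1]; simp [mul_assoc]
      _ = _ := by rw [e2]; group
  have b0 : (σ * σ) • l 0 = l 0 := by rw [mul_smul, s2, s0]
  have b1 : (σ * σ) • l 1 = l 1 := by rw [mul_smul, s1, s1]
  have := (hT _ _ hr).x3 (σ * σ)⁻¹ (inv_mem b0) v⁻¹ (inv_mem v0) f f0
    (inv_smul_eq_iff.2 b1.symm) (inv_smul_eq_iff.2 v1.symm)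
    (fun e => P.ne (by rw [e2, inv_eq_one.1 e]; group)) e4
  rw [f1] at this
  exact hl.ne (by omega) this

theorem Pa.eq2 (P : T.Pa y l h k σ τ 2 b) (A : T.AC) (hT : T.TopH) (h3 : 3 ≤ h)
    (p : Tq l H 0 b) : False := by
  obtain ⟨-, hr, -⟩ := A.root P.pr.ax.1 (m := 1) (r := σ) (P.S 1 (by omega) (by omega))
    (P.S 2 (by omega) (by omega)) (P.S 0 (by omega) (by omega))
  exact P.eq hT hr (Tq.rv σ (P.S 3 (by omega) h3) (P.S 1 (by omega) (by omega))) p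

theorem Pa.c24 (P : T.Pa y l h k σ τ 2 4) (A : T.AC) (hT : T.TopH) (h4 : 4 ≤ h) : False := by
  have := P.K
  have q1 : Tq l H 0 2 := Tq.rv σ (P.S 3 (by omega) (by omega)) (P.S 1 (by omega) (by omega))
  have q2 : Tq l H 2 (-2) := Tq.tr τ (by simpa using P.Tt (-3) (by omega) (by omega))
    (by simpa using P.Tt (-1) (by omega) (by omega))
  refine P.eq2 A hT (by omega) (PK.trans q1 (PK.trans q2 ?_))
  rcases eq_or_lt_of_le h4 with rfl | h5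
  · exact PK.trans (Tq.tr (j := 6) y (P.pr.ax.2 _) (P.pr.ax.2 _)) (PK.symm
      (Tq.tr (i := 4) (j := 6) _ (P.R' 1 (by omega) (by omega)) (P.R' 3 (by omega) (by omega))))
  · exact Tq.rv (i := -2) (j := 4) σ (P.S 5 (by omega) h5) (P.S 3 (by omega) (by omega))

theorem Pa.c2m (P : T.Pa y l h k σ τ 2 (-2)) (A : T.AC) (hT : T.TopH) (h3 : 3 ≤ h) : False := by
  have := P.K
  have q1 : Tq l H 4 0 := Tq.tr _ (P.R' 1 (by omega) (by omega)) (P.R' 3 (by omega) (by omega))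
  refine P.eq2 A hT h3 (PK.symm (PK.trans (y' := l (4 + 1)) ?_ q1))
  obtain rfl | rfl | h5 : h = 3 ∨ h = 4 ∨ 5 ≤ h := by omega
  · exact Tq.tr (i := -2) (j := 4) y (P.pr.ax.2 _) (P.pr.ax.2 _)
  · exact PK.trans (PK.symm (Tq.tr (i := -4) (j := -2) τ
      (by simpa using P.Tt (-3) (by omega) (by omega))
      (by simpa using P.Tt (-1) (by omega) (by omega))))
      (Tq.tr (i := -4) (j := 4) y (P.pr.ax.2 _) (P.pr.ax.2 _))
  · exact Tq.rv (i := -2) (j := 4) σ (P.S 5 (by omega) h5) (P.S 3 (by omega) (by omega))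

theorem Pa.a2 (P : T.Pa y l h k σ τ 2 b) (A : T.AC) (hT : T.TopH) (h2 : 2 ≤ h) : False := by
  have hl := P.pr.ax.1
  have := P.K
  have hb := hl.even (P.Tt 0 (by omega) le_rfl)
  obtain ⟨m, q, m1, m2, m3⟩ := exists_ctr_int P.pr.pos (c := b) (by omega) (-1)
  have P' := P.shift 0 (-q) (a' := 2) (b' := 2 * m) (by ring) (by linarith)
  have r : ∀ j, 2 ≤ j → j ≤ h → ((τ * y ^ (-q))⁻¹ * (σ * y ^ (0 : ℤ))⁻¹) • l j =
      l (2 * m + 2 - j) := fun j j1 j2 => by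
    rw [mul_smul, P'.S' j (by omega) j2, P'.T' _ (by omega) (by omega)]; congr 1; ring
  have r' : ∀ j, 2 - h ≤ j → j ≤ 0 → ((τ * y ^ (-q))⁻¹ * (σ * y ^ (0 : ℤ)) *
      (σ * y ^ (0 : ℤ))) • l j = l (2 * m - j) := fun j j1 j2 => by
    have := P'.S (2 - j) (by omega) (by omega)
    rw [sub_sub_cancel] at this
    rw [mul_smul, this, sub_eq_add_neg, P'.R' _ (by omega) (by omega), sub_eq_add_neg]
  have n1 : ¬ (2 + 2 ≤ m + 1 ∧ m + 1 + 2 ≤ h) := fun e =>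
    A.no_flip P.pr.ax r 0 (by ring) e.1 e.2
  have n2 : ¬ (2 - h + 2 ≤ m - h ∧ m - h + 2 ≤ 0) := fun e =>
    A.no_flip P.pr.ax r' (-1) (by ring) e.1 e.2
  have n3 : ¬ (m = 3 ∧ h = 5) := by
    rintro ⟨rfl, rfl⟩
    have a1 := A.flip_ap P.pr.ax r 0 (m := 4) (by ring) (by omega) (by omega)
    have a2 := (A.root hl (m := 1) (r := σ) (P.S 1 (by omega) (by omega))
      (P.S 2 (by omega) (by omega)) (P.S 0 (by omega) (by omega))).1
    have := (hl.par 4 1).1 ⟨fun _ => a2, fun _ => a1⟩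
    omega
  obtain rfl | rfl | ⟨rfl, h4⟩ | ⟨rfl, h3⟩ | ⟨rfl, rfl⟩ :
    m = 0 ∨ m = 1 ∨ (m = 2 ∧ 4 ≤ h) ∨ (m = -1 ∧ 3 ≤ h) ∨ (m = -1 ∧ h = 2) := by omega
  · exact P'.c20 A hT h2
  · exact P'.c22 A hT h2
  · exact P'.c24 A hT h4
  · exact P'.c2m A hT h3
  · exact (P'.shift 0 (-1) (a' := 2) (b' := 2) (by ring) (by ring)).c22 A hT h2

theorem Pa.false (P : T.Pa y l h k σ τ a b) (A : T.AC) (hT : T.TopH) (hP : P1 H) : False := by
  have hl := P.pr.ax.1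
  have h0 := P.pr.pos
  have ha := hl.even (P.S 0 le_rfl h0.le)
  obtain ⟨m, q, m1, m2, m3⟩ := exists_ctr_int h0 (c := a) (by omega) 0
  have : ¬ (0 + 2 ≤ m ∧ m + 2 ≤ h) := fun e => A.no_flip P.pr.ax P.S' q m3 e.1 e.2
  obtain rfl | ⟨rfl, h2⟩ | ⟨e, h2⟩ : m = 0 ∨ (m = 1 ∧ 2 ≤ h) ∨ (m = h - 1 ∧ 2 ≤ h) := by omega
  · exact (P.shift (-q) 0 (b' := b) (by linarith) (by ring)).a0 A hT hP
  · exact (P.shift (-q) 0 (b' := b) (by linarith) (by ring)).a2 A hT h2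
  · exact (P.sym.shift q 0 (b' := 2 * h - b) (by rw [e] at m3; linarith) (by ring)).a2 A hT h2

end BT

end Pool.Agent.Lib.MP_429c3d_al.Ng
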