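import Pool.Agent.Lib.MP_429c3d_al.NgT5

/-! The step for `QQ`. -/

set_option autoImplicit false

namespace Pool.Agent.Lib.MP_429c3d_al.Ng

open Hyp

namespace BT

variable {H V : Type} [Group H] [MulAction H V] {T : BT H V} {l l' l'' : ℤ → V} {c y z σ τ : H}
  {n k i a δ M I K : ℤ} {D : ℕ}

theorem Ov.ft_smul (h : T.Ov l l' δ D) (hc : T.Ax c l' M) (j : ℤ) :
    T.Ft l' (c • l j) (cl δ j + M) (D + (j - cl δ j).natAbs) := fun k => by
  rw [show l' k = c • l' (k - M) by rw [hc.2, sub_add_cancel], T.inv, h.ft]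
  omega

theorem Ov.d_smul (h : T.Ov l l' δ D) (hc : T.Ax c l' M) {i j : ℤ} (hne : cl δ i ≠ cl δ j + M) :
    T.d (l i) (c • l j) = D + (i - cl δ i).natAbs + (cl δ i - (cl δ j + M)).natAbs +
      (D + (j - cl δ j).natAbs) := (h.ft i).via h.right (h.ft_smul hc j) hne

theorem Ov.flip0 (h : T.Ov l l' 0 D) : T.Ov l (fun j => l' (0 - j)) 0 D :=
  ⟨h.left, h.right.sub 0, le_rfl, h.zero, fun i k => by rw [h.ft]; unfold cl; omega⟩

theorem qn_par (h : T.Ov l l' δ D) (hc : T.Ax c l' K) (hK : 0 < K) (hz : T.Ax z l I) (hI : 0 < I)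
    (hx : T.Ax (c * z) l'' K) : False := by
  have := h.nonneg
  have e0 : (c * z) • l (-I) = c • l 0 := by rw [mul_smul, hz.2, neg_add_cancel]
  have e1 : (c * z) • l (-I + 1) = c • l 1 := by rw [mul_smul, hz.2]; congr 2; ring
  have d0 := h.d_smul hc (i := -I) (j := 0) (by unfold cl; omega)
  have d1 := h.d_smul hc (i := -I + 1) (j := 0) (by unfold cl; omega)
  have d2 := h.d_smul hc (i := -I) (j := 1) (by unfold cl; omega)
  unfold cl at d0 d1 d2
  obtain ⟨m, hm, -⟩ := ax_of (T := T) (g := c * z) (x := l (-I)) (a := l (-I + 1))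
    (by rw [h.left]; omega) (by rw [e0]; omega) (by rw [e0, e1]; omega)
  have := hm.natAbs_eq hx
  rw [e0] at this
  omega

theorem qn_gen (A : T.AC) (hT : T.TopH) (hP : P1 H) (hp : T.Prim y l n) (hk : 1 ≤ k) (hi : 1 ≤ i)
    (rel : τ * y ^ k * τ⁻¹ = σ * y ^ k * σ⁻¹ * y ^ i) (h : T.Ov l (fun j => σ • l (a - j)) δ 0)
    (h1 : δ < k * (2 * n)) (h2 : δ < i * (2 * n)) : False := by
  have h0 := h.nonneg
  have hl := h.left
  have hn := hp.pos
  have hc := ((hp.ax.zpow k).conj σ).sub a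
  have hx := (hp.ax.zpow k).conj τ
  have hz := hp.ax.zpow i
  rw [rel] at hx
  have hI : i = 1 ∨ 4 * n ≤ i * (2 * n) := by
    rcases eq_or_lt_of_le hi with e | e
    exacts [Or.inl e.symm, Or.inr (by nlinarith)]
  have hK : 2 * n ≤ k * (2 * n) := by nlinarith
  generalize hK' : k * (2 * n) = K at *
  generalize hI' : i * (2 * n) = I at *
  generalize hc' : σ * y ^ k * σ⁻¹ = c at *
  have e0 : (c * y ^ i) • l (δ - I) = c • l δ := by rw [mul_smul, hz.2, sub_add_cancel]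
  have e1 : (c * y ^ i) • l (δ - I + 1) = c • l (δ + 1) := by rw [mul_smul, hz.2]; congr 2; ring
  have d0 := h.d_smul hc (i := δ - I) (j := δ) (by unfold cl; omega)
  have d1 := h.d_smul hc (i := δ - I + 1) (j := δ) (by unfold cl; omega)
  have d2 := h.d_smul hc (i := δ - I) (j := δ + 1) (by unfold cl; omega)
  unfold cl at d0 d1 d2
  obtain ⟨m, hm, m0, -⟩ := ax_of (T := T) (g := c * y ^ i) (x := l (δ - I)) (a := l (δ - I + 1))
    (by rw [hl]; omega) (by rw [e0]; omega) (by rw [e0, e1]; omega)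
  have mK := hm.2 0
  rw [m0] at mK
  rw [e0] at hm mK
  obtain ⟨u, ⟨u1, u2⟩ | ⟨u1, -⟩⟩ := hm.same (by omega) hx
  swap
  · omega
  rw [← u1, zero_add, h.eq h0 le_rfl, hc.2] at mK
  have S : ∀ j, 0 ≤ j → j ≤ δ → σ • l (a - j) = l j := fun j j1 j2 => (h.eq j1 j2).symm
  have Tt : ∀ j, -δ ≤ j → j ≤ 0 → τ • l (δ - u + j) = l j := fun j j1 j2 => by
    rw [u2]
    refine (hm.1.eq_of_between (i := 0) (j := K) (by omega) (by omega) ?_ ?_).symm
    · rw [m0, hl]; omega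
    · rw [← mK, h.ft]; unfold cl; omega
  have R : ∀ j, 0 ≤ j → j ≤ K - δ → σ • l (a + j) = τ • l (δ - u + j) := fun j j1 j2 => by
    rw [u2, ← sub_neg_eq_add a]
    refine hm.1.eq_of_between (i := 0) (j := K) (by omega) (by omega) ?_ ?_
    · rw [m0, h.ft]; unfold cl; omega
    · rw [← mK, T.inv, hl]; omega
  have g1 : σ • l (a + 1) ≠ l (-1) := fun e => by
    have := h.mem (i := -1) (j := -1) (by rw [← e]; rfl)
    omega
  rcases hI with rfl | hI
  · obtain rfl : δ = n := by omega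
    refine Pa.false (k := k) (σ := σ) (τ := τ) (a := a) (b := δ - u) ⟨hp, hk, by rw [rel, hc',
      zpow_one], S, g1, fun e => ?_, Tt, by rw [hK']; exact R⟩ A hT hP
    have := h.mem (i := δ + 1) (j := δ + 1) (by rw [← e]; congr 2; ring)
    omega
  · obtain ⟨-, -, c1, c2⟩ := A.crit hp.ax hn (g := σ⁻¹) (a := 0) (b := δ) (c := a)
      (fun j j1 j2 => by rw [← S j j1 j2, inv_smul_smul]) (by omega)
    have s0 := S 0 le_rfl h0
    have s1 := S 1 (by omega) (by omega)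
    exact c2.tripod hT (C := l 0) (α := l 1) (β := l (-1)) (γ := σ • l (a + 1)) (by rw [hl]; rfl)
      (by rw [hl]; rfl) (by rw [← s0, T.inv, hl]; omega) (hl.ne (by omega))
      (by rw [← s1]; exact fun e => hl.ne (by omega) (smul_left_cancel _ e)) g1.symm
      (Tu.of' (hl.ap_succ c1) 1 0 (one_smul _ _) (one_smul _ _))
      (Tu.of (hl.ap_succ c1) σ a s1 rfl)
      (Tu.of (hl.ap_pred c1) τ (δ - u) (Tt (-1) (by omega) (by omega))
        (R 1 (by omega) (by omega)).symm)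

theorem qn_one (A : T.AC) (hT : T.TopH) (hy : T.Ax y l 2)
    (rel : τ * y * τ⁻¹ = σ * y * σ⁻¹ * (y * y)) (S : ∀ j, 0 ≤ j → j ≤ 2 → σ • l (2 - j) = l j)
    (Tt : ∀ j, -2 ≤ j → j ≤ 0 → τ • l j = l j) : False := by
  have hl := hy.1
  have s0 : σ • l 2 = l 0 := S 0 (by omega) (by omega)
  have s1 : σ • l 1 = l 1 := S 1 (by omega) (by omega)
  have s2 : σ • l 0 = l 2 := S 2 (by omega) (by omega)
  obtain ⟨a1, hr, -⟩ := A.root hl (m := 1) s1 s2 s0
  have y0 : y • l 0 = l 2 := hy.2 _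
  have y1 : y • l (-1) = l 1 := hy.2 _
  obtain ⟨g, hg⟩ : ∃ g, g = σ⁻¹ * y := ⟨_, rfl⟩
  have g0 : g • l 0 = l 0 := by rw [hg, mul_smul, y0, inv_smul_eq_iff, s2]
  have g1 : g • l (-1) = l 1 := by rw [hg, mul_smul, y1, inv_smul_eq_iff, s1]
  obtain ⟨b, hb⟩ : ∃ b, b = g * τ * g⁻¹ := ⟨_, rfl⟩
  have b0 : b • l 0 = l 0 := by
    rw [hb, mul_smul, mul_smul, inv_smul_eq_iff.2 g0.symm, Tt 0 (by omega) le_rfl, g0]
  have b1 : b • l 1 = l 1 := by
    rw [hb, mul_smul, mul_smul, inv_smul_eq_iff.2 g1.symm, Tt _ (by omega) (by omega), g1]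
  have c : Commute σ b := A.ab _ _ _ a1 s1 b1
  have e1 : y = σ * g := by rw [hg]; group
  have e2 : τ = g⁻¹ * b * g := by rw [hb]; group
  have e3 : g⁻¹ * g⁻¹ * (σ * σ)⁻¹ * g⁻¹ = b * g⁻¹ * b⁻¹ := by
    rw [e1, e2] at rel
    have e4 : b * g * (σ * b⁻¹) = g * σ * σ * g * g * σ := by
      calc _ = g * (g⁻¹ * b * g * (σ * g) * (g⁻¹ * b * g)⁻¹) * g⁻¹ := by group
        _ = _ := by rw [rel]; simp [mul_assoc]
    rw [c.inv_right.eq] at e4
    calc _ = σ * (g * σ * σ * g * g * σ)⁻¹ := by simp [mul_assoc]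
      _ = _ := by rw [← e4]; group
  have f0 : (σ * σ) • l 0 = l 0 := by rw [mul_smul, s2, s0]
  have f1 : (σ * σ) • l 1 = l 1 := by rw [mul_smul, s1, s1]
  obtain ⟨u, u0, u1, u2⟩ := (hT _ _ hr).x1 (σ * σ)⁻¹ (inv_mem f0) b b0 g⁻¹ (inv_mem g0)
    (inv_smul_eq_iff.2 f1.symm) b1 e3
  have c' : σ * u = u * σ := A.ab _ _ _ a1 s1 u1
  have e5 : σ * u = 1 := A.sq (by
    calc σ * u * (σ * u) = σ * (u * σ) * u := by group
      _ = σ * σ * (u * u) := by rw [← c']; group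
      _ = 1 := by rw [← u2]; group)
  have u0' : u • l 0 = l 0 := u0
  rw [← u0', ← mul_smul, e5, one_smul] at s2
  exact hl.ne (by omega) s2

theorem qn_crit (A : T.AC) (hT : T.TopH) (hp : T.Prim y l n) (hk : 1 ≤ k) (hi : 1 ≤ i)
    (rel : τ * y ^ k * τ⁻¹ = σ * y ^ k * σ⁻¹ * y ^ i) (h : T.Ov l (fun j => σ • l (a - j)) δ 0)
    (h1 : k * (2 * n) ≤ δ ∨ i * (2 * n) ≤ δ) : False := by
  have hl := h.left
  have hn := hp.pos
  have hc := ((hp.ax.zpow k).conj σ).sub a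
  have hx := (hp.ax.zpow k).conj τ
  have hz := hp.ax.zpow i
  have hI : i = 1 ∨ 4 * n ≤ i * (2 * n) := by
    rcases eq_or_lt_of_le hi with e | e
    exacts [Or.inl e.symm, Or.inr (by nlinarith)]
  have hK : k = 1 ∨ 4 * n ≤ k * (2 * n) := by
    rcases eq_or_lt_of_le hk with e | e
    exacts [Or.inl e.symm, Or.inr (by nlinarith)]
  have hK' : 2 * n ≤ k * (2 * n) := by nlinarith
  have hI' : 2 * n ≤ i * (2 * n) := by nlinarith
  have S : ∀ j, 0 ≤ j → j ≤ δ → σ • l (a - j) = l j := fun j j1 j2 => (h.eq j1 j2).symm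
  have S' : ∀ j, 0 ≤ j → j ≤ δ → σ⁻¹ • l j = l (a - j) := fun j j1 j2 => by
    rw [← S j j1 j2, inv_smul_smul]
  obtain ⟨c0, c3, c1, c2⟩ := A.crit hp.ax hn S' (by omega)
  rw [zero_add] at c0
  subst c0
  rw [rel] at hx
  rcases hI with rfl | hI
  · have := hx.le_disp (l 0)
    rw [mul_smul, hz.2, zero_add, one_mul, h.eq h.nonneg le_rfl, hc.2, h.ft] at this
    unfold cl at this
    omega
  obtain rfl : k = 1 := by omega
  rw [one_mul] at hc hx
  rw [zpow_one] at hc hx rel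
  generalize hc' : σ * y * σ⁻¹ = c at *
  have s0 := S 0 le_rfl h.nonneg
  have s1 := S 1 (by omega) (by omega)
  have k0 : ∀ j, 0 ≤ j → j ≤ 2 * n → c • l j = σ • l (a - (j - 2 * n)) := fun j j1 j2 => by
    rw [h.eq j1 j2, hc.2, sub_eq_add_neg j]
  have k1 : c • l (2 * n) = l 0 := by rw [k0 _ (by omega) le_rfl, sub_self, s0]
  have k2 : c • l (2 * n + 1) ≠ l 1 := fun e => by
    have e1 : c • σ • l _ = σ • l _ := hc.2 (2 * n + 1)
    rw [show 2 * n + 1 + -(2 * n) = 1 by ring, s1, ← e] at e1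
    have := h.mem (smul_left_cancel _ e1).symm
    omega
  have d1 : T.d (l 0) (c • l (2 * n + 1)) = 1 := by rw [← k1, T.inv, hl]; omega
  by_cases k3 : c • l (2 * n + 1) = l (-1)
  · refine c2.tripod hT (C := l 0) (α := l 1) (β := l (-1)) (γ := σ • l (a + 1)) (by rw [hl]; rfl)
      (by rw [hl]; rfl) (by rw [← s0, T.inv, hl]; omega) (hl.ne (by omega))
      (by rw [← s1]; exact fun e => hl.ne (by omega) (smul_left_cancel _ e)) (fun e => ?_)
      (Tu.of' (hl.ap_succ c1) 1 0 (one_smul _ _) (one_smul _ _))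
      (Tu.of (hl.ap_succ c1) σ a s1 rfl) (Tu.of' (hl.ap_pred c1) c (2 * n) k3 ?_)
    · have := h.mem (i := -1) (j := -1) (by rw [e]; rfl)
      omega
    · rw [k0 _ (by omega) (by omega)]; congr 2; ring
  generalize hI'' : i * (2 * n) = I at *
  have e0 : (c * y ^ i) • l (2 * n - I) = l 0 := by rw [mul_smul, hz.2, sub_add_cancel, k1]
  have e1 : (c * y ^ i) • l (2 * n - I + 1) = c • l (2 * n + 1) := by
    rw [mul_smul, hz.2]; congr 2; ring
  have d2 := T.nbr_far (x := l (2 * n - I)) (p := l 0) (u := l (-1)) (by rw [hl, hl]; omega)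
    (by rw [hl]; rfl) d1 k3
  obtain ⟨m, hm, m0, m1⟩ := ax_of (T := T) (g := c * y ^ i) (x := l (2 * n - I))
    (a := l (2 * n - I + 1)) (by rw [hl]; omega) (by rw [e0, hl, hl]; omega)
    (by rw [e0, e1]; omega)
  have mK := hm.2 0
  have mK' := hm.2 1
  rw [m0] at mK
  rw [m1, e1] at mK'
  rw [e0] at hm mK mK'
  rw [hl] at hm mK mK'
  obtain ⟨u, ⟨u1, u2⟩ | ⟨u1, -⟩⟩ := hm.same (by omega) hx
  swap
  · omega
  rw [← u1] at mK mK'
  have Tt : ∀ j, -(2 * n) ≤ j → j ≤ 0 → τ • l (2 * n - u + j) = l j := fun j j1 j2 => by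
    rw [u2]
    refine (hm.1.eq_of_between (i := 0) (j := 0 + 2 * n) (by omega) (by omega) ?_ ?_).symm
    · rw [m0, hl]; omega
    · rw [← mK, hl]; omega
  have g3 : τ • l (2 * n - u + 1) ≠ l 1 := by
    rw [u2, show u + (2 * n - u + 1) = 1 + 2 * n by ring, ← mK']
    exact k2
  generalize 2 * n - u = b at Tt g3
  have ha := hl.even s0
  have hb := hl.even (Tt 0 (by omega) le_rfl)
  obtain rfl | rfl : n = 1 ∨ n = 2 := by omega
  · obtain rfl : i = 2 := by omega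
    refine qn_one A hT hp.ax (σ := σ * y ^ ((a - 2) / 2)) (τ := τ * y ^ (b / 2)) ?_
      (fun j j1 j2 => ?_) fun j j1 j2 => ?_
    · calc _ = τ * y * τ⁻¹ := by group
        _ = _ := by rw [rel, ← hc', zpow_two]; group
    · rw [mul_smul, (hp.ax.zpow _).2, ← S j j1 j2]; congr 2; omega
    · rw [mul_smul, (hp.ax.zpow _).2, ← Tt j j1 j2]; congr 2; omega
  · have a4 : a % 4 = 2 := by
      by_contra a4
      exact A.no_flip hp.ax S' ((4 - a) / 4) (m := 2) (by omega) (by omega) (by omega)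
    by_cases b4 : b % 4 = 0
    · have t : ∀ j, -4 ≤ j → j ≤ 0 → (τ * y ^ (b / 4)) • l j = l j := fun j j1 j2 => by
        rw [mul_smul, (hp.ax.zpow _).2, ← Tt j j1 j2]; congr 2; omega
      have := A.fix3 (t (-3) (by omega) (by omega)) (t 0 (by omega) le_rfl) (by rw [hl]; decide)
      refine g3 ?_
      rw [← one_smul H (l 1), ← this, mul_smul, (hp.ax.zpow _).2]
      congr 2; omega
    · refine A.no_flip hp.ax (g := σ * y ^ ((a - b) / 4) * τ⁻¹) (a := -4) (b := 0) (c := 0)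
        (fun j j1 j2 => ?_) (-1) (m := -2) rfl le_rfl le_rfl
      rw [mul_smul, mul_smul, ← Tt j j1 j2, inv_smul_smul, (hp.ax.zpow _).2,
        ← S (0 - j) (by omega) (by omega)]
      congr 2; omega

theorem qn_pos (A : T.AC) (hT : T.TopH) (hP : P1 H) (hp : T.Prim y l n) (hk : 1 ≤ k) (hi : 1 ≤ i)
    (rel : τ * y ^ k * τ⁻¹ = σ * y ^ k * σ⁻¹ * y ^ i) : False := by
  have hn := hp.pos
  have hK : 0 < k * (2 * n) := by positivity
  have hI : 0 < i * (2 * n) := by positivity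
  have hx := (hp.ax.zpow k).conj τ
  rw [rel] at hx
  by_cases hc : σ * y = y * σ
  · rw [(Commute.zpow_right hc k).eq, mul_inv_cancel_right] at hx
    have := hx.natAbs_eq ((hp.ax.zpow k).mul (hp.ax.zpow i))
    omega
  have hc' := (hp.ax.zpow k).conj σ
  obtain ⟨u, u', δ, D, h | h⟩ := A.exists_ov hp.ax hn hc
  · exact qn_par h (hc'.add u') hK ((hp.ax.zpow i).add u) hI hx
  rcases h.zero with rfl | rfl
  swap
  · exact qn_par h.flip0 (by simpa using (hc'.sub u').sub 0) hK ((hp.ax.zpow i).add u) hI hx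
  have h' : T.Ov (fun j => l (u + j)) (fun j => σ • l (u + (u' - u - j))) δ 0 := by
    simpa only [show ∀ j, u + (u' - u - j) = u' - j from fun j => by ring] using h
  by_cases h1 : k * (2 * n) ≤ δ ∨ i * (2 * n) ≤ δ
  · exact qn_crit A hT (hp.add u) hk hi rel h' h1
  · exact qn_gen A hT hP (hp.add u) hk hi rel h' (by omega) (by omega)

theorem qn (A : T.AC) (hT : T.TopH) (hP : P1 H) (hp : T.Prim y l n) (hk : k ≠ 0) (hi : i ≠ 0)
    (rel : τ * y ^ k * τ⁻¹ = σ * y ^ k * σ⁻¹ * y ^ i) : False := by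
  have rel' : σ * y ^ k * σ⁻¹ = τ * y ^ k * τ⁻¹ * y ^ (-i) := by rw [rel]; group
  rcases lt_or_gt_of_ne hk with hk | hk <;> rcases lt_or_gt_of_ne hi with hi | hi
  · exact qn_pos A hT hP (hp.sub 0) (k := -k) (i := -i) (by omega) (by omega) (by simpa using rel)
  · exact qn_pos A hT hP (hp.sub 0) (k := -k) (i := i) (by omega) hi (by simpa using rel')
  · exact qn_pos A hT hP hp (i := -i) hk (by omega) rel'
  · exact qn_pos A hT hP hp hk hi rel

variable {G : Type} [Group G]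

/-- The step for `QQ`. -/
theorem AC.qq (A : T.AC) (hT : T.TopH) (hP : P1 H) (hD : T.Des G) (hG : QQ G)
    (hQ : ∀ (y s t z : H) (α : V), T.ap α → y • α = α → z • α = α → y ≠ 1 →
      t * y * t⁻¹ = s * y * s⁻¹ * z → z = 1) : QQ H := by
  intro y s t z hy hzy e
  have := A.ne
  by_contra hz
  rcases T.ell_or_ax y with ⟨x, hx⟩ | ⟨l, M, hM, hl⟩
  · obtain ⟨x, hx⟩ := T.exists_ctr hx
    have h1 := A.ctr_fix hy hx hzy.eq
    rcases hx.2 with h2 | h2
    · exact hz (hQ y s t z x h2 hx.1 h1 hy e)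
    have f : ∀ g : H, (g * y * g⁻¹) • g • x = g • x := fun g => by simp [mul_smul, hx.1]
    obtain ⟨m, m1, m2⟩ := T.serre (f s) h1 (e ▸ f t)
    have m3 : (t * y * t⁻¹) • m = m := by rw [e, mul_smul, m2, m1]
    have f' : ∀ g : H, (g * y * g⁻¹) • m = m → g • x = m := fun g hg => by
      rw [mul_smul, mul_smul, ← eq_inv_smul_iff] at hg
      rw [← h2 _ hg, smul_inv_smul]
    by_cases h3 : T.ap x
    · exact hz (hQ y s t z x h3 hx.1 h1 hy e)
    obtain ⟨w, hw⟩ := T.exists_ctr h1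
    rcases hw.2 with h4 | h4
    · exact h3 (h2 w (A.ctr_fix hz hw hzy.symm.eq) ▸ h4)
    obtain rfl : m = x := (h4 m m2).trans (h4 x h1).symm
    obtain ⟨φ, hφ⟩ := hD m h3
    exact hz (congrArg Subtype.val (hG.of_inj hφ ⟨y, hx.1⟩ ⟨s, f' s m1⟩ ⟨t, f' t m3⟩ ⟨z, h1⟩
      (fun e => hy (congrArg Subtype.val e)) (Subtype.ext hzy.eq) (Subtype.ext e)))
  · obtain ⟨y0, n, hp⟩ := A.exists_prim hl hM.ne'
    obtain ⟨u, hu⟩ := A.ax_of_comm hl hM.ne' hzy.eq
    obtain ⟨k, rfl, -⟩ := hp.gen y M hl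
    obtain ⟨i, rfl, -⟩ := hp.gen z u hu
    exact qn A hT hP hp (fun h => hy (by rw [h, zpow_zero])) (fun h => hz (by rw [h, zpow_zero])) e

end BT

end Pool.Agent.Lib.MP_429c3d_al.Ng
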