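import Pool.Agent.Lib.MP_429c3d_al.NgSt0
import Pool.Agent.Lib.MP_429c3d_al.NgDev
import Pool.Agent.Lib.MP_429c3d_al.NgS7
import Pool.Agent.Lib.MP_429c3d_al.NgLev0
import Pool.Agent.Lib.MP_429c3d_al.NgLim

set_option autoImplicit false

/-! The step from a level to the next one, and the group. -/

namespace Pool.Agent.Lib.MP_429c3d_al.Ng

open Hyp

theorem St.GT.mono {AA N K : Type} [CommGroup AA] {S : St AA N K} {L : S.G → S.G → Prop}
    {k k' S' : ℕ} (h : S.GT L k S') (hk : k ≤ k') : S.GT L k' S' := fun y c h1 h2 =>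
  (h y c h1 h2).imp id fun ⟨j, e1, e2⟩ => ⟨j, e1.trans hk, e2⟩

theorem dis_chain {X X' : Type} {d : X → X → ℕ} {d' : X' → X' → ℕ} (gr : IsGr d) (m : IsMet d')
    (f : X → X') {u : ℕ} (h : ∀ x x', d x x' ≤ u → d' (f x) (f x') ≤ 1) (n : ℕ) :
    ∀ x x', d x x' ≤ n * u → d' (f x) (f x') ≤ n := by
  induction n with
  | zero =>
    intro x x' e
    rw [gr.sep x x' (by omega), m.self]
  | succ n ih =>
    intro x x' e
    rw [Nat.succ_mul] at e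
    by_cases hc : d x x' ≤ u
    · exact (h x x' hc).trans (by omega)
    · obtain ⟨w, w1, w2⟩ := gr.geo.mid gr.met x x' (s := u) (by omega)
      have := h x w w1.le
      have := ih w x' (by omega)
      have := m.tri (f x) (f w) (f x')
      omega

theorem level_step : ∃ k A S2 : ℕ, ∀ u0 : ℕ, ∃ u k0 m : ℕ, u0 ≤ u ∧ 1 ≤ m ∧
    ∀ (G X : Type) [Group G] [MulAction G X] (d : X → X → ℕ), Lev G d k A S2 k0 m →
      (∃ (a : G) (x : X), a ≠ 1 ∧ d x (a • x) ≤ u) → ∃ (G' X' : Type) (_ : Group G') (_ : MulAction G' X') (d' : X' → X' → ℕ),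
        Lev G' d' k A S2 k0 m ∧ Nonempty (Nx G G' d d' u m) := by
  obtain ⟨kS, cS, h0⟩ := st0_exists
  obtain ⟨kT, cT, h1⟩ := fs_exists kS cS
  obtain ⟨D0, hD0, h0⟩ := h0 (20 * kT + 20)
  obtain ⟨D, k, h2⟩ := dev_main kT D0
  obtain ⟨L, h3⟩ := s7_main kT cT D k
  obtain ⟨f, P, h0⟩ := h0 L
  obtain ⟨f', P', h1⟩ := h1 L f P
  obtain ⟨A, h3⟩ := h3 f' P'
  obtain ⟨S1, S2, hS1, h0⟩ := h0 k A
  refine ⟨k, A, S2, fun u0 => ?_⟩
  obtain ⟨u, K1, hu, h0⟩ := h0 S2 u0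
  obtain ⟨K0, h1⟩ := h1 S2
  obtain ⟨r0, h3⟩ := h3 S2 (K0 + K1)
  obtain ⟨kk, h0⟩ := h0 (K0 + K1 + 1)
  obtain ⟨m, n, hn, hm, h2⟩ := h2 (r0 + 4) r0 kk
  refine ⟨u, K0 + K1 + 1, m, hu, hm, fun G X _ _ d lev sh => ?_⟩
  obtain ⟨AA, N0, K, I, _, _, S, B, ⟨O⟩, ok, mi, al, gt⟩ := h0 m n G X d hn hm lev sh
  obtain ⟨J, F, ⟨E⟩, ok', mi', al', gt'⟩ := h1 _ D0 (K0 + K1) m n AA N0 K I S B hD0 (by omega) hn
    ok mi al (gt.mono (by omega))
  obtain ⟨x0⟩ := lev.xl.ne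
  obtain ⟨C, V, ⟨c⟩, cov⟩ := h2 AA N0 K _ J F (fun τ => E.k1_eq ▸ O.k1_le τ) ok' mi'.hyp mi'.det
    ⟨E.ι (O.j x0)⟩
  obtain ⟨xl, qq, p1, gt''⟩ := h3 AA _ K _ J C V F.Y F.ε m _ r0 F.tfA ok' mi'.ta mi'.ai mi'.pw al'
    gt' (by omega) le_rfl ⟨c.Φ (C.pt (E.ι (O.j x0)))⟩ cov
  let θ : G →* V.Γ := c.θ.comp (E.φ.comp O.φ)
  have := lev.cnt
  have nap : ∀ x, ¬ J.ap (E.ι (O.j x)) := fun x e => O.not_ap x ((E.ap_ι _).1 e)
  have sm : ∀ (g : G) x, C.pt (E.ι (O.j (g • x))) = E.φ (O.φ g) • C.pt (E.ι (O.j x)) :=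
    fun g x => by rw [O.j_smul, E.ι_smul, C.pt_smul _ _ (nap x)]
  have le : ∀ x x', d x x' ≤ u → C.dW (C.pt (E.ι (O.j x))) (C.pt (E.ι (O.j x'))) ≤ 1 :=
    fun x x' e => C.pt_le _ _ (nap x) (nap x') (by rw [E.d_ι]; exact O.le x x' e)
  refine ⟨θ.range, V.X, inferInstance, inferInstance, V.d,
    lev_sub xl V.free qq p1 gt'' _ θ.rangeRestrict_surjective.countable,
    ⟨⟨θ.rangeRestrict, fun x => c.Φ (C.pt (E.ι (O.j x))), θ.rangeRestrict_surjective,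
      fun g x => ?_, fun x x' e => (c.le _ _).trans (le x x' e), fun g x hg e e' => hg ?_,
      fun y c' e1 e2 e3 => ?_⟩⟩⟩
  · rw [sm, c.Φ_smul]
    rfl
  · have e1 := dis_chain lev.xl.gr C.blow.grW.met _ le 4 x _ e
    rw [sm] at e1
    have e2 := c.inj (C.pt_deep _ (nap x)) (g := E.φ (O.φ g)) (g' := 1) (by omega)
      (by rw [one_smul, C.blow.grW.met.self]; omega) (by
        rw [map_one]
        exact congrArg Subtype.val e')
    exact O.φ_inj (E.φ_inj (by rw [e2, map_one, map_one]))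
  · refine law_of_map θ.range.subtype Subtype.val_injective ?_
    refine (E.tr _ _ (O.tr y c' e1 e2 fun e => e3 fun x => ?_)).law c.θ qq c.law (θ.map_isConj e1)
    exact (e x).imp (le_trans hS1) (le_trans hS1)

/-- A non abelian group in which all pairs of conjugate elements satisfy the law. -/
theorem exists_group : ∃ (m : ℕ) (H : Type) (_ : Group H), 1 ≤ m ∧ (∃ a b : H, ¬ Commute a b) ∧
    ∀ y c : H, IsConj y c → Law m y c := by
  obtain ⟨k, A, S2, h⟩ := level_step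
  obtain ⟨Λ, h0⟩ := lev_zero k A S2
  obtain ⟨u, k0, m, hu, hm, h⟩ := h (Λ + 2)
  obtain ⟨G, X, _, _, d, a, b, x, h1, h2, h3, h4⟩ := h0 k0 m
  obtain ⟨H, _, h5, h6⟩ := limit_group k A S2 k0 m u (by omega) h G X d a b x h1 h2 (by omega)
    (by omega)
  exact ⟨m, H, inferInstance, hm, h5, h6⟩

theorem iter_cs {G : Type} [Group G] (y c : G) (k : ℕ) :
    (fun z : G => z⁻¹ * y⁻¹ * z * y)^[k] (c⁻¹ * y) = ((y ^ k)⁻¹ * cs y c k * y ^ k)⁻¹ * y := by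
  induction k with
  | zero => simp [cs]
  | succ k ih =>
    rw [Function.iterate_succ_apply', ih, cs]
    group

end Pool.Agent.Lib.MP_429c3d_al.Ng
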