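import Pool.Agent.Lib.MP_429c3d_al.HypPrj

set_option autoImplicit false
set_option linter.unusedSectionVars false

/-! Adding hyperbolic graphs along quasi-convex trees with bounded overlaps. -/

namespace Pool.Agent.Lib.MP_429c3d_al.Ng

open Hyp Sum

/-- The space `Y` with trees `Z i`, graphs `dT i` on them, the union `dS` and the cone-off `dB`. -/
structure TW {V I : Type} (dY : V → V → ℕ) (Z : I → V → Prop) (tr leg : I → V → V → Prop)
    (dT : I → V → V → ℕ) (dS : V → V → ℕ) (dB : V ⊕ I → V ⊕ I → ℕ) (k α D kB kT : ℕ) : Prop where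
  q : QFam dY Z k α D
  tree : ∀ i a b, Z i a → Z i b → GW (tr i) (dY a b + 1) a b
  tr_leg : ∀ i a b, tr i a b → leg i a b
  leg_Z : ∀ i a b, leg i a b → Z i a ∧ Z i b
  grT : ∀ i, IsGr (fun a b : {v // Z i v} => dT i a b)
  hypT : ∀ i, Hyp4 (fun a b : {v // Z i v} => dT i a b) kT
  legT : ∀ i a b, Z i a → Z i b → (dT i a b ≤ 1 ↔ a = b ∨ leg i a b)
  grS : IsGr dS
  edgeS : ∀ x y, dS x y ≤ 1 ↔ dY x y ≤ 1 ∨ ∃ i, leg i x y
  grB : IsGr dB
  hypB : Hyp4 dB kB
  B_ll : ∀ x y, dB (inl x) (inl y) ≤ 1 ↔ dY x y ≤ 1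
  B_lr : ∀ x i, dB (inl x) (inr i) ≤ 1 ↔ Z i x
  B_rr : ∀ i j, dB (inr i) (inr j) ≤ 1 → i = j

/-- Copies of the trees. -/
abbrev ZP {V I : Type} (Z : I → V → Prop) : Type := {x : I × V // Z x.1 x.2}

variable {V I : Type} {dY : V → V → ℕ} {Z : I → V → Prop} {tr leg : I → V → V → Prop}
  {dT : I → V → V → ℕ} {dS : V → V → ℕ} {dB : V ⊕ I → V ⊕ I → ℕ} {k α D kB kT : ℕ}

/-- The edges of the blown up space. -/
def adjW (dY : V → V → ℕ) (leg : I → V → V → Prop) : V ⊕ ZP Z → V ⊕ ZP Z → Prop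
  | inl x, inl y => dY x y ≤ 1
  | inl x, inr z => x = z.1.2
  | inr z, inl x => x = z.1.2
  | inr z, inr z' => z.1.1 = z'.1.1 ∧ leg z.1.1 z.1.2 z'.1.2

/-- The projection to the cone-off. -/
def barW : V ⊕ ZP Z → V ⊕ I := Sum.map id fun z => z.1.1

/-- The projection to the union. -/
def kapW : V ⊕ ZP Z → V := Sum.elim id fun z => z.1.2

/-- The distance in the fibres. -/
def dFW (dT : I → V → V → ℕ) (p q : V ⊕ ZP Z) : ℕ :=
  Sum.elim (fun _ => 0) (fun i => dT i (kapW p) (kapW q)) (barW p)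

/-- The detour constant. -/
def detW (k α D kB : ℕ) : ℕ := (20 * kB + 20) * prjC k α D + 1

/-- Paths in one graph that avoid a vertex. -/
def AvT (Z : I → V → Prop) (dT : I → V → V → ℕ) (i : I) (v : V) (n : ℕ) (a b : V) : Prop :=
  ∃ (hv : Z i v) (ha : Z i a) (hb : Z i b),
    Avoid (fun a b : {v // Z i v} => dT i a b) ⟨v, hv⟩ n ⟨a, ha⟩ ⟨b, hb⟩

theorem bar_inr {p : V ⊕ ZP Z} {i : I} (h : barW p = inr i) :
    ∃ (a : V) (ha : Z i a), p = inr ⟨(i, a), ha⟩ := by
  rcases p with x | ⟨⟨j, a⟩, ha⟩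
  · simp [barW] at h
  · obtain rfl : j = i := by simpa [barW] using h
    exact ⟨a, ha, rfl⟩

theorem bar_inl {p : V ⊕ ZP Z} {x : V} (h : barW p = inl x) : p = inl x := by
  rcases p with y | z <;> simp_all [barW]

namespace TW

variable (S : TW dY Z tr leg dT dS dB k α D kB kT)
include S

theorem Tsymm {i : I} {a b : V} (ha : Z i a) (hb : Z i b) : dT i a b = dT i b a :=
  (S.grT i).met.symm ⟨a, ha⟩ ⟨b, hb⟩

theorem leg_symm {i : I} {a b : V} (h : leg i a b) : leg i b a := by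
  obtain ⟨ha, hb⟩ := S.leg_Z i a b h
  rcases (S.legT i b a hb ha).1 (S.Tsymm ha hb ▸ (S.legT i a b ha hb).2 (Or.inr h)) with rfl | e
  exacts [h, e]

theorem leg_le {i : I} {a b : V} (h : leg i a b) : dT i a b ≤ 1 :=
  (S.legT i a b (S.leg_Z i a b h).1 (S.leg_Z i a b h).2).2 (Or.inr h)

theorem grW : IsGr (gd (adjW (Z := Z) dY leg)) ∧
    ∀ p q, gd (adjW (Z := Z) dY leg) p q ≤ 1 ↔ p = q ∨ adjW dY leg p q := by
  refine gd_isGr ?_ ?_
  · rintro (x | z) (y | z') h
    · exact (S.q.gr.met.symm y x).le.trans h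
    · exact h
    · exact h
    · exact ⟨h.1.symm, h.1 ▸ S.leg_symm h.2⟩
  · have key : ∀ x y : V, Relation.ReflTransGen (adjW (Z := Z) dY leg) (inl x) (inl y) :=
      fun x y => S.q.gr.induct x (P := fun _ y =>
        Relation.ReflTransGen (adjW (Z := Z) dY leg) (inl x) (inl y)) .refl
        (fun _ _ _ _ _ h ih => ih.tail h.le) y
    rintro (x | z) (y | z')
    · exact key x y
    · exact (key x _).tail (rfl : adjW dY leg (inl z'.1.2) (inr z'))
    · exact .head (b := inl z.1.2) rfl (key _ y)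
    · exact .head (b := inl z.1.2) rfl
        ((key _ _).tail (rfl : adjW dY leg (inl z'.1.2) (inr z')))

/-- Cutting a tree walk at its first visit of `v`. -/
theorem walk_cut {i : I} {v a b : V} {n : ℕ} (hv : Z i v) (ha : Z i a) (hne : a ≠ v)
    (h : GW (tr i) n a b) : AvT Z dT i v n a b ∨ ∃ c, tr i c v ∧ AvT Z dT i v n a c := by
  obtain ⟨c, rfl, rfl, cs⟩ := h
  have m := (S.grT i).met
  induction n with
  | zero => exact Or.inl ⟨hv, ha, ha, fun _ => ⟨_, ha⟩, rfl, rfl, fun _ _ => by simpa using hne,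
      fun _ h => by omega⟩
  | succ n ih =>
    rcases ih fun t ht => cs t (by omega) with ⟨_, _, hb, h1⟩ | ⟨e, e1, _, _, hb, h1⟩
    · rcases cs n (by omega) with e | e
      · refine Or.inl ?_
        rw [← e]
        exact ⟨hv, ha, hb, h1.mono m (by omega)⟩
      · by_cases e' : c (n + 1) = v
        · exact Or.inr ⟨c n, e' ▸ e, hv, ha, hb, h1.mono m (by omega)⟩
        · have hb' := (S.leg_Z i _ _ (S.tr_leg i _ _ e)).2
          obtain ⟨w, -, w1, w2, -⟩ := id h1
          refine Or.inl ⟨hv, ha, hb', h1.trans (m := 1) ⟨fun t => if t = 0 then ⟨_, hb⟩ else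
            ⟨_, hb'⟩, rfl, rfl, fun t _ => ?_, fun t ht => ?_⟩⟩
          · simp only
            split_ifs
            · exact w1 ▸ w2 n le_rfl
            · simpa using e'
          · obtain rfl : t = 0 := by omega
            exact S.leg_le (S.tr_leg i _ _ e)
    · exact Or.inr ⟨e, e1, hv, ha, hb, h1.mono m (by omega)⟩

theorem dT_le {i : I} {a b : V} (ha : Z i a) (hb : Z i b) : dT i a b ≤ dY a b + 1 := by
  obtain ⟨c, c0, c1, cs⟩ := S.tree i a b ha hb
  have key : ∀ t, t ≤ dY a b + 1 → Z i (c t) ∧ dT i a (c t) ≤ t := by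
    intro t
    induction t with
    | zero => exact fun _ => ⟨c0 ▸ ha, by rw [c0]; exact ((S.grT i).met.self ⟨a, ha⟩).le⟩
    | succ t ih =>
      intro ht
      obtain ⟨h1, h2⟩ := ih (by omega)
      rcases cs t ht with e | e
      · exact ⟨e ▸ h1, by rw [← e]; omega⟩
      · have h3 := (S.leg_Z i _ _ (S.tr_leg i _ _ e)).2
        have := (S.grT i).met.tri ⟨a, ha⟩ ⟨_, h1⟩ ⟨_, h3⟩
        have := S.leg_le (S.tr_leg i _ _ e)
        exact ⟨h3, by simp only at *; omega⟩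
  have := (key _ le_rfl).2
  rwa [c1] at this

theorem avoid_le {i : I} {a b : V} {n : ℕ} (ha : Z i a) (hb : Z i b)
    (h : Avoid dB (inr i) n (inl a) (inl b)) : dY a b ≤ n * prjC k α D := by
  obtain ⟨c, c0, c1, ca, cs⟩ := h
  choose s hs using S.q.ne
  have key : ∀ t, t ≤ n → ∀ e, Nr dY Z i (Sum.elim id s (c t)) e → dY a e ≤ t * prjC k α D := by
    intro t
    induction t with
    | zero =>
      intro _ e he
      have := he.2 a ha
      rw [c0, Sum.elim_inl, id, S.q.gr.met.self] at this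
      omega
    | succ t ih =>
      intro ht e he
      obtain ⟨e', he'⟩ := S.q.exists_nr i (Sum.elim id s (c t))
      have h1 := ih (by omega) e' he'
      have h2 : dY e' e ≤ prjC k α D := by
        have a1 := ca t (by omega)
        have a2 := ca (t + 1) ht
        have a3 := cs t ht
        rcases h3 : c t with x | j <;> rcases h4 : c (t + 1) with y | j' <;>
          rw [h3] at he' a1 a3 <;> rw [h4] at he a2 a3
        · exact S.q.nr_edge he' he ((S.B_ll x y).1 a3)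
        · exact S.q.nr_other (by simpa using a2) ((S.B_lr x j').1 a3) (hs j') he' he
        · exact S.q.nr_other (by simpa using a1) (hs j)
            ((S.B_lr y j).1 (S.grB.met.symm _ _ ▸ a3)) he' he
        · obtain rfl := S.B_rr j j' a3
          exact S.q.nr_edge he' he (by rw [S.q.gr.met.self]; omega)
      have := S.q.gr.met.tri a e' e
      rw [Nat.add_mul]
      omega
  exact key n le_rfl b (c1 ▸ S.q.nr_self hb)

theorem blow : Blow (gd (adjW (Z := Z) dY leg)) dB (dFW dT) barW kB kT (detW k α D kB) := by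
  have fib : ∀ i, ∃ f : {p : V ⊕ ZP Z // barW p = inr i} → {v // Z i v}, Function.Bijective f ∧
      (fun p q : {p : V ⊕ ZP Z // barW p = inr i} => dFW dT p.1 q.1) =
        fun p q => dT i (f p) (f q) := by
    intro i
    refine ⟨fun p => ⟨kapW p.1, by obtain ⟨a, ha, e⟩ := bar_inr p.2; exact e ▸ ha⟩,
      ⟨fun p q h => ?_, fun v => ⟨⟨inr ⟨(i, v.1), v.2⟩, rfl⟩, rfl⟩⟩, ?_⟩
    · obtain ⟨a, ha, e⟩ := bar_inr p.2
      obtain ⟨b, hb, e'⟩ := bar_inr q.2
      have h' : kapW p.1 = kapW q.1 := congrArg Subtype.val h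
      rw [e, e'] at h'
      obtain rfl : a = b := h'
      exact Subtype.ext (e.trans e'.symm)
    · funext p q
      simp only [dFW, p.2, Sum.elim_inr]
  have fib0 : ∀ x, (fun p q : {p : V ⊕ ZP Z // barW p = inl x} => dFW dT p.1 q.1) =
      fun _ _ => 0 := fun x => by
    funext p q
    simp only [dFW, p.2, Sum.elim_inl]
  obtain ⟨Γ, E⟩ := S.grW
  refine ⟨Γ, S.grB, S.hypB, ?_, ?_, ?_, ?_, ?_, ?_, ?_, ?_⟩
  · rintro (x | i)
    · rw [fib0]
      exact isGr_unique fun p q => Subtype.ext ((bar_inl p.2).trans (bar_inl q.2).symm)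
    · obtain ⟨f, f1, f2⟩ := fib i
      rw [f2]
      exact (S.grT i).comap f f1
  · rintro (x | i)
    · rw [fib0]
      exact fun _ _ _ _ => Or.inl (Nat.zero_le _)
    · obtain ⟨f, -, f2⟩ := fib i
      rw [f2]
      exact fun _ _ _ _ => S.hypT i _ _ _ _
  · rintro (x | i)
    · exact ⟨inl x, rfl⟩
    · exact (S.q.ne i).elim fun a ha => ⟨inr ⟨(i, a), ha⟩, rfl⟩
  · rintro (x | ⟨⟨i, a⟩, ha⟩) q h
    · obtain rfl : q = inl x := bar_inl h.symm
      rw [Γ.met.self]
      omega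
    · obtain ⟨b, hb, rfl⟩ := bar_inr h.symm
      show _ ≤ dT i a b
      simpa using (S.grT i).lip Γ.met (fun v => inr ⟨(i, v.1), v.2⟩) (c := 1) (fun v w h => by
        rcases (S.legT i _ _ v.2 w.2).1 h with e | e
        · exact (E _ _).2 (Or.inl (by rw [Subtype.ext e]))
        · exact (E _ _).2 (Or.inr ⟨rfl, e⟩)) ⟨a, ha⟩ ⟨b, hb⟩
  · rintro (x | ⟨⟨i, a⟩, ha⟩) q h hd
    · exact Nat.zero_le _
    · obtain ⟨b, hb, rfl⟩ := bar_inr h.symm
      rcases (E _ _).1 hd with e | e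
      · exact (S.legT i a b ha hb).2 (Or.inl (by simpa using e))
      · exact S.leg_le e.2
  · intro p q hd
    rcases (E _ _).1 hd with rfl | e
    · rw [S.grB.met.self]
      omega
    rcases p with x | z <;> rcases q with y | z'
    · exact (S.B_ll x y).2 e
    · exact (S.B_lr x _).2 (e ▸ z'.2)
    · exact (S.grB.met.symm _ _).le.trans ((S.B_lr y _).2 (e ▸ z.2))
    · show dB (inr z.1.1) (inr z'.1.1) ≤ 1
      rw [e.1, S.grB.met.self]
      omega
  · rintro (x | i) (y | j) h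
    · exact ⟨inl x, inl y, rfl, rfl, (E _ _).2 (Or.inr ((S.B_ll x y).1 h.le))⟩
    · exact ⟨inl x, inr ⟨(j, x), (S.B_lr x j).1 h.le⟩, rfl, rfl, (E _ _).2 (Or.inr rfl)⟩
    · exact ⟨inr ⟨(i, y), (S.B_lr y i).1 (S.grB.met.symm _ _ ▸ h.le)⟩, inl y, rfl, rfl,
        (E _ _).2 (Or.inr rfl)⟩
    · rw [S.B_rr i j h.le, S.grB.met.self] at h
      omega
  · rintro (x | ⟨⟨i, a⟩, ha⟩) p' q q' h h1 h2 h3
    · exact Nat.zero_le _
    obtain ⟨b, hb, rfl⟩ := bar_inr (i := i) h.symm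
    have link : ∀ {a : V} {ha : Z i a} {q : V ⊕ ZP Z}, gd (adjW dY leg) (inr ⟨(i, a), ha⟩) q ≤ 1 →
        barW q ≠ inr i → barW q = inl a := by
      intro a ha q h hq
      rcases (E _ _).1 h with rfl | e
      · exact absurd rfl hq
      · rcases q with y | z
        · exact congrArg inl e
        · exact absurd (congrArg inr e.1.symm) hq
    obtain ⟨c, c0, c1, ca, -⟩ := id h3
    rw [link h1 (c0 ▸ ca 0 (Nat.zero_le _)), link h2 (c1 ▸ ca _ le_rfl)] at h3
    have e1 : dY a b ≤ _ := S.avoid_le (i := i) ha hb h3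
    have e2 : dT i a b ≤ dY a b + 1 := S.dT_le ha hb
    show dT i a b ≤ _
    unfold detW
    omega

theorem kap_le (p q : V ⊕ ZP Z) : dS (kapW p) (kapW q) ≤ gd (adjW dY leg) p q := by
  simpa using S.grW.1.lip S.grS.met kapW (c := 1) (fun p q h => by
    rcases (S.grW.2 _ _).1 h with rfl | e
    · rw [S.grS.met.self]
      omega
    rcases p with x | z <;> rcases q with y | z'
    · exact (S.edgeS _ _).2 (Or.inl e)
    · rw [show kapW (inl x) = kapW (inr z') from e, S.grS.met.self]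
      omega
    · rw [show kapW (inl y) = kapW (inr z) from e, S.grS.met.self]
      omega
    · exact (S.edgeS _ _).2 (Or.inr ⟨_, e.2⟩)) p q

theorem inl_edge (x y : V) (h : dS x y ≤ 1) : gd (adjW (Z := Z) dY leg) (inl x) (inl y) ≤ 3 := by
  obtain ⟨Γ, E⟩ := S.grW
  rcases (S.edgeS x y).1 h with e | ⟨i, e⟩
  · exact ((E (inl x) (inl y)).2 (Or.inr e)).trans (by omega)
  · obtain ⟨hx, hy⟩ := S.leg_Z i x y e
    have e1 := (E (inl x) (inr ⟨(i, x), hx⟩)).2 (Or.inr rfl)
    have e2 := (E (inr ⟨(i, x), hx⟩) (inr ⟨(i, y), hy⟩)).2 (Or.inr ⟨rfl, e⟩)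
    have e3 := (E (inr ⟨(i, y), hy⟩) (inl y)).2 (Or.inr rfl)
    have := Γ.met.tri (inl x) (inr ⟨(i, x), hx⟩) (inl y)
    have := Γ.met.tri (inr ⟨(i, x), hx⟩) (inr ⟨(i, y), hy⟩) (inl y)
    omega

theorem inl_le (x y : V) : gd (adjW (Z := Z) dY leg) (inl x) (inl y) ≤ 3 * dS x y :=
  S.grS.lip S.grW.1.met inl S.inl_edge x y

/-- The union is hyperbolic. -/
theorem hypS : Hyp4 dS (200 * (blowK kB kT (detW k α D kB) + 3) ^ 2) :=
  hyp4_retract S.grS S.grW.1 S.blow.hypW kapW inl (fun _ => rfl) S.kap_le S.inl_edge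

theorem AvT_mono {i : I} {v a b : V} {n n' : ℕ} (h : AvT Z dT i v n a b) (hn : n ≤ n') :
    AvT Z dT i v n' a b := by
  obtain ⟨h1, h2, h3, h⟩ := h
  exact ⟨h1, h2, h3, h.mono (S.grT i).met hn⟩

omit S in
theorem AvT_trans {i : I} {v a b c : V} {n n' : ℕ} (h : AvT Z dT i v n a b)
    (h' : AvT Z dT i v n' b c) : AvT Z dT i v (n + n') a c := by
  obtain ⟨h1, h2, h3, h⟩ := h
  obtain ⟨_, _, h4, h'⟩ := h'
  exact ⟨h1, h2, h4, h.trans h'⟩

/-- Detours in the union project to detours in one graph. -/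
theorem det_core {i : I} {v a b : V} {l : ℕ} (hv : Z i v) (ha : Z i a) (hb : dS v b ≤ 1)
    (h : Avoid dS v l a b) : (leg i v b ∧ AvT Z dT i v ((l + 1) * (prjC k α D + 1)) a b) ∨
      ∃ c, tr i c v ∧ AvT Z dT i v ((l + 1) * (prjC k α D + 1)) a c := by
  obtain ⟨c, rfl, rfl, ca, cs⟩ := h
  have ne : ∀ {n : ℕ} {a b : V}, AvT Z dT i v n a b → Z i b ∧ b ≠ v := by
    rintro n a b ⟨_, _, h3, w, -, w1, w2, -⟩
    exact ⟨h3, by simpa [w1] using w2 n le_rfl⟩
  have own : ∀ {x e : V}, Z i x → Nr dY Z i x e → x = e := fun {x e} hx he => by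
    have := he.2 x hx
    rw [S.q.gr.met.self] at this
    exact S.q.gr.sep _ _ (by omega)
  have step : ∀ {x y e e' : V}, dS x y ≤ 1 → ¬ leg i x y → Nr dY Z i x e → Nr dY Z i y e' →
      GW (tr i) (prjC k α D + 1) e e' := by
    intro x y e e' h1 h2 he he'
    have h3 : dY e e' ≤ prjC k α D := by
      rcases (S.edgeS x y).1 h1 with h | ⟨j, h⟩
      · exact S.q.nr_edge he he' h
      · exact S.q.nr_other (j := j) (fun e => h2 (by rw [← e]; exact h)) (S.leg_Z j x y h).1 (S.leg_Z j x y h).2 he he'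
    have := (S.tree i e e' he.1 he'.1).trans (m := prjC k α D - dY e e') (z := e')
      ⟨fun _ => e', rfl, rfl, fun _ _ => Or.inl rfl⟩
    rwa [show dY e e' + 1 + (prjC k α D - dY e e') = prjC k α D + 1 by omega] at this
  have key : ∀ t, t ≤ l → (∃ e, Nr dY Z i (c t) e ∧ AvT Z dT i v (t * (prjC k α D + 1)) (c 0) e) ∨
      ∃ e, tr i e v ∧ AvT Z dT i v (t * (prjC k α D + 1)) (c 0) e := by
    intro t
    induction t with
    | zero =>
      exact fun _ => Or.inl ⟨c 0, S.q.nr_self ha, hv, ha, ha, fun _ => ⟨_, ha⟩, rfl, rfl,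
        fun _ _ => by simpa using ca 0 (Nat.zero_le _), fun _ h => by omega⟩
    | succ t ih =>
      intro ht
      rw [Nat.add_mul, Nat.one_mul]
      rcases ih (by omega) with ⟨e, e1, e2⟩ | ⟨e, e1, e2⟩
      swap
      · exact Or.inr ⟨e, e1, S.AvT_mono e2 (by omega)⟩
      by_cases hl : leg i (c t) (c (t + 1))
      · obtain ⟨z1, z2⟩ := S.leg_Z i _ _ hl
        obtain rfl := own z1 e1
        refine Or.inl ⟨_, S.q.nr_self z2, AvT_trans e2 (S.AvT_mono (n := 1) ⟨hv, z1, z2,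
          fun t => if t = 0 then ⟨_, z1⟩ else ⟨_, z2⟩, rfl, rfl, fun s _ => ?_, fun s hs => ?_⟩
          (by omega))⟩
        · simp only
          split_ifs
          · simpa using ca t (by omega)
          · simpa using ca (t + 1) ht
        · obtain rfl : s = 0 := by omega
          exact S.leg_le hl
      · obtain ⟨e', he'⟩ := S.q.exists_nr i (c (t + 1))
        rcases S.walk_cut hv e1.1 (ne e2).2 (step (cs t ht) hl e1 he') with h | ⟨f, f1, f2⟩
        · exact Or.inl ⟨e', he', AvT_trans e2 h⟩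
        · exact Or.inr ⟨f, f1, AvT_trans e2 f2⟩
  rw [Nat.add_mul, Nat.one_mul]
  rcases key l le_rfl with ⟨e, e1, e2⟩ | ⟨e, e1, e2⟩
  swap
  · exact Or.inr ⟨e, e1, S.AvT_mono e2 (by omega)⟩
  by_cases hl : leg i (c l) v
  · obtain rfl := own (S.leg_Z i _ _ hl).1 e1
    exact Or.inl ⟨S.leg_symm hl, S.AvT_mono e2 (by omega)⟩
  · rcases S.walk_cut hv e1.1 (ne e2).2 (step (S.grS.met.symm _ _ ▸ hb) hl e1 (S.q.nr_self hv)) with
      h | ⟨f, f1, f2⟩
    · exact absurd rfl (ne h).2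
    · exact Or.inr ⟨f, f1, AvT_trans e2 f2⟩

end TW

end Pool.Agent.Lib.MP_429c3d_al.Ng
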