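import Pool.Agent.Lib.MP_429c3d_al.NgW
import Pool.Agent.Lib.MP_429c3d_al.NgSt

set_option autoImplicit false
set_option linter.unusedSectionVars false

/-! The invariants of the union of a space with graphs along trees. -/

namespace Pool.Agent.Lib.MP_429c3d_al.Ng

open Hyp Sum

/-- The group action on the data of `TW`, and the invariants of the graphs `dT i`. -/
structure TWA (G : Type) {V I : Type} [Group G] [MulAction G V] [MulAction G I] (dY : V → V → ℕ)
    (Z : I → V → Prop) (leg : I → V → V → Prop) (dT : I → V → V → ℕ) (cT : ℕ) (fT PT : ℕ → ℕ) :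
    Prop where
  isoY : Isom G dY
  Z_smul : ∀ (g : G) i a, Z i a → Z (g • i) (g • a)
  leg_smul : ∀ (g : G) i a b, leg i a b → leg (g • i) (g • a) (g • b)
  dT_smul : ∀ (g : G) i a b, Z i a → Z i b → dT (g • i) (g • a) (g • b) = dT i a b
  two : Free2 G V
  taT : ∀ (g : G) i v a, g ≠ 1 → g • i = i → g • v = v → Z i v → Z i a →
    2 * dT i a v ≤ dT i a (g • a) + cT
  aiT : ∀ L (a b : G) i x x', a • i = i → b • i = i → ¬ Commute a b → Z i x → Z i x' →
    dT i x (a • x) ≤ L → dT i x (b • x) ≤ L → dT i x' (a • x') ≤ L → dT i x' (b • x') ≤ L →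
    dT i x x' ≤ fT L
  pwT : ∀ L (a : G) i, a • i = i → (∀ v, Z i v → a • v ≠ v) → ∀ j x, PT L ≤ j → Z i x →
    L ≤ dT i x (a ^ j • x)

/-- From short displacements to all displacements. -/
theorem tam_of_short {G V : Type} [Group G] [MulAction G V] {d : V → V → ℕ} {k R : ℕ}
    (Γ : IsGr d) (h : Hyp4 d k) (iso : Isom G d)
    (hs : ∀ (a : G) (α x : V), a ≠ 1 → a • α = α → d x (a • x) ≤ 2 * k → d x α ≤ R) :
    TAm G d (2 * R + 1) := by
  intro a α x ha hα
  have m := Γ.met
  have e0 : d α (a • x) = d α x := by rw [← iso a α x, hα]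
  have t0 := m.tri x α (a • x)
  have s0 := m.symm x α
  obtain ⟨w, w1, w2⟩ := Γ.geo.mid m α x (s := d α x - (d x (a • x) + 1) / 2) (by omega)
  have e1 : d α (a • w) = d α w := by rw [← iso a α w, hα]
  have e2 := iso a w x
  have := sync_le m h w1 (e1.trans w1) (z := x) (z' := a • x) (by omega) (by omega) (by omega)
  have := hs a α w ha hα this
  have := m.symm w α
  omega

variable {V I : Type} {dY : V → V → ℕ} {Z : I → V → Prop} {tr leg : I → V → V → Prop}
  {dT : I → V → V → ℕ} {dS : V → V → ℕ} {dB : V ⊕ I → V ⊕ I → ℕ} {k α D kB kT : ℕ}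
  {G : Type} [Group G] [MulAction G V] [MulAction G I] {cT : ℕ} {fT PT : ℕ → ℕ}

/-- The action on the copies of the trees. -/
@[reducible] def actZ (h : ∀ (g : G) i a, Z i a → Z (g • i) (g • a)) : MulAction G (ZP Z) where
  smul g z := ⟨g • z.1, h g _ _ z.2⟩
  one_smul z := Subtype.ext (one_smul G z.1)
  mul_smul g g' z := Subtype.ext (mul_smul g g' z.1)

/-- The bound for projections to a fibre. -/
def prW (k α D kB s : ℕ) : ℕ := (detW k α D kB + 1) * (3 * s + 1)

namespace TW

variable (S : TW dY Z tr leg dT dS dB k α D kB kT) (A : TWA G dY Z leg dT cT fT PT)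
include S A

theorem isoS : Isom G dS := S.grS.iso fun g x y h => by
  rcases (S.edgeS x y).1 h with e | ⟨i, e⟩
  · exact (S.edgeS _ _).2 (Or.inl ((A.isoY g x y).le.trans e))
  · exact (S.edgeS _ _).2 (Or.inr ⟨_, A.leg_smul g i x y e⟩)

theorem isoB : Isom G dB := S.grB.iso fun g p q h => by
  rcases p with x | i <;> rcases q with y | j
  · exact (S.B_ll _ _).2 ((A.isoY g x y).le.trans ((S.B_ll x y).1 h))
  · exact (S.B_lr _ _).2 (A.Z_smul g j x ((S.B_lr x j).1 h))
  · rw [S.grB.met.symm] at h ⊢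
    exact (S.B_lr _ _).2 (A.Z_smul g i y ((S.B_lr y i).1 h))
  · rw [S.B_rr i j h, S.grB.met.self]
    omega

theorem bact : letI := actZ A.Z_smul
    BAct G (gd (adjW (Z := Z) dY leg)) dB (dFW dT) barW := by
  let := actZ A.Z_smul
  refine ⟨S.grW.1.iso fun g p q h => (S.grW.2 _ _).2 ?_, S.isoB A, ?_, ?_⟩
  · rcases (S.grW.2 _ _).1 h with rfl | e
    · exact Or.inl rfl
    refine Or.inr ?_
    rcases p with x | z <;> rcases q with y | z'
    · exact (A.isoY g x y).le.trans e
    · exact congrArg (g • ·) e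
    · exact congrArg (g • ·) e
    · exact ⟨congrArg (g • ·) e.1, A.leg_smul g _ _ _ e.2⟩
  · rintro g (x | ⟨⟨i, a⟩, ha⟩) q h
    · rfl
    · obtain ⟨b, hb, rfl⟩ := bar_inr (i := i) h.symm
      exact A.dT_smul g i a b ha hb
  · rintro g (x | z) <;> rfl

omit A in
theorem B_le (x y : V) : dB (inl x) (inl y) ≤ 3 * dS x y :=
  (S.blow.bar_le (inl x) (inl y)).trans (S.inl_le x y)

/-- A projection to the tree `i` that is almost equivariant. -/
theorem exists_proj (i : I) (x : V) : ∃ p, Z i p ∧ ∀ (a : G) s, a • i = i → dS x (a • x) ≤ s →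
    dT i p (a • p) ≤ prW k α D kB s := by
  let := actZ A.Z_smul
  obtain ⟨p, hp⟩ := S.blow.exists_prj (inr i) (inl x)
  obtain ⟨q, hq, rfl⟩ := bar_inr hp.1
  refine ⟨q, hq, fun a s ha hs => ?_⟩
  have h1 := (S.bact A).prj a hp
  rw [show a • (inr i : V ⊕ I) = inr i from congrArg inr ha] at h1
  refine (S.blow.prj_lip hp h1).trans (Nat.mul_le_mul_left _ ?_)
  have := S.inl_le x (a • x)
  show gd _ (inl x) (inl (a • x)) + 1 ≤ _
  omega

end TW

end Pool.Agent.Lib.MP_429c3d_al.Ng
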