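import Mathlib

set_option autoImplicit false

/-! Reduced words in HNN extensions as an inductive predicate: first letter and length. -/

namespace Pool.Agent.Lib.MP_429c3d_al.Ng

open HNNExtension

variable {G : Type} [Group G] {A B : Subgroup G} {φ : A ≃* B}

/-- The stable letter with exponent `u`. -/
def tp (φ : A ≃* B) (u : ℤˣ) : HNNExtension G A B φ := t ^ (u : ℤ)

theorem tp_one : tp φ 1 = t := by simp [tp]

theorem tp_neg_one : tp φ (-1) = t⁻¹ := by simp [tp]

theorem tp_neg (u : ℤˣ) : tp φ (-u) = (tp φ u)⁻¹ := by simp [tp]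

theorem tp_conj (u : ℤˣ) {a : G} (ha : a ∈ toSubgroup A B u) :
    ∃ b ∈ toSubgroup A B (-u), tp φ u * of a * tp φ (-u) = of b := by
  rcases Int.units_eq_one_or u with rfl | rfl
  · exact ⟨φ ⟨a, ha⟩, (φ ⟨a, ha⟩).2, by
      rw [tp_one, tp_neg_one]; exact (equiv_eq_conj ⟨a, ha⟩).symm⟩
  · exact ⟨φ.symm ⟨a, ha⟩, (φ.symm ⟨a, ha⟩).2, by
      rw [neg_neg, tp_one, tp_neg_one]; exact (equiv_symm_eq_conj ⟨a, ha⟩).symm⟩

theorem units_ne_neg (u : ℤˣ) : u ≠ -u := by
  rcases Int.units_eq_one_or u with rfl | rfl <;> decide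

theorem units_eq_or (u v : ℤˣ) : u = v ∨ u = -v := by
  rcases Int.units_eq_one_or u with rfl | rfl <;> rcases Int.units_eq_one_or v with rfl | rfl <;>
    decide

/-- `RW φ o g γ n`: `γ` is the product of a reduced word with head `g`, first exponent `o` and
`n` stable letters. -/
inductive RW (φ : A ≃* B) : Option ℤˣ → G → HNNExtension G A B φ → ℕ → Prop
  | nil (g : G) : RW φ none g (of g) 0
  | cons (g : G) (u : ℤˣ) {o : Option ℤˣ} {k : G} {γ : HNNExtension G A B φ} {n : ℕ}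
      (h : RW φ o k γ n) (hr : ¬ (o = some (-u) ∧ k ∈ toSubgroup A B u)) :
      RW φ (some u) g (of g * tp φ u * γ) (n + 1)

theorem RW.of_none {g : G} {γ : HNNExtension G A B φ} {n : ℕ} (h : RW φ none g γ n) :
    γ = of g ∧ n = 0 := by
  cases h
  exact ⟨rfl, rfl⟩

theorem RW.of_some {u : ℤˣ} {g : G} {γ : HNNExtension G A B φ} {n : ℕ}
    (h : RW φ (some u) g γ n) : ∃ (o : Option ℤˣ) (k : G) (γ' : HNNExtension G A B φ) (m : ℕ),
      RW φ o k γ' m ∧ ¬ (o = some (-u) ∧ k ∈ toSubgroup A B u) ∧ γ = of g * tp φ u * γ' ∧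
        n = m + 1 := by
  cases h with
  | cons _ _ h hr => exact ⟨_, _, _, _, h, hr, rfl, rfl⟩

theorem RW.mul_left {o : Option ℤˣ} {g : G} {γ : HNNExtension G A B φ} {n : ℕ}
    (h : RW φ o g γ n) (k : G) : RW φ o (k * g) (of k * γ) n := by
  cases h with
  | nil => rw [← map_mul]; exact RW.nil _
  | cons _ u h hr =>
    have := RW.cons (k * g) u h hr
    rwa [map_mul, mul_assoc (of k), mul_assoc (of k)] at this

theorem RW.cons_one (u : ℤˣ) {o : Option ℤˣ} {k : G} {γ : HNNExtension G A B φ} {n : ℕ}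
    (h : RW φ o k γ n) (hr : ¬ (o = some (-u) ∧ k ∈ toSubgroup A B u)) :
    RW φ (some u) 1 (tp φ u * γ) (n + 1) := by
  have := RW.cons 1 u h hr
  rwa [map_one, one_mul] at this

/-- left multiplication by a stable letter in the cancelling case -/
theorem RW.cancel {u : ℤˣ} {k : G} {γ : HNNExtension G A B φ} {n : ℕ}
    (h : RW φ (some (-u)) k γ n) (hk : k ∈ toSubgroup A B u) :
    ∃ o g m, RW φ o g (tp φ u * γ) m ∧ n = m + 1 := by
  obtain ⟨o, k', γ', m, h1, -, rfl, rfl⟩ := h.of_some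
  obtain ⟨b, -, hb⟩ := tp_conj (φ := φ) u hk
  refine ⟨o, b * k', m, ?_, rfl⟩
  have := h1.mul_left b
  rw [← hb] at this
  simpa only [mul_assoc] using this

theorem exists_rw (γ : HNNExtension G A B φ) : ∃ o g n, RW φ o g γ n := by
  have ht : ∀ (u : ℤˣ) (δ : HNNExtension G A B φ), (∃ o g n, RW φ o g δ n) →
      ∃ o g n, RW φ o g (tp φ u * δ) n := by
    rintro u δ ⟨o, g, n, h⟩
    by_cases hr : o = some (-u) ∧ g ∈ toSubgroup A B u
    · obtain ⟨rfl, hg⟩ := hr
      obtain ⟨o', g', m, h', -⟩ := h.cancel hg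
      exact ⟨o', g', m, h'⟩
    · exact ⟨_, _, _, h.cons_one u hr⟩
  have key : ∀ δ : HNNExtension G A B φ, (∃ o g n, RW φ o g δ n) →
      (∃ o g n, RW φ o g (γ * δ) n) ∧ ∃ o g n, RW φ o g (γ⁻¹ * δ) n := by
    induction γ using HNNExtension.induction_on with
    | of k =>
      rintro δ ⟨o, g, n, h⟩
      exact ⟨⟨o, _, n, h.mul_left k⟩, ⟨o, _, n, by rw [← map_inv]; exact h.mul_left k⁻¹⟩⟩
    | t =>
      intro δ h
      exact ⟨by rw [← tp_one]; exact ht 1 δ h, by rw [← tp_neg_one]; exact ht (-1) δ h⟩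
    | mul x y hx hy =>
      intro δ h
      exact ⟨by rw [mul_assoc]; exact (hx _ (hy δ h).1).1,
        by rw [mul_inv_rev, mul_assoc]; exact (hy _ (hx δ h).2).2⟩
    | inv x hx =>
      intro δ h
      exact ⟨(hx δ h).2, by rw [inv_inv]; exact (hx δ h).1⟩
  have := (key 1 ⟨none, 1, 0, by rw [← map_one of]; exact RW.nil 1⟩).1
  rwa [mul_one] at this

theorem RW.word {o : Option ℤˣ} {g : G} {γ : HNNExtension G A B φ} {n : ℕ}
    (h : RW φ o g γ n) : ∃ w : NormalWord.ReducedWord G A B, w.head = g ∧ w.prod φ = γ ∧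
      w.toList.length = n ∧ w.toList.head?.map Prod.fst = o := by
  induction h with
  | nil g => exact ⟨⟨g, [], List.isChain_nil⟩, rfl, by simp [NormalWord.ReducedWord.prod], rfl, rfl⟩
  | @cons g u o k γ n h hr ih =>
    obtain ⟨w, h1, h2, h3, h4⟩ := ih
    refine ⟨⟨g, (u, k) :: w.toList, ?_⟩, rfl, ?_, by simp [h3], rfl⟩
    · rw [List.isChain_cons]
      refine ⟨fun y hy hk => ?_, w.chain⟩
      rcases units_eq_or y.1 u with e | e
      · exact e.symm
      · refine absurd ⟨?_, hk⟩ hr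
        rw [← h4, Option.mem_def.1 hy, Option.map_some, e]
    · rw [← h2]
      simp [NormalWord.ReducedWord.prod, tp, mul_assoc, h1]

theorem RW.unique {o o' : Option ℤˣ} {g g' : G} {γ : HNNExtension G A B φ} {n n' : ℕ}
    (h : RW φ o g γ n) (h' : RW φ o' g' γ n') :
    o = o' ∧ n = n' ∧ (o = none → g = g') ∧
      ∀ u, o = some u → g⁻¹ * g' ∈ toSubgroup A B (-u) := by
  obtain ⟨w, h1, h2, h3, h4⟩ := h.word
  obtain ⟨w', h1', h2', h3', h4'⟩ := h'.word
  obtain ⟨e1, e2⟩ := ReducedWord.map_fst_eq_and_of_prod_eq φ (h2.trans h2'.symm)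
  have e3 : o = o' := by
    rw [← h4, ← h4', ← List.head?_map, ← List.head?_map, e1]
  refine ⟨e3, ?_, ?_, ?_⟩
  · rw [← h3, ← h3', ← List.length_map (f := Prod.fst), e1, List.length_map]
  · rintro rfl
    subst e3
    exact of_injective (φ := φ) (h.of_none.1.symm.trans h'.of_none.1)
  · intro u hu
    rw [← h1, ← h1']
    exact e2 u (by rw [h4, hu]; rfl)

theorem RW.mem_range {o : Option ℤˣ} {g : G} {γ : HNNExtension G A B φ} {n : ℕ}
    (h : RW φ o g γ n) : γ ∈ (of : G →* HNNExtension G A B φ).range ↔ o = none := by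
  constructor
  · rintro ⟨k, rfl⟩
    exact (h.unique (RW.nil k)).1
  · rintro rfl
    exact ⟨g, h.of_none.1.symm⟩

theorem exists_rw_some {γ : HNNExtension G A B φ}
    (hγ : γ ∉ (of : G →* HNNExtension G A B φ).range) : ∃ u g n, RW φ (some u) g γ n := by
  obtain ⟨o, g, n, h⟩ := exists_rw γ
  cases o with
  | none => exact absurd (h.mem_range.2 rfl) hγ
  | some u => exact ⟨u, g, n, h⟩

theorem RW.mul_right {o : Option ℤˣ} {g : G} {γ : HNNExtension G A B φ} {n : ℕ}
    (h : RW φ o g γ n) (k : G) : ∃ g', RW φ o g' (γ * of k) n ∧ (o ≠ none → g' = g) := by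
  induction h with
  | nil g => exact ⟨g * k, by rw [← map_mul]; exact RW.nil _, fun h => absurd rfl h⟩
  | @cons g u o k' γ n h hr ih =>
    obtain ⟨g', h1, h2⟩ := ih
    refine ⟨g, ?_, fun _ => rfl⟩
    rw [mul_assoc]
    refine RW.cons g u h1 fun hh => hr ⟨hh.1, ?_⟩
    rw [← h2 (by rw [hh.1]; simp)]
    exact hh.2

theorem RW.mul_right_some {u : ℤˣ} {g : G} {γ : HNNExtension G A B φ} {n : ℕ}
    (h : RW φ (some u) g γ n) (k : G) : RW φ (some u) g (γ * of k) n := by
  obtain ⟨g', h1, h2⟩ := h.mul_right k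
  rwa [h2 (by simp)] at h1

theorem RW.single (g : G) (u : ℤˣ) (k : G) : RW φ (some u) g (of g * tp φ u * of k) 1 :=
  RW.cons g u (RW.nil k) (by simp)

theorem RW.mul_tp_aux {o : Option ℤˣ} {g : G} {γ : HNNExtension G A B φ} {n : ℕ}
    (h : RW φ o g γ n) (v : ℤˣ) :
    (∃ m, RW φ (some (o.getD v)) g (γ * tp φ v) m) ∨
      ∃ a ∈ toSubgroup A B (-v), o = some (-v) ∧ γ = of g * tp φ (-v) * of a := by
  induction h with
  | nil g =>
    refine Or.inl ⟨1, ?_⟩
    have := RW.single (φ := φ) g v 1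
    rwa [map_one, mul_one] at this
  | @cons g u o k γ n h hr ih =>
    rcases ih with ⟨m, h1⟩ | ⟨a, ha, h1, h2⟩
    · by_cases hc : some (o.getD v) = some (-u) ∧ k ∈ toSubgroup A B u
      · cases o with
        | none =>
          have e : v = -u := Option.some.inj hc.1
          subst e
          rw [neg_neg]
          exact Or.inr ⟨k, hc.2, rfl, by rw [h.of_none.1]⟩
        | some u' => exact absurd hc hr
      · refine Or.inl ⟨m + 1, ?_⟩
        rw [mul_assoc]
        exact RW.cons g u h1 hc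
    · obtain ⟨b, -, hb⟩ := tp_conj (φ := φ) (-v) ha
      refine Or.inl ⟨1, ?_⟩
      rw [neg_neg] at hb
      have e : of g * tp φ u * γ * tp φ v = of g * tp φ u * of (k * b) := by
        rw [h2, map_mul, ← hb]
        simp only [mul_assoc]
      rw [e]
      exact RW.single g u _

theorem RW.mul_tp {u : ℤˣ} {g : G} {γ : HNNExtension G A B φ} {n : ℕ}
    (h : RW φ (some u) g γ n) (v : ℤˣ) :
    (∃ m, RW φ (some u) g (γ * tp φ v) m) ∨
      ∃ a ∈ toSubgroup A B u, v = -u ∧ γ = of g * tp φ u * of a := by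
  rcases h.mul_tp_aux v with h1 | ⟨a, ha, h1, h2⟩
  · exact Or.inl h1
  · have e : u = -v := Option.some.inj h1
    subst e
    exact Or.inr ⟨a, ha, (neg_neg v).symm, h2⟩

/-- Two elements that start differently from `γ` are seen from the copy `γ` in one direction. -/
theorem RW.back {u : ℤˣ} {g : G} {γ : HNNExtension G A B φ} {n : ℕ} (h : RW φ (some u) g γ n) :
    ∃ (v : ℤˣ) (k : G), ∀ (o : Option ℤˣ) (g' : G) (δ : HNNExtension G A B φ) (m : ℕ),
      RW φ o g' δ m → ¬ (o = some u ∧ g⁻¹ * g' ∈ toSubgroup A B (-u)) →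
        RW φ (some v) k (γ⁻¹ * δ) (n + m) := by
  induction n generalizing u g γ with
  | zero =>
    obtain ⟨_, _, _, m, -, -, -, e⟩ := h.of_some
    omega
  | succ n ih =>
    obtain ⟨o1, g1, γ1, m1, h1, hr, rfl, e⟩ := h.of_some
    obtain rfl : n = m1 := by omega
    have st : ∀ (o : Option ℤˣ) (g' : G) (δ : HNNExtension G A B φ) (m : ℕ),
        RW φ o g' δ m → ¬ (o = some u ∧ g⁻¹ * g' ∈ toSubgroup A B (-u)) →
          RW φ (some (-u)) 1 (tp φ (-u) * (of g⁻¹ * δ)) (m + 1) := fun o g' δ m hδ hn =>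
      (hδ.mul_left g⁻¹).cons_one (-u) (by rwa [neg_neg])
    have e : ∀ δ : HNNExtension G A B φ, (of g * tp φ u * γ1)⁻¹ * δ =
        γ1⁻¹ * (tp φ (-u) * (of g⁻¹ * δ)) := fun δ => by
      rw [tp_neg, map_inv]
      simp only [mul_inv_rev, mul_assoc]
    cases o1 with
    | none =>
      obtain ⟨e1, e2⟩ := h1.of_none
      refine ⟨-u, g1⁻¹, fun o g' δ m hδ hn => ?_⟩
      have := (st o g' δ m hδ hn).mul_left g1⁻¹
      rw [mul_one, map_inv, ← e1] at this
      rw [e, e2, show 0 + 1 + m = m + 1 by omega]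
      exact this
    | some u1 =>
      obtain ⟨v, k, hk⟩ := ih h1
      refine ⟨v, k, fun o g' δ m hδ hn => ?_⟩
      have := hk _ _ _ _ (st o g' δ m hδ hn) (fun hh => hr ⟨hh.1.symm, by
        have e1 : -u = u1 := Option.some.inj hh.1
        have := hh.2
        rw [mul_one, ← e1, neg_neg, inv_mem_iff] at this
        exact this⟩)
      rw [e, show n + 1 + m = n + (m + 1) by omega]
      exact this

/-- The number of stable letters. -/
noncomputable def wlen (γ : HNNExtension G A B φ) : ℕ :=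
  (exists_rw γ).choose_spec.choose_spec.choose

theorem RW.wlen_eq {o : Option ℤˣ} {g : G} {γ : HNNExtension G A B φ} {n : ℕ}
    (h : RW φ o g γ n) : wlen γ = n :=
  ((exists_rw γ).choose_spec.choose_spec.choose_spec.unique h).2.1

theorem exists_rw_wlen (γ : HNNExtension G A B φ) : ∃ o g, RW φ o g γ (wlen γ) := by
  obtain ⟨o, g, n, h⟩ := exists_rw γ
  exact ⟨o, g, h.wlen_eq ▸ h⟩

theorem wlen_inv (γ : HNNExtension G A B φ) : wlen γ⁻¹ = wlen γ := by
  obtain ⟨o, g, n, h⟩ := exists_rw γ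
  cases o with
  | none =>
    obtain ⟨rfl, rfl⟩ := h.of_none
    rw [← map_inv, (RW.nil g⁻¹).wlen_eq, (RW.nil g).wlen_eq]
  | some u =>
    obtain ⟨v, k, hk⟩ := h.back
    have := hk none 1 _ 0 (RW.nil 1) (by simp)
    rw [map_one, mul_one] at this
    rw [this.wlen_eq, h.wlen_eq, Nat.add_zero]

/-- The exponent sum of the stable letter. -/
def psi (φ : A ≃* B) : HNNExtension G A B φ →* Multiplicative ℤ :=
  lift 1 (Multiplicative.ofAdd 1) (by simp)

theorem psi_of (g : G) : psi φ (of g) = 1 := by simp [psi]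

theorem psi_t : psi φ t = Multiplicative.ofAdd 1 := by simp [psi]

theorem t_zpow_mem {j : ℤ}
    (h : (t : HNNExtension G A B φ) ^ j ∈ (of : G →* HNNExtension G A B φ).range) : j = 0 := by
  obtain ⟨g, hg⟩ := h
  have := congrArg (psi φ) hg
  rw [psi_of, map_zpow, psi_t] at this
  have := congrArg Multiplicative.toAdd this
  simpa using this.symm

end Pool.Agent.Lib.MP_429c3d_al.Ng
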