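import Pool.Agent.Lib.MP_429c3d_al.NgBase

set_option autoImplicit false

/-! The facts about one level that are used for the base stage. -/

namespace Pool.Agent.Lib.MP_429c3d_al.Ng

open Hyp

/-- `q` is between `p` and `p'` up to the error `e`. -/
def NB {V : Type} (d : V → V → ℕ) (e : ℕ) (p q p' : V) : Prop := d q p + d q p' ≤ d p p' + e

/-- `q` is between `p` and `p'`, at distance at least `r` from both. -/
def Deep {V : Type} (d : V → V → ℕ) (r : ℕ) (p q p' : V) : Prop :=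
  Btw d p q p' ∧ r ≤ d p q ∧ r ≤ d q p'

/-- The pair has no predecessor. -/
def NoPred {G : Type} [Group G] (y c : G) : Prop := ∀ f, IsConj y f → f * y * f⁻¹ ≠ c

/-- Points of minimal displacement. -/
def MinP {G V : Type} [Group G] [MulAction G V] (d : V → V → ℕ) (g : G) (w : V) : Prop :=
  ∀ x, d w (g • w) ≤ d x (g • x)

/-- The end of the edge of level `j` that starts at `ξ`. -/
def eta {G V : Type} [Group G] [MulAction G V] (y c : G) (ξ : V) (j : ℕ) : V := cs y c (j - 1) • ξ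

/-- The folding data of a large pair, from the level `l` on. -/
structure Flip {G V : Type} [Group G] [MulAction G V] (d : V → V → ℕ) (y c : G) (ξ : V)
    (l N J : ℕ) : Prop where
  pos : 1 ≤ l
  len : ∀ j, l ≤ j → N ≤ d ξ (eta y c ξ j)
  turn : ∀ j, l ≤ j → 2 * d ξ (eta y c ξ j) + d (eta y c ξ j) (cs y c j • eta y c ξ j) ≤
    d ξ (cs y c j • ξ) + J
  gate : ∀ j w w', l ≤ j → MinP d y w → MinP d (cs y c j) w' →
    d w ξ + d ξ (eta y c ξ j) + d (eta y c ξ j) w' ≤ d w w' + J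

/-- `Top y c k1 ξ`: the top edge of the pair `(y, c)` has level `k1` and starts at `ξ`. -/
structure XI (G : Type) {X : Type} [Group G] [MulAction G X] (d : X → X → ℕ)
    (Top : G → G → ℕ → X → Prop) (CN C1 C3 N0 N1 k S1 S2 J u K0 k0 kk : ℕ) : Prop where
  mono : ∀ (y c : G) j, IsConj y c → ¬ Commute y c → Big d S2 y c → Big d S1 y (cs y c j)
  flip : ∀ y c : G, IsConj y c → ¬ Commute y c → Big d S1 y c →
    ∃ l ξ, l ≤ K0 ∧ Flip d y c ξ l (N0 * u) J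
  top : ∀ y c : G, IsConj y c → ¬ Commute y c → ¬ Big d S2 y c → Esc d k0 S2 y c →
    ∃ k1 ξ, 1 ≤ k1 ∧ k1 ≤ kk ∧ Top y c k1 ξ
  short : ∀ y c k1 ξ, Top y c k1 ξ → d ξ (y • ξ) ≤ u
  lo : ∀ y c k1 ξ, Top y c k1 ξ → N0 * u ≤ d ξ (eta y c ξ k1)
  hi : ∀ y c k1 ξ, Top y c k1 ξ → d ξ (eta y c ξ k1) ≤ N1 * u
  nt : ∀ y c k1 ξ, Top y c k1 ξ → ∀ (a : G) q q', a ≠ 1 → Btw d ξ q (eta y c ξ k1) →
    Btw d ξ q' (eta y c ξ k1) → d q (a • q) ≤ 10 * u → d q' (a • q') ≤ 10 * u → d q q' ≤ CN * u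
  edge : ∀ y c k1 ξ y' c' k1' ξ', Top y c k1 ξ → Top y' c' k1' ξ' → NoPred y c →
    NoPred y' c' → ∀ (g : G) P P' q0 q0',
    (∀ q, Deep d (C1 * u) ξ q (eta y c ξ k1) → NB d (100 * (k + 1)) P q P') →
    (∀ q, Deep d (C1 * u) (g • ξ') q (g • eta y' c' ξ' k1') → NB d (100 * (k + 1)) P q P') →
    Deep d (C3 * u) ξ q0 (eta y c ξ k1) → Deep d (C3 * u) (g • ξ') q0' (g • eta y' c' ξ' k1') →
    d q0 q0' ≤ 100 * (k + 1) →
    (∃ h : G, h * y' * h⁻¹ = y ∧ h * c' * h⁻¹ = c) ∧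
      (y' = y → c' = c → k1' = k1 → ξ' = ξ → g = 1)

end Pool.Agent.Lib.MP_429c3d_al.Ng
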