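import Pool.Agent.Lib.MP_429c3d_al.NgQC2
import Pool.Agent.Lib.MP_429c3d_al.NgW2
import Pool.Agent.Lib.MP_429c3d_al.NgPk

set_option autoImplicit false
set_option linter.unusedSectionVars false

/-! The first cone-off: the rescaled space with an apex over every short tube. -/

namespace Pool.Agent.Lib.MP_429c3d_al.Ng

open Hyp Sum

/-- The assumptions on the level and the apices. -/
structure YH (G : Type) {X : Type} (Ω : Type) [Group G] [MulAction G X] [MulAction G Ω]
    (d : X → X → ℕ) (k A u : ℕ) : Prop where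
  xl : XL G d k A
  free : Free G X
  aps : ApS G Ω fun a => ∃ x : X, d x (a • x) ≤ u
  hA : A ≤ u
  hk : 200 * (k + 1) ≤ u

section defs

variable (G : Type) {X Ω : Type} [Group G] [MulAction G X] [MulAction G Ω] (d : X → X → ℕ) (u : ℕ)

/-- A non trivial element that fixes `α` moves `x` by at most `B`. -/
def Sht (B : ℕ) (α : Ω) (x : X) : Prop := ∃ a : G, a ≠ 1 ∧ a • α = α ∧ d x (a • x) ≤ B

/-- The shadows. -/
def ShY : X ⊕ Ω → X → Prop
  | inl x, p => p = x
  | inr α, p => Hull d (Sht G d (2 * u) α) p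

/-- The metric of the first cone-off. -/
noncomputable def dYY : X ⊕ Ω → X ⊕ Ω → ℕ := gd (adjQ d (ShY G d u) u)

end defs

/-- The hyperbolicity constant. -/
def kY : ℕ := coneK 2

/-- The turning constant. -/
def cY : ℕ := 2 * (2 * kY + 2 * coneN 2 + 3) + 1

/-- No non trivial element is short along a long part of the segment from `ξ` to `η`. -/
def NT (G : Type) {X : Type} [Group G] [MulAction G X] (d : X → X → ℕ) (u CN : ℕ) (ξ η : X) :
    Prop :=
  ∀ (a : G) q q', a ≠ 1 → Btw d ξ q η → Btw d ξ q' η → d q (a • q) ≤ 10 * u →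
    d q' (a • q') ≤ 10 * u → d q q' ≤ CN * u

namespace YH

variable {G X Ω : Type} [Group G] [MulAction G X] [MulAction G Ω] {d : X → X → ℕ} {k A u : ℕ}
  (H : YH G Ω d k A u)
include H

/-- `qc_of` with `hull_qc`, `hull_self`, `aps.sh`. -/
theorem qc : QC d (dYY G (Ω := Ω) d u) inl (ShY G d u) k u 2 ∧
    ∀ e e', dYY G (Ω := Ω) d u e e' ≤ 1 ↔ adjQ d (ShY G d u) u e e' := by
  have m := H.xl.gr.met
  refine qc_of H.xl.gr H.xl.hyp H.hk (fun _ => rfl) ?_ ?_
  · rintro (x | α)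
    · exact ⟨x, rfl⟩
    · obtain ⟨a, h1, ⟨x, h2⟩, h3⟩ := H.aps.sh α
      exact ⟨x, hull_self m ⟨a, h1, h3, by omega⟩⟩
  · rintro (x | α) r r' s h1 h2 h3
    · obtain rfl : r = x := h1
      obtain rfl : r' = r := h2
      refine ⟨r', rfl, ?_⟩
      unfold Btw at h3
      rw [m.self] at h3
      omega
    · exact hull_qc H.xl.gr H.xl.hyp h1 h2 h3

/-- `IsGr.iso`; conjugate the short element. -/
theorem act : CAct G d (dYY G (Ω := Ω) d u) inl (ShY G d u) := by
  have iso := H.xl.iso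
  have sht : ∀ (g : G) (α : Ω) (x : X), Sht G d (2 * u) α x → Sht G d (2 * u) (g • α) (g • x) := by
    rintro g α x ⟨a, h1, h2, h3⟩
    refine ⟨g * a * g⁻¹, fun hh => h1 (conj_eq_one_iff.1 hh), ?_, ?_⟩
    · rw [mul_smul, mul_smul, inv_smul_smul, h2]
    · rwa [mul_smul, mul_smul, inv_smul_smul, iso]
  have sh : ∀ (g : G) (b : X ⊕ Ω) x, ShY G d u b x → ShY G d u (g • b) (g • x) := by
    rintro g (y | α) x h
    · exact congrArg (g • ·) h
    · obtain ⟨r, r', h1, h2, h3⟩ := h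
      exact ⟨g • r, g • r', sht g α r h1, sht g α r' h2, h3.smul iso g⟩
  refine ⟨iso, H.qc.1.grB.iso fun g x y h => (H.qc.2 _ _).2 ?_, fun _ _ => rfl, sh⟩
  obtain ⟨s, s', h1, h2, h3⟩ := (H.qc.2 _ _).1 h
  exact ⟨g • s, g • s', sh g x s h1, sh g y s' h2, by rwa [iso]⟩

theorem two : Free2 G (X ⊕ Ω) := by
  rintro a (x | α) (y | β) h1 h2 hne
  · exact H.free a x (inl_injective h1)
  · exact H.free a x (inl_injective h1)
  · exact H.free a y (inl_injective h2)
  · exact H.aps.two a α β (inr_injective h1) (inr_injective h2) fun e => hne (congrArg inr e)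

theorem sh_of {α : Ω} {x : X} {a : G} (h1 : a ≠ 1) (h2 : a • α = α) (h3 : d x (a • x) ≤ 2 * u) :
    ShY G d u (inr α) x := hull_self H.xl.gr.met ⟨a, h1, h2, h3⟩

theorem adj_of {α : Ω} {x : X} (h : ShY G d u (inr α) x) :
    dYY G d u (inl x) (inr α) ≤ 1 :=
  (H.qc.2 _ _).2 ⟨x, x, rfl, h, by rw [H.xl.gr.met.self]; omega⟩

/-- `tube`, `aps.comm`, `dis_move`. -/
theorem near_short {α : Ω} {x : X} (h : Near d (ShY G d u) (2 * u) (inr α) x) :
    Sht G d (7 * u) α x := by
  obtain ⟨s, ⟨r, r', ⟨a, a1, a2, a3⟩, ⟨b, b1, b2, b3⟩, h3⟩, h4⟩ := h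
  have m := H.xl.gr.met
  have hk := H.hk
  have e := m.symm x s
  rcases tube H.xl.gr H.xl.hyp H.xl.iso (H.aps.comm a b α a2 b2) h3 a3 b3 with t | t
  · have := dis_move m H.xl.iso a s x
    exact ⟨a, a1, a2, by omega⟩
  · have := dis_move m H.xl.iso b s x
    exact ⟨b, b1, b2, by omega⟩

/-- Apply `qc_of` to `B = X` with the shadows `{x}`, then `QC.ai` with `L = 8`, `ι_le_mul` and
`IsGr.lip`; `coneN 2 = 51`. -/
theorem ai_u : AI G d (8 * u) (139 * u) := by
  have m := H.xl.gr.met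
  have iso := H.xl.iso
  obtain ⟨C, E⟩ := qc_of (ι := fun x : X => x) (Sh := fun x p : X => p = x) H.xl.gr H.xl.hyp H.hk
    (fun _ => rfl) (fun b => ⟨b, rfl⟩) (by
      rintro e r r' s rfl rfl h3
      refine ⟨r', rfl, ?_⟩
      unfold Btw at h3
      rw [m.self] at h3
      omega)
  have E' : ∀ x y, gd (adjQ d (fun x p : X => p = x) u) x y ≤ 1 ↔ d x y ≤ u := fun x y =>
    (E x y).trans ⟨by rintro ⟨s, s', rfl, rfl, h⟩; exact h, fun h => ⟨x, y, rfl, rfl, h⟩⟩
  have Ac : CAct G d (gd (adjQ d (fun x p : X => p = x) u)) (fun x : X => x)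
      (fun x p : X => p = x) :=
    ⟨iso, C.grB.iso fun g x y h => (E' _ _).2 (by rw [iso]; exact (E' _ _).1 h), fun _ _ => rfl,
      fun g b x h => congrArg (g • ·) h⟩
  have ai := C.ai Ac H.xl.ai H.hA H.xl.csa H.xl.ct 8
  intro a b x x' hc h1 h2 h3 h4
  have e1 := ai a b x x' hc (C.ι_le_mul 8 _ _ h1) (C.ι_le_mul 8 _ _ h2) (C.ι_le_mul 8 _ _ h3)
    (C.ι_le_mul 8 _ _ h4)
  have e2 := C.grB.lip m (fun x : X => x) (c := u) (fun x y h => (E' x y).1 h) x x'
  have e3 : coneN 2 = 51 := rfl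
  rw [e3] at e1
  exact e2.trans (by rw [Nat.mul_comm]; exact Nat.mul_le_mul_right _ e1)

/-- Five points on a geodesic at distance `140 u`; at each of them one of two fixed elements of the
stabiliser of `α` and one of two fixed elements of the stabiliser of `β` is short (`tube`); two
points have the same pair, which does not commute (`aps.cent`, `aps.two`); `ai_u`. -/
theorem overlap {α β : Ω} (hne : α ≠ β) {x x' : X} (h1 : Sht G d (7 * u) α x)
    (h2 : Sht G d (7 * u) α x') (h3 : Sht G d (7 * u) β x) (h4 : Sht G d (7 * u) β x') :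
    d x x' ≤ 600 * u := by
  by_contra hlt
  obtain ⟨a, a1, a2, a3⟩ := h1
  obtain ⟨a', a4, a5, a6⟩ := h2
  obtain ⟨b, b1, b2, b3⟩ := h3
  obtain ⟨b', b4, b5, b6⟩ := h4
  have hk := H.hk
  obtain ⟨g, g0, g1, g2⟩ := H.xl.gr.exists_geo x x'
  have hle : ∀ i : Fin 5, i.1 * (140 * u) ≤ d x x' := fun i => by
    have := Nat.mul_le_mul_right (140 * u) (show i.1 ≤ 4 by omega)
    omega
  have hb : ∀ i : Fin 5, Btw d x (g (i.1 * (140 * u))) x' := fun i => by
    have e1 := g2 0 _ le_rfl (Nat.zero_le _) (hle i)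
    have e2 := g2 _ _ (Nat.zero_le _) (hle i) le_rfl
    rw [g0] at e1
    rw [g1] at e2
    unfold Btw
    omega
  have ex : ∀ i : Fin 5, ∃ s : Bool × Bool,
      d (g (i.1 * (140 * u))) ((cond s.1 a a' : G) • g (i.1 * (140 * u))) ≤ 8 * u ∧
      d (g (i.1 * (140 * u))) ((cond s.2 b b' : G) • g (i.1 * (140 * u))) ≤ 8 * u := fun i => by
    rcases tube H.xl.gr H.xl.hyp H.xl.iso (H.aps.comm a a' α a2 a5) (hb i) a3 a6 with t | t <;>
      rcases tube H.xl.gr H.xl.hyp H.xl.iso (H.aps.comm b b' β b2 b5) (hb i) b3 b6 with t' | t'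
    · exact ⟨(true, true), by simp only [cond_true]; omega, by simp only [cond_true]; omega⟩
    · exact ⟨(true, false), by simp only [cond_true]; omega, by simp only [cond_false]; omega⟩
    · exact ⟨(false, true), by simp only [cond_false]; omega, by simp only [cond_true]; omega⟩
    · exact ⟨(false, false), by simp only [cond_false]; omega, by simp only [cond_false]; omega⟩
  choose f hf using ex
  have nc : ∀ s : Bool × Bool, ¬ Commute (cond s.1 a a' : G) (cond s.2 b b') := by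
    have key : ∀ p q : G, p ≠ 1 → p • α = α → q ≠ 1 → q • β = β → ¬ Commute p q :=
      fun p q p1 p2 q1 q2 hc => q1 (H.aps.two q α β (H.aps.cent p q α p1 p2 hc) q2 hne)
    rintro ⟨_ | _, _ | _⟩
    exacts [key _ _ a4 a5 b4 b5, key _ _ a4 a5 b1 b2, key _ _ a1 a2 b4 b5, key _ _ a1 a2 b1 b2]
  have key : ∀ i j : Fin 5, i < j → f i ≠ f j := fun i j hij e => by
    have e1 := hf j
    rw [← e] at e1
    have e2 := H.ai_u _ _ _ _ (nc (f i)) (hf i).1 (hf i).2 e1.1 e1.2
    have e3 := Nat.mul_le_mul_right (140 * u) (show i.1 + 1 ≤ j.1 from hij)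
    rw [Nat.add_mul] at e3
    have e4 := g2 (i.1 * (140 * u)) (j.1 * (140 * u)) (Nat.zero_le _) (by omega) (hle j)
    omega
  obtain ⟨i, j, hij, e⟩ := Fintype.exists_ne_map_eq_of_card_lt f (by decide)
  rcases lt_or_gt_of_ne hij with h | h
  · exact key i j h e
  · exact key j i h e.symm

theorem sep {e : X ⊕ Ω} {f : G} {x x' : X} (h1 : Near d (ShY G d u) (2 * u) e x)
    (h2 : Near d (ShY G d u) (2 * u) e x') (h3 : Near d (ShY G d u) (2 * u) (f • e) x)
    (h4 : Near d (ShY G d u) (2 * u) (f • e) x') (h : 600 * u < d x x') :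
    ∃ α, e = inr α ∧ f • α = α := by
  rcases e with y | α
  · obtain ⟨s, rfl, e1⟩ := h1
    obtain ⟨s', e2, e3⟩ := h2
    obtain rfl : s' = s := e2
    have := H.xl.gr.met.tri x s' x'
    have := H.xl.gr.met.symm s' x'
    omega
  · refine ⟨α, rfl, by_contra fun hne => ?_⟩
    have := H.overlap (Ne.symm hne) (H.near_short h1) (H.near_short h2) (H.near_short h3)
      (H.near_short h4)
    omega

/-- `tam_of_short`, `QC.ta`. -/
theorem ta : TAm G (dYY G (Ω := Ω) d u) cY := by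
  refine tam_of_short H.qc.1.grB H.qc.1.hypB H.act.invB fun a α x h1 h2 h3 => ?_
  refine H.qc.1.ta H.act h2 (fun q hq => ?_) h3
  rcases α with y | ω
  · exact absurd (H.free a y (inl_injective h2)) h1
  · have := H.hk
    exact H.adj_of (H.sh_of h1 (inr_injective h2) (by omega))

theorem long {a : G} (h : ∀ v : X ⊕ Ω, a • v ≠ v) (x : X) : u < d x (a • x) := by
  by_contra hn
  have h1 : a ≠ 1 := fun e => h (inl x) (by rw [e, one_smul])
  obtain ⟨ω, hω⟩ := H.aps.ex a h1 ⟨x, by omega⟩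
  exact h (inr ω) (congrArg inr hω)

/-- `broken_axis`, `Broken.dist`. -/
theorem pow_long {a : G} (hμ : ∀ x : X, u < d x (a • x)) {y : X} (hy : MinP d a y) (M : ℕ) :
    M * u ≤ 2 * d y (a ^ M • y) := by
  have hk := H.hk
  have h1 := hμ y
  have e := (broken_axis H.xl.gr H.xl.hyp H.xl.iso hy (by omega) M).dist H.xl.gr.met H.xl.hyp
    (by omega) 0 M (by omega)
  simp only [pow_zero, one_smul, Nat.zero_add] at e
  have e1 := Nat.mul_le_mul_left M h1.le
  have e2 := Nat.mul_le_mul_left M (show 2 * (2 * k + k) ≤ u by omega)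
  rw [Nat.mul_left_comm] at e2
  omega

/-- `QC.pw` with `M = 1201`, `sep`, `pow_long`. -/
theorem pw {a : G} (h : ∀ v : X ⊕ Ω, a • v ≠ v) {n : ℕ} (hn : (2 * n + 10) * k + 1 ≤ u) {j : ℕ}
    (hj : 1202 * (n + 1) + 2 ≤ j) (x : X ⊕ Ω) : n < dYY G d u x (a ^ j • x) := by
  have hk := H.hk
  refine H.qc.1.pw H.act (H.long h) (M := 1201) hn (fun e y hy h1 h2 h3 h4 => ?_) hj x
  have := H.pow_long (H.long h) hy 1201
  obtain ⟨α, -, e⟩ := H.sep h1 h2 h3 h4 (by omega)
  exact h (inr α) (congrArg inr e)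

/-- Points `z i` at distance `i * (2 * (CN + 2) * u)` from `q` on a geodesic from `q` to `q'`;
`coverV`; for an apex use `near_short`, `tube` for the point at distance `(CN + 2) * u` from `z i`,
move both points to the segment from `ξ` to `η` (`hull_nb`-like, distance at most `2 * k`). -/
theorem len {CN : ℕ} {ξ η q q' : X} (hN : NT G d u CN ξ η) (hq : Btw d ξ q η) (hq' : Btw d ξ q' η)
    {b b' : X ⊕ Ω} (h1 : ShY G d u b q) (h2 : ShY G d u b' q') {n : ℕ}
    (hb : dYY G d u b b' ≤ n) (hn : (2 * n + 10) * k + 1 ≤ u) :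
    d q q' ≤ (n + 1) * (2 * (CN + 2) * u) := by
  by_contra hlt
  have hk := H.hk
  have m := H.xl.gr.met
  obtain ⟨g, g0, g1, g2⟩ := H.xl.gr.exists_geo q q'
  have hb' : ∀ s, s ≤ d q q' → Btw d q (g s) q' := fun s hs => by
    have e1 := g2 0 _ le_rfl (Nat.zero_le _) hs
    have e2 := g2 _ _ (Nat.zero_le _) hs le_rfl
    rw [g0] at e1
    rw [g1] at e2
    unfold Btw
    omega
  have mv : ∀ s, s ≤ d q q' → ∃ w, Btw d ξ w η ∧ d (g s) w ≤ 2 * k := fun s hs => by
    have e : NB d (0 + k) η (g s) ξ := by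
      rcases ((hb' s hs).nb m).split m H.xl.hyp η with e | e
      · exact (e.symm m).out m (hq.symm m)
      · exact e.out m (hq'.symm m)
    obtain ⟨w, w1, w2⟩ := (e.symm m).near H.xl.gr H.xl.hyp
    exact ⟨w, w1, by omega⟩
  have hs : (CN + 2) * u = CN * u + 2 * u := Nat.add_mul _ _ _
  have key : ∀ (a : G) s s', a ≠ 1 → s + (CN + 2) * u ≤ s' → s' ≤ d q q' →
      d (g s) (a • g s) ≤ 8 * u → d (g s') (a • g s') ≤ 8 * u → False := by
    intro a s s' a1 a2 a3 a4 a5
    obtain ⟨w, w1, w2⟩ := mv s (by omega)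
    obtain ⟨w', w3, w4⟩ := mv s' a3
    have e1 := dis_move m H.xl.iso a (g s) w
    have e2 := dis_move m H.xl.iso a (g s') w'
    have e3 := hN a w w' a1 w1 w3 (by omega) (by omega)
    have e4 := g2 s s' (Nat.zero_le _) (by omega) a3
    have e5 := m.tri (g s) w (g s')
    have e6 := m.tri w w' (g s')
    have e7 := m.symm w' (g s')
    omega
  have hs2 : 2 * (CN + 2) * u = 2 * ((CN + 2) * u) := Nat.mul_assoc _ _ _
  rw [hs2] at hlt
  generalize hT : (CN + 2) * u = T at *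
  have hle : ∀ i, i ≤ n + 1 → i * (2 * T) ≤ d q q' := fun i hi => by
    have := Nat.mul_le_mul_right (2 * T) hi
    omega
  have hn' : 0 + (2 * n + 6) * k + 1 ≤ u := by
    have := Nat.mul_le_mul_right k (show 2 * n + 6 ≤ 2 * n + 10 by omega)
    omega
  obtain ⟨e, i, j, hij, hj, n1, n2⟩ := H.qc.1.coverV h1 h2 hb hn' (fun i => g (i * (2 * T)))
    fun i hi => (hb' _ (hle i hi)).nb m
  have e3 := Nat.mul_le_mul_right (2 * T) (show i + 1 ≤ j from hij)
  rw [Nat.add_mul] at e3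
  have e4 := hle j hj
  have e5 := g2 (i * (2 * T)) (j * (2 * T)) (Nat.zero_le _) (by omega) e4
  rcases e with y | α
  · obtain ⟨s, rfl, e1⟩ := n1
    obtain ⟨s', e2, e6⟩ := n2
    obtain rfl : s' = s := e2
    have := m.tri (g (i * (2 * T))) s' (g (j * (2 * T)))
    have := m.symm s' (g (j * (2 * T)))
    omega
  · obtain ⟨a, a1, a2, a3⟩ := H.near_short (n1.mono (by omega))
    obtain ⟨a', a4, a5, a6⟩ := H.near_short (n2.mono (by omega))
    have e6 := g2 (i * (2 * T)) (i * (2 * T) + T) (Nat.zero_le _) (by omega) (by omega)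
    have e7 := g2 (i * (2 * T) + T) (j * (2 * T)) (Nat.zero_le _) (by omega) e4
    have hw : Btw d (g (i * (2 * T))) (g (i * (2 * T) + T)) (g (j * (2 * T))) := by
      unfold Btw
      omega
    rcases tube H.xl.gr H.xl.hyp H.xl.iso (H.aps.comm a a' α a2 a5) hw a3 a6 with t | t
    · exact key a (i * (2 * T)) (i * (2 * T) + T) a1 le_rfl (by omega) (by omega) (by omega)
    · exact key a' (i * (2 * T) + T) (j * (2 * T)) a4 (by omega) e4 (by omega) (by omega)

/-- `QC.flip` with `M = 1`; both flips fix an apex by `sep` (`Flip.far`), so they commute. -/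
theorem flip {y c : G} {ξ : X} {l N J : ℕ} (F : Flip d y c ξ l N J) (hc : ¬ Commute y c)
    (hN : 602 * u ≤ N) {a b n : ℕ} (ha : l ≤ a) (hb : a + 3 * (n + 1) ≤ b)
    (hu : (b - a) * J + (6 * (n + 1) + 1) * J + (2 * n + 6) * k + 1 ≤ u) :
    n < dYY G (Ω := Ω) d u (inl (eta y c ξ a)) (inl (eta y c ξ b)) := by
  by_contra hn
  have hk := H.hk
  have m := H.xl.gr.met
  have hJ : J ≤ u := by
    have := Nat.mul_le_mul_right J (show 1 ≤ 6 * (n + 1) + 1 by omega)
    omega
  obtain ⟨e, a', a1, -, a2⟩ := H.qc.1.flip H.act F (b := inl (eta y c ξ a))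
    (b' := inl (eta y c ξ b)) (p := eta y c ξ a) (p' := eta y c ξ b) rfl rfl (n := n) (M := 1)
    (a0 := a) (t := (b - a) * J) (by omega) ha
    (fun j h1 h2 => F.nb m H.xl.iso ha h1 (by omega))
    (by rw [show 2 * ((1 + 2) * (n + 1)) = 6 * (n + 1) by omega]; exact hu)
  have key : ∀ j, j = a' + 1 ∨ j = a' + 1 + 1 → ∃ α, e = inr α ∧ cs y c j • α = α := fun j hj => by
    obtain ⟨n1, n2, n3, n4⟩ := a2 j hj
    have := F.far m H.xl.iso (by omega) (a := a') (b := j) (by omega) (by omega)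
    obtain ⟨α, e1, e2⟩ := H.sep n1 n2 n3 n4 (by omega)
    exact ⟨α, e1, (inv_smul_eq_iff.1 e2).symm⟩
  obtain ⟨α, e1, e2⟩ := key _ (Or.inl rfl)
  obtain ⟨β, e3, e4⟩ := key _ (Or.inr rfl)
  obtain rfl : α = β := inr_injective (e1.symm.trans e3)
  have e5 : Commute (cs y c (a' + 1)) (cs y c (a' + 1) * y * (cs y c (a' + 1))⁻¹) :=
    H.aps.comm _ _ α e2 e4
  refine not_commute_cs H.xl.csa hc (a' + 1) ?_
  simpa [mul_assoc] using (e5.conj (cs y c (a' + 1))⁻¹).symm

end YH

end Pool.Agent.Lib.MP_429c3d_al.Ng
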