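import Pool.Agent.Lib.MP_429c3d_al.NgBase
import Pool.Agent.Lib.MP_429c3d_al.HypChain

set_option autoImplicit false
set_option linter.unusedSectionVars false

/-! Isometric actions on hyperbolic graphs: displacement, gates, translations along geodesics. -/

namespace Pool.Agent.Lib.MP_429c3d_al.Ng

open Hyp

/-- An isometric action on a hyperbolic graph. -/
structure Sp (G : Type) {X : Type} [Group G] [MulAction G X] (d : X → X → ℕ) (k : ℕ) : Prop where
  gr : IsGr d
  hyp : Hyp4 d k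
  inv : Isom G d
  pos : 1 ≤ k

/-- Geodesics with integer parameter, Lipschitz everywhere and exact on an interval. -/
structure GZ {X : Type} (d : X → X → ℕ) (γ : ℤ → X) (a b : ℤ) : Prop where
  lip : ∀ i j, (d (γ i) (γ j) : ℤ) ≤ |j - i|
  eq : ∀ i j, a ≤ i → i ≤ b → a ≤ j → j ≤ b → (d (γ i) (γ j) : ℤ) = |j - i|

/-- `p` is a gate of `v` for the set of points that `g` moves at most `K`. -/
structure Gt {G X : Type} [Group G] [MulAction G X] (d : X → X → ℕ) (K e : ℕ) (g : G) (v p : X) :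
    Prop where
  sh : d p (g • p) ≤ K
  gate : ∀ w, d w (g • w) ≤ K → d v p + d p w ≤ d v w + e

variable {G X : Type} [Group G] [MulAction G X] {d : X → X → ℕ} {k : ℕ}

theorem four_le (m : IsMet d) (h : Hyp4 d k) {p q u p' q' u' : X} (c : ℕ)
    (hu : d p u + d u q = d p q) (hu' : d p' u' + d u' q' = d p' q')
    (h1 : d p' q ≤ d u q + d p' u' + c) (h2 : d p p' ≤ d p u + d p' u' + c)
    (h3 : d q q' ≤ d u q + d u' q' + c) (h4 : d p q' ≤ d p u + d u' q' + c) :
    d u u' ≤ c + 2 * k := by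
  have e1 := h u p' p q
  have e2 := h u q' p q
  have e3 := h u u' p' q'
  have := m.symm p u
  have := m.symm p' p
  have := m.symm q' q
  have := m.symm q' p
  have := m.symm u' p'
  omega

theorem gate_two (m : IsMet d) (h : Hyp4 d k) {v p p' v' : X} {e e' : ℕ}
    (h1 : d v p + d p p' ≤ d v p' + e) (h2 : d p p' + d p' v' ≤ d p v' + e')
    (hl : e + e' + k < 2 * d p p') : d v p + d p p' + d p' v' ≤ d v v' + (e + e' + k) := by
  have e1 := h v p' p v'
  have := m.symm p' p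
  omega

theorem gate_step (m : IsMet d) (h : Hyp4 d k) {v p q r : X} {e e' : ℕ}
    (h1 : d v p + d p q ≤ d v q + e) (h2 : d p q + d q r ≤ d p r + e')
    (hl : e + e' + k < 2 * d p q) : d v q + d q r ≤ d v r + (e' + k) := by
  have e1 := h v q p r
  have := m.symm q p
  omega

theorem GZ.mono {γ : ℤ → X} {a b a' b' : ℤ} (g : GZ d γ a b) (ha : a ≤ a') (hb : b' ≤ b) :
    GZ d γ a' b' := ⟨g.lip, fun i j _ _ _ _ => g.eq i j (by omega) (by omega) (by omega) (by omega)⟩

theorem GZ.rev {γ : ℤ → X} {a b : ℤ} (g : GZ d γ a b) (s : ℤ) :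
    GZ d (fun i => γ (s - i)) (s - b) (s - a) := by
  refine ⟨fun i j => ?_, fun i j _ _ _ _ => ?_⟩
  · have := g.lip (s - i) (s - j)
    rwa [show s - j - (s - i) = -(j - i) by ring, abs_neg] at this
  · have := g.eq (s - i) (s - j) (by omega) (by omega) (by omega) (by omega)
    rwa [show s - j - (s - i) = -(j - i) by ring, abs_neg] at this

theorem GZ.shift {γ : ℤ → X} {a b : ℤ} (g : GZ d γ a b) (s : ℤ) :
    GZ d (fun i => γ (i + s)) (a - s) (b - s) := by
  refine ⟨fun i j => ?_, fun i j _ _ _ _ => ?_⟩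
  · have := g.lip (i + s) (j + s)
    rwa [show j + s - (i + s) = j - i by ring] at this
  · have := g.eq (i + s) (j + s) (by omega) (by omega) (by omega) (by omega)
    rwa [show j + s - (i + s) = j - i by ring] at this

theorem GZ.le {γ : ℤ → X} {a b : ℤ} (g : GZ d γ a b) {i j : ℤ} (ha : a ≤ i) (hij : i ≤ j)
    (hb : j ≤ b) : (d (γ i) (γ j) : ℤ) = j - i := by
  rw [g.eq i j ha (by omega) (by omega) hb, abs_of_nonneg (by omega)]

theorem GZ.lip' {γ : ℤ → X} {a b : ℤ} (g : GZ d γ a b) (i j : ℤ) (c : ℕ) (h1 : i ≤ j + c)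
    (h2 : j ≤ i + c) : d (γ i) (γ j) ≤ c := by
  have := g.lip i j
  have : |j - i| ≤ c := abs_le.2 ⟨by omega, by omega⟩
  omega

theorem GZ.ge {γ : ℤ → X} {a b : ℤ} (g : GZ d γ a b) {i j : ℤ} (h1 : a ≤ i) (h2 : i ≤ b)
    (h3 : a ≤ j) (h4 : j ≤ b) : j ≤ i + d (γ i) (γ j) ∧ i ≤ j + d (γ i) (γ j) := by
  have := g.eq i j h1 h2 h3 h4
  have := le_abs_self (j - i)
  have := neg_abs_le (j - i)
  omega

theorem exists_gz (Γ : IsGr d) (x y : X) :
    ∃ γ : ℤ → X, GZ d γ 0 (d x y) ∧ γ 0 = x ∧ γ (d x y) = y := by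
  obtain ⟨g, g0, g1, g2⟩ := Γ.exists_geo x y
  have key : ∀ i j : ℕ, i ≤ d x y → j ≤ d x y → (d (g i) (g j) : ℤ) = |(j : ℤ) - i| := by
    intro i j hi hj
    rcases le_total i j with h | h
    · have := g2 i j (Nat.zero_le _) h hj
      rw [abs_of_nonneg (by omega)]
      omega
    · have := g2 j i (Nat.zero_le _) h hi
      rw [abs_of_nonpos (by omega), Γ.met.symm]
      omega
  refine ⟨fun i => g (min i.toNat (d x y)), ⟨fun i j => ?_, fun i j _ _ _ _ => ?_⟩, by simpa using g0,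
    by simpa using g1⟩
  · rw [key _ _ (min_le_right _ _) (min_le_right _ _)]
    have := le_abs_self (j - i)
    have := neg_abs_le (j - i)
    exact abs_le.2 ⟨by omega, by omega⟩
  · rw [key _ _ (min_le_right _ _) (min_le_right _ _)]
    congr 1
    omega

theorem exists_min (d : X → X → ℕ) (g : G) (x : X) : ∃ y, ∀ x, d y (g • y) ≤ d x (g • x) := by
  classical
  have ex : ∃ n, ∃ y, d y (g • y) = n := ⟨_, x, rfl⟩
  obtain ⟨y, hy⟩ := Nat.find_spec ex
  exact ⟨y, fun x => hy ▸ Nat.find_min' ex ⟨x, rfl⟩⟩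

theorem Gt.mono {K e e' : ℕ} {g : G} {v p : X} (h : Gt d K e g v p) (he : e ≤ e') :
    Gt d K e' g v p := ⟨h.sh, fun w hw => (h.gate w hw).trans (by omega)⟩

namespace Sp

variable (S : Sp G d k)
include S

theorem symm (x y : X) : d x y = d y x := S.gr.met.symm x y

theorem tri (x y z : X) : d x z ≤ d x y + d y z := S.gr.met.tri x y z

theorem self (x : X) : d x x = 0 := S.gr.met.self x

theorem mono {k' : ℕ} (h : k ≤ k') : Sp G d k' := ⟨S.gr, S.hyp.mono h, S.inv, S.pos.trans h⟩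

theorem inv_l (g : G) (x y : X) : d (g⁻¹ • x) y = d x (g • y) := by
  rw [← S.inv g, smul_inv_smul]

theorem inv_r (g : G) (x y : X) : d x (g⁻¹ • y) = d (g • x) y := by
  rw [← S.inv g, smul_inv_smul]

theorem dis_inv (g : G) (x : X) : d x (g⁻¹ • x) = d x (g • x) := by
  rw [S.inv_r, S.symm]

theorem mul_le (g h : G) (x y z : X) : d ((g * h) • x) z ≤ d (h • x) y + d (g • y) z := by
  have := S.tri ((g * h) • x) (g • y) z
  rwa [mul_smul, S.inv, ← mul_smul] at this

theorem dis_mul (g h : G) (x : X) : d x ((g * h) • x) ≤ d x (g • x) + d x (h • x) := by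
  have := S.tri x (g • x) ((g * h) • x)
  rwa [mul_smul, S.inv, ← mul_smul] at this

theorem dis_move (g : G) (x y : X) : d x (g • x) ≤ d y (g • y) + 2 * d x y := by
  have h1 := S.tri x y (g • x)
  have h2 := S.tri y (g • y) (g • x)
  rw [S.inv, S.symm y x] at h2
  omega

theorem dis_conj (g h : G) (x : X) : d (h • x) ((h * g * h⁻¹) • h • x) = d x (g • x) := by
  rw [smul_smul, inv_mul_cancel_right, mul_smul, S.inv]

theorem dis_conj' (g h : G) (x : X) : d x ((h * g * h⁻¹) • x) = d (h⁻¹ • x) (g • h⁻¹ • x) := by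
  rw [← S.dis_conj g h, smul_inv_smul]

theorem dis_comm {g h : G} (c : Commute h g) (x : X) : d (h • x) (g • h • x) = d x (g • x) := by
  rw [smul_smul, ← c.eq, mul_smul, S.inv]

theorem dis_pow (g : G) (x : X) (n : ℕ) : d x (g ^ n • x) ≤ n * d x (g • x) := by
  induction n with
  | zero => simp [S.self]
  | succ n ih =>
    have := S.dis_mul (g ^ n) g x
    rw [pow_succ, Nat.add_mul]
    omega

theorem gz_smul {γ : ℤ → X} {a b : ℤ} (h : GZ d γ a b) (g : G) : GZ d (fun i => g • γ i) a b :=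
  ⟨fun i j => by rw [S.inv]; exact h.lip i j, fun i j a1 a2 a3 a4 => by
    rw [S.inv]; exact h.eq i j a1 a2 a3 a4⟩

/-- Convexity of the displacement function. -/
theorem conv (g : G) {p w q : X} {K : ℕ} (hw : d p w + d w q = d p q) (hp : d p (g • p) ≤ K)
    (hq : d q (g • q) ≤ K) : d w (g • w) ≤ K + 2 * k := by
  have t1 := S.tri (g • p) p q
  have t2 := S.tri p q (g • q)
  have := S.symm (g • p) p
  refine four_le S.gr.met S.hyp K hw (p' := g • p) (q' := g • q) ?_ ?_ ?_ ?_ ?_ <;>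
    simp only [S.inv g] <;> omega

theorem sq_le (g : G) (x y : X) : d x (g • g • x) ≤ d x (g • x) + d y (g • y) + k := by
  have e := S.hyp x (g • g • x) (g • x) (g • y)
  have t1 := S.tri x y (g • y)
  have t2 := S.tri (g • x) (g • y) y
  have := S.symm (g • y) y
  have := S.symm (g • x) x
  simp only [S.inv g] at e t2
  omega

/-- Points are close to the short set, in proportion to their displacement. -/
theorem near_short (g : G) (x y : X) {K : ℕ} (hK : d y (g • y) + 3 * k + 2 ≤ K) :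
    ∃ p, d p (g • p) ≤ K ∧ (p = x ∨ 2 * d x p + K ≤ d x (g • x) + 2 * k + 1) := by
  by_cases hx : d x (g • x) ≤ K
  · exact ⟨x, hx, Or.inl rfl⟩
  have e0 := S.sq_le g x y
  obtain ⟨i, hi⟩ : ∃ i, i = (d x (g • x) + 2 * k + 1 - K) / 2 := ⟨_, rfl⟩
  obtain ⟨γ, hγ, g0, g1⟩ := exists_gz S.gr x (g • x)
  have a1 := hγ.le (i := 0) (j := i) le_rfl (by omega) (by omega)
  have a2 := hγ.le (i := i) (j := d x (g • x)) (by omega) (by omega) le_rfl
  have a3 := hγ.le (i := 0) (j := d x (g • x) - i) le_rfl (by omega) (by omega)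
  have a4 := hγ.le (i := d x (g • x) - i) (j := d x (g • x)) (by omega) (by omega) le_rfl
  have a5 := hγ.le (i := i) (j := d x (g • x) - i) (by omega) (by omega) (by omega)
  rw [g0] at a1 a3
  rw [g1] at a2 a4
  refine ⟨γ i, ?_, Or.inr (by omega)⟩
  have s1 := S.symm (g • x) (γ (d x (g • x) - i))
  have s2 := S.symm x (γ (d x (g • x) - i))
  have s3 := S.symm x (g • x)
  have h := sync_le S.gr.met S.hyp (o := g • x) (u := γ (d x (g • x) - i)) (u' := g • γ i)
    (z := x) (z' := g • g • x) (b := i) (by omega) (by rw [S.inv]; omega) (by omega)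
    (by simp only [S.inv g]; omega) (by simp only [S.inv g]; omega)
  have := S.tri (γ i) (γ (d x (g • x) - i)) (g • γ i)
  omega

theorem gt_of_min {g : G} {K : ℕ} {y v p : X} (hK : d y (g • y) + 3 * k + 2 ≤ K)
    (hp : d p (g • p) ≤ K) (hm : ∀ w, d w (g • w) ≤ K → d v p ≤ d v w) :
    Gt d K (10 * k) g v p := by
  refine ⟨hp, fun w hw => ?_⟩
  have t1 := S.tri v p w
  have t2 := S.tri v w p
  have s1 := S.symm w p
  have h0 := hm w hw
  obtain ⟨u, u1, u2⟩ := S.gr.geo.mid S.gr.met p w (s := (d v p + d p w - d v w) / 2) (by omega)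
  have e1 := S.conv g (w := u) (by omega) hp hw
  obtain ⟨q, q1, q2⟩ := S.near_short g u y hK
  have e2 := hm q q1
  have e3 := S.hyp v u p w
  have t3 := S.tri v u q
  have s2 := S.symm u p
  have := S.pos
  rcases q2 with rfl | q2
  · omega
  · omega

theorem exists_gt (g : G) {K : ℕ} {y : X} (hK : d y (g • y) + 3 * k + 2 ≤ K) (v : X) :
    ∃ p, Gt d K (10 * k) g v p ∧ ∀ w, d w (g • w) ≤ K → d v p ≤ d v w := by
  classical
  have ex : ∃ n, ∃ p, d p (g • p) ≤ K ∧ d v p = n := ⟨_, y, by omega, rfl⟩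
  obtain ⟨p, h1, h2⟩ := Nat.find_spec ex
  have hm : ∀ w, d w (g • w) ≤ K → d v p ≤ d v w := fun w hw =>
    h2 ▸ Nat.find_min' ex ⟨w, hw, rfl⟩
  exact ⟨p, S.gt_of_min hK h1 hm, hm⟩

theorem gt_conj {K e : ℕ} {g : G} {v p : X} (h : Gt d K e g v p) (a : G) :
    Gt d K e (a * g * a⁻¹) (a • v) (a • p) := by
  refine ⟨by rw [S.dis_conj]; exact h.sh, fun w hw => ?_⟩
  rw [S.dis_conj'] at hw
  have := h.gate _ hw
  rwa [S.inv_r a v, S.inv_r a p, ← S.inv a v p] at this

theorem gt_comm {K e : ℕ} {g : G} {v p : X} (h : Gt d K e g v p) {a : G} (c : Commute a g) :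
    Gt d K e g (a • v) (a • p) := by
  have := S.gt_conj h a
  rwa [c.eq, mul_inv_cancel_right] at this

/-- Far apart gates lie on the geodesic. -/
theorem gt_two {K e e' : ℕ} {g : G} {v p v' p' : X} (h : Gt d K e g v p) (h' : Gt d K e' g v' p')
    (hl : e + e' + k < 2 * d p p') : d v p + d p p' + d p' v' ≤ d v v' + (e + e' + k) := by
  have e1 := h.gate p' h'.sh
  have e2 := h'.gate p h.sh
  have := S.symm v' p'
  have := S.symm p' p
  have := S.symm v' p
  exact gate_two S.gr.met S.hyp e1 (by omega) hl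

/-- An element that commutes with `g` is short at the gate. -/
theorem gt_short {K e : ℕ} {g a : G} {v p : X} (h : Gt d K e g v p) (c : Commute a g) :
    d p (a • p) ≤ d v (a • v) + (2 * e + k) := by
  by_cases hl : e + e + k < 2 * d p (a • p)
  · have := S.gt_two h (S.gt_comm h c) hl
    omega
  · omega

/-- The gate of a point on a geodesic. -/
theorem gate_geo {γ : ℤ → X} {a b : ℤ} (hγ : GZ d γ a b) (hab : a ≤ b) (u : X) :
    ∃ i, a ≤ i ∧ i ≤ b ∧ ∀ j, a ≤ j → j ≤ b →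
      d u (γ i) + d (γ i) (γ j) ≤ d u (γ j) + (k + 2) := by
  have e0 := hγ.le le_rfl hab le_rfl
  have t1 := S.tri u (γ a) (γ b)
  have t2 := S.tri u (γ b) (γ a)
  have t3 := S.tri (γ a) u (γ b)
  have s1 := S.symm (γ b) (γ a)
  have s2 := S.symm (γ a) u
  obtain ⟨i, hi⟩ : ∃ i : ℤ, i = (a + b + d u (γ a) - d u (γ b)) / 2 := ⟨_, rfl⟩
  have e1 := hγ.le (i := a) (j := i) le_rfl (by omega) (by omega)
  have e2 := hγ.le (i := i) (j := b) (by omega) (by omega) le_rfl
  have e3 := S.hyp u (γ i) (γ a) (γ b)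
  have s3 := S.symm (γ i) (γ a)
  refine ⟨i, by omega, by omega, fun j h1 h2 => ?_⟩
  have e4 := hγ.le (i := a) (j := j) le_rfl h1 h2
  have e5 := hγ.le (i := j) (j := b) h1 h2 le_rfl
  have t4 := S.tri u (γ j) (γ b)
  have t5 := S.tri u (γ j) (γ a)
  have s4 := S.symm (γ j) (γ a)
  rcases le_total i j with h | h
  · have := hγ.le (i := i) (j := j) (by omega) h h2
    omega
  · have := hγ.le (i := j) (j := i) h1 h (by omega)
    have := S.symm (γ j) (γ i)
    omega

/-- A point with small defect is near the geodesic. -/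
theorem near_gz {γ : ℤ → X} {a b : ℤ} (hγ : GZ d γ a b) (hab : a ≤ b) (u : X) {c : ℕ}
    (hc : (d u (γ a) : ℤ) + d u (γ b) + a ≤ b + c) :
    ∃ i, a ≤ i ∧ i ≤ b ∧ 2 * d u (γ i) ≤ c + 2 * k + 4 := by
  obtain ⟨i, h1, h2, h3⟩ := S.gate_geo hγ hab u
  have e1 := h3 a le_rfl hab
  have e2 := h3 b hab le_rfl
  have e3 := hγ.le le_rfl h1 h2
  have e4 := hγ.le h1 h2 le_rfl
  have := S.symm (γ i) (γ a)
  exact ⟨i, h1, h2, by omega⟩

/-- Geodesics with close end points. -/
theorem sy {γ δ : ℤ → X} {a b a' b' : ℤ} (hγ : GZ d γ a b) (hδ : GZ d δ a' b') {s : ℕ}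
    (h0 : d (γ a) (δ a') ≤ s) (h1 : d (γ b) (δ b') ≤ s) {i j : ℤ} (hi : a ≤ i) (hi' : i ≤ b)
    (hj : a' ≤ j) (hj' : j ≤ b') (e : i - a = j - a') : d (γ i) (δ j) ≤ s + 2 * k := by
  have a1 := hγ.le le_rfl hi hi'
  have a2 := hγ.le hi hi' le_rfl
  have a3 := hγ.le le_rfl (hi.trans hi') le_rfl
  have b1 := hδ.le le_rfl hj hj'
  have b2 := hδ.le hj hj' le_rfl
  have b3 := hδ.le le_rfl (hj.trans hj') le_rfl
  have t1 := S.tri (δ a') (γ a) (γ b)
  have t2 := S.tri (γ a) (δ a') (δ b')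
  have := S.symm (δ a') (γ a)
  exact four_le S.gr.met S.hyp s (p := γ a) (q := γ b) (p' := δ a') (q' := δ b') (by omega)
    (by omega) (by omega) (by omega) (by omega) (by omega)

/-- Geodesics with close end points are synchronous in the middle. -/
theorem sync {γ δ : ℤ → X} {a b a' b' : ℤ} (hγ : GZ d γ a b) (hδ : GZ d δ a' b') {s s' : ℕ}
    (h0 : d (γ a) (δ a') ≤ s) (h1 : d (γ b) (δ b') ≤ s') (hl : (s : ℤ) + s' ≤ b - a + (b' - a'))
    {i j : ℤ} (hi : a ≤ i) (hi' : i ≤ b) (hj : a' ≤ j) (hj' : j ≤ b')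
    (e : j - a' + (b - i) = d (δ a') (γ b)) (l1 : (s : ℤ) ≤ i - a + (j - a'))
    (l2 : (s' : ℤ) ≤ b - i + (b' - j)) : d (γ i) (δ j) ≤ 3 * k := by
  have a1 := hγ.le le_rfl hi hi'
  have a2 := hγ.le hi hi' le_rfl
  have a3 := hγ.le le_rfl (hi.trans hi') le_rfl
  have b1 := hδ.le le_rfl hj hj'
  have b2 := hδ.le hj hj' le_rfl
  have b3 := hδ.le le_rfl (hj.trans hj') le_rfl
  have e1 := S.hyp (γ a) (δ b') (δ a') (γ b)
  have := S.symm (δ b') (γ b)
  have := S.symm (δ b') (δ a')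
  have := four_le S.gr.met S.hyp k (p := γ a) (q := γ b) (p' := δ a') (q' := δ b') (u := γ i)
    (u' := δ j) (by omega) (by omega) (by omega) (by omega) (by omega) (by omega)
  omega

/-- An element that is short at both ends translates along the geodesic. -/
theorem trans_geo {γ : ℤ → X} {a b : ℤ} (hγ : GZ d γ a b) (g : G) {s : ℕ}
    (h0 : d (γ a) (g • γ a) ≤ s) (h1 : d (γ b) (g • γ b) ≤ s) (hl : (s : ℤ) ≤ b - a) :
    ∃ t : ℤ, t + d (g • γ a) (γ b) = b - a ∧ -(s : ℤ) ≤ t ∧ t ≤ s ∧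
      ∀ i, a + s ≤ i → i + s ≤ b → d (g • γ i) (γ (i + t)) ≤ 3 * k := by
  have a3 := hγ.le (i := a) (j := b) le_rfl (by omega) le_rfl
  have t1 := S.tri (g • γ a) (γ a) (γ b)
  have t2 := S.tri (γ a) (g • γ a) (γ b)
  have := S.symm (g • γ a) (γ a)
  refine ⟨b - a - d (g • γ a) (γ b), by omega, by omega, by omega, fun i h2 h3 => ?_⟩
  rw [S.symm]
  exact S.sync hγ (S.gz_smul hγ g) h0 h1 (by omega) (by omega) (by omega) (by omega) (by omega)
    (by omega) (by omega) (by omega)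

/-- A translation along a geodesic is not longer than any displacement. -/
theorem trans_le {γ : ℤ → X} {a b : ℤ} (hγ : GZ d γ a b) (g : G) {e : ℕ} {i j t : ℤ}
    (hi : d (g • γ i) (γ (i + t)) ≤ e) (hj : d (g • γ j) (γ (j + t)) ≤ e)
    (hij : i + 2 * e + k < j) (h1 : a ≤ i) (h2 : j ≤ b) (h3 : a ≤ i + t) (h4 : j + t ≤ b)
    (y : X) : t ≤ d y (g • y) + 2 * e + k ∧ -t ≤ d y (g • y) + 2 * e + k := by
  have key : ∀ (g : G) (i j t : ℤ), d (g • γ i) (γ (i + t)) ≤ e → d (g • γ j) (γ (j + t)) ≤ e →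
      i + 2 * e + k < j → a ≤ i → j + t ≤ b → 0 ≤ t → t ≤ d y (g • y) + 2 * e + k := by
    intro g i j t hi hj hij h1 h4 ht
    have a1 := hγ.le (i := i) (j := j) h1 (by omega) (by omega)
    have a2 := hγ.le (i := i) (j := j + t) h1 (by omega) (by omega)
    have a3 := hγ.lip' i (i + t) t.toNat (by omega) (by omega)
    have a4 := hγ.lip' j (j + t) t.toNat (by omega) (by omega)
    have e1 := S.hyp (γ i) (g • γ j) (g • γ i) (g • y)
    have e2 := S.hyp (γ i) (g • γ j) (γ j) y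
    have t1 := S.tri (γ i) (g • γ j) (γ (j + t))
    have t2 := S.tri (γ i) (γ (i + t)) (g • γ i)
    have t3 := S.tri (g • γ j) (γ (j + t)) (γ j)
    have t4 := S.tri (γ i) y (g • y)
    have t5 := S.tri (g • γ j) (g • y) y
    have := S.symm (γ (i + t)) (g • γ i)
    have := S.symm (γ (j + t)) (γ j)
    have := S.symm (g • y) y
    have := S.symm (γ j) (γ i)
    simp only [S.inv g] at e1 t5
    omega
  rcases le_total 0 t with ht | ht
  · have := key g i j t hi hj hij h1 h4 ht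
    omega
  · have := key g⁻¹ (i + t) (j + t) (-t) (by rw [S.inv_l, S.symm]; simpa using hi)
      (by rw [S.inv_l, S.symm]; simpa using hj) (by omega) h3 (by omega) (by omega)
    rw [S.dis_inv] at this
    omega

end Sp

end Pool.Agent.Lib.MP_429c3d_al.Ng
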