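import Pool.Agent.Lib.MP_429c3d_al.NxPat

set_option autoImplicit false
set_option linter.unusedSectionVars false

/-! A flip of long range is a flip of the pattern. -/

namespace Pool.Agent.Lib.MP_429c3d_al.Ng

open Hyp

variable {G X : Type} [Group G] [MulAction G X] {d : X → X → ℕ} {k A K U e D : ℕ}
  {γ : ℤ → X} {a b : ℤ} {y c : G} {x x' : X} {Y : ℕ → G} {p : ℕ → ℤ} {n0 n1 : ℕ}

/-- Two chains of flips with the same spacing have the same products of neighbours: both products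
translate by `2 D` up to `2 e` on a common interval (`eq_of_near`). -/
theorem Sp.align (S : Sp G d k) (hγ : GZ d γ a b) {lo hi : ℤ} (ap : Aper G d γ e lo hi)
    (hD : 3000 * e ≤ D) (he : 1 ≤ e) {w1 w2 v1 v2 : G} {p0 p1 p2 q0 q1 q2 : ℤ}
    (a1 : Rv d γ e w1 (2 * p1) p0 p1) (a2 : Rv d γ e w2 (2 * p2) p1 p2)
    (b1 : Rv d γ (3 * e) v1 (2 * q1) (q0 + e) q1) (b2 : Rv d γ (3 * e) v2 (2 * q2) (q1 + e) q2)
    (g1 : p0 + D ≤ p1 + e ∧ p1 ≤ p0 + D + e) (g2 : p1 + D ≤ p2 + e ∧ p2 ≤ p1 + D + e)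
    (g3 : q0 + D ≤ q1 + e ∧ q1 ≤ q0 + D + e) (g4 : q1 + D ≤ q2 + e ∧ q2 ≤ q1 + D + e)
    (h1 : 2 * p1 ≤ 2 * q1 + D + 40 * e) (h2 : 2 * q1 ≤ 2 * p1 + D + 40 * e) (h3 : lo ≤ p0)
    (h4 : p1 ≤ hi) : w2 * w1 = v2 * v1 := by
  have k1 : ∀ i, p1 + e ≤ i + D → i ≤ p1 →
      d ((w2 * w1) • γ i) (γ (2 * p2 - (2 * p1 - i))) ≤ 2 * e := by
    intro i c1 c2
    have := S.mul_le w2 w1 (γ i) (γ (2 * p1 - i)) (γ (2 * p2 - (2 * p1 - i)))
    have := a1 i (by omega) c2
    have := a2 (2 * p1 - i) (by omega) (by omega)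
    omega
  have k2 : ∀ i, q1 + 2 * e ≤ i + D → i + e ≤ q1 →
      d ((v2 * v1) • γ i) (γ (2 * q2 - (2 * q1 - i))) ≤ 6 * e := by
    intro i c1 c2
    have := S.mul_le v2 v1 (γ i) (γ (2 * q1 - i)) (γ (2 * q2 - (2 * q1 - i)))
    have := b1 i (by omega) (by omega)
    have := b2 (2 * q1 - i) (by omega) (by omega)
    omega
  obtain ⟨i, j, c1, c2, c3, c4, c5⟩ : ∃ i j : ℤ, p1 + e ≤ i + D ∧ q1 + 2 * e ≤ i + D ∧ j ≤ p1 ∧
      j + e ≤ q1 ∧ i + 1000 * e ≤ j := by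
    rcases le_total p1 q1 with h | h
    · exact ⟨q1 + 2 * e - D, p1 - e, by omega, by omega, by omega, by omega, by omega⟩
    · exact ⟨p1 + 2 * e - D, q1 - e, by omega, by omega, by omega, by omega, by omega⟩
  exact S.eq_of_near hγ ap (δ := 4 * e) (by omega) (by omega) (by omega) (k1 i c1 (by omega))
    (k2 i c2 (by omega)) (k1 j (by omega) c3) (k2 j (by omega) c4) (by omega) (by omega) (by omega)
    (by omega)

theorem sgn_odd {n : ℕ} (h : n % 2 = 1) : sgn (n + 2) = -sgn n := by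
  rcases (by omega : n % 4 = 1 ∨ n % 4 = 3) with h | h
  · rw [sgn_one h, sgn_three (by omega)]
  · rw [sgn_three h, sgn_one (by omega)]
    rfl

theorem sgn_alt {m : ℕ} (h : m % 2 = 0) (h1 : sgn (m + 2) ≠ sgn m) (h2 : sgn (m + 4) ≠ sgn (m + 2))
    (h3 : sgn (m + 6) ≠ sgn (m + 4)) : False := by
  obtain ⟨t, rfl⟩ : ∃ t, m = 2 * t := ⟨m / 2, by omega⟩
  rw [show 2 * t + 2 = 2 * (t + 1) by ring] at h1 h2
  rw [show 2 * t + 4 = 2 * (t + 2) by ring] at h2 h3
  rw [show 2 * t + 6 = 2 * (t + 1 + 2) by ring] at h3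
  simp only [sgn_two_mul] at h1 h2 h3
  have := sgn_cases t
  have := sgn_cases (t + 1)
  have := sgn_cases (t + 2)
  have := sgn_cases (t + 1 + 2)
  rcases (by omega : t % 2 = 1 ∨ (t + 1) % 2 = 1) with e | e
  · have := sgn_odd e
    omega
  · have := sgn_odd e
    omega

/-- The algebra of the alignment: equal products of neighbours.  Here
`w (m + 2) w (m + 1) (w (m + 1) w m)⁻¹ = Y (m + 2) ^ (sgn (m + 2) - sgn m)` and the reflected
product is conjugate to `Y n ^ (sgn (n + 2) - sgn n)`; use `conj_zpow_eq` and `sq_inj`. -/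
theorem Pat.refl_alg (P : Pat d γ e D y Y p n0 n1) (tf : TF G) (csa : CSA G) (ct : CT G)
    (hy : y ≠ 1) {f : G} {m n : ℕ}
    (h1 : Y (m + 1) ^ sgn (m + 1) * Y m ^ sgn m =
      f * (Y (n + 1) ^ sgn (n + 1))⁻¹ * f⁻¹ * (f * (Y (n + 2) ^ sgn (n + 2))⁻¹ * f⁻¹))
    (h2 : Y (m + 2) ^ sgn (m + 2) * Y (m + 1) ^ sgn (m + 1) =
      f * (Y n ^ sgn n)⁻¹ * f⁻¹ * (f * (Y (n + 1) ^ sgn (n + 1))⁻¹ * f⁻¹)) :
    sgn (m + 2) - sgn m = sgn (n + 2) - sgn n ∧
      (m % 2 = 1 → Y (m + 2) ^ sgn (m + 2) = f * (Y n ^ sgn n)⁻¹ * f⁻¹) := by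
  have key : Y (m + 2) ^ (sgn (m + 2) - sgn m) = f * Y n ^ (sgn (n + 2) - sgn n) * f⁻¹ := by
    have e1 : Y (m + 2) ^ sgn m = Y (m + 1) ^ sgn (m + 1) * Y m ^ sgn m *
        (Y (m + 1) ^ sgn (m + 1))⁻¹ := by rw [P.alg m, conj_zpow]
    have e2 : Y (n + 2) ^ sgn (n + 2) = Y (n + 1) ^ sgn (n + 1) * Y n ^ sgn (n + 2) *
        (Y (n + 1) ^ sgn (n + 1))⁻¹ := by rw [P.alg n, conj_zpow]
    have e3 : Y n ^ (sgn (n + 2) - sgn n) = (Y n ^ sgn n)⁻¹ * Y n ^ sgn (n + 2) := by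
      rw [← zpow_neg, ← zpow_add]
      congr 1
      ring
    rw [e2] at h1
    rw [zpow_sub, e1, h1, e3, eq_mul_inv_of_mul_eq h2]
    group
  have ne : ∀ n, Y n ≠ 1 := fun n e => hy (isConj_one_right.1 (e ▸ (P.conj n).symm))
  have eq : sgn (m + 2) - sgn m = sgn (n + 2) - sgn n := by
    obtain ⟨g, hg⟩ := isConj_iff.1 ((P.conj n).symm.trans (P.conj (m + 2)))
    refine (conj_zpow_eq tf csa (ne n) (g := g⁻¹ * f) ?_).symm
    rw [← hg, conj_zpow] at key
    rw [mul_inv_rev, inv_inv]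
    calc g⁻¹ * f * Y n ^ (sgn (n + 2) - sgn n) * (f⁻¹ * g)
        = g⁻¹ * (f * Y n ^ (sgn (n + 2) - sgn n) * f⁻¹) * g := by group
      _ = _ := by rw [← key]; group
  refine ⟨eq, fun hm => sq_inj tf ct (fun e => ?_) ?_⟩
  · have := tf.zpow_eq (ne _) e
    have := sgn_cases (m + 2)
    omega
  · have := sgn_odd hm
    have := sgn_cases (m + 2)
    have := sgn_cases (n + 2)
    have := sgn_cases n
    rw [show sgn (m + 2) - sgn m = sgn (m + 2) * 2 by omega,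
      show sgn (n + 2) - sgn n = -sgn n * 2 by omega, zpow_mul, zpow_mul, zpow_neg] at key
    rw [conj_pow]
    exact_mod_cast key

/-- The mirror image of a flip of the pattern. -/
theorem Sp.vflip (S : Sp G d k) (P : Pat d γ e D y Y p n0 n1) {f : G} {μ ρ : ℤ}
    (hf : Rv d γ e f (2 * μ) (μ - ρ) μ) (hD : e ≤ D) {n : ℕ} (h0 : n0 ≤ n) (h1 : n + 2 ≤ n1)
    (h2 : μ - ρ ≤ p n) (h3 : p (n + 2) ≤ μ) :
    Rv d γ (3 * e) (f * (Y (n + 1) ^ sgn (n + 1))⁻¹ * f⁻¹) (2 * (2 * μ - p (n + 1)))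
      (2 * μ - p (n + 2) + e) (2 * μ - p (n + 1)) := by
  intro i c1 c2
  obtain ⟨f1, f2, f3⟩ := P.flip1 h0 h1
  have g1 := P.gap n h0 (by omega)
  have g2 := P.gap (n + 1) (by omega) (by omega)
  rw [show n + 1 + 1 = n + 2 from rfl] at g2
  have a1 := S.rv_inv hf i (by omega) (by omega)
  have a2 := S.rv_inv f1 (2 * μ - i) (by omega) (by omega)
  have a3 := hf (2 * p (n + 1) - (2 * μ - i)) (by omega) (by omega)
  have t1 := S.mul_le (f * (Y (n + 1) ^ sgn (n + 1))⁻¹) f⁻¹ (γ i) (γ (2 * μ - i))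
    (γ (2 * μ - (2 * p (n + 1) - (2 * μ - i))))
  have t2 := S.mul_le f (Y (n + 1) ^ sgn (n + 1))⁻¹ (γ (2 * μ - i))
    (γ (2 * p (n + 1) - (2 * μ - i))) (γ (2 * μ - (2 * p (n + 1) - (2 * μ - i))))
  rw [show 2 * (2 * μ - p (n + 1)) - i = 2 * μ - (2 * p (n + 1) - (2 * μ - i)) by ring]
  omega

theorem Pat.idx (P : Pat d γ e D y Y p n0 n1) {m n : ℕ} (c : ℕ) (h0 : n0 ≤ m) (h1 : m ≤ n)
    (h2 : n ≤ n1) (h : p m + c * ((D : ℤ) + e) < p n) : m + c < n := by
  by_contra hc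
  obtain ⟨t, rfl⟩ := Nat.exists_eq_add_of_le h1
  have := (P.span h0 t h2).2
  have : (t : ℤ) * (D + e) ≤ c * (D + e) :=
    mul_le_mul_of_nonneg_right (by omega) (by positivity)
  rw [mul_add] at this
  omega

/-- Let `L` be the last hub with `p L ≤ μ`, `q j = 2 μ - p (L - j)`,
`v j = f (Y (L - j) ^ sgn (L - j))⁻¹ f⁻¹` (a flip at `q j` with error `3 e` on
`[q (j - 1) + e, q j]` for `1 ≤ j ≤ 9`), `R ∈ {L, L + 1, L + 2}` with `2 |p R - q 0| ≤ D + e`.
`align` gives the products for the hubs `R + j`, `j = 1, ..., 7`.  If `R = L + 1` then `refl_alg`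
makes the signs at four consecutive even places alternate, which is impossible.  Otherwise take
`j ∈ {1, 2}` with `R + j` odd: the flips at `R + j + 2` agree, so `|p (R + j + 2) - q (j + 2)| ≤ 2 e`,
so `μ` is within `6 e` of `p N` for `N = (L + R) / 2`, and `eq_of_near` gives `f`. -/
theorem Sp.al (S : Sp G d k) (tf : TF G) (csa : CSA G) (ct : CT G) (hγ : GZ d γ a b)
    (P : Pat d γ e D y Y p n0 n1) (hy : y ≠ 1) (ap : Aper G d γ e (p n0) (p n1)) (hn : n0 ≤ n1)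
    (h1 : a ≤ p n0) (h2 : p n1 ≤ b) (hD : 3000 * e ≤ D) (he : 1 ≤ e) {f : G} {μ ρ : ℤ}
    (hf : Rv d γ e f (2 * μ) (μ - ρ) μ) (h3 : 14 * (D + e) ≤ ρ) (h4 : p n0 ≤ μ - ρ)
    (h5 : μ + ρ ≤ p n1) :
    ∃ N, n0 < N ∧ N < n1 ∧ f = Y N ^ sgn N ∧ μ ≤ p N + 6 * e ∧ p N ≤ μ + 6 * e := by
  have heD : e ≤ D := by omega
  obtain ⟨l, l0, l1, l2, l3⟩ : ∃ l, n0 ≤ l ∧ l + 23 ≤ n1 ∧ p (l + 10) ≤ μ ∧ μ < p (l + 11) := by
    classical
    have ex : ∃ m, n0 ≤ m ∧ m ≤ n1 ∧ μ < p m := ⟨n1, hn, le_rfl, by omega⟩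
    obtain ⟨a1, a2, a3⟩ := Nat.find_spec ex
    have a4 := P.idx 13 le_rfl a1 a2 (by push_cast; omega)
    obtain ⟨l, hl⟩ : ∃ l, Nat.find ex = l + 11 := ⟨Nat.find ex - 11, by omega⟩
    have a5 := Nat.find_min ex (m := l + 10) (by omega)
    rw [hl] at a2 a3 a4
    have a6 : p (l + 10) ≤ μ := by
      by_contra hc
      exact a5 ⟨by omega, by omega, by omega⟩
    have := P.idx 13 (m := l + 10) (by omega) (by omega) le_rfl (by push_cast; omega)
    exact ⟨l, by omega, by omega, a6, a3⟩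
  have g10 := P.gap (l + 10) (by omega) (by omega)
  have g11 := P.gap (l + 11) (by omega) (by omega)
  have s10 := P.span l0 10 (by omega)
  rw [show l + 10 + 1 = l + 11 from rfl] at g10
  rw [show l + 11 + 1 = l + 12 from rfl] at g11
  have hl : μ - ρ ≤ p l := by
    push_cast at s10
    omega
  have vf : ∀ i, i ≤ 8 → _ := fun i hi => S.vflip P hf heD (n := l + i) (by omega) (by omega)
    (hl.trans (P.le heD l0 (by omega) (by omega)))
    ((P.le heD (by omega) (by omega) (by omega)).trans l2)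
  obtain ⟨R, r1, r2, r3, r4⟩ : ∃ R, l + 10 ≤ R ∧ R ≤ l + 12 ∧
      2 * p R ≤ 2 * (2 * μ - p (l + 10)) + D + e ∧ 2 * (2 * μ - p (l + 10)) ≤ 2 * p R + D + e := by
    by_cases c1 : 2 * (2 * μ - p (l + 10)) ≤ 2 * p (l + 10) + D + e
    · exact ⟨l + 10, by omega, by omega, by omega, c1⟩
    by_cases c2 : 2 * (2 * μ - p (l + 10)) ≤ 2 * p (l + 11) + D + e
    · exact ⟨l + 11, by omega, by omega, by omega, c2⟩
    · exact ⟨l + 12, by omega, by omega, by omega, by omega⟩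
  have cl : ∀ t n, t ≤ 9 → n + t = l + 10 → 2 * p (R + t) ≤ 2 * (2 * μ - p n) + D + 40 * e ∧
      2 * (2 * μ - p n) ≤ 2 * p (R + t) + D + 40 * e := by
    intro t n ht hn
    have a1 := P.span (m := R) (by omega) t (by omega)
    have a2 := P.span (m := n) (by omega) t (by omega)
    rw [hn] at a2
    have : (t : ℤ) * e ≤ 9 * e := mul_le_mul_of_nonneg_right (by omega) (by positivity)
    omega
  have pr : ∀ j i, j + i = 7 →
      Y (R + j + 1 + 1) ^ sgn (R + j + 1 + 1) * Y (R + j + 1) ^ sgn (R + j + 1) =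
        f * (Y (l + i + 1) ^ sgn (l + i + 1))⁻¹ * f⁻¹ *
          (f * (Y (l + i + 1 + 1) ^ sgn (l + i + 1 + 1))⁻¹ * f⁻¹) := by
    intro j i e7
    have a1 := (P.flip1 (m := R + j) (by omega) (by omega)).1
    have a2 := (P.flip1 (m := R + j + 1) (by omega) (by omega)).1
    have b1 := vf (i + 1) (by omega)
    have b2 := vf i (by omega)
    have g1 := P.gap (R + j) (by omega) (by omega)
    have g2 := P.gap (R + j + 1) (by omega) (by omega)
    have g3 := P.gap (l + i + 1 + 1) (by omega) (by omega)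
    have g4 := P.gap (l + i + 1) (by omega) (by omega)
    have c := cl (j + 1) (l + i + 1 + 1) (by omega) (by omega)
    refine S.align hγ ap hD he a1 a2 b1 b2 g1 g2 ?_ ?_ c.1 c.2
      (P.le heD le_rfl (by omega) (by omega)) (P.le heD (by omega) (by omega) le_rfl)
    · rw [show l + (i + 1) + 2 = l + i + 1 + 1 + 1 from rfl,
        show l + (i + 1) + 1 = l + i + 1 + 1 from rfl]
      omega
    · rw [show l + (i + 1) + 1 = l + i + 1 + 1 from rfl]
      omega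
  have ra : ∀ j i, j + i = 6 → _ := fun j i e6 =>
    P.refl_alg tf csa ct hy (m := R + j + 1) (n := l + i + 1) (pr j (i + 1) (by omega))
      (pr (j + 1) i (by omega))
  by_cases hR : R = l + 11
  · exfalso
    have ne : ∀ j, j ≤ 6 → (R + j + 1) % 2 = 0 → sgn (R + j + 1 + 2) ≠ sgn (R + j + 1) := by
      intro j hj hp
      have := (ra j (6 - j) (by omega)).1
      have := sgn_odd (n := l + (6 - j) + 1) (by omega)
      have := sgn_cases (l + (6 - j) + 1)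
      omega
    rcases (by omega : (R + 0 + 1) % 2 = 0 ∨ (R + 1 + 1) % 2 = 0) with hp | hp
    · exact sgn_alt hp (ne 0 (by omega) hp) (ne 2 (by omega) (by omega))
        (ne 4 (by omega) (by omega))
    · exact sgn_alt hp (ne 1 (by omega) hp) (ne 3 (by omega) (by omega))
        (ne 5 (by omega) (by omega))
  obtain ⟨j, i, e6, hj, hp⟩ : ∃ j i, j + i = 6 ∧ j ≤ 1 ∧ (R + j + 1) % 2 = 1 := by
    rcases (by omega : (R + 0 + 1) % 2 = 1 ∨ (R + 1 + 1) % 2 = 1) with hp | hp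
    · exact ⟨0, 6, rfl, by omega, hp⟩
    · exact ⟨1, 5, rfl, by omega, hp⟩
  have cc : p (R + j + 2 + 1) + p (l + i + 1) ≤ 2 * μ + 2 * e ∧
      2 * μ ≤ p (R + j + 2 + 1) + p (l + i + 1) + 2 * e := by
    have w := (ra j i e6).2 hp
    have a1 := (P.flip1 (m := R + j + 2) (by omega) (by omega)).1
    have b1 := vf i (by omega)
    rw [← w] at b1
    have g1 := P.gap (R + j + 2) (by omega) (by omega)
    have g2 := P.gap (l + i + 1) (by omega) (by omega)
    rw [show l + i + 1 + 1 = l + i + 2 from rfl] at g2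
    have c := cl (j + 3) (l + i + 1) (by omega) (by omega)
    rw [show R + (j + 3) = R + j + 2 + 1 from rfl] at c
    have u1 := P.span (m := R + j + 2 + 1) (by omega) 3 (by omega)
    have u2 := P.le heD (m := R + j + 2 + 1 + 3) (by omega) (by omega) le_rfl
    have u3 := P.le heD le_rfl (n := l + 10) (by omega) (by omega)
    have u4 := P.span (m := l + 10) (by omega) 2 (by omega)
    have u5 := P.le heD (m := l + 10 + 2) (n := R + j + 2) (by omega) (by omega) (by omega)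
    push_cast at u1 u4
    obtain ⟨z, z1, z2, z3, z4⟩ : ∃ z : ℤ, p (R + j + 2) ≤ z ∧ z ≤ p (R + j + 2 + 1) ∧
        2 * μ - p (l + i + 2) + e ≤ z ∧ z ≤ 2 * μ - p (l + i + 1) := by
      rcases le_total (p (R + j + 2 + 1)) (2 * μ - p (l + i + 1)) with h | h
      · exact ⟨_, by omega, le_rfl, by omega, h⟩
      · exact ⟨_, by omega, h, by omega, le_rfl⟩
    have c1 := a1 z z1 z2
    have c2 := b1 z z3 z4
    have t1 := S.tri (γ (2 * p (R + j + 2 + 1) - z))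
      ((Y (R + j + 2 + 1) ^ sgn (R + j + 2 + 1)) • γ z) (γ (2 * (2 * μ - p (l + i + 1)) - z))
    rw [S.symm _ (_ • γ z)] at t1
    rw [show R + j + 1 + 2 = R + j + 2 + 1 from rfl] at c2
    have := hγ.ge (i := 2 * p (R + j + 2 + 1) - z) (j := 2 * (2 * μ - p (l + i + 1)) - z)
      (by omega) (by omega) (by omega) (by omega)
    omega
  obtain ⟨m, t, m1, m2, ht, m3, m4⟩ : ∃ m t, l ≤ m ∧ m ≤ l + 10 ∧ t ≤ 5 ∧
      l + i + 1 + t = m + 1 ∧ m + 1 + t = R + j + 2 + 1 := by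
    rcases (by omega : R = l + 10 ∨ R = l + 12) with h | h
    · exact ⟨l + 9, j + 3, by omega, by omega, by omega, by omega, by omega⟩
    · exact ⟨l + 10, j + 4, by omega, by omega, by omega, by omega, by omega⟩
  have a1 := P.span (m := l + i + 1) (by omega) t (by omega)
  have a2 := P.span (m := m + 1) (by omega) t (by omega)
  rw [m3] at a1
  rw [m4] at a2
  have : (t : ℤ) * e ≤ 5 * e := mul_le_mul_of_nonneg_right (by omega) (by positivity)
  have b1 : μ ≤ p (m + 1) + 6 * e := by omega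
  have b2 : p (m + 1) ≤ μ + 6 * e := by omega
  refine ⟨m + 1, by omega, by omega, ?_, b1, b2⟩
  have c1 := (P.flip1 (m := m) (by omega) (by omega)).1
  have g1 := P.gap m (by omega) (by omega)
  have u1 := P.le heD l0 m1 (by omega)
  have u2 := P.le heD le_rfl l0 (by omega)
  have u3 := P.le heD (m := m + 1) (by omega) (by omega) le_rfl
  clear * - S hγ ap c1 g1 u1 u2 u3 b1 b2 hf hl hD he
  exact S.eq_of_near hγ ap (i := p m) (j := p (m + 1) - 6 * e) (δ := 12 * e) (by omega) (by omega)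
    (by omega) (hf _ (by omega) (by omega)) (c1 _ le_rfl (by omega)) (hf _ (by omega) (by omega))
    (c1 _ (by omega) (by omega)) (by omega) (by omega) (by omega) (by omega)

end Pool.Agent.Lib.MP_429c3d_al.Ng
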