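import Pool.Agent.Lib.MP_429c3d_al.NxA
import Pool.Agent.Lib.MP_429c3d_al.NgLaw

set_option autoImplicit false
set_option linter.unusedSectionVars false

/-! Axes of elements with large displacement, tubes, acylindricity at all scales. -/

namespace Pool.Agent.Lib.MP_429c3d_al.Ng

open Hyp

variable {G X : Type} [Group G] [MulAction G X] {d : X → X → ℕ} {k : ℕ}

/-- `g` translates along `γ` by `t`. -/
def Tl (d : X → X → ℕ) (γ : ℤ → X) (e : ℕ) (g : G) (t a b : ℤ) : Prop :=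
  ∀ i, a ≤ i → i ≤ b → d (g • γ i) (γ (i + t)) ≤ e

/-- `g` reverses `γ`. -/
def Rv (d : X → X → ℕ) (γ : ℤ → X) (e : ℕ) (g : G) (s a b : ℤ) : Prop :=
  ∀ i, a ≤ i → i ≤ b → d (g • γ i) (γ (s - i)) ≤ e

/-- A long piece of an axis of `y`. -/
structure Ax (d : X → X → ℕ) (k : ℕ) (y : G) (x0 : X) (R : ℕ) (γ : ℤ → X) (ty : ℤ) : Prop where
  min : ∀ x, d x0 (y • x0) ≤ d x (y • x)
  big : 20 * k ≤ d x0 (y • x0)
  le : d x0 (y • x0) ≤ R
  gz : GZ d γ (-(11 * R)) (11 * R)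
  ctr : d x0 (γ 0) ≤ 5 * k
  tl : ∀ a : G, Commute a y → d x0 (a • x0) ≤ R →
    ∃ t : ℤ, -(R : ℤ) ≤ t ∧ t ≤ R ∧ Tl d γ (3 * k) a t (-(10 * R)) (10 * R)
  ty1 : (d x0 (y • x0) : ℤ) ≤ ty + 4 * k
  ty2 : ty ≤ d x0 (y • x0)
  tly : Tl d γ (3 * k) y ty (-(10 * R)) (10 * R)

theorem TF.zpow_eq (tf : TF G) {y : G} (hy : y ≠ 1) {i : ℤ} (h : y ^ i = 1) : i = 0 := by
  by_contra hi
  refine hy (tf y i.natAbs (by omega) ?_)
  rcases Int.natAbs_eq i with e | e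
  · rw [← zpow_natCast, ← e, h]
  · rw [← zpow_natCast, ← inv_eq_one, ← zpow_neg, ← e, h]

theorem conj_zpow_eq (tf : TF G) (csa : CSA G) {y g : G} (hy : y ≠ 1) {a b : ℤ}
    (h : g * y ^ a * g⁻¹ = y ^ b) : a = b := by
  by_cases ha : y ^ a = 1
  · rw [ha, mul_one, mul_inv_cancel] at h
    rw [tf.zpow_eq hy ha, tf.zpow_eq hy h.symm]
  · have c := csa (y ^ a) g ha (by rw [h]; exact Commute.zpow_zpow_self y b a)
    rw [c.eq, mul_inv_cancel_right] at h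
    have := tf.zpow_eq hy (i := a - b) (by rw [zpow_sub, h, mul_inv_cancel])
    omega

theorem sq_inj (tf : TF G) (ct : CT G) {a b : G} (ha : a ≠ 1) (h : a ^ 2 = b ^ 2) : a = b := by
  have c : Commute a b := ct a (a ^ 2) b (fun e => ha (tf a 2 (by omega) e))
    (Commute.self_pow a 2) (h ▸ Commute.pow_self b 2)
  have := tf (a * b⁻¹) 2 (by omega) (by rw [c.inv_right.mul_pow, h, inv_pow, mul_inv_cancel])
  exact mul_inv_eq_one.1 this

theorem conj_ne_one {a : G} (ha : a ≠ 1) (g : G) : g * a * g⁻¹ ≠ 1 := fun e =>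
  ha (by simpa [mul_assoc] using congrArg (fun z => g⁻¹ * z * g) e)

theorem commute_conj {a b : G} (h : Commute a b) (g : G) : Commute (g * a * g⁻¹) (g * b * g⁻¹) := by
  have := h.map (MulAut.conj g)
  simpa using this

theorem comm_conj_iff {a b : G} (g : G) : Commute (g * a * g⁻¹) (g * b * g⁻¹) ↔ Commute a b :=
  ⟨fun h => by simpa [mul_assoc] using commute_conj h g⁻¹, fun h => commute_conj h g⟩

theorem not_comm_cs (csa : CSA G) {y c : G} (h : ¬ Commute y c) (j : ℕ) :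
    ¬ Commute y (cs y c j) := by
  induction j with
  | zero => exact h
  | succ j ih =>
    intro hc
    have hy : y ≠ 1 := fun e => h (e ▸ Commute.one_left c)
    exact ih (csa y _ hy hc.symm).symm

namespace Sp

variable (S : Sp G d k)
include S

theorem comm_short {γ : ℤ → X} {e B : ℕ} {a b : G} {t t' lo hi i : ℤ} (ha : Tl d γ e a t lo hi)
    (hb : Tl d γ e b t' lo hi) (h1 : -(B : ℤ) ≤ t) (h2 : t ≤ B) (h3 : -(B : ℤ) ≤ t') (h4 : t' ≤ B)
    (h5 : lo + 2 * B ≤ i) (h6 : i + 2 * B ≤ hi) :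
    d (γ i) ((a * b * a⁻¹ * b⁻¹) • γ i) ≤ 4 * e := by
  have e1 := hb (i - t') (by omega) (by omega)
  have e2 := ha (i - t' - t) (by omega) (by omega)
  have e3 := hb (i - t' - t) (by omega) (by omega)
  have e4 := ha (i - t) (by omega) (by omega)
  rw [sub_add_cancel] at e1 e2 e4
  rw [show i - t' - t + t' = i - t by ring] at e3
  have m1 := S.mul_le (a * b * a⁻¹) b⁻¹ (γ i) (γ (i - t')) (γ i)
  have m2 := S.mul_le (a * b) a⁻¹ (γ (i - t')) (γ (i - t' - t)) (γ i)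
  have m3 := S.mul_le a b (γ (i - t' - t)) (γ (i - t)) (γ i)
  rw [S.inv_l, S.symm (γ i) (b • _)] at m1
  rw [S.inv_l, S.symm (γ (i - t')) (a • _)] at m2
  rw [S.symm]
  omega

theorem conj_short {a η : G} {x y : X} : d y ((a * η * a⁻¹) • y) ≤ d x (η • x) + 2 * d (a • x) y := by
  have := S.dis_move (a * η * a⁻¹) y (a • x)
  rwa [S.dis_conj, S.symm y (a • x)] at this

theorem ai_scale {A : ℕ} (ai : AI G d (100 * k) A) (csa : CSA G) (ct : CT G) {a b : G} {x x' : X}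
    {B : ℕ} (hab : ¬ Commute a b) (h1 : d x (a • x) ≤ B) (h2 : d x (b • x) ≤ B)
    (h3 : d x' (a • x') ≤ B) (h4 : d x' (b • x') ≤ B) : d x x' ≤ A + 8 * B := by
  by_contra hc
  obtain ⟨γ, hγ, g0, g1⟩ := exists_gz S.gr x x'
  obtain ⟨t, -, t1, t2, ht⟩ := S.trans_geo hγ a (s := B) (by rwa [g0]) (by rwa [g1]) (by omega)
  obtain ⟨t', -, t3, t4, ht'⟩ := S.trans_geo hγ b (s := B) (by rwa [g0]) (by rwa [g1]) (by omega)
  have Ta : Tl d γ (3 * k) a t B (d x x' - B) := fun i _ _ => ht i (by omega) (by omega)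
  have Tb : Tl d γ (3 * k) b t' B (d x x' - B) := fun i _ _ => ht' i (by omega) (by omega)
  have hη : a * b * a⁻¹ * b⁻¹ ≠ 1 := fun e => hab (by
    rw [mul_inv_eq_one, mul_inv_eq_iff_eq_mul] at e
    exact e)
  have sh : ∀ i : ℤ, 3 * B ≤ i → i + 3 * B ≤ d x x' →
      d (γ i) ((a * b * a⁻¹ * b⁻¹) • γ i) ≤ 4 * (3 * k) := fun i _ _ =>
    S.comm_short Ta Tb t1 t2 t3 t4 (by omega) (by omega)
  have key : ∀ (g : G) (s : ℤ), -(B : ℤ) ≤ s → s ≤ B → Tl d γ (3 * k) g s B (d x x' - B) →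
      Commute g (a * b * a⁻¹ * b⁻¹) := by
    intro g s s1 s2 hg
    refine csa _ g hη (not_not.1 fun hn => ?_)
    have sh' : ∀ i : ℤ, 4 * B ≤ i → i + 4 * B ≤ d x x' →
        d (γ i) ((g * (a * b * a⁻¹ * b⁻¹) * g⁻¹) • γ i) ≤ 100 * k := by
      intro i _ _
      have e1 := S.conj_short (a := g) (η := a * b * a⁻¹ * b⁻¹) (x := γ (i - s)) (y := γ i)
      have e2 := sh (i - s) (by omega) (by omega)
      have e3 := hg (i - s) (by omega) (by omega)
      rw [sub_add_cancel] at e3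
      omega
    have e1 := sh (4 * B) (by omega) (by omega)
    have e2 := sh (d x x' - 4 * B) (by omega) (by omega)
    have e3 := ai _ _ (γ (4 * B)) (γ (d x x' - 4 * B)) hn (sh' _ le_rfl (by omega)) (by omega)
      (sh' _ (by omega) (by omega)) (by omega)
    have := hγ.le (i := 4 * B) (j := d x x' - 4 * B) (by omega) (by omega) (by omega)
    omega
  exact hab (ct a _ b hη (key a t t1 t2 Ta) (key b t' t3 t4 Tb).symm)

theorem exists_ax {y : G} {x0 : X} (hm : ∀ x, d x0 (y • x0) ≤ d x (y • x))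
    (big : 20 * k ≤ d x0 (y • x0)) {R : ℕ} (hR : d x0 (y • x0) ≤ R) :
    ∃ γ ty, Ax d k y x0 R γ ty := by
  have kp := S.pos
  obtain ⟨N, hN⟩ : ∃ N, N = 12 * R := ⟨_, rfl⟩
  obtain ⟨p, hp⟩ : ∃ p, p = (y ^ N)⁻¹ • x0 := ⟨_, rfl⟩
  have cp : ∀ a : G, Commute a y → ∀ n : ℕ, d (y ^ n • p) (a • y ^ n • p) = d x0 (a • x0) := by
    intro a c n
    rw [S.dis_comm (c.symm.pow_left n), hp, S.dis_comm (c.symm.pow_left N).inv_left]
  have c0 : ∀ a : G, Commute a y → d p (a • p) = d x0 (a • x0) := fun a c => by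
    simpa using cp a c 0
  have B := broken_axis S.gr S.hyp S.inv (g := y) (y := p)
    (by rw [c0 y (Commute.refl y)]; exact hm) (by rw [c0 y (Commute.refl y)]; omega) (N + N)
  rw [c0 y (Commute.refl y)] at B
  have eN : y ^ N • p = x0 := by rw [hp, smul_inv_smul]
  have p1 := B.prod S.gr.met S.hyp (by omega) (i := 0) (j := N) (r := N + N) (by omega) (by omega)
    le_rfl
  have p2 := B.prod S.gr.met S.hyp (by omega) (i := 0) (j := 1) (r := N + N) (by omega) (by omega)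
    le_rfl
  have d1 := B.dist S.gr.met S.hyp (by omega) 0 N (by omega)
  have d2 := B.dist S.gr.met S.hyp (by omega) N N (by omega)
  simp only [pow_zero, one_smul, pow_one, zero_add, eN] at p1 p2 d1 d2
  have n1 : N * (2 * k + k) + N ≤ N * d x0 (y • x0) := by
    rw [← Nat.mul_succ]
    exact Nat.mul_le_mul_left _ (by omega)
  obtain ⟨q, hq⟩ : ∃ q, q = y ^ (N + N) • p := ⟨_, rfl⟩
  have cq : ∀ a : G, Commute a y → d q (a • q) = d x0 (a • x0) := fun a c => hq ▸ cp a c _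
  rw [← hq] at p1 p2 d2
  obtain ⟨γ, hγ, g0, g1⟩ := exists_gz S.gr p q
  obtain ⟨i0, i1, i2, i3⟩ := S.near_gz hγ (by omega) x0 (c := 4 * k) (by rw [g0, g1]; omega)
  have a1 := hγ.le le_rfl i1 i2
  have a2 := hγ.le i1 i2 le_rfl
  rw [g0] at a1
  rw [g1] at a2
  have t1 := S.tri p (γ i0) x0
  have t2 := S.tri x0 (γ i0) q
  have s1 := S.symm (γ i0) x0
  have tr : ∀ (a : G) (s : ℕ), Commute a y → d x0 (a • x0) ≤ s → s ≤ R →
      ∃ t : ℤ, t + d (a • p) q = d p q ∧ -(s : ℤ) ≤ t ∧ t ≤ s ∧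
        Tl d (fun i => γ (i + i0)) (3 * k) a t (-(10 * R)) (10 * R) := by
    intro a s c hs hs'
    obtain ⟨t, e1, e2, e3, e4⟩ := S.trans_geo hγ a (s := s) (by rw [g0, c0 a c]; exact hs)
      (by rw [g1, cq a c]; exact hs) (by omega)
    rw [g0, g1] at e1
    refine ⟨t, by omega, e2, e3, fun i _ _ => ?_⟩
    have := e4 (i + i0) (by omega) (by omega)
    simp only
    rwa [show i + t + i0 = i + i0 + t by ring]
  obtain ⟨ty, e1, e2, e3, e4⟩ := tr y _ (Commute.refl y) le_rfl hR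
  have s2 := S.symm (y • p) p
  have s3 := c0 y (Commute.refl y)
  refine ⟨fun i => γ (i + i0), ty, hm, big, hR, (hγ.shift i0).mono (by omega) (by omega),
    by simp only [zero_add]; omega, fun a c h => ?_, by omega, e3, e4⟩
  obtain ⟨t, -, e2, e3, e4⟩ := tr a R c h le_rfl
  exact ⟨t, e2, e3, e4⟩

variable {y : G} {x0 : X} {R : ℕ} {γ : ℤ → X} {ty : ℤ}

theorem ax_dis (H : Ax d k y x0 R γ ty) {i : ℤ} (h1 : -(10 * R : ℤ) ≤ i) (h2 : i ≤ 10 * R) :
    d (γ i) (y • γ i) ≤ d x0 (y • x0) + 3 * k := by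
  have e1 := H.tly i h1 h2
  have e2 := H.ty1
  have e3 := H.ty2
  have e4 := H.big
  have e5 := H.gz.lip' i (i + ty) (d x0 (y • x0)) (by omega) (by omega)
  have := S.tri (γ i) (γ (i + ty)) (y • γ i)
  have := S.symm (γ (i + ty)) (y • γ i)
  omega

theorem ax_ctr (H : Ax d k y x0 R γ ty) (i : ℤ) (r : ℕ) (h1 : -(r : ℤ) ≤ i) (h2 : i ≤ r) :
    d x0 (γ i) ≤ r + 5 * k := by
  have := H.ctr
  have := H.gz.lip' 0 i r (by omega) (by omega)
  have := S.tri x0 (γ 0) (γ i)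
  omega

/-- Points with small displacement are close to the axis. -/
theorem ax_near (H : Ax d k y x0 R γ ty) (u : X) (hu : d x0 u ≤ 8 * R) :
    ∃ i : ℤ, -(d x0 u + 8 * k : ℤ) ≤ i ∧ i ≤ d x0 u + 8 * k ∧
      2 * d u (γ i) + d x0 (y • x0) ≤ d u (y • u) + 19 * k ∧
      ∀ j : ℤ, -(11 * R : ℤ) ≤ j → j ≤ 11 * R →
        d u (γ i) + d (γ i) (γ j) ≤ d u (γ j) + 3 * k := by
  have kp := S.pos
  have e2 := H.ty1
  have e3 := H.ty2
  have e4 := H.big
  have e5 := H.le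
  obtain ⟨i, i1, i2, hi⟩ := S.gate_geo H.gz (by omega) u
  have a0 := hi 0 (by omega) (by omega)
  have a1 := H.gz.ge i1 i2 (j := 0) (by omega) (by omega)
  have a2 := H.ctr
  have a3 := S.tri u x0 (γ 0)
  have a4 := S.symm u x0
  refine ⟨i, by omega, by omega, ?_, fun j h1 h2 => (hi j h1 h2).trans (by omega)⟩
  have b1 := H.tly i (by omega) (by omega)
  have b2 := H.tly (i - ty) (by omega) (by omega)
  rw [sub_add_cancel] at b2
  have b3 := hi (i + ty) (by omega) (by omega)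
  have b4 := hi (i - ty) (by omega) (by omega)
  have b5 := H.gz.le (i := i) (j := i + ty) i1 (by omega) (by omega)
  have b6 := H.gz.le (i := i - ty) (j := i) (by omega) (by omega) i2
  have b7 := S.ax_dis H (i := i) (by omega) (by omega)
  have b8 := H.min (γ i)
  have t1 := S.tri u (y • γ i) (γ (i + ty))
  have t2 := S.tri (γ i) (γ (i + ty)) (y • γ i)
  have t3 := S.tri (y • γ (i - ty)) (γ i) (y • u)
  have s1 := S.symm (γ (i + ty)) (y • γ i)
  have s2 := S.symm (γ i) (γ (i - ty))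
  have s3 := S.symm u (γ (i - ty))
  have s4 := S.symm u (γ i)
  rw [S.inv] at t3
  have := gate_two S.gr.met S.hyp (v := u) (p := γ i) (p' := y • γ i) (v' := y • u) (e := 9 * k)
    (e' := 9 * k) (by omega) (by rw [S.inv]; omega) (by omega)
  rw [S.inv] at this
  omega

theorem ax_tl_le (H : Ax d k y x0 R γ ty) {a : G} {t : ℤ} (h1 : -(R : ℤ) ≤ t) (h2 : t ≤ R)
    (h : Tl d γ (3 * k) a t (-(10 * R)) (10 * R)) (x : X) :
    t ≤ d x (a • x) + 7 * k ∧ -t ≤ d x (a • x) + 7 * k := by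
  have e4 := H.big
  have e5 := H.le
  have := S.trans_le H.gz a (i := 0) (j := 7 * k + 1) (h _ (by omega) (by omega))
    (h _ (by have := S.pos; omega) (by have := S.pos; omega)) (by omega) (by omega)
    (by have := S.pos; omega) (by omega) (by have := S.pos; omega) x
  omega

/-- The centraliser has almost minimal displacement along the tube. -/
theorem tube {y z : G} {m : ℕ} (hm : ∀ x, m ≤ d x (y • x)) (big : 20 * k ≤ m) (c : Commute z y)
    (x x1 : X) : d x (z • x) + m ≤ d x1 (z • x1) + d x (y • x) + 30 * k := by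
  obtain ⟨x0, h0⟩ := exists_min d y x
  have e0 := hm x0
  obtain ⟨γ, ty, H⟩ := S.exists_ax h0 (by omega)
    (R := d x0 (y • x0) + d x0 x + d x0 (z • x0)) (by omega)
  obtain ⟨t, t1, t2, ht⟩ := H.tl z c (by omega)
  obtain ⟨i, i1, i2, i3, -⟩ := S.ax_near H x (by omega)
  have e1 := S.ax_tl_le H t1 t2 ht x1
  have e2 := ht i (by omega) (by omega)
  have e3 := H.gz.lip' i (i + t) (d x1 (z • x1) + 7 * k) (by omega) (by omega)
  have := S.dis_move z x (γ i)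
  have := S.tri (γ i) (γ (i + t)) (z • γ i)
  have := S.symm (γ (i + t)) (z • γ i)
  omega

/-- Normalisation by powers of a translation. -/
theorem ax_norm (H : Ax d k y x0 R γ ty) {z : G} {t : ℤ} (c : Commute z y) (h1 : -(R : ℤ) ≤ t)
    (h2 : t ≤ R) (h : Tl d γ (3 * k) z t (-(10 * R)) (10 * R)) {T : ℕ} (hT : (T : ℤ) = |t|)
    (h7 : 7 * k ≤ T) (u : X) (hu : d x0 u ≤ 3 * R) {l : ℤ} (l1 : -(2 * R : ℤ) ≤ l)
    (l2 : l ≤ 2 * R) : ∃ (n : ℤ) (j : ℤ), 2 * d (z ^ n • u) (γ j) + d x0 (y • x0) ≤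
      d u (y • u) + 19 * k ∧ 2 * j ≤ 2 * l + T + 6 * k ∧ 2 * l ≤ 2 * j + T + 6 * k := by
  classical
  have kp := S.pos
  have e4 := H.big
  have e5 := H.le
  have ex : ∃ m, ∃ n : ℤ, d (z ^ n • u) (γ l) = m := ⟨_, 0, rfl⟩
  obtain ⟨n, hn⟩ := Nat.find_spec ex
  have hm : ∀ n' : ℤ, d (z ^ n • u) (γ l) ≤ d (z ^ n' • u) (γ l) := fun n' =>
    hn ▸ Nat.find_min' ex ⟨n', rfl⟩
  have a0 := hm 0
  rw [zpow_zero, one_smul] at a0
  have a1 := S.ax_ctr H l (2 * R) (by omega) (by omega)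
  have t1 := S.tri u x0 (γ l)
  have t2 := S.tri x0 (γ l) (z ^ n • u)
  have s1 := S.symm u x0
  have s2 := S.symm (γ l) (z ^ n • u)
  obtain ⟨j, j1, j2, j3, j4⟩ := S.ax_near H (z ^ n • u) (by omega)
  rw [S.dis_comm (c.zpow_left n)] at j3
  have b1 := j4 l (by omega) (by omega)
  have b2 := H.gz.ge (i := j) (j := l) (by omega) (by omega) (by omega) (by omega)
  have c1 := hm (1 + n)
  have c2 := hm (-1 + n)
  rw [zpow_add, zpow_one] at c1
  rw [zpow_add, zpow_neg_one] at c2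
  have c3 := S.mul_le z (z ^ n) u (γ j) (γ l)
  have c4 := S.mul_le z⁻¹ (z ^ n) u (γ j) (γ l)
  have c5 := S.tri (z • γ j) (γ (j + t)) (γ l)
  have c6 := S.tri (z⁻¹ • γ j) (γ (j - t)) (γ l)
  have c7 := h j (by omega) (by omega)
  have c8 := h (j - t) (by omega) (by omega)
  rw [sub_add_cancel, S.symm, ← S.inv_l] at c8
  have c9 := H.gz.lip (j + t) l
  have c10 := H.gz.lip (j - t) l
  refine ⟨n, j, j3, ?_⟩
  rcases abs_cases t with q | q <;> rcases abs_cases (l - (j + t)) with q1 | q1 <;>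
    rcases abs_cases (l - (j - t)) with q2 | q2 <;> omega

theorem ax_norm' (H : Ax d k y x0 R γ ty) {z : G} {t : ℤ} (c : Commute z y) {r : ℕ}
    (hr : 20 * r ≤ R) (hk : 20 * k ≤ r) (h1 : -(r : ℤ) ≤ t) (h2 : t ≤ r)
    (h : Tl d γ (3 * k) z t (-(10 * R)) (10 * R)) {T : ℕ} (hT : (T : ℤ) = |t|) (h7 : 7 * k ≤ T)
    {α l : ℤ} (a1 : -(r : ℤ) ≤ α) (a2 : α ≤ r) (l1 : -(r : ℤ) ≤ l) (l2 : l ≤ r) :
    ∃ (a : G) (τ : ℤ), Commute a y ∧ Tl d γ (3 * k) a τ (-(10 * R)) (10 * R) ∧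
      2 * (α + τ) ≤ 2 * l + T + 34 * k ∧ 2 * l ≤ 2 * (α + τ) + T + 34 * k := by
  have b1 := S.ax_ctr H α r a1 a2
  obtain ⟨n, j, j1, j2, j3⟩ := S.ax_norm H c (by omega) (by omega) h hT h7 (γ α) (by omega)
    (l := l) (by omega) (by omega)
  have b2 := S.ax_dis H (i := α) (by omega) (by omega)
  have b3 : |t| ≤ r := abs_le.2 ⟨h1, h2⟩
  have b4 := H.gz.lip' α j (3 * r) (by omega) (by omega)
  have b5 := S.dis_move (z ^ n) x0 (γ α)
  have b6 := S.tri (γ α) (γ j) (z ^ n • γ α)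
  have b7 := S.symm (γ j) (z ^ n • γ α)
  obtain ⟨τ, t1, t2, ht⟩ := H.tl (z ^ n) (c.zpow_left n) (by omega)
  have b8 := ht α (by omega) (by omega)
  have b9 := H.gz.ge (i := j) (j := α + τ) (by omega) (by omega) (by omega) (by omega)
  have b10 := S.tri (γ j) (z ^ n • γ α) (γ (α + τ))
  exact ⟨z ^ n, τ, c.zpow_left n, ht, by omega, by omega⟩

theorem reset {γ δ : ℤ → X} {a b a' b' : ℤ} (hγ : GZ d γ a b) (hδ : GZ d δ a' b') {s : ℕ}
    (hab : a ≤ b) (hab' : a' ≤ b') (h0 : d (δ a') (γ a) ≤ s) (h1 : d (δ b') (γ b) ≤ s) :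
    ∃ τ : ℤ, a' + τ ≤ a + s ∧ a ≤ a' + τ + s ∧
      ∀ j, a' + s ≤ j → j + s ≤ b' → d (δ j) (γ (j + τ)) ≤ 3 * k := by
  have a3 := hγ.le le_rfl hab le_rfl
  have b3 := hδ.le le_rfl hab' le_rfl
  have t1 := S.tri (δ a') (γ a) (γ b)
  have t2 := S.tri (γ a) (δ a') (γ b)
  have t3 := S.tri (δ a') (γ b) (δ b')
  have s1 := S.symm (δ a') (γ a)
  have s2 := S.symm (δ b') (γ b)
  refine ⟨b - a' - d (δ a') (γ b), by omega, by omega, fun j _ _ => ?_⟩
  rw [S.symm]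
  exact S.sync hγ hδ (s := s) (s' := s) (by omega) (by omega) (by omega) (by omega) (by omega)
    (by omega) (by omega) (by omega) (by omega) (by omega)

theorem reset_tl {γ : ℤ → X} {a b lo hi α β : ℤ} (hγ : GZ d γ a b) {f : G} {s : ℕ} (h1 : a ≤ lo)
    (h2 : lo ≤ hi) (h3 : hi ≤ b) (h4 : a ≤ α) (h5 : α ≤ β) (h6 : β ≤ b)
    (e1 : d (f • γ lo) (γ α) ≤ s) (e2 : d (f • γ hi) (γ β) ≤ s) :
    ∃ τ : ℤ, lo + τ ≤ α + s ∧ α ≤ lo + τ + s ∧ Tl d γ (3 * k) f τ (lo + s) (hi - s) := by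
  obtain ⟨τ, t1, t2, ht⟩ := S.reset (hγ.mono h4 h6) (S.gz_smul (hγ.mono h1 h3) f) h5 h2 e1 e2
  exact ⟨τ, t1, t2, fun i _ _ => ht i (by omega) (by omega)⟩

theorem reset_rv {γ : ℤ → X} {a b lo hi α β : ℤ} (hγ : GZ d γ a b) {f : G} {s : ℕ} (h1 : a ≤ lo)
    (h2 : lo ≤ hi) (h3 : hi ≤ b) (h4 : a ≤ β) (h5 : β ≤ α) (h6 : α ≤ b)
    (e1 : d (f • γ lo) (γ α) ≤ s) (e2 : d (f • γ hi) (γ β) ≤ s) :
    ∃ σ : ℤ, σ ≤ lo + α + s ∧ lo + α ≤ σ + s ∧ Rv d γ (3 * k) f σ (lo + s) (hi - s) := by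
  obtain ⟨τ, t1, t2, ht⟩ := S.reset ((hγ.mono h4 h6).rev 0) (S.gz_smul (hγ.mono h1 h3) f)
    (by omega) h2 (by simpa using e1) (by simpa using e2)
  refine ⟨-τ, by omega, by omega, fun i _ _ => ?_⟩
  have := ht i (by omega) (by omega)
  rwa [show 0 - (i + τ) = -τ - i by ring] at this

theorem mu_le_of_pow (g : G) {j : ℕ} (hj : j ≠ 0) (x : X) :
    ∃ x0, d x0 (g • x0) ≤ d x (g ^ j • x) + 5 * k := by
  have kp := S.pos
  obtain ⟨x0, h0⟩ := exists_min d g x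
  refine ⟨x0, not_lt.1 fun hc => ?_⟩
  obtain ⟨N, hN⟩ : ∃ N, N = 2 * d x0 x + 1 := ⟨_, rfl⟩
  have B := broken_axis S.gr S.hyp S.inv h0 (by omega) (j * N)
  have d1 := B.dist S.gr.met S.hyp (by omega) 0 (j * N) (by omega)
  simp only [pow_zero, one_smul, zero_add] at d1
  have d2 := S.dis_move (g ^ (j * N)) x0 x
  have d3 := S.dis_pow (g ^ j) x N
  rw [← pow_mul] at d3
  have n1 : j * N * (2 * k + k + (d x (g ^ j • x) + 1)) ≤ j * N * d x0 (g • x0) :=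
    Nat.mul_le_mul_left _ (by omega)
  have n2 : N * (d x (g ^ j • x) + 1) ≤ j * N * (d x (g ^ j • x) + 1) :=
    Nat.mul_le_mul_right _ (Nat.le_mul_of_pos_left _ (by omega))
  rw [Nat.mul_add] at n1
  rw [Nat.mul_add] at n2
  omega

end Sp

end Pool.Agent.Lib.MP_429c3d_al.Ng
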