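import Pool.Agent.Lib.MP_429c3d_al.NxB
import Pool.Agent.Lib.MP_429c3d_al.NgTA

set_option autoImplicit false
set_option linter.unusedSectionVars false

/-! The algebraic invariants from a family of horoballs; reversals of an axis. -/

namespace Pool.Agent.Lib.MP_429c3d_al.Ng

open Hyp

variable {G X : Type} [Group G] [MulAction G X] {d : X → X → ℕ} {k A : ℕ}

/-- The standing assumptions with a positive hyperbolicity constant. -/
structure XS (G : Type) {X : Type} [Group G] [MulAction G X] (d : X → X → ℕ) (k A : ℕ) : Prop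
    extends Sp G d k where
  ne : Nonempty X
  tf : TF G
  csa : CSA G
  ct : CT G
  ai : AI G d (100 * k) A
  rc : RC G d (100 * k) A

theorem sp_of (gr : IsGr d) (hyp : Hyp4 d k) (iso : Isom G d) : Sp G d (k + 1) :=
  ⟨gr, hyp.mono (Nat.le_succ k), iso, Nat.le_add_left 1 k⟩

theorem AI.mono {B B' A A' : ℕ} (h : AI G d B A) (hB : B' ≤ B) (hA : A ≤ A') : AI G d B' A' :=
  fun a b x x' c h1 h2 h3 h4 =>
    (h a b x x' c (h1.trans hB) (h2.trans hB) (h3.trans hB) (h4.trans hB)).trans hA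

theorem XL.xs (h : XL G d k A) : XS G d (k + 1) A :=
  ⟨sp_of h.gr h.hyp h.iso, h.ne, h.tf, h.csa, h.ct, h.ai.mono (by unfold b1; omega) le_rfl,
    fun a y x x' h1 h2 h3 => h.rc a y x x' h1 h2 (h3.trans (by unfold b1; omega))⟩

namespace Sp

variable (S : Sp G d k)
include S

theorem comm_lox {y a b : G} (hy : ∀ x, 20 * k ≤ d x (y • x)) (x : X) (ha : Commute a y)
    (hb : Commute b y) : ∃ x, d x ((a * b * a⁻¹ * b⁻¹) • x) ≤ 12 * k := by
  obtain ⟨x0, h0⟩ := exists_min d y x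
  obtain ⟨γ, ty, H⟩ := S.exists_ax h0 (hy x0)
    (R := d x0 (y • x0) + d x0 (a • x0) + d x0 (b • x0)) (by omega)
  obtain ⟨t, t1, t2, ht⟩ := H.tl a ha (by omega)
  obtain ⟨t', t3, t4, ht'⟩ := H.tl b hb (by omega)
  exact ⟨γ 0, (S.comm_short ht ht' t1 t2 t3 t4 (by omega) (by omega)).trans (by omega)⟩

theorem comm_lox₂ (ai : AI G d (100 * k) A) {y a b a' b' : G} (hy : ∀ x, 20 * k ≤ d x (y • x))
    (x : X) (ha : Commute a y) (hb : Commute b y) (ha' : Commute a' y) (hb' : Commute b' y) :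
    Commute (a * b * a⁻¹ * b⁻¹) (a' * b' * a'⁻¹ * b'⁻¹) := by
  obtain ⟨x0, h0⟩ := exists_min d y x
  obtain ⟨R, hR⟩ : ∃ R, R = d x0 (y • x0) + d x0 (a • x0) + d x0 (b • x0) + d x0 (a' • x0) +
    d x0 (b' • x0) + A + 1 := ⟨_, rfl⟩
  obtain ⟨γ, ty, H⟩ := S.exists_ax h0 (hy x0) (R := R) (by omega)
  obtain ⟨t, t1, t2, ht⟩ := H.tl a ha (by omega)
  obtain ⟨t', t3, t4, ht'⟩ := H.tl b hb (by omega)
  obtain ⟨s, s1, s2, hs⟩ := H.tl a' ha' (by omega)
  obtain ⟨s', s3, s4, hs'⟩ := H.tl b' hb' (by omega)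
  by_contra hn
  have := ai _ _ (γ 0) (γ R) hn
    ((S.comm_short ht ht' t1 t2 t3 t4 (by omega) (by omega)).trans (by omega))
    ((S.comm_short hs hs' s1 s2 s3 s4 (by omega) (by omega)).trans (by omega))
    ((S.comm_short ht ht' t1 t2 t3 t4 (by omega) (by omega)).trans (by omega))
    ((S.comm_short hs hs' s1 s2 s3 s4 (by omega) (by omega)).trans (by omega))
  have := H.gz.le (i := 0) (j := R) (by omega) (by omega) (by omega)
  omega

theorem conj_lox {y g : G} (hy : ∀ x, 20 * k ≤ d x (y • x)) (x : X)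
    (c : Commute (g * y * g⁻¹) y) : (∃ x, d x ((g * y * g⁻¹ * y⁻¹) • x) ≤ 20 * k) ∨
      ∃ x, d x ((g * y * g⁻¹ * y) • x) ≤ 20 * k := by
  obtain ⟨x0, h0⟩ := exists_min d y x
  obtain ⟨R, hR⟩ : ∃ R, R = d x0 (y • x0) + d x0 ((g * y * g⁻¹) • x0) := ⟨_, rfl⟩
  obtain ⟨γ, ty, H⟩ := S.exists_ax h0 (hy x0) (R := R) (by omega)
  obtain ⟨t, t1, t2, ht⟩ := H.tl _ c (by omega)
  have e1 := S.ax_tl_le H t1 t2 ht (g • x0)
  rw [S.dis_conj] at e1
  have e2 := H.ty1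
  have e3 := H.ty2
  have e4 := H.big
  have e5 := ht 0 (by omega) (by omega)
  have e6 := h0 (g⁻¹ • γ 0)
  rw [← S.dis_conj'] at e6
  have e7 := S.tri (γ 0) (γ (0 + t)) ((g * y * g⁻¹) • γ 0)
  have e8 := S.symm (γ (0 + t)) ((g * y * g⁻¹) • γ 0)
  rcases le_total 0 t with h | h
  · refine Or.inl ⟨γ ty, ?_⟩
    have a1 := S.mul_le (g * y * g⁻¹) y⁻¹ (γ ty) (γ 0) (γ ty)
    have a2 := H.tly 0 (by omega) (by omega)
    have a3 := S.tri ((g * y * g⁻¹) • γ 0) (γ (0 + t)) (γ ty)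
    have a4 := H.gz.le (i := 0) (j := 0 + t) (by omega) (by omega) (by omega)
    have a5 := H.gz.lip' (0 + t) ty (11 * k) (by omega) (by omega)
    rw [zero_add] at a2
    rw [S.inv_l, S.symm (γ ty) (y • _)] at a1
    rw [S.symm]
    omega
  · refine Or.inr ⟨γ (-ty), ?_⟩
    have a1 := S.mul_le (g * y * g⁻¹) y (γ (-ty)) (γ 0) (γ (-ty))
    have a2 := H.tly (-ty) (by omega) (by omega)
    have a3 := S.tri ((g * y * g⁻¹) • γ 0) (γ (0 + t)) (γ (-ty))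
    have a4 := H.gz.le (i := 0 + t) (j := 0) (by omega) (by omega) (by omega)
    have a5 := H.gz.lip' (0 + t) (-ty) (11 * k) (by rw [S.symm] at a4; omega)
      (by rw [S.symm] at a4; omega)
    rw [neg_add_cancel] at a2
    rw [S.symm]
    omega

theorem gen_alg {Ω : Type} [MulAction G Ω] {P : ℕ} (ai : AI G d (100 * k) A) (x : X)
    (comm : ∀ (a b : G) (ω : Ω), a • ω = ω → b • ω = ω → Commute a b)
    (tf : ∀ (a : G) (ω : Ω) (n : ℕ), a • ω = ω → n ≠ 0 → a ^ n = 1 → a = 1) (two : Free2 G Ω)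
    (di : ∀ a : G, (∀ ω : Ω, a • ω ≠ ω) → a ≠ 1 → ∀ x : X, 100 * k ≤ d x (a ^ P • x)) :
    TF G ∧ CT G ∧ CSA G := by
  have kp := S.pos
  have fx : ∀ (a g : G) (ω : Ω), a ≠ 1 → a • ω = ω → Commute g a → g • ω = ω := by
    intro a g ω h1 h2 c
    by_contra hn
    exact h1 (two a _ _ (by rw [smul_smul, ← c.eq, mul_smul, h2]) h2 hn)
  have TFG : TF G := by
    intro g n hn hg
    by_contra h1
    by_cases hf : ∃ ω : Ω, g • ω = ω
    · obtain ⟨ω, h⟩ := hf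
      exact h1 (tf g ω n h hn hg)
    · obtain ⟨x0, h0⟩ := S.mu_le_of_pow (g ^ P) hn x
      rw [← pow_mul, mul_comm, pow_mul, hg, one_pow, one_smul, S.self] at h0
      have := di g (fun ω h => hf ⟨ω, h⟩) h1 x0
      omega
  have triv : ∀ b μ : G, (∀ ω : Ω, b • ω ≠ ω) → b ≠ 1 → Commute μ (b ^ P) →
      (∃ x, d x (μ ^ P • x) ≤ 20 * k) → μ = 1 := by
    rintro b μ h1 h2 c ⟨x, hx⟩
    by_contra h3
    have h4 : b ^ P ≠ 1 := fun e => by
      have := di b h1 h2 x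
      rw [e, one_smul, S.self] at this
      omega
    have := di μ (fun ω h => h1 ω (fx _ _ ω h4 (fx _ _ ω h3 h c.symm) (Commute.self_pow b P))) h3 x
    omega
  have CTG : CT G := by
    intro a b c hb h1 h2
    by_cases hf : ∃ ω : Ω, b • ω = ω
    · obtain ⟨ω, h⟩ := hf
      exact comm a c ω (fx b a ω hb h h1) (fx b c ω hb h h2.symm)
    have hf' : ∀ ω : Ω, b • ω ≠ ω := fun ω h => hf ⟨ω, h⟩
    have hy : ∀ x, 20 * k ≤ d x (b ^ P • x) := fun x => le_trans (by omega) (di b hf' hb x)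
    have ca := h1.pow_right P
    have cc := h2.symm.pow_right P
    have cη : Commute (a * c * a⁻¹ * c⁻¹) (b ^ P) :=
      ((ca.mul_left cc).mul_left ca.inv_left).mul_left cc.inv_left
    have key : ∀ h : G, Commute h (b ^ P) → Commute h (a * c * a⁻¹ * c⁻¹) := by
      intro h ch
      have e1 := S.comm_lox₂ ai hy x ((ch.mul_left ca).mul_left ch.inv_left)
        ((ch.mul_left cc).mul_left ch.inv_left) ca cc
      rw [show h * a * h⁻¹ * (h * c * h⁻¹) * (h * a * h⁻¹)⁻¹ * (h * c * h⁻¹)⁻¹ =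
        h * (a * c * a⁻¹ * c⁻¹) * h⁻¹ by group] at e1
      obtain ⟨x, hx⟩ := S.comm_lox hy x ch (cη.pow_left P)
      have := triv b (h * (a * c * a⁻¹ * c⁻¹) * h⁻¹ * (a * c * a⁻¹ * c⁻¹)⁻¹) hf' hb
        (((ch.mul_left cη).mul_left ch.inv_left).mul_left cη.inv_left)
        ⟨x, by rw [e1.inv_right.mul_pow, conj_pow, inv_pow]; omega⟩
      rw [mul_inv_eq_one, mul_inv_eq_iff_eq_mul] at this
      exact this
    obtain ⟨x, hx⟩ := S.comm_lox hy x (ca.pow_left P) cc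
    have e1 : (a * c * a⁻¹ * c⁻¹) ^ P = a ^ P * c * (a ^ P)⁻¹ * c⁻¹ := by
      have e2 : c * a⁻¹ * c⁻¹ = a⁻¹ * (a * c * a⁻¹ * c⁻¹) := by group
      have e3 := congrArg (· ^ P) e2
      simp only [conj_pow, (key a ca).inv_left.mul_pow] at e3
      rw [inv_pow] at e3
      rw [mul_assoc (a ^ P), mul_assoc (a ^ P), e3, mul_inv_cancel_left]
    have := triv b _ hf' hb cη ⟨x, by rw [e1]; omega⟩
    rw [mul_inv_eq_one, mul_inv_eq_iff_eq_mul] at this
    exact this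
  refine ⟨TFG, CTG, fun a g ha c => ?_⟩
  by_cases hf : ∃ ω : Ω, a • ω = ω
  · obtain ⟨ω, h⟩ := hf
    have e1 := fx a _ ω ha h c
    have e2 : g • ω = ω := by
      by_contra hn
      exact conj_ne_one ha g (two _ _ _ (by rw [smul_smul, inv_mul_cancel_right, mul_smul, h])
        e1 hn)
    exact comm g a ω e2 h
  have hf' : ∀ ω : Ω, a • ω ≠ ω := fun ω h => hf ⟨ω, h⟩
  have hy : ∀ x, 20 * k ≤ d x (a ^ P • x) := fun x => le_trans (by omega) (di a hf' ha x)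
  have c1 : Commute (g * a ^ P * g⁻¹) (a ^ P) := by rw [← conj_pow]; exact c.pow_pow P P
  rcases S.conj_lox hy x c1 with h | h
  · have := triv a (g * a * g⁻¹ * a⁻¹) hf' ha
      ((c.mul_left (Commute.refl a).inv_left).pow_right P)
      (by rw [c.inv_right.mul_pow, conj_pow, inv_pow]; exact h)
    rw [mul_inv_eq_one, mul_inv_eq_iff_eq_mul] at this
    exact this
  · have := triv a (g * a * g⁻¹ * a) hf' ha ((c.mul_left (Commute.refl a)).pow_right P)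
      (by rw [c.mul_pow, conj_pow]; exact h)
    have e1 : g * a * g⁻¹ = a⁻¹ := mul_eq_one_iff_eq_inv.1 this
    by_cases hg : g = 1
    · rw [hg]; exact Commute.one_left a
    refine CTG g (g ^ 2) a (fun e => hg (TFG g 2 (by omega) e)) (Commute.self_pow g 2) ?_
    have e2 : g ^ 2 * a = g * (g * a * g⁻¹) * g⁻¹ * g ^ 2 := by simp [pow_two, mul_assoc]
    rw [e1, show g * a⁻¹ * g⁻¹ = (g * a * g⁻¹)⁻¹ by group, e1, inv_inv] at e2
    exact e2

end Sp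

namespace XS

variable (S : XS G d k A)
include S

theorem ai_sc {a b : G} {x x' : X} {B : ℕ} (hab : ¬ Commute a b) (h1 : d x (a • x) ≤ B)
    (h2 : d x (b • x) ≤ B) (h3 : d x' (a • x') ≤ B) (h4 : d x' (b • x') ≤ B) :
    d x x' ≤ A + 8 * B := S.toSp.ai_scale S.ai S.csa S.ct hab h1 h2 h3 h4

theorem rev0 {γ : ℤ → X} {a b lo hi σ : ℤ} (hγ : GZ d γ a b) {f : G} {e : ℕ} (he : e ≤ 40 * k)
    (h1 : a ≤ lo) (h2 : hi ≤ b) (h : Rv d γ e f σ lo hi) :
    σ ≤ 2 * lo + A + 2 * e + 3 ∨ 2 * hi ≤ σ + A + 2 * e + 3 := by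
  by_contra hc
  obtain ⟨ρ, hρ⟩ : ∃ ρ : ℤ, ρ = (A + 2 * e + 3) / 2 := ⟨_, rfl⟩
  obtain ⟨c, hc'⟩ : ∃ c : ℤ, c = σ / 2 := ⟨_, rfl⟩
  have e1 := h (c - ρ) (by omega) (by omega)
  have e2 := h (σ - (c - ρ)) (by omega) (by omega)
  have e3 := h c (by omega) (by omega)
  rw [sub_sub_cancel] at e2
  have e4 := S.mul_le f f (γ (c - ρ)) (γ (σ - (c - ρ))) (γ (c - ρ))
  have e5 := hγ.le (i := c - ρ) (j := σ - (c - ρ)) (by omega) (by omega) (by omega)
  have e6 := hγ.lip' c (σ - c) 1 (by omega) (by omega)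
  have t1 := S.tri (γ (c - ρ)) (f • γ (c - ρ)) (γ (σ - (c - ρ)))
  have t2 := S.tri (γ c) (γ (σ - c)) (f • γ c)
  have s1 := S.symm (γ (σ - c)) (f • γ c)
  by_cases hf : f * f = 1
  · have := S.tf f 2 (by omega) (by rwa [pow_two])
    rw [this, one_smul] at e1
    omega
  · have := S.rc (f * f) f (γ (c - ρ)) (γ c) hf ((Commute.refl f).mul_left (Commute.refl f))
      (by rw [S.symm]; omega)
    omega

/-- The centre of a reversal is not inside its range. -/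
theorem cent {γ : ℤ → X} {a b lo hi α β : ℤ} (hγ : GZ d γ a b) {f : G} {s : ℕ} (h1 : a ≤ lo)
    (h2 : lo ≤ hi) (h3 : hi ≤ b) (h4 : a ≤ β) (h5 : β ≤ α) (h6 : α ≤ b)
    (e1 : d (f • γ lo) (γ α) ≤ s) (e2 : d (f • γ hi) (γ β) ≤ s) :
    α ≤ lo + A + 3 * s + 10 * k ∨ 2 * hi ≤ lo + α + A + 3 * s + 10 * k := by
  obtain ⟨σ, s1, s2, h⟩ := S.reset_rv hγ h1 h2 h3 h4 h5 h6 e1 e2
  have := S.rev0 hγ (by omega) (by omega) (by omega) h
  have := S.pos
  omega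

/-- The range of a reversal is at most half a period. -/
theorem rev_le {y : G} {x0 : X} {R : ℕ} {γ : ℤ → X} {ty : ℤ} (H : Ax d k y x0 R γ ty) {z : G}
    {t : ℤ} (c : Commute z y) {r : ℕ} (hr : 20 * r ≤ R) (hk : 20 * k ≤ r) (h1 : -(r : ℤ) ≤ t)
    (h2 : t ≤ r) (h : Tl d γ (3 * k) z t (-(10 * R)) (10 * R)) {T : ℕ} (hT : (T : ℤ) = |t|)
    (h7 : 7 * k ≤ T) {lo hi α β : ℤ} (a1 : -(r : ℤ) ≤ lo) (a2 : lo ≤ hi) (a3 : hi ≤ r)
    (a4 : -(r : ℤ) ≤ β) (a5 : β ≤ α) (a6 : α ≤ r) {f : G} {s : ℕ} (e1 : d (f • γ lo) (γ α) ≤ s)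
    (e2 : d (f • γ hi) (γ β) ≤ s) : 2 * (hi - lo) ≤ T + 2 * A + 6 * s + 80 * k := by
  by_contra hc
  have b3 : |t| ≤ r := abs_le.2 ⟨h1, h2⟩
  obtain ⟨a, τ, ca, ht, t1, t2⟩ := S.ax_norm' H c hr hk h1 h2 h hT h7 (α := α) (l := hi)
    (by omega) a6 (by omega) a3
  have m1 := S.mul_le a f (γ lo) (γ α) (γ (α + τ))
  have m2 := S.mul_le a f (γ hi) (γ β) (γ (β + τ))
  have m3 := ht α (by omega) (by omega)
  have m4 := ht β (by omega) (by omega)
  have := S.cent H.gz (f := a * f) (s := s + 3 * k) (lo := lo) (hi := hi) (α := α + τ)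
    (β := β + τ) (by omega) a2 (by omega) (by omega) (by omega) (by omega) (by omega) (by omega)
  omega

end XS

end Pool.Agent.Lib.MP_429c3d_al.Ng
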