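import Pool.Agent.Lib.MP_429c3d_al.NxC

set_option autoImplicit false
set_option linter.unusedSectionVars false

/-! Bridges between short sets, chains of bridges, doubling. -/

namespace Pool.Agent.Lib.MP_429c3d_al.Ng

open Hyp

variable {G X : Type} [Group G] [MulAction G X] {d : X → X → ℕ} {k A K e : ℕ}

/-- The short sets of `y` and `c` are far apart. -/
def Fa (d : X → X → ℕ) (K D : ℕ) (y c : G) : Prop :=
  ∀ u w, d u (y • u) ≤ K → d w (c • w) ≤ K → D ≤ d u w

/-- A bridge from the short set of `y` to the short set of `c`. -/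
structure Br (d : X → X → ℕ) (k K e : ℕ) (y c : G) (x x' : X) : Prop where
  g0 : Gt d K e y x' x
  g1 : Gt d K e c x x'
  l0 : ∀ a : G, a ≠ 1 → Commute a y → 100 * k ≤ d x (a • x)
  l1 : ∀ a : G, a ≠ 1 → Commute a c → 100 * k ≤ d x' (a • x')
  len : 100 * k ≤ d x x'
  ny : y ≠ 1
  nc : c ≠ 1

/-- The next oriented edge. -/
def Succ (y c : G) (E E' : G × Bool) : Prop :=
  E'.2 = !E.2 ∧ E.1⁻¹ * E'.1 ≠ 1 ∧ Commute (E.1⁻¹ * E'.1) (cond E'.2 c y)

/-- Reduced paths of oriented edges. -/
def Reach (y c : G) : G × Bool → G × Bool → Prop := Relation.ReflTransGen (Succ y c)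

/-- The tail of an oriented edge. -/
def tl (x x' : X) (E : G × Bool) : X := E.1 • cond E.2 x' x

/-- The head of an oriented edge. -/
def hd (x x' : X) (E : G × Bool) : X := E.1 • cond E.2 x x'

/-- The reversed edge. -/
def rv (E : G × Bool) : G × Bool := (E.1, !E.2)

/-- `v` lies behind the edge. -/
def Beh (d : X → X → ℕ) (κ : ℕ) (x x' v : X) (E : G × Bool) : Prop :=
  d v (tl x x' E) + d (tl x x' E) (hd x x' E) ≤ d v (hd x x' E) + κ

/-- The far end of the bridge of level `j`. -/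
def lx (y c : G) (x x' : X) : ℕ → X
  | 0 => x'
  | j + 1 => cs y c j • x

variable {y c : G} {x x' : X}

theorem lx_succ (j : ℕ) : lx y c x x' (j + 1) = cs y c j • x := rfl

theorem tl_rv (E : G × Bool) : tl x x' (rv E) = hd x x' E := by
  obtain ⟨h, s⟩ := E
  cases s <;> rfl

theorem hd_rv (E : G × Bool) : hd x x' (rv E) = tl x x' E := by
  obtain ⟨h, s⟩ := E
  cases s <;> rfl

theorem rv_rv (E : G × Bool) : rv (rv E) = E := by simp [rv]

theorem Succ.rv {E E' : G × Bool} (h : Succ y c E E') : Succ y c (rv E') (rv E) := by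
  obtain ⟨h1, h2, h3⟩ := h
  refine ⟨by simp [Ng.rv, h1], fun e => h2 ?_, ?_⟩
  · rw [← inv_eq_one, mul_inv_rev, inv_inv]
    exact e
  · have := h3.inv_left
    rw [mul_inv_rev, inv_inv, h1] at this
    exact this

theorem Succ.mul {E E' : G × Bool} (h : Succ y c E E') (g : G) :
    Succ y c (g * E.1, E.2) (g * E'.1, E'.2) := by
  have : (g * E.1)⁻¹ * (g * E'.1) = E.1⁻¹ * E'.1 := by group
  exact ⟨h.1, by rw [this]; exact h.2.1, by rw [this]; exact h.2.2⟩

theorem succ_mk (h a : G) (s : Bool) (h1 : a ≠ 1) (h2 : Commute a (cond (!s) c y)) :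
    Succ y c (h, s) (h * a, !s) :=
  ⟨rfl, by simpa using h1, by simpa using h2⟩

theorem Reach.rv {E E' : G × Bool} (h : Reach y c E E') : Reach y c (rv E') (rv E) := by
  induction h with
  | refl => exact .refl
  | tail _ h ih => exact .head h.rv ih

theorem Reach.mul {E E' : G × Bool} (h : Reach y c E E') (g : G) :
    Reach y c (g * E.1, E.2) (g * E'.1, E'.2) := by
  induction h with
  | refl => exact .refl
  | tail _ h ih => exact .tail ih (h.mul g)

theorem reach_cs (hy : y ≠ 1) (hc : c ≠ 1) (j : ℕ) : Reach y c (1, false) (cs y c j, true) := by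
  induction j with
  | zero => exact .single (by simpa [cs] using succ_mk 1 c false hc (Commute.refl c))
  | succ j ih =>
    have h1 : Succ y c (cs y c j, true) (cs y c j * y, false) :=
      succ_mk _ y true hy (Commute.refl y)
    have h2 := ih.rv.mul (cs y c j * y * (cs y c j)⁻¹)
    simp only [rv, inv_mul_cancel_right, mul_one, Bool.not_true, Bool.not_false] at h2
    exact (ih.tail h1).trans h2

theorem Br.symm (m : IsMet d) (B : Br d k K e y c x x') : Br d k K e c y x' x :=
  ⟨B.g1, B.g0, B.l1, B.l0, m.symm x x' ▸ B.len, B.nc, B.ny⟩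

theorem Br.mono {e' : ℕ} (B : Br d k K e y c x x') (h : e ≤ e') : Br d k K e' y c x x' :=
  ⟨B.g0.mono h, B.g1.mono h, B.l0, B.l1, B.len, B.ny, B.nc⟩

namespace Sp

variable (S : Sp G d k)
include S

theorem br_conj (B : Br d k K e y c x x') (g : G) :
    Br d k K e (g * y * g⁻¹) (g * c * g⁻¹) (g • x) (g • x') := by
  have key : ∀ (y : G) (x : X), (∀ a : G, a ≠ 1 → Commute a y → 100 * k ≤ d x (a • x)) →
      ∀ a : G, a ≠ 1 → Commute a (g * y * g⁻¹) → 100 * k ≤ d (g • x) (a • g • x) := by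
    intro y x h a h1 h2
    have := h (g⁻¹ * a * g⁻¹⁻¹) (conj_ne_one h1 _)
      (by simpa [mul_assoc] using commute_conj h2 g⁻¹)
    rwa [S.dis_conj', inv_inv] at this
  exact ⟨S.gt_conj B.g0 g, S.gt_conj B.g1 g, key y x B.l0, key c x' B.l1, by rw [S.inv]; exact B.len,
    conj_ne_one B.ny g, conj_ne_one B.nc g⟩

theorem edge_len (E : G × Bool) : d (tl x x' E) (hd x x' E) = d x x' := by
  obtain ⟨h, s⟩ := E
  cases s
  · exact S.inv h x x'
  · exact (S.inv h x' x).trans (S.symm _ _)

theorem beh_tl (κ : ℕ) (E : G × Bool) : Beh d κ x x' (tl x x' E) E := by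
  unfold Beh
  rw [S.self]
  omega

theorem turn (B : Br d k K e y c x x') (he : e ≤ 40 * k) {v : X} {g a : G} (h1 : a ≠ 1)
    (h2 : Commute a c) (hv : d v (g • x) + d (g • x) (g • x') ≤ d v (g • x') + (e + k)) :
    d v (g • x') + d (g • x') ((g * a) • x') ≤ d v ((g * a) • x') + (e + k) ∧
      d v ((g * a) • x') + d ((g * a) • x') ((g * a) • x) ≤ d v ((g * a) • x) + (e + k) := by
  have kp := S.pos
  have l := B.len
  have l1 := B.l1 a h1 h2
  have c1 := B.g1.gate (a • x') (by rw [S.dis_comm h2]; exact B.g1.sh)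
  have c2 := B.g1.gate (a⁻¹ • x') (by rw [S.dis_comm h2.inv_left]; exact B.g1.sh)
  rw [S.inv_r a x' x', S.inv_r a x x', S.symm (a • x') x', S.symm (a • x) x'] at c2
  have e1 := gate_step S.gr.met S.hyp (r := (g * a) • x') (e' := e) hv
    (by simp only [mul_smul, S.inv g]; exact c1) (by rw [S.inv]; omega)
  refine ⟨e1, gate_step S.gr.met S.hyp (e' := e) e1 ?_ ?_⟩
  · simp only [mul_smul, S.inv g, S.inv a]
    rw [S.symm x' x]
    omega
  · simp only [mul_smul, S.inv g]
    omega

theorem beh_succ (B : Br d k K e y c x x') (he : e ≤ 40 * k) {v : X} {E E' : G × Bool}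
    (h : Succ y c E E') (hv : Beh d (e + k) x x' v E) : Beh d (e + k) x x' v E' ∧
      d v (hd x x' E) + d (hd x x' E) (tl x x' E') ≤ d v (tl x x' E') + (e + k) := by
  obtain ⟨g, s⟩ := E
  obtain ⟨g', s'⟩ := E'
  obtain ⟨h1, h2, h3⟩ := h
  simp only at h1 h2 h3
  subst h1
  obtain ⟨a, rfl⟩ : ∃ a, g' = g * a := ⟨g⁻¹ * g', by group⟩
  rw [inv_mul_cancel_left] at h2 h3
  cases s
  · exact (S.turn B he h2 h3 hv).symm
  · exact (S.turn (B.symm S.gr.met) he h2 h3 hv).symm

theorem beh_reach (B : Br d k K e y c x x') (he : e ≤ 40 * k) {v : X} {E E' : G × Bool}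
    (h : Reach y c E E') (hv : Beh d (e + k) x x' v E) : Beh d (e + k) x x' v E' := by
  induction h with
  | refl => exact hv
  | tail _ h ih => exact (S.beh_succ B he h ih).1

theorem beh_two (B : Br d k K e y c x x') (he : e ≤ 40 * k) {v v' : X} {E : G × Bool}
    (hv : Beh d (e + k) x x' v E) (hv' : Beh d (e + k) x x' v' (rv E)) :
    d v (tl x x' E) + d x x' + d (hd x x' E) v' ≤ d v v' + (2 * e + 3 * k) := by
  have kp := S.pos
  have l := B.len
  unfold Beh at hv hv'
  rw [tl_rv, hd_rv] at hv'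
  have e0 := S.edge_len (x := x) (x' := x') E
  have := gate_two S.gr.met S.hyp (v' := v') (e' := e + k) hv
    (by rw [S.symm (hd x x' E) v', S.symm (tl x x' E) v', S.symm (tl x x' E)]; omega) (by omega)
  omega

/-- An edge of a reduced path lies between the end points of the path. -/
theorem reach_btw (B : Br d k K e y c x x') (he : e ≤ 40 * k) {E0 E E1 : G × Bool}
    (h0 : Reach y c E0 E) (h1 : Reach y c E E1) :
    d (tl x x' E0) (tl x x' E) + d x x' + d (hd x x' E) (hd x x' E1) ≤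
      d (tl x x' E0) (hd x x' E1) + (2 * e + 3 * k) :=
  S.beh_two B he (S.beh_reach B he h0 (S.beh_tl _ _))
    (S.beh_reach B he h1.rv (tl_rv (x := x) (x' := x') E1 ▸ S.beh_tl _ _))

theorem beh_short (B : Br d k K e y c x x') {w : X} (hw : d w (y • w) ≤ K) :
    Beh d (e + k) x x' w ((1 : G), false) := by
  have := B.g0.gate w hw
  simp only [Beh, tl, hd, one_smul, cond_false]
  rw [S.symm w x, S.symm x x', S.symm w x']
  omega

theorem gt_of_beh (B : Br d k K e y c x x') (he : e ≤ 40 * k) {v : X}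
    (hv : Beh d (e + k) x x' v ((1 : G), true)) : Gt d K (2 * e + 3 * k) y v x := by
  refine ⟨B.g0.sh, fun w hw => ?_⟩
  have := S.beh_two B he (S.beh_short B hw) hv
  simp only [tl, hd, one_smul, cond_false] at this
  have := S.tri x x' v
  rw [S.symm v x, S.symm x w, S.symm v w]
  omega

theorem br_far (B : Br d k K e y c x x') (he : e ≤ 40 * k) {v : X} (hv : d v (y • v) ≤ K) :
    Gt d K (e + k) c v x' ∧ d v x + d x x' ≤ d v x' + e := by
  have kp := S.pos
  have l := B.len
  have e1 := B.g0.gate v hv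
  rw [S.symm x' x, S.symm x v, S.symm x' v] at e1
  exact ⟨⟨B.g1.sh, fun w hw => gate_step S.gr.met S.hyp (p := x) (e := e) (by omega)
    (B.g1.gate w hw) (by omega)⟩, by omega⟩

theorem br_dist (B : Br d k K e y c x x') (he : e ≤ 40 * k) {u w : X} (hu : d u (y • u) ≤ K)
    (hw : d w (c • w) ≤ K) : d u x + d x x' + d x' w ≤ d u w + (2 * e + k) := by
  have e1 := S.br_far B he hu
  have e2 := e1.1.gate w hw
  omega

theorem br_dbl (B : Br d k K e y c x x') (he : e ≤ 40 * k) :
    2 * d x x' + d x' (c • x') ≤ d x (c • x) + (2 * e + k) ∧ d x (c • x) ≤ 2 * d x x' + K := by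
  have kp := S.pos
  have l := B.l1 c B.nc (Commute.refl c)
  have e1 := S.gt_two B.g1 (S.gt_comm B.g1 (Commute.refl c)) (by omega)
  have e2 := S.dis_move c x x'
  have e3 := B.g1.sh
  rw [S.inv, S.symm x' x] at e1
  omega

/-- Bridges of all levels. -/
theorem br_lev (B : Br d k K e y c x x') (he : e ≤ 18 * k) (j : ℕ) :
    Br d k K (2 * e + 3 * k) y (cs y c j) x (lx y c x x' j) := by
  induction j with
  | zero => exact B.mono (by omega)
  | succ j ih =>
    have r := reach_cs B.ny B.nc j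
    have r1 := r.mul (cs y c j)⁻¹
    simp only [mul_one, inv_mul_cancel] at r1
    have g1 := S.gt_conj (S.gt_of_beh B (by omega)
      (S.beh_reach B (by omega) r1 (S.beh_tl _ _))) (cs y c j)
    simp only [tl, cond_false, smul_inv_smul] at g1
    have e1 := S.br_dbl ih (by omega)
    have e2 := ih.len
    have e3 := ih.l1 _ ih.nc (Commute.refl _)
    exact ⟨S.gt_of_beh B (by omega) (S.beh_reach B (by omega) r.rv
      (S.beh_tl (x := x) (x' := x') _ (rv (cs y c j, true)))), g1, B.l0,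
      (S.br_conj B (cs y c j)).l0, by rw [lx_succ]; omega, B.ny, conj_ne_one B.ny _⟩

theorem lev_dbl (B : Br d k K e y c x x') (he : e ≤ 18 * k) (j : ℕ) :
    2 * d x (lx y c x x' j) + 20 * k ≤ d x (lx y c x x' (j + 1)) ∧
      d x (lx y c x x' (j + 1)) ≤ 2 * d x (lx y c x x' j) + K := by
  have B' := S.br_lev B he j
  have e1 := S.br_dbl B' (by omega)
  have e3 := B'.l1 _ B'.nc (Commute.refl _)
  rw [lx_succ]
  omega

theorem lev_mono (B : Br d k K e y c x x') (he : e ≤ 18 * k) {i j : ℕ} (h : i ≤ j) :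
    d x (lx y c x x' i) ≤ d x (lx y c x x' j) := by
  induction j, h using Nat.le_induction with
  | base => exact le_rfl
  | succ j _ ih =>
    have := S.lev_dbl B he j
    omega

theorem lev_pow (B : Br d k K e y c x x') (he : e ≤ 18 * k) (i j : ℕ) :
    2 ^ j * d x (lx y c x x' i) ≤ d x (lx y c x x' (i + j)) := by
  induction j with
  | zero => simp
  | succ j ih =>
    have := S.lev_dbl B he (i + j)
    rw [pow_succ, Nat.mul_right_comm, ← Nat.add_assoc]
    omega

theorem br_not_comm (B : Br d k K e y c x x') (he : e ≤ 40 * k) : ¬ Commute y c := by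
  intro h
  have kp := S.pos
  have l := B.len
  have l1 := B.l1 c B.nc (Commute.refl c)
  have e1 := S.br_dbl B he
  have e2 := B.g0.gate (c • x) (by rw [S.dis_comm h.symm]; exact B.g0.sh)
  have e3 := B.g0.gate (c⁻¹ • x) (by rw [S.dis_comm h.symm.inv_left]; exact B.g0.sh)
  have e4 := S.tri x' (c • x') (c • x)
  rw [S.inv] at e4
  have := S.symm x x'
  omega

/-- Far apart short sets force a large size. -/
theorem big_of_fa {D : ℕ} {y0 c0 : X} (h0 : d y0 (y • y0) + 3 * k + 2 ≤ K)
    (h1 : d c0 (c • c0) + 3 * k + 2 ≤ K) (h : Fa d K D y c) : Big d D y c := by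
  intro u
  obtain ⟨p, p1, p2⟩ := S.near_short y u y0 h0
  obtain ⟨q, q1, q2⟩ := S.near_short c u c0 h1
  have e1 := h p q p1 q1
  have e2 := S.tri p u q
  have e3 := S.symm p u
  have e4 := S.self u
  rcases p2 with rfl | p2 <;> rcases q2 with rfl | q2 <;> omega

theorem fa_of_big {D T : ℕ} (h : Big d T y c) (hT : K + 2 * D < T + 2) : Fa d K D y c := by
  intro u w hu hw
  have := S.dis_move c u w
  have := h u
  omega

end Sp

theorem XS.exists_br (S : XS G d k A) {y0 c0 : X} (hy : y ≠ 1) (hc : c ≠ 1)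
    (h0 : d y0 (y • y0) + A + 100 * k ≤ K) (h1 : d c0 (c • c0) + A + 100 * k ≤ K)
    (h : Fa d K (100 * k) y c) : ∃ x x', Br d k K (10 * k) y c x x' ∧ Fa d K (d x x') y c ∧
      K ≤ d x (y • x) + 1 ∧ K ≤ d x' (c • x') + 1 := by
  classical
  have kp := S.pos
  have ex : ∃ n, ∃ u w, d u (y • u) ≤ K ∧ d w (c • w) ≤ K ∧ d u w = n :=
    ⟨_, y0, c0, by omega, by omega, rfl⟩
  obtain ⟨x, x', a1, a2, a3⟩ := Nat.find_spec ex
  have hm : Fa d K (d x x') y c := fun u w hu hw => a3 ▸ Nat.find_min' ex ⟨u, w, hu, hw, rfl⟩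
  have l := h x x' a1 a2
  have key : ∀ (y : G) (x x' : X), 1 ≤ d x x' → (∀ u, d u (y • u) ≤ K → d x x' ≤ d u x') →
      K ≤ d x (y • x) + 1 := by
    intro y x x' h1 h2
    obtain ⟨z, z1, z2⟩ := S.gr.geo.mid S.gr.met x x' h1
    have e1 := S.dis_move y z x
    have e2 := h2 z
    have := S.symm z x
    omega
  have k0 := key y x x' (by omega) fun u hu => hm u x' hu a2
  have k1 := key c x' x (by rw [S.symm]; omega) fun u hu => by
    rw [S.symm x' x, S.symm u x]; exact hm x u a1 hu
  refine ⟨x, x', ⟨S.gt_of_min (y := y0) (by omega) a1 fun w hw => ?_,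
    S.gt_of_min (y := c0) (by omega) a2 fun w hw => hm x w a1 hw, fun a b1 b2 => ?_,
    fun a b1 b2 => ?_, l, hy, hc⟩, hm, k0, k1⟩
  · rw [S.symm x' x, S.symm x' w]
    exact hm w x' hw a2
  · by_contra hn
    have := S.rc a y x y0 b1 b2 (by omega)
    omega
  · by_contra hn
    have := S.rc a c x' c0 b1 b2 (by omega)
    omega

end Pool.Agent.Lib.MP_429c3d_al.Ng
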