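import Pool.Agent.Lib.MP_429c3d_al.NxD

set_option autoImplicit false
set_option linter.unusedSectionVars false

/-! Overlaps of two tubes; the properties `P1` and `QQ` for elements with long axes. -/

namespace Pool.Agent.Lib.MP_429c3d_al.Ng

open Hyp

variable {G X : Type} [Group G] [MulAction G X] {d : X → X → ℕ} {k A : ℕ}

/-- The overlap of an axis with the tube of `s y s⁻¹`. -/
structure Ovl (d : X → X → ℕ) (γ : ℤ → X) (R K E r : ℕ) (ty : ℤ) (y s : G) (lo hi α β : ℤ)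
    (p q : X) : Prop where
  gl : ∀ i : ℤ, -(5 * R : ℤ) ≤ i → i ≤ lo → Gt d K (3 * E) (s * y * s⁻¹) (γ i) p
  gh : ∀ i : ℤ, hi ≤ i → i ≤ 5 * R → Gt d K (3 * E) (s * y * s⁻¹) (γ i) q
  pl : d p (γ lo) ≤ E
  qh : d q (γ hi) ≤ E
  pa : d (s⁻¹ • p) (γ α) ≤ E
  qb : d (s⁻¹ • q) (γ β) ≤ E
  la : d (s⁻¹ • γ lo) (γ α) ≤ 2 * E
  hb : d (s⁻¹ • γ hi) (γ β) ≤ 2 * E
  bd : -(r : ℤ) ≤ lo ∧ lo ≤ r ∧ -(r : ℤ) ≤ hi ∧ hi ≤ r ∧ -(r : ℤ) ≤ α ∧ α ≤ r ∧ -(r : ℤ) ≤ β ∧ β ≤ r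
  le : lo ≤ hi + 4 * E
  dl : |β - α| ≤ |hi - lo| + 4 * E ∧ |hi - lo| ≤ |β - α| + 4 * E
  rev : 2 * (α - β) ≤ ty + 23 * E

namespace XS

variable (S : XS G d k A) {y : G} {x0 : X} {R : ℕ} {γ : ℤ → X} {ty : ℤ}
  (H : Ax d k y x0 R γ ty)
include S H

theorem exists_ovl {s : G} (nc : ¬ Commute y (s * y * s⁻¹)) {E r : ℕ} (hE : 100 * k ≤ E)
    (hA : A ≤ E) {x : X} (h1 : d x (y • x) ≤ d x0 (y • x0) + E)
    (h2 : d x ((s * y * s⁻¹) • x) ≤ d x0 (y • x0) + E) (r1 : d x0 x ≤ r) (r2 : d x0 (s⁻¹ • x) ≤ r)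
    (r3 : d x0 (y • x0) ≤ r) (r4 : E ≤ r) (hR : 800 * r ≤ R) :
    ∃ lo hi α β p q, Ovl d γ R (d x0 (y • x0) + E) E (40 * r) ty y s lo hi α β p q := by
  have kp := S.pos
  have y1 := H.ty1
  have y2 := H.ty2
  have y3 := H.big
  obtain ⟨i0, i1, i2, i3, -⟩ := S.ax_near H x (by omega)
  have hK : d (s • x0) ((s * y * s⁻¹) • s • x0) + 3 * k + 2 ≤ d x0 (y • x0) + E := by
    rw [S.dis_conj]; omega
  obtain ⟨p, gp, -⟩ := S.exists_gt _ hK (γ (-(5 * R)))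
  obtain ⟨q, gq, -⟩ := S.exists_gt _ hK (γ (5 * R))
  have g5 : GZ d γ (-(5 * R)) (5 * R) := H.gz.mono (by omega) (by omega)
  have a1 := gp.gate x h2
  have a2 := gq.gate x h2
  have a3 := g5.le (i := -(5 * R)) (j := i0) le_rfl (by omega) (by omega)
  have a4 := g5.le (i := i0) (j := 5 * R) (by omega) (by omega) le_rfl
  have t1 := S.tri (γ (-(5 * R))) (γ i0) x
  have t2 := S.tri x (γ i0) (γ (5 * R))
  have s1 := S.symm (γ i0) x
  have s2 := S.symm (γ (5 * R)) x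
  have s3 := S.symm (γ (-(5 * R))) x
  have s4 := S.symm (γ (-(5 * R))) p
  have s5 := S.symm (γ (5 * R)) q
  have t3 := S.tri p x (γ (5 * R))
  have t4 := S.tri q x (γ (-(5 * R)))
  obtain ⟨lo, l1, l2, l3⟩ := S.near_gz g5 (by omega) p (c := E + 29 * k) (by omega)
  obtain ⟨hi, u1, u2, u3⟩ := S.near_gz g5 (by omega) q (c := E + 29 * k) (by omega)
  have b1 := g5.le le_rfl l1 l2
  have b2 := g5.le u1 u2 le_rfl
  have t5 := S.tri (γ (-(5 * R))) p (γ lo)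
  have t6 := S.tri (γ hi) q (γ (5 * R))
  have s6 := S.symm (γ hi) q
  have s7 := S.symm (γ lo) p
  have c1 := S.ax_dis H (i := lo) (by omega) (by omega)
  have c2 := S.ax_dis H (i := hi) (by omega) (by omega)
  have c3 := S.dis_move (s * y * s⁻¹) (γ lo) p
  have c4 := S.dis_move (s * y * s⁻¹) (γ hi) q
  have c5 := gp.sh
  have c6 := gq.sh
  have c7 := S.ai_sc nc (x := γ lo) (x' := γ hi) (B := 4 * r) (by omega) (by omega) (by omega)
    (by omega)
  have c8 := g5.ge l1 l2 u1 u2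
  have d1 := g5.lip' i0 lo (35 * r) (by omega) (by omega)
  have d2 := g5.lip' i0 hi (35 * r) (by omega) (by omega)
  have d3 := S.tri x (γ i0) (γ lo)
  have d4 := S.tri x (γ lo) p
  have d5 := S.tri x (γ i0) (γ hi)
  have d6 := S.tri x (γ hi) q
  have d7 := S.tri x0 (s⁻¹ • x) (s⁻¹ • p)
  have d8 := S.tri x0 (s⁻¹ • x) (s⁻¹ • q)
  rw [S.inv] at d7 d8
  obtain ⟨α, α1, α2, α3, -⟩ := S.ax_near H (s⁻¹ • p) (by omega)
  obtain ⟨β, β1, β2, β3, -⟩ := S.ax_near H (s⁻¹ • q) (by omega)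
  rw [← S.dis_conj'] at α3 β3
  have e1 := S.tri (s⁻¹ • γ lo) (s⁻¹ • p) (γ α)
  have e2 := S.tri (s⁻¹ • γ hi) (s⁻¹ • q) (γ β)
  rw [S.inv] at e1 e2
  have e3 := g5.eq lo hi l1 l2 u1 u2
  have e4 := g5.eq α β (by omega) (by omega) (by omega) (by omega)
  have e5 := S.tri (γ α) (s⁻¹ • γ lo) (γ β)
  have e6 := S.tri (s⁻¹ • γ lo) (s⁻¹ • γ hi) (γ β)
  have e7 := S.tri (s⁻¹ • γ lo) (γ α) (s⁻¹ • γ hi)
  have e8 := S.tri (γ α) (γ β) (s⁻¹ • γ hi)
  have s8 := S.symm (γ α) (s⁻¹ • γ lo)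
  have s9 := S.symm (γ β) (s⁻¹ • γ hi)
  rw [S.inv] at e6 e7
  have dl : |β - α| ≤ |hi - lo| + 4 * E ∧ |hi - lo| ≤ |β - α| + 4 * E := by omega
  refine ⟨lo, hi, α, β, p, q, fun i j1 j2 => ⟨c5, fun w hw => ?_⟩, fun i j1 j2 => ⟨c6, fun w hw => ?_⟩,
    by omega, by omega, by omega, by omega, by omega, by omega, by omega, by omega, dl, ?_⟩
  · have := gp.gate w hw
    have := g5.le le_rfl j1 (by omega)
    have := g5.le j1 j2 l2
    have := S.tri (γ (-(5 * R))) (γ i) w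
    have := S.tri (γ i) (γ lo) p
    omega
  · have := gq.gate w hw
    have := g5.le (i := i) (by omega) j2 le_rfl
    have := g5.le u1 j1 j2
    have := S.tri (γ (5 * R)) (γ i) w
    have := S.tri (γ i) (γ hi) q
    have := S.symm (γ (5 * R)) (γ i)
    have := S.symm (γ i) (γ hi)
    omega
  · by_cases hc : lo ≤ hi ∧ β ≤ α
    · have := S.rev_le H (Commute.refl y) (r := 40 * r) (by omega) (by omega) (by omega)
        (by omega) H.tly (T := ty.toNat) (by rw [abs_of_nonneg (by omega)]; omega) (by omega)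
        (lo := lo) (hi := hi) (α := α) (β := β) (by omega) hc.1 (by omega) (by omega) hc.2
        (by omega) (f := s⁻¹) (s := 2 * E) (by omega) (by omega)
      rw [abs_of_nonpos (by omega), abs_of_nonneg (by omega)] at dl
      omega
    · rcases abs_cases (β - α) with q1 | q1 <;> rcases abs_cases (hi - lo) with q2 | q2 <;> omega

theorem cf {s : G} {K E : ℕ} (hE : 100 * k ≤ E) {p p' : X} {i j l l' a a' : ℤ}
    (g : Gt d K (3 * E) (s * y * s⁻¹) (γ i) p) (g' : Gt d K (3 * E) (s * y * s⁻¹) (γ j) p')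
    (h1 : d p (γ l) ≤ E) (h2 : d p' (γ l') ≤ E) (h3 : d (s⁻¹ • p) (γ a) ≤ E)
    (h4 : d (s⁻¹ • p') (γ a') ≤ E) (h5 : a + 7 * E ≤ a' + ty) (b1 : -(R : ℤ) ≤ a) (b2 : -(R : ℤ) ≤ a')
    (b3 : a' ≤ R) :
    (d (γ i) (γ l) : ℤ) + (a' + ty - a) + d (γ j) (γ l') ≤
      d (γ i) ((s * y * s⁻¹) • γ j) + 12 * E ∧
    (d (γ i) ((s * y * s⁻¹) • γ j) : ℤ) ≤ d (γ i) (γ l) + (a' + ty - a) + d (γ j) (γ l') + 5 * E := by
  have kp := S.pos
  have y2 := H.ty2
  have y3 := H.le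
  have e0 : d p ((s * y * s⁻¹) • p') = d (s⁻¹ • p) (y • s⁻¹ • p') := by
    rw [S.inv_l, mul_smul, mul_smul]
  have e1 := H.tly a' (by omega) (by omega)
  have e2 := H.gz.le (i := a) (j := a' + ty) (by omega) (by omega) (by omega)
  have t1 := S.tri (s⁻¹ • p) (γ a) (y • s⁻¹ • p')
  have t2 := S.tri (γ a) (γ (a' + ty)) (y • s⁻¹ • p')
  have t3 := S.tri (γ (a' + ty)) (y • γ a') (y • s⁻¹ • p')
  have t4 := S.tri (γ a) (s⁻¹ • p) (γ (a' + ty))
  have t5 := S.tri (s⁻¹ • p) (y • s⁻¹ • p') (γ (a' + ty))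
  have t6 := S.tri (y • s⁻¹ • p') (y • γ a') (γ (a' + ty))
  rw [S.inv] at t3 t6
  have s1 := S.symm (γ (a' + ty)) (y • γ a')
  have s2 := S.symm (γ a') (s⁻¹ • p')
  have s3 := S.symm (γ a) (s⁻¹ • p)
  have e3 := S.gt_two g (S.gt_comm g' (Commute.refl _)) (by omega)
  have t7 := S.tri (γ i) p ((s * y * s⁻¹) • γ j)
  have t8 := S.tri p ((s * y * s⁻¹) • p') ((s * y * s⁻¹) • γ j)
  rw [S.inv] at e3 t8
  have t9 := S.tri (γ i) p (γ l)
  have t10 := S.tri (γ i) (γ l) p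
  have t11 := S.tri (γ j) p' (γ l')
  have t12 := S.tri (γ j) (γ l') p'
  have s4 := S.symm (γ l) p
  have s5 := S.symm (γ l') p'
  have s6 := S.symm (γ j) p'
  omega

theorem p1_ax {a f : G} (ca : Commute a y) (hf : f * y * f⁻¹ = a⁻¹ * f) {E r : ℕ}
    (hE : 100 * k ≤ E) (hm : 100 * E ≤ d x0 (y • x0)) (ha : d x0 (a • x0) ≤ R) (hR : 2 * r ≤ R)
    {lo hi α β : ℤ} {p q : X} (O : Ovl d γ R (d x0 (y • x0) + E) E r ty y f lo hi α β p q) :
    False := by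
  have kp := S.pos
  have y1 := H.ty1
  have y2 := H.ty2
  have y3 := H.le
  have bd := O.bd
  obtain ⟨τ, t1, t2, ht⟩ := H.tl a ca ha
  have ef : f = a * (f * y * f⁻¹) := by rw [hf, mul_inv_cancel_left]
  have key : ∀ (i l b : ℤ) (p : X), i = -(4 * R) ∨ i = 4 * R → -(r : ℤ) ≤ l → l ≤ r →
      -(r : ℤ) ≤ b → b ≤ r → Gt d (d x0 (y • x0) + E) (3 * E) (f * y * f⁻¹) (γ i) p →
      Gt d (d x0 (y • x0) + E) (3 * E) (f * y * f⁻¹) (γ (i - τ)) p → d p (γ l) ≤ E →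
      d (f⁻¹ • p) (γ b) ≤ E → |b - i| ≤ |l - (i - τ)| + ty + 15 * E ∧
        |l - (i - τ)| + ty ≤ |b - i| + 15 * E := by
    intro i l b p hi _ _ _ _ g g' h1 h2
    have e1 := S.cf H hE g' g h1 h1 h2 h2 (by omega) (by omega) (by omega) (by omega)
    have e2 := S.ax_dis H (i := i) (by omega) (by omega)
    have e3 := g.gate (f • γ i) (by rw [S.dis_conj]; omega)
    have e4 := S.tri (γ i) p (f • γ i)
    rw [← S.inv_l f p] at e3 e4
    have e5 := ht (i - τ) (by omega) (by omega)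
    rw [sub_add_cancel] at e5
    have e6 := S.tri (γ i) (a • γ (i - τ)) (f • γ i)
    have e7 := S.tri (a • γ (i - τ)) (γ i) (f • γ i)
    have e8 : d (a • γ (i - τ)) (f • γ i) = d (γ (i - τ)) ((f * y * f⁻¹) • γ i) := by
      rw [← S.inv a (γ (i - τ)), smul_smul, ← ef]
    have e9 := H.gz.eq (i - τ) l (by omega) (by omega) (by omega) (by omega)
    have e10 := H.gz.eq i b (by omega) (by omega) (by omega) (by omega)
    have t3 := S.tri (γ i) p (γ l)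
    have t4 := S.tri (γ i) (γ l) p
    have t5 := S.tri (f⁻¹ • p) (γ b) (γ i)
    have t6 := S.tri (γ i) (f⁻¹ • p) (γ b)
    have s1 := S.symm (γ i) (a • γ (i - τ))
    have s2 := S.symm (γ l) p
    have s3 := S.symm (γ b) (γ i)
    have s4 := S.symm (γ i) (f⁻¹ • p)
    omega
  have k1 := key (-(4 * R)) lo α p (Or.inl rfl) (by omega) (by omega) (by omega) (by omega)
    (O.gl _ (by omega) (by omega)) (O.gl _ (by omega) (by omega)) O.pl O.pa
  have k2 := key (4 * R) hi β q (Or.inr rfl) (by omega) (by omega) (by omega) (by omega)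
    (O.gh _ (by omega) (by omega)) (O.gh _ (by omega) (by omega)) O.qh O.qb
  rw [abs_of_nonneg (by omega), abs_of_nonneg (by omega)] at k1
  rw [abs_of_nonpos (by omega), abs_of_nonpos (by omega)] at k2
  have dl := O.dl
  have rev := O.rev
  rcases abs_cases (β - α) with q1 | q1 <;> rcases abs_cases (hi - lo) with q2 | q2 <;> omega

theorem q_eqs {s t z : G} (e : t * y * t⁻¹ = s * y * s⁻¹ * z) {E r : ℕ} (hE : 100 * k ≤ E)
    (hm : 100 * E ≤ d x0 (y • x0)) (hR : 2 * r ≤ R) {ζ : ℤ} (z1 : -(R : ℤ) ≤ ζ) (z2 : ζ ≤ R)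
    (hz : Tl d γ (3 * k) z ζ (-(10 * R)) (10 * R)) {lo hi α β lo' hi' α' β' : ℤ} {p q p' q' : X}
    (O : Ovl d γ R (d x0 (y • x0) + E) E r ty y s lo hi α β p q)
    (O' : Ovl d γ R (d x0 (y • x0) + E) E r ty y t lo' hi' α' β' p' q') :
    (2 * lo' + ζ ≤ 2 * lo + 18 * E ∧ 2 * lo ≤ 2 * lo' + ζ + 18 * E) ∧
    (2 * hi' + ζ ≤ 2 * hi + 18 * E ∧ 2 * hi ≤ 2 * hi' + ζ + 18 * E) ∧
    (lo' - hi' + (β' - α') ≤ lo - hi + (β - α) + ζ + 18 * E ∧
      lo - hi + (β - α) + ζ ≤ lo' - hi' + (β' - α') + 18 * E) := by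
  have kp := S.pos
  have y1 := H.ty1
  have y2 := H.ty2
  have y3 := H.le
  have bd := O.bd
  have bd' := O'.bd
  have rev := O.rev
  have rev' := O'.rev
  have key : ∀ i j : ℤ, j = -(4 * R) ∨ j = 4 * R →
      d (γ i) ((t * y * t⁻¹) • γ j) ≤ d (γ i) ((s * y * s⁻¹) • γ (j + ζ)) + E ∧
      d (γ i) ((s * y * s⁻¹) • γ (j + ζ)) ≤ d (γ i) ((t * y * t⁻¹) • γ j) + E := by
    intro i j hj
    have e1 := hz j (by omega) (by omega)
    have e2 := S.tri (γ i) ((s * y * s⁻¹) • γ (j + ζ)) ((s * y * s⁻¹) • z • γ j)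
    have e3 := S.tri (γ i) ((s * y * s⁻¹) • z • γ j) ((s * y * s⁻¹) • γ (j + ζ))
    rw [S.inv] at e2 e3
    rw [e, mul_smul _ z]
    have := S.symm (γ (j + ζ)) (z • γ j)
    omega
  have k1 := key (-(4 * R)) (-(4 * R)) (Or.inl rfl)
  have k2 := key (4 * R) (4 * R) (Or.inr rfl)
  have k3 := key (-(4 * R)) (4 * R) (Or.inr rfl)
  have gl := O.gl (-(4 * R)) (by omega) (by omega)
  have gl2 := O.gl (-(4 * R) + ζ) (by omega) (by omega)
  have gh := O.gh (4 * R) (by omega) (by omega)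
  have gh2 := O.gh (4 * R + ζ) (by omega) (by omega)
  have gl' := O'.gl (-(4 * R)) (by omega) (by omega)
  have gh' := O'.gh (4 * R) (by omega) (by omega)
  have c1 := S.cf H hE gl gl2 O.pl O.pl O.pa O.pa (by omega) (by omega) (by omega) (by omega)
  have c2 := S.cf H hE gh gh2 O.qh O.qh O.qb O.qb (by omega) (by omega) (by omega) (by omega)
  have c3 := S.cf H hE gl gh2 O.pl O.qh O.pa O.qb (by omega) (by omega) (by omega) (by omega)
  have c4 := S.cf H hE gl' gl' O'.pl O'.pl O'.pa O'.pa (by omega) (by omega) (by omega) (by omega)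
  have c5 := S.cf H hE gh' gh' O'.qh O'.qh O'.qb O'.qb (by omega) (by omega) (by omega) (by omega)
  have c6 := S.cf H hE gl' gh' O'.pl O'.qh O'.pa O'.qb (by omega) (by omega) (by omega) (by omega)
  have a1 := H.gz.le (i := -(4 * R)) (j := lo) (by omega) (by omega) (by omega)
  have a2 := H.gz.le (i := -(4 * R) + ζ) (j := lo) (by omega) (by omega) (by omega)
  have a3 := H.gz.le (i := hi) (j := 4 * R) (by omega) (by omega) (by omega)
  have a4 := H.gz.le (i := hi) (j := 4 * R + ζ) (by omega) (by omega) (by omega)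
  have a5 := H.gz.le (i := -(4 * R)) (j := lo') (by omega) (by omega) (by omega)
  have a6 := H.gz.le (i := hi') (j := 4 * R) (by omega) (by omega) (by omega)
  rw [S.symm] at a3 a4 a6
  refine ⟨?_, ?_, ?_⟩
  · clear * - k1 c1 c4 a1 a2 a5
    omega
  · clear * - k2 c2 c5 a3 a4 a6
    omega
  · clear * - k3 c3 c6 a1 a4 a5 a6
    omega

theorem q_ax (p1 : P1 G) {s t z : G} (hz1 : z ≠ 1) (cz : Commute z y)
    (e : t * y * t⁻¹ = s * y * s⁻¹ * z) {E r T : ℕ} (hE : 100 * k ≤ E) (hA : A ≤ E)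
    (hm : 100 * E ≤ d x0 (y • x0)) (hR : 20 * r ≤ R) (hT : 20000 * E ≤ T) (hr : T ≤ r)
    (hz : Tl d γ (3 * k) z (-T) (-(10 * R)) (10 * R)) {lo hi α β lo' hi' α' β' : ℤ} {p q p' q' : X}
    (O : Ovl d γ R (d x0 (y • x0) + E) E r ty y s lo hi α β p q)
    (O' : Ovl d γ R (d x0 (y • x0) + E) E r ty y t lo' hi' α' β' p' q') : False := by
  have kp := S.pos
  have y1 := H.ty1
  have y2 := H.ty2
  have y3 := H.le
  have bd := O.bd
  have bd' := O'.bd
  obtain ⟨q1, q2, q3⟩ := S.q_eqs H e hE hm (by omega) (by omega) (by omega) hz O O'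
  have F : lo ≤ hi ∧ lo' ≤ hi' ∧ α ≤ β ∧ β' ≤ α' ∧ β - α ≤ hi - lo + 4 * E ∧
      hi - lo ≤ β - α + 4 * E ∧ α' - β' ≤ hi' - lo' + 4 * E ∧ hi' - lo' ≤ α' - β' + 4 * E := by
    have := O.dl
    have := O'.dl
    have := O.le
    have := O'.le
    rcases abs_cases (β - α) with w1 | w1 <;> rcases abs_cases (hi - lo) with w2 | w2 <;>
      rcases abs_cases (β' - α') with w3 | w3 <;> rcases abs_cases (hi' - lo') with w4 | w4 <;>
      omega
  have rev' := O'.rev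
  have hT' : (T : ℤ) = |(-T : ℤ)| := by rw [abs_neg, abs_of_nonneg (by omega)]
  have zi : ∀ i : ℤ, -(9 * R : ℤ) ≤ i → i ≤ 9 * R → d (z⁻¹ • γ i) (γ (i + T)) ≤ 3 * k := by
    intro i _ _
    have := hz (i + T) (by omega) (by omega)
    rwa [add_neg_cancel_right, S.symm, ← S.inv_l] at this
  obtain ⟨a1, τ1, c1, h1, n1, n2⟩ := S.ax_norm' H cz hR (by omega) (by omega) (by omega) hz hT'
    (by omega) (α := α') (l := lo') (by omega) (by omega) (by omega) (by omega)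
  obtain ⟨a2, τ2, c2, h2, n3, n4⟩ := S.ax_norm' H cz hR (by omega) (by omega) (by omega) hz hT'
    (by omega) (α := β) (l := hi) (by omega) (by omega) (by omega) (by omega)
  obtain ⟨U, hU⟩ : ∃ U, U = a1 * t⁻¹ := ⟨_, rfl⟩
  obtain ⟨V, hV⟩ : ∃ V, V = a2 * s⁻¹ := ⟨_, rfl⟩
  have eU : U * (t * y * t⁻¹) = y * U := by
    rw [hU, ← mul_assoc y, ← c1.eq]; group
  have eV : V * (s * y * s⁻¹) = y * V := by
    rw [hV, ← mul_assoc y, ← c2.eq]; group
  have two : ∀ (f : G) (b : ℕ) (i j : ℤ), b ≤ 150 * E → -(2 * r : ℤ) ≤ j → j ≤ i → i ≤ 2 * r →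
      d (f • γ lo') (γ i) ≤ b → d (f • γ hi') (γ j) ≤ b →
      (i ≤ lo' + 3 * b + 2 * E ∨ 2 * hi' ≤ lo' + i + 3 * b + 2 * E) ∧
      (i + T ≤ lo' + 3 * b + 2 * E ∨ 2 * hi' ≤ lo' + (i + T) + 3 * b + 2 * E) := by
    intro f b i j _ _ _ _ f1 f2
    have e1 := S.cent H.gz (lo := lo') (hi := hi') (by omega) (by omega) (by omega) (by omega)
      (by omega) (by omega) f1 f2
    have m1 := S.mul_le z⁻¹ f (γ lo') (γ i) (γ (i + T))
    have m2 := S.mul_le z⁻¹ f (γ hi') (γ j) (γ (j + T))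
    have m3 := zi i (by omega) (by omega)
    have m4 := zi j (by omega) (by omega)
    have e2 := S.cent H.gz (f := z⁻¹ * f) (s := b + 3 * k) (lo := lo') (hi := hi') (α := i + T)
      (β := j + T) (by omega) (by omega) (by omega) (by omega) (by omega) (by omega) (by omega)
      (by omega)
    omega
  have U1 : d (U • γ lo') (γ (α' + τ1)) ≤ 3 * E := by
    have := S.mul_le a1 t⁻¹ (γ lo') (γ α') (γ (α' + τ1))
    have := h1 α' (by omega) (by omega)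
    have := O'.la
    rw [hU]; omega
  have U2 : d (U • γ hi') (γ (β' + τ1)) ≤ 3 * E := by
    have := S.mul_le a1 t⁻¹ (γ hi') (γ β') (γ (β' + τ1))
    have := h1 β' (by omega) (by omega)
    have := O'.hb
    rw [hU]; omega
  have V1 : d (V • γ lo) (γ (α + τ2)) ≤ 3 * E := by
    have := S.mul_le a2 s⁻¹ (γ lo) (γ α) (γ (α + τ2))
    have := h2 α (by omega) (by omega)
    have := O.la
    rw [hV]; omega
  have V2 : d (V • γ hi) (γ (β + τ2)) ≤ 3 * E := by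
    have := S.mul_le a2 s⁻¹ (γ hi) (γ β) (γ (β + τ2))
    have := h2 β (by omega) (by omega)
    have := O.hb
    rw [hV]; omega
  have N1 := two U _ _ _ (by omega) (by
    obtain ⟨f1, f2, f3, f4, f5, f6, f7, f8⟩ := F
    have z1 : (100 * k : ℤ) ≤ E := by exact_mod_cast hE
    have z2 : (20000 * E : ℤ) ≤ T := by exact_mod_cast hT
    have z3 : (T : ℤ) ≤ r := by exact_mod_cast hr
    linarith [q1.1, q1.2, q2.1, q2.2, q3.1, q3.2, bd.1, bd.2.1, bd.2.2.1, bd.2.2.2.1, bd'.1,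
      bd'.2.1, bd'.2.2.1, bd'.2.2.2.1, Int.natCast_nonneg k]) (by omega) (by omega) U1 U2
  have U3 : d (U • γ lo') (γ hi) ≤ 123 * E := by
    have := S.tri (U • γ lo') (γ (α' + τ1)) (γ hi)
    have := H.gz.lip' (α' + τ1) hi (120 * E) (by omega) (by omega)
    omega
  have U4 : d (U • γ hi') (γ lo) ≤ 143 * E := by
    have := S.tri (U • γ hi') (γ (β' + τ1)) (γ lo)
    have := H.gz.lip' (β' + τ1) lo (140 * E) (by omega) (by omega)
    omega
  have U5 : d (U • γ hi) (γ hi) ≤ 163 * E := by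
    have := S.tri (U • γ hi) (U • γ lo') (γ hi)
    have := H.gz.lip' hi lo' (40 * E) (by omega) (by omega)
    rw [S.inv] at *
    omega
  have N2 := two (V * U) (150 * E) (β + τ2) (α + τ2) le_rfl (by omega) (by omega) (by omega)
    (by have := S.mul_le V U (γ lo') (γ hi) (γ (β + τ2)); omega)
    (by have := S.mul_le V U (γ hi') (γ lo) (γ (α + τ2)); omega)
  have V3 : d (γ lo) (V⁻¹ • γ lo) ≤ 570 * E := by
    have := S.tri (V • γ lo) (γ (α + τ2)) (γ lo)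
    have := H.gz.lip' (α + τ2) lo (567 * E) (by omega) (by omega)
    rw [S.inv_r]
    omega
  have V4 : d (γ hi) (V⁻¹ • γ hi) ≤ 570 * E := by
    have := S.tri (V • γ hi) (γ (β + τ2)) (γ hi)
    have := H.gz.lip' (β + τ2) hi (567 * E) (by omega) (by omega)
    rw [S.inv_r]
    omega
  have u1 : d (γ hi) ((U⁻¹ * V⁻¹ * U⁻¹⁻¹) • γ hi) ≤ 1100 * E := by
    rw [S.dis_conj', inv_inv]
    have := S.dis_move V⁻¹ (U • γ hi) (γ hi)
    omega
  have u2 : d (γ (hi' - 100 * E)) ((U⁻¹ * V⁻¹ * U⁻¹⁻¹) • γ (hi' - 100 * E)) ≤ 1100 * E := by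
    have := S.dis_move (U⁻¹ * V⁻¹ * U⁻¹⁻¹) (γ (hi' - 100 * E)) (γ hi')
    rw [S.dis_conj' V⁻¹ U⁻¹ (γ hi'), inv_inv] at this
    have := S.dis_move V⁻¹ (U • γ hi') (γ lo)
    have := H.gz.lip' (hi' - 100 * E) hi' (100 * E) (by omega) (by omega)
    rw [inv_inv]
    omega
  have g1 : d (γ hi) ((U * V⁻¹) • γ hi) ≤ 760 * E - 2 * k := by
    have := S.dis_mul U V⁻¹ (γ hi)
    have := S.symm (γ hi) (U • γ hi)
    omega
  have g2 : d (γ (lo + ty)) ((U * V⁻¹) • γ (lo + ty)) ≤ 760 * E - 2 * k := by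
    have m1 := S.mul_le U V⁻¹ (γ (lo + ty)) ((t * y * t⁻¹) • γ hi') (γ (lo + ty))
    have m2 := S.mul_le y U (γ hi') (γ lo) (γ (lo + ty))
    have m3 := S.mul_le y V (γ lo) (γ lo) (γ (lo + ty))
    have m4 := H.tly lo (by omega) (by omega)
    have m5 := S.tri (V⁻¹ • γ (lo + ty)) ((s * y * s⁻¹) • γ lo) ((t * y * t⁻¹) • γ hi')
    have m6 : d ((s * y * s⁻¹) • γ lo) ((t * y * t⁻¹) • γ hi') = d (γ lo) (z • γ hi') := by
      rw [e, mul_smul _ z, S.inv]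
    have m7 := hz hi' (by omega) (by omega)
    have m8 := S.tri (γ lo) (γ (hi' + -T)) (z • γ hi')
    have m9 := H.gz.lip' lo (hi' + -T) (40 * E) (by omega) (by omega)
    have s1 := S.symm (γ (hi' + -T)) (z • γ hi')
    rw [S.inv_l V _ ((s * y * s⁻¹) • _), smul_smul V, eV, S.symm (γ (lo + ty))] at m5
    rw [smul_smul U, eU] at m1
    rw [S.inv_r] at V3
    rw [S.symm]
    omega
  have g3 : d (γ (hi' - 100 * E)) ((U * V⁻¹) • γ (hi' - 100 * E)) ≤ 760 * E := by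
    have b1 := H.gz.le (i := hi) (j := hi' - 100 * E) (by omega) (by omega) (by omega)
    have b2 := H.gz.le (i := hi' - 100 * E) (j := lo + ty) (by omega) (by omega) (by omega)
    have b3 := H.gz.le (i := hi) (j := lo + ty) (by omega) (by omega) (by omega)
    have := S.conv (U * V⁻¹) (w := γ (hi' - 100 * E)) (by omega) g1 g2
    omega
  have cm : Commute (U⁻¹ * V⁻¹ * U⁻¹⁻¹) (U * V⁻¹) := by
    by_contra hn
    have := S.ai_sc hn (B := 1100 * E) u1 (by omega) u2 (by omega)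
    have b1 := H.gz.le (i := hi) (j := hi' - 100 * E) (by omega) (by omega) (by omega)
    omega
  have ng : (U * V⁻¹)⁻¹ ≠ 1 := by
    intro hn
    rw [inv_eq_one, mul_inv_eq_one] at hn
    rw [hn, ← eV, mul_right_inj, e] at eU
    exact hz1 (by simpa using eU)
  have cg := (p1 _ _ U⁻¹ ng cm.inv_right (by group)).inv_left.inv_right
  rw [inv_inv, inv_inv] at cg
  have f1 := S.dis_comm cg (γ (hi' - 100 * E))
  have f2 := S.dis_move (U * V⁻¹) (γ lo) (U • γ (hi' - 100 * E))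
  have f3 := S.tri (U • γ (hi' - 100 * E)) (U • γ hi') (γ lo)
  have f4 := H.gz.lip' (hi' - 100 * E) hi' (100 * E) (by omega) (by omega)
  have f5 := S.mul_le U⁻¹ (U * V⁻¹) (γ lo) (γ lo) (γ hi')
  rw [inv_mul_cancel_left, S.inv_l U, S.symm (γ lo) (U • _)] at f5
  rw [S.inv] at f3
  have f6 := S.tri (γ lo) (V⁻¹ • γ lo) (γ hi')
  have f7 := H.gz.le (i := lo) (j := hi') (by omega) (by omega) (by omega)
  have s1 := S.symm (γ lo) (U • γ (hi' - 100 * E))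
  have s2 := S.symm (γ lo) ((U * V⁻¹) • γ lo)
  omega

end XS

end Pool.Agent.Lib.MP_429c3d_al.Ng
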