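import Pool.Agent.Lib.MP_429c3d_al.NxE

set_option autoImplicit false
set_option linter.unusedSectionVars false

/-! Reduction of the properties `P1` and `QQ` to short configurations. -/

namespace Pool.Agent.Lib.MP_429c3d_al.Ng

open Hyp

variable {G X : Type} [Group G] [MulAction G X] {d : X → X → ℕ} {k A : ℕ}

theorem CSA.nc (h : CSA G) {y g : G} (hy : y ≠ 1) (nc : ¬ Commute g y) :
    ¬ Commute y (g * y * g⁻¹) := fun c => nc (h y g hy c.symm)

theorem Sp.two_gt (S : Sp G d k) {K e e' : ℕ} {g : G} {v p p' : X} (h : Gt d K e g v p)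
    (h' : Gt d K e' g v p') : 2 * d p p' ≤ e + e' := by
  have := h.gate p' h'.sh
  have := h'.gate p h.sh
  have := S.symm p p'
  omega

namespace XS

variable (S : XS G d k A)
include S

theorem p1_far {y a f : G} {x0 : X} {K : ℕ} (hy : y ≠ 1) (ca : Commute a y)
    (hf : f * y * f⁻¹ = a⁻¹ * f) (hK : d x0 (y • x0) + A + 100 * k ≤ K) :
    ¬ Fa d K (100 * k) y (f * y * f⁻¹) := by
  intro h
  have P := S.toSp
  obtain ⟨x, x', B, -⟩ := S.exists_br (c0 := f • x0) hy (conj_ne_one hy f) hK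
    (by rw [P.dis_conj]; exact hK) h
  have B1 := P.br_conj B a
  have B2 := P.br_conj B f
  have e : f * (f * y * f⁻¹) * f⁻¹ = a * (f * y * f⁻¹) * a⁻¹ := by
    rw [hf]
    have : f * a⁻¹ = a * (a⁻¹ * f) * a⁻¹ := by group
    rw [← this]
    group
  rw [ca.mul_inv_cancel] at B1
  rw [e] at B2
  obtain ⟨g1, l1⟩ := P.br_far B1 (by omega) B.g0.sh
  obtain ⟨g2, l2⟩ := P.br_far B2 (by omega) B.g1.sh
  have l3 := B.l1 _ B.nc (Commute.refl _)
  have e2 : d (a • x') (f • x') = d x' ((f * y * f⁻¹) • x') := by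
    rw [hf, mul_smul, P.inv_r]
  have := P.gt_two g1 g2 (by have := P.pos; omega)
  have := P.inv a x x'
  have := P.inv f x x'
  have := P.symm (f • x') x'
  have := B.len
  have := P.pos
  omega

theorem p1_red {y a f : G} (hy : y ≠ 1) (ca : Commute a y) (hf : f * y * f⁻¹ = a⁻¹ * f)
    (nc : ¬ Commute f y) : ∃ x : X, d x (y • x) ≤ 30000000 * (A + 500 * k) ∧
      d x (a • x) ≤ 30000000 * (A + 500 * k) ∧ d x (f • x) ≤ 30000000 * (A + 500 * k) := by
  have P := S.toSp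
  have nc1 := S.csa.nc hy nc
  obtain ⟨E, hE⟩ : ∃ E, E = A + 500 * k := ⟨_, rfl⟩
  rw [← hE]
  by_cases hB : Big d (1000001 * E) y (f * y * f⁻¹)
  · exfalso
    obtain ⟨x0, h0⟩ := exists_min d y S.ne.some
    have := S.p1_far hy ca hf (x0 := x0) le_rfl
    simp only [Fa, not_forall] at this
    obtain ⟨x, w, h1, h2, h3⟩ := this
    have h4 := P.dis_move (f * y * f⁻¹) x w
    have h5 := hB x
    obtain ⟨r, hr⟩ : ∃ r, r = d x0 x + d x0 (f⁻¹ • x) + d x0 (y • x0) + E + d x0 (a • x0) :=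
      ⟨_, rfl⟩
    obtain ⟨γ, ty, H⟩ := P.exists_ax h0 (by omega) (R := 800 * r) (by omega)
    obtain ⟨lo, hi, α, β, p, q, O⟩ := S.exists_ovl H nc1 (E := E) (r := r) (x := x) (by omega)
      (by omega) (by omega) (by omega) (by omega) (by omega) (by omega) (by omega) le_rfl
    exact S.p1_ax H ca hf (by omega) (by omega) (by omega) (by omega) O
  · simp only [Big, not_forall, not_or, not_le] at hB
    obtain ⟨x, h1, h2⟩ := hB
    obtain ⟨c, hc⟩ : ∃ c, c = f * y * f⁻¹ := ⟨_, rfl⟩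
    have e1 : d (f⁻¹ • x) (y • f⁻¹ • x) = d x (c • x) := by rw [hc, P.dis_conj']
    have e2 : d (f⁻¹ • x) ((c⁻¹ * y * c⁻¹⁻¹) • f⁻¹ • x) = d x (y • x) := by
      rw [P.dis_conj', inv_inv, smul_smul c, hc, hf, mul_inv_cancel_right, P.dis_comm ca.inv_left]
    have e3 := P.dis_mul (c⁻¹ * y) c⁻¹⁻¹ x
    have e4 := P.dis_mul c⁻¹ y x
    have e5 := P.dis_inv c x
    have e6 := P.dis_inv c⁻¹ x
    rw [← hc] at h2 nc1
    have := S.ai_sc (S.csa.nc hy fun h => nc1 (Commute.inv_left_iff.1 h).symm) (x := x)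
      (x' := f⁻¹ • x) (B := 3000003 * E) (by omega) (by omega) (by omega) (by omega)
    have e7 := P.dis_inv f x
    have e8 := P.dis_mul f c⁻¹ x
    rw [show f * c⁻¹ = a by rw [hc, hf]; group] at e8
    exact ⟨x, by omega, by omega, by omega⟩

theorem q_short {y c c' z : G} {x x1 : X} {T : ℕ} (hy : y ≠ 1) (cz : Commute z y)
    (e : c' = c * z) (nc : ¬ Commute c y) (h1 : d x (y • x) ≤ T) (h2 : d x (c • x) ≤ T)
    (h3 : d x1 (c' • x1) ≤ T) : d x (c' • x) ≤ 2 * A + 49 * T + 100 * k := by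
  have P := S.toSp
  have m := P.gr.met
  by_contra hn
  have q1 := P.sq_le c' (c'⁻¹ • x) x1
  rw [smul_inv_smul, P.inv_l c' x x] at q1
  have q2 := P.dis_inv c' x
  obtain ⟨j, j1, j2⟩ : ∃ j, 2 * j + T + k ≤ d x (c' • x) ∧ d x (c' • x) ≤ 2 * j + T + k + 1 :=
    ⟨(d x (c' • x) - T - k) / 2, by omega, by omega⟩
  obtain ⟨w, w1, w2⟩ := P.gr.geo.mid m x (c' • x) (s := j) (by omega)
  obtain ⟨w', w3, w4⟩ := P.gr.geo.mid m x (c'⁻¹ • x) (s := j) (by omega)
  have q3 := sync_le m P.hyp w1 w3 (z := c' • x) (z' := c'⁻¹ • x) (by omega) (by omega)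
    (by have := P.symm (c' • x) (c'⁻¹ • x); omega)
  have e1 : d (c' • x) ((c * y * c⁻¹) • c' • x) = d x (y • x) := by
    rw [P.dis_conj', e, smul_smul c⁻¹, inv_mul_cancel_left, P.dis_comm cz]
  have e2 : d (c'⁻¹ • x) (y • c'⁻¹ • x) = d x ((c * y * c⁻¹) • x) := by
    rw [P.dis_conj', e, mul_inv_rev, mul_smul, P.dis_comm cz.inv_left]
  have e3 := P.dis_mul (c * y) c⁻¹ x
  have e4 := P.dis_mul c y x
  have e5 := P.dis_inv c x
  have e6 := P.conv (c * y * c⁻¹) (p := x) (w := w) (q := c' • x) (K := 3 * T) (by omega)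
    (by omega) (by omega)
  have e7 := P.conv y (p := x) (w := w') (q := c'⁻¹ • x) (K := 3 * T) (by omega) (by omega)
    (by omega)
  have e8 := P.dis_move y w w'
  have := S.ai_sc (S.csa.nc hy nc) (x := x) (x' := w) (B := 3 * T + 6 * k) (by omega) (by omega)
    (by omega) (by omega)
  have := P.pos
  omega

theorem q_far {y s t z : G} {x0 : X} {K : ℕ} (hy : y ≠ 1) (hz : z ≠ 1) (cz : Commute z y)
    (e : t * y * t⁻¹ = s * y * s⁻¹ * z) (hK : d x0 (y • x0) + A + 100 * k ≤ K) :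
    ¬ Fa d K (200 * k) y (s * y * s⁻¹) := by
  intro h
  have P := S.toSp
  have := P.pos
  obtain ⟨x, x', B, -, -, hb⟩ := S.exists_br (c0 := s • x0) hy (conj_ne_one hy s) hK
    (by rw [P.dis_conj]; exact hK) fun u w h1 h2 => (h u w h1 h2).trans' (by omega)
  have B1 := P.br_lev B (by omega) 1
  have e1 : cs y (t * y * t⁻¹) 1 = cs y (s * y * s⁻¹) 1 := by
    simp only [cs, e]
    rw [show s * y * s⁻¹ * z * y * (s * y * s⁻¹ * z)⁻¹ =
      s * y * s⁻¹ * (z * y * z⁻¹) * (s * y * s⁻¹)⁻¹ by group, cz.mul_inv_cancel]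
  change Br d k K _ y _ x ((s * y * s⁻¹) • x) at B1
  by_cases h' : Fa d K (100 * k) y (t * y * t⁻¹)
  · obtain ⟨v, v', B', -⟩ := S.exists_br (c0 := t • x0) hy (conj_ne_one hy t) hK
      (by rw [P.dis_conj]; exact hK) h'
    have B2 := P.br_lev B' (by omega) 1
    rw [e1] at B2
    change Br d k K _ y _ v ((t * y * t⁻¹) • v) at B2
    have a1 := P.two_gt (P.br_far B1 (by omega) B2.g0.sh).1 B2.g1
    have a2 := P.two_gt (P.br_far (B1.symm P.gr.met) (by omega) B2.g1.sh).1 B2.g0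
    rw [e, mul_smul _ z, P.inv] at a1
    have a3 := B.l0 z hz cz
    have a4 := P.tri x (z • v) (z • x)
    have a5 := P.inv z v x
    have a6 := P.symm v x
    omega
  · simp only [Fa, not_forall] at h'
    obtain ⟨u, w, h1, h2, h3⟩ := h'
    have a1 := P.dis_move (t * y * t⁻¹) u w
    have a2 := P.br_dist B1 (by omega) (w := (t * y * t⁻¹) • u) h1 (by
      rw [← e1]
      exact (P.dis_conj _ _ _).le.trans h1)
    have a3 := (P.br_dbl B (by omega)).1
    have a4 := h x x' B.g0.sh B.g1.sh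
    omega

theorem q_big {y s t z : G} (p1 : P1 G) (hy : y ≠ 1) (hz : z ≠ 1) (cz : Commute z y)
    (e : t * y * t⁻¹ = s * y * s⁻¹ * z) (n1 : ¬ Commute y (s * y * s⁻¹))
    (n2 : ¬ Commute y (t * y * t⁻¹)) : ¬ Big d (1000001 * (A + 500 * k)) y (s * y * s⁻¹) := by
  intro hB
  have P := S.toSp
  have := P.pos
  have e' : s * y * s⁻¹ = t * y * t⁻¹ * z⁻¹ := by rw [e, mul_inv_cancel_right]
  obtain ⟨E, hE⟩ : ∃ E, E = A + 500 * k := ⟨_, rfl⟩
  rw [← hE] at hB
  obtain ⟨x0, h0⟩ := exists_min d y S.ne.some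
  have f1 := S.q_far hy hz cz e (x0 := x0) le_rfl
  have f2 := S.q_far hy (inv_ne_one.2 hz) cz.inv_left e' (x0 := x0) le_rfl
  simp only [Fa, not_forall] at f1 f2
  obtain ⟨x, w, h1, h2, h3⟩ := f1
  obtain ⟨x', w', h1', h2', h3'⟩ := f2
  have h4 := P.dis_move (s * y * s⁻¹) x w
  have h4' := P.dis_move (t * y * t⁻¹) x' w'
  have h5 := hB x
  by_cases hw : ∃ w, d w (z • w) ≤ 20001 * E
  · obtain ⟨v, hv⟩ := hw
    have tb := fun u => P.tube h0 (by omega) cz u v
    have a1 := tb x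
    have a2 := tb (s⁻¹ • x)
    have a3 := tb (t⁻¹ • x)
    rw [← P.dis_conj', ← P.dis_conj'] at a2 a3
    have a4 := P.dis_mul (s * y * s⁻¹) z x
    rw [← e] at a4
    have a5 := P.dis_comm (commute_conj cz.symm s) x
    have a6 := P.dis_comm (commute_conj cz.symm t) x
    have a7 := P.dis_move (t * z * t⁻¹) ((s * y * s⁻¹) • x) ((t * y * t⁻¹) • x)
    have a8 : d ((s * y * s⁻¹) • x) ((t * y * t⁻¹) • x) = d x (z • x) := by
      rw [e, mul_smul _ z, P.inv]
    have a9 := h0 (s⁻¹ • x)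
    rw [← P.dis_conj'] at a9
    have := S.ai_sc (a := s * z * s⁻¹) (b := t * z * t⁻¹) (x := x) (x' := (s * y * s⁻¹) • x)
      (B := 80012 * E) (fun c => ?_) (by omega) (by omega) (by omega) (by omega)
    · omega
    have c1 := S.ct _ _ _ (conj_ne_one hz t)
      (S.ct _ _ _ (conj_ne_one hz s) (commute_conj cz.symm s) c) (commute_conj cz t)
    rw [e] at c1
    have c2 : Commute (s * y * s⁻¹) z := by
      have := (Commute.refl (s * y * s⁻¹)).inv_right.mul_right c1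
      rwa [inv_mul_cancel_left] at this
    exact n1 (S.ct _ _ _ hz c2 cz).symm
  · simp only [not_exists, not_le] at hw
    obtain ⟨r, hr⟩ : ∃ r, r = d x0 x + d x0 (s⁻¹ • x) + d x0 x' + d x0 (t⁻¹ • x') +
      d x0 (y • x0) + E + d x0 (z • x0) := ⟨_, rfl⟩
    obtain ⟨γ, ty, H⟩ := P.exists_ax h0 (by omega) (R := 800 * r) (by omega)
    obtain ⟨lo, hi, α, β, p, q, O⟩ := S.exists_ovl H n1 (E := E) (r := r) (x := x) (by omega)
      (by omega) (by omega) (by omega) (by omega) (by omega) (by omega) (by omega) le_rfl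
    obtain ⟨lo', hi', α', β', p', q', O'⟩ := S.exists_ovl H n2 (E := E) (r := r) (x := x')
      (by omega) (by omega) (by omega) (by omega) (by omega) (by omega) (by omega) (by omega) le_rfl
    obtain ⟨ζ, z1, z2, z3⟩ := H.tl z cz (by omega)
    obtain ⟨ζ', y1, y2, y3⟩ := H.tl z⁻¹ cz.inv_left (by rw [P.dis_inv]; omega)
    have b1 := P.ax_tl_le H z1 z2 z3 x0
    have b2 := P.ax_tl_le H y1 y2 y3 x0
    rw [P.dis_inv] at b2
    have b3 := z3 0 (by omega) (by omega)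
    have b4 := y3 0 (by omega) (by omega)
    have b5 := y3 (0 + ζ) (by omega) (by omega)
    have b6 := hw (γ 0)
    have b7 := P.tri (γ 0) (γ (0 + ζ)) (z • γ 0)
    have b8 := P.tri (γ 0) (γ (0 + ζ')) (z⁻¹ • γ 0)
    have b9 := P.tri (γ 0) (z⁻¹ • γ (0 + ζ)) (γ (0 + ζ + ζ'))
    rw [P.dis_inv] at b8
    rw [P.inv_r] at b9
    have c1 := H.gz.lip 0 (0 + ζ)
    have c2 := H.gz.lip 0 (0 + ζ')
    have c3 := H.gz.ge (i := 0) (j := 0 + ζ + ζ') (by omega) (by omega) (by omega) (by omega)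
    have c4 := P.symm (γ (0 + ζ)) (z • γ 0)
    have c5 := P.symm (γ (0 + ζ')) (z⁻¹ • γ 0)
    rcases lt_or_ge ζ 0 with hs | hs
    · obtain ⟨T, rfl⟩ : ∃ T : ℕ, ζ = -T := ⟨(-ζ).toNat, by omega⟩
      rw [abs_of_nonpos (by omega)] at c1
      exact S.q_ax H p1 hz cz e (by omega) (by omega) (by omega) (by omega) (by omega) (by omega)
        z3 O O'
    · rw [abs_of_nonneg (by omega)] at c1
      obtain ⟨T, rfl⟩ : ∃ T : ℕ, ζ' = -T := ⟨(-ζ').toNat, by omega⟩
      rw [abs_of_nonpos (by omega)] at c2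
      exact S.q_ax H p1 (inv_ne_one.2 hz) cz.inv_left e' (by omega) (by omega) (by omega)
        (by omega) (by omega) (by omega) y3 O' O

theorem q_red {y s t z : G} (p1 : P1 G) (hy : y ≠ 1) (hz : z ≠ 1) (cz : Commute z y)
    (e : t * y * t⁻¹ = s * y * s⁻¹ * z) : ∃ x : X, d x (y • x) ≤ 60000000 * (A + 500 * k) ∧
      d x ((s * y * s⁻¹) • x) ≤ 60000000 * (A + 500 * k) ∧
      d x ((t * y * t⁻¹) • x) ≤ 60000000 * (A + 500 * k) := by
  have P := S.toSp
  have n1 : ¬ Commute y (s * y * s⁻¹) := fun c => by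
    have c' : Commute y (t * y * t⁻¹) := e ▸ c.mul_right cz.symm
    rw [(S.csa y s hy c.symm).mul_inv_cancel, (S.csa y t hy c'.symm).mul_inv_cancel] at e
    exact hz (by simpa using e)
  have n2 : ¬ Commute y (t * y * t⁻¹) := fun c => n1 (by
    have := c.mul_right cz.symm.inv_right
    rwa [e, mul_inv_cancel_right] at this)
  have hB := S.q_big p1 hy hz cz e n1 n2
  simp only [Big, not_forall, not_or, not_le] at hB
  obtain ⟨x, h1, h2⟩ := hB
  have := S.q_short hy cz e (fun c => n1 c.symm) h1.le h2.le (x1 := t • x)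
    (by rw [P.dis_conj]; exact h1.le)
  exact ⟨x, by omega, by omega, by omega⟩

end XS

end Pool.Agent.Lib.MP_429c3d_al.Ng
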