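import Pool.Agent.Lib.MP_429c3d_al.NxSgn

set_option autoImplicit false
set_option linter.unusedSectionVars false

/-! Folding patterns along a geodesic. -/

namespace Pool.Agent.Lib.MP_429c3d_al.Ng

open Hyp

variable {G X : Type} [Group G] [MulAction G X] {d : X → X → ℕ} {k A K U e D : ℕ}

/-- A folding pattern along `γ`: hubs at the positions `p n` with flips `Y n ^ sgn n`. -/
structure Pat (d : X → X → ℕ) (γ : ℤ → X) (e D : ℕ) (y : G) (Y : ℕ → G) (p : ℕ → ℤ)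
    (n0 n1 : ℕ) : Prop where
  gap : ∀ n, n0 ≤ n → n < n1 → p n + D ≤ p (n + 1) + e ∧ p (n + 1) ≤ p n + D + e
  flip : ∀ i m, n0 ≤ m → m + 2 ^ i + 2 ^ i ≤ n1 → 2 ^ i ∣ m →
    Rv d γ e (Y (m + 2 ^ i) ^ sgn (m + 2 ^ i)) (2 * p (m + 2 ^ i)) (p m) (p (m + 2 ^ i))
  sym : ∀ i m, n0 ≤ m → m + 2 ^ i + 2 ^ i ≤ n1 → 2 ^ i ∣ m →
    p m + p (m + 2 ^ i + 2 ^ i) ≤ 2 * p (m + 2 ^ i) + e ∧
      2 * p (m + 2 ^ i) ≤ p m + p (m + 2 ^ i + 2 ^ i) + e
  alg : ∀ n, Y (n + 2) = Y (n + 1) ^ sgn (n + 1) * Y n * (Y (n + 1) ^ sgn (n + 1))⁻¹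
  conj : ∀ n, IsConj y (Y n)
  nc : ∀ n, ¬ Commute (Y n) (Y (n + 1))

/-- No non trivial element is short along a long piece of `γ`. -/
def Aper (G : Type) [Group G] [MulAction G X] (d : X → X → ℕ) (γ : ℤ → X) (e : ℕ) (lo hi : ℤ) :
    Prop :=
  ∀ (η : G) (B : ℕ) (i j : ℤ), η ≠ 1 → lo ≤ i → i ≤ j → j ≤ hi → d (γ i) (η • γ i) ≤ B →
    d (γ j) (η • γ j) ≤ B → j ≤ i + 200 * e + 64 * B

/-- The oriented edge `E` lies along `γ` from `s` to `t`. -/
structure Along (d : X → X → ℕ) (γ : ℤ → X) (U : ℕ) (x x' : X) (E : G × Bool) (s t : ℤ) :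
    Prop where
  le : s ≤ t
  tail : d (tl x x' E) (γ s) ≤ U
  head : d (hd x x' E) (γ t) ≤ U

/-- A fine bridge. -/
structure Fine (d : X → X → ℕ) (k A K U : ℕ) (y c : G) (x x' : X) : Prop where
  br : Br d k K (10 * k) y c x x'
  conj : IsConj y c
  hk : 100 * k ≤ U
  hA : A ≤ U
  hK : K ≤ U
  hD : d x x' ≤ U

variable {γ : ℤ → X} {a b : ℤ} {y c : G} {x x' : X} {Y : ℕ → G} {p : ℕ → ℤ} {n0 n1 : ℕ}

theorem Aper.mono {lo hi lo' hi' : ℤ} (h : Aper G d γ e lo hi) (h1 : lo ≤ lo') (h2 : hi' ≤ hi) :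
    Aper G d γ e lo' hi' := fun η B i j a1 a2 a3 a4 => h η B i j a1 (by omega) a3 (by omega)

theorem Pat.span (P : Pat d γ e D y Y p n0 n1) {m : ℕ} (hm : n0 ≤ m) (t : ℕ) (ht : m + t ≤ n1) :
    p m + t * D ≤ p (m + t) + t * e ∧ p (m + t) ≤ p m + t * D + t * e := by
  induction t with
  | zero => simp
  | succ t ih =>
    have := ih (by omega)
    have := P.gap (m + t) (by omega) (by omega)
    rw [← Nat.add_assoc]
    push_cast
    rw [add_mul, add_mul]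
    omega

theorem Pat.le (P : Pat d γ e D y Y p n0 n1) (h : e ≤ D) {m n : ℕ} (hm : n0 ≤ m) (hmn : m ≤ n)
    (hn : n ≤ n1) : p m ≤ p n := by
  induction n, hmn using Nat.le_induction with
  | base => exact le_rfl
  | succ n _ ih =>
    have := ih (by omega)
    have := P.gap n (by omega) (by omega)
    omega

theorem Pat.flip1 (P : Pat d γ e D y Y p n0 n1) {m : ℕ} (h0 : n0 ≤ m) (h1 : m + 2 ≤ n1) :
    Rv d γ e (Y (m + 1) ^ sgn (m + 1)) (2 * p (m + 1)) (p m) (p (m + 1)) ∧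
      p m + p (m + 2) ≤ 2 * p (m + 1) + e ∧ 2 * p (m + 1) ≤ p m + p (m + 2) + e :=
  ⟨P.flip 0 m h0 h1 (one_dvd m), P.sym 0 m h0 h1 (one_dvd m)⟩

/-- The first hub at or after a position. -/
theorem Pat.first (P : Pat d γ e D y Y p n0 n1) (h : n0 ≤ n1) {μ : ℤ} (h1 : μ ≤ p n1) :
    ∃ m, n0 ≤ m ∧ m ≤ n1 ∧ μ ≤ p m ∧ (m = n0 ∨ p m ≤ μ + D + e) := by
  classical
  have ex : ∃ m, n0 ≤ m ∧ m ≤ n1 ∧ μ ≤ p m := ⟨n1, h, le_rfl, h1⟩
  obtain ⟨a1, a2, a3⟩ := Nat.find_spec ex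
  refine ⟨_, a1, a2, a3, ?_⟩
  rcases a1.eq_or_lt with h2 | h2
  · exact Or.inl h2.symm
  · obtain ⟨m, hm⟩ : ∃ m, Nat.find ex = m + 1 := ⟨Nat.find ex - 1, by omega⟩
    have e1 := Nat.find_min ex (m := m) (by omega)
    have e2 := P.gap m (by omega) (by omega)
    rw [hm]
    omega

theorem Sp.rv_inv (S : Sp G d k) {f : G} {σ l l' : ℤ} (h : Rv d γ e f σ l l') :
    Rv d γ e f⁻¹ σ (σ - l') (σ - l) := by
  intro i h1 h2
  have := h (σ - i) (by omega) (by omega)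
  rwa [sub_sub_cancel, S.symm, ← S.inv_l] at this

theorem Sp.eq_of_near (S : Sp G d k) (hγ : GZ d γ a b) {lo hi : ℤ} (ap : Aper G d γ e lo hi)
    {g g' : G} {i j i1 i2 j1 j2 : ℤ} {e1 e2 δ : ℕ} (h1 : lo ≤ i) (h2 : j ≤ hi)
    (h3 : i + 200 * e + 64 * (e1 + e2 + δ) < j) (a1 : d (g • γ i) (γ i1) ≤ e1)
    (a2 : d (g' • γ i) (γ i2) ≤ e2) (a3 : d (g • γ j) (γ j1) ≤ e1) (a4 : d (g' • γ j) (γ j2) ≤ e2)
    (b1 : i1 ≤ i2 + δ) (b2 : i2 ≤ i1 + δ) (b3 : j1 ≤ j2 + δ) (b4 : j2 ≤ j1 + δ) : g = g' := by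
  by_contra hn
  have key : ∀ i i1 i2 : ℤ, d (g • γ i) (γ i1) ≤ e1 → d (g' • γ i) (γ i2) ≤ e2 → i1 ≤ i2 + δ →
      i2 ≤ i1 + δ → d (γ i) ((g⁻¹ * g') • γ i) ≤ e1 + e2 + δ := by
    intro i i1 i2 c1 c2 c3 c4
    have := hγ.lip' i1 i2 δ c3 c4
    have := S.tri (g • γ i) (γ i1) (g' • γ i)
    have := S.tri (γ i1) (γ i2) (g' • γ i)
    have := S.symm (γ i2) (g' • γ i)
    rw [mul_smul, S.inv_r]
    omega
  have := ap (g⁻¹ * g') _ i j (fun h => hn (inv_mul_eq_one.1 h)) h1 (by omega) h2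
    (key _ _ _ a1 a2 b1 b2) (key _ _ _ a3 a4 b3 b4)
  omega

/-- The pattern of a chain of bridges. -/
theorem Sp.exists_pat (S : Sp G d k) (hγ : GZ d γ a b) {e0 : ℕ} (B : Br d k K e0 y c x x')
    (he : e0 ≤ 25 * k) (hc : IsConj y c) (hk : 100 * k ≤ U) (hK : K ≤ U) (hD : 10 * U ≤ d x x')
    (g : G) (hn : n0 < n1) {s t : ℤ} (h1 : a ≤ s) (h2 : s ≤ t) (h3 : t ≤ b)
    (h4 : d (tl x x' (g * Hs y c n0, par n0)) (γ s) ≤ U)
    (h5 : d (hd x x' (g * Hs y c (n1 - 1), par (n1 - 1))) (γ t) ≤ U) :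
    ∃ p, Pat d γ (50 * U) (d x x') y (fun n => g * Ys y c n * g⁻¹) p n0 n1 ∧
      (∀ n, n0 ≤ n → n ≤ n1 → s ≤ p n ∧ p n ≤ t ∧
        d (tl x x' (g * Hs y c n, par n)) (γ (p n)) ≤ 3 * U) ∧
      p n0 ≤ s + 4 * U ∧ t ≤ p n1 + 5 * U := by
  have kp := S.pos
  obtain ⟨E, hE⟩ : ∃ E : ℕ → G × Bool, E = fun n => (g * Hs y c n, par n) := ⟨_, rfl⟩
  have eE : ∀ n, (g * Hs y c n, par n) = E n := fun n => by rw [hE]
  have rE : ∀ m n, m ≤ n → Reach y c (E m) (E n) := fun m n h => by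
    rw [← eE, ← eE]; exact Hs_reach B.ny B.nc g h
  simp only [eE] at h4 h5 ⊢
  have sh : ∀ n, d (tl x x' (E n)) ((g * Ys y c n * g⁻¹) ^ sgn n • tl x x' (E n)) ≤ K := by
    intro n
    have e1 : (g * Ys y c n * g⁻¹) ^ sgn n =
        g * Hs y c n * cond (par n) c y ^ sgn n * (g * Hs y c n)⁻¹ := by
      rw [← conj_zpow, Ys]; congr 1; group
    rw [e1, ← eE, tl, S.dis_conj]
    have := B.g0.sh
    have := B.g1.sh
    rcases sgn_cases n with h | h <;> rw [h] <;> cases par n <;>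
      simp only [cond_true, cond_false, zpow_one, zpow_neg, S.dis_inv] <;> assumption
  have nx : ∀ n, (g * Ys y c (n + 1) * g⁻¹) ^ sgn (n + 1) • hd x x' (E n) = tl x x' (E (n + 1)) := by
    intro n
    rw [← eE, ← eE, tl, hd, smul_smul, conj_zpow, Hs_succ, par_succ]
    cases par n <;> simp [mul_assoc]
  have ht : ∀ n, d (hd x x' (E n)) (tl x x' (E (n + 1))) ≤ K := by
    intro n
    have := sh (n + 1)
    rwa [← nx, S.inv, nx] at this
  have g1 := hγ.le h1 h2 h3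
  have gs : GZ d γ s t := hγ.mono h1 h3
  have ex : ∀ n, ∃ i, n0 ≤ n → n ≤ n1 → s ≤ i ∧ i ≤ t ∧ d (tl x x' (E n)) (γ i) ≤ 3 * U := by
    intro n
    by_cases hn0 : n0 ≤ n ∧ n ≤ n1
    swap
    · exact ⟨0, fun a1 a2 => (hn0 ⟨a1, a2⟩).elim⟩
    rcases hn0.2.eq_or_lt with rfl | hlt
    · obtain ⟨m, rfl⟩ : ∃ m, n = m + 1 := ⟨n - 1, by omega⟩
      refine ⟨t, fun _ _ => ⟨h2, le_rfl, ?_⟩⟩
      have := ht m
      have := S.tri (tl x x' (E (m + 1))) (hd x x' (E m)) (γ t)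
      have := S.symm (tl x x' (E (m + 1))) (hd x x' (E m))
      rw [Nat.add_sub_cancel] at h5
      omega
    · have e1 := S.reach_btw B (by omega) (rE n0 n hn0.1) (rE n (n1 - 1) (by omega))
      have e2 := S.edge_len (x := x) (x' := x') (E n)
      have t1 := S.tri (tl x x' (E n)) (tl x x' (E n0)) (γ s)
      have t2 := S.tri (tl x x' (E n)) (hd x x' (E n)) (γ t)
      have t3 := S.tri (hd x x' (E n)) (hd x x' (E (n1 - 1))) (γ t)
      have t4 := S.tri (tl x x' (E n0)) (γ s) (hd x x' (E (n1 - 1)))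
      have t5 := S.tri (γ s) (γ t) (hd x x' (E (n1 - 1)))
      have s1 := S.symm (tl x x' (E n)) (tl x x' (E n0))
      have s2 := S.symm (γ t) (hd x x' (E (n1 - 1)))
      obtain ⟨i, i1, i2, i3⟩ := S.near_gz gs h2 (tl x x' (E n)) (c := 4 * U + 53 * k) (by omega)
      exact ⟨i, fun _ _ => ⟨i1, i2, by omega⟩⟩
  choose p hp using ex
  have pos : ∀ n, n0 ≤ n → n ≤ n1 → p n ≤ s + d (tl x x' (E n0)) (tl x x' (E n)) + 4 * U ∧
      s + d (tl x x' (E n0)) (tl x x' (E n)) ≤ p n + 4 * U := by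
    intro n a1 a2
    obtain ⟨b1, b2, b3⟩ := hp n a1 a2
    have := gs.le le_rfl b1 b2
    have := S.tri (γ s) (tl x x' (E n0)) (γ (p n))
    have := S.tri (tl x x' (E n0)) (tl x x' (E n)) (γ (p n))
    have := S.tri (tl x x' (E n0)) (γ s) (tl x x' (E n))
    have := S.tri (γ s) (γ (p n)) (tl x x' (E n))
    have := S.symm (γ s) (tl x x' (E n0))
    have := S.symm (γ (p n)) (tl x x' (E n))
    omega
  have gap : ∀ n, n0 ≤ n → n < n1 → p n + d x x' ≤ p (n + 1) + 10 * U ∧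
      p (n + 1) ≤ p n + d x x' + 10 * U := by
    intro n a1 a2
    have e1 := pos n a1 a2.le
    have e2 := pos (n + 1) (by omega) a2
    have e3 : _ ≤ _ := S.beh_reach B (by omega) (rE n0 n a1) (S.beh_tl _ _)
    have e4 := S.edge_len (x := x) (x' := x') (E n)
    have e5 := ht n
    have t1 := S.tri (tl x x' (E n0)) (tl x x' (E (n + 1))) (hd x x' (E n))
    have t2 := S.tri (tl x x' (E n0)) (tl x x' (E n)) (tl x x' (E (n + 1)))
    have t3 := S.tri (tl x x' (E n)) (hd x x' (E n)) (tl x x' (E (n + 1)))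
    have s1 := S.symm (tl x x' (E (n + 1))) (hd x x' (E n))
    omega
  have mono : ∀ m n, n0 ≤ m → m ≤ n → n ≤ n1 → p m ≤ p n := by
    intro m n a1 a2 a3
    induction n, a2 using Nat.le_induction with
    | base => exact le_rfl
    | succ n _ ih =>
      have := ih (by omega)
      have := gap n (by omega) (by omega)
      omega
  have key : ∀ i m, n0 ≤ m → m + 2 ^ i + 2 ^ i ≤ n1 → 2 ^ i ∣ m →
      d ((g * Ys y c (m + 2 ^ i) * g⁻¹) ^ sgn (m + 2 ^ i) • γ (p m)) (γ (p (m + 2 ^ i + 2 ^ i))) ≤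
        7 * U ∧ d ((g * Ys y c (m + 2 ^ i) * g⁻¹) ^ sgn (m + 2 ^ i) • γ (p (m + 2 ^ i)))
        (γ (p (m + 2 ^ i))) ≤ 7 * U := by
    intro i m a1 a2 a3
    obtain ⟨r, hr⟩ : ∃ r, 2 ^ i = r + 1 := ⟨2 ^ i - 1, by have := Nat.two_pow_pos i; omega⟩
    have e1 := Hs_refl (y := y) (c := c) i r m
      (by rw [Nat.add_assoc, ← hr]; exact dvd_add a3 dvd_rfl) (by omega)
    have e2 : par (m + r + 1 + r) = !par m := by
      rw [← par_succ, par, par, show (m + r + 1 + r) % 2 = (m + 1) % 2 by omega]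
    rw [hr, ← Nat.add_assoc, ← Nat.add_assoc] at a2 ⊢
    obtain ⟨W, hW⟩ : ∃ W, W = (g * Ys y c (m + r + 1) * g⁻¹) ^ sgn (m + r + 1) := ⟨_, rfl⟩
    have e3 : W • tl x x' (E m) = hd x x' (E (m + r + 1 + r)) := by
      rw [← eE, ← eE, tl, hd, smul_smul, hW, conj_zpow, e1, e2]
      cases par m <;> simp [mul_assoc]
    have e4 := sh (m + r + 1)
    rw [← hW] at e4 ⊢
    have e5 := ht (m + r + 1 + r)
    have b1 := (hp m a1 (by omega)).2.2
    have b2 := (hp (m + r + 1) (by omega) (by omega)).2.2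
    have b3 := (hp (m + r + 1 + r + 1) (by omega) (by omega)).2.2
    have t1 := S.tri (W • γ (p m)) (W • tl x x' (E m)) (γ (p (m + r + 1 + r + 1)))
    have t2 := S.tri (hd x x' (E (m + r + 1 + r))) (tl x x' (E (m + r + 1 + r + 1)))
      (γ (p (m + r + 1 + r + 1)))
    have t3 := S.tri (W • γ (p (m + r + 1))) (W • tl x x' (E (m + r + 1))) (γ (p (m + r + 1)))
    have t4 := S.tri (W • tl x x' (E (m + r + 1))) (tl x x' (E (m + r + 1))) (γ (p (m + r + 1)))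
    rw [S.inv, S.symm (γ _) (tl x x' _)] at t1 t3
    rw [e3] at t1
    rw [S.symm (W • tl x x' _) (tl x x' _)] at t4
    omega
  have sym : ∀ i m, n0 ≤ m → m + 2 ^ i + 2 ^ i ≤ n1 → 2 ^ i ∣ m →
      p m + p (m + 2 ^ i + 2 ^ i) ≤ 2 * p (m + 2 ^ i) + 14 * U ∧
        2 * p (m + 2 ^ i) ≤ p m + p (m + 2 ^ i + 2 ^ i) + 14 * U := by
    intro i m a1 a2 a3
    obtain ⟨e1, e2⟩ := key i m a1 a2 a3
    generalize (g * Ys y c (m + 2 ^ i) * g⁻¹) ^ sgn (m + 2 ^ i) = W at e1 e2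
    generalize 2 ^ i = T at *
    have b1 := gs.le (hp m a1 (by omega)).1 (mono m (m + T) a1 (by omega) (by omega))
      (hp (m + T) (by omega) (by omega)).2.1
    have b2 := gs.le (hp (m + T) (by omega) (by omega)).1
      (mono (m + T) (m + T + T) (by omega) (by omega) a2) (hp (m + T + T) (by omega) a2).2.1
    have t1 := S.tri (W • γ (p m)) (γ (p (m + T + T))) (W • γ (p (m + T)))
    have t2 := S.tri (γ (p (m + T + T))) (γ (p (m + T))) (W • γ (p (m + T)))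
    have t3 := S.tri (γ (p (m + T))) (W • γ (p (m + T))) (γ (p (m + T + T)))
    have t4 := S.tri (W • γ (p (m + T))) (W • γ (p m)) (γ (p (m + T + T)))
    rw [S.inv] at t1 t4
    have s1 := S.symm (γ (p (m + T + T))) (γ (p (m + T)))
    have s2 := S.symm (γ (p (m + T))) (W • γ (p (m + T)))
    have s3 := S.symm (γ (p (m + T))) (γ (p m))
    omega
  refine ⟨p, ⟨fun n a1 a2 => ?_, fun i m a1 a2 a3 => ?_, fun i m a1 a2 a3 => ?_, fun n => ?_,
    Ys_conj hc g, Ys_nc (S.br_not_comm B (by omega)) g⟩, hp, ?_, ?_⟩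
  · have := gap n a1 a2
    omega
  · obtain ⟨e1, e2⟩ := key i m a1 a2 a3
    have e3 := sym i m a1 a2 a3
    generalize (g * Ys y c (m + 2 ^ i) * g⁻¹) ^ sgn (m + 2 ^ i) = W at e1 e2 ⊢
    generalize 2 ^ i = T at *
    have b1 := hp m a1 (by omega)
    have b2 := hp (m + T) (by omega) (by omega)
    have b3 := hp (m + T + T) (by omega) a2
    have b4 := mono (m + T) (m + T + T) (by omega) (by omega) a2
    have main : ∀ j, p m ≤ j → j ≤ p (m + T) → 2 * p (m + T) - j ≤ p (m + T + T) →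
        d (W • γ j) (γ (2 * p (m + T) - j)) ≤ 7 * U + 2 * k := by
      intro j c1 c2 c3
      have := S.sy ((S.gz_smul (gs.mono b1.1 b2.2.1) W).rev 0) (gs.mono b2.1 b3.2.1) (s := 7 * U)
        (by simpa using e2) (by simpa using e1) (i := -j) (j := 2 * p (m + T) - j) (by omega)
        (by omega) (by omega) c3 (by omega)
      simpa using this
    intro j c1 c2
    by_cases c3 : 2 * p (m + T) - j ≤ p (m + T + T)
    · exact (main j c1 c2 c3).trans (by omega)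
    · have e4 := main (2 * p (m + T) - p (m + T + T)) (by omega) (by omega) (by omega)
      have e5 := gs.lip' j (2 * p (m + T) - p (m + T + T)) (14 * U) (by omega) (by omega)
      have e6 := gs.lip' (2 * p (m + T) - (2 * p (m + T) - p (m + T + T))) (2 * p (m + T) - j)
        (14 * U) (by omega) (by omega)
      have t1 := S.tri (W • γ j) (W • γ (2 * p (m + T) - p (m + T + T))) (γ (2 * p (m + T) - j))
      have t2 := S.tri (W • γ (2 * p (m + T) - p (m + T + T)))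
        (γ (2 * p (m + T) - (2 * p (m + T) - p (m + T + T)))) (γ (2 * p (m + T) - j))
      rw [S.inv] at t1
      omega
  · have := sym i m a1 a2 a3
    omega
  · rw [Ys_two, conj_zpow]
    group
  · have := pos n0 le_rfl hn.le
    rw [S.self] at this
    omega
  · obtain ⟨m, rfl⟩ : ∃ m, n1 = m + 1 := ⟨n1 - 1, by omega⟩
    obtain ⟨b1, b2, b3⟩ := hp (m + 1) hn.le le_rfl
    have := gs.le b1 b2 le_rfl
    have := ht m
    have := S.tri (γ (p (m + 1))) (tl x x' (E (m + 1))) (γ t)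
    have := S.tri (tl x x' (E (m + 1))) (hd x x' (E m)) (γ t)
    have := S.symm (γ (p (m + 1))) (tl x x' (E (m + 1)))
    have := S.symm (tl x x' (E (m + 1))) (hd x x' (E m))
    rw [Nat.add_sub_cancel] at h5
    omega

/-- The pattern of level `j` on an edge of level `j + i`. -/
theorem Sp.pat_edge (S : Sp G d k) (hγ : GZ d γ a b) (F : Fine d k A K U y c x x') {j i : ℕ}
    {g : G} {o : Bool} {s t : ℤ} (E : Along d γ U x (lx y c x x' (j + i)) (g, o) s t) (h1 : a ≤ s)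
    (h3 : t ≤ b) (hD : 10 * U ≤ d x (lx y c x x' j)) :
    ∃ p, Pat d γ (50 * U) (d x (lx y c x x' j)) y
        (fun n => G0o y c g o (j + i) * Ys y (cs y c j) n * (G0o y c g o (j + i))⁻¹) p
        (n0o o i) (n0o o i + 2 ^ i) ∧
      (∀ n, n0o o i ≤ n → n ≤ n0o o i + 2 ^ i → s ≤ p n ∧ p n ≤ t ∧ d (tl x (lx y c x x' j)
        (G0o y c g o (j + i) * Hs y (cs y c j) n, par n)) (γ (p n)) ≤ 3 * U) ∧
      p (n0o o i) ≤ s + 4 * U ∧ t ≤ p (n0o o i + 2 ^ i) + 5 * U := by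
  have e := edge_ends (y := y) (c := c) x x' g o j i
  exact S.exists_pat hγ (S.br_lev F.br (by omega) j) (by omega) (isConj_cs F.conj j) F.hk F.hK hD _
    (Nat.lt_add_of_pos_right (Nat.two_pow_pos i)) h1 E.le h3 (by rw [e.1]; exact E.tail)
    (by rw [e.2]; exact E.head)

/-- The first level at which the bridge is long. -/
theorem Sp.exists_lev (S : Sp G d k) (F : Fine d k A K U y c x x') {θ L : ℕ} (h1 : U < θ)
    (h2 : θ ≤ d x (lx y c x x' L)) : ∃ j i, L = j + i ∧ θ ≤ d x (lx y c x x' j) ∧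
      d x (lx y c x x' j) ≤ 2 * θ + U := by
  classical
  have ex : ∃ j, θ ≤ d x (lx y c x x' j) := ⟨L, h2⟩
  have a1 := Nat.find_spec ex
  have a2 := Nat.find_min' ex h2
  refine ⟨Nat.find ex, L - Nat.find ex, by omega, a1, ?_⟩
  cases h : Nat.find ex with
  | zero =>
    have := F.hD
    change d x x' ≤ _
    omega
  | succ m =>
    have := Nat.find_min ex (m := m) (by omega)
    have := S.lev_dbl F.br (by omega) m
    have := F.hK
    omega

end Pool.Agent.Lib.MP_429c3d_al.Ng
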