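import Pool.Agent.Lib.MP_429c3d_al.NxAL

set_option autoImplicit false
set_option linter.unusedSectionVars false

/-! Two patterns on a common segment have a common block. -/

namespace Pool.Agent.Lib.MP_429c3d_al.Ng

open Hyp

variable {G X : Type} [Group G] [MulAction G X] {d : X → X → ℕ} {k A K U e D : ℕ}
  {γ : ℤ → X} {a b : ℤ} {y c : G} {x x' : X} {Y : ℕ → G} {p : ℕ → ℤ} {n0 n1 : ℕ}

theorem Pat.zpow_eq (P : Pat d γ e D y Y p n0 n1) (tf : TF G) (csa : CSA G) (hy : y ≠ 1) {g : G}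
    {m n : ℕ} {s t : ℤ} (h : g * Y m ^ s * g⁻¹ = Y n ^ t) : s = t := by
  obtain ⟨u, hu⟩ := isConj_iff.1 (P.conj m)
  obtain ⟨v, hv⟩ := isConj_iff.1 (P.conj n)
  rw [← hu, ← hv, conj_zpow, conj_zpow] at h
  refine conj_zpow_eq tf csa hy (g := v⁻¹ * g * u) ?_
  calc v⁻¹ * g * u * y ^ s * (v⁻¹ * g * u)⁻¹ = v⁻¹ * (g * (u * y ^ s * u⁻¹) * g⁻¹) * v := by group
    _ = _ := by rw [h]; group

theorem sgn_four {n : ℕ} (h : n % 2 = 1) : sgn (n + 4) = sgn n := by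
  rcases (show n % 4 = 1 ∨ n % 4 = 3 by omega) with h | h
  · rw [sgn_one h, sgn_one (by omega)]
  · rw [sgn_three h, sgn_three (by omega)]

/-- The conjugate of an inverse flip by a longer flip. -/
theorem Sp.rv_conj (S : Sp G d k) {f u : G} {μ ρ l c : ℤ} (hf : Rv d γ e f (2 * μ) (μ - ρ) μ)
    (hu : Rv d γ e u (2 * c) l c) (h1 : μ - ρ ≤ l) (h2 : l ≤ c) (h3 : 2 * c ≤ μ + l) :
    Rv d γ (3 * e) (f * u⁻¹ * f⁻¹) (2 * (2 * μ - c)) (2 * μ - 2 * c + l) (2 * μ - c) := by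
  intro j j1 j2
  have a1 := S.rv_inv hf j (by omega) (by omega)
  have a2 := S.rv_inv hu (2 * μ - j) (by omega) (by omega)
  have a3 := hf (2 * c - (2 * μ - j)) (by omega) (by omega)
  rw [show 2 * μ - (2 * c - (2 * μ - j)) = 2 * (2 * μ - c) - j by ring] at a3
  have m1 := S.mul_le (f * u⁻¹) f⁻¹ (γ j) (γ (2 * μ - j)) (γ (2 * (2 * μ - c) - j))
  have m2 := S.mul_le f u⁻¹ (γ (2 * μ - j)) (γ (2 * c - (2 * μ - j))) (γ (2 * (2 * μ - c) - j))
  omega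

/-- The range of a flip of exact level `T = 2 ^ i`.  If `N - 2 T - 1` or `N + 2 T + 1` is not an
index the bound follows from `Pat.span`.  Otherwise suppose `μ - ρ ≤ p (N - 2 T - 1)`; with
`w n = Y n ^ sgn n` the element `w N (w (N - 2 T))⁻¹ (w N)⁻¹` is a flip with error `3 e` at
`q = 2 μ - p (N - 2 T)` on `[q - D + e, q]`, and `|q - p (N + 2 T)| ≤ 16 e` by `P.sym` at
`N - T, N, N + T`; `eq_of_near` identifies it with `w (N + 2 T)`; but
`sgn (N - 2 T) = sgn (N + 2 T)` (`sgn_pow_mul`), contradiction with `conj_zpow_eq`. -/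
theorem Sp.range_le (S : Sp G d k) (tf : TF G) (csa : CSA G) (hγ : GZ d γ a b)
    (P : Pat d γ e D y Y p n0 n1) (hy : y ≠ 1) (ap : Aper G d γ e (p n0) (p n1))
    (hD : 3000 * e ≤ D) (he : 1 ≤ e) {i r N : ℕ} (hN : N = 2 ^ i * (2 * r + 1)) (h1 : n0 < N)
    (h2 : N < n1) {μ ρ : ℤ} (hf : Rv d γ e (Y N ^ sgn N) (2 * μ) (μ - ρ) μ) (h4 : p n0 ≤ μ - ρ)
    (h5 : μ + ρ ≤ p n1) (h6 : μ ≤ p N + 6 * e) (h7 : p N ≤ μ + 6 * e) :
    ρ ≤ (2 * 2 ^ i + 1) * (D + e) + 6 * e := by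
  have T0 := Nat.two_pow_pos i
  have eD : e ≤ D := by omega
  obtain ⟨W, hW⟩ : ∃ W : ℤ, W = (2 * 2 ^ i + 1) * (D + e) := ⟨_, rfl⟩
  have sp : ∀ m n, n0 ≤ m → m ≤ n → n ≤ n1 → n ≤ m + (2 * 2 ^ i + 1) → p n ≤ p m + W := by
    intro m n a1 a2 a3 a4
    obtain ⟨t, rfl⟩ := Nat.exists_eq_add_of_le a2
    have b1 := (P.span a1 t a3).2
    have b2 : (t : ℤ) ≤ 2 * 2 ^ i + 1 := by exact_mod_cast Nat.le_of_add_le_add_left a4
    have b3 := mul_le_mul_of_nonneg_right b2 (show (0 : ℤ) ≤ D + e by positivity)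
    rw [← hW, mul_add] at b3
    omega
  rw [← hW]
  by_contra hρ
  have c1 : n0 + (2 * 2 ^ i + 1) ≤ N := not_lt.1 fun h => by
    have := sp n0 N le_rfl h1.le h2.le h.le
    omega
  have c2 : N + (2 * 2 ^ i + 1) ≤ n1 := not_lt.1 fun h => by
    have := sp N n1 h1.le h2.le le_rfl h.le
    omega
  obtain ⟨r, rfl⟩ : ∃ r', r = r' + 1 := by
    cases r with
    | zero => omega
    | succ r => exact ⟨r, rfl⟩
  obtain ⟨M, hM⟩ : ∃ M, M + 1 = 2 ^ i * (2 * r + 1) :=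
    ⟨2 ^ i * (2 * r + 1) - 1, Nat.sub_add_cancel (Nat.mul_pos T0 (by omega))⟩
  have eN : N = M + 1 + 2 ^ i + 2 ^ i := by rw [hN, hM]; ring
  obtain ⟨Q, hQ⟩ : ∃ Q, Q + 1 = N + 2 ^ i + 2 ^ i := ⟨N + 2 ^ i + 2 ^ i - 1, by omega⟩
  have sg : sgn (Q + 1) = sgn (M + 1) := by
    rw [hQ, hM, hN, show 2 ^ i * (2 * (r + 1) + 1) + 2 ^ i + 2 ^ i = 2 ^ i * (2 * r + 1 + 4) by ring,
      sgn_pow_mul, sgn_pow_mul, sgn_four (by omega)]
  have d1 : 2 ^ i ∣ M + 1 := hM ▸ Dvd.intro _ rfl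
  have d2 : 2 ^ i ∣ M + 1 + 2 ^ i := (Nat.dvd_add_right d1).2 dvd_rfl
  have d3 : 2 ^ i ∣ N := hN ▸ Dvd.intro _ rfl
  have s1 := P.sym i (M + 1) (by omega) (by omega) d1
  have s2 := P.sym i (M + 1 + 2 ^ i) (by omega) (by omega) d2
  have s3 := P.sym i N (by omega) (by omega) d3
  rw [← eN] at s1 s2
  rw [← hQ] at s3
  have g1 := P.gap M (by omega) (by omega)
  have g2 := P.gap (M + 1) (by omega) (by omega)
  have g3 := P.gap (M + 1 + 1) (by omega) (by omega)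
  have g4 := P.le eD (m := M + 1 + 1 + 1) (n := N) (by omega) (by omega) (by omega)
  have g5 := P.gap Q (by omega) (by omega)
  have g6 := P.le eD (m := n0) (n := Q) le_rfl (by omega) (by omega)
  have g7 := P.le eD (m := Q + 1) (n := n1) (by omega) (by omega) le_rfl
  have g8 := sp M N (by omega) (by omega) (by omega) (by omega)
  have f1 := (P.flip1 (m := M) (by omega) (by omega)).1
  have f2 := (P.flip1 (m := Q) (by omega) (by omega)).1
  clear c1 c2 hM hN eN hQ d1 d2 d3 sp hW h1 h2 T0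
  have f3 := S.rv_conj hf f1 (by omega) (by omega) (by omega)
  have := S.eq_of_near hγ ap (i := p (Q + 1) - D + 17 * e) (j := p (Q + 1) - 16 * e) (δ := 32 * e)
    (by omega) (by omega) (by push_cast; omega) (f3 _ (by omega) (by omega))
    (f2 _ (by omega) (by omega)) (f3 _ (by omega) (by omega)) (f2 _ (by omega) (by omega))
    (by omega) (by omega) (by omega) (by omega)
  rw [← zpow_neg] at this
  have := P.zpow_eq tf csa hy this
  have := sgn_cases (M + 1)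
  omega

/-- `al` for the hub `n + 8` (range `p' (n + 8) - p' n ≥ 8 (D' - e)`) gives `N`, and for the hub
`n + 9` (range `p' (n + 9) - p' (n + 8)`) gives `N + q`, `q > 0`, `q (D - e) ≤ D' + 13 e`.
`range_le` for `N = T * odd` gives `2 q < T`; write `q = T1 * odd`; then `N + q = T1 * odd`, and
`range_le` for `N + q` gives `q < 3 T1`, so `q = T1` and `4 q ∣ T`. -/
theorem Sp.rig (S : Sp G d k) (tf : TF G) (csa : CSA G) (ct : CT G) (hγ : GZ d γ a b)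
    (P : Pat d γ e D y Y p n0 n1) (hy : y ≠ 1) (ap : Aper G d γ e (p n0) (p n1)) (hn : n0 ≤ n1)
    (h1 : a ≤ p n0) (h2 : p n1 ≤ b) (hD : 3000 * e ≤ D) (he : 1 ≤ e) {D' n0' n1' n : ℕ} {y' : G}
    {Y' : ℕ → G} {p' : ℕ → ℤ} (P' : Pat d γ e D' y' Y' p' n0' n1') (hD' : 15 * (D + e) ≤ D')
    (h8 : 8 ∣ n) (h3 : n0' ≤ n) (h4 : n + 16 ≤ n1') (h5 : p n0 ≤ p' n)
    (h6 : p' (n + 16) + e ≤ p n1) :
    ∃ N i, 4 * 2 ^ i ∣ N ∧ n0 < N ∧ N + 2 ^ i < n1 ∧ Y' (n + 8) = Y N ∧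
      Y' (n + 9) = Y (N + 2 ^ i) := by
  have eD : e ≤ D := by omega
  have eD' : e ≤ D' := by omega
  have f1 := P'.flip 3 n h3 (by omega) h8
  have s1 := P'.sym 3 n h3 (by omega) h8
  have s2 := (P'.span h3 8 (by omega)).1
  obtain ⟨f2, s3⟩ := P'.flip1 (m := n + 8) (by omega) (by omega)
  have s4 := P'.gap (n + 8) (by omega) (by omega)
  have s5 := P'.le eD' (m := n + 8 + 2) (n := n + 16) (by omega) (by omega) h4
  rw [show n + 2 ^ 3 + 2 ^ 3 = n + 16 by omega] at s1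
  rw [show n + 2 ^ 3 = n + 8 by omega] at f1 s1
  rw [show n + 8 + 1 = n + 9 by omega] at f2 s3 s4
  obtain ⟨ρ, hρ⟩ : ∃ ρ, p' n = p' (n + 8) - ρ := ⟨p' (n + 8) - p' n, by ring⟩
  obtain ⟨ρ', hρ'⟩ : ∃ ρ', p' (n + 8) = p' (n + 9) - ρ' := ⟨p' (n + 9) - p' (n + 8), by ring⟩
  rw [hρ] at f1
  rw [hρ'] at f2
  obtain ⟨N, a1, a2, a3, a4, a5⟩ := S.al tf csa ct hγ P hy ap hn h1 h2 hD he f1 (by omega)
    (by omega) (by omega)
  obtain ⟨N', b1, b2, b3, b4, b5⟩ := S.al tf csa ct hγ P hy ap hn h1 h2 hD he f2 (by omega)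
    (by omega) (by omega)
  have lt : N < N' := not_le.1 fun h => by
    have := P.le eD b1.le h a2.le
    omega
  obtain ⟨q, rfl⟩ := Nat.exists_eq_add_of_le lt.le
  have sp := (P.span a1.le q b2.le).1
  obtain ⟨i, m, ⟨r, rfl⟩, hN⟩ := Nat.exists_eq_two_pow_mul_odd (n := N) (by omega)
  obtain ⟨j, m', ⟨r', rfl⟩, hq⟩ := Nat.exists_eq_two_pow_mul_odd (n := q) (by omega)
  have r1 := S.range_le tf csa hγ P hy ap hD he hN a1 a2 (a3 ▸ f1) (by omega) (by omega) a4 a5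
  have zD : (3000 : ℤ) * e ≤ D := by exact_mod_cast hD
  have ze : (1 : ℤ) ≤ e := by exact_mod_cast he
  have zq : (1 : ℤ) ≤ q := by omega
  have k1 : 2 * q < 2 ^ i := not_le.1 fun h => by
    have z1 : (2 : ℤ) ^ i ≤ 2 * q := by exact_mod_cast h
    have z2 := mul_le_mul_of_nonneg_right (show 2 * 2 ^ i + 1 ≤ 4 * (q : ℤ) + 1 by omega)
      (show (0 : ℤ) ≤ D + e by positivity)
    have z3 := mul_le_mul_of_nonneg_left zD (show (0 : ℤ) ≤ q by omega)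
    have z4 := mul_le_mul_of_nonneg_right zq (show (0 : ℤ) ≤ D by omega)
    have z5 := mul_le_mul_of_nonneg_right zq (show (0 : ℤ) ≤ e by omega)
    have z6 : 8 * (q * D - q * e - 14 * e : ℤ) ≤ ρ := by omega
    nlinarith
  have k2 : 2 ^ j ≤ q := hq ▸ Nat.le_mul_of_pos_right _ (by omega)
  have k3 : j + 1 < i := (Nat.pow_lt_pow_iff_right (a := 2) (by omega)).1 (by omega)
  obtain ⟨l, rfl⟩ : ∃ l, i = j + 2 + l := ⟨i - (j + 2), by omega⟩
  have hN' : N + q = 2 ^ j * (2 * (2 * (2 ^ l * (2 * r + 1)) + r') + 1) := by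
    rw [hN, hq]
    ring
  have r2 := S.range_le tf csa hγ P hy ap hD he hN' b1 b2 (b3 ▸ f2) (by omega) (by omega) b4 b5
  have k4 : r' = 0 := by
    by_contra h
    have z0 : 2 ^ j * 3 ≤ q := hq ▸ Nat.mul_le_mul_left _ (by omega)
    have z1 : (2 : ℤ) ^ j * 3 ≤ q := by exact_mod_cast z0
    obtain ⟨T, hT⟩ : ∃ T : ℤ, T = 2 ^ j := ⟨_, rfl⟩
    rw [← hT] at z1 r2
    have z2 : 2 ≤ T := not_lt.1 fun h => by
      have := mul_le_mul_of_nonneg_right (show 2 * T + 1 ≤ 3 by omega)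
        (show (0 : ℤ) ≤ D + e by positivity)
      omega
    have z3 := mul_le_mul_of_nonneg_right z1 (show (0 : ℤ) ≤ D - e by omega)
    have z4 := mul_le_mul_of_nonneg_left zD (show (0 : ℤ) ≤ T by omega)
    have z5 := mul_le_mul_of_nonneg_right z2 (show (0 : ℤ) ≤ D by omega)
    have z6 := mul_le_mul_of_nonneg_right z2 (show (0 : ℤ) ≤ e by omega)
    have z7 : (q * D - q * e - 12 * e : ℤ) ≤ ρ' := by omega
    nlinarith
  subst k4
  have g1 : sgn (N + q) = 1 := by rw [hN', sgn_pow_mul, sgn_one (by omega)]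
  rw [g1, sgn_one (by omega), zpow_one, zpow_one] at b3
  rw [Nat.mul_zero, Nat.zero_add, Nat.mul_one] at hq
  subst hq
  refine ⟨N, j, ⟨2 ^ l * (2 * r + 1), by rw [hN]; ring⟩, a1, b2, ?_, b3⟩
  obtain ⟨g, hg⟩ := isConj_iff.1 ((P'.conj (n + 9)).symm.trans (P'.conj (n + 8)))
  have g2 := P.zpow_eq tf csa hy (g := g) (m := N + 2 ^ j) (n := N) (s := sgn (n + 8))
    (t := sgn N) (by rw [← conj_zpow, ← b3, hg, a3])
  rw [← g2] at a3
  rcases sgn_cases (n + 8) with h | h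
  · simpa [h] using a3
  · simpa [h] using a3

end Pool.Agent.Lib.MP_429c3d_al.Ng
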