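import Pool.Agent.Lib.MP_429c3d_al.NxD

set_option autoImplicit false
set_option linter.unusedSectionVars false

/-! The paper folding sequence and the folded words. -/

namespace Pool.Agent.Lib.MP_429c3d_al.Ng

open Hyp

/-- The paper folding signs. -/
def sgn (n : ℕ) : ℤ :=
  if n = 0 then 1 else if n % 2 = 1 then (if n % 4 = 1 then 1 else -1) else sgn (n / 2)
decreasing_by omega

/-- Parity. -/
def par (n : ℕ) : Bool := decide (n % 2 = 1)

theorem par_succ (n : ℕ) : par (n + 1) = !par n := by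
  unfold par
  rcases Nat.mod_two_eq_zero_or_one n with h | h
  · simp [h, show (n + 1) % 2 = 1 by omega]
  · simp [h, show (n + 1) % 2 = 0 by omega]

theorem nxSgn_par_congr {m n : ℕ} (h : m % 2 = n % 2) : par m = par n := by
  unfold par
  rw [h]

theorem nxSgn_par_even {n : ℕ} (h : n % 2 = 0) : par n = false := by
  simp [par, h]

theorem nxSgn_par_odd {n : ℕ} (h : n % 2 = 1) : par n = true := by
  simp [par, h]

theorem sgn_cases (n : ℕ) : sgn n = 1 ∨ sgn n = -1 := by
  induction n using Nat.strong_induction_on with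
  | _ n ih =>
    rw [sgn]
    split_ifs with h1 h2 h3
    · exact Or.inl rfl
    · exact Or.inl rfl
    · exact Or.inr rfl
    · exact ih _ (by omega)

theorem sgn_two_mul (n : ℕ) : sgn (2 * n) = sgn n := by
  by_cases h : n = 0
  · rw [h]
  · rw [sgn, if_neg (by omega), if_neg (by omega), show 2 * n / 2 = n by omega]

theorem sgn_one {n : ℕ} (h : n % 4 = 1) : sgn n = 1 := by
  rw [sgn, if_neg (by omega), if_pos (by omega), if_pos h]

theorem sgn_three {n : ℕ} (h : n % 4 = 3) : sgn n = -1 := by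
  rw [sgn, if_neg (by omega), if_pos (by omega), if_neg (by omega)]

theorem sgn_pow_mul (i n : ℕ) : sgn (2 ^ i * n) = sgn n := by
  induction i with
  | zero => rw [pow_zero, one_mul]
  | succ i ih => rw [pow_succ', mul_assoc, sgn_two_mul, ih]

theorem nxSgn_pow (i : ℕ) : sgn (2 ^ i) = 1 := by
  rw [← mul_one (2 ^ i), sgn_pow_mul, sgn_one rfl]

/-- Reflection in a multiple of `2 ^ i` (induction on `i`). -/
theorem sgn_refl (i : ℕ) : ∀ m s : ℕ, 2 ^ i ∣ m + s → 0 < s → s < 2 ^ i →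
    sgn (m + s + s) = -sgn m := by
  induction i with
  | zero => intro m s _ h1 h2; omega
  | succ i ih =>
    intro m s h h1 h2
    obtain ⟨a, ha⟩ := h
    rw [pow_succ', mul_assoc] at ha
    rw [pow_succ'] at h2
    rcases Nat.mod_two_eq_zero_or_one s with h3 | h3
    · obtain ⟨s', rfl⟩ : ∃ s', s = 2 * s' := ⟨s / 2, by omega⟩
      obtain ⟨m', rfl⟩ : ∃ m', m = 2 * m' := ⟨m / 2, by omega⟩
      rw [show 2 * m' + 2 * s' + 2 * s' = 2 * (m' + s' + s') by ring, sgn_two_mul, sgn_two_mul]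
      exact ih m' s' ⟨a, by omega⟩ (by omega) (by omega)
    · by_cases h4 : m % 4 = 1
      · rw [sgn_one h4, sgn_three (by omega)]
      · rw [sgn_three (n := m) (by omega), sgn_one (by omega), neg_neg]

/-- Periodicity (induction on `i`). -/
theorem sgn_add (i : ℕ) : ∀ N t : ℕ, 4 * 2 ^ i ∣ N → 0 < t → t ≤ 2 ^ i → sgn (N + t) = sgn t := by
  have odd : ∀ N t : ℕ, N % 4 = 0 → t % 2 = 1 → sgn (N + t) = sgn t := by
    intro N t h1 h2
    by_cases h4 : t % 4 = 1
    · rw [sgn_one h4, sgn_one (by omega)]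
    · rw [sgn_three (n := t) (by omega), sgn_three (by omega)]
  induction i with
  | zero =>
    intro N t h h1 h2
    obtain ⟨a, ha⟩ := h
    exact odd N t (by omega) (by omega)
  | succ i ih =>
    intro N t h h1 h2
    obtain ⟨a, ha⟩ := h
    rw [pow_succ', mul_assoc, mul_assoc] at ha
    rw [pow_succ'] at h2
    rcases Nat.mod_two_eq_zero_or_one t with h3 | h3
    · obtain ⟨t', rfl⟩ : ∃ t', t = 2 * t' := ⟨t / 2, by omega⟩
      obtain ⟨N', rfl⟩ : ∃ N', N = 2 * N' := ⟨N / 2, by omega⟩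
      rw [← mul_add, sgn_two_mul, sgn_two_mul]
      exact ih N' t' ⟨a, by rw [mul_assoc]; omega⟩ (by omega) (by omega)
    · exact odd N t (by omega) h3

theorem nxSgn_mid {q M n0 N : ℕ} (hq : 0 < q) (h0 : n0 = 0 ∨ n0 = 2 * q * M) (h1 : n0 ≤ N)
    (h2 : N < n0 + 2 * q * M) :
    n0 < q * (2 * (N / (2 * q)) + 1) ∧ q * (2 * (N / (2 * q)) + 1) < n0 + 2 * q * M := by
  obtain ⟨c, rfl⟩ : ∃ c, n0 = 2 * q * c := by
    rcases h0 with rfl | rfl
    · exact ⟨0, rfl⟩
    · exact ⟨M, rfl⟩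
  have h3 : c ≤ N / (2 * q) := (Nat.le_div_iff_mul_le (by omega)).2 (by rwa [mul_comm])
  have h4 : N / (2 * q) < c + M :=
    (Nat.div_lt_iff_lt_mul (by omega)).2 (by rw [mul_comm, mul_add]; exact h2)
  constructor
  · calc 2 * q * c = q * (2 * c) := by ring
      _ < _ := Nat.mul_lt_mul_of_pos_left (by omega) hq
  · calc _ < q * (2 * (c + M)) := Nat.mul_lt_mul_of_pos_left (by omega) hq
      _ = _ := by ring

/-- The signs inside two blocks determine the position.  Induction: if `N ≡ n` modulo `2 ^ j`,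
`1 ≤ j ≤ i`, compare the signs in the middle of the aligned blocks of length `2 ^ j` that contain
`N` and `n`; this gives `N ≡ n` modulo `2 ^ (j + 1)`. -/
theorem sgn_up {i n0 n0' N n : ℕ} (h0 : n0 = 0 ∨ n0 = 2 ^ i) (h0' : n0' = 0 ∨ n0' = 2 ^ i)
    (h1 : n0 ≤ N) (h2 : N < n0 + 2 ^ i) (h3 : n0' ≤ n) (h4 : n < n0' + 2 ^ i) (hp : N % 2 = n % 2)
    (h : ∀ u v, u + n = v + N → n0 < u → u < n0 + 2 ^ i → n0' < v → v < n0' + 2 ^ i →
      sgn u = sgn v) : N = n ∧ n0 = n0' := by
  have key : ∀ j, j ≤ i → N % 2 ^ (j + 1) = n % 2 ^ (j + 1) := by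
    intro j
    induction j with
    | zero => exact fun _ => hp
    | succ j ih =>
      intro hj
      replace ih := ih (by omega)
      obtain ⟨l, rfl⟩ : ∃ l, i = j + 1 + l := ⟨i - (j + 1), by omega⟩
      have hq : 0 < 2 ^ j := Nat.two_pow_pos j
      have e1 : 2 ^ (j + 1) = 2 * 2 ^ j := pow_succ' 2 j
      have e2 : 2 ^ (j + 1 + l) = 2 * 2 ^ j * 2 ^ l := by rw [pow_add, e1]
      rw [e2] at h0 h0' h2 h4 h
      rw [pow_succ, Nat.mod_mul, Nat.mod_mul, ih, e1]
      rw [e1] at ih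
      obtain ⟨a1, a2⟩ := nxSgn_mid hq h0 h1 h2
      obtain ⟨b1, b2⟩ := nxSgn_mid hq h0' h3 h4
      have e3 := Nat.div_add_mod N (2 * 2 ^ j)
      have e4 := Nat.div_add_mod n (2 * 2 ^ j)
      have h5 := h _ _ (by rw [ih] at e3; linarith) a1 a2 b1 b2
      rw [sgn_pow_mul, sgn_pow_mul] at h5
      congr 2
      generalize N / (2 * 2 ^ j) = a at h5
      generalize n / (2 * 2 ^ j) = b at h5
      by_contra h6
      by_cases h7 : a % 2 = 0
      · rw [sgn_one (by omega), sgn_three (by omega)] at h5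
        omega
      · rw [sgn_three (by omega), sgn_one (by omega)] at h5
        omega
  have h5 := key i le_rfl
  rw [Nat.mod_eq_of_lt (by rw [pow_succ]; omega),
    Nat.mod_eq_of_lt (by rw [pow_succ]; omega)] at h5
  omega

variable {G : Type} [Group G]

/-- The folded words. -/
def Hs (y c : G) : ℕ → G
  | 0 => 1
  | n + 1 => Hs y c n * cond (par (n + 1)) c y ^ sgn (n + 1)

/-- The generators at the hubs. -/
def Ys (y c : G) (n : ℕ) : G := Hs y c n * cond (par n) c y * (Hs y c n)⁻¹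

variable {y c : G}

theorem nxSgn_Ys (n : ℕ) :
    Ys y c (n + 1) = Hs y c n * cond (par (n + 1)) c y * (Hs y c n)⁻¹ := by
  rw [Ys, Hs]
  group

theorem Hs_succ (n : ℕ) : Hs y c (n + 1) = Ys y c (n + 1) ^ sgn (n + 1) * Hs y c n := by
  rw [nxSgn_Ys, conj_zpow, inv_mul_cancel_right, Hs]

theorem Ys_succ (n : ℕ) : Ys y c (n + 1) = Hs y c n * cond (par (n + 1)) c y * (Hs y c n)⁻¹ :=
  nxSgn_Ys n

/-- Reflection of the words (induction on `t`, by `sgn_refl`). -/
theorem Hs_refl (i t : ℕ) : ∀ m : ℕ, 2 ^ i ∣ m + t + 1 → t < 2 ^ i →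
    Hs y c (m + t + 1 + t) = Ys y c (m + t + 1) ^ sgn (m + t + 1) * Hs y c m := by
  induction t with
  | zero => exact fun m _ _ => Hs_succ m
  | succ t ih =>
    intro m h1 h2
    have e : m + (t + 1) + 1 = m + 1 + t + 1 := by ring
    rw [e] at h1 ⊢
    have h3 := sgn_refl i (m + 1) (t + 1) h1 (by omega) h2
    rw [show m + 1 + (t + 1) + (t + 1) = m + 1 + t + 1 + t + 1 by ring] at h3
    rw [← add_assoc, Hs, ih (m + 1) h1 (by omega), h3, Hs,
      nxSgn_par_congr (m := m + 1 + t + 1 + t + 1) (n := m + 1) (by omega)]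
    group

theorem Ys_two (n : ℕ) : Ys y c (n + 2) =
    Ys y c (n + 1) ^ sgn (n + 1) * Ys y c n * (Ys y c (n + 1) ^ sgn (n + 1))⁻¹ := by
  rw [Ys_succ (n + 1), Hs_succ, Ys.eq_1 y c n,
    nxSgn_par_congr (m := n + 1 + 1) (n := n) (by omega)]
  group

theorem nxSgn_Hs_one : Hs y c 1 = c := by
  rw [Hs, Hs, sgn_one rfl, nxSgn_par_odd rfl, one_mul, zpow_one]
  rfl

theorem Hs_pow (i : ℕ) : Hs y c (2 ^ (i + 1) - 1) = cs y c i := by
  induction i with
  | zero => exact nxSgn_Hs_one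
  | succ i ih =>
    obtain ⟨t, ht⟩ : ∃ t, 2 ^ (i + 1) = t + 1 := ⟨2 ^ (i + 1) - 1, by
      have := Nat.two_pow_pos (i + 1)
      omega⟩
    have h1 := Hs_refl (y := y) (c := c) (i + 1) t 0 (by rw [zero_add, ht]) (by omega)
    have h2 : (t + 1) % 2 = 0 := by rw [← ht, pow_succ]; omega
    rw [ht, Nat.add_sub_cancel] at ih
    rw [zero_add, Ys_succ, ih, nxSgn_par_even h2, ← ht, nxSgn_pow, zpow_one, Hs, mul_one] at h1
    rw [show 2 ^ (i + 1 + 1) - 1 = 2 ^ (i + 1) + t by rw [pow_succ 2 (i + 1)]; omega, h1]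
    rfl

theorem Hs_add (i N : ℕ) (h : 4 * 2 ^ i ∣ N) (t : ℕ) (ht : t ≤ 2 ^ i) :
    Hs y c (N + t) = Hs y c N * Hs y c t := by
  have h2 : N % 2 = 0 := by
    obtain ⟨a, ha⟩ := h
    rw [mul_assoc] at ha
    omega
  induction t with
  | zero => rw [add_zero, Hs, mul_one]
  | succ t ih =>
    rw [← add_assoc, Hs, Hs, ih (by omega), add_assoc, sgn_add i N (t + 1) h (by omega) ht,
      nxSgn_par_congr (m := N + (t + 1)) (n := t + 1) (by omega), mul_assoc]

theorem Ys_even {N : ℕ} (h : N % 2 = 0) : Ys y c N = Hs y c N * y * (Hs y c N)⁻¹ := by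
  rw [Ys, nxSgn_par_even h]
  rfl

theorem nxSgn_Hs_pow (i : ℕ) : Hs y c (2 ^ (i + 1)) = cs y c i * y := by
  obtain ⟨t, ht⟩ : ∃ t, 2 ^ (i + 1) = t + 1 := ⟨2 ^ (i + 1) - 1, by
    have := Nat.two_pow_pos (i + 1)
    omega⟩
  have h1 := Hs_pow (y := y) (c := c) i
  have h2 : (t + 1) % 2 = 0 := by rw [← ht, pow_succ]; omega
  rw [ht, Nat.add_sub_cancel] at h1
  rw [ht, Hs, h1, nxSgn_par_even h2, ← ht, nxSgn_pow, zpow_one]
  rfl

theorem nxSgn_Ys_pow (i : ℕ) : Ys y c (2 ^ i) = cs y c i := by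
  cases i with
  | zero =>
    rw [pow_zero, Ys, nxSgn_Hs_one, nxSgn_par_odd rfl]
    exact mul_inv_cancel_right c c
  | succ i =>
    rw [Ys_even (by rw [pow_succ]; omega), nxSgn_Hs_pow, cs]
    group

theorem Ys_block (i N : ℕ) (h : 4 * 2 ^ i ∣ N) :
    Ys y c (N + 2 ^ i) = Hs y c N * cs y c i * (Hs y c N)⁻¹ := by
  have h2 : N % 2 = 0 := by
    obtain ⟨a, ha⟩ := h
    rw [mul_assoc] at ha
    omega
  rw [← nxSgn_Ys_pow, Ys, Ys, Hs_add i N h _ le_rfl,
    nxSgn_par_congr (m := N + 2 ^ i) (n := 2 ^ i) (by omega)]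
  group

theorem Hs_step (n : ℕ) : Hs y (c * y * c⁻¹) n = Hs y c (2 * n + n % 2) := by
  induction n with
  | zero => rfl
  | succ n ih =>
    have e : sgn (2 * n + 1 + 1) = sgn (n + 1) := sgn_two_mul (n + 1)
    rcases Nat.mod_two_eq_zero_or_one n with h | h
    · rw [h, add_zero] at ih
      rw [show 2 * (n + 1) + (n + 1) % 2 = 2 * n + 1 + 1 + 1 by omega, Hs, Hs, Hs, Hs, ih, e,
        sgn_one (n := 2 * n + 1) (by omega), sgn_three (n := 2 * n + 1 + 1 + 1) (by omega),
        nxSgn_par_odd (n := n + 1) (by omega), nxSgn_par_odd (n := 2 * n + 1) (by omega),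
        nxSgn_par_even (n := 2 * n + 1 + 1) (by omega),
        nxSgn_par_odd (n := 2 * n + 1 + 1 + 1) (by omega)]
      simp only [cond_true, cond_false, conj_zpow]
      group
    · rw [h] at ih
      rw [show 2 * (n + 1) + (n + 1) % 2 = 2 * n + 1 + 1 by omega, Hs, Hs, ih, e,
        nxSgn_par_even (n := n + 1) (by omega), nxSgn_par_even (n := 2 * n + 1 + 1) (by omega)]
      rfl

theorem Hs_lev (i N : ℕ) (h : N % 2 = 0) : Hs y (cs y c i) N = Hs y c (2 ^ i * N) := by
  induction i generalizing N with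
  | zero => rw [pow_zero, one_mul, cs]
  | succ i ih => rw [cs, Hs_step, h, add_zero, ih _ (by omega), pow_succ, mul_assoc]

theorem Hs_succ_edge (hy : y ≠ 1) (hc : c ≠ 1) (g : G) (n : ℕ) :
    Succ y c (g * Hs y c n, par n) (g * Hs y c (n + 1), par (n + 1)) := by
  have e : (g * Hs y c n)⁻¹ * (g * Hs y c (n + 1)) = cond (par (n + 1)) c y ^ sgn (n + 1) := by
    rw [Hs]
    group
  have h1 : cond (par (n + 1)) c y ≠ 1 := by
    cases par (n + 1)
    exacts [hy, hc]
  refine ⟨par_succ n, ?_, ?_⟩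
  · change (g * Hs y c n)⁻¹ * (g * Hs y c (n + 1)) ≠ 1
    rw [e]
    rcases sgn_cases (n + 1) with h | h
    · rwa [h, zpow_one]
    · rwa [h, zpow_neg_one, inv_ne_one]
  · change Commute ((g * Hs y c n)⁻¹ * (g * Hs y c (n + 1))) (cond (par (n + 1)) c y)
    rw [e]
    exact Commute.zpow_self _ _

theorem Hs_reach (hy : y ≠ 1) (hc : c ≠ 1) (g : G) {m n : ℕ} (h : m ≤ n) :
    Reach y c (g * Hs y c m, par m) (g * Hs y c n, par n) := by
  induction h with
  | refl => exact Relation.ReflTransGen.refl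
  | step _ ih => exact Relation.ReflTransGen.tail ih (Hs_succ_edge hy hc g _)

theorem Ys_conj (h : IsConj y c) (g : G) (n : ℕ) : IsConj y (g * Ys y c n * g⁻¹) := by
  have h1 : IsConj y (cond (par n) c y) := by
    cases par n
    exacts [IsConj.refl y, h]
  exact (h1.trans (isConj_iff.2 ⟨Hs y c n, rfl⟩)).trans (isConj_iff.2 ⟨g, rfl⟩)

theorem Ys_nc (h : ¬ Commute y c) (g : G) (n : ℕ) :
    ¬ Commute (g * Ys y c n * g⁻¹) (g * Ys y c (n + 1) * g⁻¹) := by
  rw [comm_conj_iff, Ys_succ, Ys, comm_conj_iff, par_succ]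
  cases par n
  exacts [h, fun e => h e.symm]

/-- The first index of an oriented edge. -/
def n0o (o : Bool) (i : ℕ) : ℕ := cond o (2 ^ i) 0

/-- The translate of the standard pattern that carries an oriented edge. -/
def G0o (y c g : G) (o : Bool) (L : ℕ) : G := cond o (g * (cs y c L)⁻¹) g

/-- The edge of level `j + i` is a union of `2 ^ i` edges of level `j`. -/
theorem edge_ends {X : Type} [MulAction G X] (x x' : X) (g : G) (o : Bool) (j i : ℕ) :
    tl x (lx y c x x' j) (G0o y c g o (j + i) * Hs y (cs y c j) (n0o o i), par (n0o o i)) =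
      tl x (lx y c x x' (j + i)) (g, o) ∧
    hd x (lx y c x x' j) (G0o y c g o (j + i) * Hs y (cs y c j) (n0o o i + 2 ^ i - 1),
      par (n0o o i + 2 ^ i - 1)) = hd x (lx y c x x' (j + i)) (g, o) := by
  have odd : ∀ i : ℕ, par (2 ^ (i + 1) - 1) = true := fun i => nxSgn_par_odd (by
    have := Nat.two_pow_pos i
    rw [pow_succ]
    omega)
  cases o
  · simp only [n0o, G0o, cond_false, zero_add]
    constructor
    · rw [Hs, mul_one, nxSgn_par_even rfl]
      rfl
    · cases i with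
      | zero =>
        rw [pow_zero, Nat.sub_self, Hs, mul_one, nxSgn_par_even rfl]
        rfl
      | succ i =>
        rw [Hs_pow, cs_add, odd, ← add_assoc, lx_succ]
        exact mul_smul g _ x
  · simp only [n0o, G0o, cond_true]
    constructor
    · cases i with
      | zero =>
        rw [pow_zero, nxSgn_Hs_one, add_zero, inv_mul_cancel_right, nxSgn_par_odd rfl]
      | succ i =>
        have e : g * (cs y c (j + (i + 1)))⁻¹ * (cs y c (j + i) * y) = g * cs y c (j + i) := by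
          rw [← add_assoc, cs]
          group
        rw [nxSgn_Hs_pow, cs_add, e, nxSgn_par_even (by rw [pow_succ]; omega), ← add_assoc,
          lx_succ]
        exact mul_smul g _ x
    · rw [← two_mul, ← pow_succ', Hs_pow, cs_add, odd, inv_mul_cancel_right]
      rfl

/-- Iterates of pairs without predecessor. -/
theorem cs_inj (qq : QQ G) (csa : CSA G) {c' : G} (hy : y ≠ 1) (h : IsConj y c) (h' : IsConj y c')
    (n1 : ∀ f, IsConj y f → f * y * f⁻¹ ≠ c) (n2 : ∀ f, IsConj y f → f * y * f⁻¹ ≠ c') {i j : ℕ}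
    (e : cs y c i = cs y c' j) : i = j ∧ c = c' := by
  have step : ∀ a b : G, IsConj y a → IsConj y b → a * y * a⁻¹ = b * y * b⁻¹ → a = b := by
    intro a b ha hb e
    obtain ⟨t, ht⟩ := isConj_iff.1 ha
    obtain ⟨s, hs⟩ := isConj_iff.1 hb
    have := qq y s t (b⁻¹ * a) hy (by
      rw [Commute, SemiconjBy]
      calc _ = b⁻¹ * (a * y * a⁻¹) * a := by group
        _ = _ := by rw [e]; group) (by rw [ht, hs]; group)
    exact (inv_mul_eq_one.1 this).symm
  induction i generalizing j with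
  | zero =>
    cases j with
    | zero => exact ⟨rfl, e⟩
    | succ j => exact absurd e.symm (n1 _ (isConj_cs h' j))
  | succ i ih =>
    cases j with
    | zero => exact absurd e (n2 _ (isConj_cs h i))
    | succ j =>
      obtain ⟨h1, h2⟩ := ih (step _ _ (isConj_cs h i) (isConj_cs h' j) e)
      exact ⟨by rw [h1], h2⟩

end Pool.Agent.Lib.MP_429c3d_al.Ng
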