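import Pool.Agent.Lib.MP_429c3d_al.Check

/-! Word maps on the set of pairs of conjugate elements of a group satisfying the law. -/

set_option autoImplicit false

namespace Pool.Agent.Lib.MP_429c3d_al

variable {G : Type*} [Group G]

/-- the law `[x,y] = [x, (m+1) y]` -/
def Law (G : Type*) [Group G] (m : ℕ) : Prop :=
  ∀ x y : G, x⁻¹ * y⁻¹ * x * y = (fun z : G => z⁻¹ * y⁻¹ * z * y)^[m + 1] x

theorem iter_eq (y : G) (k : ℕ) (c : G) :
    (fun z : G => z⁻¹ * y⁻¹ * z * y)^[k] (c⁻¹ * y) =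
      (y⁻¹ ^ k * (fun z : G => z * y * z⁻¹)^[k] c * y ^ k)⁻¹ * y := by
  induction k with
  | zero => simp
  | succ k ih =>
    rw [Function.iterate_succ_apply', Function.iterate_succ_apply', ih, inv_pow, inv_pow]
    group

theorem Law.iter {m : ℕ} (h : Law G m) {y c : G} (hc : IsConj y c) :
    (fun z : G => z * y * z⁻¹)^[m] c = y ^ m * c * (y ^ m)⁻¹ := by
  obtain ⟨x, rfl⟩ := isConj_iff.1 hc
  have h1 := h x⁻¹ y
  have h2 : x⁻¹⁻¹ * y⁻¹ * x⁻¹ * y = (x * y * x⁻¹)⁻¹ * y := by group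
  rw [Function.iterate_succ_apply, h2, iter_eq, mul_left_inj, inv_inj, inv_pow] at h1
  generalize (fun z : G => z * y * z⁻¹)^[m] (x * y * x⁻¹) = w at h1 ⊢
  rw [h1]
  group

theorem Law.eq_of_commute {m : ℕ} (h : Law G (m + 1)) {y c : G} (hc : IsConj y c)
    (hcm : c * y = y * c) : c = y := by
  have h1 := h.iter hc
  have h2 : c * y * c⁻¹ = y := by rw [hcm]; group
  have h3 : Commute (y ^ (m + 1)) c := (Commute.symm hcm).pow_left _
  rw [Function.iterate_succ_apply, h2, Function.iterate_fixed (by group), h3.eq] at h1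
  rw [h1]
  group

theorem Law.eq_of_sq {m : ℕ} (h : Law G (m + 1)) {p q : G} (hc : IsConj p q)
    (h2 : p * p = q * q) : p = q := by
  have h3 : p * (p * q⁻¹) * p⁻¹ = (p * q⁻¹)⁻¹ := by
    rw [← mul_assoc, h2]
    group
  have h4 : (p * q⁻¹)⁻¹ = p * q⁻¹ := h.eq_of_commute (isConj_iff.2 ⟨p, h3⟩) (by group)
  rw [h4] at h3
  refine (h.eq_of_commute hc ?_).symm
  calc q * p = q * (p⁻¹ * (p * (p * q⁻¹) * p⁻¹) * p) * q := by group
    _ = p * q := by
      rw [h3]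
      group

/-- ordered pairs of conjugate elements -/
abbrev X (G : Type*) [Group G] := {P : G × G // IsConj P.1 P.2}

theorem isConj_conj {y c : G} (h : IsConj y c) (g : G) : IsConj y (g * c * g⁻¹) :=
  h.trans (isConj_iff.2 ⟨g, rfl⟩)

/-- swap -/
def sw : Equiv.Perm (X G) where
  toFun P := ⟨(P.1.2, P.1.1), P.2.symm⟩
  invFun P := ⟨(P.1.2, P.1.1), P.2.symm⟩
  left_inv _ := rfl
  right_inv _ := rfl

/-- conjugation by the first coordinate -/
def ca : Equiv.Perm (X G) where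
  toFun P := ⟨(P.1.1, P.1.1 * P.1.2 * P.1.1⁻¹), isConj_conj P.2 _⟩
  invFun P := ⟨(P.1.1, P.1.1⁻¹ * P.1.2 * P.1.1⁻¹⁻¹), isConj_conj P.2 _⟩
  left_inv P := Subtype.ext (Prod.ext rfl (by simp [mul_assoc]))
  right_inv P := Subtype.ext (Prod.ext rfl (by simp [mul_assoc]))

/-- conjugation by the second coordinate -/
def cb : Equiv.Perm (X G) := sw * ca * sw

theorem ca_zpow (k : ℤ) (P : X G) :
    ((ca ^ k) P).1 = (P.1.1, P.1.1 ^ k * P.1.2 * (P.1.1 ^ k)⁻¹) := by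
  induction k using Int.induction_on with
  | zero => simp
  | succ k ih =>
    rw [add_comm, zpow_add, zpow_one, Equiv.Perm.mul_apply]
    change (((ca ^ (k : ℤ)) P).1.1, ((ca ^ (k : ℤ)) P).1.1 * ((ca ^ (k : ℤ)) P).1.2 *
      ((ca ^ (k : ℤ)) P).1.1⁻¹) = _
    rw [ih]
    exact Prod.ext rfl (by group)
  | pred k ih =>
    rw [sub_eq_neg_add, zpow_add, zpow_neg_one, Equiv.Perm.mul_apply]
    change (((ca ^ (-k : ℤ)) P).1.1, ((ca ^ (-k : ℤ)) P).1.1⁻¹ * ((ca ^ (-k : ℤ)) P).1.2 *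
      ((ca ^ (-k : ℤ)) P).1.1⁻¹⁻¹) = _
    rw [ih]
    exact Prod.ext rfl (by group)

theorem cb_zpow (k : ℤ) (P : X G) :
    ((cb ^ k) P).1 = (P.1.2 ^ k * P.1.1 * (P.1.2 ^ k)⁻¹, P.1.2) := by
  have h : (cb : Equiv.Perm (X G)) ^ k = sw * ca ^ k * sw := conj_zpow (a := sw) (b := ca)
  rw [h]
  change (((ca ^ k) (sw P)).1.2, ((ca ^ k) (sw P)).1.1) = _
  rw [ca_zpow]
  rfl

/-- the map `(y, c) ↦ (y, c ^ k * y * c ^ (-k))` -/
def rho (k : ℤ) (P : X G) : X G :=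
  ⟨(P.1.1, P.1.2 ^ k * P.1.1 * (P.1.2 ^ k)⁻¹), isConj_conj (IsConj.refl _) _⟩

/-- `k`-th powers of distinct conjugate elements are distinct -/
def PowInj (G : Type*) [Group G] (k : ℤ) : Prop := ∀ p q : G, IsConj p q → p ^ k = q ^ k → p = q

theorem PowInj.neg {k : ℤ} (h : PowInj G k) : PowInj G (-k) := fun p q hc e =>
  h p q hc (by simpa using e)

theorem powInj_one : PowInj G 1 := fun p q _ e => by simpa using e

theorem Law.powInj_two {m : ℕ} (h : Law G (m + 1)) : PowInj G 2 := fun p q hc e =>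
  h.eq_of_sq hc (by rwa [zpow_two, zpow_two] at e)

theorem rho_iter (k : ℤ) (j : ℕ) (P : X G) : ((rho k)^[j] P).1.1 = P.1.1 ∧
    ((rho k)^[j] P).1.2 ^ k = (fun z : G => z * P.1.1 ^ k * z⁻¹)^[j] (P.1.2 ^ k) := by
  induction j with
  | zero => simp
  | succ j ih =>
    rw [Function.iterate_succ_apply', Function.iterate_succ_apply', ← ih.2]
    refine ⟨ih.1, ?_⟩
    change (_ * _ * _) ^ k = _
    rw [conj_zpow, ih.1]

theorem Law.rho_iter {m : ℕ} (h : Law G m) {k : ℤ} (hk : PowInj G k) :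
    (rho k)^[m] = (ca ^ (k * m) : Equiv.Perm (X G)) := by
  funext P
  obtain ⟨h1, h2⟩ := MP_429c3d_al.rho_iter k m P
  have hc : IsConj (P.1.1 ^ k) (P.1.2 ^ k) := by
    obtain ⟨g, hg⟩ := isConj_iff.1 P.2
    exact isConj_iff.2 ⟨g, by rw [← hg, conj_zpow]⟩
  rw [h.iter hc] at h2
  refine Subtype.ext ?_
  rw [ca_zpow]
  refine Prod.ext h1 (hk _ _ ?_ ?_)
  · have := ((rho k)^[m] P).2
    rw [h1] at this
    exact this.symm.trans (isConj_conj P.2 _)
  · rw [h2, conj_zpow, zpow_mul, zpow_natCast]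

/-- `rho k` as a permutation -/
noncomputable def Law.rr {m : ℕ} (h : Law G (m + 1)) {k : ℤ} (hk : PowInj G k) :
    Equiv.Perm (X G) :=
  Equiv.ofBijective (rho k) (by
    have hb : Function.Bijective (rho k : X G → X G)^[m + 1] := by
      rw [h.rho_iter hk]
      exact Equiv.bijective _
    constructor
    · rw [Function.iterate_succ] at hb
      exact hb.1.of_comp
    · rw [Function.iterate_succ'] at hb
      exact hb.2.of_comp)

section Rel

variable {m : ℕ} (h : Law G (m + 1)) {k : ℤ} (hk : PowInj G k)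

theorem Law.rr_apply (P : X G) :
    (h.rr hk P).1 = (P.1.1, P.1.2 ^ k * P.1.1 * (P.1.2 ^ k)⁻¹) := rfl

theorem Law.rr_pow : h.rr hk ^ (m + 1) = ca ^ (k * (m + 1 : ℕ)) := by
  ext1 P
  rw [Equiv.Perm.coe_pow]
  exact congrFun (h.rho_iter hk) P

theorem Law.rr_ca : h.rr hk * ca = ca * h.rr hk := by
  ext1 P
  refine Subtype.ext (Prod.ext rfl ?_)
  change (P.1.1 * P.1.2 * P.1.1⁻¹) ^ k * P.1.1 * ((P.1.1 * P.1.2 * P.1.1⁻¹) ^ k)⁻¹ =
    P.1.1 * (P.1.2 ^ k * P.1.1 * (P.1.2 ^ k)⁻¹) * P.1.1⁻¹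
  rw [conj_zpow]
  group

theorem Law.rr_cb : h.rr hk.neg * cb ^ k = sw * h.rr hk := by
  ext1 P
  refine Subtype.ext ?_
  rw [Equiv.Perm.mul_apply, h.rr_apply, cb_zpow]
  refine Prod.ext rfl ?_
  change _ = P.1.1
  group

end Rel

/-- permutations that fix the first coordinate -/
def fixFst (G : Type*) [Group G] : Subgroup (Equiv.Perm (X G)) where
  carrier := {γ | ∀ P, (γ P).1.1 = P.1.1}
  one_mem' _ := rfl
  mul_mem' {a b} ha hb P := (ha (b P)).trans (hb P)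
  inv_mem' {a} ha P := by simpa using (ha (a⁻¹ P)).symm

/-- If all pairs of conjugate elements satisfy the braid relation, the group is abelian. -/
theorem comm_of_braid (h : ∀ y c : G, IsConj y c → y * c * y = c * y * c) (x y : G) :
    x * y = y * x := by
  have key : ∀ y c : G, IsConj y c → c * y = y * c → c = y := fun y c hc e => by
    have h1 := h y c hc
    rw [e, mul_assoc y c y, e, ← mul_assoc, mul_left_inj, mul_right_inj] at h1
    exact h1.symm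
  suffices hs : ∀ y c : G, IsConj y c → c = y by
    have := hs y _ (isConj_iff.2 ⟨x, rfl⟩)
    rwa [mul_inv_eq_iff_eq_mul] at this
  intro y c hc
  have hb := h y c hc
  have hA : y * c * y * y * (y * c * y)⁻¹ = c := by
    rw [mul_inv_eq_iff_eq_mul]
    calc y * c * y * y = c * y * c * y := by rw [hb]
      _ = c * (y * c * y) := by group
  have hB : y * c * y * c * (y * c * y)⁻¹ = y := by
    rw [mul_inv_eq_iff_eq_mul]
    calc y * c * y * c = y * (c * y * c) := by group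
      _ = y * (y * c * y) := by rw [hb]
  have h1 : y * c * y * (y * c⁻¹) * (y * c * y)⁻¹ = (y * c⁻¹)⁻¹ := by
    calc y * c * y * (y * c⁻¹) * (y * c * y)⁻¹
        = y * c * y * y * (y * c * y)⁻¹ * (y * c * y * c * (y * c * y)⁻¹)⁻¹ := by group
      _ = _ := by
        rw [hA, hB]
        group
  have h2 : (y * c⁻¹)⁻¹ = y * c⁻¹ := key _ _ (isConj_iff.2 ⟨_, h1⟩) (by group)
  have h3 : (c⁻¹ * y)⁻¹ = c⁻¹ * y := by
    calc (c⁻¹ * y)⁻¹ = y⁻¹ * (y * c⁻¹)⁻¹ * y := by group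
      _ = _ := by
        rw [h2]
        group
  have h4 : y * (y * c⁻¹) * y⁻¹ = y * c⁻¹ * (c⁻¹ * y) := by
    calc y * (y * c⁻¹) * y⁻¹ = y * c⁻¹ * y⁻¹ * (y * c * y) * c⁻¹ * y⁻¹ := by group
      _ = y * c⁻¹ * y⁻¹ * (c * y * c) * c⁻¹ * y⁻¹ := by rw [hb]
      _ = y * c⁻¹ * (c⁻¹ * y)⁻¹ := by group
      _ = _ := by rw [h3]
  have h5 : c⁻¹ * y * (y * c⁻¹) = y * c⁻¹ * (c⁻¹ * y) := by
    calc c⁻¹ * y * (y * c⁻¹) = (c⁻¹ * y)⁻¹ * (y * c⁻¹)⁻¹ := by rw [h2, h3]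
      _ = (y * c⁻¹ * (c⁻¹ * y))⁻¹ := (mul_inv_rev _ _).symm
      _ = y * (y * c⁻¹)⁻¹ * y⁻¹ := by
        rw [← h4]
        group
      _ = _ := by rw [h2, h4]
  have h6 := key (y * c⁻¹) (c⁻¹ * y) (isConj_iff.2 ⟨y⁻¹, by group⟩) h5
  refine key y c hc ?_
  calc c * y = c * (y * c⁻¹) * c := by group
    _ = _ := by
      rw [← h6]
      group

end Pool.Agent.Lib.MP_429c3d_al
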